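import Mathlib

set_option autoImplicit false

namespace Pool.Agent.H14.Accurate

open Finset

/-- Every vertex outside `D` has a neighbour in `D`. -/
def Dominating {W : Type} (H : SimpleGraph W) (D : Set W) : Prop :=
  ∀ w, w ∉ D → ∃ d ∈ D, H.Adj w d

/-- `D` is dominating and its complement contains no dominating set with `|D|` elements. -/
def IsAccurate {W : Type} (H : SimpleGraph W) (D : Set W) : Prop :=
  Dominating H D ∧ ¬ ∃ D' : Set W, D' ⊆ Dᶜ ∧ D'.ncard = D.ncard ∧ Dominating H D'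

/-- The accurate domination number. -/
noncomputable def gammaA {W : Type} (H : SimpleGraph W) : ℕ :=
  sInf {m | ∃ D : Set W, IsAccurate H D ∧ D.ncard = m}

/-- Each `P v` is a partition of the neighbourhood of `v` into nonempty blocks. -/
def IsPartFamily {V : Type} (G : SimpleGraph V) (P : V → Set (Set V)) : Prop :=
  ∀ v, (∀ A ∈ P v, A.Nonempty) ∧ (P v).PairwiseDisjoint id ∧ ⋃₀ P v = G.neighborSet v

/-- Vertices of the corona: `inl v` is `(v,1)`, and `inr (v,A)` with `A` a block of `P v`. -/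
abbrev CV {V : Type} (P : V → Set (Set V)) : Type := V ⊕ {q : V × Set V // q.2 ∈ P q.1}

/-- Generating relation of the corona. -/
def crel {V : Type} (G : SimpleGraph V) (P : V → Set (Set V)) : CV P → CV P → Prop
  | Sum.inl v, Sum.inr q => q.1.1 = v
  | Sum.inr q, Sum.inr r => G.Adj q.1.1 r.1.1 ∧ r.1.1 ∈ q.1.2 ∧ q.1.1 ∈ r.1.2
  | _, Sum.inl _ => False

/-- The `P`-corona of `G`. -/
def corona {V : Type} (G : SimpleGraph V) (P : V → Set (Set V)) : SimpleGraph (CV P) :=
  SimpleGraph.fromRel (crel G P)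

section core

variable {p d : ℕ} [Fact p.Prime] (s : Fin d → ZMod p)

open Pointwise in
lemma matching (hs : Function.Injective s) (k : ℕ) (hk : k + 2 ≤ d) (U : Finset (ZMod p))
    (F : Finset (ZMod p × Fin d)) (hF : #F ≤ #U + k) (h1 : ∀ v ∈ U, ∃ a, (v, a) ∈ F)
    (h2 : ∀ v ∈ U, ∀ a, ∃ q ∈ F, q.1 - s q.2 = v - s a) :
    ∃ g : ZMod p → Fin d, (∀ v, (v, g v) ∉ F) ∧ Function.Injective fun v => v - s (g v) := by
  have hp : p.Prime := Fact.out
  let t : ZMod p → Finset (ZMod p) := fun v =>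
    (univ.filter fun a => (v, a) ∉ F).image fun a => v - s a
  suffices h : ∀ S : Finset (ZMod p), #S ≤ #(S.biUnion t) by
    obtain ⟨f, hf, hft⟩ := (all_card_le_biUnion_card_iff_exists_injective t).1 h
    have : ∀ v, ∃ a, (v, a) ∉ F ∧ v - s a = f v := by
      intro v
      obtain ⟨a, ha, he⟩ := mem_image.1 (hft v)
      exact ⟨a, (mem_filter.1 ha).2, he⟩
    choose g hg1 hg2 using this
    refine ⟨g, hg1, ?_⟩
    simpa only [hg2] using hf
  intro S
  let E : Finset (ZMod p × Fin d) := (S ×ˢ univ) \ F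
  have hE : #E + #((S ×ˢ univ) ∩ F) = #S * d := by
    rw [card_sdiff_add_card_inter]
    simp
  have hmap : ∀ q ∈ E, q.1 - s q.2 ∈ S.biUnion t := by
    intro q hq
    have := mem_sdiff.1 hq
    exact mem_biUnion.2 ⟨q.1, (mem_product.1 this.1).1,
      mem_image.2 ⟨q.2, mem_filter.2 ⟨mem_univ _, this.2⟩, rfl⟩⟩
  have hfib : ∀ (l : ZMod p) (T : Finset (Fin d)), (∀ q ∈ E, q.1 - s q.2 = l → q.2 ∈ T) →
      #{q ∈ E | q.1 - s q.2 = l} ≤ #T := by
    intro l T hT
    refine card_le_card_of_injOn Prod.snd (fun q hq => ?_) fun q hq r hr h => ?_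
    · have := mem_filter.1 hq
      exact hT q this.1 this.2
    · have e1 := (mem_filter.1 hq).2
      have e2 := (mem_filter.1 hr).2
      have h' : q.2 = r.2 := h
      refine Prod.ext ?_ h'
      rw [h'] at e1
      exact sub_left_injective (e1.trans e2.symm)
  rcases U.eq_empty_or_nonempty with rfl | hU
  · have h3 : #E ≤ d * #(S.biUnion t) :=
      card_le_mul_card_image_of_maps_to hmap d fun l _ => by
        simpa using hfib l univ (fun _ _ _ => mem_univ _)
    have h4 : #((S ×ˢ univ) ∩ F) ≤ k := (card_le_card inter_subset_right).trans (by simpa using hF)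
    by_contra hlt
    have : #(S.biUnion t) + 1 ≤ #S := by omega
    nlinarith
  · let T : Finset (ZMod p) := univ.image fun a => - s a
    have hT : #T = d := by
      have := card_image_of_injective univ (f := fun a => - s a) (neg_injective.comp hs)
      simpa using this
    have hcd := ZMod.cauchy_davenport hp hU (t := T) (card_pos.1 (by omega))
    let L : Finset (ZMod p) := F.image fun q => q.1 - s q.2
    have hUL : U + T ⊆ L := by
      intro l hl
      obtain ⟨v, hv, _, hb, rfl⟩ := mem_add.1 hl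
      obtain ⟨a, _, rfl⟩ := mem_image.1 hb
      obtain ⟨q, hq, he⟩ := h2 v hv a
      exact mem_image.2 ⟨q, hq, by rw [he, sub_eq_add_neg]⟩
    have hL1 : #(U + T) ≤ #L := card_le_card hUL
    have hL2 : #L ≤ #F := card_image_le
    have hL : L = univ := by
      apply eq_univ_of_card
      apply le_antisymm (card_le_univ _)
      rw [ZMod.card]
      rcases min_le_iff.1 hcd with h | h <;> omega
    have h3 : #E ≤ (d - 1) * #(S.biUnion t) :=
      card_le_mul_card_image_of_maps_to hmap (d - 1) fun l _ => by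
        obtain ⟨q, hq, he⟩ := mem_image.1 (hL ▸ mem_univ l : l ∈ L)
        have := hfib l (univ.erase q.2) (fun r hr hl => by
          refine mem_erase.2 ⟨fun h => (mem_sdiff.1 hr).2 ?_, mem_univ _⟩
          have : r = q := by
            refine Prod.ext ?_ h
            rw [h] at hl
            exact sub_left_injective (hl.trans he.symm)
          rwa [this])
        simpa using this
    have h4 : #(U \ S) ≤ #(F \ (S ×ˢ univ)) := by
      refine card_le_card_of_surjOn Prod.fst fun v hv => ?_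
      have hv' := mem_sdiff.1 (mem_coe.1 hv)
      obtain ⟨a, ha⟩ := h1 v hv'.1
      exact ⟨(v, a), mem_coe.2 (mem_sdiff.2 ⟨ha, fun h => hv'.2 (mem_product.1 h).1⟩), rfl⟩
    have h5 := card_sdiff_add_card_inter F (S ×ˢ univ)
    rw [inter_comm] at h5
    have h6 : #U ≤ #(U \ S) + #S := card_le_card_sdiff_add_card
    obtain ⟨e, rfl⟩ : ∃ e, d = e + 1 := ⟨d - 1, by omega⟩
    simp only [Nat.add_sub_cancel] at h3
    by_contra hlt
    have : #(S.biUnion t) + 1 ≤ #S := by omega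
    nlinarith

end core

section model

variable {p d : ℕ} [Fact p.Prime] (s : Fin d → ZMod p)

def Sidon : Prop := ∀ a b c e, s a + s b = s c + s e → (a = c ∧ b = e) ∨ (a = e ∧ b = c)

def G : SimpleGraph (ZMod p) where
  Adj u v := u ≠ v ∧ ∃ a b, u - s a = v - s b
  symm := ⟨fun _ _ ⟨h, a, b, e⟩ => ⟨h.symm, b, a, e.symm⟩⟩
  loopless := ⟨fun _ h => h.1 rfl⟩

def blk (v : ZMod p) (a : Fin d) : Set (ZMod p) := {u | u ≠ v ∧ ∃ b, v - s a = u - s b}

def P (v : ZMod p) : Set (Set (ZMod p)) := Set.range (blk s v)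

variable {s}

lemma Sidon.inj (h : Sidon s) : Function.Injective s := by
  intro a b e
  rcases h a a b b (by rw [e]) with h | h <;> exact h.1

lemma blk_uniq (h : Sidon s) {u v : ZMod p} {a a' : Fin d} (h1 : u ∈ blk s v a)
    (h2 : u ∈ blk s v a') : a = a' := by
  obtain ⟨hne, b, e⟩ := h1
  obtain ⟨-, b', e'⟩ := h2
  rcases h a b' a' b (by linear_combination e' - e) with h | h
  · exact h.1
  · rw [h.1] at e
    exact absurd (sub_left_injective e).symm hne

lemma blk_nonempty (h : Sidon s) (hd : 2 ≤ d) (v : ZMod p) (a : Fin d) :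
    (blk s v a).Nonempty := by
  have : Nontrivial (Fin d) := Fin.nontrivial_iff_two_le.2 hd
  obtain ⟨b, hb⟩ := exists_ne a
  refine ⟨v - s a + s b, fun e => hb (h.inj ?_), b, by ring⟩
  linear_combination e

lemma part (h : Sidon s) (hd : 2 ≤ d) : IsPartFamily (G s) (P s) := by
  intro v
  refine ⟨?_, ?_, ?_⟩
  · rintro _ ⟨a, rfl⟩
    exact blk_nonempty h hd v a
  · rintro _ ⟨a, rfl⟩ _ ⟨b, rfl⟩ hne
    refine Set.disjoint_left.2 fun u h1 h2 => hne ?_
    rw [blk_uniq h h1 h2]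
  · ext u
    constructor
    · rintro ⟨_, ⟨a, rfl⟩, hne, b, e⟩
      exact ⟨hne.symm, a, b, e⟩
    · rintro ⟨hne, a, b, e⟩
      exact ⟨_, ⟨a, rfl⟩, hne.symm, b, e⟩

def emb (s : Fin d → ZMod p) : ZMod p ⊕ (ZMod p × Fin d) → CV (P s)
  | Sum.inl v => Sum.inl v
  | Sum.inr q => Sum.inr ⟨(q.1, blk s q.1 q.2), ⟨q.2, rfl⟩⟩

lemma emb_bij (h : Sidon s) (hd : 2 ≤ d) : Function.Bijective (emb s) := by
  constructor
  · rintro (v | ⟨v, a⟩) (u | ⟨u, b⟩) e
    · simpa [emb] using e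
    · simp [emb] at e
    · simp [emb] at e
    · simp only [emb, Sum.inr.injEq, Subtype.mk.injEq, Prod.mk.injEq] at e
      obtain ⟨rfl, e⟩ := e
      obtain ⟨w, hw⟩ := blk_nonempty h hd v a
      rw [blk_uniq h hw (e ▸ hw)]
  · rintro (v | ⟨⟨v, A⟩, a, ha⟩)
    · exact ⟨Sum.inl v, rfl⟩
    · refine ⟨Sum.inr (v, a), ?_⟩
      simp only [emb, Sum.inr.injEq, Subtype.mk.injEq, Prod.mk.injEq, true_and]
      exact ha

lemma adj_ll (u v : ZMod p) :
    ¬ (corona (G s) (P s)).Adj (emb s (Sum.inl u)) (emb s (Sum.inl v)) := by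
  simp [corona, emb, crel]

lemma adj_lr (u : ZMod p) (q : ZMod p × Fin d) :
    (corona (G s) (P s)).Adj (emb s (Sum.inl u)) (emb s (Sum.inr q)) ↔ q.1 = u := by
  simp [corona, emb, crel]

lemma adj_rr (h : Sidon s) (q r : ZMod p × Fin d) :
    (corona (G s) (P s)).Adj (emb s (Sum.inr q)) (emb s (Sum.inr r)) ↔
      q.1 ≠ r.1 ∧ q.1 - s q.2 = r.1 - s r.2 := by
  have key : ∀ q r : ZMod p × Fin d, crel (G s) (P s) (emb s (Sum.inr q)) (emb s (Sum.inr r)) ↔
      q.1 ≠ r.1 ∧ q.1 - s q.2 = r.1 - s r.2 := by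
    intro q r
    constructor
    · rintro ⟨h1, ⟨-, b, e⟩, ⟨-, c, e'⟩⟩
      refine ⟨h1.1, ?_⟩
      simp only at e e'
      rcases h q.2 r.2 b c (by linear_combination - e - e') with h' | h'
      · rw [← h'.1] at e
        exact absurd (sub_left_injective e) h1.1
      · rw [h'.2]
        exact e
    · rintro ⟨h1, e⟩
      exact ⟨⟨h1, _, _, e⟩, ⟨h1.symm, _, e⟩, ⟨h1, _, e.symm⟩⟩
  rw [corona, SimpleGraph.fromRel_adj, key, key]
  constructor
  · rintro ⟨-, h1 | h1⟩
    · exact h1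
    · exact ⟨h1.1.symm, h1.2.symm⟩
  · intro h1
    refine ⟨fun e => h1.1 ?_, Or.inl h1⟩
    simp only [emb, Sum.inr.injEq, Subtype.mk.injEq, Prod.mk.injEq] at e
    exact e.1

lemma not_accurate (h : Sidon s) (k : ℕ) (hk : k + 2 ≤ d) (hp : 2 * k ≤ p) (D : Set (CV (P s)))
    (hD : D.ncard ≤ p + k) : ¬ IsAccurate (corona (G s) (P s)) D := by
  classical
  have hd : 2 ≤ d := by omega
  have hb := emb_bij h hd
  rintro ⟨hdom, hno⟩
  apply hno
  let D0 : Finset (ZMod p ⊕ (ZMod p × Fin d)) := univ.filter fun w => emb s w ∈ D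
  have hmem : ∀ w, w ∈ D0 ↔ emb s w ∈ D := fun w => by simp [D0]
  have hD0 : emb s '' (D0 : Set _) = D := by
    ext w
    obtain ⟨w, rfl⟩ := hb.2 w
    rw [hb.1.mem_set_image, mem_coe, hmem]
  have hcard : ∀ X : Finset (ZMod p ⊕ (ZMod p × Fin d)), (emb s '' (X : Set _)).ncard = #X :=
    fun X => by rw [Set.ncard_image_of_injective _ hb.1, Set.ncard_coe_finset]
  have hc : D.ncard = #D0 := by rw [← hD0, hcard]
  have hsum := card_toLeft_add_card_toRight (u := D0)
  have hcompl : #D0.toLeft + #D0.toLeftᶜ = p := by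
    rw [card_add_card_compl, ZMod.card]
  have h1 : ∀ v ∈ D0.toLeftᶜ, ∃ a, (v, a) ∈ D0.toRight := by
    intro v hv
    rw [mem_compl, mem_toLeft, hmem] at hv
    obtain ⟨w, hw, hadj⟩ := hdom _ hv
    obtain ⟨u | ⟨u, a⟩, rfl⟩ := hb.2 w
    · exact absurd hadj (adj_ll _ _)
    · have : u = v := (adj_lr _ _).1 hadj
      subst this
      exact ⟨a, by rwa [mem_toRight, hmem]⟩
  have h2 : ∀ v ∈ D0.toLeftᶜ, ∀ a, ∃ q ∈ D0.toRight, q.1 - s q.2 = v - s a := by
    intro v hv a
    rw [mem_compl, mem_toLeft, hmem] at hv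
    by_cases hva : emb s (Sum.inr (v, a)) ∈ D
    · exact ⟨(v, a), by rwa [mem_toRight, hmem], rfl⟩
    obtain ⟨w, hw, hadj⟩ := hdom _ hva
    obtain ⟨u | q, rfl⟩ := hb.2 w
    · have : v = u := (adj_lr _ _).1 hadj.symm
      subst this
      exact absurd hw hv
    · exact ⟨q, by rwa [mem_toRight, hmem], ((adj_rr h _ _).1 hadj).2.symm⟩
  have h3 : #D0.toLeftᶜ ≤ #D0.toRight := by
    refine card_le_card_of_surjOn Prod.fst fun v hv => ?_
    obtain ⟨a, ha⟩ := h1 v hv
    exact ⟨(v, a), ha, rfl⟩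
  obtain ⟨g, hg1, hg2⟩ := matching s h.inj k hk D0.toLeftᶜ D0.toRight (by omega) h1 h2
  let M : Finset (ZMod p ⊕ (ZMod p × Fin d)) := univ.image fun v => Sum.inr (v, g v)
  have hM : #M ≤ p := card_image_le.trans (by simp)
  have hMD : M ⊆ D0ᶜ := by
    intro w hw
    obtain ⟨v, _, rfl⟩ := mem_image.1 hw
    rw [mem_compl, ← mem_toRight]
    exact hg1 v
  have htot : #D0 + #D0ᶜ = p + p * d := by
    rw [card_add_card_compl]
    simp
  have hpd : p * 2 ≤ p * d := Nat.mul_le_mul_left _ hd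
  obtain ⟨X, hX1, hX2, hX3⟩ := exists_subsuperset_card_eq (n := #D0) hMD (by omega) (by omega)
  refine ⟨emb s '' (X : Set _), ?_, by rw [hcard, hX3, hc], ?_⟩
  · rintro _ ⟨w, hw, rfl⟩
    have := hX2 hw
    rwa [mem_compl, hmem] at this
  · have hin : ∀ v, emb s (Sum.inr (v, g v)) ∈ emb s '' (X : Set _) := fun v =>
      ⟨_, hX1 (mem_image.2 ⟨v, mem_univ _, rfl⟩), rfl⟩
    intro w hw
    obtain ⟨v | ⟨v, b⟩, rfl⟩ := hb.2 w
    · exact ⟨_, hin v, (adj_lr _ _).2 rfl⟩
    · obtain ⟨u, hu⟩ := Finite.surjective_of_injective hg2 (v - s b)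
      refine ⟨_, hin u, (adj_rr h _ _).2 ⟨?_, hu.symm⟩⟩
      rintro (rfl : v = u)
      have : g v = b := h.inj (sub_right_injective hu)
      exact hw (this ▸ hin v)

lemma gamma_gt (h : Sidon s) (k : ℕ) (hk : k + 2 ≤ d) (hp : 2 * k ≤ p) :
    p + k < gammaA (corona (G s) (P s)) := by
  have hne : {m | ∃ D : Set (CV (P s)), IsAccurate (corona (G s) (P s)) D ∧ D.ncard = m}.Nonempty := by
    refine ⟨_, Set.univ, ⟨fun w hw => absurd (Set.mem_univ w) hw, ?_⟩, rfl⟩
    rintro ⟨D', h1, -, h3⟩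
    have : D' = ∅ := by simpa using h1
    obtain ⟨w, hw, -⟩ := h3 (Sum.inl 0) (by simp [this])
    simp [this] at hw
  obtain ⟨D, h1, h2⟩ := Nat.sInf_mem hne
  by_contra hle
  exact not_accurate h k hk hp D (by rw [h2]; exact not_lt.1 hle) h1

end model

lemma sidon_nat {d a b c e : ℕ} (ha : a < d) (hb : b < d) (hc : c < d) (he : e < d)
    (h : a * (2 * d ^ 2) + a ^ 2 + (b * (2 * d ^ 2) + b ^ 2) =
      c * (2 * d ^ 2) + c ^ 2 + (e * (2 * d ^ 2) + e ^ 2)) :
    (a = c ∧ b = e) ∨ (a = e ∧ b = c) := by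
  have ha2 : a ^ 2 < d ^ 2 := Nat.pow_lt_pow_left ha (by norm_num)
  have hb2 : b ^ 2 < d ^ 2 := Nat.pow_lt_pow_left hb (by norm_num)
  have hc2 : c ^ 2 < d ^ 2 := Nat.pow_lt_pow_left hc (by norm_num)
  have he2 : e ^ 2 < d ^ 2 := Nat.pow_lt_pow_left he (by norm_num)
  have h1 : a + b = c + e := by
    rcases lt_trichotomy (a + b) (c + e) with h' | h' | h'
    · have := Nat.mul_le_mul_right (2 * d ^ 2) (Nat.succ_le_of_lt h')
      nlinarith
    · exact h'
    · have := Nat.mul_le_mul_right (2 * d ^ 2) (Nat.succ_le_of_lt h')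
      nlinarith
  have h2 : a ^ 2 + b ^ 2 = c ^ 2 + e ^ 2 := by
    have : (a + b) * (2 * d ^ 2) = (c + e) * (2 * d ^ 2) := by rw [h1]
    nlinarith
  have h3 : ((a : ℤ) - c) * ((a : ℤ) - e) = 0 := by
    have h1' : (b : ℤ) = c + e - a := by
      have : (a : ℤ) + b = c + e := by exact_mod_cast h1
      linarith
    have h2' : (a : ℤ) ^ 2 + b ^ 2 = c ^ 2 + e ^ 2 := by exact_mod_cast h2
    rw [h1'] at h2'
    linarith
  rcases mul_eq_zero.1 h3 with h4 | h4
  · left
    omega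
  · right
    omega

theorem main (k : ℕ) : ∃ (V : Type) (_ : Fintype V) (G : SimpleGraph V) (P : V → Set (Set V)),
    IsPartFamily G P ∧ Fintype.card V + k < gammaA (corona G P) := by
  set d := k + 2 with hd
  obtain ⟨p, hp1, hp⟩ := Nat.exists_infinite_primes (2 * (d * (2 * d ^ 2) + d ^ 2) + 2 * k + 1)
  have : Fact p.Prime := ⟨hp⟩
  let s : Fin d → ZMod p := fun a => ((a.val * (2 * d ^ 2) + a.val ^ 2 : ℕ) : ZMod p)
  have hlt : ∀ a : Fin d, a.val * (2 * d ^ 2) + a.val ^ 2 ≤ d * (2 * d ^ 2) + d ^ 2 := fun a =>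
    Nat.add_le_add (Nat.mul_le_mul_right _ a.2.le) (Nat.pow_le_pow_left a.2.le 2)
  have hs : Sidon s := by
    intro a b c e h
    simp only [s] at h
    rw [← Nat.cast_add, ← Nat.cast_add, ZMod.natCast_eq_natCast_iff', Nat.mod_eq_of_lt,
      Nat.mod_eq_of_lt] at h
    · simpa only [Fin.ext_iff] using sidon_nat a.2 b.2 c.2 e.2 h
    · have := hlt c
      have := hlt e
      omega
    · have := hlt a
      have := hlt b
      omega
  refine ⟨ZMod p, inferInstance, G s, P s, part hs (by omega), ?_⟩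
  rw [ZMod.card]
  exact gamma_gt hs k le_rfl (by omega)

end Pool.Agent.H14.Accurate
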