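import Mathlib

set_option autoImplicit false
set_option maxHeartbeats 400000
set_option linter.unusedSectionVars false

namespace Pool.Agent.H14.AutW

section general
variable {F A : Type} [CommRing F] [CommRing A] [Algebra F A]

lemma lie_sm (D E : Derivation F A A) (f : A) : ⁅D, f • E⁆ = D f • E + f • ⁅D, E⁆ := by
  ext a
  simp only [Derivation.commutator_apply, Derivation.add_apply, Derivation.smul_apply, smul_eq_mul,
    Derivation.leibniz]
  ring

lemma sand (D E : Derivation F A A) (f : A) (h : D f = 0) :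
    ⁅D, ⁅f • f • D, E⁆⁆ = ⁅f • D, ⁅f • D, E⁆⁆ := by
  ext a
  simp only [Derivation.commutator_apply, Derivation.smul_apply, smul_eq_mul,
    Derivation.leibniz, map_sub, map_add, h, map_zero]
  ring

lemma symb (D1 D2 D3 E : Derivation F A A) (x : A) (hx : E x = 1)
    (h : ∀ g : A, ⁅D1, ⁅D3, g • E⁆⁆ = ⁅D2, ⁅D2, g • E⁆⁆) (a b : A) :
    D1 a * D3 b + D1 b * D3 a = 2 * (D2 a * D2 b) := by
  have h1 := h 1
  rw [one_smul] at h1
  have H : ∀ g : A, D1 (D3 g) + D3 g * ⁅D1, E⁆ x + D1 g * ⁅D3, E⁆ x =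
      D2 (D2 g) + 2 * (D2 g * ⁅D2, E⁆ x) := by
    intro g
    have h2 := h g
    rw [lie_sm, lie_sm, lie_add, lie_add, lie_sm, lie_sm, lie_sm, lie_sm, h1] at h2
    have h3 := congrArg (fun K : Derivation F A A => K x) h2
    simp only [Derivation.add_apply, Derivation.smul_apply, smul_eq_mul, hx] at h3
    linear_combination h3
  have e1 := H (a * b)
  simp only [Derivation.leibniz, smul_eq_mul, map_add] at e1
  linear_combination e1 - a * H b - b * H a

lemma geo {A : Type} [CommRing A] [IsDomain A] [UniqueFactorizationMonoid A] (c : ℕ → A)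
    (h0 : c 0 ≠ 0) (h : ∀ n, c n * c (n + 2) = c (n + 1) ^ 2) : c 0 ∣ c 1 := by
  have h1 : ∀ n, c 0 * c (n + 1) = c 1 * c n := by
    intro n
    induction n with
    | zero => ring
    | succ n ih =>
      by_cases hn : c n = 0
      · have e1 : c (n + 1) = 0 := by
          have := h n
          rw [hn, zero_mul] at this
          exact pow_eq_zero_iff two_ne_zero |>.1 this.symm
        have e2 : c (n + 2) = 0 := by
          have := h (n + 1)
          rw [e1, zero_mul] at this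
          exact pow_eq_zero_iff two_ne_zero |>.1 this.symm
        rw [e1, e2]; ring
      · apply mul_left_cancel₀ hn
        linear_combination c 0 * h n + c (n + 1) * ih
  obtain ⟨α, β, γ, hr, ha, hb⟩ := UniqueFactorizationMonoid.exists_reduced_factors' (c 1) (c 0) h0
  have hγ : γ ≠ 0 := by rintro rfl; apply h0; rw [← hb, zero_mul]
  have hβ : β ≠ 0 := by rintro rfl; apply h0; rw [← hb, mul_zero]
  have key : ∀ k : ℕ, ∀ d : ℕ → A, (∀ n, β * d (n + 1) = α * d n) → β ^ k ∣ d 0 := by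
    intro k
    induction k with
    | zero => intro d _; simp
    | succ k ih =>
      intro d hd
      have : ∀ n, ∃ e, d n = β * e := fun n => hr.symm.dvd_of_dvd_mul_left ⟨d (n + 1), (hd n).symm⟩
      choose e he using this
      rw [he 0, pow_succ']
      refine mul_dvd_mul_left β (ih e fun n => mul_left_cancel₀ hβ ?_)
      rw [← he, hd, he n]; ring
  have hu : IsUnit β := by
    by_contra hu
    obtain ⟨n, hn⟩ := FiniteMultiplicity.of_not_isUnit hu h0
    refine hn (key _ c fun n => mul_left_cancel₀ hγ ?_)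
    rw [← mul_assoc, ← mul_assoc, ha, hb, h1]
  rw [← ha, ← hb]
  exact mul_dvd_mul_left γ hu.dvd

end general

variable {F A : Type} [Field F] [CommRing A] [Algebra F A] [IsDomain A]
  [UniqueFactorizationMonoid A] [CharZero A]

structure Good (W : Derivation F A A → Prop) (X : ℕ → A) (pderiv : ℕ → Derivation F A A) :
    Prop where
  add : ∀ d e, W d → W e → W (d + e)
  sm : ∀ (f : A) d, W d → W (f • d)
  lie : ∀ d e, W d → W e → W ⁅d, e⁆
  pd : ∀ i, W (pderiv i)
  self : ∀ i, pderiv i (X i) = 1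
  ne : ∀ {i j}, j ≠ i → pderiv i (X j) = 0
  comm : ∀ i j, ⁅pderiv i, pderiv j⁆ = 0
  ind : ∀ P : A → Prop, (∀ c : F, P (algebraMap F A c)) → (∀ a b, P a → P b → P (a + b)) →
    (∀ a n, P a → P (a * X n)) → ∀ a, P a
  lift : ∀ p : ℕ → A, ∃ φ : A →ₐ[F] A, ∀ i, φ (X i) = p i

structure IsAut (W : Derivation F A A → Prop) (θ : Derivation F A A → Derivation F A A) : Prop where
  mem : ∀ d, W d → W (θ d)
  surj : ∀ e, W e → ∃ d, W d ∧ θ d = e
  inj : ∀ d e, W d → W e → θ d = θ e → d = e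
  hom : ∀ d e, W d → W e → θ (d + e) = θ d + θ e ∧ θ ⁅d, e⁆ = ⁅θ d, θ e⁆
  smul : ∀ (c : F) d, W d → θ (c • d) = c • θ d

variable {W : Derivation F A A → Prop} {θ : Derivation F A A → Derivation F A A}
  {X : ℕ → A} {pderiv : ℕ → Derivation F A A}

lemma C_sm (c : F) (d : Derivation F A A) : algebraMap F A c • d = c • d := algebraMap_smul A c d

lemma Good.zero (g : Good W X pderiv) : W 0 := by simpa using g.sm 0 _ (g.pd 0)
lemma Good.csm (g : Good W X pderiv) (c : F) {d : Derivation F A A} (h : W d) : W (c • d) := by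
  rw [← C_sm]; exact g.sm _ _ h
lemma Good.sub (g : Good W X pderiv) {d e : Derivation F A A} (hd : W d) (he : W e) : W (d - e) := by
  have := g.add _ _ hd (g.sm (-1) _ he)
  rwa [neg_one_smul, ← sub_eq_add_neg] at this

lemma IsAut.zero (g : Good W X pderiv) (h : IsAut W θ) : θ 0 = 0 := by
  have := h.smul 0 0 g.zero
  rwa [zero_smul, zero_smul] at this

lemma IsAut.sub (g : Good W X pderiv) (h : IsAut W θ) {d e : Derivation F A A} (hd : W d) (he : W e) :
    θ (d - e) = θ d - θ e := by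
  have := (h.hom _ _ (g.sub hd he) he).1
  rw [sub_add_cancel] at this
  rw [this]; abel

lemma IsAut.ne (g : Good W X pderiv) (h : IsAut W θ) {d : Derivation F A A} (hd : W d) (h0 : d ≠ 0) : θ d ≠ 0 :=
  fun e => h0 (h.inj _ _ hd g.zero (e.trans (h.zero g).symm))

lemma Good.pd_ne (g : Good W X pderiv) (i : ℕ) : pderiv i ≠ 0 := fun e => by
  have := congrArg (fun K : Derivation F A A => K (X i)) e
  simp [g.self] at this

lemma sm_eq_zero {a : A} {d : Derivation F A A} (h : a • d = 0) (hd : d ≠ 0) : a = 0 := by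
  by_contra ha
  apply hd
  ext1 i
  have := congrArg (fun K : Derivation F A A => K i) h
  simpa [ha] using this

lemma IsAut.symb (g : Good W X pderiv) (h : IsAut W θ) {D : Derivation F A A} (hD : W D) {f : A} (hf : D f = 0)
    (a b : A) :
    θ D a * θ (f • f • D) b + θ D b * θ (f • f • D) a = 2 * (θ (f • D) a * θ (f • D) b) := by
  refine AutW.symb _ _ _ (pderiv 0) (X 0) (g.self 0) (fun k => ?_) a b
  obtain ⟨E, hE, e⟩ := h.surj _ (g.sm k _ (g.pd 0))
  have h1 := g.sm f _ hD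
  have h2 := g.sm f _ h1
  rw [← e, ← (h.hom _ _ h2 hE).2, ← (h.hom _ _ h1 hE).2, ← (h.hom _ _ hD (g.lie _ _ h2 hE)).2,
    ← (h.hom _ _ h1 (g.lie _ _ h1 hE)).2, sand _ _ _ hf]

lemma IsAut.par (g : Good W X pderiv) (h : IsAut W θ) {D : Derivation F A A} (hD : W D) {f : A} (hf : D f = 0) :
    ∃ l : A, θ (f • D) = l • θ D := by
  by_cases h0 : D = 0
  · exact ⟨0, by rw [h0, smul_zero, h.zero g, smul_zero]⟩
  have h1 := h.ne g hD h0
  obtain ⟨a, ha⟩ : ∃ a, θ D a ≠ 0 := by
    by_contra hc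
    push Not at hc
    exact h1 (Derivation.ext hc)
  have two : (2 : A) ≠ 0 := two_ne_zero
  have sq : ∀ E : Derivation F A A, W E → E f = 0 → ∀ a, θ E a * θ (f • f • E) a = θ (f • E) a ^ 2 := by
    intro E hE hf a
    apply mul_left_cancel₀ two
    linear_combination h.symb g hE hf a a
  obtain ⟨l, hl⟩ := geo (fun n => θ (f ^ n • D) a) (by simpa using ha) (fun n => by
    have := sq (f ^ n • D) (g.sm _ _ hD) (by simp [hf]) a
    rw [smul_smul, smul_smul, smul_smul] at this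
    rw [show f ^ (n + 2) = f * f * f ^ n by ring, show f ^ (n + 1) = f * f ^ n by ring]
    exact this)
  simp only [pow_zero, one_smul, pow_one] at hl
  refine ⟨l, Derivation.ext fun b => ?_⟩
  have e1 := h.symb g hD hf a b
  have e2 := sq D hD hf a
  have e3 := sq D hD hf b
  have e4 : (θ D a * θ (f • D) b - θ D b * θ (f • D) a) ^ 2 = 0 := by
    linear_combination (θ D a * θ D b) * e1 - θ D a ^ 2 * e3 - θ D b ^ 2 * e2
  have e5 := pow_eq_zero_iff two_ne_zero |>.1 e4
  apply mul_left_cancel₀ ha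
  rw [Derivation.smul_apply, smul_eq_mul]
  linear_combination e5 + θ D b * hl

lemma IsAut.indep (g : Good W X pderiv) (h : IsAut W θ) {z w : ℕ} (hzw : z ≠ w) {a b : A}
    (e : a • θ (pderiv z) = b • θ (pderiv w)) : b = 0 := by
  obtain ⟨l, hl⟩ := h.par g (g.pd z) (f := X w) (g.ne hzw.symm)
  have hz := h.ne g (g.pd z) (g.pd_ne z)
  have e1 := (h.hom _ _ (g.pd z) (g.sm (X w) _ (g.pd z))).2
  rw [hl, lie_sm, lie_sm, lie_self, lie_self, g.ne hzw.symm, smul_zero, smul_zero,
    zero_smul, add_zero, add_zero, h.zero g] at e1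
  have e2 := (h.hom _ _ (g.pd w) (g.sm (X w) _ (g.pd z))).2
  rw [hl, lie_sm, lie_sm, ← (h.hom _ _ (g.pd w) (g.pd z)).2, g.comm, g.self, h.zero g,
    smul_zero, smul_zero, one_smul, add_zero, add_zero] at e2
  have e3 := sm_eq_zero e1.symm hz
  have e4 : θ (pderiv w) l - 1 = 0 := sm_eq_zero (by rw [sub_smul, one_smul, ← e2, sub_self]) hz
  have e5 := congrArg (fun K : Derivation F A A => K l) e
  simp only [Derivation.smul_apply, smul_eq_mul, e3] at e5
  linear_combination -e5 - b * e4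

lemma IsAut.unif (g : Good W X pderiv) (h : IsAut W θ) {f : A} {z w : ℕ} (hzw : z ≠ w)
    (hz : pderiv z f = 0) (hw : pderiv w f = 0) :
    ∃ l : A, ∀ D, W D → D f = 0 → θ (f • D) = l • θ D := by
  have step : ∀ D E : Derivation F A A, W D → W E → D f = 0 → E f = 0 → ∀ a b : A,
      θ (f • D) = a • θ D → θ (f • E) = b • θ E →
      ∃ c : A, (a - c) • θ D = (c - b) • θ E := by
    intro D E hD hE h1 h2 a b ha hb
    obtain ⟨c, hc⟩ := h.par g (g.add _ _ hD hE) (f := f) (by simp [h1, h2])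
    rw [smul_add, (h.hom _ _ (g.sm f _ hD) (g.sm f _ hE)).1, (h.hom _ _ hD hE).1, ha, hb] at hc
    exact ⟨c, by linear_combination (norm := module) hc⟩
  obtain ⟨a, ha⟩ := h.par g (g.pd z) hz
  obtain ⟨b, hb⟩ := h.par g (g.pd w) hw
  have hab : a = b := by
    obtain ⟨c, hc⟩ := step _ _ (g.pd z) (g.pd w) hz hw a b ha hb
    have e1 := h.indep g hzw hc
    have e2 := h.indep g hzw.symm hc.symm
    linear_combination e1 + e2
  subst hab
  refine ⟨a, fun D hD hf => ?_⟩
  obtain ⟨l, hl⟩ := h.par g hD hf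
  obtain ⟨c, hc⟩ := step _ _ hD (g.pd z) hf hz l a hl ha
  obtain ⟨c', hc'⟩ := step _ _ hD (g.pd w) hf hw l a hl hb
  have e : ((l - c') * (c - a)) • θ (pderiv z) = ((l - c) * (c' - a)) • θ (pderiv w) := by
    rw [mul_smul, mul_smul, ← hc, ← hc', smul_comm]
  rw [hl]
  rcases mul_eq_zero.1 (h.indep g hzw e) with e1 | e1
  · rw [e1, zero_smul] at hc
    have e2 := sm_eq_zero hc.symm (h.ne g (g.pd z) (g.pd_ne z))
    rw [show l = a by linear_combination e1 + e2]
  · rw [e1, zero_smul, show c' = a by linear_combination e1] at hc'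
    linear_combination (norm := module) hc'

theorem IsAut.var (g : Good W X pderiv) (h : IsAut W θ) :
    ∃ p : ℕ → A, ∀ x D, W D → θ ((X x : A) • D) = p x • θ D := by
  have h1 : ∀ x : ℕ, ∃ l : A, ∀ D, W D → D (X x) = 0 → θ ((X x : A) • D) = l • θ D :=
    fun x => h.unif g (z := x + 1) (w := x + 2) (by omega) (g.ne (by omega))
      (g.ne (by omega))
  choose p hp using h1
  have pdX : ∀ {x y : ℕ}, x ≠ y → ∀ k : A, (k • (pderiv y : Derivation F A A)) (X x) = 0 := fun hxy k => by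
    rw [Derivation.smul_apply, g.ne hxy, smul_zero]
  have wk : ∀ (k : A) (x : ℕ), W (k • pderiv x) := fun k x => g.sm _ _ (g.pd x)
  have h2 : ∀ x y : ℕ, x ≠ y → ∀ k : A,
      θ ((X x : A) • k • pderiv x) - p x • θ (k • pderiv x) =
      θ ((X y : A) • k • pderiv y) - p y • θ (k • pderiv y) := by
    intro x y hxy k
    obtain ⟨l, hl⟩ := h.unif g (f := X x + X y) (z := x + y + 1) (w := x + y + 2) (by omega)
      (by rw [map_add, g.ne (by omega), g.ne (by omega), add_zero])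
      (by rw [map_add, g.ne (by omega), g.ne (by omega), add_zero])
    have e1 := hl _ (g.pd (x + y + 1))
      (by rw [map_add, g.ne (by omega), g.ne (by omega), add_zero])
    rw [add_smul, (h.hom _ _ (wk _ _) (wk _ _)).1, hp x _ (g.pd _) (g.ne (by omega)),
      hp y _ (g.pd _) (g.ne (by omega)), ← add_smul, ← sub_eq_zero, ← sub_smul] at e1
    have e2 := sm_eq_zero e1 (h.ne g (g.pd _) (g.pd_ne _))
    have e3 := hl _ (g.sub (wk k x) (wk k y)) (by
      simp [g.ne hxy, g.ne hxy.symm, g.self])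
    rw [add_smul, smul_sub, smul_sub,
      (h.hom _ _ (g.sub (g.sm _ _ (wk _ _)) (g.sm _ _ (wk _ _)))
        (g.sub (g.sm _ _ (wk _ _)) (g.sm _ _ (wk _ _)))).1,
      h.sub g (g.sm _ _ (wk _ _)) (g.sm _ _ (wk _ _)), h.sub g (g.sm _ _ (wk _ _)) (g.sm _ _ (wk _ _)),
      h.sub g (wk _ _) (wk _ _), hp x _ (wk k y) (pdX hxy k), hp y _ (wk k x) (pdX hxy.symm k),
      show l = p x + p y by linear_combination -e2] at e3
    linear_combination (norm := module) e3
  have h3 : ∀ x D, W D → D (X x) = 0 → θ D (p x) = 0 := by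
    intro x D hD hx
    have e1 := (h.hom _ _ hD (wk (X x) (x + 1))).2
    rw [hp x _ (g.pd _) (g.ne (by omega)), lie_sm, lie_sm, hx, zero_smul, zero_add,
      hp x _ (g.lie _ _ hD (g.pd _)) (by
        rw [Derivation.commutator_apply, hx, g.ne (by omega), map_zero, map_zero,
          sub_zero]), (h.hom _ _ hD (g.pd _)).2, right_eq_add] at e1
    exact sm_eq_zero e1 (h.ne g (g.pd _) (g.pd_ne _))
  have h4 : ∀ x D, W D → D (X x) = 0 →
      ⁅θ D, θ ((X x : A) • pderiv x) - p x • θ (pderiv x)⁆ = 0 := by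
    intro x D hD hx
    rw [lie_sub, ← (h.hom _ _ hD (wk _ _)).2, lie_sm, lie_sm, hx, h3 x D hD hx, zero_smul, zero_smul,
      zero_add, zero_add, hp x _ (g.lie _ _ hD (g.pd _)) (by
        rw [Derivation.commutator_apply, hx, g.self, map_zero, Derivation.map_one_eq_zero,
          sub_zero]), (h.hom _ _ hD (g.pd _)).2, sub_self]
  have split : ∀ (x : ℕ) (D : Derivation F A A), (D - D (X x) • pderiv x : Derivation F A A) (X x) = 0 := fun x D => by
    simp [g.self]
  have h5 : ∀ x, θ ((X x : A) • pderiv x) - p x • θ (pderiv x) = 0 := by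
    intro x
    have e0 := h2 x (x + 1) (by omega) 1
    simp only [one_smul] at e0
    have e1 : ∀ E, W E → ⁅E, θ ((X x : A) • pderiv x) - p x • θ (pderiv x)⁆ = 0 := by
      intro E hE
      obtain ⟨D, hD, rfl⟩ := h.surj E hE
      have a1 := h4 x _ (g.sub hD (wk (D (X x)) x)) (split x D)
      have a2 := h4 (x + 1) _ (wk (D (X x)) x) (pdX (by omega) _)
      rw [← e0] at a2
      rw [h.sub g hD (wk _ _), sub_lie, a2, sub_zero] at a1
      exact a1
    generalize θ ((X x : A) • pderiv x) - p x • θ (pderiv x) = δ at e1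
    refine Derivation.ext fun k => ?_
    have a1 := e1 _ (wk k 0)
    rw [← lie_skew, lie_sm, ← lie_skew, e1 _ (g.pd 0), neg_zero, smul_zero, add_zero, neg_eq_zero] at a1
    exact sm_eq_zero a1 (g.pd_ne 0)
  have h6 : ∀ k : A, ∀ x, θ ((X x : A) • k • pderiv x) - p x • θ (k • pderiv x) = 0 := by
    refine g.ind _ (fun c => ?_) (fun a b ha hb => ?_) (fun a y ha => ?_)
    · intro x
      rw [smul_comm, C_sm, C_sm, h.smul _ _ (wk _ _), h.smul _ _ (g.pd _), smul_comm, ← smul_sub, h5,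
        smul_zero]
    · intro x
      rw [add_smul, smul_add, (h.hom _ _ (g.sm _ _ (wk _ _)) (g.sm _ _ (wk _ _))).1,
        (h.hom _ _ (wk _ _) (wk _ _)).1]
      linear_combination (norm := module) ha x + hb x
    · have : ∀ x, x ≠ y →
          θ ((X x : A) • (a * X y) • pderiv x) - p x • θ ((a * X y) • pderiv x) = 0 := by
        intro x hxy
        rw [mul_comm a, mul_smul, smul_comm (X x : A), hp y _ (wk _ _) (pdX hxy.symm _),
          hp y _ (g.sm _ _ (wk _ _)) (by rw [smul_smul]; exact pdX hxy.symm _), smul_comm (p x),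
          ← smul_sub, ha, smul_zero]
      intro x
      by_cases hxy : x = y
      · rw [h2 x (x + 1) (by omega)]
        exact this _ (by omega)
      · exact this x hxy
  refine ⟨p, fun x D hD => ?_⟩
  have a1 := hp x _ (g.sub hD (wk (D (X x)) x)) (split x D)
  rw [smul_sub, h.sub g (g.sm _ _ hD) (g.sm _ _ (wk _ _)), h.sub g hD (wk _ _)] at a1
  linear_combination (norm := module) a1 + h6 (D (X x)) x

theorem IsAut.semi (g : Good W X pderiv) (h : IsAut W θ) :
    ∃ φ : A →ₐ[F] A, ∀ (f : A) D, W D → θ (f • D) = φ f • θ D := by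
  obtain ⟨p, hp⟩ := h.var g
  obtain ⟨φ, hφ⟩ := g.lift p
  refine ⟨φ, g.ind _ (fun c => ?_) (fun a b ha hb => ?_) (fun a y ha => ?_)⟩
  · intro D hD; rw [C_sm, h.smul _ _ hD, φ.commutes, C_sm]
  · intro D hD
    rw [add_smul, (h.hom _ _ (g.sm _ _ hD) (g.sm _ _ hD)).1, ha D hD, hb D hD, map_add, add_smul]
  · intro D hD
    rw [mul_smul, ha _ (g.sm _ _ hD), hp y D hD, map_mul, hφ, mul_smul]

lemma IsAut.inv (g : Good W X pderiv) (h : IsAut W θ) :
    ∃ η : Derivation F A A → Derivation F A A, IsAut W η ∧ ∀ d, W d → η (θ d) = d ∧ θ (η d) = d := by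
  have hs := h.surj
  choose! η h1 h2 using hs
  have h3 : ∀ d, W d → η (θ d) = d := fun d hd =>
    h.inj _ _ (h1 _ (h.mem d hd)) hd (h2 _ (h.mem d hd))
  refine ⟨η, ⟨h1, fun e he => ⟨θ e, h.mem e he, h3 e he⟩, fun d e hd he k => ?_,
    fun d e hd he => ⟨?_, ?_⟩, fun c d hd => ?_⟩, fun d hd => ⟨h3 d hd, h2 d hd⟩⟩
  · rw [← h2 d hd, k, h2 e he]
  · rw [← h3 _ (g.add _ _ (h1 d hd) (h1 e he)), (h.hom _ _ (h1 d hd) (h1 e he)).1, h2 d hd, h2 e he]
  · rw [← h3 _ (g.lie _ _ (h1 d hd) (h1 e he)), (h.hom _ _ (h1 d hd) (h1 e he)).2, h2 d hd, h2 e he]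
  · rw [← h3 _ (g.csm c (h1 d hd)), h.smul _ _ (h1 d hd), h2 d hd]

theorem IsAut.main (g : Good W X pderiv) (h : IsAut W θ) :
    ∃ φ : A ≃ₐ[F] A, ∀ d, W d → ∀ f, θ d (φ f) = φ (d f) := by
  obtain ⟨η, hη, hi⟩ := h.inv g
  obtain ⟨φ, hφ⟩ := h.semi g
  obtain ⟨ψ, hψ⟩ := hη.semi g
  have a1 : ∀ f, ψ (φ f) = f := fun f => by
    have := (hi _ (g.sm f _ (g.pd 0))).1
    rw [hφ f _ (g.pd 0), hψ _ _ (h.mem _ (g.pd 0)), (hi _ (g.pd 0)).1, ← sub_eq_zero,
      ← sub_smul] at this
    exact sub_eq_zero.1 (sm_eq_zero this (g.pd_ne 0))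
  have a2 : ∀ f, φ (ψ f) = f := fun f => by
    have := (hi _ (g.sm f _ (g.pd 0))).2
    rw [hψ f _ (g.pd 0), hφ _ _ (hη.mem _ (g.pd 0)), (hi _ (g.pd 0)).2, ← sub_eq_zero,
      ← sub_smul] at this
    exact sub_eq_zero.1 (sm_eq_zero this (g.pd_ne 0))
  refine ⟨AlgEquiv.ofAlgHom φ ψ (AlgHom.ext a2) (AlgHom.ext a1), fun d hd f => ?_⟩
  show θ d (φ f) = φ (d f)
  have e := (h.hom _ _ hd (g.sm f _ (g.pd 0))).2
  rw [lie_sm, (h.hom _ _ (g.sm _ _ (g.pd 0)) (g.sm _ _ (g.lie _ _ hd (g.pd 0)))).1,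
    hφ _ _ (g.pd 0), hφ _ _ (g.pd 0), hφ _ _ (g.lie _ _ hd (g.pd 0)), lie_sm,
    (h.hom _ _ hd (g.pd 0)).2, add_left_inj, ← sub_eq_zero, ← sub_smul] at e
  exact (sub_eq_zero.1 (sm_eq_zero e (h.ne g (g.pd 0) (g.pd_ne 0)))).symm

end Pool.Agent.H14.AutW
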