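import Pool.Agent.H14.AutW

set_option autoImplicit false
set_option maxHeartbeats 400000

open MvPolynomial

namespace Pool.Agent.H14.AutW

variable {F : Type} [Field F] [CharZero F]

lemma pd_vars {n : ℕ} {q : MvPolynomial ℕ F} (h : n ∈ q.vars) : pderiv n q ≠ 0 := by
  obtain ⟨m, hm, hn⟩ := (mem_vars_iff_mem_support n).1 h
  intro e
  have h1 := coeff_pderiv (i := n) q (m - Finsupp.single n 1)
  have h2 : m - Finsupp.single n 1 + Finsupp.single n 1 = m :=
    tsub_add_cancel_of_le (Finsupp.single_le_iff.2
      (Nat.one_le_iff_ne_zero.2 (Finsupp.mem_support_iff.1 hn)))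
  rw [e, coeff_zero, h2] at h1
  rcases mul_eq_zero.1 h1.symm with h3 | h3
  · exact mem_support_iff.1 hm h3
  · exact Nat.cast_add_one_ne_zero _ h3

lemma pd_comm (i j : ℕ) :
    ⁅(pderiv i : Derivation F (MvPolynomial ℕ F) (MvPolynomial ℕ F)), (pderiv j :
      Derivation F (MvPolynomial ℕ F) (MvPolynomial ℕ F))⁆ = 0 := by
  ext1 k
  classical
  simp only [Derivation.commutator_apply, pderiv_X, Pi.single_apply]
  split_ifs <;> simp

lemma good_fin : Good (fun d : Derivation F (MvPolynomial ℕ F) (MvPolynomial ℕ F) =>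
    Set.Finite {i : ℕ | d (X i) ≠ 0}) X pderiv where
  add d e hd he := (hd.union he).subset fun i hi => by
    by_contra hc
    simp only [Set.mem_union, Set.mem_ofPred_eq, not_or, not_not] at hc
    exact hi (by simp [hc.1, hc.2])
  sm f d hd := hd.subset fun i hi hc => hi (by simp [hc])
  lie d e hd he := (hd.union he).subset fun i hi => by
    by_contra hc
    simp only [Set.mem_union, Set.mem_ofPred_eq, not_or, not_not] at hc
    exact hi (by simp [Derivation.commutator_apply, hc.1, hc.2])
  pd n := (Set.finite_singleton n).subset fun i hi => by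
    by_contra hc
    exact hi (pderiv_X_of_ne hc)
  self := pderiv_X_self
  ne := pderiv_X_of_ne
  comm := pd_comm
  ind P h1 h2 h3 a := MvPolynomial.induction_on a h1 h2 h3
  lift p := ⟨aeval p, fun i => aeval_X p i⟩

lemma good_all : Good (fun _ : Derivation F (MvPolynomial ℕ F) (MvPolynomial ℕ F) => True)
    X pderiv where
  add _ _ _ _ := trivial
  sm _ _ _ := trivial
  lie _ _ _ _ := trivial
  pd _ := trivial
  self := pderiv_X_self
  ne := pderiv_X_of_ne
  comm := pd_comm
  ind P h1 h2 h3 a := MvPolynomial.induction_on a h1 h2 h3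
  lift p := ⟨aeval p, fun i => aeval_X p i⟩

end Pool.Agent.H14.AutW
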