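import Mathlib

/-! Maximal ergodic theorem, weak type inequality and Birkhoff pointwise ergodic theorem. -/

namespace Pool.Agent.H14.Birk

open MeasureTheory Set Filter Topology
open scoped ENNReal

variable {X : Type*} [MeasurableSpace X] {μ : Measure X} {T : X → X}

/-- Birkhoff sum -/
noncomputable def S (T : X → X) (φ : X → ℝ) (k : ℕ) (x : X) : ℝ :=
  ∑ j ∈ Finset.range k, φ (T^[j] x)

/-- Birkhoff average -/
noncomputable def avg (T : X → X) (φ : X → ℝ) (k : ℕ) (x : X) : ℝ :=
  (1 / (k : ℝ)) * ∑ j ∈ Finset.range k, φ (T^[j] x)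

omit [MeasurableSpace X] in
theorem S_succ (φ : X → ℝ) (k : ℕ) (x : X) : S T φ (k + 1) x = φ x + S T φ k (T x) := by
  unfold S
  rw [Finset.sum_range_succ', add_comm]
  rfl

theorem S_meas (hT : Measurable T) {φ : X → ℝ} (hφ : Measurable φ) (k : ℕ) :
    Measurable (S T φ k) :=
  Finset.measurable_sum _ fun j _ => hφ.comp (hT.iterate j)

theorem avg_meas (hT : Measurable T) {φ : X → ℝ} (hφ : Measurable φ) (k : ℕ) :
    Measurable (avg T φ k) := (S_meas hT hφ k).const_mul _

theorem avg_int (hT : MeasurePreserving T μ μ) {φ : X → ℝ} (hφ : Integrable φ μ) (k : ℕ) :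
    Integrable (avg T φ k) μ := by
  refine Integrable.const_mul (integrable_finset_sum _ fun j _ => ?_) _
  exact (hT.iterate j).integrable_comp_of_integrable hφ

theorem avg_congr (hT : MeasurePreserving T μ μ) {φ ψ : X → ℝ} (h : φ =ᵐ[μ] ψ) :
    ∀ᵐ x ∂μ, ∀ k, avg T φ k x = avg T ψ k x := by
  have : ∀ᵐ x ∂μ, ∀ j, φ (T^[j] x) = ψ (T^[j] x) :=
    ae_all_iff.2 fun j => (hT.iterate j).quasiMeasurePreserving.ae_eq_comp h
  filter_upwards [this] with x hx k
  simp only [avg, hx]

/-- running maximum of the Birkhoff sums -/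
noncomputable def F (T : X → X) (φ : X → ℝ) : ℕ → X → ℝ
  | 0 => fun _ => 0
  | n + 1 => fun x => max 0 (φ x + F T φ n (T x))

omit [MeasurableSpace X] in
theorem F_nonneg (φ : X → ℝ) (n : ℕ) (x : X) : 0 ≤ F T φ n x := by
  cases n with
  | zero => exact le_rfl
  | succ n => exact le_max_left _ _

omit [MeasurableSpace X] in
theorem F_mono (φ : X → ℝ) (n : ℕ) (x : X) : F T φ n x ≤ F T φ (n + 1) x := by
  induction n generalizing x with
  | zero => exact F_nonneg φ 1 x
  | succ n ih => exact max_le_max le_rfl (by linarith [ih (T x)])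

omit [MeasurableSpace X] in
theorem S_le_F (φ : X → ℝ) (n : ℕ) (x : X) : S T φ n x ≤ F T φ n x := by
  induction n generalizing x with
  | zero => simp [S, F]
  | succ n ih => rw [S_succ]; exact le_max_of_le_right (by linarith [ih (T x)])

omit [MeasurableSpace X] in
theorem F_eq (φ : X → ℝ) (n : ℕ) (x : X) : ∃ k, F T φ n x = S T φ k x := by
  induction n generalizing x with
  | zero => exact ⟨0, by simp [S, F]⟩
  | succ n ih =>
    obtain ⟨k, hk⟩ := ih (T x)
    rcases max_choice 0 (φ x + F T φ n (T x)) with h | h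
    · exact ⟨0, by simp only [F, h, S]; simp⟩
    · exact ⟨k + 1, by rw [S_succ, ← hk]; exact h⟩

theorem F_meas (hT : Measurable T) {φ : X → ℝ} (hφ : Measurable φ) (n : ℕ) :
    Measurable (F T φ n) := by
  induction n with
  | zero => exact measurable_const
  | succ n ih => exact measurable_const.max (hφ.add (ih.comp hT))

theorem F_int (hT : MeasurePreserving T μ μ) {φ : X → ℝ} (hφ : Integrable φ μ) (n : ℕ) :
    Integrable (F T φ n) μ := by
  induction n with
  | zero => exact integrable_zero _ _ _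
  | succ n ih =>
    have h1 : Integrable (fun x => φ x + F T φ n (T x)) μ :=
      hφ.add (hT.integrable_comp_of_integrable ih)
    have := h1.pos_part
    refine this.congr (Eventually.of_forall fun x => ?_)
    simp only [F, max_comm]

/-- maximal ergodic theorem -/
theorem maximal (hT : MeasurePreserving T μ μ) {φ : X → ℝ} (hm : Measurable φ)
    (hφ : Integrable φ μ) : 0 ≤ ∫ x in {x | ∃ k, 0 < S T φ k x}, φ x ∂μ := by
  set E : ℕ → Set X := fun n => {x | 0 < F T φ (n + 1) x} with hE
  have hEm : ∀ n, MeasurableSet (E n) := fun n =>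
    measurableSet_lt measurable_const (F_meas hT.measurable hm _)
  have hmono : Monotone E := monotone_nat_of_le_succ fun n x hx =>
    lt_of_lt_of_le hx (F_mono φ (n + 1) x)
  have hU : (⋃ n, E n) = {x | ∃ k, 0 < S T φ k x} := by
    ext x
    simp only [mem_iUnion, mem_setOf_eq, hE]
    constructor
    · rintro ⟨n, hn⟩
      obtain ⟨k, hk⟩ := F_eq (T := T) φ (n + 1) x
      exact ⟨k, hk ▸ hn⟩
    · rintro ⟨k, hk⟩
      exact ⟨k, lt_of_lt_of_le hk ((S_le_F φ k x).trans (F_mono φ k x))⟩
  rw [← hU]
  refine ge_of_tendsto' (tendsto_setIntegral_of_monotone hEm hmono hφ.integrableOn) fun n => ?_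
  have hi := F_int hT hφ (n + 1)
  have hi' : Integrable (fun x => F T φ (n + 1) (T x)) μ := hT.integrable_comp_of_integrable hi
  have h1 : ∫ x, F T φ (n + 1) (T x) ∂μ = ∫ x, F T φ (n + 1) x ∂μ := by
    have := integral_map (μ := μ) hT.measurable.aemeasurable
      (f := F T φ (n + 1)) (F_meas hT.measurable hm _).aestronglyMeasurable
    rw [hT.map_eq] at this
    exact this.symm
  have h2 : ∫ x, (F T φ (n + 1) x - F T φ (n + 1) (T x)) ∂μ ≤ ∫ x, (E n).indicator φ x ∂μ := by
    refine integral_mono (hi.sub hi') (hφ.indicator (hEm n)) fun x => ?_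
    by_cases hx : x ∈ E n
    · rw [indicator_of_mem hx]
      have h3 : F T φ (n + 1) x = φ x + F T φ n (T x) := by
        have hx' : 0 < max 0 (φ x + F T φ n (T x)) := hx
        change max 0 (φ x + F T φ n (T x)) = _
        exact max_eq_right (by rcases lt_max_iff.1 hx' with h | h <;> linarith)
      have := F_mono φ n (T x) (T := T)
      simp only
      linarith
    · rw [indicator_of_notMem hx]
      have h3 : F T φ (n + 1) x ≤ 0 := not_lt.1 hx
      have := F_nonneg φ (n + 1) (T x) (T := T)
      simp only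
      linarith
  rw [integral_sub hi hi', h1, sub_self, integral_indicator (hEm n)] at h2
  exact h2

/-- weak type inequality -/
theorem weak [IsFiniteMeasure μ] (hT : MeasurePreserving T μ μ) {ψ : X → ℝ} (hm : Measurable ψ)
    (hψ : Integrable ψ μ) (h0 : ∀ x, 0 ≤ ψ x) (t : ℝ) :
    t * μ.real {x | ∃ k, 1 ≤ k ∧ t < avg T ψ k x} ≤ ∫ x, ψ x ∂μ := by
  have h := maximal hT (φ := fun x => ψ x - t) (hm.sub_const t) (hψ.sub (integrable_const t))
  have hE : {x | ∃ k, 0 < S T (fun x => ψ x - t) k x} = {x | ∃ k, 1 ≤ k ∧ t < avg T ψ k x} := by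
    ext x
    simp only [mem_setOf_eq, S, avg, Finset.sum_sub_distrib, Finset.sum_const, Finset.card_range,
      nsmul_eq_mul]
    refine exists_congr fun k => ?_
    rcases Nat.eq_zero_or_pos k with rfl | hk
    · simp
    · have hk' : (0 : ℝ) < k := by exact_mod_cast hk
      rw [one_div, ← div_eq_inv_mul, lt_div_iff₀ hk']
      constructor
      · intro h; exact ⟨hk, by linarith⟩
      · intro h; linarith [h.2]
  rw [hE, integral_sub hψ.integrableOn (integrable_const t).integrableOn, setIntegral_const,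
    smul_eq_mul] at h
  have := setIntegral_le_integral (s := {x | ∃ k, 1 ≤ k ∧ t < avg T ψ k x}) hψ
    (Eventually.of_forall h0)
  linarith

theorem upper [IsFiniteMeasure μ] (hT : MeasurePreserving T μ μ) {φ : X → ℝ} (hm : Measurable φ)
    (hφ : Integrable φ μ) {ε : ℝ} (hε : 0 < ε) :
    ∀ᵐ x ∂μ, ∀ᶠ k in atTop, avg T φ k x ≤ (μ[φ | MeasurableSpace.invariants T]) x + 2 * ε := by
  have hle := MeasurableSpace.invariants_le T
  set g := μ[φ | MeasurableSpace.invariants T] with hg
  have hgI : Measurable[MeasurableSpace.invariants T] g := stronglyMeasurable_condExp.measurable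
  have hgm : Measurable g := hgI.mono hle le_rfl
  have hgT : ∀ x, g (T x) = g x := fun x =>
    congrFun (MeasurableSpace.comp_eq_of_measurable_invariants hgI) x
  have hgj : ∀ j x, g (T^[j] x) = g x := by
    intro j
    induction j with
    | zero => intro x; rfl
    | succ j ih => intro x; rw [Function.iterate_succ_apply, ih, hgT]
  set ψ : X → ℝ := fun x => φ x - g x - ε with hψ
  have hψm : Measurable ψ := (hm.sub hgm).sub_const ε
  have hψi : Integrable ψ μ := (hφ.sub integrable_condExp).sub (integrable_const ε)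
  set D : Set X := {x | ∀ C : ℕ, ∃ k, (C : ℝ) < S T ψ k x} with hD
  have hDm : MeasurableSet D := by
    rw [hD, setOf_forall]
    refine MeasurableSet.iInter fun C => ?_
    rw [setOf_exists]
    exact MeasurableSet.iUnion fun k =>
      measurableSet_lt measurable_const (S_meas hT.measurable hψm k)
  have hDT : ∀ x, T x ∈ D ↔ x ∈ D := by
    intro x
    constructor
    · intro h C
      obtain ⟨C', hC'⟩ := exists_nat_ge ((C : ℝ) - ψ x)
      obtain ⟨k, hk⟩ := h C'
      exact ⟨k + 1, by rw [S_succ]; linarith⟩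
    · intro h C
      obtain ⟨C', hC'⟩ := exists_nat_ge ((C : ℝ) + ψ x)
      obtain ⟨k, hk⟩ := h C'
      cases k with
      | zero => simp [S] at hk; linarith [Nat.cast_nonneg (α := ℝ) C']
      | succ k => exact ⟨k, by rw [S_succ] at hk; linarith⟩
  have hDj : ∀ j x, T^[j] x ∈ D ↔ x ∈ D := by
    intro j
    induction j with
    | zero => intro x; rfl
    | succ j ih => intro x; rw [Function.iterate_succ_apply, ih, hDT]
  have hDI : MeasurableSet[MeasurableSpace.invariants T] D := ⟨hDm, Set.ext hDT⟩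
  have h1 := maximal hT (φ := D.indicator ψ) (hψm.indicator hDm) (hψi.indicator hDm)
  have hE : {x | ∃ k, 0 < S T (D.indicator ψ) k x} = D := by
    ext x
    by_cases hx : x ∈ D
    · have : ∀ k, S T (D.indicator ψ) k x = S T ψ k x := fun k =>
        Finset.sum_congr rfl fun j _ => indicator_of_mem ((hDj j x).2 hx) _
      simp only [mem_setOf_eq, this, hx, iff_true]
      simpa using hx 0
    · have : ∀ k, S T (D.indicator ψ) k x = 0 := fun k =>
        Finset.sum_eq_zero fun j _ => indicator_of_notMem (fun h => hx ((hDj j x).1 h)) _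
      simp [this, hx]
  have hgi : Integrable g μ := integrable_condExp
  have hsi : Integrable (fun x => φ x - g x) μ := hφ.sub hgi
  rw [hE, setIntegral_indicator hDm, inter_self] at h1
  simp only [hψ] at h1
  rw [integral_sub hsi.integrableOn (integrable_const ε).integrableOn,
    integral_sub hφ.integrableOn hgi.integrableOn, setIntegral_condExp hle hφ hDI,
    setIntegral_const, smul_eq_mul] at h1
  have h2 : μ.real D = 0 := by
    have : 0 ≤ μ.real D := measureReal_nonneg
    nlinarith
  have h3 : μ D = 0 := (measureReal_eq_zero_iff (measure_ne_top _ _)).1 h2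
  filter_upwards [measure_eq_zero_iff_ae_notMem.1 h3] with x hx
  simp only [hD, mem_setOf_eq, not_forall, not_exists, not_lt] at hx
  obtain ⟨C, hC⟩ := hx
  obtain ⟨K, hK⟩ := exists_nat_ge ((C : ℝ) / ε)
  filter_upwards [eventually_ge_atTop (K + 1)] with k hk
  have hk' : (K : ℝ) + 1 ≤ k := by exact_mod_cast hk
  have hk0 : (0 : ℝ) < k := by linarith [Nat.cast_nonneg (α := ℝ) K]
  have h4 := hC k
  simp only [S, hψ, hgj, Finset.sum_sub_distrib, Finset.sum_const, Finset.card_range,
    nsmul_eq_mul] at h4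
  rw [avg, one_div, ← div_eq_inv_mul, div_le_iff₀ hk0]
  rw [div_le_iff₀ hε] at hK
  nlinarith

/-- Birkhoff pointwise ergodic theorem -/
theorem birkhoff [IsFiniteMeasure μ] (hT : MeasurePreserving T μ μ) {φ : X → ℝ}
    (hφ : Integrable φ μ) :
    ∀ᵐ x ∂μ, Tendsto (fun k => avg T φ k x) atTop
      (𝓝 ((μ[φ | MeasurableSpace.invariants T]) x)) := by
  set ψ := hφ.1.mk φ with hψ
  have he : φ =ᵐ[μ] ψ := hφ.1.ae_eq_mk
  have hm : Measurable ψ := hφ.1.stronglyMeasurable_mk.measurable
  have hi : Integrable ψ μ := hφ.congr he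
  have h1 : ∀ᵐ x ∂μ, ∀ n : ℕ, ∀ᶠ k in atTop,
      avg T ψ k x ≤ (μ[ψ | MeasurableSpace.invariants T]) x + 2 * (1 / ((n : ℝ) + 1)) :=
    ae_all_iff.2 fun n => upper hT hm hi (by positivity)
  have h2 : ∀ᵐ x ∂μ, ∀ n : ℕ, ∀ᶠ k in atTop,
      avg T (-ψ) k x ≤ (μ[-ψ | MeasurableSpace.invariants T]) x + 2 * (1 / ((n : ℝ) + 1)) :=
    ae_all_iff.2 fun n => upper hT hm.neg hi.neg (by positivity)
  filter_upwards [h1, h2, condExp_neg (μ := μ) ψ (MeasurableSpace.invariants T), avg_congr hT he,
    condExp_congr_ae (m := MeasurableSpace.invariants T) he] with x a1 a2 a3 a4 a5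
  simp only [a4, a5]
  rw [Metric.tendsto_nhds]
  intro ε hε
  obtain ⟨n, hn⟩ := exists_nat_one_div_lt (half_pos hε)
  filter_upwards [a1 n, a2 n] with k b1 b2
  have : avg T (-ψ) k x = -avg T ψ k x := by simp [avg]
  rw [this, a3, Pi.neg_apply] at b2
  rw [Real.dist_eq, abs_lt]
  constructor <;> linarith

/-- the ergodic maximal function of an L^p function, p > 1, is integrable -/
theorem dominated [IsFiniteMeasure μ] (hT : MeasurePreserving T μ μ) {φ : X → ℝ}
    (hm : Measurable φ) {q : ℝ} (hq : 1 < q) (hφ : Integrable φ μ)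
    (hφq : Integrable (fun x => |φ x| ^ q) μ) :
    ∃ H : X → ℝ, Measurable H ∧ Integrable H μ ∧ ∀ᵐ x ∂μ, ∀ k, |avg T φ k x| ≤ H x := by
  set M : X → ℝ := fun x => ⨆ k, avg T (fun x => |φ x|) k x with hM
  have hMm : Measurable M := Measurable.iSup fun k => avg_meas hT.measurable hm.abs k
  have hA0 : ∀ k x, 0 ≤ avg T (fun x => |φ x|) k x := fun k x =>
    mul_nonneg (by positivity) (Finset.sum_nonneg fun _ _ => abs_nonneg _)
  have hM0 : ∀ x, 0 ≤ M x := fun x => Real.iSup_nonneg fun k => hA0 k x
  refine ⟨M, hMm, ⟨hMm.aestronglyMeasurable, ?_⟩, ?_⟩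
  · rw [hasFiniteIntegral_iff_ofReal (Eventually.of_forall hM0),
      lintegral_eq_lintegral_meas_lt μ (Eventually.of_forall hM0) hMm.aemeasurable]
    set C := ∫ x, |φ x| ^ q ∂μ with hC
    have hw : ∀ t : ℝ, 1 < t → μ {x | t < M x} ≤ ENNReal.ofReal (C * t ^ (-q)) := by
      intro t ht
      have ht0 : 0 < t := by linarith
      have htq : 0 < t ^ q := Real.rpow_pos_of_pos ht0 q
      have h1 := weak hT (hm.abs.pow_const q) hφq
        (fun x => Real.rpow_nonneg (abs_nonneg _) q) (t ^ q)
      have h2 : {x | t < M x} ⊆ {x | ∃ k, 1 ≤ k ∧ t ^ q < avg T (fun x => |φ x| ^ q) k x} := by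
        intro x hx
        have hx' : t < ⨆ k, avg T (fun x => |φ x|) k x := hx
        obtain ⟨k, hk⟩ := exists_lt_of_lt_ciSup hx'
        have hk1 : 1 ≤ k := by
          rcases Nat.eq_zero_or_pos k with rfl | h
          · simp [avg] at hk; linarith
          · exact h
        refine ⟨k, hk1, (Real.rpow_lt_rpow ht0.le hk (by linarith)).trans_le ?_⟩
        have hk' : (k : ℝ) ≠ 0 := by positivity
        have := Real.rpow_arith_mean_le_arith_mean_rpow (Finset.range k) (fun _ => 1 / (k : ℝ))
          (fun j => |φ (T^[j] x)|) (fun _ _ => by positivity) (by simp [hk'])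
          (fun _ _ => abs_nonneg _) hq.le
        simpa only [avg, Finset.mul_sum] using this
      refine (measure_mono h2).trans ?_
      rw [← ofReal_measureReal (measure_ne_top _ _)]
      refine ENNReal.ofReal_le_ofReal ?_
      rw [Real.rpow_neg ht0.le, ← div_eq_mul_inv, le_div_iff₀ htq]
      linarith
    rw [← Ioc_union_Ioi_eq_Ioi zero_le_one]
    refine lt_of_le_of_lt (lintegral_union_le _ _ _) (ENNReal.add_lt_top.2 ⟨?_, ?_⟩)
    · refine lt_of_le_of_lt (lintegral_mono fun t => measure_mono (subset_univ _)) ?_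
      simp only [lintegral_const, MeasurableSet.univ, Measure.restrict_apply, univ_inter,
        Real.volume_Ioc]
      finiteness
    · refine lt_of_le_of_lt (setLIntegral_mono' measurableSet_Ioi fun t ht => hw t ht) ?_
      exact (((integrableOn_Ioi_rpow_of_lt (a := -q) (by linarith) one_pos).const_mul
        C).lintegral_lt_top)
  · filter_upwards [birkhoff hT hφ.abs] with x hx k
    refine le_trans ?_ (le_ciSup hx.bddAbove_range k)
    rw [avg, avg, abs_mul, abs_of_nonneg (by positivity)]
    gcongr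
    exact Finset.abs_sum_le_sum_abs _ _

end Pool.Agent.H14.Birk
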