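import Mathlib

namespace Pool.Agent.H14.Branch

abbrev V := {l : List ℕ // ∀ i (h : i < l.length), l.get ⟨i, h⟩ < (fun _ : ℕ => 2) i}

lemma V.lt (v : V) {i a : ℕ} (h : v.1[i]? = some a) : a < 2 := by
  obtain ⟨h1, h2⟩ := List.getElem?_eq_some_iff.1 h
  have := v.2 i h1
  simp only [List.get_eq_getElem] at this
  omega

def mkV (l : List ℕ) (h : ∀ i a : ℕ, l[i]? = some a → a < 2) : V :=
  ⟨l, fun i hi => h i _ (by simp)⟩

lemma isPre_iff (v w : List ℕ) :
    v <+: w ↔ v.length ≤ w.length ∧ ∀ i, i < v.length → v[i]? = w[i]? := by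
  constructor
  · rintro ⟨t, rfl⟩
    refine ⟨by simp, fun i hi => ?_⟩
    rw [List.getElem?_append_left hi]
  · rintro ⟨h1, h2⟩
    rw [List.prefix_iff_eq_take]
    apply List.ext_getElem?
    intro i
    rw [List.getElem?_take]
    split_ifs with hi
    · exact h2 i hi
    · exact List.getElem?_eq_none (by omega)

/-- `g` adds `s` modulo 2 to the letter in position `i`. -/
def Sh (g : Equiv.Perm V) (i s : ℕ) : Prop :=
  ∀ v : V, (g v).1[i]? = (v.1[i]?).map (fun a => (a + s) % 2)

def L : Subgroup (Equiv.Perm V) where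
  carrier := {g | (∀ v w : V, v.1 <+: w.1 ↔ (g v).1 <+: (g w).1) ∧
    (∀ v : V, (g v).1.length = v.1.length) ∧ (∃ s, Sh g 0 s) ∧ ∃ t, Sh g 1 t}
  mul_mem' := by
    rintro g h ⟨g1, g2, ⟨s, g3⟩, ⟨t, g4⟩⟩ ⟨h1, h2, ⟨s', h3⟩, ⟨t', h4⟩⟩
    refine ⟨fun v w => ?_, fun v => ?_, ⟨s' + s, fun v => ?_⟩, ⟨t' + t, fun v => ?_⟩⟩
    · rw [h1, g1]; rfl
    · rw [Equiv.Perm.mul_apply, g2, h2]
    · rw [Equiv.Perm.mul_apply, g3, h3, Option.map_map]
      congr 1; ext a; simp [add_assoc]
    · rw [Equiv.Perm.mul_apply, g4, h4, Option.map_map]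
      congr 1; ext a; simp [add_assoc]
  one_mem' := by
    refine ⟨fun v w => Iff.rfl, fun v => rfl, ⟨0, fun v => ?_⟩, ⟨0, fun v => ?_⟩⟩
    · simp only [Equiv.Perm.one_apply]
      cases h : v.1[0]? with
      | none => rfl
      | some a => have := V.lt v h; simp; omega
    · simp only [Equiv.Perm.one_apply]
      cases h : v.1[1]? with
      | none => rfl
      | some a => have := V.lt v h; simp; omega
  inv_mem' := by
    have key : ∀ (g : Equiv.Perm V) i s, Sh g i s → Sh g⁻¹ i s := by
      intro g i s hg v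
      have h1 := hg (g⁻¹ v)
      rw [show g (g⁻¹ v) = v by simp] at h1
      rw [h1]
      cases h : (g⁻¹ v).1[i]? with
      | none => rfl
      | some a => have := V.lt _ h; simp; omega
    rintro g ⟨g1, g2, ⟨s, g3⟩, ⟨t, g4⟩⟩
    refine ⟨fun v w => ?_, fun v => ?_, ⟨s, key _ _ _ g3⟩, ⟨t, key _ _ _ g4⟩⟩
    · rw [g1 (g⁻¹ v) (g⁻¹ w)]; simp
    · rw [← g2 (g⁻¹ v)]; simp

/-- Adding a fixed pattern of bits. -/
def xorV (d : ℕ → ℕ) (v : V) : V :=
  mkV (v.1.mapIdx fun i a => (a + d i) % 2) (by
    intro i a h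
    rw [List.getElem?_mapIdx] at h
    obtain ⟨b, -, rfl⟩ := Option.map_eq_some_iff.1 h
    omega)

lemma xorV_get (d : ℕ → ℕ) (v : V) (i : ℕ) :
    (xorV d v).1[i]? = (v.1[i]?).map (fun a => (a + d i) % 2) := by
  simp [xorV, mkV, List.getElem?_mapIdx]

lemma xorV_len (d : ℕ → ℕ) (v : V) : (xorV d v).1.length = v.1.length := by
  simp [xorV, mkV]

lemma xorV_invol (d : ℕ → ℕ) : Function.Involutive (xorV d) := by
  intro v
  apply Subtype.ext
  apply List.ext_getElem?
  intro i
  rw [xorV_get, xorV_get]
  cases h : v.1[i]? with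
  | none => rfl
  | some a => have := V.lt _ h; simp; omega

def xorP (d : ℕ → ℕ) : Equiv.Perm V := (xorV_invol d).toPerm

lemma xorP_apply (d : ℕ → ℕ) (v : V) : xorP d v = xorV d v := rfl

lemma xorV_pre (d : ℕ → ℕ) (v w : V) (h : v.1 <+: w.1) : (xorV d v).1 <+: (xorV d w).1 := by
  rw [isPre_iff] at h ⊢
  refine ⟨by rw [xorV_len, xorV_len]; exact h.1, fun i hi => ?_⟩
  rw [xorV_len] at hi
  rw [xorV_get, xorV_get, h.2 i hi]

lemma xorP_mem (d : ℕ → ℕ) : xorP d ∈ L := by
  refine ⟨fun v w => ⟨xorV_pre d v w, fun h => ?_⟩, xorV_len d, ⟨d 0, fun v => xorV_get d v 0⟩,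
    ⟨d 1, fun v => xorV_get d v 1⟩⟩
  have := xorV_pre d _ _ h
  rwa [xorP_apply, xorP_apply, xorV_invol d, xorV_invol d] at this

lemma transitive (v w : V) (h : v.1.length = w.1.length) : ∃ g ∈ L, g v = w := by
  refine ⟨xorP fun i => v.1.getD i 0 + w.1.getD i 0, xorP_mem _, ?_⟩
  apply Subtype.ext
  apply List.ext_getElem?
  intro i
  rw [xorP_apply, xorV_get]
  by_cases hi : i < v.1.length
  · have hi' : i < w.1.length := h ▸ hi
    have h1 : v.1[i]? = some v.1[i] := List.getElem?_eq_getElem hi
    have h2 : w.1[i]? = some w.1[i] := List.getElem?_eq_getElem hi'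
    have := V.lt _ h1
    have := V.lt _ h2
    simp only [List.getD_eq_getElem?_getD, h1, h2, Option.map_some, Option.getD_some,
      Option.some.injEq]
    omega
  · rw [List.getElem?_eq_none (by omega), List.getElem?_eq_none (by omega)]
    rfl

def takeV (n : ℕ) (v : V) : V :=
  mkV (v.1.take n) (by
    intro i a h
    rw [List.getElem?_take] at h
    split_ifs at h
    exact V.lt v h)

lemma takeV_val (n : ℕ) (v : V) : (takeV n v).1 = v.1.take n := rfl

lemma take_comm {g : Equiv.Perm V} (hg : g ∈ L) (n : ℕ) (v : V) :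
    g (takeV n v) = takeV n (g v) := by
  apply Subtype.ext
  have h1 : (g (takeV n v)).1 <+: (g v).1 := (hg.1 _ _).1 (List.take_prefix _ _)
  rw [List.prefix_iff_eq_take, hg.2.1, takeV_val, List.length_take] at h1
  rw [h1, takeV_val, ← hg.2.1 v, ← List.take_take, List.take_length]

lemma finite_level (N : ℕ) : Finite {v : V // v.1.length ≤ N} := by
  let f : {v : V // v.1.length ≤ N} → (Fin N → Option (Fin 2)) :=
    fun v i => (v.1.1[i.1]?).map (Fin.ofNat 2)
  refine Finite.of_injective f ?_
  intro v w h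
  apply Subtype.ext
  apply Subtype.ext
  apply List.ext_getElem?
  intro i
  by_cases hi : i < N
  · have := congrFun h ⟨i, hi⟩
    simp only [f] at this
    cases h1 : v.1.1[i]? with
    | none =>
      cases h2 : w.1.1[i]? with
      | none => rfl
      | some b => simp [h1, h2] at this
    | some a =>
      cases h2 : w.1.1[i]? with
      | none => simp [h1, h2] at this
      | some b =>
        have ha := V.lt _ h1
        have hb := V.lt _ h2
        simp only [h1, h2, Option.map_some, Option.some.injEq, Fin.ext_iff, Fin.val_ofNat] at this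
        congr 1
        omega
  · have h1 := v.2
    have h2 := w.2
    rw [List.getElem?_eq_none (by omega), List.getElem?_eq_none (by omega)]

def res (N : ℕ) : L →* Equiv.Perm {v : V // v.1.length ≤ N} where
  toFun g := g.1.subtypePerm (fun v => by rw [g.2.2.1])
  map_one' := rfl
  map_mul' g h := rfl

lemma res_ker {N : ℕ} {g : L} (h : g ∈ (res N).ker) (v : V) (hv : v.1.length ≤ N) :
    g.1 v = v := by
  have := congrArg (fun σ : Equiv.Perm {v : V // v.1.length ≤ N} => (σ ⟨v, hv⟩).1)
    (MonoidHom.mem_ker.1 h)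
  exact this

open Classical in
/-- The restriction of `g` to the subtrees below the vertices of `U`. -/
noncomputable def piece (n : ℕ) (g : Equiv.Perm V) (hg : ∀ v, takeV n (g v) = takeV n v)
    (U : Set V) : Equiv.Perm V :=
  Equiv.Perm.ofSubtype (g.subtypePerm (p := fun v => takeV n v ∈ U) (fun v => by rw [hg]))

lemma piece_pos {n : ℕ} {g : Equiv.Perm V} {hg : ∀ v, takeV n (g v) = takeV n v}
    {U : Set V} {v : V} (h : takeV n v ∈ U) : piece n g hg U v = g v := by
  classical
  exact Equiv.Perm.ofSubtype_apply_of_mem (p := fun v => takeV n v ∈ U) _ h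

lemma piece_neg {n : ℕ} {g : Equiv.Perm V} {hg : ∀ v, takeV n (g v) = takeV n v}
    {U : Set V} {v : V} (h : takeV n v ∉ U) : piece n g hg U v = v := by
  classical
  exact Equiv.Perm.ofSubtype_apply_of_not_mem (p := fun v => takeV n v ∈ U) _ h

lemma fix_get {g : Equiv.Perm V} (hL : g ∈ L) {N : ℕ}
    (hfix : ∀ v : V, v.1.length ≤ N → g v = v) (v : V) : takeV N (g v) = takeV N v := by
  rw [← take_comm hL, hfix]
  simp [takeV_val]

lemma takeV_of_le {n N : ℕ} (h : n ≤ N) {v w : V} (hvw : takeV N v = takeV N w) :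
    takeV n v = takeV n w := by
  apply Subtype.ext
  have := congrArg (fun u : V => u.1.take n) hvw
  simpa [takeV_val, List.take_take, min_eq_left h] using this

lemma piece_mem {n : ℕ} {g : Equiv.Perm V} (hL : g ∈ L)
    (hfix : ∀ v : V, v.1.length ≤ n + 2 → g v = v)
    (hg : ∀ v, takeV n (g v) = takeV n v) (U : Set V) : piece n g hg U ∈ L := by
  have hc : ∀ v, piece n g hg U v = g v ∨ piece n g hg U v = v := by
    intro v
    by_cases h : takeV n v ∈ U
    · exact Or.inl (piece_pos h)
    · exact Or.inr (piece_neg h)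
  have hget : ∀ i, i < n + 2 → ∀ v, (piece n g hg U v).1[i]? = v.1[i]? := by
    intro i hi v
    rcases hc v with h | h
    · rw [h]
      have := congrArg (fun u : V => u.1[i]?) (fix_get hL hfix v)
      simpa [takeV_val, List.getElem?_take, hi] using this
    · rw [h]
  have hlen : ∀ v, (piece n g hg U v).1.length = v.1.length := by
    intro v
    rcases hc v with h | h
    · rw [h, hL.2.1]
    · rw [h]
  have hsh : ∀ i, i < n + 2 → Sh (piece n g hg U) i 0 := by
    intro i hi v
    rw [hget i hi]
    cases h : v.1[i]? with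
    | none => rfl
    | some a => have := V.lt v h; simp; omega
  refine ⟨fun v w => ?_, hlen, ⟨0, hsh 0 (by omega)⟩, ⟨0, hsh 1 (by omega)⟩⟩
  by_cases hv : v.1.length ≤ n
  · rw [isPre_iff, isPre_iff, hlen, hlen]
    constructor
    · rintro ⟨h1, h2⟩
      refine ⟨h1, fun i hi => ?_⟩
      rw [hget i (by omega), hget i (by omega), h2 i hi]
    · rintro ⟨h1, h2⟩
      refine ⟨h1, fun i hi => ?_⟩
      have := h2 i hi
      rwa [hget i (by omega), hget i (by omega)] at this
  · have aux : ∀ x y : V, n ≤ x.1.length → x.1 <+: y.1 → takeV n x = takeV n y := by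
      intro x y hx hxy
      apply Subtype.ext
      obtain ⟨t, ht⟩ := hxy
      rw [takeV_val, takeV_val, ← ht, List.take_append_of_le_length hx]
    have ht : ∀ x, takeV n (piece n g hg U x) = takeV n x := by
      intro x
      rcases hc x with h | h
      · rw [h, hg]
      · rw [h]
    have main : takeV n v = takeV n w →
        (v.1 <+: w.1 ↔ (piece n g hg U v).1 <+: (piece n g hg U w).1) := by
      intro hvw
      by_cases h : takeV n v ∈ U
      · rw [piece_pos h, piece_pos (hvw ▸ h)]
        exact hL.1 v w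
      · rw [piece_neg h, piece_neg (hvw ▸ h)]
    constructor
    · intro h
      exact (main (aux v w (by omega) h)).1 h
    · intro h
      have := aux _ _ (by rw [hlen]; omega) h
      rw [ht, ht] at this
      exact (main this).2 h

lemma branch (n : ℕ) : ((Subgroup.closure
    {g : Equiv.Perm V | g ∈ L ∧ ∃ u : V, u.1.length = n ∧
      ∀ v : V, ¬ List.IsPrefix u.1 v.1 → g v = v}).subgroupOf L).index ≠ 0 := by
  have := finite_level (n + 2)
  have hk : (res (n + 2)).ker.FiniteIndex := inferInstance
  refine (Subgroup.finiteIndex_of_le (H := (res (n + 2)).ker) ?_).index_ne_zero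
  intro g hg0
  rw [Subgroup.mem_subgroupOf]
  have hfix := res_ker hg0
  have hg : ∀ v, takeV n (g.1 v) = takeV n v := fun v =>
    takeV_of_le (by omega) (fix_get g.2 hfix v)
  have hfin : {u : V | u.1.length = n}.Finite := by
    have := finite_level n
    have h2 : {u : V | u.1.length ≤ n}.Finite := this
    exact h2.subset fun u hu => le_of_eq hu
  have key : ∀ U : Set V, U.Finite → U ⊆ {u : V | u.1.length = n} →
      piece n g.1 hg U ∈ Subgroup.closure
        {g : Equiv.Perm V | g ∈ L ∧ ∃ u : V, u.1.length = n ∧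
          ∀ v : V, ¬ List.IsPrefix u.1 v.1 → g v = v} := by
    intro U hU
    induction U, hU using Set.Finite.induction_on with
    | empty =>
      intro _
      have : piece n g.1 hg ∅ = 1 := by
        ext1 v
        exact piece_neg (by simp)
      rw [this]
      exact one_mem _
    | @insert u U hu hU ih =>
      intro hsub
      have : piece n g.1 hg (insert u U) = piece n g.1 hg {u} * piece n g.1 hg U := by
        ext1 v
        rw [Equiv.Perm.mul_apply]
        by_cases h1 : takeV n v ∈ U
        · rw [piece_pos (Set.mem_insert_of_mem _ h1), piece_pos h1, piece_neg]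
          rw [hg]
          rintro rfl
          exact hu h1
        · rw [piece_neg h1]
          by_cases h2 : takeV n v = u
          · rw [piece_pos (by simp [h2]), piece_pos (by simp [h2])]
          · rw [piece_neg (by simp [h1, h2]), piece_neg (by simp [h2])]
      rw [this]
      refine mul_mem (Subgroup.subset_closure ⟨piece_mem g.2 hfix hg _, u,
        hsub (Set.mem_insert _ _), fun v hv => piece_neg ?_⟩)
        (ih fun x hx => hsub (Set.mem_insert_of_mem _ hx))
      rintro rfl
      exact hv (List.take_prefix _ _)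
  have h1 := key _ hfin subset_rfl
  have h2 : piece n g.1 hg {u : V | u.1.length = n} = g.1 := by
    ext1 v
    by_cases h : takeV n v ∈ {u : V | u.1.length = n}
    · exact piece_pos h
    · rw [piece_neg h, hfix]
      simp only [Set.mem_ofPred_eq, takeV_val, List.length_take] at h
      omega
  rwa [h2] at h1

/-- Exchange the first two letters. -/
def sw : List ℕ → List ℕ
  | a :: b :: l => b :: a :: l
  | l => l

lemma sw_sw (l : List ℕ) : sw (sw l) = l := by
  match l with
  | [] => rfl
  | [_] => rfl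
  | _ :: _ :: _ => rfl

lemma sw_len (l : List ℕ) : (sw l).length = l.length := by
  match l with
  | [] => rfl
  | [_] => rfl
  | _ :: _ :: _ => rfl

lemma sw_mem (l : List ℕ) (a : ℕ) (h : a ∈ sw l) : a ∈ l := by
  match l with
  | [] => exact h
  | [_] => exact h
  | _ :: _ :: _ => simp only [sw, List.mem_cons] at h ⊢; tauto

lemma sw_get0 (l : List ℕ) (h : 2 ≤ l.length) : (sw l)[0]? = l[1]? := by
  match l with
  | [] => simp at h
  | [_] => simp at h
  | _ :: _ :: _ => rfl

lemma sw_get1 (l : List ℕ) (h : 2 ≤ l.length) : (sw l)[1]? = l[0]? := by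
  match l with
  | [] => simp at h
  | [_] => simp at h
  | _ :: _ :: _ => rfl

lemma sw_short (l : List ℕ) (h : l.length < 2) : sw l = l := by
  match l with
  | [] => rfl
  | [_] => rfl
  | _ :: _ :: _ => simp at h

lemma sw_pre (v w : List ℕ) (h : 2 ≤ v.length) (hvw : v <+: w) : sw v <+: sw w := by
  match v with
  | [] => simp at h
  | [_] => simp at h
  | a :: b :: l =>
    obtain ⟨t, rfl⟩ := hvw
    exact ⟨t, rfl⟩

def swV (v : V) : V :=
  mkV (sw v.1) (by
    intro i a h
    obtain ⟨j, hj⟩ := List.getElem?_of_mem (sw_mem _ _ (List.mem_of_getElem? h))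
    exact V.lt v hj)

lemma swV_val (v : V) : (swV v).1 = sw v.1 := rfl

lemma swV_swV (v : V) : swV (swV v) = v := Subtype.ext (sw_sw _)

lemma swV_pre (v w : V) (h : 2 ≤ v.1.length) : v.1 <+: w.1 ↔ (swV v).1 <+: (swV w).1 := by
  refine ⟨sw_pre _ _ h, fun h' => ?_⟩
  have := sw_pre _ _ (by rw [swV_val, sw_len]; exact h) h'
  rwa [swV_val, swV_val, sw_sw, sw_sw] at this

noncomputable def sOf (g : L) : ℕ := g.2.2.2.1.choose
noncomputable def tOf (g : L) : ℕ := g.2.2.2.2.choose
lemma sOf_spec (g : L) : Sh g.1 0 (sOf g) := g.2.2.2.1.choose_spec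
lemma tOf_spec (g : L) : Sh g.1 1 (tOf g) := g.2.2.2.2.choose_spec

/-- The twisted map on vertices. -/
noncomputable def tw (g : L) (v : V) : V :=
  if 2 ≤ v.1.length then swV (g.1 (swV v)) else xorV (fun _ => tOf g) v

lemma tw_len (g : L) (v : V) : (tw g v).1.length = v.1.length := by
  unfold tw
  split_ifs
  · rw [swV_val, sw_len, g.2.2.1, swV_val, sw_len]
  · exact xorV_len _ _

lemma tw_get0 (g : L) (v : V) :
    (tw g v).1[0]? = (v.1[0]?).map (fun a => (a + tOf g) % 2) := by
  unfold tw
  split_ifs with h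
  · have h' : 2 ≤ (swV v).1.length := by rw [swV_val, sw_len]; exact h
    rw [swV_val, sw_get0 _ (by rw [g.2.2.1]; exact h'), tOf_spec g, swV_val, sw_get1 _ h]
  · exact xorV_get _ _ _

lemma tw_get1 (g : L) (v : V) :
    (tw g v).1[1]? = (v.1[1]?).map (fun a => (a + sOf g) % 2) := by
  by_cases h : 2 ≤ v.1.length
  · unfold tw
    rw [if_pos h]
    have h' : 2 ≤ (swV v).1.length := by rw [swV_val, sw_len]; exact h
    rw [swV_val, sw_get1 _ (by rw [g.2.2.1]; exact h'), sOf_spec g, swV_val, sw_get0 _ h]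
  · rw [List.getElem?_eq_none (by rw [tw_len]; omega), List.getElem?_eq_none (by omega)]
    rfl

lemma short_ext {v w : V} (hv : v.1.length < 2) (hw : w.1.length = v.1.length)
    (h : v.1[0]? = w.1[0]?) : v = w := by
  apply Subtype.ext
  apply List.ext_getElem?
  intro i
  rcases Nat.eq_zero_or_pos i with rfl | hi
  · exact h
  · rw [List.getElem?_eq_none (by omega), List.getElem?_eq_none (by omega)]

def v00 : V := mkV [0, 0] (by
  intro i a h
  have := List.mem_of_getElem? h
  simp at this
  omega)

lemma Sh_unique {g : Equiv.Perm V} {i s s' : ℕ} (hi : i < 2) (h : Sh g i s) (h' : Sh g i s') :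
    s % 2 = s' % 2 := by
  have h1 := h v00
  rw [h' v00] at h1
  have : v00.1[i]? = some 0 := by
    interval_cases i <;> rfl
  rw [this] at h1
  simpa using h1.symm

lemma tw_mul (g h : L) (v : V) : tw (g * h) v = tw g (tw h v) := by
  by_cases hv : 2 ≤ v.1.length
  · have hv' : 2 ≤ (tw h v).1.length := by rwa [tw_len]
    conv_rhs => rw [tw, if_pos hv', tw, if_pos hv, swV_swV]
    rw [tw, if_pos hv]
    rfl
  · apply short_ext (by rw [tw_len]; omega) (by rw [tw_len, tw_len, tw_len])
    rw [tw_get0, tw_get0, tw_get0, Option.map_map]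
    have h1 : Sh (g * h).1 1 (tOf h + tOf g) := by
      intro v
      rw [Subgroup.coe_mul, Equiv.Perm.mul_apply, tOf_spec g, tOf_spec h, Option.map_map]
      congr 1; ext a; simp [add_assoc]
    have := Sh_unique (by norm_num) h1 (tOf_spec (g * h))
    congr 1
    ext a
    simp only [Function.comp_apply]
    omega

lemma tw_one (v : V) : tw 1 v = v := by
  by_cases hv : 2 ≤ v.1.length
  · rw [tw, if_pos hv]
    exact swV_swV v
  · symm
    apply short_ext (by omega) (tw_len _ _)
    rw [tw_get0]
    have h1 : Sh (1 : L).1 1 0 := by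
      intro v
      simp only [OneMemClass.coe_one, Equiv.Perm.one_apply]
      cases h : v.1[1]? with
      | none => rfl
      | some a => have := V.lt v h; simp; omega
    have := Sh_unique (by norm_num) h1 (tOf_spec 1)
    cases h : v.1[0]? with
    | none => rfl
    | some a => have := V.lt v h; simp; omega

noncomputable def twP (g : L) : Equiv.Perm V where
  toFun := tw g
  invFun := tw g⁻¹
  left_inv v := by rw [← tw_mul, inv_mul_cancel, tw_one]
  right_inv v := by rw [← tw_mul, mul_inv_cancel, tw_one]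

lemma tw_pre (g : L) (v w : V) (h : v.1 <+: w.1) : (tw g v).1 <+: (tw g w).1 := by
  by_cases hv : 2 ≤ v.1.length
  · have hw : 2 ≤ w.1.length := hv.trans h.length_le
    have h' : 2 ≤ (swV v).1.length := by rw [swV_val, sw_len]; exact hv
    rw [tw, tw, if_pos hv, if_pos hw, ← swV_pre _ _ (by rw [g.2.2.1]; exact h'), ← g.2.1,
      ← swV_pre _ _ hv]
    exact h
  · rw [isPre_iff] at h ⊢
    refine ⟨by rw [tw_len, tw_len]; exact h.1, fun i hi => ?_⟩
    rw [tw_len] at hi
    obtain rfl : i = 0 := by omega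
    rw [tw_get0, tw_get0, h.2 0 hi]

lemma twP_mem (g : L) : twP g ∈ L := by
  refine ⟨fun v w => ⟨tw_pre g v w, fun h => ?_⟩, tw_len g, ⟨_, tw_get0 g⟩, ⟨_, tw_get1 g⟩⟩
  have := tw_pre g⁻¹ _ _ h
  change (tw g⁻¹ (tw g v)).1 <+: (tw g⁻¹ (tw g w)).1 at this
  rwa [← tw_mul, ← tw_mul, inv_mul_cancel, tw_one, tw_one] at this

noncomputable def twL (g : L) : L := ⟨twP g, twP_mem g⟩

lemma twL_twL (g : L) : twL (twL g) = g := by
  apply Subtype.ext
  ext1 v
  change tw (twL g) v = g.1 v
  by_cases hv : 2 ≤ v.1.length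
  · have h' : 2 ≤ (swV v).1.length := by rw [swV_val, sw_len]; exact hv
    rw [tw, if_pos hv]
    change swV (tw g (swV v)) = _
    rw [tw, if_pos h', swV_swV, swV_swV]
  · apply short_ext (by rw [tw_len]; omega) (by rw [tw_len, g.2.2.1])
    rw [tw_get0, sOf_spec g]
    have := Sh_unique (by norm_num) (tOf_spec (twL g)) (tw_get1 g)
    congr 1
    ext a
    omega

noncomputable def phi : L ≃* L where
  toFun := twL
  invFun := twL
  left_inv := twL_twL
  right_inv := twL_twL
  map_mul' g h := by
    apply Subtype.ext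
    ext1 v
    exact tw_mul g h v

def v0 : V := mkV [0] (by
  intro i a h
  have := List.mem_of_getElem? h
  simp at this
  omega)

theorem not_conj (σ : Equiv.Perm V) (hσ : ∀ v w : V, v.1 <+: w.1 ↔ (σ v).1 <+: (σ w).1)
    (h : ∀ g : L, (phi g).1 = σ * g.1 * σ⁻¹) : False := by
  let d : ℕ → ℕ := fun i => if i = 1 then 1 else 0
  let g : L := ⟨xorP d, xorP_mem d⟩
  have h1 : Sh g.1 1 1 := fun v => xorV_get d v 1
  have h2 := Sh_unique (by norm_num) h1 (tOf_spec g)
  set u := σ⁻¹ v0 with hu
  have hσu : σ u = v0 := by simp [hu]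
  have hlen : u.1.length < 2 := by
    by_contra hc
    have p0 : (σ (takeV 0 u)).1 <+: [0] := by
      have := (hσ (takeV 0 u) u).1 (List.take_prefix _ _)
      rwa [hσu] at this
    have p1 : (σ (takeV 1 u)).1 <+: [0] := by
      have := (hσ (takeV 1 u) u).1 (List.take_prefix _ _)
      rwa [hσu] at this
    have ne : ∀ i j, (σ (takeV i u)).1 = (σ (takeV j u)).1 →
        min i u.1.length = min j u.1.length := by
      intro i j hij
      have := congrArg (fun x : V => x.1.length) (σ.injective (Subtype.ext hij))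
      simpa [takeV_val] using this
    have p2 : (σ (takeV u.1.length u)).1 = [0] := by
      have : takeV u.1.length u = u := Subtype.ext (by simp [takeV_val])
      rw [this, hσu]
      rfl
    rw [List.prefix_cons_iff] at p0 p1
    simp only [List.prefix_nil, exists_eq_right] at p0 p1
    rcases p0 with p0 | p0
    · rcases p1 with p1 | p1
      · have := ne 0 1 (by rw [p0, p1]); omega
      · have := ne 1 u.1.length (by rw [p1, p2]); omega
    · have := ne 0 u.1.length (by rw [p0, p2]); omega
  have hgu : g.1 u = u := by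
    symm
    apply short_ext hlen (g.2.2.1 u)
    change _ = (xorV d u).1[0]?
    rw [xorV_get]
    cases h : u.1[0]? with
    | none => rfl
    | some a => have := V.lt u h; simp [d]; omega
  have h3 : tw g v0 = v0 := by
    have := congrArg (fun τ : Equiv.Perm V => τ v0) (h g)
    simp only [Equiv.Perm.mul_apply] at this
    rw [← hu, hgu, hσu] at this
    exact this
  have h4 := tw_get0 g v0
  rw [h3] at h4
  have : v0.1[0]? = some 0 := rfl
  rw [this] at h4
  simp at h4
  omega

end Pool.Agent.H14.Branch
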