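import Mathlib

set_option autoImplicit false

namespace Pool.Agent.H14.Cake

open Set MeasureTheory
open scoped NNReal ENNReal

section defs

variable {V : Type} [Fintype V] [DecidableEq V]

/-- The point at parameter `t` of the segment from vertex `u` to vertex `v`; vertices are the
standard basis vectors of `V → ℝ`. -/
def pt (u v : V) (t : ℝ) : V → ℝ := (1 - t) • Pi.single u 1 + t • Pi.single v 1

/-- The cake: the geometric realisation of `G`. -/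
def cake (G : SimpleGraph V) : Set (V → ℝ) :=
  {x | (∃ v, x = Pi.single v 1) ∨ ∃ u v, G.Adj u v ∧ ∃ t ∈ Icc (0 : ℝ) 1, x = pt u v t}

/-- A piece: a finite union of intervals lying in edges. -/
def IsPiece (G : SimpleGraph V) (X : Set (V → ℝ)) : Prop :=
  ∃ F : Set (V × V × Set ℝ), F.Finite ∧
    (∀ e ∈ F, G.Adj e.1 e.2.1 ∧ e.2.2 ⊆ Icc 0 1 ∧ e.2.2.OrdConnected) ∧
    X = ⋃ e ∈ F, pt e.1 e.2.1 '' e.2.2

/-- Any two points of `X` are joined by a path inside `X`. -/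
def Conn (X : Set (V → ℝ)) : Prop := ∀ x ∈ X, ∀ y ∈ X, JoinedIn X x y

/-- The additive valuation with constant density `w u v` along the edge from `u` to `v`. -/
noncomputable def val (w : V → V → ℝ≥0) (X : Set (V → ℝ)) : ℝ≥0∞ :=
  ∑ u, ∑ v, (w u v : ℝ≥0∞) * volume {t ∈ Icc (0 : ℝ) 1 | pt u v t ∈ X}

/-- An allocation: pairwise disjoint connected pieces. -/
def IsAlloc (G : SimpleGraph V) {k : ℕ} (P : Fin k → Set (V → ℝ)) : Prop :=
  (∀ j, IsPiece G (P j) ∧ Conn (P j)) ∧ Pairwise fun i j => Disjoint (P i) (P j)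

/-- The 1-out-of-`k` maximin share. -/
noncomputable def mms (G : SimpleGraph V) (w : V → V → ℝ≥0) (k : ℕ) : ℝ≥0∞ :=
  ⨆ (P : Fin k → Set (V → ℝ)) (_ : IsAlloc G P ∧ ⋃ j, P j = cake G), ⨅ j, val w (P j)

omit [Fintype V] in
lemma pt_apply (u v : V) (t : ℝ) (w : V) :
    pt u v t w = (if w = u then 1 - t else 0) + if w = v then t else 0 := by
  simp [pt, Pi.single_apply]

omit [Fintype V] in
lemma pt_zero (u v : V) : pt u v 0 = Pi.single u 1 := by simp [pt]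

omit [Fintype V] in
lemma pt_one (u v : V) : pt u v 1 = Pi.single v 1 := by simp [pt]

omit [Fintype V] in
lemma pt_symm (u v : V) (t : ℝ) : pt u v t = pt v u (1 - t) := by simp [pt, add_comm]

omit [Fintype V] in
lemma pt_cont (u v : V) : Continuous (pt u v) := by
  unfold pt
  fun_prop

omit [Fintype V] in
lemma mass (u v : V) (t : ℝ) (B : Finset V) :
    ∑ w ∈ B, pt u v t w = (if u ∈ B then 1 - t else 0) + if v ∈ B then t else 0 := by
  simp [pt_apply, Finset.sum_add_distrib]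

omit [Fintype V] in
lemma cut {G : SimpleGraph V} {A : Set (V → ℝ)} (hA : IsPiece G A) (hC : Conn A)
    (B1 B2 : Finset V) (hd : ∀ u ∈ B1, u ∉ B2) (h12 : ∀ u ∈ B1, ∀ v ∈ B2, ¬ G.Adj u v)
    (hZ : ∀ u v, u ∉ B1 → u ∉ B2 → v ∉ B1 → v ∉ B2 → ¬ G.Adj u v)
    {x y : V → ℝ} (hx : x ∈ A) (hy : y ∈ A) (h1 : ∑ w ∈ B2, x w ≤ ∑ w ∈ B1, x w)
    (h2 : ∑ w ∈ B1, y w ≤ ∑ w ∈ B2, y w) :
    ∃ z, z ∉ B1 ∧ z ∉ B2 ∧ Pi.single z 1 ∈ A := by
  have hpc : IsPathConnected A := ⟨x, hx, fun {z} hz => hC x hx z hz⟩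
  have hiv := hpc.isConnected.isPreconnected.intermediate_value hy hx
    (f := fun p => ∑ w ∈ B1, p w - ∑ w ∈ B2, p w) (by fun_prop)
  obtain ⟨p, hp, h0⟩ := hiv (a := 0) ⟨by linarith, by linarith⟩
  obtain ⟨F, -, hF, rfl⟩ := hA
  have hp' := hp
  simp only [mem_iUnion] at hp'
  obtain ⟨⟨u, v, I⟩, he, t, -, rfl⟩ := hp'
  have hadj : G.Adj u v := (hF _ he).1
  simp only [mass] at h0
  by_cases hu1 : u ∈ B1 <;> by_cases hu2 : u ∈ B2 <;> by_cases hv1 : v ∈ B1 <;>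
    by_cases hv2 : v ∈ B2 <;>
    simp only [hu1, hu2, hv1, hv2, if_true, if_false] at h0 <;>
    first
    | exact absurd hu2 (hd u hu1)
    | exact absurd hv2 (hd v hv1)
    | exact absurd hadj (h12 u hu1 v hv2)
    | exact absurd hadj.symm (h12 v hv1 u hu2)
    | exact absurd hadj (hZ u v hu1 hu2 hv1 hv2)
    | (exfalso; linarith)
    | (obtain rfl : t = 1 := by linarith
       exact ⟨v, hv1, hv2, pt_one u v ▸ hp⟩)
    | (obtain rfl : t = 0 := by linarith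
       exact ⟨u, hu1, hu2, pt_zero u v ▸ hp⟩)

end defs

abbrev W : Type := Fin 8 × Bool

def c (j : Fin 8) : W := (j, false)
def l (j : Fin 8) : W := (j, true)

/-- The 8-cycle with a pendant edge at every vertex. -/
def G : SimpleGraph W where
  Adj u v := (u.1 = v.1 ∧ u.2 ≠ v.2) ∨ (u.2 = false ∧ v.2 = false ∧ (v.1 = u.1 + 1 ∨ u.1 = v.1 + 1))
  symm := ⟨by decide⟩
  loopless := ⟨by decide⟩

instance : DecidableRel G.Adj := fun u v => inferInstanceAs (Decidable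
  ((u.1 = v.1 ∧ u.2 ≠ v.2) ∨ (u.2 = false ∧ v.2 = false ∧ (v.1 = u.1 + 1 ∨ u.1 = v.1 + 1))))

def a : Fin 4 → Fin 8 → ℕ :=
  ![![1, 4, 4, 1, 3, 2, 2, 3], ![1, 4, 4, 1, 3, 2, 2, 3], ![4, 4, 1, 3, 2, 2, 3, 1],
    ![4, 4, 1, 3, 2, 2, 3, 1]]

def w (i : Fin 4) (u v : W) : ℝ≥0 := if u.2 = false ∧ v = l u.1 then a i u.1 else 0

lemma w_adj (i : Fin 4) (u v : W) (h : w i u v ≠ 0) : G.Adj u v := by
  have : u.2 = false ∧ v = l u.1 := by
    by_contra h'
    exact h (if_neg h')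
  obtain ⟨h1, rfl⟩ := this
  exact Or.inl ⟨rfl, by simp [h1, l]⟩

lemma val_eq (i : Fin 4) (X : Set (W → ℝ)) :
    val (w i) X = ∑ j, (a i j : ℝ≥0∞) * volume {t ∈ Icc (0 : ℝ) 1 | pt (c j) (l j) t ∈ X} := by
  unfold val
  rw [Fintype.sum_prod_type]
  refine Finset.sum_congr rfl fun j _ => ?_
  rw [Fintype.sum_bool]
  simp only [w, Bool.true_eq_false, false_and, if_false, ENNReal.coe_zero, zero_mul,
    Finset.sum_const_zero, zero_add, true_and]
  rw [Finset.sum_eq_single (l j)]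
  · simp [c]
  · intro v _ hv
    simp [hv]
  · simp

def Q (j : Fin 8) : Set (W → ℝ) :=
  pt (c j) (l j) '' Icc 0 1 ∪ pt (c j) (c (j + 1)) '' Icc 0 1 ∪
    pt (c (j + 1)) (l (j + 1)) '' Icc 0 1 ∪ pt (c (j + 1)) (c (j + 1 + 1)) '' Ico 0 1

lemma Q_piece (j : Fin 8) : IsPiece G (Q j) := by
  refine ⟨{(c j, l j, Icc 0 1), (c j, c (j + 1), Icc 0 1), (c (j + 1), l (j + 1), Icc 0 1),
    (c (j + 1), c (j + 1 + 1), Ico 0 1)}, toFinite _, ?_, ?_⟩
  · rintro e (rfl | rfl | rfl | rfl)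
    · exact ⟨by simp [G, c, l], subset_rfl, ordConnected_Icc⟩
    · exact ⟨by simp [G, c], subset_rfl, ordConnected_Icc⟩
    · exact ⟨by simp [G, c, l], subset_rfl, ordConnected_Icc⟩
    · exact ⟨by simp [G, c], Ico_subset_Icc_self, ordConnected_Ico⟩
  · simp only [Q, biUnion_insert, biUnion_singleton, union_assoc]

lemma Q_conn (j : Fin 8) : Conn (Q j) := by
  have h1 : ∀ u v : W, IsPathConnected (pt u v '' Icc 0 1) := fun u v =>
    ((convex_Icc (0 : ℝ) 1).isPathConnected ⟨0, by simp⟩).image (pt_cont u v)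
  have h2 : ∀ u v : W, IsPathConnected (pt u v '' Ico 0 1) := fun u v =>
    ((convex_Ico (0 : ℝ) 1).isPathConnected ⟨0, by simp⟩).image (pt_cont u v)
  have : IsPathConnected (Q j) := by
    refine (((h1 _ _).union (h1 _ _) ?_).union (h1 _ _) ?_).union (h2 _ _) ?_
    · exact ⟨_, ⟨0, by simp, pt_zero _ _⟩, ⟨0, by simp, pt_zero _ _⟩⟩
    · exact ⟨_, Or.inr ⟨1, by simp, pt_one _ _⟩, ⟨0, by simp, pt_zero _ _⟩⟩
    · exact ⟨_, Or.inr ⟨0, by simp, pt_zero _ _⟩, ⟨0, by simp, pt_zero _ _⟩⟩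
  exact fun x hx y hy => this.joinedIn x hx y hy

lemma Q_prop {j k : Fin 8} (h0 : k ≠ j) (h1 : k ≠ j + 1) (h2 : j ≠ k + 1) {x : W → ℝ}
    (hx : x ∈ Q j) : 0 < x (c j) + x (l j) + x (c (j + 1)) + x (l (j + 1)) ∧
      x (l k) = 0 ∧ x (l (k + 1)) = 0 ∧ x (c (k + 1)) = 0 ∧
      (x (c k) ≠ 0 → x (c (j + 1)) ≠ 0) := by
  have e1 : j + 1 ≠ j := (by decide : ∀ j : Fin 8, j + 1 ≠ j) j
  have e2 : j ≠ j + 1 + 1 := (by decide : ∀ j : Fin 8, j ≠ j + 1 + 1) j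
  have e3 : j + 1 ≠ j + 1 + 1 := (by decide : ∀ j : Fin 8, j + 1 ≠ j + 1 + 1) j
  have e4 : k + 1 ≠ j + 1 := fun h => h0 (add_right_cancel h)
  have e5 : k + 1 ≠ j + 1 + 1 := fun h => h1 (add_right_cancel h)
  rcases hx with ((⟨t, ht, rfl⟩ | ⟨t, ht, rfl⟩) | ⟨t, ht, rfl⟩) | ⟨t, ht, rfl⟩ <;>
    simp [pt_apply, c, l, e1, e1.symm, e2, e3, e4, e5, h0, h1, h2.symm]
  exact ⟨ht.2, fun _ _ => by linarith [ht.2]⟩

lemma Q_disj {j k : Fin 8} (h0 : k ≠ j) (h1 : k ≠ j + 1) (h2 : j ≠ k + 1) :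
    Disjoint (Q j) (Q k) := by
  rw [disjoint_left]
  intro x hj hk
  obtain ⟨-, a1, a2, a3, a4⟩ := Q_prop h0 h1 h2 hj
  obtain ⟨b0, -, -, b3, -⟩ := Q_prop h0.symm h2 h1 hk
  rw [a1, a2, a3] at b0
  exact a4 (by linarith) b3

lemma Q_sub (j : Fin 8) : Q j ⊆ cake G := by
  obtain ⟨F, -, hF, he⟩ := Q_piece j
  rw [he]
  intro x hx
  simp only [mem_iUnion] at hx
  obtain ⟨e, he, t, ht, rfl⟩ := hx
  exact Or.inr ⟨_, _, (hF e he).1, t, (hF e he).2.1 ht, rfl⟩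

lemma Q_cover (g : Fin 4 → Fin 8) (hg : ∀ j, ∃ m, j = g m ∨ j = g m + 1) :
    ⋃ m, Q (g m) = cake G := by
  refine Subset.antisymm (iUnion_subset fun m => Q_sub _) ?_
  have h1 : ∀ j, ∀ t ∈ Icc (0 : ℝ) 1, pt (c j) (l j) t ∈ ⋃ m, Q (g m) := by
    intro j t ht
    obtain ⟨m, rfl | rfl⟩ := hg j
    · exact mem_iUnion.2 ⟨m, Or.inl (Or.inl (Or.inl ⟨t, ht, rfl⟩))⟩
    · exact mem_iUnion.2 ⟨m, Or.inl (Or.inr ⟨t, ht, rfl⟩)⟩
  have h2 : ∀ j, ∀ t ∈ Icc (0 : ℝ) 1, pt (c j) (c (j + 1)) t ∈ ⋃ m, Q (g m) := by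
    intro j t ht
    obtain ⟨m, rfl | rfl⟩ := hg j
    · exact mem_iUnion.2 ⟨m, Or.inl (Or.inl (Or.inr ⟨t, ht, rfl⟩))⟩
    · rcases ht.2.lt_or_eq with h | rfl
      · exact mem_iUnion.2 ⟨m, Or.inr ⟨t, ⟨ht.1, h⟩, rfl⟩⟩
      · rw [pt_one, ← pt_zero _ (l (g m + 1 + 1))]
        exact h1 _ 0 (by simp)
  rintro x (⟨⟨j, b⟩, rfl⟩ | ⟨⟨j, b⟩, ⟨k, b'⟩, hadj, t, ht, rfl⟩)
  · cases b
    · exact pt_zero (c j) (l j) ▸ h1 j 0 (by simp)
    · exact pt_one (c j) (l j) ▸ h1 j 1 (by simp)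
  · have ht' : 1 - t ∈ Icc (0 : ℝ) 1 := ⟨by linarith [ht.2], by linarith [ht.1]⟩
    rcases hadj with ⟨h, h'⟩ | ⟨h, h', h'' | h''⟩
    · simp only at h h'
      subst h
      cases b <;> cases b'
      · exact absurd rfl h'
      · exact h1 j t ht
      · rw [pt_symm]
        exact h1 j _ ht'
      · exact absurd rfl h'
    · simp only at h h' h''
      subst h h' h''
      exact h2 j t ht
    · simp only at h h' h''
      subst h h' h''
      rw [pt_symm]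
      exact h2 k _ ht'

lemma Q_val (i : Fin 4) (j : Fin 8) : ((a i j + a i (j + 1) : ℕ) : ℝ≥0∞) ≤ val (w i) (Q j) := by
  have e1 : j ≠ j + 1 := by revert j; decide
  rw [val_eq]
  refine le_trans ?_ (Finset.sum_le_sum_of_subset (Finset.subset_univ {j, j + 1}))
  rw [Finset.sum_pair e1]
  have h1 : {t ∈ Icc (0 : ℝ) 1 | pt (c j) (l j) t ∈ Q j} = Icc 0 1 :=
    sep_eq_self_iff_mem_true.2 fun t ht => Or.inl (Or.inl (Or.inl ⟨t, ht, rfl⟩))
  have h2 : {t ∈ Icc (0 : ℝ) 1 | pt (c (j + 1)) (l (j + 1)) t ∈ Q j} = Icc 0 1 :=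
    sep_eq_self_iff_mem_true.2 fun t ht => Or.inl (Or.inr ⟨t, ht, rfl⟩)
  rw [h1, h2]
  simp

def g : Fin 4 → Fin 4 → Fin 8 := ![![0, 2, 4, 6], ![0, 2, 4, 6], ![1, 3, 5, 7], ![1, 3, 5, 7]]

lemma five_le (i : Fin 4) : 5 ≤ mms G (w i) 4 := by
  have h1 : ∀ i m m', m ≠ m' → g i m' ≠ g i m ∧ g i m' ≠ g i m + 1 ∧ g i m ≠ g i m' + 1 := by
    decide
  have h2 : ∀ i m, a i (g i m) + a i (g i m + 1) = 5 := by decide
  refine le_iSup₂_of_le (fun m => Q (g i m)) ⟨⟨fun m => ⟨Q_piece _, Q_conn _⟩, fun m m' h => ?_⟩,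
    Q_cover _ (by revert i; decide)⟩ (le_iInf fun m => ?_)
  · exact Q_disj (h1 i m m' h).1 (h1 i m m' h).2.1 (h1 i m m' h).2.2
  · have := Q_val i (g i m)
    rwa [h2] at this

lemma sep1 : ∀ j, ∀ u ∈ ({l j} : Finset W), ∀ v ∈ Finset.univ \ {l j, c j}, ¬G.Adj u v := by
  decide +kernel

lemma sep2 (j : Fin 8) (u v : W) (h1 : u ∉ ({l j} : Finset W))
    (h2 : u ∉ Finset.univ \ {l j, c j}) (h3 : v ∉ ({l j} : Finset W))
    (h4 : v ∉ Finset.univ \ {l j, c j}) : ¬G.Adj u v := by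
  have e1 : u = c j := by simpa [Finset.mem_singleton.not.1 h1] using h2
  have e2 : v = c j := by simpa [Finset.mem_singleton.not.1 h3] using h4
  simp [e1, e2]

lemma sep3 : ∀ j, ∀ u ∈ ({c j, l j} : Finset W),
    ∀ v ∈ Finset.univ \ {c j, l j, c (j + 1), c (j - 1)}, ¬G.Adj u v := by
  decide +kernel

lemma two_of (j : Fin 8) (z : W) (z1 : z ∉ ({c j, l j} : Finset W))
    (z2 : z ∉ Finset.univ \ {c j, l j, c (j + 1), c (j - 1)}) :
    z = c (j + 1) ∨ z = c (j - 1) := by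
  simp only [Finset.mem_insert, Finset.mem_singleton, not_or, Finset.mem_sdiff,
    Finset.mem_univ, true_and, not_not, not_and_or] at z1 z2
  tauto

lemma sep4 (j : Fin 8) (u v : W) (h1 : u ∉ ({c j, l j} : Finset W))
    (h2 : u ∉ Finset.univ \ {c j, l j, c (j + 1), c (j - 1)}) (h3 : v ∉ ({c j, l j} : Finset W))
    (h4 : v ∉ Finset.univ \ {c j, l j, c (j + 1), c (j - 1)}) : ¬G.Adj u v := by
  have key : ∀ j, ¬ G.Adj (c (j + 1)) (c (j - 1)) := by decide +kernel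
  rcases two_of j u h1 h2 with rfl | rfl <;> rcases two_of j v h3 h4 with rfl | rfl
  · simp
  · exact key j
  · exact fun h => key j h.symm
  · simp

lemma owned {A : Set (W → ℝ)} (hA : IsPiece G A) (hC : Conn A) (i : Fin 4)
    (h5 : 5 ≤ val (w i) A) (S : Finset (Fin 8)) (hS : ∀ j, j ∈ S ↔ Pi.single (c j) 1 ∈ A) :
    5 ≤ ∑ j ∈ S, a i j ∧ ∀ j ∈ S, ∀ k ∈ S, k ≠ j → k ≠ j + 1 → j ≠ k + 1 →
      ∃ m ∈ S, m = j + 1 ∨ j = m + 1 := by
  classical
  constructor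
  · let T : Finset (Fin 8) := Finset.univ.filter fun j => ∃ t ∈ Ioc (0 : ℝ) 1, pt (c j) (l j) t ∈ A
    have h1 : val (w i) A ≤ ((∑ j ∈ T, a i j : ℕ) : ℝ≥0∞) := by
      rw [val_eq, Nat.cast_sum, ← Finset.sum_subset (Finset.subset_univ T)]
      · refine Finset.sum_le_sum fun j _ => ?_
        have : volume {t ∈ Icc (0 : ℝ) 1 | pt (c j) (l j) t ∈ A} ≤ 1 :=
          (measure_mono (sep_subset _ _)).trans (by simp)
        exact mul_le_of_le_one_right' this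
      · intro j _ hj
        have : volume {t ∈ Icc (0 : ℝ) 1 | pt (c j) (l j) t ∈ A} = 0 := by
          refine measure_mono_null (t := {0}) (fun t ht => ?_) (by simp)
          by_contra h0
          exact hj (Finset.mem_filter.2 ⟨Finset.mem_univ _, t,
            ⟨lt_of_le_of_ne ht.1.1 (Ne.symm h0), ht.1.2⟩, ht.2⟩)
        rw [this, mul_zero]
    have h2 : 5 ≤ ∑ j ∈ T, a i j := by exact_mod_cast h5.trans h1
    refine h2.trans (Finset.sum_le_sum_of_subset fun j hj => ?_)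
    obtain ⟨k, hk, hkj⟩ : ∃ k ∈ T, k ≠ j := by
      by_contra h
      push Not at h
      have h3 : T ⊆ {j} := fun k hk => Finset.mem_singleton.2 (h k hk)
      have h4 := h2.trans (Finset.sum_le_sum_of_subset h3)
      rw [Finset.sum_singleton] at h4
      have : ∀ i j, a i j ≤ 4 := by decide
      have := this i j
      omega
    obtain ⟨-, t, ht, hx⟩ := Finset.mem_filter.1 hj
    obtain ⟨-, s, hs, hy⟩ := Finset.mem_filter.1 hk
    obtain ⟨z, z1, z2, hz⟩ := cut hA hC {l j} (Finset.univ \ {l j, c j}) (by simp)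
      (sep1 j) (sep2 j) hx hy
      (by rw [mass, mass]; simp [c, l, ht.1.le]) (by rw [mass, mass]; simp [c, l, hkj])
    rw [hS]
    have : z = c j := by simpa [Finset.mem_singleton.not.1 z1] using z2
    rwa [← this]
  · intro j hj k hk h0 h1 h2
    obtain ⟨z, z1, z2, hz⟩ := cut hA hC {c j, l j}
      (Finset.univ \ {c j, l j, c (j + 1), c (j - 1)}) (by simp)
      (sep3 j) (sep4 j) ((hS j).1 hj) ((hS k).1 hk)
      (by rw [← pt_zero _ (l j), mass, mass]; simp)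
      (by
        have : k ≠ j - 1 := fun h => h2 (by rw [h, sub_add_cancel])
        rw [← pt_zero _ (l k), mass, mass]
        simp [c, l, h0, h1, this])
    rcases two_of j z z1 z2 with rfl | rfl
    · exact ⟨_, (hS _).2 hz, Or.inl rfl⟩
    · exact ⟨_, (hS _).2 hz, Or.inr (sub_add_cancel _ _).symm⟩

lemma comb (S : Fin 4 → Finset (Fin 8)) (hd : Pairwise fun i j => Disjoint (S i) (S j))
    (h : ∀ i, 5 ≤ ∑ j ∈ S i, a i j ∧ ∀ j ∈ S i, ∀ k ∈ S i, k ≠ j → k ≠ j + 1 → j ≠ k + 1 →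
      ∃ m ∈ S i, m = j + 1 ∨ j = m + 1) : False := by
  have h1 : ∀ i, 2 ≤ (S i).card := by
    intro i
    have h4 : ∀ i j, a i j ≤ 4 := by decide
    have := (h i).1.trans (Finset.sum_le_card_nsmul _ _ 4 fun j _ => h4 i j)
    simp only [smul_eq_mul] at this
    omega
  have h2 : ∑ i, (S i).card ≤ 8 := by
    rw [← Finset.card_biUnion fun i _ j _ hij => hd hij]
    exact (Finset.card_le_univ _).trans (by simp)
  have h3 : ∀ i, ∃ j, S i = {j, j + 1} := by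
    intro i
    have hc : (S i).card = 2 := by
      rw [Fin.sum_univ_four] at h2
      have := h1 0
      have := h1 1
      have := h1 2
      have := h1 3
      fin_cases i <;> simp only [Fin.zero_eta, Fin.mk_one, Fin.reduceFinMk] <;> omega
    obtain ⟨j, k, hjk, he⟩ := Finset.card_eq_two.1 hc
    by_cases e1 : k = j + 1
    · exact ⟨j, by rw [he, e1]⟩
    by_cases e2 : j = k + 1
    · exact ⟨k, by rw [he, e2, Finset.pair_comm]⟩
    obtain ⟨m, hm, hm'⟩ := (h i).2 j (by simp [he]) k (by simp [he]) hjk.symm e1 e2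
    rw [he, Finset.mem_insert, Finset.mem_singleton] at hm
    have e3 : ∀ j : Fin 8, j ≠ j + 1 := by decide
    rcases hm with rfl | rfl <;> rcases hm' with h' | h'
    · exact absurd h' (e3 _)
    · exact absurd h' (e3 _)
    · exact absurd h' e1
    · exact absurd h' e2
  choose p hp using h3
  have h4 : ∀ i, 5 ≤ ∑ j ∈ ({p i, p i + 1} : Finset (Fin 8)), a i j := fun i => hp i ▸ (h i).1
  have h5 : ∀ i j, i ≠ j → Disjoint ({p i, p i + 1} : Finset (Fin 8)) {p j, p j + 1} :=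
    fun i j hij => hp i ▸ hp j ▸ hd hij
  have key : ∀ x y z u : Fin 8, ¬ (5 ≤ ∑ j ∈ ({x, x + 1} : Finset (Fin 8)), a 0 j ∧
      5 ≤ ∑ j ∈ ({y, y + 1} : Finset (Fin 8)), a 1 j ∧
      Disjoint ({x, x + 1} : Finset (Fin 8)) {y, y + 1} ∧
      5 ≤ ∑ j ∈ ({z, z + 1} : Finset (Fin 8)), a 2 j ∧
      5 ≤ ∑ j ∈ ({u, u + 1} : Finset (Fin 8)), a 3 j ∧
      Disjoint ({x, x + 1} : Finset (Fin 8)) {z, z + 1} ∧
      Disjoint ({x, x + 1} : Finset (Fin 8)) {u, u + 1} ∧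
      Disjoint ({y, y + 1} : Finset (Fin 8)) {z, z + 1} ∧
      Disjoint ({y, y + 1} : Finset (Fin 8)) {u, u + 1} ∧
      Disjoint ({z, z + 1} : Finset (Fin 8)) {u, u + 1}) := by
    decide +kernel
  exact key _ _ _ _ ⟨h4 0, h4 1, h5 0 1 (by decide), h4 2, h4 3, h5 0 2 (by decide),
    h5 0 3 (by decide), h5 1 2 (by decide), h5 1 3 (by decide), h5 2 3 (by decide)⟩

theorem main (A : Fin 4 → Set (W → ℝ)) (hA : IsAlloc G A) :
    ∃ i, val (w i) (A i) < mms G (w i) 4 := by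
  classical
  by_contra h
  push Not at h
  refine comb (fun i => Finset.univ.filter fun j => Pi.single (c j) 1 ∈ A i) (fun i j hij => ?_)
    fun i => owned (hA.1 i).1 (hA.1 i).2 i ((five_le i).trans (h i)) _ (by simp)
  refine Finset.disjoint_left.2 fun k h1 h2 => ?_
  exact disjoint_left.1 (hA.2 hij) (Finset.mem_filter.1 h1).2 (Finset.mem_filter.1 h2).2

end Pool.Agent.H14.Cake
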