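import Mathlib

set_option autoImplicit false
open Finset Set

namespace Pool.Agent.H14.Cat

/-- Probability vectors (Schmidt vectors). -/
def Prob {ι : Type} [Fintype ι] (x : ι → ℝ) : Prop := (∀ i, 0 ≤ x i) ∧ ∑ i, x i = 1

/-- Majorization `x ≺ y` of probability vectors in the Hardy-Littlewood-Polya form; the condition
`f 0 = 0` makes it insensitive to padding with zeros. -/
def Maj {ι κ : Type} [Fintype ι] [Fintype κ] (x : ι → ℝ) (y : κ → ℝ) : Prop :=
  ∀ f : ℝ → ℝ, Continuous f → ConvexOn ℝ (Icc 0 1) f → f 0 = 0 → ∑ i, f (x i) ≤ ∑ j, f (y j)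

/-- Schmidt vector of a tensor product. -/
def tens {ι κ : Type} (x : ι → ℝ) (y : κ → ℝ) : ι × κ → ℝ := fun p => x p.1 * y p.2

def Chain {d : ℕ} (ψ φ : Fin d → ℝ) (n : ℕ → ℕ) (η : ∀ k, Fin (n k) → ℝ) : Prop :=
  (∀ k, Prob (η k)) ∧ ∀ k, Maj (tens ψ (η k)) (tens φ (η (k + 1)))

variable {ι κ : Type} [Fintype ι] [Fintype κ]

lemma Prob.le_one {x : ι → ℝ} (h : Prob x) (i : ι) : x i ≤ 1 :=
  h.2 ▸ single_le_sum (fun j _ => h.1 j) (mem_univ i)

lemma Prob.tens {x : ι → ℝ} {y : κ → ℝ} (h : Prob x) (h' : Prob y) : Prob (tens x y) :=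
  ⟨fun p => mul_nonneg (h.1 _) (h'.1 _), by
    simp only [Cat.tens, Fintype.sum_prod_type, ← mul_sum, h'.2, mul_one, h.2]⟩

lemma Prob.exists_pos {x : ι → ℝ} (h : Prob x) : ∃ i, 0 < x i := by
  by_contra hc
  push Not at hc
  have : ∑ i, x i ≤ 0 := sum_nonpos fun i _ => hc i
  linarith [h.2]

lemma Prob.exists_max {x : ι → ℝ} (h : Prob x) : ∃ i, 0 < x i ∧ ∀ j, x j ≤ x i := by
  obtain ⟨i0, h0⟩ := h.exists_pos
  obtain ⟨i, -, hi⟩ := exists_max_image univ x ⟨i0, mem_univ _⟩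
  exact ⟨i, lt_of_lt_of_le h0 (hi _ (mem_univ _)), fun j => hi j (mem_univ _)⟩

lemma sum_tens_pow (x : ι → ℝ) (y : κ → ℝ) (q : ℕ) :
    ∑ p, tens x y p ^ q = (∑ i, x i ^ q) * ∑ j, y j ^ q := by
  simp only [tens, Fintype.sum_prod_type, mul_pow, sum_mul_sum]

lemma sum_tens_rpow {x : ι → ℝ} {y : κ → ℝ} (h : Prob x) (h' : Prob y) (q : ℝ) :
    ∑ p, tens x y p ^ q = (∑ i, x i ^ q) * ∑ j, y j ^ q := by
  simp only [tens, Fintype.sum_prod_type, sum_mul_sum]
  exact sum_congr rfl fun i _ => sum_congr rfl fun j _ => Real.mul_rpow (h.1 i) (h'.1 j)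

lemma sum_tens_ent {x : ι → ℝ} {y : κ → ℝ} (h : Prob x) (h' : Prob y) :
    ∑ p, tens x y p * Real.log (tens x y p) =
      ∑ i, x i * Real.log (x i) + ∑ j, y j * Real.log (y j) := by
  have e : ∀ a b : ℝ, a * b * Real.log (a * b) = b * (a * Real.log a) + a * (b * Real.log b) := by
    intro a b
    by_cases ha : a = 0
    · simp [ha]
    by_cases hb : b = 0
    · simp [hb]
    rw [Real.log_mul ha hb]; ring
  simp only [tens, Fintype.sum_prod_type, e, sum_add_distrib, ← sum_mul, ← mul_sum, h.2, h'.2,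
    one_mul]

lemma sum_tens_log {x : ι → ℝ} {y : κ → ℝ} (h : ∀ i, 0 < x i) (h' : ∀ j, 0 < y j) :
    ∑ p, Real.log (tens x y p) =
      Fintype.card κ * ∑ i, Real.log (x i) + Fintype.card ι * ∑ j, Real.log (y j) := by
  simp only [tens, Fintype.sum_prod_type, fun i j => Real.log_mul (h i).ne' (h' j).ne',
    sum_add_distrib, sum_const, card_univ, nsmul_eq_mul, ← mul_sum]

lemma tele (w : ℕ → ℝ) (ε B : ℝ) (hε : 0 < ε) (h : ∀ k, w k + ε ≤ w (k + 1))
    (hB : ∀ k, w k ≤ B) : False := by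
  have : ∀ k : ℕ, w 0 + k * ε ≤ w k := by
    intro k
    induction k with
    | zero => simp
    | succ k ih => push_cast; linarith [h k]
  obtain ⟨k, hk⟩ := exists_nat_gt ((B - w 0) / ε)
  rw [div_lt_iff₀ hε] at hk
  linarith [this k, hB k]

lemma ms_eq {d : ℕ} (ψ φ : Fin d → ℝ) (q0 : ℕ) (h : ∀ q, q0 ≤ q → ∑ i, ψ i ^ q = ∑ i, φ i ^ q) :
    univ.val.map ψ = univ.val.map φ := by
  classical
  have h1 : ∀ P : Polynomial ℝ, ∑ i, ψ i ^ (q0 + 1) * P.eval (ψ i) =
      ∑ i, φ i ^ (q0 + 1) * P.eval (φ i) := by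
    intro P
    induction P using Polynomial.induction_on' with
    | add p q hp hq => simp only [Polynomial.eval_add, mul_add, sum_add_distrib, hp, hq]
    | monomial n a =>
      have e : ∀ t : ℝ, t ^ (q0 + 1) * (a * t ^ n) = a * t ^ (q0 + 1 + n) := fun t => by ring
      simp only [Polynomial.eval_monomial, e, ← mul_sum, h (q0 + 1 + n) (by omega)]
  have h2 : ∀ F : ℝ → ℝ, ∑ i, F (ψ i) = ∑ i, F (φ i) := by
    intro F
    set S : Finset ℝ := image ψ univ ∪ image φ univ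
    set P := Lagrange.interpolate S id fun t => (F t - F 0) / t ^ (q0 + 1)
    have e : ∀ t ∈ S, t ^ (q0 + 1) * P.eval t = F t - F 0 := by
      intro t ht
      have := Lagrange.eval_interpolate_at_node (s := S) (v := id)
        (fun t => (F t - F 0) / t ^ (q0 + 1)) (Set.injOn_id _) ht
      rw [id] at this
      rw [this]
      by_cases h0 : t = 0
      · simp [h0]
      · field_simp
    have := h1 P
    rw [sum_congr rfl fun i _ => e (ψ i) (by simp [S]),
      sum_congr rfl fun i _ => e (φ i) (by simp [S]), sum_sub_distrib, sum_sub_distrib] at this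
    linarith
  ext v
  have := h2 fun t => if v = t then 1 else 0
  rw [sum_boole, sum_boole] at this
  rw [Multiset.count_map, Multiset.count_map]
  exact_mod_cast this

lemma core {d : ℕ} {ψ φ : Fin d → ℝ} (hφ : Prob φ) {n : ℕ → ℕ}
    {η : ∀ k, Fin (n k) → ℝ} (hc : Chain ψ φ n η) (μ : ℝ) (hμ : 0 < μ) (hm : ∀ k, ∃ i, μ ≤ η k i)
    (v : ℕ → ℝ) (V : ℝ) (hV : ∀ k, v k ≤ V) (q0 : ℕ)
    (h : ∀ q, q0 ≤ q → ∃ c : ℝ, 0 < c ∧ ∀ k, c * (∑ p, tens φ (η (k + 1)) p ^ (q + 2) -
      ∑ p, tens ψ (η k) p ^ (q + 2)) ≤ v (k + 1) - v k) :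
    univ.val.map ψ = univ.val.map φ := by
  refine ms_eq ψ φ (q0 + 2) fun q hq => ?_
  obtain ⟨q, rfl⟩ : ∃ q', q = q' + 2 := ⟨q - 2, by omega⟩
  obtain ⟨c, hc0, H⟩ := h q (by omega)
  have M := fun k => hc.2 k (fun t => t ^ (q + 2)) (continuous_pow _)
    ((convexOn_pow _).subset Icc_subset_Ici_self (convex_Icc 0 1)) (by simp)
  simp only [sum_tens_pow] at H M
  set P := ∑ i, ψ i ^ (q + 2)
  set Q := ∑ i, φ i ^ (q + 2)
  have hQ : 0 ≤ Q := sum_nonneg fun i _ => pow_nonneg (hφ.1 i) _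
  have b1 : ∀ k, ∑ j, η k j ^ (q + 2) ≤ 1 := fun k => by
    rw [← (hc.1 k).2]
    exact sum_le_sum fun j _ => pow_le_of_le_one ((hc.1 k).1 j) ((hc.1 k).le_one j) (by omega)
  have b0 : ∀ k, μ ^ (q + 2) ≤ ∑ j, η k j ^ (q + 2) := fun k => by
    obtain ⟨i, hi⟩ := hm k
    exact le_trans (pow_le_pow_left₀ hμ.le hi _)
      (single_le_sum (f := fun j => η k j ^ (q + 2)) (fun j _ => pow_nonneg ((hc.1 k).1 j) _)
        (mem_univ i))
  have hβ : 0 < μ ^ (q + 2) := pow_pos hμ _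
  rcases lt_trichotomy P Q with hl | hl | hl
  · exfalso
    refine tele (fun k => v k - c * Q * ∑ j, η k j ^ (q + 2)) (c * ((Q - P) * μ ^ (q + 2))) V
      (mul_pos hc0 (mul_pos (by linarith) hβ)) (fun k => ?_) fun k => ?_
    · have := mul_le_mul_of_nonneg_left (mul_le_mul_of_nonneg_left (b0 k) (sub_pos.2 hl).le) hc0.le
      have := H k
      nlinarith
    · have := mul_nonneg (mul_nonneg hc0.le hQ) (le_trans hβ.le (b0 k))
      linarith [hV k]
  · exact hl
  · exfalso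
    refine tele (fun k => Q * ∑ j, η k j ^ (q + 2)) ((P - Q) * μ ^ (q + 2)) Q
      (mul_pos (by linarith) hβ) (fun k => ?_) fun k => ?_
    · have := mul_le_mul_of_nonneg_left (b0 k) (sub_pos.2 hl).le
      have := M k
      nlinarith
    · exact mul_le_of_le_one_right hQ (b1 k)

lemma cvx (D : Set ℝ) (hD : Convex ℝ D) (hi : interior D = Set.Ioo 0 1) (g g' g'' : ℝ → ℝ)
    (hg : ContinuousOn g D) (h1 : ∀ t ∈ Set.Ioo (0 : ℝ) 1, HasDerivAt g (g' t) t)
    (h2 : ∀ t ∈ Set.Ioo (0 : ℝ) 1, HasDerivAt g' (g'' t) t) (q : ℕ) (c : ℝ)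
    (h3 : ∀ t ∈ Set.Ioo (0 : ℝ) 1, c * ((q + 2) * (q + 1)) * t ^ q ≤ g'' t) :
    ConvexOn ℝ D fun t => g t - c * t ^ (q + 2) := by
  refine convexOn_of_hasDerivWithinAt2_nonneg (f' := fun t => g' t - c * ((q + 2) * t ^ (q + 1)))
    (f'' := fun t => g'' t - c * ((q + 2) * ((q + 1) * t ^ q))) hD
    (hg.sub (by fun_prop)) ?_ ?_ ?_
  · intro t ht
    rw [hi] at ht
    have := ((hasDerivAt_pow (q + 2) t).const_mul c)
    exact ((h1 t ht).fun_sub (by simpa using this)).hasDerivWithinAt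
  · intro t ht
    rw [hi] at ht
    have := (((hasDerivAt_pow (q + 1) t).const_mul ((q : ℝ) + 2)).const_mul c)
    exact ((h2 t ht).fun_sub (by simpa using this)).hasDerivWithinAt
  · intro t ht
    rw [hi] at ht
    have := h3 t ht
    linarith

lemma majpos {x : ι → ℝ} {y : κ → ℝ} (h : Maj x y) (hx : ∀ i, 0 < x i) (hy : ∀ j, 0 < y j)
    (hc : Fintype.card ι = Fintype.card κ) (f : ℝ → ℝ) (hf : ContinuousOn f (Ioi 0))
    (hv : ConvexOn ℝ (Ioc 0 1) f) : ∑ i, f (x i) ≤ ∑ j, f (y j) := by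
  have key : ∀ s : ℝ, 0 < s → ∑ i, f ((x i + s) / (1 + s)) ≤ ∑ j, f ((y j + s) / (1 + s)) := by
    intro s hs
    have hs1 : 0 < 1 + s := by linarith
    have := h (fun t => f ((max t 0 + s) / (1 + s)) - f (s / (1 + s))) ?_ ?_ (by simp)
    · simp only [sum_sub_distrib, sum_const, card_univ, hc, fun i => max_eq_left (hx i).le,
        fun j => max_eq_left (hy j).le] at this
      linarith
    · refine Continuous.sub ?_ continuous_const
      refine hf.comp_continuous (by fun_prop) fun t => ?_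
      exact div_pos (by linarith [le_max_right t 0]) hs1
    · refine ⟨convex_Icc 0 1, fun a ha b hb p q hp hq hpq => ?_⟩
      have m : ∀ t ∈ Icc (0 : ℝ) 1, (t + s) / (1 + s) ∈ Ioc (0 : ℝ) 1 := fun t ht =>
        ⟨div_pos (by linarith [ht.1]) hs1, (div_le_one hs1).2 (by linarith [ht.2])⟩
      have := hv.2 (m a ha) (m b hb) hp hq hpq
      have hab : 0 ≤ p • a + q • b := add_nonneg (mul_nonneg hp ha.1) (mul_nonneg hq hb.1)
      simp only [max_eq_left ha.1, max_eq_left hb.1, max_eq_left hab]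
      have e : (p • a + q • b + s) / (1 + s) = p • ((a + s) / (1 + s)) + q • ((b + s) / (1 + s)) := by
        simp only [smul_eq_mul]
        field_simp
        linear_combination (-s) * hpq
      rw [e]
      simp only [smul_eq_mul] at this ⊢
      have e2 : f (s / (1 + s)) = p * f (s / (1 + s)) + q * f (s / (1 + s)) := by
        rw [← add_mul, hpq, one_mul]
      linarith
  have lim : ∀ a : ℝ, 0 < a → Filter.Tendsto (fun s : ℝ => f ((a + s) / (1 + s)))
      (nhdsWithin 0 (Ioi 0)) (nhds (f a)) := by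
    intro a ha
    have c1 : ContinuousAt (fun s : ℝ => (a + s) / (1 + s)) 0 :=
      ContinuousAt.div (by fun_prop) (by fun_prop) (by simp)
    have c2 : ContinuousAt f ((a + 0) / (1 + 0)) := by
      simpa using hf.continuousAt (Ioi_mem_nhds ha)
    have := (ContinuousAt.comp (f := fun s : ℝ => (a + s) / (1 + s)) c2 c1).tendsto
    simp only [Function.comp_def, add_zero, div_one] at this
    exact this.mono_left nhdsWithin_le_nhds
  exact le_of_tendsto_of_tendsto (tendsto_finsetSum _ fun i _ => lim _ (hx i))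
    (tendsto_finsetSum _ fun j _ => lim _ (hy j))
    (eventually_nhdsWithin_of_forall fun s hs => key s hs)

open Classical in
noncomputable def rk (x : ι → ℝ) : ℕ := (univ.filter fun i => x i ≠ 0).card

lemma rk_le {x : ι → ℝ} {y : κ → ℝ} (h : Maj x y) (hy : Prob y) : rk y ≤ rk x := by
  classical
  obtain ⟨j0, h0⟩ := hy.exists_pos
  obtain ⟨j, hj, hm⟩ := exists_min_image (univ.filter fun j => y j ≠ 0) y ⟨j0, by simp [h0.ne']⟩
  have he : 0 < y j := lt_of_le_of_ne (hy.1 j) (by simpa [eq_comm] using hj)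
  have := h (fun t => max (-(t / y j)) (-1)) (by fun_prop) ?_ (by simp)
  · have e1 : ∑ i, max (-(y i / y j)) (-1) = -(rk y : ℝ) := by
      rw [rk, card_filter]; push_cast
      rw [← sum_neg_distrib]
      refine sum_congr rfl fun i _ => ?_
      by_cases hi : y i = 0
      · simp [hi]
      · have := (one_le_div he).2 (hm i (by simp [hi]))
        simp only [ne_eq, hi, not_false_eq_true, if_true]
        exact max_eq_right (by linarith)
    have e2 : -(rk x : ℝ) ≤ ∑ i, max (-(x i / y j)) (-1) := by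
      rw [rk, card_filter]; push_cast
      rw [← sum_neg_distrib]
      refine sum_le_sum fun i _ => ?_
      by_cases hi : x i = 0
      · simp [hi]
      · simp [hi]
    have : (rk y : ℝ) ≤ rk x := by linarith
    exact_mod_cast this
  · refine ConvexOn.sup (f := fun t : ℝ => -(t / y j)) (g := fun _ => -1) ?_
      (convexOn_const _ (convex_Icc 0 1))
    refine ⟨convex_Icc 0 1, fun a _ b _ p q _ _ _ => le_of_eq ?_⟩
    simp only [smul_eq_mul]; ring

lemma rk_tens (x : ι → ℝ) (y : κ → ℝ) : rk (tens x y) = rk x * rk y := by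
  classical
  simp only [rk, ← card_product]
  congr 1
  ext ⟨i, j⟩
  simp [tens]

lemma rk_pos {x : ι → ℝ} (h : Prob x) : 0 < rk x := by
  classical
  obtain ⟨i, hi⟩ := h.exists_pos
  exact card_pos.2 ⟨i, by simp [hi.ne']⟩

lemma rk_full {x : ι → ℝ} (h : ∀ i, 0 < x i) : rk x = Fintype.card ι := by
  classical
  rw [rk, filter_true_of_mem fun i _ => (h i).ne', card_univ]

lemma rk_lt {x : ι → ℝ} (i : ι) (h : x i = 0) : rk x < Fintype.card ι := by
  classical
  rw [rk, ← card_univ]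
  exact card_lt_card (filter_ssubset.2 ⟨i, mem_univ _, by simp [h]⟩)

end Pool.Agent.H14.Cat
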