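import Mathlib
import Pool.Agent.H14.Cat1

set_option autoImplicit false
open Finset Set

namespace Pool.Agent.H14.Cat

variable {ι κ : Type} [Fintype ι] [Fintype κ]

lemma compress (x : ι → ℝ) (r : ℕ) (h : rk x ≤ r) : ∃ z : Fin r → ℝ,
    (∀ F : ℝ → ℝ, F 0 = 0 → ∑ i, F (x i) = ∑ j, F (z j)) ∧ ∀ j, z j = 0 ∨ ∃ i, z j = x i := by
  classical
  have hc : Fintype.card {i // x i ≠ 0} ≤ Fintype.card (Fin r) := by
    rw [Fintype.card_fin, Fintype.card_subtype]; exact h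
  obtain ⟨e⟩ := Function.Embedding.nonempty_of_card_le hc
  refine ⟨Function.extend e (fun i => x i.1) 0, fun F hF => ?_, fun j => ?_⟩
  · have e1 : ∑ i : {i // x i ≠ 0}, F (x i.1) = ∑ j, F (Function.extend e (fun i => x i.1) 0 j) := by
      refine Fintype.sum_of_injective e e.injective _ _ (fun j hj => ?_) fun i => ?_
      · rw [Function.extend_apply' _ _ _ (by simpa using hj)]; simpa using hF
      · rw [e.injective.extend_apply]
    rw [← e1, ← Finset.sum_subtype (univ.filter fun i => x i ≠ 0) (by simp) fun i => F (x i)]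
    symm
    refine sum_filter_of_ne fun i _ hi h0 => hi (by rw [h0, hF])
  · by_cases hj : ∃ i, e i = j
    · obtain ⟨i, rfl⟩ := hj
      exact Or.inr ⟨i.1, e.injective.extend_apply _ _ _⟩
    · left; rw [Function.extend_apply' _ _ _ hj]; rfl

variable {d : ℕ} {ψ φ : Fin d → ℝ}

lemma rk_step (hφ : Prob φ) {n : ℕ → ℕ} {η : ∀ k, Fin (n k) → ℝ} (hc : Chain ψ φ n η) (k : ℕ) :
    rk φ * rk (η (k + 1)) ≤ rk ψ * rk (η k) := by
  rw [← rk_tens, ← rk_tens]
  exact rk_le (hc.2 k) (hφ.tens (hc.1 _))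

lemma rk_ge (hφ : Prob φ) {n : ℕ → ℕ} {η : ∀ k, Fin (n k) → ℝ} (hc : Chain ψ φ n η) :
    rk φ ≤ rk ψ := by
  by_contra hl
  push Not at hl
  refine tele (fun k => -(rk (η k) : ℝ)) 1 0 one_pos (fun k => ?_) fun k => by simp
  have h1 := rk_step hφ hc k
  have h2 := rk_pos (hc.1 k)
  have : rk (η (k + 1)) < rk (η k) := by
    by_contra h3
    push Not at h3
    nlinarith
  have : (rk (η (k + 1)) : ℝ) + 1 ≤ rk (η k) := by exact_mod_cast this
  linarith

lemma good (hφ : Prob φ) (hr : rk ψ ≤ rk φ) (r : ℕ) : ∀ (n : ℕ → ℕ) (η : ∀ k, Fin (n k) → ℝ),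
    Chain ψ φ n η → rk (η 0) ≤ r → ∃ (s : ℕ) (m : ℝ) (z : ℕ → Fin s → ℝ), 0 < m ∧
      Chain ψ φ (fun _ => s) z ∧ ∀ k j, m ≤ z k j := by
  induction r with
  | zero =>
    intro n η hc h0
    have := rk_pos (hc.1 0)
    omega
  | succ r ih =>
    intro n η hc h0
    have hall : ∀ k, rk (η k) ≤ r + 1 := by
      intro k
      induction k with
      | zero => exact h0
      | succ k ihk =>
        have h1 := rk_step hφ hc k
        have h2 := rk_pos hφ
        have : rk (η (k + 1)) ≤ rk (η k) := by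
          by_contra h3
          push Not at h3
          nlinarith
        omega
    choose z hz hz' using fun k => compress (η k) (r + 1) (hall k)
    set K : Set (ℕ → Fin (r + 1) → ℝ) := {w | Chain ψ φ (fun _ => r + 1) w} with hK
    have hne : z ∈ K := by
      refine ⟨fun k => ⟨fun j => ?_, ?_⟩, fun k f h1 h2 h3 => ?_⟩
      · rcases hz' k j with h | ⟨i, h⟩
        · exact h.ge
        · rw [h]; exact (hc.1 k).1 i
      · have := hz k id rfl
        simp only [id] at this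
        rw [← this, (hc.1 k).2]
      · have := hc.2 k f h1 h2 h3
        simp only [tens, Fintype.sum_prod_type] at this ⊢
        rw [sum_congr rfl fun i _ => hz k (fun t => f (ψ i * t)) (by simpa using h3),
          sum_congr rfl fun i _ => hz (k + 1) (fun t => f (φ i * t)) (by simpa using h3)] at this
        exact this
    have hcl : IsClosed K := by
      have : K = (⋂ k, {w | (∀ j, 0 ≤ w k j) ∧ ∑ j, w k j = 1}) ∩
          ⋂ k, ⋂ f : ℝ → ℝ, ⋂ (_ : Continuous f), ⋂ (_ : ConvexOn ℝ (Set.Icc 0 1) f),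
            ⋂ (_ : f 0 = 0), {w | ∑ p, f (tens ψ (w k) p) ≤ ∑ p, f (tens φ (w (k + 1)) p)} := by
        ext w
        simp [hK, Chain, Prob, Maj]
      rw [this]
      refine IsClosed.inter (isClosed_iInter fun k => ?_) (isClosed_iInter fun k =>
        isClosed_iInter fun f => isClosed_iInter fun hf => isClosed_iInter fun _ =>
        isClosed_iInter fun _ => ?_)
      · rw [setOf_and, setOf_forall]
        exact (isClosed_iInter fun j => isClosed_le continuous_const (by fun_prop)).inter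
          (isClosed_eq (by fun_prop) continuous_const)
      · simp only [tens]
        exact isClosed_le (by fun_prop) (by fun_prop)
    have hcp : IsCompact K := by
      refine (isCompact_univ_pi fun _ : ℕ => isCompact_univ_pi fun _ : Fin (r + 1) =>
        (isCompact_Icc : IsCompact (Set.Icc (0 : ℝ) 1))).of_isClosed_subset hcl ?_
      intro w hw k _ j _
      exact ⟨(hw.1 k).1 j, (hw.1 k).le_one j⟩
    have hex : ∀ j : Fin (r + 1), ∃ w ∈ K, ∀ w' ∈ K, w 0 j ≤ w' 0 j := fun j => by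
      obtain ⟨w, hw, hm⟩ := hcp.exists_isMinOn (f := fun w => w 0 j) ⟨z, hne⟩ (by fun_prop)
      exact ⟨w, hw, fun w' hw' => hm hw'⟩
    choose w hw hm using hex
    by_cases hz0 : ∃ j, w j 0 j = 0
    · obtain ⟨j, hj⟩ := hz0
      have := rk_lt j hj
      rw [Fintype.card_fin] at this
      exact ih _ (w j) (hw j) (by omega)
    · push Not at hz0
      obtain ⟨j0, -, hj0⟩ := exists_min_image univ (fun j => w j 0 j) ⟨0, Finset.mem_univ _⟩
      refine ⟨r + 1, w j0 0 j0, z, lt_of_le_of_ne (((hw j0).1 0).1 j0) (hz0 j0).symm, hne,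
        fun k j => ?_⟩
      refine le_trans (hj0 j (Finset.mem_univ _)) ?_
      have := hm j (fun i => z (k + i)) ⟨fun i => hne.1 _, fun i => hne.2 _⟩
      simpa using this

lemma gap {x : ι → ℝ} {y : κ → ℝ} (h : Maj x y) (g g' g'' : ℝ → ℝ) (hg : Continuous g)
    (h0 : g 0 = 0) (h1 : ∀ t ∈ Set.Ioo (0 : ℝ) 1, HasDerivAt g (g' t) t)
    (h2 : ∀ t ∈ Set.Ioo (0 : ℝ) 1, HasDerivAt g' (g'' t) t) (q : ℕ) (a : ℝ)
    (h3 : ∀ t ∈ Set.Ioo (0 : ℝ) 1, a * t ^ q ≤ g'' t) :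
    a / ((q + 2) * (q + 1)) * (∑ j, y j ^ (q + 2) - ∑ i, x i ^ (q + 2)) ≤
      ∑ j, g (y j) - ∑ i, g (x i) := by
  have := h (fun t => g t - a / ((q + 2) * (q + 1)) * t ^ (q + 2)) (by fun_prop)
    (cvx _ (convex_Icc 0 1) interior_Icc g g' g'' hg.continuousOn h1 h2 q _ fun t ht => by
      rw [div_mul_cancel₀ _ (by positivity)]; exact h3 t ht) (by simp [h0])
  simp only [sum_sub_distrib, ← mul_sum] at this
  linarith

lemma gappos {x : ι → ℝ} {y : κ → ℝ} (h : Maj x y) (hx : ∀ i, 0 < x i) (hy : ∀ j, 0 < y j)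
    (hc : Fintype.card ι = Fintype.card κ) (g g' g'' : ℝ → ℝ) (hg : ContinuousOn g (Set.Ioi 0))
    (h1 : ∀ t ∈ Set.Ioo (0 : ℝ) 1, HasDerivAt g (g' t) t)
    (h2 : ∀ t ∈ Set.Ioo (0 : ℝ) 1, HasDerivAt g' (g'' t) t) (q : ℕ) (a : ℝ)
    (h3 : ∀ t ∈ Set.Ioo (0 : ℝ) 1, a * t ^ q ≤ g'' t) :
    a / ((q + 2) * (q + 1)) * (∑ j, y j ^ (q + 2) - ∑ i, x i ^ (q + 2)) ≤
      ∑ j, g (y j) - ∑ i, g (x i) := by
  have := majpos h hx hy hc (fun t => g t - a / ((q + 2) * (q + 1)) * t ^ (q + 2))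
    (hg.sub (by fun_prop))
    (cvx _ (convex_Ioc 0 1) interior_Ioc g g' g'' (hg.mono Ioc_subset_Ioi_self) h1 h2 q _
      fun t ht => by rw [div_mul_cancel₀ _ (by positivity)]; exact h3 t ht)
  simp only [sum_sub_distrib, ← mul_sum] at this
  linarith

lemma dr1 (s p : ℝ) : ∀ t ∈ Set.Ioo (0 : ℝ) 1,
    HasDerivAt (fun t : ℝ => s * t ^ p) (s * (p * t ^ (p - 1))) t := fun _ ht =>
  (Real.hasDerivAt_rpow_const (Or.inl ht.1.ne')).const_mul s

lemma dr2 (s p : ℝ) : ∀ t ∈ Set.Ioo (0 : ℝ) 1,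
    HasDerivAt (fun t : ℝ => s * (p * t ^ (p - 1))) (s * (p * ((p - 1) * t ^ (p - 1 - 1)))) t :=
  fun _ ht => ((Real.hasDerivAt_rpow_const (Or.inl ht.1.ne')).const_mul p).const_mul s

lemma dr3 (s p a : ℝ) (q : ℕ) (hq : p ≤ q) (hs : 0 ≤ s * (p * (p - 1))) (ha : a ≤ s * (p * (p - 1))) :
    ∀ t ∈ Set.Ioo (0 : ℝ) 1, a * t ^ q ≤ s * (p * ((p - 1) * t ^ (p - 1 - 1))) := by
  intro t ht
  have h1 : t ^ q ≤ t ^ (p - 1 - 1) := by
    rw [← Real.rpow_natCast]
    exact Real.rpow_le_rpow_of_exponent_ge ht.1 ht.2.le (by linarith)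
  have h2 := mul_le_mul_of_nonneg_left h1 hs
  have h3 := mul_le_mul_of_nonneg_right ha (pow_pos ht.1 q).le
  linarith

lemma rsum_pos {x : ι → ℝ} (h : Prob x) (p : ℝ) : 0 < ∑ i, x i ^ p := by
  obtain ⟨i, hi⟩ := h.exists_pos
  exact sum_pos' (fun j _ => Real.rpow_nonneg (h.1 j) p) ⟨i, Finset.mem_univ _, Real.rpow_pos_of_pos hi p⟩

lemma mono_of (v : ℕ → ℝ) (h : ∀ k, v k ≤ v (k + 1)) (k : ℕ) : v 0 ≤ v k :=
  monotone_nat_of_le_succ h (Nat.zero_le k)

lemma case_gt (hψ : Prob ψ) (hφ : Prob φ) {n : ℕ → ℕ} {η : ∀ k, Fin (n k) → ℝ}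
    (hc : Chain ψ φ n η) (p : ℝ) (hp : 1 < p) (h : ∑ i, φ i ^ p ≤ ∑ i, ψ i ^ p) :
    univ.val.map ψ = univ.val.map φ := by
  have hs : 0 < 1 * (p * (p - 1)) := by nlinarith
  have G : ∀ (q : ℕ) (a : ℝ), p ≤ q → a ≤ 1 * (p * (p - 1)) → ∀ k,
      a / ((q + 2) * (q + 1)) * (∑ j, tens φ (η (k + 1)) j ^ (q + 2) - ∑ i, tens ψ (η k) i ^ (q + 2)) ≤
      (∑ i, φ i ^ p) * ∑ j, η (k + 1) j ^ p - (∑ i, φ i ^ p) * ∑ j, η k j ^ p := by
    intro q a hq ha k
    have := gap (hc.2 k) _ _ _ ((Real.continuous_rpow_const (by linarith : 0 ≤ p)).const_mul 1)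
      (by simp [(by linarith : p ≠ 0)]) (dr1 1 p) (dr2 1 p) q a (dr3 1 p a q hq hs.le ha)
    simp only [one_mul, sum_tens_rpow hφ (hc.1 _), sum_tens_rpow hψ (hc.1 _)] at this
    have h2 := mul_le_mul_of_nonneg_right h (rsum_pos (hc.1 k) p).le
    linarith
  have hN := rsum_pos hφ p
  have hup : ∀ k, ∑ j, η 0 j ^ p ≤ ∑ j, η k j ^ p := mono_of (fun k => ∑ j, η k j ^ p) fun k => by
    have := G ⌈p⌉₊ 0 (Nat.le_ceil p) hs.le k
    rw [zero_div, zero_mul, ← mul_sub] at this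
    have := nonneg_of_mul_nonneg_right this hN
    linarith
  have bd : ∀ k (M : ℝ), 0 < M → (∀ j, η k j ≤ M) → ∑ j, η k j ^ p ≤ M ^ (p - 1) := by
    intro k M hM hj
    calc ∑ j, η k j ^ p ≤ ∑ j, η k j * M ^ (p - 1) := sum_le_sum fun j _ => by
          have e : η k j ^ p = η k j * η k j ^ (p - 1) := by
            rw [← Real.rpow_one_add' ((hc.1 k).1 j) (by linarith)]; congr 1; ring
          rw [e]
          exact mul_le_mul_of_nonneg_left (Real.rpow_le_rpow ((hc.1 k).1 j) (hj j) (by linarith))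
            ((hc.1 k).1 j)
      _ = _ := by rw [← sum_mul, (hc.1 k).2, one_mul]
  refine core hφ hc ((∑ j, η 0 j ^ p) ^ (p - 1)⁻¹) (Real.rpow_pos_of_pos (rsum_pos (hc.1 0) p) _)
    (fun k => ?_) (fun k => (∑ i, φ i ^ p) * ∑ j, η k j ^ p) (∑ i, φ i ^ p) (fun k => ?_) ⌈p⌉₊
    fun q hq => ⟨_, by positivity, G q _ ((Nat.le_ceil p).trans (by exact_mod_cast hq)) le_rfl⟩
  · obtain ⟨i, hi, hm⟩ := (hc.1 k).exists_max
    refine ⟨i, ?_⟩
    rw [Real.rpow_inv_le_iff_of_pos (rsum_pos (hc.1 0) p).le hi.le (by linarith)]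
    exact (hup k).trans (bd k _ hi hm)
  · refine mul_le_of_le_one_right hN.le ?_
    simpa using bd k 1 one_pos (hc.1 k).le_one

lemma case_mid (hψ : Prob ψ) (hφ : Prob φ) {n : ℕ → ℕ} {η : ∀ k, Fin (n k) → ℝ}
    (hc : Chain ψ φ n η) (p : ℝ) (hp0 : 0 < p) (hp : p < 1) (h : ∑ i, ψ i ^ p ≤ ∑ i, φ i ^ p) :
    univ.val.map ψ = univ.val.map φ := by
  have hs : 0 < -1 * (p * (p - 1)) := by nlinarith
  have G : ∀ (q : ℕ) (a : ℝ), p ≤ q → a ≤ -1 * (p * (p - 1)) → ∀ k,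
      a / ((q + 2) * (q + 1)) * (∑ j, tens φ (η (k + 1)) j ^ (q + 2) - ∑ i, tens ψ (η k) i ^ (q + 2)) ≤
      -((∑ i, φ i ^ p) * ∑ j, η (k + 1) j ^ p) - -((∑ i, φ i ^ p) * ∑ j, η k j ^ p) := by
    intro q a hq ha k
    have := gap (hc.2 k) _ _ _ ((Real.continuous_rpow_const hp0.le).const_mul (-1))
      (by simp [hp0.ne']) (dr1 (-1) p) (dr2 (-1) p) q a (dr3 (-1) p a q hq hs.le ha)
    simp only [neg_mul, one_mul, sum_neg_distrib, sum_tens_rpow hφ (hc.1 _),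
      sum_tens_rpow hψ (hc.1 _)] at this
    have h2 := mul_le_mul_of_nonneg_right h (rsum_pos (hc.1 k) p).le
    linarith
  have hN := rsum_pos hφ p
  have hup : ∀ k, -∑ j, η 0 j ^ p ≤ -∑ j, η k j ^ p := mono_of (fun k => -∑ j, η k j ^ p) fun k => by
    have := G 1 0 (by simpa using hp.le) hs.le k
    rw [zero_div, zero_mul] at this
    by_contra hl
    push Not at hl
    nlinarith
  have a0 := rsum_pos (hc.1 0) p
  refine core hφ hc ((∑ j, η 0 j ^ p)⁻¹ ^ (1 - p)⁻¹) (Real.rpow_pos_of_pos (inv_pos.2 a0) _)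
    (fun k => ?_) (fun k => -((∑ i, φ i ^ p) * ∑ j, η k j ^ p)) 0 (fun k => ?_) 1
    fun q hq => ⟨_, by positivity, G q _ (hp.le.trans (by exact_mod_cast hq)) le_rfl⟩
  · obtain ⟨i, hi, hm⟩ := (hc.1 k).exists_max
    refine ⟨i, ?_⟩
    rw [Real.rpow_inv_le_iff_of_pos (inv_pos.2 a0).le hi.le (by linarith), inv_le_iff_one_le_mul₀ a0]
    calc (1 : ℝ) = ∑ j, η k j := (hc.1 k).2.symm
      _ ≤ ∑ j, η k i ^ (1 - p) * η k j ^ p := sum_le_sum fun j _ => by
          have e : η k j = η k j ^ (1 - p) * η k j ^ p := by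
            rw [← Real.rpow_add' ((hc.1 k).1 j) (by linarith)]; simp
          nth_rewrite 1 [e]
          exact mul_le_mul_of_nonneg_right (Real.rpow_le_rpow ((hc.1 k).1 j) (hm j) (by linarith))
            (Real.rpow_nonneg ((hc.1 k).1 j) p)
      _ ≤ _ := by
          rw [← mul_sum]
          exact mul_le_mul_of_nonneg_left (by linarith [hup k]) (Real.rpow_nonneg hi.le _)
  · have := mul_pos hN (rsum_pos (hc.1 k) p)
    linarith

lemma case_ent (hψ : Prob ψ) (hφ : Prob φ) {n : ℕ → ℕ} {η : ∀ k, Fin (n k) → ℝ}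
    (hc : Chain ψ φ n η) (h : ∑ i, φ i * Real.log (φ i) ≤ ∑ i, ψ i * Real.log (ψ i)) :
    univ.val.map ψ = univ.val.map φ := by
  have G : ∀ (q : ℕ) (a : ℝ), a ≤ 1 → ∀ k,
      a / ((q + 2) * (q + 1)) * (∑ j, tens φ (η (k + 1)) j ^ (q + 2) - ∑ i, tens ψ (η k) i ^ (q + 2)) ≤
      ∑ j, η (k + 1) j * Real.log (η (k + 1) j) - ∑ j, η k j * Real.log (η k j) := by
    intro q a ha k
    have := gap (hc.2 k) (fun t => t * Real.log t) (fun t => Real.log t + 1) (fun t => t⁻¹)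
      Real.continuous_mul_log (by simp) (fun t ht => Real.hasDerivAt_mul_log ht.1.ne')
      (fun t ht => (Real.hasDerivAt_log ht.1.ne').add_const 1) q a fun t ht => by
        have h1 : t ^ q ≤ 1 := pow_le_one₀ ht.1.le ht.2.le
        have h2 : 1 ≤ t⁻¹ := (one_le_inv₀ ht.1).2 ht.2.le
        have h3 := mul_le_mul_of_nonneg_right ha (pow_pos ht.1 q).le
        linarith
    simp only [sum_tens_ent hφ (hc.1 _), sum_tens_ent hψ (hc.1 _)] at this
    linarith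
  have hup := mono_of (fun k => ∑ j, η k j * Real.log (η k j)) fun k => by
    have := G 1 0 zero_le_one k
    rw [zero_div, zero_mul] at this
    linarith
  have bd : ∀ k (M : ℝ), (∀ j, η k j ≤ M) → ∑ j, η k j * Real.log (η k j) ≤ Real.log M := by
    intro k M hj
    calc ∑ j, η k j * Real.log (η k j) ≤ ∑ j, η k j * Real.log M := sum_le_sum fun j _ => by
          rcases ((hc.1 k).1 j).eq_or_lt with h0 | h0
          · simp [← h0]
          · exact mul_le_mul_of_nonneg_left (Real.log_le_log h0 (hj j)) h0.le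
      _ = _ := by rw [← sum_mul, (hc.1 k).2, one_mul]
  refine core hφ hc (Real.exp (∑ j, η 0 j * Real.log (η 0 j))) (Real.exp_pos _)
    (fun k => ?_) (fun k => ∑ j, η k j * Real.log (η k j)) 0 (fun k => ?_) 0
    fun q _ => ⟨_, by positivity, G q 1 le_rfl⟩
  · obtain ⟨i, hi, hm⟩ := (hc.1 k).exists_max
    refine ⟨i, ?_⟩
    rw [← Real.le_log_iff_exp_le hi]
    exact (hup k).trans (bd k _ hm)
  · simpa using bd k 1 (hc.1 k).le_one

lemma case_neg (hψ : Prob ψ) (hφ : Prob φ) (pψ : ∀ i, 0 < ψ i) (pφ : ∀ i, 0 < φ i) {s : ℕ} {m : ℝ}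
    {z : ℕ → Fin s → ℝ} (hm : 0 < m) (hc : Chain ψ φ (fun _ => s) z) (hz : ∀ k j, m ≤ z k j)
    (p : ℝ) (hp : p < 0) (h : ∑ i, φ i ^ p ≤ ∑ i, ψ i ^ p) :
    univ.val.map ψ = univ.val.map φ := by
  have hs : 0 < 1 * (p * (p - 1)) := by nlinarith
  have hN := rsum_pos hφ p
  refine core hφ hc m hm (fun k => ?_) (fun k => (∑ i, φ i ^ p) * ∑ j, z k j ^ p)
    ((∑ i, φ i ^ p) * ∑ _j : Fin s, m ^ p) (fun k => ?_) 0
    fun q _ => ⟨1 * (p * (p - 1)) / ((q + 2) * (q + 1)), by positivity, fun k => ?_⟩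
  · obtain ⟨i, -⟩ := (hc.1 k).exists_pos
    exact ⟨i, hz k i⟩
  · exact mul_le_mul_of_nonneg_left (sum_le_sum fun j _ =>
      Real.rpow_le_rpow_of_nonpos hm (hz k j) hp.le) hN.le
  · have := gappos (hc.2 k) (fun a => mul_pos (pψ _) (hm.trans_le (hz _ _)))
      (fun a => mul_pos (pφ _) (hm.trans_le (hz _ _))) rfl (fun t => 1 * t ^ p) _ _
      (continuousOn_const.mul (continuousOn_id.rpow_const fun t ht => Or.inl (ne_of_gt ht)))
      (dr1 1 p) (dr2 1 p) q _ (dr3 1 p _ q (hp.le.trans (Nat.cast_nonneg q)) hs.le le_rfl)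
    simp only [one_mul, sum_tens_rpow hφ (hc.1 _), sum_tens_rpow hψ (hc.1 _)] at this ⊢
    have h2 := mul_le_mul_of_nonneg_right h (rsum_pos (hc.1 k) p).le
    linarith

lemma case_log (hφ : Prob φ) (pψ : ∀ i, 0 < ψ i) (pφ : ∀ i, 0 < φ i) {s : ℕ} {m : ℝ}
    {z : ℕ → Fin s → ℝ} (hm : 0 < m) (hc : Chain ψ φ (fun _ => s) z) (hz : ∀ k j, m ≤ z k j)
    (h : ∑ i, Real.log (ψ i) ≤ ∑ i, Real.log (φ i)) :
    univ.val.map ψ = univ.val.map φ := by
  refine core hφ hc m hm (fun k => ?_) (fun k => -((d : ℝ) * ∑ j, Real.log (z k j)))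
    (-((d : ℝ) * ∑ _j : Fin s, Real.log m)) (fun k => ?_) 0
    fun q _ => ⟨1 / ((q + 2) * (q + 1)), by positivity, fun k => ?_⟩
  · obtain ⟨i, -⟩ := (hc.1 k).exists_pos
    exact ⟨i, hz k i⟩
  · exact neg_le_neg (mul_le_mul_of_nonneg_left (sum_le_sum fun j _ =>
      Real.log_le_log hm (hz k j)) (Nat.cast_nonneg d))
  · have := gappos (hc.2 k) (fun a => mul_pos (pψ _) (hm.trans_le (hz _ _)))
      (fun a => mul_pos (pφ _) (hm.trans_le (hz _ _))) rfl (fun t => -Real.log t)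
      (fun t => -t⁻¹) (fun t => (t ^ 2)⁻¹)
      (Real.continuousOn_log.mono fun t ht => ne_of_gt ht).neg
      (fun t ht => (Real.hasDerivAt_log ht.1.ne').neg)
      (fun t ht => by simpa using (hasDerivAt_inv ht.1.ne').fun_neg) q 1 fun t ht => by
        have h1 : t ^ q ≤ 1 := pow_le_one₀ ht.1.le ht.2.le
        have h2 : 1 ≤ (t ^ 2)⁻¹ := (one_le_inv₀ (pow_pos ht.1 2)).2 (pow_le_one₀ ht.1.le ht.2.le)
        linarith
    simp only [sum_neg_distrib, sum_tens_log pφ fun j => hm.trans_le (hz _ j),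
      sum_tens_log pψ fun j => hm.trans_le (hz _ j), Fintype.card_fin] at this
    have h2 := mul_le_mul_of_nonneg_left h (Nat.cast_nonneg (α := ℝ) s)
    linarith

end Pool.Agent.H14.Cat
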