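import Mathlib
import Pool.Agent.H14.Cat2

set_option autoImplicit false
open Finset

namespace Pool.Agent.H14.Cat

/-- Flexible catalysis by a nonempty, possibly infinite, set `S` of catalysts. -/
def Flex {d : ℕ} (ψ φ : Fin d → ℝ) : Prop :=
  ∃ S : Set (Σ n : ℕ, Fin n → ℝ), S.Nonempty ∧ (∀ η ∈ S, Prob η.2) ∧
    ∀ η ∈ S, ∃ η' ∈ S, Maj (tens ψ η.2) (tens φ η'.2)

/-- The strict inequalities of the Klimesh-Turgut characterisation of catalysis. -/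
def KT {d : ℕ} (ψ φ : Fin d → ℝ) : Prop :=
  (∀ i, 0 < ψ i) ∧
  (∀ p : ℝ, 1 < p → ∑ i, ψ i ^ p < ∑ i, φ i ^ p) ∧
  (∑ i, ψ i * Real.log (ψ i) < ∑ i, φ i * Real.log (φ i)) ∧
  (∀ p : ℝ, 0 < p → p < 1 → ∑ i, φ i ^ p < ∑ i, ψ i ^ p) ∧
  ((∀ i, 0 < φ i) → ∑ i, Real.log (φ i) < ∑ i, Real.log (ψ i) ∧
    ∀ p : ℝ, p < 0 → ∑ i, ψ i ^ p < ∑ i, φ i ^ p)

theorem flex_kt (d : ℕ) (ψ φ : Fin d → ℝ) (hψ : Prob ψ) (hφ : Prob φ)
    (hz : (∀ i, 0 < ψ i) ∨ ∀ i, 0 < φ i) (h : Flex ψ φ) :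
    univ.val.map ψ = univ.val.map φ ∨ KT ψ φ := by
  obtain ⟨S, ⟨η0, h0⟩, hP, hS⟩ := h
  choose! nx hn hM using hS
  have hin : ∀ k, nx^[k] η0 ∈ S := by
    intro k
    induction k with
    | zero => exact h0
    | succ k ih => rw [Function.iterate_succ_apply']; exact hn _ ih
  have hc : Chain ψ φ (fun k => (nx^[k] η0).1) fun k => (nx^[k] η0).2 := by
    refine ⟨fun k => hP _ (hin k), fun k => ?_⟩
    have := hM _ (hin k)
    rwa [← Function.iterate_succ_apply' nx k η0] at this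
  by_cases he : univ.val.map ψ = univ.val.map φ
  · exact Or.inl he
  have pψ : ∀ i, 0 < ψ i := by
    rcases hz with hz | hz
    · exact hz
    · intro i
      refine lt_of_le_of_ne (hψ.1 i) fun h0 => ?_
      have h1 := rk_lt i h0.symm
      have h2 := rk_ge hφ hc
      rw [rk_full hz] at h2
      omega
  refine Or.inr ⟨pψ, fun p hp => lt_of_not_ge fun h => he (case_gt hψ hφ hc p hp h),
    lt_of_not_ge fun h => he (case_ent hψ hφ hc h),
    fun p h0 hp => lt_of_not_ge fun h => he (case_mid hψ hφ hc p h0 hp h), fun pφ => ?_⟩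
  obtain ⟨s, m, z, hm, hc', hz'⟩ := good hφ (by rw [rk_full pψ, rk_full pφ]) _ _ _ hc le_rfl
  exact ⟨lt_of_not_ge fun h => he (case_log hφ pψ pφ hm hc' hz' h),
    fun p hp => lt_of_not_ge fun h => he (case_neg hψ hφ pψ pφ hm hc' hz' p hp h)⟩

end Pool.Agent.H14.Cat
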