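import Mathlib
import Pool.Agent.H14.Cat1

set_option autoImplicit false
open Finset Polynomial Filter Topology

namespace Pool.Agent.H14.Cat

lemma expsum {ι : Type} (s : Finset ι) (a l : ι → ℝ) (i0 : ι) (h0 : i0 ∈ s) (ha : 0 < a i0)
    (h : ∀ i ∈ s, l i0 ≤ l i → 0 ≤ a i) :
    ∀ᶠ p : ℝ in atTop, 0 < ∑ i ∈ s, a i * Real.exp (p * l i) := by
  classical
  have t : Tendsto (fun p : ℝ => a i0 + ∑ i ∈ s.filter (fun i => l i < l i0),
      a i * Real.exp (p * (l i - l i0))) atTop (𝓝 (a i0 + ∑ i ∈ s.filter (fun i => l i < l i0), 0)) := by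
    refine tendsto_const_nhds.add (tendsto_finsetSum _ fun i hi => ?_)
    have : Tendsto (fun p : ℝ => p * (l i - l i0)) atTop atBot :=
      tendsto_id.atTop_mul_const_of_neg (by linarith [(mem_filter.1 hi).2])
    simpa using (Real.tendsto_exp_atBot.comp this).const_mul (a i)
  rw [sum_const_zero, add_zero] at t
  filter_upwards [t.eventually (lt_mem_nhds ha)] with p hp
  have e : ∑ i ∈ s, a i * Real.exp (p * l i) =
      Real.exp (p * l i0) * ∑ i ∈ s, a i * Real.exp (p * (l i - l i0)) := by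
    rw [mul_sum]
    refine sum_congr rfl fun i _ => ?_
    rw [mul_left_comm, ← Real.exp_add]; congr 2; ring
  rw [e]
  refine mul_pos (Real.exp_pos _) (lt_of_lt_of_le hp ?_)
  rw [← sum_filter_add_sum_filter_not s (fun i => l i < l i0), add_comm]
  gcongr
  have := single_le_sum (f := fun i => a i * Real.exp (p * (l i - l i0)))
    (s := s.filter fun i => ¬ l i < l i0)
    (fun i hi => mul_nonneg (h i (mem_filter.1 hi).1 (not_lt.1 (mem_filter.1 hi).2))
      (Real.exp_pos _).le) (mem_filter.2 ⟨h0, lt_irrefl _⟩)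
  simpa using this

def NN (P : ℝ[X]) : Prop := ∀ k, 0 ≤ P.coeff k

lemma NN.mul {P Q : ℝ[X]} (h : NN P) (h' : NN Q) : NN (P * Q) := fun k => by
  rw [coeff_mul]; exact sum_nonneg fun _ _ => mul_nonneg (h _) (h' _)

lemma quad (b c : ℝ) (h : b ^ 2 < 4 * c) : ∃ N : ℕ, NN ((1 + X) ^ N * (X ^ 2 - C b * X + C c)) := by
  have hc : 0 < c := by nlinarith
  have hs : 0 < 1 + b + c := by nlinarith [sq_nonneg (b + 2)]
  have hd : 0 < (4 * c - b ^ 2) / 4 := by linarith
  obtain ⟨N, hN⟩ := exists_nat_ge (max (b / c) ((1 + b + c) * (1 + c) / ((4 * c - b ^ 2) / 4)))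
  have n1 : b ≤ N * c := (div_le_iff₀ hc).1 (le_trans (le_max_left _ _) hN)
  have n2 : (1 + b + c) * (1 + c) ≤ N * ((4 * c - b ^ 2) / 4) :=
    (div_le_iff₀ hd).1 (le_trans (le_max_right _ _) hN)
  refine ⟨N, fun k => ?_⟩
  have e : ((1 + X) ^ N * (X ^ 2 - C b * X + C c) : ℝ[X]) =
      (1 + X) ^ N * X * X - C b * ((1 + X) ^ N * X) + C c * (1 + X) ^ N := by ring
  rw [e, coeff_add, coeff_sub, coeff_C_mul, coeff_C_mul]
  match k with
  | 0 => simp [coeff_one_add_X_pow, hc.le]
  | 1 =>
    rw [coeff_mul_X, coeff_mul_X, mul_coeff_zero, coeff_X_zero, coeff_one_add_X_pow,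
      coeff_one_add_X_pow]
    simp; linarith
  | k + 2 =>
    rw [coeff_mul_X, coeff_mul_X, coeff_mul_X, coeff_one_add_X_pow, coeff_one_add_X_pow,
      coeff_one_add_X_pow]
    by_cases hk : N ≤ k
    · rw [Nat.choose_eq_zero_of_lt (by omega : N < k + 1), Nat.choose_eq_zero_of_lt (by omega : N < k + 2)]
      simp
    push Not at hk
    have e1 : (N.choose (k + 1) : ℝ) * (k + 1) = N.choose k * (N - k) := by
      have := Nat.choose_succ_right_eq N k
      rw [← Nat.cast_sub hk.le]; exact_mod_cast this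
    have e2 : (N.choose (k + 2) : ℝ) * (k + 2) = N.choose (k + 1) * (N - (k + 1)) := by
      have := Nat.choose_succ_right_eq N (k + 1)
      have h' : ((N - (k + 1) : ℕ) : ℝ) = N - (k + 1) := by rw [Nat.cast_sub hk]; push_cast; ring
      rw [← h']; exact_mod_cast this
    have hA : (0 : ℝ) ≤ N.choose k := Nat.cast_nonneg _
    have hk0 : (0 : ℝ) ≤ k := Nat.cast_nonneg _
    have hV : (0 : ℝ) < N - k := by
      have : (k : ℝ) < N := by exact_mod_cast hk
      linarith
    have key : 0 ≤ ((k : ℝ) + 1) * (k + 2) - b * (N - k) * (k + 2) + c * (N - k) * (N - (k + 1)) := by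
      set U : ℝ := k + 2 with hU
      set V : ℝ := N - k with hV'
      have hUV : (N : ℝ) = U + V - 2 := by rw [hU, hV']; ring
      have hU0 : 0 < U := by rw [hU]; linarith
      have e3 : ((k : ℝ) + 1) * U - b * V * U + c * V * (N - (k + 1)) =
          U ^ 2 - b * U * V + c * V ^ 2 - U - c * V := by rw [hU, hV']; ring
      rw [e3]
      refine nonneg_of_mul_nonneg_right ?_ hs
      have i1 : (1 + b + c) * (U ^ 2 - b * U * V + c * V ^ 2) = (4 * c - b ^ 2) / 4 * (U + V) ^ 2 +
          ((1 + b / 2) * U - (c + b / 2) * V) ^ 2 := by ring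
      have i2 : (1 + b + c) * (1 + c) * (U + V) ≤ (4 * c - b ^ 2) / 4 * (U + V) ^ 2 := by
        have : (1 + b + c) * (1 + c) ≤ (U + V) * ((4 * c - b ^ 2) / 4) := by
          rw [hUV] at n2; nlinarith
        nlinarith [mul_le_mul_of_nonneg_right this (by linarith : 0 ≤ U + V)]
      have i3 : (1 + b + c) * (U + c * V) ≤ (1 + b + c) * (1 + c) * (U + V) := by
        rw [mul_assoc]
        refine mul_le_mul_of_nonneg_left ?_ hs.le
        nlinarith [mul_pos hc hU0]
      nlinarith [sq_nonneg ((1 + b / 2) * U - (c + b / 2) * V)]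
    refine nonneg_of_mul_nonneg_right (a := ((k : ℝ) + 1) * (k + 2)) ?_ (by positivity)
    have e4 : ((k : ℝ) + 1) * (k + 2) * (N.choose k - b * N.choose (k + 1) + c * N.choose (k + 2)) =
        N.choose k * (((k : ℝ) + 1) * (k + 2) - b * (N - k) * (k + 2) + c * (N - k) * (N - (k + 1))) := by
      linear_combination (-b * (k + 2) + c * (N - (k + 1))) * e1 + c * (k + 1) * e2
    rw [e4]
    exact mul_nonneg hA key

lemma polya : ∀ (n : ℕ) (P : ℝ[X]), P.natDegree = n → (∀ s, 0 < s → 0 < P.eval s) →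
    ∃ N : ℕ, NN ((1 + X) ^ N * P) := by
  intro n
  induction n using Nat.strong_induction_on with
  | _ n ih =>
    intro P hn hP
    have hP0 : P ≠ 0 := fun h => by simpa [h] using hP 1 one_pos
    by_cases h0 : P.degree = 0
    · refine ⟨0, fun k => ?_⟩
      have := hP 1 one_pos
      rw [eq_C_of_degree_eq_zero h0] at this ⊢
      rw [eval_C] at this
      rw [pow_zero, one_mul, coeff_C]
      split_ifs
      · exact this.le
      · exact le_rfl
    obtain ⟨z, hz⟩ := IsAlgClosed.exists_aeval_eq_zero ℂ P h0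
    by_cases hi : z.im = 0
    · have e : z = (z.re : ℂ) := Complex.ext rfl (by simpa using hi)
      have hr : P.IsRoot z.re := by
        rw [e, ← Complex.coe_algebraMap, aeval_algebraMap_apply_eq_algebraMap_eval] at hz
        simpa using hz
      have hr0 : z.re ≤ 0 := by
        by_contra hc
        exact (hP _ (not_le.1 hc)).ne' hr
      obtain ⟨Q, hQ⟩ := dvd_iff_isRoot.2 hr
      have hQ0 : Q ≠ 0 := fun h => hP0 (by rw [hQ, h, mul_zero])
      obtain ⟨N, hN⟩ := ih Q.natDegree (by
        rw [← hn, hQ, natDegree_mul (X_sub_C_ne_zero _) hQ0, natDegree_X_sub_C]; omega) Q rfl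
        fun s hs => by
          have := hP s hs
          rw [hQ, eval_mul, eval_sub, eval_X, eval_C] at this
          exact (mul_pos_iff_of_pos_left (by linarith)).1 this
      refine ⟨N, ?_⟩
      rw [hQ, mul_left_comm]
      refine NN.mul (fun k => ?_) hN
      rw [coeff_sub, coeff_X, coeff_C]
      split_ifs <;> linarith
    · obtain ⟨Q, hQ⟩ := quadratic_dvd_of_aeval_eq_zero_im_ne_zero P hz hi
      have hb : (2 * z.re) ^ 2 < 4 * ‖z‖ ^ 2 := by
        rw [Complex.sq_norm, Complex.normSq_apply]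
        nlinarith [mul_self_pos.2 hi]
      have hQ0 : Q ≠ 0 := fun h => hP0 (by rw [hQ, h, mul_zero])
      have hq0 : (X ^ 2 - C (2 * z.re) * X + C (‖z‖ ^ 2) : ℝ[X]).natDegree = 2 := by compute_degree!
      obtain ⟨N, hN⟩ := ih Q.natDegree (by
        rw [← hn, hQ, natDegree_mul (fun h => by rw [h] at hq0; simp at hq0) hQ0, hq0]; omega) Q rfl
        fun s hs => by
          have := hP s hs
          rw [hQ, eval_mul] at this
          refine (mul_pos_iff_of_pos_left ?_).1 this
          simp only [eval_add, eval_sub, eval_mul, eval_pow, eval_X, eval_C]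
          nlinarith [sq_nonneg (s - z.re)]
      obtain ⟨M, hM⟩ := quad _ _ hb
      refine ⟨M + N, ?_⟩
      rw [hQ, pow_add, mul_mul_mul_comm]
      exact hM.mul hN

lemma hinge {ι κ : Type} [Fintype ι] [Fintype κ] {x : ι → ℝ} {y : κ → ℝ} (hx : Prob x) (hy : Prob y)
    (h : ∀ t, 0 < t → ∑ i, max (x i - t) 0 ≤ ∑ j, max (y j - t) 0) : Maj x y := by
  classical
  intro f _ hf f0
  have key : ∀ T : Finset ℝ, (∀ v ∈ T, v ∈ Set.Icc (0 : ℝ) 1) → ∃ (a σ : ℝ) (g : ℝ → ℝ),
      a ∈ Set.Icc (0 : ℝ) 1 ∧ (∀ v ∈ T, v ≤ a) ∧ (a = 0 ∨ a ∈ T) ∧ ∑ i, g (x i) ≤ ∑ j, g (y j) ∧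
      (∀ v ∈ T, g v = f v) ∧ (∀ v, a ≤ v → g v = f a + σ * (v - a)) ∧
      (a = 0 ∨ ∀ v ∈ Set.Icc a 1, g v ≤ f v) := by
    intro T
    induction T using Finset.induction_on_max with
    | empty => exact fun _ => ⟨0, 0, fun _ => 0, by simp, by simp, by simp, by simp, by simp,
        by simp [f0], by simp⟩
    | insert b T hb ih =>
      intro hT
      obtain ⟨a, σ, g, ha, h1, h2, h3, h4, h5, h6⟩ := ih fun v hv => hT v (mem_insert_of_mem hv)
      have hb1 := hT b (mem_insert_self _ _)
      have hab : a ≤ b := by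
        rcases h2 with h2 | h2
        · rw [h2]; exact hb1.1
        · exact (hb a h2).le
      rcases hab.eq_or_lt with rfl | hab
      · refine ⟨a, σ, g, ha, ?_, Or.inr (mem_insert_self _ _), h3, ?_, h5, h6⟩
        · simpa using h1
        · intro v hv
          rcases mem_insert.1 hv with rfl | hv
          · rw [h5 v le_rfl]; simp
          · exact h4 v hv
      have hba : 0 < b - a := sub_pos.2 hab
      set τ := (f b - f a) / (b - a) with hτ
      have hτ' : τ * (b - a) = f b - f a := div_mul_cancel₀ _ hba.ne'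
      have g1 : ∀ v, a ≤ v → g v + (τ - σ) * max (v - a) 0 = f a + τ * (v - a) := by
        intro v hv
        rw [h5 v hv, max_eq_left (sub_nonneg.2 hv)]; ring
      refine ⟨b, τ, fun v => g v + (τ - σ) * max (v - a) 0, hb1, ?_, Or.inr (mem_insert_self _ _),
        ?_, ?_, ?_, Or.inr ?_⟩
      · intro v hv
        rcases mem_insert.1 hv with rfl | hv
        · exact le_rfl
        · exact (hb v hv).le
      · simp only [sum_add_distrib, ← mul_sum]
        refine add_le_add h3 ?_
        rcases ha.1.eq_or_lt with h0 | h0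
        · subst h0
          simp only [sub_zero, fun i => max_eq_left (hx.1 i), fun i => max_eq_left (hy.1 i), hx.2,
            hy.2, le_refl]
        · refine mul_le_mul_of_nonneg_left (h a h0) ?_
          have := (h6.resolve_left h0.ne') b ⟨hab.le, hb1.2⟩
          rw [h5 b hab.le] at this
          have : σ * (b - a) ≤ τ * (b - a) := by linarith
          linarith [le_of_mul_le_mul_right this hba]
      · intro v hv
        rcases mem_insert.1 hv with rfl | hv
        · show g v + _ = _
          rw [g1 v hab.le]; linarith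
        · show g v + _ = _
          rw [h4 v hv, max_eq_right (by linarith [h1 v hv])]; ring
      · intro v hv
        show g v + _ = _
        rw [g1 v (hab.le.trans hv)]; linarith
      · intro v hv
        show g v + _ ≤ _
        rw [g1 v (hab.le.trans hv.1)]
        rcases hv.1.eq_or_lt with rfl | hbv
        · linarith
        · have := hf.slope_mono_adjacent ha ⟨hb1.1.trans hv.1, hv.2⟩ hab hbv
          rw [← hτ, le_div_iff₀ (sub_pos.2 hbv)] at this
          linarith
  obtain ⟨a, σ, g, -, -, -, h3, h4, -, -⟩ := key (image x univ ∪ image y univ) fun v hv => by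
    rcases mem_union.1 hv with hv | hv
    · obtain ⟨i, -, rfl⟩ := mem_image.1 hv; exact ⟨hx.1 i, hx.le_one i⟩
    · obtain ⟨i, -, rfl⟩ := mem_image.1 hv; exact ⟨hy.1 i, hy.le_one i⟩
  rwa [sum_congr rfl fun i _ => h4 (x i) (by simp), sum_congr rfl fun i _ => h4 (y i) (by simp)] at h3

end Pool.Agent.H14.Cat
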