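import Mathlib
import Pool.Agent.H14.Cat4

set_option autoImplicit false
open Finset Filter Topology

namespace Pool.Agent.H14.Cat

lemma sum_pair (f : ℕ → ℝ) (K : ℕ) :
    ∑ i ∈ range (2 * K), f i = ∑ i ∈ range K, (f (2 * i) + f (2 * i + 1)) := by
  induction K with
  | zero => simp
  | succ K ih => rw [mul_add, mul_one, sum_range_succ, sum_range_succ, ih, sum_range_succ]; ring

/-- Discretisation of a continuous function with positive Laplace transforms. -/
lemma discretise (θ : ℝ → ℝ) (hθ : Continuous θ) (α₁ β₁ α₂ β₂ : ℝ) (a1 : 0 ≤ α₁) (l1 : α₁ < β₁)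
    (a2 : 0 ≤ α₂) (l2 : α₂ < β₂) (n1 : ∀ r, 0 ≤ r → r ≤ β₁ → 0 ≤ θ r)
    (p1 : ∀ r, α₁ ≤ r → r ≤ β₁ → 0 < θ r) (n2 : ∀ r, α₂ ≤ r → 0 ≤ θ r)
    (p2 : ∀ r, α₂ ≤ r → r ≤ β₂ → 0 < θ r)
    (H : ∀ p : ℝ, ∀ᶠ R : ℕ in atTop, 0 < ∫ r in (0 : ℝ)..R, θ r * Real.exp (-(p * r))) :
    ∃ (h : ℝ) (K : ℕ) (a : ℕ → ℝ), 0 < h ∧ (∀ i : ℕ, ∀ r, i * h ≤ r → r ≤ (i + 1) * h → a i ≤ θ r) ∧
      (∀ r, K * h ≤ r → 0 ≤ θ r) ∧ ∀ s : ℝ, 0 < s → 0 < ∑ i ∈ range K, a i * s ^ i := by
  set h : ℕ → ℝ := fun n => (1 / 2) ^ n with hh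
  have hp : ∀ n, 0 < h n := fun n => by positivity
  have h2 : ∀ n, h n = 2 * h (n + 1) := fun n => by simp only [hh, pow_succ]; ring
  have h3 : ∀ n, (2 : ℝ) ^ n * h n = 1 := fun n => by simp only [hh, ← mul_pow]; norm_num
  have hex : ∀ n i : ℕ, ∃ r ∈ Set.Icc (i * h n) ((i + 1) * h n), IsMinOn θ
      (Set.Icc (i * h n) ((i + 1) * h n)) r := fun n i =>
    isCompact_Icc.exists_isMinOn (Set.nonempty_Icc.2 (by nlinarith [hp n])) hθ.continuousOn
  choose ρ hρ hm using hex
  have hle : ∀ n i : ℕ, ∀ r, i * h n ≤ r → r ≤ (i + 1) * h n → θ (ρ n i) ≤ θ r :=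
    fun n i r h1 h2 => hm n i ⟨h1, h2⟩
  set D : ℕ → ℝ → ℝ := fun n p => ∑ i ∈ range (n * 2 ^ n), θ (ρ n i) * Real.exp (p * -(i * h n))
    with hD
  have drop : ∀ (n K K' : ℕ) (p : ℝ), K ≤ K' → α₂ ≤ K * h n →
      ∑ i ∈ range K, θ (ρ n i) * Real.exp (p * -(i * h n)) ≤
      ∑ i ∈ range K', θ (ρ n i) * Real.exp (p * -(i * h n)) := by
    intro n K K' p hK hα
    refine sum_le_sum_of_subset_of_nonneg (range_mono hK) fun i _ hi => ?_
    refine mul_nonneg (n2 _ (le_trans hα (le_trans ?_ (hρ n i).1))) (Real.exp_pos _).le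
    have : (K : ℝ) ≤ i := by exact_mod_cast not_lt.1 (fun h => hi (mem_range.2 h))
    exact mul_le_mul_of_nonneg_right this (hp n).le
  have step : ∀ n : ℕ, α₂ ≤ n → ∀ p, 0 < D n p → 0 < D (n + 1) p := by
    intro n hn p hDp
    have d1 := drop (n + 1) (2 * (n * 2 ^ n)) ((n + 1) * 2 ^ (n + 1)) p
      (by rw [pow_succ]; nlinarith [Nat.zero_le (2 ^ n)]) (by
        push_cast
        have := h3 n
        rw [h2 n] at this
        calc α₂ ≤ n * (2 ^ n * (2 * h (n + 1))) := by rw [this]; linarith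
          _ = _ := by ring)
    refine lt_of_lt_of_le ?_ d1
    rw [sum_pair]
    refine lt_of_lt_of_le (mul_pos hDp (by positivity : 0 < 1 + Real.exp (p * -h (n + 1)))) ?_
    simp only [hD, sum_mul]
    refine sum_le_sum fun i _ => ?_
    have b1 := hρ (n + 1) (2 * i)
    have b2 := hρ (n + 1) (2 * i + 1)
    have q := hp (n + 1)
    push_cast at b1 b2 ⊢
    have c1 := hle n i (ρ (n + 1) (2 * i)) (by rw [h2 n]; linarith [b1.1]) (by rw [h2 n]; linarith [b1.2])
    have c2 := hle n i (ρ (n + 1) (2 * i + 1)) (by rw [h2 n]; linarith [b2.1])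
      (by rw [h2 n]; linarith [b2.2])
    have e1 : Real.exp (p * -(2 * i * h (n + 1))) = Real.exp (p * -(i * h n)) := by
      rw [h2 n]; congr 1; ring
    have e2 : Real.exp (p * -((2 * i + 1) * h (n + 1))) =
        Real.exp (p * -(i * h n)) * Real.exp (p * -h (n + 1)) := by
      rw [h2 n, ← Real.exp_add]; congr 1; ring
    rw [e1, e2]
    have f1 := mul_le_mul_of_nonneg_right c1 (Real.exp_pos (p * -(i * h n))).le
    have f2 := mul_le_mul_of_nonneg_right c2
      (mul_pos (Real.exp_pos (p * -(i * h n))) (Real.exp_pos (p * -h (n + 1)))).le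
    linarith
  have mono : ∀ n m : ℕ, α₂ ≤ n → n ≤ m → ∀ p, 0 < D n p → 0 < D m p := by
    intro n m hn hnm p hDp
    induction m, hnm using Nat.le_induction with
    | base => exact hDp
    | succ m hm ih => exact step m (hn.trans (by exact_mod_cast hm)) p ih
  have small : ∀ δ : ℝ, 0 < δ → ∀ᶠ n in atTop, h n < δ := fun δ hδ =>
    (tendsto_pow_atTop_nhds_zero_of_lt_one (by norm_num) (by norm_num)).eventually (gt_mem_nhds hδ)
  have big : ∀ B : ℝ, ∀ᶠ n : ℕ in atTop, B ≤ n := fun B =>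
    tendsto_natCast_atTop_atTop.eventually (eventually_ge_atTop B)
  have ptw : ∀ p, ∀ᶠ n in atTop, 0 < D n p := by
    intro p
    obtain ⟨R, hR, hRα⟩ := ((H p).and (big α₂)).exists
    set M := ∫ r in (0 : ℝ)..R, θ r * Real.exp (-(p * r))
    set W := ∫ r in (0 : ℝ)..R, Real.exp (-(p * r))
    have hW : 0 ≤ W := intervalIntegral.integral_nonneg (Nat.cast_nonneg R)
      fun r _ => (Real.exp_pos _).le
    have hε : 0 < M / (W + 1) := by positivity
    obtain ⟨δ, hδ, hu⟩ := Metric.uniformContinuousOn_iff.1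
      (isCompact_Icc.uniformContinuousOn_of_continuous (hθ.continuousOn (s := Set.Icc 0 (R : ℝ))))
      _ hε
    filter_upwards [small δ hδ, eventually_ge_atTop R] with n hn hRn
    have hK : ((R * 2 ^ n : ℕ) : ℝ) * h n = R := by push_cast; rw [mul_assoc, h3, mul_one]
    refine lt_of_lt_of_le ?_ (drop n (R * 2 ^ n) (n * 2 ^ n) p (Nat.mul_le_mul_right _ hRn)
      (by rw [hK]; exact hRα))
    set w := ∫ r in (0 : ℝ)..h n, Real.exp (-(p * r))
    have hw : 0 < w := intervalIntegral.intervalIntegral_pos_of_pos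
      (Continuous.intervalIntegrable (by fun_prop) _ _) (fun r => Real.exp_pos _) (hp n)
    refine (mul_pos_iff_of_pos_right hw).1 ?_
    have cf : Continuous fun r => (θ r - M / (W + 1)) * Real.exp (-(p * r)) := by fun_prop
    have s1 := intervalIntegral.sum_integral_adjacent_intervals (μ := MeasureTheory.volume)
      (f := fun r => (θ r - M / (W + 1)) * Real.exp (-(p * r))) (a := fun k : ℕ => k * h n)
      (n := R * 2 ^ n) fun k _ => cf.intervalIntegrable _ _
    simp only [hK, Nat.cast_zero, zero_mul] at s1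
    have s2 : ∫ r in (0 : ℝ)..R, (θ r - M / (W + 1)) * Real.exp (-(p * r)) = M - M / (W + 1) * W := by
      simp only [sub_mul]
      rw [intervalIntegral.integral_sub (Continuous.intervalIntegrable (by fun_prop) _ _)
        (Continuous.intervalIntegrable (by fun_prop) _ _), intervalIntegral.integral_const_mul]
    have s3 : 0 < M - M / (W + 1) * W := by
      have : M - M / (W + 1) * W = M / (W + 1) := by field_simp; ring
      rw [this]; exact hε
    rw [s2] at s1
    rw [← s1] at s3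
    refine lt_of_lt_of_le s3 ?_
    rw [sum_mul]
    refine sum_le_sum fun i hi => ?_
    have hi' : ((i : ℝ) + 1) * h n ≤ R := by
      rw [← hK]
      have : (i : ℝ) + 1 ≤ ((R * 2 ^ n : ℕ) : ℝ) := by exact_mod_cast mem_range.1 hi
      exact mul_le_mul_of_nonneg_right this (hp n).le
    have i0 : 0 ≤ (i : ℝ) * h n := by have := hp n; positivity
    have e : θ (ρ n i) * Real.exp (p * -(i * h n)) * w =
        ∫ r in (i * h n)..((i + 1 : ℕ) * h n), θ (ρ n i) * Real.exp (-(p * r)) := by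
      have := intervalIntegral.integral_comp_add_right (a := 0) (b := h n)
        (fun r => θ (ρ n i) * Real.exp (-(p * r))) (i * h n)
      rw [zero_add, show h n + i * h n = ((i + 1 : ℕ) : ℝ) * h n by push_cast; ring] at this
      rw [← this, ← intervalIntegral.integral_const_mul]
      congr 1; funext r
      rw [mul_assoc, ← Real.exp_add]; congr 2; ring
    rw [e]
    refine intervalIntegral.integral_mono_on (by push_cast; nlinarith [hp n])
      (cf.intervalIntegrable _ _) (Continuous.intervalIntegrable (by fun_prop) _ _) fun r hr => ?_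
    refine mul_le_mul_of_nonneg_right ?_ (Real.exp_pos _).le
    push_cast at hr
    have b := hρ n i
    have := hu r ⟨i0.trans hr.1, hr.2.trans hi'⟩ (ρ n i) ⟨i0.trans b.1, b.2.trans hi'⟩ (by
      rw [Real.dist_eq, abs_lt]
      constructor <;> linarith [hr.1, hr.2, b.1, b.2])
    rw [Real.dist_eq, abs_lt] at this
    linarith [this.2]
  have cell : ∀ (n : ℕ) (α β : ℝ), 0 ≤ α → 2 * h n < β - α → β ≤ n →
      ∃ i : ℕ, i < n * 2 ^ n ∧ α ≤ i * h n ∧ (i + 1) * h n ≤ β := by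
    intro n α β hα hl hβ
    have c1 : α ≤ ⌈α / h n⌉₊ * h n := (div_le_iff₀ (hp n)).1 (Nat.le_ceil _)
    have c2 : (⌈α / h n⌉₊ : ℝ) * h n < α + h n := by
      have := mul_lt_mul_of_pos_right (Nat.ceil_lt_add_one (div_nonneg hα (hp n).le)) (hp n)
      rwa [add_mul, div_mul_cancel₀ _ (hp n).ne', one_mul] at this
    refine ⟨⌈α / h n⌉₊, ?_, c1, by linarith⟩
    have : (⌈α / h n⌉₊ : ℝ) * h n < ((n * 2 ^ n : ℕ) : ℝ) * h n := by
      push_cast; rw [mul_assoc, h3, mul_one]; linarith [hp n]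
    exact_mod_cast lt_of_mul_lt_mul_right this (hp n).le
  obtain ⟨n0, ⟨⟨⟨s1, s2⟩, s3⟩, s4⟩⟩ := ((((small ((β₁ - α₁) / 2) (by linarith)).and
    (small ((β₂ - α₂) / 2) (by linarith))).and (big β₁)).and (big β₂)).exists
  have s5 : α₂ ≤ n0 := by linarith
  obtain ⟨i1, j1, k1, m1⟩ := cell n0 α₁ β₁ a1 (by linarith) s3
  obtain ⟨i2, j2, k2, m2⟩ := cell n0 α₂ β₂ a2 (by linarith) s4
  have top : ∀ᶠ p in atTop, 0 < D n0 p := by
    refine expsum _ _ (fun i : ℕ => -(i * h n0)) i1 (mem_range.2 j1)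
      (p1 _ (k1.trans (hρ n0 i1).1) ((hρ n0 i1).2.trans m1)) fun i _ hi => ?_
    have i0 : 0 ≤ (i : ℝ) * h n0 := by have := hp n0; positivity
    exact n1 _ (i0.trans (hρ n0 i).1) ((hρ n0 i).2.trans (by linarith))
  have bot : ∀ᶠ p in atTop, 0 < D n0 (-p) := by
    have := expsum _ (fun i => θ (ρ n0 i)) (fun i : ℕ => i * h n0) i2 (mem_range.2 j2)
      (p2 _ (k2.trans (hρ n0 i2).1) ((hρ n0 i2).2.trans m2)) fun i _ hi =>
        n2 _ (k2.trans (hi.trans (hρ n0 i).1))
    simpa [hD] using this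
  obtain ⟨P, hP⟩ := eventually_atTop.1 (top.and bot)
  obtain ⟨j, hj⟩ := (isCompact_Icc (a := -P) (b := P)).elim_directed_cover
    (fun j : ℕ => {p | 0 < D (n0 + j) p})
    (fun j => isOpen_lt continuous_const (by simp only [hD]; fun_prop))
    (fun p _ => by
      obtain ⟨n, h1, h2⟩ := ((ptw p).and (eventually_ge_atTop n0)).exists
      exact Set.mem_iUnion.2 ⟨n - n0, by rwa [Set.mem_setOf, Nat.add_sub_cancel' h2]⟩)
    (Monotone.directed_le fun a b hab p hp' => mono _ _ (s5.trans (by push_cast; linarith [Nat.cast_nonneg (α := ℝ) a]))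
      (by omega) p hp')
  have all : ∀ p, 0 < D (n0 + j) p := by
    intro p
    by_cases c1 : P ≤ p
    · exact mono _ _ s5 (by omega) p (hP p c1).1
    by_cases c2 : P ≤ -p
    · exact mono _ _ s5 (by omega) p (by simpa using (hP _ c2).2)
    exact hj ⟨by linarith, by linarith⟩
  refine ⟨h (n0 + j), (n0 + j) * 2 ^ (n0 + j), fun i => θ (ρ (n0 + j) i), hp _, hle _, fun r hr => ?_,
    fun s hs => ?_⟩
  · refine n2 r (le_trans ?_ hr)
    push_cast
    rw [mul_assoc, h3, mul_one]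
    linarith [Nat.cast_nonneg (α := ℝ) j]
  · have := all (-Real.log s / h (n0 + j))
    simp only [hD] at this
    refine lt_of_lt_of_eq this (sum_congr rfl fun i _ => ?_)
    have e : -Real.log s / h (n0 + j) * -(i * h (n0 + j)) = i * Real.log s := by
      have := (hp (n0 + j)).ne'
      field_simp
    rw [e, Real.exp_nat_mul, Real.exp_log hs]

end Pool.Agent.H14.Cat
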