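import Mathlib
import Pool.Agent.H14.Cat3
import Pool.Agent.H14.Cat5

set_option autoImplicit false
open Finset Filter Topology

namespace Pool.Agent.H14.Cat

variable {d : ℕ} {ψ φ : Fin d → ℝ}

noncomputable def xi (ψ φ : Fin d → ℝ) (t : ℝ) : ℝ :=
  ∑ i, max (φ i - t) 0 - ∑ i, max (ψ i - t) 0

lemma xi_zero (hψ : Prob ψ) (hφ : Prob φ) (t : ℝ) (ht : 1 ≤ t) : xi ψ φ t = 0 := by
  simp only [xi, fun i => max_eq_right (sub_nonpos.2 ((hψ.le_one i).trans ht)),
    fun i => max_eq_right (sub_nonpos.2 ((hφ.le_one i).trans ht)), sub_self]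

lemma signed (hψ : Prob ψ) (hφ : Prob φ) : ∃ (A : Finset ℝ) (m : ℝ → ℝ),
    (∀ v ∈ A, 0 < v ∧ m v ≠ 0) ∧
    ∀ F : ℝ → ℝ, F 0 = 0 → ∑ i, F (φ i) - ∑ i, F (ψ i) = ∑ v ∈ A, m v * F v := by
  classical
  set S := image ψ univ ∪ image φ univ with hS
  have key : ∀ (x : Fin d → ℝ), (∀ i, x i ∈ S) → ∀ F : ℝ → ℝ,
      ∑ i, F (x i) = ∑ v ∈ S, ((univ.filter fun i => x i = v).card : ℝ) * F v := by
    intro x hx F
    rw [← sum_fiberwise_of_maps_to (s := univ) (t := S) (g := x) fun i _ => hx i]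
    refine sum_congr rfl fun v _ => ?_
    rw [sum_congr rfl fun i hi => by rw [(mem_filter.1 hi).2], sum_const, nsmul_eq_mul]
  set m : ℝ → ℝ := fun v => ((univ.filter fun i => φ i = v).card : ℝ) -
    ((univ.filter fun i => ψ i = v).card : ℝ) with hm
  refine ⟨S.filter fun v => 0 < v ∧ m v ≠ 0, m, fun v hv => (mem_filter.1 hv).2, fun F hF => ?_⟩
  rw [key φ (fun i => by simp [hS]) F, key ψ (fun i => by simp [hS]) F, ← sum_sub_distrib]
  simp only [← sub_mul]
  symm
  refine sum_filter_of_ne fun v hv hne => ⟨?_, left_ne_zero_of_mul hne⟩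
  have h0 : 0 ≤ v := by
    rcases mem_union.1 hv with hv | hv
    · obtain ⟨i, -, rfl⟩ := mem_image.1 hv; exact hψ.1 i
    · obtain ⟨i, -, rfl⟩ := mem_image.1 hv; exact hφ.1 i
  refine lt_of_le_of_ne h0 fun h => ?_
  rw [← h, hF, mul_zero] at hne
  exact hne rfl

lemma ends (hψ : Prob ψ) (hφ : Prob φ) (hk : KT ψ φ) :
    (∃ s₁ s₂ : ℝ, 0 < s₁ ∧ s₁ < s₂ ∧ (∀ t, s₁ ≤ t → 0 ≤ xi ψ φ t) ∧
      ∀ t, s₁ ≤ t → t ≤ s₂ → 0 < xi ψ φ t) ∧
    (∃ s₁ s₂ : ℝ, 0 < s₁ ∧ s₁ < s₂ ∧ (∀ t, 0 < t → t ≤ s₂ → 0 ≤ xi ψ φ t) ∧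
      ∀ t, s₁ ≤ t → t ≤ s₂ → 0 < xi ψ φ t) := by
  classical
  obtain ⟨A, m, hA, hF⟩ := signed hψ hφ
  have hpow : ∀ p : ℝ, p ≠ 0 → ∑ i, φ i ^ p - ∑ i, ψ i ^ p =
      ∑ v ∈ A, m v * Real.exp (p * Real.log v) := fun p hp => by
    rw [hF (fun t => t ^ p) (Real.zero_rpow hp)]
    exact sum_congr rfl fun v hv => by rw [Real.rpow_def_of_pos (hA v hv).1, mul_comm p]
  have hne : A.Nonempty := by
    by_contra h
    have h1 := hpow 2 two_ne_zero
    rw [not_nonempty_iff_eq_empty.1 h, sum_empty] at h1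
    linarith [hk.2.1 2 (by norm_num)]
  have hx : ∀ t, 0 < t → xi ψ φ t = ∑ v ∈ A, m v * max (v - t) 0 := fun t ht =>
    hF (fun v => max (v - t) 0) (by simp [ht.le])
  constructor
  · obtain ⟨u, hu, hmax⟩ := exists_max_image A id hne
    have u0 := (hA u hu).1
    have mu : 0 < m u := by
      by_contra hc
      have hc' : 0 < -m u := by
        have := lt_of_le_of_ne (not_lt.1 hc) (hA u hu).2
        linarith
      obtain ⟨p, h1, h2⟩ := ((expsum A (fun v => -m v) Real.log u hu hc' fun v hv hl => by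
        have : v = u := le_antisymm (hmax v hv) ((Real.log_le_log_iff u0 (hA v hv).1).1 hl)
        rw [this]; exact hc'.le).and (eventually_gt_atTop 1)).exists
      have := hpow p (by linarith)
      simp only [neg_mul, sum_neg_distrib] at h1
      linarith [hk.2.1 p h2]
    have ev : ∀ᶠ t in 𝓝[<] u, (0 < t ∧ t < u) ∧ ∀ v ∈ A, v < u → v ≤ t := by
      refine (((eventually_gt_nhds u0).filter_mono nhdsWithin_le_nhds).and
        self_mem_nhdsWithin).and ((eventually_all_finset A).2 fun v _ => ?_)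
      by_cases h : v < u
      · exact ((eventually_ge_nhds h).filter_mono nhdsWithin_le_nhds).mono fun t ht _ => ht
      · exact Eventually.of_forall fun t h' => absurd h' h
    obtain ⟨t1, ⟨t0, t1u⟩, hg⟩ := ev.exists
    have e : ∀ t, t1 ≤ t → xi ψ φ t = m u * max (u - t) 0 := fun t ht => by
      rw [hx t (t0.trans_le ht)]
      refine sum_eq_single_of_mem u hu fun v hv hvu => ?_
      rw [max_eq_right (by linarith [hg v hv (lt_of_le_of_ne (hmax v hv) hvu)]), mul_zero]
    refine ⟨t1, (t1 + u) / 2, t0, by linarith, fun t ht => ?_, fun t ht ht' => ?_⟩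
    · rw [e t ht]; exact mul_nonneg mu.le (le_max_right _ _)
    · rw [e t ht]; exact mul_pos mu (lt_max_of_lt_left (by linarith))
  · obtain ⟨u, hu, hmin⟩ := exists_min_image A id hne
    have u0 := (hA u hu).1
    set z : ℝ := ∑ i, if φ i = 0 then 1 else 0 with hz
    have hz0 : 0 ≤ z := sum_nonneg fun i _ => by split_ifs <;> norm_num
    have m1 : ∑ v ∈ A, m v * v = 0 := by
      have := hF id rfl
      simp only [id, hφ.2, hψ.2, sub_self] at this
      exact this.symm
    have m0 : ∑ v ∈ A, m v = -z := by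
      have := hF (fun v => 1 - if v = 0 then 1 else 0) (by simp)
      rw [sum_congr rfl (g := fun v => m v) fun v hv => by simp [(hA v hv).1.ne']] at this
      simp only [sum_sub_distrib, fun i => (hk.1 i).ne', if_false, sum_const_zero] at this
      linarith
    have hy : ∀ t, 0 < t → xi ψ φ t = z * t + ∑ v ∈ A, m v * max (t - v) 0 := fun t ht => by
      have e : ∀ v : ℝ, m v * max (v - t) 0 = m v * v - m v * t + m v * max (t - v) 0 := fun v => by
        rcases le_total v t with h | h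
        · rw [max_eq_right (sub_nonpos.2 h), max_eq_left (sub_nonneg.2 h)]; ring
        · rw [max_eq_left (sub_nonneg.2 h), max_eq_right (sub_nonpos.2 h)]; ring
      rw [hx t ht]
      simp only [e, sum_add_distrib, sum_sub_distrib, ← sum_mul, m1, m0]
      ring
    by_cases pφ : ∀ i, 0 < φ i
    · have mu : 0 < m u := by
        by_contra hc
        have hc' : 0 < -m u := by
          have := lt_of_le_of_ne (not_lt.1 hc) (hA u hu).2
          linarith
        obtain ⟨p, h1, h2⟩ := ((expsum A (fun v => -m v) (fun v => -Real.log v) u hu hc'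
          fun v hv hl => by
            have : v = u := le_antisymm ((Real.log_le_log_iff (hA v hv).1 u0).1 (by linarith))
              (hmin v hv)
            rw [this]; exact hc'.le).and (eventually_gt_atTop 0)).exists
        have := hpow (-p) (by linarith)
        simp only [neg_mul, mul_neg, sum_neg_distrib] at h1 this
        linarith [(hk.2.2.2.2 pφ).2 (-p) (by linarith)]
      have ev : ∀ᶠ t in 𝓝[>] u, u < t ∧ ∀ v ∈ A, u < v → t ≤ v := by
        refine Eventually.and self_mem_nhdsWithin ((eventually_all_finset A).2 fun v _ => ?_)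
        by_cases h : u < v
        · exact ((eventually_le_nhds h).filter_mono nhdsWithin_le_nhds).mono fun t ht _ => ht
        · exact Eventually.of_forall fun t h' => absurd h' h
      obtain ⟨t1, t1u, hg⟩ := ev.exists
      have e : ∀ t, 0 < t → t ≤ t1 → xi ψ φ t = z * t + m u * max (t - u) 0 := fun t h0 ht => by
        rw [hy t h0]
        congr 1
        refine sum_eq_single_of_mem u hu fun v hv hvu => ?_
        rw [max_eq_right (by linarith [hg v hv (lt_of_le_of_ne (hmin v hv) hvu.symm)]), mul_zero]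
      refine ⟨(u + t1) / 2, t1, by linarith, by linarith, fun t ht ht' => ?_, fun t ht ht' => ?_⟩
      · rw [e t ht ht']
        exact add_nonneg (mul_nonneg hz0 ht.le) (mul_nonneg mu.le (le_max_right _ _))
      · rw [e t (by linarith) ht']
        exact add_pos_of_nonneg_of_pos (mul_nonneg hz0 (by linarith))
          (mul_pos mu (lt_max_of_lt_left (by linarith)))
    · push Not at pφ
      obtain ⟨i, hi⟩ := pφ
      have zp : 0 < z := sum_pos' (fun i _ => by split_ifs <;> norm_num)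
        ⟨i, mem_univ _, by simp [le_antisymm hi (hφ.1 i)]⟩
      have e : ∀ t, 0 < t → t ≤ u → 0 < xi ψ φ t := fun t h0 ht => by
        rw [hy t h0, sum_eq_zero fun v hv => by
          rw [max_eq_right (sub_nonpos.2 (ht.trans (show u ≤ v from hmin v hv))), mul_zero], add_zero]
        exact mul_pos zp h0
      exact ⟨u / 2, u, by linarith, by linarith, fun t h0 ht => (e t h0 ht).le,
        fun t h0 ht => e t (by linarith) ht⟩

lemma mel1 (p : ℝ) (F F' : ℝ → ℝ) (h1 : ∀ t, 0 < t → HasDerivAt F (F' t) t)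
    (h2 : ∀ t, 0 < t → HasDerivAt F' (t ^ (p - 2)) t) (R v : ℝ) (hv : Real.exp (-R) ≤ v) (hv1 : v ≤ 1) :
    ∫ r in (0 : ℝ)..R, Real.exp r * max (v - Real.exp (-r)) 0 * Real.exp (-(p * r)) =
      F v - F (Real.exp (-R)) - (v - Real.exp (-R)) * F' (Real.exp (-R)) := by
  have v0 : 0 < v := (Real.exp_pos _).trans_le hv
  have l0 : 0 ≤ -Real.log v := by linarith [Real.log_nonpos v0.le hv1]
  have lR : -Real.log v ≤ R := by linarith [(Real.le_log_iff_exp_le v0).2 hv]
  have cf : Continuous fun r => Real.exp r * max (v - Real.exp (-r)) 0 * Real.exp (-(p * r)) := by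
    fun_prop
  rw [← intervalIntegral.integral_add_adjacent_intervals (b := -Real.log v)
    (cf.intervalIntegrable _ _) (cf.intervalIntegrable _ _)]
  have e1 : ∫ r in (0 : ℝ)..(-Real.log v),
      Real.exp r * max (v - Real.exp (-r)) 0 * Real.exp (-(p * r)) = 0 := by
    rw [intervalIntegral.integral_congr (g := fun _ => 0) fun r hr => ?_]
    · simp
    · rw [Set.uIcc_of_le l0] at hr
      have : v ≤ Real.exp (-r) := (Real.log_le_iff_le_exp v0).1 (by linarith [hr.2])
      simp [max_eq_right (sub_nonpos.2 this)]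
  have e2 := intervalIntegral.integral_eq_sub_of_hasDerivAt (a := -Real.log v) (b := R)
    (f := fun r => -((v - Real.exp (-r)) * F' (Real.exp (-r)) + F (Real.exp (-r))))
    (f' := fun r => Real.exp r * max (v - Real.exp (-r)) 0 * Real.exp (-(p * r))) (fun r hr => by
      rw [Set.uIcc_of_le lR] at hr
      have hle : Real.exp (-r) ≤ v := (Real.le_log_iff_exp_le v0).1 (by linarith [hr.1])
      have d0 : HasDerivAt (fun r => Real.exp (-r)) (-Real.exp (-r)) r := by
        simpa using (hasDerivAt_neg r).exp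
      have d1 := (h1 _ (Real.exp_pos (-r))).comp r d0
      have d2 := (h2 _ (Real.exp_pos (-r))).comp r d0
      have d3 := (((d0.const_sub v).mul d2).add d1).neg
      convert d3 using 1
      · rfl
      rw [max_eq_left (sub_nonneg.2 hle), ← Real.exp_mul]
      have e : Real.exp r * Real.exp (-(p * r)) = Real.exp (-r * (p - 2)) * Real.exp (-r) := by
        rw [← Real.exp_add, ← Real.exp_add]; congr 1; ring
      simp only [Function.comp_apply]
      linear_combination (v - Real.exp (-r)) * e) (cf.intervalIntegrable _ _)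
  rw [e1, e2]
  simp only [neg_neg, Real.exp_log v0]
  ring

lemma mel2 (hψ : Prob ψ) (hφ : Prob φ) (pψ : ∀ i, 0 < ψ i) (p : ℝ) (F F' : ℝ → ℝ)
    (h1 : ∀ t, 0 < t → HasDerivAt F (F' t) t) (h2 : ∀ t, 0 < t → HasDerivAt F' (t ^ (p - 2)) t)
    (hev : ∀ᶠ R : ℕ in atTop, (∑ i, if φ i = 0 then (1 : ℝ) else 0) *
      (F 0 - F (Real.exp (-R)) + Real.exp (-R) * F' (Real.exp (-R))) < ∑ i, F (φ i) - ∑ i, F (ψ i)) :
    ∀ᶠ R : ℕ in atTop, 0 < ∫ r in (0 : ℝ)..R,
      Real.exp r * xi ψ φ (Real.exp (-r)) * Real.exp (-(p * r)) := by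
  have t0 : Tendsto (fun R : ℕ => Real.exp (-R)) atTop (𝓝 0) :=
    Real.tendsto_exp_neg_atTop_nhds_zero.comp tendsto_natCast_atTop_atTop
  have s1 : ∀ᶠ R : ℕ in atTop, ∀ i, Real.exp (-R) ≤ ψ i :=
    eventually_all.2 fun i => t0.eventually (eventually_le_nhds (pψ i))
  have s2 : ∀ᶠ R : ℕ in atTop, ∀ i, φ i ≠ 0 → Real.exp (-R) ≤ φ i :=
    eventually_all.2 fun i => by
      by_cases h : φ i = 0
      · exact Eventually.of_forall fun _ h' => absurd h h'
      · exact (t0.eventually (eventually_le_nhds (lt_of_le_of_ne (hφ.1 i) (Ne.symm h)))).mono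
          fun _ h' _ => h'
  filter_upwards [hev, s1, s2] with R hR r1 r2
  have e : ∀ r, Real.exp r * xi ψ φ (Real.exp (-r)) * Real.exp (-(p * r)) =
      ∑ i, Real.exp r * max (φ i - Real.exp (-r)) 0 * Real.exp (-(p * r)) -
      ∑ i, Real.exp r * max (ψ i - Real.exp (-r)) 0 * Real.exp (-(p * r)) := fun r => by
    simp only [xi, ← sum_mul, ← mul_sum]; ring
  simp only [e]
  rw [intervalIntegral.integral_sub (Continuous.intervalIntegrable (by fun_prop) _ _)
    (Continuous.intervalIntegrable (by fun_prop) _ _),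
    intervalIntegral.integral_finset_sum fun i _ => Continuous.intervalIntegrable (by fun_prop) _ _,
    intervalIntegral.integral_finset_sum fun i _ => Continuous.intervalIntegrable (by fun_prop) _ _]
  set a := Real.exp (-(R : ℝ)) with ha
  have f1 : ∀ i, ∫ r in (0 : ℝ)..R, Real.exp r * max (φ i - Real.exp (-r)) 0 * Real.exp (-(p * r)) =
      F (φ i) - F a - (φ i - a) * F' a - (if φ i = 0 then 1 else 0) * (F 0 - F a + a * F' a) := by
    intro i
    by_cases h : φ i = 0
    · simp only [h, zero_sub, fun r => max_eq_right (neg_nonpos.2 (Real.exp_pos (-r)).le), if_true]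
      simp
    · rw [mel1 p F F' h1 h2 R _ (r2 i h) (hφ.le_one i)]
      simp [h, ha]
  simp only [f1, fun i => mel1 p F F' h1 h2 R _ (r1 i) (hψ.le_one i), sum_sub_distrib, ← sum_mul,
    hφ.2, hψ.2, ← ha]
  linarith

lemma mel3 (hψ : Prob ψ) (hφ : Prob φ) (hk : KT ψ φ) (p : ℝ) :
    ∀ᶠ R : ℕ in atTop, 0 < ∫ r in (0 : ℝ)..R,
      Real.exp r * xi ψ φ (Real.exp (-r)) * Real.exp (-(p * r)) := by
  set z : ℝ := ∑ i, if φ i = 0 then 1 else 0 with hz
  have A : ∀ (J : ℕ → ℝ) (Δ : ℝ), 0 < Δ → Tendsto J atTop (𝓝 0) → ∀ᶠ R in atTop, z * J R < Δ :=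
    fun J Δ h1 h2 => (by simpa using h2.const_mul z : Tendsto (fun R => z * J R) atTop (𝓝 0)).eventually
      (gt_mem_nhds h1)
  have B : ∀ (J : ℕ → ℝ) (Δ : ℝ), ((∀ i, 0 < φ i) → 0 < Δ) → Tendsto J atTop atBot →
      ∀ᶠ R in atTop, z * J R < Δ := by
    intro J Δ h1 h2
    by_cases pφ : ∀ i, 0 < φ i
    · have : z = 0 := sum_eq_zero fun i _ => by simp [(pφ i).ne']
      simp [this, h1 pφ]
    · push Not at pφ
      obtain ⟨i, hi⟩ := pφ
      have zp : 0 < z := sum_pos' (fun i _ => by split_ifs <;> norm_num)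
        ⟨i, mem_univ _, by simp [le_antisymm hi (hφ.1 i)]⟩
      exact (h2.const_mul_atBot zp).eventually (eventually_lt_atBot Δ)
  have t0 : Tendsto (fun R : ℕ => Real.exp (-R)) atTop (𝓝 0) :=
    Real.tendsto_exp_neg_atTop_nhds_zero.comp tendsto_natCast_atTop_atTop
  by_cases p1 : p = 1
  · subst p1
    refine mel2 hψ hφ hk.1 1 (fun t => t * Real.log t) (fun t => Real.log t + 1)
      (fun t ht => Real.hasDerivAt_mul_log ht.ne') (fun t ht => ?_) ?_
    · rw [show (1 : ℝ) - 2 = -1 by norm_num, Real.rpow_neg_one]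
      exact (Real.hasDerivAt_log ht.ne').add_const 1
    · refine A _ _ (sub_pos.2 hk.2.2.1) (t0.congr fun R => by ring)
  by_cases p0 : p = 0
  · subst p0
    refine mel2 hψ hφ hk.1 0 (fun t => -Real.log t) (fun t => -t⁻¹)
      (fun t ht => (Real.hasDerivAt_log ht.ne').neg) (fun t ht => ?_) ?_
    · rw [zero_sub, Real.rpow_neg ht.le, Real.rpow_two]
      simpa using (hasDerivAt_inv ht.ne').fun_neg
    · refine B _ _ (fun pφ => ?_) ?_
      · simp only [sum_neg_distrib]; linarith [(hk.2.2.2.2 pφ).1]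
      · have : Tendsto (fun R : ℕ => -(R : ℝ) + -1) atTop atBot :=
          tendsto_atBot_add_const_right _ _ (tendsto_neg_atTop_atBot.comp tendsto_natCast_atTop_atTop)
        refine this.congr fun R => ?_
        simp [mul_inv_cancel₀ (Real.exp_pos (-(R : ℝ))).ne']
  have q1 : p - 1 ≠ 0 := sub_ne_zero.2 p1
  have eJ : ∀ R : ℕ, (0 : ℝ) ^ p / (p * (p - 1)) - Real.exp (-R) ^ p / (p * (p - 1)) +
      Real.exp (-R) * (Real.exp (-R) ^ (p - 1) / (p - 1)) = Real.exp (-R * p) / p := fun R => by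
    rw [Real.zero_rpow p0, Real.rpow_sub_one (Real.exp_pos _).ne', ← Real.exp_mul]
    have := (Real.exp_pos (-(R : ℝ))).ne'
    field_simp
    ring
  have eD : ∑ i, φ i ^ p / (p * (p - 1)) - ∑ i, ψ i ^ p / (p * (p - 1)) =
      (∑ i, φ i ^ p - ∑ i, ψ i ^ p) / (p * (p - 1)) := by simp only [← sum_div, sub_div]
  refine mel2 hψ hφ hk.1 p (fun t => t ^ p / (p * (p - 1))) (fun t => t ^ (p - 1) / (p - 1))
    (fun t ht => ?_) (fun t ht => ?_) ?_
  · refine ((Real.hasDerivAt_rpow_const (p := p) (Or.inl ht.ne')).div_const (p * (p - 1))).congr_deriv ?_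
    field_simp
  · refine ((Real.hasDerivAt_rpow_const (p := p - 1) (Or.inl ht.ne')).div_const (p - 1)).congr_deriv ?_
    rw [show p - 1 - 1 = p - 2 by ring]
    field_simp
  · simp only [eJ, eD]
    rcases lt_or_gt_of_ne p0 with hp | hp
    · refine B _ _ (fun pφ => div_pos (sub_pos.2 ((hk.2.2.2.2 pφ).2 p hp)) (by nlinarith)) ?_
      have : Tendsto (fun R : ℕ => -(R : ℝ) * p) atTop atTop :=
        (tendsto_neg_atTop_atBot.comp tendsto_natCast_atTop_atTop).atBot_mul_const_of_neg hp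
      exact (Real.tendsto_exp_atTop.comp this).atTop_div_const_of_neg hp
    · refine A _ _ ?_ ?_
      · rcases lt_or_gt_of_ne p1 with h | h
        · exact div_pos_of_neg_of_neg (sub_neg.2 (hk.2.2.2.1 p hp h)) (by nlinarith)
        · exact div_pos (sub_pos.2 (hk.2.1 p h)) (by nlinarith)
      · have : Tendsto (fun R : ℕ => -(R : ℝ) * p) atTop atBot :=
          (tendsto_neg_atTop_atBot.comp tendsto_natCast_atTop_atTop).atBot_mul_const hp
        simpa using (Real.tendsto_exp_atBot.comp this).div_const p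

end Pool.Agent.H14.Cat
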