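import Mathlib
import Pool.Agent.H14.Cat6

set_option autoImplicit false
open Finset Filter Topology Polynomial

namespace Pool.Agent.H14.Cat

/-- Standard catalysis by a single catalyst. -/
def Cata {d : ℕ} (ψ φ : Fin d → ℝ) : Prop :=
  ∃ (n : ℕ) (η : Fin n → ℝ), Prob η ∧ Maj (tens ψ η) (tens φ η)

variable {d : ℕ} {ψ φ : Fin d → ℝ}

lemma cata_of {ι : Type} [Fintype ι] (c : ι → ℝ) (hc : Prob c) (h : Maj (tens ψ c) (tens φ c)) :
    Cata ψ φ := by
  set e := (Fintype.equivFin ι).symm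
  refine ⟨_, fun j => c (e j), ⟨fun j => hc.1 _, by rw [Equiv.sum_comp e c, hc.2]⟩, fun f h1 h2 h3 => ?_⟩
  have := h f h1 h2 h3
  simp only [tens, Fintype.sum_prod_type] at this ⊢
  rwa [sum_congr rfl fun i _ => Equiv.sum_comp e fun j => f (ψ i * c j),
    sum_congr rfl fun i _ => Equiv.sum_comp e fun j => f (φ i * c j)]

theorem kt_cata (hψ : Prob ψ) (hφ : Prob φ) (hk : KT ψ φ) : Cata ψ φ := by
  classical
  set θ : ℝ → ℝ := fun r => Real.exp r * xi ψ φ (Real.exp (-r)) with hθ
  have θ0 : ∀ r, r ≤ 0 → θ r = 0 := fun r hr => by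
    simp only [hθ, xi_zero hψ hφ _ (Real.one_le_exp (neg_nonneg.2 hr)), mul_zero]
  obtain ⟨⟨s1, s2, a1, a2, a3, a4⟩, ⟨u1, u2, b1, b2, b3, b4⟩⟩ := ends hψ hφ hk
  have lt1 : ∀ s, 0 < xi ψ φ s → s ≤ 1 := fun s hs => by
    by_contra hc
    exact hs.ne' (xi_zero hψ hφ s (not_le.1 hc).le)
  have up : ∀ s r : ℝ, 0 < s → -Real.log s ≤ r → Real.exp (-r) ≤ s := fun s r hs h =>
    (Real.le_log_iff_exp_le hs).1 (by linarith)
  have lo : ∀ s r : ℝ, 0 < s → r ≤ -Real.log s → s ≤ Real.exp (-r) := fun s r hs h =>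
    (Real.log_le_iff_le_exp hs).1 (by linarith)
  obtain ⟨h, K, a, hh, ha, hK, hpos⟩ := discretise θ (by simp only [hθ, xi]; fun_prop)
    (-Real.log s2) (-Real.log s1) (-Real.log u2) (-Real.log u1)
    (by linarith [Real.log_nonpos (a1.trans a2).le (lt1 _ (a4 s2 a2.le le_rfl))])
    (by linarith [Real.log_lt_log a1 a2])
    (by linarith [Real.log_nonpos (b1.trans b2).le (lt1 _ (b4 u2 b2.le le_rfl))])
    (by linarith [Real.log_lt_log b1 b2])
    (fun r _ h => mul_nonneg (Real.exp_pos _).le (a3 _ (lo _ _ a1 h)))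
    (fun r h h' => mul_pos (Real.exp_pos _) (a4 _ (lo _ _ a1 h') (up _ _ (a1.trans a2) h)))
    (fun r h => mul_nonneg (Real.exp_pos _).le (b3 _ (Real.exp_pos _) (up _ _ (b1.trans b2) h)))
    (fun r h h' => mul_pos (Real.exp_pos _) (b4 _ (lo _ _ b1 h') (up _ _ (b1.trans b2) h)))
    (mel3 hψ hφ hk)
  set P : ℝ[X] := ∑ i ∈ range K, monomial i (a i) with hP
  have hco : ∀ i, P.coeff i = if i < K then a i else 0 := fun i => by
    simp [hP, coeff_monomial]
  obtain ⟨N, hN⟩ := polya _ P rfl fun s hs => by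
    simpa [hP, eval_finset_sum] using hpos s hs
  have hcell : ∀ (i : ℕ) (r : ℝ), i * h ≤ r → r ≤ (i + 1) * h → P.coeff i ≤ θ r := by
    intro i r h1 h2
    rw [hco]
    split_ifs with hi
    · exact ha i r h1 h2
    · refine hK r (le_trans ?_ h1)
      have : (K : ℝ) ≤ i := by exact_mod_cast not_lt.1 hi
      exact mul_le_mul_of_nonneg_right this hh.le
  have main : ∀ r : ℝ, 0 ≤ ∑ j ∈ range (N + 1), (N.choose j : ℝ) * θ (r - j * h) := by
    intro r
    by_cases hr : r < 0
    · refine sum_nonneg fun j _ => ?_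
      have : 0 ≤ (j : ℝ) * h := by positivity
      rw [θ0 _ (by linarith), mul_zero]
    push Not at hr
    set m := ⌊r / h⌋₊ with hm
    have m1 : (m : ℝ) * h ≤ r := (le_div_iff₀ hh).1 (Nat.floor_le (div_nonneg hr hh.le))
    have m2 : r < (m + 1) * h := (div_lt_iff₀ hh).1 (Nat.lt_floor_add_one _)
    have e1 : ∑ j ∈ range (N + 1), (N.choose j : ℝ) * θ (r - j * h) =
        ∑ j ∈ range (N + m + 1), (N.choose j : ℝ) * θ (r - j * h) :=
      sum_subset (range_mono (by omega)) fun j _ hj => by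
        rw [Nat.choose_eq_zero_of_lt (by simpa using hj)]; simp
    have e2 : ∑ j ∈ range (m + 1), (N.choose j : ℝ) * θ (r - j * h) =
        ∑ j ∈ range (N + m + 1), (N.choose j : ℝ) * θ (r - j * h) :=
      sum_subset (range_mono (by omega)) fun j _ hj => by
        have : (m : ℝ) + 1 ≤ j := by exact_mod_cast not_lt.1 fun h => hj (mem_range.2 h)
        have := mul_le_mul_of_nonneg_right this hh.le
        rw [θ0 _ (by linarith), mul_zero]
    rw [e1, ← e2]
    have := hN m
    rw [coeff_mul, Nat.sum_antidiagonal_eq_sum_range_succ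
      (fun i j => ((1 + X) ^ N : ℝ[X]).coeff i * P.coeff j)] at this
    refine this.trans (sum_le_sum fun j hj => ?_)
    rw [coeff_one_add_X_pow]
    have hj' : j ≤ m := Nat.lt_succ_iff.1 (mem_range.1 hj)
    refine mul_le_mul_of_nonneg_left (hcell _ _ ?_ ?_) (Nat.cast_nonneg _) <;>
      rw [Nat.cast_sub hj'] <;> linarith
  set Z := ∑ S : Finset (Fin N), Real.exp (-(S.card * h)) with hZ
  have Z0 : 0 < Z := sum_pos (fun _ _ => Real.exp_pos _) ⟨∅, mem_univ _⟩
  set c : Finset (Fin N) → ℝ := fun S => Real.exp (-(S.card * h)) / Z with hc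
  have cP : Prob c := ⟨fun S => by positivity, by rw [← sum_div, div_self Z0.ne']⟩
  refine cata_of c cP (hinge (hψ.tens cP) (hφ.tens cP) fun t ht => ?_)
  set r := -Real.log (t * Z) with hr
  have e : ∀ S : Finset (Fin N), ∑ i, max (φ i * c S - t) 0 - ∑ i, max (ψ i * c S - t) 0 =
      t * θ (r - S.card * h) := by
    intro S
    have c0 : 0 < c S := by positivity
    have e1 : Real.exp (-(r - S.card * h)) = t / c S := by
      rw [neg_sub, sub_eq_add_neg, Real.exp_add, hr, neg_neg, Real.exp_log (by positivity), hc]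
      simp only [Real.exp_neg]
      field_simp
    have e2 : Real.exp (r - S.card * h) = c S / t := by
      rw [← inv_div, ← e1, Real.exp_neg, inv_inv]
    have e3 : ∀ v : ℝ, max (v * c S - t) 0 = c S * max (v - t / c S) 0 := fun v => by
      rw [mul_max_of_nonneg _ _ c0.le, mul_zero]
      congr 1
      field_simp
    simp only [hθ, e1, e2, e3, xi, ← mul_sum]
    field_simp
  have e' : ∑ j, max (tens φ c j - t) 0 - ∑ i, max (tens ψ c i - t) 0 =
      t * ∑ j ∈ range (N + 1), (N.choose j : ℝ) * θ (r - j * h) := by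
    simp only [tens, Fintype.sum_prod_type_right, ← sum_sub_distrib, e, ← mul_sum]
    congr 1
    have := sum_powerset_apply_card (fun j : ℕ => θ (r - j * h)) (x := (univ : Finset (Fin N)))
    rw [powerset_univ, card_univ, Fintype.card_fin] at this
    simpa [nsmul_eq_mul] using this
  have := mul_nonneg ht.le (main r)
  linarith

theorem flex_cata_pos (hψ : Prob ψ) (hφ : Prob φ) (hz : (∀ i, 0 < ψ i) ∨ ∀ i, 0 < φ i)
    (h : Flex ψ φ) : Cata ψ φ := by
  rcases flex_kt d ψ φ hψ hφ hz h with he | hk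
  · refine ⟨1, fun _ => 1, ⟨by simp, by simp⟩, fun f _ _ _ => le_of_eq ?_⟩
    simp only [tens, Fintype.sum_prod_type, mul_one, sum_const, card_univ, Fintype.card_fin,
      one_smul]
    have := congrArg (fun s => (Multiset.map f s).sum) he
    simpa [Multiset.map_map, Finset.sum, Function.comp_def] using this
  · exact kt_cata hψ hφ hk

end Pool.Agent.H14.Cat
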