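import Mathlib

set_option autoImplicit false

namespace Pool.Agent.H14.Clt

open MeasureTheory ProbabilityTheory Real
open scoped NNReal

lemma sq_int (m : ℝ) (v : ℝ≥0) : Integrable (fun x : ℝ => x ^ 2) (gaussianReal m v) :=
  (memLp_id_gaussianReal' 2 (by simp)).integrable_sq

lemma id_int (m : ℝ) (v : ℝ≥0) : Integrable (fun x : ℝ => x) (gaussianReal m v) :=
  memLp_one_iff_integrable.1 (memLp_id_gaussianReal' 1 (by simp))

lemma quad_int (m : ℝ) (v : ℝ≥0) (a b c : ℝ) :
    Integrable (fun x : ℝ => a + b * x + c * x ^ 2) (gaussianReal m v) :=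
  ((integrable_const a).add ((id_int m v).const_mul b)).add ((sq_int m v).const_mul c)

lemma quad (m : ℝ) (v : ℝ≥0) (a b c : ℝ) :
    ∫ x, a + b * x + c * x ^ 2 ∂gaussianReal m v = a + b * m + c * (v + m ^ 2) := by
  have h := variance_eq_sub (memLp_id_gaussianReal' (μ := m) (v := v) 2 (by simp))
  rw [integral_add (f := fun x => a + b * x)
    ((integrable_const a).add ((id_int m v).const_mul b)) ((sq_int m v).const_mul c),
    integral_add (integrable_const a) ((id_int m v).const_mul b), integral_const_mul,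
    integral_const_mul]
  simp only [variance_id_gaussianReal, Pi.pow_apply, id_eq, integral_id_gaussianReal] at h
  simp [h]

lemma ex_int (m : ℝ) (v : ℝ≥0) :
    Integrable (fun x : ℝ => exp (x - m) + exp (m - x)) (gaussianReal m v) := by
  have h := ((integrable_exp_mul_gaussianReal (μ := m) (v := v) 1).const_mul (exp (-m))).add
    ((integrable_exp_mul_gaussianReal (μ := m) (v := v) (-1)).const_mul (exp m))
  refine h.congr (ae_of_all _ fun x => ?_)
  simp only [Pi.add_apply, ← exp_add]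
  ring_nf

lemma ex (m : ℝ) (v : ℝ≥0) (hv : v ≤ 1) :
    ∫ x, exp (x - m) + exp (m - x) ∂gaussianReal m v ≤ 6 := by
  have h1 := congrFun (mgf_fun_id_gaussianReal (μ := m) (v := v)) 1
  have h2 := congrFun (mgf_fun_id_gaussianReal (μ := m) (v := v)) (-1)
  have h3 : (fun x => exp (x - m) + exp (m - x)) =
      fun x => exp (-m) * exp (1 * x) + exp m * exp (-1 * x) := by
    funext x
    simp only [← exp_add]
    ring_nf
  simp only [mgf] at h1 h2
  rw [h3, integral_add ((integrable_exp_mul_gaussianReal 1).const_mul _)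
    ((integrable_exp_mul_gaussianReal (-1)).const_mul _), integral_const_mul, integral_const_mul,
    h1, h2, ← exp_add, ← exp_add]
  have h4 : (v : ℝ) ≤ 1 := hv
  have h5 := exp_one_lt_three
  have h6 : exp (-m + (m * 1 + v * 1 ^ 2 / 2)) ≤ exp 1 := exp_le_exp.2 (by linarith [v.2])
  have h7 : exp (m + (m * -1 + v * (-1) ^ 2 / 2)) ≤ exp 1 := exp_le_exp.2 (by linarith [v.2])
  linarith

lemma pow_le (y : ℝ) (k : ℕ) : y ^ (2 * k) ≤ (2 * k).factorial * (exp y + exp (-y)) := by
  have h := pow_div_factorial_le_exp |y| (abs_nonneg y) (2 * k)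
  rw [div_le_iff₀ (by positivity), pow_mul, sq_abs, ← pow_mul, mul_comm (exp _)] at h
  refine h.trans (mul_le_mul_of_nonneg_left ?_ (by positivity))
  rcases abs_cases y with h | h <;> rw [h.1] <;> linarith [exp_pos y, exp_pos (-y)]

lemma g_int {m : ℝ} {v : ℝ≥0} (hv : v ≠ 0) {F : ℝ → ℝ} (h : Integrable F (gaussianReal m v)) :
    Integrable fun x => gaussianPDFReal m v x * F x := by
  rw [gaussianReal_of_var_ne_zero _ hv, integrable_withDensity_iff_integrable_smul'
    (measurable_gaussianPDF _ _) (ae_of_all _ fun _ => gaussianPDF_lt_top)] at h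
  simpa using h

variable {ι : Type} [Fintype ι]

noncomputable def mix (p T : ι → ℝ) (v : ℝ≥0) (x : ℝ) : ℝ := ∑ i, p i * gaussianPDFReal (T i) v x

lemma comb_int (p T : ι → ℝ) {v : ℝ≥0} (hv : v ≠ 0) {F : ι → ℝ → ℝ}
    (h : ∀ i, Integrable (F i) (gaussianReal (T i) v)) :
    Integrable fun x => ∑ i, p i * (gaussianPDFReal (T i) v x * F i x) :=
  integrable_finsetSum _ fun i _ => (g_int hv (h i)).const_mul _

lemma comb (p T : ι → ℝ) {v : ℝ≥0} (hv : v ≠ 0) {F : ι → ℝ → ℝ}
    (h : ∀ i, Integrable (F i) (gaussianReal (T i) v)) :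
    ∫ x, ∑ i, p i * (gaussianPDFReal (T i) v x * F i x) =
      ∑ i, p i * ∫ x, F i x ∂gaussianReal (T i) v := by
  rw [integral_finsetSum _ fun i _ => (g_int hv (h i)).const_mul _]
  simp only [integral_const_mul, integral_gaussianReal_eq_integral_smul hv, smul_eq_mul]

lemma mix_pos {p : ι → ℝ} (T : ι → ℝ) {v : ℝ≥0} (hv : v ≠ 0) (hp : ∀ i, 0 ≤ p i)
    (h1 : ∑ i, p i = 1) (x : ℝ) : 0 < mix p T v x := by
  obtain ⟨i, -, hi⟩ := Finset.exists_lt_of_sum_lt (s := Finset.univ) (f := fun _ => (0 : ℝ))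
    (g := p) (by simp [h1])
  exact Finset.sum_pos' (fun i _ => mul_nonneg (hp i) (gaussianPDFReal_nonneg _ _ _))
    ⟨i, Finset.mem_univ _, mul_pos hi (gaussianPDFReal_pos _ _ _ hv)⟩

lemma mix_smooth (p T : ι → ℝ) (v : ℝ≥0) : ContDiff ℝ 1 (mix p T v) := by
  unfold mix gaussianPDFReal
  fun_prop

lemma mix_law {p : ι → ℝ} (T : ι → ℝ) {v : ℝ≥0} (hv : v ≠ 0) (hp : ∀ i, 0 ≤ p i) :
    volume.withDensity (fun x => ENNReal.ofReal (mix p T v x)) =
      ∑ i, ENNReal.ofReal (p i) • gaussianReal (T i) v := by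
  ext s hs
  simp only [withDensity_apply _ hs, Measure.coe_finsetSum, Finset.sum_apply, Measure.smul_apply,
    gaussianReal_apply _ hv, smul_eq_mul, ← lintegral_const_mul _ (measurable_gaussianPDF _ _)]
  rw [← lintegral_finsetSum _ fun i _ => (measurable_gaussianPDF _ _).const_mul _]
  refine lintegral_congr fun x => ?_
  rw [mix, ENNReal.ofReal_sum_of_nonneg fun i _ => mul_nonneg (hp i) (gaussianPDFReal_nonneg _ _ _)]
  exact Finset.sum_congr rfl fun i _ => ENNReal.ofReal_mul (hp i)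

lemma law_int {p : ι → ℝ} (T : ι → ℝ) {v : ℝ≥0} (hv : v ≠ 0) (hp : ∀ i, 0 ≤ p i) {E : Type}
    [NormedAddCommGroup E] [NormedSpace ℝ E] {F : ℝ → E}
    (h : ∀ i, Integrable F (gaussianReal (T i) v)) :
    Integrable F (volume.withDensity fun x => ENNReal.ofReal (mix p T v x)) ∧
    ∫ x, F x ∂(volume.withDensity fun x => ENNReal.ofReal (mix p T v x)) =
      ∑ i, p i • ∫ x, F x ∂gaussianReal (T i) v := by
  have h' : ∀ i ∈ Finset.univ, Integrable F (ENNReal.ofReal (p i) • gaussianReal (T i) v) :=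
    fun i _ => (h i).smul_measure ENNReal.ofReal_ne_top
  rw [mix_law T hv hp, integral_finsetSum_measure h']
  simp only [integral_smul_measure, ENNReal.toReal_ofReal (hp _), and_true]
  exact integrable_finsetSum_measure.2 h'

lemma law_prob {p : ι → ℝ} (T : ι → ℝ) {v : ℝ≥0} (hv : v ≠ 0) (hp : ∀ i, 0 ≤ p i)
    (h1 : ∑ i, p i = 1) :
    IsProbabilityMeasure (volume.withDensity fun x => ENNReal.ofReal (mix p T v x)) := ⟨by
  simp [mix_law T hv hp, ← ENNReal.ofReal_sum_of_nonneg fun i _ => hp i, h1]⟩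

lemma law_char {p : ι → ℝ} (T : ι → ℝ) {v : ℝ≥0} (hv : v ≠ 0) (hp : ∀ i, 0 ≤ p i) (t : ℝ) :
    charFun (volume.withDensity fun x => ENNReal.ofReal (mix p T v x)) t =
      (∑ i, p i * Complex.exp (t * T i * Complex.I)) * Complex.exp (-(v * t ^ 2 / 2)) := by
  rw [charFun_apply_real, (law_int T hv hp fun i => (integrable_const (1 : ℝ)).mono'
    (by fun_prop) (ae_of_all _ fun x => by
      rw [← Complex.ofReal_mul, Complex.norm_exp_ofReal_mul_I])).2, Finset.sum_mul]
  refine Finset.sum_congr rfl fun i _ => ?_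
  rw [← charFun_apply_real, charFun_gaussianReal, sub_eq_add_neg, Complex.exp_add]
  simp [mul_assoc]

lemma law_sum {p : ι → ℝ} (T : ι → ℝ) {v : ℝ≥0} (hv : v ≠ 0) (hp : ∀ i, 0 ≤ p i)
    (h1 : ∑ i, p i = 1) (n : ℕ) (hn : n ≠ 0) :
    (Measure.pi fun _ : Fin n => volume.withDensity fun x => ENNReal.ofReal (mix p T v x)).map
      (fun x => (∑ i, x i) / √n) = volume.withDensity fun x => ENNReal.ofReal
        (mix (fun b : Fin n → ι => ∏ i, p (b i)) (fun b => (∑ i, T (b i)) / √n) v x) := by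
  classical
  have hp' : ∀ b : Fin n → ι, 0 ≤ ∏ i, p (b i) := fun b => Finset.prod_nonneg fun i _ => hp _
  have := law_prob T hv hp h1
  have := law_prob (fun b : Fin n → ι => (∑ i, T (b i)) / √n) hv hp' (by
    rw [← Fintype.piFinset_univ, ← Finset.prod_univ_sum]; simp [h1])
  refine Measure.ext_of_charFun (funext fun t => ?_)
  simp only [div_eq_inv_mul]
  rw [charFun_map_mul_comp (by fun_prop), charFun_map_sum_pi_eq_prod, Finset.prod_apply,
    law_char _ hv hp']
  simp only [law_char T hv hp]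
  rw [Finset.prod_mul_distrib, Finset.prod_univ_sum, Fintype.piFinset_univ, Finset.prod_const,
    ← Complex.exp_nat_mul]
  congr 1
  · refine Finset.sum_congr rfl fun b _ => ?_
    rw [Finset.prod_mul_distrib, ← Complex.exp_sum]
    push_cast
    simp only [Finset.mul_sum, Finset.sum_mul]
    congr 2
    exact Finset.sum_congr rfl fun i _ => by ring
  · congr 1
    have h2 : ((√n : ℝ) : ℂ) ^ 2 = n := by
      rw [← Complex.ofReal_pow, sq_sqrt (by positivity)]
      simp
    have h3 : (n : ℂ) ≠ 0 := by exact_mod_cast hn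
    push_cast
    rw [mul_pow, inv_pow, h2]
    simp
    field_simp

lemma second {p T : ι → ℝ} (h1 : ∑ i, p i = 1) (h2 : ∑ i, p i * T i = 0) (n : ℕ) (c : ℝ) :
    ∑ b : Fin n → ι, (∏ i, p (b i)) * (c + ∑ i, T (b i)) ^ 2 =
      c ^ 2 + n * ∑ i, p i * T i ^ 2 := by
  induction n generalizing c with
  | zero => simp
  | succ n ih =>
    rw [← (Fin.consEquiv fun _ => ι).sum_comp, Fintype.sum_prod_type]
    simp only [Fin.consEquiv_apply, Fin.prod_univ_succ, Fin.sum_univ_succ, Fin.cons_zero,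
      Fin.cons_succ, mul_assoc, ← Finset.mul_sum, ← add_assoc, ih]
    have : ∀ i, p i * ((c + T i) ^ 2 + n * ∑ i, p i * T i ^ 2) =
        (c ^ 2 + n * ∑ i, p i * T i ^ 2) * p i + 2 * c * (p i * T i) + p i * T i ^ 2 :=
      fun i => by ring
    simp only [this, Finset.sum_add_distrib, ← Finset.mul_sum, h1, h2]
    push_cast
    ring

lemma log_ratio (m : ℝ) {v : ℝ≥0} (hv : v ≠ 0) (x : ℝ) :
    log (gaussianPDFReal m v x / gaussianPDFReal 0 1 x) =
      (-log v / 2 - m ^ 2 / (2 * v)) + m / v * x + (1 / 2 - 1 / (2 * v)) * x ^ 2 := by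
  have hv' : (0 : ℝ) < v := by positivity
  have := pi_pos
  rw [log_div (gaussianPDFReal_pos _ _ _ hv).ne' (gaussianPDFReal_pos _ _ _ one_ne_zero).ne']
  unfold gaussianPDFReal
  rw [log_mul (by positivity) (by positivity), log_mul (by positivity) (by positivity), log_inv,
    log_inv, log_sqrt (by positivity), log_sqrt (by positivity), log_exp, log_exp,
    log_mul (by positivity) hv'.ne']
  simp
  field_simp
  ring

lemma young {a b : ℝ} (ha : 0 < a) (hb : 0 < b) (g : ℝ) :
    a * g + a - b * exp g ≤ a * log (a / b) := by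
  have h := add_one_le_exp (g - log (a / b))
  rw [exp_sub, exp_log (by positivity), div_div_eq_mul_div, le_div_iff₀ ha] at h
  linarith

lemma D_up {p : ι → ℝ} (T : ι → ℝ) {v : ℝ≥0} (hv : v ≠ 0) (hp : ∀ i, 0 ≤ p i)
    (h1 : ∑ i, p i = 1) :
    Integrable (fun x => mix p T v x * log (mix p T v x / gaussianPDFReal 0 1 x)) ∧
    0 ≤ ∫ x, mix p T v x * log (mix p T v x / gaussianPDFReal 0 1 x) ∧
    ∫ x, mix p T v x * log (mix p T v x / gaussianPDFReal 0 1 x) ≤
      (-log v - 1 + v + ∑ i, p i * T i ^ 2) / 2 := by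
  have hφ := fun x => gaussianPDFReal_pos 0 1 x one_ne_zero
  have hq := fun i => quad_int (T i) v (-log v / 2 - T i ^ 2 / (2 * v)) (T i / v)
    (1 / 2 - 1 / (2 * v))
  have hu : ∀ x, mix p T v x * log (mix p T v x / gaussianPDFReal 0 1 x) ≤
      ∑ i, p i * (gaussianPDFReal (T i) v x * ((-log v / 2 - T i ^ 2 / (2 * v)) + T i / v * x +
        (1 / 2 - 1 / (2 * v)) * x ^ 2)) := by
    intro x
    have h2 := Finset.sum_le_sum (s := Finset.univ) fun i _ => mul_le_mul_of_nonneg_left
      (young (gaussianPDFReal_pos (T i) v x hv) (hφ x)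
        (log (mix p T v x / gaussianPDFReal 0 1 x))) (hp i)
    simp only [log_ratio _ hv] at h2
    refine le_trans (le_of_eq ?_) h2
    rw [exp_log (div_pos (mix_pos T hv hp h1 x) (hφ x)), mul_div_cancel₀ _ (hφ x).ne']
    simp only [mul_sub, mul_add, Finset.sum_sub_distrib, Finset.sum_add_distrib, ← mul_assoc,
      ← Finset.sum_mul, h1]
    simp [mix]
  have hm : Integrable (mix p T v) :=
    integrable_finsetSum _ fun i _ => (integrable_gaussianPDFReal _ _).const_mul _
  have hm1 : ∫ x, mix p T v x = 1 := by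
    simpa [mix, h1] using comb p T hv (F := fun _ _ => 1) fun i => integrable_const _
  have hl : ∀ x, mix p T v x - gaussianPDFReal 0 1 x ≤
      mix p T v x * log (mix p T v x / gaussianPDFReal 0 1 x) := fun x => by
    simpa using young (mix_pos T hv hp h1 x) (hφ x) 0
  have hi : Integrable (fun x => mix p T v x * log (mix p T v x / gaussianPDFReal 0 1 x)) :=
    integrable_of_le_of_le (((mix_smooth p T v).continuous.measurable.mul
      ((mix_smooth p T v).continuous.measurable.div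
        (measurable_gaussianPDFReal 0 1)).log).aestronglyMeasurable) (ae_of_all _ hl)
      (ae_of_all _ hu) (hm.sub (integrable_gaussianPDFReal 0 1)) (comb_int p T hv hq)
  refine ⟨hi, le_trans (le_of_eq ?_) (integral_mono (hm.sub (integrable_gaussianPDFReal 0 1)) hi hl),
    (integral_mono hi (comb_int p T hv hq) hu).trans (le_of_eq ?_)⟩
  · rw [integral_sub' hm (integrable_gaussianPDFReal 0 1), hm1,
      integral_gaussianPDFReal_eq_one _ one_ne_zero, sub_self]
  · rw [comb p T hv hq]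
    have hv' : (0 : ℝ) < v := by positivity
    have : ∀ i, p i * ∫ x, (-log v / 2 - T i ^ 2 / (2 * v)) + T i / v * x +
        (1 / 2 - 1 / (2 * v)) * x ^ 2 ∂gaussianReal (T i) v =
        (-log v - 1 + v) / 2 * p i + 1 / 2 * (p i * T i ^ 2) := fun i => by
      rw [quad]
      field_simp
      ring
    simp only [this, Finset.sum_add_distrib, ← Finset.mul_sum, h1]
    ring

lemma phi_exp (x : ℝ) : gaussianPDFReal 0 1 x * exp (x ^ 2 / 4) ≤ 2 * gaussianPDFReal 0 2 x := by
  have := pi_pos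
  unfold gaussianPDFReal
  rw [mul_assoc, ← exp_add, ← mul_assoc]
  refine mul_le_mul ?_ (le_of_eq ?_) (by positivity) (by positivity)
  · rw [← div_eq_mul_inv, inv_eq_one_div, div_le_div_iff₀ (by positivity) (by positivity),
      one_mul, sqrt_le_iff, mul_pow, sq_sqrt (by positivity)]
    push_cast
    exact ⟨by positivity, by linarith⟩
  · push_cast
    ring_nf

lemma D_low [DecidableEq ι] {p : ι → ℝ} (T : ι → ℝ) {v : ℝ≥0} (hv : v ≠ 0) (hp : ∀ i, 0 ≤ p i)
    (h1 : ∑ i, p i = 1) (o : ι) (ho : T o = 0) (K : ℝ) :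
    (∑ i, p i * T i ^ 2) / 4 - (1 - p o) * K - 2 * exp (-K) ≤
      ∫ x, mix p T v x * log (mix p T v x / gaussianPDFReal 0 1 x) := by
  have hφ := fun x => gaussianPDFReal_pos 0 1 x one_ne_zero
  have hq := fun i => quad_int (T i) v (if i = o then 1 else 1 - K) 0 (if i = o then 0 else 1 / 4)
  have h2 := (integrable_gaussianPDFReal 0 1).add
    ((integrable_gaussianPDFReal 0 2).const_mul (2 * exp (-K)))
  refine le_trans ?_ (integral_mono ((comb_int p T hv hq).sub h2) (D_up T hv hp h1).1 fun x => ?_)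
  · rw [integral_sub' (comb_int p T hv hq) h2, comb p T hv hq, integral_add'
      (integrable_gaussianPDFReal 0 1) ((integrable_gaussianPDFReal 0 2).const_mul _),
      integral_const_mul, integral_gaussianPDFReal_eq_one _ one_ne_zero,
      integral_gaussianPDFReal_eq_one _ two_ne_zero]
    have h3 := Finset.sum_le_sum (s := Finset.univ)
      (f := fun i => 1 / 4 * (p i * T i ^ 2) + (1 - K) * p i + if i = o then K * p i else 0)
      (g := fun i => p i * ∫ x, (if i = o then 1 else 1 - K) + 0 * x +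
        (if i = o then 0 else 1 / 4) * x ^ 2 ∂gaussianReal (T i) v) fun i _ => by
      rw [quad]
      split_ifs with h
      · rw [h, ho]
        linarith
      · nlinarith [mul_nonneg (hp i) v.coe_nonneg]
    simp only [Finset.sum_add_distrib, ← Finset.mul_sum, h1, Finset.sum_ite_eq',
      Finset.mem_univ, if_true] at h3
    linarith
  · refine le_trans ?_ (young (mix_pos T hv hp h1 x) (hφ x) (max 0 (x ^ 2 / 4 - K)))
    refine sub_le_sub ?_ ?_
    · rw [← mul_add_one, mix, Finset.sum_mul]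
      refine Finset.sum_le_sum fun i _ => ?_
      rw [mul_assoc]
      refine mul_le_mul_of_nonneg_left (mul_le_mul_of_nonneg_left ?_
        (gaussianPDFReal_nonneg _ _ _)) (hp i)
      split_ifs <;> linarith [le_max_left 0 (x ^ 2 / 4 - K), le_max_right 0 (x ^ 2 / 4 - K)]
    · have h3 : exp (max 0 (x ^ 2 / 4 - K)) ≤ 1 + exp (-K) * exp (x ^ 2 / 4) := by
        rw [← exp_add]
        rcases max_cases 0 (x ^ 2 / 4 - K) with h | h <;> rw [h.1]
        · simp [(exp_pos _).le]
        · rw [neg_add_eq_sub]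
          linarith
      have h4 := mul_le_mul_of_nonneg_left (phi_exp x) (exp_pos (-K)).le
      have h5 := mul_le_mul_of_nonneg_left h3 (hφ x).le
      simp only [Pi.add_apply]
      linarith

lemma score {p : ι → ℝ} (T : ι → ℝ) {v : ℝ≥0} (hv : v ≠ 0) (hp : ∀ i, 0 ≤ p i)
    (h1 : ∑ i, p i = 1) (x : ℝ) : mix p T v x * (deriv (mix p T v) x / mix p T v x + x) =
      ∑ i, p i * (gaussianPDFReal (T i) v x * (T i / v + (1 - 1 / v) * x)) := by
  have hv' : (0 : ℝ) < v := by positivity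
  have h : HasDerivAt (mix p T v)
      (∑ i, p i * (gaussianPDFReal (T i) v x * (-(x - T i) / v))) x := by
    refine HasDerivAt.fun_sum fun i _ => HasDerivAt.const_mul _ ?_
    unfold gaussianPDFReal
    convert (((((hasDerivAt_id' x).sub_const (T i)).fun_pow 2).fun_neg.div_const
      (2 * v)).exp).const_mul (√(2 * π * v))⁻¹ using 1
    field_simp
    simp
  rw [h.deriv, mul_add, mul_div_cancel₀ _ (mix_pos T hv hp h1 x).ne', mix, Finset.sum_mul,
    ← Finset.sum_add_distrib]
  refine Finset.sum_congr rfl fun i _ => ?_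
  field_simp
  ring

lemma J_pt {p : ι → ℝ} (T : ι → ℝ) {v : ℝ≥0} (hv : v ≠ 0) (hp : ∀ i, 0 ≤ p i)
    (h1 : ∑ i, p i = 1) (x h : ℝ) :
    mix p T v x * (deriv (mix p T v) x / mix p T v x + x) ^ 2 =
      mix p T v x * (deriv (mix p T v) x / mix p T v x + x - h) ^ 2 +
      ∑ i, p i * (gaussianPDFReal (T i) v x * (2 * (T i / v + (1 - 1 / v) * x) * h - h ^ 2)) := by
  have : ∀ i, p i * (gaussianPDFReal (T i) v x * (2 * (T i / v + (1 - 1 / v) * x) * h - h ^ 2)) =
      2 * h * (p i * (gaussianPDFReal (T i) v x * (T i / v + (1 - 1 / v) * x))) -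
        h ^ 2 * (p i * gaussianPDFReal (T i) v x) := fun i => by ring
  simp only [this, Finset.sum_sub_distrib, ← Finset.mul_sum, ← score T hv hp h1]
  change _ = _ + (_ - h ^ 2 * mix p T v x)
  ring

lemma J_up {p : ι → ℝ} (T : ι → ℝ) {v : ℝ≥0} (hv : v ≠ 0) (hp : ∀ i, 0 ≤ p i)
    (h1 : ∑ i, p i = 1) :
    Integrable (fun x => mix p T v x * (deriv (mix p T v) x / mix p T v x + x) ^ 2) ∧
    0 ≤ ∫ x, mix p T v x * (deriv (mix p T v) x / mix p T v x + x) ^ 2 ∧
    ∫ x, mix p T v x * (deriv (mix p T v) x / mix p T v x + x) ^ 2 ≤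
      (1 - v) ^ 2 / v + ∑ i, p i * T i ^ 2 := by
  have hq := fun i => quad_int (T i) v ((T i / v) ^ 2) (2 * (T i / v) * (1 - 1 / v))
    ((1 - 1 / v) ^ 2)
  have h0 : ∀ x, 0 ≤ mix p T v x * (deriv (mix p T v) x / mix p T v x + x) ^ 2 := fun x =>
    mul_nonneg (mix_pos T hv hp h1 x).le (sq_nonneg _)
  have hu : ∀ x, mix p T v x * (deriv (mix p T v) x / mix p T v x + x) ^ 2 ≤
      ∑ i, p i * (gaussianPDFReal (T i) v x * ((T i / v) ^ 2 + 2 * (T i / v) * (1 - 1 / v) * x +
        (1 - 1 / v) ^ 2 * x ^ 2)) := by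
    intro x
    rw [J_pt T hv hp h1 x (deriv (mix p T v) x / mix p T v x + x), sub_self, zero_pow two_ne_zero,
      mul_zero, zero_add]
    refine Finset.sum_le_sum fun i _ => mul_le_mul_of_nonneg_left (mul_le_mul_of_nonneg_left ?_
      (gaussianPDFReal_nonneg _ _ _)) (hp i)
    nlinarith [sq_nonneg (T i / v + (1 - 1 / v) * x - (deriv (mix p T v) x / mix p T v x + x))]
  have hm := (mix_smooth p T v).continuous.measurable
  have hi : Integrable (fun x => mix p T v x * (deriv (mix p T v) x / mix p T v x + x) ^ 2) :=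
    integrable_of_le_of_le ((hm.mul ((((measurable_deriv _).div hm).add
      measurable_id).pow_const 2)).aestronglyMeasurable) (ae_of_all _ h0) (ae_of_all _ hu)
      (integrable_zero _ _ _) (comb_int p T hv hq)
  refine ⟨hi, integral_nonneg h0, (integral_mono hi (comb_int p T hv hq) hu).trans (le_of_eq ?_)⟩
  rw [comb p T hv hq]
  have hv' : (0 : ℝ) < v := by positivity
  have : ∀ i, p i * ∫ x, (T i / v) ^ 2 + 2 * (T i / v) * (1 - 1 / v) * x +
      (1 - 1 / v) ^ 2 * x ^ 2 ∂gaussianReal (T i) v =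
      (1 - v) ^ 2 / v * p i + p i * T i ^ 2 := fun i => by
    rw [quad]
    field_simp
    ring
  simp only [this, Finset.sum_add_distrib, ← Finset.mul_sum, h1, mul_one]

lemma J_low [DecidableEq ι] {p : ι → ℝ} (T : ι → ℝ) {v : ℝ≥0} (hv : v ≠ 0) (hv1 : v ≤ 1)
    (hp : ∀ i, 0 ≤ p i) (h1 : ∑ i, p i = 1) (o : ι) (ho : T o = 0) {K : ℝ} (hK : 0 < K) :
    ∑ i, p i * T i ^ 2 - (1 - p o) * (2 * K + 2 / v) - ((1 - v) ^ 2 / v + 8640 / K ^ 2) ≤
      ∫ x, mix p T v x * (deriv (mix p T v) x / mix p T v x + x) ^ 2 := by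
  have hv' : (0 : ℝ) < v := by positivity
  let F : ι → ℝ → ℝ := fun i x => if i = o then (0 + 0 * x + -(1 - 1 / v) ^ 2 * x ^ 2) -
      1440 / K ^ 2 * (exp (x - T i) + exp (T i - x))
    else (-(T i / v) ^ 2 - 2 * K) + (2 * (T i / v) * (1 + 1 / v)) * x +
      ((1 - 1 / v) ^ 2 - 2 / v ^ 2) * x ^ 2
  have hq : ∀ i, Integrable (F i) (gaussianReal (T i) v) := fun i => by
    simp only [F]
    split_ifs
    · exact (quad_int _ _ _ _ _).sub ((ex_int _ _).const_mul _)
    · exact quad_int _ _ _ _ _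
  refine le_trans ?_ (integral_mono (comb_int p T hv hq) (J_up T hv hp h1).1 fun x => ?_)
  · rw [comb p T hv hq]
    have hpo : p o ≤ 1 := h1 ▸ Finset.single_le_sum (fun i _ => hp i) (Finset.mem_univ o)
    have h3 := Finset.sum_le_sum (s := Finset.univ)
      (f := fun i => p i * T i ^ 2 + -(2 * K + 2 / v) * p i +
        if i = o then (2 * K + 2 / v) * p i - ((1 - v) ^ 2 / v + 8640 / K ^ 2) else 0)
      (g := fun i => p i * ∫ x, F i x ∂gaussianReal (T i) v) fun i _ => by
      simp only [F]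
      split_ifs with h
      · rw [integral_sub (quad_int _ _ _ _ _) ((ex_int _ _).const_mul _), quad, integral_const_mul]
        have h4 := mul_le_mul_of_nonneg_left (ex (T i) v hv1) (show 0 ≤ 1440 / K ^ 2 by positivity)
        have h5 : (1 - 1 / v : ℝ) ^ 2 * v = (1 - v) ^ 2 / v := by field_simp; ring
        have h6 : 0 ≤ (1 - v : ℝ) ^ 2 / v + 8640 / K ^ 2 := by positivity
        have h7 := mul_le_mul_of_nonneg_left h4 (hp i)
        rw [h, ho] at *
        have h8 : (8640 : ℝ) / K ^ 2 = 1440 / K ^ 2 * 6 := by ring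
        nlinarith
      · rw [quad, add_zero]
        have h4 : -(T i / v) ^ 2 - 2 * K + 2 * (T i / v) * (1 + 1 / v) * T i +
            ((1 - 1 / v) ^ 2 - 2 / v ^ 2) * (v + T i ^ 2) =
            T i ^ 2 - (2 * K + 2 / v) + (1 - v) ^ 2 / v := by
          field_simp
          ring
        rw [h4]
        nlinarith [mul_nonneg (hp i) (show 0 ≤ (1 - v : ℝ) ^ 2 / v by positivity)]
    simp only [Finset.sum_add_distrib, ← Finset.mul_sum, h1, Finset.sum_ite_eq',
      Finset.mem_univ, if_true] at h3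
    linarith
  · rw [J_pt T hv hp h1 x (if K < x ^ 2 then x else 0)]
    refine le_add_of_nonneg_of_le (mul_nonneg (mix_pos T hv hp h1 x).le (sq_nonneg _))
      (Finset.sum_le_sum fun i _ => mul_le_mul_of_nonneg_left (mul_le_mul_of_nonneg_left ?_
      (gaussianPDFReal_nonneg _ _ _)) (hp i))
    simp only [F]
    by_cases h : i = o
    · rw [if_pos h, h, ho]
      have h2 : x ^ 6 ≤ 720 * (exp (x - 0) + exp (0 - x)) := by
        simpa [Nat.factorial] using pow_le x 3
      have h3 := mul_le_mul_of_nonneg_left h2 (show 0 ≤ 2 / K ^ 2 by positivity)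
      have h4 : (1440 : ℝ) / K ^ 2 = 2 / K ^ 2 * 720 := by ring
      have h5 : 0 ≤ 2 / K ^ 2 * x ^ 6 := by positivity
      rw [h4, mul_assoc (2 / K ^ 2), zero_div]
      split_ifs with h6
      · have h7 : 2 * x ^ 2 ≤ 2 / K ^ 2 * x ^ 6 := by
          rw [div_mul_eq_mul_div, le_div_iff₀ (by positivity)]
          nlinarith [mul_le_mul_of_nonneg_left (pow_le_pow_left₀ hK.le h6.le 2) (sq_nonneg x)]
        nlinarith [sq_nonneg ((1 - 1 / v) * x + x)]
      · nlinarith [sq_nonneg ((1 - 1 / v) * x)]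
    · rw [if_neg h]
      have h2 : -(T i / v) ^ 2 - 2 * K + 2 * (T i / v) * (1 + 1 / v) * x +
          ((1 - 1 / v) ^ 2 - 2 / v ^ 2) * x ^ 2 =
          (T i / v + (1 - 1 / v) * x) ^ 2 - 2 * K - 2 * (x - (T i / v + (1 - 1 / v) * x)) ^ 2 := by
        ring
      rw [h2]
      split_ifs with h6 <;>
        nlinarith [sq_nonneg (2 * x - (T i / v + (1 - 1 / v) * x)),
          sq_nonneg (x - (T i / v + (1 - 1 / v) * x))]

lemma exists_ex (C : ℝ) : ∃ (n : ℕ) (f g : ℝ → ℝ), 1 ≤ n ∧ (∀ x, 0 < f x) ∧ (∀ x, 0 < g x) ∧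
    ContDiff ℝ 1 f ∧ ContDiff ℝ 1 g ∧
    IsProbabilityMeasure (volume.withDensity fun x => ENNReal.ofReal (f x)) ∧
    Integrable (fun x : ℝ => x ^ 4) (volume.withDensity fun x => ENNReal.ofReal (f x)) ∧
    ∫ x, x ∂(volume.withDensity fun x => ENNReal.ofReal (f x)) = 0 ∧
    ∫ x, x ^ 2 ∂(volume.withDensity fun x => ENNReal.ofReal (f x)) = 1 ∧
    ∫ x, x ^ 4 ∂(volume.withDensity fun x => ENNReal.ofReal (f x)) ≤ 1160 ∧
    (Measure.pi fun _ : Fin n => volume.withDensity fun x => ENNReal.ofReal (f x)).map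
      (fun x => (∑ i, x i) / √n) = volume.withDensity (fun x => ENNReal.ofReal (g x)) ∧
    (Integrable (fun x => f x * (deriv f x / f x + x) ^ 2) ∧
      Integrable (fun x => g x * (deriv g x / g x + x) ^ 2) ∧
      C / n * ∫ x, f x * (deriv f x / f x + x) ^ 2 < ∫ x, g x * (deriv g x / g x + x) ^ 2) ∧
    Integrable (fun x => f x * log (f x / gaussianPDFReal 0 1 x)) ∧
      Integrable (fun x => g x * log (g x / gaussianPDFReal 0 1 x)) ∧
      C / n * ∫ x, f x * log (f x / gaussianPDFReal 0 1 x) <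
        ∫ x, g x * log (g x / gaussianPDFReal 0 1 x) := by
  classical
  obtain ⟨n, hn⟩ := exists_nat_gt (16 * |C|)
  have hn0 : (0 : ℝ) < n := lt_of_le_of_lt (by positivity) hn
  have hn1 : 1 ≤ n := by exact_mod_cast hn0
  have hn2 : (1 : ℝ) ≤ n := by exact_mod_cast hn1
  obtain ⟨L, hL⟩ : ∃ L : ℝ, L = 4000 * n := ⟨_, rfl⟩
  have hL0 : 0 < L := by rw [hL]; positivity
  obtain ⟨δ, hδ⟩ : ∃ δ : ℝ, δ = 1 / L ^ 2 := ⟨_, rfl⟩
  have hδ0 : 0 < δ := by rw [hδ]; positivity
  have hδ1 : n ^ 2 * δ = 1 / 16000000 := by rw [hδ, hL]; field_simp; norm_num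
  have hδ2 : n * δ ≤ 1 / 16000000 := by nlinarith
  have hδ3 : δ ≤ 1 / 16000000 := by nlinarith
  have hδ4 : δ * L ^ 2 = 1 := by rw [hδ]; field_simp
  let v : ℝ≥0 := ⟨1 - δ, by linarith⟩
  have hv' : (v : ℝ) = 1 - δ := rfl
  have hv : v ≠ 0 := fun h => by
    rw [h] at hv'
    simp at hv'
    linarith
  have hv1 : v ≤ 1 := by
    change (v : ℝ) ≤ 1
    linarith
  let p : Fin 3 → ℝ := ![1 - δ ^ 2, δ ^ 2 / 2, δ ^ 2 / 2]
  let T : Fin 3 → ℝ := ![0, L, -L]
  have hp : ∀ i, 0 ≤ p i := fun i => by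
    have h0 : 0 ≤ 1 - δ ^ 2 := by nlinarith
    have h0' : 0 ≤ δ ^ 2 / 2 := by positivity
    fin_cases i <;> assumption
  have h1 : ∑ i, p i = 1 := by simp [p, Fin.sum_univ_three]; ring
  have h2 : ∑ i, p i * T i = 0 := by simp [p, T, Fin.sum_univ_three]
  have h3 : ∑ i, p i * T i ^ 2 = δ := by
    simp [p, T, Fin.sum_univ_three]
    linear_combination δ * hδ4
  have h4 : ∑ i, p i * T i ^ 4 = 1 := by
    simp [p, T, Fin.sum_univ_three]
    linear_combination (δ * L ^ 2 + 1) * hδ4
  let P : (Fin n → Fin 3) → ℝ := fun b => ∏ i, p (b i)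
  let S : (Fin n → Fin 3) → ℝ := fun b => (∑ i, T (b i)) / √n
  have hP : ∀ b, 0 ≤ P b := fun b => Finset.prod_nonneg fun i _ => hp _
  have H1 : ∑ b, P b = 1 := by
    rw [← Fintype.piFinset_univ, ← Finset.prod_univ_sum]; simp [h1]
  have H3 : ∑ b, P b * S b ^ 2 = δ := by
    have := second h1 h2 n 0
    simp only [zero_add, h3] at this
    simp only [P, S, div_pow, sq_sqrt hn0.le, ← mul_div_assoc, ← Finset.sum_div, this]
    field_simp
    ring
  have H0 : S (fun _ => 0) = 0 := by simp [S, T]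
  have H4 : 1 - P (fun _ => 0) ≤ n * δ ^ 2 := by
    have := one_add_mul_le_pow (a := -δ ^ 2) (by nlinarith) n
    simp only [P, p, Matrix.cons_val_zero, Finset.prod_const, Finset.card_univ, Fintype.card_fin]
    rw [← sub_eq_add_neg] at this
    linarith
  have hi4 : ∀ i, Integrable (fun x : ℝ => x ^ 4) (gaussianReal (T i) v) := fun i =>
    ((memLp_id_gaussianReal' (μ := T i) (v := v) 4
      (by simp)).integrable_norm_pow (by norm_num)).congr (ae_of_all _ fun x => by
        simp [Even.pow_abs (show Even 4 by decide)])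
  have hC : ∀ a : ℝ, 0 ≤ a → C / n * a ≤ a / 16 := fun a ha => by
    rw [div_mul_eq_mul_div, div_le_div_iff₀ hn0 (by norm_num)]
    nlinarith [le_abs_self C]
  obtain ⟨K, hK⟩ : ∃ K : ℝ, K = 1 / (8 * n * δ) := ⟨_, rfl⟩
  have hK0 : 0 < K := by rw [hK]; positivity
  have hK1 : n * δ ^ 2 * K = δ / 8 := by rw [hK]; field_simp
  have hK2 : 1 / K ^ 2 = 64 * (n ^ 2 * δ) * δ := by rw [hK]; field_simp; norm_num
  have hv2 : 1 / (v : ℝ) ≤ 2 := by
    rw [hv', div_le_iff₀ (by linarith)]
    linarith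
  have hv3 : (1 - v : ℝ) ^ 2 / v ≤ δ / 100 := by
    rw [hv', div_le_iff₀ (by linarith)]
    nlinarith
  refine ⟨n, mix p T v, mix P S v, hn1, mix_pos T hv hp h1, mix_pos S hv hP H1, mix_smooth _ _ _,
    mix_smooth _ _ _, law_prob T hv hp h1, (law_int T hv hp hi4).1, ?_, ?_, ?_,
    law_sum T hv hp h1 n (by omega), ⟨(J_up T hv hp h1).1, (J_up S hv hP H1).1, ?_⟩,
    (D_up T hv hp h1).1, (D_up S hv hP H1).1, ?_⟩
  · rw [(law_int T hv hp fun i => id_int _ _).2]
    simpa using h2
  · rw [(law_int T hv hp fun i => sq_int _ _).2]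
    have := fun i => quad (T i) v 0 0 1
    simp only [zero_mul, add_zero, zero_add, one_mul] at this
    simp only [this, smul_eq_mul, mul_add, Finset.sum_add_distrib, ← Finset.sum_mul, h1, h3, hv']
    ring
  · rw [(law_int T hv hp hi4).2]
    refine (Finset.sum_le_sum (g := fun i => 8 * (p i * T i ^ 4) + 1152 * p i) fun i _ => ?_).trans
      (le_of_eq ?_)
    · have h5 := integral_mono (hi4 i) ((integrable_const (8 * T i ^ 4)).add
        ((ex_int (T i) v).const_mul 192)) fun x => by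
          have h6 : (x - T i) ^ 4 ≤ 24 * (exp (x - T i) + exp (T i - x)) := by
            simpa [Nat.factorial] using pow_le (x - T i) 2
          have h7 := add_pow_le (a := |T i|) (b := |x - T i|) (abs_nonneg _) (abs_nonneg _) 4
          have h8 : |x| ^ 4 ≤ (|T i| + |x - T i|) ^ 4 := pow_le_pow_left₀ (abs_nonneg _)
            (by simpa using abs_add_le (T i) (x - T i)) 4
          simp only [Even.pow_abs (show Even 4 by decide)] at h7 h8
          simp only [Pi.add_apply]
          norm_num at h7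
          linarith
      rw [integral_add' (integrable_const _) ((ex_int _ _).const_mul _)] at h5
      simp only [integral_const, probReal_univ, smul_eq_mul, one_mul, integral_const_mul] at h5 ⊢
      nlinarith [ex (T i) v hv1, hp i]
    · simp only [Finset.sum_add_distrib, ← Finset.mul_sum, h1, h4]
      norm_num
  · have h5 := J_up T hv hp h1
    have h6 := J_low S hv hv1 hP H1 _ H0 hK0
    have h7 := mul_le_mul H4 (show 2 * K + 2 / (v : ℝ) ≤ 2 * K + 4 by
      rw [div_eq_mul_one_div]; linarith) (by positivity) (by positivity)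
    rw [div_eq_mul_one_div 8640, hK2, hδ1, H3] at h6
    rw [h3] at h5
    nlinarith [hC _ h5.2.1, h5.2.2]
  · have h5 := D_up T hv hp h1
    have h6 := D_low S hv hP H1 _ H0 K
    have h7 := mul_le_mul_of_nonneg_right H4 hK0.le
    have h8 : exp (-K) ≤ 2 * (1 / K ^ 2) := by
      have := pow_div_factorial_le_exp K hK0.le 2
      rw [exp_neg, inv_eq_one_div, ← mul_div_assoc, div_le_div_iff₀ (exp_pos _) (by positivity)]
      norm_num [Nat.factorial] at this
      linarith
    have h9 := one_sub_inv_le_log_of_pos (show (0 : ℝ) < v by positivity)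
    have h10 : (v : ℝ)⁻¹ ≤ 1 + 2 * δ := by
      rw [hv', inv_le_iff_one_le_mul₀ (by linarith)]
      nlinarith
    rw [hK2, hδ1] at h8
    rw [H3] at h6
    rw [h3] at h5
    linarith [hC _ h5.2.1, h5.2.2]

end Pool.Agent.H14.Clt
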