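import Mathlib

set_option autoImplicit false

namespace Pool.Agent.H14.Colored

open Finset

/-- The power series `1 / (1 - x^d)` for `d ≥ 1`. -/
noncomputable def geo (d : ℕ) : PowerSeries ℕ := PowerSeries.mk fun i => if d ∣ i then 1 else 0

/-- The coefficient of `x^n` in `(1-x)^(-m) prod_j (1 - x^(k^j))^(-(k-1)m)`; the factors with
`j > n` have `k^j > n` and do not affect this coefficient. -/
noncomputable def S (k m n : ℕ) : ℕ :=
  PowerSeries.coeff n (geo 1 ^ m * ∏ j ∈ range (n + 1), geo (k ^ j) ^ ((k - 1) * m))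

/-- Writing `c_m(n) = 2^a w` with `w` odd, the 2-adic valuation of `w - 1` (infinite if `w = 1`). -/
noncomputable def u (m n : ℕ) : ℕ∞ :=
  emultiplicity 2 (S 2 m n / 2 ^ padicValNat 2 (S 2 m n) - 1)

abbrev R : Type := ZMod 64

section series

open PowerSeries

noncomputable def g (d : ℕ) : PowerSeries R := PowerSeries.map (Nat.castRingHom R) (geo d)

lemma g_mul {d : ℕ} (hd : 0 < d) : g d * (1 - X ^ d) = 1 := by
  ext n
  rw [mul_sub, mul_one, map_sub, coeff_mul_X_pow', coeff_one]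
  simp only [g, geo, coeff_map, coeff_mk]
  by_cases h : d ≤ n
  · have h1 : d ∣ n - d ↔ d ∣ n := (Nat.dvd_sub_iff_left h dvd_rfl)
    have h2 : n ≠ 0 := by omega
    simp [h, h1, h2]
  · by_cases h0 : n = 0
    · simp [h0]
      omega
    · have : ¬ d ∣ n := fun h' => h (Nat.le_of_dvd (Nat.pos_of_ne_zero h0) h')
      simp [h, h0, this]

lemma pow32 (y : PowerSeries R) : (1 - y) ^ 32 = (1 + y) ^ 32 := by
  have h := dvd_sub_pow_of_dvd_sub (p := 2) (a := 1 + y) (b := 1 - y) ⟨y, by push_cast; ring⟩ 5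
  have h0 : (((2 : ℕ) : PowerSeries R)) ^ (5 + 1) = 0 := by
    rw [← map_natCast (C (R := R)), ← map_pow]
    have : (((2 : ℕ) : R)) ^ (5 + 1) = 0 := by decide
    rw [this, map_zero]
  rw [h0, zero_dvd_iff, sub_eq_zero] at h
  exact h.symm

lemma C_pow (J : ℕ) : (g 1 * ∏ j ∈ range J, g (2 ^ j)) ^ 32 = g (2 ^ J) ^ 32 := by
  induction J with
  | zero => simp
  | succ J ih =>
    rw [prod_range_succ, ← mul_assoc, mul_pow, ih]
    have h1 := g_mul (d := 2 ^ J) (by positivity)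
    have h2 := g_mul (d := 2 ^ (J + 1)) (by positivity)
    rw [pow_succ, pow_mul] at h2
    rw [pow_succ 2 J]
    set y : PowerSeries R := X ^ 2 ^ J
    set a := g (2 ^ J)
    set b := g (2 ^ J * 2)
    calc a ^ 32 * a ^ 32 = a ^ 32 * a ^ 32 * (b * (1 - y ^ 2)) ^ 32 := by rw [h2, one_pow, mul_one]
      _ = b ^ 32 * (a * (1 - y)) ^ 32 * (a ^ 32 * (1 + y) ^ 32) := by
        rw [show 1 - y ^ 2 = (1 - y) * (1 + y) by ring]
        simp only [mul_pow]
        ring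
      _ = b ^ 32 := by rw [← pow32, ← mul_pow a, h1]; simp

lemma C_mul (J : ℕ) : (g 1 * ∏ j ∈ range J, g (2 ^ j)) *
    ((1 - X) * ∏ j ∈ range J, (1 - X ^ 2 ^ j)) = 1 := by
  have h1 := g_mul (d := 1) one_pos
  rw [pow_one] at h1
  rw [mul_mul_mul_comm, h1, one_mul, ← prod_mul_distrib]
  exact prod_eq_one fun j _ => g_mul (by positivity)

lemma S_cast (n : ℕ) : (S 2 3 n : R) =
    coeff n (((1 - X) * ∏ j ∈ range (n + 1), (1 - X ^ 2 ^ j) : PowerSeries R) ^ 29) := by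
  have h1 : (S 2 3 n : R) = coeff n ((g 1 * ∏ j ∈ range (n + 1), g (2 ^ j)) ^ 3) := by
    have : (S 2 3 n : R) = Nat.castRingHom R (S 2 3 n) := rfl
    rw [this, S, ← coeff_map, mul_pow, ← prod_pow]
    simp [g]
  set C := g 1 * ∏ j ∈ range (n + 1), g (2 ^ j) with hC
  set D : PowerSeries R := (1 - X) * ∏ j ∈ range (n + 1), (1 - X ^ 2 ^ j) with hD
  have h2 : C ^ 3 = g (2 ^ (n + 1)) ^ 32 * D ^ 29 := by
    rw [← C_pow, ← hC]
    calc C ^ 3 = C ^ 3 * (C * D) ^ 29 := by rw [C_mul, one_pow, mul_one]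
      _ = _ := by ring
  have h3 : (X : PowerSeries R) ^ 2 ^ (n + 1) ∣ g (2 ^ (n + 1)) ^ 32 * D ^ 29 - D ^ 29 := by
    have h4 := g_mul (d := 2 ^ (n + 1)) (by positivity)
    have h5 : (X : PowerSeries R) ^ 2 ^ (n + 1) ∣ g (2 ^ (n + 1)) - 1 :=
      ⟨g (2 ^ (n + 1)), by linear_combination h4⟩
    have h6 := h5.trans (sub_dvd_pow_sub_pow (g (2 ^ (n + 1))) 1 32)
    rw [one_pow] at h6
    rw [← sub_one_mul]
    exact h6.mul_right _
  have h7 := X_pow_dvd_iff.1 h3 n (lt_of_lt_of_le (Nat.lt_succ_self n) Nat.lt_two_pow_self.le)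
  rw [map_sub, sub_eq_zero] at h7
  rw [h1, h2, h7]

end series

open Polynomial

noncomputable def ofL : List R → R[X]
  | [] => 0
  | a :: l => C a + X * ofL l

def step : R → List R → List R
  | c, [] => [-c]
  | c, a :: l => (a - c) :: step a l

lemma ofL_step (c : R) (l : List R) : ofL (step c l) = (1 - X) * ofL l - C c := by
  induction l generalizing c with
  | nil => simp [step, ofL]
  | cons a l ih =>
    simp only [step, ofL, ih, map_sub]
    ring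

def it : ℕ → List R → List R
  | 0, l => l
  | k + 1, l => step 0 (it k l)

lemma ofL_it (k : ℕ) (l : List R) : ofL (it k l) = (1 - X) ^ k * ofL l := by
  induction k with
  | zero => simp [it]
  | succ k ih =>
    simp only [it, ofL_step, ih, map_zero]
    ring

def eo : List R → List R × List R
  | [] => ([], [])
  | a :: l => (a :: (eo l).2, (eo l).1)

lemma ofL_eo (l : List R) :
    ofL l = expand R 2 (ofL (eo l).1) + X * expand R 2 (ofL (eo l).2) := by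
  induction l with
  | nil => simp [eo, ofL]
  | cons a l ih =>
    simp only [eo, ofL, map_add, map_mul, expand_C, expand_X]
    rw [ih]
    ring

noncomputable def H (J : ℕ) : R[X] := ∏ j ∈ range J, (1 - X ^ 2 ^ j) ^ 29

lemma H_succ (J : ℕ) : H (J + 1) = (1 - X) ^ 29 * expand R 2 (H J) := by
  unfold H
  rw [prod_range_succ', mul_comm, map_prod]
  simp only [pow_zero, pow_one, map_pow, map_sub, map_one, expand_X, ← pow_mul, pow_succ' 2]

lemma trans (l : List R) (J n : ℕ) :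
    (ofL l * H (J + 1)).coeff (2 * n) = (ofL (eo (it 29 l)).1 * H J).coeff n ∧
    (ofL l * H (J + 1)).coeff (2 * n + 1) = (ofL (eo (it 29 l)).2 * H J).coeff n := by
  have h : ofL l * H (J + 1) = expand R 2 (ofL (eo (it 29 l)).1 * H J) +
      X * expand R 2 (ofL (eo (it 29 l)).2 * H J) := by
    rw [H_succ, ← mul_assoc, mul_comm (ofL l), ← ofL_it, ofL_eo (it 29 l)]
    simp only [map_mul]
    ring
  rw [h]
  constructor
  · rw [coeff_add, coeff_expand two_pos, if_pos (dvd_mul_right 2 n), Nat.mul_div_cancel_left n two_pos]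
    rcases n with _ | n
    · simp
    · rw [show 2 * (n + 1) = (2 * n + 1) + 1 by ring, coeff_X_mul, coeff_expand two_pos,
        if_neg (by omega), add_zero]
  · rw [coeff_add, coeff_expand two_pos, if_neg (by omega), zero_add, coeff_X_mul,
      coeff_expand two_pos, if_pos (dvd_mul_right 2 n), Nat.mul_div_cancel_left n two_pos]

def SA : List (List R) :=
  [
   [1, 35, 22, 58, 7, 29, 12, 52, 49, 35, 58, 22, 63, 21, 40, 24, 43, 1, 42, 6, 29, 15, 12, 52,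
    35, 57, 6, 42, 29, 63],
   [1, 53, 14, 30, 63, 51, 28, 28, 1, 37, 34, 50, 39, 11, 8, 8, 11, 39, 50, 34, 37, 1, 28, 28,
    51, 63, 30, 14, 53, 1]]

def SB : List (List R) :=
  [
   [6, 56, 28, 24, 34, 16, 24, 16, 54, 40, 36, 8, 34, 32, 16, 32, 34, 8, 36, 40, 54, 16, 24,
    16, 34, 24, 28, 56, 6],
   [6, 8, 44, 8, 18, 48, 56, 48, 22, 24, 20, 24, 50, 32, 16, 32, 34, 56, 20, 56, 6, 48, 56, 48,
    2, 40, 44, 40, 54],
   [10, 24, 20, 24, 62, 16, 8, 16, 58, 8, 44, 8, 30, 32, 48, 32, 14, 40, 44, 40, 42, 16, 8, 16,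
    46, 56, 20, 56, 58],
   [10, 56, 52, 56, 30, 16, 8, 16, 58, 40, 12, 40, 62, 32, 48, 32, 14, 8, 12, 8, 10, 16, 8, 16,
    46, 24, 52, 24, 26],
   [54, 40, 44, 40, 2, 48, 56, 48, 6, 56, 20, 56, 34, 32, 16, 32, 50, 24, 20, 24, 22, 48, 56,
    48, 18, 8, 44, 8, 6],
   [54, 8, 12, 8, 34, 48, 56, 48, 6, 24, 52, 24, 2, 32, 16, 32, 50, 56, 52, 56, 54, 48, 56, 48,
    18, 40, 12, 40, 38],
   [42, 24, 20, 24, 30, 16, 8, 16, 26, 8, 44, 8, 62, 32, 48, 32, 46, 40, 44, 40, 10, 16, 8, 16,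
    14, 56, 20, 56, 26],
   [42, 56, 52, 56, 62, 16, 8, 16, 26, 40, 12, 40, 30, 32, 48, 32, 46, 8, 12, 8, 42, 16, 8, 16,
    14, 24, 52, 24, 58],
   [22, 40, 44, 40, 34, 48, 56, 48, 38, 56, 20, 56, 2, 32, 16, 32, 18, 24, 20, 24, 54, 48, 56,
    48, 50, 8, 44, 8, 38],
   [22, 8, 12, 8, 2, 48, 56, 48, 38, 24, 52, 24, 34, 32, 16, 32, 18, 56, 52, 56, 22, 48, 56,
    48, 50, 40, 12, 40, 6],
   [26, 24, 52, 24, 46, 16, 8, 16, 10, 8, 12, 8, 14, 32, 48, 32, 62, 40, 12, 40, 58, 16, 8, 16,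
    30, 56, 52, 56, 10],
   [26, 56, 20, 56, 14, 16, 8, 16, 10, 40, 44, 40, 46, 32, 48, 32, 62, 8, 44, 8, 26, 16, 8, 16,
    30, 24, 20, 24, 42],
   [38, 40, 12, 40, 18, 48, 56, 48, 54, 56, 52, 56, 50, 32, 16, 32, 2, 24, 52, 24, 6, 48, 56,
    48, 34, 8, 12, 8, 54],
   [38, 8, 44, 8, 50, 48, 56, 48, 54, 24, 20, 24, 18, 32, 16, 32, 2, 56, 20, 56, 38, 48, 56,
    48, 34, 40, 44, 40, 22],
   [58, 24, 52, 24, 14, 16, 8, 16, 42, 8, 12, 8, 46, 32, 48, 32, 30, 40, 12, 40, 26, 16, 8, 16,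
    62, 56, 52, 56, 42],
   [58, 56, 20, 56, 46, 16, 8, 16, 42, 40, 44, 40, 14, 32, 48, 32, 30, 8, 44, 8, 58, 16, 8, 16,
    62, 24, 20, 24, 10],
   [6, 40, 12, 40, 50, 48, 56, 48, 22, 56, 52, 56, 18, 32, 16, 32, 34, 24, 52, 24, 38, 48, 56,
    48, 2, 8, 12, 8, 22],
   [24, 16, 32, 48, 24, 32, 0, 32, 56, 48, 32, 16, 56, 0, 0, 0, 8, 48, 32, 16, 8, 32, 0, 32,
    40, 16, 32, 48, 40],
   [24, 32, 48, 32, 8, 0, 32, 0, 24, 32, 16, 32, 8, 0, 0, 0, 8, 32, 16, 32, 24, 0, 32, 0, 8,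
    32, 48, 32, 24],
   [40, 32, 16, 32, 56, 0, 32, 0, 40, 32, 48, 32, 56, 0, 0, 0, 56, 32, 48, 32, 40, 0, 32, 0,
    56, 32, 16, 32, 40]]

def Good : List R := [6, 10, 22, 24, 26, 38, 40, 42, 54, 58]

lemma hA : ∀ l ∈ SA, (eo (it 29 l)).1 ∈ SA ∧ (eo (it 29 l)).2 ∈ SB := by decide +kernel

lemma hB : ∀ l ∈ SB, (eo (it 29 l)).1 ∈ SB ∧ (eo (it 29 l)).2 ∈ SB ∧ l.headI ∈ Good := by
  decide +kernel

lemma h0 : it 29 [1] ∈ SA := by decide +kernel

lemma coeff_zero_ofL (l : List R) : (ofL l).coeff 0 = l.headI := by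
  cases l with
  | nil => rfl
  | cons a l => simp [ofL]

lemma goodB (J : ℕ) : ∀ l ∈ SB, ∀ n < 2 ^ J, (ofL l * H J).coeff n ∈ Good := by
  induction J with
  | zero =>
    intro l hl n hn
    obtain rfl : n = 0 := by simpa using hn
    simpa [H, coeff_zero_ofL] using (hB l hl).2.2
  | succ J ih =>
    intro l hl n hn
    rw [pow_succ] at hn
    obtain ⟨k, rfl | rfl⟩ := Nat.even_or_odd' n
    · rw [(trans l J k).1]
      exact ih _ (hB l hl).1 k (by omega)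
    · rw [(trans l J k).2]
      exact ih _ (hB l hl).2.1 k (by omega)

lemma goodA (J : ℕ) : ∀ l ∈ SA, ∀ n < 2 ^ J, 1 ≤ n → (ofL l * H J).coeff n ∈ Good := by
  induction J with
  | zero =>
    intro l _ n hn h1
    simp at hn
    omega
  | succ J ih =>
    intro l hl n hn h1
    rw [pow_succ] at hn
    obtain ⟨k, rfl | rfl⟩ := Nat.even_or_odd' n
    · rw [(trans l J k).1]
      exact ih _ (hA l hl).1 k (by omega) (by omega)
    · rw [(trans l J k).2]
      exact goodB J _ (hA l hl).2 k (by omega)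

lemma S_good (n : ℕ) (hn : 1 ≤ n) : (S 2 3 n : R) ∈ Good := by
  have h := goodA (n + 1) _ h0 n (lt_of_lt_of_le (Nat.lt_succ_self n) Nat.lt_two_pow_self.le) hn
  rw [ofL_it, ← coeff_coe] at h
  rw [S_cast]
  convert h using 2
  have e : ∀ p : R[X], (p : PowerSeries R) = coeToPowerSeries.ringHom p := fun _ => rfl
  rw [e]
  simp only [H, ofL, map_mul, map_pow, map_prod, map_sub, map_one, mul_zero, add_zero, mul_one,
    mul_pow, prod_pow]
  simp only [coeToPowerSeries.ringHom_apply, coe_X]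

lemma odd_part (a w : ℕ) (hw : w % 2 = 1) : 2 ^ a * w / 2 ^ padicValNat 2 (2 ^ a * w) = w := by
  have h1 : w ≠ 0 := by omega
  rw [padicValNat.mul (by positivity) h1, padicValNat.prime_pow,
    padicValNat.eq_zero_of_not_dvd (by omega), add_zero, Nat.mul_div_cancel_left _ (by positivity)]

theorem main (n : ℕ) (hn : 1 ≤ n) : u 3 n = 1 ∨ u 3 n = 2 := by
  have h := S_good n hn
  have h1 : ∀ r ∈ Good, r.val % 8 = 6 ∨ r.val % 16 = 10 ∨ r.val = 24 ∨ r.val = 40 := by decide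
  have h2 := h1 _ h
  rw [ZMod.val_natCast] at h2
  unfold u
  generalize S 2 3 n = c at h2
  have e1 : ∀ w : ℕ, w % 4 = 3 → emultiplicity 2 (w - 1) = 1 := fun w hw =>
    (emultiplicity_eq_coe (n := 1)).2 ⟨by omega, by omega⟩
  have e2 : ∀ w : ℕ, w % 8 = 5 → emultiplicity 2 (w - 1) = 2 := fun w hw =>
    (emultiplicity_eq_coe (n := 2)).2 ⟨by omega, by omega⟩
  rcases h2 with h2 | h2 | h2 | h2
  · obtain ⟨w, rfl⟩ : ∃ w, c = 2 ^ 1 * w := ⟨c / 2, by omega⟩
    rw [odd_part 1 w (by omega)]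
    exact Or.inl (e1 w (by omega))
  · obtain ⟨w, rfl⟩ : ∃ w, c = 2 ^ 1 * w := ⟨c / 2, by omega⟩
    rw [odd_part 1 w (by omega)]
    exact Or.inr (e2 w (by omega))
  · obtain ⟨w, rfl⟩ : ∃ w, c = 2 ^ 3 * w := ⟨c / 8, by omega⟩
    rw [odd_part 3 w (by omega)]
    exact Or.inl (e1 w (by omega))
  · obtain ⟨w, rfl⟩ : ∃ w, c = 2 ^ 3 * w := ⟨c / 8, by omega⟩
    rw [odd_part 3 w (by omega)]
    exact Or.inr (e2 w (by omega))

end Pool.Agent.H14.Colored
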