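import Mathlib

set_option autoImplicit false

namespace Pool.Agent.H14.CommDiam

open DihedralGroup

/-- The commuting graph of a semigroup: non-central elements, adjacent when distinct and commuting. -/
def commGraph (S : Type) [Semigroup S] : SimpleGraph {x : S // x ∉ Set.center S} where
  Adj x y := x ≠ y ∧ x.1 * y.1 = y.1 * x.1
  symm := ⟨fun _ _ h => ⟨h.1.symm, h.2.symm⟩⟩
  loopless := ⟨fun _ h => h.1 rfl⟩

/-- The semigroup is generated by at most `d` elements. -/
def RankLE (S : Type) [Semigroup S] (d : ℕ) : Prop :=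
  ∃ T : Finset S, T.card ≤ d ∧ Subsemigroup.closure (T : Set S) = ⊤

def act {n : ℕ} : DihedralGroup n → ZMod n → ZMod n
  | r i, x => x + i
  | sr i, x => -i - x

lemma act_mul {n : ℕ} (g h : DihedralGroup n) (x : ZMod n) : act (g * h) x = act g (act h x) := by
  cases g <;> cases h <;> simp [act] <;> ring

lemma act_one {n : ℕ} (x : ZMod n) : act 1 x = x := add_zero x

def near {n : ℕ} (x y : ZMod n) : Prop := x = y ∨ x = y + 1 ∨ y = x + 1

lemma near_act {n : ℕ} (g : DihedralGroup n) (x y : ZMod n) : near (act g⁻¹ x) y ↔ near x (act g y) := by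
  cases g <;> simp only [inv_r, inv_sr, act, near] <;> grind

inductive S (n : ℕ) : Type
  | u (g : DihedralGroup n)
  | p (x y : ZMod n)
  | z

open Classical in
noncomputable instance (n : ℕ) : Semigroup (S n) where
  mul
    | .u g, .u h => .u (g * h)
    | .u g, .p x y => .p (act g x) y
    | .p x y, .u g => .p x (act g⁻¹ y)
    | .p x y, .p x' y' => if near y x' then .z else .p x y'
    | _, .z => .z
    | .z, _ => .z
  mul_assoc a b c := by
    cases a <;> cases b <;> cases c <;> simp only [HMul.hMul, Mul.mul]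
    · exact congrArg S.u (mul_assoc _ _ _)
    · exact congrArg (S.p · _) (act_mul _ _ _)
    · split_ifs <;> rfl
    · exact congrArg (S.p _) (by rw [← act_mul, ← mul_inv_rev]; rfl)
    · rw [near_act]
    · split_ifs <;> rfl
    · split_ifs <;> simp_all
    · split_ifs <;> rfl

variable {n : ℕ}

lemma uu (g h : DihedralGroup n) : (S.u g * S.u h : S n) = .u (g * h) := rfl
lemma up (g : DihedralGroup n) (x y : ZMod n) : (S.u g * S.p x y : S n) = .p (act g x) y := rfl
lemma pu (g : DihedralGroup n) (x y : ZMod n) : (S.p x y * S.u g : S n) = .p x (act g⁻¹ y) := rfl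
open Classical in
lemma pp (x y x' y' : ZMod n) :
    (S.p x y * S.p x' y' : S n) = if near y x' then .z else .p x y' := rfl
lemma mz (a : S n) : a * S.z = S.z := by cases a <;> rfl
lemma zm (a : S n) : S.z * a = S.z := by cases a <;> rfl

instance [NeZero n] : Finite (S n) :=
  Finite.of_surjective (fun a : DihedralGroup n ⊕ Option (ZMod n × ZMod n) =>
    a.elim S.u fun o => o.elim S.z fun q => S.p q.1 q.2) (by
      rintro (g | ⟨x, y⟩ | _)
      exacts [⟨.inl g, rfl⟩, ⟨.inr (some (x, y)), rfl⟩, ⟨.inr none, rfl⟩])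

lemma rank [NeZero n] : RankLE (S n) 3 := by
  classical
  refine ⟨{.u (r 1), .u (sr 0), .p 0 0}, Finset.card_le_three, ?_⟩
  rw [eq_top_iff]
  set C := Subsemigroup.closure (({.u (r 1), .u (sr 0), .p 0 0} : Finset (S n)) : Set (S n))
  have h1 : S.u (r 1) ∈ C := Subsemigroup.subset_closure (by simp)
  have h2 : S.u (sr 0) ∈ C := Subsemigroup.subset_closure (by simp)
  have h3 : S.p 0 0 ∈ C := Subsemigroup.subset_closure (by simp)
  have h4 : ∀ k : ℕ, S.u (r ((k + 1 : ℕ) : ZMod n)) ∈ C := by
    intro k
    induction k with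
    | zero => simpa using h1
    | succ k ih => simpa [uu] using C.mul_mem ih h1
  have h5 : ∀ i, S.u (r i) ∈ C := fun i => by simpa using h4 (i - 1).val
  rintro (g | ⟨x, y⟩ | _) -
  · cases g with
    | r i => exact h5 i
    | sr i => simpa [uu] using C.mul_mem h2 (h5 i)
  · simpa [up, pu, act] using C.mul_mem (C.mul_mem (h5 x) h3) (h5 (-y))
  · simpa [pp, near] using C.mul_mem h3 h3

lemma mem_center_iff (a : S n) : a ∈ Set.center (S n) ↔ ∀ b, b * a = a * b :=
  Semigroup.mem_center_iff

theorem main (D m : ℕ) (hm : m = 4 * D + 3) : (commGraph (S (2 * m))).Connected ∧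
    (D : ℕ∞) ≤ (commGraph (S (2 * m))).ediam := by
  have : NeZero (2 * m) := ⟨by omega⟩
  have cast : ∀ k : ℤ, (k : ZMod (2 * m)) = 0 → 0 < k → k < 2 * m → False := by
    intro k hk h0 h1
    have := Int.le_of_dvd h0 ((ZMod.intCast_zmod_eq_zero_iff_dvd _ _).1 hk)
    push_cast at this
    omega
  have hp : ∀ x y, S.p x y ∉ Set.center (S (2 * m)) := by
    intro x y h
    have := (mem_center_iff _).1 h (.u (r 1))
    simp only [up, pu, act, S.p.injEq] at this
    exact cast 1 (by simpa using this.1) (by omega) (by omega)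
  have hc : S.u (r (m : ZMod (2 * m))) ∉ Set.center (S (2 * m)) := by
    intro h
    have := (mem_center_iff _).1 h (.p 0 0)
    simp only [up, pu, act, S.p.injEq] at this
    exact cast m (by simpa using this.1.symm) (by omega) (by omega)
  have hs : ∀ j, S.u (sr j) ∉ Set.center (S (2 * m)) := by
    intro j h
    have h0 := (mem_center_iff _).1 h (.p 0 0)
    have h1 := (mem_center_iff _).1 h (.p 1 0)
    simp only [up, pu, act, S.p.injEq] at h0 h1
    exact cast 2 (by push_cast; linear_combination h1.1 - h0.1) (by omega) (by omega)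
  have hz : S.z ∈ Set.center (S (2 * m)) := (mem_center_iff _).2 fun b => by rw [mz, zm]
  have h1 : S.u (r 0) ∈ Set.center (S (2 * m)) := (mem_center_iff _).2 fun b => by
    cases b <;> simp [uu, up, pu, mz, zm, act_one]
  have hmm : (m : ZMod (2 * m)) + m = 0 := by
    rw [← two_mul]; exact_mod_cast ZMod.natCast_self (2 * m)
  set Γ := commGraph (S (2 * m))
  have re : ∀ a b : {x // x ∉ Set.center (S (2 * m))}, a.1 * b.1 = b.1 * a.1 → Γ.Reachable a b := by
    intro a b h
    by_cases hab : a = b
    · rw [hab]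
    · exact SimpleGraph.Adj.reachable ⟨hab, h⟩
  let o : {x // x ∉ Set.center (S (2 * m))} := ⟨_, hc⟩
  have ru : ∀ g hg, Γ.Reachable ⟨.u g, hg⟩ o := fun g hg => re _ _ (by
    cases g <;> simp [o, uu] <;> grind)
  have rp : ∀ (d : ℕ) (y : ZMod (2 * m)), Γ.Reachable ⟨_, hp (y + d) y⟩ o ∧
      Γ.Reachable ⟨_, hp y (y + d)⟩ o := by
    intro d
    induction d with
    | zero =>
      intro y
      have : Γ.Reachable ⟨_, hp y y⟩ o :=
        (re _ ⟨_, hs (-y - y)⟩ (by simp [up, pu, act])).trans (ru _ _)
      simpa using this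
    | succ d ih =>
      intro y
      refine ⟨(re _ ⟨_, hp (y + 1) (y + 1 + d)⟩ ?_).trans (ih _).2,
        (re _ ⟨_, hp (y + d) y⟩ ?_).trans (ih _).1⟩
      · simp only [pp]
        rw [if_pos (by simp [near]), if_pos (by left; push_cast; ring)]
      · simp only [pp]
        rw [if_pos (by right; left; push_cast; ring), if_pos (by left; rfl)]
  have hcon : Γ.Connected := by
    rw [SimpleGraph.connected_iff_exists_forall_reachable]
    refine ⟨o, ?_⟩
    rintro ⟨g | ⟨x, y⟩ | _, ha⟩
    · exact (ru g ha).symm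
    · have := (rp (x - y).val y).1.symm
      simpa using this
    · exact absurd hz ha
  refine ⟨hcon, ?_⟩
  have key : ∀ (a b : {x // x ∉ Set.center (S (2 * m))}) (w : Γ.Walk a b), b = o →
      ∀ x y, a.1 = .p x y → ∃ k : ℤ, |k| ≤ 2 * w.length ∧ 2 * (x - y) = 2 * k := by
    intro a b w
    induction w with
    | nil => rintro rfl x y h; simp [o] at h
    | @cons a c b h w ih =>
      rintro rfl x y ha
      obtain ⟨hne, hcm⟩ := h
      obtain ⟨c, hc'⟩ := c
      obtain ⟨a, ha'⟩ := a
      simp only at ha hcm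
      subst ha
      rcases c with g | ⟨x', y'⟩ | _
      · refine ⟨0, by simp; positivity, ?_⟩
        cases g with
        | r i =>
          simp only [up, pu, act, S.p.injEq] at hcm
          obtain rfl : i = 0 := by simpa using hcm.1
          exact absurd h1 hc'
        | sr i =>
          simp only [up, pu, act, S.p.injEq, inv_sr] at hcm
          push_cast
          linear_combination hcm.1 + hcm.2
      · obtain ⟨k, hk, hk2⟩ := ih rfl x' y' rfl
        simp only [pp] at hcm
        split_ifs at hcm with n1 n2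
        · rw [abs_le] at hk
          simp only [SimpleGraph.Walk.length_cons, abs_le]
          rcases n1 with n1 | n1 | n1 <;> rcases n2 with n2 | n2 | n2
          exacts [⟨-k, by omega, by push_cast; first | linear_combination -hk2 - 2 * n1 - 2 * n2 | linear_combination -hk2 - 2 * n1 + 2 * n2 | linear_combination -hk2 + 2 * n1 - 2 * n2 | linear_combination -hk2 + 2 * n1 + 2 * n2⟩, ⟨-k - 1, by omega, by push_cast; first | linear_combination -hk2 - 2 * n1 - 2 * n2 | linear_combination -hk2 - 2 * n1 + 2 * n2 | linear_combination -hk2 + 2 * n1 - 2 * n2 | linear_combination -hk2 + 2 * n1 + 2 * n2⟩,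
            ⟨-k + 1, by omega, by push_cast; first | linear_combination -hk2 - 2 * n1 - 2 * n2 | linear_combination -hk2 - 2 * n1 + 2 * n2 | linear_combination -hk2 + 2 * n1 - 2 * n2 | linear_combination -hk2 + 2 * n1 + 2 * n2⟩, ⟨-k - 1, by omega, by push_cast; first | linear_combination -hk2 - 2 * n1 - 2 * n2 | linear_combination -hk2 - 2 * n1 + 2 * n2 | linear_combination -hk2 + 2 * n1 - 2 * n2 | linear_combination -hk2 + 2 * n1 + 2 * n2⟩,
            ⟨-k - 2, by omega, by push_cast; first | linear_combination -hk2 - 2 * n1 - 2 * n2 | linear_combination -hk2 - 2 * n1 + 2 * n2 | linear_combination -hk2 + 2 * n1 - 2 * n2 | linear_combination -hk2 + 2 * n1 + 2 * n2⟩, ⟨-k, by omega, by push_cast; first | linear_combination -hk2 - 2 * n1 - 2 * n2 | linear_combination -hk2 - 2 * n1 + 2 * n2 | linear_combination -hk2 + 2 * n1 - 2 * n2 | linear_combination -hk2 + 2 * n1 + 2 * n2⟩,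
            ⟨-k + 1, by omega, by push_cast; first | linear_combination -hk2 - 2 * n1 - 2 * n2 | linear_combination -hk2 - 2 * n1 + 2 * n2 | linear_combination -hk2 + 2 * n1 - 2 * n2 | linear_combination -hk2 + 2 * n1 + 2 * n2⟩, ⟨-k, by omega, by push_cast; first | linear_combination -hk2 - 2 * n1 - 2 * n2 | linear_combination -hk2 - 2 * n1 + 2 * n2 | linear_combination -hk2 + 2 * n1 - 2 * n2 | linear_combination -hk2 + 2 * n1 + 2 * n2⟩,
            ⟨-k + 2, by omega, by push_cast; first | linear_combination -hk2 - 2 * n1 - 2 * n2 | linear_combination -hk2 - 2 * n1 + 2 * n2 | linear_combination -hk2 + 2 * n1 - 2 * n2 | linear_combination -hk2 + 2 * n1 + 2 * n2⟩]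
        · simp only [S.p.injEq] at hcm
          exact absurd (Subtype.ext (by simp only [hcm.1, hcm.2])) hne
      · exact absurd hz hc'
  refine le_trans ?_ (SimpleGraph.edist_le_ediam (u := ⟨_, hp (2 * D + 1) 0⟩) (v := o))
  obtain ⟨w, hw⟩ := hcon.exists_walk_length_eq_edist ⟨_, hp (2 * D + 1) 0⟩ o
  rw [← hw, Nat.cast_le]
  by_contra hlt
  obtain ⟨k, hk, hk2⟩ := key _ _ w rfl _ _ rfl
  rw [abs_le] at hk
  exact cast (2 * (2 * D + 1 - k)) (by push_cast; linear_combination hk2) (by omega) (by omega)

end Pool.Agent.H14.CommDiam
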