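import Mathlib

namespace Pool.Agent.H14.CommPGL

open Matrix

/-- the commuting graph on the non-central elements -/
def commGraph (G : Type) [Group G] : SimpleGraph {x : G // x ∉ Subgroup.center G} where
  Adj x y := x ≠ y ∧ x.1 * y.1 = y.1 * x.1
  symm := ⟨fun _ _ h => ⟨h.1.symm, h.2.symm⟩⟩
  loopless := ⟨fun _ h => h.1 rfl⟩

variable {p : ℕ} [Fact p.Prime]

def eps (w : ZMod p) : ZMod p := if Even w.val then 0 else 1

def col (a b c d : ZMod p) : ZMod p :=
  if b ≠ 0 then (a + d) / b + (a - d) / (2 * b) + eps (c / b + ((a - d) / (2 * b)) ^ 2)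
  else if a - d ≠ 0 then (a + d) / (a - d) - c / (a - d) + 2 else (a + d) / c

theorem two_ne (hp : p ≠ 2) : (2 : ZMod p) ≠ 0 := by
  intro h
  have : (p : ℕ) ∣ 2 := (ZMod.natCast_eq_zero_iff 2 p).1 (by exact_mod_cast h)
  exact hp ((Nat.prime_dvd_prime_iff_eq Fact.out Nat.prime_two).1 this)

theorem par (hp : p ≠ 2) {w w' e e' : ZMod p} (hw : w ≠ 0) (hw' : w' ≠ 0)
    (h : w + w' = (e - e') ^ 2) : e + eps w ≠ e' + eps w' := by
  intro hc
  have hodd : p % 2 = 1 := Nat.odd_iff.1 ((Fact.out : p.Prime).odd_of_ne_two hp)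
  have h1 : w.val ≠ 0 := by rwa [Ne, ZMod.val_eq_zero]
  have h2 : w'.val ≠ 0 := by rwa [Ne, ZMod.val_eq_zero]
  have h3 := ZMod.val_lt w
  have h4 := ZMod.val_lt w'
  have h5 := ZMod.val_add w w'
  have h6 : (w.val + w'.val) % p = w.val + w'.val ∨ (w.val + w'.val) % p + p = w.val + w'.val := by
    rcases lt_or_ge (w.val + w'.val) p with h | h
    · exact Or.inl (Nat.mod_eq_of_lt h)
    · right
      rw [Nat.mod_eq_sub_mod h, Nat.mod_eq_of_lt (by omega)]; omega
  unfold eps at hc
  split_ifs at hc with a1 a2 a2 <;> rw [Nat.even_iff] at a1 a2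
  · have : w + w' = 0 := by rw [h]; linear_combination (e - e') * hc
    rw [this, ZMod.val_zero] at h5; omega
  · have : w + w' = 1 := by rw [h]; linear_combination (e - e' + 1) * hc
    rw [this, ZMod.val_one] at h5; omega
  · have : w + w' = 1 := by rw [h]; linear_combination (e - e' - 1) * hc
    rw [this, ZMod.val_one] at h5; omega
  · have : w + w' = 0 := by rw [h]; linear_combination (e - e') * hc
    rw [this, ZMod.val_zero] at h5; omega

theorem eps_cases (w : ZMod p) : eps w = 0 ∨ eps w = 1 := by unfold eps; split_ifs <;> simp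

theorem anti (hp : p ≠ 2) {a b c a' b' c' : ZMod p} (hd : a * a + b * c ≠ 0)
    (hd' : a' * a' + b' * c' ≠ 0) (h : 2 * a * a' + b * c' + b' * c = 0) :
    col a b c (-a) ≠ col a' b' c' (-a') := by
  have h2 := two_ne hp
  have key : ∀ {a b c a' c' : ZMod p}, b ≠ 0 → a' ≠ 0 → 2 * a * a' + b * c' = 0 →
      col a b c (-a) ≠ col a' 0 c' (-a') := by
    intro a b c a' c' hb ha h hc
    have h3 : a' - -a' ≠ 0 := by rw [sub_neg_eq_add, ← two_mul]; exact mul_ne_zero h2 ha
    simp only [col, hb, h3, ne_eq, not_false_eq_true, not_true_eq_false, if_true, if_false,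
      add_neg_cancel, zero_div, zero_add, zero_sub] at hc
    have h4 : (a - -a) / (2 * b) = -(c' / (a' - -a')) := by
      rw [sub_neg_eq_add, sub_neg_eq_add, ← two_mul, ← two_mul]
      field_simp
      linear_combination h
    rw [h4, add_right_inj] at hc
    rcases eps_cases (c / b + (-(c' / (a' - -a'))) ^ 2) with e | e <;> rw [e] at hc
    · exact h2 hc.symm
    · exact one_ne_zero (α := ZMod p) (by linear_combination -hc)
  by_cases hb : b = 0 <;> by_cases hb' : b' = 0
  · subst hb hb'
    simp only [zero_mul, add_zero, ne_eq, mul_eq_zero, or_self] at hd hd' h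
    tauto
  · subst hb
    exact (key hb' (by simpa using hd) (by linear_combination h)).symm
  · subst hb'
    exact key hb (by simpa using hd') (by linear_combination h)
  · simp only [col, hb, hb', ne_eq, not_false_eq_true, if_true, add_neg_cancel, zero_div, zero_add]
    have e1 : ∀ {a b : ZMod p}, (a - -a) / (2 * b) = a / b := by
      intro a b
      rw [sub_neg_eq_add, ← two_mul, mul_div_mul_left _ _ h2]
    rw [e1, e1]
    refine par hp ?_ ?_ ?_
    · intro h0; apply hd; field_simp at h0; linear_combination h0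
    · intro h0; apply hd'; field_simp at h0; linear_combination h0
    · field_simp; linear_combination (b * b') * h

theorem comm {a b c d a' b' c' d' : ZMod p} (hp : p ≠ 2) (ns : ¬ (b = 0 ∧ c = 0 ∧ a - d = 0))
    (ns' : ¬ (b' = 0 ∧ c' = 0 ∧ a' - d' = 0)) (h1 : b * c' = b' * c)
    (h2 : (a - d) * b' = (a' - d') * b) (h3 : (a - d) * c' = (a' - d') * c)
    (hc : col a b c d = col a' b' c' d') :
    ∃ m, a' = m * a ∧ b' = m * b ∧ c' = m * c ∧ d' = m * d := by
  have t2 := two_ne hp
  have fin : ∀ m, b' = m * b → c' = m * c → a' - d' = m * (a - d) → a' + d' = m * (a + d) →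
      ∃ m, a' = m * a ∧ b' = m * b ∧ c' = m * c ∧ d' = m * d := fun m e1 e2 e3 e4 =>
    ⟨m, mul_left_cancel₀ t2 (by linear_combination e3 + e4), e1, e2,
      mul_left_cancel₀ t2 (by linear_combination e4 - e3)⟩
  by_cases hb : b = 0
  · have hb' : b' = 0 := by
      by_contra hb'
      subst hb
      simp only [zero_mul, mul_zero, zero_eq_mul, mul_eq_zero, hb', false_or, or_false] at h1 h2
      exact ns ⟨rfl, h1, h2⟩
    subst hb hb'
    by_cases hy : a - d = 0
    · have hc0 : c ≠ 0 := fun h => ns ⟨rfl, h, hy⟩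
      have hy' : a' - d' = 0 := by
        rw [hy, zero_mul] at h3
        exact (mul_eq_zero.1 h3.symm).resolve_right hc0
      have hc0' : c' ≠ 0 := fun h => ns' ⟨rfl, h, hy'⟩
      simp only [col, hy, hy', ne_eq, not_true_eq_false, if_false] at hc
      refine fin (c' / c) (by simp) (by field_simp) (by rw [hy, hy', mul_zero]) ?_
      field_simp at hc ⊢
      linear_combination -hc
    · have hy' : a' - d' ≠ 0 := by
        intro hy'
        rw [hy', zero_mul] at h3
        exact ns' ⟨rfl, (mul_eq_zero.1 h3).resolve_left hy, hy'⟩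
      simp only [col, hy, hy', ne_eq, not_true_eq_false, not_false_eq_true, if_false,
        if_true] at hc
      refine fin ((a' - d') / (a - d)) (by simp) (by field_simp; linear_combination h3)
        (by field_simp) ?_
      field_simp at hc ⊢
      linear_combination -hc + h3
  · have hb' : b' ≠ 0 := by
      intro hb'
      subst hb'
      simp only [zero_mul, mul_zero, zero_eq_mul, mul_eq_zero, hb, false_or, or_false] at h1 h2
      exact ns' ⟨rfl, h1, h2⟩
    have e1 : c' / b' = c / b := by field_simp; linear_combination h1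
    have e2 : (a' - d') / (2 * b') = (a - d) / (2 * b) := by field_simp; linear_combination -h2
    simp only [col, hb, hb', ne_eq, not_false_eq_true, if_true, e1, e2, add_left_inj] at hc
    refine fin (b' / b) (by field_simp) (by field_simp; linear_combination h1)
      (by field_simp; linear_combination -h2) ?_
    field_simp at hc ⊢
    linear_combination -hc

abbrev GLp (p : ℕ) := GL (Fin 2) (ZMod p)

abbrev PG (p : ℕ) := ProjGenLinGroup (Fin 2) (ZMod p)

theorem mk_iff (M N : GLp p) :
    ProjGenLinGroup.mk M = ProjGenLinGroup.mk N ↔ ∃ u : ZMod p, ∀ i j, N i j = u * M i j := by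
  rw [ProjGenLinGroup.mk_eq_mk_iff]
  constructor
  · rintro ⟨u, rfl⟩
    exact ⟨u, fun i j => by simp [mul_comm]⟩
  · rintro ⟨u, hu⟩
    have h0 : u ≠ 0 := by
      rintro rfl
      have := N.det_ne_zero
      rw [det_fin_two] at this
      simp [hu] at this
    refine ⟨Units.mk0 u h0, ?_⟩
    ext i j
    simp [hu, mul_comm]

def colM (M : GLp p) : ZMod p := col (M 0 0) (M 0 1) (M 1 0) (M 1 1)

theorem ns {M : GLp p} (h : ProjGenLinGroup.mk M ≠ 1) :
    ¬ (M 0 1 = 0 ∧ M 1 0 = 0 ∧ M 0 0 - M 1 1 = 0) := by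
  rintro ⟨h1, h2, h3⟩
  apply h
  rw [← ProjGenLinGroup.mk_one, eq_comm, mk_iff]
  refine ⟨M 0 0, fun i j => ?_⟩
  fin_cases i <;> fin_cases j <;> simp [h1, h2, sub_eq_zero.1 h3]

theorem proper (hp : p ≠ 2) {M N : GLp p} (hM : ProjGenLinGroup.mk M ≠ 1)
    (hN : ProjGenLinGroup.mk N ≠ 1)
    (h : ProjGenLinGroup.mk M * ProjGenLinGroup.mk N = ProjGenLinGroup.mk N * ProjGenLinGroup.mk M)
    (hc : colM M = colM N) : ProjGenLinGroup.mk M = ProjGenLinGroup.mk N := by
  rw [← map_mul, ← map_mul, mk_iff] at h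
  obtain ⟨u, hu⟩ := h
  have e00 := hu 0 0
  have e01 := hu 0 1
  have e10 := hu 1 0
  have e11 := hu 1 1
  simp only [Units.val_mul, mul_apply, Fin.sum_univ_two] at e00 e01 e10 e11
  have dM := M.det_ne_zero
  have dN := N.det_ne_zero
  rw [det_fin_two] at dM dN
  have nM := ns hM
  have nN := ns hN
  rw [mk_iff]
  unfold colM at hc
  have hall : ∀ m, N 0 0 = m * M 0 0 ∧ N 0 1 = m * M 0 1 ∧ N 1 0 = m * M 1 0 ∧ N 1 1 = m * M 1 1 →
      ∀ i j, N i j = m * M i j := by
    rintro m ⟨h1, h2, h3, h4⟩ i j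
    fin_cases i <;> fin_cases j <;> assumption
  generalize M 0 0 = a, M 0 1 = b, M 1 0 = c, M 1 1 = d, N 0 0 = a', N 0 1 = b', N 1 0 = c',
    N 1 1 = d' at *
  have hu2 : (u - 1) * (u + 1) = 0 := by
    have : (a * d - b * c) * (a' * d' - b' * c') * ((u - 1) * (u + 1)) = 0 := by
      linear_combination -(c' * b + d' * d) * e00 - u * (a * a' + b * c') * e11 +
        (c' * a + d' * c) * e01 + u * (a * b' + b * d') * e10
    exact (mul_eq_zero.1 this).resolve_left (mul_ne_zero dM dN)
  rcases mul_eq_zero.1 hu2 with h | h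
  · have : u = 1 := by linear_combination h
    subst this
    obtain ⟨m, hm⟩ := comm hp nM nN (by linear_combination -e00) (by linear_combination -e01)
      (by linear_combination e10) hc
    exact ⟨m, hall m hm⟩
  · have : u = -1 := by linear_combination h
    subst this
    have t2 := two_ne hp
    have s1 : a' + d' = 0 := by
      have : (a * d - b * c) * (2 * (a' + d')) = 0 := by
        linear_combination d * e00 - c * e01 - b * e10 + a * e11
      exact (mul_eq_zero.1 ((mul_eq_zero.1 this).resolve_left dM)).resolve_left t2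
    have s2 : a + d = 0 := by
      have : (a' * d' - b' * c') * (2 * (a + d)) = 0 := by
        linear_combination d' * e00 - c' * e01 - b' * e10 + a' * e11
      exact (mul_eq_zero.1 ((mul_eq_zero.1 this).resolve_left dN)).resolve_left t2
    obtain rfl : d' = -a' := by linear_combination s1
    obtain rfl : d = -a := by linear_combination s2
    exact absurd hc (anti hp (fun h => dM (by linear_combination -h))
      (fun h => dN (by linear_combination -h)) (by linear_combination e00))

theorem main0 (hp : p ≠ 2) (k : ℕ) [NeZero k] : ∃ (G : Type) (_ : Group G), Finite G ∧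
    (∃ a b : G, a * b ≠ b * a) ∧ (commGraph G).cliqueNum = k * p ∧
      (commGraph G).chromaticNumber = (k * p : ℕ) := by
  classical
  have fin : Finite (PG p) := Finite.of_surjective _ ProjGenLinGroup.mk_surjective
  obtain ⟨n, hn⟩ := FiniteField.exists_nonsquare (F := ZMod p) (by rwa [ZMod.ringChar_zmod_n])
  have hn0 : n ≠ 0 := by rintro rfl; exact hn IsSquare.zero
  let T : ZMod p → GLp p := fun t => GeneralLinearGroup.mkOfDetNeZero !![t, 1; n, t] (by
    rw [det_fin_two_of]; intro h; exact hn ⟨t, by linear_combination -h⟩)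
  let U : GLp p := GeneralLinearGroup.mkOfDetNeZero !![1, 1; 0, 1] (by simp [det_fin_two_of])
  have hT : ∀ t, (T t : Matrix (Fin 2) (Fin 2) (ZMod p)) = !![t, 1; n, t] := fun _ => rfl
  have hU : (U : Matrix (Fin 2) (Fin 2) (ZMod p)) = !![1, 1; 0, 1] := rfl
  have nc : ∀ t, ProjGenLinGroup.mk U * ProjGenLinGroup.mk (T t) ≠
      ProjGenLinGroup.mk (T t) * ProjGenLinGroup.mk U := by
    intro t h
    rw [← map_mul, ← map_mul, mk_iff] at h
    obtain ⟨u, hu⟩ := h
    have e00 := hu 0 0
    have e10 := hu 1 0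
    simp [hT, hU, mul_apply, Fin.sum_univ_two, hn0] at e00 e10
    subst e10
    exact hn0 (by linear_combination -e00)
  let G := Multiplicative (ZMod k) × PG p
  let v : Multiplicative (ZMod k) × ZMod p → {x : G // x ∉ Subgroup.center G} := fun q =>
    ⟨(q.1, ProjGenLinGroup.mk (T q.2)), fun h => nc q.2 (congrArg Prod.snd
      (Subgroup.mem_center_iff.1 h (1, ProjGenLinGroup.mk U)))⟩
  have vinj : Function.Injective v := by
    rintro ⟨c, t⟩ ⟨c', t'⟩ h
    obtain ⟨h1, h2⟩ := Prod.mk.inj (congrArg Subtype.val h)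
    obtain ⟨u, hu⟩ := (mk_iff _ _).1 h2
    have e00 := hu 0 0
    have e01 := hu 0 1
    simp [hT] at e00 e01
    subst e01
    have h1' : c = c' := h1
    rw [h1', e00, one_mul]
  have hcl : (commGraph G).IsClique (Finset.univ.image v : Finset _) := by
    intro x hx y hy hxy
    obtain ⟨⟨c, t⟩, -, rfl⟩ := Finset.mem_image.1 hx
    obtain ⟨⟨c', t'⟩, -, rfl⟩ := Finset.mem_image.1 hy
    refine ⟨hxy, Prod.ext (mul_comm _ _) ?_⟩
    change ProjGenLinGroup.mk (T t) * ProjGenLinGroup.mk (T t') =
      ProjGenLinGroup.mk (T t') * ProjGenLinGroup.mk (T t)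
    rw [← map_mul, ← map_mul]
    congr 1
    ext i j
    fin_cases i <;> fin_cases j <;> simp [hT, mul_apply, Fin.sum_univ_two] <;> ring
  have hcard : (Finset.univ.image v).card = k * p := by
    rw [Finset.card_image_of_injective _ vinj]; simp
  choose r hr using ProjGenLinGroup.mk_surjective (n := Fin 2) (R := ZMod p)
  have hne : ∀ x : {x : G // x ∉ Subgroup.center G}, ProjGenLinGroup.mk (r x.1.2) ≠ 1 := by
    rintro ⟨⟨c, g⟩, hx⟩ h
    rw [hr] at h
    apply hx
    simp only at h
    subst h
    exact Subgroup.mem_center_iff.2 fun y => Prod.ext (mul_comm _ _) ((mul_one y.2).trans (one_mul y.2).symm)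
  let C : (commGraph G).Coloring (Multiplicative (ZMod k) × ZMod p) :=
    SimpleGraph.Coloring.mk (fun x => (x.1.1, colM (r x.1.2))) (by
      rintro x y ⟨h1, h2⟩ h
      obtain ⟨h3, h4⟩ := Prod.mk.inj h
      have := proper hp (hne x) (hne y) (by rw [hr, hr]; exact congrArg Prod.snd h2) h4
      rw [hr, hr] at this
      exact h1 (Subtype.ext (Prod.ext h3 this)))
  have up : (commGraph G).chromaticNumber ≤ (k * p : ℕ) := by
    simpa using C.colorable.chromaticNumber_le
  have lo : k * p ≤ (commGraph G).cliqueNum := hcard ▸ hcl.card_le_cliqueNum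
  have mid := SimpleGraph.cliqueNum_le_chromaticNumber (G := commGraph G)
  refine ⟨G, inferInstance, inferInstance, ⟨(1, ProjGenLinGroup.mk U),
    (1, ProjGenLinGroup.mk (T 0)), fun h => nc 0 (congrArg Prod.snd h)⟩, ?_, ?_⟩
  · exact le_antisymm (by exact_mod_cast mid.trans up) lo
  · exact le_antisymm up (le_trans (by exact_mod_cast lo) mid)

theorem main (n : ℕ) (hn : 0 < n) : ∃ (G : Type) (_ : Group G), Finite G ∧
    (∃ a b : G, a * b ≠ b * a) ∧ (commGraph G).cliqueNum = 2 * n + 1 ∧
      (commGraph G).chromaticNumber = (2 * n + 1 : ℕ) := by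
  obtain ⟨p, hp, k, hk⟩ := Nat.exists_prime_and_dvd (n := 2 * n + 1) (by omega)
  have : Fact p.Prime := ⟨hp⟩
  have : NeZero k := ⟨by rintro rfl; omega⟩
  rw [hk, mul_comm p k]
  exact main0 (by rintro rfl; omega) k

end Pool.Agent.H14.CommPGL
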