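import Mathlib

set_option autoImplicit false

namespace Pool.Agent.H14.Comp

open Filter Topology

def sh (j : ℤ) (x : ℤ → ℕ) : ℤ → ℕ := fun i => x (i + j)

lemma sh_sh (i j : ℤ) (x : ℤ → ℕ) : sh i (sh j x) = sh (i + j) x := by
  funext k
  simp [sh, add_assoc]

lemma iter (j : ℕ) (x : ℤ → ℕ) : (fun (z : ℤ → ℕ) (m : ℤ) => z (m + 1))^[j] x = sh j x := by
  induction j with
  | zero => funext i; simp [sh]
  | succ j ih =>
    rw [Function.iterate_succ_apply', ih]
    funext i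
    simp only [sh]
    congr 1
    push_cast
    ring

def T (m : ℕ) : ℕ := m * 3 ^ m + 1

lemma T_mono : StrictMono T := strictMono_nat_of_lt_succ fun m => by
  unfold T
  have : 0 < 3 ^ m := by positivity
  rw [pow_succ]
  nlinarith

lemma T_pos (m : ℕ) : (0 : ℤ) < T m := by unfold T; positivity

def g (m c : ℕ) : ℕ := if c = 0 then 3 else (c - 1) / m / 3 ^ ((c - 1) % m) % 3

def p (m : ℕ) (i : ℤ) : ℕ := g m (i % T m).toNat

lemma p_eq (m : ℕ) (i : ℤ) : p m i = 3 ↔ (T m : ℤ) ∣ i := by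
  have h := Int.emod_nonneg i (T_pos m).ne'
  unfold p g
  rw [Int.dvd_iff_emod_eq_zero]
  split_ifs with h1 <;> omega

lemma p_lt (m : ℕ) (i : ℤ) : p m i < 4 := by
  unfold p g
  split_ifs <;> omega

lemma p_mod (m : ℕ) (j : ℤ) : sh (j % T m) (p m) = sh j (p m) := by
  funext i
  simp [sh, p]

def O (m : ℕ) : Set (ℤ → ℕ) := Set.range fun j => sh j (p m)

lemma O_fin (m : ℕ) : (O m).Finite := by
  refine ((Set.finite_Ico (0 : ℤ) (T m)).image fun j => sh j (p m)).subset ?_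
  rintro _ ⟨j, rfl⟩
  exact ⟨j % T m, ⟨Int.emod_nonneg _ (T_pos m).ne', Int.emod_lt_of_pos _ (T_pos m)⟩, p_mod m j⟩

def XS (S : Set ℕ) : Set (ℤ → ℕ) :=
  {x | (∃ m ∈ S, x ∈ O m) ∨ ((∀ i, x i < 4) ∧ ∀ i i', x i = 3 → x i' = 3 → i = i')}

lemma XS_lt {S : Set ℕ} {x : ℤ → ℕ} (hx : x ∈ XS S) (i : ℤ) : x i < 4 := by
  rcases hx with ⟨m, -, j, rfl⟩ | h
  · exact p_lt _ _
  · exact h.1 i

lemma XS_sh {S : Set ℕ} {x : ℤ → ℕ} (hx : x ∈ XS S) (j : ℤ) : sh j x ∈ XS S := by
  rcases hx with ⟨m, hm, k, rfl⟩ | h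
  · exact Or.inl ⟨m, hm, j + k, (sh_sh _ _ _).symm⟩
  · exact Or.inr ⟨fun i => h.1 _, fun i i' h1 h2 => add_right_cancel (h.2 _ _ h1 h2)⟩

lemma XS_closed (S : Set ℕ) : IsClosed (XS S) := by
  refine isClosed_of_closure_subset fun x hx => ?_
  by_cases h : ∀ i i', x i = 3 → x i' = 3 → i = i'
  · refine Or.inr ⟨fun i => ?_, h⟩
    exact closure_minimal (t := {y : ℤ → ℕ | y i < 4}) (fun y hy => XS_lt hy i)
      ((isClosed_discrete {a : ℕ | a < 4}).preimage
        (continuous_apply (A := fun _ : ℤ => ℕ) i)) hx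
  · push Not at h
    obtain ⟨i, i', h1, h2, h3⟩ := h
    have hU : IsOpen {y : ℤ → ℕ | y i = 3 ∧ y i' = 3} :=
      ((isOpen_discrete {3}).preimage (continuous_apply i)).inter
        ((isOpen_discrete {3}).preimage (continuous_apply i'))
    have hF : (⋃ m ∈ S ∩ Set.Iic (i - i').natAbs, O m).Finite :=
      ((Set.finite_Iic _).subset Set.inter_subset_right).biUnion fun m _ => O_fin m
    have h4 := closure_minimal (t := ⋃ m ∈ S ∩ Set.Iic (i - i').natAbs, O m) ?_ hF.isClosed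
      (hU.inter_closure ⟨⟨h1, h2⟩, hx⟩)
    · simp only [Set.mem_iUnion] at h4
      obtain ⟨m, hm, h5⟩ := h4
      exact Or.inl ⟨m, hm.1, h5⟩
    · rintro y ⟨⟨h5, h6⟩, ⟨m, hm, j, rfl⟩ | h7⟩
      · simp only [Set.mem_iUnion]
        refine ⟨m, ⟨hm, ?_⟩, j, rfl⟩
        have h8 := dvd_sub ((p_eq _ _).1 h5) ((p_eq _ _).1 h6)
        rw [add_sub_add_right_eq_sub, Int.natCast_dvd] at h8
        exact (T_mono.le_apply).trans (Nat.le_of_dvd (by omega) h8)
      · exact absurd (h7.2 _ _ h5 h6) h3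

lemma XS_compact (S : Set ℕ) : IsCompact (XS S) :=
  (isCompact_univ_pi fun _ : ℤ => (Set.finite_Iio 4).isCompact).of_isClosed_subset (XS_closed S)
    fun _ hx i _ => XS_lt hx i

def pr (x : ℤ → ℕ) : ℤ → ℕ := fun i => if x i = 3 then 3 else 0

lemma pr_cont : Continuous pr :=
  continuous_pi fun i => (continuous_of_discreteTopology (f := fun a : ℕ =>
    if a = 3 then 3 else 0)).comp (continuous_apply i)

lemma pr_eq (x : ℤ → ℕ) (i : ℤ) : pr x i = 3 ↔ x i = 3 := by
  unfold pr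
  split_ifs with h <;> simp [h]

lemma disj {m : ℕ} {x : ℤ → ℕ} (hx : x ∈ XS {m}ᶜ) : pr x ∉ pr '' O m := by
  rintro ⟨_, ⟨j, rfl⟩, h⟩
  have h1 : ∀ i, x i = 3 ↔ (T m : ℤ) ∣ i + j := fun i => by
    rw [← pr_eq, ← h, pr_eq]
    exact p_eq _ _
  rcases hx with ⟨l, hl, k, rfl⟩ | h2
  · have h2 : ∀ i, (T l : ℤ) ∣ i + k ↔ (T m : ℤ) ∣ i + j := fun i => (p_eq _ _).symm.trans (h1 i)
    have h3 := dvd_sub ((h2 (T m - j)).2 (by simp)) ((h2 (-j)).2 (by simp))
    have h4 := dvd_sub ((h2 (T l - k)).1 (by simp)) ((h2 (-k)).1 (by simp))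
    rw [show (T m : ℤ) - j + k - (-j + k) = T m by ring, Int.natCast_dvd_natCast] at h3
    rw [show (T l : ℤ) - k + j - (-k + j) = T l by ring, Int.natCast_dvd_natCast] at h4
    exact hl (T_mono.injective (Nat.dvd_antisymm h3 h4))
  · have := h2.2 _ _ ((h1 (T m - j)).2 (by simp)) ((h1 (-j)).2 (by simp))
    linarith [T_pos m]

noncomputable def Z (X : Set (ℤ → ℕ)) (f : (ℤ → ℕ) → ℝ) (n : ℕ) : ℝ :=
  ∑ w : Fin n → Fin 4, sSup ((fun x => Real.exp (∑ j ∈ Finset.range n, f (sh j x))) ''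
    {x | x ∈ X ∧ ∀ i : Fin n, x ((i : ℕ) : ℤ) = (w i : ℕ)})

lemma Z_ge {X : Set (ℤ → ℕ)} {f : (ℤ → ℕ) → ℝ} {n : ℕ} {M : ℝ}
    (hM : ∀ x ∈ X, ∀ j, f (sh j x) ≤ M) {ι : Type} [Fintype ι] (x : ι → ℤ → ℕ)
    (w : ι → Fin n → Fin 4) (hw : Function.Injective w) (hx : ∀ r, x r ∈ X)
    (hxw : ∀ r (i : Fin n), x r ((i : ℕ) : ℤ) = (w r i : ℕ)) :
    ∑ r, Real.exp (∑ j ∈ Finset.range n, f (sh j (x r))) ≤ Z X f n := by
  classical
  unfold Z
  refine le_trans ?_ (Finset.sum_le_sum_of_subset_of_nonneg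
    (Finset.subset_univ (Finset.univ.image w)) fun v _ _ => Real.sSup_nonneg ?_)
  · rw [Finset.sum_image fun a _ b _ h => hw h]
    refine Finset.sum_le_sum fun r _ => le_csSup ⟨Real.exp (∑ _j ∈ Finset.range n, M), ?_⟩
      ⟨x r, ⟨hx r, hxw r⟩, rfl⟩
    rintro _ ⟨y, hy, rfl⟩
    exact Real.exp_le_exp.2 (Finset.sum_le_sum fun j _ => hM y hy.1 j)
  · rintro _ ⟨y, -, rfl⟩
    exact (Real.exp_pos _).le

lemma Z_le {X : Set (ℤ → ℕ)} {f : (ℤ → ℕ) → ℝ} {n : ℕ} {a b : ℝ} (ha : 0 ≤ a) (hb : 0 ≤ b)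
    (W : Finset (Fin n → Fin 4))
    (h : ∀ x ∈ X, ∀ w : Fin n → Fin 4, (∀ i : Fin n, x ((i : ℕ) : ℤ) = (w i : ℕ)) →
      Real.exp (∑ j ∈ Finset.range n, f (sh j x)) ≤ a ∨
        (w ∈ W ∧ Real.exp (∑ j ∈ Finset.range n, f (sh j x)) ≤ b)) :
    Z X f n ≤ 4 ^ n * a + W.card * b := by
  calc Z X f n ≤ ∑ w : Fin n → Fin 4, (a + if w ∈ W then b else 0) := by
        refine Finset.sum_le_sum fun w _ => Real.sSup_le ?_ (by split_ifs <;> positivity)
        rintro _ ⟨x, hx, rfl⟩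
        rcases h x hx.1 w hx.2 with h1 | h1
        · refine h1.trans ?_
          split_ifs <;> linarith
        · rw [if_pos h1.1]
          linarith [h1.2]
    _ = _ := by simp [Finset.sum_add_distrib]

def wd (n : ℕ) (x : ℤ → ℕ) : Fin n → Fin 4 := fun i => ⟨x ((i : ℕ) : ℤ) % 4, by omega⟩

lemma Z_one {X : Set (ℤ → ℕ)} {f : (ℤ → ℕ) → ℝ} (n : ℕ) {M : ℝ}
    (hM : ∀ x ∈ X, ∀ j, f (sh j x) ≤ M) {x : ℤ → ℕ} (hx : x ∈ X) (h4 : ∀ i, x i < 4) :
    Real.exp (∑ j ∈ Finset.range n, f (sh j x)) ≤ Z X f n := by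
  have := Z_ge (n := n) hM (ι := Unit) (fun _ => x) (fun _ => wd n x)
    (fun _ _ _ => rfl) (fun _ => hx) fun _ i => (Nat.mod_eq_of_lt (h4 _)).symm
  simpa using this

lemma up {a : ℕ → ℝ} {L r : ℝ} (h : Tendsto (fun n : ℕ => Real.log (a n) / n) atTop (𝓝 L))
    (hr : 0 < r) (hL : L < Real.log r) : ∀ᶠ n : ℕ in atTop, a n < r ^ n := by
  filter_upwards [h.eventually_lt_const hL, eventually_gt_atTop 0] with n h1 h2
  rw [div_lt_iff₀ (by positivity), mul_comm, ← Real.log_pow] at h1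
  by_contra h3
  exact absurd h1 (not_lt.2 (Real.log_le_log (by positivity) (not_lt.1 h3)))

lemma down {a : ℕ → ℝ} {L r : ℝ} (h : Tendsto (fun n : ℕ => Real.log (a n) / n) atTop (𝓝 L))
    (ha : ∀ n, 0 < a n) (hL : Real.log r < L) : ∀ᶠ n : ℕ in atTop, r ^ n < a n ∨ r ≤ 0 := by
  filter_upwards [h.eventually_const_lt hL, eventually_gt_atTop 0] with n h1 h2
  rw [lt_div_iff₀ (by positivity), mul_comm, ← Real.log_pow] at h1
  by_contra h3
  push Not at h3
  exact absurd h1 (not_lt.2 (Real.log_le_log (ha n) h3.1))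

lemma per_sum (F : (ℤ → ℕ) → ℝ) (m : ℕ) (k : ℤ) :
    ∑ j ∈ Finset.range (T m), F (sh (j + k) (p m)) = ∑ j ∈ Finset.range (T m), F (sh j (p m)) := by
  have step : ∀ k : ℤ, ∑ j ∈ Finset.range (T m), F (sh (j + (k + 1)) (p m)) =
      ∑ j ∈ Finset.range (T m), F (sh (j + k) (p m)) := by
    intro k
    have h1 := Finset.sum_range_succ (fun j : ℕ => F (sh (j + k) (p m))) (T m)
    have h2 := Finset.sum_range_succ' (fun j : ℕ => F (sh (j + k) (p m))) (T m)
    have h3 : sh ((T m : ℤ) + k) (p m) = sh (((0 : ℕ) : ℤ) + k) (p m) := by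
      rw [← p_mod, ← p_mod m (((0 : ℕ) : ℤ) + k)]
      simp
    rw [h1, h3, add_left_inj] at h2
    rw [h2]
    refine Finset.sum_congr rfl fun j _ => ?_
    push_cast
    ring_nf
  induction k using Int.induction_on with
  | zero => simp
  | succ k ih => rw [step, ih]
  | pred k ih => rw [← step, sub_add_cancel, ih]

lemma block_sum (u : ℕ → ℝ) (N l : ℕ) :
    ∑ j ∈ Finset.range (N * l), u j = ∑ r ∈ Finset.range N, ∑ j ∈ Finset.range l, u (r * l + j) := by
  induction N with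
  | zero => simp
  | succ N ih => rw [Nat.succ_mul, Finset.sum_range_add, ih, Finset.sum_range_succ]

def PL (X Y : Set (ℤ → ℕ)) (φ f : (ℤ → ℕ) → ℝ) : Prop :=
  ∃ L : ℝ, Tendsto (fun n : ℕ => Real.log (Z Y φ n) / n) atTop (𝓝 L) ∧
    Tendsto (fun n : ℕ => Real.log (Z X f n) / n) atTop (𝓝 L)

lemma pr_sh (j : ℤ) (x : ℤ → ℕ) : sh j (pr x) = pr (sh j x) := rfl

lemma pr_lt (x : ℤ → ℕ) (i : ℤ) : pr x i < 4 := by
  unfold pr
  split_ifs <;> omega

lemma p_mem (m : ℕ) (j : ℤ) : sh j (p m) ∈ XS Set.univ := Or.inl ⟨m, trivial, j, rfl⟩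

lemma stepB {F : (ℤ → ℕ) → ℝ} {M : ℝ} (hM : ∀ x ∈ XS Set.univ, |F x| ≤ M)
    (h : ∀ φ : (ℤ → ℕ) → ℝ, ContinuousOn φ (pr '' XS Set.univ) →
      PL (XS Set.univ) (pr '' XS Set.univ) φ fun x => φ (pr x) + F x) (m : ℕ) :
    0 ≤ ∑ j ∈ Finset.range (T m), F (sh j (p m)) := by
  classical
  by_contra ha
  push Not at ha
  set a := -∑ j ∈ Finset.range (T m), F (sh j (p m)) with ha'
  have ha0 : 0 < a := by linarith
  have hT : (0 : ℝ) < T m := by exact_mod_cast T_pos m
  have hM0 : 0 ≤ M := (abs_nonneg _).trans (hM _ (p_mem 0 0))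
  set t := M + Real.log 4 + a / T m with ht
  have ht0 : 0 ≤ t := by positivity
  have hsplit : ∀ x ∈ XS Set.univ, x ∈ O m ∨ x ∈ XS {m}ᶜ := by
    rintro x (⟨l, -, hl⟩ | hx)
    · by_cases hlm : l = m
      · exact Or.inl (hlm ▸ hl)
      · exact Or.inr (Or.inl ⟨l, hlm, hl⟩)
    · exact Or.inr (Or.inr hx)
  let φ : (ℤ → ℕ) → ℝ := fun y => if y ∈ pr '' O m then 0 else -t
  have hφ : ∀ y, φ y ≤ 0 := fun y => by
    simp only [φ]
    split_ifs <;> linarith
  obtain ⟨L, h1, h2⟩ := h φ (by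
    refine ContinuousOn.mono (s := pr '' O m ∪ pr '' XS {m}ᶜ)
      (ContinuousOn.union_of_isClosed ((continuousOn_const (c := 0)).congr fun y hy => if_pos hy)
        ((continuousOn_const (c := -t)).congr ?_) ((O_fin m).image _).isClosed
        ((XS_compact _).image pr_cont).isClosed) ?_
    · rintro _ ⟨x, hx, rfl⟩
      exact if_neg (disj hx)
    · rintro _ ⟨x, hx, rfl⟩
      exact (hsplit x hx).imp (Set.mem_image_of_mem _) (Set.mem_image_of_mem _))
  have hO : ∀ k : ℤ, φ (pr (sh k (p m))) = 0 := fun k => if_pos ⟨_, ⟨k, rfl⟩, rfl⟩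
  rcases lt_or_ge L 0 with hL | hL
  · obtain ⟨n, hn⟩ := (up h1 one_pos (by simpa using hL)).exists
    have := Z_one (f := φ) n (fun x _ j => hφ _) (Set.mem_image_of_mem pr (p_mem m 0)) (pr_lt _)
    simp only [pr_sh, sh_sh, hO, Finset.sum_const_zero, Real.exp_zero] at this
    rw [one_pow] at hn
    linarith
  · have h3 := down (r := Real.exp (-a / (2 * T m))) h2 (fun n => (Real.exp_pos _).trans_le
      (Z_one (f := fun x => φ (pr x) + F x) (M := M) n (fun x hx j => by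
        linarith [hφ (pr (sh j x)), (abs_le.1 (hM _ (XS_sh hx j))).2]) (p_mem 0 0)
        (XS_lt (p_mem 0 0)))) (by
        rw [Real.log_exp]
        refine lt_of_lt_of_le ?_ hL
        exact div_neg_of_neg_of_pos (by linarith) (by positivity))
    obtain ⟨N₀, hN₀⟩ := eventually_atTop.1 h3
    obtain ⟨N, hN⟩ := exists_nat_gt (max (N₀ : ℝ) (2 * T m / a))
    have hN1 : N₀ ≤ N * T m := by
      have : N₀ < N := by exact_mod_cast (le_max_left _ _).trans_lt hN
      unfold T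
      nlinarith [Nat.zero_le (N * (m * 3 ^ m))]
    have h4 := (hN₀ _ hN1).resolve_right (not_le.2 (Real.exp_pos _))
    have h5 := Z_le (X := XS Set.univ) (f := fun x => φ (pr x) + F x) (n := N * T m)
      (a := Real.exp ((N * T m : ℕ) * (M - t))) (b := Real.exp (-(N * a))) (Real.exp_pos _).le
      (Real.exp_pos _).le ((Finset.range (T m)).image fun j : ℕ => wd (N * T m) (sh j (p m))) (by
        intro x hx w hw
        rcases hsplit x hx with ⟨k, rfl⟩ | hx'
        · refine Or.inr ⟨Finset.mem_image.2 ⟨(k % T m).toNat, ?_, ?_⟩, le_of_eq ?_⟩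
          · have := Int.emod_lt_of_pos k (T_pos m)
            have := T_pos m
            rw [Finset.mem_range]
            omega
          · rw [Int.toNat_of_nonneg (Int.emod_nonneg _ (T_pos m).ne'), p_mod]
            funext i
            exact Fin.ext ((Nat.mod_eq_of_lt (p_lt _ _)).trans (hw i))
          · simp only [sh_sh, hO, zero_add]
            rw [block_sum]
            congr 1
            rw [Finset.sum_congr rfl (g := fun _ => -a)]
            · simp
            · intro r _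
              rw [ha', neg_neg, ← per_sum F m (r * T m + k)]
              refine Finset.sum_congr rfl fun j _ => ?_
              push_cast
              ring_nf
        · refine Or.inl (Real.exp_le_exp.2 ?_)
          refine (Finset.sum_le_sum (g := fun _ => M - t) fun j _ => ?_).trans
            (by rw [Finset.sum_const, Finset.card_range, nsmul_eq_mul])
          have : φ (pr (sh j x)) = -t := if_neg (disj (XS_sh hx' j))
          linarith [(abs_le.1 (hM _ (XS_sh hx j))).2])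
    have h6 : (((Finset.range (T m)).image fun j : ℕ => wd (N * T m) (sh j (p m))).card : ℝ) ≤
        T m := by exact_mod_cast Finset.card_image_le.trans (Finset.card_range _).le
    have h7 : (4 : ℝ) ^ (N * T m) * Real.exp ((N * T m : ℕ) * (M - t)) = Real.exp (-(N * a)) := by
      rw [← Real.exp_log (x := 4 ^ (N * T m)) (by positivity), ← Real.exp_add, Real.log_pow, ht]
      congr 1
      push_cast
      field_simp
      ring
    have h8 : Real.exp (-a / (2 * T m)) ^ (N * T m) =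
        Real.exp (N * a / 2) * Real.exp (-(N * a)) := by
      rw [← Real.exp_nat_mul, ← Real.exp_add]
      congr 1
      push_cast
      field_simp
      ring
    rw [h7] at h5
    rw [h8] at h4
    have h9 := Real.add_one_le_exp (N * a / 2)
    have h10 := (le_max_right _ _).trans_lt hN
    rw [div_lt_iff₀ ha0] at h10
    have h11 := Real.exp_pos (-(N * a))
    nlinarith

lemma stepC {F : (ℤ → ℕ) → ℝ} {M : ℝ} (hM : ∀ x ∈ XS Set.univ, |F x| ≤ M) (m : ℕ)
    (h : 0 ≤ ∑ j ∈ Finset.range (T m), F (sh j (p m))) :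
    3 ^ m - M ≤ Z (XS Set.univ) F m := by
  have h1 := Z_ge (X := XS Set.univ) (f := F) (n := m) (M := M)
    (fun x hx j => (abs_le.1 (hM _ (XS_sh hx j))).2) (ι := Fin (3 ^ m))
    (fun r => sh (((r : ℕ) * m + 1 : ℕ) : ℤ) (p m))
    (fun r i => (finFunctionFinEquiv.symm r i).castSucc) (fun r r' h => by
      refine finFunctionFinEquiv.symm.injective (funext fun i => ?_)
      exact Fin.castSucc_injective _ (congrFun h i)) (fun r => p_mem _ _) (by
      intro r i
      have hi := i.2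
      have hr := r.2
      have h2 : (i : ℕ) + ((r : ℕ) * m + 1) < T m := by
        unfold T
        nlinarith
      simp only [sh, p, Fin.val_castSucc, finFunctionFinEquiv_symm_apply_val]
      rw [← Nat.cast_add, ← Int.natCast_mod, Int.toNat_natCast, Nat.mod_eq_of_lt h2, g,
        if_neg (by omega), ← add_assoc, Nat.add_sub_cancel, Nat.add_mul_div_right _ _ (by omega),
        Nat.add_mul_mod_self_right, Nat.div_eq_of_lt hi, Nat.mod_eq_of_lt hi, zero_add])
  refine le_trans ?_ (le_trans (Finset.sum_le_sum fun r _ => Real.add_one_le_exp _) h1)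
  rw [Finset.sum_add_distrib, Fin.sum_univ_eq_sum_range
    (fun r : ℕ => ∑ j ∈ Finset.range m, F (sh j (sh ((r * m + 1 : ℕ) : ℤ) (p m))))]
  rw [T, Finset.sum_range_succ', mul_comm m, block_sum] at h
  have h3 := (abs_le.1 (hM _ (p_mem m ((0 : ℕ) : ℤ)))).2
  have h4 : ∑ r ∈ Finset.range (3 ^ m), ∑ j ∈ Finset.range m,
      F (sh j (sh ((r * m + 1 : ℕ) : ℤ) (p m))) = ∑ r ∈ Finset.range (3 ^ m),
      ∑ j ∈ Finset.range m, F (sh ((r * m + j + 1 : ℕ) : ℤ) (p m)) := by
    refine Finset.sum_congr rfl fun r _ => Finset.sum_congr rfl fun j _ => ?_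
    rw [sh_sh]
    push_cast
    ring_nf
  rw [h4]
  simp only [Finset.sum_const, Finset.card_univ, Fintype.card_fin, nsmul_eq_mul, mul_one]
  push_cast at h h3 ⊢
  linarith

lemma main {F : (ℤ → ℕ) → ℝ} (hF : ContinuousOn F (XS Set.univ))
    (h : ∀ φ : (ℤ → ℕ) → ℝ, ContinuousOn φ (pr '' XS Set.univ) →
      PL (XS Set.univ) (pr '' XS Set.univ) φ fun x => φ (pr x) + F x) : False := by
  obtain ⟨M, hM⟩ := (XS_compact _).exists_bound_of_continuousOn hF
  have h1 := fun m => stepC hM m (stepB hM h m)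
  obtain ⟨L, h2, h3⟩ := h (fun _ => 0) continuousOn_const
  simp only [zero_add] at h3
  rcases lt_or_ge L (Real.log (5 / 2)) with hL | hL
  · have h4 := (tendsto_pow_atTop_atTop_of_one_lt (r := (5 / 2 : ℝ)) (by norm_num)).eventually_gt_atTop M
    have h5 := (tendsto_pow_atTop_atTop_of_one_lt (r := (6 / 5 : ℝ)) (by norm_num)).eventually_gt_atTop 2
    obtain ⟨n, h6, h7, h8⟩ := ((up h3 (by norm_num) hL).and (h4.and h5)).exists
    have h9 : (3 : ℝ) ^ n = (5 / 2) ^ n * (6 / 5) ^ n := by rw [← mul_pow]; norm_num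
    have h10 : (0 : ℝ) < (5 / 2) ^ n := by positivity
    have := h1 n
    nlinarith
  · obtain ⟨n, hn⟩ := (down (r := 2) h2 (fun n => (Real.exp_pos _).trans_le
      (Z_one (f := fun _ => 0) n (fun _ _ _ => le_rfl) (Set.mem_image_of_mem pr (p_mem 0 0))
        (pr_lt _))) ((Real.log_lt_log (by norm_num) (by norm_num)).trans_le hL)).exists
    have h4 := Z_le (X := pr '' XS Set.univ) (f := fun _ => 0) (n := n) le_rfl zero_le_one
      (Fintype.piFinset fun _ => {0, 3}) (by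
        rintro _ ⟨x, -, rfl⟩ w hw
        refine Or.inr ⟨Fintype.mem_piFinset.2 fun i => ?_, by simp⟩
        have := hw i
        simp only [pr] at this
        simp only [Finset.mem_insert, Finset.mem_singleton, Fin.ext_iff]
        split_ifs at this <;> simp [← this])
    rw [Fintype.card_piFinset] at h4
    simp at h4
    rcases hn with hn | hn <;> linarith

end Pool.Agent.H14.Comp
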