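import Mathlib

set_option autoImplicit false

namespace Pool.Agent.H14.Compactible

universe u

variable {E : Type u} {n : ℕ}

/-- The restriction of `f` to `X` is a local automorphism of the `n`-ary relation `A`: a bijection
from `X` onto `f '' X` that preserves and reflects `A`. -/
def IsLocAut (A : Set (Fin n → E)) (f : E → E) (X : Set E) : Prop :=
  Set.InjOn f X ∧ ∀ x : Fin n → E, (∀ i, x i ∈ X) → (x ∈ A ↔ f ∘ x ∈ A)

open Classical in
/-- `D` is an interval mod `A`: every local automorphism with domain and range in `D`, extended by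
the identity on the complement of `D`, is a local automorphism. -/
def IsInterval (A : Set (Fin n → E)) (D : Set E) : Prop :=
  ∀ (f : E → E) (X : Set E), X ⊆ D → Set.MapsTo f X D → IsLocAut A f X →
    IsLocAut A (fun e => if e ∈ D then f e else e) (X ∪ Dᶜ)

/-- The complement of every interval is a union of finitely many intervals. -/
def IsCompactible (A : Set (Fin n → E)) : Prop :=
  ∀ D, IsInterval A D → ∃ S : Set (Set E), S.Finite ∧ (∀ I ∈ S, IsInterval A I) ∧ ⋃₀ S = Dᶜ

/-- Working form of the interval property. -/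
def W (A : Set (Fin n → E)) (D : Set E) : Prop :=
  ∀ x y : Fin n → E, (∀ i, x i ∉ D → y i = x i) → (∀ i, x i ∈ D → y i ∈ D) →
    (∀ i j, x i ∈ D → x j ∈ D → (x i = x j ↔ y i = y j)) →
    (∀ σ : Fin n → Fin n, (∀ i, x (σ i) ∈ D) → (x ∘ σ ∈ A ↔ y ∘ σ ∈ A)) → (x ∈ A ↔ y ∈ A)

lemma W_of_interval {A : Set (Fin n → E)} {D : Set E} (h : IsInterval A D) : W A D := by
  classical
  intro x y h1 h2 h3 h4
  let f : E → E := fun e => if he : ∃ i, x i = e then y he.choose else e
  have hf : ∀ i, x i ∈ D → f (x i) = y i := by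
    intro i hi
    have he : ∃ j, x j = x i := ⟨i, rfl⟩
    simp only [f, dif_pos he]
    have hs := he.choose_spec
    exact (h3 _ _ (by rw [hs]; exact hi) hi).1 hs
  let X : Set E := {e | e ∈ D ∧ ∃ i, x i = e}
  have hL : IsLocAut A f X := by
    constructor
    · rintro _ ⟨ha, i, rfl⟩ _ ⟨hb, j, rfl⟩ hab
      rw [hf i ha, hf j hb] at hab
      exact (h3 i j ha hb).2 hab
    · intro z hz
      choose σ hσ using fun i => (hz i).2
      have hz' : z = x ∘ σ := funext fun i => (hσ i).symm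
      have hD : ∀ i, x (σ i) ∈ D := fun i => (hσ i).symm ▸ (hz i).1
      have : f ∘ z = y ∘ σ := by
        funext i
        simp only [hz', Function.comp]
        exact hf _ (hD i)
      rw [this, hz']
      exact h4 σ hD
  have hM : Set.MapsTo f X D := by
    rintro _ ⟨ha, i, rfl⟩
    rw [hf i ha]
    exact h2 i ha
  have := (h f X (fun e he => he.1) hM hL).2 x (fun i => by
    by_cases hi : x i ∈ D
    · exact Or.inl ⟨hi, i, rfl⟩
    · exact Or.inr hi)
  rw [this]
  have : (fun e => if e ∈ D then f e else e) ∘ x = y := by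
    funext i
    by_cases hi : x i ∈ D
    · simp only [Function.comp, if_pos hi, hf i hi]
    · simp only [Function.comp, if_neg hi, h1 i hi]
  rw [this]

lemma interval_of_W {A : Set (Fin n → E)} {D : Set E} (h : W A D) : IsInterval A D := by
  classical
  intro f X hX hM hL
  constructor
  · intro a ha b hb hab
    simp only at hab
    by_cases h1 : a ∈ D <;> by_cases h2 : b ∈ D
    · rw [if_pos h1, if_pos h2] at hab
      exact hL.1 (ha.resolve_right (fun h => h h1)) (hb.resolve_right (fun h => h h2)) hab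
    · rw [if_pos h1, if_neg h2] at hab
      exact absurd (hab ▸ hM (ha.resolve_right (fun h => h h1))) h2
    · rw [if_neg h1, if_pos h2] at hab
      exact absurd (hab ▸ hM (hb.resolve_right (fun h => h h2))) h1
    · rwa [if_neg h1, if_neg h2] at hab
  · intro x hx
    have hx' : ∀ i, x i ∈ D → x i ∈ X := fun i hi => (hx i).resolve_right (fun h => h hi)
    apply h
    · intro i hi
      simp only [Function.comp, if_neg hi]
    · intro i hi
      simp only [Function.comp, if_pos hi]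
      exact hM (hx' i hi)
    · intro i j hi hj
      simp only [Function.comp, if_pos hi, if_pos hj]
      exact ⟨fun h => by rw [h], fun h => hL.1 (hx' i hi) (hx' j hj) h⟩
    · intro σ hσ
      rw [hL.2 (x ∘ σ) (fun i => hx' _ (hσ i))]
      have : f ∘ x ∘ σ = ((fun e => if e ∈ D then f e else e) ∘ x) ∘ σ := by
        funext i
        simp only [Function.comp, if_pos (hσ i)]
      rw [this]

lemma W_inter {A : Set (Fin n → E)} {I J : Set E} (hI : W A I) (hJ : W A J) : W A (I ∩ J) := by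
  intro x y h1 h2 h3 h4
  have h5 : ∀ i j, x i = x j ↔ y i = y j := by
    intro i j
    by_cases hi : x i ∈ I ∩ J <;> by_cases hj : x j ∈ I ∩ J
    · exact h3 i j hi hj
    · refine ⟨fun h => absurd (h ▸ hi) hj, fun h => ?_⟩
      have := h2 i hi
      rw [h, h1 j hj] at this
      exact absurd this hj
    · refine ⟨fun h => absurd (h ▸ hj) hi, fun h => ?_⟩
      have := h2 j hj
      rw [← h, h1 i hi] at this
      exact absurd this hi
    · rw [h1 i hi, h1 j hj]
  apply hI
  · exact fun i hi => h1 i fun h => hi h.1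
  · intro i hi
    by_cases h : x i ∈ I ∩ J
    · exact (h2 i h).1
    · rwa [h1 i h]
  · exact fun i j _ _ => h5 i j
  · intro σ hσ
    apply hJ
    · exact fun i hi => h1 _ fun h => hi h.2
    · exact fun i hi => (h2 _ ⟨hσ i, hi⟩).2
    · exact fun i j _ _ => h5 _ _
    · intro τ hτ
      exact h4 (σ ∘ τ) fun i => ⟨hσ _, hτ i⟩

/-- The isomorphism type of an `n`-tuple. -/
def ty (A : Set (Fin n → E)) (t : Fin n → E) : Set (Fin n × Fin n) × Set (Fin n → Fin n) :=
  ({p | t p.1 = t p.2}, {σ | t ∘ σ ∈ A})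

def tys (A : Set (Fin n → E)) (X : Set E) : Set (Set (Fin n × Fin n) × Set (Fin n → Fin n)) :=
  ty A '' {t | ∀ i, t i ∈ X}

lemma tys_mono (A : Set (Fin n → E)) {X Y : Set E} (h : X ⊆ Y) : tys A X ⊆ tys A Y :=
  Set.image_mono fun _ ht i => h (ht i)

noncomputable def rk (A : Set (Fin n → E)) (X : Set E) : ℕ := (tys A X).ncard

lemma rk_mono (A : Set (Fin n → E)) {X Y : Set E} (h : X ⊆ Y) : rk A X ≤ rk A Y :=
  Set.ncard_le_ncard (tys_mono A h) (Set.toFinite _)

lemma W_diff {A : Set (Fin n → E)} {I J : Set E} (hI : W A I) (hJ : W A J)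
    (hτ : tys A I ⊆ tys A (I \ J)) : W A (J \ I) := by
  classical
  intro x y h1 h2 h3 h4
  by_cases h0 : ∃ i0, x i0 ∈ I
  swap
  · push Not at h0
    apply hJ
    · exact fun i hi => h1 i fun h => hi h.1
    · exact fun i hi => (h2 i ⟨hi, h0 i⟩).1
    · exact fun i j hi hj => h3 i j ⟨hi, h0 i⟩ ⟨hj, h0 j⟩
    · exact fun σ hσ => h4 σ fun i => ⟨hσ i, h0 _⟩
  obtain ⟨i0, hi0⟩ := h0
  let t : Fin n → E := fun i => if x i ∈ I then x i else x i0
  have ht : ∀ i, t i ∈ I := by
    intro i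
    by_cases hi : x i ∈ I
    · simp only [t, if_pos hi]; exact hi
    · simp only [t, if_neg hi]; exact hi0
  obtain ⟨s, hs, hst⟩ := hτ ⟨t, ht, rfl⟩
  have he : ∀ i j, s i = s j ↔ t i = t j := by
    intro i j
    have := congrArg Prod.fst hst
    exact Set.ext_iff.1 this (i, j)
  have hA : ∀ σ : Fin n → Fin n, s ∘ σ ∈ A ↔ t ∘ σ ∈ A := by
    intro σ
    have := congrArg Prod.snd hst
    exact Set.ext_iff.1 this σ
  have hyI : ∀ i, y i ∈ I ↔ x i ∈ I := by
    intro i
    by_cases h : x i ∈ J \ I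
    · exact ⟨fun h' => absurd h' (h2 i h).2, fun h' => absurd h' h.2⟩
    · rw [h1 i h]
  have hyx : ∀ i, x i ∈ I → y i = x i := fun i hi => h1 i fun h => h.2 hi
  have key : ∀ z : Fin n → E, (∀ i, z i ∈ I ↔ x i ∈ I) → (∀ i, x i ∈ I → z i = x i) →
      (z ∈ A ↔ (fun i => if x i ∈ I then s i else z i) ∈ A) := by
    intro z hz1 hz2
    apply hI
    · intro i hi
      rw [if_neg fun h => hi ((hz1 i).2 h)]
    · intro i hi
      rw [if_pos ((hz1 i).1 hi)]
      exact (hs i).1
    · intro i j hi hj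
      have hi' := (hz1 i).1 hi
      have hj' := (hz1 j).1 hj
      rw [if_pos hi', if_pos hj', he, hz2 i hi', hz2 j hj']
      simp only [t, if_pos hi', if_pos hj']
    · intro σ hσ
      have e1 : z ∘ σ = t ∘ σ := by
        funext i
        have hi' := (hz1 _).1 (hσ i)
        simp only [Function.comp, t, if_pos hi', hz2 _ hi']
      have e2 : (fun i => if x i ∈ I then s i else z i) ∘ σ = s ∘ σ := by
        funext i
        have hi' := (hz1 _).1 (hσ i)
        simp only [Function.comp, if_pos hi']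
      rw [e1, e2, hA]
  rw [key x (fun _ => Iff.rfl) (fun _ _ => rfl), key y hyI hyx]
  have hD : ∀ i, (if x i ∈ I then s i else x i) ∈ J → x i ∈ J \ I := by
    intro i hi
    by_cases h : x i ∈ I
    · rw [if_pos h] at hi
      exact absurd hi (hs i).2
    · rw [if_neg h] at hi
      exact ⟨hi, h⟩
  apply hJ
  · intro i hi
    by_cases h : x i ∈ I
    · rw [if_pos h, if_pos h]
    · rw [if_neg h] at hi
      rw [if_neg h, if_neg h]
      exact h1 i fun h' => hi h'.1
  · intro i hi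
    have := hD i hi
    rw [if_neg this.2]
    exact (h2 i this).1
  · intro i j hi hj
    have hi' := hD i hi
    have hj' := hD j hj
    rw [if_neg hi'.2, if_neg hj'.2, if_neg hi'.2, if_neg hj'.2]
    exact h3 i j hi' hj'
  · intro σ hσ
    have e1 : (fun i => if x i ∈ I then s i else x i) ∘ σ = x ∘ σ := by
      funext i
      simp only [Function.comp, if_neg (hD _ (hσ i)).2]
    have e2 : (fun i => if x i ∈ I then s i else y i) ∘ σ = y ∘ σ := by
      funext i
      simp only [Function.comp, if_neg (hD _ (hσ i)).2]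
    rw [e1, e2]
    exact h4 σ fun i => hD _ (hσ i)

def Small (A : Set (Fin n → E)) (m : ℕ) (U : Set E) : Prop :=
  ∃ S : Set (Set E), S.Finite ∧ (∀ I ∈ S, W A I ∧ rk A I < m) ∧ ⋃₀ S = U

def Good (A : Set (Fin n → E)) (U : Set E) : Prop :=
  ∃ S : Set (Set E), S.Finite ∧ (∀ I ∈ S, W A I) ∧ S.PairwiseDisjoint id ∧ ⋃₀ S = U

lemma Small.union {A : Set (Fin n → E)} {m : ℕ} {U V : Set E} (hU : Small A m U)
    (hV : Small A m V) : Small A m (U ∪ V) := by
  obtain ⟨S, h1, h2, rfl⟩ := hU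
  obtain ⟨T, h3, h4, rfl⟩ := hV
  exact ⟨S ∪ T, h1.union h3, fun I hI => hI.elim (h2 I) (h4 I), Set.sUnion_union S T⟩

lemma compl_cover {A : Set (Fin n → E)} (hA : IsCompactible A) {D : Set E} (hD : W A D) :
    ∃ S : Set (Set E), S.Finite ∧ (∀ I ∈ S, W A I) ∧ ⋃₀ S = Dᶜ := by
  obtain ⟨S, h1, h2, h3⟩ := hA D (interval_of_W hD)
  exact ⟨S, h1, fun I hI => W_of_interval (h2 I hI), h3⟩

lemma Small.diff {A : Set (Fin n → E)} (hA : IsCompactible A) {m : ℕ} {Z I : Set E}
    (hZ : Small A m Z) (hI : W A I) : Small A m (Z \ I) := by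
  obtain ⟨S, h1, h2, rfl⟩ := hZ
  obtain ⟨T, h3, h4, h5⟩ := compl_cover hA hI
  refine ⟨Set.image2 (· ∩ ·) S T, h1.image2 _ h3, ?_, ?_⟩
  · rintro _ ⟨K, hK, L, hL, rfl⟩
    exact ⟨W_inter (h2 K hK).1 (h4 L hL),
      lt_of_le_of_lt (rk_mono A Set.inter_subset_left) (h2 K hK).2⟩
  · rw [Set.sdiff_eq, ← h5]
    ext e
    constructor
    · rintro ⟨_, ⟨K, hK, L, hL, rfl⟩, he⟩
      exact ⟨⟨K, hK, he.1⟩, ⟨L, hL, he.2⟩⟩
    · rintro ⟨⟨K, hK, h6⟩, ⟨L, hL, h7⟩⟩
      exact ⟨_, ⟨K, hK, L, hL, rfl⟩, h6, h7⟩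

lemma dichotomy {A : Set (Fin n → E)} (hA : IsCompactible A) {m : ℕ} {I J : Set E}
    (hI : W A I) (hJ : W A J) (hm : rk A I ≤ m) : Small A m (I \ J) ∨ W A (J \ I) := by
  obtain ⟨T, h3, h4, h5⟩ := compl_cover hA hJ
  by_cases h : ∀ L ∈ T, rk A (I ∩ L) < m
  · left
    refine ⟨(I ∩ ·) '' T, h3.image _, ?_, ?_⟩
    · rintro _ ⟨L, hL, rfl⟩
      exact ⟨W_inter hI (h4 L hL), h L hL⟩
    · rw [Set.sdiff_eq, ← h5]
      ext e
      constructor
      · rintro ⟨_, ⟨L, hL, rfl⟩, he⟩
        exact ⟨he.1, L, hL, he.2⟩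
      · rintro ⟨h6, L, hL, h7⟩
        exact ⟨_, ⟨L, hL, rfl⟩, h6, h7⟩
  · right
    push Not at h
    obtain ⟨L, hL, hr⟩ := h
    apply W_diff hI hJ
    have h6 : tys A (I ∩ L) = tys A I :=
      Set.eq_of_subset_of_ncard_le (tys_mono A Set.inter_subset_left) (hm.trans hr)
        (Set.toFinite _)
    rw [← h6]
    apply tys_mono
    intro e he
    refine ⟨he.1, ?_⟩
    have : e ∈ Jᶜ := h5 ▸ ⟨L, hL, he.2⟩
    exact this

lemma Good.insert {A : Set (Fin n → E)} {I U : Set E} (hI : W A I) (hU : Good A U)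
    (hd : Disjoint I U) : Good A (I ∪ U) := by
  obtain ⟨S, h1, h2, h3, rfl⟩ := hU
  refine ⟨Insert.insert I S, h1.insert I, ?_, ?_, Set.sUnion_insert I S⟩
  · rintro K (rfl | hK)
    · exact hI
    · exact h2 K hK
  · refine h3.insert fun K hK _ => ?_
    exact hd.mono_right (Set.subset_sUnion_of_mem hK)

lemma step {A : Set (Fin n → E)} (hA : IsCompactible A) {m : ℕ}
    (ih : ∀ Z, Small A m Z → Good A Z) (k : ℕ) :
    ∀ S : Set (Set E), S.Finite → S.ncard ≤ k → (∀ I ∈ S, W A I ∧ rk A I ≤ m) →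
      ∀ Z, Small A m Z → Good A (⋃₀ S ∪ Z) := by
  induction k with
  | zero =>
    intro S h1 h2 _ Z hZ
    have : S = ∅ := (Set.ncard_eq_zero h1).1 (Nat.le_zero.1 h2)
    simpa [this] using ih Z hZ
  | succ k ihk =>
    intro S h1 h2 h3 Z hZ
    rcases S.eq_empty_or_nonempty with rfl | ⟨I, hI⟩
    · simpa using ih Z hZ
    have hc : (S \ {I}).ncard ≤ k := by
      rw [Set.ncard_sdiff_singleton_of_mem hI]
      omega
    by_cases h : ∃ J ∈ S \ {I}, Small A m (I \ J)
    · obtain ⟨J, hJ, hs⟩ := h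
      have := ihk (S \ {I}) (h1.subset Set.sdiff_subset) hc (fun K hK => h3 K hK.1) _
        (hZ.union hs)
      convert this using 1
      ext e
      constructor
      · rintro (⟨K, hK, he⟩ | he)
        · by_cases hKI : K = I
          · subst hKI
            by_cases heJ : e ∈ J
            · exact Or.inl ⟨J, hJ, heJ⟩
            · exact Or.inr (Or.inr ⟨he, heJ⟩)
          · exact Or.inl ⟨K, ⟨hK, hKI⟩, he⟩
        · exact Or.inr (Or.inl he)
      · rintro (⟨K, hK, he⟩ | he | he)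
        · exact Or.inl ⟨K, hK.1, he⟩
        · exact Or.inr he
        · exact Or.inl ⟨I, hI, he.1⟩
    · push Not at h
      have h4 : ∀ J ∈ S \ {I}, W A (J \ I) := fun J hJ =>
        (dichotomy hA (h3 I hI).1 (h3 J hJ.1).1 (h3 I hI).2).resolve_left (h J hJ)
      have h5 := ihk ((· \ I) '' (S \ {I})) ((h1.subset Set.sdiff_subset).image _)
        ((Set.ncard_image_le (h1.subset Set.sdiff_subset)).trans hc)
        (by
          rintro _ ⟨J, hJ, rfl⟩
          exact ⟨h4 J hJ, (rk_mono A Set.sdiff_subset).trans (h3 J hJ.1).2⟩)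
        _ (hZ.diff hA (h3 I hI).1)
      have h6 := Good.insert (h3 I hI).1 h5 (by
        rw [Set.disjoint_left]
        rintro e he (⟨_, ⟨J, _, rfl⟩, h7⟩ | h7)
        · exact h7.2 he
        · exact h7.2 he)
      convert h6 using 1
      ext e
      constructor
      · intro he
        by_cases heI : e ∈ I
        · exact Or.inl heI
        · rcases he with ⟨K, hK, he⟩ | he
          · refine Or.inr (Or.inl ⟨_, ⟨K, ⟨hK, ?_⟩, rfl⟩, he, heI⟩)
            rintro rfl
            exact heI he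
          · exact Or.inr (Or.inr ⟨he, heI⟩)
      · rintro (he | ⟨_, ⟨J, hJ, rfl⟩, he⟩ | he)
        · exact Or.inl ⟨I, hI, he⟩
        · exact Or.inl ⟨J, hJ.1, he.1⟩
        · exact Or.inr he.1

lemma small_good {A : Set (Fin n → E)} (hA : IsCompactible A) (m : ℕ) :
    ∀ Z, Small A m Z → Good A Z := by
  induction m with
  | zero =>
    rintro _ ⟨S, h1, h2, rfl⟩
    refine ⟨S, h1, fun I hI => (h2 I hI).1, fun I hI => ?_, rfl⟩
    exact absurd (h2 I hI).2 (Nat.not_lt_zero _)
  | succ m ih =>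
    rintro _ ⟨S, h1, h2, rfl⟩
    have := step hA ih S.ncard S h1 le_rfl (fun I hI => ⟨(h2 I hI).1, Nat.lt_succ_iff.1 (h2 I hI).2⟩)
      ∅ ⟨∅, Set.finite_empty, by simp, by simp⟩
    simpa using this

theorem main {A : Set (Fin n → E)} (hA : IsCompactible A) (S : Set (Set E)) (h1 : S.Finite)
    (h2 : ∀ I ∈ S, IsInterval A I) :
    ∃ T : Set (Set E), T.Finite ∧ (∀ I ∈ T, IsInterval A I) ∧ T.PairwiseDisjoint id ∧
      ⋃₀ T = ⋃₀ S := by
  obtain ⟨T, h3, h4, h5, h6⟩ := small_good hA (rk A Set.univ + 1) _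
    ⟨S, h1, fun I hI => ⟨W_of_interval (h2 I hI),
      Nat.lt_succ_of_le (rk_mono A (Set.subset_univ I))⟩, rfl⟩
  exact ⟨T, h3, fun I hI => interval_of_W (h4 I hI), h5, h6⟩

end Pool.Agent.H14.Compactible
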