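import Mathlib

set_option autoImplicit false

namespace Pool.Agent.H14.Conj

def w (n : ℕ) : ZMod 13 := Nat.binaryRec 0 (fun b _ x => 3 * x + if b then 1 else 0) n

lemma w0 (n : ℕ) : w (2 * n) = 3 * w n := by
  have := Nat.binaryRec_eq (motive := fun _ => ZMod 13) (zero := 0)
    (bit := fun b _ x => 3 * x + if b then 1 else 0) false n (by simp)
  simpa [w, Nat.bit] using this

lemma w1 (n : ℕ) : w (2 * n + 1) = 3 * w n + 1 := by
  have := Nat.binaryRec_eq (motive := fun _ => ZMod 13) (zero := 0)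
    (bit := fun b _ x => 3 * x + if b then 1 else 0) true n (by simp)
  simpa [w, Nat.bit] using this

lemma De (n : ℕ) : w (2 * n + 1) = w (2 * n) + 1 := by rw [w0, w1]

lemma Dall (n : ℕ) : w (n + 1) = w n + 1 ∨ w (n + 1) = w n + 2 ∨ w (n + 1) = w n + 5 := by
  induction n using Nat.strong_induction_on with
  | _ n ih =>
    obtain ⟨k, rfl | rfl⟩ := Nat.even_or_odd' n
    · exact Or.inl (De k)
    · have e : 2 * k + 1 + 1 = 2 * (k + 1) := by ring
      rw [e, w0, w1]
      have h13 : (13 : ZMod 13) = 0 := rfl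
      rcases ih k (by omega) with h | h | h <;> rw [h]
      · right; left; ring
      · right; right; ring
      · left; linear_combination h13

lemma D2 (k : ℕ) : w (4 * k + 2) = w (4 * k + 1) + 2 := by
  have e1 : 4 * k + 2 = 2 * (2 * k + 1) := by ring
  have e2 : 4 * k + 1 = 2 * (2 * k) + 1 := by ring
  rw [e1, e2, w0, w1 (2 * k), De]; ring

lemma par (i i' : ℕ) (h : ∀ j < 5, w (i + j) = w (i' + j)) : i % 2 = i' % 2 := by
  obtain ⟨j, hj, k, hk⟩ : ∃ j < 4, ∃ k, i + j = 4 * k + 1 :=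
    ⟨(5 - i % 4) % 4, by omega, (i + (5 - i % 4) % 4) / 4, by omega⟩
  by_contra hc
  obtain ⟨k', hk'⟩ : ∃ k', i' + j = 2 * k' := ⟨(i' + j) / 2, by omega⟩
  have h1 := h j (by omega)
  have h2 := h (j + 1) (by omega)
  rw [← add_assoc, ← add_assoc, hk, hk', De, show 4 * k + 1 + 1 = 4 * k + 2 by ring, D2, ← hk, h1,
    hk'] at h2
  exact absurd (add_left_cancel h2) (by decide)

lemma base (i n : ℕ) (h1 : 1 ≤ n) (h4 : n ≤ 4) : w (i + n) ≠ w i := by
  have key : ∀ a b c d e : ZMod 13, (b = a + 1 ∨ b = a + 2 ∨ b = a + 5) →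
      (c = b + 1 ∨ c = b + 2 ∨ c = b + 5) → (d = c + 1 ∨ d = c + 2 ∨ d = c + 5) →
      (e = d + 1 ∨ e = d + 2 ∨ e = d + 5) → (b = a + 1 ∧ d = c + 1 ∨ c = b + 1 ∧ e = d + 1) →
      b ≠ a ∧ c ≠ a ∧ d ≠ a ∧ e ≠ a := by
    intro a b c d e h1 h2 h3 h4 h5
    rcases h1 with rfl | rfl | rfl <;> rcases h2 with rfl | rfl | rfl <;>
      rcases h3 with rfl | rfl | rfl <;> rcases h4 with rfl | rfl | rfl <;>
      revert h5 a <;> decide
  have := key _ _ _ _ _ (Dall i) (Dall (i + 1)) (Dall (i + 2)) (Dall (i + 3)) (by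
    obtain ⟨k, rfl | rfl⟩ := Nat.even_or_odd' i
    · exact Or.inl ⟨De k, De (k + 1)⟩
    · exact Or.inr ⟨De (k + 1), De (k + 2)⟩)
  interval_cases n
  exacts [this.1, this.2.1, this.2.2.1, this.2.2.2]

def P (n m : ℕ) : Prop :=
  ∃ p : ℕ → ZMod 13, (∀ t, p (t + n) = p t) ∧ ∀ s, ∃ i, ∀ j < m, p (s + j) = w (i + j)

lemma step (n m : ℕ) (hm : 6 ≤ m) (h : P n m) : n % 2 = 0 ∧ P (n / 2) (m / 2 + 1) := by
  obtain ⟨p, hp, hw⟩ := h
  choose i hi using hw
  have h1 : ∀ s, i s % 2 = (i 0 + s) % 2 := by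
    intro s
    induction s with
    | zero => rfl
    | succ s ih =>
      have := par (i s + 1) (i (s + 1)) fun j hj => by
        rw [add_assoc, ← hi s _ (by omega), ← hi (s + 1) _ (by omega)]
        congr 1; ring
      omega
  have h2 : n % 2 = 0 := by
    have := par (i 0) (i n) fun j hj => by
      rw [← hi 0 _ (by omega), ← hi n _ (by omega), add_comm n, hp, zero_add]
    have := h1 n
    omega
  refine ⟨h2, fun t => 9 * p (i 0 + 2 * t), fun t => ?_, fun t => ?_⟩
  · have : i 0 + 2 * (t + n / 2) = i 0 + 2 * t + n := by omega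
    simp only [this, hp]
  · have h27 : (27 : ZMod 13) = 1 := rfl
    obtain ⟨k, hk⟩ : ∃ k, i (i 0 + 2 * t + 1) = 2 * k + 1 :=
      ⟨i (i 0 + 2 * t + 1) / 2, by have := h1 (i 0 + 2 * t + 1); omega⟩
    obtain ⟨k', hk'⟩ : ∃ k, i (i 0 + 2 * t) = 2 * k :=
      ⟨i (i 0 + 2 * t) / 2, by have := h1 (i 0 + 2 * t); omega⟩
    refine ⟨k, fun j hj => ?_⟩
    rcases j with _ | j
    · have e1 := hi (i 0 + 2 * t) 0 (by omega)
      have e2 := hi (i 0 + 2 * t) 1 (by omega)
      have e3 := hi (i 0 + 2 * t + 1) 0 (by omega)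
      rw [hk', De] at e2
      rw [hk'] at e1
      rw [hk, add_zero, add_zero, w1] at e3
      simp only [add_zero] at e1 ⊢
      linear_combination 9 * e1 - 9 * e2 + 9 * e3 + w k * h27
    · have e1 := hi (i 0 + 2 * t + 1) (2 * j + 1) (by omega)
      rw [hk, show 2 * k + 1 + (2 * j + 1) = 2 * (k + (j + 1)) by ring, w0,
        show i 0 + 2 * t + 1 + (2 * j + 1) = i 0 + 2 * (t + (j + 1)) by ring] at e1
      simp only [e1]
      linear_combination w (k + (j + 1)) * h27

lemma notP1 (n : ℕ) (hn : 1 ≤ n) : ¬ P n (n + 1) := by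
  induction n using Nat.strong_induction_on with
  | _ n ih =>
    intro h
    by_cases h4 : n ≤ 4
    · obtain ⟨p, hp, hw⟩ := h
      obtain ⟨i, hi⟩ := hw 0
      refine base i n hn h4 ?_
      rw [← hi n (by omega), hp]
      exact hi 0 (by omega)
    · obtain ⟨h2, h3⟩ := step n (n + 1) (by omega) h
      rw [show (n + 1) / 2 = n / 2 by omega] at h3
      exact ih (n / 2) (by omega) (by omega) h3

lemma notP (n : ℕ) (hn : 6 ≤ n) : ¬ P n n := fun h =>
  notP1 (n / 2) (by omega) (step n n hn h).2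

/-- `u` occurs at position `i` inside the first `N` letters of `w`. -/
def occ (N : ℕ) : ℕ → List (ZMod 13) → Prop
  | _, [] => True
  | i, a :: u => i < N ∧ w i = a ∧ occ N (i + 1) u

lemma occ_get (N : ℕ) (u : List (ZMod 13)) (i : ℕ) (h : occ N i u) :
    (u ≠ [] → i + u.length ≤ N) ∧ ∀ j (hj : j < u.length), u[j] = w (i + j) := by
  induction u generalizing i with
  | nil => simp
  | cons a u ih =>
    obtain ⟨h1, h2, h3⟩ := h
    obtain ⟨h4, h5⟩ := ih _ h3
    refine ⟨fun _ => ?_, fun j hj => ?_⟩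
    · rcases u with _ | ⟨b, u⟩
      · simpa using h1
      · have := h4 (by simp)
        simp only [List.length_cons] at this ⊢
        omega
    · rcases j with _ | j
      · simp [h2]
      · simp only [List.getElem_cons_succ]
        rw [h5]; congr 1; ring

lemma rot (N : ℕ) (u : List (ZMod 13)) (hu : 6 ≤ u.length) (h : ∃ i, occ N i u) :
    ∃ a b, a ≠ [] ∧ b ≠ [] ∧ u = a ++ b ∧ ∀ i, ¬ occ N i (b ++ a) := by
  by_contra hc
  push Not at hc
  refine notP u.length hu ⟨fun t => u[t % u.length]'(Nat.mod_lt _ (by omega)), fun t => by simp,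
    fun s => ?_⟩
  have hr : s % u.length < u.length := Nat.mod_lt _ (by omega)
  obtain ⟨i, hi⟩ : ∃ i, occ N i (u.rotate (s % u.length)) := by
    by_cases h0 : s % u.length = 0
    · simpa [h0] using h
    · rw [List.rotate_eq_drop_append_take hr.le]
      refine hc _ _ ?_ ?_ (List.take_append_drop _ _).symm
      · intro h1
        have := congrArg List.length h1
        simp only [List.length_take, List.length_nil] at this
        omega
      · intro h1
        have := congrArg List.length h1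
        simp only [List.length_drop, List.length_nil] at this
        omega
  refine ⟨i, fun j hj => ?_⟩
  rw [← (occ_get N _ i hi).2 j (by simpa using hj), List.getElem_rotate]
  simp [add_comm]

end Pool.Agent.H14.Conj
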