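import Pool.Agent.H14.Conj

set_option autoImplicit false

namespace Pool.Agent.H14.Conj

section gen
variable {U : Type} [Ring U] [Algebra (ZMod 2) U] (X : ZMod 13 → U)

def xx (u : List (ZMod 13)) : U := (u.map X).prod

lemma xx_app (u v : List (ZMod 13)) : xx X (u ++ v) = xx X u * xx X v := by simp [xx]

def J (n : ℕ) : Submodule (ZMod 2) U := Submodule.span _ {z | ∃ u, n ≤ u.length ∧ z = xx X u}

lemma J_mono {m n : ℕ} (h : m ≤ n) {z : U} (hz : z ∈ J X n) : z ∈ J X m :=
  Submodule.span_mono (by rintro _ ⟨u, hu, e⟩; exact ⟨u, h.trans hu, e⟩) hz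

lemma xx_mem (u : List (ZMod 13)) : xx X u ∈ J X u.length := Submodule.subset_span ⟨u, le_rfl, rfl⟩

lemma J_mul {m n : ℕ} {y z : U} (hy : y ∈ J X m) (hz : z ∈ J X n) : y * z ∈ J X (m + n) := by
  have := Submodule.mul_mem_mul hy hz
  rw [J, J, Submodule.span_mul_span] at this
  refine Submodule.span_mono ?_ this
  rintro _ ⟨_, ⟨u, hu, rfl⟩, _, ⟨v, hv, rfl⟩, rfl⟩
  exact ⟨u ++ v, by simp; omega, (xx_app X u v).symm⟩

omit [Algebra (ZMod 2) U] in
lemma idt (p q k z : U) (hk : q * p * k = 1) :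
    p * q * k - 1 - z = (p * q - q * p - z) - (p * q - q * p) * ((q * p - 1) * k) := by
  rw [sub_mul (q * p), hk, one_mul, mul_sub, mul_one, sub_mul, hk]
  abel

variable (H : Subgroup Uˣ) (h0 : ∀ z, z ∈ J X 0)
  (hg : ∀ u, u ≠ [] → u.length ≤ 5 → ∃ h ∈ H, (h : U) = 1 + xx X u)
  (hr : ∀ u, 6 ≤ u.length → xx X u = 0 ∨ ∃ a b, a ≠ [] ∧ b ≠ [] ∧ u = a ++ b ∧ xx X (b ++ a) = 0)

include h0 hg hr

lemma lemA (n : ℕ) : ∀ u : List (ZMod 13), u.length = n → u ≠ [] →
    ∃ h ∈ H, (h : U) - 1 - xx X u ∈ J X (u.length + 1) := by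
  induction n using Nat.strong_induction_on with
  | _ n ih =>
    intro u hn hu
    by_cases h5 : u.length ≤ 5
    · obtain ⟨h, hH, e⟩ := hg u hu h5
      exact ⟨h, hH, by simp [e]⟩
    rcases hr u (by omega) with h | ⟨a, b, ha, hb, rfl, hba⟩
    · exact ⟨1, H.one_mem, by simp [h]⟩
    have la := List.length_pos_iff.2 ha
    have lb := List.length_pos_iff.2 hb
    rw [List.length_append] at hn ⊢
    obtain ⟨p, hp, ep⟩ := ih _ (by omega) a rfl ha
    obtain ⟨q, hq, eq⟩ := ih _ (by omega) b rfl hb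
    refine ⟨p * q * (q * p)⁻¹, H.mul_mem (H.mul_mem hp hq) (H.inv_mem (H.mul_mem hq hp)), ?_⟩
    set α := (p : U) - 1 - xx X a with hα
    set β := (q : U) - 1 - xx X b with hβ
    set k : U := (((q * p)⁻¹ : Uˣ) : U)
    have hk : (q : U) * p * k = 1 := (q * p).mul_inv
    have hA := xx_mem X a
    have hB := xx_mem X b
    have hα' : xx X a + α ∈ J X a.length := add_mem hA (J_mono X (by omega) ep)
    have hβ' : xx X b + β ∈ J X b.length := add_mem hB (J_mono X (by omega) eq)
    have e1 : (p : U) = 1 + (xx X a + α) := by rw [hα]; abel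
    have e2 : (q : U) = 1 + (xx X b + β) := by rw [hβ]; abel
    have hqp : (q : U) * p - 1 ∈ J X 1 := by
      have : (q : U) * p - 1 = (xx X a + α) + (xx X b + β) + (xx X b + β) * (xx X a + α) := by
        rw [e1, e2]; noncomm_ring
      rw [this]
      exact add_mem (add_mem (J_mono X la hα') (J_mono X lb hβ'))
        (J_mono X (by omega) (J_mul X hβ' hα'))
    have hc : (p : U) * q - q * p ∈ J X (a.length + b.length) := by
      have : (p : U) * q - q * p = (xx X a + α) * (xx X b + β) - (xx X b + β) * (xx X a + α) := by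
        rw [e1, e2]; noncomm_ring
      rw [this]
      exact sub_mem (J_mul X hα' hβ') (J_mono X (by omega) (J_mul X hβ' hα'))
    have hd : (p : U) * q - q * p - xx X (a ++ b) ∈ J X (a.length + b.length + 1) := by
      have : (p : U) * q - q * p - xx X (a ++ b) =
          (xx X a * β + α * (xx X b + β)) - (xx X b * α + β * (xx X a + α)) - xx X (b ++ a) := by
        rw [xx_app, xx_app, e1, e2]; noncomm_ring
      rw [this, hba, sub_zero]
      exact sub_mem (add_mem (J_mono X (by omega) (J_mul X hA eq)) (J_mono X (by omega) (J_mul X ep hβ')))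
        (add_mem (J_mono X (by omega) (J_mul X hB ep)) (J_mono X (by omega) (J_mul X eq hα')))
    have : ((p * q * (q * p)⁻¹ : Uˣ) : U) - 1 - xx X (a ++ b) =
        ((p : U) * q - q * p - xx X (a ++ b)) - ((p : U) * q - q * p) * (((q : U) * p - 1) * k) := by
      rw [Units.val_mul, Units.val_mul]
      exact idt _ _ _ _ hk
    rw [this]
    have h7 : ((q : U) * p - 1) * k ∈ J X 1 := by
      have h8 := J_mul X hqp (h0 k)
      rwa [add_zero] at h8
    exact sub_mem hd (J_mul X hc h7)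

lemma lemB (n : ℕ) (hn : 1 ≤ n) (z : U) (hz : z ∈ J X n) :
    ∃ h ∈ H, (h : U) - 1 - z ∈ J X (n + 1) := by
  induction hz using Submodule.span_induction with
  | mem z hz =>
    obtain ⟨u, hu, rfl⟩ := hz
    rcases hu.eq_or_lt with h | h
    · exact h ▸ lemA X H h0 hg hr _ u rfl (List.length_pos_iff.1 (by omega))
    · exact ⟨1, H.one_mem, by simpa using J_mono X h (xx_mem X u)⟩
  | zero => exact ⟨1, H.one_mem, by simp⟩
  | add y z hy hz ihy ihz =>
    obtain ⟨p, hp, ep⟩ := ihy
    obtain ⟨q, hq, eq⟩ := ihz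
    refine ⟨p * q, H.mul_mem hp hq, ?_⟩
    have : ((p * q : Uˣ) : U) - 1 - (y + z) = ((p : U) - 1 - y) + ((q : U) - 1 - z) +
        (((p : U) - 1 - y) + y) * (((q : U) - 1 - z) + z) := by
      rw [Units.val_mul]; noncomm_ring
    rw [this]
    exact add_mem (add_mem ep eq) (J_mono X (by omega)
      (J_mul X (add_mem (J_mono X (Nat.le_succ n) ep) hy) (add_mem (J_mono X (Nat.le_succ n) eq) hz)))
  | smul c z hz ih =>
    have : c = 0 ∨ c = 1 := by revert c; decide
    rcases this with rfl | rfl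
    · exact ⟨1, H.one_mem, by simp⟩
    · simpa using ih

lemma lemC (N : ℕ) (hN : ∀ z ∈ J X (N + 1), z = 0) (k : ℕ) : ∀ n, 1 ≤ n → n + k = N + 1 →
    ∀ z ∈ J X n, ∃ h ∈ H, (h : U) = 1 + z := by
  induction k with
  | zero =>
    intro n _ hn z hz
    exact ⟨1, H.one_mem, by rw [hN z (hn ▸ hz)]; simp⟩
  | succ k ih =>
    intro n h1 hn z hz
    obtain ⟨p, hp, ep⟩ := lemB X H h0 hg hr n h1 z hz
    have := J_mul X (h0 ((p⁻¹ : Uˣ) : U)) (neg_mem ep)
    rw [zero_add] at this
    obtain ⟨q, hq, eq⟩ := ih (n + 1) (by omega) (by omega) _ this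
    refine ⟨p * q, H.mul_mem hp hq, ?_⟩
    rw [Units.val_mul, eq, mul_add, ← mul_assoc, Units.mul_inv]
    noncomm_ring

end gen

def M (N : ℕ) (a : ZMod 13) : Module.End (ZMod 2) (ℕ → ZMod 2) where
  toFun f i := if i < N ∧ w i = a then f (i + 1) else 0
  map_add' f g := by ext i; simp only [Pi.add_apply]; split_ifs <;> simp
  map_smul' c f := by ext i; simp only [Pi.smul_apply, RingHom.id_apply]; split_ifs <;> simp

open Classical in
lemma M_prod (N : ℕ) (u : List (ZMod 13)) (f : ℕ → ZMod 2) (i : ℕ) :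
    xx (M N) u f i = if occ N i u then f (i + u.length) else 0 := by
  induction u generalizing i with
  | nil => simp [xx, occ]
  | cons a u ih =>
    have : xx (M N) (a :: u) f i = if i < N ∧ w i = a then xx (M N) u f (i + 1) else 0 := rfl
    rw [this, ih]
    by_cases h1 : i < N <;> by_cases h2 : w i = a <;> simp [occ, h1, h2, add_assoc, add_comm 1]

abbrev RR (N : ℕ) : Type :=
  NonUnitalAlgebra.adjoin (ZMod 2) (Set.range (M N))

def XX (N : ℕ) (a : ZMod 13) : Unitization (ZMod 2) (RR N) :=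
  Unitization.inr ⟨M N a, NonUnitalAlgebra.subset_adjoin _ ⟨a, rfl⟩⟩

lemma xx_inr (N : ℕ) (u : List (ZMod 13)) (hu : u ≠ []) :
    ∃ r : RR N, xx (XX N) u = Unitization.inr r ∧ r.1 = xx (M N) u := by
  induction u with
  | nil => exact absurd rfl hu
  | cons a u ih =>
    rcases u with _ | ⟨b, u⟩
    · exact ⟨_, by simp [xx, XX]; rfl, by simp [xx]⟩
    · obtain ⟨r, h1, h2⟩ := ih (by simp)
      refine ⟨⟨M N a, NonUnitalAlgebra.subset_adjoin _ ⟨a, rfl⟩⟩ * r, ?_, ?_⟩
      · rw [Unitization.inr_mul, ← h1]; rfl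
      · rw [MulMemClass.coe_mul, h2]; rfl

lemma xx_zero (N : ℕ) (u : List (ZMod 13)) (hu : u ≠ []) (h : ∀ i, ¬ occ N i u) :
    xx (XX N) u = 0 := by
  obtain ⟨r, h1, h2⟩ := xx_inr N u hu
  have : r = 0 := Subtype.ext (by rw [h2]; ext f i; simp [M_prod, h])
  rw [h1, this, Unitization.inr_zero]

lemma inr_mem (N : ℕ) (r : RR N) : (Unitization.inr r : Unitization (ZMod 2) (RR N)) ∈ J (XX N) 1 := by
  obtain ⟨r, hr⟩ := r
  induction hr using NonUnitalAlgebra.adjoin_induction with
  | mem x hx =>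
    obtain ⟨a, rfl⟩ := hx
    simpa [xx, XX] using xx_mem (XX N) [a]
  | add x y hx hy ihx ihy =>
    have := add_mem ihx ihy
    rwa [← Unitization.inr_add] at this
  | zero =>
    have := (J (XX N) 1).zero_mem
    rwa [← Unitization.inr_zero (ZMod 2) (A := RR N)] at this
  | mul x y hx hy ihx ihy =>
    have := J_mono _ (by omega : 1 ≤ 1 + 1) (J_mul _ ihx ihy)
    rwa [← Unitization.inr_mul] at this
  | smul c x hx ih =>
    have := (J (XX N) 1).smul_mem c ih
    rwa [← Unitization.inr_smul] at this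

lemma J0 (N : ℕ) (z : Unitization (ZMod 2) (RR N)) : z ∈ J (XX N) 0 := by
  rw [← Unitization.inl_fst_add_inr_snd_eq z]
  refine add_mem ?_ (J_mono _ (by omega) (inr_mem N _))
  have := (J (XX N) 0).smul_mem z.fst (xx_mem (XX N) [])
  rwa [show xx (XX N) [] = 1 from rfl, ← Algebra.algebraMap_eq_smul_one] at this

lemma Jtop (N : ℕ) (z : Unitization (ZMod 2) (RR N)) (hz : z ∈ J (XX N) (N + 1)) : z = 0 := by
  have : J (XX N) (N + 1) ≤ ⊥ := Submodule.span_le.2 (by
    rintro _ ⟨u, hu, rfl⟩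
    have hne : u ≠ [] := List.length_pos_iff.1 (by omega)
    refine xx_zero N u hne fun i hi => ?_
    have := (occ_get N u i hi).1 hne
    omega)
  exact this hz

lemma prod_mem (N : ℕ) (l : List (Unitization (ZMod 2) (RR N))) (hl : ∀ z ∈ l, z ∈ J (XX N) 1) :
    l.prod ∈ J (XX N) l.length := by
  induction l with
  | nil => exact J0 N _
  | cons a l ih =>
    rw [List.prod_cons, List.length_cons, add_comm]
    exact J_mul _ (hl a (by simp)) (ih fun z hz => hl z (by simp [hz]))

lemma occ_pre (N : ℕ) (n i : ℕ) (h : i + n ≤ N) : occ N i (List.ofFn fun j : Fin n => w (i + j)) := by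
  induction n generalizing i with
  | zero => simp [occ]
  | succ n ih =>
    rw [List.ofFn_succ]
    refine ⟨by omega, rfl, ?_⟩
    simpa [add_assoc, add_comm 1] using ih (i + 1) (by omega)

lemma rank_ge (N : ℕ) : (N : Cardinal) ≤ Module.rank (ZMod 2) (RR N) := by
  choose r _ hr using fun n : Fin N =>
    xx_inr N (List.ofFn fun j : Fin (n + 1) => w (0 + j)) (by simp)
  let φ : RR N →ₗ[ZMod 2] (Fin N → ZMod 2) :=
    { toFun := fun r n => r.1 (Pi.single (n + 1) 1) 0
      map_add' := fun _ _ => rfl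
      map_smul' := fun _ _ => rfl }
  have h1 : ∀ n, φ (r n) = Pi.single n 1 := by
    intro n
    ext m
    change (r n).1 (Pi.single (m + 1) 1) 0 = _
    rw [hr, M_prod, if_pos (occ_pre N _ 0 (by omega))]
    simp [Pi.single_apply, Fin.ext_iff, eq_comm]
  have h2 : LinearIndependent (ZMod 2) r := by
    refine LinearIndependent.of_comp φ ?_
    have : φ ∘ r = Pi.basisFun (ZMod 2) (Fin N) := by ext n m; simp [h1]
    rw [this]
    exact (Pi.basisFun (ZMod 2) (Fin N)).linearIndependent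
  simpa using h2.cardinal_le_rank

end Pool.Agent.H14.Conj
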