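import Mathlib

set_option autoImplicit false

namespace Pool.Agent.H14.CubePack

open Set Metric MeasureTheory Filter Topology
open scoped ENNReal NNReal

abbrev E (n : ℕ) := EuclideanSpace ℝ (Fin n)

/-- The boundary of the unit cube: the union of its faces of codimension one. -/
def K (n : ℕ) : Set (E n) := {x | (∀ i, x i ∈ Icc (0 : ℝ) 1) ∧ ∃ i, x i = 0 ∨ x i = 1}

/-- The union of the scaled and translated cube boundaries. -/
def G {n : ℕ} (f : ℝ → E n) : Set (E n) := ⋃ t ∈ Ioo (0 : ℝ) 1, (fun x => t • x + f t) '' K n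

/-- Upper box-counting dimension. -/
noncomputable def boxDim {n : ℕ} (A : Set (E n)) : ℝ≥0∞ :=
  limsup (fun e : ℝ≥0 => ENNReal.ofReal (Real.log (coveringNumber e A).toNat / -Real.log e)) (𝓝[>] 0)

lemma cover {X : Type} [MetricSpace X] [MeasurableSpace X] [BorelSpace X] [Nonempty X] {A : Set X}
    {a : ℝ} (ha : 0 < a) (h : μH[a] A = 0) {e : ℝ≥0} (he : 0 < e) {δ : ℝ≥0∞} (hδ : δ ≠ 0) :
    ∃ (c : ℕ → X) (r : ℕ → ℝ≥0), (∀ i, 0 < r i ∧ r i ≤ e) ∧ A ⊆ ⋃ i, closedBall (c i) (r i) ∧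
      ∑' i, (r i : ℝ≥0∞) ^ a ≤ δ + δ := by
  rw [Measure.hausdorffMeasure_apply] at h
  simp only [ENNReal.iSup_eq_zero] at h
  have h1 := (h e (by simpa using he)).trans_lt (pos_iff_ne_zero.2 hδ)
  simp only [iInf_lt_iff] at h1
  obtain ⟨t, t1, t2, t3⟩ := h1
  obtain ⟨w, w0, w1⟩ := ENNReal.exists_pos_sum_of_countable hδ ℕ
  have fin : ∀ i, ediam (t i) ≠ ⊤ := fun i => ne_top_of_le_ne_top (by simp) (t2 i)
  have hc : ∀ i, ∃ c, (t i).Nonempty → c ∈ t i := fun i => by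
    by_cases h : (t i).Nonempty
    exacts [⟨h.some, fun _ => h.some_mem⟩, ⟨Classical.arbitrary X, fun h' => absurd h' h⟩]
  choose c hc using hc
  refine ⟨c, fun i => max (ediam (t i)).toNNReal (min e (w i ^ a⁻¹)), fun i => ⟨lt_max_of_lt_right
    (lt_min he (NNReal.rpow_pos (w0 i))), max_le (ENNReal.toNNReal_mono (b := e) (by simp) (t2 i))
    (min_le_left _ _)⟩, fun x hx => ?_, ?_⟩
  · obtain ⟨i, hi⟩ := mem_iUnion.1 (t1 hx)
    refine mem_iUnion.2 ⟨i, mem_closedBall.2 ?_⟩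
    exact (dist_le_diam_of_mem' (fin i) hi (hc i ⟨x, hi⟩)).trans (NNReal.coe_le_coe.2 (le_max_left _ _))
  · refine le_trans ?_ (add_le_add t3.le w1.le)
    rw [← ENNReal.tsum_add]
    refine ENNReal.tsum_le_tsum fun i => ?_
    beta_reduce
    rcases le_total (ediam (t i)).toNNReal (min e (w i ^ a⁻¹)) with h | h
    · rw [max_eq_right h]
      refine le_add_left ((ENNReal.rpow_le_rpow (ENNReal.coe_le_coe.2 (min_le_right _ _)) ha.le).trans ?_)
      rw [← ENNReal.coe_rpow_of_nonneg _ ha.le, NNReal.rpow_inv_rpow ha.ne']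
    · rw [max_eq_left h, ENNReal.coe_toNNReal (fin i)]
      refine le_add_right ?_
      by_cases hn : (t i).Nonempty
      · simp [hn]
      · simp [not_nonempty_iff_eq_empty.1 hn, ha]

lemma box {n : ℕ} {A : Set (E n)} (hA : TotallyBounded A) {b : ℝ≥0} (h : boxDim A < b) :
    ∃ e : ℝ≥0, 0 < e ∧ e ≤ 1 ∧ ∀ r, 0 < r → r ≤ e → ∃ C : Finset (E n),
      A ⊆ ⋃ y ∈ C, closedBall y r ∧ (C.card : ℝ≥0∞) ≤ (r : ℝ≥0∞) ^ (-(b : ℝ)) := by
  have h1 := (eventually_lt_of_limsup_lt h).and (nhdsWithin_le_nhds (gt_mem_nhds one_pos))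
  obtain ⟨u, u0, hu⟩ := mem_nhdsGT_iff_exists_Ioc_subset.1 h1
  refine ⟨u, u0, (hu ⟨u0, le_rfl⟩).2.le, fun r r0 r1 => ?_⟩
  obtain ⟨h2, h3⟩ := hu ⟨r0, r1⟩
  obtain ⟨N, N1, N2, N3⟩ := exists_finite_isCover_of_totallyBounded r0.ne' hA
  have hne : coveringNumber r A ≠ ⊤ :=
    ne_top_of_le_ne_top N2.encard_lt_top.ne (N3.coveringNumber_le_encard N1)
  obtain ⟨C, -, C1, C2, C3⟩ := exists_set_encard_eq_coveringNumber hne
  refine ⟨C1.toFinset, by simpa using isCover_iff_subset_iUnion_closedBall.1 C2, ?_⟩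
  rw [← C3, C1.encard_eq_coe_toFinset_card, ENat.toNat_coe] at h2
  replace h2 := ENNReal.ofReal_le_coe.1 h2.le
  have l : 0 < -Real.log r := neg_pos.2 (Real.log_neg r0 h3)
  rw [← ENNReal.coe_rpow_of_ne_zero r0.ne', ← ENNReal.coe_natCast, ENNReal.coe_le_coe,
    ← NNReal.coe_le_coe, NNReal.coe_rpow, NNReal.coe_natCast]
  rcases Nat.eq_zero_or_pos C1.toFinset.card with h0 | h0
  · rw [h0, Nat.cast_zero]; positivity
  rw [Real.le_rpow_iff_log_le (Nat.cast_pos.2 h0) (NNReal.coe_pos.2 r0)]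
  have := (div_le_iff₀ l).1 h2
  linarith

lemma slice {m : ℕ} {ι : Type} [Countable ι] {A : Set (E (m + 1))} (c : ι → E (m + 1)) (r : ι → ℝ≥0)
    (hA : A ⊆ ⋃ i, closedBall (c i) (r i)) (s : ℝ) (Q : Set (Fin m → ℝ))
    (hQ : ∀ y ∈ Q, WithLp.toLp 2 (Fin.cons s y) ∈ A) :
    volume Q ≤ ∑' i, (closedBall (c i 0) (r i)).indicator (fun _ => (2 * r i : ℝ≥0∞) ^ m) s := by
  classical
  have : Q ⊆ ⋃ i, if s ∈ closedBall (c i 0) (r i) then closedBall (Fin.tail (c i).1) (r i) else ∅ := by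
    intro y hy
    obtain ⟨i, hi⟩ := mem_iUnion.1 (hA (hQ y hy))
    have h := fun k => (PiLp.dist_apply_le (WithLp.toLp 2 (Fin.cons s y : Fin (m + 1) → ℝ)) (c i) k).trans hi
    refine mem_iUnion.2 ⟨i, ?_⟩
    rw [if_pos (by simpa using h 0), mem_closedBall, dist_pi_le_iff (by simp)]
    exact fun k => by simpa [Fin.tail] using h k.succ
  refine (measure_mono this).trans ((measure_iUnion_le _).trans (ENNReal.tsum_le_tsum fun i => ?_))
  rw [indicator_apply]
  split_ifs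
  · rw [Real.volume_pi_closedBall _ (by simp), ENNReal.ofReal_pow (by positivity)]
    simp [ENNReal.ofReal_mul]
  · simp

theorem main (m : ℕ) (f : ℝ → E (m + 1)) (hf : ∀ t ∈ Ioo (0 : ℝ) 1, ∀ i, f t i ∈ Icc (0 : ℝ) 1) :
    ((2 * m + 1 : ℕ) : ℝ≥0∞) ≤ dimH (G f) + boxDim (G f) := by
  by_contra hc
  obtain ⟨a', ha, b', hb, hab⟩ := ENNReal.exists_add_lt_of_add_lt (not_le.1 hc)
  lift a' to ℝ≥0 using ne_top_of_le_ne_top (ENNReal.natCast_ne_top _) (le_self_add.trans hab.le) with a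
  lift b' to ℝ≥0 using ne_top_of_le_ne_top (ENNReal.natCast_ne_top _) (le_add_self.trans hab.le) with b
  have hab' : (a : ℝ) + b ≤ 2 * m + 1 := by exact_mod_cast hab.le
  have a0 : (0 : ℝ) < a := by exact_mod_cast zero_le.trans_lt ha
  have tb : TotallyBounded (G f) := by
    refine ((isCompact_Icc (a := fun _ : Fin (m + 1) => (0 : ℝ)) (b := fun _ => 2)).image
      (PiLp.continuous_toLp 2 _)).totallyBounded.subset fun x hx => ?_
    simp only [G, mem_iUnion] at hx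
    obtain ⟨t, ht, z, hz, rfl⟩ := hx
    refine ⟨_, ⟨fun i => ?_, fun i => ?_⟩, rfl⟩ <;> simp <;>
      nlinarith [(hz.1 i).1, (hz.1 i).2, (hf t ht i).1, (hf t ht i).2, ht.1, ht.2]
  obtain ⟨e, e0, e1, he⟩ := box tb hb
  set q : ℝ≥0∞ := 2⁻¹ ^ m
  set D : ℝ≥0∞ := 2 ^ m * 2 ^ m * 4
  have key : ∀ δ : ℝ≥0∞, δ ≠ 0 → q * q * volume (Ioo (2⁻¹ : ℝ) 1) ≤ D * (δ + δ) := by
    intro δ hδ
    obtain ⟨c, r, hr, hc, hs⟩ := cover a0 (hausdorffMeasure_of_dimH_lt ha) e0 hδ
    choose C C1 C2 using fun i => he (r i) (hr i).1 (hr i).2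
    let Ψ : ℝ → ℝ≥0∞ := fun t => ∑' i, ∑' y : C i, (closedBall (y.1 0 - c i 0) (2 * r i)).indicator
      (fun _ => (2 * r i : ℝ≥0∞) ^ m * (2 * r i : ℝ≥0∞) ^ m) t
    have mΨ : ∀ (i : ℕ) (y : C i), Measurable ((closedBall (y.1 0 - c i 0) (2 * r i)).indicator
      (fun _ : ℝ => (2 * r i : ℝ≥0∞) ^ m * (2 * r i : ℝ≥0∞) ^ m)) :=
      fun i y => measurable_const.indicator measurableSet_closedBall
    have h1 : Ioo (2⁻¹ : ℝ) 1 ⊆ {t | q * q ≤ Ψ t} := by
      intro t ht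
      have t0 : 0 < t := lt_trans (by norm_num) ht.1
      let Q := closedBall (fun k : Fin m => f t k.succ + t / 2) (t / 2)
      have hq : q ≤ volume Q := by
        rw [Real.volume_pi_closedBall _ (by positivity), ENNReal.ofReal_pow (by positivity),
          Fintype.card_fin]
        refine pow_le_pow_left' ?_ _
        rw [← ENNReal.ofReal_ofNat, ← ENNReal.ofReal_inv_of_pos two_pos]
        exact ENNReal.ofReal_le_ofReal (by linarith [ht.1])
      have hQ : ∀ s : ℝ, s = 0 ∨ s = 1 → ∀ y ∈ Q,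
          WithLp.toLp 2 (Fin.cons (t * s + f t 0) y : Fin (m + 1) → ℝ) ∈ G f := by
        intro s hs y hy
        rw [mem_closedBall, dist_pi_le_iff (by positivity)] at hy
        refine mem_iUnion₂.2 ⟨t, ⟨t0, ht.2⟩,
          WithLp.toLp 2 (Fin.cons s fun k => (y k - f t k.succ) / t), ⟨fun i => ?_, 0, hs⟩, ?_⟩
        · refine Fin.cases ?_ (fun k => ?_) i
          · rcases hs with rfl | rfl <;> simp
          · have := abs_le.1 (hy k)
            simp only [Fin.cons_succ, mem_Icc, le_div_iff₀ t0, div_le_iff₀ t0]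
            constructor <;> linarith
        · ext i
          refine Fin.cases ?_ (fun k => ?_) i
          · simp
          · simp [mul_div_cancel₀ _ t0.ne']
      refine (mul_le_mul_left (hq.trans (slice c r hc _ Q (hQ 0 (Or.inl rfl)))) q).trans ?_
      rw [← ENNReal.tsum_mul_right]
      refine ENNReal.tsum_le_tsum fun i => ?_
      by_cases k1 : t * 0 + f t 0 ∈ closedBall (c i 0) (r i)
      swap
      · simp only [indicator_of_notMem k1, zero_mul, zero_le]
      refine (mul_le_mul_right (hq.trans (slice (fun y : C i => y.1) (fun _ => r i)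
        (fun x hx => (mem_iUnion₂.1 (C1 i hx)).elim fun y hy => hy.elim fun h1 h2 =>
          mem_iUnion.2 ⟨⟨y, h1⟩, h2⟩) _ Q (hQ 1 (Or.inr rfl)))) _).trans ?_
      rw [← ENNReal.tsum_mul_left]
      refine ENNReal.tsum_le_tsum fun y => ?_
      by_cases k2 : t * 1 + f t 0 ∈ closedBall (y.1 0) (r i)
      swap
      · simp only [indicator_of_notMem k2, mul_zero, zero_le]
      rw [indicator_of_mem k1, indicator_of_mem k2, indicator_of_mem]
      rw [mem_closedBall, Real.dist_eq, abs_le] at k1 k2 ⊢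
      constructor <;> linarith [k1.1, k1.2, k2.1, k2.2]
    refine (mul_le_mul_right (measure_mono h1) _).trans ((mul_meas_ge_le_lintegral
      (Measurable.tsum fun i => Measurable.tsum (mΨ i)) _).trans ?_)
    refine le_trans ?_ (mul_le_mul_right hs D)
    rw [lintegral_tsum fun i => (Measurable.tsum (mΨ i)).aemeasurable, ← ENNReal.tsum_mul_left]
    refine ENNReal.tsum_le_tsum fun i => ?_
    rw [lintegral_tsum fun y => (mΨ i y).aemeasurable]
    simp only [lintegral_indicator_const measurableSet_closedBall, Real.volume_closedBall,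
      tsum_fintype, Finset.sum_const, Finset.card_univ, Fintype.card_coe, nsmul_eq_mul]
    refine (mul_le_mul_left (C2 i) _).trans ?_
    have r0 : (r i : ℝ≥0∞) ≠ 0 := by simpa using (hr i).1.ne'
    have e2 : ENNReal.ofReal (2 * (2 * r i)) = 4 * r i := by
      rw [← mul_assoc, ENNReal.ofReal_mul (by norm_num)]; norm_num
    have e3 : (r i : ℝ≥0∞) ^ (-(b : ℝ)) * (r i : ℝ≥0∞) ^ (2 * m + 1) ≤ (r i : ℝ≥0∞) ^ (a : ℝ) := by
      rw [← ENNReal.rpow_natCast, ← ENNReal.rpow_add _ _ r0 (by simp)]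
      exact ENNReal.rpow_le_rpow_of_exponent_ge (by exact_mod_cast (hr i).2.trans e1)
        (by push_cast; linarith)
    refine le_trans (le_of_eq ?_) (mul_le_mul_right e3 D)
    rw [e2]
    simp only [D]
    ring
  have lim : Tendsto (fun δ : ℝ≥0∞ => D * (δ + δ)) (𝓝[>] 0) (𝓝 (D * (0 + 0))) :=
    (ENNReal.Tendsto.const_mul (tendsto_id.add tendsto_id) (Or.inr (by
      simp [D, ENNReal.mul_eq_top]))).mono_left nhdsWithin_le_nhds
  have := ge_of_tendsto lim (eventually_nhdsWithin_of_forall fun δ hδ => key δ (ne_of_gt hδ))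
  simp [q] at this
  norm_num at this

end Pool.Agent.H14.CubePack
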