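import Mathlib

namespace Pool.Agent.H14.Darb

open Set

def Gen (χ : ℤ → Bool) : Prop :=
  ∀ (N : ℕ) (ρ : ℤ) (j : ℕ) (c : ℤ) (b b' : Bool), 0 < N → (j + 1 ∣ N) → ((j : ℤ) + 1 ∣ ρ - c) →
    ¬ (j = 0 ∧ c = 0) →
    ∃ w y : ℤ, 1 ≤ w ∧ (N : ℤ) ∣ w - ρ ∧ w = (j + 1) * y + c ∧ χ w = b' ∧ χ y = b

theorem exists_gen : ∃ χ, Gen χ := by
  let R : ℕ × ℤ × ℕ × ℤ × Bool × Bool → Set (ℤ → Bool) := fun i =>
    {χ | 0 < i.1 → (i.2.2.1 + 1 ∣ i.1) → ((i.2.2.1 : ℤ) + 1 ∣ i.2.1 - i.2.2.2.1) →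
      ¬ (i.2.2.1 = 0 ∧ i.2.2.2.1 = 0) →
      ∃ w y : ℤ, 1 ≤ w ∧ (i.1 : ℤ) ∣ w - i.2.1 ∧ w = (i.2.2.1 + 1) * y + i.2.2.2.1 ∧
        χ w = i.2.2.2.2.2 ∧ χ y = i.2.2.2.2.1}
  have h : Dense (⋂ i, R i) := by
    refine dense_iInter_of_isOpen ?_ ?_
    · rintro ⟨N, ρ, j, c, b, b'⟩
      rw [isOpen_iff_mem_nhds]
      intro χ hχ
      have : ∀ w : ℤ, ∀ᶠ ψ in nhds χ, ψ w = χ w := fun w =>
        ((continuous_apply w).tendsto χ).eventually (p := fun x => x = χ w)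
          (by simp [nhds_discrete])
      by_cases hc : 0 < N ∧ (j + 1 ∣ N) ∧ ((j : ℤ) + 1 ∣ ρ - c) ∧ ¬ (j = 0 ∧ c = 0)
      · obtain ⟨w, y, h1, h2, h3, h4, h5⟩ := hχ hc.1 hc.2.1 hc.2.2.1 hc.2.2.2
        filter_upwards [this w, this y] with ψ e1 e2 _ _ _ _
        exact ⟨w, y, h1, h2, h3, e1.trans h4, e2.trans h5⟩
      · exact Filter.Eventually.of_forall fun ψ h1 h2 h3 h4 => (hc ⟨h1, h2, h3, h4⟩).elim
    · rintro ⟨N, ρ, j, c, b, b'⟩ χ
      rw [mem_closure_iff_nhds]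
      intro U hU
      by_cases hc : 0 < N ∧ (j + 1 ∣ N) ∧ ((j : ℤ) + 1 ∣ ρ - c) ∧ ¬ (j = 0 ∧ c = 0)
      swap
      · exact ⟨χ, mem_of_mem_nhds hU, fun h1 h2 h3 h4 => (hc ⟨h1, h2, h3, h4⟩).elim⟩
      rw [nhds_pi, Filter.mem_pi] at hU
      obtain ⟨I, hI, t, ht, hsub⟩ := hU
      obtain ⟨B, hB⟩ := hI.bddAbove
      obtain ⟨hN, ⟨q, hq⟩, ⟨y0, hy0⟩, hjc⟩ := hc
      have hq0 : 1 ≤ q := by
        rcases Nat.eq_zero_or_pos q with rfl | h
        · omega
        · exact h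
      set M : ℤ := |B| + |c| + |ρ| + |y0| + 1 with hM
      have a1 := le_abs_self B
      have a2 := neg_abs_le c
      have a3 := neg_abs_le ρ
      have a4 := neg_abs_le y0
      have a5 := abs_nonneg B
      have a6 := abs_nonneg c
      have a7 := abs_nonneg ρ
      have a8 := abs_nonneg y0
      have hN' : (1 : ℤ) ≤ N := by exact_mod_cast hN
      have hq' : (1 : ℤ) ≤ q := by exact_mod_cast hq0
      have hw : M ≤ N * M := by nlinarith
      have hy : M ≤ q * M := by nlinarith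
      have hwy : ρ + N * M = (j + 1) * (y0 + q * M) + c := by
        rw [hq]; push_cast; linarith
      have hne : ρ + N * M ≠ y0 + q * M := by
        rw [hwy]
        rcases Nat.eq_zero_or_pos j with rfl | h
        · simpa using hjc
        · have : (1 : ℤ) ≤ j := by exact_mod_cast h
          nlinarith
      refine ⟨Function.update (Function.update χ (ρ + N * M) b') (y0 + q * M) b, hsub ?_,
        fun _ _ _ _ => ⟨ρ + N * M, y0 + q * M, by linarith, by simp, hwy, ?_, by simp⟩⟩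
      · intro i hi
        have := hB hi
        rw [Function.update_of_ne (by linarith), Function.update_of_ne (by linarith)]
        exact mem_of_mem_nhds (ht i)
      · rw [Function.update_of_ne hne]; simp
  obtain ⟨χ, hχ⟩ := h.nonempty
  exact ⟨χ, fun N ρ j c b b' => mem_iInter.1 hχ (N, ρ, j, c, b, b')⟩

abbrev Tile := ℕ × ℤ × Option Bool

def Mem (χ : ℤ → Bool) (t : Tile) (w : ℤ) : Prop :=
  ∃ y, w = (t.1 + 1) * y + t.2.1 ∧ ∀ b, t.2.2 = some b → χ y = b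

noncomputable def w0 (t : Tile) : ℝ := if t.2.2 = none then 1 else 1 / 2

noncomputable def wt (t : Tile) : ℝ := w0 t / (t.1 + 1)

theorem w0_ge (t : Tile) : 1 / 2 ≤ w0 t := by unfold w0; split_ifs <;> norm_num

theorem wt_pos (t : Tile) : 0 < wt t := div_pos (by linarith [w0_ge t]) (by positivity)

def Cov (χ : ℤ → Bool) (W : Set ℤ) (l : Finset Tile) : Prop := ∀ w ∈ W, ∃ t ∈ l, Mem χ t w

noncomputable def m (χ : ℤ → Bool) (W : Set ℤ) : ℝ :=
  sInf {s | ∃ l, Cov χ W l ∧ s = ∑ t ∈ l, wt t}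

variable {χ : ℤ → Bool}

theorem cov_full (W : Set ℤ) : Cov χ W {(0, 0, none)} := fun w _ =>
  ⟨_, Finset.mem_singleton_self _, w, by simp, by simp⟩

theorem m_le {W : Set ℤ} {l : Finset Tile} (h : Cov χ W l) : m χ W ≤ ∑ t ∈ l, wt t :=
  csInf_le ⟨0, by
    rintro _ ⟨l, -, rfl⟩
    exact Finset.sum_nonneg fun t _ => (wt_pos t).le⟩ ⟨l, h, rfl⟩

theorem le_m {W : Set ℤ} {a : ℝ} (h : ∀ l, Cov χ W l → a ≤ ∑ t ∈ l, wt t) : a ≤ m χ W :=
  le_csInf ⟨_, _, cov_full W, rfl⟩ (by rintro _ ⟨l, hl, rfl⟩; exact h l hl)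

theorem m_le_one (W : Set ℤ) : m χ W ≤ 1 := by
  simpa [wt, w0] using m_le (cov_full (χ := χ) W)

theorem m_mono {W W' : Set ℤ} (h : W ⊆ W') : m χ W ≤ m χ W' :=
  le_m fun _ hl => m_le fun w hw => hl w (h hw)

theorem m_union (W W' : Set ℤ) : m χ (W ∪ W') ≤ m χ W + m χ W' := by
  classical
  rw [← sub_le_iff_le_add]
  refine le_m fun l hl => ?_
  rw [sub_le_comm]
  refine le_m fun l' hl' => ?_
  have h1 : Cov χ (W ∪ W') (l ∪ l') := by
    rintro w (hw | hw)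
    · obtain ⟨t, ht, h⟩ := hl w hw
      exact ⟨t, Finset.mem_union_left _ ht, h⟩
    · obtain ⟨t, ht, h⟩ := hl' w hw
      exact ⟨t, Finset.mem_union_right _ ht, h⟩
  have h2 := m_le h1
  have h3 := Finset.sum_union_inter (s₁ := l) (s₂ := l') (f := wt)
  have h4 : 0 ≤ ∑ t ∈ l ∩ l', wt t := Finset.sum_nonneg fun t _ => (wt_pos t).le
  linarith

theorem m_map {W W' : Set ℤ} {a : ℝ} (ha : 0 < a) (f : ℤ → Set ℤ)
    (hW : ∀ w' ∈ W', ∃ w ∈ W, w' ∈ f w)
    (h : ∀ t : Tile, ∃ t', wt t' ≤ a * wt t ∧ ∀ w, Mem χ t w → ∀ w' ∈ f w, Mem χ t' w') :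
    m χ W' ≤ a * m χ W := by
  classical
  choose φ h1 h2 using h
  rw [← div_le_iff₀' ha]
  refine le_m fun l hl => ?_
  rw [div_le_iff₀' ha, Finset.mul_sum]
  have h3 : Cov χ W' (l.image φ) := by
    intro w' hw'
    obtain ⟨w, hw, e⟩ := hW w' hw'
    obtain ⟨t, ht, h⟩ := hl w hw
    exact ⟨φ t, Finset.mem_image_of_mem _ ht, h2 t w h w' e⟩
  refine (m_le h3).trans ((Finset.sum_image_le_of_nonneg fun t _ => (wt_pos t).le).trans ?_)
  exact Finset.sum_le_sum fun t _ => h1 t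

theorem m_aff (W : Set ℤ) (k : ℕ) (h : ℤ) (hk : 0 < k) :
    m χ ((fun x => (k : ℤ) * x + h) '' W) = 1 / k * m χ W := by
  have hk' : (0 : ℝ) < k := by exact_mod_cast hk
  apply le_antisymm
  · refine m_map (by positivity) (fun w => {(k : ℤ) * w + h}) ?_ ?_
    · rintro _ ⟨w, hw, rfl⟩
      exact ⟨w, hw, rfl⟩
    · rintro ⟨j, c, o⟩
      have e : ((k * (j + 1) - 1 : ℕ) : ℤ) + 1 = k * (j + 1) := by
        have : 0 < k * (j + 1) := by positivity
        have : (k * (j + 1) - 1 : ℕ) + 1 = k * (j + 1) := by omega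
        exact_mod_cast this
      refine ⟨(k * (j + 1) - 1, k * c + h, o), le_of_eq ?_, ?_⟩
      · have e' : ((k * (j + 1) - 1 : ℕ) : ℝ) + 1 = k * (j + 1) := by exact_mod_cast e
        simp only [wt, w0, e']
        field_simp
      · rintro w ⟨y, rfl, hy⟩ _ rfl
        exact ⟨y, by simp only [e]; ring, hy⟩
  · rw [one_div, ← div_eq_inv_mul, div_le_iff₀' hk']
    refine m_map hk' (fun w => {w' | w = (k : ℤ) * w' + h}) (fun w hw => ⟨_, ⟨w, hw, rfl⟩, rfl⟩) ?_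
    rintro ⟨j, c, o⟩
    have hkz : (k : ℤ) ≠ 0 := by exact_mod_cast hk.ne'
    by_cases h1 : k ∣ j + 1
    · obtain ⟨q, hq⟩ := h1
      obtain ⟨q, rfl⟩ : ∃ r, q = r + 1 := ⟨q - 1, by
        rcases Nat.eq_zero_or_pos q with rfl | h <;> omega⟩
      have hq' : (j : ℝ) + 1 = k * (q + 1) := by exact_mod_cast hq
      have hq'' : (j : ℤ) + 1 = k * (q + 1) := by exact_mod_cast hq
      refine ⟨(q, (c - h) / k, o), le_of_eq ?_, ?_⟩
      · simp only [wt, w0, hq']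
        field_simp
      · rintro w ⟨y, rfl, hy⟩ w' hw'
        refine ⟨y, ?_, hy⟩
        simp only [mem_setOf_eq, hq''] at hw' ⊢
        have : c - h = k * (w' - (q + 1) * y) := by linarith
        rw [this, Int.mul_ediv_cancel_left _ hkz]; ring
    by_cases h2 : ∃ w₀ : ℤ, (j : ℤ) + 1 ∣ k * w₀ + h - c
    · obtain ⟨w₀, hw₀⟩ := h2
      obtain ⟨g, j', k', hg, hc, e1, e2⟩ := Nat.exists_coprime' (m := j + 1) (n := k)
        (Nat.gcd_pos_of_pos_right _ hk)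
      obtain ⟨j', rfl⟩ : ∃ r, j' = r + 1 := ⟨j' - 1, by
        rcases Nat.eq_zero_or_pos j' with rfl | h <;> omega⟩
      have hk2 : 2 ≤ k' := by
        by_contra hlt
        have : k' = 0 ∨ k' = 1 := by omega
        rcases this with rfl | rfl
        · omega
        · exact h1 ⟨j' + 1, by rw [e1, e2]; ring⟩
      refine ⟨(j', w₀, none), ?_, ?_⟩
      · have e1' : (j : ℝ) + 1 = (j' + 1) * g := by exact_mod_cast e1
        have e2' : (k : ℝ) = k' * g := by exact_mod_cast e2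
        have hg' : (0 : ℝ) < g := by exact_mod_cast hg
        have hk2' : (2 : ℝ) ≤ k' := by exact_mod_cast hk2
        have h3 := w0_ge (j, c, o)
        have h4 : w0 (j', w₀, none) = 1 := by simp [w0]
        simp only [wt, e1', e2', h4]
        rw [← mul_div_assoc, div_le_div_iff₀ (by positivity) (by positivity)]
        have : 1 ≤ k' * w0 (j, c, o) := by nlinarith
        have h5 : (0 : ℝ) < (j' + 1) * g := by positivity
        nlinarith
      · rintro w ⟨y, rfl, -⟩ w' hw'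
        simp only [mem_setOf_eq] at hw'
        have e1' : (j : ℤ) + 1 = (j' + 1) * g := by exact_mod_cast e1
        have e2' : (k : ℤ) = k' * g := by exact_mod_cast e2
        have h3 : (j : ℤ) + 1 ∣ k * (w' - w₀) := by
          have : (k : ℤ) * (w' - w₀) = (j + 1) * y - (k * w₀ + h - c) := by linarith
          rw [this]
          exact dvd_sub (dvd_mul_right _ _) hw₀
        rw [e1', e2', mul_right_comm] at h3
        have h4 := Int.dvd_of_mul_dvd_mul_right (by exact_mod_cast hg.ne') h3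
        have h5 : IsCoprime ((j' : ℤ) + 1) k' := by exact_mod_cast Nat.isCoprime_iff_coprime.2 hc
        obtain ⟨z, hz⟩ := h5.dvd_of_dvd_mul_left h4
        exact ⟨z, by simp only; linarith, by simp⟩
    · refine ⟨(j, c, o), ?_, ?_⟩
      · have : (1 : ℝ) ≤ k := by exact_mod_cast hk
        nlinarith [wt_pos (j, c, o)]
      · rintro w ⟨y, rfl, -⟩ w' hw'
        exact (h2 ⟨w', y, by simp only [mem_setOf_eq] at hw'; linarith⟩).elim

noncomputable def loc (l : Finset Tile) (ρ : ℤ) : ℝ :=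
  ∑ t ∈ l with (t.1 : ℤ) + 1 ∣ ρ - t.2.1, w0 t

theorem avg (l : Finset Tile) {N : ℕ} (h : ∀ t ∈ l, t.1 + 1 ∣ N) :
    ∑ ρ ∈ Finset.Ico (0 : ℤ) N, loc l ρ = N * ∑ t ∈ l, wt t := by
  simp only [loc, Finset.sum_filter]
  rw [Finset.sum_comm, Finset.mul_sum]
  refine Finset.sum_congr rfl fun t ht => ?_
  obtain ⟨q, hq⟩ := h t ht
  rw [← Finset.sum_filter, Finset.sum_const, nsmul_eq_mul]
  have h1 := Int.Ico_filter_modEq_card 0 N (r := (t.1 : ℤ) + 1) (by positivity) t.2.1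
  have h2 : (Finset.Ico (0 : ℤ) N).filter (fun ρ => (t.1 : ℤ) + 1 ∣ ρ - t.2.1) =
      (Finset.Ico (0 : ℤ) N).filter (fun x => x ≡ t.2.1 [ZMOD (t.1 : ℤ) + 1]) :=
    Finset.filter_congr fun x _ => by rw [Int.modEq_comm, Int.modEq_iff_dvd]
  have h3 : (((N : ℤ) : ℚ) - t.2.1) / (((t.1 : ℤ) + 1 : ℤ) : ℚ) =
      (((0 : ℤ) : ℚ) - t.2.1) / (((t.1 : ℤ) + 1 : ℤ) : ℚ) + (q : ℤ) := by
    rw [hq]; push_cast; field_simp; ring
  rw [h3, Int.ceil_add_intCast, add_sub_cancel_left, max_eq_left (by positivity)] at h1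
  have h4 : ((Finset.Ico (0 : ℤ) N).filter (fun x => x ≡ t.2.1 [ZMOD (t.1 : ℤ) + 1])).card = q := by
    exact_mod_cast h1
  rw [h2, h4, hq, wt]
  push_cast
  field_simp

theorem loc_nonneg (l : Finset Tile) (ρ : ℤ) : 0 ≤ loc l ρ :=
  Finset.sum_nonneg fun t _ => by linarith [w0_ge t]

theorem le_loc {l : Finset Tile} {ρ : ℤ} {t : Tile} (ht : t ∈ l) (h : (t.1 : ℤ) + 1 ∣ ρ - t.2.1) :
    w0 t ≤ loc l ρ :=
  Finset.single_le_sum (f := w0) (fun t _ => by linarith [w0_ge t]) (Finset.mem_filter.2 ⟨ht, h⟩)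

/-- if the local cost is less than one, the active tiles are covered by one half tile -/
theorem small {l : Finset Tile} {ρ : ℤ} {N : ℕ} (hN : ∀ t ∈ l, t.1 + 1 ∣ N) (h : loc l ρ < 1) :
    (∀ w, (N : ℤ) ∣ w - ρ → ∀ t ∈ l, ¬ Mem χ t w) ∨
    ∃ j c b, (j, c, some b) ∈ l ∧ (j : ℤ) + 1 ∣ ρ - c ∧ 1 / 2 ≤ loc l ρ ∧
      ∀ w y, (N : ℤ) ∣ w - ρ → w = (j + 1) * y + c → (∃ t ∈ l, Mem χ t w) → χ y = b := by
  have act : ∀ w, (N : ℤ) ∣ w - ρ → ∀ t ∈ l, Mem χ t w → (t.1 : ℤ) + 1 ∣ ρ - t.2.1 := by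
    rintro w hw t ht ⟨y, hy, -⟩
    have h1 : (t.1 : ℤ) + 1 ∣ N := by exact_mod_cast hN t ht
    have : ρ - t.2.1 = (t.1 + 1) * y - (w - ρ) := by linarith
    rw [this]
    exact dvd_sub (dvd_mul_right _ _) (h1.trans hw)
  by_cases h1 : ∃ t ∈ l, (t.1 : ℤ) + 1 ∣ ρ - t.2.1
  · obtain ⟨⟨j, c, o⟩, ht, hd⟩ := h1
    have h2 := le_loc ht hd
    cases o with
    | none => simp [w0] at h2; linarith
    | some b =>
      refine Or.inr ⟨j, c, b, ht, hd, (w0_ge _).trans h2, ?_⟩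
      rintro w y hw hy ⟨t, ht', hm⟩
      have h3 : t = (j, c, some b) := by
        by_contra hne
        have := Finset.sum_le_sum_of_subset_of_nonneg (f := w0) (s := {t, (j, c, some b)})
          (t := l.filter fun t => (t.1 : ℤ) + 1 ∣ ρ - t.2.1) (by
            intro x hx
            rcases Finset.mem_insert.1 hx with rfl | hx
            · exact Finset.mem_filter.2 ⟨ht', act w hw _ ht' hm⟩
            · rw [Finset.mem_singleton.1 hx]; exact Finset.mem_filter.2 ⟨ht, hd⟩)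
          (fun t _ _ => by linarith [w0_ge t])
        rw [Finset.sum_pair hne] at this
        unfold loc at h
        linarith [w0_ge t, w0_ge (j, c, some b)]
      subst h3
      obtain ⟨y', hy', hb⟩ := hm
      have : y = y' := by
        have h4 : ((j : ℤ) + 1) * y = (j + 1) * y' := by simp only at hy'; linarith
        exact mul_left_cancel₀ (by positivity) h4
      rw [this]; exact hb b rfl
  · exact Or.inl fun w hw t ht hm => h1 ⟨t, ht, act w hw t ht hm⟩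

theorem key (hχ : Gen χ) {H Y : Set ℤ} (hH : ∀ w, 1 ≤ w → w ∈ H) (hY : ∀ w ∈ Y, χ w = true)
    {U V : Finset Tile} (hU : Cov χ Y U) (hV : Cov χ (H \ Y) V) (h0 : (0, 0, some true) ∉ U) :
    1 ≤ ∑ t ∈ V, wt t + 2 / 3 * ∑ t ∈ U, wt t := by
  classical
  set N := ∏ t ∈ U ∪ V, (t.1 + 1) with hNd
  have hN : 0 < N := Finset.prod_pos fun t _ => Nat.succ_pos _
  have hNU : ∀ t ∈ U, t.1 + 1 ∣ N := fun t ht =>
    Finset.dvd_prod_of_mem (fun t : Tile => t.1 + 1) (Finset.mem_union_left _ ht)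
  have hNV : ∀ t ∈ V, t.1 + 1 ∣ N := fun t ht =>
    Finset.dvd_prod_of_mem (fun t : Tile => t.1 + 1) (Finset.mem_union_right _ ht)
  have one : ∀ ρ b, ∃ w, 1 ≤ w ∧ (N : ℤ) ∣ w - ρ ∧ χ w = b := fun ρ b => by
    obtain ⟨w, y, h1, h2, -, h4, -⟩ := hχ N ρ 0 1 b b hN (by simp) (by simp) (by simp)
    exact ⟨w, h1, h2, h4⟩
  have hl : ∀ ρ, 1 ≤ loc V ρ + 2 / 3 * loc U ρ := by
    intro ρ
    by_contra hlt
    have u0 := loc_nonneg U ρ
    rcases small (χ := χ) hNV (ρ := ρ) (by linarith) with h | ⟨j, c, b, ht, hd, hv, h⟩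
    · obtain ⟨w, h1, h2, h3⟩ := one ρ false
      obtain ⟨t, ht, hm⟩ := hV w ⟨hH w h1, fun hw => by simp [hY w hw] at h3⟩
      exact h w h2 t ht hm
    by_cases hjc : j = 0 ∧ c = 0
    · obtain ⟨rfl, rfl⟩ := hjc
      have inY : ∀ w, 1 ≤ w → (N : ℤ) ∣ w - ρ → χ w = !b → w ∈ Y := by
        intro w h1 h2 h3
        by_contra hw
        have := h w w h2 (by simp) (hV w ⟨hH w h1, hw⟩)
        simp [this] at h3
      cases b with
      | true =>
        obtain ⟨w, h1, h2, h3⟩ := one ρ false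
        simp [hY w (inY w h1 h2 h3)] at h3
      | false =>
        rcases small (χ := χ) hNU (ρ := ρ) (by linarith) with g | ⟨j, c, b, gt, gd, -, g⟩
        · obtain ⟨w, h1, h2, h3⟩ := one ρ true
          obtain ⟨t, ht, hm⟩ := hU w (inY w h1 h2 h3)
          exact g w h2 t ht hm
        by_cases hjc : j = 0 ∧ c = 0
        · obtain ⟨rfl, rfl⟩ := hjc
          obtain ⟨w, h1, h2, h3⟩ := one ρ true
          have := g w w h2 (by simp) (hU w (inY w h1 h2 h3))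
          rw [h3] at this
          exact h0 (this ▸ gt)
        · obtain ⟨w, y, h1, h2, h3, h4, h5⟩ := hχ N ρ j c (!b) true hN (hNU _ gt) gd hjc
          have := g w y h2 h3 (hU w (inY w h1 h2 h4))
          simp [this] at h5
    · obtain ⟨w, y, h1, h2, h3, h4, h5⟩ := hχ N ρ j c (!b) false hN (hNV _ ht) hd hjc
      have := h w y h2 h3 (hV w ⟨hH w h1, fun hw => by simp [hY w hw] at h4⟩)
      simp [this] at h5
  have h1 := Finset.sum_le_sum (s := Finset.Ico (0 : ℤ) N) fun ρ _ => hl ρ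
  rw [Finset.sum_add_distrib, ← Finset.mul_sum, avg V hNV, avg U hNU] at h1
  simp only [Finset.sum_const, Int.card_Ico, sub_zero, Int.toNat_natCast, nsmul_eq_mul] at h1
  have hN' : (0 : ℝ) < N := by exact_mod_cast hN
  nlinarith

theorem m_H (hχ : Gen χ) {H : Set ℤ} (hH : ∀ w, 1 ≤ w → w ∈ H) : m χ H = 1 := by
  refine le_antisymm (m_le_one H) (le_m fun l hl => ?_)
  simpa using key hχ hH (Y := ∅) (by simp) (U := ∅) (V := l) (fun w hw => hw.elim)
    (by simpa using hl) (by simp)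

theorem m_half (b : Bool) {W : Set ℤ} (h : ∀ w ∈ W, χ w = b) : m χ W ≤ 1 / 2 := by
  have : Cov χ W {(0, 0, some b)} := fun w hw =>
    ⟨_, Finset.mem_singleton_self _, w, by simp, by simp [h w hw]⟩
  simpa [wt, w0] using m_le this

theorem gap (hχ : Gen χ) {H Y : Set ℤ} (hH : ∀ w, 1 ≤ w → w ∈ H) (hY : ∀ w ∈ Y, χ w = true)
    (h : m χ Y < 1 / 2) : 1 ≤ m χ (H \ Y) + 2 / 3 * m χ Y := by
  rw [← sub_le_iff_le_add]
  refine le_m fun V hV => ?_
  have h1 : min (1 / 2) (3 / 2 * (1 - ∑ t ∈ V, wt t)) ≤ m χ Y := by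
    refine le_m fun U hU => ?_
    by_cases h0 : (0, 0, some true) ∈ U
    · refine (min_le_left _ _).trans (le_trans ?_
        (Finset.single_le_sum (f := wt) (fun t _ => (wt_pos t).le) h0))
      simp [wt, w0]
    · have := key hχ hH hY hU hV h0
      exact (min_le_right _ _).trans (by linarith)
  rcases min_le_iff.1 h1 with h2 | h2 <;> linarith

end Pool.Agent.H14.Darb
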