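import Mathlib

set_option autoImplicit false

namespace Pool.Agent.H14.Density

open Set Filter

/-- The set `k * X + h`. -/
def aff (k h : ℤ) (X : Set ℤ) : Set ℤ := (fun x => k * x + h) '' X

/-- An upper quasi-density on `H`: only the values on subsets of `H` matter. -/
def IsUpperQuasiDensity (H : Set ℤ) (μ : Set ℤ → ℝ) : Prop :=
  μ H = 1 ∧ (∀ X ⊆ H, ∀ Y ⊆ H, μ (X ∪ Y) ≤ μ X + μ Y) ∧
    (∀ X ⊆ H, ∀ k h : ℤ, 0 < k → 0 < h → μ (aff k h X) = 1 / k * μ X) ∧ ∀ X ⊆ H, μ X ≤ 1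

/-- An upper density on `H`: a monotone upper quasi-density. -/
def IsUpperDensity (H : Set ℤ) (μ : Set ℤ → ℝ) : Prop :=
  IsUpperQuasiDensity H μ ∧ ∀ Y ⊆ H, ∀ X ⊆ Y, μ X ≤ μ Y

/-- The lower dual on `H`. -/
def lower (H : Set ℤ) (μ : Set ℤ → ℝ) (X : Set ℤ) : ℝ := 1 - μ (H \ X)

def pre (k c : ℤ) (X : Set ℤ) : Set ℤ := {y | k * y + c ∈ X}

def a (n : ℕ) : ℕ := (n + 1).factorial

lemma a_mono : Monotone a := fun _ _ h => Nat.factorial_le (Nat.succ_le_succ h)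

lemma a_succ (n : ℕ) : a (n + 1) = (n + 2) * a n := Nat.factorial_succ (n + 1)

lemma le_a (n : ℕ) : n + 1 ≤ a n := Nat.self_le_factorial _

lemma gap1 (C : ℕ) : ∀ᶠ n in atTop, n + 1 + C ≤ a n := by
  filter_upwards [eventually_ge_atTop (C + 2)] with n hn
  obtain ⟨m, rfl⟩ : ∃ m, n = m + 1 := ⟨n - 1, by omega⟩
  have := le_a m
  rw [a_succ]
  nlinarith

lemma gap2 (C : ℕ) : ∀ᶠ n in atTop, C * a n + C ≤ a (n + 1) := by
  filter_upwards [eventually_ge_atTop (2 * C)] with n hn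
  have := le_a n
  rw [a_succ]
  nlinarith

open Classical in
noncomputable def cnt (n : ℕ) (X : Set ℤ) : ℕ :=
  ((Finset.range (n + 1)).filter fun j : ℕ => (a n : ℤ) + j ∈ X).card

noncomputable def δ (X : Set ℤ) : ℝ := sInf {t | ∀ᶠ n in atTop, (cnt n X : ℝ) ≤ t * (n + 1)}

lemma cnt_le (n : ℕ) (X : Set ℤ) : cnt n X ≤ n + 1 := by
  classical
  exact (Finset.card_filter_le _ _).trans (by simp)

lemma bdd (X : Set ℤ) : ∀ t ∈ {t : ℝ | ∀ᶠ n in atTop, (cnt n X : ℝ) ≤ t * (n + 1)}, 0 ≤ t := by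
  intro t ht
  obtain ⟨n, hn⟩ := ht.exists
  have h1 : (0 : ℝ) ≤ cnt n X := Nat.cast_nonneg _
  have h2 : (0 : ℝ) < n + 1 := by positivity
  exact nonneg_of_mul_nonneg_left (h1.trans hn) h2

lemma one_mem (X : Set ℤ) : (1 : ℝ) ∈ {t : ℝ | ∀ᶠ n in atTop, (cnt n X : ℝ) ≤ t * (n + 1)} :=
  Eventually.of_forall fun n => by
    rw [one_mul]
    exact_mod_cast cnt_le n X

lemma δ_le {X : Set ℤ} {t : ℝ} (h : ∀ᶠ n in atTop, (cnt n X : ℝ) ≤ t * (n + 1)) : δ X ≤ t :=
  csInf_le ⟨0, bdd X⟩ h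

lemma δ_ev {X : Set ℤ} {t : ℝ} (h : δ X < t) : ∀ᶠ n in atTop, (cnt n X : ℝ) ≤ t * (n + 1) := by
  obtain ⟨s, hs, hst⟩ := exists_lt_of_csInf_lt ⟨1, one_mem X⟩ h
  filter_upwards [hs] with n hn
  exact hn.trans (mul_le_mul_of_nonneg_right hst.le (by positivity))

lemma δ_nonneg (X : Set ℤ) : 0 ≤ δ X := le_csInf ⟨1, one_mem X⟩ (bdd X)

lemma δ_le_of {X : Set ℤ} {t : ℝ} (C : ℝ)
    (h : ∀ ε > 0, ∀ᶠ n in atTop, (cnt n X : ℝ) ≤ (t + ε) * (n + 1) + C) : δ X ≤ t := by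
  refine le_of_forall_pos_le_add fun ε hε => δ_le ?_
  have h1 : ∀ᶠ n : ℕ in atTop, C / (ε / 2) ≤ n :=
    tendsto_natCast_atTop_atTop.eventually_ge_atTop _
  filter_upwards [h (ε / 2) (by positivity), h1] with n hn h2
  rw [div_le_iff₀ (by positivity)] at h2
  nlinarith

lemma cnt_union (n : ℕ) {X Y Z : Set ℤ} (h : Z ⊆ X ∪ Y) : cnt n Z ≤ cnt n X + cnt n Y := by
  classical
  unfold cnt
  refine le_trans (Finset.card_le_card fun j hj => ?_) (Finset.card_union_le _ _)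
  simp only [Finset.mem_filter, Finset.mem_union] at hj ⊢
  rcases h hj.2 with h' | h'
  · exact Or.inl ⟨hj.1, h'⟩
  · exact Or.inr ⟨hj.1, h'⟩

lemma δ_union {X Y Z : Set ℤ} (h : Z ⊆ X ∪ Y) : δ Z ≤ δ X + δ Y := by
  refine δ_le_of 0 fun ε hε => ?_
  filter_upwards [δ_ev (X := X) (t := δ X + ε / 2) (by linarith),
    δ_ev (X := Y) (t := δ Y + ε / 2) (by linarith)] with n h1 h2
  have : (cnt n Z : ℝ) ≤ cnt n X + cnt n Y := by exact_mod_cast cnt_union n h
  nlinarith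

def Far (X : Set ℤ) : Prop := ∀ᶠ n in atTop, ∀ x ∈ X, ¬ ((a n : ℤ) ≤ x ∧ x < a n + (n + 1))

lemma δ_far {X : Set ℤ} (h : Far X) : δ X = 0 := by
  classical
  refine le_antisymm (δ_le ?_) (δ_nonneg X)
  filter_upwards [h] with n hn
  have : cnt n X = 0 := by
    unfold cnt
    rw [Finset.card_eq_zero, Finset.filter_eq_empty_iff]
    intro j hj hx
    have := Finset.mem_range.1 hj
    exact hn _ hx ⟨by omega, by omega⟩
  simp [this]

lemma far_empty : Far ∅ := Eventually.of_forall fun _ _ h => h.elim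

lemma δ_mono {X Y : Set ℤ} (h : X ⊆ Y) : δ X ≤ δ Y := by
  simpa [δ_far far_empty] using δ_union (X := Y) (Y := ∅) (by simpa using h)

lemma δ_univ : 1 ≤ δ univ := by
  refine le_csInf ⟨1, one_mem _⟩ fun t ht => ?_
  obtain ⟨n, hn⟩ := ht.exists
  have : cnt n univ = n + 1 := by simp [cnt]
  rw [this] at hn
  push_cast at hn
  have h2 : (0 : ℝ) < n + 1 := by positivity
  nlinarith

lemma δ_cofar {X : Set ℤ} (h : Far Xᶜ) : 1 ≤ δ X := by
  have := δ_union (X := X) (Y := Xᶜ) (Z := univ) (by simp)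
  rw [δ_far h] at this
  linarith [δ_univ]

lemma δ_shift (h : ℤ) (X : Set ℤ) : δ (aff 1 h X) ≤ δ X := by
  classical
  refine δ_le_of (2 * h.natAbs) fun ε hε => ?_
  filter_upwards [δ_ev (X := X) (t := δ X + ε) (by linarith)] with n h1
  have : cnt n (aff 1 h X) ≤ cnt n X + 2 * h.natAbs := by
    unfold cnt
    let A := (Finset.range (n + 1)).filter fun j : ℕ => (a n : ℤ) + j ∈ X
    have h2 : ((Finset.range (n + 1)).filter fun j : ℕ => (a n : ℤ) + j ∈ aff 1 h X) ⊆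
        A.image (fun j : ℕ => ((j : ℤ) + h).toNat) ∪ (Finset.range h.natAbs ∪
          Finset.Ico (n + 1 - h.natAbs) (n + 1)) := by
      intro j hj
      obtain ⟨hj1, x, hx, he⟩ := Finset.mem_filter.1 hj
      simp only [Finset.mem_union, Finset.mem_range, Finset.mem_Ico, Finset.mem_image] at hj1 ⊢
      simp only at he
      by_cases h3 : 0 ≤ (j : ℤ) - h ∧ (j : ℤ) - h < n + 1
      · refine Or.inl ⟨((j : ℤ) - h).toNat, Finset.mem_filter.2 ⟨Finset.mem_range.2 (by omega), ?_⟩,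
          by omega⟩
        have : (a n : ℤ) + (((j : ℤ) - h).toNat : ℤ) = x := by omega
        rwa [this]
      · right
        omega
    refine (Finset.card_le_card h2).trans ((Finset.card_union_le _ _).trans ?_)
    refine Nat.add_le_add Finset.card_image_le ((Finset.card_union_le _ _).trans ?_)
    simp only [Finset.card_range, Nat.card_Ico]
    omega
  have : (cnt n (aff 1 h X) : ℝ) ≤ cnt n X + 2 * h.natAbs := by exact_mod_cast this
  linarith

lemma δ_ap (l : ℕ) (hl : 0 < l) (h : ℤ) : δ (aff l h univ) ≤ 1 / l := by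
  classical
  refine δ_le_of 1 fun ε hε => Eventually.of_forall fun n => ?_
  have h1 : cnt n (aff l h univ) ≤ n / l + 1 := by
    unfold cnt
    rw [← Finset.card_range (n / l + 1)]
    refine Finset.card_le_card_of_injOn (fun j => j / l) (fun j hj => ?_) fun i hi j hj hij => ?_
    · have := Finset.mem_range.1 (Finset.mem_filter.1 hj).1
      exact Finset.mem_coe.2 (Finset.mem_range.2
        (Nat.lt_succ_of_le (Nat.div_le_div_right (by omega))))
    · obtain ⟨-, x, -, hx⟩ := Finset.mem_filter.1 (Finset.mem_coe.1 hi)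
      obtain ⟨-, y, -, hy⟩ := Finset.mem_filter.1 (Finset.mem_coe.1 hj)
      simp only at hx hy hij
      have h2 : i ≡ j [MOD l] := by
        rw [Nat.modEq_iff_dvd]
        exact ⟨y - x, by linarith⟩
      rw [← Nat.div_add_mod i l, ← Nat.div_add_mod j l, hij, h2]
  have h2 : ((n / l : ℕ) : ℝ) ≤ n / l := Nat.cast_div_le
  have h3 : (cnt n (aff l h univ) : ℝ) ≤ (n / l : ℕ) + 1 := by exact_mod_cast h1
  have h4 : (n : ℝ) / l ≤ 1 / l * (n + 1) := by
    rw [div_mul_eq_mul_div, one_mul]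
    gcongr
    linarith
  have h5 : (0 : ℝ) ≤ ε * (n + 1) := by positivity
  nlinarith

noncomputable def D (p : ℕ+ × ℕ+ × ℤ) (X : Set ℤ) : ℝ :=
  ((p.2.1 : ℕ) : ℝ) / (p.1 : ℕ) * δ (aff (p.2.1 : ℕ) 0 (pre (p.1 : ℕ) p.2.2 X))

noncomputable def μ (X : Set ℤ) : ℝ := ⨆ p, D p X

lemma D_le (p : ℕ+ × ℕ+ × ℤ) (X : Set ℤ) : D p X ≤ 1 / (p.1 : ℕ) := by
  have h1 := (δ_mono (image_mono (subset_univ (pre (p.1 : ℕ) p.2.2 X)))).trans
    (δ_ap _ p.2.1.pos 0)
  have h2 : (0 : ℝ) < (p.2.1 : ℕ) := by exact_mod_cast p.2.1.pos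
  have h3 : (0 : ℝ) < (p.1 : ℕ) := by exact_mod_cast p.1.pos
  refine (mul_le_mul_of_nonneg_left h1 (by positivity)).trans (le_of_eq ?_)
  field_simp

lemma D_le_one (p : ℕ+ × ℕ+ × ℤ) (X : Set ℤ) : D p X ≤ 1 := by
  refine (D_le p X).trans ?_
  have h3 : (1 : ℝ) ≤ (p.1 : ℕ) := by exact_mod_cast p.1.pos
  exact (div_le_one (by linarith)).2 h3

lemma le_μ (p : ℕ+ × ℕ+ × ℤ) (X : Set ℤ) : D p X ≤ μ X :=
  le_ciSup (f := fun p => D p X) ⟨1, by rintro _ ⟨p, rfl⟩; exact D_le_one p X⟩ p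

lemma μ_le_one (X : Set ℤ) : μ X ≤ 1 := ciSup_le fun p => D_le_one p X

lemma δ_le_μ (X : Set ℤ) : δ X ≤ μ X := by
  have := le_μ (1, 1, 0) X
  simpa [D, aff, pre] using this

lemma μ_nonneg (X : Set ℤ) : 0 ≤ μ X := (δ_nonneg X).trans (δ_le_μ X)

lemma μ_union {X Y Z : Set ℤ} (h : Z ⊆ X ∪ Y) : μ Z ≤ μ X + μ Y := by
  refine ciSup_le fun p => le_trans ?_ (add_le_add (le_μ p X) (le_μ p Y))
  unfold D
  rw [← mul_add]
  refine mul_le_mul_of_nonneg_left (δ_union ?_) (by positivity)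
  rintro _ ⟨y, hy, rfl⟩
  rcases h hy with h' | h'
  · exact Or.inl ⟨y, h', rfl⟩
  · exact Or.inr ⟨y, h', rfl⟩

lemma μ_mono {X Y : Set ℤ} (h : X ⊆ Y) : μ X ≤ μ Y := by
  refine ciSup_le fun p => le_trans ?_ (le_μ p Y)
  exact mul_le_mul_of_nonneg_left (δ_mono (image_mono fun y hy => h hy)) (by positivity)

lemma μ_aff (m r : ℤ) (hm : 0 < m) (X : Set ℤ) : μ (aff m r X) = 1 / m * μ X := by
  lift m to ℕ using hm.le
  have hm' : 0 < m := by exact_mod_cast hm
  have hmR : (0 : ℝ) < m := by exact_mod_cast hm'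
  push_cast
  apply le_antisymm
  · refine ciSup_le fun ⟨k, l, c⟩ => ?_
    rcases (pre (k : ℕ) c (aff m r X)).eq_empty_or_nonempty with he | ⟨y0, x0, -, h0⟩
    · simp only [D, he]
      simp only [aff, image_empty, δ_far far_empty, mul_zero]
      exact mul_nonneg (by positivity) (μ_nonneg X)
    obtain ⟨k', m', hc, hk, hm2⟩ := Nat.exists_coprime (k : ℕ) m
    set g := Nat.gcd (k : ℕ) m
    have hg : 0 < g := Nat.gcd_pos_of_pos_right _ hm'
    have hk' : 0 < k' := Nat.pos_of_mul_pos_right (hk ▸ k.pos)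
    have hm'' : 0 < m' := Nat.pos_of_mul_pos_right (hm2 ▸ hm')
    have hsub : aff (l : ℕ) 0 (pre (k : ℕ) c (aff m r X)) ⊆
        aff 1 ((l : ℕ) * y0) (aff ((l : ℕ) * m' : ℕ) 0 (pre k' x0 X)) := by
      rintro _ ⟨y, ⟨x, hx, h1⟩, rfl⟩
      simp only at h0 h1
      have h2 : (k' : ℤ) * (y - y0) = m' * (x - x0) := by
        have hg' : (g : ℤ) ≠ 0 := by exact_mod_cast hg.ne'
        apply mul_left_cancel₀ hg'
        have e1 : ((k : ℕ) : ℤ) = k' * g := by exact_mod_cast hk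
        have e2 : (m : ℤ) = m' * g := by exact_mod_cast hm2
        rw [e1, e2] at h0 h1
        linarith
      obtain ⟨z, hz⟩ : (m' : ℤ) ∣ y - y0 :=
        (Nat.isCoprime_iff_coprime.2 hc.symm).dvd_of_dvd_mul_left ⟨x - x0, h2⟩
      have h3 : x - x0 = k' * z := by
        have : (m' : ℤ) ≠ 0 := by exact_mod_cast hm''.ne'
        apply mul_left_cancel₀ this
        rw [← h2, hz]
        ring
      refine ⟨_, ⟨z, ?_, rfl⟩, ?_⟩
      · have : (k' : ℤ) * z + x0 = x := by linarith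
        simpa [pre, this] using hx
      · have : y = y0 + m' * z := by linarith
        simp only [this]
        push_cast
        ring
    have h4 := (δ_mono hsub).trans (δ_shift _ _)
    have h5 := le_μ (⟨k', hk'⟩, l * ⟨m', hm''⟩, x0) X
    refine le_trans ?_ (mul_le_mul_of_nonneg_left h5 (by positivity))
    simp only [D, PNat.mul_coe, PNat.mk_coe]
    refine (mul_le_mul_of_nonneg_left h4 (by positivity)).trans (le_of_eq ?_)
    have e1 : ((k : ℕ) : ℝ) = k' * g := by exact_mod_cast hk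
    have e2 : (m : ℝ) = m' * g := by exact_mod_cast hm2
    have : (0 : ℝ) < k' := by exact_mod_cast hk'
    have : (0 : ℝ) < m' := by exact_mod_cast hm''
    have : (0 : ℝ) < g := by exact_mod_cast hg
    rw [e1, e2]
    push_cast
    field_simp
  · rw [one_div, inv_mul_le_iff₀ hmR]
    refine ciSup_le fun ⟨k, l, c⟩ => ?_
    have h5 := le_μ (⟨m, hm'⟩ * k, l, m * c + r) (aff m r X)
    refine le_trans (le_of_eq ?_) (mul_le_mul_of_nonneg_left h5 hmR.le)
    have e : pre ((m * (k : ℕ) : ℕ) : ℤ) (m * c + r) (aff m r X) = pre (k : ℕ) c X := by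
      ext y
      constructor
      · rintro ⟨x, hx, he⟩
        have : ((k : ℕ) : ℤ) * y + c = x := by
          apply mul_left_cancel₀ hm.ne'
          push_cast at he
          linarith
        simpa [pre, this] using hx
      · intro hy
        exact ⟨_, hy, by push_cast; ring⟩
    simp only [D, PNat.mul_coe, PNat.mk_coe, e]
    push_cast
    field_simp

def S : Set ℤ := {x | ∃ n : ℕ, (a n : ℤ) ≤ x ∧ x < a n + (n + 1)}

lemma far_compl_S : Far Sᶜ := Eventually.of_forall fun n _ hx h => hx ⟨n, h⟩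

lemma far_aff (m h : ℤ) (hm : 2 ≤ m) : Far (aff m h S) := by
  lift m to ℕ using (by omega)
  obtain ⟨N, hN⟩ := eventually_atTop.1 (gap2 (2 * m + h.natAbs))
  filter_upwards [gap1 h.natAbs, eventually_ge_atTop (N + 1)] with n h1 h2
  rintro _ ⟨s, ⟨j, hj1, hj2⟩, rfl⟩ ⟨h3, h4⟩
  simp only at h3 h4
  rcases le_or_gt n j with hnj | hnj
  · have h5 : (a n : ℤ) ≤ a j := by exact_mod_cast a_mono hnj
    have h6 : (2 : ℤ) * s ≤ m * s := mul_le_mul_of_nonneg_right hm (by omega)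
    omega
  · obtain ⟨n, rfl⟩ : ∃ n', n = n' + 1 := ⟨n - 1, by omega⟩
    have h5 : a j ≤ a n := a_mono (by omega)
    have h6 := le_a j
    have h7 := hN n (by omega)
    have h8 : (m : ℤ) * s < m * (2 * a n) := mul_lt_mul_of_pos_left (by omega) (by omega)
    have h9 : ((2 * m + h.natAbs) * a n + (2 * m + h.natAbs) : ℤ) ≤ a (n + 1) := by
      exact_mod_cast h7
    have h10 : (0 : ℤ) ≤ h.natAbs * a n := by positivity
    have h11 : h ≤ h.natAbs := Int.le_natAbs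
    nlinarith

lemma far_le (c : ℤ) : Far {x | x ≤ c} := by
  filter_upwards [gap1 c.natAbs] with n hn x hx h
  have : x ≤ c := hx
  omega

lemma Far.union {X Y Z : Set ℤ} (hX : Far X) (hY : Far Y) (h : Z ⊆ X ∪ Y) : Far Z := by
  filter_upwards [hX, hY] with n h1 h2 x hx
  exact (h hx).elim (h1 x) (h2 x)

lemma μ_half {Y : Set ℤ} (hY : Y ⊆ aff 2 0 S ∪ aff 2 1 univ) : μ Y ≤ 1 / 2 := by
  refine ciSup_le fun ⟨k, l, c⟩ => ?_
  rcases eq_or_ne k 1 with rfl | hk
  · have hl : (0 : ℝ) < (l : ℕ) := by exact_mod_cast l.pos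
    have hl' : (1 : ℤ) ≤ (l : ℕ) := by exact_mod_cast l.pos
    have h1 : aff (l : ℕ) 0 (pre ((1 : ℕ+) : ℕ) c Y) ⊆ aff (2 * (l : ℕ)) (-(l : ℕ) * c) S ∪
        aff ((2 * (l : ℕ) : ℕ)) ((l : ℕ) * (1 - c)) univ := by
      rintro _ ⟨y, hy, rfl⟩
      rcases hY hy with ⟨s, hs, he⟩ | ⟨s, hs, he⟩
      · refine Or.inl ⟨s, hs, ?_⟩
        simp only [PNat.val_ofNat, Nat.cast_one] at he
        have : y = 2 * s - c := by linarith
        simp only [this]
        ring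
      · refine Or.inr ⟨s, hs, ?_⟩
        simp only [PNat.val_ofNat, Nat.cast_one] at he
        have : y = 2 * s + 1 - c := by linarith
        simp only [this]
        push_cast
        ring
    have h2 := δ_union h1
    rw [δ_far (far_aff _ _ (by omega)), zero_add] at h2
    have h3 := h2.trans (δ_ap _ (by have := l.pos; omega) _)
    refine (mul_le_mul_of_nonneg_left h3 (by positivity)).trans (le_of_eq ?_)
    simp only [PNat.val_ofNat, Nat.cast_one]
    push_cast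
    field_simp
  · refine (D_le _ _).trans ?_
    have : 2 ≤ (k : ℕ) := by
      have h1 := k.pos
      have h2 : (k : ℕ) ≠ 1 := fun h => hk (PNat.eq h)
      omega
    have : (2 : ℝ) ≤ (k : ℕ) := by exact_mod_cast this
    exact one_div_le_one_div_of_le (by norm_num) this

lemma μ_eq_one {X : Set ℤ} (h : Far Xᶜ) : μ X = 1 :=
  le_antisymm (μ_le_one X) ((δ_cofar h).trans (δ_le_μ X))

theorem not_homog (H : Set ℤ) (h1 : ∀ x, 0 < x → x ∈ H) (h2 : ∀ x, 2 * x ∈ H → x ∈ H) :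
    IsUpperDensity H μ ∧ lower H μ (aff 2 0 (H \ S)) ≠ 1 / (2 : ℤ) * lower H μ (H \ S) := by
  have hH : Far Hᶜ := (far_le 0).union far_empty fun x hx => Or.inl (not_lt.1 fun h => hx (h1 x h))
  refine ⟨⟨⟨μ_eq_one hH, fun X _ Y _ => μ_union subset_rfl, fun X _ k h hk _ => μ_aff k h hk X,
    fun X _ => μ_le_one X⟩, fun Y _ X h => μ_mono h⟩, ?_⟩
  have e1 : μ (H \ (H \ S)) = 1 :=
    μ_eq_one (hH.union far_compl_S fun x hx => by
      by_cases h : x ∈ H
      · exact Or.inr fun hs => hx ⟨h, fun h' => h'.2 hs⟩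
      · exact Or.inl h)
  have e2 : μ (H \ aff 2 0 (H \ S)) ≤ 1 / 2 := μ_half fun x hx => by
    rcases Int.even_or_odd' x with ⟨y, rfl | rfl⟩
    · refine Or.inl ⟨y, ?_, by simp⟩
      by_contra hy
      exact hx.2 ⟨y, ⟨h2 y hx.1, hy⟩, by simp⟩
    · exact Or.inr ⟨y, trivial, rfl⟩
  unfold lower
  rw [e1]
  intro h
  norm_num at h
  linarith

def Z0 : Set ℤ := {0} ∪ {x | ∃ n : ℕ, 2 * (a n : ℤ) ≤ x ∧ x < 2 * (a n + (n + 1))}

inductive Gen : Set ℤ → Prop
  | empty : Gen ∅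
  | union {X Y : Set ℤ} : Gen X → Gen Y → Gen (X ∪ Y)
  | copy (k h : ℤ) : 0 < k → Gen (aff k h Z0)

lemma aff_aff (m r k h : ℤ) (X : Set ℤ) : aff m r (aff k h X) = aff (m * k) (m * h + r) X := by
  unfold aff
  rw [image_image]
  congr 1
  funext x
  ring

lemma Gen.aff {Z : Set ℤ} (hZ : Gen Z) (m r : ℤ) (hm : 0 < m) : Gen (aff m r Z) := by
  induction hZ with
  | empty => simpa [Density.aff] using Gen.empty
  | union _ _ h1 h2 => simpa [Density.aff, image_union] using h1.union h2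
  | copy k h hk => rw [aff_aff]; exact Gen.copy _ _ (mul_pos hm hk)

lemma Gen.pre {Z : Set ℤ} (hZ : Gen Z) (m r : ℤ) (hm : 0 < m) (h : Z ⊆ Density.aff m r univ) :
    ∃ Z', Gen Z' ∧ Density.aff m r Z' = Z := by
  induction hZ with
  | empty => exact ⟨∅, Gen.empty, by simp [Density.aff]⟩
  | union _ _ h1 h2 =>
    obtain ⟨A, hA, rfl⟩ := h1 (subset_union_left.trans h)
    obtain ⟨B, hB, rfl⟩ := h2 (subset_union_right.trans h)
    exact ⟨A ∪ B, hA.union hB, image_union _ _ _⟩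
  | copy k c hk =>
    obtain ⟨x, -, hx⟩ := h ⟨0, Or.inl rfl, rfl⟩
    obtain ⟨y, -, hy⟩ := h ⟨2, Or.inr ⟨0, by simp [a], by simp [a]⟩, rfl⟩
    obtain ⟨z, -, hz⟩ := h ⟨3, Or.inr ⟨0, by simp [a], by simp [a]⟩, rfl⟩
    simp only at hx hy hz
    have e : k = m * (z - y) := by linarith
    refine ⟨_, Gen.copy (z - y) x ((mul_pos_iff_of_pos_left hm).1 (e ▸ hk)), ?_⟩
    rw [aff_aff, ← e, hx]
    simp

lemma Gen.far {Z : Set ℤ} (hZ : Gen Z) : Far Z := by
  induction hZ with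
  | empty => exact far_empty
  | union _ _ h1 h2 => exact h1.union h2 subset_rfl
  | copy k h hk =>
    refine (far_le h).union ((far_aff (2 * k) h (by omega)).union
      (far_aff (2 * k) (k + h) (by omega)) subset_rfl) ?_
    rintro _ ⟨x, rfl | ⟨n, h1, h2⟩, rfl⟩
    · exact Or.inl (by simp)
    · rcases Int.even_or_odd' x with ⟨y, rfl | rfl⟩
      · exact Or.inr (Or.inl ⟨y, ⟨n, by omega, by omega⟩, by ring⟩)
      · exact Or.inr (Or.inr ⟨y, ⟨n, by omega, by omega⟩, by ring⟩)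

lemma Gen.eq_empty {Z : Set ℤ} (hZ : Gen Z) (h : Z ⊆ Z0 \ {0}) : Z = ∅ := by
  induction hZ with
  | empty => rfl
  | union _ _ h1 h2 => rw [h1 (subset_union_left.trans h), h2 (subset_union_right.trans h), empty_union]
  | copy k c hk =>
    exfalso
    have hc : 1 ≤ c := by
      obtain ⟨h1 | ⟨n, h1, -⟩, h2⟩ := h ⟨0, Or.inl rfl, rfl⟩
      · exact absurd h1 h2
      · have := le_a n
        simp only at h1
        omega
    lift k to ℕ using hk.le
    lift c to ℕ using (by omega)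
    obtain ⟨n, hn⟩ := (gap2 (2 * k + c)).exists
    have h0 := le_a n
    have h3 : (2 * (a n + (n + 1)) - 1 : ℤ) ≤ k * (2 * (a n + (n + 1)) - 1) :=
      le_mul_of_one_le_left (by omega) hk
    have h4 : (k : ℤ) * (2 * (a n + (n + 1)) - 1) ≤ k * (4 * a n) :=
      mul_le_mul_of_nonneg_left (by omega) hk.le
    have h5 : ((2 * k + c) * a n + (2 * k + c) : ℤ) ≤ a (n + 1) := by exact_mod_cast hn
    have h6 : (0 : ℤ) ≤ c * a n := by positivity
    obtain ⟨h1 | ⟨j, h1, h2⟩, h7⟩ :=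
      h ⟨2 * (a n + (n + 1)) - 1, Or.inr ⟨n, by omega, by omega⟩, rfl⟩
    · exact h7 h1
    · simp only at h1 h2
      rcases le_or_gt j n with hj | hj
      · have : a j ≤ a n := a_mono hj
        omega
      · have : (a (n + 1) : ℤ) ≤ a j := by exact_mod_cast a_mono hj
        nlinarith

noncomputable def ν (X : Set ℤ) : ℝ := sInf {t | ∃ Z, Gen Z ∧ Z ⊆ X ∧ μ (X \ Z) = t}

lemma ν_le {X Z : Set ℤ} (hZ : Gen Z) (h : Z ⊆ X) : ν X ≤ μ (X \ Z) :=
  csInf_le ⟨0, by rintro _ ⟨Z, -, -, rfl⟩; exact μ_nonneg _⟩ ⟨Z, hZ, h, rfl⟩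

lemma le_ν {X : Set ℤ} {t : ℝ} (h : ∀ Z, Gen Z → Z ⊆ X → t ≤ μ (X \ Z)) : t ≤ ν X :=
  le_csInf ⟨_, ∅, Gen.empty, empty_subset _, rfl⟩ (by rintro _ ⟨Z, h1, h2, rfl⟩; exact h Z h1 h2)

lemma ν_aff (m r : ℤ) (hm : 0 < m) (X : Set ℤ) : ν (aff m r X) = 1 / m * ν X := by
  have hmR : (0 : ℝ) < m := by exact_mod_cast hm
  have hinj : Function.Injective fun x : ℤ => m * x + r := fun x y h =>
    mul_left_cancel₀ hm.ne' (add_right_cancel h)
  have hd : ∀ Z, μ (aff m r X \ aff m r Z) = 1 / m * μ (X \ Z) := fun Z => by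
    rw [← μ_aff m r hm, aff, aff, aff, image_sdiff hinj]
  apply le_antisymm
  · rw [one_div, le_inv_mul_iff₀ hmR]
    refine le_ν fun Z hZ hX => ?_
    have := ν_le (hZ.aff m r hm) (X := aff m r X) (image_mono hX)
    rwa [hd, one_div, le_inv_mul_iff₀ hmR] at this
  · refine le_ν fun Z hZ hX => ?_
    obtain ⟨Z', hZ', rfl⟩ := hZ.pre m r hm (hX.trans (image_mono (subset_univ _)))
    rw [hd]
    exact mul_le_mul_of_nonneg_left (ν_le hZ' ((image_subset_image_iff hinj).1 hX)) (by positivity)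

lemma ν_quasi (H : Set ℤ) (h1 : ∀ x, 0 < x → x ∈ H) : IsUpperQuasiDensity H ν := by
  have hH : Far Hᶜ := (far_le 0).union far_empty fun x hx => Or.inl (not_lt.1 fun h => hx (h1 x h))
  have h2 : ∀ X, ν X ≤ 1 := fun X => (ν_le Gen.empty (empty_subset _)).trans (μ_le_one _)
  refine ⟨le_antisymm (h2 H) (le_ν fun Z hZ _ => (μ_eq_one (hH.union hZ.far fun x hx => ?_)).ge),
    fun X _ Y _ => ?_, fun X _ k h hk _ => ν_aff k h hk X, fun X _ => h2 X⟩
  · by_cases h : x ∈ H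
    · exact Or.inr (by_contra fun hz => hx ⟨h, hz⟩)
    · exact Or.inl h
  · rw [← sub_le_iff_le_add]
    refine le_ν fun A hA hAX => ?_
    rw [sub_le_comm]
    refine le_ν fun B hB hBY => ?_
    rw [sub_le_iff_le_add']
    refine (ν_le (hA.union hB) (union_subset_union hAX hBY)).trans (μ_union ?_)
    rintro x ⟨hx | hx, h⟩
    · exact Or.inl ⟨hx, fun h' => h (Or.inl h')⟩
    · exact Or.inr ⟨hx, fun h' => h (Or.inr h')⟩

theorem not_transl (e : ℤ) : ∃ X ⊆ Ici e, lower (Ici e) ν (aff 1 1 X) ≠ lower (Ici e) ν X := by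
  have hpos : ∀ x ∈ Z0 \ {0}, 1 ≤ x := by
    rintro x ⟨h1 | ⟨n, h1, -⟩, h2⟩
    · exact absurd h1 h2
    · have := le_a n
      omega
  refine ⟨Ici e \ aff 1 (e - 1) (Z0 \ {0}), sdiff_subset, ?_⟩
  have e1 : Ici e \ (Ici e \ aff 1 (e - 1) (Z0 \ {0})) = aff 1 (e - 1) (Z0 \ {0}) := by
    refine sdiff_sdiff_cancel_left ?_
    rintro _ ⟨x, hx, rfl⟩
    have := hpos x hx
    simp only [mem_Ici]
    omega
  have e2 : Ici e \ aff 1 1 (Ici e \ aff 1 (e - 1) (Z0 \ {0})) = aff 1 e Z0 := by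
    ext x
    constructor
    · rintro ⟨h1, h2⟩
      have h1' : e ≤ x := h1
      rcases h1'.eq_or_lt with rfl | h3
      · exact ⟨0, Or.inl rfl, by simp⟩
      · by_contra h4
        refine h2 ⟨x - 1, ⟨by simp only [mem_Ici]; omega, ?_⟩, by simp⟩
        rintro ⟨z, hz, he⟩
        exact h4 ⟨z, hz.1, by simp only at he ⊢; omega⟩
    · rintro ⟨z, hz, rfl⟩
      by_cases h0 : z = 0
      · refine ⟨by simp [h0], ?_⟩
        rintro ⟨y, ⟨hy, -⟩, he⟩
        simp only [mem_Ici] at hy he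
        omega
      · have := hpos z ⟨hz, h0⟩
        refine ⟨by simp only [mem_Ici]; omega, ?_⟩
        rintro ⟨y, ⟨-, hy⟩, he⟩
        exact hy ⟨z, ⟨hz, h0⟩, by simp only at he ⊢; omega⟩
  have e3 : ν (aff 1 e Z0) ≤ 0 := by
    refine (ν_le (Gen.copy 1 e one_pos) subset_rfl).trans ?_
    have := μ_aff 2 0 two_pos ∅
    simp only [aff, image_empty] at this
    rw [sdiff_self]
    norm_num at this
    change μ ∅ ≤ 0
    linarith
  have e4 : 1 / 2 ≤ ν (Z0 \ {0}) := by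
    refine le_ν fun Z hZ h => ?_
    rw [hZ.eq_empty h, sdiff_empty]
    have h1 := μ_aff 2 0 two_pos S
    rw [μ_eq_one far_compl_S] at h1
    refine le_trans (by rw [h1]; norm_num) (μ_mono (X := aff 2 0 S) ?_)
    rintro _ ⟨s, ⟨n, h2, h3⟩, rfl⟩
    have := le_a n
    refine ⟨Or.inr ⟨n, by simp only; omega, by simp only; omega⟩, ?_⟩
    simp only [mem_singleton_iff]
    omega
  unfold lower
  rw [e1, e2, ν_aff 1 (e - 1) one_pos]
  intro h
  norm_num at h
  linarith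

theorem transl_int (μ' : Set ℤ → ℝ) (hμ : IsUpperQuasiDensity univ μ') (X : Set ℤ) (h : ℤ)
    (hh : 0 ≤ h) : lower univ μ' (aff 1 h X) = lower univ μ' X := by
  rcases hh.eq_or_lt with rfl | hh
  · simp [aff]
  have e : univ \ aff 1 h X = aff 1 h (univ \ X) := by
    have hb : Function.Bijective fun x : ℤ => 1 * x + h :=
      ⟨fun x y e => by simpa using e, fun y => ⟨y - h, by simp⟩⟩
    rw [aff, aff, image_sdiff hb.1, image_univ, hb.2.range_eq]
  unfold lower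
  rw [e, hμ.2.2.1 _ (subset_univ _) 1 h one_pos hh]
  simp

end Pool.Agent.H14.Density
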