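import Mathlib
import Pool.Agent.H14.DetData

set_option linter.constructorNameAsVariable false

namespace Pool.Agent.H14.DetCount
open Matrix

/-- state of the block construction -/
def St (p : ℕ) (P E S : ℤ) : Prop :=
  ∃ (ι : Type) (_ : Fintype ι) (_ : DecidableEq ι), Fintype.card ι = p ∧
    ∃ (A : Matrix ι ι ℤ) (c r y : ι → ℤ), (∀ i j, A i j = 0 ∨ A i j = 1) ∧
      (∀ i, c i = 0 ∨ c i = 1) ∧ (∀ i, r i = 0 ∨ r i = 1) ∧
      A.det = P ∧ A *ᵥ y = E • c ∧ r ⬝ᵥ y = -S

theorem St_zero : St 0 1 1 0 := by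
  refine ⟨Empty, inferInstance, inferInstance, by simp, 0, 0, 0, 0, ?_, ?_, ?_, ?_, ?_, ?_⟩
  · intro i; exact i.elim
  · intro i; exact i.elim
  · intro i; exact i.elim
  · simp
  · funext i; exact i.elim
  · simp

theorem St_step {κ : Type} [Fintype κ] [DecidableEq κ] (B C : Matrix κ κ ℤ) (D : ℤ)
    (hB : ∀ i j, B i j = 0 ∨ B i j = 1) (hBC : B * C = D • (1 : Matrix κ κ ℤ))
    (f v x : κ → ℤ) (hf : ∀ i, f i = 0 ∨ f i = 1) (hv : ∀ i, v i = 0 ∨ v i = 1)
    (hx : ∀ i, x i = 0 ∨ x i = 1) {p : ℕ} {P E S : ℤ} (h : St p P E S) :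
    St (p + Fintype.card κ) (P * B.det) (D * E)
      (E * (-(f ⬝ᵥ C *ᵥ x)) + S * (-(f ⬝ᵥ C *ᵥ v) + D)) := by
  obtain ⟨ι, i1, i2, hc, A, c, r, y, hA, hc1, hr, hdet, hAy, hry⟩ := h
  refine ⟨ι ⊕ κ, inferInstance, inferInstance, by simp [hc],
    fromBlocks A 0 (vecMulVec v r) B, Sum.elim c x, Sum.elim r f,
    Sum.elim (D • y) (C *ᵥ (E • x + S • v)), ?_, ?_, ?_, ?_, ?_, ?_⟩
  · rintro (i | i) (j | j)
    · simpa using hA i j
    · simp
    · rcases hv i with h1 | h1 <;> rcases hr j with h2 | h2 <;> simp [vecMulVec, h1, h2]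
    · simpa using hB i j
  · rintro (i | i)
    · simpa using hc1 i
    · simpa using hx i
  · rintro (i | i)
    · simpa using hr i
    · simpa using hf i
  · rw [det_fromBlocks_zero₁₂, hdet]
  · rw [fromBlocks_mulVec]
    funext i
    rcases i with i | i
    · have h0 : A *ᵥ (D • y) = D • (E • c) := by rw [mulVec_smul, hAy]
      have h1 := congrFun h0 i
      simp only [Sum.elim_inl, Sum.elim_comp_inl, Sum.elim_comp_inr, zero_mulVec, add_zero,
        Pi.smul_apply, smul_eq_mul] at h1 ⊢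
      rw [h1]; ring
    · have h1 : (vecMulVec v r *ᵥ y) i = v i * (-S) := by
        rw [← hry]
        simp [mulVec, vecMulVec, dotProduct, Finset.mul_sum, mul_assoc]
      have h2 : B *ᵥ (C *ᵥ (E • x + S • v)) = D • (E • x + S • v) := by
        rw [mulVec_mulVec, hBC, smul_mulVec, one_mulVec]
      simp only [Sum.elim_inr, Function.comp_def, Sum.elim_inl, Pi.add_apply, Pi.smul_apply,
        smul_eq_mul]
      have h3 : (vecMulVec v r *ᵥ fun j => D * y j) i = D * (v i * (-S)) := by
        rw [← h1]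
        simp [mulVec, dotProduct, Finset.mul_sum, mul_left_comm]
      have h4 : (B *ᵥ fun j => (C *ᵥ (E • x + S • v)) j) i = D * (E * x i + S * v i) := by
        have := congrFun h2 i
        simpa using this
      rw [h3, h4]
      ring
  · rw [sumElim_dotProduct_sumElim, dotProduct_smul, hry, mulVec_add, mulVec_smul, mulVec_smul,
      dotProduct_add, dotProduct_smul, dotProduct_smul]
    simp only [smul_eq_mul]
    ring

theorem St_pad {p : ℕ} {P E S : ℤ} (h : St p P E S) : St (p + 1) P E S := by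
  obtain ⟨ι, i1, i2, hc, A, c, r, y, hA, hc1, hr, hdet, hAy, hry⟩ := h
  refine ⟨ι ⊕ Unit, inferInstance, inferInstance, by simp [hc],
    fromBlocks A 0 0 1, Sum.elim c 0, Sum.elim r 0, Sum.elim y 0, ?_, ?_, ?_, ?_, ?_, ?_⟩
  · rintro (i | i) (j | j)
    · simpa using hA i j
    · simp
    · simp
    · simp
  · rintro (i | i)
    · simpa using hc1 i
    · simp
  · rintro (i | i)
    · simpa using hr i
    · simp
  · rw [det_fromBlocks_zero₁₂, hdet]; simp
  · rw [fromBlocks_mulVec]
    funext i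
    rcases i with i | i
    · have := congrFun hAy i
      simpa [Function.comp_def] using this
    · simp
  · rw [sumElim_dotProduct_sumElim, hry]; simp

theorem St_pad' {p : ℕ} {P E S : ℤ} (h : St p P E S) (k : ℕ) : St (p + k) P E S := by
  induction k with
  | zero => exact h
  | succ k ih => exact St_pad ih

/-- a zero-one matrix gives a sign matrix of the next size -/
theorem pm_of_01 {ι : Type} [Fintype ι] [DecidableEq ι] (M : Matrix ι ι ℤ)
    (hM : ∀ i j, M i j = 0 ∨ M i j = 1) (n : ℕ) (hn : Fintype.card ι + 1 = n) :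
    ∃ N : Matrix (Fin n) (Fin n) ℤ, (∀ i j, N i j = 1 ∨ N i j = -1) ∧
      N.det = 2 ^ (n - 1) * ((-1) ^ (n - 1) * M.det) := by
  let N0 : Matrix (Unit ⊕ ι) (Unit ⊕ ι) ℤ :=
    fromBlocks (of fun _ _ => 1) (of fun _ _ => 1) (of fun _ _ => 1) (of fun i j => 1 - 2 * M i j)
  have hprod : N0 = fromBlocks (1 : Matrix Unit Unit ℤ) 0 (of fun _ _ => 1) (1 : Matrix ι ι ℤ) *
      fromBlocks (1 : Matrix Unit Unit ℤ) (of fun _ _ => 1) 0 ((-2 : ℤ) • M) := by
    rw [fromBlocks_multiply]
    ext (i | i) (j | j)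
    · simp [N0]
    · simp [N0]
    · simp [N0]
    · simp only [N0, fromBlocks_apply₂₂, of_apply, Matrix.one_mul, Matrix.add_apply, Matrix.smul_apply,
        smul_eq_mul, Matrix.mul_apply, Finset.univ_unique, Finset.sum_singleton]
      ring
  have hcard : Fintype.card (Unit ⊕ ι) = n := by simp [← hn, add_comm]
  let e := Fintype.equivFinOfCardEq hcard
  refine ⟨reindex e e N0, ?_, ?_⟩
  · intro i j
    simp only [reindex_apply, submatrix_apply]
    rcases e.symm i with a | a <;> rcases e.symm j with b | b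
    · simp [N0]
    · simp [N0]
    · simp [N0]
    · rcases hM a b with h | h <;> simp [N0, h]
  · rw [det_reindex_self, hprod, det_mul, det_fromBlocks_zero₁₂, det_fromBlocks_zero₂₁, det_smul]
    have : n - 1 = Fintype.card ι := by omega
    rw [this]
    simp only [det_one, mul_one, one_mul]
    rw [show (-2 : ℤ) = 2 * (-1) by norm_num, mul_pow]
    ring

theorem St_final {p : ℕ} {P E S : ℤ} (h : St p P E S) :
    ∃ d : ℤ, (∃ N : Matrix (Fin (p + 2)) (Fin (p + 2)) ℤ, (∀ i j, N i j = 1 ∨ N i j = -1) ∧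
      N.det = 2 ^ (p + 2 - 1) * d) ∧ E * d = (-1) ^ (p + 1) * (P * S) := by
  obtain ⟨ι, i1, i2, hc, A, c, r, y, hA, hc1, hr, hdet, hAy, hry⟩ := h
  let M : Matrix (ι ⊕ Unit) (ι ⊕ Unit) ℤ :=
    fromBlocks A (of fun i _ => c i) (of fun _ j => r j) 0
  have hM : ∀ i j, M i j = 0 ∨ M i j = 1 := by
    rintro (i | i) (j | j)
    · simpa [M] using hA i j
    · simpa [M] using hc1 i
    · simpa [M] using hr j
    · simp [M]
  have hprod : M * fromBlocks (1 : Matrix ι ι ℤ) (of fun i (_ : Unit) => -y i) 0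
      (of fun (_ : Unit) (_ : Unit) => E) =
      fromBlocks A 0 (of fun (_ : Unit) j => r j) (of fun (_ : Unit) (_ : Unit) => S) := by
    rw [fromBlocks_multiply]
    ext (i | i) (j | j)
    · simp
    · have := congrFun hAy i
      simp only [mulVec, dotProduct, Pi.smul_apply, smul_eq_mul] at this
      simp [mul_apply, this, mul_comm]
    · simp
    · simp only [dotProduct] at hry
      simp [mul_apply, hry]
  have hd := congrArg det hprod
  rw [det_mul, det_fromBlocks_zero₂₁, det_fromBlocks_zero₁₂, hdet] at hd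
  simp only [det_one, one_mul, det_unique, of_apply] at hd
  obtain ⟨N, hN, hNd⟩ := pm_of_01 M hM (p + 2) (by simp [hc])
  refine ⟨(-1) ^ (p + 2 - 1) * M.det, ⟨N, hN, hNd⟩, ?_⟩
  rw [← hd]
  simp only [show p + 2 - 1 = p + 1 by omega]
  ring

def bits (m : ℕ) : Fin 11 → ℤ := fun i => if m.testBit i then 1 else 0

theorem bits01 (m : ℕ) (i : Fin 11) : bits m i = 0 ∨ bits m i = 1 := by
  unfold bits; split_ifs <;> simp

def uvec (g : ℕ) : Fin 11 → ℤ := fun i => (ulist g).getD i 0

def dig (n : ℕ) : ℤ := ∑ i : Fin 11, uvec (n / 2048) i * bits (n % 2048) i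

theorem hB01 : ∀ i j : Fin 11, Bm i j = 0 ∨ Bm i j = 1 := by
  have : ∀ i j : Fin 11, (Bm i j == 0 || Bm i j == 1) = true := by decide +kernel
  intro i j
  simpa using this i j

theorem hBC : Bm * Cm = (779 : ℤ) • (1 : Matrix (Fin 11) (Fin 11) ℤ) := by decide +kernel

theorem hu : ∀ g < 4, uvec g = -(bits (fmask g) ᵥ* Cm) := by decide +kernel

theorem hlam : ∀ g < 4, uvec g ⬝ᵥ bits (vmask g) + 779 = 2176 := by decide +kernel

def incr : List ℤ → Bool
  | a :: b :: l => decide (a < b) && incr (b :: l)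
  | _ => true

theorem incr_pairwise : ∀ l : List ℤ, incr l = true → l.Pairwise (· < ·)
  | [] , _ => List.Pairwise.nil
  | [a], _ => by simp
  | a :: b :: l, h => by
    simp only [incr, Bool.and_eq_true, decide_eq_true_eq] at h
    have ih := incr_pairwise (b :: l) h.2
    refine List.Pairwise.cons ?_ ih
    intro x hx
    rcases List.mem_cons.mp hx with rfl | hx
    · exact h.1
    · exact lt_trans h.1 (List.rel_of_pairwise_cons ih hx)

theorem hcodes1 : incr (codes.map fun n => dig n % 2176) = true := by decide +kernel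

theorem hcodes2 : codes.length = 2048 := by decide +kernel

theorem hcodes3 : codes.all (fun n => decide (n < 8192)) = true := by decide +kernel

theorem hdetB : Bm.det ≠ 0 := by
  intro h
  have := congrArg det hBC
  rw [det_mul, h, det_smul] at this
  simp at this

theorem St_dig {p : ℕ} {P E S : ℤ} (h : St p P E S) (n : ℕ) (hn : n < 8192) :
    St (p + 11) (P * Bm.det) (779 * E) (E * dig n + S * 2176) := by
  have hg : n / 2048 < 4 := by omega
  have := St_step Bm Cm 779 hB01 hBC (bits (fmask (n / 2048))) (bits (vmask (n / 2048)))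
    (bits (n % 2048)) (bits01 _) (bits01 _) (bits01 _) h
  have h1 : -(bits (fmask (n / 2048)) ⬝ᵥ Cm *ᵥ bits (n % 2048)) = dig n := by
    rw [dotProduct_mulVec, ← neg_dotProduct, ← hu _ hg]
    rfl
  have h2 : -(bits (fmask (n / 2048)) ⬝ᵥ Cm *ᵥ bits (vmask (n / 2048))) + 779 = 2176 := by
    rw [dotProduct_mulVec, ← neg_dotProduct, ← hu _ hg]
    exact hlam _ hg
  rw [h1, h2] at this
  simpa using this

/-- the digit set -/
@[irreducible] def T : Finset ℤ := (codes.map dig).toFinset

theorem T_inj : ∀ a ∈ T, ∀ b ∈ T, a % 2176 = b % 2176 → a = b := by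
  have hp := incr_pairwise _ hcodes1
  rw [List.pairwise_map] at hp
  have hp2 : codes.Pairwise (fun m n => dig m % 2176 ≠ dig n % 2176) :=
    hp.imp (fun h => ne_of_lt h)
  intro a ha b hb hab
  simp only [T, List.mem_toFinset, List.mem_map] at ha hb
  obtain ⟨m, hm, rfl⟩ := ha
  obtain ⟨n, hn, rfl⟩ := hb
  by_cases hmn : m = n
  · rw [hmn]
  · have : Std.Symm (fun m n => dig m % 2176 ≠ dig n % 2176) := ⟨fun _ _ h => h.symm⟩
    exact absurd hab (hp2.forall hm hn hmn)

theorem T_card : T.card = 2048 := by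
  have hp := incr_pairwise _ hcodes1
  rw [List.pairwise_map] at hp
  have hnd : (codes.map dig).Nodup := by
    rw [List.Nodup, List.pairwise_map]
    exact hp.imp (fun h heq => by rw [heq] at h; exact lt_irrefl _ h)
  rw [T, List.toFinset_card_of_nodup hnd, List.length_map, hcodes2]

theorem T_mem {a : ℤ} (ha : a ∈ T) : ∃ n < 8192, a = dig n := by
  simp only [T, List.mem_toFinset, List.mem_map] at ha
  obtain ⟨m, hm, rfl⟩ := ha
  have := List.all_eq_true.mp hcodes3 m hm
  exact ⟨m, by simpa using this, rfl⟩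

def V : ℕ → Finset ℤ
  | 0 => {0}
  | k + 1 => (T ×ˢ V k).image fun q => 779 ^ k * q.1 + q.2 * 2176

theorem V_card (k : ℕ) : (V k).card = 2048 ^ k := by
  induction k with
  | zero => simp [V]
  | succ k ih =>
    rw [V, Finset.card_image_of_injOn, Finset.card_product, T_card, ih]
    · ring
    · rintro ⟨a, s⟩ h1 ⟨b, t⟩ h2 heq
      simp only [Finset.coe_product, Set.mem_prod, Finset.mem_coe] at h1 h2
      simp only at heq
      have hcop : IsCoprime (2176 : ℤ) (779 ^ k) := by
        apply IsCoprime.pow_right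
        rw [Int.isCoprime_iff_gcd_eq_one]
        norm_num
      have hdvd : (2176 : ℤ) ∣ 779 ^ k * (b - a) := ⟨s - t, by linarith⟩
      have hdvd2 := hcop.dvd_of_dvd_mul_left hdvd
      have hab : a = b := T_inj a h1.1 b h2.1 (by omega)
      subst hab
      have : s = t := by omega
      rw [this]

theorem V_St (k : ℕ) : ∀ S ∈ V k, St (11 * k) (Bm.det ^ k) (779 ^ k) S := by
  induction k with
  | zero =>
    intro S hS
    simp only [V, Finset.mem_singleton] at hS
    subst hS
    simpa using St_zero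
  | succ k ih =>
    intro S hS
    simp only [V, Finset.mem_image, Finset.mem_product] at hS
    obtain ⟨⟨a, s⟩, ⟨ha, hs⟩, rfl⟩ := hS
    obtain ⟨n, hn, rfl⟩ := T_mem ha
    have := St_dig (ih s hs) n hn
    rw [show 11 * (k + 1) = 11 * k + 11 by ring, pow_succ, pow_succ, mul_comm (779 ^ k : ℤ) 779]
    exact this

theorem finite_dets (n : ℕ) : {d : ℤ | ∃ M : Matrix (Fin n) (Fin n) ℤ,
    (∀ i j, M i j = 1 ∨ M i j = -1) ∧ M.det = 2 ^ (n - 1) * d}.Finite := by
  have hfin : {M : Matrix (Fin n) (Fin n) ℤ | ∀ i j, M i j = 1 ∨ M i j = -1}.Finite := by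
    have : {M : Matrix (Fin n) (Fin n) ℤ | ∀ i j, M i j = 1 ∨ M i j = -1} ⊆
        Set.range (fun b : Fin n → Fin n → Bool =>
          (of fun i j => if b i j then 1 else -1 : Matrix (Fin n) (Fin n) ℤ)) := by
      intro M hM
      refine ⟨fun i j => decide (M i j = 1), ?_⟩
      ext i j
      rcases hM i j with h | h <;> simp [h]
    exact (Set.finite_range _).subset this
  refine (hfin.image (fun M => M.det / 2 ^ (n - 1))).subset ?_
  rintro d ⟨M, hM, hd⟩
  refine ⟨M, hM, ?_⟩
  simp only [hd]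
  exact Int.mul_ediv_cancel_left _ (by positivity)

theorem count_ge (p : ℕ) : 2048 ^ (p / 11) ≤ Set.ncard {d : ℤ | ∃ M : Matrix (Fin (p + 2)) (Fin (p + 2)) ℤ,
    (∀ i j, M i j = 1 ∨ M i j = -1) ∧ M.det = 2 ^ (p + 2 - 1) * d} := by
  have h1 : ∀ S ∈ V (p / 11), St p (Bm.det ^ (p / 11)) (779 ^ (p / 11)) S := by
    intro S hS
    have := St_pad' (V_St _ S hS) (p % 11)
    rwa [Nat.div_add_mod] at this
  have h2 := fun S hS => St_final (h1 S hS)
  choose! g hg1 hg2 using h2
  rw [← V_card, ← Set.ncard_coe_finset]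
  refine Set.ncard_le_ncard_of_injOn g (fun S hS => hg1 S hS) ?_ (finite_dets _)
  intro S hS S' hS' heq
  have e1 := hg2 S hS
  have e2 := hg2 S' hS'
  rw [heq, e2] at e1
  have hne : ((-1 : ℤ)) ^ (p + 1) ≠ 0 := pow_ne_zero _ (by norm_num)
  have := mul_left_cancel₀ hne e1
  exact (mul_left_cancel₀ (pow_ne_zero _ hdetB) this).symm

end Pool.Agent.H14.DetCount
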