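import Mathlib

set_option autoImplicit false

namespace Pool.Agent.H14.Dice

open Polynomial

/-- The polynomial `M_t` for `t = (a, b, c, d)`. -/
noncomputable def M (p q r : ℕ) (t : ℕ × ℕ × ℕ × ℕ) : ℤ[X] :=
  cyclotomic (p * q * r) ℤ ^ t.2.2.2 * cyclotomic (p * q) ℤ ^ t.1 *
    cyclotomic (p * r) ℤ ^ t.2.1 * cyclotomic (q * r) ℤ ^ t.2.2.1

/-- The polynomial `A_t`. -/
noncomputable def A (p q r : ℕ) (t : ℕ × ℕ × ℕ × ℕ) : ℤ[X] :=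
  X * (cyclotomic p ℤ * cyclotomic q ℤ) ^ 2 * M p q r t

/-- The polynomial `B_t`. -/
noncomputable def B (p q r : ℕ) (t : ℕ × ℕ × ℕ × ℕ) : ℤ[X] :=
  X * cyclotomic r ℤ ^ 2 * M p q r t

/-- The complementary tuple. -/
def bar (t : ℕ × ℕ × ℕ × ℕ) : ℕ × ℕ × ℕ × ℕ := (2 - t.1, 2 - t.2.1, 2 - t.2.2.1, 2 - t.2.2.2)

/-- The ten tuples of the set `T`. -/
def T : Set (ℕ × ℕ × ℕ × ℕ) :=
  {(2, 0, 0, 0), (2, 1, 0, 1), (2, 0, 1, 1), (2, 1, 1, 1)} ∪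
    {t | t.1 = 2 ∧ t.2.1 ≤ 2 ∧ t.2.2.1 ≤ 2 ∧ 2 ≤ t.2.1 + t.2.2.1 ∧ t.2.2.2 = 2}

/-- The set `S`. -/
def S : Set (ℕ × ℕ × ℕ × ℕ) :=
  {t | t.1 ≤ 2 ∧ t.2.1 ≤ 2 ∧ t.2.2.1 ≤ 2 ∧ t.2.2.2 ≤ 2 ∧
    2 + t.2.2.2 ≤ t.1 + t.2.1 + t.2.2.1 ∧ t.1 + t.2.1 + t.2.2.1 ≤ 4 + t.2.2.2 ∧
    t ∉ T ∧ t ≠ (1, 1, 1, 1)}

lemma c7 : cyclotomic 7 ℤ = X ^ 6 + X ^ 5 + X ^ 4 + X ^ 3 + X ^ 2 + X + 1 := by
  have : Fact (Nat.Prime 7) := ⟨by norm_num⟩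
  rw [cyclotomic_prime]
  simp [Finset.sum_range_succ]
  ring

lemma c14 : cyclotomic 14 ℤ = X ^ 6 - X ^ 5 + X ^ 4 - X ^ 3 + X ^ 2 - X + 1 := by
  have h := cyclotomic_expand_eq_cyclotomic_mul (p := 2) (n := 7) (by norm_num) (by norm_num) ℤ
  apply mul_right_cancel₀ (cyclotomic_ne_zero 7 ℤ)
  rw [← h, c7]
  simp
  ring

lemma c21 : cyclotomic 21 ℤ =
    X ^ 12 - X ^ 11 + X ^ 9 - X ^ 8 + X ^ 6 - X ^ 4 + X ^ 3 - X + 1 := by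
  have h := cyclotomic_expand_eq_cyclotomic_mul (p := 3) (n := 7) (by norm_num) (by norm_num) ℤ
  apply mul_right_cancel₀ (cyclotomic_ne_zero 7 ℤ)
  rw [← h, c7]
  simp
  ring

lemma c42 : cyclotomic 42 ℤ =
    X ^ 12 + X ^ 11 - X ^ 9 - X ^ 8 + X ^ 6 - X ^ 4 - X ^ 3 + X + 1 := by
  have h := cyclotomic_expand_eq_cyclotomic_mul (p := 3) (n := 14) (by norm_num) (by norm_num) ℤ
  apply mul_right_cancel₀ (cyclotomic_ne_zero 14 ℤ)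
  rw [← h, c14]
  simp
  ring

noncomputable def An : ℕ[X] :=
  X ^ 1 + X ^ 3 + X ^ 5 + 2 * X ^ 8 + 2 * X ^ 10 + 2 * X ^ 12 + 2 * X ^ 15 + 2 * X ^ 17 +
  2 * X ^ 19 + 2 * X ^ 22 + 2 * X ^ 24 + 2 * X ^ 26 + 2 * X ^ 29 + 2 * X ^ 31 + 2 * X ^ 33 +
  2 * X ^ 36 + 2 * X ^ 38 + 2 * X ^ 40 + X ^ 43 + X ^ 45 + X ^ 47

noncomputable def Bn : ℕ[X] :=
  X ^ 1 + 2 * X ^ 2 + 2 * X ^ 3 + 2 * X ^ 4 + 2 * X ^ 5 + 2 * X ^ 6 + 3 * X ^ 7 + 2 * X ^ 8 +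
  X ^ 13 + 2 * X ^ 16 + 2 * X ^ 17 + 2 * X ^ 18 + 3 * X ^ 19 + 2 * X ^ 20 + 2 * X ^ 21 +
  2 * X ^ 22 + X ^ 25 + 2 * X ^ 30 + 3 * X ^ 31 + 2 * X ^ 32 + 2 * X ^ 33 + 2 * X ^ 34 +
  2 * X ^ 35 + 2 * X ^ 36 + X ^ 37

lemma A_eq : A 2 3 7 (2, 2, 1, 1) = An.map (Nat.castRingHom ℤ) := by
  simp only [A, M, An]
  norm_num [c14, c21, c42, cyclotomic_six]
  ring

lemma B_eq : B 2 3 7 (bar (2, 2, 1, 1)) = Bn.map (Nat.castRingHom ℤ) := by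
  simp only [B, M, Bn, bar]
  norm_num [c7, c21, c42]
  ring

lemma nonneg (P : ℕ[X]) (i : ℕ) : 0 ≤ (P.map (Nat.castRingHom ℤ)).coeff i := by
  simp

lemma mem_S : (2, 2, 1, 1) ∈ S := by
  simp [S, T]

end Pool.Agent.H14.Dice
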