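import Mathlib

set_option autoImplicit false

namespace Pool.Agent.H14.Door

open MeasureTheory Set

lemma vol_region (a b c d l r : ℝ) (h : l ≤ r) (h' : ∀ x ∈ Ioc l r, c + d * x ≤ a + b * x) :
    volume (regionBetween (fun x => c + d * x) (fun x => a + b * x) (Ioc l r)) =
      ENNReal.ofReal ((a - c) * (r - l) + (b - d) * (r ^ 2 - l ^ 2) / 2) := by
  rw [Measure.volume_eq_prod, volume_regionBetween_eq_integral
    ((Continuous.intervalIntegrable (by fun_prop) l r).1)
    ((Continuous.intervalIntegrable (by fun_prop) l r).1) measurableSet_Ioc h',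
    ← intervalIntegral.integral_of_le h]
  congr 1
  rw [intervalIntegral.integral_congr (g := fun x => (a - c) + (b - d) * x) fun x _ => by
    simp; ring, intervalIntegral.integral_add (Continuous.intervalIntegrable (by fun_prop) _ _)
      (Continuous.intervalIntegrable (by fun_prop) _ _), intervalIntegral.integral_const_mul]
  simp
  ring

lemma tri (p v w : ℝ × ℝ) (S : Set (ℝ × ℝ))
    (h : ∀ a b : ℝ, 0 < a → 0 < b → a + b < 1 → p + (a • v + b • w) ∈ S) :
    ENNReal.ofReal (|v.1 * w.2 - w.1 * v.2| / 2) ≤ volume S := by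
  let L := Matrix.toLin (Module.Basis.finTwoProd ℝ) (Module.Basis.finTwoProd ℝ)
    !![v.1, w.1; v.2, w.2]
  have h1 := Measure.addHaar_image_linearMap volume L
    (regionBetween (fun x => 0 + 0 * x) (fun x => 1 + -1 * x) (Ioc 0 1))
  rw [vol_region _ _ _ _ _ _ zero_le_one (fun x hx => by linarith [hx.2]), LinearMap.det_toLin,
    Matrix.det_fin_two_of, ← ENNReal.ofReal_mul (abs_nonneg _)] at h1
  rw [← measure_preimage_add volume p S]
  refine le_trans (le_of_eq ?_) (h1.symm.le.trans (measure_mono ?_))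
  · congr 1
    ring
  · rintro _ ⟨z, ⟨h2, h3⟩, rfl⟩
    have := h z.1 z.2 h2.1 (by simpa using h3.1) (by linarith [h3.2])
    rw [mem_preimage, Matrix.toLin_finTwoProd_apply]
    convert this using 2
    ext <;> simp [mul_comm]

lemma quad {C : Set (ℝ × ℝ)} (hC : Convex ℝ C) {p q r s : ℝ × ℝ} (hp : p ∈ C) (hq : q ∈ C)
    (hr : r ∈ C) (hs : s ∈ C) :
    ENNReal.ofReal (((q - p).1 * (r - s).2 - (r - s).1 * (q - p).2) / 2) ≤ volume C := by
  have hm : MeasurableSet {z : ℝ × ℝ | 0 < (q - p).1 * (z - p).2 - (z - p).1 * (q - p).2} :=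
    (isOpen_lt continuous_const (by fun_prop)).measurableSet
  have hin : ∀ z ∈ C, ∀ a b : ℝ, 0 < a → 0 < b → a + b < 1 →
      p + (a • (q - p) + b • (z - p)) ∈ C := by
    intro z hz a b ha hb hab
    have := hC.sum_mem (t := Finset.univ) (w := ![1 - a - b, a, b]) (z := ![p, q, z])
      (fun i _ => by fin_cases i <;> simp <;> linarith) (by simp [Fin.sum_univ_three]; ring)
      fun i _ => by fin_cases i <;> simpa
    convert this using 1
    simp only [Fin.sum_univ_three]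
    ext <;> simp <;> ring
  rw [← measure_inter_add_sdiff C hm]
  refine le_trans (le_of_eq (congrArg _ ?_)) ((ENNReal.ofReal_add_le
    (p := ((q - p).1 * (r - p).2 - (r - p).1 * (q - p).2) / 2)
    (q := -((q - p).1 * (s - p).2 - (s - p).1 * (q - p).2) / 2)).trans (add_le_add ?_ ?_))
  · simp only [Prod.fst_sub, Prod.snd_sub]
    ring
  · rcases le_or_gt ((q - p).1 * (r - p).2 - (r - p).1 * (q - p).2) 0 with h | h
    · rw [ENNReal.ofReal_of_nonpos (by linarith)]
      exact zero_le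
    · rw [← abs_of_pos h]
      refine tri p _ _ _ fun a b ha hb hab => ⟨hin r hr a b ha hb hab, ?_⟩
      refine (mul_pos hb h).trans_eq ?_
      simp
      ring
  · rcases le_or_gt 0 ((q - p).1 * (s - p).2 - (s - p).1 * (q - p).2) with h | h
    · rw [ENNReal.ofReal_of_nonpos (by linarith)]
      exact zero_le
    · rw [← abs_of_neg h]
      refine tri p _ _ _ fun a b ha hb hab => ⟨hin s hs a b ha hb hab, ?_⟩
      rw [mem_ofPred_eq, not_lt]
      refine le_of_eq_of_le ?_ (mul_neg_of_pos_of_neg hb h).le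
      simp
      ring

def K : Set (Fin 3 → ℝ) := {p | |p 1| ≤ (10 - p 2) / 20 ∧ |p 0| ≤ (10 + p 2) / 20}

def D : Set (ℝ × ℝ) := {p | |p.1| ≤ 3 / 4 ∧ |p.1| + |p.2| ≤ 1}

lemma K_convex : Convex ℝ K := by
  intro x hx y hy a b ha hb hab
  obtain ⟨h1, h2⟩ := hx
  obtain ⟨h3, h4⟩ := hy
  rw [abs_le] at h1 h2 h3 h4
  simp only [K, mem_ofPred_eq, Pi.add_apply, Pi.smul_apply, smul_eq_mul, abs_le]
  refine ⟨⟨?_, ?_⟩, ?_, ?_⟩ <;> nlinarith [h1.1, h1.2, h2.1, h2.2, h3.1, h3.2, h4.1, h4.2]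

lemma K_compact : IsCompact K := by
  refine (isCompact_closedBall (0 : Fin 3 → ℝ) 10).of_isClosed_subset (by
    rw [K, ofPred_and]
    exact (isClosed_le (by fun_prop) (by fun_prop)).inter
      (isClosed_le (by fun_prop) (by fun_prop))) ?_
  rintro p ⟨h1, h2⟩
  rw [mem_closedBall_zero_iff, pi_norm_le_iff_of_nonneg (by norm_num)]
  have h3 := abs_nonneg (p 0)
  have h4 := abs_nonneg (p 1)
  have h5 : |p 2| ≤ 10 := abs_le.2 ⟨by linarith, by linarith⟩
  intro i
  fin_cases i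
  · change |p 0| ≤ 10
    linarith
  · change |p 1| ≤ 10
    linarith
  · exact h5

lemma K_int : (interior K).Nonempty := by
  refine ⟨0, mem_interior_iff_mem_nhds.2 (Filter.mem_of_superset
    (Metric.closedBall_mem_nhds _ (show (0 : ℝ) < 1 / 4 by norm_num)) fun p hp => ?_)⟩
  rw [mem_closedBall_zero_iff, pi_norm_le_iff_of_nonneg (by norm_num)] at hp
  have h0 : |p 0| ≤ 1 / 4 := hp 0
  have h1 : |p 1| ≤ 1 / 4 := hp 1
  have h2 := abs_le.1 (show |p 2| ≤ 1 / 4 from hp 2)
  exact ⟨by linarith, by linarith⟩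

lemma D_convex : Convex ℝ D := by
  intro x hx y hy a b ha hb hab
  have h1 := abs_add_le (a * x.1) (b * y.1)
  have h2 := abs_add_le (a * x.2) (b * y.2)
  rw [abs_mul, abs_mul, abs_of_nonneg ha, abs_of_nonneg hb] at h1 h2
  refine ⟨h1.trans ?_, (add_le_add h1 h2).trans ?_⟩ <;> nlinarith [hx.1, hx.2, hy.1, hy.2]

lemma D_compact : IsCompact D := by
  refine (isCompact_closedBall (0 : ℝ × ℝ) 1).of_isClosed_subset (by
    rw [D, ofPred_and]
    exact (isClosed_le (by fun_prop) (by fun_prop)).inter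
      (isClosed_le (by fun_prop) (by fun_prop))) ?_
  rintro p ⟨-, h2⟩
  rw [mem_closedBall_zero_iff, Prod.norm_def, max_le_iff, Real.norm_eq_abs, Real.norm_eq_abs]
  constructor <;> linarith [abs_nonneg p.1, abs_nonneg p.2]

lemma D_int : (interior D).Nonempty := by
  refine ⟨0, mem_interior_iff_mem_nhds.2 (Filter.mem_of_superset
    (Metric.closedBall_mem_nhds _ (show (0 : ℝ) < 1 / 4 by norm_num)) fun p hp => ?_)⟩
  rw [mem_closedBall_zero_iff, Prod.norm_def, max_le_iff, Real.norm_eq_abs, Real.norm_eq_abs] at hp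
  exact ⟨by linarith [hp.1], by linarith [hp.1, hp.2]⟩

lemma D_vol : volume D < ENNReal.ofReal (192 / 100) := by
  have h : D ⊆ regionBetween (fun x => -(101 / 100) + -1 * x) (fun x => 101 / 100 + 1 * x)
      (Ioc (-(76 / 100)) 0) ∪ regionBetween (fun x => -(101 / 100) + 1 * x)
      (fun x => 101 / 100 + -1 * x) (Ioc 0 (3 / 4)) := by
    rintro p ⟨h1, h2⟩
    have h3 := le_abs_self p.2
    have h4 := neg_abs_le p.2
    rcases le_or_gt p.1 0 with h | h
    · rw [abs_of_nonpos h] at h1 h2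
      exact Or.inl ⟨⟨by linarith, h⟩, by linarith, by linarith⟩
    · rw [abs_of_pos h] at h1 h2
      exact Or.inr ⟨⟨h, h1⟩, by linarith, by linarith⟩
  refine ((measure_mono h).trans (measure_union_le _ _)).trans_lt ?_
  rw [vol_region _ _ _ _ _ _ (by norm_num) (fun x hx => by linarith [hx.1]),
    vol_region _ _ _ _ _ _ (by norm_num) (fun x hx => by linarith [hx.2]),
    ← ENNReal.ofReal_add (by norm_num) (by norm_num), ENNReal.ofReal_lt_ofReal_iff (by norm_num)]
  norm_num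

lemma proj_vol (e f : Fin 3 → ℝ) (he : e ⬝ᵥ e = 1) (hf : f ⬝ᵥ f = 1) (hef : e ⬝ᵥ f = 0) :
    ENNReal.ofReal (192 / 100) ≤ volume ((fun x => (x ⬝ᵥ e, x ⬝ᵥ f)) '' K) := by
  have hC : Convex ℝ ((fun x => (x ⬝ᵥ e, x ⬝ᵥ f)) '' K) :=
    K_convex.is_linear_image ⟨fun x y => by simp, fun c x => by simp⟩
  have m1 := mem_image_of_mem (fun x => (x ⬝ᵥ e, x ⬝ᵥ f)) (show ![0, 1, -10] ∈ K by
    simp [K]; norm_num)
  have m2 := mem_image_of_mem (fun x => (x ⬝ᵥ e, x ⬝ᵥ f)) (show ![0, -1, -10] ∈ K by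
    simp [K]; norm_num)
  have m3 := mem_image_of_mem (fun x => (x ⬝ᵥ e, x ⬝ᵥ f)) (show ![1, 0, 10] ∈ K by
    simp [K]; norm_num)
  have m4 := mem_image_of_mem (fun x => (x ⬝ᵥ e, x ⬝ᵥ f)) (show ![-1, 0, 10] ∈ K by
    simp [K]; norm_num)
  by_contra h
  have key : ∀ x : ℝ, ENNReal.ofReal x ≤ volume ((fun x => (x ⬝ᵥ e, x ⬝ᵥ f)) '' K) →
      x < 192 / 100 := fun x hx =>
    (ENNReal.ofReal_lt_ofReal_iff (by norm_num)).1 (hx.trans_lt (not_le.1 h))
  have h1 := key _ (quad hC m1 m2 m3 m4)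
  have h2 := key _ (quad hC m1 m2 m4 m3)
  have h3 := key _ (quad hC m1 m3 m2 m4)
  have h4 := key _ (quad hC m1 m3 m4 m2)
  have h5 := key _ (quad hC m1 m4 m2 m3)
  have h6 := key _ (quad hC m1 m4 m3 m2)
  simp only [dotProduct, Fin.sum_univ_three, Prod.fst_sub, Prod.snd_sub, Matrix.cons_val_zero,
    Matrix.cons_val_one, Matrix.cons_val] at h1 h2 h3 h4 h5 h6 he hf hef
  have h7 : (e 1 * f 2 - e 2 * f 1) ^ 2 + (e 2 * f 0 - e 0 * f 2) ^ 2 +
      (e 0 * f 1 - e 1 * f 0) ^ 2 = 1 := by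
    linear_combination (f 0 * f 0 + f 1 * f 1 + f 2 * f 2) * he + hf -
      (e 0 * f 0 + e 1 * f 1 + e 2 * f 2) * hef
  set x := e 1 * f 2 - e 2 * f 1 with hx
  set y := e 2 * f 0 - e 0 * f 2 with hy
  set z := e 0 * f 1 - e 1 * f 0 with hz
  have h8 : z ^ 2 < (96 / 100) ^ 2 := sq_lt_sq' (by linarith) (by linarith)
  have h9 : (x + y) ^ 2 < (96 / 1000) ^ 2 := sq_lt_sq' (by linarith) (by linarith)
  have h10 : (x - y) ^ 2 < (96 / 1000) ^ 2 := sq_lt_sq' (by linarith) (by linarith)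
  nlinarith

noncomputable def th (t : ℝ) : ℝ := Real.pi / 2 * max 0 (min 1 (3 * t - 1))

noncomputable def R (t : ℝ) : Matrix (Fin 3) (Fin 3) ℝ :=
  !![Real.cos (th t), -Real.sin (th t), 0; Real.sin (th t), Real.cos (th t), 0; 0, 0, 1]

def b (t : ℝ) : Fin 3 → ℝ := ![0, 0, max 0 (11 - 33 * t) + min 0 (22 - 33 * t)]

lemma R_cont : Continuous R := by
  refine continuous_matrix fun i j => ?_
  fin_cases i <;> fin_cases j <;> simp [R, th] <;> fun_prop

lemma b_cont : Continuous b := by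
  refine continuous_pi fun i => ?_
  fin_cases i <;> simp [b] <;> fun_prop

lemma R_mem (t : ℝ) : R t ∈ Matrix.specialOrthogonalGroup (Fin 3) ℝ := by
  have h := Real.sin_sq_add_cos_sq (th t)
  refine ⟨(Matrix.mem_orthogonalGroup_iff _ _).2 ?_, ?_⟩
  · ext i j
    fin_cases i <;> fin_cases j <;> simp [R, Matrix.mul_apply, Fin.sum_univ_three] <;> linarith
  · change (R t).det = 1
    simp [R, Matrix.det_fin_three]
    linarith

lemma pass (t : ℝ) (p : Fin 3 → ℝ) (hp : p ∈ K) (h : ((R t).mulVec p + b t) 2 = 0) :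
    (((R t).mulVec p + b t) 0, ((R t).mulVec p + b t) 1) ∈ D := by
  obtain ⟨h1, h2⟩ := hp
  simp only [R, b, Matrix.mulVec, dotProduct, Fin.sum_univ_three, Pi.add_apply, D,
    mem_ofPred_eq] at h ⊢
  simp at h ⊢
  rcases le_total t (1 / 3) with ht | ht
  · have : th t = 0 := by
      unfold th
      rw [max_eq_left ((min_le_right _ _).trans (by linarith)), mul_zero]
    rw [min_eq_left (by linarith)] at h
    have := le_max_left 0 (11 - 33 * t)
    simp [*]
    constructor <;> linarith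
  rw [max_eq_left (by linarith)] at h
  rcases le_total t (2 / 3) with ht' | ht'
  · rw [min_eq_left (by linarith)] at h
    have h3 : p 0 ^ 2 ≤ (1 / 2) ^ 2 := by
      rw [← sq_abs]
      exact pow_le_pow_left₀ (abs_nonneg _) (by linarith) 2
    have h4 : p 1 ^ 2 ≤ (1 / 2) ^ 2 := by
      rw [← sq_abs]
      exact pow_le_pow_left₀ (abs_nonneg _) (by linarith) 2
    have h5 := Real.sin_sq_add_cos_sq (th t)
    set x := Real.cos (th t) * p 0 + -(Real.sin (th t) * p 1) with hx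
    set y := Real.sin (th t) * p 0 + Real.cos (th t) * p 1 with hy
    have h6 : |x| ^ 2 + |y| ^ 2 ≤ 1 / 2 := by
      rw [sq_abs, sq_abs, hx, hy]
      nlinarith
    constructor <;> nlinarith [abs_nonneg x, abs_nonneg y, sq_nonneg (|x| - |y|)]
  · have : th t = Real.pi / 2 := by
      unfold th
      rw [min_eq_left (by linarith), max_eq_right zero_le_one, mul_one]
    have := min_le_left 0 (22 - 33 * t)
    simp [*]
    constructor <;> linarith

lemma start (p : Fin 3 → ℝ) (hp : p ∈ K) : 0 < ((R 0).mulVec p + b 0) 2 := by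
  simp [R, b, dotProduct, Fin.sum_univ_three]
  linarith [hp.2, abs_nonneg (p 0)]

lemma stop (p : Fin 3 → ℝ) (hp : p ∈ K) : ((R 1).mulVec p + b 1) 2 < 0 := by
  simp [R, b, dotProduct, Fin.sum_univ_three]
  norm_num
  linarith [hp.1, abs_nonneg (p 1)]

end Pool.Agent.H14.Door
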