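import Mathlib

set_option autoImplicit false

namespace Pool.Agent.H14.EndNat

open Set Topology Filter TopologicalSpace
open scoped ENNReal NNReal

/-- The strictly increasing self-maps of the naturals. -/
def E : Type := {f : ℕ → ℕ // StrictMono f}

/-- Multiplication is composition. -/
instance : Mul E := ⟨fun f h => ⟨f.1 ∘ h.1, f.2.comp h.2⟩⟩

lemma polish_of_gd {X Y : Type} [TopologicalSpace X] [TopologicalSpace Y] [PolishSpace Y]
    {j : X → Y} (hj : IsEmbedding j) (h : IsGδ (range j)) : PolishSpace X := by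
  obtain ⟨G, h1, h2⟩ := h.eq_iInter_nat
  have hm : ∀ x n, j x ∈ G n := fun x => mem_iInter.1 (h2 ▸ mem_range_self x)
  let f : X → ∀ n, G n := fun x n => ⟨j x, hm x n⟩
  have hv : ∀ n, Continuous fun g : ∀ n, G n => (g n).1 :=
    fun n => continuous_subtype_val.comp (continuous_apply n)
  have := fun n => (h1 n).polishSpace
  refine IsClosedEmbedding.polishSpace (f := f) ⟨?_, ?_⟩
  · exact IsEmbedding.of_comp (continuous_pi fun n => hj.continuous.subtype_mk _) (hv 0) hj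
  · have : range f = ⋂ n, {g | (g n).1 = (g 0).1} := by
      apply Subset.antisymm
      · rintro _ ⟨x, rfl⟩; exact mem_iInter.2 fun n => rfl
      · intro g hg
        have : (g 0).1 ∈ range j := by
          rw [h2]; exact mem_iInter.2 fun n => (mem_iInter.1 hg n : _ = _) ▸ (g n).2
        obtain ⟨x, hx⟩ := this
        exact ⟨x, funext fun n => Subtype.ext (hx.trans (mem_iInter.1 hg n).symm)⟩
    rw [this]
    exact isClosed_iInter fun n => isClosed_eq (hv n) (hv 0)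

variable (r : ℝ≥0)

noncomputable def tm (f : ℕ → ℕ) (k : ℕ) : ℝ≥0∞ := (r : ℝ≥0∞) ^ k * ((f (2 ^ k) - 2 ^ k : ℕ) : ℝ≥0∞)

noncomputable def tl (K : ℕ) (f : ℕ → ℕ) : ℝ≥0∞ := ∑' k, tm r f (k + K)

noncomputable def nu (f : ℕ → ℕ) : ℝ≥0∞ := ∑' k, tm r f k

noncomputable def pt (K : ℕ) (f : ℕ → ℕ) : ℝ≥0∞ := ∑ k ∈ Finset.range K, tm r f k

lemma split (K : ℕ) (f : ℕ → ℕ) : nu r f = pt r K f + tl r K f :=
  (Summable.sum_add_tsum_nat_add' (f := tm r f) (k := K) ENNReal.summable).symm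

lemma pt_ne (K : ℕ) (f : ℕ → ℕ) : pt r K f ≠ ⊤ :=
  ENNReal.sum_ne_top.2 fun k _ => ENNReal.mul_ne_top (by simp) (by simp)

lemma pt_loc (K : ℕ) : IsLocallyConstant (pt r K) := by
  have : pt r K = (fun g : Fin K → ℕ => ∑ k : Fin K, (r : ℝ≥0∞) ^ k.1 * ((g k - 2 ^ k.1 : ℕ) : ℝ≥0∞)) ∘
      fun f (k : Fin K) => f (2 ^ k.1) := by
    ext f
    simp only [pt, Function.comp, tm, Finset.sum_range]
  rw [this]
  exact (IsLocallyConstant.of_discrete _).comp_continuous (by fun_prop)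

lemma nu_lsc : LowerSemicontinuous (nu r) := lowerSemicontinuous_tsum fun k =>
  (((IsLocallyConstant.of_discrete fun a : ℕ => (r : ℝ≥0∞) ^ k * ((a - 2 ^ k : ℕ) : ℝ≥0∞)).comp_continuous
    (continuous_apply (2 ^ k))).continuous).lowerSemicontinuous

lemma dmono {f : ℕ → ℕ} (hf : StrictMono f) {x y : ℕ} (h : x ≤ y) : f x - x ≤ f y - y := by
  have := hf.add_le_nat (y - x) x
  rw [Nat.sub_add_cancel h] at this
  have := hf.le_apply (x := x)
  omega

lemma le_left (f h : E) : nu r f.1 ≤ nu r (f * h).1 := ENNReal.tsum_le_tsum fun k =>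
  mul_le_mul_right (Nat.cast_le.2 (Nat.sub_le_sub_right (f.2.monotone h.2.le_apply) _)) _

lemma le_right (f h : E) : nu r h.1 ≤ nu r (f * h).1 := ENNReal.tsum_le_tsum fun k =>
  mul_le_mul_right (Nat.cast_le.2 (Nat.sub_le_sub_right f.2.le_apply _)) _

variable {r}

lemma tl_le (hr : 1 ≤ 2 * r) (f h : E) (K : ℕ) (hK : tl r K h.1 ≤ 1) :
    tl r K (f * h).1 ≤ 2 * tl r K f.1 + tl r K h.1 := by
  have hr' : (1 : ℝ≥0∞) ≤ 2 * r := by exact_mod_cast hr
  have h1 : ∀ k, tm r h.1 k ≤ 1 → tm r (f * h).1 k ≤ 2 * tm r f.1 (k + 1) + tm r h.1 k := by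
    intro k hk
    have h2 : h.1 (2 ^ k) - 2 ^ k ≤ 2 ^ k := by
      have : ((h.1 (2 ^ k) - 2 ^ k : ℕ) : ℝ≥0∞) ≤ 2 ^ k :=
        calc _ ≤ (2 * (r : ℝ≥0∞)) ^ k * ((h.1 (2 ^ k) - 2 ^ k : ℕ) : ℝ≥0∞) :=
              le_mul_of_one_le_left' (one_le_pow₀ hr')
          _ = 2 ^ k * tm r h.1 k := by rw [tm, mul_pow, mul_assoc]
          _ ≤ 2 ^ k := mul_le_of_le_one_right' hk
      exact_mod_cast this
    have h3 := dmono f.2 (show h.1 (2 ^ k) ≤ 2 ^ (k + 1) by rw [pow_succ]; omega)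
    have h4 : (f * h).1 (2 ^ k) - 2 ^ k ≤ (f.1 (2 ^ (k + 1)) - 2 ^ (k + 1)) + (h.1 (2 ^ k) - 2 ^ k) := by
      change f.1 (h.1 _) - _ ≤ _
      omega
    calc _ ≤ (r : ℝ≥0∞) ^ k * (((f.1 (2 ^ (k + 1)) - 2 ^ (k + 1) : ℕ) : ℝ≥0∞) +
          ((h.1 (2 ^ k) - 2 ^ k : ℕ) : ℝ≥0∞)) := mul_le_mul_right (by exact_mod_cast h4) _
      _ ≤ _ := by
        rw [mul_add]
        refine add_le_add_left ?_ _
        calc _ ≤ (2 * (r : ℝ≥0∞)) * ((r : ℝ≥0∞) ^ k * ((f.1 (2 ^ (k + 1)) - 2 ^ (k + 1) : ℕ) : ℝ≥0∞)) :=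
              le_mul_of_one_le_left' hr'
          _ = _ := by rw [tm]; ring
  calc _ ≤ ∑' k, (2 * tm r f.1 (k + 1 + K) + tm r h.1 (k + K)) := ENNReal.tsum_le_tsum fun k => by
        rw [add_right_comm]
        exact h1 _ ((ENNReal.le_tsum (f := fun k => tm r h.1 (k + K)) k).trans hK)
    _ ≤ _ := by
      rw [ENNReal.tsum_add, ENNReal.tsum_mul_left]
      exact add_le_add_left (mul_le_mul_right (ENNReal.tsum_comp_le_tsum_of_injective
        (add_left_injective 1) fun k => tm r f.1 (k + K)) _) _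

lemma tl_small {f : ℕ → ℕ} (hf : nu r f ≠ ⊤) {e : ℝ≥0∞} (he : 0 < e) : ∀ᶠ K in atTop, tl r K f < e :=
  (ENNReal.tendsto_sum_nat_add _ hf).eventually (gt_mem_nhds he)

lemma top_iff (hr : 1 ≤ 2 * r) (f h : E) : nu r (f * h).1 = ⊤ ↔ nu r f.1 = ⊤ ∨ nu r h.1 = ⊤ := by
  refine ⟨fun e => ?_, fun e => top_le_iff.1 (e.elim (· ▸ le_left r f h) (· ▸ le_right r f h))⟩
  by_contra hc
  push Not at hc
  obtain ⟨K, h1, h2⟩ := ((tl_small hc.1 one_pos).and (tl_small hc.2 one_pos)).exists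
  rw [split r K] at e
  refine ENNReal.add_ne_top.2 ⟨pt_ne r K _, ne_top_of_le_ne_top ?_ (tl_le hr f h K h2.le)⟩ e
  exact ENNReal.add_ne_top.2 ⟨ENNReal.mul_ne_top (by simp) h1.ne_top, h2.ne_top⟩

variable (r)

open Classical in
noncomputable def Phi (f : E) : (ℕ → ℕ) × ℝ≥0∞ × Bool := (f.1, nu r f.1, decide (nu r f.1 = ⊤))

@[reducible] noncomputable def T : TopologicalSpace E := induced (Phi r) inferInstance

lemma polish : @PolishSpace E (T r) := by
  let := T r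
  refine polish_of_gd (j := Phi r) ⟨⟨rfl⟩, fun f g h => Subtype.ext (congrArg Prod.fst h)⟩ ?_
  have : range (Phi r) = ((⋂ n, {p | p.1 n < p.1 (n + 1)}) ∩ {p | nu r p.1 ≤ p.2.1}) ∩
      ((⋂ q : ℚ, {p | p.2.1 ≤ (Real.toNNReal q : ℝ≥0∞)} ∪ {p | (Real.toNNReal q : ℝ≥0∞) < nu r p.1}) ∩
      ({p | p.2.2 = true ∧ p.2.1 = ⊤} ∪ {p | p.2.2 = false ∧ p.2.1 ≠ ⊤})) := by
    ext ⟨f, t, b⟩
    simp only [mem_range, Phi, Prod.mk.injEq, mem_inter_iff, mem_iInter, mem_ofPred_eq, mem_union]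
    constructor
    · rintro ⟨g, rfl, rfl, rfl⟩
      exact ⟨⟨fun n => g.2 (Nat.lt_succ_self n), le_rfl⟩, fun q => le_or_gt _ _, by simp [em]⟩
    · rintro ⟨⟨h1, h2⟩, h3, h4⟩
      have e : nu r f = t := h2.eq_or_lt.resolve_right fun hlt => by
        obtain ⟨q, -, k1, k2⟩ := ENNReal.lt_iff_exists_rat_btwn.1 hlt
        exact (h3 q).elim k2.not_ge k1.not_gt
      refine ⟨⟨f, strictMono_nat_of_lt_succ h1⟩, rfl, e, ?_⟩
      rcases h4 with ⟨rfl, rfl⟩ | ⟨rfl, h⟩ <;> simp [*]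
  rw [this]
  refine ((IsClosed.isGδ (isClosed_iInter fun n => isClosed_lt_of_discrete n)).inter
    (IsClosed.isGδ ?_)).inter ((IsGδ.iInter fun q => (IsClosed.isGδ
      (isClosed_le (by fun_prop) continuous_const)).union (IsOpen.isGδ ?_)).inter
      ((IsClosed.isGδ ?_).union (IsOpen.isGδ ?_)))
  · exact ((nu_lsc r).isClosed_epigraph).preimage
      (f := fun p : (ℕ → ℕ) × ℝ≥0∞ × Bool => (p.1, p.2.1)) (by fun_prop)
  · exact ((nu_lsc r).isOpen_preimage _).preimage continuous_fst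
  · exact (isClosed_eq (by fun_prop) continuous_const).inter (isClosed_eq (by fun_prop) continuous_const)
  · exact ((isOpen_discrete {false}).preimage (f := fun p : (ℕ → ℕ) × ℝ≥0∞ × Bool => p.2.2)
      (by fun_prop)).inter (isOpen_ne_fun (by fun_prop) continuous_const)
where
  isClosed_lt_of_discrete (n : ℕ) : IsClosed {p : (ℕ → ℕ) × ℝ≥0∞ × Bool | p.1 n < p.1 (n + 1)} :=
    (isClosed_discrete {a : ℕ × ℕ | a.1 < a.2}).preimage
      (f := fun p : (ℕ → ℕ) × ℝ≥0∞ × Bool => (p.1 n, p.1 (n + 1))) (by fun_prop)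

variable {r}

lemma cmul (hr : 1 ≤ 2 * r) : @ContinuousMul E (T r) _ := by
  let := T r
  have hP : Continuous (Phi r) := continuous_induced_dom
  have c1 : Continuous fun f : E => f.1 := hP.fst
  have c2 : Continuous fun f : E => nu r f.1 := hP.snd.fst
  have c3 : Continuous fun p : E × E => (p.1 * p.2).1 := continuous_pi fun x =>
    (continuous_prod_of_discrete_right.2 (fun b => continuous_apply b) :
      Continuous fun q : (ℕ → ℕ) × ℕ => q.1 q.2).comp ((c1.comp continuous_fst).prodMk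
      ((continuous_apply x).comp (c1.comp continuous_snd)))
  have tl_ev : ∀ (f : E) (K : ℕ) (e : ℝ≥0∞), tl r K f.1 < e → ∀ᶠ g in 𝓝 f, tl r K g.1 < e := by
    intro f K e he
    have h1 : nu r f.1 < pt r K f.1 + e := by
      rw [split r K]; exact ENNReal.add_lt_add_left (pt_ne r K _) he
    filter_upwards [c2.continuousAt.eventually (gt_mem_nhds h1),
      ((pt_loc r K).comp_continuous c1).eventually_eq f] with g k1 k2
    simp only [Function.comp] at k2
    rw [split r K, k2] at k1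
    exact (ENNReal.add_lt_add_iff_left (pt_ne r K _)).1 k1
  refine ⟨continuous_induced_rng.2 (c3.prodMk (Continuous.prodMk ?_ ?_))⟩
  · refine continuous_iff_lower_upperSemicontinuous.2 ⟨(nu_lsc r).comp c3, ?_⟩
    rintro ⟨f, h⟩ c hc
    have hfin := not_or.1 (mt (top_iff hr f h).2 hc.ne_top)
    obtain ⟨e, he, hec⟩ := ENNReal.lt_iff_exists_add_pos_lt.1 hc
    have he' : (0 : ℝ≥0∞) < min 1 ((e : ℝ≥0∞) / 3) :=
      lt_min one_pos (ENNReal.div_pos (by simpa using he.ne') (by simp))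
    obtain ⟨K, h1, h2⟩ := ((tl_small hfin.1 he').and (tl_small hfin.2 he')).exists
    filter_upwards [(continuous_fst.tendsto (f, h)).eventually (tl_ev f K _ h1),
      (continuous_snd.tendsto (f, h)).eventually (tl_ev h K _ h2),
      ((pt_loc r K).comp_continuous c3).eventually_eq (f, h)] with p k1 k2 k3
    simp only [Function.comp] at k3
    refine lt_of_le_of_lt ?_ hec
    rw [split r K, k3]
    refine add_le_add (le_self_add.trans (split r K _).ge)
      ((tl_le hr _ _ K (k2.le.trans (min_le_left _ _))).trans ?_)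
    calc _ ≤ 2 * ((e : ℝ≥0∞) / 3) + e / 3 := add_le_add
          (mul_le_mul_right (k1.le.trans (min_le_right _ _)) _) (k2.le.trans (min_le_right _ _))
      _ = 3 * ((e : ℝ≥0∞) / 3) := by ring
      _ ≤ e := ENNReal.mul_div_le
  · have : Continuous fun p : E × E => ((Phi r p.1).2.2 || (Phi r p.2).2.2) :=
      (continuous_of_discreteTopology (f := fun a : Bool × Bool => (a.1 || a.2))).comp
        ((hP.snd.snd.comp continuous_fst).prodMk (hP.snd.snd.comp continuous_snd))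
    refine this.congr fun p => ?_
    simp [Phi, top_iff hr]

lemma open_top : IsOpen[T r] {f : E | nu r f.1 = ⊤} := by
  let := T r
  have hP : Continuous (Phi r) := continuous_induced_dom
  have := (isOpen_discrete {true}).preimage hP.snd.snd
  simpa [Phi, preimage] using this

noncomputable def F (s : ℝ≥0) (hs : 1 ≤ s⁻¹) : E := ⟨fun x => x + ⌈s⁻¹ ^ Nat.log 2 x⌉₊,
  fun _ _ h => add_lt_add_of_lt_of_le h
    (Nat.ceil_mono (pow_le_pow_right₀ hs (Nat.log_mono_right h.le)))⟩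

lemma tm_F (s : ℝ≥0) (hs : 1 ≤ s⁻¹) (k : ℕ) :
    tm r (F s hs).1 k = ((r ^ k * ⌈s⁻¹ ^ k⌉₊ : ℝ≥0) : ℝ≥0∞) := by
  simp [tm, F, Nat.log_pow]

lemma F_top (s : ℝ≥0) (hs : 1 ≤ s⁻¹) : nu s (F s hs).1 = ⊤ := by
  have h0 : s ≠ 0 := by rintro rfl; simp at hs
  refine top_le_iff.1 ((ENNReal.tsum_const_eq_top_of_ne_zero (α := ℕ) one_ne_zero).ge.trans
    (ENNReal.tsum_le_tsum fun k => ?_))
  rw [tm_F, ENNReal.one_le_coe_iff]
  refine le_trans ?_ (mul_le_mul_right (Nat.le_ceil _) _)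
  rw [← mul_pow, mul_inv_cancel₀ h0, one_pow]

lemma F_fin (s : ℝ≥0) (hs : 1 ≤ s⁻¹) (h : r < s) : nu r (F s hs).1 ≠ ⊤ := by
  have h0 : 0 < s := zero_le.trans_lt h
  simp only [nu, tm_F, ENNReal.tsum_coe_ne_top_iff_summable]
  refine NNReal.summable_of_le (fun k => ?_) (Summable.mul_left 2
    (NNReal.summable_geometric (r := r * s⁻¹) (by rwa [mul_inv_lt_iff₀ h0, one_mul])))
  have h1 : (⌈s⁻¹ ^ k⌉₊ : ℝ≥0) ≤ 2 * s⁻¹ ^ k := by
    rw [two_mul]
    exact (Nat.ceil_lt_add_one zero_le).le.trans (add_le_add_right (one_le_pow₀ hs) _)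
  rw [mul_pow, mul_left_comm]
  exact mul_le_mul_right h1 _

theorem main (t : TopologicalSpace E) (ht : @SecondCountableTopology E t) :
    ∃ t' : TopologicalSpace E, @PolishSpace E t' ∧ @ContinuousMul E t' _ ∧
      ∃ U, IsOpen[t'] U ∧ ¬ IsOpen[t] U := by
  by_contra hc
  push Not at hc
  have h1 : ∀ s : Ioo (1 / 2 : ℝ) 1, 1 ≤ 2 * s.1.toNNReal ∧ 1 ≤ s.1.toNNReal⁻¹ := by
    rintro ⟨s, h1, h2⟩
    have h0 : 0 < s := by linarith
    constructor
    · rw [← NNReal.coe_le_coe]; simp [h0.le]; linarith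
    · exact (one_le_inv₀ (by simpa using h0)).2 (by simpa using h2.le)
  have h2 : ∀ s : Ioo (1 / 2 : ℝ) 1, ∃ B ∈ countableBasis E, F _ (h1 s).2 ∈ B ∧
      B ⊆ {f : E | nu s.1.toNNReal f.1 = ⊤} := fun s =>
    (isBasis_countableBasis E).exists_subset_of_mem_open (F_top _ _)
      (hc _ (polish _) (cmul (h1 s).1) _ open_top)
  choose B hB hF hs using h2
  have h3 : ∀ s s', B s = B s' → ¬ s < s' := fun s s' e hlt => F_fin _ (h1 s').2
    ((Real.toNNReal_lt_toNNReal_iff (by linarith [s'.2.1])).2 hlt) (hs s (e ▸ hF s'))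
  have := (countable_countableBasis E).to_subtype
  have h4 : Countable (Ioo (1 / 2 : ℝ) 1) := Function.Injective.countable
    (f := fun s => (⟨B s, hB s⟩ : countableBasis E)) fun s s' e =>
    le_antisymm (not_lt.1 (h3 _ _ (congrArg Subtype.val e).symm)) (not_lt.1 (h3 _ _ (congrArg Subtype.val e)))
  have := Set.Countable.measure_zero (countable_coe_iff.1 h4) MeasureTheory.volume
  simp at this
  linarith

end Pool.Agent.H14.EndNat
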