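import Mathlib

set_option autoImplicit false
set_option maxHeartbeats 800000

namespace Pool.Agent.H14.Ent
open Finset Polynomial

/-- all complex zeros of `∑ k ≤ n, b k z^k` are real -/
def RR (n : ℕ) (b : ℕ → ℝ) : Prop := ∀ z : ℂ, ∑ k ∈ range (n + 1), (b k : ℂ) * z ^ k = 0 → z.im = 0

structure G (P : ℝ[X]) : Prop where
  nn : ∀ k, 0 ≤ P.coeff k
  lc : ∀ i j, i ≤ j → P.coeff i * P.coeff (j + 2) ≤ P.coeff (i + 1) * P.coeff (j + 1)
  four : ∀ t ρ : ℝ, 0 < t → 1 ≤ ρ → ρ ≤ 2 →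
    P.eval (ρ ^ 3 * t) * P.eval (ρ * t) ^ 5 ≤ P.eval (ρ ^ 2 * t) ^ 4 * P.eval t ^ 2

lemma ev_nn {P : ℝ[X]} (h : ∀ k, 0 ≤ P.coeff k) {x : ℝ} (hx : 0 ≤ x) : 0 ≤ P.eval x := by
  rw [eval_eq_sum_range]; exact sum_nonneg fun k _ => mul_nonneg (h k) (pow_nonneg hx _)

lemma fac (t ρ s : ℝ) (ht : 0 < t) (h1 : 1 ≤ ρ) (h2 : ρ ≤ 2) (hs : 0 ≤ s) :
    (ρ ^ 3 * t + s) * (ρ * t + s) ^ 5 ≤ (ρ ^ 2 * t + s) ^ 4 * (t + s) ^ 2 := by
  obtain ⟨κ, hκ⟩ : ∃ κ, κ = t * s * (ρ - 1) ^ 2 := ⟨_, rfl⟩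
  have hκ0 : 0 ≤ κ := by rw [hκ]; positivity
  have hB : 0 ≤ ρ * t + s := by positivity
  have hBC : ρ * t + s ≤ ρ ^ 2 * t + s := by nlinarith [mul_nonneg (mul_pos (by linarith : 0 < ρ) ht).le (by linarith : 0 ≤ ρ - 1)]
  have e1 : (ρ ^ 2 * t + s) * (t + s) = (ρ * t + s) ^ 2 + κ := by rw [hκ]; ring
  have e2 : (ρ ^ 3 * t + s) * (ρ * t + s) = (ρ ^ 2 * t + s) ^ 2 + ρ * κ := by rw [hκ]; ring
  generalize ρ * t + s = B at *
  generalize ρ ^ 2 * t + s = D at *
  generalize ρ ^ 3 * t + s = E at *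
  generalize t + s = A at *
  have h3 : B ^ 2 ≤ D ^ 2 := pow_le_pow_left₀ hB hBC 2
  calc E * B ^ 5 = (D ^ 2 + ρ * κ) * B ^ 4 := by rw [← e2]; ring
    _ ≤ D ^ 2 * (B ^ 2 + κ) ^ 2 := by
        have : ρ * κ * B ^ 4 ≤ 2 * κ * B ^ 2 * D ^ 2 := by
          have a : ρ * B ^ 2 ≤ 2 * D ^ 2 := mul_le_mul h2 h3 (by positivity) (by norm_num)
          have b := mul_le_mul_of_nonneg_left a (mul_nonneg hκ0 (sq_nonneg B))
          nlinarith
        nlinarith [mul_nonneg (sq_nonneg D) (sq_nonneg κ)]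
    _ = D ^ 4 * A ^ 2 := by rw [← e1]; ring

lemma G.mul {P : ℝ[X]} (h : G P) (s : ℝ) (hs : 0 ≤ s) : G (P * (X + C s)) := by
  have e0 : (P * (X + C s)).coeff 0 = P.coeff 0 * s := by simp [mul_add]
  have e1 : ∀ k, (P * (X + C s)).coeff (k + 1) = P.coeff k + P.coeff (k + 1) * s := fun k => by
    simp [mul_add, coeff_mul_X]
  refine ⟨fun k => ?_, fun i j hij => ?_, fun t ρ ht h1 h2 => ?_⟩
  · cases k with
    | zero => rw [e0]; exact mul_nonneg (h.nn 0) hs
    | succ k => rw [e1]; exact add_nonneg (h.nn _) (mul_nonneg (h.nn _) hs)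
  · cases i with
    | zero =>
      rw [e0, e1, e1, e1]
      have a := h.lc 0 j hij
      have b := mul_nonneg (h.nn 0) (h.nn j)
      have c := mul_nonneg (mul_nonneg (h.nn 1) (h.nn j)) hs
      have d := mul_le_mul_of_nonneg_right a (mul_nonneg hs hs)
      simp only [zero_add] at *
      nlinarith
    | succ i =>
      obtain ⟨j, rfl⟩ : ∃ j', j = j' + 1 := ⟨j - 1, by omega⟩
      rw [e1, e1, e1, e1]
      have a := h.lc i j (by omega)
      have b := h.lc (i + 1) (j + 1) hij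
      have c : P.coeff i * P.coeff (j + 1 + 2) ≤ P.coeff (i + 1 + 1) * P.coeff (j + 1) := by
        have c1 := h.lc i (j + 1) (by omega)
        rcases Nat.eq_or_lt_of_le hij with e | e
        · obtain rfl : i = j := by omega
          rw [mul_comm (P.coeff (i + 1 + 1))]; exact c1
        · exact c1.trans (h.lc (i + 1) j (by omega))
      have d := mul_le_mul_of_nonneg_right b (mul_nonneg hs hs)
      have c' := mul_le_mul_of_nonneg_right c hs
      have q1 : j + 1 + 1 = j + 2 := rfl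
      have q2 : j + 1 + 1 + 1 = j + 1 + 2 := rfl
      simp only [q1, q2] at *
      nlinarith
  · simp only [eval_mul, eval_add, eval_X, eval_C, mul_pow]
    have a := h.four t ρ ht h1 h2
    have b := fac t ρ s ht h1 h2 hs
    have := mul_le_mul a b (by positivity)
      (mul_nonneg (pow_nonneg (ev_nn h.nn (by positivity)) _) (sq_nonneg _))
    nlinarith

lemma G.const (c : ℝ) (hc : 0 ≤ c) : G (C c) := by
  refine ⟨fun k => ?_, fun i j _ => ?_, fun t ρ _ _ _ => ?_⟩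
  · rw [coeff_C]; split_ifs <;> simp [hc]
  · simp [coeff_C]
  · simp only [eval_C]; exact le_of_eq (by ring)

lemma G.prod (c : ℝ) (hc : 0 ≤ c) (m : Multiset ℝ) (hm : ∀ a ∈ m, a ≤ 0) :
    G (C c * (m.map (X - C ·)).prod) := by
  induction m using Multiset.induction_on with
  | empty => simpa using G.const c hc
  | cons a m ih =>
    have := (ih fun b hb => hm b (Multiset.mem_cons_of_mem hb)).mul (-a)
      (neg_nonneg.2 (hm a (Multiset.mem_cons_self _ _)))
    convert this using 1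
    simp only [Multiset.map_cons, Multiset.prod_cons, map_neg]; ring

noncomputable def pl (n : ℕ) (b : ℕ → ℝ) : ℝ[X] := ∑ k ∈ range (n + 1), monomial k (b k)

lemma pl_coeff (n : ℕ) (b : ℕ → ℝ) (k : ℕ) : (pl n b).coeff k = if k ≤ n then b k else 0 := by
  simp [pl, coeff_monomial, Nat.lt_succ_iff]

lemma pl_eval (n : ℕ) (b : ℕ → ℝ) (x : ℝ) : (pl n b).eval x = ∑ k ∈ range (n + 1), b k * x ^ k := by
  simp [pl, eval_finsetSum]

lemma G_of_RR {n : ℕ} {b : ℕ → ℝ} (hb : ∀ k ≤ n, 0 ≤ b k) (h : RR n b) : G (pl n b) := by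
  have hnn : ∀ k, 0 ≤ (pl n b).coeff k := fun k => by
    rw [pl_coeff]; split_ifs with hk
    · exact hb k hk
    · exact le_rfl
  by_cases h0 : pl n b = 0
  · rw [h0]; simpa using G.const 0 le_rfl
  have hs : (pl n b).Splits := by
    refine Splits.of_splits_map (algebraMap ℝ ℂ) (IsAlgClosed.splits _) fun z hz => ?_
    have hz' := (mem_roots'.1 hz).2
    have : z.im = 0 := h z (by simpa [pl, Polynomial.map_sum, eval_finsetSum] using hz')
    exact ⟨z.re, Complex.ext (by simp) (by simp [this])⟩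
  rw [hs.eq_prod_roots]
  refine G.prod _ (hnn _) _ fun a ha => ?_
  by_contra hpos
  rw [not_le] at hpos
  have hr : (pl n b).eval a = 0 := (mem_roots'.1 ha).2
  rw [eval_eq_sum_range, sum_eq_zero_iff_of_nonneg fun k _ => mul_nonneg (hnn k) (pow_nonneg hpos.le _)] at hr
  have := hr _ (self_mem_range_succ _)
  exact mul_ne_zero (leadingCoeff_ne_zero.2 h0) (pow_ne_zero _ hpos.ne') this

/-- the hypothesis: `F` is nonnegative and preserves real-rootedness of positive sequences -/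
structure Pres (F : ℝ → ℝ) : Prop where
  nn : ∀ t, 0 < t → 0 ≤ F t
  pr : ∀ (n : ℕ) (a : ℕ → ℝ), (∀ k ≤ n, 0 < a k) → RR n a →
    (∀ k ≤ n, F (a k) = 0) ∨ RR n fun k => F (a k)

variable {F : ℝ → ℝ}

lemma Pres.G (h : Pres F) {n : ℕ} {a : ℕ → ℝ} (ha : ∀ k ≤ n, 0 < a k) (hr : RR n a) :
    G (pl n fun k => F (a k)) := by
  rcases h.pr n a ha hr with h0 | h1
  · have : pl n (fun k => F (a k)) = 0 := sum_eq_zero fun k hk => by
      simp [h0 k (Nat.lt_succ_iff.1 (mem_range.1 hk))]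
    rw [this]; simpa using G.const 0 le_rfl
  · exact G_of_RR (fun k hk => h.nn _ (ha k hk)) h1

lemma Pres.lc (h : Pres F) {n : ℕ} {a : ℕ → ℝ} (ha : ∀ k ≤ n, 0 < a k) (hr : RR n a) (i : ℕ)
    (hi : i + 2 ≤ n) : F (a i) * F (a (i + 2)) ≤ F (a (i + 1)) ^ 2 := by
  have := (h.G ha hr).lc i i le_rfl
  simp only [pl_coeff, if_pos hi, if_pos (show i ≤ n by omega), if_pos (show i + 1 ≤ n by omega)] at this
  rwa [sq]

lemma RR_bin (n : ℕ) (l r : ℝ) (hl : 0 < l) (hr : 0 < r) : RR n fun k => l * n.choose k * r ^ k := by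
  intro z hz
  have e : ∑ k ∈ range (n + 1), ((l * n.choose k * r ^ k : ℝ) : ℂ) * z ^ k = l * (r * z + 1) ^ n := by
    rw [add_pow, mul_sum]; refine sum_congr rfl fun k _ => ?_; push_cast; ring
  rw [e, mul_eq_zero] at hz
  rcases hz with h | h
  · exact absurd (by exact_mod_cast h) hl.ne'
  · have := congrArg Complex.im (eq_zero_of_pow_eq_zero h)
    simpa [hr.ne'] using this

lemma RR_tau (n : ℕ) (l τ : ℝ) (hl : 0 < l) (hτ : 2 ≤ τ) :
    RR (n + 2) fun k => l * ((1 + X) ^ n * (X ^ 2 + C τ * X + 1) : ℝ[X]).coeff k := by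
  intro z hz
  have hd : ((1 + X) ^ n * (X ^ 2 + C τ * X + 1) : ℝ[X]).natDegree < n + 2 + 1 := by
    refine Nat.lt_succ_of_le (natDegree_mul_le.trans (add_le_add ?_ ?_))
    · refine natDegree_pow_le.trans ?_
      have : (1 + X : ℝ[X]).natDegree ≤ 1 := by compute_degree
      nlinarith
    · compute_degree
  have e := aeval_eq_sum_range' hd z
  have e2 : (l : ℂ) * aeval z ((1 + X) ^ n * (X ^ 2 + C τ * X + 1) : ℝ[X]) = 0 := by
    rw [e, mul_sum, ← hz]; refine sum_congr rfl fun k _ => ?_; simp [mul_assoc]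
  simp only [map_mul, map_pow, map_add, map_one, aeval_X, aeval_C, mul_eq_zero] at e2
  rcases e2 with h | h | h
  · exact absurd (by exact_mod_cast h) hl.ne'
  · simpa using congrArg Complex.im (eq_zero_of_pow_eq_zero h)
  · have a := congrArg Complex.re h
    have b := congrArg Complex.im h
    simp [sq] at a b
    by_contra hne
    have : 2 * z.re + τ = 0 := by
      have : z.im * (2 * z.re + τ) = 0 := by linarith
      exact (mul_eq_zero.1 this).resolve_left hne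
    have h3 : 0 < z.im * z.im := mul_self_pos.2 hne
    nlinarith

end Pool.Agent.H14.Ent
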