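import Pool.Agent.H14.Ent1

set_option autoImplicit false
set_option maxHeartbeats 800000

namespace Pool.Agent.H14.Ent
open Finset Polynomial

variable {F : ℝ → ℝ}

lemma tau_coeff (n k : ℕ) (τ : ℝ) : ((1 + X) ^ n * (X ^ 2 + C τ * X + 1) : ℝ[X]).coeff (k + 2) =
    n.choose k + τ * n.choose (k + 1) + n.choose (k + 2) := by
  have : ((1 + X) ^ n * (X ^ 2 + C τ * X + 1) : ℝ[X]) =
      (1 + X) ^ n * X ^ 2 + C τ * ((1 + X) ^ n * X) + (1 + X) ^ n := by ring
  rw [this, coeff_add, coeff_add, coeff_mul_X_pow, coeff_C_mul, coeff_mul_X]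
  simp only [coeff_one_add_X_pow]

lemma tau_pos (n k : ℕ) (τ : ℝ) (hτ : 2 ≤ τ) (hk : k ≤ n + 2) :
    0 < ((1 + X) ^ n * (X ^ 2 + C τ * X + 1) : ℝ[X]).coeff k := by
  match k, hk with
  | 0, _ => simp [coeff_one_add_X_pow]
  | 1, _ =>
    have : ((1 + X) ^ n * (X ^ 2 + C τ * X + 1) : ℝ[X]) =
      ((1 + X) ^ n * X) * X + C τ * ((1 + X) ^ n * X) + (1 + X) ^ n := by ring
    rw [this, coeff_add, coeff_add, coeff_mul_X, coeff_C_mul, coeff_mul_X]
    simp [coeff_one_add_X_pow]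
    positivity
  | k + 2, hk =>
    rw [tau_coeff]
    have : (0 : ℝ) < n.choose k := by exact_mod_cast Nat.choose_pos (by omega)
    positivity

lemma Pres.mono1 (h : Pres F) {a β : ℝ} (ha : 0 < a) (h1 : 1 < β) (h2 : β < 3 / 2) : F a ≤ F (β * a) := by
  have hy : 2 < 1 / (β - 1) := by rw [lt_div_iff₀ (by linarith)]; linarith
  obtain ⟨M, hM⟩ : ∃ M : ℕ, ⌈1 / (β - 1)⌉₊ = M + 3 := by
    have : 2 < ⌈1 / (β - 1)⌉₊ := Nat.lt_ceil.2 (by exact_mod_cast hy)
    exact ⟨⌈1 / (β - 1)⌉₊ - 3, by omega⟩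
  have c1 : 1 / (β - 1) ≤ M + 3 := by have := Nat.le_ceil (1 / (β - 1)); rw [hM] at this; exact_mod_cast this
  have c2 : (M + 2 : ℝ) < 1 / (β - 1) := by
    have : M + 2 < ⌈1 / (β - 1)⌉₊ := by omega
    exact_mod_cast Nat.lt_ceil.1 this
  rw [div_le_iff₀ (by linarith)] at c1
  rw [lt_div_iff₀ (by linarith)] at c2
  have s1 : (2 * M + 4).choose (M + 1) = (2 * M + 4).choose (M + 3) :=
    Nat.choose_symm_of_eq_add (by omega)
  have s2 : (2 * M + 4).choose M = (2 * M + 4).choose (M + 4) := Nat.choose_symm_of_eq_add (by omega)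
  have r1 : ((2 * M + 4).choose (M + 3) : ℝ) * (M + 3) = (2 * M + 4).choose (M + 2) * (M + 2) := by
    have := Nat.choose_succ_right_eq (2 * M + 4) (M + 2)
    rw [show 2 * M + 4 - (M + 2) = M + 2 by omega] at this
    exact_mod_cast this
  have r2 : ((2 * M + 4).choose (M + 4) : ℝ) * (M + 4) = (2 * M + 4).choose (M + 3) * (M + 1) := by
    have := Nat.choose_succ_right_eq (2 * M + 4) (M + 3)
    rw [show 2 * M + 4 - (M + 3) = M + 1 by omega] at this
    exact_mod_cast this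
  have p0 : (0 : ℝ) < (2 * M + 4).choose (M + 2) := by exact_mod_cast Nat.choose_pos (by omega)
  have p1 : (0 : ℝ) < (2 * M + 4).choose (M + 3) := by exact_mod_cast Nat.choose_pos (by omega)
  have p2 : (0 : ℝ) < (2 * M + 4).choose (M + 4) := by exact_mod_cast Nat.choose_pos (by omega)
  have e2 := fun τ => tau_coeff (2 * M + 4) M τ
  have e3 := fun τ => tau_coeff (2 * M + 4) (M + 1) τ
  have e4 := fun τ => tau_coeff (2 * M + 4) (M + 2) τ
  rw [s2, s1] at e2
  rw [s1] at e3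
  simp only [show M + 1 + 1 = M + 2 from rfl, show M + 1 + 2 = M + 3 from rfl,
    show M + 2 + 1 = M + 3 from rfl, show M + 2 + 2 = M + 4 from rfl] at e3 e4
  generalize ((2 * M + 4).choose (M + 2) : ℝ) = A0 at *
  generalize ((2 * M + 4).choose (M + 3) : ℝ) = A1 at *
  generalize ((2 * M + 4).choose (M + 4) : ℝ) = A2 at *
  have hM0 : (0 : ℝ) ≤ M := Nat.cast_nonneg M
  have hd : 0 < A0 - β * A1 := by
    have : 0 < (A0 - β * A1) * (M + 2) := by nlinarith
    exact (mul_pos_iff_of_pos_right (by positivity)).1 this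
  obtain ⟨τ, hτ⟩ : ∃ τ, τ = (β * (A0 + A2) - 2 * A1) / (A0 - β * A1) := ⟨_, rfl⟩
  have hτ1 : τ * (A0 - β * A1) = β * (A0 + A2) - 2 * A1 := by rw [hτ]; field_simp
  have hτ2 : 2 ≤ τ := by
    rw [hτ, le_div_iff₀ hd]
    have k1 : (M + 4) * (A0 + 2 * A1 + A2) = 2 * (M + 3) * (A0 + A1) := by
      linear_combination r2 + r1
    have k2 : (M + 4 : ℝ) ≤ (M + 3) * β := by linarith
    have k3 : 0 ≤ (β * (A0 + 2 * A1 + A2) - 2 * (A0 + A1)) * (M + 3) := by
      nlinarith [mul_le_mul_of_nonneg_right k2 (show 0 ≤ A0 + 2 * A1 + A2 by positivity)]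
    have := nonneg_of_mul_nonneg_left k3 (show (0 : ℝ) < M + 3 by positivity)
    linarith
  have hR : 0 < A2 + τ * A1 + A0 := by positivity
  have hl : 0 < a / (A2 + τ * A1 + A0) := by positivity
  have := h.lc (fun k hk => mul_pos hl (tau_pos _ k τ hτ2 hk)) (RR_tau (2 * M + 4) _ τ hl hτ2) (M + 2)
    (by omega)
  simp only [show M + 2 + 1 = M + 3 from rfl, show M + 2 + 2 = M + 4 from rfl, e2, e3, e4] at this
  have q1 : a / (A2 + τ * A1 + A0) * (A2 + τ * A1 + A0) = a := by field_simp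
  have q2 : a / (A2 + τ * A1 + A0) * (A0 + τ * A1 + A2) = a := by field_simp; ring
  have q3 : a / (A2 + τ * A1 + A0) * (A1 + τ * A0 + A1) = β * a := by
    field_simp; linear_combination hτ1
  rw [q1, q2, q3, ← sq] at this
  exact (pow_le_pow_iff_left₀ (h.nn _ ha) (h.nn _ (by positivity)) two_ne_zero).1 this

lemma Pres.mono (h : Pres F) {a b : ℝ} (ha : 0 < a) (hab : a ≤ b) : F a ≤ F b := by
  have small : ∀ a b : ℝ, 0 < a → a ≤ b → b ≤ 5 / 4 * a → F a ≤ F b := by
    intro a b ha hab hb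
    rcases hab.eq_or_lt with rfl | hlt
    · exact le_rfl
    · have := h.mono1 (β := b / a) ha ((one_lt_div ha).2 hlt) (by rw [div_lt_iff₀ ha]; linarith)
      rwa [div_mul_cancel₀ _ ha.ne'] at this
  have key : ∀ (m : ℕ) (a : ℝ), 0 < a → a ≤ b → b ≤ (5 / 4) ^ m * a → F a ≤ F b := by
    intro m
    induction m with
    | zero => intro a ha h1 h2; exact small a b ha h1 (by simp at h2; linarith)
    | succ m ih =>
      intro a ha h1 h2
      rcases le_total b (5 / 4 * a) with h3 | h3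
      · exact small a b ha h1 h3
      · exact (small a _ ha (by linarith) le_rfl).trans
          (ih _ (by positivity) h3 (by rw [pow_succ, mul_assoc] at h2; exact h2))
  obtain ⟨m, hm⟩ := pow_unbounded_of_one_lt (b / a) (show (1 : ℝ) < 5 / 4 by norm_num)
  exact key m a ha hab ((div_le_iff₀ ha).1 hm.le)

lemma Pres.M (h : Pres F) {a r b : ℝ} (ha : 0 < a) (hr : 0 < r) (hb : a * r < b) :
    F a * F (a * r ^ 2) ≤ F b ^ 2 := by
  obtain ⟨N, hN⟩ := exists_nat_gt (a * r / (b - a * r))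
  rw [div_lt_iff₀ (by linarith)] at hN
  have s1 : (2 * N + 2).choose (N + 2) = (2 * N + 2).choose N := Nat.choose_symm_of_eq_add (by omega)
  have r1 : ((2 * N + 2).choose (N + 1) : ℝ) * (N + 1) = (2 * N + 2).choose N * (N + 2) := by
    have := Nat.choose_succ_right_eq (2 * N + 2) N
    rw [show 2 * N + 2 - N = N + 2 by omega] at this
    exact_mod_cast this
  have p0 : (0 : ℝ) < (2 * N + 2).choose N := by exact_mod_cast Nat.choose_pos (by omega)
  have p1 : (0 : ℝ) < (2 * N + 2).choose (N + 1) := by exact_mod_cast Nat.choose_pos (by omega)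
  have hl : 0 < a / ((2 * N + 2).choose N * r ^ N) := by positivity
  have := h.lc (fun k hk => by
    have : (0 : ℝ) < (2 * N + 2).choose k := by exact_mod_cast Nat.choose_pos hk
    positivity) (RR_bin (2 * N + 2) _ r hl hr) N (by omega)
  rw [s1] at this
  generalize ((2 * N + 2).choose N : ℝ) = u at *
  generalize ((2 * N + 2).choose (N + 1) : ℝ) = v at *
  have q1 : a / (u * r ^ N) * u * r ^ N = a := by field_simp
  have q2 : a / (u * r ^ N) * u * r ^ (N + 2) = a * r ^ 2 := by field_simp; ring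
  have q3 : a / (u * r ^ N) * v * r ^ (N + 1) = a * r * (v / u) := by field_simp; ring
  rw [q1, q2, q3] at this
  have hN0 : (0 : ℝ) ≤ N := Nat.cast_nonneg N
  have q4 : v / u = (N + 2) / (N + 1) := by field_simp; linarith
  have q5 : a * r * (v / u) ≤ b := by
    rw [q4, ← mul_div_assoc, div_le_iff₀ (by positivity)]; nlinarith
  exact this.trans (pow_le_pow_left₀ (h.nn _ (by positivity)) (h.mono (by positivity) q5) 2)

lemma Pres.LC (h : Pres F) {a r : ℝ} (ha : 0 < a) (hr : 1 < r) :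
    F a * F (a * r ^ 2) ≤ F (a * r) ^ 2 := by
  rcases (h.nn a ha).eq_or_lt with h0 | h0
  · rw [← h0, zero_mul]; positivity
  have hK : ∀ c, a * r < c → F a * F (a * r ^ 2) ≤ F c ^ 2 := fun c hc => h.M ha (by linarith) hc
  have hK0 : 0 ≤ F a * F (a * r ^ 2) := mul_nonneg h0.le (h.nn _ (by positivity))
  have hab : a < a * r := by nlinarith
  generalize F a * F (a * r ^ 2) = K at *
  generalize a * r = b at *
  have hb : 0 < b := by linarith
  have hbd : BddAbove (F '' Set.Ioo 0 b) := ⟨F b, by rintro _ ⟨x, hx, rfl⟩; exact h.mono hx.1 hx.2.le⟩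
  set L := sSup (F '' Set.Ioo 0 b) with hL
  have hle : ∀ x, 0 < x → x < b → F x ≤ L := fun x h1 h2 => le_csSup hbd ⟨x, ⟨h1, h2⟩, rfl⟩
  have hL0 : 0 < L := h0.trans_le (hle a ha hab)
  have hLb : L ≤ F b := csSup_le ⟨_, a, ⟨ha, hab⟩, rfl⟩ (by
    rintro _ ⟨x, hx, rfl⟩; exact h.mono hx.1 hx.2.le)
  have h1 : ∀ x, 0 < x → x < b → F x * √K ≤ L ^ 2 := by
    intro x hx hxb
    obtain ⟨q, hq0, hq⟩ : ∃ q : ℝ, 0 < q ∧ q ^ 2 = b / x := ⟨√(b / x), by positivity, Real.sq_sqrt (by positivity)⟩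
    have hq1 : 1 < q := by
      by_contra hn
      have : q ^ 2 ≤ 1 := pow_le_one₀ hq0.le (not_lt.1 hn)
      rw [hq, div_le_one hx] at this; linarith
    have hb' : b = x * q ^ 2 := by rw [hq]; field_simp
    have g1 : b < x * ((q + q ^ 2) / 2) ^ 2 := by
      rw [hb']; refine mul_lt_mul_of_pos_left (pow_lt_pow_left₀ (by nlinarith) hq0.le two_ne_zero) hx
    have g2 : x * ((q + q ^ 2) / 2) < x * ((q + 3 * q ^ 2) / 4) := mul_lt_mul_of_pos_left (by nlinarith) hx
    have g3 : x * ((q + 3 * q ^ 2) / 4) < b := by rw [hb']; exact mul_lt_mul_of_pos_left (by nlinarith) hx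
    have a1 := h.M hx (by positivity) g2
    have a2 := Real.sqrt_le_sqrt (hK _ g1)
    rw [Real.sqrt_sq (h.nn _ (by positivity))] at a2
    have a3 := pow_le_pow_left₀ (h.nn _ (by positivity)) (hle _ (by positivity) g3) 2
    exact (mul_le_mul_of_nonneg_left a2 (h.nn x hx)).trans (a1.trans a3)
  rcases hK0.eq_or_lt with hk | hk
  · rw [← hk]; positivity
  have hs : 0 < √K := Real.sqrt_pos.2 hk
  have h2 : L ≤ L ^ 2 / √K := csSup_le ⟨_, a, ⟨ha, hab⟩, rfl⟩ (by
    rintro _ ⟨x, hx, rfl⟩; rw [le_div_iff₀ hs]; exact h1 x hx.1 hx.2)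
  rw [le_div_iff₀ hs] at h2
  have h3 : √K ≤ L := by nlinarith
  rw [← Real.sq_sqrt hK0]
  exact pow_le_pow_left₀ hs.le (h3.trans hLb) 2

end Pool.Agent.H14.Ent
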