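import Pool.Agent.H14.Ent2

set_option autoImplicit false
set_option maxHeartbeats 800000

namespace Pool.Agent.H14.Ent
open Finset Polynomial

variable {F : ℝ → ℝ}

lemma choose_lb (N J : ℕ) (hN : 0 < N) (hJ : J ≤ N) : ∀ j ≤ J,
    (1 - j * (2 * J + 1) / N : ℝ) * (2 * N).choose N ≤ (2 * N).choose (N + j)
  | 0, _ => by simp
  | j + 1, hj => by
    have ih := choose_lb N J hN hJ j (by omega)
    have r : ((2 * N).choose (N + (j + 1)) : ℝ) * (N + j + 1) = (2 * N).choose (N + j) * (N - j) := by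
      have := Nat.choose_succ_right_eq (2 * N) (N + j)
      rw [show 2 * N - (N + j) = N - j by omega] at this
      have := congrArg (Nat.cast : ℕ → ℝ) this
      push_cast [Nat.cast_sub (show j ≤ N by omega)] at this
      exact this
    have hm : ((2 * N).choose (N + j) : ℝ) ≤ (2 * N).choose N := by
      have := Nat.choose_le_middle (N + j) (2 * N)
      rw [show 2 * N / 2 = N by omega] at this
      exact_mod_cast this
    have hN' : (0 : ℝ) < N := by exact_mod_cast hN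
    have hjJ : (j : ℝ) + 1 ≤ J := by exact_mod_cast hj
    have hj0 : (0 : ℝ) ≤ j := Nat.cast_nonneg j
    have p0 : (0 : ℝ) ≤ (2 * N).choose (N + j) := Nat.cast_nonneg _
    generalize ((2 * N).choose (N + (j + 1)) : ℝ) = w at *
    generalize ((2 * N).choose (N + j) : ℝ) = v at *
    generalize ((2 * N).choose N : ℝ) = u at *
    have e : w = v - v * (2 * j + 1) / (N + j + 1) := by field_simp; linarith
    have b : v * (2 * j + 1) / (N + j + 1) ≤ u * (2 * J + 1) / N :=
      div_le_div₀ (by nlinarith) (mul_le_mul hm (by linarith) (by positivity) (by linarith)) hN' (by linarith)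
    have e2 : (1 - ((j + 1 : ℕ) : ℝ) * (2 * J + 1) / N) * u = (1 - j * (2 * J + 1) / N) * u - u * (2 * J + 1) / N := by
      push_cast; ring
    rw [e2]; linarith

/-- the normalized test sums -/
noncomputable def S (F : ℝ → ℝ) (c r : ℝ) (N : ℕ) (x : ℝ) : ℝ :=
  (∑ k ∈ range (2 * N + 1), F (c / ((2 * N).choose N * r ^ N) * (2 * N).choose k * r ^ k) * x ^ k) / x ^ N

lemma Pres.S4 (h : Pres F) {c r t ρ : ℝ} (hc : 0 < c) (hr : 0 < r) (N : ℕ) (ht : 0 < t) (h1 : 1 ≤ ρ)
    (h2 : ρ ≤ 2) : S F c r N (ρ ^ 3 * t) * S F c r N (ρ * t) ^ 5 ≤ S F c r N (ρ ^ 2 * t) ^ 4 * S F c r N t ^ 2 := by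
  have p0 : (0 : ℝ) < (2 * N).choose N := by exact_mod_cast Nat.choose_pos (by omega)
  have hl : 0 < c / ((2 * N).choose N * r ^ N) := by positivity
  have := (h.G (fun k hk => by
    have : (0 : ℝ) < (2 * N).choose k := by exact_mod_cast Nat.choose_pos hk
    positivity) (RR_bin (2 * N) _ r hl hr)).four t ρ ht h1 h2
  simp only [pl_eval] at this
  unfold S
  rw [div_pow, div_pow, div_pow, div_mul_div_comm, div_mul_div_comm]
  have e : (ρ ^ 3 * t) ^ N * ((ρ * t) ^ N) ^ 5 = ((ρ ^ 2 * t) ^ N) ^ 4 * (t ^ N) ^ 2 := by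
    have k : ∀ (y : ℝ) (m : ℕ), (y ^ N) ^ m = (y ^ m) ^ N := fun y m => pow_right_comm y N m
    rw [k, k, k, ← mul_pow, ← mul_pow]; congr 1; ring
  rw [e]
  exact div_le_div_of_nonneg_right this (by positivity)

lemma S_eq (c r : ℝ) (hr : 0 < r) (N : ℕ) (x : ℝ) (hx : 0 < x) : S F c r N x =
    ∑ j ∈ range N, F (c * ((2 * N).choose (N - 1 - j) / (2 * N).choose N) / r ^ (j + 1)) / x ^ (j + 1) +
    ∑ j ∈ range (N + 1), F (c * ((2 * N).choose (N + j) / (2 * N).choose N) * r ^ j) * x ^ j := by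
  unfold S
  rw [show 2 * N + 1 = N + (N + 1) by omega, sum_range_add, add_div, ← sum_range_reflect, sum_div, sum_div]
  congr 1
  · refine sum_congr rfl fun j hj => ?_
    have hj' := mem_range.1 hj
    obtain ⟨i, rfl⟩ : ∃ i, N = i + (j + 1) := ⟨N - (j + 1), by omega⟩
    rw [show i + (j + 1) - 1 - j = i by omega]
    rw [pow_add x, mul_comm (x ^ i), mul_div_mul_right _ _ (by positivity)]
    congr 2
    rw [pow_add]; field_simp
  · refine sum_congr rfl fun j _ => ?_
    rw [pow_add x, mul_comm (x ^ N), ← mul_assoc, mul_div_cancel_right₀ _ (by positivity)]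
    congr 2
    rw [pow_add]; field_simp

lemma wle (N k : ℕ) : ((2 * N).choose k / (2 * N).choose N : ℝ) ≤ 1 := by
  have p0 : (0 : ℝ) < (2 * N).choose N := by exact_mod_cast Nat.choose_pos (by omega)
  rw [div_le_one p0]
  have := Nat.choose_le_middle k (2 * N)
  rw [show 2 * N / 2 = N by omega] at this
  exact_mod_cast this

lemma wpos (N k : ℕ) (hk : k ≤ 2 * N) : (0 : ℝ) < (2 * N).choose k / (2 * N).choose N := by
  have p0 : (0 : ℝ) < (2 * N).choose N := by exact_mod_cast Nat.choose_pos (by omega)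
  have p1 : (0 : ℝ) < (2 * N).choose k := by exact_mod_cast Nat.choose_pos hk
  positivity

lemma Pres.neg_bd (h : Pres F) {c r μ : ℝ} (hc : 0 < c) (hr : 1 < r) (hμ : 0 ≤ μ)
    (h1 : F (c / r) ≤ μ * F c) : ∀ j : ℕ, F (c / r ^ (j + 1)) ≤ μ * F (c / r ^ j)
  | 0 => by simpa using h1
  | j + 1 => by
    have ih := Pres.neg_bd h hc hr hμ h1 j
    have hr0 : 0 < r := by linarith
    have lc := h.LC (a := c / r ^ (j + 1 + 1)) (by positivity) hr
    have e1 : c / r ^ (j + 1 + 1) * r ^ 2 = c / r ^ j := by field_simp; ring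
    have e2 : c / r ^ (j + 1 + 1) * r = c / r ^ (j + 1) := by field_simp; ring
    rw [e1, e2] at lc
    have n1 := h.nn (c / r ^ (j + 1)) (by positivity)
    rcases (h.nn (c / r ^ j) (by positivity)).eq_or_lt with h0 | h0
    · have m : F (c / r ^ (j + 1 + 1)) ≤ F (c / r ^ j) := h.mono (by positivity)
        (div_le_div_of_nonneg_left hc.le (by positivity) (pow_le_pow_right₀ hr.le (by omega)))
      exact (m.trans h0.ge).trans (mul_nonneg hμ n1)
    · refine le_of_mul_le_mul_right (lc.trans ?_) h0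
      nlinarith [mul_le_mul_of_nonneg_left ih n1]

lemma Pres.pos_bd (h : Pres F) {c r σ : ℝ} (hc : 0 < c) (hr : 1 < r) (h0 : 0 < F c)
    (h1 : F (c * r) ≤ σ * F c) : ∀ j : ℕ, F (c * r ^ (j + 1)) ≤ σ * F (c * r ^ j)
  | 0 => by simpa using h1
  | j + 1 => by
    have ih := Pres.pos_bd h hc hr h0 h1 j
    have hr0 : 0 < r := by linarith
    have lc := h.LC (a := c * r ^ j) (by positivity) hr
    have e1 : c * r ^ j * r ^ 2 = c * r ^ (j + 1 + 1) := by ring
    have e2 : c * r ^ j * r = c * r ^ (j + 1) := by ring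
    rw [e1, e2] at lc
    have n1 := h.nn (c * r ^ (j + 1)) (by positivity)
    have p : 0 < F (c * r ^ j) := h0.trans_le (h.mono hc (le_mul_of_one_le_right hc.le (one_le_pow₀ hr.le)))
    refine le_of_mul_le_mul_left (lc.trans ?_) p
    nlinarith [mul_le_mul_of_nonneg_left ih n1]

lemma Pres.S_le (h : Pres F) {c r μ x : ℝ} (hc : 0 < c) (hr : 1 < r) (hμ : 0 ≤ μ)
    (h1 : F (c / r) ≤ μ * F c) (hx : μ < x) (hs : Summable fun j : ℕ => F (c * r ^ j) * x ^ j) (N : ℕ) :
    S F c r N x ≤ F c * (1 - μ / x)⁻¹ + ∑' j : ℕ, F (c * r ^ j) * x ^ j := by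
  have hr0 : 0 < r := by linarith
  have hx0 : 0 < x := by linarith
  have hq0 : 0 ≤ μ / x := by positivity
  have hq1 : μ / x < 1 := (div_lt_one hx0).2 hx
  have hFc := h.nn c hc
  have g : ∀ j : ℕ, F (c / r ^ j) ≤ F c * μ ^ j := by
    intro j
    induction j with
    | zero => simp
    | succ j ih =>
      refine (h.neg_bd hc hr hμ h1 j).trans ?_
      rw [pow_succ]; nlinarith [mul_le_mul_of_nonneg_left ih hμ]
  rw [S_eq c r hr0 N x hx0]
  refine add_le_add ?_ ?_
  · rw [← tsum_geometric_of_lt_one hq0 hq1, ← tsum_mul_left]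
    have hsum : Summable fun j : ℕ => F c * (μ / x) ^ j := (summable_geometric_of_lt_one hq0 hq1).mul_left _
    refine le_trans (sum_le_sum fun j hj => ?_) (hsum.sum_le_tsum (range N) fun j _ => by positivity)
    have hw := wpos N (N - 1 - j) (by omega)
    have a : F (c * ((2 * N).choose (N - 1 - j) / (2 * N).choose N) / r ^ (j + 1)) ≤ F (c / r ^ (j + 1)) :=
      h.mono (by positivity) (div_le_div_of_nonneg_right (mul_le_of_le_one_right hc.le (wle _ _)) (by positivity))
    calc _ ≤ F c * μ ^ (j + 1) / x ^ (j + 1) := div_le_div_of_nonneg_right (a.trans (g _)) (by positivity)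
      _ = F c * (μ / x) ^ j * (μ / x) := by rw [mul_div_assoc, ← div_pow, pow_succ, mul_assoc]
      _ ≤ _ := mul_le_of_le_one_right (by positivity) hq1.le
  · refine le_trans (sum_le_sum fun j hj => ?_) (hs.sum_le_tsum (range (N + 1)) fun j _ =>
      mul_nonneg (h.nn _ (by positivity)) (by positivity))
    have hw := wpos N (N + j) (by have := mem_range.1 hj; omega)
    refine mul_le_mul_of_nonneg_right (h.mono (by positivity) ?_) (by positivity)
    exact mul_le_mul_of_nonneg_right (mul_le_of_le_one_right hc.le (wle _ _)) (by positivity)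

lemma Pres.S_ge (h : Pres F) {c r x : ℝ} (hc : 0 < c) (hr : 1 < r) (hx : 0 < x) (J N : ℕ) (hJ : J ≤ N)
    (hw : ∀ j ≤ J, 1 / r ≤ (2 * N).choose (N + j) / (2 * N).choose N) :
    F c + ∑ j ∈ range J, F (c * r ^ j) * x ^ (j + 1) ≤ S F c r N x := by
  have hr0 : 0 < r := by linarith
  rw [S_eq c r hr0 N x hx]
  refine le_add_of_nonneg_of_le (sum_nonneg fun j hj => div_nonneg (h.nn _ ?_) (by positivity)) ?_
  · have := wpos N (N - 1 - j) (by omega); positivity
  refine le_trans ?_ (sum_le_sum_of_subset_of_nonneg (range_mono (show J + 1 ≤ N + 1 by omega)) fun j hj _ =>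
    mul_nonneg (h.nn _ ?_) (by positivity))
  · have p0 : ((2 * N).choose N : ℝ) ≠ 0 := by exact_mod_cast (Nat.choose_pos (by omega)).ne'
    rw [sum_range_succ', add_comm]
    refine add_le_add (sum_le_sum fun j hj => ?_) (by simp [p0])
    refine mul_le_mul_of_nonneg_right (h.mono (by positivity) ?_) (by positivity)
    have := hw (j + 1) (mem_range.1 hj)
    calc c * r ^ j = c * (1 / r) * r ^ (j + 1) := by field_simp; ring
      _ ≤ _ := by gcongr
  · have := wpos N (N + j) (by have := mem_range.1 hj; omega); positivity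

lemma Pres.step (h : Pres F) {c r μ t ρ : ℝ} (hc : 0 < c) (hr : 1 < r) (h0 : 0 < F c) (hμ : 0 ≤ μ)
    (h1 : F (c / r) ≤ μ * F c) (ht : μ < t) (hρ1 : 1 ≤ ρ) (hρ2 : ρ ≤ 2)
    (hs : Summable fun j : ℕ => F (c * r ^ j) * (ρ ^ 2 * t) ^ j) :
    Summable fun j : ℕ => F (c * r ^ j) * (ρ ^ 3 * t) ^ j := by
  have hr0 : 0 < r := by linarith
  have ht0 : 0 < t := by linarith
  have hρ0 : 0 < ρ := by linarith
  have htt : t ≤ ρ ^ 2 * t := le_mul_of_one_le_left ht0.le (one_le_pow₀ hρ1)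
  have hs0 : Summable fun j : ℕ => F (c * r ^ j) * t ^ j :=
    hs.of_nonneg_of_le (fun j => mul_nonneg (h.nn _ (by positivity)) (by positivity)) fun j =>
      mul_le_mul_of_nonneg_left (pow_le_pow_left₀ ht0.le htt _) (h.nn _ (by positivity))
  obtain ⟨U0, hU0⟩ : ∃ U, ∀ N, S F c r N t ≤ U := ⟨_, h.S_le hc hr hμ h1 ht hs0⟩
  obtain ⟨U2, hU2⟩ : ∃ U, ∀ N, S F c r N (ρ ^ 2 * t) ≤ U := ⟨_, h.S_le hc hr hμ h1 (ht.trans_le htt) hs⟩
  have hlow : ∀ N x, 0 < x → F c ≤ S F c r N x := fun N x hx => by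
    have p0 : ((2 * N).choose N : ℝ) ≠ 0 := by exact_mod_cast (Nat.choose_pos (by omega)).ne'
    have := h.S_ge hc hr hx 0 N (Nat.zero_le _) (fun j hj => by
      obtain rfl : j = 0 := by omega
      rw [add_zero, div_self p0, div_le_one hr0]; exact hr.le)
    simpa using this
  refine summable_of_sum_range_le (c := U2 ^ 4 * U0 ^ 2 / F c ^ 5 / (ρ ^ 3 * t))
    (fun j => mul_nonneg (h.nn _ (by positivity)) (by positivity)) fun J => ?_
  obtain ⟨N, hN⟩ := exists_nat_gt (max (J : ℝ) (J * (2 * J + 1) / (1 - 1 / r)))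
  have hq : 0 < 1 - 1 / r := by rw [sub_pos, div_lt_one hr0]; exact hr
  have hN1 : J < N := by exact_mod_cast (le_max_left _ _).trans_lt hN
  have hN2 := (le_max_right _ _).trans_lt hN
  have hN0 : (0 : ℝ) < N := by exact_mod_cast (show 0 < N by omega)
  have p0 : (0 : ℝ) < (2 * N).choose N := by exact_mod_cast Nat.choose_pos (by omega)
  have a := h.S_ge hc hr (show 0 < ρ ^ 3 * t by positivity) J N hN1.le (fun j hj => by
    rw [le_div_iff₀ p0]
    refine le_trans (mul_le_mul_of_nonneg_right ?_ p0.le) (choose_lb N J (by omega) hN1.le j hj)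
    rw [div_lt_iff₀ hq] at hN2
    have : (j : ℝ) * (2 * J + 1) / N ≤ 1 - 1 / r := by
      rw [div_le_iff₀ hN0]
      have : (j : ℝ) ≤ J := by exact_mod_cast hj
      nlinarith [mul_le_mul_of_nonneg_right this (show (0 : ℝ) ≤ 2 * J + 1 by positivity)]
    linarith)
  have b := h.S4 hc hr0 N ht0 hρ1 hρ2
  have l1 := hlow N (ρ * t) (by positivity)
  have l2 := hlow N (ρ ^ 2 * t) (by positivity)
  have l3 := hlow N (ρ ^ 3 * t) (by positivity)
  have l0 := hlow N t ht0
  have b2 : S F c r N (ρ ^ 3 * t) * F c ^ 5 ≤ U2 ^ 4 * U0 ^ 2 :=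
    (mul_le_mul_of_nonneg_left (pow_le_pow_left₀ h0.le l1 5) (by linarith)).trans (b.trans
      (mul_le_mul (pow_le_pow_left₀ (by linarith) (hU2 N) 4) (pow_le_pow_left₀ (by linarith) (hU0 N) 2)
        (by positivity) (by positivity)))
  rw [le_div_iff₀ (by positivity), le_div_iff₀ (by positivity), sum_mul]
  refine le_trans (mul_le_mul_of_nonneg_right ?_ (by positivity)) b2
  simp only [mul_assoc _ _ (ρ ^ 3 * t), ← pow_succ]
  linarith

theorem Pres.mid (h : Pres F) {c r : ℝ} (hc : 0 < c) (hr : 1 < r) (h0 : 0 < F c) :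
    F (c / r) * F (c * r) = F c ^ 2 := by
  have hr0 : 0 < r := by linarith
  have lc := h.LC (a := c / r) (by positivity) hr
  rw [show c / r * r ^ 2 = c * r by field_simp, div_mul_cancel₀ _ hr0.ne'] at lc
  refine le_antisymm lc (not_lt.1 fun hlt => ?_)
  have h1 : F c ≤ F (c * r) := h.mono hc (le_mul_of_one_le_right hc.le hr.le)
  obtain ⟨μ, hμ⟩ : ∃ μ, μ = F (c / r) / F c := ⟨_, rfl⟩
  obtain ⟨σ, hσ⟩ : ∃ σ, σ = F (c * r) / F c := ⟨_, rfl⟩
  have hμ0 : 0 ≤ μ := by rw [hμ]; exact div_nonneg (h.nn _ (by positivity)) h0.le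
  have hσ1 : 1 ≤ σ := by rw [hσ, one_le_div h0]; exact h1
  have hμ1 : F (c / r) ≤ μ * F c := by rw [hμ, div_mul_cancel₀ _ h0.ne']
  have hσ2 : F (c * r) ≤ σ * F c := by rw [hσ, div_mul_cancel₀ _ h0.ne']
  have hμσ : μ * σ < 1 := by rw [hμ, hσ, div_mul_div_comm, div_lt_one (by positivity), ← sq]; exact hlt
  have g : ∀ j : ℕ, F (c * r ^ j) ≤ F c * σ ^ j := by
    intro j
    induction j with
    | zero => simp
    | succ j ih =>
      refine (h.pos_bd hc hr h0 hσ2 j).trans ?_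
      rw [pow_succ]; nlinarith [mul_le_mul_of_nonneg_left ih (show 0 ≤ σ by linarith)]
  obtain ⟨q, hq1, hq2⟩ := exists_between hμσ
  have hq0 : 0 < q := lt_of_le_of_lt (by positivity) hq1
  obtain ⟨ρ, hρ1, hρ2, hρ3⟩ : ∃ ρ : ℝ, 1 < ρ ∧ ρ ≤ 2 ∧ ρ ^ 2 * q < 1 := by
    refine ⟨1 + (1 - q) / 3, by linarith, by linarith, ?_⟩
    nlinarith [mul_pos hq0 (sub_pos.2 hq2), mul_pos (sub_pos.2 hq2) (sub_pos.2 hq2),
      mul_pos (mul_pos (sub_pos.2 hq2) (sub_pos.2 hq2)) (sub_pos.2 hq2)]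
  have ht : μ < q / σ := by rw [lt_div_iff₀ (by linarith)]; exact hq1
  have ht0 : 0 < q / σ := by positivity
  have key : ∀ m : ℕ, Summable fun j : ℕ => F (c * r ^ j) * (ρ ^ 2 * (ρ ^ m * (q / σ))) ^ j := by
    intro m
    induction m with
    | zero =>
      refine ((summable_geometric_of_lt_one (by positivity) hρ3).mul_left (F c)).of_nonneg_of_le
        (fun j => mul_nonneg (h.nn _ (by positivity)) (by positivity)) fun j => ?_
      refine (mul_le_mul_of_nonneg_right (g j) (by positivity)).trans (le_of_eq ?_)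
      rw [mul_assoc, ← mul_pow]; congr 2; field_simp
    | succ m ih =>
      have := h.step hc hr h0 hμ0 hμ1 (ht.trans_le (le_mul_of_one_le_left ht0.le (one_le_pow₀ hρ1.le)))
        hρ1.le hρ2 ih
      convert this using 4; ring
  obtain ⟨m, hm⟩ := pow_unbounded_of_one_lt (σ / q) hρ1
  have hx : 1 ≤ ρ ^ 2 * (ρ ^ m * (q / σ)) := by
    have : 1 ≤ ρ ^ m * (q / σ) := by
      rw [div_lt_iff₀ hq0] at hm
      rw [← mul_div_assoc, one_le_div (by linarith)]; exact hm.le
    nlinarith [one_le_pow₀ (n := 2) hρ1.le]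
  have := (key m).tendsto_atTop_zero
  refine absurd (ge_of_tendsto' this fun j => ?_) (not_le.2 h0)
  exact (h.mono hc (le_mul_of_one_le_right hc.le (one_le_pow₀ hr.le))).trans
    (le_mul_of_one_le_right (h.nn _ (by positivity)) (one_le_pow₀ hx))

end Pool.Agent.H14.Ent
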