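import Pool.Agent.H14.Ent3

set_option autoImplicit false
set_option maxHeartbeats 800000

namespace Pool.Agent.H14.Ent
open Finset Polynomial

variable {F : ℝ → ℝ}

lemma Pres.pos (h : Pres F) {c : ℝ} (hc : 0 < c) (h0 : 0 < F c) {t : ℝ} (ht : 0 < t) : 0 < F t := by
  rcases le_or_gt c t with hct | hct
  · exact h0.trans_le (h.mono hc hct)
  · have := h.mid hc ((one_lt_div ht).2 hct) h0
    rw [div_div_cancel₀ hc.ne'] at this
    refine (h.nn t ht).lt_of_ne fun e => ?_
    rw [← e, zero_mul] at this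
    exact (pow_pos h0 2).ne this

lemma Pres.two (h : Pres F) (h0 : 0 < F 1) : 2 * F 1 ≤ F 2 := by
  have hr := RR_bin 2 1 1 one_pos one_pos
  have hp : ∀ k ≤ 2, (0 : ℝ) < 1 * (2 : ℕ).choose k * 1 ^ k := fun k hk => by
    have : (0 : ℝ) < (2 : ℕ).choose k := by exact_mod_cast Nat.choose_pos hk
    positivity
  rcases h.pr 2 _ hp hr with h1 | h1
  · have := h1 0 (by norm_num)
    simp at this; linarith
  · by_contra hn
    rw [not_le] at hn
    have h2 := h.nn 2 two_pos
    have hq : 0 < 1 - (F 2 / (2 * F 1)) ^ 2 := by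
      rw [sub_pos]; exact pow_lt_one₀ (by positivity) ((div_lt_one (by positivity)).2 hn) two_ne_zero
    have hs := Real.sqrt_pos.2 hq
    have hs2 := Real.sq_sqrt hq.le
    refine hs.ne' (h1 ⟨-(F 2 / (2 * F 1)), √(1 - (F 2 / (2 * F 1)) ^ 2)⟩ ?_)
    have e : F 2 = 2 * F 1 * (F 2 / (2 * F 1)) := by field_simp
    generalize √(1 - (F 2 / (2 * F 1)) ^ 2) = y at *
    generalize F 2 / (2 * F 1) = x at *
    simp only [sum_range_succ, sum_range_zero]
    norm_num
    apply Complex.ext
    · simp [sq]; rw [e]; linear_combination (-F 1) * hs2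
    · simp [sq]; rw [e]; ring

theorem Pres.final (h : Pres F) :
    (∀ t, 0 < t → F t = 0) ∨ ∃ c p : ℝ, 0 < c ∧ 1 ≤ p ∧ ∀ t, 0 < t → F t = c * t ^ p := by
  by_cases hz : ∀ t, 0 < t → F t = 0
  · exact Or.inl hz
  right
  push Not at hz
  obtain ⟨c, hc, hc0⟩ := hz
  have hpos : ∀ t, 0 < t → 0 < F t := fun t ht => h.pos hc ((h.nn c hc).lt_of_ne' hc0) ht
  set g : ℝ → ℝ := fun u => Real.log (F (Real.exp u)) - Real.log (F 1) with hg
  have hmid : ∀ u v, 0 < v → g (u - v) + g (u + v) = 2 * g u := by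
    intro u v hv
    have := h.mid (Real.exp_pos u) (Real.one_lt_exp_iff.2 hv) (hpos _ (Real.exp_pos u))
    rw [← Real.exp_sub, ← Real.exp_add] at this
    have e := congrArg Real.log this
    rw [Real.log_mul (hpos _ (Real.exp_pos _)).ne' (hpos _ (Real.exp_pos _)).ne', Real.log_pow] at e
    simp only [hg]; push_cast at e; linarith
  have hmid' : ∀ x y, g x + g y = 2 * g ((x + y) / 2) := by
    intro x y
    rcases lt_trichotomy x y with hl | rfl | hl
    · have := hmid ((x + y) / 2) ((y - x) / 2) (by linarith)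
      rw [← this]; congr 2 <;> ring
    · rw [show (x + x) / 2 = x by ring]; ring
    · have := hmid ((x + y) / 2) ((x - y) / 2) (by linarith)
      rw [← this, add_comm]; congr 2 <;> ring
  have g0 : g 0 = 0 := by simp [hg]
  have hadd : ∀ x y, g (x + y) = g x + g y := fun x y => by
    have a := hmid' x y
    have b := hmid' (x + y) 0
    rw [add_zero, g0] at b
    linarith
  have hmono : Monotone g := fun x y hxy => sub_le_sub_right (Real.log_le_log (hpos _ (Real.exp_pos _))
    (h.mono (Real.exp_pos _) (Real.exp_le_exp.2 hxy))) _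
  let f : ℝ →+ ℝ := AddMonoidHom.mk' g hadd
  have hf : Continuous f := f.continuous_of_isBounded_nhds_zero
    (Icc_mem_nhds (show (-1 : ℝ) < 0 by norm_num) one_pos) ((Metric.isBounded_Icc (g (-1)) (g 1)).subset (by
      rintro _ ⟨x, hx, rfl⟩; exact ⟨hmono hx.1, hmono hx.2⟩))
  have hlin : ∀ u, g u = u * g 1 := fun u => by
    have := map_real_smul f hf u 1
    simpa [f] using this
  have hF : ∀ t, 0 < t → F t = F 1 * t ^ g 1 := fun t ht => by
    have := hlin (Real.log t)
    simp only [hg, Real.exp_log ht] at this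
    rw [Real.rpow_def_of_pos ht, ← this, Real.exp_sub, Real.exp_log (hpos t ht),
      Real.exp_log (hpos 1 one_pos)]
    field_simp [(hpos 1 one_pos).ne']
  refine ⟨F 1, g 1, hpos 1 one_pos, ?_, hF⟩
  have a := h.two (hpos 1 one_pos)
  rw [hF 2 two_pos, mul_comm] at a
  have b : (2 : ℝ) ^ (1 : ℝ) ≤ 2 ^ g 1 := by
    rw [Real.rpow_one]; exact le_of_mul_le_mul_left a (hpos 1 one_pos)
  exact (Real.rpow_le_rpow_left_iff one_lt_two).1 b

end Pool.Agent.H14.Ent
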