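import Mathlib

namespace Pool.Agent.H14.ErgHL

open MeasureTheory Metric Set
open scoped ENNReal

/-- weak type (1,1) of the centred maximal operator for any finite measure on a space with the
Besicovitch covering property -/
theorem weak {α : Type} [MetricSpace α] [MeasurableSpace α] [BorelSpace α]
    [SecondCountableTopology α] [HasBesicovitchCovering α] :
    ∃ N : ℕ, ∀ (μ ν : Measure α) (ε : ℝ≥0∞), ε ≠ 0 → ε ≠ ⊤ →
      μ {x | ε ≤ ⨆ (r : ℝ) (_ : 0 < r), ν (ball x r) / μ (ball x r)} ≤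
        N * (2 / ε * ν univ) := by
  obtain ⟨N, τ, hτ, hN⟩ := HasBesicovitchCovering.no_satelliteConfig (α := α)
  refine ⟨N, fun μ ν ε h0 ht => ?_⟩
  set E : ℕ → Set α := fun R =>
    {x | ∃ r : ℝ, 0 < r ∧ r ≤ R ∧ μ (ball x r) ≤ 2 / ε * ν (ball x r)} with hE
  have hsub : {x | ε ≤ ⨆ (r : ℝ) (_ : 0 < r), ν (ball x r) / μ (ball x r)} ⊆ ⋃ R, E R := by
    intro x hx
    have h1 : ε / 2 < ⨆ (r : ℝ) (_ : 0 < r), ν (ball x r) / μ (ball x r) :=
      lt_of_lt_of_le (ENNReal.half_lt_self h0 ht) hx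
    obtain ⟨r, hr⟩ := lt_iSup_iff.1 h1
    obtain ⟨hr0, hr⟩ := lt_iSup_iff.1 hr
    obtain ⟨R, hR⟩ := exists_nat_ge r
    refine mem_iUnion.2 ⟨R, r, hr0, hR, ?_⟩
    have h2 : ε / 2 * μ (ball x r) ≤ ν (ball x r) := ENNReal.mul_le_of_le_div hr.le
    have h3 : 2 / ε * (ε / 2) = 1 := by
      rw [ENNReal.div_eq_inv_mul, ENNReal.div_eq_inv_mul]
      calc ε⁻¹ * 2 * (2⁻¹ * ε) = (ε⁻¹ * ε) * (2 * 2⁻¹) := by ring
        _ = 1 := by
          rw [ENNReal.inv_mul_cancel h0 ht, ENNReal.mul_inv_cancel (by norm_num) (by norm_num),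
            one_mul]
    calc μ (ball x r) = 2 / ε * (ε / 2 * μ (ball x r)) := by rw [← mul_assoc, h3, one_mul]
      _ ≤ _ := by gcongr
  have hmono : Monotone E := by
    intro R S hRS x hx
    obtain ⟨r, h1, h2, h3⟩ := hx
    exact ⟨r, h1, h2.trans (by exact_mod_cast hRS), h3⟩
  refine (measure_mono hsub).trans ?_
  rw [hmono.measure_iUnion]
  refine iSup_le fun R => ?_
  choose! r hr0 hrR hr using fun x (hx : x ∈ E R) => hx
  let q : Besicovitch.BallPackage (E R) α :=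
    { c := fun x => x, r := fun x => r x, rpos := fun x => hr0 x x.2, r_bound := R,
      r_le := fun x => hrR x x.2 }
  obtain ⟨s, hs, hcov⟩ := Besicovitch.exist_disjoint_covering_families hτ hN q
  have hrange : range q.c = E R := Subtype.range_coe
  rw [hrange] at hcov
  have hd : ∀ i, (s i).PairwiseDisjoint fun j => ball (q.c j) (q.r j) := fun i =>
    (hs i).mono fun j => ball_subset_closedBall
  have hc : ∀ i, (s i).Countable := fun i =>
    (hd i).countable_of_isOpen (fun j _ => isOpen_ball)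
      (fun j _ => nonempty_ball.2 (q.rpos j))
  have hi : ∀ i, μ (⋃ j ∈ s i, ball (q.c j) (q.r j)) ≤ 2 / ε * ν univ := by
    intro i
    rw [measure_biUnion (hc i) (hd i) (fun j _ => measurableSet_ball)]
    calc ∑' j : s i, μ (ball (q.c j) (q.r j))
        ≤ ∑' j : s i, 2 / ε * ν (ball (q.c j) (q.r j)) :=
          ENNReal.tsum_le_tsum fun j => hr j.1.1 j.1.2
      _ = 2 / ε * ν (⋃ j ∈ s i, ball (q.c j) (q.r j)) := by
          rw [ENNReal.tsum_mul_left,
            measure_biUnion (hc i) (hd i) (fun j _ => measurableSet_ball)]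
      _ ≤ _ := by gcongr; exact subset_univ _
  calc μ (E R) ≤ μ (⋃ i : Fin N, ⋃ j ∈ s i, ball (q.c j) (q.r j)) := measure_mono hcov
    _ ≤ ∑' i : Fin N, μ (⋃ j ∈ s i, ball (q.c j) (q.r j)) := measure_iUnion_le _
    _ ≤ ∑' _i : Fin N, 2 / ε * ν univ := ENNReal.tsum_le_tsum hi
    _ = _ := by simp

end Pool.Agent.H14.ErgHL
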