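import Mathlib

namespace Pool.Agent.H14.ErgLeb

open MeasureTheory Metric Set
open scoped ENNReal

abbrev X := ℝ × ℝ × ℝ

def J (n : ℕ) : ℕ := 2 ^ (n + 2 ^ n)

theorem J_pos (n : ℕ) : 0 < J n := by unfold J; positivity

instance (n : ℕ) : NeZero (J n) := ⟨(J_pos n).ne'⟩

abbrev I := Σ n : ℕ, ZMod (J n)

noncomputable def loc (n j : ℕ) : ℝ :=
  if j < 2 ^ n then -5 else ((Nat.log 2 j - n : ℕ) : ℝ) / 2 ^ n

noncomputable def p (a : I) : X :=
  (loc a.1 a.2.val, 1 / 2 ^ a.1, (a.2.val : ℝ) / J a.1 / 2 ^ a.1)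

theorem p_inj : Function.Injective p := by
  rintro ⟨n, j⟩ ⟨m, k⟩ h
  simp only [p, Prod.mk.injEq] at h
  obtain ⟨-, h1, h2⟩ := h
  have hnm : n = m := by
    have : (2 : ℝ) ^ n = 2 ^ m := by
      rw [one_div, one_div, inv_inj] at h1; exact h1
    exact pow_right_injective₀ (by norm_num) (by norm_num) this
  subst hnm
  have hJ : (0 : ℝ) < J n := by exact_mod_cast J_pos n
  have : (j.val : ℝ) = k.val := by
    field_simp at h2; exact h2
  have : j = k := ZMod.val_injective _ (by exact_mod_cast this)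
  rw [this]

def σ : I ≃ I := Equiv.sigmaCongrRight fun _ => Equiv.subRight 1

noncomputable def T : X → X := Function.extend p (fun a => p (σ a)) id

theorem T_p (a : I) : T (p a) = p (σ a) := p_inj.extend_apply _ _ a

theorem T_off {x : X} (h : x ∉ range p) : T x = x := by
  unfold T; rw [Function.extend_apply' _ _ _ h]; rfl

theorem cnt : (range p).Countable := countable_range p

theorem T_meas : Measurable T :=
  measurable_id.measurable_of_countable_ne (cnt.mono fun x hx => by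
    by_contra h; exact hx (T_off h).symm)

noncomputable def m (n : ℕ) : ℝ≥0∞ := (2⁻¹ : ℝ≥0∞) ^ (n + 2) / J n

def e (s : ℝ) : X := (s, 0, 0)

theorem e_meas : Measurable e := by unfold e; fun_prop

theorem e_off (s : ℝ) : e s ∉ range p := by
  rintro ⟨a, ha⟩
  have : (1 : ℝ) / 2 ^ a.1 = 0 := congrArg (fun x : X => x.2.1) ha
  have h2 : (0 : ℝ) < 1 / 2 ^ a.1 := by positivity
  linarith

noncomputable def μ0 : Measure X := (volume.restrict (Ico (0 : ℝ) 1)).map e

noncomputable def μ1 : Measure X := Measure.sum fun a : I => m a.1 • Measure.dirac (p a)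

noncomputable def μ : Measure X := (2⁻¹ : ℝ≥0∞) • μ0 + μ1

theorem sum_level (g : ℕ → ℝ≥0∞) :
    ∑' a : I, m a.1 * g a.1 = ∑' n, (2⁻¹ : ℝ≥0∞) ^ (n + 2) * g n := by
  rw [ENNReal.tsum_sigma']
  refine tsum_congr fun n => ?_
  simp only [tsum_fintype, Finset.sum_const, Finset.card_univ, ZMod.card, nsmul_eq_mul]
  rw [← mul_assoc, m, ENNReal.mul_div_cancel (by exact_mod_cast (J_pos n).ne') (by simp)]

theorem geo (k : ℕ) : ∑' n, (2⁻¹ : ℝ≥0∞) ^ (n + (k + 1)) = 2⁻¹ ^ k := by
  simp_rw [pow_add]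
  rw [ENNReal.tsum_mul_right, ENNReal.tsum_geometric, ENNReal.one_sub_inv_two, inv_inv, pow_one,
    mul_comm (2⁻¹ ^ k), ← mul_assoc, ENNReal.mul_inv_cancel (by norm_num) (by norm_num), one_mul]

theorem μ1_apply {s : Set X} (hs : MeasurableSet s) :
    μ1 s = ∑' a : I, m a.1 * s.indicator 1 (p a) := by
  rw [μ1, Measure.sum_apply _ hs]
  refine tsum_congr fun a => ?_
  rw [Measure.smul_apply, Measure.dirac_apply' _ hs, smul_eq_mul]

instance : IsProbabilityMeasure μ := by
  constructor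
  have h0 : μ0 univ = 1 := by
    rw [μ0, Measure.map_apply e_meas MeasurableSet.univ]; simp
  have h1 : μ1 univ = 2⁻¹ := by
    rw [μ1_apply MeasurableSet.univ]
    simp only [indicator_univ, Pi.one_apply]
    rw [sum_level (fun _ => 1)]
    simp only [mul_one]
    rw [geo 1, pow_one]
  rw [μ, Measure.add_apply, Measure.smul_apply, h0, h1, smul_eq_mul, mul_one,
    ENNReal.inv_two_add_inv_two]

theorem T_pres : MeasurePreserving T μ μ := by
  refine ⟨T_meas, ?_⟩
  have h0 : μ0.map T = μ0 := by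
    rw [μ0, Measure.map_map T_meas e_meas]
    congr 1
    funext s
    exact T_off (e_off s)
  have h1 : μ1.map T = μ1 := by
    rw [μ1, Measure.map_sum T_meas.aemeasurable]
    have : (fun a : I => (m a.1 • Measure.dirac (p a)).map T) =
        (fun a : I => m a.1 • Measure.dirac (p a)) ∘ σ := by
      funext a
      rw [Measure.map_smul, Measure.map_dirac' T_meas, T_p]
      rfl
    rw [this, Measure.sum_comp_equiv]
  rw [μ, Measure.map_add _ _ T_meas, Measure.map_smul, h0, h1]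

noncomputable def hh (n : ℕ) : ℝ := 4 * J n

open Classical in
noncomputable def g (a : I) : ℝ := if a.2 = 0 then hh a.1 else 0

noncomputable def f : X → ℝ := Function.extend p g 0

theorem f_p (a : I) : f (p a) = g a := p_inj.extend_apply _ _ a

theorem f_off {x : X} (h : x ∉ range p) : f x = 0 := by
  unfold f; rw [Function.extend_apply' _ _ _ h]; rfl

theorem hh_pos (n : ℕ) : 0 < hh n := by
  have hJ : (0 : ℝ) < J n := by exact_mod_cast J_pos n
  unfold hh; positivity

theorem f_nonneg (x : X) : 0 ≤ f x := by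
  by_cases h : x ∈ range p
  · obtain ⟨a, rfl⟩ := h
    rw [f_p, g]; split_ifs
    · exact (hh_pos _).le
    · exact le_rfl
  · rw [f_off h]

theorem f_meas : Measurable f :=
  (measurable_const (a := (0 : ℝ))).measurable_of_countable_ne (cnt.mono fun x hx => by
    by_contra h; exact hx (f_off h).symm)

theorem m_hh (n : ℕ) : m n * ENNReal.ofReal (hh n) = 2⁻¹ ^ n := by
  have : ENNReal.ofReal (hh n) = 4 * J n := by
    rw [hh, ENNReal.ofReal_mul (by norm_num), ENNReal.ofReal_natCast]; simp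
  rw [this, m, mul_comm 4, ← mul_assoc,
    ENNReal.div_mul_cancel (by exact_mod_cast (J_pos n).ne') (by simp), pow_add, mul_assoc]
  have : (2⁻¹ : ℝ≥0∞) ^ 2 * 4 = 1 := by
    have : (4 : ℝ≥0∞) = 2 ^ 2 := by norm_num
    rw [this, ← mul_pow, ENNReal.inv_mul_cancel (by norm_num) (by norm_num), one_pow]
  rw [this, mul_one]

theorem f_int : Integrable f μ := by
  refine ⟨f_meas.aestronglyMeasurable, ?_⟩
  rw [hasFiniteIntegral_iff_enorm, μ, lintegral_add_measure, lintegral_smul_measure]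
  have h0 : ∫⁻ x, ‖f x‖ₑ ∂μ0 = 0 := by
    rw [μ0, lintegral_map f_meas.enorm e_meas]
    simp [f_off (e_off _)]
  have h1 : ∫⁻ x, ‖f x‖ₑ ∂μ1 = ∑' n : ℕ, (2⁻¹ : ℝ≥0∞) ^ n := by
    rw [μ1, lintegral_sum_measure, ENNReal.tsum_sigma']
    refine tsum_congr fun n => ?_
    rw [tsum_eq_single 0]
    · rw [lintegral_smul_measure, lintegral_dirac, f_p, g, if_pos rfl, smul_eq_mul,
        Real.enorm_eq_ofReal (hh_pos n).le, m_hh]
    · intro j hj
      rw [lintegral_smul_measure, lintegral_dirac, f_p, g, if_neg hj]; simp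
  rw [h0, h1, ENNReal.tsum_geometric]
  simp

theorem iter_p (n : ℕ) (j : ZMod (J n)) (t : ℕ) :
    T^[t] (p ⟨n, j⟩) = p ⟨n, j - t⟩ := by
  induction t with
  | zero => simp
  | succ t ih =>
    rw [Function.iterate_succ_apply', ih, T_p]
    have : j - ((t + 1 : ℕ) : ZMod (J n)) = j - t - 1 := by push_cast; ring
    rw [this]; rfl

theorem iter_off {x : X} (h : x ∉ range p) (t : ℕ) : T^[t] x = x :=
  Function.iterate_fixed (T_off h) t

noncomputable def A (k : ℕ) (x : X) : ℝ := (1 / (k : ℝ)) * ∑ j ∈ Finset.range k, f (T^[j] x)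

theorem A_nonneg (k : ℕ) (x : X) : 0 ≤ A k x :=
  mul_nonneg (by positivity) (Finset.sum_nonneg fun _ _ => f_nonneg _)

theorem A_int (k : ℕ) : Integrable (A k) μ := by
  refine Integrable.const_mul (integrable_finset_sum _ fun j _ => ?_) _
  exact (T_pres.iterate j).integrable_comp_of_integrable f_int

theorem in_ball {s : ℝ} (hs : s ∈ Ico (0 : ℝ) 1) {n : ℕ} {a : I}
    (h : p a ∈ ball (e s) (2 / 2 ^ n)) : n ≤ a.1 ∧ 2 ^ a.1 ≤ a.2.val := by
  rw [mem_ball, Prod.dist_eq, Prod.dist_eq, max_lt_iff, max_lt_iff] at h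
  obtain ⟨h1, h2, -⟩ := h
  simp only [p, e, Real.dist_eq, sub_zero] at h1 h2
  constructor
  · by_contra hlt
    push Not at hlt
    rw [abs_of_pos (by positivity), div_lt_div_iff₀ (by positivity) (by positivity)] at h2
    have : (2 : ℝ) ^ (a.1 + 1) ≤ 2 ^ n := pow_le_pow_right₀ (by norm_num) hlt
    rw [pow_succ] at this
    linarith
  · by_contra hlt
    push Not at hlt
    rw [loc, if_pos hlt] at h1
    have h3 : (2 : ℝ) / 2 ^ n ≤ 2 := div_le_self (by norm_num) (one_le_pow₀ (by norm_num))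
    have := hs.1
    rw [abs_lt] at h1
    linarith [h1.1]

theorem zero_int {s : ℝ} (hs : s ∈ Ico (0 : ℝ) 1) (n : ℕ) :
    ∫ x in ball (e s) (2 / 2 ^ n), A (2 ^ n) x ∂μ = 0 := by
  refine setIntegral_eq_zero_of_forall_eq_zero fun x hx => ?_
  rw [A, Finset.sum_eq_zero, mul_zero]
  intro t ht
  by_cases h : x ∈ range p
  · obtain ⟨⟨k, j⟩, rfl⟩ := h
    obtain ⟨h1, h2⟩ := in_ball hs hx
    simp only at h1 h2
    rw [iter_p, f_p, g, if_neg]
    intro h0
    simp only at h0
    rw [sub_eq_zero] at h0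
    have h3 : t < j.val :=
      lt_of_lt_of_le (Finset.mem_range.1 ht) ((Nat.pow_le_pow_right (by norm_num) h1).trans h2)
    have h4 : j.val = t := by
      rw [h0, ZMod.val_cast_of_lt (h3.trans (ZMod.val_lt j))]
    omega
  · rw [iter_off h, f_off h]

theorem ball_meas {s : ℝ} (hs : s ∈ Ico (0 : ℝ) 1) (n : ℕ) :
    μ (ball (e s) (2 / 2 ^ n)) ≤ 3 * 2⁻¹ ^ n := by
  have h0 : μ0 (ball (e s) (2 / 2 ^ n)) ≤ 4 * 2⁻¹ ^ n := by
    rw [μ0, Measure.map_apply e_meas measurableSet_ball]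
    refine (Measure.restrict_apply_le _ _).trans ?_
    have : e ⁻¹' ball (e s) (2 / 2 ^ n) ⊆ ball s (2 / 2 ^ n) := by
      intro t ht
      rw [mem_preimage, mem_ball, Prod.dist_eq, max_lt_iff] at ht
      exact ht.1
    refine (measure_mono this).trans ?_
    rw [Real.volume_ball]
    have : (2 : ℝ) * (2 / 2 ^ n) = 4 * (2⁻¹) ^ n := by rw [inv_pow]; field_simp; norm_num
    rw [this, ENNReal.ofReal_mul (by norm_num), ENNReal.ofReal_pow (by norm_num),
      ENNReal.ofReal_inv_of_pos (by norm_num)]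
    simp
  have h1 : μ1 (ball (e s) (2 / 2 ^ n)) ≤ 2⁻¹ ^ n := by
    rw [μ1_apply measurableSet_ball]
    calc ∑' a : I, m a.1 * (ball (e s) (2 / 2 ^ n)).indicator 1 (p a)
        ≤ ∑' a : I, m a.1 * (fun k => if n ≤ k then (1 : ℝ≥0∞) else 0) a.1 := by
          refine ENNReal.tsum_le_tsum fun a => ?_
          gcongr
          by_cases h : p a ∈ ball (e s) (2 / 2 ^ n)
          · simp [indicator_of_mem h, (in_ball hs h).1]
          · simp [indicator_of_notMem h]
      _ = ∑' k, (2⁻¹ : ℝ≥0∞) ^ (k + 2) * (if n ≤ k then (1 : ℝ≥0∞) else 0) :=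
          sum_level (fun k => if n ≤ k then (1 : ℝ≥0∞) else 0)
      _ = ∑' k, (2⁻¹ : ℝ≥0∞) ^ (k + (n + 1 + 1)) := by
          rw [← Summable.sum_add_tsum_nat_add' (k := n) ENNReal.summable, Finset.sum_eq_zero,
            zero_add]
          · refine tsum_congr fun k => ?_
            rw [if_pos (by omega), mul_one]; congr 1
          · intro k hk
            rw [if_neg (by simpa using hk), mul_zero]
      _ = 2⁻¹ ^ (n + 1) := geo _
      _ ≤ _ := pow_le_pow_of_le_one (by simp) (by simp) (by omega)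
  rw [μ, Measure.add_apply, Measure.smul_apply, smul_eq_mul]
  calc (2⁻¹ : ℝ≥0∞) * μ0 (ball (e s) (2 / 2 ^ n)) + μ1 (ball (e s) (2 / 2 ^ n))
      ≤ 2⁻¹ * (4 * 2⁻¹ ^ n) + 2⁻¹ ^ n := by gcongr
    _ = 3 * 2⁻¹ ^ n := by
      have : (2⁻¹ : ℝ≥0∞) * 4 = 2 := by
        have : (4 : ℝ≥0∞) = 2 * 2 := by norm_num
        rw [this, ← mul_assoc, ENNReal.inv_mul_cancel (by norm_num) (by norm_num), one_mul]
      rw [← mul_assoc, this]; ring

theorem atom_le (a : I) : m a.1 ≤ μ {p a} := by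
  rw [μ, Measure.add_apply]
  refine le_add_left ?_
  have := Measure.le_sum (fun a : I => m a.1 • Measure.dirac (p a)) a {p a}
  refine le_trans ?_ this
  simp

theorem m_real (n : ℕ) : (m n).toReal * hh n = 1 / 2 ^ n := by
  have := congrArg ENNReal.toReal (m_hh n)
  rw [ENNReal.toReal_mul, ENNReal.toReal_ofReal (hh_pos n).le] at this
  rw [this]; simp

theorem low_int {s : ℝ} (hs : s ∈ Ico (0 : ℝ) 1) (n : ℕ) :
    ∃ k, 2 ^ n ≤ k ∧ 1 / 2 / 2 ^ n ≤ ∫ x in ball (e s) (2 / 2 ^ n), A k x ∂μ := by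
  classical
  set i := ⌊s * 2 ^ n⌋₊ with hi
  have hs0 : 0 ≤ s * 2 ^ n := mul_nonneg hs.1 (by positivity)
  have hi1 : i < 2 ^ n := by
    rw [hi, Nat.floor_lt hs0]
    push_cast
    have : (0 : ℝ) < 2 ^ n := by positivity
    nlinarith [hs.2]
  have hkJ : 2 ^ (n + i + 1) ≤ J n := Nat.pow_le_pow_right (by norm_num) (by omega)
  refine ⟨2 ^ (n + i + 1), Nat.pow_le_pow_right (by norm_num) (by omega), ?_⟩
  set q : ℕ → X := fun j => p ⟨n, (j : ZMod (J n))⟩ with hq
  set S := Finset.Ico (2 ^ (n + i)) (2 ^ (n + i + 1)) with hS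
  have hval : ∀ j ∈ S, ((j : ZMod (J n))).val = j := fun j hj =>
    ZMod.val_cast_of_lt (lt_of_lt_of_le (Finset.mem_Ico.1 hj).2 hkJ)
  have hinj : Set.InjOn q S := by
    intro j hj k hk h
    have h1 := p_inj h
    have h2 : (j : ZMod (J n)) = k := eq_of_heq (Sigma.mk.inj h1).2
    rw [← hval j hj, h2, hval k hk]
  have hsub : ((S.image q : Finset X) : Set X) ⊆ ball (e s) (2 / 2 ^ n) := by
    intro x hx
    obtain ⟨j, hj, rfl⟩ := Finset.mem_image.1 hx
    have hj' := Finset.mem_Ico.1 hj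
    have hp : (0 : ℝ) < 2 ^ n := by positivity
    have hlt : (1 : ℝ) / 2 ^ n < 2 / 2 ^ n := by gcongr; norm_num
    rw [mem_ball, Prod.dist_eq, Prod.dist_eq, max_lt_iff, max_lt_iff]
    simp only [hq, p, e, Real.dist_eq, sub_zero, hval j hj]
    refine ⟨?_, ?_, ?_⟩
    · have h1 : ¬ j < 2 ^ n := by
        have : 2 ^ n ≤ 2 ^ (n + i) := Nat.pow_le_pow_right (by norm_num) (by omega)
        omega
      have h2 : Nat.log 2 j = n + i := by
        rw [Nat.log_eq_iff (Or.inr ⟨by norm_num, by have := Nat.two_pow_pos n; omega⟩)]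
        exact hj'
      rw [loc, if_neg h1, h2, Nat.add_sub_cancel_left]
      have h3 := Nat.floor_le hs0
      have h4 := Nat.lt_floor_add_one (s * 2 ^ n)
      rw [← hi] at h3 h4
      have : (i : ℝ) / 2 ^ n - s = (i - s * 2 ^ n) / 2 ^ n := by field_simp
      rw [this, abs_div, abs_of_pos hp]
      gcongr
      rw [abs_lt]; constructor <;> linarith
    · rw [abs_of_pos (by positivity)]; exact hlt
    · have hJ : (0 : ℝ) < J n := by exact_mod_cast J_pos n
      rw [abs_of_nonneg (by positivity)]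
      refine lt_of_le_of_lt ?_ hlt
      gcongr
      rw [div_le_one hJ]
      exact_mod_cast (hj'.2.le.trans hkJ)
  have hA : ∀ j ∈ S, hh n / 2 ^ (n + i + 1) ≤ A (2 ^ (n + i + 1)) (q j) := by
    intro j hj
    rw [A, div_eq_mul_inv, mul_comm, one_div]
    push_cast
    gcongr
    have h1 : f (T^[j] (q j)) = hh n := by
      rw [hq]; simp only; rw [iter_p, f_p, g, if_pos (sub_self _)]
    rw [← h1]
    exact Finset.single_le_sum (f := fun t => f (T^[t] (q j))) (fun t _ => f_nonneg _)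
      (Finset.mem_range.2 (Finset.mem_Ico.1 hj).2)
  calc (1 : ℝ) / 2 / 2 ^ n
      = ∑ _j ∈ S, (m n).toReal * (hh n / 2 ^ (n + i + 1)) := by
        rw [Finset.sum_const, hS, Nat.card_Ico, nsmul_eq_mul, ← mul_div_assoc, m_real]
        have : 2 ^ (n + i + 1) - 2 ^ (n + i) = 2 ^ (n + i) := by rw [pow_succ]; omega
        rw [this]; push_cast; field_simp; ring
    _ ≤ ∑ j ∈ S, μ.real {q j} • A (2 ^ (n + i + 1)) (q j) := by
        refine Finset.sum_le_sum fun j hj => ?_
        rw [smul_eq_mul]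
        refine mul_le_mul ?_ (hA j hj) (div_nonneg (hh_pos n).le (by positivity))
          measureReal_nonneg
        exact ENNReal.toReal_mono (measure_ne_top _ _) (atom_le ⟨n, (j : ZMod (J n))⟩)
    _ = ∫ x in ((S.image q : Finset X) : Set X), A (2 ^ (n + i + 1)) x ∂μ := by
        rw [setIntegral_finset _ (A_int _).integrableOn, Finset.sum_image hinj]
    _ ≤ _ := setIntegral_mono_set (A_int _).integrableOn
        (Filter.Eventually.of_forall (A_nonneg _)) hsub.eventuallyLE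

end Pool.Agent.H14.ErgLeb
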