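import Mathlib

set_option autoImplicit false

namespace Pool.Agent.H14.FNoeth

/-- Right congruences. -/
def RightCon {T : Type} [Semigroup T] (r : Setoid T) : Prop :=
  ∀ a b s : T, r a b → r (a * s) (b * s)

/-- Every right congruence of finite index is generated by a finite set of pairs. -/
def FNoetherian (T : Type) [Semigroup T] : Prop :=
  ∀ r : Setoid T, RightCon r → Finite (Quotient r) →
    ∃ X : Set (T × T), X.Finite ∧ r = sInf {q : Setoid T | RightCon q ∧ ∀ p ∈ X, q p.1 p.2}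

/-- Every element lies in a subgroup. -/
def CompletelyRegular (T : Type) [Semigroup T] : Prop :=
  ∀ s : T, ∃ U : Subsemigroup T, s ∈ U ∧ ∃ e ∈ U, ∀ a ∈ U,
    e * a = a ∧ a * e = a ∧ ∃ b ∈ U, a * b = e ∧ b * a = e

abbrev H := ℤ →₀ ℤ

noncomputable def x (n : ℤ) : H := Finsupp.single n 1

inductive S : Type
  | g (a : ℤ)
  | k (i : ℤ) (h : H) (l : ℤ)

noncomputable instance : Semigroup S where
  mul
    | .g a, .g b => .g (a + b)
    | .g a, .k i h l => .k (a + i) h l
    | .k i h l, .g a => .k i h (l + a)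
    | .k i h l, .k j h' m => .k i (h + x (l + j) + h') m
  mul_assoc a b c := by
    cases a <;> cases b <;> cases c <;> simp only [HMul.hMul, Mul.mul, add_assoc]

lemma gg (a b : ℤ) : S.g a * S.g b = .g (a + b) := rfl
lemma gk (a i : ℤ) (h : H) (l : ℤ) : S.g a * S.k i h l = .k (a + i) h l := rfl
lemma kg (a i : ℤ) (h : H) (l : ℤ) : S.k i h l * S.g a = .k i h (l + a) := rfl
lemma kk (i : ℤ) (h : H) (l j : ℤ) (h' : H) (m : ℤ) :
    S.k i h l * S.k j h' m = .k i (h + x (l + j) + h') m := rfl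

theorem cr : CompletelyRegular S := by
  rintro (a | ⟨i, h, l⟩)
  · refine ⟨⟨Set.range S.g, ?_⟩, ⟨a, rfl⟩, .g 0, ⟨0, rfl⟩, ?_⟩
    · rintro _ _ ⟨a, rfl⟩ ⟨b, rfl⟩
      exact ⟨_, rfl⟩
    · rintro _ ⟨b, rfl⟩
      exact ⟨by simp [gg], by simp [gg], .g (-b), ⟨_, rfl⟩, by simp [gg], by simp [gg]⟩
  · refine ⟨⟨Set.range (S.k i · l), ?_⟩, ⟨h, rfl⟩, .k i (-x (l + i)) l, ⟨_, rfl⟩, ?_⟩
    · rintro _ _ ⟨a, rfl⟩ ⟨b, rfl⟩
      exact ⟨_, rfl⟩
    · rintro _ ⟨b, rfl⟩
      refine ⟨by simp [kk], by simp [kk], .k i (-b - x (l + i) - x (l + i)) l, ⟨_, rfl⟩, ?_, ?_⟩ <;>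
      · simp only [kk]
        congr 1
        abel

theorem not_fg (T : Set S) (hT : T.Finite) : Subsemigroup.closure T ≠ ⊤ := by
  intro h
  let sup : S → Set ℤ := fun s => match s with
    | .g _ => ∅
    | .k _ h _ => h.support
  have hfin : (⋃ s ∈ T, sup s).Finite := hT.biUnion fun s _ => by cases s <;> simp [sup]
  obtain ⟨n, hn⟩ := hfin.infinite_compl.nonempty
  have key : ∀ s ∈ Subsemigroup.closure T, ∀ i h l, s = .k i h l → 0 ≤ h n := by
    intro s hs
    induction hs using Subsemigroup.closure_induction with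
    | mem s hs =>
      rintro i h l rfl
      simp only [Set.mem_compl_iff, Set.mem_iUnion, not_exists] at hn
      have := hn _ hs
      simp [sup] at this
      exact this.ge
    | mul a b _ _ iha ihb =>
      intro i h l e
      cases a <;> cases b <;> simp only [gg, gk, kg, kk, S.k.injEq, reduceCtorEq] at e
      · exact e.2.1 ▸ ihb _ _ _ rfl
      · exact e.2.1 ▸ iha _ _ _ rfl
      · rw [← e.2.1]
        refine add_nonneg (add_nonneg (iha _ _ _ rfl) ?_) (ihb _ _ _ rfl)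
        simp only [x, Finsupp.single_apply]
        split_ifs <;> simp
  have := key (.k 0 (-x n) 0) (by simp [h]) _ _ _ rfl
  simp [x] at this

lemma period (r : Setoid S) (hr : RightCon r) [Finite (Quotient r)] (t : ℤ → S)
    (ht : ∀ a b, t a * t b = t (a + b)) : ∃ M : ℕ, 0 < M ∧ ∀ s, r (s * t M) (s * t 0) := by
  obtain ⟨a, b, hab, e⟩ := Finite.exists_ne_map_eq_of_infinite
    (fun n : ℕ => fun q : Quotient r => Quotient.mk r (q.out * t n))
  wlog hlt : a < b generalizing a b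
  · exact this b a hab.symm e.symm (by omega)
  refine ⟨b - a, by omega, fun s => ?_⟩
  have h0 : r (Quotient.mk r s).out s := Quotient.mk_out s
  have h1 := hr _ _ (t (-a)) (r.trans' (r.symm' (hr _ _ (t b) h0))
    (r.trans' (r.symm' (Quotient.exact (congrFun e (Quotient.mk r s)))) (hr _ _ (t a) h0)))
  rw [mul_assoc, mul_assoc, ht, ht, add_neg_cancel] at h1
  rwa [Nat.cast_sub hlt.le, sub_eq_add_neg]

lemma red {α : Type} (q : Setoid α) (N : ℤ) (f : ℤ → α) (h : ∀ a, q (f (N + a)) (f a)) (a : ℤ) :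
    q (f a) (f (a % N)) := by
  have : ∀ t b : ℤ, q (f (N * t + b)) (f b) := by
    intro t b
    induction t using Int.induction_on with
    | zero => simp
    | succ t ih => exact q.trans' (by simpa [mul_add, add_comm, add_left_comm] using h (N * t + b)) ih
    | pred t ih =>
      refine q.trans' (q.symm' ?_) ih
      have := h (N * (-t - 1) + b)
      rwa [show N + (N * (-t - 1) + b) = N * -t + b by ring] at this
  simpa [Int.mul_ediv_add_emod] using this (a / N) (a % N)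

theorem fn : FNoetherian S := by
  intro r hr hfin
  obtain ⟨N, hN, h1⟩ := period r hr S.g gg
  have h2 : ∀ n : ℤ, ∃ M : ℕ, 0 < M ∧ ∀ i, r (.k i (M • x n) 0) (.k i 0 0) := by
    intro n
    obtain ⟨M, hM, h⟩ := period r hr (fun a => .k 0 (a • x n - x 0) 0) (fun a b => by
      simp only [kk, add_zero, add_smul]; congr 1; abel)
    exact ⟨M, hM, fun i => by simpa [kk] using h (.k i 0 0)⟩
  choose M hM h2 using h2
  let U : AddSubgroup H := AddSubgroup.closure
    (Set.range (fun j => x (N + j) - x j) ∪ (fun n => M n • x n) '' Set.Icc 0 N)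
  have hI : ∀ a : ℤ, a % N ∈ Set.Icc (0 : ℤ) N := fun a =>
    ⟨Int.emod_nonneg _ (by omega), (Int.emod_lt_of_pos _ (by omega)).le⟩
  have hgen : ∀ V : AddSubgroup (H ⧸ U), (∀ n ∈ Set.Icc (0 : ℤ) N, ((x n : H) : H ⧸ U) ∈ V) →
      V = ⊤ := by
    intro V hV
    rw [eq_top_iff]
    rintro ⟨h⟩ -
    change ((h : H) : H ⧸ U) ∈ V
    induction h using Finsupp.induction_linear with
    | zero => exact V.zero_mem
    | add a b ha hb => exact V.add_mem ha hb
    | single j c =>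
      have e : ((x j : H) : H ⧸ U) = x (j % N) := red ⊥ N (fun j => ((x j : H) : H ⧸ U)) (fun a =>
        QuotientAddGroup.eq_iff_sub_mem.2 (AddSubgroup.subset_closure (Or.inl ⟨a, rfl⟩))) j
      have : Finsupp.single j c = c • x j := by simp [x]
      rw [this, QuotientAddGroup.mk_zsmul, e]
      exact V.zsmul_mem (hV _ (hI j)) c
  have : AddGroup.FG (H ⧸ U) := ⟨(AddSubgroup.fg_iff _).2
    ⟨(fun n => ((x n : H) : H ⧸ U)) '' Set.Icc 0 N, hgen _ fun n hn =>
      AddSubgroup.subset_closure ⟨n, hn, rfl⟩, (Set.finite_Icc _ _).image _⟩⟩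
  have : Finite (H ⧸ U) := AddCommGroup.finite_of_fg_isAddTorsion _ fun q => by
    have := hgen (AddCommGroup.torsion _) fun n hn => isOfFinAddOrder_iff_nsmul_eq_zero.2
      ⟨M n, hM n, by
        rw [← QuotientAddGroup.mk_nsmul, QuotientAddGroup.eq_zero_iff]
        exact AddSubgroup.subset_closure (Or.inr ⟨n, hn, rfl⟩)⟩
    exact (this ▸ AddSubgroup.mem_top q : q ∈ AddCommGroup.torsion _)
  let B : Set H := insert 0 (Set.range (Quotient.out : H ⧸ U → H) ∪
    (fun n => M n • x n) '' Set.Icc 0 N)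
  have hB : B.Finite := ((Set.finite_range _).union ((Set.finite_Icc _ _).image _)).insert _
  let F : Set S := S.g '' Set.Icc 0 N ∪
    (fun p : ℤ × H × ℤ => S.k p.1 p.2.1 p.2.2) '' (Set.Icc (0 : ℤ) N ×ˢ B ×ˢ Set.Icc (0 : ℤ) N)
  have hF : F.Finite := ((Set.finite_Icc _ _).image _).union
    (((Set.finite_Icc _ _).prod (hB.prod (Set.finite_Icc _ _))).image _)
  let ρ : S → S := fun s => match s with
    | .g a => .g (a % N)
    | .k i h l => .k (i % N) ((h : H ⧸ U).out) (l % N)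
  have hk : ∀ i h l, i ∈ Set.Icc (0 : ℤ) N → h ∈ B → l ∈ Set.Icc (0 : ℤ) N → S.k i h l ∈ F :=
    fun i h l a b c => Or.inr ⟨(i, h, l), ⟨a, b, c⟩, rfl⟩
  have hρ : ∀ s, ρ s ∈ F := by
    rintro (a | ⟨i, h, l⟩)
    · exact Or.inl ⟨_, hI a, rfl⟩
    · exact hk _ _ _ (hI i) (Or.inr (Or.inl ⟨_, rfl⟩)) (hI l)
  have h0 : (0 : ℤ) ∈ Set.Icc (0 : ℤ) N := by simp
  have hN' : (N : ℤ) ∈ Set.Icc (0 : ℤ) N := by simp
  have key : ∀ q : Setoid S, RightCon q → (∀ a ∈ F, ∀ b ∈ F, r a b → q a b) →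
      ∀ s, q s (ρ s) := by
    intro q hq hX
    have k1 : q (.g N) (.g 0) := hX _ (Or.inl ⟨_, hN', rfl⟩) _ (Or.inl ⟨_, h0, rfl⟩)
      (by simpa [gg] using h1 (.g 0))
    have k2 : ∀ i ∈ Set.Icc (0 : ℤ) N, ∀ b ∈ B, q (.k i b N) (.k i b 0) := fun i hi b hb =>
      hX _ (hk _ _ _ hi hb hN') _ (hk _ _ _ hi hb h0) (by simpa [kg] using h1 (.k i b 0))
    rintro (a | ⟨i, h, l⟩)
    · exact red q N S.g (fun a => by simpa [gg] using hq _ _ (.g a) k1) a
    · refine q.trans' (red q N (S.k · h l) (fun a => by simpa [gk] using hq _ _ (.k a h l) k1) i)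
        (q.trans' ?_ (red q N (S.k (i % N) ((h : H ⧸ U).out)) (fun a => by
          simpa [kg] using hq _ _ (.g a) (k2 _ (hI i) _ (Or.inr (Or.inl ⟨_, rfl⟩)))) l))
      let V : AddSubgroup H :=
        { carrier := {y | ∀ h, q (.k (i % N) (y + h) l) (.k (i % N) h l)}
          add_mem' := fun {a b} ha hb h => q.trans' (by simpa [add_assoc] using ha (b + h)) (hb h)
          zero_mem' := fun h => by simp
          neg_mem' := fun {a} ha h => q.symm' (by simpa using ha (-a + h)) }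
      have hV : U ≤ V := by
        rw [AddSubgroup.closure_le]
        rintro _ (⟨j, rfl⟩ | ⟨n, hn, rfl⟩) h
        · have := hq _ _ (.k j (h - x j) l) (k2 _ (hI i) 0 (Or.inl rfl))
          simp only [kk, zero_add, add_sub_cancel] at this
          rwa [show x (N + j) - x j + h = x (N + j) + (h - x j) by abel]
        · have := hq _ _ (.k 0 (h - x 0) l) (hX _ (hk _ _ _ (hI i) (Or.inr (Or.inr ⟨n, hn, rfl⟩)) h0)
            _ (hk _ _ _ (hI i) (Or.inl rfl) h0) (h2 n _))
          simpa [kk, add_assoc] using this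
      have := hV (QuotientAddGroup.eq_iff_sub_mem.1 (QuotientAddGroup.out_eq' (h : H ⧸ U)).symm)
        ((h : H ⧸ U).out)
      simpa using this
  refine ⟨{p | p.1 ∈ F ∧ p.2 ∈ F ∧ r p.1 p.2}, (hF.prod hF).subset fun p hp => ⟨hp.1, hp.2.1⟩,
    le_antisymm (le_sInf fun q hq a b hab => ?_) (sInf_le ⟨hr, fun p hp => hp.2.2⟩)⟩
  have kq := key q hq.1 fun a ha b hb h => hq.2 (a, b) ⟨ha, hb, h⟩
  have kr := key r hr fun _ _ _ _ h => h
  exact q.trans' (kq a) (q.trans' (hq.2 (ρ a, ρ b) ⟨hρ a, hρ b,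
    r.trans' (r.symm' (kr a)) (r.trans' hab (kr b))⟩) (q.symm' (kq b)))

end Pool.Agent.H14.FNoeth
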