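import Mathlib

set_option autoImplicit false

namespace Pool.Agent.H14.FactParts

open Finset

open Classical in
/-- The number of partitions of `n` with all parts in `A` and exactly `i` parts. -/
noncomputable def c (A : Set ℕ) (i n : ℕ) : ℕ :=
  #{p : Nat.Partition n | (∀ x ∈ p.parts, x ∈ A) ∧ p.parts.card = i}

/-- The weighted sum `S_{A,k}(n)`. -/
noncomputable def S (A : Set ℕ) (k n : ℕ) : ℤ :=
  ∑ i ∈ range (n + 1), (-1) ^ i * (i : ℤ) ^ k * c A i n

/-- The set `{1!, ..., m!}`. -/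
def U (m : ℕ) : Set ℕ := Nat.factorial '' Set.Icc 1 m

lemma mem_U (x : ℕ) : x ∈ U 3 ↔ x = 1 ∨ x = 2 ∨ x = 6 := by
  constructor
  · rintro ⟨j, ⟨h1, h2⟩, rfl⟩
    interval_cases j <;> simp [Nat.factorial]
  · rintro (rfl | rfl | rfl)
    · exact ⟨1, by simp, rfl⟩
    · exact ⟨2, by simp, rfl⟩
    · exact ⟨3, by simp, rfl⟩

lemma decomp (s : Multiset ℕ) (h : ∀ x ∈ s, x ∈ U 3) : s = Multiset.replicate (s.count 1) 1 +
    Multiset.replicate (s.count 2) 2 + Multiset.replicate (s.count 6) 6 := by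
  ext x
  simp only [Multiset.count_add, Multiset.count_replicate]
  by_cases h1 : x = 1
  · simp [h1]
  by_cases h2 : x = 2
  · simp [h2]
  by_cases h3 : x = 6
  · simp [h3]
  rw [if_neg (Ne.symm h1), if_neg (Ne.symm h2), if_neg (Ne.symm h3)]
  refine Multiset.count_eq_zero.2 fun hx => ?_
  rcases (mem_U x).1 (h x hx) with h' | h' | h' <;> contradiction

lemma counts {n : ℕ} (p : Nat.Partition n) (h : ∀ x ∈ p.parts, x ∈ U 3) :
    p.parts.count 1 + 2 * p.parts.count 2 + 6 * p.parts.count 6 = n ∧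
    p.parts.card = p.parts.count 1 + p.parts.count 2 + p.parts.count 6 := by
  have h1 := congrArg Multiset.sum (decomp _ h)
  have h2 := congrArg Multiset.card (decomp _ h)
  simp only [Multiset.sum_add, Multiset.sum_replicate, smul_eq_mul, p.parts_sum, Multiset.card_add,
    Multiset.card_replicate] at h1 h2
  omega

def mk (n b d : ℕ) (h : 2 * b + 6 * d ≤ n) : Nat.Partition n where
  parts := Multiset.replicate (n - 2 * b - 6 * d) 1 + Multiset.replicate b 2 +
    Multiset.replicate d 6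
  parts_pos := by
    intro x hx
    simp only [Multiset.mem_add, Multiset.mem_replicate] at hx
    omega
  parts_sum := by
    simp only [Multiset.sum_add, Multiset.sum_replicate, smul_eq_mul]
    omega

lemma S_eq (n : ℕ) : S (U 3) 2 n = ∑ d ∈ range (n / 6 + 1), ∑ b ∈ range ((n - 6 * d) / 2 + 1),
    (-1 : ℤ) ^ (n - 2 * b - 6 * d + b + d) * ((n - 2 * b - 6 * d + b + d : ℕ) : ℤ) ^ 2 := by
  classical
  have h1 : S (U 3) 2 n = ∑ p ∈ (univ.filter fun p : Nat.Partition n => ∀ x ∈ p.parts, x ∈ U 3),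
      (-1 : ℤ) ^ p.parts.card * (p.parts.card : ℤ) ^ 2 := by
    rw [← sum_fiberwise_of_maps_to (t := range (n + 1)) (g := fun p => p.parts.card)]
    · refine sum_congr rfl fun i _ => ?_
      rw [sum_congr rfl (g := fun _ => (-1 : ℤ) ^ i * (i : ℤ) ^ 2)
        (fun p hp => by rw [(mem_filter.1 hp).2]), sum_const, filter_filter, nsmul_eq_mul, mul_comm]
      unfold c
      congr
    · intro p hp
      have := counts p (mem_filter.1 hp).2
      rw [mem_range]
      omega
  rw [h1, sum_sigma']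
  refine sum_bij' (fun p _ => ⟨p.parts.count 6, p.parts.count 2⟩)
    (fun q hq => mk n q.2 q.1 (by
      simp only [mem_sigma, mem_range] at hq
      omega)) ?_ ?_ ?_ ?_ ?_
  · intro p hp
    have := counts p (mem_filter.1 hp).2
    simp only [mem_sigma, mem_range]
    omega
  · intro q hq
    refine mem_filter.2 ⟨mem_univ _, fun x hx => (mem_U x).2 ?_⟩
    simp only [mk, Multiset.mem_add, Multiset.mem_replicate] at hx
    omega
  · intro p hp
    have h := (mem_filter.1 hp).2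
    have := counts p h
    ext1
    simp only [mk]
    refine Eq.trans ?_ (decomp _ h).symm
    congr 3
    omega
  · rintro ⟨d, b⟩ hq
    simp [mk, Multiset.count_replicate]
  · intro p hp
    have := counts p (mem_filter.1 hp).2
    have e : n - 2 * p.parts.count 2 - 6 * p.parts.count 6 + p.parts.count 2 + p.parts.count 6 =
        p.parts.card := by omega
    simp only [e]

lemma inner (u : ℤ) (M : ℕ) : 2 * ∑ b ∈ range (M + 1), (-1 : ℤ) ^ b * (u - b) ^ 2 =
    u * (u + 1) + (-1) ^ M * ((u - M - 1) * (u - M)) := by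
  induction M with
  | zero => simp; ring
  | succ M ih =>
    rw [sum_range_succ, mul_add, ih]
    push_cast
    ring

lemma sum1 (n : ℤ) (K : ℕ) : ∑ d ∈ range (2 * K), (-1 : ℤ) ^ d * ((n - 5 * d) * (n - 5 * d + 1)) =
    K * (10 * n - 20) - 50 * K * (K - 1) := by
  induction K with
  | zero => simp
  | succ K ih =>
    rw [show 2 * (K + 1) = 2 * K + 1 + 1 by ring, sum_range_succ, sum_range_succ, ih, pow_succ,
      pow_mul]
    push_cast
    ring

lemma sum2 (N : ℤ) (L : ℕ) : 3 * ∑ d ∈ range L, (N - 2 * d - 1) * (N - 2 * d) =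
    3 * L * N * (N - 1) - 3 * (2 * N - 1) * L * (L - 1) + 2 * (L - 1) * L * (2 * L - 1) := by
  induction L with
  | zero => simp
  | succ L ih =>
    rw [sum_range_succ, mul_add, ih]
    push_cast
    ring

lemma S_val (q : ℕ) : 2 * S (U 3) 2 (12 * q + 6) =
    ∑ d ∈ range (2 * (q + 1)), ((-1 : ℤ) ^ d * ((12 * q + 6 - 5 * d) * (12 * q + 6 - 5 * d + 1)) -
      (6 * q + 3 - 2 * d - 1) * (6 * q + 3 - 2 * d)) := by
  rw [S_eq, show (12 * q + 6) / 6 + 1 = 2 * (q + 1) by omega, mul_sum]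
  refine sum_congr rfl fun d hd => ?_
  have hd' := mem_range.1 hd
  obtain ⟨M, hM⟩ : ∃ M, M + 3 * d = 6 * q + 3 := ⟨6 * q + 3 - 3 * d, by omega⟩
  rw [show (12 * q + 6 - 6 * d) / 2 = M by omega]
  have h1 : ∀ b ∈ range (M + 1), (-1 : ℤ) ^ (12 * q + 6 - 2 * b - 6 * d + b + d) *
      ((12 * q + 6 - 2 * b - 6 * d + b + d : ℕ) : ℤ) ^ 2 =
      (-1) ^ d * ((-1) ^ b * ((12 * q + 6 - 5 * d : ℤ) - b) ^ 2) := by
    intro b hb
    have hb' := mem_range.1 hb
    obtain ⟨e, he⟩ : ∃ e, e + b = M := ⟨M - b, by omega⟩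
    rw [show 12 * q + 6 - 2 * b - 6 * d = 2 * e by omega]
    have : ((2 * e + b + d : ℕ) : ℤ) = 12 * q + 6 - 5 * d - b := by omega
    rw [this, pow_add, pow_add, pow_mul]
    ring
  rw [sum_congr rfl h1, ← mul_sum, mul_left_comm, inner]
  have h2 : (-1 : ℤ) ^ d * (-1) ^ M = -1 := by
    rw [← pow_add]
    exact Odd.neg_one_pow ⟨3 * q + 1 - d, by omega⟩
  have h3 : (M : ℤ) = 6 * q + 3 - 3 * d := by omega
  rw [mul_add, ← mul_assoc ((-1) ^ d) ((-1) ^ M), h2, h3]
  ring

theorem main (N : ℕ) : ∃ n ≥ N, (-1) ^ n * S (U 3) 2 n < 0 := by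
  refine ⟨12 * (N + 10) + 6, by omega, ?_⟩
  have h := S_val (N + 10)
  rw [sum_sub_distrib, sum1] at h
  have h2 := sum2 (6 * (N + 10 : ℕ) + 3) (2 * (N + 10 + 1))
  rw [Even.neg_one_pow ⟨6 * (N + 10) + 3, by ring⟩, one_mul]
  push_cast at h h2
  have h0 : (0 : ℤ) ≤ N := Nat.cast_nonneg N
  nlinarith [mul_nonneg h0 h0, mul_nonneg (mul_nonneg h0 h0) h0]

end Pool.Agent.H14.FactParts
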