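import Mathlib

set_option autoImplicit false

namespace Pool.Agent.H14.FreeBall

open Function FreeGroup Finset

abbrev F (r : ℕ) : Type := FreeGroup (Fin r)
abbrev L (r : ℕ) : Type := Fin r × Bool

variable {r : ℕ}

/-- the vertex (coset) reached by a word -/
def vtx (H : Subgroup (F r)) (w : List (L r)) : F r ⧸ H := ((mk w : F r) : F r ⧸ H)

lemma vtx_cons (H : Subgroup (F r)) (s : L r) (w : List (L r)) :
    vtx H (s :: w) = (mk [s] : F r) • vtx H w := by
  rw [vtx, vtx, MulAction.Quotient.smul_mk, smul_eq_mul, mul_mk]; rfl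

def Path (H : Subgroup (F r)) (Rel : F r ⧸ H → F r ⧸ H → Prop) : List (L r) → Prop
  | [] => True
  | s :: w => Rel (vtx H w) (vtx H (s :: w)) ∧ Path H Rel w

lemma path_of (H : Subgroup (F r)) (Rel : F r ⧸ H → F r ⧸ H → Prop) (w : List (L r))
    (h : ∀ u s v, w = u ++ s :: v → Rel (vtx H v) (vtx H (s :: v))) : Path H Rel w := by
  induction w with
  | nil => trivial
  | cons s w ih => exact ⟨h [] s w rfl, ih fun u t v hw => h (s :: u) t v (by rw [hw]; rfl)⟩

abbrev M : Type := Multiplicative (ZMod 2)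

lemma mk_false (i : Fin r) : (mk [(i, false)] : F r) = (of i)⁻¹ := by
  rw [of, inv_mk]; rfl

/-- The rank inequality `|X| + |V| ≤ |E| + 1`. -/
lemma key (H : Subgroup (F r)) (X : Finset (F r))
    (hχ : ∀ α : X → M, ∃ χ : H →* M, ∀ x : X, ∃ hx : x.1 ∈ H, χ ⟨x.1, hx⟩ = α x)
    (Rel : F r ⧸ H → F r ⧸ H → Prop) (hs : ∀ a b, Rel a b → Rel b a)
    (E : Finset (Fin r × (F r ⧸ H))) (hE : ∀ i v, Rel v ((of i : F r) • v) → (i, v) ∈ E)
    (V : Finset (F r ⧸ H)) (hV : ∀ v ∈ V, ∃ w, Path H Rel w ∧ vtx H w = v)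
    (hX : ∀ x ∈ X, ∃ w, Path H Rel w ∧ mk w = x) : X.card + V.card ≤ E.card + 1 := by
  classical
  choose χ hχ using hχ
  let o : F r ⧸ H := ((1 : F r) : F r ⧸ H)
  let t : F r ⧸ H → F r := fun v => if v = o then 1 else v.out
  have ht : ∀ v, ((t v : F r) : F r ⧸ H) = v := by
    intro v
    by_cases h : v = o
    · simp only [t, h, if_true]; rfl
    · simp only [t, h, if_false]; exact QuotientGroup.out_eq' v
  have htH : ∀ g : F r, (t (g : F r ⧸ H))⁻¹ * g ∈ H := fun g => QuotientGroup.eq.1 (ht _)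
  let be : ((V.erase o) → M) → (F r ⧸ H) → M := fun β v =>
    if h : v ∈ V.erase o then β ⟨v, h⟩ else 1
  let G : (X → M) × ((V.erase o) → M) → F r → M := fun ab g =>
    be ab.2 (g : F r ⧸ H) * χ ab.1 ⟨_, htH g⟩
  have hG : ∀ ab g (h : H), G ab (g * h) = G ab g * χ ab.1 h := by
    intro ab g h
    have h1 : ((g * h : F r) : F r ⧸ H) = g := QuotientGroup.mk_mul_of_mem g h.2
    simp only [G]
    rw [mul_assoc, ← _root_.map_mul]
    congr 1
    · rw [h1]
    · congr 1
      ext
      simp only [h1, Subgroup.coe_mul, mul_assoc]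
  have hG1 : ∀ ab, G ab 1 = 1 := by
    intro ab
    have h1 : be ab.2 o = 1 := by simp [be]
    have h2 : (⟨_, htH 1⟩ : H) = 1 := by
      ext
      change (t o)⁻¹ * 1 = 1
      simp [t]
    simp only [G]
    rw [h2, _root_.map_one, mul_one]
    exact h1
  let inc : (X → M) × ((V.erase o) → M) → Fin r × (F r ⧸ H) → M := fun ab e =>
    G ab (of e.1 * t e.2) * (G ab (t e.2))⁻¹
  have hinc : ∀ ab i (g : F r), G ab (of i * g) = inc ab (i, (g : F r ⧸ H)) * G ab g := by
    intro ab i g
    have h1 := hG ab (t g) ⟨_, htH g⟩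
    have h2 := hG ab (of i * t g) ⟨_, htH g⟩
    simp only [mul_inv_cancel_left, mul_assoc] at h1 h2
    simp only [inc]
    rw [h1, h2]
    group
  let Ψ : (X → M) × ((V.erase o) → M) → (E → M) := fun ab e => inc ab e
  have hΨ : Injective Ψ := by
    intro ab ab' h
    have hpath : ∀ w, Path H Rel w → G ab (mk w) = G ab' (mk w) := by
      intro w
      induction w with
      | nil => intro _; exact (hG1 ab).trans (hG1 ab').symm
      | cons s w ih =>
        rintro ⟨h1, h2⟩
        have ih' := ih h2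
        have hm : (mk (s :: w) : F r) = mk [s] * mk w := by rw [mul_mk]; rfl
        obtain ⟨i, b⟩ := s
        cases b with
        | true =>
          rw [vtx_cons] at h1
          have h3 : inc ab (i, vtx H w) = inc ab' (i, vtx H w) := congrFun h ⟨_, hE i _ h1⟩
          rw [hm]
          change G ab (of i * _) = G ab' (of i * _)
          rw [hinc, hinc, ih']
          exact congrArg (· * _) h3
        | false =>
          have h4 : vtx H w = (of i : F r) • vtx H ((i, false) :: w) := by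
            rw [vtx_cons, mk_false, smul_inv_smul]
          have h5 : (mk w : F r) = of i * mk ((i, false) :: w) := by
            rw [hm, mk_false, mul_inv_cancel_left]
          have h6 := hs _ _ h1
          rw [h4] at h6
          have h3 : inc ab (i, vtx H ((i, false) :: w)) = inc ab' (i, vtx H ((i, false) :: w)) :=
            congrFun h ⟨_, hE i _ (by rw [← h4] at h6 ⊢; exact h6)⟩
          rw [h5, hinc, hinc] at ih'
          change inc ab (i, vtx H _) * _ = inc ab' (i, vtx H _) * _ at ih'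
          rw [h3] at ih'
          exact mul_left_cancel ih'
    have h1 : ab.1 = ab'.1 := by
      funext x
      obtain ⟨w, hw, hwx⟩ := hX x.1 x.2
      have h2 := hpath w hw
      obtain ⟨hx, hx1⟩ := hχ ab.1 x
      obtain ⟨hx', hx2⟩ := hχ ab'.1 x
      have h3 := hG ab 1 ⟨x.1, hx⟩
      have h4 := hG ab' 1 ⟨x.1, hx⟩
      simp only [one_mul, hG1] at h3 h4
      rw [← hx1, ← hx2, ← h3, ← h4, ← hwx, h2]
    have h2 : ab.2 = ab'.2 := by
      funext v
      obtain ⟨w, hw, hwv⟩ := hV v.1 (mem_of_mem_erase v.2)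
      have h2 := hpath w hw
      simp only [G, h1] at h2
      have h3 := mul_right_cancel h2
      change be ab.2 (vtx H w) = be ab'.2 (vtx H w) at h3
      rw [hwv] at h3
      simpa only [be, v.2, dif_pos] using h3
    exact Prod.ext h1 h2
  have hc := Fintype.card_le_of_injective Ψ hΨ
  simp only [Fintype.card_prod, Fintype.card_fun, Fintype.card_coe, Fintype.card_multiplicative,
    ZMod.card, ← pow_add] at hc
  have hc' := (Nat.pow_le_pow_iff_right (by norm_num : 1 < 2)).1 hc
  have := pred_card_le_card_erase (s := V) (a := o)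
  omega

open Classical in
/-- balls in the coset graph -/
noncomputable def Bl (H : Subgroup (F r)) : ℕ → Finset (F r ⧸ H)
  | 0 => {vtx H []}
  | j + 1 => Bl H j ∪ ((univ : Finset (L r)) ×ˢ Bl H j).image fun p => (mk [p.1] : F r) • p.2

lemma mem_Bl (H : Subgroup (F r)) (j : ℕ) (v : F r ⧸ H) :
    v ∈ Bl H j ↔ ∃ w : List (L r), w.length ≤ j ∧ vtx H w = v := by
  induction j generalizing v with
  | zero =>
    simp only [Bl, mem_singleton, nonpos_iff_eq_zero, List.length_eq_zero_iff, exists_eq_left]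
    exact eq_comm
  | succ j ih =>
    simp only [Bl, mem_union, mem_image, mem_product, mem_univ, true_and]
    constructor
    · rintro (h | ⟨⟨s, u⟩, hu, rfl⟩)
      · obtain ⟨w, hw, rfl⟩ := (ih v).1 h
        exact ⟨w, by omega, rfl⟩
      · obtain ⟨w, hw, rfl⟩ := (ih u).1 hu
        exact ⟨s :: w, by simpa using hw, vtx_cons H s w⟩
    · rintro ⟨w, hw, rfl⟩
      cases w with
      | nil => exact Or.inl ((ih _).2 ⟨[], by simp, rfl⟩)
      | cons s w =>
        exact Or.inr ⟨(s, vtx H w), (ih _).2 ⟨w, by simpa using hw, rfl⟩, (vtx_cons H s w).symm⟩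

lemma vtx_mem (H : Subgroup (F r)) {j : ℕ} {w : List (L r)} (h : w.length ≤ j) :
    vtx H w ∈ Bl H j := (mem_Bl H j _).2 ⟨w, h, rfl⟩

lemma vtx_mem' (H : Subgroup (F r)) {j : ℕ} {u w : List (L r)} (h : u.length ≤ j)
    (hH : (mk (u ++ w) : F r) ∈ H) : vtx H w ∈ Bl H j := by
  refine (mem_Bl H j _).2 ⟨invRev u, by simpa using h, ?_⟩
  rw [vtx, vtx, QuotientGroup.eq, ← inv_mk, inv_inv, mul_mk]
  exact hH

open Classical in
/-- positive edges from `Y` to `Z` -/
noncomputable def Pe (H : Subgroup (F r)) (Y Z : Finset (F r ⧸ H)) : Finset (Fin r × (F r ⧸ H)) :=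
  ((univ : Finset (Fin r)) ×ˢ Y).filter fun e => (of e.1 : F r) • e.2 ∈ Z

lemma mem_Pe (H : Subgroup (F r)) (Y Z : Finset (F r ⧸ H)) (e : Fin r × (F r ⧸ H)) :
    e ∈ Pe H Y Z ↔ e.2 ∈ Y ∧ (of e.1 : F r) • e.2 ∈ Z := by
  simp [Pe]

lemma Pe_out (H : Subgroup (F r)) (Y Z Z' : Finset (F r ⧸ H)) (h : Disjoint Z Z') :
    (Pe H Y Z).card + (Pe H Y Z').card ≤ r * Y.card := by
  classical
  rw [← card_union_of_disjoint]
  · refine (card_le_card (t := (univ : Finset (Fin r)) ×ˢ Y) ?_).trans (by simp)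
    intro e he
    simp only [mem_union, mem_Pe] at he
    simp only [mem_product, mem_univ, true_and]
    tauto
  · rw [disjoint_left] at h ⊢
    intro e h1 h2
    rw [mem_Pe] at h1 h2
    exact h h1.2 h2.2

lemma Pe_in (H : Subgroup (F r)) (Y Z Z' : Finset (F r ⧸ H)) (h : Disjoint Z Z') :
    (Pe H Z Y).card + (Pe H Z' Y).card ≤ r * Y.card := by
  classical
  rw [← card_union_of_disjoint]
  · have : ((univ : Finset (Fin r)) ×ˢ Y).card = r * Y.card := by simp
    rw [← this]
    apply card_le_card_of_injOn (fun e => (e.1, (of e.1 : F r) • e.2))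
    · intro e he
      simp only [coe_union, Set.mem_union, mem_coe, mem_Pe] at he
      simp only [coe_product, coe_univ, Set.mem_prod, Set.mem_univ, mem_coe, true_and]
      tauto
    · rintro ⟨i, u⟩ - ⟨j, v⟩ - h
      simp only [Prod.mk.injEq] at h
      obtain ⟨rfl, h⟩ := h
      rw [smul_left_cancel _ h]
  · rw [disjoint_left] at h ⊢
    intro e h1 h2
    rw [mem_Pe] at h1 h2
    exact h h1.1 h2.1

lemma Bl_conn (H : Subgroup (F r)) (j : ℕ) :
    (Bl H j).card ≤ (Pe H (Bl H j) (Bl H j)).card + 1 := by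
  have := key H ∅ (fun _ => ⟨1, fun x => absurd x.2 (notMem_empty _)⟩)
    (fun a b => a ∈ Bl H j ∧ b ∈ Bl H j) (fun _ _ h => h.symm) (Pe H (Bl H j) (Bl H j))
    (fun i v h => (mem_Pe _ _ _ _).2 h) (Bl H j) (by
      intro v hv
      obtain ⟨w, hw, rfl⟩ := (mem_Bl H j v).1 hv
      refine ⟨w, path_of H _ w ?_, rfl⟩
      rintro u s v rfl
      simp only [List.length_append, List.length_cons] at hw
      exact ⟨vtx_mem H (by omega), vtx_mem H (by simp; omega)⟩) (by simp)
  simpa using this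

lemma Bl_sub (H : Subgroup (F r)) (j : ℕ) : Bl H j ⊆ Bl H (j + 1) := by
  intro v hv
  obtain ⟨w, hw, rfl⟩ := (mem_Bl H j v).1 hv
  exact vtx_mem H (by omega)

open Classical in
lemma new_le (H : Subgroup (F r)) (j : ℕ) :
    (Bl H (j + 1) \ Bl H j).card ≤ (Pe H (Bl H j) (Bl H (j + 1) \ Bl H j)).card +
      (Pe H (Bl H (j + 1) \ Bl H j) (Bl H j)).card := by
  refine le_trans (card_le_card (t := (Pe H (Bl H j) (Bl H (j + 1) \ Bl H j)).image
      (fun e => (of e.1 : F r) • e.2) ∪ (Pe H (Bl H (j + 1) \ Bl H j) (Bl H j)).image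
      (fun e => e.2)) ?_)
    ((card_union_le _ _).trans (add_le_add card_image_le card_image_le))
  intro v hv
  have hv' := hv
  rw [mem_sdiff] at hv
  obtain ⟨h1, h2⟩ := hv
  simp only [Bl, mem_union, mem_image, mem_product, mem_univ, true_and] at h1
  rcases h1 with h1 | ⟨⟨⟨i, b⟩, u⟩, hu, rfl⟩
  · exact absurd h1 h2
  · simp only [mem_union, mem_image, mem_Pe]
    cases b with
    | true => exact Or.inl ⟨(i, u), ⟨hu, hv'⟩, rfl⟩
    | false =>
      refine Or.inr ⟨(i, _), ⟨hv', ?_⟩, rfl⟩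
      simp only [mk_false, smul_inv_smul]
      exact hu

lemma Bl_card (H : Subgroup (F (r + 1))) (j : ℕ) :
    r * (Bl H j).card + 1 ≤ (r + 1) * (2 * r + 1) ^ j := by
  classical
  induction j with
  | zero => simp [Bl]
  | succ j ih =>
    have h1 := new_le H j
    have h2 := Bl_conn H j
    have h3 := Pe_out H (Bl H j) (Bl H j) (Bl H (j + 1) \ Bl H j) disjoint_sdiff
    have h4 := Pe_in H (Bl H j) (Bl H j) (Bl H (j + 1) \ Bl H j) disjoint_sdiff
    have h5 := card_sdiff_add_card_eq_card (Bl_sub H j)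
    have h6 : (Bl H (j + 1)).card ≤ (2 * r + 1) * (Bl H j).card + 2 := by nlinarith
    rw [pow_succ]
    nlinarith [Nat.mul_le_mul_left r h6, Nat.mul_le_mul_left (2 * r + 1) ih]

lemma exists_chi (X : Finset (F r))
    (hinj : Injective (lift (fun x : X => (x : F r)))) (α : X → M) :
    ∃ χ : (lift (fun x : X => (x : F r))).range →* M, ∀ x : X,
      ∃ hx : x.1 ∈ (lift (fun x : X => (x : F r))).range, χ ⟨x.1, hx⟩ = α x := by
  refine ⟨(lift α).comp (MonoidHom.ofInjective hinj).symm.toMonoidHom, fun x => ?_⟩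
  refine ⟨⟨of x, by simp⟩, ?_⟩
  have : (⟨x.1, ⟨of x, by simp⟩⟩ : (lift (fun x : X => (x : F r))).range) =
      MonoidHom.ofInjective hinj (of x) := by
    ext
    simp [MonoidHom.ofInjective_apply]
  rw [this]
  simp

theorem upper_odd (k : ℕ) (X : Finset (F (r + 1))) (hn : ∀ x ∈ X, x.norm ≤ 2 * k + 1)
    (hinj : Injective (lift (fun x : X => (x : F (r + 1))))) :
    X.card ≤ (r + 1) * (2 * r + 1) ^ k := by
  classical
  set H := (lift (fun x : X => (x : F (r + 1)))).range
  have h1 := key H X (exists_chi X hinj)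
    (fun a b => a ∈ Bl H k ∧ b ∈ Bl H k) (fun _ _ h => h.symm) (Pe H (Bl H k) (Bl H k))
    (fun i v h => (mem_Pe _ _ _ _).2 h) (Bl H k) (by
      intro v hv
      obtain ⟨w, hw, rfl⟩ := (mem_Bl H k v).1 hv
      refine ⟨w, path_of H _ w ?_, rfl⟩
      rintro u s v rfl
      simp only [List.length_append, List.length_cons] at hw
      exact ⟨vtx_mem H (by omega), vtx_mem H (by simp; omega)⟩) (by
      intro x hx
      refine ⟨x.toWord, path_of H _ _ ?_, mk_toWord⟩
      intro u s v hw
      have h1 := hn x hx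
      have h2 : (mk (u ++ s :: v) : F (r + 1)) ∈ H := by
        rw [← hw, mk_toWord]; exact ⟨of ⟨x, hx⟩, by simp⟩
      rw [FreeGroup.norm, hw] at h1
      simp only [List.length_append, List.length_cons] at h1
      constructor
      · by_cases h : v.length ≤ k
        · exact vtx_mem H h
        · exact vtx_mem' H (u := u ++ [s]) (by simp; omega) (by simpa using h2)
      · by_cases h : u.length ≤ k
        · exact vtx_mem' H h h2
        · exact vtx_mem H (by simp; omega))
  have h2 := Pe_out H (Bl H k) (Bl H k) ∅ (by simp)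
  have h3 := Bl_card H k
  nlinarith

theorem upper_even (k : ℕ) (X : Finset (F (r + 1))) (hn : ∀ x ∈ X, x.norm ≤ 2 * k + 2)
    (hinj : Injective (lift (fun x : X => (x : F (r + 1))))) :
    X.card ≤ (2 * r + 1) ^ (k + 1) := by
  classical
  set H := (lift (fun x : X => (x : F (r + 1)))).range
  set W := Bl H k with hW
  set U := Bl H (k + 1) \ Bl H k with hU
  have h1 := key H X (exists_chi X hinj)
    (fun a b => (a ∈ W ∧ b ∈ Bl H (k + 1)) ∨ (b ∈ W ∧ a ∈ Bl H (k + 1))) (fun _ _ h => h.symm)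
    (Pe H W W ∪ Pe H W U ∪ Pe H U W)
    (fun i v h => by
      simp only [mem_union, mem_Pe, hU, mem_sdiff, ← hW]
      tauto) (Bl H (k + 1)) (by
      intro v hv
      obtain ⟨w, hw, rfl⟩ := (mem_Bl H _ v).1 hv
      refine ⟨w, path_of H _ w ?_, rfl⟩
      rintro u s v rfl
      simp only [List.length_append, List.length_cons] at hw
      exact Or.inl ⟨vtx_mem H (by omega), vtx_mem H (by simp; omega)⟩) (by
      intro x hx
      refine ⟨x.toWord, path_of H _ _ ?_, mk_toWord⟩
      intro u s v hw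
      have h1 := hn x hx
      have h2 : (mk (u ++ s :: v) : F (r + 1)) ∈ H := by
        rw [← hw, mk_toWord]; exact ⟨of ⟨x, hx⟩, by simp⟩
      rw [FreeGroup.norm, hw] at h1
      simp only [List.length_append, List.length_cons] at h1
      by_cases h : v.length ≤ k
      · exact Or.inl ⟨vtx_mem H h, vtx_mem H (by simp; omega)⟩
      · exact Or.inr ⟨vtx_mem' H (by omega) h2,
          vtx_mem' H (u := u ++ [s]) (by simp; omega) (by simpa using h2)⟩)
  have h0 := (card_union_le (Pe H W W ∪ Pe H W U) (Pe H U W)).trans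
    (Nat.add_le_add_right (card_union_le (Pe H W W) (Pe H W U)) _)
  have h2 := Bl_conn H k
  have h3 := Pe_out H W W U disjoint_sdiff
  have h4 := Pe_in H W W U disjoint_sdiff
  have h5 := card_sdiff_add_card_eq_card (Bl_sub H k)
  have h6 := Pe_out H U W ∅ (by simp)
  have h7 := Pe_in H U W ∅ (by simp)
  have h8 := Bl_card H k
  rw [← hW, ← hU] at *
  generalize (Pe H W W).card = a at *
  generalize (Pe H W U).card = b at *
  generalize (Pe H U W).card = c at *
  generalize W.card = w at *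
  generalize U.card = u at *
  have h9 : X.card + u + w ≤ a + b + c + 1 := by omega
  have h10 : b + c ≤ 2 * (r + 1) * u := by nlinarith
  have h11 : 2 * a + b + c ≤ 2 * (r + 1) * w := by nlinarith
  have h12 : (r + 1) * X.card ≤ (2 * r + 1) * (r * w + 1) := by
    nlinarith [Nat.mul_le_mul_left (2 * (r + 1)) h9, Nat.mul_le_mul_left (2 * r + 1) h11,
      Nat.mul_le_mul_left (2 * r) h2]
  have h13 : (r + 1) * X.card ≤ (r + 1) * (2 * r + 1) ^ (k + 1) := by
    rw [pow_succ]
    nlinarith [Nat.mul_le_mul_left (2 * r + 1) h8]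
  exact Nat.le_of_mul_le_mul_left h13 (by omega)

end Pool.Agent.H14.FreeBall
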