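import Mathlib
import Pool.Agent.H14.FreeBallUp

set_option autoImplicit false

namespace Pool.Agent.H14.FreeBall

open Function FreeGroup Finset Pointwise

variable {r : ℕ}

def inv (s : L r) : L r := (s.1, !s.2)

@[simp] lemma inv_inv' (s : L r) : inv (inv s) = s := by simp [inv]

lemma mk_inv (s : L r) : (mk [inv s] : F r) = (mk [s])⁻¹ := by
  rw [inv_mk]; rfl

def Cone (p : List (L r)) (s : L r) : Set (F r) := {g | (mk p)⁻¹ * g ∈ startsWith s}

lemma cone_pre {p : List (L r)} {s : L r} (h : IsReduced (p ++ [s])) {g : F r}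
    (hg : g ∈ Cone p s) : p ++ [s] <+: g.toWord := by
  have h1 : ((mk p)⁻¹ * g : F r).toWord[0]? = some s := hg
  have h2 : g = mk p * ((mk p)⁻¹ * g) := by group
  generalize (mk p)⁻¹ * g = u at h1 h2
  have h3 := isReduced_toWord (x := u)
  have h4 := mk_toWord (x := u)
  generalize u.toWord = l at h1 h3 h4
  cases l with
  | nil => simp at h1
  | cons a l =>
    have : a = s := by simpa using h1
    subst this
    have h5 := IsReduced.append_overlap (L₁ := p) (L₂ := [a]) (L₃ := l) h h3 (by simp)
    rw [h2, ← h4, mul_mk, toWord_mk]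
    have h6 : p ++ a :: l = p ++ [a] ++ l := by simp
    rw [h6, h5.reduce_eq]
    exact List.prefix_append _ _

lemma free_of_words {ι : Type} [Nontrivial ι] (p q : ι → List (L r)) (s : ι → L r)
    (hp : ∀ i, IsReduced (p i ++ [s i])) (hq : ∀ i, IsReduced (q i ++ [inv (s i)]))
    (hpp : ∀ i j l, p i ++ [s i] <+: l → p j ++ [s j] <+: l → i = j)
    (hqq : ∀ i j l, q i ++ [inv (s i)] <+: l → q j ++ [inv (s j)] <+: l → i = j)
    (hpq : ∀ i j l, p i ++ [s i] <+: l → q j ++ [inv (s j)] <+: l → False) :
    Injective (lift fun i => (mk (p i) * mk [s i] * (mk (q i))⁻¹ : F r)) := by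
  apply FreeGroup.injective_lift_of_ping_pong (α := F r) _ (fun i => Cone (p i) (s i))
    (fun i => Cone (q i) (inv (s i)))
  · intro i
    refine ⟨mk (p i) * mk [s i], ?_⟩
    change (mk (p i))⁻¹ * (mk (p i) * mk [s i]) ∈ startsWith (s i)
    rw [inv_mul_cancel_left]
    simp [startsWith]
  · intro i j hij
    rw [onFun, Set.disjoint_left]
    intro g h1 h2
    exact hij (hpp i j _ (cone_pre (hp i) h1) (cone_pre (hp j) h2))
  · intro i j hij
    rw [onFun, Set.disjoint_left]
    intro g h1 h2
    exact hij (hqq i j _ (cone_pre (hq i) h1) (cone_pre (hq j) h2))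
  · intro i j
    rw [Set.disjoint_left]
    intro g h1 h2
    exact hpq i j _ (cone_pre (hp i) h1) (cone_pre (hq j) h2)
  · rintro i _ ⟨g, hg, rfl⟩
    have := startsWith_mk_mul (w := s i) _ hg
    change (mk (p i))⁻¹ * ((mk (p i) * mk [s i] * (mk (q i))⁻¹) * g) ∈ startsWith (s i)
    convert this using 1
    group
  · rintro i _ ⟨g, hg, rfl⟩
    have := startsWith_mk_mul (w := inv (s i)) ((mk (p i))⁻¹ * g) (by
      change _ ∉ startsWith (inv (inv (s i)))
      rw [inv_inv']
      exact hg)
    rw [mk_inv] at this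
    change (mk (q i))⁻¹ * ((mk (p i) * mk [s i] * (mk (q i))⁻¹)⁻¹ * g) ∈ startsWith (inv (s i))
    convert this using 1
    group

lemma finset_of_family {ι : Type} [Fintype ι] (a : ι → F r) (h : Injective (lift a)) :
    ∃ X : Finset (F r), X.card = Fintype.card ι ∧ (∀ x ∈ X, ∃ i, a i = x) ∧
      Injective (lift (fun x : X => (x : F r))) := by
  classical
  have ha : Injective a := fun i j hij => of_injective (h (by simpa using hij))
  refine ⟨univ.image a, by rw [card_image_of_injective _ ha, card_univ], by simp, ?_⟩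
  have hx : ∀ x : (univ.image a : Finset (F r)), ∃ i, a i = x := fun x => by
    obtain ⟨i, -, hi⟩ := mem_image.1 x.2
    exact ⟨i, hi⟩
  choose f hf using hx
  have hf' : Injective f := fun x y hxy => Subtype.ext (by rw [← hf, ← hf, hxy])
  have : lift (fun x : (univ.image a : Finset (F r)) => (x : F r)) =
      (lift a).comp (FreeGroup.map f) := by
    ext x
    simp [hf]
  rw [this]
  exact h.comp (FreeGroup.map_injective hf')

/-- words `p` of length `j` with `p ++ [s]` reduced -/
def Wd : ℕ → L r → Finset (List (L r))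
  | 0, _ => {[]}
  | j + 1, s => (univ.erase (inv s)).biUnion fun t => (Wd j t).image (· ++ [t])

lemma Wd_spec (j : ℕ) (s : L r) : ∀ p ∈ Wd j s, p.length = j ∧ IsReduced (p ++ [s]) := by
  induction j generalizing s with
  | zero => intro p hp; simp only [Wd, mem_singleton] at hp; simp [hp]
  | succ j ih =>
    intro p hp
    simp only [Wd, mem_biUnion, mem_erase, mem_univ, and_true, mem_image] at hp
    obtain ⟨t, ht, p', hp', rfl⟩ := hp
    obtain ⟨h1, h2⟩ := ih t p' hp'
    refine ⟨by simp [h1], IsReduced.append_overlap h2 ?_ (by simp)⟩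
    simp only [List.cons_append, List.nil_append, isReduced_cons_cons, IsReduced.singleton,
      and_true]
    intro h
    by_contra h'
    apply ht
    refine Prod.ext h ?_
    · simp only [inv]
      cases h1 : t.2 <;> cases h2 : s.2 <;> simp_all

lemma Wd_card (j : ℕ) (s : L (r + 1)) : (Wd j s).card = (2 * r + 1) ^ j := by
  induction j generalizing s with
  | zero => simp [Wd]
  | succ j ih =>
    rw [Wd, card_biUnion]
    · rw [sum_congr rfl (g := fun _ => (2 * r + 1) ^ j)]
      · simp only [sum_const, mem_univ, card_erase_of_mem, card_univ, Fintype.card_prod,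
          Fintype.card_fin, Fintype.card_bool, smul_eq_mul]
        rw [pow_succ, mul_comm]
        congr 1
        omega
      · intro t _
        rw [card_image_of_injective _ (fun a b h => List.append_cancel_right h), ih]
    · intro t _ t' _ htt
      rw [onFun, disjoint_left]
      intro p h1 h2
      simp only [mem_image] at h1 h2
      obtain ⟨a, -, rfl⟩ := h1
      obtain ⟨b, -, h⟩ := h2
      have := List.append_inj_right' h rfl
      simp only [List.cons.injEq, and_true] at this
      exact htt this.symm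

lemma red_map {τ : L r → L r} (hτ : ∀ a b : L r, (a.1 = b.1 → a.2 = b.2) →
    ((τ a).1 = (τ b).1 → (τ a).2 = (τ b).2)) {l : List (L r)} (h : IsReduced l) :
    IsReduced (l.map τ) := by
  rw [FreeGroup.IsReduced, List.isChain_map]
  exact List.IsChain.imp (fun a b hab => hτ a b hab) h

lemma pre_eq {α : Type} {a b l : List α} (h1 : a <+: l) (h2 : b <+: l) (h : a.length = b.length) :
    a = b := (List.prefix_of_prefix_length_le h1 h2 h.le).eq_of_length h

lemma norm_le (p q : List (L r)) (s : L r) :
    (mk p * mk [s] * (mk q)⁻¹ : F r).norm ≤ p.length + 1 + q.length := by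
  refine (FreeGroup.norm_mul_le _ _).trans (add_le_add ((FreeGroup.norm_mul_le _ _).trans
    (add_le_add norm_mk_le norm_mk_le)) ?_)
  rw [norm_inv_eq]; exact norm_mk_le

lemma inv_inj : Injective (inv : L r → L r) := fun a b h => by
  rw [← inv_inv' a, h, inv_inv']

theorem lower_odd (k : ℕ) : ∃ X : Finset (F (r + 2)),
    X.card = (r + 2) * (2 * (r + 1) + 1) ^ k ∧ (∀ x ∈ X, x.norm ≤ 2 * k + 1) ∧
      Injective (lift (fun x : X => (x : F (r + 2)))) := by
  let ι : Type := Σ i : Fin (r + 2), Wd k (i, true)
  have hc : Fintype.card ι = (r + 2) * (2 * (r + 1) + 1) ^ k := by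
    simp [ι, Wd_card]
  have : Nontrivial ι := by
    rw [← Fintype.one_lt_card_iff_nontrivial, hc]
    have : 1 ≤ (2 * (r + 1) + 1) ^ k := Nat.one_le_pow _ _ (by omega)
    nlinarith
  have hl : ∀ i : ι, i.2.1.length = k := fun i => (Wd_spec _ _ _ i.2.2).1
  have hpp : ∀ i j : ι, i.2.1 ++ [(i.1, true)] = j.2.1 ++ [(j.1, true)] → i = j := by
    rintro ⟨i, p, hp⟩ ⟨j, q, hq⟩ h
    obtain ⟨h1, h2⟩ := List.append_inj' h rfl
    simp only [List.cons.injEq, Prod.mk.injEq, and_true] at h1 h2
    subst h1 h2
    rfl
  have h := free_of_words (ι := ι) (fun i => i.2.1) (fun i => i.2.1.map inv) (fun i => (i.1, true))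
    (fun i => (Wd_spec _ _ _ i.2.2).2)
    (fun i => by
      have := red_map (τ := inv) (by intro a b h; simpa [inv] using h) (Wd_spec _ _ _ i.2.2).2
      simpa using this)
    (fun i j l h1 h2 => hpp i j (pre_eq h1 h2 (by simp [hl])))
    (fun i j l h1 h2 => hpp i j (by
      have := pre_eq h1 h2 (by simp [hl])
      apply List.map_injective_iff.2 inv_inj
      simpa using this))
    (fun i j l h1 h2 => by
      have := List.append_inj_right' (pre_eq h1 h2 (by simp [hl])) rfl
      simp [inv] at this)
  obtain ⟨X, h1, h2, h3⟩ := finset_of_family _ h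
  refine ⟨X, h1.trans hc, fun x hx => ?_, h3⟩
  obtain ⟨i, rfl⟩ := h2 x hx
  refine (norm_le _ _ _).trans ?_
  simp only [List.length_map, hl]
  omega

/-- a letter permutation commuting with inversion and sending `s` to `(0, true)` -/
def tau (s a : L (r + 1)) : L (r + 1) := (Equiv.swap s.1 0 a.1, a.2 == s.2)

lemma tau_self (s : L (r + 1)) : tau s s = (0, true) := by simp [tau]

lemma tau_inj (s : L (r + 1)) : Injective (tau s) := by
  rintro ⟨a, b⟩ ⟨c, d⟩ h
  simp only [tau, Prod.mk.injEq, EmbeddingLike.apply_eq_iff_eq] at h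
  obtain ⟨rfl, h⟩ := h
  cases b <;> cases d <;> cases h' : s.2 <;> simp_all

theorem lower_even (k : ℕ) : ∃ X : Finset (F (r + 2)),
    X.card = (2 * (r + 1) + 1) ^ (k + 1) ∧ (∀ x ∈ X, x.norm ≤ 2 * k + 2) ∧
      Injective (lift (fun x : X => (x : F (r + 2)))) := by
  let ι : Type := Σ s : (univ.erase ((0, true) : L (r + 2))), Wd k s.1
  have hc : Fintype.card ι = (2 * (r + 1) + 1) ^ (k + 1) := by
    simp only [ι, Fintype.card_sigma, Fintype.card_coe, Wd_card, sum_const, card_univ,
      mem_univ, card_erase_of_mem, Fintype.card_prod, Fintype.card_fin, Fintype.card_bool,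
      smul_eq_mul]
    rw [pow_succ, mul_comm]
    congr 1
    omega
  have : Nontrivial ι := by
    rw [← Fintype.one_lt_card_iff_nontrivial, hc]
    exact Nat.one_lt_pow (by omega) (by omega)
  have hl : ∀ i : ι, i.2.1.length = k := fun i => (Wd_spec _ _ _ i.2.2).1
  have hs : ∀ i : ι, i.1.1 ≠ (0, true) := fun i => (mem_erase.1 i.1.2).1
  have hpp : ∀ i j : ι, i.2.1 ++ [i.1.1] = j.2.1 ++ [j.1.1] → i = j := by
    rintro ⟨⟨i, hi⟩, p, hp⟩ ⟨⟨j, hj⟩, q, hq⟩ h
    obtain ⟨h1, h2⟩ := List.append_inj' h rfl
    simp only [List.cons.injEq, and_true] at h1 h2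
    subst h1 h2
    rfl
  have h := free_of_words (ι := ι) (fun i => i.2.1)
    (fun i => (i.2.1 ++ [i.1.1]).map (tau i.1.1)) (fun i => i.1.1)
    (fun i => (Wd_spec _ _ _ i.2.2).2)
    (fun i => by
      have := red_map (τ := tau i.1.1) (by
        intro a b h h'
        simp only [tau, EmbeddingLike.apply_eq_iff_eq] at h' ⊢
        rw [h h']) (Wd_spec _ _ _ i.2.2).2
      rw [List.map_append] at this ⊢
      refine IsReduced.append_overlap this ?_ (by simp)
      simp only [List.map_cons, List.map_nil, tau_self, List.cons_append, List.nil_append,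
        isReduced_cons_cons, IsReduced.singleton, and_true, inv]
      intro h
      by_contra h'
      apply hs i
      ext
      · rw [← h]
      · simpa using h')
    (fun i j l h1 h2 => hpp i j (pre_eq h1 h2 (by simp [hl])))
    (fun i j l h1 h2 => hpp i j (by
      obtain ⟨h3, h4⟩ := List.append_inj' (pre_eq h1 h2 (by simp [hl])) rfl
      simp only [List.cons.injEq, and_true] at h4
      have h5 := inv_inj h4
      have h6 : tau i.1.1 = tau j.1.1 := congrArg tau h5
      rw [h6] at h3
      exact List.map_injective_iff.2 (tau_inj _) h3))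
    (fun i j l h1 h2 => by
      have h3 := (List.prefix_append _ _).trans h2
      have h4 := pre_eq h1 h3 (by simp [hl])
      rw [List.map_append] at h4
      have h5 := List.append_inj_right' h4 rfl
      simp only [List.map_cons, List.map_nil, tau_self, List.cons.injEq, and_true] at h5
      exact hs i h5)
  obtain ⟨X, h1, h2, h3⟩ := finset_of_family _ h
  refine ⟨X, h1.trans hc, fun x hx => ?_, h3⟩
  obtain ⟨i, rfl⟩ := h2 x hx
  refine (norm_le _ _ _).trans ?_
  simp only [List.length_map, List.length_append, hl, List.length_singleton]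
  omega

theorem lower_one : ∃ X : Finset (F r), X.card = r ∧ (∀ x ∈ X, x.norm ≤ 1) ∧
      Injective (lift (fun x : X => (x : F r))) := by
  obtain ⟨X, h1, h2, h3⟩ := finset_of_family (fun i : Fin r => (of i : F r)) (by
    rw [show (lift fun i : Fin r => (of i : F r)) = MonoidHom.id _ from by ext; simp]
    exact injective_id)
  refine ⟨X, by simpa using h1, fun x hx => ?_, h3⟩
  obtain ⟨i, rfl⟩ := h2 x hx
  simp

end Pool.Agent.H14.FreeBall
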