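import Mathlib

set_option autoImplicit false
set_option maxHeartbeats 800000
set_option synthInstance.maxSize 4096

namespace Pool.Agent.H14.GKK

open Matrix Finset ComplexOrder

/-- Index sequences are strictly increasing maps `Fin k → Fin n`; the minor `A[f, g]`. -/
noncomputable def minor {n k : ℕ} (A : Matrix (Fin n) (Fin n) ℂ) (f g : Fin k → Fin n) : ℂ :=
  (A.submatrix f g).det

def PMatrix {n : ℕ} (A : Matrix (Fin n) (Fin n) ℂ) : Prop :=
  ∀ (k : ℕ) (f : Fin k → Fin n), StrictMono f → 0 < minor A f f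

/-- products of opposite almost principal minors are positive -/
def StrictSignSymm {n : ℕ} (A : Matrix (Fin n) (Fin n) ℂ) : Prop :=
  ∀ (k : ℕ) (f g : Fin k → Fin n), StrictMono f → StrictMono g →
    (image f univ ∩ image g univ).card + 1 = k → 0 < minor A f g * minor A g f

/-- products of opposite almost principal minors are nonnegative -/
def WeaklySignSymm {n : ℕ} (A : Matrix (Fin n) (Fin n) ℂ) : Prop :=
  ∀ (k : ℕ) (f g : Fin k → Fin n), StrictMono f → StrictMono g →
    (image f univ ∩ image g univ).card + 1 = k → 0 ≤ minor A f g * minor A g f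

/-- the least real eigenvalue (`⊤` if there is none) -/
noncomputable def ell {k : ℕ} (B : Matrix (Fin k) (Fin k) ℂ) : EReal :=
  sInf ((fun x : ℝ => (x : EReal)) '' {x : ℝ | (x : ℂ) ∈ spectrum ℂ B})

def TauMatrix {n : ℕ} (A : Matrix (Fin n) (Fin n) ℂ) : Prop :=
  (∀ (k m : ℕ) (f : Fin k → Fin n) (g : Fin m → Fin n), StrictMono f → StrictMono g → 0 < m →
    Set.range g ⊆ Set.range f →
    ell (A.submatrix f f) ≤ ell (A.submatrix g g) ∧ ell (A.submatrix g g) < ⊤) ∧ 0 ≤ ell A

def M : Matrix (Fin 5) (Fin 5) ℤ :=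
  !![100000000000, 100000000000, 100000000000, 100000000000, 100000000000;
    1000000000, 1020000000, 999999990, 999999990, 999999990;
    1000000000, 2000000, 1020000000, 999999990, 999999990;
    1000000000, 10000, 2000000, 1020000000, 999999990;
    1000000000, 200, 10000, 2000000, 1020000000]

noncomputable def A : Matrix (Fin 5) (Fin 5) ℂ := M.map (↑)

def tab : List ℤ := [0, 99999999999, 1019999999, 19801941, 1019999999, 19801941, 975278640, 9939416,
  1019999999, 19801941, 1016837722, 9932850, 975278640, 9939416, 958499097, 682300, 1019999999,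
  19801941, 1019552786, 9932818, 1016837722, 9932850, 975219567, 681115, 975278640, 9939416,
  975219567, 681115, 958499097, 682300, 950464175, 13826]

def lo {k : ℕ} (f : Fin k → Fin 5) : ℤ := tab.getD (∑ i, 2 ^ (f i).val) 0

def sh (x : ℤ) : Matrix (Fin 5) (Fin 5) ℤ := of fun i j => if i = j then M i j - x else M i j

def sms : (k : ℕ) → List (Fin k → Fin 5)
  | 0 => [![]]
  | 1 => [![0], ![1], ![2], ![3], ![4]]
  | 2 => [![0, 1], ![0, 2], ![0, 3], ![0, 4], ![1, 2], ![1, 3], ![1, 4], ![2, 3], ![2, 4], ![3, 4]]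
  | 3 => [![0, 1, 2], ![0, 1, 3], ![0, 1, 4], ![0, 2, 3], ![0, 2, 4], ![0, 3, 4], ![1, 2, 3], ![1, 2, 4], ![1, 3, 4], ![2, 3, 4]]
  | 4 => [![0, 1, 2, 3], ![0, 1, 2, 4], ![0, 1, 3, 4], ![0, 2, 3, 4], ![1, 2, 3, 4]]
  | 5 => [![0, 1, 2, 3, 4]]
  | _ + 6 => []

instance (k : ℕ) (f : Fin k → Fin 5) : Decidable (StrictMono f) :=
  decidable_of_iff (∀ a b, a < b → f a < f b) Iff.rfl

theorem le5 {k : ℕ} {f : Fin k → Fin 5} (h : StrictMono f) : k ≤ 5 := by
  simpa using Fintype.card_le_of_injective f h.injective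

theorem mem_sms {k : ℕ} (f : Fin k → Fin 5) (h : StrictMono f) : f ∈ sms k := by
  have := le5 h
  interval_cases k
  · revert f; decide +kernel
  · revert f; decide +kernel
  · revert f; decide +kernel
  · revert f; decide +kernel
  · revert f; decide +kernel
  · have : f = ![0, 1, 2, 3, 4] := by
      have h1 : f = id := funext fun i => le_antisymm h.apply_le h.le_apply
      rw [h1]; decide
    rw [this]; decide

theorem c0 : ∀ k ≤ 5, ∀ f ∈ sms k, 0 < (M.submatrix f f).det ∧ 0 ≤ lo f ∧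
    (0 < k → ((sh (lo f + 1)).submatrix f f).det ≤ 0) := by decide +kernel

theorem c1 : ∀ k ≤ 5, ∀ f ∈ sms k, ∀ m ≤ 5, ∀ g ∈ sms m, (∀ j, ∃ i, f i = g j) →
    0 ≤ ((sh (lo f)).submatrix g g).det ∧
      (0 < m → lo f + 1 ≤ lo g ∨ (m = k ∧ List.ofFn f = List.ofFn g)) := by decide +kernel

theorem c2 : ∀ k ≤ 5, ∀ f ∈ sms k, ∀ g ∈ sms k, (image f univ ∩ image g univ).card + 1 = k →
    0 < (M.submatrix f g).det * (M.submatrix g f).det := by decide +kernel

end Pool.Agent.H14.GKK
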