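import Pool.Agent.H14.GKK

set_option autoImplicit false
set_option maxHeartbeats 800000

namespace Pool.Agent.H14.GKK

open Matrix Finset ComplexOrder Polynomial

lemma spec {k : ℕ} (N : Matrix (Fin k) (Fin k) ℂ) (z : ℂ) :
    z ∈ spectrum ℂ N ↔ (N - z • (1 : Matrix (Fin k) (Fin k) ℂ)).det = 0 := by
  rw [spectrum.mem_iff, isUnit_iff_isUnit_det, isUnit_iff_ne_zero, not_not,
    Algebra.algebraMap_eq_smul_one, ← neg_sub, det_neg]
  simp

lemma pdet {k : ℕ} (B : Matrix (Fin k) (Fin k) ℝ)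
    (h : ∀ s : Finset (Fin k), 0 ≤ (B.submatrix (Subtype.val : s → Fin k) Subtype.val).det)
    (t : ℝ) (ht : 0 < t) : 0 < (B + t • (1 : Matrix (Fin k) (Fin k) ℝ)).det := by
  have e : B + t • (1 : Matrix (Fin k) (Fin k) ℝ) = t • (1 + t⁻¹ • B) := by
    rw [smul_add, smul_smul, mul_inv_cancel₀ ht.ne', one_smul, add_comm]
  rw [e, det_smul]
  refine mul_pos (pow_pos ht _) ?_
  have e2 : (1 + t⁻¹ • B).det = (det (1 + (X : ℝ[X]) • B.map C)).eval t⁻¹ := by
    rw [← coe_evalRingHom, RingHom.map_det]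
    congr 1
    ext i j
    by_cases hij : i = j <;> simp [hij] <;> ring
  rw [e2, eval_eq_sum_range, Finset.sum_range_succ']
  refine add_pos_of_nonneg_of_pos (Finset.sum_nonneg fun i _ => mul_nonneg ?_ (by positivity)) ?_
  · rw [coeff_det_one_add_X_smul_eq_sum_minors]
    exact Finset.sum_nonneg fun s _ => h s
  · rw [coeff_det_one_add_X_smul_eq_sum_minors]
    simp

noncomputable def D {k : ℕ} (f : Fin k → Fin 5) (x : ℝ) : ℝ :=
  ((M.submatrix f f).map (Int.cast : ℤ → ℝ) - x • (1 : Matrix (Fin k) (Fin k) ℝ)).det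

lemma sh_eq {k : ℕ} {f : Fin k → Fin 5} (h : StrictMono f) (y : ℤ) :
    ((sh y).submatrix f f).map (Int.cast : ℤ → ℝ) =
      (M.submatrix f f).map (Int.cast : ℤ → ℝ) - (y : ℝ) • (1 : Matrix (Fin k) (Fin k) ℝ) := by
  ext i j
  by_cases hij : i = j
  · simp [sh, hij]
  · simp [sh, hij, h.injective.ne hij]

lemma D_int {k : ℕ} {f : Fin k → Fin 5} (h : StrictMono f) (y : ℤ) :
    D f y = (((sh y).submatrix f f).det : ℤ) := by
  rw [D, ← sh_eq h, Int.cast_det]

lemma D_spec {k : ℕ} (f : Fin k → Fin 5) (x : ℝ) :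
    (x : ℂ) ∈ spectrum ℂ (A.submatrix f f) ↔ D f x = 0 := by
  rw [spec, ← Complex.ofReal_eq_zero, D]
  refine Eq.congr_left ?_
  refine Eq.trans ?_ (Complex.ofRealHom.map_det _).symm
  congr 1
  ext i j
  by_cases hij : i = j <;> simp [A, hij]

lemma D_pos {k : ℕ} {f : Fin k → Fin 5} (h : StrictMono f) (x : ℝ) (hx : x < lo f) : 0 < D f x := by
  have := pdet (((sh (lo f)).submatrix f f).map (Int.cast : ℤ → ℝ)) (fun s => by
    rw [← det_submatrix_equiv_self (s.orderIsoOfFin rfl).toEquiv]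
    have hg : StrictMono (f ∘ s.orderEmbOfFin rfl) := h.comp (s.orderEmbOfFin rfl).strictMono
    have := (c1 k (le5 h) f (mem_sms f h) _ (le5 hg) _ (mem_sms _ hg) (fun j => ⟨_, rfl⟩)).1
    have h2 : (0 : ℝ) ≤ (((sh (lo f)).submatrix (f ∘ s.orderEmbOfFin rfl)
      (f ∘ s.orderEmbOfFin rfl)).det : ℤ) := by exact_mod_cast this
    rw [Int.cast_det] at h2
    exact h2) (lo f - x) (by linarith)
  rw [sh_eq h, sub_smul, sub_add_sub_cancel] at this
  exact this

lemma D_cont {k : ℕ} (f : Fin k → Fin 5) : Continuous (D f) :=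
  Continuous.matrix_det (by fun_prop)

lemma ell_lo {k : ℕ} {f : Fin k → Fin 5} (h : StrictMono f) :
    ((lo f : ℝ) : EReal) ≤ ell (A.submatrix f f) := by
  refine le_sInf ?_
  rintro _ ⟨x, hx, rfl⟩
  refine EReal.coe_le_coe_iff.mpr (le_of_not_gt fun hl => ?_)
  exact (D_pos h x hl).ne' ((D_spec f x).1 hx)

lemma ell_hi {k : ℕ} {f : Fin k → Fin 5} (h : StrictMono f) (hk : 0 < k) :
    ell (A.submatrix f f) ≤ (((lo f + 1 : ℤ) : ℝ) : EReal) := by
  have h1 := D_pos h (lo f - 1) (by linarith)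
  have h2 : D f ((lo f + 1 : ℤ) : ℝ) ≤ 0 := by
    rw [D_int h]
    exact_mod_cast (c0 k (le5 h) f (mem_sms f h)).2.2 hk
  obtain ⟨x, hx, h0⟩ := intermediate_value_Icc' (a := (lo f : ℝ) - 1) (b := ((lo f + 1 : ℤ) : ℝ))
    (by push_cast; linarith) (D_cont f).continuousOn (show (0 : ℝ) ∈ Set.Icc _ _ from ⟨h2, h1.le⟩)
  exact le_trans (sInf_le ⟨x, (D_spec f x).2 h0, rfl⟩) (EReal.coe_le_coe_iff.mpr hx.2)

lemma sm_id : StrictMono (id : Fin 5 → Fin 5) := strictMono_id

lemma lo_id : lo (id : Fin 5 → Fin 5) = 13826 := by decide +kernel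

theorem tau : TauMatrix A := by
  refine ⟨fun k m f g hf hg hm h => ⟨?_, ?_⟩, ?_⟩
  · have hk : 0 < k := by
      obtain ⟨i, -⟩ := h ⟨⟨0, hm⟩, rfl⟩
      exact i.pos
    rcases (c1 k (le5 hf) f (mem_sms f hf) m (le5 hg) g (mem_sms g hg)
      (fun j => h ⟨j, rfl⟩)).2 hm with h1 | ⟨rfl, h1⟩
    · refine (ell_hi hf hk).trans (le_trans ?_ (ell_lo hg))
      exact EReal.coe_le_coe_iff.mpr (by exact_mod_cast h1)
    · rw [List.ofFn_injective h1]
  · exact (ell_hi hg hm).trans_lt (EReal.coe_lt_top _)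
  · refine le_trans ?_ (ell_lo sm_id)
    exact EReal.coe_nonneg.2 (by rw [show lo (fun i : Fin 5 => i) = 13826 from lo_id]; norm_num)

theorem minor_eq {k : ℕ} (f g : Fin k → Fin 5) :
    minor A f g = ((M.submatrix f g).det : ℤ) := by
  rw [minor, Int.cast_det]; rfl

theorem pmat : PMatrix A := fun k f hf => by
  rw [minor_eq]
  exact_mod_cast (c0 k (le5 hf) f (mem_sms f hf)).1

theorem strict : StrictSignSymm A := fun k f g hf hg h => by
  rw [minor_eq, minor_eq]
  exact_mod_cast c2 k (le5 hf) f (mem_sms f hf) g (mem_sms g hg) h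

def pp (z : ℂ) : ℂ := -z ^ 5 + 104080000000 * z ^ 4 - 14236379800060202000 * z ^ 3 +
  4472573238142523680002040000 * z ^ 2 - 1079397277034790873006416800000200000 * z +
  14923830644480243580000020000000000000000

lemma det_A (z : ℂ) : (A - z • (1 : Matrix (Fin 5) (Fin 5) ℂ)).det = pp z := by
  rw [show A - z • (1 : Matrix (Fin 5) (Fin 5) ℂ) =
    !![100000000000 - z, 100000000000, 100000000000, 100000000000, 100000000000;
    1000000000, 1020000000 - z, 999999990, 999999990, 999999990;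
    1000000000, 2000000, 1020000000 - z, 999999990, 999999990;
    1000000000, 10000, 2000000, 1020000000 - z, 999999990;
    1000000000, 200, 10000, 2000000, 1020000000 - z] by
      ext i j; fin_cases i <;> fin_cases j <;> simp [A, M]]
  simp [det_succ_row_zero, Fin.sum_univ_succ, Fin.succAbove, pp]
  ring

lemma quint (e1 e2 e3 e4 e5 a b c : ℝ) (hab : a < b) (hbc : b < c) (hs : e1 ≤ a + b + c)
    (ha : -a ^ 5 + e1 * a ^ 4 - e2 * a ^ 3 + e3 * a ^ 2 - e4 * a + e5 = 0)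
    (hb : -b ^ 5 + e1 * b ^ 4 - e2 * b ^ 3 + e3 * b ^ 2 - e4 * b + e5 = 0)
    (hc : -c ^ 5 + e1 * c ^ 4 - e2 * c ^ 3 + e3 * c ^ 2 - e4 * c + e5 = 0) :
    ∃ z : ℂ, z.re ≤ 0 ∧ -z ^ 5 + e1 * z ^ 4 - e2 * z ^ 3 + e3 * z ^ 2 - e4 * z + e5 = 0 := by
  set s := e1 - (a + b + c) with hs'
  set t := e2 - (a * b + a * c + b * c) - s * (a + b + c) with ht
  set u := e3 - (a * b * c + s * (a * b + a * c + b * c) + t * (a + b + c)) with hu
  set v := e4 - (s * (a * b * c) + t * (a * b + a * c + b * c)) with hv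
  set w := e5 - t * (a * b * c) with hw
  have q1 : u * a ^ 2 - v * a + w = 0 := by rw [hu, hv, hw, ht, hs']; linear_combination ha
  have q2 : u * b ^ 2 - v * b + w = 0 := by rw [hu, hv, hw, ht, hs']; linear_combination hb
  have q3 : u * c ^ 2 - v * c + w = 0 := by rw [hu, hv, hw, ht, hs']; linear_combination hc
  have r1 : u * (a + b) - v = 0 := mul_left_cancel₀ (sub_ne_zero.2 hab.ne) (by
    linear_combination q1 - q2)
  have r2 : u * (b + c) - v = 0 := mul_left_cancel₀ (sub_ne_zero.2 hbc.ne) (by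
    linear_combination q2 - q3)
  have u0 : u = 0 := mul_left_cancel₀ (sub_ne_zero.2 (hab.trans hbc).ne) (by
    linear_combination r1 - r2)
  have v0 : v = 0 := by linear_combination -r1 + (a + b) * u0
  have w0 : w = 0 := by linear_combination q1 - a ^ 2 * u0 + a * v0
  have key : ∀ z : ℂ, z ^ 2 - s * z + t = 0 →
      -z ^ 5 + e1 * z ^ 4 - e2 * z ^ 3 + e3 * z ^ 2 - e4 * z + e5 = 0 := by
    intro z hz
    have a1 : (e1 : ℂ) = s + (a + b + c) := by rw [hs']; push_cast; ring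
    have a2 : (e2 : ℂ) = t + (a * b + a * c + b * c) + s * (a + b + c) := by
      rw [ht]; push_cast; ring
    have a3 : (e3 : ℂ) = a * b * c + s * (a * b + a * c + b * c) + t * (a + b + c) := by
      exact_mod_cast sub_eq_zero.1 (hu ▸ u0)
    have a4 : (e4 : ℂ) = s * (a * b * c) + t * (a * b + a * c + b * c) := by
      exact_mod_cast sub_eq_zero.1 (hv ▸ v0)
    have a5 : (e5 : ℂ) = t * (a * b * c) := by exact_mod_cast sub_eq_zero.1 (hw ▸ w0)
    rw [a1, a2, a3, a4, a5]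
    linear_combination (-(z - a) * (z - b) * (z - c)) * hz
  obtain ⟨y, hy⟩ := IsAlgClosed.exists_pow_nat_eq ((s : ℂ) ^ 2 - 4 * t) two_pos
  have s0 : s ≤ 0 := by linarith
  rcases le_total y.re 0 with h | h
  · refine ⟨(s + y) / 2, ?_, key _ (by linear_combination hy / 4)⟩
    simp; linarith
  · refine ⟨(s - y) / 2, ?_, key _ (by linear_combination hy / 4)⟩
    simp; linarith

theorem unstable : ∃ z ∈ spectrum ℂ A, z.re ≤ 0 := by
  let P : ℝ → ℝ := fun z => -z ^ 5 + 104080000000 * z ^ 4 - 14236379800060202000 * z ^ 3 +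
    4472573238142523680002040000 * z ^ 2 - 1079397277034790873006416800000200000 * z +
    14923830644480243580000020000000000000000
  have hP : Continuous P := by fun_prop
  obtain ⟨a, ha, ea⟩ := intermediate_value_Icc' (a := 13826) (b := 13827) (by norm_num)
    hP.continuousOn (show (0 : ℝ) ∈ Set.Icc _ _ from ⟨by norm_num [P], by norm_num [P]⟩)
  obtain ⟨b, hb, eb⟩ := intermediate_value_Icc (a := 192957895) (b := 192957896) (by norm_num)
    hP.continuousOn (show (0 : ℝ) ∈ Set.Icc _ _ from ⟨by norm_num [P], by norm_num [P]⟩)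
  obtain ⟨c, hc, ec⟩ := intermediate_value_Icc' (a := 103943450262) (b := 103943450264) (by norm_num)
    hP.continuousOn (show (0 : ℝ) ∈ Set.Icc _ _ from ⟨by norm_num [P], by norm_num [P]⟩)
  obtain ⟨z, h1, h2⟩ := quint _ _ _ _ _ a b c (by linarith [ha.2, hb.1]) (by linarith [hb.2, hc.1])
    (by linarith [ha.1, hb.1, hc.1]) ea eb ec
  refine ⟨z, (spec A z).2 ?_, h1⟩
  rw [det_A, pp]
  exact_mod_cast h2

lemma ell_A : ∃ l : ℝ, 0 < l ∧ ell A = l := by
  have h1 := ell_lo sm_id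
  have h2 := ell_hi sm_id (by norm_num)
  rw [lo_id] at h1 h2
  change _ ≤ ell A at h1
  change ell A ≤ _ at h2
  refine ⟨(ell A).toReal, ?_, (EReal.coe_toReal (ne_top_of_le_ne_top (EReal.coe_ne_top _) h2)
    (ne_bot_of_le_ne_bot (EReal.coe_ne_bot _) h1)).symm⟩
  have := EReal.toReal_le_toReal h1 (EReal.coe_ne_bot _) (ne_top_of_le_ne_top (EReal.coe_ne_top _) h2)
  rw [EReal.toReal_coe] at this
  exact lt_of_lt_of_le (by norm_num) this

end Pool.Agent.H14.GKK
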