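import Mathlib

set_option autoImplicit false

namespace Pool.Agent.H14.GammaGraph

open Finset

variable {V : Type} [DecidableEq V]

/-- Every vertex outside `S` has a neighbour in `S`. -/
def Dominating (G : SimpleGraph V) (S : Finset V) : Prop := ∀ v, v ∉ S → ∃ u ∈ S, G.Adj v u

/-- A dominating set of minimum size. -/
def IsGammaSet (G : SimpleGraph V) (S : Finset V) : Prop :=
  Dominating G S ∧ ∀ T, Dominating G T → S.card ≤ T.card

/-- The gamma-graph: minimum dominating sets, adjacent when one token slides along one edge. -/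
def gammaGraph (G : SimpleGraph V) : SimpleGraph {S : Finset V // IsGammaSet G S} where
  Adj S T := S ≠ T ∧ ∃ a ∈ S.1, ∃ b ∈ T.1, G.Adj a b ∧ T.1 = insert b (S.1.erase a)
  symm := ⟨by
    rintro S T ⟨hne, a, ha, b, hb, hab, he⟩
    refine ⟨hne.symm, b, hb, a, ha, hab.symm, ?_⟩
    have hc : S.1.card = T.1.card := le_antisymm (S.2.2 _ T.2.1) (T.2.2 _ S.2.1)
    have hb' : b ∉ S.1.erase a := by
      intro h
      rw [insert_eq_of_mem h] at he
      have := card_erase_add_one ha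
      rw [← he] at this
      omega
    rw [he, erase_insert hb', insert_erase ha]⟩
  loopless := ⟨fun _ h => h.1 rfl⟩

def mk (E : List (Fin 12 × Fin 12)) : SimpleGraph (Fin 12) :=
  SimpleGraph.fromRel fun a b => (a, b) ∈ E

instance (E : List (Fin 12 × Fin 12)) : DecidableRel (mk E).Adj := fun a b =>
  decidable_of_iff (a ≠ b ∧ ((a, b) ∈ E ∨ (b, a) ∈ E))
    (SimpleGraph.fromRel_adj (fun a b => (a, b) ∈ E) a b).symm

instance (E : List (Fin 12 × Fin 12)) (S : Finset (Fin 12)) : Decidable (Dominating (mk E) S) :=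
  inferInstanceAs (Decidable (∀ v, v ∉ S → ∃ u ∈ S, (mk E).Adj v u))

lemma iso_of (E F : List (Fin 12 × Fin 12)) (f : Fin 12 → Finset (Fin 12))
    (h1 : ∀ i, (f i).card = 3) (h2 : ∀ i, Dominating (mk E) (f i))
    (h3 : ∀ a b c : Fin 12, Dominating (mk E) {a, b, c} → ∃ i, f i = {a, b, c})
    (h4 : ∀ i j, f i = f j → i = j)
    (h5 : ∀ i j, (f i ≠ f j ∧ ∃ a ∈ f i, ∃ b ∈ f j, (mk E).Adj a b ∧
      f j = insert b ((f i).erase a)) ↔ (mk F).Adj i j) :
    Nonempty (gammaGraph (mk E) ≃g mk F) := by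
  have key : ∀ T, Dominating (mk E) T → T.card ≤ 3 → ∃ i, f i = T := by
    intro T hT hc
    have hne : T.Nonempty := by
      by_contra h
      rw [not_nonempty_iff_eq_empty] at h
      obtain ⟨u, hu, -⟩ := hT 0 (by simp [h])
      simp [h] at hu
    have hpos := hne.card_pos
    have : ∃ a b c, T = {a, b, c} := by
      have : T.card = 1 ∨ T.card = 2 ∨ T.card = 3 := by omega
      rcases this with h | h | h
      · obtain ⟨a, rfl⟩ := card_eq_one.1 h
        exact ⟨a, a, a, by simp⟩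
      · obtain ⟨a, b, -, rfl⟩ := card_eq_two.1 h
        exact ⟨a, b, b, by simp⟩
      · obtain ⟨a, b, c, -, -, -, rfl⟩ := card_eq_three.1 h
        exact ⟨a, b, c, rfl⟩
    obtain ⟨a, b, c, rfl⟩ := this
    exact h3 a b c hT
  have hg : ∀ i, IsGammaSet (mk E) (f i) := by
    intro i
    refine ⟨h2 i, fun T hT => ?_⟩
    rw [h1]
    by_contra h
    obtain ⟨j, rfl⟩ := key T hT (by omega)
    exact h (h1 j).ge
  let g : Fin 12 → {S // IsGammaSet (mk E) S} := fun i => ⟨f i, hg i⟩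
  have hb : Function.Bijective g := by
    constructor
    · exact fun i j h => h4 i j (congrArg Subtype.val h)
    · rintro ⟨S, hS⟩
      obtain ⟨i, hi⟩ := key S hS.1 ((hS.2 _ (h2 0)).trans (h1 0).le)
      exact ⟨i, Subtype.ext hi⟩
  refine ⟨SimpleGraph.Iso.symm ⟨Equiv.ofBijective g hb, ?_⟩⟩
  intro i j
  rw [← h5]
  exact and_congr_left' (by simp [g])

/-- A ring of five cliques of orders 4, 4, 3, 3, 3. -/
def E1 : List (Fin 12 × Fin 12) :=
  [(0, 1), (0, 4), (0, 5), (0, 6), (0, 11), (1, 2), (1, 5), (1, 6), (1, 7), (1, 8), (2, 3), (2, 7),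
   (2, 8), (2, 9), (3, 4), (3, 9), (3, 10), (4, 10), (4, 11), (5, 6), (7, 8)]

/-- A ring of five cliques of orders 4, 3, 4, 3, 3. -/
def E2 : List (Fin 12 × Fin 12) :=
  [(0, 1), (0, 4), (0, 5), (0, 6), (0, 11), (1, 2), (1, 5), (1, 6), (1, 7), (2, 3), (2, 7), (2, 8),
   (2, 9), (3, 4), (3, 8), (3, 9), (3, 10), (4, 10), (4, 11), (5, 6), (8, 9)]

def f1 : Fin 12 → Finset (Fin 12) :=
  ![{0, 1, 3}, {0, 2, 3}, {0, 2, 4}, {1, 2, 4}, {1, 3, 4}, {0, 3, 7}, {0, 3, 8}, {0, 2, 10},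
    {2, 4, 5}, {2, 4, 6}, {1, 4, 9}, {1, 3, 11}]

def f2 : Fin 12 → Finset (Fin 12) :=
  ![{0, 2, 4}, {1, 2, 4}, {1, 3, 4}, {0, 1, 3}, {0, 2, 3}, {2, 4, 5}, {2, 4, 6}, {1, 4, 8},
    {1, 4, 9}, {1, 3, 11}, {0, 3, 7}, {0, 2, 10}]

lemma iso1 : Nonempty (gammaGraph (mk E1) ≃g mk E2) :=
  iso_of E1 E2 f1 (by decide +kernel) (by decide +kernel) (by decide +kernel) (by decide +kernel)
    (by decide +kernel)

lemma iso2 : Nonempty (gammaGraph (mk E2) ≃g mk E1) :=
  iso_of E2 E1 f2 (by decide +kernel) (by decide +kernel) (by decide +kernel) (by decide +kernel)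
    (by decide +kernel)

lemma not_iso : ¬ Nonempty (mk E1 ≃g mk E2) := by
  rintro ⟨e⟩
  have h1 : (mk E1).degree 1 = 6 := by decide +kernel
  have h2 : ∀ v, (mk E2).degree v ≠ 6 := by decide +kernel
  exact h2 (e 1) (by rw [e.degree_eq, h1])

end Pool.Agent.H14.GammaGraph
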