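import Mathlib

set_option autoImplicit false

namespace Pool.Agent.H14.Girth

open List

def tm (n : ℕ) : Bool := if h : n = 0 then false else xor (n % 2 = 1) (tm (n / 2))
  decreasing_by omega

lemma tm_eq (n : ℕ) : tm n = xor (n % 2 = 1) (tm (n / 2)) := by
  rw [tm]
  split_ifs with h
  · subst h; simp [tm]
  · rfl

lemma overlap (p : ℕ) : 0 < p → ∀ a, ¬ ∀ i ≤ p, tm (a + i) = tm (a + p + i) := by
  induction p using Nat.strong_induction_on with
  | _ p ih =>
    intro hp a h
    obtain ⟨q, rfl | rfl⟩ := Nat.even_or_odd' p
    · refine ih q (by omega) (by omega) (a / 2) fun i hi => ?_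
      have := h (2 * i) (by omega)
      rw [tm_eq, tm_eq (a + 2 * q + 2 * i), show (a + 2 * i) / 2 = a / 2 + i by omega,
        show (a + 2 * q + 2 * i) / 2 = a / 2 + q + i by omega,
        show (a + 2 * q + 2 * i) % 2 = (a + 2 * i) % 2 by omega] at this
      simpa using this
    · have ev : ∀ n, n % 2 = 0 → tm (n + 1) = !tm n := by
        intro n hn
        rw [tm_eq, tm_eq n, show (n + 1) / 2 = n / 2 by omega, show (n + 1) % 2 = 1 by omega, hn]
        simp
      have st : ∀ i < 2 * q + 1, tm (a + (i + 1)) = !tm (a + i) := by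
        intro i hi
        rcases Nat.mod_two_eq_zero_or_one (a + i) with e | e
        · exact ev _ e
        · rw [h i hi.le, h (i + 1) hi]
          exact ev (a + (2 * q + 1) + i) (by omega)
      have st2 : ∀ j ≤ q, tm (a + 2 * j) = tm a := by
        intro j
        induction j with
        | zero => simp
        | succ j ihj =>
          intro hj
          rw [show 2 * (j + 1) = 2 * j + 1 + 1 by ring, st _ (by omega), st _ (by omega),
            ihj (by omega)]
          simp
      have := h 0 (by omega)
      rw [add_zero, add_zero, st _ (by omega), st2 q le_rfl] at this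
      simp at this

abbrev A := Option (Bool × Bool)

def ltr : ℕ → A
  | 0 => none
  | n + 1 => some (tm n, tm (n + 1))

def Wd (m : ℕ) : List A := (range m).map ltr

lemma ltr_none {n : ℕ} (h : ltr n = none) : n = 0 := by cases n <;> simp_all [ltr]

lemma get_of {m : ℕ} {a x b : List A} (h : a ++ x ++ b = Wd m) (i : ℕ) (hi : i < x.length) :
    x[i] = ltr (a.length + i) := by
  have h1 : (a ++ x ++ b)[a.length + i]? = some x[i] := by
    rw [append_assoc, getElem?_append_right (by omega), getElem?_append_left (by omega)]
    simp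
  rw [h, Wd, getElem?_map] at h1
  simp only [Option.map_eq_some_iff] at h1
  obtain ⟨k, hk, e⟩ := h1
  rw [getElem?_eq_some_iff] at hk
  obtain ⟨_, hk⟩ := hk
  rw [← e, ← hk, getElem_range]

lemma hsq {m : ℕ} {s : List A} (hs : s ≠ []) : ¬ s ++ s <:+: Wd m := by
  rintro ⟨a, b, h⟩
  have hl := length_pos_iff.2 hs
  have k : ∀ i < s.length, ltr (a.length + i) = ltr (a.length + (s.length + i)) := by
    intro i hi
    rw [← get_of h i (by simp; omega), ← get_of h (s.length + i) (by simp; omega)]
    simp [hi]
  obtain h0 | ⟨c, hc⟩ : a.length = 0 ∨ ∃ c, a.length = c + 1 := by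
    cases a.length <;> simp
  · have := k 0 hl
    rw [h0] at this
    have := ltr_none this.symm
    omega
  refine overlap _ hl c fun i hi => ?_
  rcases hi.lt_or_eq with hi | hi
  · have := k i hi
    rw [hc, add_right_comm, add_right_comm c 1] at this
    simp only [ltr, Option.some.injEq, Prod.mk.injEq] at this
    rw [this.1, add_assoc]
  · have := k (i - 1) (by omega)
    rw [hc, add_right_comm, add_right_comm c 1] at this
    simp only [ltr, Option.some.injEq, Prod.mk.injEq] at this
    have h2 := this.2
    rwa [show c + (i - 1) + 1 = c + i by omega,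
      show c + (s.length + (i - 1)) + 1 = c + s.length + i by omega] at h2

lemma hz {m : ℕ} {w : List A} (x : List A) (hw : w ≠ []) : ¬ w ++ none :: x <:+: Wd m := by
  rintro ⟨a, b, h⟩
  have := get_of h w.length (by simp)
  simp only [le_refl, getElem_append_right, tsub_self, getElem_cons_zero] at this
  have := ltr_none this.symm
  have := length_pos_iff.2 hw
  omega

lemma hp {m : ℕ} {x : List A} (h : none :: x <:+: Wd m) : none :: x <+: Wd m := by
  obtain ⟨a, b, h⟩ := h
  by_cases ha : a = []
  · exact ⟨b, by simpa [ha] using h⟩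
  · exact absurd ⟨[], b, by simpa using h⟩ (hz (m := m) x ha)

variable {α : Type} (W : List α)

open Classical in
noncomputable def pi (x : List α) : List α :=
  if x <:+: W then x else x.take (sInf {n | ¬ x.take n <:+: W})

variable {W} {x y : List α}

lemma pi_of (h : x <:+: W) : pi W x = x := if_pos h

lemma pi_prefix : pi W x <+: x := by
  unfold pi; split_ifs
  exacts [prefix_rfl, take_prefix _ _]

lemma pi_not (h : ¬ x <:+: W) : ¬ pi W x <:+: W := by
  rw [pi, if_neg h]
  exact Nat.sInf_mem (s := {n | ¬ x.take n <:+: W}) ⟨x.length, by simpa using h⟩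

lemma pi_min (hy : y <+: x) (h : ¬ y <:+: W) : pi W x <+: y := by
  refine prefix_of_prefix_length_le pi_prefix hy ?_
  rw [pi, if_neg fun hx => h (hy.isInfix.trans hx), length_take]
  exact (min_le_left _ _).trans (Nat.sInf_le (by simpa [← prefix_iff_eq_take.1 hy] using h))

lemma pi_long (h : ¬ x <:+: W) (hy : y <+: x) (hy' : y <:+: W) : y.length < (pi W x).length := by
  by_contra hc
  exact pi_not h ((prefix_of_prefix_length_le pi_prefix hy (by omega)).isInfix.trans hy')

lemma pi_append (h : ¬ x <:+: W) (y : List α) : pi W (x ++ y) = pi W x := by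
  have h1 : pi W (x ++ y) <+: pi W x := pi_min (pi_prefix.trans (prefix_append _ _)) (pi_not h)
  have h2 : pi W x <+: pi W (x ++ y) := pi_min (h1.trans pi_prefix)
    (pi_not fun hx => h ((prefix_append _ _).isInfix.trans hx))
  exact h1.eq_of_length (le_antisymm h1.length_le h2.length_le)

lemma pi_pi (w : List α) : pi W (w ++ pi W x) = pi W (w ++ x) := by
  by_cases h : x <:+: W
  · rw [pi_of h]
  obtain ⟨y, hy⟩ := pi_prefix (W := W) (x := x)
  conv_rhs => rw [← hy, ← append_assoc]
  exact (pi_append (fun hx => pi_not h ((suffix_append _ _).isInfix.trans hx)) _).symm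

lemma pi_len : (pi W x).length ≤ W.length + 1 := by
  by_cases h : x <:+: W
  · rw [pi_of h]; exact h.length_le.trans (Nat.le_succ _)
  refine (pi_min (take_prefix (W.length + 1) x) fun h' => ?_).length_le.trans (by simp)
  rcases le_or_gt x.length (W.length + 1) with hl | hl
  · exact h (by rwa [take_of_length_le hl] at h')
  · have := h'.length_le
    rw [length_take] at this
    omega

lemma pi_ne {s v : List α} (hs : s ≠ []) (hv : v <:+: W) : pi W (s ++ v) ≠ v := by
  intro e
  by_cases h : s ++ v <:+: W
  · rw [pi_of h] at e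
    exact hs (by simpa using e)
  · exact pi_not h (by rw [e]; exact hv)

lemma comm_eq {s t : List α} (hsq : ∀ s : List α, s ≠ [] → ¬ s ++ s <:+: W) (hs : s <:+: W)
    (ht : t <:+: W) (hs0 : s ≠ []) (ht0 : t ≠ []) (h1 : pi W (s ++ t) = pi W (t ++ s))
    (h2 : pi W.reverse (s ++ t).reverse = pi W.reverse (t ++ s).reverse) : s = t := by
  wlog hl : s.length ≤ t.length generalizing s t
  · exact (this ht hs ht0 hs0 h1.symm h2.symm (by omega)).symm
  have e : s ++ t = t ++ s := by
    by_cases a : s ++ t <:+: W
    · rw [pi_of a] at h1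
      exact (h1 ▸ pi_prefix : s ++ t <+: t ++ s).eq_of_length (by simp [add_comm])
    by_cases b : t ++ s <:+: W
    · rw [pi_of b] at h1
      exact ((h1 ▸ pi_prefix : t ++ s <+: s ++ t).eq_of_length (by simp [add_comm])).symm
    have p1 : t <+: s ++ t := (prefix_of_prefix_length_le (prefix_append t s) pi_prefix
      (pi_long b (prefix_append t s) ht).le).trans (h1 ▸ pi_prefix)
    have p2 : s.reverse <+: (s ++ t).reverse := by
      have q : s.reverse <+: (t ++ s).reverse := by simp
      exact (prefix_of_prefix_length_le q pi_prefix (pi_long (mt reverse_infix.1 b) q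
        (reverse_infix.2 hs)).le).trans (h2 ▸ pi_prefix)
    obtain ⟨u, hu⟩ := p1
    obtain ⟨v, hv⟩ := reverse_prefix.1 p2
    have := congrArg length hu
    have := congrArg length hv
    simp only [length_append] at *
    rw [← hu, (append_inj (hu.trans hv.symm) (by omega)).2]
  obtain ⟨t', rfl⟩ := prefix_of_prefix_length_le (prefix_append s t) (e ▸ prefix_append t s) hl
  rw [append_assoc, append_right_inj] at e
  by_cases h0 : t' = []
  · simp [h0]
  rcases le_total s.length t'.length with h | h
  · obtain ⟨u, rfl⟩ := prefix_of_prefix_length_le (prefix_append s t') (e ▸ prefix_append t' s) h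
    exact absurd (IsInfix.trans ⟨[], u, by simp⟩ ht) (hsq s hs0)
  · obtain ⟨u, rfl⟩ := prefix_of_prefix_length_le (prefix_append t' s) (e ▸ prefix_append s t') h
    rw [e] at ht
    exact absurd (IsInfix.trans ⟨[], u, by simp⟩ ht) (hsq t' h0)

end Pool.Agent.H14.Girth
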