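import Mathlib
import Pool.Agent.H14.GirthA
import Pool.Agent.H14.CommDiam

set_option autoImplicit false

namespace Pool.Agent.H14.Girth

open List

abbrev I := (List A × Fin 3) ⊕ List A

@[ext] structure M : Type where
  l : I → I
  r : List A → List A

instance : Semigroup M where
  mul a b := ⟨a.l ∘ b.l, b.r ∘ a.r⟩
  mul_assoc _ _ _ := rfl

lemma mul_l (a b : M) (i : I) : (a * b).l i = a.l (b.l i) := rfl
lemma mul_r (a b : M) (i : List A) : (a * b).r i = b.r (a.r i) := rfl

variable (m : ℕ)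

def cc (e : Fin 3) (n : ℕ) : ℕ :=
  if e = 2 then n else if e = 1 then 2 * ((n - 1) / 2) + 1 else if n = m then 1 else 2 * (n / 2) + 1

def rp (x : List A) (e : Fin 3) : List A :=
  if x.head? = some none then (Wd m).take (cc m e x.length) else x

def vtx (x : List A) (e : Fin 3) : I := .inl (rp m x e, e)

open Classical in
noncomputable def tw (w : List A) : M where
  l i := match i with
    | .inl (x, e) => if w ++ x <:+: Wd m then vtx m (w ++ x) e else .inr (pi (Wd m) (w ++ x))
    | .inr p => .inr (pi (Wd m) (w ++ p))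
  r p := pi (Wd m).reverse (w.reverse ++ p)

open Classical in
noncomputable def sg (v : List A) : I → Fin 3
  | .inl (x, e) => if v = [] ∨ v ++ x <:+: Wd m then e else 2
  | .inr _ => 2

noncomputable def J (u v : List A) : M := ⟨fun i => vtx m u (sg m v i), fun _ => v.reverse⟩

def K (i : I) (p : List A) : M := ⟨fun _ => i, fun _ => p⟩

variable {m}

lemma len_W : (Wd m).length = m := by simp [Wd]

lemma take_W {k : ℕ} (hm : 0 < m) (hk : 0 < k) : ∃ y, (Wd m).take k = none :: y := by
  obtain ⟨m, rfl⟩ : ∃ j, m = j + 1 := ⟨m - 1, by omega⟩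
  obtain ⟨k, rfl⟩ : ∃ j, k = j + 1 := ⟨k - 1, by omega⟩
  simp [Wd, range_succ_eq_map, ltr]

lemma cc_pos (e : Fin 3) {n : ℕ} (hn : 0 < n) : 0 < cc m e n := by
  unfold cc; split_ifs <;> omega

lemma rp_cases {x : List A} (hx : x <:+: Wd m) (e : Fin 3) :
    (rp m x e = x ∧ x.head? ≠ some none) ∨ (∃ y z, x = none :: y ∧ rp m x e = none :: z ∧
      x = (Wd m).take x.length ∧ rp m x e = (Wd m).take (cc m e x.length) ∧ x.length ≤ m) := by
  by_cases h : x.head? = some none
  · obtain ⟨y, rfl⟩ := head?_eq_some_iff.1 h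
    have hl := hx.length_le
    rw [len_W] at hl
    obtain ⟨z, hz⟩ := take_W (m := m) (by simp at hl; omega) (cc_pos (m := m) e (n := (none :: y).length) (by simp))
    exact Or.inr ⟨y, z, rfl, by rw [rp, if_pos h, hz], prefix_iff_eq_take.1 (hp hx), if_pos h, hl⟩
  · exact Or.inl ⟨if_neg h, h⟩

lemma rp_two {x : List A} (hx : x <:+: Wd m) : rp m x 2 = x := by
  rcases rp_cases hx 2 with h | ⟨y, z, -, -, h1, h2, -⟩
  · exact h.1
  · rw [h2, cc, if_pos rfl, ← h1]

lemma rp_inf {x : List A} (hx : x <:+: Wd m) (e : Fin 3) : rp m x e <:+: Wd m := by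
  rcases rp_cases hx e with h | ⟨y, z, -, -, h1, h2, -⟩
  · rwa [h.1]
  · rw [h2]; exact (take_prefix _ _).isInfix

lemma key {w x : List A} (hw : w ≠ []) (hx : x <:+: Wd m) (e : Fin 3) :
    rp m x e = x ∨ (¬ w ++ x <:+: Wd m ∧ ¬ w ++ rp m x e <:+: Wd m ∧
      pi (Wd m) (w ++ rp m x e) = pi (Wd m) (w ++ x)) := by
  rcases rp_cases hx e with h | ⟨y, z, rfl, h, -⟩
  · exact Or.inl h.1
  · refine Or.inr ⟨hz _ hw, h ▸ hz _ hw, ?_⟩
    rw [h, append_cons, append_cons w none y, pi_append (hz [] hw), pi_append (hz [] hw)]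

lemma tw_vtx {w x : List A} (hw : w ≠ []) (hx : x <:+: Wd m) (e : Fin 3) :
    (tw m w).l (vtx m x e) = (tw m w).l (.inl (x, e)) := by
  rcases key hw hx e with h | ⟨h1, h2, h3⟩
  · rw [vtx, h]
  · simp only [vtx, tw, if_neg h1, if_neg h2, h3]

lemma sg_vtx (v : List A) {x : List A} (hx : x <:+: Wd m) (e : Fin 3) :
    sg m v (vtx m x e) = sg m v (.inl (x, e)) := by
  by_cases hv : v = []
  · simp [vtx, sg, hv]
  rcases key hv hx e with h | ⟨h1, h2, h3⟩
  · rw [vtx, h]
  · simp [vtx, sg, hv, h1, h2]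

lemma suf {w x : List A} (h : w ++ x <:+: Wd m) : x <:+: Wd m := (suffix_append _ _).isInfix.trans h
lemma pre {w x : List A} (h : w ++ x <:+: Wd m) : w <:+: Wd m := (prefix_append _ _).isInfix.trans h

lemma tw_mul {w : List A} (hw : w ≠ []) (v : List A) : tw m w * tw m v = tw m (w ++ v) := by
  ext1
  · funext i
    rw [mul_l]
    rcases i with ⟨x, e⟩ | p
    · by_cases h : v ++ x <:+: Wd m
      · have : (tw m v).l (.inl (x, e)) = vtx m (v ++ x) e := if_pos h
        rw [this, tw_vtx hw h]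
        simp only [tw, append_assoc]
      · have : (tw m v).l (.inl (x, e)) = .inr (pi (Wd m) (v ++ x)) := if_neg h
        rw [this]
        simp only [tw, append_assoc, pi_pi, if_neg (mt suf h)]
    · simp only [tw, append_assoc, pi_pi]
  · funext p
    simp only [mul_r, tw, pi_pi, reverse_append, append_assoc]

lemma tw_K {w : List A} (h : ¬ w <:+: Wd m) :
    tw m w = K (.inr (pi (Wd m) w)) (pi (Wd m).reverse w.reverse) := by
  ext1
  · funext i
    rcases i with ⟨x, e⟩ | p
    · simp only [tw, K, if_neg (mt pre h), pi_append h]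
    · simp only [tw, K, pi_append h]
  · funext p
    simp only [tw, K, pi_append (mt reverse_infix.1 h)]

/-- The three normal forms. -/
def Ty (m : ℕ) (s : M) : Prop := (∃ w, w ≠ [] ∧ w <:+: Wd m ∧ s = tw m w) ∨
  (∃ u v, u <:+: Wd m ∧ v <:+: Wd m ∧ s = J m u v) ∨ ∃ i p, s = K i p

lemma ty_mul {a b : M} (ha : Ty m a) (hb : Ty m b) : Ty m (a * b) := by
  rcases hb with ⟨w', h0', h', rfl⟩ | ⟨u', v', hu', hv', rfl⟩ | ⟨i, p, rfl⟩
  · rcases ha with ⟨w, h0, h, rfl⟩ | ⟨u, v, hu, hv, rfl⟩ | ⟨i, p, rfl⟩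
    · rw [tw_mul h0]
      by_cases hw : w ++ w' <:+: Wd m
      · exact Or.inl ⟨_, by simp [h0], hw, rfl⟩
      · exact Or.inr (Or.inr ⟨_, _, tw_K hw⟩)
    · have hs : ∀ i, sg m v ((tw m w').l i) = sg m (v ++ w') i := by
        rintro (⟨x, e⟩ | p)
        · by_cases h : w' ++ x <:+: Wd m
          · have : (tw m w').l (.inl (x, e)) = vtx m (w' ++ x) e := if_pos h
            rw [this, sg_vtx _ h]
            by_cases hv : v = [] <;> simp [sg, hv, h, h0']
          · have : (tw m w').l (.inl (x, e)) = .inr (pi (Wd m) (w' ++ x)) := if_neg h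
            rw [this]
            simp [sg, h0', mt suf h]
        · rfl
      by_cases hw : v ++ w' <:+: Wd m
      · refine Or.inr (Or.inl ⟨u, _, hu, hw, M.ext (funext fun i => congrArg (vtx m u) (hs i))
          (funext fun p => ?_)⟩)
        simp only [mul_r, J, tw, ← reverse_append]
        exact pi_of (reverse_infix.2 hw)
      · refine Or.inr (Or.inr ⟨vtx m u 2, (tw m w').r v.reverse, M.ext (funext fun i => ?_) rfl⟩)
        simp only [mul_l, J, hs, K]
        rcases i with ⟨x, e⟩ | p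
        · have : ¬ v ++ (w' ++ x) <:+: Wd m := by rw [← append_assoc]; exact mt pre hw
          simp [sg, h0', this]
        · rfl
    · exact Or.inr (Or.inr ⟨i, (tw m w').r p, rfl⟩)
  · rcases ha with ⟨w, h0, h, rfl⟩ | ⟨u, v, hu, hv, rfl⟩ | ⟨i, p, rfl⟩
    · by_cases hw : w ++ u' <:+: Wd m
      · refine Or.inr (Or.inl ⟨_, v', hw, hv', M.ext (funext fun i => ?_) rfl⟩)
        simp only [mul_l, J, tw_vtx h0 hu']
        exact if_pos hw
      · refine Or.inr (Or.inr ⟨.inr (pi (Wd m) (w ++ u')), _, M.ext (funext fun i => ?_) rfl⟩)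
        simp only [mul_l, J, tw_vtx h0 hu']
        exact if_neg hw
    · by_cases hw : v = [] ∨ v ++ u' <:+: Wd m
      · refine Or.inr (Or.inl ⟨u, v', hu, hv', M.ext (funext fun i => ?_) rfl⟩)
        simp only [mul_l, J, sg_vtx _ hu']
        exact congrArg _ (if_pos hw)
      · refine Or.inr (Or.inr ⟨vtx m u 2, _, M.ext (funext fun i => ?_) rfl⟩)
        simp only [mul_l, J, sg_vtx _ hu']
        exact congrArg _ (if_neg hw)
    · exact Or.inr (Or.inr ⟨_, _, rfl⟩)
  · exact Or.inr (Or.inr ⟨a.l i, p, rfl⟩)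

variable (m) in
noncomputable def gens : Finset M := by
  classical exact (Finset.univ.image fun a : A => tw m [a]) ∪ {J m [] [], K (vtx m [] 0) [], K (vtx m [] 1) []}

variable (m) in
def S : Subsemigroup M := Subsemigroup.closure (gens m : Set M)

def wd : I → List A
  | .inl (x, _) => x
  | .inr p => p

lemma ty_S {s : M} (hs : s ∈ S m) : Ty m s ∧ (∀ i, (wd (s.l i)).length ≤ m + 1) ∧
    ∀ p, (s.r p).length ≤ m + 1 := by
  induction hs using Subsemigroup.closure_induction with
  | mul a b _ _ ha hb => exact ⟨ty_mul ha.1 hb.1, fun i => ha.2.1 _, fun p => hb.2.2 _⟩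
  | mem s hs =>
    simp only [gens, Finset.coe_union, Finset.coe_image, Finset.coe_univ, Set.image_univ,
      Finset.coe_insert, Finset.coe_singleton, Set.mem_union, Set.mem_range, Set.mem_insert_iff,
      Set.mem_singleton_iff] at hs
    rcases hs with ⟨a, rfl⟩ | rfl | rfl | rfl
    · refine ⟨?_, ?_, fun p => pi_len.trans (by simp [len_W])⟩
      · by_cases h : [a] <:+: Wd m
        · exact Or.inl ⟨_, by simp, h, rfl⟩
        · exact Or.inr (Or.inr ⟨_, _, tw_K h⟩)
      · rintro (⟨x, e⟩ | p)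
        · simp only [tw]
          split_ifs with h
          · exact (rp_inf h e).length_le.trans (by simp [len_W])
          · exact pi_len.trans (by simp [len_W])
        · exact pi_len.trans (by simp [len_W])
    · exact ⟨Or.inr (Or.inl ⟨_, _, nil_infix, nil_infix, rfl⟩), by simp [J, vtx, rp, wd], by simp [J]⟩
    · exact ⟨Or.inr (Or.inr ⟨_, _, rfl⟩), by simp [K, vtx, rp, wd], by simp [K]⟩
    · exact ⟨Or.inr (Or.inr ⟨_, _, rfl⟩), by simp [K, vtx, rp, wd], by simp [K]⟩

instance : Finite (S m) := by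
  have hL : {l : List A | l.length ≤ m + 1}.Finite := finite_length_le _ _
  have hI : {i : I | (wd i).length ≤ m + 1}.Finite := by
    refine (((hL.prod Set.finite_univ).image Sum.inl).union (hL.image Sum.inr)).subset ?_
    rintro (⟨x, e⟩ | p) h
    exacts [Or.inl ⟨(x, e), ⟨h, trivial⟩, rfl⟩, Or.inr ⟨_, h, rfl⟩]
  have hi : ∀ {x : List A}, x <:+: Wd m → x.length ≤ m + 1 := fun h =>
    h.length_le.trans (by simp [len_W])
  refine ((hL.image (tw m)).union (((hL.prod hL).image fun q => J m q.1 q.2).union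
    ((hI.prod hL).image fun q => K q.1 q.2))).subset fun s hs => ?_
  obtain ⟨⟨w, -, h, rfl⟩ | ⟨u, v, hu, hv, rfl⟩ | ⟨i, p, rfl⟩, h1, h2⟩ := ty_S hs
  exacts [Or.inl ⟨w, hi h, rfl⟩, Or.inr (Or.inl ⟨(u, v), ⟨hi hu, hi hv⟩, rfl⟩),
    Or.inr (Or.inr ⟨(i, p), ⟨h1 i, h2 p⟩, rfl⟩)]

lemma rank : CommDiam.RankLE (S m) 8 := by
  classical
  refine ⟨(gens m).preimage Subtype.val Subtype.val_injective.injOn, ?_, ?_⟩
  · refine (Finset.card_le_card_of_injOn Subtype.val (fun x hx => Finset.mem_preimage.1 hx)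
      Subtype.val_injective.injOn).trans ((Finset.card_union_le _ _).trans ?_)
    exact add_le_add (Finset.card_image_le.trans (by simp)) Finset.card_le_three
  · rw [Finset.coe_preimage]
    exact Subsemigroup.closure_closure_coe_preimage

lemma tw_mem {w : List A} (hw : w ≠ []) : tw m w ∈ S m := by
  induction w with
  | nil => exact absurd rfl hw
  | cons a w ih =>
    have h : tw m [a] ∈ S m := Subsemigroup.subset_closure (by simp [gens])
    by_cases h0 : w = []
    · rwa [h0]
    · have := (S m).mul_mem h (ih h0)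
      rwa [tw_mul (by simp)] at this

lemma J_mem {w : List A} (hw : w ≠ []) (h : w <:+: Wd m) : J m w [] ∈ S m := by
  have := (S m).mul_mem (tw_mem hw) (Subsemigroup.subset_closure (by simp [gens]) : J m [] [] ∈ S m)
  have e : tw m w * J m [] [] = J m w [] := M.ext (funext fun i => by
    simp only [mul_l, J, tw_vtx hw nil_infix]
    simp [tw, h]) rfl
  rwa [e] at this

lemma K_mem {w : List A} (hw : w ≠ []) (h : w <:+: Wd m) {e : Fin 3} (he : e ≠ 2) :
    K (vtx m w e) [] ∈ S m := by
  have := (S m).mul_mem (tw_mem hw) (Subsemigroup.subset_closure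
    (by fin_cases e <;> simp_all [gens]) : K (vtx m [] e) [] ∈ S m)
  have e : tw m w * K (vtx m [] e) [] = K (vtx m w e) [] := M.ext (funext fun i => by
    simp only [mul_l, K, tw_vtx hw nil_infix]
    simp [tw, h]) rfl
  rwa [e] at this

end Pool.Agent.H14.Girth
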