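import Mathlib
import Pool.Agent.H14.GirthB

set_option autoImplicit false

namespace Pool.Agent.H14.Girth

open List CommDiam

variable {m : ℕ}

lemma cK (a : M) (i : I) (p : List A) : a * K i p = K i p * a ↔ a.l i = i ∧ a.r p = p :=
  ⟨fun h => ⟨congrFun (congrArg M.l h) i, (congrFun (congrArg M.r h) p).symm⟩,
    fun h => M.ext (funext fun _ => h.1) (funext fun _ => h.2.symm)⟩

lemma cTJ {w u v : List A} (hw : w ≠ []) (hv : v <:+: Wd m) :
    tw m w * J m u v ≠ J m u v * tw m w := fun h =>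
  pi_ne (by simpa using hw) (reverse_infix.2 hv) (congrFun (congrArg M.r h) []).symm

lemma nbT {w : List A} (hw : w ≠ []) (h : w <:+: Wd m) {b : M} (hb : Ty m b)
    (hc : tw m w * b = b * tw m w) : b = tw m w ∨ b = tw m (w ++ w) := by
  rcases hb with ⟨w', h0', h', rfl⟩ | ⟨u', v', hu', hv', rfl⟩ | ⟨i, p, rfl⟩
  · rw [tw_mul hw, tw_mul h0'] at hc
    have h1 := congrFun (congrArg M.l hc) (.inr [])
    have h2 := congrFun (congrArg M.r hc) []
    simp only [tw, append_nil, Sum.inr.injEq] at h1 h2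
    exact Or.inl (by rw [comm_eq (fun _ => hsq) h h' hw h0' h1 h2])
  · exact absurd hc (cTJ hw hv')
  · obtain ⟨h1, h2⟩ := (cK _ _ _).1 hc
    have h3 : (tw m w * tw m w).l i = i := by rw [mul_l, h1, h1]
    have h4 : (tw m w * tw m w).r p = p := by rw [mul_r, h2, h2]
    rw [tw_mul hw, tw_K (hsq hw)] at h3 h4
    right
    rw [tw_K (hsq hw), ← h3, ← h4]
    rfl

lemma vtx_two {u u' : List A} (hu : u <:+: Wd m) (hu' : u' <:+: Wd m)
    (h : vtx m u 2 = vtx m u' 2) : u = u' := by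
  simpa [vtx, rp_two hu, rp_two hu'] using h

lemma nbJ {u v : List A} (hu : u <:+: Wd m) (hv : v <:+: Wd m) {b : M} (hb : Ty m b)
    (hc : J m u v * b = b * J m u v) :
    b = J m u v ∨ ∃ e, b = K (vtx m u e) v.reverse ∧ sg m v (vtx m u e) = e := by
  rcases hb with ⟨w', h0', h', rfl⟩ | ⟨u', v', hu', hv', rfl⟩ | ⟨i, p, rfl⟩
  · exact absurd hc.symm (cTJ h0' hv)
  · have h1 := congrFun (congrArg M.l hc) (.inr [])
    have h2 := congrFun (congrArg M.r hc) []
    simp only [mul_l, mul_r, J, reverse_inj] at h1 h2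
    simp only [sg, vtx, ite_self] at h1
    exact Or.inl (by rw [h2, vtx_two hu hu' h1])
  · obtain ⟨h1, h2⟩ := (cK _ _ _).1 hc
    simp only [J] at h1 h2
    exact Or.inr ⟨sg m v i, by rw [h1, h2], by rw [h1]⟩

noncomputable def U (m n : ℕ) : M := J m ((Wd m).take n) []

lemma all_U (hm : m % 2 = 0) (X : Set M) (hne : X.Nonempty) (hT : ∀ a ∈ X, Ty m a)
    (h2 : ∀ a ∈ X, ∃ b ∈ X, ∃ c ∈ X, b ≠ c ∧ b ≠ a ∧ c ≠ a ∧ a * b = b * a ∧ a * c = c * a) :
    ∀ n, 1 ≤ n → n ≤ m → U m n ∈ X := by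
  have noT : ∀ w, w ≠ [] → w <:+: Wd m → tw m w ∉ X := by
    intro w hw h hX
    obtain ⟨b, hb, c, hc, h1, h2, h3, h4, h5⟩ := h2 _ hX
    exact h1 (((nbT hw h (hT b hb) h4).resolve_left h2).trans
      ((nbT hw h (hT c hc) h5).resolve_left h3).symm)
  have nbK : ∀ i p, ∀ b ∈ X, b ≠ K i p → K i p * b = b * K i p → ∃ u v, u <:+: Wd m ∧ v <:+: Wd m ∧
      b = J m u v ∧ v = p.reverse ∧ ∃ e, vtx m u e = i := by
    intro i p b hb h1 h2
    obtain ⟨h3, h4⟩ := (cK _ _ _).1 h2.symm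
    rcases hT b hb with ⟨w', h0', h', rfl⟩ | ⟨u', v', hu', hv', rfl⟩ | ⟨i', p', rfl⟩
    · exact absurd hb (noT _ h0' h')
    · exact ⟨u', v', hu', hv', rfl, by rw [← h4]; exact (reverse_reverse _).symm, _, h3⟩
    · exact absurd (by rw [← h3, ← h4]; rfl) h1
  have Knb : ∀ x e p, K (vtx m x e) p ∈ X → ∃ u u', u ≠ u' ∧ u <:+: Wd m ∧ u' <:+: Wd m ∧
      J m u p.reverse ∈ X ∧ J m u' p.reverse ∈ X ∧ rp m u e = rp m x e ∧ rp m u' e = rp m x e := by
    intro x e p hX
    obtain ⟨b, hb, c, hc, h1, h2, h3, h4, h5⟩ := h2 _ hX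
    obtain ⟨u, v, hu, -, rfl, rfl, e1, k1⟩ := nbK _ _ b hb h2 h4
    obtain ⟨u', v, hu', -, rfl, rfl, e2, k2⟩ := nbK _ _ c hc h3 h5
    simp only [vtx, Sum.inl.injEq, Prod.mk.injEq] at k1 k2
    obtain ⟨k1, rfl⟩ := k1
    obtain ⟨k2, rfl⟩ := k2
    exact ⟨u, u', fun h => h1 (by rw [h]), hu, hu', hb, hc, k1, k2⟩
  have Jnb : ∀ u v, u <:+: Wd m → v <:+: Wd m → J m u v ∈ X → ∀ e, e ≠ 2 →
      K (vtx m u e) v.reverse ∈ X ∧ sg m v (vtx m u e) = e := by
    intro u v hu hv hX e he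
    obtain ⟨b, hb, c, hc, h1, h2, h3, h4, h5⟩ := h2 _ hX
    obtain ⟨e1, rfl, k1⟩ := (nbJ hu hv (hT b hb) h4).resolve_left h2
    obtain ⟨e2, rfl, k2⟩ := (nbJ hu hv (hT c hc) h5).resolve_left h3
    have n2 : K (vtx m u 2) v.reverse ∉ X := fun h => by
      obtain ⟨a, a', q1, q2, q3, -, -, q4, q5⟩ := Knb _ _ _ h
      exact q1 (by rw [← rp_two q2, q4, ← q5, rp_two q3])
    have : e = e1 ∨ e = e2 := by
      have : e1 ≠ e2 := fun h => h1 (by rw [h])
      have : e1 ≠ 2 := fun h => n2 (h ▸ hb)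
      have : e2 ≠ 2 := fun h => n2 (h ▸ hc)
      omega
    rcases this with rfl | rfl
    exacts [⟨hb, k1⟩, ⟨hc, k2⟩]
  have step : ∀ u v, u <:+: Wd m → v <:+: Wd m → J m u v ∈ X → 1 ≤ u.length ∧ u.length ≤ m ∧
      U m (if u.length = m then 1 else u.length + 1) ∈ X := by
    intro u v hu hv hX
    obtain ⟨e, he, he'⟩ : ∃ e : Fin 3, e ≠ 2 ∧ e.val = u.length % 2 :=
      ⟨⟨u.length % 2, by omega⟩, by simp [Fin.ext_iff]; omega, rfl⟩
    obtain ⟨k1, k2⟩ := Jnb u v hu hv hX e he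
    obtain ⟨a, a', q1, q2, q3, q4, q5, q6, q7⟩ := Knb _ _ _ k1
    rcases rp_cases hu e with ⟨r1, r2⟩ | ⟨y, z, r1, r2, r3, r4, r5⟩
    · exfalso
      rcases rp_cases q2 e with ⟨s1, s2⟩ | ⟨y, z, s1, s2, -⟩
      · rcases rp_cases q3 e with ⟨t1, t2⟩ | ⟨y, z, t1, t2, -⟩
        · exact q1 (by rw [← s1, ← t1, q6, q7])
        · exact r2 (by rw [← r1, ← q7, t2]; rfl)
      · exact r2 (by rw [← r1, ← q6, s2]; rfl)
    have hv0 : v = [] := by
      by_contra h
      have := hz (m := m) z h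
      simp [vtx, sg, r2, h, this] at k2
      exact he k2.symm
    subst hv0
    have hl : 1 ≤ u.length := by rw [r1]; simp
    have pf : ∀ a, a <:+: Wd m → rp m a e = rp m u e → a = (Wd m).take a.length ∧ 1 ≤ a.length ∧
        a.length ≤ m ∧ cc m e a.length = cc m e u.length := by
      intro a ha h
      rcases rp_cases ha e with ⟨s1, s2⟩ | ⟨y, z, s1, s2, s3, s4, s5⟩
      · exact absurd (by rw [← s1, h, r2]; rfl) s2
      · refine ⟨s3, by rw [s1]; simp, s5, ?_⟩
        have := congrArg length h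
        rw [s4, r4, length_take, length_take, len_W] at this
        have h1 : 1 ≤ a.length := by rw [s1]; simp
        revert this
        unfold cc
        split_ifs <;> omega
    obtain ⟨a1, a2, a3, a4⟩ := pf a q2 q6
    obtain ⟨b1, b2, b3, b4⟩ := pf a' q3 q7
    have hne : a.length ≠ a'.length := fun h => q1 (by rw [a1, b1, h])
    refine ⟨hl, r5, ?_⟩
    have : a.length = (if u.length = m then 1 else u.length + 1) ∨
        a'.length = (if u.length = m then 1 else u.length + 1) := by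
      revert a4 b4
      unfold cc
      simp only [Fin.ext_iff, he']
      split_ifs <;> simp at * <;> omega
    rcases this with h | h
    · rw [U, ← h, ← a1]; exact q4
    · rw [U, ← h, ← b1]; exact q5
  have st : ∀ n, n ≤ m → U m n ∈ X → U m (if n = m then 1 else n + 1) ∈ X := fun n hn h => by
    have := (step _ _ (take_prefix _ _).isInfix nil_infix h).2.2
    rwa [length_take, len_W, min_eq_left hn] at this
  have up : ∀ n k, n + k ≤ m → U m n ∈ X → U m (n + k) ∈ X := by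
    intro n k
    induction k with
    | zero => exact fun _ h => h
    | succ k ih =>
      intro h1 h2
      have := st _ (by omega) (ih (by omega) h2)
      rwa [if_neg (by omega)] at this
  obtain ⟨u, v, hu, hv, hX⟩ : ∃ u v, u <:+: Wd m ∧ v <:+: Wd m ∧ J m u v ∈ X := by
    obtain ⟨a, ha⟩ := hne
    rcases hT a ha with ⟨w', h0', h', rfl⟩ | ⟨u', v', hu', hv', rfl⟩ | ⟨i', p', rfl⟩
    · exact absurd ha (noT _ h0' h')
    · exact ⟨_, _, hu', hv', ha⟩
    · obtain ⟨b, hb, -, -, -, h2, -, h4, -⟩ := h2 _ ha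
      obtain ⟨u, v, hu, hv, rfl, -⟩ := nbK _ _ b hb h2 h4
      exact ⟨_, _, hu, hv, hb⟩
  obtain ⟨s1, s2, s3⟩ := step u v hu hv hX
  have h1 : U m 1 ∈ X := by
    split_ifs at s3 with h
    · exact s3
    · have := st m le_rfl (by
        have := up _ (m - (u.length + 1)) (by omega) s3
        rwa [show u.length + 1 + (m - (u.length + 1)) = m by omega] at this)
      rwa [if_pos rfl] at this
  intro n n1 n2
  have := up 1 (n - 1) (by omega) h1
  rwa [show 1 + (n - 1) = n by omega] at this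

lemma U_inj {n n' : ℕ} (h : n ≤ m) (h' : n' ≤ m) (e : U m n = U m n') : n = n' := by
  have := congrArg length (vtx_two (take_prefix _ _).isInfix (take_prefix _ _).isInfix
    (congrFun (congrArg M.l e) (.inr [])))
  simpa [len_W, h, h'] using this

theorem girth_ge (hm : m % 2 = 0) {a : _} (c : (commGraph (S m)).Walk a a) (hc : c.IsCycle) :
    m ≤ c.length + 1 := by
  classical
  have := all_U hm ((fun x => x.1.1) '' {x | x ∈ c.support}) ⟨_, a, c.start_mem_support, rfl⟩
    (by rintro _ ⟨x, -, rfl⟩; exact (ty_S x.1.2).1) (by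
      rintro _ ⟨x, hx, rfl⟩
      obtain ⟨y, z, hyz, h⟩ := Set.ncard_eq_two.1 (hc.ncard_neighborSet_toSubgraph_eq_two hx)
      have hy : c.toSubgraph.Adj x y := (h ▸ (by simp) : y ∈ c.toSubgraph.neighborSet x)
      have hz : c.toSubgraph.Adj x z := (h ▸ (by simp) : z ∈ c.toSubgraph.neighborSet x)
      have inj : ∀ {p q : {x : S m // x ∉ Set.center (S m)}}, p ≠ q → p.1.1 ≠ q.1.1 :=
        fun h e => h (Subtype.ext (Subtype.ext e))
      exact ⟨_, ⟨y, by simpa using hy.snd_mem, rfl⟩, _, ⟨z, by simpa using hz.snd_mem, rfl⟩, inj hyz,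
        inj hy.adj_sub.ne', inj hz.adj_sub.ne', congrArg Subtype.val hy.adj_sub.2,
        congrArg Subtype.val hz.adj_sub.2⟩)
  have h2 := Finset.card_le_card_of_injOn (s := Finset.Icc 1 m)
    (t := (c.support.map fun x => x.1.1).toFinset) (U m) (fun n hn => by
      obtain ⟨x, hx, e⟩ := this n (Finset.mem_Icc.1 hn).1 (Finset.mem_Icc.1 hn).2
      simp only [coe_toFinset, mem_map, Set.mem_ofPred_eq]
      exact ⟨x, hx, e⟩) fun n hn n' hn' e =>
      U_inj (Finset.mem_Icc.1 hn).2 (Finset.mem_Icc.1 hn').2 e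
  simpa using h2.trans (List.toFinset_card_le _)

theorem not_acyclic (hm : m % 2 = 0) (h2 : 2 ≤ m) : ¬ (commGraph (S m)).IsAcyclic := by
  have hne : ∀ n, (Wd m).take (n + 1) ≠ [] := fun n => by
    obtain ⟨y, h⟩ := take_W (m := m) (k := n + 1) (by omega) (by omega)
    simp [h]
  have nc : ∀ s : S m, s ∈ Set.center (S m) → ∀ e, e ≠ 2 → s.1.l (vtx m [] e) = vtx m [] e :=
    fun s hs e he => ((cK _ _ []).1 (congrArg Subtype.val (Semigroup.mem_center_iff.1 hs
      ⟨K (vtx m [] e) [], Subsemigroup.subset_closure (by fin_cases e <;> simp_all [gens])⟩)).symm).1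
  have hrp : ∀ n e, rp m ((Wd m).take (n + 1)) e = (Wd m).take (cc m e (min (n + 1) m)) := by
    intro n e
    obtain ⟨y, h⟩ := take_W (m := m) (k := n + 1) (by omega) (by omega)
    rw [rp, if_pos (by simp [h]), length_take, len_W]
  let a : ℕ → {x : S m // x ∉ Set.center (S m)} := fun n =>
    ⟨⟨U m (n + 1), J_mem (hne n) (take_prefix _ _).isInfix⟩, fun h => by
      have := nc _ h 0 (by simp)
      simp only [U, J, vtx, sg, true_or, if_true, hrp, Sum.inl.injEq, Prod.mk.injEq] at this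
      obtain ⟨y, h⟩ := take_W (m := m) (by omega) (cc_pos (m := m) 0 (n := min (n + 1) m) (by omega))
      simp [h, rp] at this⟩
  let b : ℕ → Fin 2 → {x : S m // x ∉ Set.center (S m)} := fun n e =>
    ⟨⟨K (vtx m ((Wd m).take (n + 1)) e.castSucc) [], K_mem (hne n) (take_prefix _ _).isInfix
      (Fin.castSucc_lt_last e).ne⟩, fun h => by
      have := (nc _ h 0 (by simp)).symm.trans (nc _ h 1 (by simp))
      simp [vtx] at this⟩
  have ab : ∀ n n' e, a n ≠ b n' e := fun n n' e h => by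
    have := congrFun (congrArg (fun x => x.1.1.l) h) (.inr [])
    simp only [a, b, U, J, K, vtx, sg, Sum.inl.injEq, Prod.mk.injEq] at this
    exact (Fin.castSucc_lt_last e).ne this.2.symm
  have adj : ∀ n e, (commGraph (S m)).Adj (a n) (b n e) := fun n e =>
    ⟨ab n n e, Subtype.ext ((cK _ _ _).2 ⟨by simp [a, U, J, vtx, sg], rfl⟩)⟩
  have beq : ∀ n n' (e : Fin 2), cc m e.castSucc (min (n + 1) m) = cc m e.castSucc (min (n' + 1) m) →
      b n e = b n' e := fun n n' e h => Subtype.ext (Subtype.ext (by simp only [b, vtx, hrp, h]))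
  intro hA
  have hB := SimpleGraph.isAcyclic_iff_forall_adj_isBridge.1 hA (adj 0 0)
  rw [SimpleGraph.isBridge_iff] at hB
  apply hB
  have ed : ∀ n e, n < m → ¬ (n = 0 ∧ e = 0) →
      ((commGraph (S m)).deleteEdges {s(a 0, b 0 0)}).Reachable (a n) (b n e) := by
    intro n e hn h
    refine SimpleGraph.Adj.reachable (SimpleGraph.deleteEdges_adj.2 ⟨adj n e, fun h' => ?_⟩)
    rcases Sym2.eq_iff.1 h' with ⟨h1, h3⟩ | ⟨h1, -⟩
    · have := U_inj (by omega) (by omega) (congrArg (fun x => x.1.1) h1)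
      have h4 := congrFun (congrArg (fun x => x.1.1.l) h3) (.inr [])
      simp only [b, K, vtx, Sum.inl.injEq, Prod.mk.injEq] at h4
      exact h ⟨by omega, Fin.castSucc_injective _ h4.2⟩
    · exact ab _ _ _ h1
  have re : ∀ n, n < m → ((commGraph (S m)).deleteEdges {s(a 0, b 0 0)}).Reachable (a 0) (a n) := by
    intro n
    induction n with
    | zero => exact fun _ => SimpleGraph.Reachable.refl _
    | succ n ih =>
      intro hn
      obtain ⟨e, he⟩ : ∃ e : Fin 2, e.val = (n + 1) % 2 := ⟨⟨(n + 1) % 2, by omega⟩, rfl⟩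
      refine ((ih (by omega)).trans (ed n e (by omega) (by rintro ⟨rfl, rfl⟩; simp at he))).trans ?_
      rw [beq n (n + 1) e (by
        unfold cc
        simp only [Fin.ext_iff, Fin.val_castSucc, he]
        split_ifs <;> simp at * <;> omega)]
      exact (ed (n + 1) e hn (by simp)).symm
  have := (re (m - 1) (by omega)).trans (ed (m - 1) 0 (by omega) (by omega))
  rwa [beq (m - 1) 0 0 (by
    unfold cc
    simp only [Fin.ext_iff, Fin.val_castSucc]
    split_ifs <;> simp at * <;> omega)] at this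

end Pool.Agent.H14.Girth
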