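import Mathlib

set_option autoImplicit false

namespace Pool.Agent.H14.Hyper

open Polynomial Filter Topology
open BoundedContinuousFunction hiding C

noncomputable section

variable (𝕜 : Type) [RCLike 𝕜]

/-- index set with the discrete topology -/
def J : Type := Option (ℕ × Bool) × ℕ

instance : TopologicalSpace J := ⊥
instance : DiscreteTopology J := ⟨rfl⟩

abbrev Z : Type := J →ᵇ 𝕜

def S : Z 𝕜 →L[𝕜] Z 𝕜 :=
  (2 : 𝕜) • compContinuousCLM 𝕜 𝕜
    (⟨fun q : J => ((q.1, q.2 + 1) : J), continuous_of_discreteTopology⟩ : C(J, J))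

variable {𝕜}

lemma S_apply (f : Z 𝕜) (j : Option (ℕ × Bool)) (i : ℕ) :
    S 𝕜 f ((j, i) : J) = 2 * f ((j, i + 1) : J) := rfl

lemma S_pow_apply (n : ℕ) (f : Z 𝕜) (j : Option (ℕ × Bool)) (i : ℕ) :
    (S 𝕜 ^ n) f ((j, i) : J) = 2 ^ n * f ((j, i + n) : J) := by
  induction n generalizing i with
  | zero => simp
  | succ n ih =>
    rw [pow_succ', mul_apply_eq_comp, S_apply, ih, pow_succ', mul_assoc, add_assoc,
      add_comm 1 n]

/-- `f` is given by the family of polynomials `P` -/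
def Rep (f : Z 𝕜) (P : Option (ℕ × Bool) → 𝕜[X]) : Prop :=
  ∀ j i, f ((j, i) : J) = (2 ^ i)⁻¹ * (P j).eval (i : 𝕜)

lemma Rep.S {f : Z 𝕜} {P : Option (ℕ × Bool) → 𝕜[X]} (h : Rep f P) :
    Rep (S 𝕜 f) fun j => taylor 1 (P j) := by
  intro j i
  rw [S_apply, h, taylor_eval]
  push_cast
  field_simp
  ring

lemma Rep.sub {f g : Z 𝕜} {P Q : Option (ℕ × Bool) → 𝕜[X]} (h : Rep f P) (h' : Rep g Q) :
    Rep (f - g) fun j => P j - Q j := by
  intro j i
  rw [BoundedContinuousFunction.sub_apply, h, h', eval_sub, mul_sub]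

lemma Rep.nil (N : ℕ) {f : Z 𝕜} {P : Option (ℕ × Bool) → 𝕜[X]} (h : Rep f P)
    (hd : ∀ j, (P j).degree < N) : ((Hyper.S 𝕜 - 1) ^ N) f = 0 := by
  induction N generalizing f P with
  | zero =>
    ext ⟨j, i⟩
    have : P j = 0 := by simpa using hd j
    have h1 := h j i
    rw [this, eval_zero, mul_zero] at h1
    exact h1
  | succ N ih =>
    rw [pow_succ, mul_apply_eq_comp]
    refine ih (h.S.sub h) fun j => ?_
    by_cases h0 : P j = 0
    · simp [h0]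
    · have h1 : (taylor 1 (P j) - P j).degree < (P j).degree := by
        have := degree_sub_lt_left (p := taylor 1 (P j)) (q := P j) (degree_taylor _ _)
          (by simpa using h0) (leadingCoeff_taylor _ _)
        rwa [degree_taylor] at this
      have h2 := hd j
      rw [degree_eq_natDegree h0] at h1 h2
      refine lt_of_lt_of_le h1 ?_
      norm_cast at h2 ⊢
      omega

lemma poly_bound (M : ℕ) : ∃ C : ℝ, 0 ≤ C ∧ ∀ i : ℕ, ((2 : ℝ) ^ i)⁻¹ * ((i : ℝ) + 1) ^ M ≤ C := by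
  have h := (tendsto_pow_const_div_const_pow_of_one_lt M (one_lt_two (α := ℝ))).comp
    (tendsto_add_atTop_nat 1)
  obtain ⟨C, hC⟩ := h.bddAbove_range
  have hC' : ∀ i : ℕ, ((2 : ℝ) ^ i)⁻¹ * ((i : ℝ) + 1) ^ M ≤ 2 * C := by
    intro i
    have := hC ⟨i, rfl⟩
    simp only [Function.comp, Nat.cast_add, Nat.cast_one, pow_succ] at this
    rw [div_le_iff₀ (by positivity)] at this
    rw [inv_mul_le_iff₀ (by positivity)]
    linarith
  exact ⟨2 * C, le_trans (by positivity) (hC' 0), hC'⟩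

lemma eval_bound (p : 𝕜[X]) : ∃ C : ℝ, ∀ i : ℕ, ‖((2 : 𝕜) ^ i)⁻¹ * p.eval (i : 𝕜)‖ ≤ C := by
  induction p using Polynomial.induction_on' with
  | add p q hp hq =>
    obtain ⟨C, hC⟩ := hp
    obtain ⟨D, hD⟩ := hq
    exact ⟨C + D, fun i => by
      rw [eval_add, mul_add]; exact (norm_add_le _ _).trans (add_le_add (hC i) (hD i))⟩
  | monomial n a =>
    obtain ⟨C, -, hC⟩ := poly_bound n
    refine ⟨‖a‖ * C, fun i => ?_⟩
    rw [eval_monomial, mul_left_comm, norm_mul]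
    gcongr
    refine le_trans ?_ (hC i)
    simp only [norm_mul, norm_inv, norm_pow, RCLike.norm_two, RCLike.norm_natCast]
    gcongr
    linarith

def lam (k : ℕ) : ℝ := √((k : ℝ) + 1)

lemma lam_pos (k : ℕ) : 0 < lam k := Real.sqrt_pos.2 (by positivity)

lemma lam_sq (k : ℕ) : lam k * lam k = (k : ℝ) + 1 := Real.mul_self_sqrt (by positivity)

lemma lam_tendsto : Tendsto lam atTop atTop :=
  Real.tendsto_sqrt_atTop.comp (tendsto_atTop_add_const_right _ _ tendsto_natCast_atTop_atTop)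

def PH (k : ℕ) (p : 𝕜[X]) : Option (ℕ × Bool) → 𝕜[X]
  | none => 0
  | some (l, false) => if l = k then p else 0
  | some (l, true) => if l = k then taylor ((k : 𝕜) + 1) p else 0

lemma exists_H (k : ℕ) (p : 𝕜[X]) : ∃ f : Z 𝕜, Rep f (PH k p) := by
  obtain ⟨C, hC⟩ := eval_bound p
  obtain ⟨D, hD⟩ := eval_bound (taylor ((k : 𝕜) + 1) p)
  have h0 : 0 ≤ C := (norm_nonneg _).trans (hC 0)
  refine ⟨ofNormedAddCommGroupDiscrete
    (fun q : J => (2 ^ q.2)⁻¹ * (PH k p q.1).eval (q.2 : 𝕜)) (max C D) ?_, fun _ _ => rfl⟩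
  rintro ⟨_ | ⟨l, _ | _⟩, i⟩
  · simp [PH, h0]
  · simp only [PH]
    split_ifs
    · exact (hC i).trans (le_max_left _ _)
    · simp [h0]
  · simp only [PH]
    split_ifs
    · exact (hD i).trans (le_max_right _ _)
    · simp [h0]

def H (k : ℕ) (p : 𝕜[X]) : Z 𝕜 := (exists_H k p).choose

lemma H_rep (k : ℕ) (p : 𝕜[X]) : Rep (H k p) (PH k p) := (exists_H k p).choose_spec

lemma Rep.ext {f g : Z 𝕜} {P Q : Option (ℕ × Bool) → 𝕜[X]} (h : Rep f P) (h' : Rep g Q)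
    (hPQ : ∀ j, P j = Q j) : f = g := by
  ext ⟨j, i⟩
  rw [h, h', hPQ]

def HL (k : ℕ) : 𝕜[X] →ₗ[𝕜] Z 𝕜 where
  toFun := H k
  map_add' p q := by
    ext ⟨j, i⟩
    rw [BoundedContinuousFunction.add_apply, H_rep, H_rep, H_rep]
    rcases j with _ | ⟨l, _ | _⟩ <;> simp only [PH] <;> (try split_ifs) <;> simp [mul_add]
  map_smul' c p := by
    ext ⟨j, i⟩
    rw [BoundedContinuousFunction.smul_apply, H_rep, H_rep]
    rcases j with _ | ⟨l, _ | _⟩ <;> simp only [PH] <;> (try split_ifs) <;> simp [mul_left_comm]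

lemma S_H (k : ℕ) (p : 𝕜[X]) : S 𝕜 (H k p) = H k (taylor 1 p) := by
  refine (H_rep k p).S.ext (H_rep _ _) ?_
  rintro (_ | ⟨l, _ | _⟩) <;> simp only [PH] <;> (try split_ifs) <;> simp [taylor_taylor, add_comm]

def zz (m k : ℕ) : 𝕜[X] :=
  C (lam k : 𝕜) * ((C ((k : 𝕜) + 1)⁻¹ * X) ^ (m + 1) * (X - C ((k : 𝕜) + 1)) ^ m)

def PG (m : ℕ) : Option (ℕ × Bool) → 𝕜[X]
  | none => X ^ m
  | some (k, false) => zz m k
  | some (k, true) => taylor ((k : 𝕜) + 1) (zz m k) - C (lam k : 𝕜) * X ^ m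

lemma pow_est (m : ℕ) (x y : ℝ) (hx : 0 ≤ x) (hxy : x ≤ y) :
    (1 + x) ^ m - 1 ≤ m * x * (1 + y) ^ m := by
  induction m with
  | zero => simp
  | succ m ih =>
    have h1 : (1 + x) ^ m ≤ (1 + y) ^ m := by gcongr
    have h2 : 0 ≤ (1 + y) ^ m := by have := hx.trans hxy; positivity
    have h3 : 0 ≤ (m : ℝ) * x * (1 + y) ^ m := by positivity
    rw [pow_succ, pow_succ]
    push_cast
    nlinarith [mul_nonneg hx h2, mul_nonneg (hx.trans hxy) h3, mul_le_mul_of_nonneg_left h1 hx,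
      mul_nonneg (mul_nonneg hx h2) (hx.trans hxy)]

lemma PG_bound (m : ℕ) : ∃ C : ℝ, 0 ≤ C ∧ ∀ k b (i : ℕ),
    ‖((2 : 𝕜) ^ i)⁻¹ * (PG m (some (k, b))).eval (i : 𝕜)‖ ≤ C / lam k := by
  obtain ⟨C, hC0, hC⟩ := poly_bound (2 * m + 2)
  refine ⟨(m + 1) * C, by positivity, fun k b i => ?_⟩
  have hl := lam_pos k
  have hk : (0 : ℝ) < (k : ℝ) + 1 := by positivity
  have hi : (0 : ℝ) ≤ i := by positivity
  have hk' : ((k : 𝕜) + 1) ≠ 0 := by exact_mod_cast Nat.succ_ne_zero k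
  have key : ‖(PG (𝕜 := 𝕜) m (some (k, b))).eval (i : 𝕜)‖ ≤
      lam k * (((k : ℝ) + 1)⁻¹ * ((m + 1) * ((i : ℝ) + 1) ^ (2 * m + 2))) := by
    cases b with
    | false =>
      have e : (PG (𝕜 := 𝕜) m (some (k, false))).eval (i : 𝕜) = ((lam k * (((k : ℝ) + 1)⁻¹ *
          ((i : ℝ) ^ (m + 1) * (((i : ℝ) - ((k : ℝ) + 1)) / ((k : ℝ) + 1)) ^ m)) : ℝ) : 𝕜) := by
        simp only [PG, zz, eval_mul, eval_C, eval_pow, eval_X, eval_sub]
        push_cast
        rw [div_pow, mul_pow, inv_pow]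
        field_simp
        ring
      rw [e, RCLike.norm_ofReal, abs_mul, abs_mul, abs_mul, abs_of_pos hl, abs_of_pos (by positivity),
        abs_of_nonneg (by positivity), abs_pow]
      refine mul_le_mul_of_nonneg_left (mul_le_mul_of_nonneg_left ?_ (by positivity)) hl.le
      have h1 : |((i : ℝ) - ((k : ℝ) + 1)) / ((k : ℝ) + 1)| ≤ (i : ℝ) + 1 := by
        rw [abs_div, abs_of_pos hk, div_le_iff₀ hk, abs_le]
        have : (0 : ℝ) ≤ k := by positivity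
        constructor <;> nlinarith
      calc (i : ℝ) ^ (m + 1) * |((i : ℝ) - ((k : ℝ) + 1)) / ((k : ℝ) + 1)| ^ m
          ≤ ((i : ℝ) + 1) ^ (m + 1) * ((i : ℝ) + 1) ^ m * (1 * 1) := by
            rw [mul_one, mul_one]
            gcongr
            linarith
        _ ≤ ((i : ℝ) + 1) ^ (m + 1) * ((i : ℝ) + 1) ^ m * ((m + 1) * ((i : ℝ) + 1)) := by
            gcongr <;> simp
        _ = _ := by ring
    | true =>
      have e : (PG (𝕜 := 𝕜) m (some (k, true))).eval (i : 𝕜) = ((lam k *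
          (((1 + (i : ℝ) / ((k : ℝ) + 1)) ^ (m + 1) - 1) * (i : ℝ) ^ m) : ℝ) : 𝕜) := by
        simp only [PG, zz, eval_mul, eval_C, eval_pow, eval_X, eval_sub, taylor_eval]
        push_cast
        have : ((k : 𝕜) + 1)⁻¹ * ((i : 𝕜) + ((k : 𝕜) + 1)) = 1 + (i : 𝕜) / ((k : 𝕜) + 1) := by
          field_simp
          ring
        rw [this]
        ring
      have h1 := pow_est (m + 1) ((i : ℝ) / ((k : ℝ) + 1)) i (by positivity)
        (div_le_self hi (by linarith [(Nat.cast_nonneg k : (0 : ℝ) ≤ k)]))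
      have h2 : 0 ≤ (1 + (i : ℝ) / ((k : ℝ) + 1)) ^ (m + 1) - 1 :=
        sub_nonneg.2 (one_le_pow₀ (by simp; positivity))
      rw [e, RCLike.norm_ofReal, abs_of_nonneg (by positivity)]
      refine mul_le_mul_of_nonneg_left ?_ hl.le
      push_cast at h1
      calc ((1 + (i : ℝ) / ((k : ℝ) + 1)) ^ (m + 1) - 1) * (i : ℝ) ^ m
          ≤ (((m : ℝ) + 1) * (((i : ℝ) + 1) / ((k : ℝ) + 1)) * (1 + i) ^ (m + 1)) *
            ((i : ℝ) + 1) ^ m := by
            refine mul_le_mul (h1.trans ?_) (by gcongr; linarith) (by positivity) (by positivity)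
            gcongr
            linarith
        _ = _ := by rw [add_comm 1 (i : ℝ)]; field_simp; ring
  rw [norm_mul, norm_inv, norm_pow, RCLike.norm_two]
  refine (mul_le_mul_of_nonneg_left key (by positivity)).trans ?_
  rw [← lam_sq, le_div_iff₀ hl]
  have := mul_le_mul_of_nonneg_left (hC i) (by positivity : (0 : ℝ) ≤ m + 1)
  refine le_trans (le_of_eq ?_) this
  field_simp

lemma one_le_lam (k : ℕ) : 1 ≤ lam k := Real.one_le_sqrt.2 (by simp)

lemma exists_G (m : ℕ) : ∃ f : Z 𝕜, Rep f (PG m) := by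
  obtain ⟨C, hC0, hC⟩ := PG_bound (𝕜 := 𝕜) m
  obtain ⟨D, hD⟩ := eval_bound (X ^ m : 𝕜[X])
  refine ⟨ofNormedAddCommGroupDiscrete
    (fun q : J => (2 ^ q.2)⁻¹ * (PG m q.1).eval (q.2 : 𝕜)) (max C D) ?_, fun _ _ => rfl⟩
  rintro ⟨_ | ⟨k, b⟩, i⟩
  · exact (hD i).trans (le_max_right _ _)
  · exact ((hC k b i).trans (div_le_self hC0 (one_le_lam k))).trans (le_max_left _ _)

def G (m : ℕ) : Z 𝕜 := (exists_G m).choose

lemma G_rep (m : ℕ) : Rep (G m : Z 𝕜) (PG m) := (exists_G m).choose_spec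

/-- the closed linear relation satisfied by all elements of our space -/
def Rel (f : Z 𝕜) : Prop := ∀ k i, (lam k : 𝕜) * f ((none, i) : J) =
  (S 𝕜 ^ (k + 1)) f ((some (k, false), i) : J) - f ((some (k, true), i) : J)

lemma Rep.rel {f : Z 𝕜} {P : Option (ℕ × Bool) → 𝕜[X]} (h : Rep f P)
    (hP : ∀ k, P (some (k, true)) =
      taylor ((k : 𝕜) + 1) (P (some (k, false))) - C (lam k : 𝕜) * P none) : Rel f := by
  intro k i
  rw [S_pow_apply, h, h, h, hP]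
  simp only [eval_sub, taylor_eval, eval_mul, eval_C]
  push_cast
  field_simp
  ring

def Small (f : Z 𝕜) : Prop := ∃ C : ℝ, ∀ k b i, ‖f ((some (k, b), i) : J)‖ ≤ C / lam k

variable (𝕜)

def Y : Submodule 𝕜 (Z 𝕜) :=
  (Submodule.span 𝕜 (Set.range fun q : ℕ × ℕ => H q.1 (X ^ q.2 : 𝕜[X]))).topologicalClosure

def W : Submodule 𝕜 (Z 𝕜) :=
  Submodule.span 𝕜 ((Set.range fun q : ℕ × ℕ => H q.1 (X ^ q.2 : 𝕜[X])) ∪ Set.range G)

def XX : Submodule 𝕜 (Z 𝕜) := (W 𝕜).topologicalClosure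

variable {𝕜}

lemma H_mem (k : ℕ) (p : 𝕜[X]) : H k p ∈ Y 𝕜 := by
  refine Submodule.le_topologicalClosure _ ?_
  induction p using Polynomial.induction_on' with
  | add p q hp hq =>
    rw [show H k (p + q) = H k p + H k q from (HL k).map_add p q]
    exact Submodule.add_mem _ hp hq
  | monomial n a =>
    rw [← smul_X_eq_monomial, show H k (a • X ^ n) = a • H k (X ^ n) from (HL k).map_smul a _]
    exact Submodule.smul_mem _ a (Submodule.subset_span ⟨(k, n), rfl⟩)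

lemma tail {f : Z 𝕜} {P : Option (ℕ × Bool) → 𝕜[X]} (h : Rep f P) (h0 : P none = 0)
    (hP : ∀ k, P (some (k, true)) = taylor ((k : 𝕜) + 1) (P (some (k, false))))
    (hs : Small f) : f ∈ Y 𝕜 := by
  obtain ⟨C, hC⟩ := hs
  have hC0 : 0 ≤ C := by
    have := (norm_nonneg _).trans (hC 0 false 0)
    exact (div_nonneg_iff.1 this).elim (·.1) fun h => absurd h.2 (not_le.2 (lam_pos 0))
  refine (Submodule.isClosed_topologicalClosure _).mem_of_tendsto (b := atTop)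
    (f := fun K => ∑ k ∈ Finset.range K, H k (P (some (k, false)))) ?_
    (Eventually.of_forall fun K => Submodule.sum_mem _ fun k _ => H_mem k _)
  rw [tendsto_iff_norm_sub_tendsto_zero]
  refine squeeze_zero (fun _ => norm_nonneg _) (fun K => ?_) (lam_tendsto.const_div_atTop C)
  have hl := lam_pos K
  rw [norm_le (by positivity)]
  rintro ⟨j, i⟩
  rw [BoundedContinuousFunction.sub_apply, BoundedContinuousFunction.sum_apply]
  simp only [H_rep _ _ j i]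
  rcases j with _ | ⟨l, b⟩
  · simp [PH, h none i, h0]
    positivity
  · have h1 : ∀ k, (2 ^ i : 𝕜)⁻¹ * (PH k (P (some (k, false))) (some (l, b))).eval (i : 𝕜) =
        if l = k then f ((some (l, b), i) : J) else 0 := by
      intro k
      cases b <;> simp only [PH] <;> split_ifs with hk <;> simp [hk, h _ i, hP]
    simp only [h1, Finset.sum_ite_eq, Finset.mem_range]
    split_ifs with hl'
    · simp; positivity
    · rw [zero_sub, norm_neg]
      refine (hC l b i).trans ?_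
      gcongr
      unfold lam
      gcongr
      exact_mod_cast not_lt.1 hl'

lemma binom (m : ℕ) : taylor (1 : 𝕜) (X ^ m : 𝕜[X]) =
    ∑ j ∈ Finset.range (m + 1), ((m.choose j : ℕ) : 𝕜) • X ^ j := by
  rw [taylor_X_pow, add_pow]
  refine Finset.sum_congr rfl fun j _ => ?_
  simp [smul_eq_C_mul, mul_comm]

lemma SG_mem (m : ℕ) :
    S 𝕜 (G m) - ∑ j ∈ Finset.range (m + 1), ((m.choose j : ℕ) : 𝕜) • G j ∈ Y 𝕜 := by
  have h1 : Rep (∑ j ∈ Finset.range (m + 1), ((m.choose j : ℕ) : 𝕜) • (G j : Z 𝕜))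
      fun q => ∑ j ∈ Finset.range (m + 1), ((m.choose j : ℕ) : 𝕜) • PG j q := by
    intro q i
    rw [BoundedContinuousFunction.sum_apply, eval_finsetSum, Finset.mul_sum]
    refine Finset.sum_congr rfl fun j _ => ?_
    rw [BoundedContinuousFunction.smul_apply, G_rep j q i, eval_smul, smul_eq_mul, smul_eq_mul,
      mul_left_comm]
  refine tail ((G_rep m).S.sub h1) ?_ ?_ ?_
  · simp only [PG, binom, sub_self]
  · intro k
    simp only [PG, map_sub, map_sum, map_smul, taylor_mul, taylor_C, binom, smul_sub,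
      Finset.sum_sub_distrib, Finset.mul_sum, mul_smul_comm, taylor_taylor, add_comm (1 : 𝕜)]
    ring
  · choose C hC0 hC using PG_bound (𝕜 := 𝕜)
    refine ⟨2 * C m + ∑ j ∈ Finset.range (m + 1), (m.choose j : ℝ) * C j, fun k b i => ?_⟩
    rw [BoundedContinuousFunction.sub_apply, BoundedContinuousFunction.sum_apply, S_apply, add_div,
      Finset.sum_div]
    refine (norm_sub_le _ _).trans (add_le_add ?_ ((norm_sum_le _ _).trans
      (Finset.sum_le_sum fun j _ => ?_)))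
    · rw [norm_mul, RCLike.norm_two, G_rep, mul_div_assoc]
      gcongr
      exact hC m k b (i + 1)
    · rw [BoundedContinuousFunction.smul_apply, norm_smul, RCLike.norm_natCast, G_rep,
        mul_div_assoc]
      gcongr
      exact hC j k b i

lemma Y_le : Y 𝕜 ≤ XX 𝕜 :=
  Submodule.topologicalClosure_mono (Submodule.span_mono Set.subset_union_left)

lemma G_mem (m : ℕ) : (G m : Z 𝕜) ∈ XX 𝕜 :=
  Submodule.le_topologicalClosure _ (Submodule.subset_span (Or.inr ⟨m, rfl⟩))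

lemma XX_le {R : Submodule 𝕜 (Z 𝕜)} (hR : IsClosed (R : Set (Z 𝕜)))
    (h1 : ∀ k m, H k (X ^ m : 𝕜[X]) ∈ R) (h2 : ∀ m, G m ∈ R) : XX 𝕜 ≤ R := by
  refine Submodule.topologicalClosure_minimal _ (Submodule.span_le.2 ?_) hR
  rintro _ (⟨q, rfl⟩ | ⟨m, rfl⟩)
  · exact h1 _ _
  · exact h2 m

lemma S_mem (f : Z 𝕜) (hf : f ∈ XX 𝕜) : S 𝕜 f ∈ XX 𝕜 := by
  refine XX_le (R := (XX 𝕜).comap (S 𝕜).toLinearMap)
    ((Submodule.isClosed_topologicalClosure _).preimage (S 𝕜).continuous) ?_ ?_ hf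
  · intro k m
    change S 𝕜 _ ∈ XX 𝕜
    rw [S_H]
    exact Y_le (H_mem _ _)
  · intro m
    have := Submodule.add_mem _ (Y_le (SG_mem (𝕜 := 𝕜) m))
      (Submodule.sum_mem (XX 𝕜) (t := Finset.range (m + 1))
        fun j _ => Submodule.smul_mem _ ((m.choose j : ℕ) : 𝕜) (G_mem j))
    rw [sub_add_cancel] at this
    exact this

lemma rel_of_mem (f : Z 𝕜) (hf : f ∈ XX 𝕜) : Rel f := by
  intro k i
  let φ : Z 𝕜 →L[𝕜] 𝕜 := (lam k : 𝕜) • evalCLM (α := J) 𝕜 (none, i) -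
    ((evalCLM (α := J) 𝕜 (some (k, false), i)).comp (S 𝕜 ^ (k + 1)) -
      evalCLM (α := J) 𝕜 (some (k, true), i))
  have h : XX 𝕜 ≤ φ.ker := by
    refine XX_le φ.isClosed_ker (fun l m => sub_eq_zero.2 ((H_rep l _).rel ?_ k i))
      fun m => sub_eq_zero.2 ((G_rep m).rel (fun _ => rfl) k i)
    intro k
    simp only [PH]
    split_ifs with h <;> simp [h]
  exact sub_eq_zero.1 (h hf)

lemma tri {R : Submodule 𝕜 (Z 𝕜)} (v : ℕ → Z 𝕜)
    (h : ∀ m, ∑ j ∈ Finset.range (m + 1), (((m + 1).choose j : ℕ) : 𝕜) • v j ∈ R) (m : ℕ) :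
    v m ∈ R := by
  induction m using Nat.strong_induction_on with
  | _ m ih =>
    have h1 := h m
    rw [Finset.sum_range_succ, Submodule.add_mem_iff_right _ (Submodule.sum_mem _ fun j hj =>
      Submodule.smul_mem _ _ (ih j (Finset.mem_range.1 hj))), Nat.choose_succ_self_right] at h1
    exact (Submodule.smul_mem_iff _ (by exact_mod_cast Nat.succ_ne_zero m)).1 h1

lemma range_dense : XX 𝕜 ≤ ((XX 𝕜).map (S 𝕜 - 1).toLinearMap).topologicalClosure := by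
  set R := ((XX 𝕜).map (S 𝕜 - 1).toLinearMap).topologicalClosure
  have hR : ∀ f ∈ XX 𝕜, S 𝕜 f - f ∈ R := fun f hf =>
    Submodule.le_topologicalClosure _ ⟨f, hf, rfl⟩
  have h1 : ∀ k m, H k (X ^ m : 𝕜[X]) ∈ R := by
    intro k
    refine tri _ fun m => ?_
    have h2 := hR _ (Y_le (H_mem k (X ^ (m + 1))))
    rw [S_H, binom] at h2
    change HL k _ - HL k _ ∈ R at h2
    rw [map_sum, Finset.sum_range_succ] at h2
    simpa [HL] using h2
  have h2 : Y 𝕜 ≤ R := by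
    refine Submodule.topologicalClosure_minimal _ (Submodule.span_le.2 ?_)
      (Submodule.isClosed_topologicalClosure _)
    rintro _ ⟨q, rfl⟩
    exact h1 _ _
  refine XX_le (Submodule.isClosed_topologicalClosure _) h1 (tri _ fun m => ?_)
  have h3 := Submodule.sub_mem _ (hR _ (G_mem (m + 1))) (h2 (SG_mem (m + 1)))
  rw [Finset.sum_range_succ] at h3
  simpa using h3

lemma ker_dense (f : Z 𝕜) (hf : f ∈ W 𝕜) : ∃ n, 1 ≤ n ∧ ((S 𝕜 - 1) ^ n) f = 0 := by
  have hrep : ∀ {f : Z 𝕜} {P : Option (ℕ × Bool) → 𝕜[X]} (N : ℕ), Rep f P →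
      (∀ j, (P j).natDegree ≤ N) → ∃ n, 1 ≤ n ∧ ((S 𝕜 - 1) ^ n) f = 0 := fun N h hd =>
    ⟨N + 1, by omega, h.nil _ fun j => lt_of_le_of_lt degree_le_natDegree
      (by exact_mod_cast Nat.lt_succ_of_le (hd j))⟩
  induction hf using Submodule.span_induction with
  | zero => exact ⟨1, le_rfl, map_zero _⟩
  | smul a f _ h =>
    obtain ⟨n, h1, h2⟩ := h
    exact ⟨n, h1, by rw [map_smul, h2, smul_zero]⟩
  | add f g _ _ h h' =>
    obtain ⟨n, h1, h2⟩ := h
    obtain ⟨m, -, h3⟩ := h'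
    refine ⟨n + m, by omega, ?_⟩
    rw [map_add, pow_add, mul_apply_eq_comp _ _ g, h3, ← pow_add, add_comm n, pow_add,
      mul_apply_eq_comp, h2, map_zero, map_zero, add_zero]
  | mem f hf =>
    rcases hf with ⟨q, rfl⟩ | ⟨m, rfl⟩
    · refine hrep q.2 (H_rep _ _) ?_
      rintro (_ | ⟨l, _ | _⟩) <;> simp only [PH] <;> (try split_ifs) <;>
        simp only [natDegree_taylor, natDegree_X_pow, natDegree_zero, zero_le, le_refl]
    · have hz : ∀ k, (zz m k : 𝕜[X]).natDegree ≤ 2 * m + 1 := by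
        intro k
        unfold zz
        compute_degree
        omega
      refine hrep (2 * m + 1) (G_rep m) ?_
      rintro (_ | ⟨l, _ | _⟩) <;> simp only [PG]
      · simp; omega
      · exact hz l
      · refine (natDegree_sub_le _ _).trans (max_le (by rw [natDegree_taylor]; exact hz l) ?_)
        compute_degree
        omega

lemma G_zero : (G 0 : Z 𝕜) ((none, 0) : J) = 1 := by
  rw [G_rep]; simp [PG]

lemma growth (f : Z 𝕜) (hf : f ∈ XX 𝕜) (k i : ℕ) :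
    lam k * ‖f ((none, i) : J)‖ ≤ ‖(S 𝕜 ^ (k + 1)) f‖ + ‖f‖ := by
  have h := congrArg norm (rel_of_mem f hf k i)
  rw [norm_mul, RCLike.norm_ofReal, abs_of_pos (lam_pos k)] at h
  rw [h]
  exact (norm_sub_le _ _).trans (add_le_add (norm_coe_le_norm _ _) (norm_coe_le_norm _ _))

variable (𝕜)

def T : XX 𝕜 →L[𝕜] XX 𝕜 :=
  ((S 𝕜 - 1).comp (XX 𝕜).subtypeL).codRestrict (XX 𝕜) fun f =>
    Submodule.sub_mem _ (S_mem f.1 f.2) f.2

lemma T_pow (n : ℕ) (f : XX 𝕜) : ((T 𝕜 ^ n) f : Z 𝕜) = ((S 𝕜 - 1) ^ n) f := by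
  induction n with
  | zero => rfl
  | succ n ih => rw [pow_succ', pow_succ', mul_apply_eq_comp, mul_apply_eq_comp, ← ih]; rfl

lemma IT_pow (n : ℕ) (f : XX 𝕜) : (((1 + T 𝕜) ^ n) f : Z 𝕜) = (S 𝕜 ^ n) f := by
  induction n with
  | zero => rfl
  | succ n ih =>
    rw [pow_succ', pow_succ', mul_apply_eq_comp, mul_apply_eq_comp, ← ih]
    exact add_sub_cancel _ _

instance : CompleteSpace (XX 𝕜) := (Submodule.isClosed_topologicalClosure _).completeSpace_coe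

instance : TopologicalSpace.SeparableSpace (XX 𝕜) :=
  (((Set.countable_range _).union (Set.countable_range _)).isSeparable.span.closure).separableSpace

instance : Nontrivial (XX 𝕜) := ⟨⟨⟨G 0, G_mem 0⟩, 0, fun h => by
  have h1 := G_zero (𝕜 := 𝕜)
  rw [show (G 0 : Z 𝕜) = 0 from congrArg Subtype.val h] at h1
  exact zero_ne_one h1⟩⟩

lemma T_denseRange : DenseRange (T 𝕜) := by
  rw [DenseRange, Subtype.dense_iff]
  refine Set.Subset.trans (range_dense (𝕜 := 𝕜)) (closure_mono ?_)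
  rintro _ ⟨f, hf, rfl⟩
  exact ⟨_, ⟨⟨f, hf⟩, rfl⟩, rfl⟩

lemma T_denseKer : Dense {f : XX 𝕜 | ∃ n : ℕ, 1 ≤ n ∧ (T 𝕜 ^ n) f = 0} := by
  rw [Subtype.dense_iff]
  refine closure_mono fun f hf => ?_
  obtain ⟨n, h1, h2⟩ := ker_dense f hf
  exact ⟨⟨f, Submodule.le_topologicalClosure _ hf⟩, ⟨n, h1, Subtype.ext (by
    rw [T_pow]; exact h2)⟩, rfl⟩

lemma escape (a B : ℝ) (ha : 0 < a) : ∃ N : ℕ, ∀ n, N ≤ n → ∀ f : XX 𝕜, ‖f‖ ≤ B → ∀ i,
    a ≤ ‖f.1 ((none, i) : J)‖ → 1 ≤ ‖((1 + T 𝕜) ^ n) f‖ := by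
  obtain ⟨K, hK⟩ := eventually_atTop.1 (lam_tendsto.eventually_ge_atTop ((1 + B) / a))
  refine ⟨K + 1, fun n hn f hf i hi => ?_⟩
  obtain ⟨k, rfl⟩ : ∃ k, n = k + 1 := ⟨n - 1, by omega⟩
  have h1 := growth f.1 f.2 k i
  have h2 := hK k (by omega)
  rw [div_le_iff₀ ha] at h2
  rw [← IT_pow] at h1
  change _ ≤ ‖((1 + T 𝕜) ^ (k + 1)) f‖ + ‖f‖ at h1
  nlinarith [mul_le_mul_of_nonneg_left hi (lam_pos k).le]

lemma not_mixing : ∃ U V : Set (XX 𝕜), IsOpen U ∧ IsOpen V ∧ U.Nonempty ∧ V.Nonempty ∧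
    ∃ N : ℕ, ∀ n : ℕ, N ≤ n → (fun f : XX 𝕜 => ((1 + T 𝕜) ^ n) f) '' U ∩ V = ∅ := by
  obtain ⟨N, hN⟩ := escape 𝕜 (1 / 2) (‖(⟨G 0, G_mem 0⟩ : XX 𝕜)‖ + 1 / 2) (by norm_num)
  refine ⟨Metric.ball ⟨G 0, G_mem 0⟩ (1 / 2), Metric.ball 0 1, Metric.isOpen_ball,
    Metric.isOpen_ball, Metric.nonempty_ball.2 (by norm_num), Metric.nonempty_ball.2 (by norm_num),
    N, fun n hn => Set.eq_empty_of_forall_notMem ?_⟩
  rintro _ ⟨⟨f, hf, rfl⟩, hV⟩
  rw [mem_ball_iff_norm] at hf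
  rw [mem_ball_zero_iff] at hV
  refine absurd hV (not_lt.2 (hN n hn f ?_ 0 ?_))
  · linarith [norm_le_norm_add_norm_sub' f ⟨G 0, G_mem 0⟩]
  · have h1 : ‖f.1 ((none, 0) : J) - (G 0 : Z 𝕜) ((none, 0) : J)‖ ≤ ‖f.1 - G 0‖ :=
      norm_coe_le_norm (α := J) (f.1 - G 0) (none, 0)
    rw [G_zero] at h1
    have h2 := norm_le_norm_add_norm_sub (f.1 ((none, 0) : J)) 1
    rw [norm_one] at h2
    change ‖f.1 - G 0‖ < 1 / 2 at hf
    linarith

lemma not_hyper (f : XX 𝕜) : ¬ Dense (Set.range fun n : ℕ => ((1 + T 𝕜) ^ n) f) := by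
  intro hd
  by_cases h : ∀ i, f.1 ((none, i) : J) = 0
  · have h1 : IsClosed {g : XX 𝕜 | g.1 ((none, 0) : J) = 0} :=
      isClosed_eq ((evalCLM (α := J) 𝕜 (none, 0)).continuous.comp continuous_subtype_val)
        continuous_const
    have h2 := closure_minimal (s := Set.range fun n : ℕ => ((1 + T 𝕜) ^ n) f) (by
      rintro _ ⟨n, rfl⟩
      change (((1 + T 𝕜) ^ n) f : Z 𝕜) ((none, 0) : J) = 0
      rw [IT_pow, S_pow_apply, h, mul_zero]) h1 (hd ⟨G 0, G_mem 0⟩)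
    exact zero_ne_one (h2.symm.trans G_zero)
  · push Not at h
    obtain ⟨i, hi⟩ := h
    obtain ⟨N, hN⟩ := escape 𝕜 _ ‖f‖ (norm_pos_iff.2 hi)
    have hF : ((fun n : ℕ => ((1 + T 𝕜) ^ n) f) '' Set.Iio N).Finite := (Set.finite_Iio N).image _
    have := Module.punctured_nhds_neBot 𝕜 (XX 𝕜) 0
    have hinf : (Metric.ball (0 : XX 𝕜) 1).Infinite :=
      infinite_of_mem_nhds 0 (Metric.ball_mem_nhds _ one_pos)
    obtain ⟨_, ⟨h1, h2⟩, n, rfl⟩ := hd.inter_open_nonempty _ (Metric.isOpen_ball.sdiff hF.isClosed)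
      (hinf.sdiff hF).nonempty
    rw [mem_ball_zero_iff] at h1
    exact h2 ⟨n, not_le.1 fun hn => absurd h1 (not_lt.2 (hN n hn f le_rfl i le_rfl)), rfl⟩

end

end Pool.Agent.H14.Hyper
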