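import Mathlib

set_option autoImplicit false

namespace Pool.Agent.H14.Interp

open MeasureTheory BoundedContinuousFunction Filter Topology
open scoped ENNReal ZeroAtInfty

variable (𝕜 : Type) [RCLike 𝕜]

abbrev B : Type := ℕ →ᵇ 𝕜
abbrev E0 : Type := B 𝕜 × 𝕜
abbrev E1 : Type := C₀(ℕ, 𝕜) × 𝕜

def w (n : ℕ) : ℝ := ((n : ℝ) + 1) ^ 2

lemma one_le_w (n : ℕ) : 1 ≤ w n := one_le_pow₀ (by simp)

lemma w_pos (n : ℕ) : 0 < w n := lt_of_lt_of_le one_pos (one_le_w n)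

noncomputable def winv : B 𝕜 :=
  ofNormedAddCommGroupDiscrete (fun n => (((w n)⁻¹ : ℝ) : 𝕜)) 1 fun n => by
    rw [RCLike.norm_ofReal, abs_of_pos (inv_pos.2 (w_pos n))]
    exact inv_le_one_of_one_le₀ (one_le_w n)

noncomputable def J : B 𝕜 →L[𝕜] B 𝕜 := ContinuousLinearMap.mul 𝕜 (B 𝕜) (winv 𝕜)

lemma J_apply (z : B 𝕜) (n : ℕ) : J 𝕜 z n = (((w n)⁻¹ : ℝ) : 𝕜) * z n := rfl

lemma norm_J_apply (z : B 𝕜) (n : ℕ) : ‖J 𝕜 z n‖ = (w n)⁻¹ * ‖z n‖ := by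
  rw [J_apply, norm_mul, RCLike.norm_ofReal, abs_of_pos (inv_pos.2 (w_pos n))]

lemma J_inj : Function.Injective (J 𝕜) := by
  intro z z' h
  ext n
  have := congrArg (fun f : B 𝕜 => f n) h
  simp only [J_apply] at this
  exact mul_left_cancel₀ (by exact_mod_cast (inv_pos.2 (w_pos n)).ne') this

noncomputable def toB : C₀(ℕ, 𝕜) →L[𝕜] B 𝕜 :=
  LinearMap.mkContinuous
    { toFun := ZeroAtInftyContinuousMap.toBCF, map_add' := fun _ _ => rfl,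
      map_smul' := fun _ _ => rfl } 1 (fun u => by simp)

lemma toB_apply (u : C₀(ℕ, 𝕜)) (n : ℕ) : toB 𝕜 u n = u n := rfl

lemma c0_le (u : C₀(ℕ, 𝕜)) (n : ℕ) : ‖u n‖ ≤ ‖u‖ := norm_coe_le_norm u.toBCF n

noncomputable def iA : E1 𝕜 →L[𝕜] E0 𝕜 :=
  ((J 𝕜).comp (toB 𝕜)).prodMap (ContinuousLinearMap.id 𝕜 𝕜)

lemma iA_apply (p : E1 𝕜) : iA 𝕜 p = (J 𝕜 (toB 𝕜 p.1), p.2) := rfl

lemma iA_inj : Function.Injective (iA 𝕜) := by
  rintro ⟨u, y⟩ ⟨u', y'⟩ h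
  simp only [iA_apply, Prod.mk.injEq] at h
  have h1 : u.toBCF = u'.toBCF := J_inj 𝕜 h.1
  rw [h.2, ZeroAtInftyContinuousMap.toBCF_injective _ _ h1]

noncomputable def U (a : E0 𝕜) : B 𝕜 :=
  ofNormedAddCommGroupDiscrete (fun n => ((min ‖a.1 n‖ ‖a.2‖ : ℝ) : 𝕜)) ‖a.2‖ fun n => by
    rw [RCLike.norm_ofReal, abs_of_nonneg (by positivity)]
    exact min_le_right _ _

lemma U_apply (a : E0 𝕜) (n : ℕ) : U 𝕜 a n = ((min ‖a.1 n‖ ‖a.2‖ : ℝ) : 𝕜) := rfl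

noncomputable def V (p : E1 𝕜) : B 𝕜 :=
  ofNormedAddCommGroupDiscrete (fun n => ((min ‖p.1 n‖ (w n * ‖p.2‖) : ℝ) : 𝕜)) ‖p.1‖ fun n => by
    have := w_pos n
    rw [RCLike.norm_ofReal, abs_of_nonneg (by positivity)]
    exact (min_le_left _ _).trans (c0_le 𝕜 _ n)

lemma V_apply (p : E1 𝕜) (n : ℕ) : V 𝕜 p n = ((min ‖p.1 n‖ (w n * ‖p.2‖) : ℝ) : 𝕜) := rfl

lemma U_lip (a b : E0 𝕜) : ‖U 𝕜 a - U 𝕜 b‖ ≤ 1 * ‖a - b‖ := by
  rw [one_mul, norm_le (norm_nonneg _)]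
  intro n
  rw [BoundedContinuousFunction.sub_apply, U_apply, U_apply, ← RCLike.ofReal_sub,
    RCLike.norm_ofReal]
  refine (abs_min_sub_min_le_max _ _ _ _).trans (max_le ?_ ?_)
  · refine (abs_norm_sub_norm_le _ _).trans ?_
    exact (norm_coe_le_norm (a - b).1 n).trans (norm_fst_le (a - b))
  · exact (abs_norm_sub_norm_le _ _).trans (norm_snd_le (a - b))

lemma U_iA (p : E1 𝕜) : U 𝕜 (iA 𝕜 p) = J 𝕜 (V 𝕜 p) := by
  ext n
  have := w_pos n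
  rw [U_apply, J_apply, V_apply, iA_apply, norm_J_apply, toB_apply, ← RCLike.ofReal_mul,
    mul_min_of_nonneg _ _ (by positivity), ← mul_assoc, inv_mul_cancel₀ this.ne', one_mul]

lemma V_bound (p : E1 𝕜) : ‖V 𝕜 p‖ ≤ 1 * ‖p‖ := by
  rw [one_mul]
  refine le_trans ((norm_le (norm_nonneg _)).2 fun n => ?_) (norm_fst_le p)
  have := w_pos n
  rw [V_apply, RCLike.norm_ofReal, abs_of_nonneg (by positivity)]
  exact (min_le_left _ _).trans (c0_le 𝕜 _ n)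

lemma V_cont : Continuous (V 𝕜) := by
  rw [Metric.continuous_iff]
  intro p ε hε
  have h1 : ∀ᶠ n in atTop, ‖p.1 n‖ < ε / 4 := by
    have := zero_at_infty p.1
    rw [cocompact_eq_cofinite, Nat.cofinite_eq_atTop] at this
    simpa using (NormedAddGroup.tendsto_nhds_zero.1 this) (ε / 4) (by positivity)
  obtain ⟨N, hN⟩ := eventually_atTop.1 h1
  have hw := w_pos N
  have hw1 := one_le_w N
  refine ⟨ε / (4 * w N), by positivity, fun q hq => ?_⟩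
  have hq' : ‖q - p‖ * w N ≤ ε / 4 := by
    rw [dist_eq_norm, lt_div_iff₀ (by positivity)] at hq
    linarith
  have hq1 : ‖q - p‖ ≤ ε / 4 := by nlinarith [norm_nonneg (q - p)]
  refine lt_of_le_of_lt (b := ε / 2) ?_ (by linarith)
  rw [dist_eq_norm, norm_le (by positivity)]
  intro n
  have hn := w_pos n
  have h2 : |‖q.1 n‖ - ‖p.1 n‖| ≤ ε / 4 :=
    (abs_norm_sub_norm_le _ _).trans
      (((c0_le 𝕜 (q - p).1 n).trans (norm_fst_le (q - p))).trans hq1)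
  rw [BoundedContinuousFunction.sub_apply, V_apply, V_apply, ← RCLike.ofReal_sub,
    RCLike.norm_ofReal]
  by_cases h : N ≤ n
  · have h3 := hN n h
    have h4 := min_le_left ‖q.1 n‖ (w n * ‖q.2‖)
    have h5 := min_le_left ‖p.1 n‖ (w n * ‖p.2‖)
    have h6 : 0 ≤ min ‖q.1 n‖ (w n * ‖q.2‖) := by positivity
    have h7 : 0 ≤ min ‖p.1 n‖ (w n * ‖p.2‖) := by positivity
    rw [abs_le] at h2 ⊢
    constructor <;> linarith [h2.1, h2.2]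
  · refine (abs_min_sub_min_le_max _ _ _ _).trans (max_le (by linarith) ?_)
    rw [← mul_sub, abs_mul, abs_of_pos hn]
    have h3 : |‖q.2‖ - ‖p.2‖| ≤ ‖q - p‖ := (abs_norm_sub_norm_le _ _).trans (norm_snd_le (q - p))
    have h4 : w n ≤ w N := by
      unfold w
      gcongr
      omega
    calc w n * |‖q.2‖ - ‖p.2‖| ≤ w N * ‖q - p‖ := by gcongr
      _ ≤ ε / 2 := by linarith

noncomputable def xs : B 𝕜 :=
  ofNormedAddCommGroupDiscrete (fun n => ((((n : ℝ) + 1)⁻¹ : ℝ) : 𝕜)) 1 fun n => by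
    rw [RCLike.norm_ofReal, abs_of_pos (by positivity)]
    exact inv_le_one_of_one_le₀ (by simp)

lemma xs_apply (n : ℕ) : xs 𝕜 n = ((((n : ℝ) + 1)⁻¹ : ℝ) : 𝕜) := rfl

noncomputable def mu : Measure ℝ :=
  (volume.restrict (Set.Ioi (0 : ℝ))).withDensity fun t => ENNReal.ofReal t⁻¹

lemma upper {ι : Type} (g : ℝ → ι → ℝ) (C : ℝ) (hg : ∀ t, 0 < t → ∀ i, 0 ≤ g t i)
    (h : ∀ s, 0 < s → ∃ i, g (s ^ 2) i ≤ C * s) :
    eLpNorm (fun t : ℝ => t ^ (-(1 / 2 : ℝ)) * ⨅ i, g t i) ∞ mu ≤ ENNReal.ofReal C := by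
  rw [eLpNorm_exponent_top]
  apply eLpNormEssSup_le_of_ae_bound
  refine (withDensity_absolutelyContinuous _ _).ae_le ?_
  filter_upwards [ae_restrict_mem measurableSet_Ioi] with t ht
  have ht : 0 < t := ht
  have hs := Real.sqrt_pos.2 ht
  obtain ⟨i, hi⟩ := h _ hs
  rw [Real.sq_sqrt ht.le] at hi
  have h1 : ⨅ i, g t i ≤ g t i := ciInf_le ⟨0, by rintro _ ⟨j, rfl⟩; exact hg t ht j⟩ i
  have h2 : 0 ≤ ⨅ i, g t i := Real.iInf_nonneg (hg t ht)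
  change ‖t ^ (-(1 / 2 : ℝ)) * ⨅ i, g t i‖ ≤ C
  rw [Real.rpow_neg ht.le, ← Real.sqrt_eq_rpow, Real.norm_eq_abs, abs_of_nonneg (by positivity),
    inv_mul_le_iff₀ hs]
  linarith

lemma lower (f : ℝ → ℝ) (a : ℝ) (ha : 0 < a) (h : ∀ t, a < t → t < 4 * a → 1 / 2 ≤ f t) :
    ENNReal.ofReal (1 / 2) ≤ eLpNorm f ∞ mu := by
  rw [eLpNorm_exponent_top]
  by_contra hc
  push Not at hc
  have h1 : ∀ᵐ t ∂mu, t ∉ Set.Ioo a (4 * a) := by
    filter_upwards [ae_le_eLpNormEssSup (f := f) (μ := mu)] with t ht hm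
    have h2 := lt_of_le_of_lt ht hc
    rw [← ofReal_norm, ENNReal.ofReal_lt_ofReal_iff (by norm_num)] at h2
    have := h t hm.1 hm.2
    have := le_abs_self (f t)
    rw [Real.norm_eq_abs] at h2
    linarith
  rw [mu, ae_withDensity_iff (by fun_prop), ae_restrict_iff' measurableSet_Ioi] at h1
  have h3 : ∀ᵐ t ∂(volume : Measure ℝ), t ∉ Set.Ioo a (4 * a) := by
    filter_upwards [h1] with t ht hm
    have h4 : 0 < t := ha.trans hm.1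
    exact ht h4 (by simpa using h4) hm
  rw [← measure_eq_zero_iff_ae_notMem, Real.volume_Ioo, ENNReal.ofReal_eq_zero] at h3
  linarith

noncomputable def trunc (s : ℝ) (hs : 0 < s) : C₀(ℕ, 𝕜) where
  toFun n := if ((n : ℝ) + 1) * s ≤ 1 then (((n : ℝ) + 1 : ℝ) : 𝕜) else 0
  continuous_toFun := continuous_of_discreteTopology
  zero_at_infty' := by
    rw [cocompact_eq_cofinite, Nat.cofinite_eq_atTop]
    apply tendsto_const_nhds.congr'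
    obtain ⟨N, hN⟩ := exists_nat_gt (1 / s)
    filter_upwards [eventually_ge_atTop N] with n hn
    rw [if_neg]
    rw [div_lt_iff₀ hs] at hN
    have : (N : ℝ) ≤ n := by exact_mod_cast hn
    nlinarith

lemma trunc_apply (s : ℝ) (hs : 0 < s) (n : ℕ) :
    trunc 𝕜 s hs n = if ((n : ℝ) + 1) * s ≤ 1 then (((n : ℝ) + 1 : ℝ) : 𝕜) else 0 := rfl

lemma K_point (y : 𝕜) (hy : ‖y‖ ≤ 1) :
    eLpNorm (fun t : ℝ => t ^ (-(1 / 2 : ℝ)) *
      ⨅ p : E1 𝕜, (‖((xs 𝕜, y) : E0 𝕜) - iA 𝕜 p‖ + t * ‖p‖)) ∞ mu < ∞ := by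
  refine lt_of_le_of_lt (upper _ 2 (fun t ht p => by positivity) fun s hs => ?_)
    ENNReal.ofReal_lt_top
  refine ⟨(trunc 𝕜 s hs, if s ≤ 1 then y else 0), ?_⟩
  have h1 : ‖xs 𝕜 - J 𝕜 (toB 𝕜 (trunc 𝕜 s hs))‖ ≤ s := by
    rw [norm_le hs.le]
    intro n
    have hn : (0 : ℝ) < (n : ℝ) + 1 := by positivity
    rw [BoundedContinuousFunction.sub_apply, J_apply, toB_apply, trunc_apply, xs_apply]
    split_ifs with h
    · rw [← RCLike.ofReal_mul, ← RCLike.ofReal_sub, RCLike.norm_ofReal, w]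
      have : ((n : ℝ) + 1)⁻¹ - (((n : ℝ) + 1) ^ 2)⁻¹ * ((n : ℝ) + 1) = 0 := by field_simp; ring
      rw [this, abs_zero]
      exact hs.le
    · rw [mul_zero, sub_zero, RCLike.norm_ofReal, abs_of_pos (by positivity),
        inv_le_iff_one_le_mul₀ hn]
      linarith
  have h2 : ‖trunc 𝕜 s hs‖ ≤ s⁻¹ := by
    rw [← ZeroAtInftyContinuousMap.norm_toBCF_eq_norm, norm_le (by positivity)]
    intro n
    change ‖trunc 𝕜 s hs n‖ ≤ _
    rw [trunc_apply]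
    split_ifs with h
    · rw [RCLike.norm_ofReal, abs_of_pos (by positivity), ← one_div, le_div_iff₀ hs]
      exact h
    · rw [norm_zero]; positivity
  have h3 : ‖((xs 𝕜, y) : E0 𝕜) - iA 𝕜 (trunc 𝕜 s hs, if s ≤ 1 then y else 0)‖ ≤ s := by
    rw [iA_apply, Prod.mk_sub_mk, Prod.norm_mk]
    refine max_le h1 ?_
    split_ifs with h
    · simp [hs.le]
    · simp only [sub_zero]; linarith
  have h4 : ‖((trunc 𝕜 s hs, if s ≤ 1 then y else 0) : E1 𝕜)‖ ≤ s⁻¹ := by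
    rw [Prod.norm_mk]
    refine max_le h2 ?_
    split_ifs with h
    · exact hy.trans (one_le_inv₀ hs |>.2 h)
    · rw [norm_zero]; positivity
  have h5 : s ^ 2 * s⁻¹ = s := by field_simp
  nlinarith [mul_le_mul_of_nonneg_left h4 (sq_nonneg s)]

lemma K_diff (y : 𝕜) :
    eLpNorm (fun t : ℝ => t ^ (-(1 / 2 : ℝ)) *
      ⨅ p : E1 𝕜, (‖(((xs 𝕜, y) : E0 𝕜) - (xs 𝕜, 0)) - iA 𝕜 p‖ + t * ‖p‖)) ∞ mu ≤
      ENNReal.ofReal ‖y‖ := by
  refine upper _ _ (fun t ht p => by positivity) fun s hs => ?_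
  by_cases h : s ≤ 1
  · refine ⟨(0, y), ?_⟩
    simp only [iA_apply, Prod.mk_sub_mk, sub_self, map_zero, sub_zero, Prod.norm_mk, norm_zero,
      zero_add, norm_nonneg, sup_of_le_right]
    nlinarith [mul_nonneg (norm_nonneg y) hs.le]
  · refine ⟨0, ?_⟩
    simp only [Prod.mk_sub_mk, sub_self, map_zero, sub_zero, Prod.norm_mk, norm_zero,
      norm_nonneg, sup_of_le_right, mul_zero, add_zero]
    nlinarith [norm_nonneg y]

lemma K_image (m : ℕ) :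
    ENNReal.ofReal (1 / 2) ≤ eLpNorm (fun t : ℝ => t ^ (-(1 / 2 : ℝ)) *
      ⨅ z : B 𝕜, (‖(U 𝕜 (xs 𝕜, ((((m : ℝ) + 1)⁻¹ : ℝ) : 𝕜)) - U 𝕜 (xs 𝕜, 0)) - J 𝕜 z‖ +
        t * ‖z‖)) ∞ mu := by
  have hm : (0 : ℝ) < (m : ℝ) + 1 := by positivity
  refine lower _ (w m)⁻¹ (inv_pos.2 (w_pos m)) fun t h1 h2 => ?_
  have ht : 0 < t := (inv_pos.2 (w_pos m)).trans h1
  have h3 : ((m : ℝ) + 1)⁻¹ ≤ ⨅ z : B 𝕜,
      (‖(U 𝕜 (xs 𝕜, ((((m : ℝ) + 1)⁻¹ : ℝ) : 𝕜)) - U 𝕜 (xs 𝕜, 0)) - J 𝕜 z‖ + t * ‖z‖) := by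
    refine le_ciInf fun z => ?_
    set D := U 𝕜 (xs 𝕜, ((((m : ℝ) + 1)⁻¹ : ℝ) : 𝕜)) - U 𝕜 (xs 𝕜, 0) with hD
    have h4 : ‖D m‖ = ((m : ℝ) + 1)⁻¹ := by
      rw [hD, BoundedContinuousFunction.sub_apply, U_apply, U_apply, xs_apply]
      have h0 : |((m : ℝ) + 1)⁻¹| = ((m : ℝ) + 1)⁻¹ := abs_of_pos (by positivity)
      simp only [norm_zero, RCLike.norm_ofReal, h0, min_self]
      rw [min_eq_right (by positivity), RCLike.ofReal_zero, sub_zero, RCLike.norm_ofReal, h0]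
    have h5 : ‖D m‖ ≤ ‖(D - J 𝕜 z) m‖ + ‖J 𝕜 z m‖ := by
      rw [BoundedContinuousFunction.sub_apply]
      exact norm_le_norm_sub_add _ _
    have h6 := norm_coe_le_norm (D - J 𝕜 z) m
    have h7 : ‖J 𝕜 z m‖ ≤ t * ‖z‖ := by
      rw [norm_J_apply]
      exact mul_le_mul h1.le (norm_coe_le_norm z m) (norm_nonneg _) ht.le
    linarith
  have hs := Real.sqrt_pos.2 ht
  have h8 : √t ≤ 2 * ((m : ℝ) + 1)⁻¹ := by
    rw [Real.sqrt_le_left (by positivity), mul_pow, inv_pow]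
    rw [w] at h2
    linarith
  rw [Real.rpow_neg ht.le, ← Real.sqrt_eq_rpow, le_inv_mul_iff₀ hs]
  linarith

theorem discont (δ : ℝ≥0∞) (hδ : 0 < δ) : ∃ m : ℕ,
    ‖((((m : ℝ) + 1)⁻¹ : ℝ) : 𝕜)‖ ≤ 1 ∧ ENNReal.ofReal ‖((((m : ℝ) + 1)⁻¹ : ℝ) : 𝕜)‖ < δ := by
  obtain ⟨m, hm⟩ := ENNReal.exists_inv_nat_lt hδ.ne'
  refine ⟨m, ?_, lt_of_le_of_lt ?_ hm⟩
  · rw [RCLike.norm_ofReal, abs_of_pos (by positivity)]
    exact inv_le_one_of_one_le₀ (by simp)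
  · rw [RCLike.norm_ofReal, abs_of_pos (by positivity), ENNReal.ofReal_inv_of_pos (by positivity),
      ENNReal.inv_le_inv, ← ENNReal.ofReal_natCast]
    exact ENNReal.ofReal_le_ofReal (by linarith)

end Pool.Agent.H14.Interp
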