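import Mathlib

set_option autoImplicit false

namespace Pool.Agent.H14.Kreiss

open Finset Complex

variable {d : ℕ}

abbrev X (d : ℕ) : Type := Fin d → ℂ

noncomputable def tail (c : X d) (m : ℕ) : ℂ := ∑ j : Fin d, if m ≤ j.val then c j else 0

noncomputable def S : X d →ₗ[ℂ] X d where
  toFun c i := tail c i
  map_add' c c' := by
    funext i
    simp only [tail, Pi.add_apply, ← sum_add_distrib]
    exact sum_congr rfl fun j _ => by split_ifs <;> simp
  map_smul' a c := by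
    funext i
    simp only [tail, Pi.smul_apply, smul_eq_mul, RingHom.id_apply, mul_sum]
    exact sum_congr rfl fun j _ => by split_ifs <;> simp

lemma tail_le (c : X d) (m : ℕ) : ‖tail c m‖ ≤ ‖S c‖ := by
  by_cases h : m < d
  · exact norm_le_pi_norm (S c) ⟨m, h⟩
  · rw [tail, sum_eq_zero fun j _ => if_neg (by have := j.2; omega), norm_zero]
    exact norm_nonneg _

lemma coord (c : X d) (j : Fin d) : c j = tail c j - tail c (j + 1) := by
  rw [tail, tail, ← sum_sub_distrib, sum_eq_single j]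
  · simp
  · intro i _ hi
    have : i.val ≠ j.val := fun h => hi (Fin.ext h)
    split_ifs <;> first | omega | simp
  · simp

lemma coord_le (c : X d) (j : Fin d) : ‖c j‖ ≤ 2 * ‖S c‖ := by
  rw [coord c j]
  have h1 := tail_le c j
  have h2 := tail_le c (j + 1)
  linarith [norm_sub_le (tail c j) (tail c (j + 1))]

lemma S_inj : Function.Injective (S : X d →ₗ[ℂ] X d) := by
  rw [injective_iff_map_eq_zero]
  intro c hc
  funext j
  have := coord_le c j
  rw [hc, norm_zero, mul_zero] at this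
  exact norm_le_zero_iff.1 this

noncomputable def Se : X d ≃ₗ[ℂ] X d := LinearEquiv.ofInjectiveEndo S S_inj

noncomputable def Phi : X d →ₐ[ℂ] (X d →L[ℂ] X d) :=
  (Module.End.toContinuousLinearMap (X d)).toAlgHom.comp
    ((Se.conjAlgEquiv ℂ).toAlgHom.comp (Algebra.lmul ℂ (X d)))

lemma Phi_S (a c : X d) : Phi a (S c) = S (a * c) := by
  change Se (a * Se.symm (Se c)) = _
  rw [LinearEquiv.symm_apply_apply]
  rfl

lemma Phi_norm (g : X d) (J : ℕ) (z : ℂ) :
    ‖Phi g‖ ≤ ‖z‖ + 2 * ∑ j : Fin d, ‖g j - if J ≤ j.val then z else 0‖ := by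
  refine ContinuousLinearMap.opNorm_le_bound _ (by positivity) fun x => ?_
  obtain ⟨c, rfl⟩ := (Se (d := d)).surjective x
  change ‖Phi g (S c)‖ ≤ _ * ‖S c‖
  rw [Phi_S, pi_norm_le_iff_of_nonneg (by positivity)]
  intro i
  have h : S (g * c) i = z * tail c (max i J) +
      ∑ j : Fin d, if i.val ≤ j.val then (g j - if J ≤ j.val then z else 0) * c j else 0 := by
    change tail (g * c) i = _
    simp only [tail, mul_sum, ← sum_add_distrib, Pi.mul_apply, max_le_iff]
    refine sum_congr rfl fun j _ => ?_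
    by_cases h1 : i.val ≤ j.val <;> by_cases h2 : J ≤ j.val <;> simp [h1, h2]
    ring
  rw [h, add_mul, mul_sum, sum_mul]
  refine (norm_add_le _ _).trans (add_le_add ?_ ((norm_sum_le _ _).trans (sum_le_sum ?_)))
  · rw [norm_mul]
    exact mul_le_mul_of_nonneg_left (tail_le _ _) (norm_nonneg _)
  · intro j _
    split_ifs <;> simp only [norm_mul, norm_zero] <;>
      first | positivity | nlinarith [coord_le c j, norm_nonneg (g j - z), norm_nonneg (g j - 0)]

def m : ℕ → ℕ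
  | 0 => 0
  | j + 1 => 2 * m j + 3

lemma m_mono : StrictMono m := strictMono_nat_of_lt_succ fun j => by rw [m]; omega

noncomputable def v (j : ℕ) : ℝ := 3 ^ m j

lemma v_pos (j : ℕ) : 0 < v j := by unfold v; positivity

lemma one_le_v (j : ℕ) : 1 ≤ v j := one_le_pow₀ (by norm_num)

lemma v_succ (j : ℕ) : v (j + 1) = 27 * v j ^ 2 := by
  simp only [v, m]
  ring

lemma v_succ_ge (j : ℕ) : 27 * v j ≤ v (j + 1) := by
  rw [v_succ]; nlinarith [one_le_v j]

lemma v_lt {i j : ℕ} (h : i < j) : 27 * v i ≤ v j :=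
  (v_succ_ge i).trans (pow_le_pow_right₀ (by norm_num) (m_mono.monotone h))

lemma sum_v (N : ℕ) : ∑ j ∈ range (N + 1), v j ≤ 2 * v N := by
  induction N with
  | zero => simp; linarith [v_pos 0]
  | succ N ih => rw [sum_range_succ]; linarith [v_succ_ge N, v_pos N]

lemma sum_u (a N : ℕ) : ∑ j ∈ range N, (v (a + j))⁻¹ + 2 * (v (a + N))⁻¹ ≤ 2 * (v a)⁻¹ := by
  induction N with
  | zero => simp
  | succ N ih =>
    rw [sum_range_succ, ← add_assoc]
    have h1 := v_succ_ge (a + N)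
    have h2 := v_pos (a + N)
    have : 2 * (v (a + N + 1))⁻¹ ≤ (v (a + N))⁻¹ := by
      rw [← div_eq_mul_inv, ← one_div, div_le_div_iff₀ (v_pos _) h2]
      linarith
    linarith

def q (j : ℕ) : ℕ := (if Odd j then 2 else 1) * 3 ^ m j

lemma q_bounds (j : ℕ) : v j ≤ q j ∧ (q j : ℝ) ≤ 2 * v j := by
  have := v_pos j
  unfold q
  split_ifs <;> push_cast <;> change _ ≤ _ * v j ∧ _ * v j ≤ _ <;> constructor <;> linarith

noncomputable def mu (j : ℕ) : ℂ := exp (I * (Real.pi / q j : ℝ))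

lemma norm_mu (j : ℕ) : ‖mu j‖ = 1 := norm_exp_I_mul_ofReal _

lemma mu_dist (j : ℕ) : (v j)⁻¹ ≤ ‖mu j - 1‖ ∧ ‖mu j - 1‖ ≤ 4 * (v j)⁻¹ := by
  obtain ⟨h1, h2⟩ := q_bounds j
  have h3 := one_le_v j
  have hq : (0 : ℝ) < q j := by linarith
  have hpi := Real.pi_pos
  constructor
  · rw [mu, norm_exp_I_mul_ofReal_sub_one]
    have h4 := Real.mul_le_sin (x := Real.pi / q j / 2) (by positivity) (by
      gcongr
      exact div_le_self hpi.le (by linarith))
    have h5 : 2 / Real.pi * (Real.pi / q j / 2) = (q j : ℝ)⁻¹ := by field_simp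
    have h6 : (v j)⁻¹ ≤ 2 * (q j : ℝ)⁻¹ := by
      rw [← div_eq_mul_inv, ← one_div, div_le_div_iff₀ (by linarith) hq]
      linarith
    refine h6.trans (le_trans ?_ (le_abs_self _))
    linarith
  · refine Real.norm_exp_I_mul_ofReal_sub_one_le.trans ?_
    rw [Real.norm_eq_abs, abs_of_pos (by positivity), ← div_eq_mul_inv]
    gcongr
    exact Real.pi_le_four

lemma mu_pow (j N : ℕ) (h : j ≤ N) : mu j ^ (2 * 3 ^ m N) = (-1) ^ j := by
  obtain ⟨k, hk⟩ := Nat.exists_eq_add_of_le (m_mono.monotone h)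
  have h3 : ((3 : ℂ)) ^ m j ≠ 0 := pow_ne_zero _ (by norm_num)
  rw [mu, ← exp_nat_mul]
  by_cases hj : Odd j
  · have : ((2 * 3 ^ m N : ℕ) : ℂ) * (I * (Real.pi / q j : ℝ)) =
        ((3 ^ k : ℕ) : ℂ) * (Real.pi * I) := by
      rw [q, if_pos hj, hk]
      push_cast
      field_simp
      ring
    rw [this, exp_nat_mul, exp_pi_mul_I, hj.neg_one_pow, Odd.neg_one_pow]
    exact Odd.pow (by decide)
  · have : ((2 * 3 ^ m N : ℕ) : ℂ) * (I * (Real.pi / q j : ℝ)) =
        ((3 ^ k : ℕ) : ℂ) * (2 * Real.pi * I) := by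
      rw [q, if_neg hj, hk]
      push_cast
      field_simp
      ring
    rw [this, exp_nat_mul, exp_two_pi_mul_I, one_pow, (Nat.not_odd_iff_even.1 hj).neg_one_pow]

lemma pow_lip (a b : ℂ) (ha : ‖a‖ ≤ 1) (hb : ‖b‖ ≤ 1) (k : ℕ) :
    ‖a ^ k - b ^ k‖ ≤ k * ‖a - b‖ := by
  induction k with
  | zero => simp
  | succ k ih =>
    have h : a ^ (k + 1) - b ^ (k + 1) = a * (a ^ k - b ^ k) + (a - b) * b ^ k := by ring
    have h1 : ‖b ^ k‖ ≤ 1 := by rw [norm_pow]; exact pow_le_one₀ (norm_nonneg _) hb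
    rw [h]
    refine (norm_add_le _ _).trans ?_
    rw [norm_mul, norm_mul]
    push_cast
    nlinarith [norm_nonneg (a ^ k - b ^ k), norm_nonneg (a - b), norm_nonneg a]

section scalar
variable (lam : ℂ) (hl : 1 < ‖lam‖)

noncomputable def h (μ : ℂ) : ℂ := ((‖lam‖ - 1 : ℝ) : ℂ) / (lam - μ)

include hl

omit hl in
lemma dist_ge {μ : ℂ} (hμ : ‖μ‖ = 1) : ‖lam‖ - 1 ≤ ‖lam - μ‖ := by
  rw [← hμ]; exact norm_sub_norm_le _ _

lemma h_le {μ : ℂ} (hμ : ‖μ‖ = 1) : ‖h lam μ‖ ≤ 1 := by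
  have := dist_ge lam hμ
  rw [h, norm_div, norm_real, Real.norm_eq_abs, abs_of_pos (by linarith)]
  exact div_le_one_of_le₀ this (norm_nonneg _)

lemma h_lip {μ : ℂ} (hμ : ‖μ‖ = 1) : ‖h lam μ - h lam 1‖ ≤ ‖μ - 1‖ / (‖lam‖ - 1) := by
  have h1 := dist_ge lam hμ
  have h2 := dist_ge lam (norm_one (α := ℂ))
  have h3 : lam - μ ≠ 0 := norm_pos_iff.1 (by linarith)
  have h4 : lam - 1 ≠ 0 := norm_pos_iff.1 (by linarith)
  have h5 : h lam μ - h lam 1 = h lam μ * ((μ - 1) / (lam - 1)) := by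
    simp only [h]
    field_simp
    ring
  rw [h5, norm_mul, norm_div]
  have h6 := h_le lam hl hμ
  calc ‖h lam μ‖ * (‖μ - 1‖ / ‖lam - 1‖) ≤ 1 * (‖μ - 1‖ / (‖lam‖ - 1)) := by
        gcongr
    _ = _ := one_mul _

lemma h_decay {μ : ℂ} (hμ : ‖μ‖ = 1) (k : ℕ) :
    ‖h lam μ ^ k‖ ^ 2 * (k / (‖lam‖ - 1) * ‖lam / ‖lam‖ - μ‖ ^ 2) ≤ 1 := by
  set R := ‖lam‖ with hR
  set w := lam / R with hw
  have hR0 : (R : ℂ) ≠ 0 := by exact_mod_cast (by linarith : R ≠ 0)
  have hw1 : ‖w‖ = 1 := by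
    rw [hw, norm_div, norm_real, Real.norm_eq_abs, abs_of_pos (by linarith), div_self (by linarith)]
  have hlam : lam = R * w := by rw [hw]; field_simp
  have h1 : ‖lam - μ‖ ^ 2 = (R - 1) ^ 2 + R * ‖w - μ‖ ^ 2 := by
    have e1 : w.re ^ 2 + w.im ^ 2 = 1 := by
      have := Complex.sq_norm w
      rw [hw1, normSq_apply] at this
      linarith
    have e2 : μ.re ^ 2 + μ.im ^ 2 = 1 := by
      have := Complex.sq_norm μ
      rw [hμ, normSq_apply] at this
      linarith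
    rw [hlam, Complex.sq_norm, Complex.sq_norm, normSq_apply, normSq_apply]
    simp only [sub_re, mul_re, ofReal_re, ofReal_im, zero_mul, sub_zero, sub_im, mul_im, add_zero]
    linear_combination (R ^ 2 - R) * e1 + (1 - R) * e2
  set e := ‖w - μ‖ ^ 2 with he
  have he0 : 0 ≤ e := sq_nonneg _
  have hρ : 0 < R - 1 := by linarith
  have h2 : ‖h lam μ‖ ^ 2 * (1 + e / (R - 1)) ≤ 1 := by
    rw [h, norm_div, norm_real, Real.norm_eq_abs, abs_of_pos hρ, div_pow, h1, div_mul_eq_mul_div,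
      div_le_one (by positivity)]
    have : (R - 1) ^ 2 * (1 + e / (R - 1)) = (R - 1) ^ 2 + (R - 1) * e := by field_simp
    rw [this]
    nlinarith
  have h3 := pow_le_one₀ (n := k) (by positivity) h2
  have h4 := one_add_mul_le_pow (a := e / (R - 1)) (by
    have : 0 ≤ e / (R - 1) := by positivity
    linarith) k
  rw [mul_pow, ← pow_mul, mul_comm 2 k, pow_mul, ← norm_pow] at h3
  refine le_trans ?_ h3
  gcongr
  have : (k : ℝ) / (R - 1) * e = k * (e / (R - 1)) := by ring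
  linarith

lemma main_sum (k : ℕ) (hk : 1 ≤ k) (N : ℕ) : ∃ J : ℕ,
    ∑ j ∈ range N, ‖h lam (mu j) ^ k - if J ≤ j then h lam 1 ^ k else 0‖ ≤ 8 := by
  classical
  have hρ : 0 < ‖lam‖ - 1 := by linarith
  set t := √(k / (‖lam‖ - 1)) with ht
  have hk' : (0 : ℝ) < k := by exact_mod_cast hk
  have ht0 : 0 < t := Real.sqrt_pos.2 (by positivity)
  have ht2 : t ^ 2 = k / (‖lam‖ - 1) := Real.sq_sqrt (by positivity)
  have hex : ∃ J, t ≤ v J := by
    obtain ⟨n, hn⟩ := pow_unbounded_of_one_lt t (by norm_num : (1 : ℝ) < 3)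
    exact ⟨n, hn.le.trans (pow_le_pow_right₀ (by norm_num) (m_mono.id_le n))⟩
  set J := Nat.find hex with hJ
  have hJ1 : t ≤ v J := Nat.find_spec hex
  set β := ‖lam / ‖lam‖ - 1‖ with hβ
  have hp : ∀ μ : ℂ, ‖μ‖ = 1 → ‖h lam μ ^ k‖ ≤ 1 := fun μ hμ => by
    rw [norm_pow]; exact pow_le_one₀ (norm_nonneg _) (h_le lam hl hμ)
  refine ⟨J, ?_⟩
  have key : ∀ j, ‖h lam (mu j) ^ k - if J ≤ j then h lam 1 ^ k else 0‖ ≤
      (if j < J then 2 / t * v j else 0) + (if 1 / 2 < β * v j ∧ β * v j < 6 then 1 else 0) +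
      (if j = J then 2 else 0) + (if J + 1 ≤ j then 4 * t ^ 2 * (v j)⁻¹ else 0) := by
    intro j
    have hv := v_pos j
    obtain ⟨d1, d2⟩ := mu_dist j
    have hi : 0 ≤ (if 1 / 2 < β * v j ∧ β * v j < 6 then (1 : ℝ) else 0) := by positivity
    rcases lt_trichotomy j J with hj | hj | hj
    · rw [if_neg (by omega : ¬ J ≤ j), if_pos hj, if_neg (by omega : ¬ j = J),
        if_neg (by omega : ¬ J + 1 ≤ j), sub_zero, add_zero, add_zero]
      split_ifs with hb
      · have := hp _ (norm_mu j)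
        have : 0 ≤ 2 / t * v j := by positivity
        linarith
      · have h1 := h_decay lam hl (norm_mu j) k
        have h2 : (v j)⁻¹ / 2 ≤ ‖lam / ‖lam‖ - mu j‖ := by
          have a1 := norm_sub_le_norm_sub_add_norm_sub (lam / ‖lam‖) (mu j) 1
          have a2 := norm_sub_le_norm_sub_add_norm_sub (mu j) (lam / ‖lam‖) 1
          rw [norm_sub_rev (mu j) (lam / ‖lam‖)] at a2
          have a3 : 0 < (v j)⁻¹ := by positivity
          rcases not_and_or.1 hb with hb | hb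
          · have : β ≤ 1 / 2 * (v j)⁻¹ := by
              rw [← div_eq_mul_inv, le_div_iff₀ hv]; linarith
            linarith
          · have : 6 * (v j)⁻¹ ≤ β := by
              rw [← div_eq_mul_inv, div_le_iff₀ hv]; linarith
            linarith
        rw [← ht2, ← mul_pow, ← mul_pow, sq_le_one_iff₀ (by positivity)] at h1
        have h3 : ‖h lam (mu j) ^ k‖ * (t * ((v j)⁻¹ / 2)) ≤ 1 := le_trans (by gcongr) h1
        rw [← le_div_iff₀ (by positivity)] at h3
        rw [add_zero]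
        refine h3.trans (le_of_eq ?_)
        field_simp
    · rw [if_pos hj.ge, if_neg (by omega : ¬ j < J), if_pos hj, if_neg (by omega : ¬ J + 1 ≤ j)]
      have h1 := hp _ (norm_mu j)
      have h2 := hp _ (norm_one (α := ℂ))
      linarith [norm_sub_le (h lam (mu j) ^ k) (h lam 1 ^ k)]
    · rw [if_pos hj.le, if_neg (by omega : ¬ j < J), if_neg (by omega : ¬ j = J),
        if_pos (by omega : J + 1 ≤ j)]
      have h1 := pow_lip _ _ (h_le lam hl (norm_mu j)) (h_le lam hl (norm_one (α := ℂ))) k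
      have h2 := h_lip lam hl (norm_mu j)
      have h3 : (k : ℝ) * ‖h lam (mu j) - h lam 1‖ ≤ k * (4 * (v j)⁻¹ / (‖lam‖ - 1)) := by
        gcongr
        exact h2.trans (by gcongr)
      have h4 : (k : ℝ) * (4 * (v j)⁻¹ / (‖lam‖ - 1)) = 4 * t ^ 2 * (v j)⁻¹ := by
        rw [ht2]; ring
      linarith
  refine (sum_le_sum fun j _ => key j).trans ?_
  rw [sum_add_distrib, sum_add_distrib, sum_add_distrib]
  have s1 : ∑ j ∈ range N, (if j < J then 2 / t * v j else 0) ≤ 4 := by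
    rw [← sum_filter]
    refine (sum_le_sum_of_subset_of_nonneg (t := range J) (fun j hj => by
      simpa using (mem_filter.1 hj).2) (fun j _ _ => by have := v_pos j; positivity)).trans ?_
    rw [← mul_sum]
    rcases Nat.eq_zero_or_pos J with h0 | h0
    · simp [h0]
    · obtain ⟨K, hK⟩ := Nat.exists_eq_succ_of_ne_zero h0.ne'
      have h1 : ¬ t ≤ v K := Nat.find_min hex (by omega)
      have h2 := sum_v K
      rw [hK, div_mul_eq_mul_div, div_le_iff₀ ht0]
      linarith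
  have s2 : ∑ j ∈ range N, (if 1 / 2 < β * v j ∧ β * v j < 6 then (1 : ℝ) else 0) ≤ 1 := by
    rw [← sum_filter, sum_const, nsmul_eq_mul, mul_one, Nat.cast_le_one, card_le_one]
    have hβ0 : 0 ≤ β := norm_nonneg _
    intro a ha b hb
    obtain ⟨-, a1, a2⟩ := mem_filter.1 ha
    obtain ⟨-, b1, b2⟩ := mem_filter.1 hb
    by_contra hab
    rcases lt_or_gt_of_ne hab with h | h
    · nlinarith [mul_le_mul_of_nonneg_left (v_lt h) hβ0]
    · nlinarith [mul_le_mul_of_nonneg_left (v_lt h) hβ0]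
  have s3 : ∑ j ∈ range N, (if j = J then (2 : ℝ) else 0) ≤ 2 := by
    rw [sum_ite_eq']
    split_ifs <;> norm_num
  have s4 : ∑ j ∈ range N, (if J + 1 ≤ j then 4 * t ^ 2 * (v j)⁻¹ else 0) ≤ 1 := by
    rw [← sum_filter]
    refine (sum_le_sum_of_subset_of_nonneg (t := Ico (J + 1) (J + 1 + N)) (fun j hj => by
      have := mem_filter.1 hj
      simp only [mem_range, mem_Ico] at this ⊢
      omega) (fun j _ _ => by have := v_pos j; positivity)).trans ?_
    rw [sum_Ico_eq_sum_range, ← mul_sum, Nat.add_sub_cancel_left]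
    have h1 := sum_u (J + 1) N
    have h2 : 0 < (v (J + 1 + N))⁻¹ := inv_pos.2 (v_pos _)
    have h3 : t ^ 2 * (v (J + 1))⁻¹ ≤ 1 / 27 := by
      have := v_pos J
      rw [v_succ, ← div_eq_mul_inv, div_le_div_iff₀ (by positivity) (by norm_num)]
      nlinarith
    nlinarith [mul_le_mul_of_nonneg_left (show ∑ j ∈ range N, (v (J + 1 + j))⁻¹ ≤
      2 * (v (J + 1))⁻¹ by linarith) (sq_nonneg t)]
  linarith

end scalar

noncomputable def T (d : ℕ) : X d →L[ℂ] X d := Phi fun j => mu j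

lemma unit_T (lam : ℂ) (hl : 1 < ‖lam‖) :
    (algebraMap ℂ _ lam - T d) * Phi (fun j : Fin d => (lam - mu j)⁻¹) = 1 ∧
    Phi (fun j : Fin d => (lam - mu j)⁻¹) * (algebraMap ℂ _ lam - T d) = 1 := by
  have h : ∀ j, lam - mu j ≠ 0 := fun j =>
    norm_pos_iff.1 (by linarith [dist_ge lam (norm_mu j)])
  rw [T, ← Phi.commutes, ← map_sub, ← map_mul, ← map_mul, ← map_one Phi]
  constructor <;> congr 1 <;> funext j <;> simp [h j]

lemma spec_T : spectrum ℂ (T d) ⊆ Metric.closedBall 0 1 := by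
  intro lam hlam
  rw [mem_closedBall_zero_iff]
  by_contra hl
  obtain ⟨h1, h2⟩ := unit_T (d := d) lam (not_le.1 hl)
  exact hlam ⟨⟨_, _, h1, h2⟩, rfl⟩

lemma res_T (lam : ℂ) (hl : 1 < ‖lam‖) (k : ℕ) (hk : 1 ≤ k) :
    ‖resolvent (T d) lam ^ k‖ ≤ 17 / (‖lam‖ - 1) ^ k := by
  obtain ⟨h1, h2⟩ := unit_T (d := d) lam hl
  have hρ : 0 < ‖lam‖ - 1 := by linarith
  have h3 : resolvent (T d) lam = Phi (fun j : Fin d => (lam - mu j)⁻¹) :=
    Ring.inverse_unit ⟨_, _, h1, h2⟩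
  have h4 : Phi (fun j : Fin d => h lam (mu j) ^ k) =
      (((‖lam‖ - 1) ^ k : ℝ) : ℂ) • resolvent (T d) lam ^ k := by
    rw [h3, ← map_pow, ← map_smul]
    congr 1
    funext j
    simp [h, div_eq_mul_inv, mul_pow]
  obtain ⟨J, hJ⟩ := main_sum lam hl k hk d
  have h5 := Phi_norm (fun j : Fin d => h lam (mu j) ^ k) J (h lam 1 ^ k)
  rw [Fin.sum_univ_eq_sum_range
    (fun j => ‖h lam (mu j) ^ k - if J ≤ j then h lam 1 ^ k else 0‖) d, h4, norm_smul, norm_real,
    Real.norm_eq_abs, abs_of_pos (by positivity)] at h5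
  have h6 : ‖h lam 1 ^ k‖ ≤ 1 := by
    rw [norm_pow]; exact pow_le_one₀ (norm_nonneg _) (h_le lam hl norm_one)
  rw [le_div_iff₀ (by positivity)]
  linarith

lemma pow_T (hd : 1 ≤ d) : (d : ℝ) ≤ ‖T d ^ (2 * 3 ^ m d)‖ := by
  let c : X d := fun j => (-1) ^ j.val
  have h1 : T d ^ (2 * 3 ^ m d) = Phi c := by
    rw [T, ← map_pow]
    congr 1
    funext j
    exact mu_pow j d j.2.le
  have h2 : ‖S c‖ ≤ 1 := by
    rw [pi_norm_le_iff_of_nonneg zero_le_one]
    intro i
    change ‖tail c i‖ ≤ 1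
    rw [tail, Fin.sum_univ_eq_sum_range (fun j => if i.val ≤ j then (-1 : ℂ) ^ j else 0) d,
      ← sum_filter]
    have : (range d).filter (fun j => i.val ≤ j) = Ico i.val d := by
      ext j; simp [and_comm]
    rw [this, sum_Ico_eq_sum_range]
    simp only [pow_add, ← mul_sum, norm_mul, norm_pow, norm_neg, norm_one, one_pow, one_mul,
      neg_one_geom_sum]
    split_ifs <;> simp
  have h3 : S (c * c) ⟨0, hd⟩ = d := by
    change tail (c * c) 0 = d
    simp [tail, c, ← mul_pow]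
  have h4 := norm_le_pi_norm (S (c * c)) ⟨0, hd⟩
  rw [h3, ← Phi_S, Complex.norm_natCast] at h4
  have h5 := (Phi c).le_opNorm (S c)
  rw [h1]
  nlinarith [norm_nonneg (Phi c)]

end Pool.Agent.H14.Kreiss
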