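import Mathlib

set_option autoImplicit false
set_option maxHeartbeats 400000

open Polynomial

namespace Pool.Agent.H14.LNil

def hh {R : Type*} [CommRing R] (p q : R) : ℕ → R
  | 0 => 0
  | m + 1 => p ^ m + q * hh p q m

lemma hh_map {R S : Type*} [CommRing R] [CommRing S] (f : R →+* S) (p q : R) (m : ℕ) :
    f (hh p q m) = hh (f p) (f q) m := by
  induction m with
  | zero => simp [hh]
  | succ m ih => simp [hh, ih]

lemma hh_mul {R : Type*} [CommRing R] (a p q : R) (m : ℕ) :
    hh (a * p) (a * q) (m + 1) = a ^ m * hh p q (m + 1) := by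
  induction m with
  | zero => simp [hh]
  | succ m ih => rw [hh, ih, hh.eq_2 p q (m + 1)]; ring

lemma hh_pow {R : Type*} [CommRing R] (p q : R) (m : ℕ) :
    q ^ m = p ^ m + (q - p) * hh p q m := by
  induction m with
  | zero => simp [hh]
  | succ m ih => rw [hh, pow_succ q, ih]; ring

lemma mpow {R : Type*} [CommRing R] (p q w : R) (m : ℕ) :
    (!![p, w; 0, q] : Matrix (Fin 2) (Fin 2) R) ^ m = !![p ^ m, w * hh p q m; 0, q ^ m] := by
  induction m with
  | zero => simp [hh, Matrix.one_fin_two]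
  | succ m ih =>
    rw [pow_succ, ih, Matrix.mul_fin_two, hh]
    congr 1 <;> ext i j <;> fin_cases i <;> fin_cases j <;> simp <;> ring

lemma hh_monic {S : Type*} [CommRing S] [Nontrivial S] (l : S) (m : ℕ) :
    (hh (C l) X (m + 1)).Monic ∧ (hh (C l) X (m + 1)).natDegree = m := by
  induction m with
  | zero => simp [hh]
  | succ m ih =>
    have h1 : (X * hh (C l) X (m + 1)).Monic := monic_X.mul ih.1
    have h2 : (X * hh (C l) X (m + 1)).natDegree = m + 1 := by
      rw [monic_X.natDegree_mul ih.1, natDegree_X, ih.2, add_comm]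
    have h3 : (C l ^ (m + 1)).degree < (X * hh (C l) X (m + 1)).degree := by
      rw [← C_pow, degree_eq_natDegree h1.ne_zero, h2]
      exact lt_of_le_of_lt degree_C_le (by exact_mod_cast Nat.succ_pos m)
    rw [hh]
    exact ⟨h1.add_of_right h3, by rw [natDegree_add_eq_right_of_degree_lt h3, h2]⟩

lemma ring_ex (K : Type) [Field K] (k : ℕ) : ∃ (R : Type) (_ : CommRing R) (_ : Algebra K R) (l r : R),
    l ^ (k + 2) = 0 ∧ hh l r (k + 2) = 0 ∧ l ^ (k + 1) * hh l r (k + 1) ≠ 0 := by
  let S := AdjoinRoot (X ^ (k + 2) : K[X])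
  let l : S := AdjoinRoot.root _
  have hl : l ^ (k + 1) ≠ 0 := by
    have := AdjoinRoot.mk_ne_zero_of_natDegree_lt (monic_X_pow (R := K) (k + 2))
      (g := X ^ (k + 1)) (pow_ne_zero _ X_ne_zero) (by simp)
    rwa [map_pow, AdjoinRoot.mk_X] at this
  have hl2 : l ^ (k + 2) = 0 := by
    have := AdjoinRoot.mk_self (f := (X ^ (k + 2) : K[X]))
    rwa [map_pow, AdjoinRoot.mk_X] at this
  haveI : Nontrivial S := nontrivial_of_ne _ _ hl
  let f : S[X] := hh (C l) X (k + 2)
  refine ⟨AdjoinRoot f, inferInstance, inferInstance, AdjoinRoot.mk f (C l), AdjoinRoot.mk f X,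
    ?_, ?_, ?_⟩
  · rw [← map_pow, ← map_pow, hl2, map_zero, map_zero]
  · rw [← hh_map]; exact AdjoinRoot.mk_self
  · rw [← hh_map, ← map_pow, ← map_mul, ← map_pow]
    refine AdjoinRoot.mk_ne_zero_of_natDegree_lt (hh_monic l (k + 1)).1 ?_ ?_
    · intro h
      exact hl (C_eq_zero.1 ((hh_monic l k).1.mul_left_eq_zero_iff.1 h))
    · rw [(hh_monic l (k + 1)).2]
      exact lt_of_le_of_lt (natDegree_C_mul_le _ _) (by rw [(hh_monic l k).2]; omega)

end Pool.Agent.H14.LNil
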