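import Mathlib

set_option autoImplicit false

namespace Pool.Agent.H14.LPP

open Finset MvPolynomial

section defs

variable {K : Type} [CommRing K] [Fintype K]

/-- The map of the polynomial `t(x) = x + sum_{k=0}^{q-2} x^k`. -/
def t (y : K) : K := y + ∑ k ∈ range (Fintype.card K - 1), y ^ k

/-- `f n` is the function given by `f_{n+1}` in the variables `x_1, ..., x_{n+1}`. -/
def f : (n : ℕ) → (Fin (n + 1) → K) → K
  | 0, x => x 0
  | n + 1, x => t (f n (Fin.init x) ^ (Fintype.card K - 2) +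
      x (Fin.last (n + 1)) ^ (Fintype.card K - 2))

/-- `g` is the reduced polynomial (degree less than `q` in each variable) giving the function. -/
def IsReducedForm {m : ℕ} (g : MvPolynomial (Fin m) K) (φ : (Fin m → K) → K) : Prop :=
  (∀ i, g.degreeOf i < Fintype.card K) ∧ ∀ x, eval x g = φ x

end defs

abbrev F : Type := ZMod 7

lemma card_F : Fintype.card F = 7 := ZMod.card 7

def s (z y : F) : F := t (z ^ 5 + y ^ 5)

def step (h w : F → F) : F → F := fun z => ∑ y, h (s z y) * w y

def Sm (n : ℕ) (h : F → F) (w : Fin (n + 1) → F → F) : F :=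
  ∑ x : Fin (n + 1) → F, h (f n x) * ∏ i, w i (x i)

lemma Sm_zero (h : F → F) (w : Fin 1 → F → F) : Sm 0 h w = ∑ y, h y * w 0 y := by
  unfold Sm
  rw [← (Equiv.funUnique (Fin 1) F).symm.sum_comp]
  simp [f]

lemma Sm_succ (n : ℕ) (h : F → F) (w : Fin (n + 2) → F → F) :
    Sm (n + 1) h w = Sm n (step h (w (Fin.last _))) (Fin.init w) := by
  unfold Sm
  rw [← (Fin.snocEquiv fun _ => F).sum_comp, Fintype.sum_prod_type, sum_comm]
  refine sum_congr rfl fun x _ => ?_
  simp only [step, sum_mul]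
  refine sum_congr rfl fun y _ => ?_
  rw [Fin.prod_univ_castSucc]
  have e : (Fin.snocEquiv fun _ => F) (y, x) = Fin.snoc (α := fun _ => F) x y := rfl
  rw [e]
  simp only [f, card_F, s, Fin.init_snoc, Fin.snoc_last, Fin.snoc_castSucc]
  simp only [Fin.init]
  ring

lemma s_bij1 (z : F) : Function.Bijective (s z) :=
  Finite.injective_iff_bijective.1 (by revert z; unfold Function.Injective; decide +kernel)

lemma s_bij2 (y : F) : Function.Bijective fun z => s z y :=
  Finite.injective_iff_bijective.1 (by revert y; unfold Function.Injective; decide +kernel)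

lemma Sm_const (n : ℕ) : ∀ (h : F → F) (w : Fin (n + 1) → F → F), ∑ y, h y = 0 →
    (∃ i c, ∀ y, w i y = c) → Sm n h w = 0 := by
  induction n with
  | zero =>
    rintro h w hh ⟨i, c, hc⟩
    rw [Sm_zero]
    rw [Subsingleton.elim (α := Fin 1) i 0] at hc
    simp only [hc, ← sum_mul, hh, zero_mul]
  | succ n ih =>
    rintro h w hh ⟨i, c, hc⟩
    rw [Sm_succ]
    refine Fin.lastCases (fun hc => ?_) (fun j hc => ?_) i hc
    · have : step h (w (Fin.last _)) = fun _ => 0 := by
        funext z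
        simp only [step, hc, ← sum_mul]
        rw [(s_bij1 z).sum_comp h, hh, zero_mul]
      rw [this]
      simp [Sm]
    · refine ih _ _ ?_ ⟨j, c, hc⟩
      simp only [step]
      rw [sum_comm]
      refine sum_eq_zero fun y _ => ?_
      rw [← sum_mul, (s_bij2 y).sum_comp h, hh, zero_mul]

def tab : ℕ → F → F
  | 0 => ![0, 1, 2, 3, 4, 5, 6]
  | 1 => ![2, 2, 5, 2, 4, 2, 4]
  | 2 => ![0, 2, 4, 1, 2, 5, 0]
  | 3 => ![2, 2, 2, 4, 2, 6, 3]
  | 4 => ![0, 2, 1, 0, 4, 0, 0]
  | 5 => ![2, 2, 1, 1, 6, 0, 2]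
  | 6 => ![0, 3, 4, 2, 2, 3, 0]
  | 7 => ![3, 3, 0, 4, 1, 5, 5]
  | 8 => ![0, 6, 0, 6, 0, 2, 0]
  | 9 => ![6, 6, 2, 0, 1, 1, 5]
  | _ => 0

lemma tab_step : ∀ k < 9, step (tab k) (fun y => -y) = tab (k + 1) := by
  have : ∀ k < 9, ∀ z, step (tab k) (fun y => -y) z = tab (k + 1) z := by decide +kernel
  exact fun k hk => funext (this k hk)

lemma Sm_tab (n : ℕ) : ∀ k, k + n = 9 → Sm n (tab k) (fun _ y => -y) = 0 := by
  induction n with
  | zero =>
    intro k hk
    obtain rfl : k = 9 := hk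
    rw [Sm_zero]
    decide +kernel
  | succ n ih =>
    intro k hk
    rw [Sm_succ, tab_step k (by omega)]
    exact ih (k + 1) (by omega)

def c (k : ℕ) (y : F) : F := if k = 0 then (if y = 0 then 1 else 0) else - y ^ (6 - k)

lemma c_dual : ∀ j < 7, ∀ k < 7, ∑ y : F, y ^ j * c k y = if j = k then 1 else 0 := by
  decide +kernel

lemma coeff_eq {m : ℕ} (g : MvPolynomial (Fin m) F) (hg : ∀ i, g.degreeOf i < 7)
    (d : Fin m →₀ ℕ) (hd : d ∈ g.support) :
    coeff d g = ∑ x : Fin m → F, eval x g * ∏ i, c (d i) (x i) := by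
  have hlt : ∀ e ∈ g.support, ∀ i, e i < 7 := fun e he i =>
    lt_of_le_of_lt (monomial_le_degreeOf i he) (hg i)
  simp only [eval_eq', sum_mul]
  rw [sum_comm]
  have : ∀ e ∈ g.support, ∑ x : Fin m → F, (coeff e g * ∏ i, x i ^ e i) * ∏ i, c (d i) (x i) =
      if e = d then coeff e g else 0 := by
    intro e he
    simp only [mul_assoc, ← mul_sum, ← prod_mul_distrib]
    rw [← Fintype.piFinset_univ, ← prod_univ_sum (fun _ => univ)
      (fun i (y : F) => y ^ e i * c (d i) y)]
    rw [prod_congr rfl fun i _ => c_dual _ (hlt e he i) _ (hlt d hd i)]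
    by_cases hed : e = d
    · simp [hed]
    · obtain ⟨i, hi⟩ : ∃ i, e i ≠ d i := by
        by_contra h
        push Not at h
        exact hed (Finsupp.ext h)
      rw [prod_eq_zero (mem_univ i) (if_neg hi), mul_zero, if_neg hed]
  rw [sum_congr rfl this, sum_ite_eq' g.support d, if_pos hd]

theorem deg_lt (g : MvPolynomial (Fin 10) F) (hg : IsReducedForm g (f 9)) :
    g.totalDegree < 50 := by
  have hlt : ∀ i, g.degreeOf i < 7 := fun i => (hg.1 i).trans_eq card_F
  rw [totalDegree, Finset.sup_lt_iff (by norm_num)]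
  intro d hd
  by_contra hge
  apply mem_support_iff.1 hd
  rw [coeff_eq g hlt d hd]
  simp only [hg.2]
  change Sm 9 id (fun i => c (d i)) = 0
  by_cases h6 : ∃ i, d i = 6
  · obtain ⟨i, hi⟩ := h6
    exact Sm_const 9 _ _ (by decide +kernel) ⟨i, -1, fun y => by simp [hi, c]⟩
  · push Not at h6
    have h5 : ∀ i, d i ≤ 5 := fun i => by
      have := lt_of_le_of_lt (monomial_le_degreeOf i hd) (hlt i)
      have := h6 i
      omega
    have h7 : ∀ i, d i = 5 := by
      intro i
      by_contra hne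
      have : ∑ j, d j < ∑ _j : Fin 10, 5 :=
        sum_lt_sum (fun j _ => h5 j) ⟨i, mem_univ _, lt_of_le_of_ne (h5 i) hne⟩
      rw [Finsupp.sum_fintype _ _ (fun _ => rfl)] at hge
      simp at this
      omega
    have e1 : (fun i => c (d i)) = fun (_ : Fin 10) (y : F) => -y := by
      funext i y
      simp [h7, c]
    have e2 : (id : F → F) = tab 0 := funext (by decide +kernel)
    rw [e1, e2]
    exact Sm_tab 9 0 rfl

theorem exists_unique (φ : (Fin 10 → F) → F) :
    ∃! g : MvPolynomial (Fin 10) F, IsReducedForm g φ := by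
  have : Fact (Nat.Prime 7) := ⟨by norm_num⟩
  have hmem : ∀ g : MvPolynomial (Fin 10) F, (∀ i, g.degreeOf i < Fintype.card F) ↔
      g ∈ restrictDegree (Fin 10) F (Fintype.card F - 1) := by
    intro g
    rw [mem_restrictDegree, card_F]
    constructor
    · intro h e he i
      have := lt_of_le_of_lt (monomial_le_degreeOf i he) (h i)
      omega
    · intro h i
      exact Nat.lt_succ_of_le (degreeOf_le_iff.2 fun e he => h e he i)
  have h1 : φ ∈ (restrictDegree (Fin 10) F (Fintype.card F - 1)).map (evalₗ F (Fin 10)) := by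
    rw [map_restrict_dom_evalₗ]
    trivial
  obtain ⟨g, hg, he⟩ := h1
  refine ⟨g, ⟨(hmem g).2 hg, fun x => congrFun he x⟩, fun g' hg' => ?_⟩
  refine sub_eq_zero.1 (eq_zero_of_eval_eq_zero (Fin 10) F _ (fun v => ?_)
    (sub_mem ((hmem g').1 hg'.1) hg))
  rw [map_sub, hg'.2, sub_eq_zero]
  exact (congrFun he v).symm

end Pool.Agent.H14.LPP
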