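import Mathlib

set_option autoImplicit false
set_option linter.unusedSectionVars false

namespace Pool.Agent.H14.Leav

open Finset

/-- A quiver with vertex set `V` and arrow set `E`. -/
structure Quiv (V E : Type) where
  s : E → V
  r : E → V

/-- The Kronecker square. -/
def Quiv.sq {V E : Type} (Q : Quiv V E) : Quiv (V × V) (E × E) :=
  ⟨fun e => (Q.s e.1, Q.s e.2), fun e => (Q.r e.1, Q.r e.2)⟩

/-- Generators: vertices, arrows and ghost arrows. -/
inductive Gen (V E : Type) : Type
  | v (a : V)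
  | e (a : E)
  | g (a : E)

section
variable (K : Type) [Field K] {V E : Type} [Fintype V] [Fintype E] [DecidableEq V] [DecidableEq E]
  (Q : Quiv V E)

open FreeAlgebra in
/-- The Leavitt path algebra relations; the sum of the vertices is the unit. -/
inductive Rel : FreeAlgebra K (Gen V E) → FreeAlgebra K (Gen V E) → Prop
  | pp (v w : V) : Rel (ι K (.v v) * ι K (.v w)) (if v = w then ι K (.v v) else 0)
  | sx (e : E) : Rel (ι K (.v (Q.s e)) * ι K (.e e)) (ι K (.e e))
  | xr (e : E) : Rel (ι K (.e e) * ι K (.v (Q.r e))) (ι K (.e e))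
  | ry (e : E) : Rel (ι K (.v (Q.r e)) * ι K (.g e)) (ι K (.g e))
  | ys (e : E) : Rel (ι K (.g e) * ι K (.v (Q.s e))) (ι K (.g e))
  | yx (e f : E) : Rel (ι K (.g e) * ι K (.e f)) (if e = f then ι K (.v (Q.r e)) else 0)
  | ck (v : V) (h : ∃ e, Q.s e = v) :
      Rel (ι K (.v v)) (∑ e ∈ univ.filter fun e => Q.s e = v, ι K (.e e) * ι K (.g e))
  | one : Rel (∑ v, ι K (.v v)) 1

/-- The Leavitt path algebra of a finite quiver. -/
abbrev L : Type := RingQuot (Rel K Q)

end

variable {K : Type} [Field K] {V E : Type} [Fintype V] [Fintype E] [DecidableEq V] [DecidableEq E]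

structure CK (Q : Quiv V E) {A : Type} [Ring A] (p : V → A) (x y : E → A) : Prop where
  pp : ∀ v w, p v * p w = if v = w then p v else 0
  sx : ∀ e, p (Q.s e) * x e = x e
  xr : ∀ e, x e * p (Q.r e) = x e
  ry : ∀ e, p (Q.r e) * y e = y e
  ys : ∀ e, y e * p (Q.s e) = y e
  yx : ∀ e f, y e * x f = if e = f then p (Q.r e) else 0
  ck : ∀ v, (∃ e, Q.s e = v) → p v = ∑ e ∈ univ.filter fun e => Q.s e = v, x e * y e
  one : ∑ v, p v = 1

variable (K) (Q : Quiv V E)

noncomputable def gn (a : Gen V E) : L K Q := RingQuot.mkAlgHom K (Rel K Q) (FreeAlgebra.ι K a)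

lemma ckL : CK Q (fun v => gn K Q (.v v)) (fun e => gn K Q (.e e)) (fun e => gn K Q (.g e)) where
  pp v w := by simpa [gn, apply_ite] using RingQuot.mkAlgHom_rel K (Rel.pp (K := K) (Q := Q) v w)
  sx e := by simpa [gn] using RingQuot.mkAlgHom_rel K (Rel.sx (K := K) (Q := Q) e)
  xr e := by simpa [gn] using RingQuot.mkAlgHom_rel K (Rel.xr (K := K) (Q := Q) e)
  ry e := by simpa [gn] using RingQuot.mkAlgHom_rel K (Rel.ry (K := K) (Q := Q) e)
  ys e := by simpa [gn] using RingQuot.mkAlgHom_rel K (Rel.ys (K := K) (Q := Q) e)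
  yx e f := by simpa [gn, apply_ite] using RingQuot.mkAlgHom_rel K (Rel.yx (K := K) (Q := Q) e f)
  ck v h := by simpa [gn] using RingQuot.mkAlgHom_rel K (Rel.ck (K := K) (Q := Q) v h)
  one := by simpa [gn] using RingQuot.mkAlgHom_rel K (Rel.one (K := K) (Q := Q))

variable {Q} {A : Type} [Ring A] [Algebra K A] {p : V → A} {x y : E → A}

noncomputable def CK.lift (h : CK Q p x y) : L K Q →ₐ[K] A :=
  RingQuot.liftAlgHom K ⟨FreeAlgebra.lift K fun a => match a with
    | .v v => p v
    | .e e => x e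
    | .g e => y e, by
      intro a b hab
      cases hab with
      | pp v w => simpa [apply_ite] using h.pp v w
      | sx e => simpa using h.sx e
      | xr e => simpa using h.xr e
      | ry e => simpa using h.ry e
      | ys e => simpa using h.ys e
      | yx e f => simpa [apply_ite] using h.yx e f
      | ck v hv => simpa using h.ck v hv
      | one => simpa using h.one⟩

@[simp] lemma lift_v (h : CK Q p x y) (v : V) : h.lift K (gn K Q (.v v)) = p v := by
  simp [CK.lift, gn]
@[simp] lemma lift_e (h : CK Q p x y) (e : E) : h.lift K (gn K Q (.e e)) = x e := by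
  simp [CK.lift, gn]
@[simp] lemma lift_g (h : CK Q p x y) (e : E) : h.lift K (gn K Q (.g e)) = y e := by
  simp [CK.lift, gn]

lemma hom_ext {f g : L K Q →ₐ[K] A} (h : ∀ a, f (gn K Q a) = g (gn K Q a)) : f = g := by
  apply RingQuot.ringQuot_ext'
  apply FreeAlgebra.hom_ext
  funext a
  exact h a

lemma ind (P : L K Q → Prop) (h0 : ∀ c, P (algebraMap K _ c)) (h1 : ∀ a, P (gn K Q a))
    (h2 : ∀ a b, P a → P b → P (a * b)) (h3 : ∀ a b, P a → P b → P (a + b)) (z : L K Q) : P z := by
  obtain ⟨z, rfl⟩ := RingQuot.mkAlgHom_surjective K (Rel K Q) z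
  induction z using FreeAlgebra.induction with
  | grade0 c => simpa using h0 c
  | grade1 a => exact h1 a
  | mul a b ha hb => simpa using h2 _ _ ha hb
  | add a b ha hb => simpa using h3 _ _ ha hb

variable {K}

lemma CK.px (h : CK Q p x y) (v : V) (e : E) : p v * x e = if v = Q.s e then x e else 0 := by
  rw [← h.sx e, ← mul_assoc, h.pp]
  split_ifs with hv <;> simp [hv]

lemma CK.yp (h : CK Q p x y) (v : V) (e : E) : y e * p v = if Q.s e = v then y e else 0 := by
  rw [← h.ys e, mul_assoc, h.pp]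
  split_ifs with hv <;> simp

lemma CK.xyx (h : CK Q p x y) (e f : E) : x e * y e * x f = if e = f then x f else 0 := by
  rw [mul_assoc, h.yx]
  split_ifs with hv
  · rw [← hv, h.xr]
  · simp

lemma CK.yxy (h : CK Q p x y) (e f : E) : y e * (x f * y f) = if e = f then y e else 0 := by
  rw [← mul_assoc, h.yx]
  split_ifs with hv
  · rw [← hv, h.ry]
  · simp

section rearrange
variable {E' : Type} [Fintype E'] [DecidableEq E'] {Q' : Quiv V E'} (T : V → Prop) [DecidablePred T]

/-- Compatibility of a bijection of arrows up to redistributing them among the sources in `T`. -/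
structure Comp (Q : Quiv V E) (Q' : Quiv V E') (b : E' ≃ E) : Prop where
  r : ∀ e, Q.r (b e) = Q'.r e
  t : ∀ e, T (Q.s (b e)) ↔ T (Q'.s e)
  s : ∀ e, ¬ T (Q'.s e) → Q.s (b e) = Q'.s e
  n : ∀ e, ¬ T (Q.r e)
  em : ∀ v, T v → ∃ e, Q.s e = v
  em' : ∀ v, T v → ∃ e, Q'.s e = v

variable {T} {b : E' ≃ E}

lemma Comp.symm (c : Comp T Q Q' b) : Comp T Q' Q b.symm where
  r e := by rw [← c.r]; simp
  t e := by rw [← c.t]; simp
  s e h := by rw [← c.s _ (by rw [← c.t]; simpa using h)]; simp
  n e := by rw [← c.r]; exact c.n _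
  em := c.em'
  em' := c.em

lemma Comp.iff (c : Comp T Q Q' b) {v : V} (hv : ¬ T v) (e : E') : Q.s (b e) = v ↔ Q'.s e = v :=
  ⟨fun h => by rw [← c.s e (by rw [← c.t, h]; exact hv), h], fun h => by rw [c.s e (h ▸ hv), h]⟩

lemma Comp.ck (c : Comp T Q Q' b) (h : CK Q p x y) : CK Q'
    (fun v => if T v then ∑ e ∈ univ.filter fun e => Q'.s e = v, x (b e) * y (b e) else p v)
    (fun e => x (b e)) (fun e => y (b e)) := by
  have hn : ∀ e, ¬ T (Q'.r e) := c.symm.n
  have sx : ∀ v e, (if T v then ∑ e ∈ univ.filter fun e => Q'.s e = v, x (b e) * y (b e) else p v) *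
      x (b e) = if Q'.s e = v then x (b e) else 0 := by
    intro v e
    by_cases hv : T v
    · simp [hv, sum_mul, h.xyx]
    · simp only [hv, if_false, h.px, eq_comm (a := v), c.iff hv]
  have ys : ∀ v e, y (b e) * (if T v then ∑ e ∈ univ.filter fun e => Q'.s e = v, x (b e) * y (b e)
      else p v) = if Q'.s e = v then y (b e) else 0 := by
    intro v e
    by_cases hv : T v
    · simp [hv, mul_sum, h.yxy]
    · simp only [hv, if_false, h.yp, c.iff hv]
  refine ⟨fun v w => ?_, fun e => by simp only [sx, if_true], fun e => ?_, fun e => ?_,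
    fun e => by simp only [ys, if_true], fun e f => ?_, fun v hv => ?_, ?_⟩
  · by_cases hv : T v
    · conv_lhs => rw [if_pos hv, sum_mul]
      simp only [mul_assoc, ys, if_pos hv]
      split_ifs with hw
      · exact sum_congr rfl fun e he => by rw [if_pos ((mem_filter.1 he).2.trans hw)]
      · exact sum_eq_zero fun e he => by rw [if_neg ((mem_filter.1 he).2 ▸ hw), mul_zero]
    by_cases hw : T w
    · conv_lhs => rw [if_pos hw, mul_sum]
      have : v ≠ w := fun e => hv (e ▸ hw)
      simp only [← mul_assoc, sx, if_neg this]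
      exact sum_eq_zero fun e he => by rw [if_neg ((mem_filter.1 he).2 ▸ this.symm), zero_mul]
    · simp only [hv, hw, if_false, h.pp]
  · simp only [← c.r, c.n, if_false, h.xr]
  · simp only [← c.r, c.n, if_false, h.ry]
  · simp only [← c.r, c.n, if_false, h.yx, b.apply_eq_iff_eq]
  · split_ifs with hT
    · rfl
    · obtain ⟨e, he⟩ := hv
      rw [h.ck v ⟨b e, (c.iff hT e).2 he⟩]
      exact (sum_equiv b (fun e => by simp [c.iff hT]) fun _ _ => rfl).symm
  · rw [← h.one, sum_ite, ← sum_filter_add_sum_filter_not univ T p]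
    congr 1
    rw [sum_congr rfl fun v hv => h.ck v (c.em v (mem_filter.1 hv).2), sum_fiberwise_eq_sum_filter,
      sum_fiberwise_eq_sum_filter]
    exact sum_equiv b (fun e => by simp [c.t]) fun _ _ => rfl

variable (K) in
lemma Comp.comp (c : Comp T Q Q' b) : ((c.ck (ckL K Q)).lift K).comp
    ((c.symm.ck (ckL K Q')).lift K) = AlgHom.id K _ := by
  refine hom_ext K fun a => ?_
  cases a with
  | v v =>
    by_cases hv : T v
    · simp [hv, (ckL K Q).ck v (c.em v hv)]
    · simp [hv]
  | e e => simp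
  | g e => simp

variable (K) in
noncomputable def Comp.equiv (c : Comp T Q Q' b) : L K Q' ≃ₐ[K] L K Q :=
  AlgEquiv.ofAlgHom _ _ (c.comp K) (c.symm.comp K)

end rearrange

section split
variable (Q) (z : E)

def split : Quiv V ({f // f ≠ z} ⊕ {a // Q.s a = Q.r z}) :=
  ⟨Sum.elim (fun f => Q.s f.1) fun _ => Q.s z, Sum.elim (fun f => Q.r f.1) fun a => Q.r a.1⟩

variable {Q z}

lemma sum_sub (v : V) (f : E → A) :
    ∑ e ∈ univ.filter fun e => Q.s e = v, f e = ∑ a : {a // Q.s a = v}, f a.1 :=
  sum_subtype _ (by simp) _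

lemma sum_ne (v : V) (f : E → A) : ∑ e ∈ univ.filter fun e => Q.s e = v, f e =
    ∑ e : {f // f ≠ z}, (if Q.s e.1 = v then f e.1 else 0) + if Q.s z = v then f z else 0 := by
  rw [sum_filter, ← sum_erase_add _ _ (mem_univ z),
    sum_subtype (univ.erase z) (p := fun f => f ≠ z) (by simp)]

lemma CK.split (h : CK Q p x y) (hz : ∃ a, Q.s a = Q.r z) : CK (split Q z) p
    (Sum.elim (fun f => x f.1) fun a => x z * x a.1) (Sum.elim (fun f => y f.1) fun a => y a.1 * y z) := by
  refine ⟨h.pp, ?_, ?_, ?_, ?_, ?_, fun v hv => ?_, h.one⟩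
  · rintro (f | a) <;> simp [Leav.split, h.sx, ← mul_assoc]
  · rintro (f | a) <;> simp [Leav.split, h.xr, mul_assoc]
  · rintro (f | a) <;> simp [Leav.split, h.ry, ← mul_assoc]
  · rintro (f | a) <;> simp [Leav.split, h.ys, mul_assoc]
  · rintro (f | a) (g | c)
    · simp [Leav.split, h.yx, Subtype.ext_iff]
    · simp [← mul_assoc, h.yx, f.2]
    · simp [mul_assoc, h.yx, g.2.symm]
    · simp only [Sum.elim_inr, Leav.split, Sum.inr.injEq, Subtype.ext_iff]
      rw [mul_assoc, ← mul_assoc (y z), h.yx, if_pos rfl, h.px, if_pos c.2.symm, h.yx]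
  · have hv' : ∃ e, Q.s e = v := by
      obtain ⟨f | a, rfl⟩ := hv
      exacts [⟨_, rfl⟩, ⟨_, rfl⟩]
    rw [h.ck v hv', sum_ne (z := z), sum_filter, Fintype.sum_sum_type]
    congr 1
    simp only [Leav.split, Sum.elim_inr]
    split_ifs
    · conv_lhs => rw [← h.xr z, h.ck _ hz, sum_sub, mul_sum, sum_mul]
      simp only [mul_assoc]
    · simp

variable {X Y : {f // f ≠ z} ⊕ {a // Q.s a = Q.r z} → A}

def tr (hl : Q.s z ≠ Q.r z) (a : {a // Q.s a = Q.r z}) : {f // f ≠ z} :=
  ⟨a.1, fun e => hl (by rw [← a.2, e])⟩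

lemma CK.ck_r (h : CK (Leav.split Q z) p X Y) (hz : ∃ a, Q.s a = Q.r z) (hl : Q.s z ≠ Q.r z) :
    p (Q.r z) = ∑ a, X (.inl (tr hl a)) * Y (.inl (tr hl a)) := by
  obtain ⟨a, ha⟩ := hz
  rw [h.ck _ ⟨.inl (tr hl ⟨a, ha⟩), ha⟩, sum_filter, Fintype.sum_sum_type]
  simp only [Leav.split, Sum.elim_inr, Sum.elim_inl, if_neg hl, sum_const_zero, add_zero]
  refine (sum_filter _ _).symm.trans ?_
  exact (sum_bij (fun a _ => tr hl a) (fun a _ => mem_filter.2 ⟨mem_univ _, a.2⟩)
    (fun a _ c _ e => Subtype.ext (congrArg (fun f : {f // f ≠ z} => f.1) e))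
    (fun f hf => ⟨⟨f.1, (mem_filter.1 hf).2⟩, mem_univ _, rfl⟩) fun _ _ => rfl).symm

lemma CK.unsplit (h : CK (Leav.split Q z) p X Y) (hz : ∃ a, Q.s a = Q.r z) (hl : Q.s z ≠ Q.r z) :
    CK Q p (fun f => if hf : f = z then ∑ a, X (.inr a) * Y (.inl (tr hl a)) else X (.inl ⟨f, hf⟩))
      (fun f => if hf : f = z then ∑ a, X (.inl (tr hl a)) * Y (.inr a) else Y (.inl ⟨f, hf⟩)) := by
  have inj : ∀ a c, tr hl a = tr hl c ↔ a = c := fun a c => by simp [tr, Subtype.ext_iff]
  refine ⟨h.pp, fun e => ?_, fun e => ?_, fun e => ?_, fun e => ?_, fun e f => ?_, fun v hv => ?_,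
    h.one⟩
  · split_ifs with he
    · subst he
      rw [mul_sum]
      exact sum_congr rfl fun a _ => by rw [← mul_assoc]; exact congrArg (· * _) (h.sx (.inr a))
    · exact h.sx (.inl ⟨e, he⟩)
  · split_ifs with he
    · subst he
      rw [sum_mul]
      exact sum_congr rfl fun a _ => by
        rw [mul_assoc, h.yp]; exact congrArg (_ * ·) (if_pos a.2)
    · exact h.xr (.inl ⟨e, he⟩)
  · split_ifs with he
    · subst he
      rw [mul_sum]
      exact sum_congr rfl fun a _ => by
        rw [← mul_assoc, h.px]; exact congrArg (· * _) (if_pos a.2.symm)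
    · exact h.ry (.inl ⟨e, he⟩)
  · split_ifs with he
    · subst he
      rw [sum_mul]
      exact sum_congr rfl fun a _ => by rw [mul_assoc]; exact congrArg (_ * ·) (h.ys (.inr a))
    · exact h.ys (.inl ⟨e, he⟩)
  · by_cases he : e = z <;> by_cases hf : f = z
    · subst he hf
      simp only [dif_pos, if_true, sum_mul, mul_sum]
      rw [h.ck_r hz hl]
      refine sum_congr rfl fun a _ => ?_
      rw [sum_eq_single a (fun c _ hc => by
        rw [mul_assoc, ← mul_assoc (Y _), h.yx, if_neg (by simpa using hc)]; simp) (by simp),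
        mul_assoc, ← mul_assoc (Y _), h.yx, if_pos rfl]
      exact congrArg (_ * ·) (h.ry (.inl (tr hl a)))
    · subst he
      simp [hf, Ne.symm hf, sum_mul, mul_assoc, h.yx]
    · subst hf
      simp [he, mul_sum, ← mul_assoc, h.yx]
    · simp [he, hf, h.yx, Leav.split]
  · have hv' : ∃ e, (Leav.split Q z).s e = v := by
      obtain ⟨e, rfl⟩ := hv
      obtain ⟨a, ha⟩ := hz
      by_cases he : e = z
      exacts [⟨.inr ⟨a, ha⟩, by rw [he]; rfl⟩, ⟨.inl ⟨e, he⟩, rfl⟩]
    rw [h.ck v hv', sum_ne (z := z), sum_filter, Fintype.sum_sum_type]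
    congr 1
    · exact sum_congr rfl fun f _ => by simp [Leav.split, f.2]
    · simp only [Leav.split, Sum.elim_inr, dif_pos]
      split_ifs
      · simp only [sum_mul, mul_sum]
        refine sum_congr rfl fun a _ => ?_
        rw [sum_eq_single a (fun c _ hc => by
          rw [mul_assoc, ← mul_assoc (Y _), h.yx, if_neg (by simpa [inj] using hc)]; simp) (by simp),
          mul_assoc, ← mul_assoc (Y _), h.yx, if_pos rfl]
        exact congrArg (_ * ·) (h.ry (.inr a)).symm
      · simp

variable (K) in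
lemma splitEquiv (hz : ∃ a, Q.s a = Q.r z) (hl : Q.s z ≠ Q.r z) :
    Nonempty (L K (split Q z) ≃ₐ[K] L K Q) := Nonempty.intro <|
  AlgEquiv.ofAlgHom (((ckL K Q).split hz).lift K) (((ckL K _).unsplit hz hl).lift K)
    (hom_ext K fun a => by
      have h := ckL K Q
      cases a with
      | v v => simp
      | e e =>
        by_cases he : e = z
        · subst he
          have := h.xr e
          rw [h.ck _ hz, sum_sub, mul_sum] at this
          simpa [tr, mul_assoc] using this
        · simp [he]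
      | g e =>
        by_cases he : e = z
        · subst he
          have := h.ry e
          rw [h.ck _ hz, sum_sub, sum_mul] at this
          simpa [tr, mul_assoc] using this
        · simp [he])
    (hom_ext K fun a => by
      have h := ckL K (split Q z)
      have inj : ∀ a c, tr hl a = tr hl c ↔ a = c := fun a c => by simp [tr, Subtype.ext_iff]
      rcases a with v | (f | a) | (f | a)
      · simp
      · simp [f.2]
      · have e : (⟨a.1, (tr hl a).2⟩ : {f // f ≠ z}) = tr hl a := rfl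
        simp only [AlgHom.comp_apply, lift_e, Sum.elim_inr, map_mul, dif_pos, AlgHom.id_apply,
          dif_neg (show ¬ a.1 = z from (tr hl a).2), e, sum_mul, mul_assoc, h.yx, Sum.inl.injEq, inj]
        simp only [mul_ite, mul_zero, sum_ite_eq', mem_univ, if_true]
        exact h.xr (.inr a)
      · simp [f.2]
      · have e : (⟨a.1, (tr hl a).2⟩ : {f // f ≠ z}) = tr hl a := rfl
        simp only [AlgHom.comp_apply, lift_g, Sum.elim_inr, map_mul, dif_pos, AlgHom.id_apply,
          dif_neg (show ¬ a.1 = z from (tr hl a).2), e, mul_sum, ← mul_assoc, h.yx, Sum.inl.injEq, inj]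
        simp only [ite_mul, zero_mul, sum_ite_eq, mem_univ, if_true]
        exact h.ry (.inr a))

end split

end Pool.Agent.H14.Leav
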