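import Mathlib
import Pool.Agent.H14.LeavA

set_option autoImplicit false

namespace Pool.Agent.H14.Leav

open Finset Filter

def Q1 : Quiv (Fin 3) (Fin 7) := ⟨![0, 0, 0, 0, 2, 2, 2], ![0, 1, 1, 1, 0, 0, 1]⟩
def Q2 : Quiv (Fin 3) (Fin 8) := ⟨![0, 0, 0, 0, 2, 2, 2, 2], ![0, 1, 1, 1, 0, 0, 1, 1]⟩

def T (v : Fin 3 × Fin 3) : Prop := v = (0, 2) ∨ v = (2, 0) ∨ v = (2, 2)
instance : DecidablePred T := fun v => by unfold T; infer_instance

def lab {E : Type} (Q : Quiv (Fin 3 × Fin 3) E) (e : E) : Option (Fin 3 × Fin 3) × Fin 3 × Fin 3 :=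
  (if T (Q.s e) then none else some (Q.s e), Q.r e)

lemma iso (K : Type) [Field K] : Nonempty (L K Q1.sq ≃ₐ[K] L K Q2.sq) := by
  have hc : ∀ c, Fintype.card {e // lab Q2.sq e = c} =
      Fintype.card {e // lab (split Q1.sq (4, 4)) e = c} := by decide +kernel
  let b := Equiv.ofFiberEquiv fun c => Fintype.equivOfCardEq (hc c)
  have hb : ∀ e, lab (split Q1.sq (4, 4)) (b e) = lab Q2.sq e := fun e => Equiv.ofFiberEquiv_map _ e
  have c : Comp T (split Q1.sq (4, 4)) Q2.sq b := by
    refine ⟨fun e => congrArg Prod.snd (hb e), fun e => ?_, fun e h => ?_, by decide +kernel,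
      by decide +kernel, by decide +kernel⟩
    · have := congrArg Prod.fst (hb e)
      simp only [lab] at this
      split_ifs at this <;> simp [*]
    · have := congrArg Prod.fst (hb e)
      simp only [lab, if_neg h] at this
      split_ifs at this
      simpa using this
  exact ⟨((c.equiv K).trans (splitEquiv K (by decide) (by decide)).some).symm⟩

abbrev F := ZMod 3
abbrev B := Fin 3 × ℕ
abbrev Op := Module.End F (B → F)

def sh (j : Fin 3) (a : ℕ) (k : Fin 3) (b : ℕ) (f : Bool) : Op where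
  toFun u z := if z.1 = j ∧ a ≤ z.2 ∧ (f → z.2 = a) then u (k, z.2 - a + b) else 0
  map_add' u v := by ext z; simp only [Pi.add_apply]; split_ifs <;> simp
  map_smul' c u := by ext z; simp only [Pi.smul_apply, RingHom.id_apply]; split_ifs <;> simp

lemma sh_ap (j : Fin 3) (a : ℕ) (k : Fin 3) (b : ℕ) (f : Bool) (u : B → F) (z : B) :
    sh j a k b f u z = if z.1 = j ∧ a ≤ z.2 ∧ (f → z.2 = a) then u (k, z.2 - a + b) else 0 := rfl

def jj : Fin 7 → Fin 3 := ![0, 0, 0, 0, 1, 2, 0]
def aa : Fin 7 → ℕ := ![5, 2, 3, 4, 0, 0, 1]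
def bb : Fin 7 → ℕ := ![2, 0, 0, 0, 2, 2, 0]
def ff : Fin 7 → Bool := ![false, true, true, true, false, false, true]
def pp : Fin 3 → Op := ![sh 0 2 0 2 false, sh 0 0 0 0 true,
  sh 0 1 0 1 true + sh 1 0 1 0 false + sh 2 0 2 0 false]

lemma rep : CK Q1 pp (fun e => sh (jj e) (aa e) 0 (bb e) (ff e))
    (fun e => sh 0 (bb e) (jj e) (aa e) (ff e)) := by
  refine ⟨fun v w => ?_, fun e => ?_, fun e => ?_, fun e => ?_, fun e => ?_, fun e f => ?_,
    fun v hv => ?_, ?_⟩
  · fin_cases v <;> fin_cases w <;> refine LinearMap.ext fun u => funext fun ⟨j, m⟩ => ?_ <;>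
      fin_cases j <;> simp [pp, sh_ap] <;> grind
  · fin_cases e <;> refine LinearMap.ext fun u => funext fun ⟨j, m⟩ => ?_ <;>
      fin_cases j <;> simp [pp, sh_ap, Q1, jj, aa, bb, ff] <;> grind
  · fin_cases e <;> refine LinearMap.ext fun u => funext fun ⟨j, m⟩ => ?_ <;>
      fin_cases j <;> simp [pp, sh_ap, Q1, jj, aa, bb, ff] <;> grind
  · fin_cases e <;> refine LinearMap.ext fun u => funext fun ⟨j, m⟩ => ?_ <;>
      fin_cases j <;> simp [pp, sh_ap, Q1, jj, aa, bb, ff] <;> grind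
  · fin_cases e <;> refine LinearMap.ext fun u => funext fun ⟨j, m⟩ => ?_ <;>
      fin_cases j <;> simp [pp, sh_ap, Q1, jj, aa, bb, ff] <;> grind
  · fin_cases e <;> fin_cases f <;> refine LinearMap.ext fun u => funext fun ⟨j, m⟩ => ?_ <;>
      fin_cases j <;> simp [pp, sh_ap, Q1, jj, aa, bb, ff] <;> grind
  · rw [sum_filter]
    fin_cases v
    · refine LinearMap.ext fun u => funext fun ⟨j, m⟩ => ?_
      fin_cases j <;> simp [pp, sh_ap, Q1, jj, aa, bb, ff, Fin.sum_univ_seven] <;> grind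
    · exact absurd hv (by decide)
    · refine LinearMap.ext fun u => funext fun ⟨j, m⟩ => ?_
      fin_cases j <;> simp [pp, sh_ap, Q1, jj, aa, bb, ff, Fin.sum_univ_seven] <;> grind
  · refine LinearMap.ext fun u => funext fun ⟨j, m⟩ => ?_
    fin_cases j <;> simp [pp, sh_ap, Fin.sum_univ_three] <;> grind

def ent (X : Op) (z w : B) : F := X (Pi.single w 1) z

def Toe (X : Op) : Prop :=
  ∀ (j k : Fin 3) (d : ℤ), ∃ c, ∀ᶠ m : ℕ in atTop, ent X (j, (m + d).toNat) (k, m) = c

def lam : Fin 3 → ℕ := ![2, 0, 0]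

def trc (M : ℕ) : Op →ₗ[F] F where
  toFun X := ∑ j, ∑ m ∈ range (3 * M + lam j), ent X (j, m) (j, m)
  map_add' X Y := by simp [ent, sum_add_distrib]
  map_smul' c X := by simp [ent, mul_sum]

lemma toe_sh (j : Fin 3) (a : ℕ) (k : Fin 3) (b : ℕ) (f : Bool) {X : Op} (h : Toe X) :
    Toe (sh j a k b f * X) := by
  intro j' k' d
  by_cases hj : j' = j ∧ f = false
  · obtain ⟨c, hc⟩ := h k k' (d - a + b)
    refine ⟨c, ?_⟩
    filter_upwards [hc, eventually_ge_atTop (d.natAbs + a)] with m h1 h2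
    rw [← h1]
    simp only [ent, Module.End.mul_apply, sh_ap, hj.1, hj.2]
    rw [if_pos ⟨trivial, by omega, by simp⟩]
    rw [show ((m : ℤ) + d).toNat - a + b = ((m : ℤ) + (d - a + b)).toNat by omega]
  · refine ⟨0, ?_⟩
    filter_upwards [eventually_ge_atTop (d.natAbs + a + 1)] with m h2
    simp only [ent, Module.End.mul_apply, sh_ap]
    rw [if_neg]
    rintro ⟨h3, h4, h5⟩
    cases f
    · exact hj ⟨h3, rfl⟩
    · have := h5 rfl
      omega

lemma sum_cond (j : Fin 3) (a : ℕ) (f : Bool) (n : Fin 3 → ℕ) (hn : a < n j) (g : B → F) :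
    ∑ i, ∑ m ∈ range (n i), (if i = j ∧ a ≤ m ∧ (f → m = a) then g (i, m) else 0) =
      ∑ m ∈ range (if f then 1 else n j - a), g (j, a + m) := by
  rw [sum_eq_single j (fun i _ hi => by simp [hi]) (by simp), ← sum_filter]
  symm
  refine sum_nbij' (a + ·) (· - a) ?_ ?_ ?_ ?_ (fun _ _ => rfl) <;> cases f <;> simp <;> omega

lemma sh_single (j : Fin 3) (a : ℕ) (k : Fin 3) (b : ℕ) (f : Bool) (w : B) :
    sh j a k b f (Pi.single w 1) = if w.1 = k ∧ b ≤ w.2 ∧ (f → w.2 = b) then
      Pi.single (j, w.2 - b + a) 1 else 0 := by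
  ext z
  obtain ⟨w1, w2⟩ := w
  obtain ⟨z1, z2⟩ := z
  simp only [sh_ap, ite_apply, Pi.single_apply, Prod.mk.injEq, Pi.zero_apply]
  grind

lemma tr_sh (j : Fin 3) (a : ℕ) (k : Fin 3) (b : ℕ) (f : Bool)
    (hf : f = true ∨ (lam j + b) % 3 = (lam k + a) % 3) {X : Op} (h : Toe X) :
    ∀ᶠ M in atTop, trc M (sh j a k b f * X) = trc M (X * sh j a k b f) := by
  obtain ⟨c, hc⟩ := h k j (b - a)
  obtain ⟨N, hN⟩ := eventually_atTop.1 hc
  filter_upwards [eventually_ge_atTop (N + a + b + 1)] with M hM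
  have e1 : trc M (sh j a k b f * X) =
      ∑ m ∈ range (if f then 1 else 3 * M + lam j - a), ent X (k, b + m) (j, a + m) := by
    have := sum_cond j a f (fun i => 3 * M + lam i) (by omega) fun z => ent X (k, z.2 - a + b) z
    simp only [add_tsub_cancel_left, add_comm _ b] at this
    rw [← this]
    simp only [add_comm b]
    rfl
  have e2 : trc M (X * sh j a k b f) =
      ∑ m ∈ range (if f then 1 else 3 * M + lam k - b), ent X (k, b + m) (j, a + m) := by
    have := sum_cond k b f (fun i => 3 * M + lam i) (by omega) fun z => ent X z (j, z.2 - b + a)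
    simp only [add_tsub_cancel_left, add_comm _ a] at this
    rw [← this]
    change ∑ i, ∑ m ∈ range (3 * M + lam i), ent (X * sh j a k b f) (i, m) (i, m) = _
    refine sum_congr rfl fun i _ => sum_congr rfl fun m _ => ?_
    simp only [ent, Module.End.mul_apply, sh_single, add_comm a]
    split_ifs <;> simp
  rw [e1, e2]
  cases f
  swap
  · rfl
  have hf' := hf.resolve_left (by simp)
  have hg : ∀ m, N ≤ m → ent X (k, b + m) (j, a + m) = c := fun m hm => by
    rw [← hN (a + m) (by omega)]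
    congr 2
    omega
  have key : ∀ n t, N ≤ n → ∑ m ∈ range (n + 3 * t), ent X (k, b + m) (j, a + m) =
      ∑ m ∈ range n, ent X (k, b + m) (j, a + m) := by
    intro n t hn
    rw [sum_range_add, sum_congr rfl fun m _ => hg (n + m) (by omega), sum_const, card_range,
      mul_nsmul, nsmul_eq_mul 3, show ((3 : ℕ) : F) = 0 from rfl]
    simp
  simp only [Bool.false_eq_true, if_false]
  rcases le_total (3 * M + lam j - a) (3 * M + lam k - b) with hl | hl
  · rw [← key _ ((3 * M + lam k - b - (3 * M + lam j - a)) / 3) (by omega)]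
    congr 2
    omega
  · rw [← key (3 * M + lam k - b) ((3 * M + lam j - a - (3 * M + lam k - b)) / 3) (by omega)]
    congr 2
    omega

instance : Fact (Nat.Prime 3) := ⟨by norm_num⟩

lemma gens (P : L F Q1 → Prop) (h0 : ∀ c, P (algebraMap F _ c)) (h1 : ∀ e, P (gn F Q1 (.e e)))
    (h1' : ∀ e, P (gn F Q1 (.g e))) (h2 : ∀ a b, P a → P b → P (a * b))
    (h3 : ∀ a b, P a → P b → P (a + b)) (z : L F Q1) : P z := by
  refine ind F P h0 ?_ h2 h3 z
  rintro (v | e | e)
  · have h := ckL F Q1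
    fin_cases v
    · have := h2 _ _ (h1' 0) (h1 0)
      rwa [h.yx, if_pos rfl] at this
    · have := h2 _ _ (h1' 1) (h1 1)
      rwa [h.yx, if_pos rfl] at this
    · have := h.ck 2 ⟨4, rfl⟩
      change P (gn F Q1 (.v 2))
      rw [this]
      exact sum_induction _ P h3 (by simpa using h0 0) fun e _ => h2 _ _ (h1 e) (h1' e)
  exacts [h1 e, h1' e]

lemma toe (z : L F Q1) : Toe (rep.lift F z) := by
  have : ∀ X, Toe X → Toe (rep.lift F z * X) := by
    refine gens (fun z => ∀ X, Toe X → Toe (rep.lift F z * X)) ?_ ?_ ?_ ?_ ?_ z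
    · intro c X h j k d
      obtain ⟨c', hc⟩ := h j k d
      exact ⟨c * c', hc.mono fun m hm => by rw [← hm]; simp [ent]⟩
    · intro e X h; simpa using toe_sh _ _ _ _ _ h
    · intro e X h; simpa using toe_sh _ _ _ _ _ h
    · intro a b ha hb X h
      simpa [mul_assoc] using ha _ (hb X h)
    · intro a b ha hb X h j k d
      obtain ⟨c, hc⟩ := ha X h j k d
      obtain ⟨c', hc'⟩ := hb X h j k d
      exact ⟨c + c', (hc.and hc').mono fun m hm => by rw [← hm.1, ← hm.2]; simp [ent]⟩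
  have := this 1 fun j k d => ⟨if j = k ∧ d = 0 then 1 else 0,
    (eventually_ge_atTop d.natAbs).mono fun m hm => by
      simp only [ent, Module.End.one_apply, Pi.single_apply, Prod.mk.injEq]
      grind⟩
  simpa using this

lemma tr_comm (a b : L F Q1) :
    ∀ᶠ M in atTop, trc M (rep.lift F (a * b)) = trc M (rep.lift F (b * a)) := by
  refine gens (fun a => ∀ b, ∀ᶠ M in atTop, trc M (rep.lift F (a * b)) = trc M (rep.lift F (b * a)))
    ?_ ?_ ?_ ?_ ?_ a b
  · intro c b; simp [Algebra.commutes]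
  · intro e b
    simpa using tr_sh _ _ _ _ _ (by revert e; decide) (toe b)
  · intro e b
    simpa using tr_sh _ _ _ _ _ (by revert e; decide) (toe b)
  · intro a a' ha ha' b
    filter_upwards [ha (a' * b), ha' (b * a)] with M h1 h2
    rw [mul_assoc, h1, mul_assoc, h2, mul_assoc]
  · intro a a' ha ha' b
    filter_upwards [ha b, ha' b] with M h1 h2
    rw [add_mul, mul_add, map_add, map_add, map_add, map_add, h1, h2]

theorem not_iso : IsEmpty (L F Q1 ≃ₐ[F] L F Q2) := by
  refine ⟨fun φ => ?_⟩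
  have h := ckL F Q2
  have hc : ∀ᶠ M in atTop, ∀ e, trc M (rep.lift F (φ.symm (gn F Q2 (.e e) * gn F Q2 (.g e)))) =
      trc M (rep.lift F (φ.symm (gn F Q2 (.v (Q2.r e))))) := eventually_all.2 fun e => by
    have := h.yx e e
    simp only [if_true] at this
    rw [← this, map_mul, map_mul φ.symm]
    exact tr_comm _ _
  obtain ⟨M, hM⟩ := hc.exists
  have h1 : trc M (rep.lift F (φ.symm 1)) = 2 := by
    simp only [map_one]
    simp [trc, ent, Fin.sum_univ_three, lam, show (3 : F) = 0 from rfl]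
  have h2 := h.ck 2 ⟨4, rfl⟩
  rw [← h.one, Fin.sum_univ_three, h2] at h1
  simp only [map_add, map_sum, hM] at h1
  rw [show (univ.filter fun e => Q2.s e = 2) = {4, 5, 6, 7} by decide, sum_insert (by decide),
    sum_insert (by decide), sum_insert (by decide), sum_singleton] at h1
  have key : ∀ s t : F, s + t + (s + (s + (t + t))) ≠ 2 := by decide
  exact key _ _ h1

end Pool.Agent.H14.Leav
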