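import Mathlib

set_option autoImplicit false

namespace Pool.Agent.H14.Leonard

open Matrix Module

/-- Irreducible tridiagonal square matrices. -/
def IrrTri {K : Type} [Field K] {n : ℕ} (M : Matrix (Fin n) (Fin n) K) : Prop :=
  (∀ i j : Fin n, (i.val + 1 < j.val ∨ j.val + 1 < i.val) → M i j = 0) ∧
  (∀ i j : Fin n, (i.val + 1 = j.val ∨ j.val + 1 = i.val) → M i j ≠ 0)

/-- Some basis makes `A` diagonal and every map of `S` irreducible tridiagonal. -/
def Good {K V : Type} [Field K] [AddCommGroup V] [Module K V] (A : V →ₗ[K] V)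
    (S : Set (V →ₗ[K] V)) : Prop :=
  ∃ (n : ℕ) (b : Basis (Fin n) K V), (LinearMap.toMatrix b b A).IsDiag ∧
    ∀ B ∈ S, IrrTri (LinearMap.toMatrix b b B)

/-- Leonard pairs. -/
def Pair {K V : Type} [Field K] [AddCommGroup V] [Module K V] (A B : V →ₗ[K] V) : Prop :=
  Good A {B} ∧ Good B {A}

/-- Leonard triples. -/
def Triple {K V : Type} [Field K] [AddCommGroup V] [Module K V] (A B C : V →ₗ[K] V) : Prop :=
  Good A {B, C} ∧ Good B {A, C} ∧ Good C {A, B}

abbrev M3 := Matrix (Fin 3) (Fin 3) ℚ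

lemma good_of (X Y P Q D T : M3) (h1 : P * Q = 1) (h2 : Q * P = 1) (hD : Q * X * P = D)
    (hT : Q * Y * P = T) (h3 : D.IsDiag) (h4 : IrrTri T) : Good (toLin' X) {toLin' Y} := by
  have key : ∀ Z : M3, LinearMap.toMatrix ((Pi.basisFun ℚ (Fin 3)).map (toLin'OfInv h1 h2).symm)
      ((Pi.basisFun ℚ (Fin 3)).map (toLin'OfInv h1 h2).symm) (toLin' Z) = Q * Z * P := by
    intro Z
    ext i j
    simp [LinearMap.toMatrix_apply, toLin'OfInv]
    rfl
  refine ⟨3, _, by rw [key, hD]; exact h3, ?_⟩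
  rintro B rfl
  rw [key, hT]
  exact h4

def A : M3 := !![0, 0, 0; 0, 1, 0; 0, 0, 2]
def B : M3 := !![0, 4, 4; 1, -4, 0; 1, 0, -1]
def C : M3 := !![0, 3, 0; 1, 0, -2; 0, -1, -2]

instance (T : M3) : Decidable (IrrTri T) := by unfold IrrTri; infer_instance
instance (T : M3) : Decidable T.IsDiag := by unfold Matrix.IsDiag Pairwise; infer_instance

lemma pAB : Pair (toLin' A) (toLin' B) :=
  ⟨good_of _ _ !![0, 1, 0; 1, 0, 0; 0, 0, 1] !![0, 1, 0; 1, 0, 0; 0, 0, 1] _ _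
    (by decide +kernel) (by decide +kernel) rfl rfl (by decide +kernel) (by decide +kernel),
   good_of _ _ !![-4, 6, 2; 4, 1, 1; 1, 2, -2]
    !![-1/21, 4/21, 1/21; 3/28, 1/14, 1/7; 1/12, 1/6, -1/3] _ _
    (by decide +kernel) (by decide +kernel) rfl rfl (by decide +kernel) (by decide +kernel)⟩

lemma pAC : Pair (toLin' A) (toLin' C) :=
  ⟨good_of _ _ 1 1 _ _
    (by decide +kernel) (by decide +kernel) rfl rfl (by decide +kernel) (by decide +kernel),
   good_of _ _ !![-1, -3, -6; 1, 1, -4; 1, -1, 1]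
    !![-1/10, 3/10, 3/5; -1/6, 1/6, -1/3; -1/15, -2/15, 1/15] _ _
    (by decide +kernel) (by decide +kernel) rfl rfl (by decide +kernel) (by decide +kernel)⟩

lemma pBC : Pair (toLin' B) (toLin' C) :=
  ⟨good_of _ _ !![-4, 2, 6; 4, 1, 1; 1, -2, 2]
    !![-1/21, 4/21, 1/21; 1/12, 1/6, -1/3; 3/28, 1/14, 1/7] _ _
    (by decide +kernel) (by decide +kernel) rfl rfl (by decide +kernel) (by decide +kernel),
   good_of _ _ !![-1, -3, -6; 1, 1, -4; 1, -1, 1]
    !![-1/10, 3/10, 3/5; -1/6, 1/6, -1/3; -1/15, -2/15, 1/15] _ _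
    (by decide +kernel) (by decide +kernel) rfl rfl (by decide +kernel) (by decide +kernel)⟩

lemma eigen (v : Fin 3 → ℚ) (l : ℚ) (h : A *ᵥ v = l • v) :
    (v 1 = 0 ∧ v 2 = 0) ∨ (v 0 = 0 ∧ v 2 = 0) ∨ (v 0 = 0 ∧ v 1 = 0) := by
  have h0 := congrFun h 0
  have h1 := congrFun h 1
  have h2 := congrFun h 2
  simp [A, Matrix.mulVec, dotProduct, Fin.sum_univ_three] at h0 h1 h2
  by_cases a : v 0 = 0 <;> by_cases b : v 1 = 0 <;> by_cases c : v 2 = 0 <;> simp_all

lemma not_good : ¬ Good (toLin' A) {toLin' B, toLin' C} := by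
  rintro ⟨n, b, hA, hS⟩
  obtain rfl : n = 3 := by
    have := Module.finrank_eq_card_basis b
    simpa using this.symm
  have hB := (hS _ (Or.inl rfl)).1 2 0 (by simp)
  have hC := (hS _ (Or.inr rfl)).1 2 0 (by simp)
  rw [LinearMap.toMatrix_apply] at hB hC
  set w : Fin 3 → ℚ := fun i => b.repr (Pi.single i 1) 2 with hw
  have hf : ∀ x : Fin 3 → ℚ, b.repr x 2 = x 0 * w 0 + x 1 * w 1 + x 2 * w 2 := by
    intro x
    have : x = x 0 • Pi.single 0 1 + x 1 • Pi.single 1 1 + x 2 • Pi.single 2 1 := by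
      ext i; fin_cases i <;> simp
    conv_lhs => rw [this]
    simp [hw]
  have hv : A *ᵥ b 0 = (LinearMap.toMatrix b b (toLin' A) 0 0) • b 0 := by
    apply b.repr.injective
    ext i
    rw [← toLin'_apply, ← LinearMap.toMatrix_apply]
    by_cases hi : i = 0
    · simp [hi]
    · rw [hA hi]
      simp [Finsupp.single_apply, Ne.symm hi]
  have hw' : A *ᵥ w = (LinearMap.toMatrix b b (toLin' A) 2 2) • w := by
    have : ∀ x : Fin 3 → ℚ, b.repr (toLin' A x) 2 =
        (LinearMap.toMatrix b b (toLin' A) 2 2) * b.repr x 2 := by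
      intro x
      have := congrFun (LinearMap.toMatrix_mulVec_repr b b (toLin' A) x) 2
      rw [← this]
      simp [Matrix.mulVec, dotProduct, Fin.sum_univ_three, hA (show (2 : Fin 3) ≠ 0 by decide),
        hA (show (2 : Fin 3) ≠ 1 by decide)]
    ext i
    have h := this (Pi.single i 1)
    rw [hf] at h
    simp only [Pi.smul_apply, smul_eq_mul]
    rw [← h]
    fin_cases i <;> simp [A, Matrix.mulVec, dotProduct, Fin.sum_univ_three]
  have h0 : b.repr (b 0) 2 = 0 := by simp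
  have h2 : b.repr (b 2) 2 = 1 := by simp
  have hne : b 0 ≠ 0 := b.ne_zero 0
  rw [hf] at hB hC h0 h2
  simp [B, C, Matrix.mulVec, dotProduct, Fin.sum_univ_three] at hB hC
  have e1 := eigen _ _ hv
  have e2 := eigen _ _ hw'
  have hne' : ¬ (b 0 0 = 0 ∧ b 0 1 = 0 ∧ b 0 2 = 0) := fun ⟨a0, a1, a2⟩ => hne (by
    ext i; fin_cases i <;> assumption)
  have hw0 : ¬ (w 0 = 0 ∧ w 1 = 0 ∧ w 2 = 0) := fun ⟨a0, a1, a2⟩ => by simp [a0, a1, a2] at h2
  clear hw hf hv hw' h2 hne hA hS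
  clear_value w
  generalize b 0 0 = x0 at *
  generalize b 0 1 = x1 at *
  generalize b 0 2 = x2 at *
  generalize w 0 = y0 at *
  generalize w 1 = y1 at *
  generalize w 2 = y2 at *
  rcases e1 with ⟨rfl, rfl⟩ | ⟨rfl, rfl⟩ | ⟨rfl, rfl⟩ <;>
    rcases e2 with ⟨rfl, rfl⟩ | ⟨rfl, rfl⟩ | ⟨rfl, rfl⟩ <;> simp_all

end Pool.Agent.H14.Leonard
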