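import Mathlib
import Pool.Agent.H14.Leonard

set_option autoImplicit false

namespace Pool.Agent.H14.Leonard

open Matrix Module

lemma good_of2 (X Y Z P Q : M3) (h1 : P * Q = 1) (h2 : Q * P = 1) (h3 : (Q * X * P).IsDiag)
    (h4 : IrrTri (Q * Y * P)) (h5 : IrrTri (Q * Z * P)) :
    Good (toLin' X) {toLin' Y, toLin' Z} := by
  have key : ∀ Z : M3, LinearMap.toMatrix ((Pi.basisFun ℚ (Fin 3)).map (toLin'OfInv h1 h2).symm)
      ((Pi.basisFun ℚ (Fin 3)).map (toLin'OfInv h1 h2).symm) (toLin' Z) = Q * Z * P := by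
    intro Z
    ext i j
    simp [LinearMap.toMatrix_apply, toLin'OfInv]
    rfl
  refine ⟨3, _, by rw [key]; exact h3, ?_⟩
  rintro B (rfl | rfl) <;> rw [key]
  · exact h4
  · exact h5

def mH : M3 := !![2, 0, 0; 0, 0, 0; 0, 0, -2]
def mE : M3 := !![0, 2, 0; 0, 0, 1; 0, 0, 0]
def mF : M3 := !![0, 0, 0; 1, 0, 0; 0, 2, 0]
def mA : M3 := !![0, 2, 0; 1, 0, 1; 0, 2, 0]
def mZ : M3 := !![4, 6, 0; 4, 0, 3; 0, 8, -4]
def mW : M3 := !![8, 6, 0; 3, 0, 3; 0, 6, -8]

lemma tripleW : Triple (toLin' mA) (toLin' mH) (toLin' mW) :=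
  ⟨good_of2 _ _ _ !![-1, -1, -1; -1, 0, 1; -1, 1, -1]
    !![-1/4, -1/2, -1/4; -1/2, 0, 1/2; -1/4, 1/2, -1/4] (by decide +kernel) (by decide +kernel)
    (by decide +kernel) (by decide +kernel) (by decide +kernel),
   good_of2 _ _ _ 1 1 (by decide +kernel) (by decide +kernel)
    (by decide +kernel) (by decide +kernel) (by decide +kernel),
   good_of2 _ _ _ !![-9, -3, -1; -3, 4, 3; -1, 3, -9]
    !![-9/100, -3/50, -1/100; -3/50, 4/25, 3/50; -1/100, 3/50, -9/100] (by decide +kernel)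
    (by decide +kernel) (by decide +kernel) (by decide +kernel) (by decide +kernel)⟩

lemma tripleZ : Triple (toLin' mH) (toLin' mA) (toLin' mZ) :=
  ⟨good_of2 _ _ _ 1 1 (by decide +kernel) (by decide +kernel)
    (by decide +kernel) (by decide +kernel) (by decide +kernel),
   good_of2 _ _ _ !![-1, -1, -1; -1, 0, 1; -1, 1, -1]
    !![-1/4, -1/2, -1/4; -1/2, 0, 1/2; -1/4, 1/2, -1/4] (by decide +kernel) (by decide +kernel)
    (by decide +kernel) (by decide +kernel) (by decide +kernel),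
   good_of2 _ _ _ !![-9, -3, -1; -6, 2, 2; -4, 4, -4]
    !![-1/16, -1/16, -1/64; -1/8, 1/8, 3/32; -1/16, 3/16, -9/64] (by decide +kernel)
    (by decide +kernel) (by decide +kernel) (by decide +kernel) (by decide +kernel)⟩

lemma anti {R : Type} [Ring R] [Algebra ℚ R] (h e f : R) (he : h * e - e * h = (2 : ℚ) • e)
    (hf : h * f - f * h = (-2 : ℚ) • f) (hef : e * f - f * e = h) (σ : R →ₗ[ℚ] R)
    (hσ : ∀ x y, σ (x * y) = σ y * σ x) (hh : σ h = h) (l : ℚ)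
    (h1 : σ ((2 : ℚ) • e - (2 : ℚ) • f) = l • ((6 : ℚ) • e - (8 : ℚ) • f)) : h = 0 := by
  have a1 : σ (h * ((2 : ℚ) • e - (2 : ℚ) • f) - ((2 : ℚ) • e - (2 : ℚ) • f) * h) =
      l • ((6 : ℚ) • e - (8 : ℚ) • f) * h - h * l • ((6 : ℚ) • e - (8 : ℚ) • f) := by
    rw [map_sub, hσ, hσ, hh, h1]
  have he' : h * e = e * h + (2 : ℚ) • e := by rw [← he]; abel
  have hf' : h * f = f * h + (-2 : ℚ) • f := by rw [← hf]; abel
  simp only [mul_sub, sub_mul, mul_smul_comm, smul_mul_assoc, he', hf'] at a1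
  have a2 : σ ((4 : ℚ) • e + (4 : ℚ) • f) = l • ((-12 : ℚ) • e - (16 : ℚ) • f) := by
    have b1 : (4 : ℚ) • e + (4 : ℚ) • f = (2 : ℚ) • (e * h + (2 : ℚ) • e) -
        (2 : ℚ) • (f * h + (-2 : ℚ) • f) - ((2 : ℚ) • (e * h) - (2 : ℚ) • (f * h)) := by module
    rw [b1, a1]; module
  simp only [map_sub, map_add, map_smul] at h1 a2
  have a3 : σ e = (-4 * l) • f := by
    linear_combination (norm := module) (1 / 4 : ℚ) • h1 + (1 / 8 : ℚ) • a2
  have a4 : σ f = (-3 * l) • e := by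
    linear_combination (norm := module) (-1 / 4 : ℚ) • h1 + (1 / 8 : ℚ) • a2
  have a5 : h = (12 * l ^ 2) • h := by
    conv_lhs => rw [← hh, ← hef, map_sub, hσ, hσ, a3, a4]
    rw [← hef]
    simp only [smul_mul_smul_comm]
    module
  have a6 : 12 * l ^ 2 ≠ 1 := by
    intro h0
    have : IsSquare (3 : ℚ) := ⟨6 * l, by linarith⟩
    have h3 : IsSquare (3 : ℕ) := by exact_mod_cast this
    exact Nat.prime_three.not_isSquare h3
  have a7 : (1 - 12 * l ^ 2) • h = 0 := by rw [sub_smul, one_smul, ← a5, sub_self]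
  exact (smul_eq_zero.1 a7).resolve_left (sub_ne_zero.2 a6.symm)

end Pool.Agent.H14.Leonard
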