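import Mathlib

set_option autoImplicit false
set_option maxHeartbeats 800000

namespace Pool.Agent.H14.LieF

abbrev F := ZMod 2

/-- data for the big Lie algebra -/
structure Sys (V R : Type) [AddCommGroup V] [Module F V] [CommRing R] [Algebra F R] where
  D : V →ₗ[F] R →ₗ[F] R
  δ : V →ₗ[F] F
  τ : R →ₗ[F] F
  leib : ∀ h x y, D h (x * y) = D h x * y + x * D h y
  comm : ∀ h k x, D h (D k x) = D k (D h x)
  inv : ∀ h x, τ (D h x) = 0

variable {V R : Type} [AddCommGroup V] [Module F V] [CommRing R] [Algebra F R]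

abbrev Pr (V R : Type) := V × R × (R × R) × (R × R) × F

def rp (S : Sys V R) (h : V) (m : R) (p : R × R) : R × R :=
  (S.D h p.1 + S.δ h • p.2 + m * p.1, S.D h p.2 + S.δ h • (p.1 + p.2) + m * p.2)

def rm (S : Sys V R) (h : V) (m : R) (p : R × R) : R × R :=
  (S.D h p.1 - S.δ h • p.2 - m * p.1, S.D h p.2 - S.δ h • (p.1 + p.2) - m * p.2)

def br (S : Sys V R) (x y : Pr V R) : Pr V R :=
  (0, S.D x.1 y.2.1 - S.D y.1 x.2.1,
    rp S x.1 x.2.1 y.2.2.1 - rp S y.1 y.2.1 x.2.2.1,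
    rm S x.1 x.2.1 y.2.2.2.1 - rm S y.1 y.2.1 x.2.2.2.1,
    S.τ (x.2.2.1.1 * y.2.2.2.1.1 + x.2.2.1.2 * y.2.2.2.1.2
      - y.2.2.1.1 * x.2.2.2.1.1 - y.2.2.1.2 * x.2.2.2.1.2))

lemma f01 : ∀ t : F, t = 0 ∨ t = 1 := by decide

lemma br_add (S : Sys V R) (x y z : Pr V R) : br S x (y + z) = br S x y + br S x z := by
  ext <;> simp [br, rp, rm, add_smul, mul_add, add_mul] <;> ring

lemma add_br (S : Sys V R) (x y z : Pr V R) : br S (x + y) z = br S x z + br S y z := by
  ext <;> simp [br, rp, rm, add_smul, mul_add, add_mul] <;> ring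

lemma br_self (S : Sys V R) (x : Pr V R) : br S x x = 0 := by
  ext <;> simp [br, rp, rm]

lemma br_smul (S : Sys V R) (t : F) (x y : Pr V R) : br S x (t • y) = t • br S x y := by
  rcases f01 t with rfl | rfl
  · have h := br_add S x 0 0
    simp only [add_zero, left_eq_add] at h
    simpa using h
  · simp

lemma rp_rp (S : Sys V R) (h k : V) (m n : R) (p : R × R) :
    rp S h m (rp S k n p) - rp S k n (rp S h m p) = rp S 0 (S.D h n - S.D k m) p := by
  ext <;> simp only [rp, map_add, map_smul, S.leib, S.comm h k, Prod.fst_sub, Prod.snd_sub, map_zero,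
    LinearMap.zero_apply] <;> simp only [Algebra.smul_def, map_zero] <;> ring

lemma rm_rm (S : Sys V R) (h k : V) (m n : R) (p : R × R) :
    rm S h m (rm S k n p) - rm S k n (rm S h m p) = rm S 0 (S.D h n - S.D k m) p := by
  ext <;> simp only [rm, map_add, map_sub, map_smul, S.leib, S.comm h k, Prod.fst_sub, Prod.snd_sub, map_zero,
    LinearMap.zero_apply] <;> simp only [Algebra.smul_def, map_zero] <;> ring

lemma rp_sub (S : Sys V R) (h : V) (m : R) (p q : R × R) : rp S h m (p - q) = rp S h m p - rp S h m q := by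
  ext <;> simp only [rp, map_sub, Prod.fst_sub, Prod.snd_sub, Algebra.smul_def] <;> ring

lemma rm_sub (S : Sys V R) (h : V) (m : R) (p q : R × R) : rm S h m (p - q) = rm S h m p - rm S h m q := by
  ext <;> simp only [rm, map_sub, Prod.fst_sub, Prod.snd_sub, Algebra.smul_def] <;> ring

def pa (p q : R × R) : R := p.1 * q.1 + p.2 * q.2

lemma pa_inv (S : Sys V R) (h : V) (m : R) (p q : R × R) :
    S.τ (pa (rp S h m p) q) + S.τ (pa p (rm S h m q)) = 0 := by
  rw [← map_add, ← S.inv h (pa p q)]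
  congr 1
  simp only [pa, rp, rm, map_add, S.leib, Algebra.smul_def]; ring

lemma pa_subl (p p' q : R × R) : pa (p - p') q = pa p q - pa p' q := by
  simp only [pa, Prod.fst_sub, Prod.snd_sub]; ring

lemma pa_subr (p q q' : R × R) : pa p (q - q') = pa p q - pa p q' := by
  simp only [pa, Prod.fst_sub, Prod.snd_sub]; ring

lemma br_z (S : Sys V R) (x y : Pr V R) :
    (br S x y).2.2.2.2 = S.τ (pa x.2.2.1 y.2.2.2.1) - S.τ (pa y.2.2.1 x.2.2.2.1) := by
  rw [← map_sub]; simp only [br, pa]; congr 1; ring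

lemma br_leib (S : Sys V R) (x y z : Pr V R) :
    br S x (br S y z) = br S (br S x y) z + br S y (br S x z) := by
  refine Prod.ext (by simp [br]) (Prod.ext ?_ (Prod.ext ?_ (Prod.ext ?_ ?_)))
  · simp only [br, Prod.fst_add, Prod.snd_add, map_sub, map_zero, LinearMap.zero_apply,
      S.comm x.1 y.1, S.comm x.1 z.1, S.comm y.1 z.1]
    ring
  · have h1 := rp_rp S x.1 y.1 x.2.1 y.2.1 z.2.2.1
    have h2 := rp_rp S x.1 z.1 x.2.1 z.2.1 y.2.2.1
    have h3 := rp_rp S y.1 z.1 y.2.1 z.2.1 x.2.2.1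
    simp only [br, Prod.fst_add, Prod.snd_add, rp_sub]
    linear_combination h1 - h2 + h3
  · have h1 := rm_rm S x.1 y.1 x.2.1 y.2.1 z.2.2.2.1
    have h2 := rm_rm S x.1 z.1 x.2.1 z.2.1 y.2.2.2.1
    have h3 := rm_rm S y.1 z.1 y.2.1 z.2.1 x.2.2.2.1
    simp only [br, Prod.fst_add, Prod.snd_add, rm_sub]
    linear_combination h1 - h2 + h3
  · have a1 := pa_inv S x.1 x.2.1 y.2.2.1 z.2.2.2.1
    have a2 := pa_inv S x.1 x.2.1 z.2.2.1 y.2.2.2.1
    have a3 := pa_inv S y.1 y.2.1 x.2.2.1 z.2.2.2.1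
    have a4 := pa_inv S y.1 y.2.1 z.2.2.1 x.2.2.2.1
    have a5 := pa_inv S z.1 z.2.1 x.2.2.1 y.2.2.2.1
    have a6 := pa_inv S z.1 z.2.1 y.2.2.1 x.2.2.2.1
    rw [Prod.snd_add, Prod.snd_add, Prod.snd_add, Prod.snd_add, br_z, br_z, br_z]
    simp only [br, pa_subl, pa_subr, map_sub]
    linear_combination - a1 + a2 + a3 - a4 - a5 + a6

def El (_S : Sys V R) : Type := Pr V R

instance (S : Sys V R) : AddCommGroup (El S) := inferInstanceAs (AddCommGroup (Pr V R))
instance (S : Sys V R) : Module F (El S) := inferInstanceAs (Module F (Pr V R))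

instance (S : Sys V R) : LieRing (El S) where
  bracket := br S
  add_lie := add_br S
  lie_add := br_add S
  lie_self := br_self S
  leibniz_lie := br_leib S

instance (S : Sys V R) : LieAlgebra F (El S) where
  lie_smul := br_smul S

lemma two (x : R) : x + x = 0 := by
  rw [← two_smul F x, show (2 : F) = 0 from rfl, zero_smul]

/-! words -/

def uw {L : Type} [LieRing L] (x y : L) : L := ⁅y, ⁅y, ⁅y, ⁅y, ⁅y, x⁆⁆⁆⁆⁆ - ⁅y, ⁅y, ⁅y, x⁆⁆⁆

def gw {L : Type} [LieRing L] (x y a b : L) : L := ⁅⁅a, b⁆, ⁅⁅a, b⁆, ⁅⁅a, b⁆, uw x y⁆⁆⁆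

lemma map_gw {L L' : Type} [LieRing L] [LieRing L'] [LieAlgebra F L] [LieAlgebra F L']
    (f : L →ₗ⁅F⁆ L') (x y a b : L) : f (gw x y a b) = gw (f x) (f y) (f a) (f b) := by
  simp [gw, uw]

lemma mk_gw {L : Type} [LieRing L] [LieAlgebra F L] (I : LieIdeal F L) (x y a b : L) :
    (LieSubmodule.Quotient.mk (gw x y a b) : L ⧸ I) = gw (LieSubmodule.Quotient.mk x)
      (LieSubmodule.Quotient.mk y) (LieSubmodule.Quotient.mk a) (LieSubmodule.Quotient.mk b) := by
  simp only [gw, uw, LieSubmodule.Quotient.mk_bracket]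
  rfl

def AV (L : Type) [LieRing L] [LieAlgebra F L] : Prop :=
  ∃ I : LieIdeal F L, (∀ x ∈ I, ∀ y ∈ I, ⁅x, y⁆ = 0) ∧ ∀ x y a b : L, gw x y a b ∈ I

noncomputable def Aw : FreeLieAlgebra F ℕ := ⁅FreeLieAlgebra.of F 0, FreeLieAlgebra.of F 1⁆
noncomputable def Bw : FreeLieAlgebra F ℕ :=
  gw (FreeLieAlgebra.of F 0) (FreeLieAlgebra.of F 1) (FreeLieAlgebra.of F 2) (FreeLieAlgebra.of F 3)

lemma av_iff (L : Type) [LieRing L] [LieAlgebra F L] :
    (∃ I : LieIdeal F L,
      (∀ a ∈ ({Aw} : Finset (FreeLieAlgebra F ℕ)), ∀ φ : ℕ → I, FreeLieAlgebra.lift F φ a = 0) ∧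
      (∀ b ∈ ({Bw} : Finset (FreeLieAlgebra F ℕ)), ∀ φ : ℕ → L ⧸ I, FreeLieAlgebra.lift F φ b = 0)) ↔ AV L := by
  refine exists_congr fun I => and_congr ?_ ?_
  · simp only [Finset.mem_singleton, forall_eq, Aw, LieHom.map_lie, FreeLieAlgebra.lift_of_apply]
    constructor
    · intro h x hx y hy
      have := h (fun n => if n = 0 then ⟨x, hx⟩ else ⟨y, hy⟩)
      simpa using congrArg Subtype.val this
    · intro h φ
      exact Subtype.ext (h _ (φ 0).2 _ (φ 1).2)
  · simp only [Finset.mem_singleton, forall_eq, Bw, map_gw, FreeLieAlgebra.lift_of_apply]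
    constructor
    · intro h x y a b
      have := h (fun n => LieSubmodule.Quotient.mk (if n = 0 then x else if n = 1 then y else
        if n = 2 then a else b))
      rw [← mk_gw, LieSubmodule.Quotient.mk_eq_zero'] at this
      simpa using this
    · intro h φ
      obtain ⟨x, hx⟩ := LieSubmodule.Quotient.surjective_mk' I (φ 0)
      obtain ⟨y, hy⟩ := LieSubmodule.Quotient.surjective_mk' I (φ 1)
      obtain ⟨a, ha⟩ := LieSubmodule.Quotient.surjective_mk' I (φ 2)
      obtain ⟨b, hb⟩ := LieSubmodule.Quotient.surjective_mk' I (φ 3)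
      rw [← hx, ← hy, ← ha, ← hb]
      exact (mk_gw I x y a b).symm.trans (LieSubmodule.Quotient.mk_eq_zero'.mpr (h x y a b))

/-- every element of the free Lie algebra depends on finitely many variables -/
lemma fin_vars (c : FreeLieAlgebra F ℕ) : ∃ k : ℕ, ∀ (L : Type) [LieRing L] [LieAlgebra F L]
    (φ ψ : ℕ → L), (∀ i < k, φ i = ψ i) → FreeLieAlgebra.lift F φ c = FreeLieAlgebra.lift F ψ c := by
  let P : LieSubalgebra F (FreeLieAlgebra F ℕ) :=
    { carrier := {c | ∃ k : ℕ, ∀ (L : Type) [LieRing L] [LieAlgebra F L]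
        (φ ψ : ℕ → L), (∀ i < k, φ i = ψ i) → FreeLieAlgebra.lift F φ c = FreeLieAlgebra.lift F ψ c}
      add_mem' := by
        rintro a b ⟨k, hk⟩ ⟨l, hl⟩
        refine ⟨k + l, fun L _ _ φ ψ h => ?_⟩
        rw [map_add, map_add, hk L φ ψ fun i hi => h i (by omega), hl L φ ψ fun i hi => h i (by omega)]
      zero_mem' := ⟨0, fun L _ _ φ ψ _ => by simp⟩
      smul_mem' := by
        rintro t a ⟨k, hk⟩
        exact ⟨k, fun L _ _ φ ψ h => by rw [map_smul, map_smul, hk L φ ψ h]⟩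
      lie_mem' := by
        rintro a b ⟨k, hk⟩ ⟨l, hl⟩
        refine ⟨k + l, fun L _ _ φ ψ h => ?_⟩
        rw [LieHom.map_lie, LieHom.map_lie, hk L φ ψ fun i hi => h i (by omega),
          hl L φ ψ fun i hi => h i (by omega)] }
  have hof : ∀ i, FreeLieAlgebra.of F i ∈ P := fun i =>
    ⟨i + 1, fun L _ _ φ ψ h => by simp [h i (by omega)]⟩
  have : P.incl.comp (FreeLieAlgebra.lift F fun i => (⟨_, hof i⟩ : P)) = LieHom.id :=
    FreeLieAlgebra.hom_ext fun i => by simp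
  have h2 : c = (FreeLieAlgebra.lift F (fun i => (⟨_, hof i⟩ : P)) c : P) := by
    have := congrArg (fun f => f c) this
    exact this.symm
  have h3 : c ∈ P := by rw [h2]; exact Subtype.property _
  exact h3

lemma lift_map {L L' : Type} [LieRing L] [LieRing L'] [LieAlgebra F L] [LieAlgebra F L']
    (f : L →ₗ⁅F⁆ L') (φ : ℕ → L) (c : FreeLieAlgebra F ℕ) :
    FreeLieAlgebra.lift F (fun i => f (φ i)) c = f (FreeLieAlgebra.lift F φ c) := by
  have : FreeLieAlgebra.lift F (fun i => f (φ i)) = f.comp (FreeLieAlgebra.lift F φ) :=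
    FreeLieAlgebra.hom_ext fun i => by simp
  rw [this]; rfl

end Pool.Agent.H14.LieF
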