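import Pool.Agent.H14.LieF1

set_option autoImplicit false
set_option maxHeartbeats 800000

namespace Pool.Agent.H14.LieF

open AddMonoidAlgebra

abbrev G (e : ℕ) := Bool × Option (Fin e) → ℕ
abbrev Rg (e : ℕ) := AddMonoidAlgebra F (G e)

variable {e : ℕ}

noncomputable def mkL {N : Type} [AddCommGroup N] [Module F N] (f : G e → N) : Rg e →ₗ[F] N :=
  (Finsupp.linearCombination F f).comp (AddMonoidAlgebra.coeffLinearEquiv F).toLinearMap

lemma mkL_single {N : Type} [AddCommGroup N] [Module F N] (f : G e → N) (g : G e) (c : F) :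
    mkL f (single g c) = c • f g := by
  simp [mkL]

lemma lin_ext {N : Type} [AddCommGroup N] [Module F N] (f g : Rg e →ₗ[F] N)
    (h : ∀ a, f (single a 1) = g (single a 1)) (x : Rg e) : f x = g x := by
  induction x using AddMonoidAlgebra.induction_linear with
  | zero => simp
  | add a b ha hb => rw [map_add, map_add, ha, hb]
  | single a c =>
    rcases f01 c with rfl | rfl
    · simp
    · exact h a

abbrev K (e : ℕ) := Option (Bool × Fin e)

def chi : K e → G e → F
  | none, g => ((g (false, none) + g (true, none) : ℕ) : F)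
  | some (b, i), g => ((g (b, none) + g (b, some i) : ℕ) : F)

def sh : K e → G e
  | none => 0
  | some (b, i) => Pi.single (b, some i) 1

lemma chi_add (p : K e) (g g' : G e) : chi p (g + g') = chi p g + chi p g' := by
  rcases p with _ | ⟨b, i⟩ <;> simp [chi] <;> ring

lemma chi_sh (p q : K e) (h : p ≠ q) : chi p (sh q) = 0 := by
  rcases p with _ | ⟨b, i⟩ <;> rcases q with _ | ⟨b', i'⟩
  · simp [chi, sh]
  · simp [chi, sh]
  · simp [chi, sh]
  · have : (b, some i) ≠ (b', some i') := by
      intro h2; apply h; simp only [Prod.mk.injEq, Option.some.injEq] at h2 ⊢; exact h2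
    simp [chi, sh, Pi.single_eq_of_ne this]

noncomputable def op (p : K e) : Rg e →ₗ[F] Rg e := mkL fun g => single (g + sh p) (chi p g)

lemma op_single (p : K e) (g : G e) (c : F) : op p (single g c) = single (g + sh p) (c * chi p g) := by
  rw [op, mkL_single]; simp

lemma op_leib (p : K e) (x y : Rg e) : op p (x * y) = op p x * y + x * op p y := by
  induction x using AddMonoidAlgebra.induction_linear with
  | zero => simp
  | add a b ha hb => rw [add_mul, map_add, map_add, ha, hb]; ring
  | single a c =>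
    induction y using AddMonoidAlgebra.induction_linear with
    | zero => simp
    | add a b ha hb => rw [mul_add, map_add, map_add, ha, hb]; ring
    | single b d =>
      simp only [single_mul_single, op_single, chi_add]
      rw [add_right_comm a (sh p) b, ← add_assoc a b, ← single_add]
      congr 1; ring

lemma op_comm (p q : K e) (x : Rg e) : op p (op q x) = op q (op p x) := by
  by_cases h : p = q
  · rw [h]
  · refine lin_ext ((op p).comp (op q)) ((op q).comp (op p)) (fun a => ?_) x
    simp only [LinearMap.comp_apply, op_single, chi_add, chi_sh p q h, chi_sh q p (Ne.symm h)]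
    rw [add_right_comm]; congr 1; ring

noncomputable def Z (i : Fin e) : Rg e →ₗ[F] Rg e := op (some (false, i)) + op (some (true, i))

noncomputable def Zs (ζ : Fin e → F) : Rg e →ₗ[F] Rg e := ∑ i, ζ i • Z i

abbrev V (e : ℕ) := F × F × (Fin e → F)

noncomputable def Dd : V e →ₗ[F] Rg e →ₗ[F] Rg e where
  toFun h := h.1 • op none + Zs h.2.2
  map_add' h k := by simp [Zs, add_smul, Finset.sum_add_distrib]; abel
  map_smul' c h := by simp [Zs, smul_smul, Finset.smul_sum]

lemma Dd_apply (h : V e) (x : Rg e) : Dd h x = h.1 • op none x + Zs h.2.2 x := rfl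

lemma Zs_apply (ζ : Fin e → F) (x : Rg e) : Zs ζ x = ∑ i, ζ i • Z i x := by
  simp [Zs, LinearMap.sum_apply]

lemma Z_leib (i : Fin e) (x y : Rg e) : Z i (x * y) = Z i x * y + x * Z i y := by
  simp only [Z, LinearMap.add_apply, op_leib]; ring

lemma Zs_leib (ζ : Fin e → F) (x y : Rg e) : Zs ζ (x * y) = Zs ζ x * y + x * Zs ζ y := by
  simp only [Zs_apply, Z_leib, smul_add, Finset.sum_add_distrib, Finset.sum_mul, Finset.mul_sum,
    smul_mul_assoc, mul_smul_comm]

lemma op_Z (p : K e) (i : Fin e) (x : Rg e) : op p (Z i x) = Z i (op p x) := by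
  simp only [Z, LinearMap.add_apply, map_add, op_comm p]

lemma op_Zs (p : K e) (ζ : Fin e → F) (x : Rg e) : op p (Zs ζ x) = Zs ζ (op p x) := by
  simp only [Zs_apply, map_sum, map_smul, op_Z]

lemma Z_Zs (i : Fin e) (ζ : Fin e → F) (x : Rg e) : Z i (Zs ζ x) = Zs ζ (Z i x) := by
  simp only [Z, LinearMap.add_apply, map_add, op_Zs]

lemma Zs_Zs (ζ η : Fin e → F) (x : Rg e) : Zs ζ (Zs η x) = Zs η (Zs ζ x) := by
  rw [Zs_apply ζ, Zs_apply ζ x, map_sum]
  simp only [map_smul, Z_Zs]

def loc (k l : ℕ) : Prop := (l = 0 ∧ (k = 1 ∨ k = 2)) ∨ (k = 0 ∧ (l = 1 ∨ l = 2))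

def good (g : G e) : Prop :=
  g (false, none) = 3 ∧ g (true, none) = 3 ∧ ∀ i, loc (g (false, some i)) (g (true, some i))

open Classical in
noncomputable def tau : Rg e →ₗ[F] F := mkL fun g => if good g then 1 else 0

open Classical in
lemma tau_single (g : G e) (c : F) : tau (single g c) = if good g then c else 0 := by
  rw [tau, mkL_single]; simp

lemma tau_T (x : Rg e) : tau (op none x) = 0 := by
  refine lin_ext (tau.comp (op none)) 0 (fun a => ?_) x
  simp only [LinearMap.comp_apply, op_single, tau_single, sh, add_zero, LinearMap.zero_apply, one_mul, chi]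
  split_ifs with h
  · rw [h.1, h.2.1]; rfl
  · rfl

lemma good_sh (a : G e) (b : Bool) (i : Fin e) : good (a + sh (some (b, i))) ↔
    (a (false, none) = 3 ∧ a (true, none) = 3 ∧ ∀ j, j ≠ i → loc (a (false, some j)) (a (true, some j))) ∧
    loc (a (false, some i) + if b then 0 else 1) (a (true, some i) + if b then 1 else 0) := by
  unfold good
  have h : ∀ j, j ≠ i → ∀ b', (a + sh (some (b, i))) (b', some j) = a (b', some j) := by
    intro j hj b'
    have : (b', some j) ≠ (b, some i) := by simp [hj]
    simp [sh, Pi.single_eq_of_ne this]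
  have h0 : ∀ b', (a + sh (some (b, i))) (b', none) = a (b', none) := by
    intro b'; simp [sh]
  have h1 : (a + sh (some (b, i))) (false, some i) = a (false, some i) + if b then 0 else 1 := by
    cases b <;> simp [sh]
  have h2 : (a + sh (some (b, i))) (true, some i) = a (true, some i) + if b then 1 else 0 := by
    cases b <;> simp [sh]
  rw [h0, h0]
  constructor
  · rintro ⟨x, y, z⟩
    refine ⟨⟨x, y, fun j hj => ?_⟩, ?_⟩
    · have := z j; rwa [h j hj, h j hj] at this
    · have := z i; rwa [h1, h2] at this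
  · rintro ⟨⟨x, y, z⟩, w⟩
    refine ⟨x, y, fun j => ?_⟩
    by_cases hj : j = i
    · subst hj; rwa [h1, h2]
    · rw [h j hj, h j hj]; exact z j hj

lemma tau_Z (i : Fin e) (x : Rg e) : tau (Z i x) = 0 := by
  classical
  refine lin_ext (tau.comp (Z i)) 0 (fun a => ?_) x
  simp only [LinearMap.comp_apply, Z, LinearMap.add_apply, map_add, op_single, tau_single,
    LinearMap.zero_apply, one_mul, chi, good_sh]
  by_cases h : a (false, none) = 3 ∧ a (true, none) = 3 ∧
      ∀ j, j ≠ i → loc (a (false, some j)) (a (true, some j))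
  · simp only [eq_true h, true_and]
    rw [h.1, h.2.1]
    generalize a (false, some i) = k
    generalize a (true, some i) = l
    rcases k with _ | _ | _ | k <;> rcases l with _ | _ | _ | l <;> simp [loc] <;> rfl
  · simp only [h, false_and, if_false, add_zero]

noncomputable def Sy (e : ℕ) : Sys (V e) (Rg e) where
  D := Dd
  δ := (LinearMap.fst F F _).comp (LinearMap.snd F F _)
  τ := tau
  leib h x y := by
    simp only [Dd_apply, op_leib, Zs_leib, smul_add, add_mul, mul_add, smul_mul_assoc, mul_smul_comm]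
    abel
  comm h k x := by
    simp only [Dd_apply, map_add, map_smul, op_Zs, smul_add, Zs_Zs h.2.2, smul_comm h.1 k.1]
    abel
  inv h x := by
    simp only [Dd_apply, map_add, map_smul, tau_T, Zs_apply, map_sum, tau_Z, smul_zero,
      Finset.sum_const_zero, add_zero]

/-! the module M -/

def gen (b : Bool) (f : Fin e → ℕ) : G e
  | (b', none) => if b' = b then 1 else 0
  | (b', some i) => if b' = b then f i else 0

open Classical in
noncomputable def ee (b : Bool) (f : Fin e → ℕ) : Rg e := if ∀ i, f i ≤ 1 then single (gen b f) 1 else 0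

noncomputable def M (e : ℕ) : Submodule F (Rg e) :=
  Submodule.span F (Set.range fun x : Bool × (Fin e → ℕ) => ee x.1 x.2)

lemma ee_mem (b : Bool) (f : Fin e → ℕ) : ee b f ∈ M e := Submodule.subset_span ⟨(b, f), rfl⟩

lemma T_ee (b : Bool) (f : Fin e → ℕ) : op none (ee b f) = ee b f := by
  unfold ee
  split_ifs
  · cases b <;> simp [op_single, chi, sh, gen]
  · simp

lemma Z_ee (i : Fin e) (b : Bool) (f : Fin e → ℕ) : Z i (ee b f) = ee b (f + Pi.single i 1) := by
  have hg : gen b f + sh (some (b, i)) = gen b (f + Pi.single i 1) := by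
    funext ⟨b', o⟩
    rcases o with _ | j
    · simp [gen, sh]
    · by_cases hb : b' = b
      · subst hb
        by_cases hj : j = i
        · subst hj; simp [gen, sh]
        · simp [gen, sh, hj]
      · simp [gen, sh, hb]
  by_cases h : ∀ j, f j ≤ 1
  · have e1 : Z i (ee b f) = single (gen b (f + Pi.single i 1)) ((1 + f i : ℕ) : F) := by
      rw [← hg]
      cases b <;> simp [ee, h, Z, op_single, chi, gen]
    rw [e1]
    have := h i
    by_cases h0 : f i = 0
    · have : ∀ j, (f + Pi.single i 1 : Fin e → ℕ) j ≤ 1 := by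
        intro j
        by_cases hj : j = i
        · subst hj; simp [h0]
        · simp [hj, h j]
      rw [ee, if_pos this, h0]; rfl
    · have h1 : f i = 1 := by omega
      have : ¬ ∀ j, (f + Pi.single i 1 : Fin e → ℕ) j ≤ 1 := by
        intro h2; have := h2 i; simp [h1] at this
      rw [ee, if_neg this, h1, show ((1 + 1 : ℕ) : F) = 0 from rfl, single_zero]
  · have : ¬ ∀ j, (f + Pi.single i 1 : Fin e → ℕ) j ≤ 1 := by
      intro h2; apply h; intro j; have := h2 j; simp only [Pi.add_apply] at this; omega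
    rw [ee, ee, if_neg h, if_neg this, map_zero]

lemma M_ind {p : Rg e → Prop} (h0 : p 0) (ha : ∀ x y, p x → p y → p (x + y)) (he : ∀ b f, p (ee b f))
    (x : Rg e) (hx : x ∈ M e) : p x := by
  induction hx using Submodule.span_induction with
  | mem y hy => obtain ⟨⟨b, f⟩, rfl⟩ := hy; exact he b f
  | zero => exact h0
  | add y z _ _ h1 h2 => exact ha y z h1 h2
  | smul c y _ h1 =>
    rcases f01 c with rfl | rfl
    · simpa using h0
    · simpa using h1

lemma T_M (x : Rg e) (hx : x ∈ M e) : op none x = x :=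
  M_ind (p := fun x => op none x = x) (by simp) (fun x y h1 h2 => by rw [map_add, h1, h2]) T_ee x hx

lemma Z_M (i : Fin e) (x : Rg e) (hx : x ∈ M e) : Z i x ∈ M e :=
  M_ind (p := fun x => Z i x ∈ M e) (by simp) (fun x y h1 h2 => by rw [map_add]; exact add_mem h1 h2)
    (fun b f => by rw [Z_ee]; exact ee_mem _ _) x hx

lemma Zs_M (ζ : Fin e → F) (x : Rg e) (hx : x ∈ M e) : Zs ζ x ∈ M e := by
  rw [Zs_apply]
  exact Submodule.sum_mem _ fun i _ => Submodule.smul_mem _ _ (Z_M i x hx)

lemma ZZ_M (i : Fin e) (x : Rg e) (hx : x ∈ M e) : Z i (Z i x) = 0 := by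
  refine M_ind (p := fun x => Z i (Z i x) = 0) (by simp)
    (fun x y h1 h2 => by rw [map_add, map_add, h1, h2, add_zero]) (fun b f => ?_) x hx
  rw [Z_ee, Z_ee, ee, if_neg]
  intro h; have := h i; simp at this

lemma ZsZs_M (ζ : Fin e → F) (x : Rg e) (hx : x ∈ M e) : Zs ζ (Zs ζ x) = 0 := by
  have key : ∀ s : Finset (Fin e), (∑ i ∈ s, ζ i • Z i) ((∑ i ∈ s, ζ i • Z i) x) = 0 := by
    intro s
    induction s using Finset.induction_on with
    | empty => simp
    | insert j s hj ih =>
      rw [Finset.sum_insert hj]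
      have hc : (∑ i ∈ s, ζ i • Z i) (Z j x) = Z j ((∑ i ∈ s, ζ i • Z i) x) := by
        simp only [LinearMap.sum_apply, LinearMap.smul_apply, map_sum, map_smul]
        refine Finset.sum_congr rfl fun i _ => ?_
        simp only [Z, LinearMap.add_apply, map_add, op_comm (some (false, i)), op_comm (some (true, i))]
        congr 1; abel
      simp only [LinearMap.add_apply, LinearMap.smul_apply, map_add, map_smul, ih, ZZ_M j x hx, hc]
      simp only [smul_zero, zero_add, add_zero]
      exact two _
  exact key Finset.univ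

lemma D_M (h : V e) (x : Rg e) (hx : x ∈ M e) : Dd h x = h.1 • x + Zs h.2.2 x := by
  rw [Dd_apply, T_M x hx]

lemma D_mem (h : V e) (x : Rg e) (hx : x ∈ M e) : Dd h x ∈ M e := by
  rw [D_M h x hx]; exact add_mem (Submodule.smul_mem _ _ hx) (Zs_M _ x hx)

lemma DD_M (h : V e) (x : Rg e) (hx : x ∈ M e) : Dd h (Dd h x) = h.1 • x := by
  rw [D_M h _ (D_mem h x hx), D_M h x hx, map_add, map_smul, ZsZs_M _ x hx, smul_add, smul_smul, add_zero,
    add_assoc, two, add_zero]
  rcases f01 h.1 with h1 | h1 <;> simp [h1]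

open Classical in
lemma Gam_ee (b1 b2 b3 b4 : Bool) (f1 f2 f3 f4 : Fin e → ℕ) :
    tau (ee b1 f1 * ee b1 f1 * (ee b2 f2 * ee b2 f2) * ee b3 f3 * ee b4 f4) =
      if b1 ≠ b2 ∧ b3 ≠ b4 ∧ ∀ i, f1 i + f2 i + f3 i + f4 i = 1 then 1 else 0 := by
  by_cases h : (∀ i, f1 i ≤ 1) ∧ (∀ i, f2 i ≤ 1) ∧ (∀ i, f3 i ≤ 1) ∧ (∀ i, f4 i ≤ 1)
  · obtain ⟨h1, h2, h3, h4⟩ := h
    simp only [ee, h1, h2, h3, h4, implies_true, if_true, single_mul_single, mul_one, tau_single]
    refine if_congr ?_ rfl rfl
    cases b1 <;> cases b2 <;> cases b3 <;> cases b4 <;> simp [good, gen] <;>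
      (refine forall_congr' fun i => ?_
       have := h1 i; have := h2 i; have := h3 i; have := h4 i
       unfold loc; omega)
  · rw [if_neg]
    · simp only [not_and_or] at h
      rcases h with h | h | h | h <;> simp [ee, h]
    · rintro ⟨_, _, h5⟩
      apply h
      refine ⟨fun i => ?_, fun i => ?_, fun i => ?_, fun i => ?_⟩ <;> have := h5 i <;> omega

end Pool.Agent.H14.LieF
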