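import Pool.Agent.H14.LieF2

set_option autoImplicit false
set_option maxHeartbeats 800000

namespace Pool.Agent.H14.LieF

open AddMonoidAlgebra

variable {e : ℕ}

noncomputable def Gam (v u v' u' : Rg e) : F := tau (v * v * (u * u) * v' * u')

lemma sq_add (x y : Rg e) : (x + y) * (x + y) = x * x + y * y := by
  have := two (x * y)
  linear_combination this

lemma Gam1 (x y u v' u' : Rg e) : Gam (x + y) u v' u' = Gam x u v' u' + Gam y u v' u' := by
  rw [Gam, sq_add]; simp only [Gam, add_mul, map_add]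
lemma Gam2 (v x y v' u' : Rg e) : Gam v (x + y) v' u' = Gam v x v' u' + Gam v y v' u' := by
  rw [Gam, sq_add]; simp only [Gam, add_mul, mul_add, map_add]
lemma Gam3 (v u x y u' : Rg e) : Gam v u (x + y) u' = Gam v u x u' + Gam v u y u' := by
  simp only [Gam, add_mul, mul_add, map_add]
lemma Gam4 (v u v' x y : Rg e) : Gam v u v' (x + y) = Gam v u v' x + Gam v u v' y := by
  simp only [Gam, mul_add, map_add]

noncomputable def ZL (l : List (Fin e)) (x : Rg e) : Rg e := l.foldr (fun i y => Z i y) x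

lemma ZL_add (l : List (Fin e)) (x y : Rg e) : ZL l (x + y) = ZL l x + ZL l y := by
  induction l with
  | nil => rfl
  | cons i l ih => show Z i (ZL l (x + y)) = Z i (ZL l x) + Z i (ZL l y); rw [ih, map_add]

lemma ZL_zero (l : List (Fin e)) : ZL l (0 : Rg e) = 0 := by
  have := ZL_add l (0 : Rg e) 0
  simpa using this

lemma ZL_ee (l : List (Fin e)) (b : Bool) (f : Fin e → ℕ) :
    ZL l (ee b f) = ee b (f + fun i => l.count i) := by
  induction l with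
  | nil => simp [ZL]; rfl
  | cons i l ih =>
    show Z i (ZL l _) = _
    rw [ih, Z_ee]
    congr 1
    funext j
    by_cases h : j = i
    · subst h; simp; ring
    · simp [h, List.count_cons, Ne.symm h]

lemma f2 (x : F) : x + x = 0 := by rcases f01 x with rfl | rfl <;> rfl

lemma Phi_symm (l : List (Fin e)) (v u v' u' : Rg e) (hv : v ∈ M e) (hu : u ∈ M e) (hv' : v' ∈ M e)
    (hu' : u' ∈ M e) : Gam v u (ZL l v') u' = Gam v' u' (ZL l v) u := by
  revert u v' u'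
  refine M_ind (p := fun v => ∀ u v' u', u ∈ M e → v' ∈ M e → u' ∈ M e →
    Gam v u (ZL l v') u' = Gam v' u' (ZL l v) u) ?_ ?_ ?_ v hv
  · intros; simp [Gam, ZL_zero]
  · intro x y h1 h2 u v' u' a b c; rw [Gam1, ZL_add, Gam3, h1 u v' u' a b c, h2 u v' u' a b c]
  intro b1 f1 u v' u' hu
  revert v' u'
  refine M_ind (p := fun u => ∀ v' u', v' ∈ M e → u' ∈ M e →
    Gam (ee b1 f1) u (ZL l v') u' = Gam v' u' (ZL l (ee b1 f1)) u) ?_ ?_ ?_ u hu
  · intros; simp [Gam]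
  · intro x y h1 h2 v' u' b c; rw [Gam2, Gam4, h1 v' u' b c, h2 v' u' b c]
  intro b2 f2 v' u' hv'
  revert u'
  refine M_ind (p := fun v' => ∀ u', u' ∈ M e →
    Gam (ee b1 f1) (ee b2 f2) (ZL l v') u' = Gam v' u' (ZL l (ee b1 f1)) (ee b2 f2)) ?_ ?_ ?_ v' hv'
  · intros; simp [Gam, ZL_zero]
  · intro x y h1 h2 u' c; rw [Gam1, ZL_add, Gam3, h1 u' c, h2 u' c]
  intro b3 f3 u' hu'
  refine M_ind (p := fun u' =>
    Gam (ee b1 f1) (ee b2 f2) (ZL l (ee b3 f3)) u' = Gam (ee b3 f3) u' (ZL l (ee b1 f1)) (ee b2 f2))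
    ?_ ?_ ?_ u' hu'
  · simp [Gam]
  · intro x y h1 h2; rw [Gam2, Gam4, h1, h2]
  intro b4 f4
  rw [ZL_ee, ZL_ee, Gam, Gam, Gam_ee, Gam_ee]
  refine if_congr ?_ rfl rfl
  constructor <;> rintro ⟨h1, h2, h3⟩ <;> refine ⟨h2, h1, fun i => ?_⟩ <;> have := h3 i <;>
    simp only [Pi.add_apply] at this ⊢ <;> omega

lemma Q_zero (l : List (Fin e)) (hl : l.length < e) (v u : Rg e) (hv : v ∈ M e) (hu : u ∈ M e) :
    Gam v u (ZL l v) u = 0 := by
  revert u
  refine (M_ind (p := fun v => v ∈ M e ∧ ∀ u, u ∈ M e → Gam v u (ZL l v) u = 0) ?_ ?_ ?_ v hv).2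
  · exact ⟨zero_mem _, fun u _ => by simp [Gam]⟩
  · rintro x y ⟨hx, h1⟩ ⟨hy, h2⟩
    refine ⟨add_mem hx hy, fun u hu => ?_⟩
    rw [Gam1, ZL_add, Gam3, Gam3, h1 u hu, h2 u hu, Phi_symm l x u y u hx hu hy hu, zero_add, add_zero, f2]
  intro b1 f1
  refine ⟨ee_mem _ _, fun u hu => ?_⟩
  refine (M_ind (p := fun u => u ∈ M e ∧ Gam (ee b1 f1) u (ZL l (ee b1 f1)) u = 0) ?_ ?_ ?_ u hu).2
  · exact ⟨zero_mem _, by simp [Gam]⟩
  · rintro x y ⟨hx, h1⟩ ⟨hy, h2⟩
    refine ⟨add_mem hx hy, ?_⟩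
    rw [Gam2, Gam4, Gam4, h1, h2, Phi_symm l _ x _ y (ee_mem _ _) hx (ee_mem _ _) hy, zero_add, add_zero, f2]
  intro b2 f2
  refine ⟨ee_mem _ _, ?_⟩
  rw [ZL_ee, Gam, Gam_ee, if_neg]
  rintro ⟨_, _, h⟩
  have : (Finset.univ : Finset (Fin e)) ⊆ l.toFinset := by
    intro i _
    have := h i
    simp only [Pi.add_apply] at this
    rw [List.mem_toFinset, ← List.count_pos_iff]; omega
  have h2 := Finset.card_le_card this
  have h3 := List.toFinset_card_le l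
  simp at h2; omega

noncomputable def ZsL (l : List (Fin e → F)) (x : Rg e) : Rg e := l.foldr (fun ζ y => Zs ζ y) x

lemma Z_ZsL (i : Fin e) (l : List (Fin e → F)) (x : Rg e) : Z i (ZsL l x) = ZsL l (Z i x) := by
  induction l with
  | nil => rfl
  | cons ζ l ih => show Z i (Zs ζ (ZsL l x)) = Zs ζ (ZsL l (Z i x)); rw [Z_Zs, ih]

lemma Gam3_smul (v u x u' : Rg e) (c : F) : Gam v u (c • x) u' = c • Gam v u x u' := by
  simp only [Gam, mul_smul_comm, smul_mul_assoc, map_smul]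

lemma Gam3_sum {ι : Type} (s : Finset ι) (v u u' : Rg e) (x : ι → Rg e) :
    Gam v u (∑ i ∈ s, x i) u' = ∑ i ∈ s, Gam v u (x i) u' := by
  simp only [Gam, Finset.mul_sum, Finset.sum_mul, map_sum]

lemma Q_zero' (v u : Rg e) (hv : v ∈ M e) (hu : u ∈ M e) (l : List (Fin e → F)) :
    ∀ m : List (Fin e), l.length + m.length < e → Gam v u (ZsL l (ZL m v)) u = 0 := by
  induction l with
  | nil => intro m hm; exact Q_zero m (by simpa using hm) v u hv hu
  | cons ζ l ih =>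
    intro m hm
    show Gam v u (Zs ζ (ZsL l (ZL m v))) u = 0
    rw [Zs_apply, Gam3_sum]
    refine Finset.sum_eq_zero fun i _ => ?_
    rw [Gam3_smul, Z_ZsL]
    have := ih (i :: m) (by simp at hm ⊢; omega)
    change Gam v u (ZsL l (Z i (ZL m v))) u = 0 at this
    rw [this, smul_zero]

lemma ZsL_mem (l : List (Fin e → F)) (x : Rg e) (hx : x ∈ M e) : ZsL l x ∈ M e := by
  induction l with
  | nil => exact hx
  | cons ζ l ih => exact Zs_M ζ _ ih

lemma Zs_ZsL (η : Fin e → F) (l : List (Fin e → F)) (x : Rg e) : Zs η (ZsL l x) = ZsL l (Zs η x) := by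
  induction l with
  | nil => rfl
  | cons ζ l ih => show Zs η (Zs ζ (ZsL l x)) = Zs ζ (ZsL l (Zs η x)); rw [Zs_Zs, ih]

lemma ZsL_zero (l : List (Fin e → F)) : ZsL l (0 : Rg e) = 0 := by
  induction l with
  | nil => rfl
  | cons ζ l ih => show Zs ζ (ZsL l 0) = 0; rw [ih, map_zero]

lemma ZsL_dup (l : List (Fin e → F)) (x : Rg e) (hx : x ∈ M e) (η : Fin e → F) (h : η ∈ l) :
    Zs η (ZsL l x) = 0 := by
  induction l with
  | nil => simp at h
  | cons ζ l ih =>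
    show Zs η (Zs ζ (ZsL l x)) = 0
    rcases List.mem_cons.mp h with rfl | h
    · exact ZsZs_M _ _ (ZsL_mem l x hx)
    · rw [Zs_Zs, ih h, map_zero]

lemma ZsL_nodup (l : List (Fin e → F)) (x : Rg e) (hx : x ∈ M e) : l.Nodup ∨ ZsL l x = 0 := by
  induction l with
  | nil => exact Or.inl List.nodup_nil
  | cons ζ l ih =>
    by_cases h : ζ ∈ l
    · exact Or.inr (ZsL_dup l x hx ζ h)
    · rcases ih with ih | ih
      · exact Or.inl (List.nodup_cons.mpr ⟨h, ih⟩)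
      · right; show Zs ζ (ZsL l x) = 0; rw [ih, map_zero]

lemma tau_Zs (ζ : Fin e → F) (x : Rg e) : tau (Zs ζ x) = 0 := by
  simp only [Zs_apply, map_sum, map_smul, tau_Z, smul_zero, Finset.sum_const_zero]

lemma Zs_sq (ζ : Fin e → F) (x : Rg e) : Zs ζ (x * x) = 0 := by
  rw [Zs_leib, mul_comm, two]

lemma Gam_move (ζ : Fin e → F) (v u x y : Rg e) : Gam v u x (Zs ζ y) = Gam v u (Zs ζ x) y := by
  have h := tau_Zs ζ (v * v * (u * u) * x * y)
  rw [Zs_leib, Zs_leib, Zs_leib, Zs_sq, Zs_sq, zero_mul, mul_zero, add_zero, zero_mul, zero_add, map_add] at h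
  have h2 := f2 (Gam v u (Zs ζ x) y)
  unfold Gam at *
  linear_combination h - h2

lemma Gam_moveL (l : List (Fin e → F)) (v u y : Rg e) : ∀ x, Gam v u x (ZsL l y) = Gam v u (ZsL l x) y := by
  induction l with
  | nil => intro x; rfl
  | cons ζ l ih =>
    intro x
    show Gam v u x (Zs ζ (ZsL l y)) = Gam v u (Zs ζ (ZsL l x)) y
    rw [Gam_move, ih, Zs_ZsL]

lemma key (A : Finset (Fin e → F)) (hA : A.card < e) (v u : Rg e) (hv : v ∈ M e) (hu : u ∈ M e)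
    (l l' : List (Fin e → F)) (hl : ∀ ζ ∈ l, ζ ∈ A) (hl' : ∀ ζ ∈ l', ζ ∈ A) :
    Gam v u (ZsL l v) (ZsL l' u) = 0 := by
  rw [Gam_moveL]
  have e1 : ZsL l' (ZsL l v) = ZsL (l' ++ l) v := by simp [ZsL, List.foldr_append]
  rw [e1]
  rcases ZsL_nodup (l' ++ l) v hv with h | h
  · refine Q_zero' v u hv hu (l' ++ l) [] ?_
    have h1 : (l' ++ l).toFinset ⊆ A := by
      intro ζ hz
      rcases List.mem_append.mp (List.mem_toFinset.mp hz) with h | h
      · exact hl' ζ h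
      · exact hl ζ h
    have h2 := Finset.card_le_card h1
    rw [List.toFinset_card_of_nodup h] at h2
    simp only [List.length_nil]; omega
  · rw [h]; simp [Gam]

/-! degrees -/

noncomputable def Hi (e n : ℕ) : Submodule F (Rg e) :=
  Submodule.span F {x | ∃ g : G e, n ≤ g (false, none) + g (true, none) ∧ x = single g 1}

lemma Hi_mul {n m : ℕ} {x y : Rg e} (hx : x ∈ Hi e n) (hy : y ∈ Hi e m) : x * y ∈ Hi e (n + m) := by
  have : Hi e n * Hi e m ≤ Hi e (n + m) := by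
    unfold Hi
    rw [Submodule.span_mul_span, Submodule.span_le]
    rintro _ ⟨_, ⟨g, hg, rfl⟩, _, ⟨g', hg', rfl⟩, rfl⟩
    refine Submodule.subset_span ⟨g + g', ?_, by simp⟩
    simp only [Pi.add_apply]; omega
  exact this (Submodule.mul_mem_mul hx hy)

lemma Hi_mono {n m : ℕ} (h : n ≤ m) {x : Rg e} (hx : x ∈ Hi e m) : x ∈ Hi e n := by
  refine Submodule.span_mono ?_ hx
  rintro _ ⟨g, hg, rfl⟩
  exact ⟨g, by omega, rfl⟩

lemma M_Hi {x : Rg e} (hx : x ∈ M e) : x ∈ Hi e 1 := by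
  refine M_ind (p := fun x => x ∈ Hi e 1) (zero_mem _) (fun _ _ => add_mem) (fun b f => ?_) x hx
  unfold ee
  split_ifs
  · exact Submodule.subset_span ⟨_, by cases b <;> simp [gen], rfl⟩
  · exact zero_mem _

lemma tau_Hi {x : Rg e} (hx : x ∈ Hi e 7) : tau x = 0 := by
  have : Hi e 7 ≤ LinearMap.ker tau := by
    unfold Hi
    rw [Submodule.span_le]
    rintro _ ⟨g, hg, rfl⟩
    show tau _ = 0
    rw [tau_single, if_neg]
    rintro ⟨h1, h2, _⟩; omega
  exact this hx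

lemma op_Hi (p : K e) {x : Rg e} (hx : x ∈ Hi e 1) : op p x ∈ Hi e 1 := by
  have : Hi e 1 ≤ (Hi e 1).comap (op p) := by
    unfold Hi
    rw [Submodule.span_le]
    rintro _ ⟨g, hg, rfl⟩
    show op p _ ∈ Hi e 1
    rw [op_single, ← mul_one (1 * chi p g), ← smul_eq_mul, ← smul_single]
    exact Submodule.smul_mem _ _ (Submodule.subset_span ⟨_, by simp only [Pi.add_apply]; omega, rfl⟩)
  exact this hx

lemma D_Hi (h : V e) {x : Rg e} (hx : x ∈ Hi e 1) : Dd h x ∈ Hi e 1 := by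
  rw [Dd_apply, Zs_apply]
  exact add_mem (Submodule.smul_mem _ _ (op_Hi _ hx)) (Submodule.sum_mem _ fun i _ =>
    Submodule.smul_mem _ _ (add_mem (op_Hi _ hx) (op_Hi _ hx)))

noncomputable def R0 (e : ℕ) : Submodule F (Rg e) := Submodule.span F {1} ⊔ Hi e 1

lemma R0_iff {x : Rg e} : x ∈ R0 e ↔ ∃ c : F, ∃ y ∈ Hi e 1, x = c • 1 + y := by
  simp only [R0, Submodule.mem_sup, Submodule.mem_span_singleton]
  constructor
  · rintro ⟨_, ⟨c, rfl⟩, y, hy, rfl⟩; exact ⟨c, y, hy, rfl⟩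
  · rintro ⟨c, y, hy, rfl⟩; exact ⟨_, ⟨c, rfl⟩, y, hy, rfl⟩

lemma one_R0 : (1 : Rg e) ∈ R0 e := R0_iff.mpr ⟨1, 0, zero_mem _, by simp⟩

lemma R0_Hi {n : ℕ} {x y : Rg e} (hx : x ∈ R0 e) (hy : y ∈ Hi e n) : x * y ∈ Hi e n := by
  obtain ⟨c, z, hz, rfl⟩ := R0_iff.mp hx
  rw [add_mul, smul_mul_assoc, one_mul]
  exact add_mem (Submodule.smul_mem _ _ hy) (Hi_mono (by omega) (Hi_mul hz hy))

lemma Hi_R0 {x : Rg e} (hx : x ∈ Hi e 1) : x ∈ R0 e := R0_iff.mpr ⟨0, x, hx, by simp⟩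

lemma R0_mul {x y : Rg e} (hx : x ∈ R0 e) (hy : y ∈ R0 e) : x * y ∈ R0 e := by
  obtain ⟨c, z, hz, rfl⟩ := R0_iff.mp hy
  rw [mul_add, mul_smul_comm, mul_one]
  exact add_mem (Submodule.smul_mem _ _ hx) (Hi_R0 (R0_Hi hx hz))

lemma D_one (h : V e) : Dd h (1 : Rg e) = 0 := by
  have := (Sy e).leib h 1 1
  simp only [mul_one, one_mul, left_eq_add] at this
  exact this

lemma D_R0 (h : V e) {x : Rg e} (hx : x ∈ R0 e) : Dd h x ∈ R0 e := by
  obtain ⟨c, z, hz, rfl⟩ := R0_iff.mp hx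
  rw [map_add, map_smul, D_one, smul_zero, zero_add]
  exact Hi_R0 (D_Hi h hz)

lemma tau_R0 {r x : Rg e} (hr : r ∈ R0 e) (hx : x ∈ Hi e 6) (h : tau x = 0) : tau (r * x) = 0 := by
  obtain ⟨c, z, hz, rfl⟩ := R0_iff.mp hr
  have h7 : z * x ∈ Hi e 7 := Hi_mono (n := 7) (m := 1 + 6) (by norm_num) (Hi_mul hz hx)
  rw [add_mul, smul_mul_assoc, one_mul, map_add, map_smul, h, tau_Hi h7, smul_zero, add_zero]

end Pool.Agent.H14.LieF
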