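import Pool.Agent.H14.LieF3

set_option autoImplicit false
set_option maxHeartbeats 400000

namespace Pool.Agent.H14.LieF

variable {e : ℕ}

def In2 (P : Submodule F (Rg e)) (p : Rg e × Rg e) : Prop := p.1 ∈ P ∧ p.2 ∈ P

lemma In2.add {P : Submodule F (Rg e)} {p q : Rg e × Rg e} (hp : In2 P p) (hq : In2 P q) : In2 P (p + q) :=
  ⟨add_mem hp.1 hq.1, add_mem hp.2 hq.2⟩
lemma In2.sub {P : Submodule F (Rg e)} {p q : Rg e × Rg e} (hp : In2 P p) (hq : In2 P q) : In2 P (p - q) :=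
  ⟨sub_mem hp.1 hq.1, sub_mem hp.2 hq.2⟩
lemma In2.smul {P : Submodule F (Rg e)} {p : Rg e × Rg e} (c : F) (hp : In2 P p) : In2 P (c • p) :=
  ⟨P.smul_mem c hp.1, P.smul_mem c hp.2⟩
lemma In2.zero {P : Submodule F (Rg e)} : In2 P 0 := ⟨zero_mem _, zero_mem _⟩

lemma In2.rp {P : Submodule F (Rg e)} {p : Rg e × Rg e} (hp : In2 P p) (h : V e) (m : Rg e)
    (h1 : ∀ x ∈ P, Dd h x ∈ P) (h2 : ∀ x ∈ P, m * x ∈ P) : In2 P (rp (Sy e) h m p) :=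
  ⟨add_mem (add_mem (h1 _ hp.1) (P.smul_mem _ hp.2)) (h2 _ hp.1),
   add_mem (add_mem (h1 _ hp.2) (P.smul_mem _ (add_mem hp.1 hp.2))) (h2 _ hp.2)⟩

lemma In2.rm {P : Submodule F (Rg e)} {p : Rg e × Rg e} (hp : In2 P p) (h : V e) (m : Rg e)
    (h1 : ∀ x ∈ P, Dd h x ∈ P) (h2 : ∀ x ∈ P, m * x ∈ P) : In2 P (rm (Sy e) h m p) :=
  ⟨sub_mem (sub_mem (h1 _ hp.1) (P.smul_mem _ hp.2)) (h2 _ hp.1),
   sub_mem (sub_mem (h1 _ hp.2) (P.smul_mem _ (add_mem hp.1 hp.2))) (h2 _ hp.2)⟩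

lemma rp0 (p : Rg e × Rg e) (m : Rg e) : rp (Sy e) 0 m p = (m * p.1, m * p.2) := by simp [rp]
lemma rm0 (p : Rg e × Rg e) (m : Rg e) : rm (Sy e) 0 m p = (-(m * p.1), -(m * p.2)) := by simp [rm]

abbrev EE (e : ℕ) := El (Sy e)

def ph (x : EE e) : V e := x.1
def pm (x : EE e) : Rg e := x.2.1
def pp (x : EE e) : Rg e × Rg e := x.2.2.1
def pq (x : EE e) : Rg e × Rg e := x.2.2.2.1
def pz (x : EE e) : F := x.2.2.2.2

lemma ph_lie (x y : EE e) : ph ⁅x, y⁆ = 0 := rfl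
lemma pm_lie (x y : EE e) : pm ⁅x, y⁆ = Dd (ph x) (pm y) - Dd (ph y) (pm x) := rfl
lemma pp_lie (x y : EE e) : pp ⁅x, y⁆ = rp (Sy e) (ph x) (pm x) (pp y) - rp (Sy e) (ph y) (pm y) (pp x) := rfl
lemma pq_lie (x y : EE e) : pq ⁅x, y⁆ = rm (Sy e) (ph x) (pm x) (pq y) - rm (Sy e) (ph y) (pm y) (pq x) := rfl
lemma pz_lie (x y : EE e) : pz ⁅x, y⁆ = tau (pa (pp x) (pq y)) - tau (pa (pp y) (pq x)) := br_z (Sy e) x y
lemma ph_sub (x y : EE e) : ph (x - y) = ph x - ph y := rfl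
lemma pm_sub (x y : EE e) : pm (x - y) = pm x - pm y := rfl
lemma pp_sub (x y : EE e) : pp (x - y) = pp x - pp y := rfl
lemma pq_sub (x y : EE e) : pq (x - y) = pq x - pq y := rfl

lemma mR0 {m : Rg e} (hm : m ∈ M e) : ∀ x ∈ R0 e, m * x ∈ R0 e := fun _ hx => R0_mul (Hi_R0 (M_Hi hm)) hx

noncomputable def LL (H : Submodule F (V e)) : LieSubalgebra F (EE e) where
  carrier := {x | ph x ∈ H ∧ pm x ∈ M e ∧ In2 (R0 e) (pp x) ∧ In2 (R0 e) (pq x)}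
  add_mem' := fun ⟨a1, a2, a3, a4⟩ ⟨b1, b2, b3, b4⟩ => ⟨add_mem a1 b1, add_mem a2 b2, a3.add b3, a4.add b4⟩
  zero_mem' := ⟨zero_mem _, zero_mem _, In2.zero, In2.zero⟩
  smul_mem' := fun c _ ⟨a1, a2, a3, a4⟩ => ⟨H.smul_mem c a1, (M e).smul_mem c a2, a3.smul c, a4.smul c⟩
  lie_mem' := fun {x y} ⟨_, a2, a3, a4⟩ ⟨_, b2, b3, b4⟩ =>
    ⟨zero_mem _, sub_mem (D_mem _ _ b2) (D_mem _ _ a2),
      (b3.rp _ _ (fun _ => D_R0 _) (mR0 a2)).sub (a3.rp _ _ (fun _ => D_R0 _) (mR0 b2)),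
      (b4.rm _ _ (fun _ => D_R0 _) (mR0 a2)).sub (a4.rm _ _ (fun _ => D_R0 _) (mR0 b2))⟩

lemma mem_LL {H : Submodule F (V e)} {x : EE e} :
    x ∈ LL H ↔ ph x ∈ H ∧ pm x ∈ M e ∧ In2 (R0 e) (pp x) ∧ In2 (R0 e) (pq x) := Iff.rfl

noncomputable def J (A : Finset (Fin e → F)) : Submodule F (Rg e) :=
  Submodule.span F {x | ∃ r ∈ R0 e, ∃ c ∈ M e, ∃ l : List (Fin e → F), (∀ ζ ∈ l, ζ ∈ A) ∧
    x = r * (c * c) * ZsL l c}

noncomputable def HA (A : Finset (Fin e → F)) : Submodule F (V e) :=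
  (Submodule.span F (A : Set (Fin e → F))).comap ((LinearMap.snd F F _).comp (LinearMap.snd F F _))

lemma J_mul (A : Finset (Fin e → F)) {m : Rg e} (hm : m ∈ R0 e) : ∀ x ∈ J A, m * x ∈ J A := by
  intro x hx
  have : J A ≤ (J A).comap (LinearMap.mulLeft F m) := by
    unfold J
    rw [Submodule.span_le]
    rintro _ ⟨r, hr, c, hc, l, hl, rfl⟩
    exact Submodule.subset_span ⟨m * r, R0_mul hm hr, c, hc, l, hl, by simp [mul_assoc]⟩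
  exact this hx

lemma Zs_add (ζ η : Fin e → F) (x : Rg e) : Zs (ζ + η) x = Zs ζ x + Zs η x := by
  simp [Zs_apply, add_smul, Finset.sum_add_distrib]

lemma Zs_smul (c : F) (ζ : Fin e → F) (x : Rg e) : Zs (c • ζ) x = c • Zs ζ x := by
  simp [Zs_apply, smul_smul, Finset.smul_sum]

lemma J_D (A : Finset (Fin e → F)) {h : V e} (hh : h ∈ HA A) : ∀ x ∈ J A, Dd h x ∈ J A := by
  intro x hx
  have : J A ≤ (J A).comap (Dd h) := by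
    conv_lhs => unfold J
    rw [Submodule.span_le]
    rintro _ ⟨r, hr, c, hc, l, hl, rfl⟩
    show Dd h _ ∈ J A
    have L := (Sy e).leib h
    change ∀ x y, Dd h (x * y) = Dd h x * y + x * Dd h y at L
    rw [L, L, L c c, mul_comm (Dd h c) c, two, mul_zero, add_zero, D_M h _ (ZsL_mem l c hc), mul_add,
      mul_smul_comm]
    refine add_mem (Submodule.subset_span ⟨_, D_R0 h hr, c, hc, l, hl, rfl⟩) (add_mem
      (Submodule.smul_mem _ _ (Submodule.subset_span ⟨r, hr, c, hc, l, hl, rfl⟩)) ?_)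
    have hz : h.2.2 ∈ Submodule.span F (A : Set (Fin e → F)) := hh
    generalize h.2.2 = ζ at hz
    induction hz using Submodule.span_induction with
    | mem η hη =>
      refine Submodule.subset_span ⟨r, hr, c, hc, η :: l, ?_, rfl⟩
      intro ξ hξ
      rcases List.mem_cons.mp hξ with rfl | h1
      · exact hη
      · exact hl ξ h1
    | zero =>
      rw [← zero_smul F (0 : Fin e → F), Zs_smul, zero_smul, mul_zero]; exact zero_mem _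
    | add η ξ _ _ h1 h2 => rw [Zs_add, mul_add]; exact add_mem h1 h2
    | smul a η _ h1 => rw [Zs_smul, mul_smul_comm]; exact Submodule.smul_mem _ _ h1
  exact this hx

lemma J_J (A : Finset (Fin e → F)) (hA : A.card < e) {x y : Rg e} (hx : x ∈ J A) (hy : y ∈ J A) :
    tau (x * y) = 0 := by
  have : J A * J A ≤ LinearMap.ker tau := by
    unfold J
    rw [Submodule.span_mul_span, Submodule.span_le]
    rintro _ ⟨_, ⟨r, hr, c, hc, l, hl, rfl⟩, _, ⟨r', hr', c', hc', l', hl', rfl⟩, rfl⟩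
    show tau (_ * _) = 0
    have k := key A hA c c' hc hc' l l' hl hl'
    have h6 : c * c * (c' * c') * ZsL l c * ZsL l' c' ∈ Hi e 6 :=
      Hi_mono (n := 6) (m := 1 + 1 + (1 + 1) + 1 + 1) (by norm_num)
        (Hi_mul (Hi_mul (Hi_mul (Hi_mul (M_Hi hc) (M_Hi hc)) (Hi_mul (M_Hi hc') (M_Hi hc')))
          (M_Hi (ZsL_mem l c hc))) (M_Hi (ZsL_mem l' c' hc')))
    rw [← tau_R0 (R0_mul hr hr') h6 k]
    congr 1; ring
  exact this (Submodule.mul_mem_mul hx hy)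

noncomputable def II (A : Finset (Fin e → F)) : LieIdeal F (LL (HA A)) where
  carrier := {x | ph x.1 = 0 ∧ pm x.1 = 0 ∧ In2 (J A) (pp x.1) ∧ In2 (J A) (pq x.1)}
  add_mem' := fun {x y} ⟨a1, a2, a3, a4⟩ ⟨b1, b2, b3, b4⟩ =>
    ⟨show ph x.1 + ph y.1 = 0 by rw [a1, b1, add_zero], show pm x.1 + pm y.1 = 0 by rw [a2, b2, add_zero],
      a3.add b3, a4.add b4⟩
  zero_mem' := ⟨rfl, rfl, In2.zero, In2.zero⟩
  smul_mem' := fun c x ⟨a1, a2, a3, a4⟩ =>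
    ⟨show c • ph x.1 = 0 by rw [a1, smul_zero], show c • pm x.1 = 0 by rw [a2, smul_zero], a3.smul c, a4.smul c⟩
  lie_mem := fun {x y} ⟨b1, b2, b3, b4⟩ => by
    obtain ⟨a1, a2, _, _⟩ := mem_LL.mp x.2
    refine ⟨rfl, ?_, ?_, ?_⟩
    · show pm ⁅x.1, y.1⁆ = 0
      rw [pm_lie, b1, b2]; simp
    · show In2 _ (pp ⁅x.1, y.1⁆)
      rw [pp_lie, b1, b2, rp0, zero_mul, zero_mul]
      exact (b3.rp _ _ (J_D A a1) (J_mul A (Hi_R0 (M_Hi a2)))).sub In2.zero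
    · show In2 _ (pq ⁅x.1, y.1⁆)
      rw [pq_lie, b1, b2, rm0, zero_mul, zero_mul, neg_zero]
      exact (b4.rm _ _ (J_D A a1) (J_mul A (Hi_R0 (M_Hi a2)))).sub In2.zero

lemma ext5 {x y : EE e} (h1 : ph x = ph y) (h2 : pm x = pm y) (h3 : pp x = pp y) (h4 : pq x = pq y)
    (h5 : pz x = pz y) : x = y := Prod.ext h1 (Prod.ext h2 (Prod.ext h3 (Prod.ext h4 h5)))

lemma uw_hm (x y : EE e) (hx : pm x ∈ M e) (hy : pm y ∈ M e) : ph (uw x y) = 0 ∧ pm (uw x y) = 0 := by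
  refine ⟨by rw [uw, ph_sub, ph_lie, ph_lie, sub_zero], ?_⟩
  have hm : pm ⁅y, x⁆ ∈ M e := sub_mem (D_mem _ _ hx) (D_mem _ _ hy)
  have s : ∀ a b : EE e, pm ⁅y, ⁅a, b⁆⁆ = Dd (ph y) (pm ⁅a, b⁆) := by
    intro a b; rw [pm_lie, ph_lie]; simp
  rw [uw, pm_sub]
  simp only [s]
  rw [DD_M _ _ hm, map_smul, map_smul, DD_M _ _ hm, smul_smul]
  rcases f01 (ph y).1 with h | h <;> simp [h]

lemma step_c (c u : EE e) (hc : ph c = 0) (h1 : ph u = 0) (h2 : pm u = 0) :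
    ph ⁅c, u⁆ = 0 ∧ pm ⁅c, u⁆ = 0 ∧ pp ⁅c, u⁆ = (pm c * (pp u).1, pm c * (pp u).2) ∧
      pq ⁅c, u⁆ = (-(pm c * (pq u).1), -(pm c * (pq u).2)) := by
  refine ⟨rfl, ?_, ?_, ?_⟩
  · rw [pm_lie, hc, h1]; simp
  · rw [pp_lie, hc, h1, h2, rp0, rp0]; simp
  · rw [pq_lie, hc, h1, h2, rm0, rm0]; simp

lemma gw_form (x y a b : EE e) (hx : pm x ∈ M e) (hy : pm y ∈ M e) :
    ph (gw x y a b) = 0 ∧ pm (gw x y a b) = 0 ∧
    pp (gw x y a b) = ((pp (uw x y)).1 * (pm ⁅a, b⁆ * pm ⁅a, b⁆) * pm ⁅a, b⁆,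
      (pp (uw x y)).2 * (pm ⁅a, b⁆ * pm ⁅a, b⁆) * pm ⁅a, b⁆) ∧
    pq (gw x y a b) = (-(pq (uw x y)).1 * (pm ⁅a, b⁆ * pm ⁅a, b⁆) * pm ⁅a, b⁆,
      -(pq (uw x y)).2 * (pm ⁅a, b⁆ * pm ⁅a, b⁆) * pm ⁅a, b⁆) := by
  obtain ⟨u1, u2⟩ := uw_hm x y hx hy
  obtain ⟨a1, a2, a3, a4⟩ := step_c ⁅a, b⁆ _ rfl u1 u2
  obtain ⟨b1, b2, b3, b4⟩ := step_c ⁅a, b⁆ _ rfl a1 a2
  obtain ⟨c1, c2, c3, c4⟩ := step_c ⁅a, b⁆ _ rfl b1 b2
  refine ⟨c1, c2, ?_, ?_⟩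
  · rw [gw, c3, b3, a3]; ext1 <;> simp only [] <;> ring
  · rw [gw, c4, b4, a4]; ext1 <;> simp only [] <;> ring

theorem av_small (A : Finset (Fin e → F)) (hA : A.card < e) : AV (LL (HA A)) := by
  refine ⟨II A, ?_, ?_⟩
  · rintro x ⟨a1, a2, a3, a4⟩ y ⟨b1, b2, b3, b4⟩
    apply Subtype.ext
    show ⁅x.1, y.1⁆ = 0
    refine ext5 rfl ?_ ?_ ?_ ?_
    · rw [pm_lie, a1, b1]; simp; rfl
    · rw [pp_lie, a1, b1, a2, b2, rp0, rp0]; simp; rfl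
    · rw [pq_lie, a1, b1, a2, b2, rm0, rm0]; simp; rfl
    · rw [pz_lie, pa, pa, map_add, map_add, J_J A hA a3.1 b4.1, J_J A hA a3.2 b4.2,
        J_J A hA b3.1 a4.1, J_J A hA b3.2 a4.2]; rfl
  · intro x y a b
    have e1 : (gw x y a b).1 = gw x.1 y.1 a.1 b.1 := map_gw (LL (HA A)).incl x y a b
    obtain ⟨g1, g2, g3, g4⟩ := gw_form x.1 y.1 a.1 b.1 (mem_LL.mp x.2).2.1 (mem_LL.mp y.2).2.1
    have hu : uw x.1 y.1 ∈ LL (HA A) := (uw x y).2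
    have hc : ⁅a.1, b.1⁆ ∈ LL (HA A) := (⁅a, b⁆ : LL (HA A)).2
    obtain ⟨_, _, u3, u4⟩ := mem_LL.mp hu
    have hm := (mem_LL.mp hc).2.1
    have gen : ∀ r ∈ R0 e, r * (pm ⁅a.1, b.1⁆ * pm ⁅a.1, b.1⁆) * pm ⁅a.1, b.1⁆ ∈ J A := fun r hr =>
      Submodule.subset_span ⟨r, hr, _, hm, [], by simp, rfl⟩
    show ph (gw x y a b).1 = 0 ∧ pm (gw x y a b).1 = 0 ∧ In2 (J A) (pp (gw x y a b).1) ∧
      In2 (J A) (pq (gw x y a b).1)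
    rw [e1, g3, g4]
    exact ⟨g1, g2, ⟨gen _ u3.1, gen _ u3.2⟩, ⟨gen _ (neg_mem u4.1), gen _ (neg_mem u4.2)⟩⟩

end Pool.Agent.H14.LieF
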