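import Pool.Agent.H14.LieF4

set_option autoImplicit false
set_option maxHeartbeats 400000

namespace Pool.Agent.H14.LieF

variable {e : ℕ}

noncomputable def mkE (h : V e) (m : Rg e) (p q : Rg e × Rg e) : EE e := (h, m, p, q, 0)

lemma Zs_zero (x : Rg e) : Zs 0 x = 0 := by simp [Zs_apply]

lemma Zs_single (i : Fin e) (x : Rg e) : Zs (Pi.single i 1) x = Z i x := by
  rw [Zs_apply, Finset.sum_eq_single i]
  · simp
  · intro j _ hj; simp [hj]
  · simp

lemma Dd_d (x : Rg e) : Dd ((0, 1, 0) : V e) x = 0 := by simp [Dd_apply, Zs_zero]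
lemma Dd_z (i : Fin e) (x : Rg e) : Dd ((0, 0, Pi.single i 1) : V e) x = Z i x := by
  simp [Dd_apply, Zs_single]

noncomputable def dE (e : ℕ) : EE e := mkE (0, 1, 0) 0 0 0
noncomputable def tE (e : ℕ) : EE e := mkE (1, 0, 0) 0 0 0
noncomputable def zE (i : Fin e) : EE e := mkE (0, 0, Pi.single i 1) 0 0 0

lemma d_lie (u : EE e) : pp ⁅dE e, u⁆ = ((pp u).2, (pp u).1 + (pp u).2) ∧
    pq ⁅dE e, u⁆ = (-(pq u).2, -((pq u).1 + (pq u).2)) := by
  constructor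
  · rw [pp_lie]
    show rp (Sy e) (0, 1, 0) 0 (pp u) - rp (Sy e) (ph u) (pm u) 0 = _
    simp [rp, Sy, Dd_d]
  · rw [pq_lie]
    show rm (Sy e) (0, 1, 0) 0 (pq u) - rm (Sy e) (ph u) (pm u) 0 = _
    simp [rm, Sy, Dd_d]

lemma z_lie (i : Fin e) (u : EE e) : pp ⁅zE i, u⁆ = (Z i (pp u).1, Z i (pp u).2) ∧
    pq ⁅zE i, u⁆ = (Z i (pq u).1, Z i (pq u).2) := by
  constructor
  · rw [pp_lie]
    show rp (Sy e) (0, 0, Pi.single i 1) 0 (pp u) - rp (Sy e) (ph u) (pm u) 0 = _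
    simp [rp, Sy, Dd_z]
  · rw [pq_lie]
    show rm (Sy e) (0, 0, Pi.single i 1) 0 (pq u) - rm (Sy e) (ph u) (pm u) 0 = _
    simp [rm, Sy, Dd_z]

lemma uw_d (x : EE e) : pp (uw x (dE e)) = ((pp x).2, (pp x).1 + (pp x).2) ∧
    pq (uw x (dE e)) = ((pq x).2, (pq x).1 + (pq x).2) := by
  constructor
  · rw [uw, pp_sub]
    simp only [(d_lie _).1]
    have h1 := two (pp x).1
    have h2 := two (pp x).2
    ext1 <;> simp only [Prod.fst_sub, Prod.snd_sub]
    · linear_combination h1 + h2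
    · linear_combination h1 + 2 * h2
  · rw [uw, pq_sub]
    simp only [(d_lie _).2]
    have h1 := two (pq x).1
    have h2 := two (pq x).2
    ext1 <;> simp only [Prod.fst_sub, Prod.snd_sub]
    · linear_combination - h1 - 2 * h2
    · linear_combination - 2 * h1 - 3 * h2

lemma t_lie (m : Rg e) (hm : m ∈ M e) : pm ⁅tE e, mkE 0 m 0 0⁆ = m := by
  rw [pm_lie]
  show Dd (1, 0, 0) m - Dd 0 0 = m
  rw [D_M _ _ hm]; simp [Zs_zero]

lemma mem_top (h : V e) (m : Rg e) (hm : m ∈ M e) (p q : Rg e × Rg e) (hp : In2 (R0 e) p) (hq : In2 (R0 e) q) :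
    mkE h m p q ∈ LL (⊤ : Submodule F (V e)) := ⟨trivial, hm, hp, hq⟩

lemma Z_cube (i : Fin e) (a x : Rg e) : Z i (a * a * x) = a * a * Z i x := by
  rw [Z_leib, Z_leib, mul_comm (Z i a) a, two, zero_mul, zero_add]

theorem not_av (e : ℕ) : ¬ AV (LL (⊤ : Submodule F (V e))) := by
  rintro ⟨I, h1, h2⟩
  have o : In2 (R0 e) (1, 0) := ⟨one_R0, zero_mem _⟩
  let d : LL (⊤ : Submodule F (V e)) := ⟨dE e, mem_top _ _ (zero_mem _) _ _ In2.zero In2.zero⟩
  let t : LL (⊤ : Submodule F (V e)) := ⟨tE e, mem_top _ _ (zero_mem _) _ _ In2.zero In2.zero⟩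
  let z : Fin e → LL (⊤ : Submodule F (V e)) := fun i =>
    ⟨zE i, mem_top _ _ (zero_mem _) _ _ In2.zero In2.zero⟩
  let c : Bool → LL (⊤ : Submodule F (V e)) := fun b =>
    ⟨mkE 0 (ee b 0) 0 0, mem_top _ _ (ee_mem _ _) _ _ In2.zero In2.zero⟩
  let x : LL (⊤ : Submodule F (V e)) := ⟨mkE 0 0 (1, 0) 0, mem_top _ _ (zero_mem _) _ _ o In2.zero⟩
  let y : LL (⊤ : Submodule F (V e)) := ⟨mkE 0 0 0 (1, 0), mem_top _ _ (zero_mem _) _ _ In2.zero o⟩
  have e1 : (gw x d t (c false)).1 = gw x.1 d.1 t.1 (c false).1 := map_gw (LL ⊤).incl _ _ _ _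
  have e2 : (gw y d t (c true)).1 = gw y.1 d.1 t.1 (c true).1 := map_gw (LL ⊤).incl _ _ _ _
  obtain ⟨-, -, a3, a4⟩ := gw_form x.1 d.1 t.1 (c false).1 (zero_mem _) (zero_mem _)
  obtain ⟨-, -, b3, b4⟩ := gw_form y.1 d.1 t.1 (c true).1 (zero_mem _) (zero_mem _)
  rw [← e1, t_lie _ (ee_mem _ _), (uw_d _).1] at a3
  rw [← e1, (uw_d _).2] at a4
  rw [← e2, t_lie _ (ee_mem _ _), (uw_d _).2] at b4
  have key : ∀ l : List (Fin e), ∃ r ∈ I, pp r.1 = (0, ee false 0 * ee false 0 * ZL l (ee false 0)) ∧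
      pq r.1 = (0, 0) := by
    intro l
    induction l with
    | nil =>
      refine ⟨_, h2 x d t (c false), ?_, ?_⟩
      · rw [a3]; simp [x, mkE, pp, ZL]
      · rw [a4]; simp [x, mkE, pq]
    | cons i l ih =>
      obtain ⟨r, hr, r1, r2⟩ := ih
      refine ⟨⁅z i, r⁆, I.lie_mem hr, ?_, ?_⟩
      · show pp ⁅zE i, r.1⁆ = _
        rw [(z_lie i _).1, r1, map_zero, Z_cube]; rfl
      · show pq ⁅zE i, r.1⁆ = _
        rw [(z_lie i _).2, r2, map_zero]
  obtain ⟨r, hr, r1, r2⟩ := key (List.finRange e)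
  have h3 := congrArg (fun w : LL (⊤ : Submodule F (V e)) => pz w.1) (h1 r hr _ (h2 y d t (c true)))
  change pz ⁅r.1, (gw y d t (c true)).1⁆ = 0 at h3
  rw [pz_lie, r1, r2, b4, ZL_ee] at h3
  have h4 := Gam_ee (e := e) false true false true 0 0 (0 + fun i => (List.finRange e).count i) 0
  rw [if_pos ⟨by simp, by simp, fun i => by simp⟩, zero_add] at h4
  have h5 : (pq y.1).1 + (pq y.1).2 = 1 := by simp [y, mkE, pq]
  simp only [pa, h5, zero_mul, mul_zero, zero_add, add_zero, map_zero, sub_zero] at h3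
  have h6 : ∀ a b w : Rg e, a * a * w * (-1 * (b * b) * b) = -(a * a * (b * b) * w * b) := by
    intros; ring
  rw [h6, map_neg, h4] at h3
  exact absurd h3 (by decide)

theorem main (C : Finset (FreeLieAlgebra F ℕ)) : ∃ (L : Type) (_ : LieRing L) (_ : LieAlgebra F L),
    ¬ (AV L ↔ ∀ c ∈ C, ∀ φ : ℕ → L, FreeLieAlgebra.lift F φ c = 0) := by
  classical
  by_contra hcon
  push Not at hcon
  choose k hk using fin_vars
  let n := C.sup k
  refine not_av (n + 1) ((hcon _ _ _).mpr fun c hc φ => ?_)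
  let A : Finset (Fin (n + 1) → F) := (Finset.range n).image fun i => (ph (φ i).1).2.2
  have hA : A.card < n + 1 := lt_of_le_of_lt Finset.card_image_le (by simp)
  have hle : LL (HA A) ≤ LL ⊤ := fun x hx => ⟨trivial, hx.2⟩
  have hm : ∀ i < n, (φ i).1 ∈ LL (HA A) := fun i hi =>
    ⟨Submodule.subset_span (Finset.mem_coe.mpr (Finset.mem_image.mpr ⟨i, Finset.mem_range.mpr hi, rfl⟩)),
      (φ i).2.2⟩
  let ψ : ℕ → LL (HA A) := fun i => if h : i < n then ⟨(φ i).1, hm i h⟩ else 0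
  have h0 := (hcon _ _ _).mp (av_small A hA) c hc ψ
  rw [hk c _ φ (fun i => LieSubalgebra.inclusion hle (ψ i)), lift_map, h0, map_zero]
  intro i hi
  have : i < n := lt_of_lt_of_le hi (Finset.le_sup hc)
  simp only [ψ, dif_pos this]
  rfl

end Pool.Agent.H14.LieF
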