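import Mathlib

set_option autoImplicit false
open Finset

namespace Pool.Agent.H14.Lind

variable {d : ℕ}

lemma kyfan1 (l p : Fin d → ℝ) (hl : Antitone l) (k : Fin d) (p0 : ∀ i, 0 ≤ p i) (p1 : ∀ i, p i ≤ 1)
    (hs : ∑ i, p i = ∑ i : Fin d, if i ≤ k then (1 : ℝ) else 0) :
    ∑ i, l i * p i ≤ ∑ i, if i ≤ k then l i else 0 := by
  have : ∑ i, (l i - l k) * p i ≤ ∑ i, (l i - l k) * (if i ≤ k then 1 else 0) := by
    refine sum_le_sum fun i _ => ?_
    split_ifs with h
    · exact mul_le_mul_of_nonneg_left (p1 i) (sub_nonneg.2 (hl h))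
    · rw [mul_zero]
      exact mul_nonpos_of_nonpos_of_nonneg (sub_nonpos.2 (hl (not_le.1 h).le)) (p0 i)
  simp only [sub_mul, sum_sub_distrib, ← mul_sum, hs] at this
  simp only [mul_ite, mul_one, mul_zero] at this
  linarith

noncomputable def bw (r : ℝ) (i : Fin d) : ℝ := ∑ k : Fin d, if i ≤ k then r ^ (k : ℕ) else 0

noncomputable def F (r : ℝ) (l : Fin d → ℝ) : ℝ := ∑ i, bw r i * max (l i) 0

noncomputable def be (r : ℝ) (l : Fin d → ℝ) (i : Fin d) : ℝ := if 0 < l i then bw r i else 0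

lemma bw_ge {r : ℝ} (hr : 1 ≤ r) (i : Fin d) : 1 ≤ bw r i := by
  have := single_le_sum (f := fun k : Fin d => if i ≤ k then r ^ (k : ℕ) else 0)
    (fun k _ => by split_ifs <;> positivity) (mem_univ i)
  simp only [le_refl, if_true] at this
  exact (one_le_pow₀ hr).trans this

lemma be_bd {r : ℝ} (hr : 1 ≤ r) (l : Fin d → ℝ) (i : Fin d) : 0 ≤ be r l i ∧ be r l i ≤ bw r i := by
  have := bw_ge hr i
  unfold be; split_ifs <;> constructor <;> linarith

lemma F_eq (r : ℝ) (l : Fin d → ℝ) : ∑ i, be r l i * l i = F r l := by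
  refine sum_congr rfl fun i _ => ?_
  unfold be
  split_ifs with h
  · rw [max_eq_left h.le]
  · rw [max_eq_right (not_lt.1 h)]; simp

lemma kyfan {r : ℝ} (hr : 1 ≤ r) (l β : Fin d → ℝ) (hl : Antitone l) (D : Fin d → Fin d → ℝ)
    (hβ : ∀ j, 0 ≤ β j ∧ β j ≤ bw r j) (D0 : ∀ j i, 0 ≤ D j i) (D1 : ∀ j, ∑ i, D j i = 1)
    (D2 : ∀ i, ∑ j, D j i = 1) : ∑ j, ∑ i, β j * l i * D j i ≤ F r l := by
  have hm : Antitone fun i => max (l i) 0 := fun a b h => max_le_max (hl h) le_rfl
  calc ∑ j, ∑ i, β j * l i * D j i ≤ ∑ j, ∑ i, bw r j * max (l i) 0 * D j i :=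
        sum_le_sum fun j _ => sum_le_sum fun i _ => mul_le_mul_of_nonneg_right
          ((mul_le_mul_of_nonneg_left (le_max_left _ _) (hβ j).1).trans
            (mul_le_mul_of_nonneg_right (hβ j).2 (le_max_right _ _))) (D0 j i)
    _ = ∑ k : Fin d, r ^ (k : ℕ) * ∑ i, max (l i) 0 * ∑ j, if j ≤ k then D j i else 0 := by
        simp only [bw, sum_mul, mul_sum]
        rw [sum_comm, sum_congr rfl fun i _ => sum_comm, sum_comm]
        refine sum_congr rfl fun k _ => sum_congr rfl fun i _ => sum_congr rfl fun j _ => ?_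
        split_ifs <;> ring
    _ ≤ ∑ k : Fin d, r ^ (k : ℕ) * ∑ i, if i ≤ k then max (l i) 0 else 0 := by
        refine sum_le_sum fun k _ => mul_le_mul_of_nonneg_left (kyfan1 _ _ hm k
          (fun i => sum_nonneg fun j _ => by split_ifs; exacts [D0 j i, le_rfl])
          (fun i => (D2 i) ▸ sum_le_sum fun j _ => by split_ifs; exacts [le_rfl, D0 j i]) ?_)
          (by positivity)
        rw [sum_comm]
        refine sum_congr rfl fun j _ => ?_
        split_ifs
        · exact D1 j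
        · simp
    _ = F r l := by
        simp only [F, bw, sum_mul, mul_sum]
        rw [sum_comm]
        refine sum_congr rfl fun k _ => sum_congr rfl fun i _ => ?_
        split_ifs <;> ring

lemma decay (c r : ℝ) (hc : 0 < c) (hr : 1 ≤ r) (l : Fin d → ℝ) (hl : Antitone l) (h0 : ∑ i, l i = 0)
    (N : Fin d → Fin d → ℝ) (N0 : ∀ a b, 0 ≤ N a b) (NC : ∑ a, ∑ b, N a b ≤ c * r)
    (Nc : ∀ T : Finset (Fin d), T.Nonempty → T ≠ univ →
      c ≤ ∑ a, ∑ b, if a ∉ T ∧ b ∈ T then N a b else 0) :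
    (∑ i : Fin d, bw r i) * ∑ a, ∑ b, N a b * l b * (be r l a - be r l b) ≤ -(c * F r l) := by
  classical
  set m : ℕ → ℝ := fun n => if h : n < d then max (l ⟨n, h⟩) 0 else 0 with hm
  have m0 : ∀ n, 0 ≤ m n := fun n => by
    simp only [hm]; split_ifs; exacts [le_max_right _ _, le_rfl]
  set χ : Fin d → Fin d → ℝ := fun k a => if a ≤ k ∧ 0 < l a then 1 else 0 with hχ
  have e1 : ∀ a, be r l a = ∑ k : Fin d, r ^ (k : ℕ) * χ k a := fun a => by
    simp only [be, bw, hχ]
    split_ifs with h <;> simp [h]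
  have G : ∀ k : Fin d, ∑ a, ∑ b, N a b * l b * (χ k a - χ k b) ≤ c * r * m (k + 1) - c * m k := by
    intro k
    set T := univ.filter fun a => a ≤ k ∧ 0 < l a with hT
    have mk : m k = max (l k) 0 := by simp [hm]
    have t1 : ∀ a b, N a b * l b * (χ k a - χ k b) ≤
        N a b * m (k + 1) - (if a ∉ T ∧ b ∈ T then N a b else 0) * m k := by
      intro a b
      have n0 := N0 a b
      have q := mul_nonneg n0 (m0 (k + 1))
      simp only [hχ, hT, mem_filter, mem_univ, true_and]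
      by_cases ha : a ≤ k ∧ 0 < l a <;> by_cases hb : b ≤ k ∧ 0 < l b
      · simp [ha, hb, q]
      · simp only [ha, hb, and_self, if_true, if_false, not_true, and_false, sub_zero, mul_one, zero_mul]
        refine mul_le_mul_of_nonneg_left ?_ n0
        by_cases hb' : b ≤ k
        · exact (not_lt.1 fun h => hb ⟨hb', h⟩).trans (m0 _)
        · have h1 : (k : ℕ) + 1 ≤ b := not_le.1 hb'
          have h2 : (k : ℕ) + 1 < d := lt_of_le_of_lt h1 b.2
          simp only [hm, h2, dif_pos]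
          exact le_max_of_le_left (hl (show (⟨k + 1, h2⟩ : Fin d) ≤ b from h1))
      · have : m k ≤ l b := by rw [mk]; exact max_le (hl hb.1) hb.2.le
        have := mul_le_mul_of_nonneg_left this n0
        rw [if_neg ha, if_pos hb, if_pos ⟨ha, hb⟩]
        linarith
      · rw [if_neg ha, if_neg hb, if_neg fun h => hb h.2]
        simpa using q
    refine (sum_le_sum fun a _ => sum_le_sum fun b _ => t1 a b).trans ?_
    simp only [sum_sub_distrib, ← sum_mul]
    refine sub_le_sub (mul_le_mul_of_nonneg_right NC (m0 _)) ?_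
    by_cases hk : 0 < l k
    · refine mul_le_mul_of_nonneg_right (Nc T ⟨k, by simp [hT, hk]⟩ fun h => ?_) (m0 _)
      have : 0 < ∑ i, l i := sum_pos (fun i _ => by
        have : i ∈ T := h ▸ mem_univ i
        exact (mem_filter.1 this).2.2) ⟨k, mem_univ _⟩
      linarith
    · rw [mk, max_eq_right (not_lt.1 hk)]; simp
  have e2 : ∑ a, ∑ b, N a b * l b * (be r l a - be r l b) =
      ∑ k : Fin d, r ^ (k : ℕ) * ∑ a, ∑ b, N a b * l b * (χ k a - χ k b) := by
    simp only [e1, ← sum_sub_distrib, mul_sum]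
    rw [sum_congr rfl fun a _ => sum_comm, sum_comm]
    exact sum_congr rfl fun k _ => sum_congr rfl fun a _ => sum_congr rfl fun b _ => by ring
  have e3 : ∑ k : Fin d, r ^ (k : ℕ) * (c * r * m (k + 1) - c * m k) = -(c * m 0) := by
    rw [Fin.sum_univ_eq_sum_range (fun k => r ^ k * (c * r * m (k + 1) - c * m k)) d,
      sum_congr rfl (g := fun k => c * r ^ (k + 1) * m (k + 1) - c * r ^ k * m k) fun k _ => by ring,
      sum_range_sub fun k => c * r ^ k * m k]
    simp [hm]
  have e4 : ∑ a, ∑ b, N a b * l b * (be r l a - be r l b) ≤ -(c * m 0) := by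
    rw [e2, ← e3]
    exact sum_le_sum fun k _ => mul_le_mul_of_nonneg_left (G k) (by positivity)
  have e5 : F r l ≤ (∑ i : Fin d, bw r i) * m 0 := by
    rw [F, sum_mul]
    refine sum_le_sum fun i _ => mul_le_mul_of_nonneg_left ?_ (by linarith [bw_ge hr i])
    have h2 : 0 < d := Fin.pos i
    simp only [hm, h2, dif_pos]
    exact max_le_max (hl (show (⟨0, h2⟩ : Fin d) ≤ i from Nat.zero_le _)) le_rfl
  have B0 : 0 ≤ ∑ i : Fin d, bw r i := sum_nonneg fun i _ => by linarith [bw_ge hr i]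
  have := mul_le_mul_of_nonneg_left e4 B0
  have := mul_le_mul_of_nonneg_left e5 hc.le
  linarith

lemma gron (v : ℝ → ℝ) (γ s t : ℝ) (hγ : 0 < γ) (hst : s ≤ t) (v0 : ∀ u, 0 ≤ v u)
    (h : ∀ ε, 0 < ε → ∃ δ, 0 < δ ∧ ∀ a b, s ≤ a → a ≤ b → b ≤ t → b - a < δ →
      v b - v a ≤ (b - a) * (-(γ * v b) + ε)) :
    v t ≤ Real.exp (-(γ / 2 * (t - s))) * v s := by
  refine le_of_forall_pos_le_add fun η hη => ?_
  have hT : 0 < t - s + 1 := by linarith
  obtain ⟨δ, hδ, H⟩ := h (η / (t - s + 1)) (by positivity)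
  obtain ⟨n, hn⟩ := exists_nat_gt (max ((t - s) / δ) (γ * (t - s)))
  have n0 : (0 : ℝ) < n := lt_of_le_of_lt (le_max_of_le_right (by positivity)) hn
  set k := (t - s) / n with hk
  have k0 : 0 ≤ k := by positivity
  have k1 : k < δ := by
    rw [hk, div_lt_iff₀ n0]
    have := (div_lt_iff₀ hδ).1 (lt_of_le_of_lt (le_max_left _ _) hn)
    linarith
  have k2 : γ * k ≤ 1 := by
    rw [hk, ← mul_div_assoc, div_le_one n0]
    exact (lt_of_le_of_lt (le_max_right _ _) hn).le
  have k3 : n * k = t - s := by rw [hk]; field_simp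
  have ex : 1 ≤ Real.exp (-(γ / 2 * k)) * (1 + γ * k) := by
    have := Real.add_one_le_exp (-(γ / 2 * k))
    have g0 : 0 ≤ γ * k := by positivity
    nlinarith
  have ex1 : Real.exp (-(γ / 2 * k)) ≤ 1 := Real.exp_le_one_iff.2 (by
    have : 0 ≤ γ / 2 * k := by positivity
    linarith)
  have I : ∀ j : ℕ, j ≤ n → v (s + j * k) ≤
      Real.exp (-(γ / 2 * (j * k))) * v s + j * k * (η / (t - s + 1)) := by
    intro j
    induction j with
    | zero => simp
    | succ j ih =>
      intro hj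
      have i1 := ih (by omega)
      have hj' : ((j + 1 : ℕ) : ℝ) * k ≤ n * k :=
        mul_le_mul_of_nonneg_right (by exact_mod_cast hj) k0
      have j0 : 0 ≤ (j : ℝ) * k := by positivity
      push_cast at hj' ⊢
      have i2 := H (s + j * k) (s + (j + 1) * k) (by linarith) (by linarith) (by linarith) (by linarith)
      have e : Real.exp (-(γ / 2 * ((j + 1) * k))) =
          Real.exp (-(γ / 2 * k)) * Real.exp (-(γ / 2 * (j * k))) := by
        rw [← Real.exp_add]; congr 1; ring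
      set ε := η / (t - s + 1)
      have ε0 : 0 ≤ ε := by positivity
      have i3 : v (s + (j + 1) * k) * (1 + γ * k) ≤
          Real.exp (-(γ / 2 * (j * k))) * v s + (j + 1) * k * ε := by nlinarith
      have i4 := mul_le_mul_of_nonneg_left i3 (Real.exp_pos (-(γ / 2 * k))).le
      have i5 := mul_le_mul_of_nonneg_left ex (v0 (s + (j + 1) * k))
      have i6 := mul_le_mul_of_nonneg_right ex1 (by positivity : 0 ≤ (j + 1) * k * ε)
      rw [e]
      nlinarith
  have := I n le_rfl
  rw [k3, add_sub_cancel] at this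
  refine this.trans (add_le_add le_rfl ?_)
  rw [← mul_div_assoc, div_le_iff₀ hT]
  nlinarith

end Pool.Agent.H14.Lind
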