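import Mathlib
import Pool.Agent.H14.Lind1

set_option autoImplicit false
open Finset Matrix Complex

namespace Pool.Agent.H14.Lind

variable {d m : ℕ}

/-- Complex `d × d` matrices. -/
abbrev Mat (d : ℕ) := Matrix (Fin d) (Fin d) ℂ

/-- The dissipator. -/
noncomputable def Dis (L : Fin m → Mat d) (X : Mat d) : Mat d :=
  ∑ j, (L j * X * (L j)ᴴ - (1 / 2 : ℂ) • ((L j)ᴴ * L j * X + X * ((L j)ᴴ * L j)))

/-- The Lindbladian with Hamiltonian `H`. -/
noncomputable def Lind (H : Mat d) (L : Fin m → Mat d) (X : Mat d) : Mat d :=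
  (-I) • (H * X - X * H) + Dis L X

def dg (β : Fin d → ℝ) : Mat d := diagonal fun i => (β i : ℂ)

def cj (U : Mat d) (β : Fin d → ℝ) : Mat d := U * dg β * Uᴴ

lemma diag_sorted (X : Mat d) (hX : X.IsHermitian) : ∃ (U : Mat d) (l : Fin d → ℝ),
    U * Uᴴ = 1 ∧ Antitone l ∧ X = cj U l ∧ ∑ i, |l i| = ∑ i, |hX.eigenvalues i| := by
  set σ := Tuple.sort fun i => -hX.eigenvalues i
  set V : Mat d := hX.eigenvectorUnitary.1
  have hV : V * Vᴴ = 1 := mem_unitaryGroup_iff.1 hX.eigenvectorUnitary.2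
  refine ⟨V.submatrix id σ, fun i => hX.eigenvalues (σ i), ?_, fun a b h => ?_, ?_,
    Equiv.sum_comp σ fun i => |hX.eigenvalues i|⟩
  · rw [conjTranspose_submatrix, submatrix_mul_equiv, hV]; rfl
  · have := Tuple.monotone_sort (fun i => -hX.eigenvalues i) h
    simp only [Function.comp_apply] at this
    linarith
  · have e : X = V * diagonal (fun i => (hX.eigenvalues i : ℂ)) * Vᴴ := hX.spectral_theorem
    have e2 : dg (fun i => hX.eigenvalues (σ i)) =
        (diagonal fun i => (hX.eigenvalues i : ℂ)).submatrix σ σ := by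
      rw [submatrix_diagonal_equiv]; rfl
    rw [cj, e2, conjTranspose_submatrix, submatrix_mul_equiv, submatrix_mul_equiv, ← e]; rfl

lemma tr_dg (β l : Fin d → ℝ) (Q : Mat d) :
    (dg β * Q * dg l * Qᴴ).trace = ((∑ j, ∑ i, β j * l i * normSq (Q j i) : ℝ) : ℂ) := by
  simp only [trace, Matrix.diag, dg]
  push_cast
  refine sum_congr rfl fun j _ => ?_
  rw [mul_apply]
  refine sum_congr rfl fun i _ => ?_
  rw [mul_diagonal, diagonal_mul, conjTranspose_apply, ← mul_conj]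
  simp only [RCLike.star_def]; ring

lemma row1 {Q : Mat d} (h : Q * Qᴴ = 1) (j : Fin d) : ∑ i, normSq (Q j i) = 1 := by
  have := congrArg re (congrFun (congrFun h j) j)
  simpa [mul_apply, normSq_apply] using this

lemma dg_mul (β l : Fin d → ℝ) : dg β * dg l = dg fun i => β i * l i := by
  simp [dg, diagonal_mul_diagonal]

lemma dg_one : dg (fun _ : Fin d => 1) = 1 := by simp [dg]

lemma ky {r : ℝ} (hr : 1 ≤ r) {U W : Mat d} (hU : U * Uᴴ = 1) (hW : W * Wᴴ = 1) (l μ : Fin d → ℝ)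
    (hl : Antitone l) : (cj W (be r μ) * cj U l).trace.re ≤ F r l := by
  have hU' : Uᴴ * U = 1 := mul_eq_one_comm.1 hU
  have hW' : Wᴴ * W = 1 := mul_eq_one_comm.1 hW
  have e : (cj W (be r μ) * cj U l).trace = (dg (be r μ) * (Wᴴ * U) * dg l * (Wᴴ * U)ᴴ).trace := by
    simp only [cj, conjTranspose_mul, conjTranspose_conjTranspose, Matrix.mul_assoc]
    rw [trace_mul_comm W]
    simp only [Matrix.mul_assoc]
  have q1 : (Wᴴ * U) * (Wᴴ * U)ᴴ = 1 := by
    rw [conjTranspose_mul, conjTranspose_conjTranspose, Matrix.mul_assoc, ← Matrix.mul_assoc U, hU,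
      Matrix.one_mul, hW']
  have q2 : (Wᴴ * U)ᴴ * (Wᴴ * U)ᴴᴴ = 1 := by
    rw [conjTranspose_conjTranspose]; exact mul_eq_one_comm.1 q1
  rw [e, tr_dg, ofReal_re]
  refine kyfan hr l _ hl _ (be_bd hr μ) (fun _ _ => normSq_nonneg _) (row1 q1) fun i => ?_
  simpa [conjTranspose_apply] using row1 q2 i

lemma cj_mul {U : Mat d} (hU : U * Uᴴ = 1) (β l : Fin d → ℝ) :
    cj U β * cj U l = cj U fun i => β i * l i := by
  have hU' : Uᴴ * U = 1 := mul_eq_one_comm.1 hU
  simp only [cj, Matrix.mul_assoc]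
  rw [← Matrix.mul_assoc Uᴴ, hU', Matrix.one_mul, ← Matrix.mul_assoc (dg β), dg_mul]

lemma cj_tr {U : Mat d} (hU : U * Uᴴ = 1) (l : Fin d → ℝ) : (cj U l).trace = ((∑ i, l i : ℝ) : ℂ) := by
  rw [cj, trace_mul_cycle, mul_eq_one_comm.1 hU, Matrix.one_mul, dg, trace_diagonal]; simp

noncomputable def Nn (L : Fin m → Mat d) (U : Mat d) (a b : Fin d) : ℝ :=
  ∑ j, normSq ((Uᴴ * L j * U) a b)

lemma tr_lind {U : Mat d} (hU : U * Uᴴ = 1) (H : Mat d) (L : Fin m → Mat d) (β l : Fin d → ℝ) :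
    (cj U β * Lind H L (cj U l)).trace.re = ∑ a, ∑ b, Nn L U a b * l b * (β a - β b) := by
  have hc : cj U β * cj U l = cj U l * cj U β := by
    rw [cj_mul hU, cj_mul hU]; simp only [mul_comm]
  have h0 : (cj U β * (H * cj U l - cj U l * H)).trace = 0 := by
    rw [mul_sub, trace_sub, ← Matrix.mul_assoc, trace_mul_cycle, ← hc, Matrix.mul_assoc, sub_self]
  have h1 : ∀ A : Mat d, (cj U β * (A * cj U l * Aᴴ)).trace =
      ((∑ a, ∑ b, β a * l b * normSq ((Uᴴ * A * U) a b) : ℝ) : ℂ) := fun A => by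
    rw [← tr_dg]
    simp only [cj, conjTranspose_mul, conjTranspose_conjTranspose, Matrix.mul_assoc]
    rw [trace_mul_comm U]
    simp only [Matrix.mul_assoc]
  have h2 : ∀ A : Mat d, (cj U β * cj U l * (Aᴴ * A)).trace =
      ((∑ a, ∑ b, β b * l b * normSq ((Uᴴ * A * U) a b) : ℝ) : ℂ) := fun A => by
    have := tr_dg (fun i => β i * l i) (fun _ => 1) (Uᴴ * A * U)ᴴ
    rw [sum_comm] at this
    simp only [conjTranspose_apply, RCLike.star_def, normSq_conj, mul_one] at this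
    rw [← this, cj_mul hU, dg_one]
    simp only [cj, conjTranspose_mul, conjTranspose_conjTranspose, Matrix.mul_assoc, Matrix.one_mul]
    rw [← Matrix.mul_assoc U Uᴴ, hU, Matrix.one_mul, trace_mul_comm U]
    simp only [Matrix.mul_assoc]
  have h3 : ∀ A : Mat d, (cj U β * (A * cj U l * Aᴴ - (1 / 2 : ℂ) • (Aᴴ * A * cj U l +
      cj U l * (Aᴴ * A)))).trace.re = ∑ a, ∑ b, normSq ((Uᴴ * A * U) a b) * l b * (β a - β b) := by
    intro A
    rw [mul_sub, trace_sub, h1, Matrix.mul_smul, trace_smul, mul_add, trace_add,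
      ← Matrix.mul_assoc (cj U β) (Aᴴ * A), trace_mul_cycle, ← hc, ← Matrix.mul_assoc (cj U β), h2,
      smul_eq_mul, ← two_mul, ← mul_assoc, show (1 / 2 : ℂ) * 2 = 1 by norm_num, one_mul, ← ofReal_sub,
      ofReal_re, ← sum_sub_distrib]
    refine sum_congr rfl fun a _ => ?_
    rw [← sum_sub_distrib]
    exact sum_congr rfl fun b _ => by ring
  rw [Lind, mul_add, trace_add, Matrix.mul_smul, trace_smul, h0, smul_zero, zero_add, Dis,
    Matrix.mul_sum, trace_sum, re_sum]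
  simp only [h3, Nn, sum_mul]
  rw [sum_comm]
  exact sum_congr rfl fun a _ => sum_comm

lemma consts (L : Fin m → Mat d) (hL : Algebra.adjoin ℂ (Set.range L) = ⊤) : ∃ c r : ℝ, 0 < c ∧ 1 ≤ r ∧
    ∀ U : Mat d, U * Uᴴ = 1 → ∑ a, ∑ b, Nn L U a b ≤ c * r ∧ ∀ T : Finset (Fin d), T.Nonempty →
      T ≠ univ → c ≤ ∑ a, ∑ b, if a ∉ T ∧ b ∈ T then Nn L U a b else 0 := by
  classical
  set K : Set (Mat d) := {U | U * Uᴴ = 1} with hK
  have hc : IsCompact K := by
    refine (isCompact_univ_pi fun _ : Fin d => isCompact_univ_pi fun _ : Fin d =>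
      isCompact_closedBall (0 : ℂ) 1).of_isClosed_subset (isClosed_eq (by fun_prop) continuous_const) ?_
    intro U hU i _ j _
    simpa using entry_norm_bound_of_unitary (mem_unitaryGroup_iff.2 hU) i j
  have hne : K.Nonempty := ⟨1, by simp [hK]⟩
  have cN : ∀ a b, Continuous fun U => Nn L U a b := fun a b => by
    simp only [Nn]
    exact continuous_finsetSum _ fun j _ => continuous_normSq.comp
      (Continuous.matrix_elem (by fun_prop) a b)
  have N0 : ∀ U a b, 0 ≤ Nn L U a b := fun U a b => sum_nonneg fun _ _ => normSq_nonneg _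
  have low : ∀ T : Finset (Fin d), ∃ c, 0 < c ∧ (T.Nonempty → T ≠ univ → ∀ U ∈ K,
      c ≤ ∑ a, ∑ b, if a ∉ T ∧ b ∈ T then Nn L U a b else 0) := by
    intro T
    by_cases hT : T.Nonempty ∧ T ≠ univ
    swap
    · exact ⟨1, one_pos, fun h1 h2 => absurd ⟨h1, h2⟩ hT⟩
    obtain ⟨U, hU, hm⟩ := hc.exists_isMinOn
      (f := fun U => ∑ a, ∑ b, if a ∉ T ∧ b ∈ T then Nn L U a b else 0) hne
      (Continuous.continuousOn (continuous_finsetSum _ fun a _ => continuous_finsetSum _ fun b _ => by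
        split_ifs; exacts [cN a b, continuous_const]))
    refine ⟨_, ?_, fun _ _ V hV => hm hV⟩
    have nn : ∀ a b, 0 ≤ if a ∉ T ∧ b ∈ T then Nn L U a b else 0 := fun a b => by
      split_ifs; exacts [N0 U a b, le_rfl]
    refine lt_of_le_of_ne (sum_nonneg fun a _ => sum_nonneg fun b _ => nn a b) fun h0 => ?_
    have z : ∀ j a b, a ∉ T → b ∈ T → (Uᴴ * L j * U) a b = 0 := by
      intro j a b ha hb
      have h1 := (sum_eq_zero_iff_of_nonneg fun b _ => nn a b).1
        ((sum_eq_zero_iff_of_nonneg fun a _ => sum_nonneg fun b _ => nn a b).1 h0.symm a (mem_univ _))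
        b (mem_univ _)
      rw [if_pos ⟨ha, hb⟩] at h1
      exact normSq_eq_zero.1 ((sum_eq_zero_iff_of_nonneg fun j _ => normSq_nonneg _).1 h1 j (mem_univ _))
    have hU1 : U * Uᴴ = 1 := hU
    have hU' : Uᴴ * U = 1 := mul_eq_one_comm.1 hU1
    have all : ∀ A ∈ Algebra.adjoin ℂ (Set.range L), ∀ a b, a ∉ T → b ∈ T → (Uᴴ * A * U) a b = 0 := by
      intro A hA
      induction hA using Algebra.adjoin_induction with
      | mem x hx => obtain ⟨j, rfl⟩ := hx; exact z j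
      | algebraMap r =>
        intro a b ha hb
        have : a ≠ b := fun h => ha (h ▸ hb)
        rw [Algebra.algebraMap_eq_smul_one, Matrix.mul_smul, Matrix.smul_mul, Matrix.mul_one, hU']
        simp [this]
      | add x y _ _ hx hy =>
        intro a b ha hb
        rw [mul_add, add_mul, Matrix.add_apply, hx a b ha hb, hy a b ha hb, add_zero]
      | mul x y _ _ hx hy =>
        intro a b ha hb
        have : Uᴴ * (x * y) * U = (Uᴴ * x * U) * (Uᴴ * y * U) := by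
          simp only [Matrix.mul_assoc]
          rw [← Matrix.mul_assoc U Uᴴ, hU1, Matrix.one_mul]
        rw [this, mul_apply]
        refine sum_eq_zero fun k _ => ?_
        by_cases hk : k ∈ T
        · rw [hx a k ha hk, zero_mul]
        · rw [hy k b hk hb, mul_zero]
    obtain ⟨b, hb⟩ := hT.1
    obtain ⟨a, ha⟩ : ∃ a, a ∉ T := by
      by_contra h
      push Not at h
      exact hT.2 (eq_univ_of_forall h)
    have := all (U * single a b 1 * Uᴴ) (by rw [hL]; trivial) a b ha hb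
    simp only [Matrix.mul_assoc] at this
    rw [hU', Matrix.mul_one, ← Matrix.mul_assoc, hU', Matrix.one_mul] at this
    simp at this
  choose c c0 hcc using low
  obtain ⟨T0, -, hT0⟩ := exists_min_image univ c ⟨∅, mem_univ _⟩
  obtain ⟨U0, -, hm⟩ := hc.exists_isMaxOn (f := fun U => ∑ a, ∑ b, Nn L U a b) hne
    (Continuous.continuousOn (continuous_finsetSum _ fun a _ => continuous_finsetSum _ fun b _ => cN a b))
  have C0 : 0 ≤ ∑ a, ∑ b, Nn L U0 a b := sum_nonneg fun a _ => sum_nonneg fun b _ => N0 _ a b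
  refine ⟨c T0, (∑ a, ∑ b, Nn L U0 a b) / c T0 + 1, c0 T0, ?_, fun U hU => ⟨?_, fun T h1 h2 =>
    (hT0 T (mem_univ _)).trans (hcc T h1 h2 U hU)⟩⟩
  · have := div_nonneg C0 (c0 T0).le
    linarith
  · have : ∑ a, ∑ b, Nn L U a b ≤ ∑ a, ∑ b, Nn L U0 a b := hm hU
    rw [mul_add, mul_div_cancel₀ _ (c0 T0).ne']
    linarith [c0 T0]

lemma unif (L : Fin m → Mat d) (R ε : ℝ) (hε : 0 < ε) : ∃ δ, 0 < δ ∧ ∀ A H Y : Mat d,
    (∀ i j, ‖A i j‖ ≤ R) → (∀ i j, ‖H i j‖ ≤ R) → (∀ i j, ‖Y i j‖ ≤ δ) →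
      (A * Lind H L Y).trace.re ≤ ε := by
  set B : ℝ → Set (Mat d) := fun R => Set.pi Set.univ fun _ => Set.pi Set.univ fun _ =>
    Metric.closedBall (0 : ℂ) R with hB
  have cB : ∀ R, IsCompact (B R) := fun R => isCompact_univ_pi fun _ : Fin d =>
    isCompact_univ_pi fun _ : Fin d => isCompact_closedBall (0 : ℂ) R
  have mB : ∀ R (A : Mat d), (∀ i j, ‖A i j‖ ≤ R) → A ∈ B R := fun R A h i _ j _ => by simpa using h i j
  have cf : Continuous fun p : Mat d × Mat d × Mat d => (p.1 * Lind p.2.1 L p.2.2).trace.re := by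
    simp only [Lind, Dis]
    fun_prop
  obtain ⟨C, hC⟩ := (((cB R).prod ((cB R).prod (cB 1))).image cf).bddAbove
  have C1 : 0 < |C| + 1 := by positivity
  refine ⟨ε / (|C| + 1), by positivity, fun A H Y h1 h2 h3 => ?_⟩
  set δ := ε / (|C| + 1) with hδ
  have δ0 : 0 < δ := by positivity
  have e : Y = (δ : ℂ) • ((δ⁻¹ : ℝ) : ℂ) • Y := by
    rw [smul_smul, ← ofReal_mul, mul_inv_cancel₀ δ0.ne', ofReal_one, one_smul]
  have lin : ∀ (z : ℂ) (Z : Mat d), Lind H L (z • Z) = z • Lind H L Z := fun z Z => by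
    simp only [Lind, Dis, Matrix.mul_smul, Matrix.smul_mul, smul_add, smul_sub, smul_sum,
      smul_comm z]
  have := hC ⟨(A, H, ((δ⁻¹ : ℝ) : ℂ) • Y), ⟨mB _ _ h1, mB _ _ h2, mB _ _ fun i j => by
    show ‖(((δ⁻¹ : ℝ) : ℂ) • Y) i j‖ ≤ 1
    rw [Matrix.smul_apply, smul_eq_mul, norm_mul, norm_real, Real.norm_of_nonneg (inv_pos.2 δ0).le]
    exact (inv_mul_le_iff₀ δ0).2 (by simpa using h3 i j)⟩, rfl⟩
  rw [e, lin, Matrix.mul_smul, trace_smul, smul_eq_mul, re_ofReal_mul]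
  calc _ ≤ δ * (|C| + 1) := mul_le_mul_of_nonneg_left (by linarith [le_abs_self C]) δ0.le
    _ = ε := div_mul_cancel₀ _ C1.ne'

end Pool.Agent.H14.Lind
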