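import Mathlib

set_option autoImplicit false

namespace Pool.Agent.H14.Menger

open Filter Topology Set Cardinal

/-- the bounding number: least size of a family of increasing enumerations that is unbounded
for eventual domination -/
noncomputable def bb : Cardinal.{0} :=
  sInf {κ | ∃ B : Set (ℕ → ℕ), (∀ x ∈ B, StrictMono x) ∧
    (¬ ∃ c : ℕ → ℕ, StrictMono c ∧ ∀ x ∈ B, ∀ᶠ n in atTop, x n ≤ c n) ∧ #B = κ}

def Phi (y : ℕ → ℕ) (n : ℕ) : ℕ := ∑ i ∈ Finset.range (n + 1), y i + n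

lemma Phi_mono (y : ℕ → ℕ) : StrictMono (Phi y) := strictMono_nat_of_lt_succ fun n => by
  unfold Phi
  rw [Finset.sum_range_succ _ (n + 1)]
  omega

lemma le_Phi (y : ℕ → ℕ) (n : ℕ) : y n ≤ Phi y n := by
  unfold Phi
  rw [Finset.sum_range_succ]
  omega

lemma Phi_cont : Continuous Phi := continuous_pi fun _ =>
  (continuous_finsetSum _ fun i _ => continuous_apply i).add continuous_const

lemma sum_dom {u v : ℕ → ℕ} (h1 : ∀ᶠ k in atTop, u k ≤ v k) (h2 : ∃ᶠ k in atTop, u k < v k)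
    (C : ℕ) : ∀ᶠ k in atTop, C + ∑ i ∈ Finset.range k, u i ≤ ∑ i ∈ Finset.range k, v i := by
  obtain ⟨N, hN⟩ := eventually_atTop.1 h1
  have key : ∀ C : ℕ, ∃ M, N ≤ M ∧ ∀ k, M ≤ k → C + ∑ i ∈ Finset.range k, u i ≤
      ∑ i ∈ Finset.range k, v i + ∑ i ∈ Finset.range N, u i := by
    have step : ∀ C M, N ≤ M → C + ∑ i ∈ Finset.range M, u i ≤
        ∑ i ∈ Finset.range M, v i + ∑ i ∈ Finset.range N, u i → ∀ k, M ≤ k →
        C + ∑ i ∈ Finset.range k, u i ≤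
          ∑ i ∈ Finset.range k, v i + ∑ i ∈ Finset.range N, u i := by
      intro C M hM h k hk
      induction k, hk using Nat.le_induction with
      | base => exact h
      | succ k hk ih =>
        have := hN k (hM.trans hk)
        rw [Finset.sum_range_succ, Finset.sum_range_succ]
        omega
    intro C
    induction C with
    | zero => exact ⟨N, le_rfl, step 0 N le_rfl (by omega)⟩
    | succ C ih =>
      obtain ⟨M, hM, h⟩ := ih
      obtain ⟨k, hk, h3⟩ := frequently_atTop.1 h2 M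
      refine ⟨k + 1, by omega, step _ _ (by omega) ?_⟩
      have := h k hk
      rw [Finset.sum_range_succ, Finset.sum_range_succ]
      omega
  obtain ⟨M, -, h⟩ := key (C + ∑ i ∈ Finset.range N, u i)
  exact eventually_atTop.2 ⟨M, fun k hk => by have := h k hk; omega⟩

lemma Phi_dom {u v : ℕ → ℕ} (h1 : ∀ᶠ k in atTop, u k ≤ v k) (h2 : ∃ᶠ k in atTop, u k < v k) :
    ∀ᶠ k in atTop, Phi u k ≤ Phi v k := by
  filter_upwards [(tendsto_add_atTop_nat 1).eventually (sum_dom h1 h2 0)] with k hk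
  unfold Phi
  omega

lemma bdd {A : Set (ℕ → ℕ)} (hA : A.Countable) :
    ∃ c : ℕ → ℕ, StrictMono c ∧ ∀ f ∈ A, ∀ᶠ n in atTop, f n ≤ c n := by
  obtain ⟨g, hg⟩ := countable_iff_exists_subset_range.1 hA
  refine ⟨Phi fun k => (Finset.range (k + 1)).sup fun i => g i k, Phi_mono _, fun f hf => ?_⟩
  obtain ⟨i, rfl⟩ := hg hf
  filter_upwards [eventually_ge_atTop i] with k hk
  exact (Finset.le_sup (f := fun i => g i k) (Finset.mem_range.2 (by omega))).trans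
    (le_Phi (fun k => (Finset.range (k + 1)).sup fun i => g i k) k)

def md (t : Σ N : ℕ, Fin N → ℕ) (x : ℕ → ℕ) (k : ℕ) : ℕ := if h : k < t.1 then t.2 ⟨k, h⟩ else x k

lemma md_eq (t : Σ N : ℕ, Fin N → ℕ) (x : ℕ → ℕ) : md t x =ᶠ[atTop] x := by
  filter_upwards [eventually_ge_atTop t.1] with k hk
  exact dif_neg (not_lt.2 hk)

lemma md_cont (t : Σ N : ℕ, Fin N → ℕ) : Continuous (md t) := continuous_pi fun k => by
  unfold md
  split_ifs
  · exact continuous_const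
  · exact continuous_apply k

lemma exists_md {x y : ℕ → ℕ} (h : y =ᶠ[atTop] x) : ∃ t, md t x = y := by
  obtain ⟨N, hN⟩ := eventually_atTop.1 h
  refine ⟨⟨N, fun i => y i⟩, funext fun k => ?_⟩
  unfold md
  split_ifs with hk
  · rfl
  · exact (hN k (not_lt.1 hk)).symm

lemma E_count (x : ℕ → ℕ) : {y : ℕ → ℕ | y =ᶠ[atTop] x}.Countable :=
  (countable_range fun t => md t x).mono fun _ hy => exists_md hy

lemma E_dense (x : ℕ → ℕ) : Dense {y : ℕ → ℕ | y =ᶠ[atTop] x} := fun w =>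
  mem_closure_of_tendsto (b := atTop) (f := fun N => md ⟨N, fun i => w i⟩ x)
    (tendsto_pi_nhds.2 fun k => tendsto_const_nhds.congr' (by
      filter_upwards [eventually_gt_atTop k] with N hN
      simp [md, hN])) (Eventually.of_forall fun _ => md_eq _ _)

lemma key {ι : Type} [Countable ι] (g : ℕ → ℕ → ℕ) (O : ι → Set (ℕ → ℕ)) (hO : ∀ i, IsOpen (O i))
    (H : ∀ j y, (y =ᶠ[atTop] fun k => (Finset.range (j + 1)).sup fun i => g i k) → ∀ i, y ∈ O i)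
    (b : ℕ → ℕ) : ∃ x : ℕ → ℕ, (∀ i, ∀ᶠ k in atTop, g i k ≤ x k) ∧ (∃ᶠ k in atTop, b k < x k) ∧
      ∀ y, y =ᶠ[atTop] x → ∀ i, y ∈ O i := by
  let X : (ℕ → ℕ) → ℕ → ℕ := fun w k =>
    ((Finset.range (∑ i ∈ Finset.range k, w i + 1)).sup fun i => g i k) + w k * (b k + 1)
  have hX : Continuous X := continuous_pi fun k =>
    (continuous_of_discreteTopology (f := fun a : ℕ × ℕ =>
      ((Finset.range (a.1 + 1)).sup fun i => g i k) + a.2 * (b k + 1))).comp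
      ((continuous_finsetSum (Finset.range k) fun i _ =>
        continuous_apply (A := fun _ : ℕ => ℕ) i).prodMk (continuous_apply k))
  have h1 : Dense (⋂ q : (Σ N : ℕ, Fin N → ℕ) × ι, (fun w => md q.1 (X w)) ⁻¹' O q.2) := by
    refine dense_iInter_of_isOpen (fun q => (hO _).preimage ((md_cont _).comp hX)) fun q => ?_
    refine (E_dense 0).mono fun w hw => ?_
    obtain ⟨N, hN⟩ := eventually_atTop.1 hw
    refine H (∑ i ∈ Finset.range N, w i) _ ((md_eq _ _).trans ?_) _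
    filter_upwards [eventually_ge_atTop N] with k hk
    have : ∑ i ∈ Finset.range k, w i = ∑ i ∈ Finset.range N, w i :=
      (Finset.sum_subset (Finset.range_mono hk) fun i _ hi => hN i (by simpa using hi)).symm
    simp [X, this, hN k hk]
  have h2 : ∀ n : ℕ, IsOpen {w : ℕ → ℕ | ∃ k, n ≤ k ∧ 0 < w k} := fun n => by
    rw [Set.ofPred_exists]
    exact isOpen_iUnion fun k => (isOpen_discrete {a : ℕ | n ≤ k ∧ 0 < a}).preimage
      (continuous_apply (A := fun _ : ℕ => ℕ) k)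
  have h3 : Dense (⋂ n : ℕ, {w : ℕ → ℕ | ∃ k, n ≤ k ∧ 0 < w k}) :=
    (E_dense 1).mono fun w hw => mem_iInter.2 fun n => by
      obtain ⟨k, h4, h5⟩ := ((eventually_ge_atTop n).and hw).exists
      exact ⟨k, h4, by simp [h5]⟩
  obtain ⟨w, h4, h5⟩ := (Dense.inter_of_Gδ (IsGδ.iInter_of_isOpen fun q =>
    (hO _).preimage ((md_cont _).comp hX)) (IsGδ.iInter_of_isOpen h2) h1 h3).nonempty
  have h6 : ∃ᶠ k in atTop, 0 < w k := frequently_atTop.2 fun n => mem_iInter.1 h5 n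
  refine ⟨X w, fun i => ?_, h6.mono fun k hk => ?_, fun y hy i => ?_⟩
  · filter_upwards [sum_dom (u := fun _ => 0) (Eventually.of_forall fun _ => zero_le) h6 i]
      with k hk
    refine (Finset.le_sup (f := fun i => g i k) (Finset.mem_range.2 ?_)).trans (Nat.le_add_right _ _)
    omega
  · refine lt_of_lt_of_le ?_ (Nat.le_add_left _ _)
    nlinarith
  · obtain ⟨t, rfl⟩ := exists_md hy
    exact mem_iInter.1 h4 (t, i)

lemma rec_ex {J α : Type} [LinearOrder J] [WellFoundedLT J] [Nonempty α]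
    (P : ∀ j : J, (Iio j → α) → α → Prop)
    (step : ∀ j (f : J → α), (∀ i, i < j → P i (fun k => f k) (f i)) → ∃ a, P j (fun k => f k) a) :
    ∃ f : J → α, ∀ j, P j (fun k => f k) (f j) := by
  let F : ∀ j : J, (∀ i, i < j → α) → α := fun j h => Classical.epsilon (P j fun k => h k.1 k.2)
  refine ⟨wellFounded_lt.fix F, fun j => ?_⟩
  induction j using WellFoundedLT.induction with
  | ind j ih =>
    rw [wellFounded_lt.fix_eq]
    exact Classical.epsilon_spec (step j _ ih)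

lemma chain_sup (g : ℕ → ℕ → ℕ) (h : ∀ i j, g i ≤ᶠ[atTop] g j ∨ g j ≤ᶠ[atTop] g i) (j : ℕ) :
    ∃ l, (fun k => (Finset.range (j + 1)).sup fun i => g i k) =ᶠ[atTop] g l := by
  induction j with
  | zero => exact ⟨0, by simp⟩
  | succ j ih =>
    obtain ⟨l, hl⟩ := ih
    rcases h l (j + 1) with h1 | h1
    · refine ⟨j + 1, ?_⟩
      filter_upwards [hl, h1] with k h2 h3
      rw [Finset.range_add_one, Finset.sup_insert, h2, sup_eq_left.2 h3]
    · refine ⟨l, ?_⟩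
      filter_upwards [hl, h1] with k h2 h3
      rw [Finset.range_add_one, Finset.sup_insert, h2, sup_eq_right.2 h3]

lemma build {J : Type} [LinearOrder J] [WellFoundedLT J] (hJ : ∀ j : J, (Iio j).Countable)
    (V : ℕ → Set (ℕ → ℕ)) (hV : ∀ i, IsOpen (V i)) (S : J → ℕ → Set ℕ) (b : J → ℕ → ℕ) :
    ∃ x : J → ℕ → ℕ, (∀ i j, i < j → x i ≤ᶠ[atTop] x j ∧ ∃ᶠ k in atTop, x i k < x j k) ∧
      (∀ j, ∃ᶠ k in atTop, b j k < x j k) ∧
      ∀ j, (∀ y, (y =ᶠ[atTop] 0 ∨ ∃ i, y =ᶠ[atTop] x i) → ∀ n, ∃ l ∈ S j n, y ∈ V l) →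
        ∃ c : ℕ → ℕ, ∀ y, (y =ᶠ[atTop] 0 ∨ ∃ i, y =ᶠ[atTop] x i) →
          ∀ n, ∃ m, n ≤ m ∧ ∃ l, l ≤ c m ∧ l ∈ S j m ∧ y ∈ V l := by
  let Ob : J → (ℕ → ℕ) × Prop → ℕ → Set (ℕ → ℕ) := fun j c n =>
    {y | c.2 → ∃ m, n ≤ m ∧ ∃ l, l ≤ c.1 m ∧ l ∈ S j m ∧ y ∈ V l}
  have hOb : ∀ j c n, IsOpen (Ob j c n) := by
    intro j c n
    by_cases h : c.2
    · simp only [Ob, h, true_imp_iff, Set.ofPred_exists]
      refine isOpen_iUnion fun m => ?_
      simp only [← exists_and_left, Set.ofPred_exists]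
      refine isOpen_iUnion fun l => ?_
      simp only [← and_assoc]
      exact isOpen_const.inter (hV l)
    · simp [Ob, h]
  obtain ⟨f, hf⟩ := rec_ex (J := J) (α := (ℕ → ℕ) × (ℕ → ℕ) × Prop) (fun j p a =>
    ((∀ y, (y =ᶠ[atTop] 0 ∨ ∃ i, y =ᶠ[atTop] (p i).1) → ∀ n, ∃ l ∈ S j n, y ∈ V l) → a.2.2) ∧
    (∀ y, (y =ᶠ[atTop] 0 ∨ ∃ i, y =ᶠ[atTop] (p i).1) → ∀ n, y ∈ Ob j a.2 n) ∧
    (∀ i, (p i).1 ≤ᶠ[atTop] a.1 ∧ ∃ᶠ k in atTop, (p i).1 k < a.1 k) ∧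
    (∃ᶠ k in atTop, b j k < a.1 k) ∧
    ∀ y, y =ᶠ[atTop] a.1 → ∀ n, y ∈ Ob j a.2 n ∧ ∀ i : Iio j, y ∈ Ob i (p i).2 n) (by
      intro j f ih
      have := (hJ j).to_subtype
      have hG : (insert 0 (range fun i : Iio j => (f i).1)).Countable :=
        (countable_range _).insert _
      obtain ⟨c, hc⟩ : ∃ c : (ℕ → ℕ) × Prop, ((∀ y, (y =ᶠ[atTop] 0 ∨
          ∃ i : Iio j, y =ᶠ[atTop] (f i).1) → ∀ n, ∃ l ∈ S j n, y ∈ V l) → c.2) ∧
          ∀ y, (y =ᶠ[atTop] 0 ∨ ∃ i : Iio j, y =ᶠ[atTop] (f i).1) → ∀ n, y ∈ Ob j c n := by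
        by_cases h : ∀ y, (y =ᶠ[atTop] 0 ∨ ∃ i : Iio j, y =ᶠ[atTop] (f i).1) →
            ∀ n, ∃ l ∈ S j n, y ∈ V l
        · choose! l h1 h2 using h
          obtain ⟨c, -, hc⟩ := bdd (((E_count 0).union
            (countable_iUnion fun i : Iio j => E_count (f i).1)).image l)
          refine ⟨(c, True), fun _ => trivial, fun y hy n _ => ?_⟩
          obtain ⟨m, h3, h4⟩ := ((eventually_ge_atTop n).and
            (hc _ ⟨y, hy.imp id mem_iUnion.2, rfl⟩)).exists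
          exact ⟨m, h3, l y m, h4, h1 y hy m, h2 y hy m⟩
        · exact ⟨(0, False), h, fun _ _ _ => False.elim⟩
      obtain ⟨g, hg⟩ := hG.exists_eq_range (insert_nonempty _ _)
      have hg' : ∀ l, g l = 0 ∨ ∃ i : Iio j, (f i).1 = g l := fun l =>
        (hg.symm.subset (mem_range_self l) :)
      obtain ⟨b', -, hb'⟩ := bdd (hG.insert (b j))
      obtain ⟨x, h1, h2, h3⟩ := key g (fun q : Option (Iio j) × ℕ =>
        q.1.elim (Ob j c q.2) fun i => Ob i (f i).2 q.2)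
        (by rintro ⟨_ | i, n⟩ <;> exact hOb _ _ _) (by
          intro m y hy
          obtain ⟨l, hl⟩ := chain_sup g (fun l l' => by
            rcases hg' l with h | ⟨i, h⟩
            · exact Or.inl (Eventually.of_forall fun k => by simp [h])
            rcases hg' l' with h' | ⟨i', h'⟩
            · exact Or.inr (Eventually.of_forall fun k => by simp [h'])
            rw [← h, ← h']
            rcases lt_trichotomy i.1 i'.1 with h4 | h4 | h4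
            · exact Or.inl ((ih i' i'.2).2.2.1 ⟨i, h4⟩).1
            · rw [h4]
              exact Or.inl EventuallyLE.rfl
            · exact Or.inr ((ih i i.2).2.2.1 ⟨i', h4⟩).1) m
          have h4 := hy.trans hl
          rintro ⟨_ | i, n⟩
          · exact hc.2 y ((hg' l).imp (fun h : g l = 0 => h ▸ h4) fun ⟨i, h⟩ => ⟨i, h ▸ h4⟩) n
          · rcases hg' l with h | ⟨i', h⟩
            · exact (ih i i.2).2.1 y (Or.inl (h ▸ h4)) n
            · rw [← h] at h4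
              rcases lt_trichotomy i.1 i'.1 with h5 | h5 | h5
              · exact ((ih i' i'.2).2.2.2.2 y h4 n).2 ⟨i, h5⟩
              · exact ((ih i i.2).2.2.2.2 y (h5 ▸ h4) n).1
              · exact (ih i i.2).2.1 y (Or.inr ⟨⟨i', h5⟩, h4⟩) n) b'
      refine ⟨(x, c), hc.1, hc.2, fun i => ⟨?_, ?_⟩, ?_,
        fun y hy n => ⟨h3 y hy (none, n), fun i => h3 y hy (some i, n)⟩⟩
      · obtain ⟨l, hl⟩ := hg.subset (Or.inr ⟨i, rfl⟩)
        have := h1 l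
        rw [hl] at this
        exact this
      · exact (h2.and_eventually (hb' _ (Or.inr (Or.inr ⟨i, rfl⟩)))).mono
          fun k hk => hk.2.trans_lt hk.1
      · exact (h2.and_eventually (hb' _ (Or.inl rfl))).mono fun k hk => hk.2.trans_lt hk.1)
  refine ⟨fun j => (f j).1, fun i j h => (hf j).2.2.1 ⟨i, h⟩, fun j => (hf j).2.2.2.1,
    fun j h => ⟨(f j).2.1, fun y hy n => ?_⟩⟩
  have h1 := (hf j).1 fun y hy => h y (hy.imp id fun ⟨i, hi⟩ => ⟨i, hi⟩)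
  rcases hy with hy | ⟨i, hy⟩
  · exact (hf j).2.1 y (Or.inl hy) n h1
  · rcases lt_trichotomy i j with h5 | h5 | h5
    · exact (hf j).2.1 y (Or.inr ⟨⟨i, h5⟩, hy⟩) n h1
    · exact ((hf j).2.2.2.2 y (h5 ▸ hy) n).1 h1
    · exact ((hf i).2.2.2.2 y hy n).2 ⟨j, h5⟩ h1

lemma aleph0_lt_bb (h : ∃ B : Set (ℕ → ℕ), (∀ x ∈ B, StrictMono x) ∧
    ¬ ∃ c : ℕ → ℕ, StrictMono c ∧ ∀ x ∈ B, ∀ᶠ n in atTop, x n ≤ c n) : ℵ₀ < bb := by
  obtain ⟨B, h1, h2⟩ := h
  obtain ⟨C, -, h3, h4⟩ : ∃ B : Set (ℕ → ℕ), (∀ x ∈ B, StrictMono x) ∧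
      (¬ ∃ c : ℕ → ℕ, StrictMono c ∧ ∀ x ∈ B, ∀ᶠ n in atTop, x n ≤ c n) ∧ #B = bb :=
    csInf_mem (s := {κ | ∃ B : Set (ℕ → ℕ), (∀ x ∈ B, StrictMono x) ∧
      (¬ ∃ c : ℕ → ℕ, StrictMono c ∧ ∀ x ∈ B, ∀ᶠ n in atTop, x n ≤ c n) ∧ #B = κ})
      ⟨_, B, h1, h2, rfl⟩
  rw [← h4]
  exact not_le.1 fun h => h3 (bdd (le_aleph0_iff_set_countable.1 h))

theorem main (hCH : continuum.{0} = aleph 1) : ∃ X : Set (ℕ → ℕ), (∀ x ∈ X, StrictMono x) ∧
    bb ≤ #X ∧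
    (∀ b : ℕ → ℕ, StrictMono b → ∃ c : ℕ → ℕ, StrictMono c ∧ (∃ᶠ n in atTop, b n ≤ c n) ∧
      #{x : ℕ → ℕ | x ∈ X ∧ ¬ ∀ᶠ n in atTop, c n ≤ x n} < bb) ∧
    ∀ U : ℕ → Set (Set X), (∀ n, ∀ u ∈ U n, IsOpen u) → (∀ n, ⋃₀ U n = Set.univ) →
      ∃ F : ℕ → Set (Set X), (∀ n, (F n).Finite ∧ F n ⊆ U n) ∧
        ∀ y : X, ∃ᶠ n in atTop, y ∈ ⋃₀ F n := by
  obtain ⟨e⟩ : Nonempty ((aleph 1).ord.ToType ≃ (ℕ → Set ℕ) × (ℕ → ℕ)) := by
    rw [← Cardinal.eq]
    simp [← hCH]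
  obtain ⟨W, hW⟩ := (TopologicalSpace.countable_countableBasis (ℕ → ℕ)).exists_eq_range
    (((TopologicalSpace.isBasis_countableBasis _).exists_nonempty_subset univ_nonempty
      isOpen_univ).imp fun _ h => h.1)
  have hB := TopologicalSpace.isBasis_countableBasis (ℕ → ℕ)
  rw [hW] at hB
  have hJ : ∀ j : (aleph 1).ord.ToType, (Iio j).Countable := fun j =>
    le_aleph0_iff_set_countable.1 (lt_aleph_one_iff.1 (by simpa using mk_Iio_lt j))
  obtain ⟨x, h1, h2, h3⟩ := build hJ (fun i => Phi ⁻¹' W i)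
    (fun i => (hB.isOpen (mem_range_self i)).preimage Phi_cont) (fun j => (e j).1) fun j => (e j).2
  have h4 : ∀ b : ℕ → ℕ, ∃ j, ∃ᶠ k in atTop, b k < Phi (x j) k := fun b =>
    ⟨e.symm (fun _ => ∅, b), (h2 (e.symm (fun _ => ∅, b))).mono fun k hk => by
      simpa using hk.trans_le (le_Phi _ k)⟩
  set X := Phi '' {y | y =ᶠ[atTop] 0 ∨ ∃ i, y =ᶠ[atTop] x i} with hX
  have h5 : ∀ z ∈ X, StrictMono z := by
    rintro _ ⟨y, -, rfl⟩
    exact Phi_mono y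
  have h6 : ¬ ∃ c : ℕ → ℕ, StrictMono c ∧ ∀ z ∈ X, ∀ᶠ n in atTop, z n ≤ c n := by
    rintro ⟨c, -, hc⟩
    obtain ⟨j, hj⟩ := h4 c
    obtain ⟨k, h7, h8⟩ := (hj.and_eventually (hc _ ⟨_, Or.inr ⟨j, EventuallyEq.rfl⟩, rfl⟩)).exists
    omega
  refine ⟨X, h5, csInf_le' ⟨X, h5, h6, rfl⟩, fun b _ => ?_, fun U hU hU' => ?_⟩
  · obtain ⟨j, hj⟩ := h4 b
    refine ⟨_, Phi_mono _, hj.mono fun k => le_of_lt, lt_of_le_of_lt
      (le_aleph0_iff_set_countable.2 ((((E_count 0).union (((hJ j).insert j).biUnion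
        fun i _ => E_count (x i))).image Phi).mono ?_)) (aleph0_lt_bb ⟨X, h5, h6⟩)⟩
    rintro _ ⟨⟨y, hy | ⟨i, hy⟩, rfl⟩, h7⟩
    · exact ⟨y, Or.inl hy, rfl⟩
    · refine ⟨y, Or.inr (mem_biUnion ?_ hy), rfl⟩
      by_contra h8
      have h9 := h1 j i (not_le.1 fun h => h8 h.eq_or_lt)
      exact h7 (Phi_dom (h9.1.trans hy.symm.le)
        ((h9.2.and_eventually hy).mono fun k hk => hk.2 ▸ hk.1))
  · obtain ⟨c, hc⟩ := h3 (e.symm (fun n => {l | ∃ u ∈ U n, Subtype.val ⁻¹' W l ⊆ u}, 0)) (by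
      intro y hy n
      obtain ⟨u, h7, h8⟩ := (hU' n).symm.subset (mem_univ (⟨Phi y, y, hy, rfl⟩ : X))
      obtain ⟨v, h9, rfl⟩ := isOpen_induced_iff.1 (hU n u h7)
      obtain ⟨_, ⟨l, rfl⟩, h10, h11⟩ := hB.exists_subset_of_mem_open h8 h9
      exact ⟨l, by simpa using ⟨_, h7, preimage_mono h11⟩, h10⟩)
    simp only [Equiv.apply_symm_apply, mem_ofPred_eq] at hc
    have h7 : ∀ n l, ∃ u : Set X, (∃ u ∈ U n, Subtype.val ⁻¹' W l ⊆ u) →
        u ∈ U n ∧ Subtype.val ⁻¹' W l ⊆ u := fun n l => by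
      by_cases h : ∃ u ∈ U n, Subtype.val ⁻¹' W l ⊆ u
      · exact h.imp fun u hu _ => hu
      · exact ⟨∅, fun h' => absurd h' h⟩
    choose u hu using h7
    refine ⟨fun n => u n '' {l | l ≤ c n ∧ ∃ u ∈ U n, Subtype.val ⁻¹' W l ⊆ u}, fun n =>
      ⟨((finite_Iic (c n)).subset fun l hl => hl.1).image _, ?_⟩, ?_⟩
    · rintro _ ⟨l, hl, rfl⟩
      exact (hu n l hl.2).1
    · rintro ⟨_, y, hy, rfl⟩
      refine frequently_atTop.2 fun n => ?_
      obtain ⟨m, h8, l, h9, h10, h11⟩ := hc y hy n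
      exact ⟨m, h8, _, ⟨l, ⟨h9, h10⟩, rfl⟩, (hu m l h10).2 h11⟩

end Pool.Agent.H14.Menger
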