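import Mathlib

set_option autoImplicit false

namespace Pool.Agent.H14.MidGap

open Finset Equiv

/-- A strong up-set: closed under exchanging the entries `i < j` whenever `{i, j}` is an inversion,
that is, `i` stands at a later position than `j`. The entry at position `k` is `a k`. -/
def StrongUp {n : ℕ} (A : Finset (Perm (Fin n))) : Prop :=
  ∀ a ∈ A, ∀ i j : Fin n, i < j → a.symm j < a.symm i → swap i j * a ∈ A

/-- The number of entries carried across the middle gap (positions and values are shifted by one,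
so `k.val + 1` is the position and `(a k).val + 1` the entry). -/
def mid {n : ℕ} (a : Perm (Fin n)) : ℕ :=
  #{k : Fin n | 2 * (k.val + 1) ≤ n ∧ n < 2 * ((a k).val + 1)}

/-- The middle-gap measure of a family of permutations. -/
noncomputable def mu {n : ℕ} (q : ℝ) (A : Finset (Perm (Fin n))) : ℝ :=
  (∑ a ∈ A, q ^ mid a) / ∑ b : Perm (Fin n), q ^ mid b

def Mono {n : ℕ} (f : Perm (Fin n) → ℝ) : Prop :=
  ∀ (a : Perm (Fin n)) (k l : Fin n), k < l → a l < a k → f a ≤ f (a * swap k l)

def PA {n : ℕ} (w : Perm (Fin n) → ℝ) : Prop :=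
  ∀ f g : Perm (Fin n) → ℝ, (∀ a, 0 ≤ f a) → (∀ a, 0 ≤ g a) → Mono f → Mono g →
    (∑ a, w a * f a) * ∑ a, w a * g a ≤ (∑ a, w a * (f a * g a)) * ∑ a, w a

variable {h r : ℕ}

abbrev L (h r : ℕ) : Type := {e : Fin h → Fin (h + r) // StrictMono e}

noncomputable instance : DistribLattice (L h r) :=
  Subtype.distribLattice (fun _ _ hs ht _ _ hij => max_lt_max (hs hij) (ht hij))
    (fun _ _ hs ht _ _ hij => min_lt_min (hs hij) (ht hij))

noncomputable instance : Fintype (L h r) := Fintype.ofFinite _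

lemma card_c (e : L h r) : #((univ.image e.1)ᶜ) = r := by
  rw [card_compl, card_image_of_injective _ e.2.injective]
  simp

noncomputable def cmp (e : L h r) : Fin r → Fin (h + r) :=
  ((univ.image e.1)ᶜ).orderEmbOfFin (card_c e)

lemma cmp_mono (e : L h r) : StrictMono (cmp e) := (orderEmbOfFin _ _).strictMono

lemma cmp_ne (e : L h r) (i : Fin h) (j : Fin r) : e.1 i ≠ cmp e j := by
  intro he
  have := orderEmbOfFin_mem _ (card_c e) j
  rw [mem_compl] at this
  exact this (mem_image.2 ⟨i, mem_univ _, he⟩)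

lemma cmp_unique (e : L h r) {c : Fin r → Fin (h + r)} (hc : StrictMono c)
    (hne : ∀ i j, e.1 i ≠ c j) : c = cmp e := by
  refine orderEmbOfFin_unique (card_c e) (fun j => ?_) hc
  rw [mem_compl, mem_image]
  rintro ⟨i, -, hi⟩
  exact hne i j hi

lemma app_inj (e : L h r) (σ : Perm (Fin h)) (τ : Perm (Fin r)) :
    Function.Injective (Fin.append (e.1 ∘ σ) (cmp e ∘ τ)) := by
  intro x y
  refine Fin.addCases (fun i => ?_) (fun i => ?_) x <;>
    refine Fin.addCases (fun j => ?_) (fun j => ?_) y <;>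
    simp only [Fin.append_left, Fin.append_right, Function.comp] <;> intro he
  · rw [σ.injective (e.2.injective he)]
  · exact absurd he (cmp_ne e _ _)
  · exact absurd he.symm (cmp_ne e _ _)
  · rw [τ.injective ((cmp_mono e).injective he)]

noncomputable def Phi (e : L h r) (σ : Perm (Fin h)) (τ : Perm (Fin r)) : Perm (Fin (h + r)) :=
  Equiv.ofBijective _ (Finite.injective_iff_bijective.1 (app_inj e σ τ))

@[simp] lemma Phi_left (e : L h r) (σ : Perm (Fin h)) (τ : Perm (Fin r)) (i : Fin h) :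
    Phi e σ τ (Fin.castAdd r i) = e.1 (σ i) := by
  simp [Phi]

@[simp] lemma Phi_right (e : L h r) (σ : Perm (Fin h)) (τ : Perm (Fin r)) (j : Fin r) :
    Phi e σ τ (Fin.natAdd h j) = cmp e (τ j) := by
  simp [Phi]

lemma cast_ne (i : Fin h) (j : Fin r) : Fin.castAdd r i ≠ Fin.natAdd h j := by
  intro he
  have := congrArg Fin.val he
  simp only [Fin.val_castAdd, Fin.val_natAdd] at this
  omega

lemma Phi_bij : Function.Bijective
    (fun x : L h r × Perm (Fin h) × Perm (Fin r) => Phi x.1 x.2.1 x.2.2) := by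
  constructor
  · rintro ⟨e, σ, τ⟩ ⟨e', σ', τ'⟩ he
    simp only at he
    have h1 : ∀ i, e.1 (σ i) = e'.1 (σ' i) := fun i => by
      rw [← Phi_left e σ τ, he, Phi_left]
    have h2 : e = e' := by
      apply Subtype.ext
      rw [← e.2.range_inj e'.2, ← σ.surjective.range_comp e.1, ← σ'.surjective.range_comp e'.1]
      congr 1
      exact funext h1
    subst h2
    have h3 : σ = σ' := Equiv.ext fun i => e.2.injective (h1 i)
    have h4 : τ = τ' := Equiv.ext fun j => (cmp_mono e).injective (by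
      rw [← Phi_right e σ τ, he, Phi_right])
    rw [h3, h4]
  · intro a
    let f : Fin h → Fin (h + r) := fun i => a (Fin.castAdd r i)
    let g : Fin r → Fin (h + r) := fun j => a (Fin.natAdd h j)
    have hf : StrictMono (f ∘ Tuple.sort f) :=
      (Tuple.monotone_sort f).strictMono_of_injective
        ((a.injective.comp (Fin.castAdd_injective h r)).comp (Tuple.sort f).injective)
    have hg : StrictMono (g ∘ Tuple.sort g) :=
      (Tuple.monotone_sort g).strictMono_of_injective
        ((a.injective.comp (Fin.natAdd_injective r h)).comp (Tuple.sort g).injective)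
    have hc : g ∘ Tuple.sort g = cmp ⟨_, hf⟩ :=
      cmp_unique ⟨_, hf⟩ hg fun i j he => cast_ne _ _ (a.injective he)
    refine ⟨(⟨_, hf⟩, (Tuple.sort f)⁻¹, (Tuple.sort g)⁻¹), ?_⟩
    ext1 x
    refine Fin.addCases (fun i => ?_) (fun j => ?_) x
    · simp [f]
    · simp only [Phi_right, ← hc]
      simp [g]

lemma sum_Phi (F : Perm (Fin (h + r)) → ℝ) :
    ∑ a, F a = ∑ e : L h r, ∑ σ : Perm (Fin h), ∑ τ : Perm (Fin r), F (Phi e σ τ) := by
  rw [← Phi_bij.sum_comp F, Fintype.sum_prod_type]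
  simp_rw [Fintype.sum_prod_type]

lemma mono_left {f : Perm (Fin (h + r)) → ℝ} (hf : Mono f) (e : L h r) (τ : Perm (Fin r)) :
    Mono fun σ => f (Phi e σ τ) := by
  intro σ k l hkl hlt
  have : Phi e (σ * swap k l) τ = Phi e σ τ * swap (Fin.castAdd r k) (Fin.castAdd r l) := by
    ext1 x
    refine Fin.addCases (fun i => ?_) (fun j => ?_) x
    · rw [Perm.mul_apply, ← (Fin.castAdd_injective h r).map_swap]
      simp
    · rw [Perm.mul_apply, swap_apply_of_ne_of_ne (cast_ne _ _).symm (cast_ne _ _).symm]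
      simp
  simp only [this]
  exact hf _ _ _ hkl (by simpa using e.2 hlt)

lemma mono_right {f : Perm (Fin (h + r)) → ℝ} (hf : Mono f) (e : L h r) (σ : Perm (Fin h)) :
    Mono fun τ => f (Phi e σ τ) := by
  intro τ k l hkl hlt
  have : Phi e σ (τ * swap k l) = Phi e σ τ * swap (Fin.natAdd h k) (Fin.natAdd h l) := by
    ext1 x
    refine Fin.addCases (fun i => ?_) (fun j => ?_) x
    · rw [Perm.mul_apply, swap_apply_of_ne_of_ne (cast_ne _ _) (cast_ne _ _)]
      simp
    · rw [Perm.mul_apply, ← (Fin.natAdd_injective r h).map_swap]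
      simp
  simp only [this]
  exact hf _ _ _ (by simpa using hkl) (by simpa using cmp_mono e hlt)

lemma swap_adj {n m : ℕ} {s : Fin m → Fin n} (hs : StrictMono s) {u v : Fin n}
    (huv : v.val = u.val + 1) (hno : (∀ i, s i ≠ u) ∨ ∀ i, s i ≠ v) :
    StrictMono fun i => swap u v (s i) := by
  intro i j hij
  have h1 : (s i).val < (s j).val := hs hij
  have h2 : ¬ (s i = u ∧ s j = v) := by
    rintro ⟨h3, h4⟩
    rcases hno with h5 | h5
    · exact h5 i h3
    · exact h5 j h4
  simp only [swap_apply_def, Fin.lt_def]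
  simp only [Fin.ext_iff] at h2 ⊢
  split_ifs <;> omega

lemma anti_e {f : Perm (Fin (h + r)) → ℝ} (hf : Mono f) (σ : Perm (Fin h)) (τ : Perm (Fin r))
    (e : L h r) (N : ℕ) : ∀ e' : L h r, ∑ i, (e'.1 i).val = N → e ≤ e' →
      f (Phi e' σ τ) ≤ f (Phi e σ τ) := by
  induction N using Nat.strong_induction_on with
  | _ N ih =>
    intro e' hN hle
    have hle' : ∀ i, e.1 i ≤ e'.1 i := hle
    by_cases heq : ∀ i, e.1 i = e'.1 i
    · rw [show e = e' from Subtype.ext (funext heq)]
    have hne : (univ.filter fun i => e.1 i ≠ e'.1 i).Nonempty := by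
      push Not at heq
      obtain ⟨i, hi⟩ := heq
      exact ⟨i, mem_filter.2 ⟨mem_univ _, hi⟩⟩
    obtain ⟨i, hi, hmin⟩ := exists_min_image _ id hne
    have hi' : (e.1 i).val < (e'.1 i).val := lt_of_le_of_ne (hle' i) fun h' =>
      (mem_filter.1 hi).2 (Fin.ext h')
    let u : Fin (h + r) := ⟨(e'.1 i).val - 1, by omega⟩
    have hu : (e'.1 i).val = u.val + 1 := by
      simp only [u]
      omega
    have hnu : ∀ j, e'.1 j ≠ u := by
      intro j hj
      have hj' := congrArg Fin.val hj
      rcases lt_or_ge j i with hji | hji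
      · have h1 : e.1 j = e'.1 j := by
          by_contra hc
          exact absurd (hmin j (mem_filter.2 ⟨mem_univ _, hc⟩)) (not_le.2 hji)
        have h2 : (e.1 j).val < (e.1 i).val := e.2 hji
        rw [h1] at h2
        omega
      · have : (e'.1 i).val ≤ (e'.1 j).val := e'.2.monotone hji
        omega
    let e'' : L h r := ⟨fun j => swap u (e'.1 i) (e'.1 j), swap_adj e'.2 hu (Or.inl hnu)⟩
    have hv : ∀ j, e''.1 j = if j = i then u else e'.1 j := by
      intro j
      by_cases hj : j = i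
      · simp [e'', hj]
      · simp only [e'', if_neg hj]
        exact swap_apply_of_ne_of_ne (hnu j) fun h' => hj (e'.2.injective h')
    have hc : (fun j => swap u (e'.1 i) (cmp e' j)) = cmp e'' :=
      cmp_unique e'' (swap_adj (cmp_mono e') hu (Or.inr fun j => (cmp_ne e' i j).symm))
        fun a b hab => cmp_ne e' a b ((swap u (e'.1 i)).injective hab)
    have hP : Phi e'' σ τ = swap u (e'.1 i) * Phi e' σ τ := by
      ext1 x
      refine Fin.addCases (fun a => ?_) (fun b => ?_) x
      · simp [e'']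
      · simp [← hc]
    have hsum : ∑ j, (e''.1 j).val < N := by
      rw [← hN]
      refine sum_lt_sum (fun j _ => ?_) ⟨i, mem_univ _, ?_⟩
      · rw [hv]
        split_ifs with hj
        · rw [hj]
          omega
        · exact le_rfl
      · rw [hv, if_pos rfl]
        omega
    have hle2 : e ≤ e'' := by
      intro j
      rw [hv]
      split_ifs with hj
      · rw [hj, Fin.le_def]
        omega
      · exact hle' j
    refine le_trans ?_ (ih _ hsum e'' rfl hle2)
    obtain ⟨y, hy⟩ := (Phi e' σ τ).surjective u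
    have hx : Phi e' σ τ (Fin.castAdd r (σ.symm i)) = e'.1 i := by simp
    rw [hP, swap_comm, ← hy, ← hx, ← mul_swap_eq_swap_mul]
    refine hf _ _ _ ?_ ?_
    · revert hy
      refine Fin.addCases (fun a => ?_) (fun b => ?_) y
      · intro hy
        exact absurd (by simpa using hy) (hnu (σ a))
      · intro _
        simp only [Fin.lt_def, Fin.val_castAdd, Fin.val_natAdd]
        omega
    · rw [hy, hx, Fin.lt_def]
      omega

lemma block (h1 : PA (fun _ : Perm (Fin h) => (1 : ℝ))) (h2 : PA (fun _ : Perm (Fin r) => (1 : ℝ)))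
    (φ : Fin (h + r) → ℝ) (hφ : ∀ x, 0 ≤ φ x) :
    PA (fun a : Perm (Fin (h + r)) => ∏ i : Fin h, φ (a (Fin.castAdd r i))) := by
  intro f g hf0 hg0 hf hg
  let W : L h r → ℝ := fun e => ∏ i, φ (e.1 i)
  have hW0 : ∀ e, 0 ≤ W e := fun e => prod_nonneg fun i _ => hφ _
  have hW : ∀ e σ τ, ∏ i : Fin h, φ (Phi e σ τ (Fin.castAdd r i)) = W e := by
    intro e σ τ
    simp only [Phi_left]
    exact Equiv.prod_comp σ fun i => φ (e.1 i)
  let F : L h r → ℝ := fun e => ∑ σ, ∑ τ, f (Phi e σ τ)
  let G : L h r → ℝ := fun e => ∑ σ, ∑ τ, g (Phi e σ τ)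
  let H : L h r → ℝ := fun e => ∑ σ, ∑ τ, f (Phi e σ τ) * g (Phi e σ τ)
  let c : ℝ := ∑ _σ : Perm (Fin h), ∑ _τ : Perm (Fin r), (1 : ℝ)
  have hF0 : ∀ e, 0 ≤ F e := fun e => sum_nonneg fun _ _ => sum_nonneg fun _ _ => hf0 _
  have hG0 : ∀ e, 0 ≤ G e := fun e => sum_nonneg fun _ _ => sum_nonneg fun _ _ => hg0 _
  have hH0 : ∀ e, 0 ≤ H e := fun e =>
    sum_nonneg fun _ _ => sum_nonneg fun _ _ => mul_nonneg (hf0 _) (hg0 _)
  have hc0 : 0 ≤ c := sum_nonneg fun _ _ => sum_nonneg fun _ _ => zero_le_one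
  have hFa : ∀ e e', e ≤ e' → F e' ≤ F e := fun e e' hle =>
    sum_le_sum fun σ _ => sum_le_sum fun τ _ => anti_e hf σ τ e _ e' rfl hle
  have hGa : ∀ e e', e ≤ e' → G e' ≤ G e := fun e e' hle =>
    sum_le_sum fun σ _ => sum_le_sum fun τ _ => anti_e hg σ τ e _ e' rfl hle
  have hFG : ∀ e, F e * G e ≤ H e * c := by
    intro e
    have a1 := h1 (fun σ => ∑ τ, f (Phi e σ τ)) (fun σ => ∑ τ, g (Phi e σ τ))
      (fun _ => sum_nonneg fun _ _ => hf0 _) (fun _ => sum_nonneg fun _ _ => hg0 _)
      (fun σ k l hkl hlt => sum_le_sum fun τ _ => mono_left hf e τ σ k l hkl hlt)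
      (fun σ k l hkl hlt => sum_le_sum fun τ _ => mono_left hg e τ σ k l hkl hlt)
    simp only [one_mul] at a1
    refine a1.trans ?_
    have a2 : ∀ σ, (∑ τ, f (Phi e σ τ)) * ∑ τ, g (Phi e σ τ) ≤
        (∑ τ, f (Phi e σ τ) * g (Phi e σ τ)) * ∑ _τ : Perm (Fin r), (1 : ℝ) := by
      intro σ
      have := h2 (fun τ => f (Phi e σ τ)) (fun τ => g (Phi e σ τ)) (fun _ => hf0 _)
        (fun _ => hg0 _) (mono_right hf e σ) (mono_right hg e σ)
      simpa only [one_mul] using this
    have a3 := sum_le_sum fun σ (_ : σ ∈ univ) => a2 σ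
    rw [← sum_mul] at a3
    have a4 : c = (∑ _τ : Perm (Fin r), (1 : ℝ)) * ∑ _σ : Perm (Fin h), (1 : ℝ) := by
      simp [c, mul_comm]
    rw [a4, ← mul_assoc]
    exact mul_le_mul_of_nonneg_right a3 (sum_nonneg fun _ _ => zero_le_one)
  have hWW : ∀ a b : L h r, W a * W b = W (a ⊓ b) * W (a ⊔ b) := by
    intro a b
    simp only [W, ← prod_mul_distrib]
    refine prod_congr rfl fun i _ => ?_
    change _ = φ (min (a.1 i) (b.1 i)) * φ (max (a.1 i) (b.1 i))
    rcases le_total (a.1 i) (b.1 i) with h' | h'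
    · rw [min_eq_left h', max_eq_right h']
    · rw [min_eq_right h', max_eq_left h', mul_comm]
  have key := four_functions_theorem_univ (fun e => W e * F e) (fun e => W e * G e)
    (fun e => W e * H e) (fun e => W e * c) (fun e => mul_nonneg (hW0 e) (hF0 e))
    (fun e => mul_nonneg (hW0 e) (hG0 e)) (fun e => mul_nonneg (hW0 e) (hH0 e))
    (fun e => mul_nonneg (hW0 e) hc0) (fun a b => by
      have b1 : F a * G b ≤ H (a ⊓ b) * c :=
        (mul_le_mul (hFa _ _ inf_le_left) (hGa _ _ inf_le_right) (hG0 _) (hF0 _)).trans (hFG _)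
      calc W a * F a * (W b * G b) = (W a * W b) * (F a * G b) := by ring
        _ ≤ (W a * W b) * (H (a ⊓ b) * c) :=
          mul_le_mul_of_nonneg_left b1 (mul_nonneg (hW0 _) (hW0 _))
        _ = _ := by rw [hWW]; ring)
  simp only [sum_Phi, hW]
  simp only [← mul_sum]
  have e : ∀ e : L h r, W e * c = ∑ _σ : Perm (Fin h), ∑ _τ : Perm (Fin r), W e := by
    intro e
    simp only [c, mul_sum, mul_one]
  simp only [e] at key
  exact key

lemma uniform_small {n : ℕ} (hn : n ≤ 1) : PA (fun _ : Perm (Fin n) => (1 : ℝ)) := by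
  intro f g _ _ _ _
  have : Subsingleton (Fin n) := Fin.subsingleton_iff_le_one.2 hn
  have : Unique (Perm (Fin n)) := Equiv.permUnique
  simp

lemma uniform (n : ℕ) : PA (fun _ : Perm (Fin n) => (1 : ℝ)) := by
  induction n with
  | zero => exact uniform_small (by norm_num)
  | succ n ih =>
    rw [Nat.add_comm]
    simpa using block (uniform_small le_rfl) ih (fun _ => 1) (fun _ => zero_le_one)

lemma mid_PA (n : ℕ) (q : ℝ) (hq : 0 ≤ q) : PA (fun a : Perm (Fin n) => q ^ mid a) := by
  obtain ⟨h, r, rfl, hh⟩ : ∃ h r, n = h + r ∧ h = n / 2 := ⟨n / 2, n - n / 2, by omega, rfl⟩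
  have := block (uniform h) (uniform r) (fun x => if h + r < 2 * (x.val + 1) then q else 1)
    (fun x => by positivity)
  convert this using 2 with a
  rw [prod_ite, prod_const, prod_const_one, mul_one, mid]
  congr 1
  symm
  refine card_bij (fun i _ => Fin.castAdd r i) ?_ ?_ ?_
  · intro i hi
    refine mem_filter.2 ⟨mem_univ _, ?_, (mem_filter.1 hi).2⟩
    have := i.2
    simp only [Fin.val_castAdd]
    omega
  · exact fun i _ j _ he => Fin.castAdd_injective h r he
  · intro k hk
    obtain ⟨-, h1, h2⟩ := mem_filter.1 hk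
    exact ⟨⟨k.val, by omega⟩, mem_filter.2 ⟨mem_univ _, h2⟩, rfl⟩

lemma ind_mono {n : ℕ} {A : Finset (Perm (Fin n))} (hA : StrongUp A) :
    Mono fun a => if a ∈ A then (1 : ℝ) else 0 := by
  intro a k l hkl hlt
  by_cases ha : a ∈ A
  · have := hA a ha (a l) (a k) hlt (by simpa using hkl)
    rw [← mul_swap_eq_swap_mul, swap_comm] at this
    simp [ha, this]
  · simp only [if_neg ha]
    positivity

theorem main (n : ℕ) (q : ℝ) (hq : 0 < q) (A B : Finset (Perm (Fin n))) (hA : StrongUp A)
    (hB : StrongUp B) : mu q A * mu q B ≤ mu q (A ∩ B) := by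
  have := mid_PA n q hq.le _ _ (fun a => by positivity) (fun a => by positivity) (ind_mono hA)
    (ind_mono hB)
  have hZ : 0 < ∑ b : Perm (Fin n), q ^ mid b := sum_pos (fun _ _ => by positivity) univ_nonempty
  have e : ∀ a : Perm (Fin n), ((if a ∈ A then (1 : ℝ) else 0) * if a ∈ B then (1 : ℝ) else 0) =
      if a ∈ A ∩ B then 1 else 0 := by
    intro a
    by_cases h1 : a ∈ A <;> by_cases h2 : a ∈ B <;> simp [h1, h2]
  simp only [e] at this
  simp only [mul_ite, mul_one, mul_zero, sum_ite_mem, univ_inter] at this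
  unfold mu
  rw [div_mul_div_comm, div_le_div_iff₀ (mul_pos hZ hZ) hZ]
  nlinarith

end Pool.Agent.H14.MidGap
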