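import Mathlib

set_option autoImplicit false

namespace Pool.Agent.H14.OddCover

open Finset

/-- The space `F_2^n`. -/
abbrev V (n : ℕ) : Type := Fin n → ZMod 2

/-- `M` is Eulerian: its elements sum to zero. -/
def Eulerian {n : ℕ} (M : Finset (V n)) : Prop := ∑ x ∈ M, x = 0

/-- A circuit: an inclusion-minimal non-empty Eulerian set of nonzero vectors. -/
def IsCircuit {n : ℕ} (C : Finset (V n)) : Prop :=
  C.Nonempty ∧ (0 : V n) ∉ C ∧ Eulerian C ∧ ∀ D ⊆ C, D.Nonempty → Eulerian D → D = C

/-- A circuit odd-cover of `M` by `t` circuits of `F_2^n`: a vector lies in `M` exactly when it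
lies in an odd number of the circuits. -/
def IsOddCover {n t : ℕ} (M : Finset (V n)) (C : Fin t → Finset (V n)) : Prop :=
  (∀ i, IsCircuit (C i)) ∧ ∀ x, x ∈ M ↔ Odd (univ.filter (fun i => x ∈ C i)).card

/-- The least number of circuits in a circuit odd-cover. -/
noncomputable def c2 {n : ℕ} (M : Finset (V n)) : ℕ :=
  sInf {t | ∃ C : Fin t → Finset (V n), IsOddCover M C}

/-- The arboricity: least `t` such that `M` is the union of `t` linearly independent sets. -/
noncomputable def arb {n : ℕ} (M : Finset (V n)) : ℕ :=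
  sInf {t | ∃ B : Fin t → Finset (V n),
    (∀ i, LinearIndepOn (ZMod 2) id (B i : Set (V n))) ∧ univ.biUnion B = M}

lemma add_self {n : ℕ} (v : V n) : v + v = 0 := by
  funext i
  have : ∀ a : ZMod 2, a + a = 0 := by decide
  exact this _

lemma pigeon {n : ℕ} {C : Finset (V n)} (hC : IsCircuit C) (W : Finset (V n))
    (hW : ∀ S ⊆ C, ∑ x ∈ S, x ∈ W) : 2 ^ (C.card - 1) ≤ W.card := by
  obtain ⟨⟨x, hx⟩, -, -, hmin⟩ := hC
  rw [← card_erase_of_mem hx, ← card_powerset]
  refine card_le_card_of_injOn (fun S => ∑ y ∈ S, y) ?_ ?_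
  · intro S hS
    exact hW S ((mem_powerset.1 hS).trans (erase_subset _ _))
  · intro S hS T hT hST
    have hS' : S ⊆ C.erase x := mem_powerset.1 hS
    have hT' : T ⊆ C.erase x := mem_powerset.1 hT
    by_contra hne
    have hD : (S \ T) ∪ (T \ S) ⊆ C.erase x :=
      union_subset (sdiff_subset.trans hS') (sdiff_subset.trans hT')
    have hne' : ((S \ T) ∪ (T \ S)).Nonempty := by
      rw [nonempty_iff_ne_empty]
      intro h
      rw [union_eq_empty, sdiff_eq_empty_iff_subset, sdiff_eq_empty_iff_subset] at h
      exact hne (Subset.antisymm h.1 h.2)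
    have hE : Eulerian ((S \ T) ∪ (T \ S)) := by
      unfold Eulerian
      rw [sum_union (disjoint_sdiff_sdiff)]
      have h1 := sum_inter_add_sum_sdiff S T (fun y => y)
      have h2 := sum_inter_add_sum_sdiff T S (fun y => y)
      rw [inter_comm T S] at h2
      have h3 : ∑ y ∈ S \ T, y = ∑ y ∈ T \ S, y := by
        have : (∑ y ∈ S, y) = ∑ y ∈ T, y := hST
        rw [← h1, ← h2] at this
        exact add_left_cancel this
      rw [h3]
      exact add_self _
    have := hmin _ (hD.trans (erase_subset _ _)) hne' hE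
    rw [this] at hD
    exact (notMem_erase x C) (hD hx)

/-- The vector whose coordinates are the binary digits of `a`. -/
def vec (a : ℕ) : V 8 := fun i => if a.testBit i then 1 else 0

def b0 : Fin 8 → V 8 := ![vec 4, vec 5, vec 6, vec 8, vec 64, vec 80, vec 96, vec 128]
def b1 : Fin 8 → V 8 := ![vec 9, vec 10, vec 11, vec 12, vec 144, vec 160, vec 176, vec 192]
def b2 : Fin 8 → V 8 := ![vec 7, vec 13, vec 14, vec 15, vec 112, vec 208, vec 224, vec 240]

def B : Fin 3 → Finset (V 8) := ![univ.image b0, univ.image b1, univ.image b2]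

/-- Two copies of the complement of a line in `PG(3,2)`, in complementary subspaces. -/
def M : Finset (V 8) := univ.biUnion B

lemma M_card : M.card = 24 := by decide +kernel

lemma M_zero : (0 : V 8) ∉ M := by decide +kernel

lemma M_eul : Eulerian M := by unfold Eulerian; decide +kernel

def lo : Finset (V 8) := univ.filter (fun v => ∀ i : Fin 8, 4 ≤ i.val → v i = 0)
def hi : Finset (V 8) := univ.filter (fun v => ∀ i : Fin 8, i.val < 4 → v i = 0)

lemma lo_card : lo.card = 16 := by decide +kernel
lemma hi_card : hi.card = 16 := by decide +kernel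

lemma M_split : ∀ x ∈ M, x ∈ lo ∨ x ∈ hi := by
  have : ∀ x ∈ M, (∀ i : Fin 8, 4 ≤ i.val → x i = 0) ∨ (∀ i : Fin 8, i.val < 4 → x i = 0) := by
    decide +kernel
  intro x hx
  simpa [lo, hi] using this x hx

lemma card_le_nine {C : Finset (V 8)} (hC : IsCircuit C) : C.card ≤ 9 := by
  have := pigeon hC univ (fun _ _ => mem_univ _)
  simp only [card_univ, Fintype.card_pi, ZMod.card, prod_const, Fintype.card_fin] at this
  have := (Nat.pow_le_pow_iff_right (by norm_num : 1 < 2)).1 this
  omega

lemma card_le_five {C : Finset (V 8)} (hC : IsCircuit C) (hM : C ⊆ M) : C.card ≤ 5 := by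
  have key : C ⊆ lo ∨ C ⊆ hi := by
    have hE : Eulerian (C.filter (· ∈ lo)) := by
      unfold Eulerian
      funext i
      rw [Finset.sum_apply]
      by_cases hi4 : 4 ≤ i.val
      · refine sum_eq_zero fun x hx => ?_
        have := (mem_filter.1 hx).2
        simp only [lo, mem_filter, mem_univ, true_and] at this
        exact this i hi4
      · have h0 : (∑ x ∈ C, x) i = 0 := by rw [hC.2.2.1]; rfl
        rw [Finset.sum_apply, ← sum_filter_add_sum_filter_not C (· ∈ lo)] at h0
        have h1 : ∑ x ∈ C.filter (fun x => ¬ x ∈ lo), x i = 0 := by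
          refine sum_eq_zero fun x hx => ?_
          have h2 := mem_filter.1 hx
          have := (M_split x (hM h2.1)).resolve_left h2.2
          simp only [hi, mem_filter, mem_univ, true_and] at this
          exact this i (by omega)
        rw [h1, add_zero] at h0
        exact h0
    by_cases hne : (C.filter (· ∈ lo)).Nonempty
    · left
      have := hC.2.2.2 _ (filter_subset _ _) hne hE
      intro x hx
      rw [← this] at hx
      exact (mem_filter.1 hx).2
    · right
      intro x hx
      refine (M_split x (hM hx)).resolve_left fun h => hne ⟨x, mem_filter.2 ⟨hx, h⟩⟩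
  have h16 : 2 ^ (C.card - 1) ≤ 2 ^ 4 := by
    rcases key with h | h
    · have := pigeon hC lo (fun S hS => by
        simp only [lo, mem_filter, mem_univ, true_and]
        intro i hi4
        rw [Finset.sum_apply]
        refine sum_eq_zero fun x hx => ?_
        have := h (hS hx)
        simp only [lo, mem_filter, mem_univ, true_and] at this
        exact this i hi4)
      rwa [lo_card] at this
    · have := pigeon hC hi (fun S hS => by
        simp only [hi, mem_filter, mem_univ, true_and]
        intro i hi4
        rw [Finset.sum_apply]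
        refine sum_eq_zero fun x hx => ?_
        have := h (hS hx)
        simp only [hi, mem_filter, mem_univ, true_and] at this
        exact this i hi4)
      rwa [hi_card] at this
  have := (Nat.pow_le_pow_iff_right (by norm_num : 1 < 2)).1 h16
  omega

lemma circuit_meet {C : Finset (V 8)} (hC : IsCircuit C) :
    (C ∩ M).card ≤ 8 ∧ ((C ∩ M).card = 8 → (C \ M).card = 1) := by
  have h9 := card_le_nine hC
  have hs := card_sdiff_add_card_inter C M
  by_cases h0 : (C \ M).card = 0
  · have : C ⊆ M := sdiff_eq_empty_iff_subset.1 (card_eq_zero.1 h0)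
    have := card_le_five hC this
    omega
  · omega

lemma double {t : ℕ} (C : Fin t → Finset (V 8)) (S : Finset (V 8)) :
    ∑ i, (C i ∩ S).card = ∑ x ∈ S, (univ.filter (fun i => x ∈ C i)).card := by
  have h1 : ∀ i, (C i ∩ S).card = ∑ x ∈ S, if x ∈ C i then 1 else 0 := by
    intro i
    rw [← card_filter, inter_comm, filter_mem_eq_inter]
  simp_rw [h1, card_filter]
  exact sum_comm

lemma lower {t : ℕ} (C : Fin t → Finset (V 8)) (h : IsOddCover M C) : 4 ≤ t := by
  by_contra ht
  have h1 : 24 ≤ ∑ i, (C i ∩ M).card := by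
    rw [double, ← M_card, card_eq_sum_ones]
    refine sum_le_sum fun x hx => ?_
    exact ((h.2 x).1 hx).pos
  have h2 : ∀ i, (C i ∩ M).card = 8 := by
    intro i
    by_contra hne
    have hlt : ∑ j, (C j ∩ M).card < ∑ _j : Fin t, 8 :=
      sum_lt_sum (fun j _ => (circuit_meet (h.1 j)).1)
        ⟨i, mem_univ _, lt_of_le_of_ne (circuit_meet (h.1 i)).1 hne⟩
    simp only [sum_const, card_univ, Fintype.card_fin, smul_eq_mul] at hlt
    omega
  have h3 : t = 3 := by
    simp only [h2, sum_const, card_univ, Fintype.card_fin, smul_eq_mul] at h1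
    omega
  have h4 : ∑ i, (C i ∩ Mᶜ).card = t := by
    have : ∀ i, (C i ∩ Mᶜ).card = 1 := fun i => by
      rw [← sdiff_eq_inter_compl]
      exact (circuit_meet (h.1 i)).2 (h2 i)
    simp [this]
  have h5 : Even (∑ i, (C i ∩ Mᶜ).card) := by
    rw [double]
    refine even_sum _ fun x hx => ?_
    rw [← Nat.not_odd_iff_even, ← h.2 x]
    exact mem_compl.1 hx
  rw [h4, h3] at h5
  exact absurd h5 (by decide)

lemma indep {k : ℕ} (b : Fin k → V 8) (h : ∀ g : Fin k → ZMod 2, ∑ i, g i • b i = 0 → ∀ i, g i = 0) :
    LinearIndepOn (ZMod 2) id ((univ.image b : Finset (V 8)) : Set (V 8)) := by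
  have := (Fintype.linearIndependent_iff.2 h).linearIndepOn_id
  simpa using this

lemma B_indep : ∀ i, LinearIndepOn (ZMod 2) id (B i : Set (V 8)) := by
  intro i
  fin_cases i
  · exact indep b0 (by decide +kernel)
  · exact indep b1 (by decide +kernel)
  · exact indep b2 (by decide +kernel)

lemma no_eul {A S : Finset (V 8)} (hA : LinearIndepOn (ZMod 2) id (A : Set (V 8))) (hS : S ⊆ A)
    (h : ∑ x ∈ S, x = 0) : S = ∅ := by
  have h1 : LinearIndepOn (ZMod 2) id (S : Set (V 8)) := hA.mono (by exact_mod_cast hS)
  have h2 := linearIndepOn_finset_iff.1 h1 (fun _ => 1) (by simpa using h)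
  rw [eq_empty_iff_forall_notMem]
  intro x hx
  exact one_ne_zero (h2 x hx)

lemma circ_insert {A : Finset (V 8)} {x : V 8} (hA : LinearIndepOn (ZMod 2) id (A : Set (V 8)))
    (hx : x ∉ A) (hs : ∑ y ∈ A, y = x) (h0 : (0 : V 8) ∉ insert x A) :
    IsCircuit (insert x A) := by
  refine ⟨insert_nonempty _ _, h0, ?_, fun D hD hne hE => ?_⟩
  · unfold Eulerian
    rw [sum_insert hx, hs]
    exact add_self _
  · by_cases hxD : x ∈ D
    · have h1 : D.erase x ⊆ A := by
        intro y hy
        have := mem_erase.1 hy
        exact (mem_insert.1 (hD this.2)).resolve_left this.1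
      have h2 := sum_sdiff (f := fun y => y) h1
      have h3 := add_sum_erase D (fun y => y) hxD
      have h4 : ∑ y ∈ D.erase x, y = x := by
        have h5 : x + ∑ y ∈ D.erase x, y = x + x := by
          rw [add_self x]
          exact h3.trans hE
        exact add_left_cancel h5
      have h6 : ∑ y ∈ A \ D.erase x, y = 0 := by
        rw [h4, hs] at h2
        simpa using h2
      have h7 := sdiff_eq_empty_iff_subset.1 (no_eul hA sdiff_subset h6)
      refine Subset.antisymm hD (insert_subset hxD (h7.trans (erase_subset _ _)))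
    · have h1 : D ⊆ A := fun y hy =>
        (mem_insert.1 (hD hy)).resolve_left fun h => hxD (h ▸ hy)
      exact absurd (no_eul hA h1 hE) hne.ne_empty

def b3 : Fin 2 → V 8 := ![vec 68, vec 187]

def cov : Fin 4 → Finset (V 8) :=
  ![insert (vec 255) (B 0), insert (vec 68) (B 1), insert (vec 187) (B 2),
    insert (vec 255) (univ.image b3)]

lemma cov_circ : ∀ i, IsCircuit (cov i) := by
  intro i
  fin_cases i
  · exact circ_insert (B_indep 0) (by decide +kernel) (by decide +kernel) (by decide +kernel)
  · exact circ_insert (B_indep 1) (by decide +kernel) (by decide +kernel) (by decide +kernel)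
  · exact circ_insert (B_indep 2) (by decide +kernel) (by decide +kernel) (by decide +kernel)
  · exact circ_insert (indep b3 (by decide +kernel)) (by decide +kernel) (by decide +kernel)
      (by decide +kernel)

lemma cov_cover : IsOddCover M cov := ⟨cov_circ, by decide +kernel⟩

lemma c2_eq : c2 M = 4 := by
  apply le_antisymm
  · exact Nat.sInf_le ⟨cov, cov_cover⟩
  · exact le_csInf ⟨4, cov, cov_cover⟩ fun t ⟨C, hC⟩ => lower C hC

lemma arb_eq : arb M = 3 := by
  apply le_antisymm
  · exact Nat.sInf_le ⟨B, B_indep, rfl⟩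
  · refine le_csInf ⟨3, B, B_indep, rfl⟩ fun t ⟨A, hA, hU⟩ => ?_
    have h1 : ∀ i, (A i).card ≤ 8 := fun i => by
      have := LinearIndependent.finset_card_le_finrank (R := ZMod 2) (hA i)
      simpa using this
    have h2 : M.card ≤ ∑ _i : Fin t, 8 := by
      rw [← hU]
      exact card_biUnion_le.trans (sum_le_sum fun i _ => h1 i)
    rw [M_card] at h2
    simp only [sum_const, card_univ, Fintype.card_fin, smul_eq_mul] at h2
    omega

end Pool.Agent.H14.OddCover
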