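import Mathlib

set_option autoImplicit false
open MeasureTheory Module

namespace Pool.Agent.H14.Osi

/-- Frobenius norm. -/
noncomputable def frob {n d : ℕ} (A : Matrix (Fin n) (Fin d) ℝ) : ℝ :=
  Real.sqrt (∑ i, ∑ j, A i j ^ 2)

/-- The randomized SVD approximation `(AΩ)(AΩ)^+ A`: every column of `A` is replaced by its
orthogonal projection onto the column space of `AΩ`. -/
noncomputable def rsvd {n d k : ℕ} (A : Matrix (Fin n) (Fin d) ℝ) (Ω : Matrix (Fin d) (Fin k) ℝ) :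
    Matrix (Fin n) (Fin d) ℝ :=
  Matrix.of fun i j =>
    (LinearMap.range (Matrix.toEuclideanLin (A * Ω))).starProjection
      (WithLp.toLp 2 fun i' => A i' j) i

/-- `μ` is the law of an oblivious subspace injection `Ω` (a random `d × k` matrix) with
dimension `r`, injectivity `α` and failure probability `δ`. -/
def IsOSI {d k : ℕ} (μ : Measure (Fin d → Fin k → ℝ)) (r : ℕ) (α δ : ℝ) : Prop :=
  (∀ x : Fin d → ℝ, ∫ ω, ∑ c, (∑ i, ω i c * x i) ^ 2 ∂μ = ∑ i, x i ^ 2) ∧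
  ∀ V : Submodule ℝ (EuclideanSpace ℝ (Fin d)), Module.finrank ℝ V = r →
    ENNReal.ofReal (1 - δ) ≤
      μ {ω | ∀ x ∈ V, α * ∑ i, x i ^ 2 ≤ ∑ c, (∑ i, ω i c * x i) ^ 2}

def sg (b : Bool) : ℝ := if b then 1 else -1

lemma sg_sq (b : Bool) : sg b ^ 2 = 1 := by cases b <;> simp [sg]

lemma mom (r : ℕ) (c : Fin r → ℝ) :
    (∑ s : Fin r → Bool, (∑ j, sg (s j) * c j) ^ 2 = 2 ^ r * ∑ j, c j ^ 2) ∧
    (∑ s : Fin r → Bool, (∑ j, sg (s j) * c j) ^ 4 ≤ 3 * 2 ^ r * (∑ j, c j ^ 2) ^ 2) := by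
  induction r with
  | zero => simp
  | succ r ih =>
    obtain ⟨h2, h4⟩ := ih (fun j => c j.succ)
    have key : ∀ f : ℝ → ℝ, ∑ s : Fin (r + 1) → Bool, f (∑ j, sg (s j) * c j) =
        ∑ s : Fin r → Bool, (f (c 0 + ∑ j, sg (s j) * c j.succ) +
          f (-c 0 + ∑ j, sg (s j) * c j.succ)) := by
      intro f
      rw [← (Fin.consEquiv (fun _ : Fin (r + 1) => Bool)).sum_comp, Fintype.sum_prod_type,
        Finset.sum_comm]
      refine Finset.sum_congr rfl fun s _ => ?_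
      simp [Fin.consEquiv, Fin.sum_univ_succ, sg]
    rw [key (fun x => x ^ 2), key (fun x => x ^ 4), Fin.sum_univ_succ]
    have e2 : ∀ x : ℝ, (c 0 + x) ^ 2 + (-c 0 + x) ^ 2 = 2 * c 0 ^ 2 + 2 * x ^ 2 := fun x => by ring
    have e4 : ∀ x : ℝ, (c 0 + x) ^ 4 + (-c 0 + x) ^ 4 =
        2 * c 0 ^ 4 + 12 * c 0 ^ 2 * x ^ 2 + 2 * x ^ 4 := fun x => by ring
    simp only [e2, e4, Finset.sum_add_distrib, ← Finset.mul_sum, Finset.sum_const,
      Finset.card_univ, Fintype.card_fun, Fintype.card_bool, Fintype.card_fin, nsmul_eq_mul, h2]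
    push_cast
    refine ⟨by ring, ?_⟩
    have hp : (0 : ℝ) < 2 ^ r := by positivity
    have : 0 ≤ 2 ^ r * c 0 ^ 4 := by positivity
    rw [pow_succ (2 : ℝ) r]
    nlinarith

lemma pz (r : ℕ) (c : Fin r → ℝ) (t : ℝ) (ht : 0 < t) (hc : ∑ j, c j ^ 2 = t ^ 2) :
    (2 : ℝ) ^ r / 22 < ((Finset.univ.filter fun s : Fin r → Bool =>
      t ^ 2 / 4 ≤ (∑ j, sg (s j) * c j) ^ 2 ∧ (∑ j, sg (s j) * c j) ^ 2 ≤ 9 * t ^ 2).card : ℝ) := by
  classical
  obtain ⟨h2, h4⟩ := mom r c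
  rw [hc] at h2 h4
  have pt : ∀ s : Fin r → Bool, t ^ 2 * (∑ j, sg (s j) * c j) ^ 2 ≤ t ^ 4 / 4 +
      9 * t ^ 4 * (if t ^ 2 / 4 ≤ (∑ j, sg (s j) * c j) ^ 2 ∧
        (∑ j, sg (s j) * c j) ^ 2 ≤ 9 * t ^ 2 then (1 : ℝ) else 0) +
      (∑ j, sg (s j) * c j) ^ 4 / 9 := by
    intro s
    set x := ∑ j, sg (s j) * c j
    have ht2 : 0 < t ^ 2 := by positivity
    have hx4 : x ^ 4 = (x ^ 2) ^ 2 := by ring
    have ht4 : t ^ 4 = (t ^ 2) ^ 2 := by ring
    have hx : 0 ≤ x ^ 2 := by positivity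
    rw [hx4, ht4]
    split_ifs with h
    · nlinarith [h.1, h.2]
    · rcases not_and_or.1 h with h | h
      · nlinarith [not_le.1 h]
      · nlinarith [not_le.1 h]
  have := Finset.sum_le_sum fun s (_ : s ∈ Finset.univ) => pt s
  simp only [Finset.sum_add_distrib, ← Finset.mul_sum, ← Finset.sum_div, Finset.sum_const,
    Finset.card_univ, Fintype.card_fun, Fintype.card_bool, Fintype.card_fin, nsmul_eq_mul, h2,
    Finset.sum_boole] at this
  push_cast at this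
  have ht4 : 0 < t ^ 4 := by positivity
  have hp : (0 : ℝ) < 2 ^ r := by positivity
  by_contra hcon
  push Not at hcon
  have h5 := mul_le_mul_of_nonneg_left hcon ht4.le
  have h6 : 0 < 2 ^ r * t ^ 4 := by positivity
  nlinarith

lemma exists_ext {E : Type*} [AddCommGroup E] [Module ℝ E] [FiniteDimensional ℝ E]
    (W : Submodule ℝ E) (r : ℕ) (h1 : finrank ℝ W ≤ r) (h2 : r ≤ finrank ℝ E) :
    ∃ V : Submodule ℝ E, W ≤ V ∧ finrank ℝ V = r := by
  induction r, h1 using Nat.le_induction with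
  | base => exact ⟨W, le_rfl, rfl⟩
  | succ r _ ih =>
    obtain ⟨V, hWV, hV⟩ := ih (by omega)
    have hne : V ≠ ⊤ := by
      rintro rfl
      rw [finrank_top] at hV
      omega
    obtain ⟨x, -, hx⟩ := SetLike.exists_of_lt (lt_top_iff_ne_top.2 hne)
    refine ⟨V ⊔ Submodule.span ℝ {x}, hWV.trans le_sup_left, ?_⟩
    have hx0 : x ≠ 0 := fun h => hx (h ▸ V.zero_mem)
    have h3 := Submodule.finrank_sup_add_finrank_inf_eq V (Submodule.span ℝ {x})
    have h4 : V ⊓ Submodule.span ℝ {x} = ⊥ :=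
      disjoint_iff.1 ((Submodule.disjoint_span_singleton' hx0).2 hx)
    rw [h4, finrank_bot, finrank_span_singleton hx0] at h3
    omega

lemma sum_sq_eq {n : ℕ} (x : EuclideanSpace ℝ (Fin n)) : ∑ i, x i ^ 2 = ‖x‖ ^ 2 := by
  rw [EuclideanSpace.real_norm_sq_eq]

lemma rsvd_min {n d k : ℕ} (A : Matrix (Fin n) (Fin d) ℝ) (Ω : Matrix (Fin d) (Fin k) ℝ)
    (X : Matrix (Fin k) (Fin d) ℝ) :
    ∑ i, ∑ j, (A - rsvd A Ω) i j ^ 2 ≤ ∑ i, ∑ j, (A - A * Ω * X) i j ^ 2 := by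
  rw [Finset.sum_comm, Finset.sum_comm (f := fun i j => (A - A * Ω * X) i j ^ 2)]
  refine Finset.sum_le_sum fun j _ => ?_
  set K := LinearMap.range (Matrix.toEuclideanLin (A * Ω))
  set a : EuclideanSpace ℝ (Fin n) := WithLp.toLp 2 fun i' => A i' j
  let u : K := ⟨Matrix.toEuclideanLin (A * Ω) (WithLp.toLp 2 fun c => X c j), ⟨_, rfl⟩⟩
  have h1 : ∑ i, (A - rsvd A Ω) i j ^ 2 = ‖a - K.starProjection a‖ ^ 2 := by
    rw [← sum_sq_eq]; rfl
  have h2 : ∑ i, (A - A * Ω * X) i j ^ 2 = ‖a - u‖ ^ 2 := by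
    rw [← sum_sq_eq]; rfl
  rw [h1, h2]
  gcongr
  rw [Submodule.starProjection_minimal]
  exact ciInf_le ⟨0, by rintro _ ⟨x, rfl⟩; positivity⟩ u

lemma rsvd_mem {n d k : ℕ} (A : Matrix (Fin n) (Fin d) ℝ) (Ω : Matrix (Fin d) (Fin k) ℝ)
    (j : Fin d) : ∃ x : Fin k → ℝ, ∀ i, rsvd A Ω i j = (A * Ω).mulVec x i := by
  obtain ⟨x, hx⟩ := (LinearMap.range (Matrix.toEuclideanLin (A * Ω))).starProjection_apply_mem
    (WithLp.toLp 2 fun i' => A i' j)
  refine ⟨x.ofLp, fun i => ?_⟩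
  simp only [rsvd, Matrix.of_apply, ← hx]
  rfl

lemma lev {n : ℕ} (W : Submodule ℝ (EuclideanSpace ℝ (Fin n))) :
    ∃ l : Fin n → ℝ, (∀ i, 0 ≤ l i) ∧ (∀ i, l i ≤ 1) ∧ ∑ i, l i = finrank ℝ W ∧
      ∀ u ∈ W, ∀ i, u i ^ 2 ≤ l i * ∑ i', u i' ^ 2 := by
  let b := stdOrthonormalBasis ℝ W
  refine ⟨fun i => ‖W.starProjection (EuclideanSpace.single i (1 : ℝ))‖ ^ 2,
    fun i => by positivity, fun i => ?_, ?_, fun u hu i => ?_⟩
  · have := W.norm_starProjection_apply_le (EuclideanSpace.single i (1 : ℝ))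
    rw [EuclideanSpace.norm_single, norm_one] at this
    exact pow_le_one₀ (norm_nonneg _) this
  · have h1 : ∀ i, ‖W.starProjection (EuclideanSpace.single i (1 : ℝ))‖ ^ 2 =
        ∑ a, ((b a : EuclideanSpace ℝ (Fin n)) i) ^ 2 := by
      intro i
      have := b.sum_sq_inner_right (W.orthogonalProjectionOnto (EuclideanSpace.single i (1 : ℝ)))
      rw [Submodule.starProjection_apply, ← Submodule.coe_norm, ← this]
      refine Finset.sum_congr rfl fun a _ => ?_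
      rw [Submodule.inner_orthogonalProjectionOnto_eq_of_mem_left]
      simp [EuclideanSpace.inner_single_right]
    simp only [h1]
    rw [Finset.sum_comm]
    have h2 : ∀ a, ∑ i, ((b a : EuclideanSpace ℝ (Fin n)) i) ^ 2 = 1 := by
      intro a
      rw [sum_sq_eq, ← Submodule.coe_norm, b.orthonormal.1 a, one_pow]
    simp [h2]
  · have h1 : u i = inner ℝ u (W.starProjection (EuclideanSpace.single i (1 : ℝ))) := by
      rw [← Submodule.inner_starProjection_left_eq_right, Submodule.starProjection_eq_self_iff.2 hu]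
      simp [EuclideanSpace.inner_single_right]
    rw [h1, sum_sq_eq, ← mul_pow, mul_comm]
    exact sq_le_sq' (by
      have := abs_real_inner_le_norm u (W.starProjection (EuclideanSpace.single i (1 : ℝ)))
      exact (abs_le.1 this).1) (real_inner_le_norm _ _)

end Pool.Agent.H14.Osi
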