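import Pool.Agent.H14.Osi

set_option autoImplicit false
open MeasureTheory Module

namespace Pool.Agent.H14.Osi

section det
variable {E F : Type*} [NormedAddCommGroup E] [InnerProductSpace ℝ E] [NormedAddCommGroup F]
  [InnerProductSpace ℝ F] [FiniteDimensional ℝ E] [FiniteDimensional ℝ F]

noncomputable def phi (V : Submodule ℝ E) (s : Fin (finrank ℝ V) → Bool) : V →ₗ[ℝ] ℝ :=
  ∑ j, sg (s j) • innerₗ V (stdOrthonormalBasis ℝ V j)

noncomputable def Hp (V : Submodule ℝ E) (y : E) (τ : ℝ) (s : Fin (finrank ℝ V) → Bool) :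
    Submodule ℝ E :=
  LinearMap.range (V.subtype + ((τ / ‖y‖) • phi V s).smulRight y)

lemma finrank_Hp (V : Submodule ℝ E) (y : E) (hy : y ∈ Vᗮ) (τ : ℝ)
    (s : Fin (finrank ℝ V) → Bool) : finrank ℝ (Hp V y τ s) = finrank ℝ V := by
  refine LinearMap.finrank_range_of_inj ?_
  rw [injective_iff_map_eq_zero]
  intro v hv
  have h1 : inner ℝ (v : E) y = 0 := (V.mem_orthogonal y).1 hy v v.2
  have h2 := congrArg (fun z => inner ℝ (v : E) z) hv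
  simp only [LinearMap.add_apply, Submodule.subtype_apply, LinearMap.smulRight_apply,
    inner_add_right, inner_smul_right, h1, mul_zero, add_zero, inner_zero_right] at h2
  exact Subtype.ext (inner_self_eq_zero.1 h2)

lemma exists_L (T : E →ₗ[ℝ] F) (V : Submodule ℝ E) (hinj : ∀ x ∈ V, T x = 0 → x = 0) :
    ∃ L : F →ₗ[ℝ] E, (∀ f, L f ∈ V) ∧ (∀ v ∈ V, L (T v) = v) ∧
      ∀ f, inner ℝ (T (L f)) (T (L f)) = inner ℝ f (T (L f)) := by
  have hk : LinearMap.ker (T ∘ₗ V.subtype) = ⊥ := by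
    rw [LinearMap.ker_eq_bot']
    intro v hv
    exact Subtype.ext (hinj v v.2 hv)
  obtain ⟨g, hg⟩ := LinearMap.exists_leftInverse_of_injective _ hk
  have hg' : ∀ v : V, g (T v) = v := fun v => LinearMap.congr_fun hg v
  set K := LinearMap.range (T ∘ₗ V.subtype)
  refine ⟨V.subtype ∘ₗ g ∘ₗ (K.starProjection : F →ₗ[ℝ] F), fun f => (g _).2, fun v hv => ?_,
    fun f => ?_⟩
  · have : K.starProjection (T v) = T v := Submodule.starProjection_eq_self_iff.2 ⟨⟨v, hv⟩, rfl⟩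
    simp only [LinearMap.comp_apply, ContinuousLinearMap.coe_coe, this]
    exact congrArg Subtype.val (hg' ⟨v, hv⟩)
  · obtain ⟨v, hv⟩ := K.starProjection_apply_mem f
    have h1 : T ((V.subtype ∘ₗ g ∘ₗ (K.starProjection : F →ₗ[ℝ] F)) f) = K.starProjection f := by
      simp only [LinearMap.comp_apply, ContinuousLinearMap.coe_coe, ← hv, Submodule.subtype_apply,
        hg']
    rw [h1]
    have := K.starProjection_inner_eq_zero f _ (K.starProjection_apply_mem f)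
    rw [inner_sub_left] at this
    linarith

omit [FiniteDimensional ℝ E] [FiniteDimensional ℝ F] in
lemma tw_le (T : E →ₗ[ℝ] F) (y w : E) (hwy : inner ℝ (T w) (T w) = inner ℝ (T y) (T w)) :
    ‖T w‖ ^ 2 ≤ ‖T y‖ ^ 2 := by
  have h1 : 0 ≤ ‖T y - T w‖ ^ 2 := by positivity
  rw [norm_sub_sq_real, ← hwy, real_inner_self_eq_norm_sq] at h1
  linarith

omit [FiniteDimensional ℝ F] in
lemma pt (T : E →ₗ[ℝ] F) (V : Submodule ℝ E) (ε : ℝ) (hε : 0 < ε) (hε2 : ε ≤ 1 / 2)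
    (hV : ∀ x ∈ V, (1 - ε) * ‖x‖ ^ 2 ≤ ‖T x‖ ^ 2) (y w : E) (hy : y ∈ Vᗮ) (hw : w ∈ V)
    (hwy : inner ℝ (T w) (T w) = inner ℝ (T y) (T w)) (N : ℕ) (hN : 1 / ε ≤ N)
    (bad : Finset (ℤ × (Fin (finrank ℝ V) → Bool)))
    (hbad : ∀ τ ∈ Finset.Icc (-(N : ℤ)) N, ∀ s, (τ, s) ∉ bad →
      ∀ x ∈ Hp V y τ s, (1 - ε) * ‖x‖ ^ 2 ≤ ‖T x‖ ^ 2)
    (hcard : (bad.card : ℝ) ≤ 2 ^ finrank ℝ V / 22) (hyy : (1 - ε) * ‖y‖ ^ 2 ≤ ‖T y‖ ^ 2) :
    ‖w‖ ^ 2 ≤ ε * ‖y‖ ^ 2 + 162 * (‖T y‖ ^ 2 - (1 - ε) * ‖y‖ ^ 2) := by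
  classical
  have h0 := tw_le T y w hwy
  have h1 := hV w hw
  have hy2 : 0 ≤ ‖y‖ ^ 2 := by positivity
  have hw2 : 0 ≤ ‖w‖ ^ 2 := by positivity
  by_cases c1 : ‖w‖ ^ 2 ≤ ε * ‖y‖ ^ 2
  · linarith
  push Not at c1
  by_cases c2 : 2 * ‖y‖ < ‖w‖
  · have : 4 * ‖y‖ ^ 2 ≤ ‖w‖ ^ 2 := by nlinarith [norm_nonneg y]
    nlinarith [mul_nonneg hε.le hy2]
  push Not at c2
  have hwpos : 0 < ‖w‖ := by
    rcases (norm_nonneg w).eq_or_lt with h | h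
    · rw [← h] at c1; nlinarith [mul_nonneg hε.le hy2]
    · exact h
  have hypos : 0 < ‖y‖ := by linarith
  set t : ℕ := ⌈‖y‖ / ‖w‖⌉₊ with ht
  have ht1 : ‖y‖ ≤ t * ‖w‖ := (div_le_iff₀ hwpos).1 (Nat.le_ceil _)
  have ht2 : t * ‖w‖ ≤ 3 * ‖y‖ := by
    have := Nat.ceil_lt_add_one (show 0 ≤ ‖y‖ / ‖w‖ by positivity)
    have h3 : (t : ℝ) * ‖w‖ ≤ (‖y‖ / ‖w‖ + 1) * ‖w‖ := by gcongr
    rw [add_mul, div_mul_cancel₀ _ hwpos.ne'] at h3
    linarith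
  have htN : t ≤ N := by
    refine Nat.ceil_le.2 (le_trans ?_ hN)
    rw [div_le_div_iff₀ hwpos hε]
    have : (‖y‖ * ε) ^ 2 ≤ (1 * ‖w‖) ^ 2 := by
      have : ε ^ 2 * ‖y‖ ^ 2 ≤ ε * ‖y‖ ^ 2 := by gcongr; nlinarith
      nlinarith
    exact le_of_sq_le_sq this (by positivity) |>.trans le_rfl
  have hc : ∑ j, (inner ℝ (stdOrthonormalBasis ℝ V j) (⟨w, hw⟩ : V)) ^ 2 = ‖w‖ ^ 2 :=
    (stdOrthonormalBasis ℝ V).sum_sq_inner_right ⟨w, hw⟩
  have hpz := pz _ _ _ hwpos hc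
  have hlt : (bad.image Prod.snd).card < (Finset.univ.filter fun s : Fin (finrank ℝ V) → Bool =>
      ‖w‖ ^ 2 / 4 ≤ (∑ j, sg (s j) * inner ℝ (stdOrthonormalBasis ℝ V j) (⟨w, hw⟩ : V)) ^ 2 ∧
      (∑ j, sg (s j) * inner ℝ (stdOrthonormalBasis ℝ V j) (⟨w, hw⟩ : V)) ^ 2 ≤
        9 * ‖w‖ ^ 2).card := by
    have : ((bad.image Prod.snd).card : ℝ) ≤ bad.card := by exact_mod_cast Finset.card_image_le
    exact_mod_cast this.trans_lt (hcard.trans_lt hpz)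
  obtain ⟨s, hs, hsb⟩ := Finset.exists_mem_notMem_of_card_lt_card hlt
  have hp : phi V s ⟨w, hw⟩ =
      ∑ j, sg (s j) * inner ℝ (stdOrthonormalBasis ℝ V j) (⟨w, hw⟩ : V) := by
    simp [phi, LinearMap.sum_apply]
  rw [Finset.mem_filter, ← hp] at hs
  obtain ⟨-, hs1, hs2⟩ := hs
  set p := phi V s ⟨w, hw⟩
  obtain ⟨τ, hτ, hτp⟩ : ∃ τ ∈ Finset.Icc (-(N : ℤ)) N, (τ : ℝ) * p = -(t * |p|) := by
    rcases le_total 0 p with h | h
    · exact ⟨-(t : ℤ), by simp; omega, by rw [abs_of_nonneg h]; simp⟩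
    · exact ⟨(t : ℤ), by simp; omega, by rw [abs_of_nonpos h]; simp⟩
  have hx := hbad τ hτ s (fun h => hsb (Finset.mem_image.2 ⟨_, h, rfl⟩)) _ ⟨⟨w, hw⟩, rfl⟩
  simp only [LinearMap.add_apply, Submodule.subtype_apply, LinearMap.smulRight_apply,
    LinearMap.smul_apply, smul_eq_mul, map_add, map_smul] at hx
  change (1 - ε) * ‖w + ((τ : ℝ) / ‖y‖ * p) • y‖ ^ 2 ≤ ‖T w + ((τ : ℝ) / ‖y‖ * p) • T y‖ ^ 2 at hx
  set σ := (τ : ℝ) / ‖y‖ * p with hσ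
  have hσy : σ * ‖y‖ = -(t * |p|) := by rw [← hτp, hσ]; field_simp
  have hp1 : ‖w‖ / 2 ≤ |p| := by
    refine le_of_sq_le_sq ?_ (by positivity)
    rw [sq_abs]; linarith
  have hp2 : |p| ≤ 3 * ‖w‖ := by
    refine le_of_sq_le_sq ?_ (by positivity)
    rw [sq_abs]; linarith
  have ht0 : (0 : ℝ) ≤ t := by positivity
  have hσ1 : σ ≤ -(1 / 2) := by
    refine le_of_mul_le_mul_right ?_ hypos
    rw [hσy]
    nlinarith [mul_le_mul_of_nonneg_left hp1 ht0]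
  have hσ2 : -9 ≤ σ := by
    refine le_of_mul_le_mul_right ?_ hypos
    rw [hσy]
    nlinarith [mul_le_mul_of_nonneg_left hp2 ht0]
  have hi : inner ℝ w y = 0 := (V.mem_orthogonal y).1 hy w hw
  rw [norm_add_sq_real, norm_add_sq_real, inner_smul_right, inner_smul_right, hi,
    real_inner_comm (T y) (T w), ← hwy, real_inner_self_eq_norm_sq, norm_smul, norm_smul, mul_pow,
    mul_pow, Real.norm_eq_abs, sq_abs] at hx
  have hσ3 : σ ^ 2 ≤ 81 := by nlinarith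
  have hT : 0 ≤ ‖T w‖ ^ 2 := by positivity
  have h5 : (1 - ε) * ‖w‖ ^ 2 ≤ σ ^ 2 * (‖T y‖ ^ 2 - (1 - ε) * ‖y‖ ^ 2) := by nlinarith
  have h6 : σ ^ 2 * (‖T y‖ ^ 2 - (1 - ε) * ‖y‖ ^ 2) ≤ 81 * (‖T y‖ ^ 2 - (1 - ε) * ‖y‖ ^ 2) := by
    gcongr
  nlinarith [mul_nonneg hε.le hy2]

end det

variable {d k : ℕ}

noncomputable def TT (ω : Fin d → Fin k → ℝ) :
    EuclideanSpace ℝ (Fin d) →ₗ[ℝ] EuclideanSpace ℝ (Fin k) :=
  Matrix.toEuclideanLin (Matrix.of ω).transpose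

lemma TT_apply (ω : Fin d → Fin k → ℝ) (x : EuclideanSpace ℝ (Fin d)) (c : Fin k) :
    TT ω x c = ∑ i, ω i c * x i := rfl

lemma TT_norm (ω : Fin d → Fin k → ℝ) (x : EuclideanSpace ℝ (Fin d)) :
    ‖TT ω x‖ ^ 2 = ∑ c, (∑ i, ω i c * x i) ^ 2 := by
  rw [← sum_sq_eq]; rfl

def good (k : ℕ) (α : ℝ) (W : Submodule ℝ (EuclideanSpace ℝ (Fin d))) : Set (Fin d → Fin k → ℝ) :=
  {ω | ∀ x ∈ W, α * ‖x‖ ^ 2 ≤ ‖TT ω x‖ ^ 2}

lemma good_eq (α : ℝ) (W : Submodule ℝ (EuclideanSpace ℝ (Fin d))) : good k α W =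
    {ω | ∀ x ∈ W, α * ∑ i, x i ^ 2 ≤ ∑ c, (∑ i, ω i c * x i) ^ 2} := by
  simp only [good, TT_norm, sum_sq_eq]

lemma good_meas (α : ℝ) (W : Submodule ℝ (EuclideanSpace ℝ (Fin d))) :
    MeasurableSet (good k α W) := by
  rw [good_eq]
  refine IsClosed.measurableSet ?_
  simp only [Set.setOf_forall]
  exact isClosed_iInter fun x => isClosed_iInter fun _ => isClosed_le (by fun_prop) (by fun_prop)

lemma good_compl (μ : Measure (Fin d → Fin k → ℝ)) [IsProbabilityMeasure μ] (r : ℕ) (α δ : ℝ)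
    (h : IsOSI μ r α δ) (W : Submodule ℝ (EuclideanSpace ℝ (Fin d))) (hW : finrank ℝ W = r) :
    μ.real (good k α W)ᶜ ≤ δ := by
  have h1 := h.2 W hW
  rw [← good_eq] at h1
  rw [probReal_compl_eq_one_sub (good_meas α W)]
  have := (ENNReal.ofReal_le_iff_le_toReal (measure_ne_top μ _)).1 h1
  rw [measureReal_def]
  linarith

lemma int_TT (μ : Measure (Fin d → Fin k → ℝ)) [IsProbabilityMeasure μ] (r : ℕ) (α δ : ℝ)
    (h : IsOSI μ r α δ) (y : EuclideanSpace ℝ (Fin d)) :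
    Integrable (fun ω => ‖TT ω y‖ ^ 2) μ ∧ ∫ ω, ‖TT ω y‖ ^ 2 ∂μ = ‖y‖ ^ 2 := by
  have h1 : ∫ ω, ‖TT ω y‖ ^ 2 ∂μ = ‖y‖ ^ 2 := by
    simp only [TT_norm, ← sum_sq_eq]
    exact h.1 y.ofLp
  refine ⟨?_, h1⟩
  by_cases hy : y = 0
  · simp [hy]
  · refine Integrable.of_integral_ne_zero ?_
    rw [h1]
    positivity

lemma exZ (μ : Measure (Fin d → Fin k → ℝ)) [IsProbabilityMeasure μ] (ε δ : ℝ) (hε : 0 < ε)
    (hε2 : ε ≤ 1 / 2) (hδ : δ ≤ ε ^ 2) (V : Submodule ℝ (EuclideanSpace ℝ (Fin d)))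
    (hr : 1 ≤ finrank ℝ V) (h : IsOSI μ (finrank ℝ V) (1 - ε) δ)
    (y : EuclideanSpace ℝ (Fin d)) (hy : y ∈ Vᗮ) :
    ∃ Z : (Fin d → Fin k → ℝ) → ℝ, Integrable Z μ ∧ (∀ ω, 0 ≤ Z ω) ∧
      ∫ ω, Z ω ∂μ ≤ 20000 * ε * ‖y‖ ^ 2 ∧ ∀ ω ∈ good k (1 - ε) V, ∀ w ∈ V,
        inner ℝ (TT ω w) (TT ω w) = inner ℝ (TT ω y) (TT ω w) → ‖w‖ ^ 2 ≤ Z ω := by
  classical
  obtain ⟨W, hW1, hW⟩ := exists_ext (Submodule.span ℝ {y}) (finrank ℝ V)
    ((finrank_span_le_card ({y} : Set _)).trans (by simpa using hr)) V.finrank_le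
  have hyW : y ∈ W := hW1 (Submodule.mem_span_singleton_self y)
  set N : ℕ := ⌈1 / ε⌉₊
  have hN1 : 1 / ε ≤ N := Nat.le_ceil _
  have hN2 : (N : ℝ) * ε ≤ 2 := by
    have := Nat.ceil_lt_add_one (show 0 ≤ 1 / ε by positivity)
    have h3 : (N : ℝ) * ε ≤ (1 / ε + 1) * ε := by gcongr
    rw [add_mul, div_mul_cancel₀ _ hε.ne'] at h3
    linarith
  set I : Finset (ℤ × (Fin (finrank ℝ V) → Bool)) := Finset.Icc (-(N : ℤ)) N ×ˢ Finset.univ
  have hI : (I.card : ℝ) = (2 * N + 1) * 2 ^ finrank ℝ V := by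
    have : ((N : ℤ) + 1 - -(N : ℤ)).toNat = 2 * N + 1 := by omega
    simp only [I, Finset.card_product, Int.card_Icc, this, Finset.card_univ, Fintype.card_fun,
      Fintype.card_bool, Fintype.card_fin]
    push_cast; ring
  have hp : (0 : ℝ) < 2 ^ finrank ℝ V := by positivity
  set β : (Fin d → Fin k → ℝ) → ℝ := fun ω => 22 / 2 ^ finrank ℝ V *
    ∑ p ∈ I, (good k (1 - ε) (Hp V y p.1 p.2))ᶜ.indicator (fun _ => (1 : ℝ)) ω +
      (good k (1 - ε) W)ᶜ.indicator (fun _ => (1 : ℝ)) ω with hβ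
  have hind : ∀ U : Submodule ℝ (EuclideanSpace ℝ (Fin d)),
      Integrable ((good k (1 - ε) U)ᶜ.indicator (fun _ => (1 : ℝ))) μ := fun U =>
    (integrable_const _).indicator (good_meas _ U).compl
  have hind2 : ∀ U : Submodule ℝ (EuclideanSpace ℝ (Fin d)), finrank ℝ U = finrank ℝ V →
      ∫ ω, (good k (1 - ε) U)ᶜ.indicator (fun _ => (1 : ℝ)) ω ∂μ ≤ ε ^ 2 := fun U hU => by
    rw [integral_indicator_const _ (good_meas _ U).compl, smul_eq_mul, mul_one]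
    exact (good_compl μ _ _ _ h U hU).trans hδ
  have hs : Integrable (fun ω => ∑ p ∈ I,
      (good k (1 - ε) (Hp V y p.1 p.2))ᶜ.indicator (fun _ => (1 : ℝ)) ω) μ :=
    integrable_finsetSum _ fun p _ => hind _
  have hβi : Integrable β μ := (hs.const_mul _).add (hind W)
  have hβE : ∫ ω, β ω ∂μ ≤ 111 * ε := by
    rw [hβ, integral_add (hs.const_mul _) (hind W), integral_const_mul,
      integral_finsetSum _ fun p _ => hind _]
    have h1 := Finset.sum_le_card_nsmul I _ _ fun p _ => hind2 _ (finrank_Hp V y hy p.1 p.2)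
    rw [nsmul_eq_mul, hI] at h1
    have h2 := mul_le_mul_of_nonneg_left h1 (show 0 ≤ 22 / (2 : ℝ) ^ finrank ℝ V by positivity)
    have h3 : 22 / (2 : ℝ) ^ finrank ℝ V * ((2 * N + 1) * 2 ^ finrank ℝ V * ε ^ 2) =
        22 * (2 * N + 1) * ε ^ 2 := by field_simp
    have h4 := hind2 W hW
    rw [h3] at h2
    nlinarith [mul_le_mul_of_nonneg_right hN2 hε.le]
  have hnn : ∀ (S : Set (Fin d → Fin k → ℝ)) ω, 0 ≤ S.indicator (fun _ => (1 : ℝ)) ω :=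
    fun S ω => Set.indicator_nonneg (fun _ _ => zero_le_one) ω
  have hs0 : ∀ ω, 0 ≤ 22 / 2 ^ finrank ℝ V *
      ∑ p ∈ I, (good k (1 - ε) (Hp V y p.1 p.2))ᶜ.indicator (fun _ => (1 : ℝ)) ω := fun ω =>
    mul_nonneg (by positivity) (Finset.sum_nonneg fun p _ => hnn _ _)
  have hβ0 : ∀ ω, 0 ≤ β ω := fun ω => add_nonneg (hs0 ω) (hnn _ _)
  have hgW : ∀ ω, β ω < 1 → (1 - ε) * ‖y‖ ^ 2 ≤ ‖TT ω y‖ ^ 2 := by
    intro ω hω
    by_contra hc
    have : ω ∈ (good k (1 - ε) W)ᶜ := fun hg => hc (hg y hyW)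
    have h2 := hs0 ω
    simp only [hβ, Set.indicator_of_mem this] at hω
    linarith
  obtain ⟨hTi, hTE⟩ := int_TT μ _ _ _ h y
  have hy2 : 0 ≤ (1 - ε) * ‖y‖ ^ 2 := mul_nonneg (by linarith) (by positivity)
  have hy3 : 0 ≤ ε * ‖y‖ ^ 2 := by positivity
  refine ⟨fun ω => (ε * ‖y‖ ^ 2 - 162 * ((1 - ε) * ‖y‖ ^ 2)) + (162 * ‖TT ω y‖ ^ 2 +
    162 * ((1 - ε) * ‖y‖ ^ 2) * β ω), (integrable_const _).add ((hTi.const_mul _).add
      (hβi.const_mul _)), fun ω => ?_, ?_, fun ω hω w hw hwy => ?_⟩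
  · rcases lt_or_ge (β ω) 1 with hb | hb
    · have := hgW ω hb
      nlinarith [mul_nonneg hy2 (hβ0 ω)]
    · nlinarith [mul_le_mul_of_nonneg_left hb hy2, sq_nonneg ‖TT ω y‖]
  · have hi2 : Integrable (fun ω => 162 * ‖TT ω y‖ ^ 2 + 162 * ((1 - ε) * ‖y‖ ^ 2) * β ω) μ :=
      (hTi.const_mul _).add (hβi.const_mul _)
    beta_reduce
    rw [integral_add (integrable_const _) hi2,
      integral_add (hTi.const_mul _) (hβi.const_mul _), integral_const_mul, integral_const_mul,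
      hTE, integral_const, probReal_univ, one_smul]
    nlinarith [mul_le_mul_of_nonneg_left hβE hy2, mul_nonneg hε.le hy3]
  · rcases lt_or_ge (β ω) 1 with hb | hb
    · have h1 := pt (TT ω) V ε hε hε2 hω y w hy hw hwy N hN1
        (I.filter fun p => ω ∈ (good k (1 - ε) (Hp V y p.1 p.2))ᶜ) (fun τ hτ s hs => by
          by_contra hc
          exact hs (Finset.mem_filter.2 ⟨Finset.mem_product.2 ⟨hτ, Finset.mem_univ _⟩, hc⟩))
        (by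
          have h2 : ∑ p ∈ I, (good k (1 - ε) (Hp V y p.1 p.2))ᶜ.indicator (fun _ => (1 : ℝ)) ω =
              ((I.filter fun p => ω ∈ (good k (1 - ε) (Hp V y p.1 p.2))ᶜ).card : ℝ) := by
            simp only [Set.indicator_apply, Finset.sum_boole]
          have h3 := hnn (good k (1 - ε) W)ᶜ ω
          simp only [hβ] at hb
          rw [h2] at hb
          generalize ((I.filter fun p => ω ∈ (good k (1 - ε) (Hp V y p.1 p.2))ᶜ).card : ℝ) = m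
            at hb ⊢
          rw [le_div_iff₀ (by norm_num)]
          have h4 := (div_le_one hp).1 (show (22 * m) / (2 : ℝ) ^ finrank ℝ V ≤ 1 by
            rw [← div_mul_eq_mul_div]; linarith)
          linarith) (hgW ω hb)
      nlinarith [mul_nonneg hy2 (hβ0 ω)]
    · have h0 := tw_le (TT ω) y w hwy
      have h1 := hω w hw
      nlinarith [mul_le_mul_of_nonneg_left hb hy2, sq_nonneg ‖TT ω y‖, sq_nonneg ‖w‖]

end Pool.Agent.H14.Osi
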