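import Pool.Agent.H14.Osi

set_option autoImplicit false
open MeasureTheory Module

namespace Pool.Agent.H14.Osi

lemma unif {T X : Type*} [Fintype T] [Nonempty T] [MeasurableSpace X] [MeasurableSingletonClass X]
    (f : T → X) : ∃ μ : Measure X, IsProbabilityMeasure μ ∧
      (∀ g : X → ℝ, ∫ x, g x ∂μ = (∑ t, g (f t)) / Fintype.card T) ∧
      ∀ S : Set X, μ.real S = (∑ t, S.indicator (fun _ => (1 : ℝ)) (f t)) / Fintype.card T := by
  classical
  have hc : (Fintype.card T : ENNReal) ≠ 0 := by simp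
  have hc' : (Fintype.card T : ENNReal)⁻¹ ≠ ⊤ := by simp
  refine ⟨(Fintype.card T : ENNReal)⁻¹ • ∑ t, Measure.dirac (f t), ⟨?_⟩, fun g => ?_, fun S => ?_⟩
  · simp [ENNReal.inv_mul_cancel hc]
  · rw [integral_smul_measure, integral_finsetSum_measure fun t _ => integrable_dirac (by simp)]
    simp [div_eq_inv_mul]
  · rw [measureReal_def, Measure.smul_apply, Measure.finsetSum_apply, smul_eq_mul,
      ENNReal.toReal_mul, ENNReal.toReal_sum fun t _ => measure_ne_top _ _, div_eq_inv_mul]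
    congr 1
    · simp
    · refine Finset.sum_congr rfl fun t _ => ?_
      by_cases h : f t ∈ S <;> simp [h]

lemma var {U : Type*} [Fintype U] (Y : U → ℝ) (hY : ∑ u, Y u = 0) (k : ℕ) :
    (∑ s : Fin k → U, ∑ c, Y (s c) = 0) ∧
    (Fintype.card U * ∑ s : Fin k → U, (∑ c, Y (s c)) ^ 2 =
      k * Fintype.card U ^ k * ∑ u, Y u ^ 2) := by
  induction k with
  | zero => simp
  | succ k ih =>
    obtain ⟨h1, h2⟩ := ih
    have key : ∀ f : ℝ → ℝ, ∑ s : Fin (k + 1) → U, f (∑ c, Y (s c)) =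
        ∑ u, ∑ s : Fin k → U, f (Y u + ∑ c, Y (s c)) := by
      intro f
      rw [← (Fin.consEquiv (fun _ : Fin (k + 1) => U)).sum_comp, Fintype.sum_prod_type]
      simp [Fin.consEquiv, Fin.sum_univ_succ]
    rw [key (fun x => x), key (fun x => x ^ 2)]
    simp only [add_sq, Finset.sum_add_distrib, ← Finset.mul_sum, h1, Finset.sum_const,
      Finset.card_univ, Fintype.card_fun, Fintype.card_fin, nsmul_eq_mul, hY, mul_zero, add_zero]
    push_cast
    refine ⟨trivial, ?_⟩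
    linear_combination (Fintype.card U : ℝ) * h2

lemma col {n : ℕ} (u : Fin n → ℝ) (i : Fin n) (a l : ℝ) (hl : 0 ≤ l)
    (h : u i ^ 2 ≤ l * ∑ i', u i' ^ 2) :
    a ^ 2 * (1 - l) ≤ ∑ i', ((if i' = i then a else 0) - u i') ^ 2 := by
  have h1 : ∑ i', ((if i' = i then a else 0) - u i') ^ 2 = a ^ 2 - 2 * a * u i + ∑ i', u i' ^ 2 := by
    simp [sub_sq, Finset.sum_add_distrib, Finset.sum_sub_distrib]
  have hS : 0 ≤ ∑ i', u i' ^ 2 := by positivity
  rw [h1]
  generalize ∑ i', u i' ^ 2 = S at *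
  have : 2 * a * u i ≤ a ^ 2 * l + S := by
    refine le_of_sq_le_sq ?_ (by positivity)
    nlinarith [mul_le_mul_of_nonneg_left h (sq_nonneg a), sq_nonneg (a ^ 2 * l - S)]
  linarith

lemma lev' {n k : ℕ} (N : Matrix (Fin n) (Fin k) ℝ) :
    ∃ l : Fin n → ℝ, (∀ i, 0 ≤ l i) ∧ (∀ i, l i ≤ 1) ∧ ∑ i, l i = N.rank ∧
      ∀ x : Fin k → ℝ, ∀ i, N.mulVec x i ^ 2 ≤ l i * ∑ i', N.mulVec x i' ^ 2 := by
  obtain ⟨l, h0, h1, h2, h3⟩ := lev (LinearMap.range (Matrix.toEuclideanLin N))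
  refine ⟨l, h0, h1, ?_, fun x i => h3 _ ⟨WithLp.toLp 2 x, rfl⟩ i⟩
  rw [h2, Matrix.rank_eq_finrank_range_toLin N
    (EuclideanSpace.basisFun (Fin n) ℝ).toBasis (EuclideanSpace.basisFun (Fin k) ℝ).toBasis,
    Matrix.toEuclideanLin_eq_toLin_orthonormal]

noncomputable def sk (d k : ℕ) (t : Fin 200 × (Fin k → Fin d → Bool)) : Fin d → Fin k → ℝ :=
  fun i c => if t.1 = 0 then 0 else Real.sqrt (200 / (199 * k)) * sg (t.2 c i)

lemma sk_sq (d k : ℕ) (t : Fin 200 × (Fin k → Fin d → Bool)) (x : Fin d → ℝ) :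
    ∑ c, (∑ i, sk d k t i c * x i) ^ 2 = (if t.1 = 0 then (0 : ℝ) else 200 / (199 * (k : ℝ))) *
      ∑ c, (∑ i, sg (t.2 c i) * x i) ^ 2 := by
  unfold sk
  split_ifs
  · simp
  · simp only [mul_assoc, ← Finset.mul_sum, mul_pow]
    rw [Real.sq_sqrt (by positivity)]

lemma sk_osi (d k : ℕ) (hk : 16000000 ≤ k) (ε : ℝ) (hε : 0 ≤ ε)
    (μ : Measure (Fin d → Fin k → ℝ)) [IsProbabilityMeasure μ]
    (h1 : ∀ g : (Fin d → Fin k → ℝ) → ℝ, ∫ x, g x ∂μ = (∑ t, g (sk d k t)) /
      Fintype.card (Fin 200 × (Fin k → Fin d → Bool)))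
    (h2 : ∀ S : Set (Fin d → Fin k → ℝ), μ.real S =
      (∑ t, S.indicator (fun _ => (1 : ℝ)) (sk d k t)) /
        Fintype.card (Fin 200 × (Fin k → Fin d → Bool))) : IsOSI μ 1 (1 - ε) (1 / 100) := by
  have hk' : (16000000 : ℝ) ≤ k := by exact_mod_cast hk
  have hU : (Fintype.card (Fin d → Bool) : ℝ) = 2 ^ d := by simp
  have hT : (Fintype.card (Fin 200 × (Fin k → Fin d → Bool)) : ℝ) = 200 * (2 ^ d) ^ k := by simp
  have hp : (0 : ℝ) < (2 ^ d) ^ k := by positivity
  have hp' : (0 : ℝ) < 2 ^ d := by positivity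
  have hS : ∀ g : (Fin k → Fin d → Bool) → ℝ, ∀ a b : ℝ,
      ∑ t : Fin 200 × (Fin k → Fin d → Bool), (if t.1 = 0 then a else b) * g t.2 =
        (a + 199 * b) * ∑ s, g s := by
    intro g a b
    rw [Fintype.sum_prod_type]
    rw [Fin.sum_univ_succ]
    simp [← Finset.mul_sum]
    ring
  have hv : ∀ x : Fin d → ℝ, ∑ u : Fin d → Bool, ((∑ i, sg (u i) * x i) ^ 2 - ∑ i, x i ^ 2) = 0 := by
    intro x
    simp [Finset.sum_sub_distrib, (mom d x).1]
  refine ⟨fun x => ?_, fun V hV => ?_⟩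
  · rw [h1, hT]
    simp only [sk_sq]
    rw [hS (fun s => ∑ c, (∑ i, sg (s c i) * x i) ^ 2)]
    have := (var _ (hv x) k).1
    simp only [Finset.sum_sub_distrib, Finset.sum_const, Finset.card_univ, Fintype.card_fin,
      nsmul_eq_mul, Fintype.card_fun, Fintype.card_bool] at this
    push_cast at this
    rw [sub_eq_zero.1 this]
    field_simp
    ring
  · obtain ⟨v, hv0, hvV⟩ := finrank_eq_one_iff'.1 hV
    set q := ∑ i, (v : EuclideanSpace ℝ (Fin d)) i ^ 2 with hq
    have hq0 : 0 < q := by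
      rw [hq, sum_sq_eq]
      have : (v : EuclideanSpace ℝ (Fin d)) ≠ 0 := fun h => hv0 (Subtype.ext h)
      positivity
    rw [ENNReal.ofReal_le_iff_le_toReal (measure_ne_top μ _), ← measureReal_def, h2, hT,
      le_div_iff₀ (by positivity)]
    set Y : (Fin d → Bool) → ℝ := fun u => (∑ i, sg (u i) * (v : EuclideanSpace ℝ (Fin d)) i) ^ 2 - q
    have hY2 : ∑ u, Y u ^ 2 ≤ 2 * 2 ^ d * q ^ 2 := by
      obtain ⟨m2, m4⟩ := mom d (v : EuclideanSpace ℝ (Fin d)).ofLp
      simp only [Y, sub_sq, Finset.sum_add_distrib, Finset.sum_sub_distrib, ← pow_mul,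
        ← Finset.sum_mul, ← Finset.mul_sum, m2, Finset.sum_const, Finset.card_univ, nsmul_eq_mul, hU]
      rw [← hq] at m4 ⊢
      norm_num
      linarith
    have hvar := (var Y (hv _) k).2
    rw [hU] at hvar
    have hvar2 : ∑ s : Fin k → Fin d → Bool, (∑ c, Y (s c)) ^ 2 ≤ 2 * k * (2 ^ d) ^ k * q ^ 2 := by
      refine le_of_mul_le_mul_left ?_ hp'
      rw [hvar]
      have := mul_le_mul_of_nonneg_left hY2 (show (0 : ℝ) ≤ k * (2 ^ d) ^ k by positivity)
      linarith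
    have hpt : ∀ t : Fin 200 × (Fin k → Fin d → Bool), (if t.1 = 0 then (0 : ℝ) else 1) *
        (1 - (∑ c, Y (t.2 c)) ^ 2 / (k / 200 * q) ^ 2) ≤
        {ω : Fin d → Fin k → ℝ | ∀ x ∈ V, (1 - ε) * ∑ i, x i ^ 2 ≤
          ∑ c, (∑ i, ω i c * x i) ^ 2}.indicator (fun _ => (1 : ℝ)) (sk d k t) := by
      intro t
      split_ifs with ht
      · rw [zero_mul]; exact Set.indicator_nonneg (fun _ _ => zero_le_one) _
      have hkq : 0 < k / 200 * q := by positivity
      by_cases hc : -(k / 200 * q) ≤ ∑ c, Y (t.2 c)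
      · rw [Set.indicator_of_mem]
        · have : 0 ≤ (∑ c, Y (t.2 c)) ^ 2 / (k / 200 * q) ^ 2 := by positivity
          linarith
        · intro x hx
          obtain ⟨a, ha⟩ := hvV ⟨x, hx⟩
          have hx' : ∀ i, x i = a * (v : EuclideanSpace ℝ (Fin d)) i := fun i => by
            have := congrArg (fun z : V => (z : EuclideanSpace ℝ (Fin d)) i) ha
            simpa using this.symm
          rw [sk_sq, if_neg ht]
          have e1 : ∑ i, x i ^ 2 = a ^ 2 * q := by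
            simp only [hx', mul_pow, hq, Finset.mul_sum]
          have e2 : ∑ c, (∑ i, sg (t.2 c i) * x i) ^ 2 = a ^ 2 * (∑ c, Y (t.2 c) + k * q) := by
            simp only [hx', Y, Finset.sum_sub_distrib, Finset.sum_const, Finset.card_univ,
              Fintype.card_fin, nsmul_eq_mul, sub_add_cancel, mul_left_comm _ a, ← Finset.mul_sum,
              mul_pow]
          rw [e1, e2]
          have e3 : q ≤ 200 / (199 * k) * (∑ c, Y (t.2 c) + k * q) := by
            rw [div_mul_eq_mul_div, le_div_iff₀ (by positivity)]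
            linarith
          nlinarith [mul_le_mul_of_nonneg_left e3 (sq_nonneg a),
            mul_nonneg hε (mul_nonneg (sq_nonneg a) hq0.le)]
      · refine le_trans ?_ (Set.indicator_nonneg (fun _ _ => zero_le_one) _)
        have : 1 ≤ (∑ c, Y (t.2 c)) ^ 2 / (k / 200 * q) ^ 2 := by
          rw [one_le_div (by positivity)]
          nlinarith [not_le.1 hc]
        linarith
    refine le_trans ?_ (Finset.sum_le_sum fun t _ => hpt t)
    rw [hS (fun s => 1 - (∑ c, Y (s c)) ^ 2 / (k / 200 * q) ^ 2), Finset.sum_sub_distrib,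
      ← Finset.sum_div]
    have e4 : (∑ s : Fin k → Fin d → Bool, (∑ c, Y (s c)) ^ 2) / (k / 200 * q) ^ 2 ≤
        (2 ^ d) ^ k / 200 := by
      rw [div_le_iff₀ (by positivity)]
      refine hvar2.trans ?_
      have : 0 ≤ (2 ^ d) ^ k * q ^ 2 * k * (k - 16000000 : ℝ) :=
        mul_nonneg (by positivity) (by linarith)
      nlinarith
    simp only [Finset.sum_const, Finset.card_univ, Fintype.card_fun, Fintype.card_fin,
      Fintype.card_bool, nsmul_eq_mul]
    push_cast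
    linarith

end Pool.Agent.H14.Osi
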