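import Mathlib

set_option autoImplicit false

namespace Pool.Agent.H14.PerfDef

/-- The perfect deficiency: run through the divisors of `n` in increasing order and subtract each
one from the current remainder whenever the remainder is at least that divisor. -/
def pd (n : ℕ) : ℕ :=
  (n.divisors.sort (· ≤ ·)).foldl (fun r d => if d ≤ r then r - d else r) n

def L : List ℕ :=
  [1, 3, 5, 7, 11, 15, 21, 33, 35, 55, 77, 105, 165, 231, 385, 547, 1155, 1291, 1641, 2735,
   3829, 3873, 6017, 6455, 8205, 9037, 11487, 14201, 18051, 19145, 19365, 27111, 30085, 42119,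
   42603, 45185, 57435, 71005, 90255, 99407, 126357, 135555, 210595, 213015, 298221, 497035,
   631785, 706177, 1491105, 2118531, 3530885, 4943239, 7767947, 10592655, 14829717, 23303841,
   24716195, 38839735, 54375629, 74148585, 116519205, 163126887, 271878145, 815634435]

open Pointwise in
lemma divs : Nat.divisors 815634435 = L.toFinset := by
  have e : 815634435 = 3 * 5 * 7 * 11 * 547 * 1291 := by norm_num
  rw [e, Nat.divisors_mul, Nat.divisors_mul, Nat.divisors_mul, Nat.divisors_mul, Nat.divisors_mul,
    (by norm_num : Nat.Prime 3).divisors, (by norm_num : Nat.Prime 5).divisors,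
    (by norm_num : Nat.Prime 7).divisors, (by norm_num : Nat.Prime 11).divisors,
    (by norm_num : Nat.Prime 547).divisors, (by norm_num : Nat.Prime 1291).divisors]
  decide +kernel

lemma pd_eq : pd 815634435 = 6 := by
  unfold pd
  rw [divs, (List.toFinset_sort (· ≤ ·) (by decide +kernel)).2 (by decide +kernel)]
  decide +kernel

end Pool.Agent.H14.PerfDef
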