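import Pool.Agent.H14.PiId

set_option autoImplicit false

namespace Pool.Agent.H14.PiId

lemma c5 : allN 25 25 P5 = true := by decide +kernel
lemma cA1 : cA 1 = true := by decide +kernel
lemma cA5 : cA 5 = true := by decide +kernel
lemma c4 : allN 0 25 (fun N => Nat.beq (t N) 0) = true := by decide +kernel
lemma c5e : allN 25 25 (fun N => Nat.beq (t N) (if N = 6055 then 2 else 0)) = true := by
  decide +kernel
lemma c60 : allN 125 25 P6 = true := by decide +kernel
lemma c61 : allN 150 25 P6 = true := by decide +kernel
lemma c62 : allN 175 25 P6 = true := by decide +kernel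
lemma c63 : allN 200 25 P6 = true := by decide +kernel
lemma c64 : allN 225 25 P6 = true := by decide +kernel

end Pool.Agent.H14.PiId
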