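import Pool.Agent.H14.PiId2

set_option autoImplicit false
set_option maxHeartbeats 400000

namespace Pool.Agent.H14.PiId

abbrev Wd := List (Fin 5)

lemma cod_app (u v : Wd) : cod (u ++ v) = code u + 5 ^ u.length * cod v := by
  induction u with
  | nil => simp [code]
  | cons x u ih => simp only [List.cons_append, cod, code, ih, List.length_cons]; ring

lemma code_lt (u : Wd) : code u < 5 ^ u.length := by
  induction u with
  | nil => simp [code]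
  | cons x u ih => simp only [code, List.length_cons, pow_succ]; omega

lemma cod_eq (u : Wd) : cod u = code u + 5 ^ u.length := by
  simpa [cod] using cod_app u []

lemma cod_mod (u v : Wd) : cod (u ++ v) % 5 ^ u.length = code u := by
  rw [cod_app, Nat.add_mul_mod_self_left, Nat.mod_eq_of_lt (code_lt u)]

lemma cod_div (u v : Wd) : cod (u ++ v) / 5 ^ u.length = cod v := by
  rw [cod_app, Nat.add_mul_div_left _ _ (by positivity), Nat.div_eq_of_lt (code_lt u), zero_add]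

lemma allN_spec {lo n : ℕ} {P : ℕ → Bool} (h : allN lo n P = true) (N : ℕ) (h1 : 125 * lo ≤ N)
    (h2 : N < 125 * (lo + n)) : P N = true := by
  simp only [allN, List.all_eq_true, List.mem_range, force_eq] at h
  have := h (N / 125 - lo) (by omega) (N % 125) (by omega)
  rwa [show 125 * (lo + (N / 125 - lo)) + N % 125 = N by omega] at this

lemma TB_lt : TB < 2 ^ 156250 := by decide +kernel

lemma z_long (w : Wd) (h : 7 ≤ w.length) : t (cod w) = 0 := by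
  have h1 : 5 ^ 7 ≤ 5 ^ w.length := Nat.pow_le_pow_right (by norm_num) h
  have h2 := cod_eq w
  have h3 : TB < 2 ^ (2 * cod w) :=
    TB_lt.trans_le (Nat.pow_le_pow_right (by norm_num) (by omega))
  change (TB >>> (2 * cod w)) % 4 = 0
  rw [Nat.shiftRight_eq_div_pow, Nat.div_eq_of_lt h3]

lemma z_short (w : Wd) (h : w.length ≤ 4) : t (cod w) = 0 := by
  have h1 : 5 ^ w.length ≤ 5 ^ 4 := Nat.pow_le_pow_right (by norm_num) h
  have h2 := cod_eq w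
  have h3 := code_lt w
  simpa using allN_spec c4 (cod w) (by omega) (by omega)

lemma z_five (w : Wd) (h : w.length = 5) : t (cod w) = if cod w = 6055 then 2 else 0 := by
  have h2 := cod_eq w
  have h3 := code_lt w
  rw [h] at h2 h3
  simpa using allN_spec c5e (cod w) (by omega) (by omega)

lemma ok_iff (a b c d e f : Fin 5) : ok a b c d e f = true ↔ ∀ i, i ∈ [a, b, c, d, e, f] := by
  simp only [ok, List.all_eq_true, Bool.or_eq_true, Nat.beq_eq, List.mem_cons, List.not_mem_nil,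
    or_false, Fin.ext_iff]
  constructor
  · intro h i
    have := h i (by omega)
    omega
  · intro h i hi
    have := h ⟨i, by omega⟩
    simp only at this
    omega

lemma m5 (a : Fin 5) : a.val ∈ [0, 1, 2, 3, 4] := by revert a; decide

lemma spec56 (w : Wd) (h : w.length = 5 ∨ w.length = 6) :
    ((∀ i, i ∈ w) → AL.testBit (cod w) = true) ∧ ((¬ ∀ i, i ∈ w) → t (cod w) = 0) := by
  rcases w with _ | ⟨a, _ | ⟨b, _ | ⟨c, _ | ⟨d, _ | ⟨e, _ | ⟨f, _ | ⟨g, w⟩⟩⟩⟩⟩⟩⟩ <;>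
    simp only [List.length_cons, List.length_nil] at h <;> try omega
  · have h1 := cA1
    simp only [cA, List.all_eq_true, force_eq] at h1
    have h2 := h1 a (m5 a) b (m5 b) c (m5 c) d (m5 d) e (m5 e) 0 (by simp)
    have h3 := ok_iff a b c d e e
    simp only [if_true] at h2
    constructor <;> intro h4
    · rw [h3.2 (by simpa using h4)] at h2; exact h2
    · have h6 : ok a b c d e e = false :=
        Bool.eq_false_iff.2 fun h5 => h4 (by simpa using h3.1 h5)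
      rw [h6] at h2
      exact Nat.eq_of_beq_eq_true h2
  · have h1 := cA5
    simp only [cA, List.all_eq_true, force_eq] at h1
    have h2 := h1 a (m5 a) b (m5 b) c (m5 c) d (m5 d) e (m5 e) f (by simp)
    have h3 := ok_iff a b c d e f
    simp only [show ¬ (5 = 1) by norm_num, if_false] at h2
    constructor <;> intro h4
    · rw [h3.2 h4] at h2; exact h2
    · rw [Bool.eq_false_iff.2 fun h5 => h4 (h3.1 h5)] at h2
      exact Nat.eq_of_beq_eq_true h2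

lemma z_miss (i : Fin 5) (w : Wd) (h : i ∉ w) : t (cod w) = 0 := by
  by_cases h1 : w.length ≤ 4
  · exact z_short w h1
  by_cases h2 : 7 ≤ w.length
  · exact z_long w h2
  exact (spec56 w (by omega)).2 fun h3 => h (h3 i)

lemma P6_all (w : Wd) (h : w.length = 6) : P6 (cod w) = true := by
  have h2 := cod_eq w
  have h3 := code_lt w
  rw [h] at h2 h3
  by_cases c0 : cod w < 125 * 150
  · exact allN_spec c60 _ (by omega) (by omega)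
  by_cases c1 : cod w < 125 * 175
  · exact allN_spec c61 _ (by omega) (by omega)
  by_cases c2 : cod w < 125 * 200
  · exact allN_spec c62 _ (by omega) (by omega)
  by_cases c3 : cod w < 125 * 225
  · exact allN_spec c63 _ (by omega) (by omega)
  · exact allN_spec c64 _ (by omega) (by omega)

lemma P5_all (w : Wd) (h : w.length = 5) : P5 (cod w) = true := by
  have h2 := cod_eq w
  have h3 := code_lt w
  rw [h] at h2 h3
  exact allN_spec c5 _ (by omega) (by omega)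

lemma len_succ {m : Wd} (h : m ≠ []) : ∃ j, j + 1 = m.length :=
  ⟨m.length - 1, by have := List.length_pos_iff.2 h; omega⟩

lemma chk4_spec {e : ℕ} {P : ℕ → ℕ → ℕ → ℕ → ℕ → ℕ → ℕ → ℕ → ℕ → ℕ → ℕ → Bool}
    (a m0 m1 m2 m3 b : Wd) (h0 : m0 ≠ []) (h1 : m1 ≠ []) (h2 : m2 ≠ []) (h3 : m3 ≠ [])
    (he : a.length + m0.length + m1.length + m2.length + m3.length ≤ e + 4)
    (h : chk4 e (cod (a ++ (m0 ++ (m1 ++ (m2 ++ (m3 ++ b)))))) P = true) :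
    P (code a) (5 ^ a.length) (code m0) (5 ^ m0.length) (code m1) (5 ^ m1.length)
      (code m2) (5 ^ m2.length) (code m3) (5 ^ m3.length) (cod b) = true := by
  obtain ⟨j0, e0⟩ := len_succ h0
  obtain ⟨j1, e1⟩ := len_succ h1
  obtain ⟨j2, e2⟩ := len_succ h2
  obtain ⟨j3, e3⟩ := len_succ h3
  simp only [chk4, List.all_eq_true, List.mem_range, force_eq] at h
  have := h a.length (by omega) j0 (by omega) j1 (by omega) j2 (by omega) j3 (by omega)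
  rw [e0, e1, e2, e3] at this
  simpa only [cod_mod, cod_div] using this

lemma chk5_spec {e : ℕ} {P : ℕ → ℕ → ℕ → ℕ → ℕ → ℕ → ℕ → ℕ → ℕ → ℕ → ℕ → ℕ → ℕ → Bool}
    (a m0 m1 m2 m3 m4 b : Wd) (h0 : m0 ≠ []) (h1 : m1 ≠ []) (h2 : m2 ≠ []) (h3 : m3 ≠ [])
    (h4 : m4 ≠ [])
    (he : a.length + m0.length + m1.length + m2.length + m3.length + m4.length ≤ e + 5)
    (h : chk5 e (cod (a ++ (m0 ++ (m1 ++ (m2 ++ (m3 ++ (m4 ++ b))))))) P = true) :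
    P (code a) (5 ^ a.length) (code m0) (5 ^ m0.length) (code m1) (5 ^ m1.length)
      (code m2) (5 ^ m2.length) (code m3) (5 ^ m3.length) (code m4) (5 ^ m4.length)
      (cod b) = true := by
  obtain ⟨j0, e0⟩ := len_succ h0
  obtain ⟨j1, e1⟩ := len_succ h1
  obtain ⟨j2, e2⟩ := len_succ h2
  obtain ⟨j3, e3⟩ := len_succ h3
  obtain ⟨j4, e4⟩ := len_succ h4
  simp only [chk5, List.all_eq_true, List.mem_range, force_eq] at h
  have := h a.length (by omega) j0 (by omega) j1 (by omega) j2 (by omega) j3 (by omega) j4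
    (by omega)
  rw [e0, e1, e2, e3, e4] at this
  simpa only [cod_mod, cod_div] using this

def lam (w : Wd) : ℕ := t (cod w)

def lE (a m0 m1 m2 m3 b : Wd) : List Wd :=
  [a ++ (m0 ++ (m1 ++ (m2 ++ (m3 ++ b)))),
    a ++ (m0 ++ (m2 ++ (m3 ++ (m1 ++ b)))),
    a ++ (m0 ++ (m3 ++ (m1 ++ (m2 ++ b)))),
    a ++ (m1 ++ (m0 ++ (m3 ++ (m2 ++ b)))),
    a ++ (m1 ++ (m2 ++ (m0 ++ (m3 ++ b)))),
    a ++ (m1 ++ (m3 ++ (m2 ++ (m0 ++ b)))),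
    a ++ (m2 ++ (m0 ++ (m1 ++ (m3 ++ b)))),
    a ++ (m2 ++ (m1 ++ (m3 ++ (m0 ++ b)))),
    a ++ (m2 ++ (m3 ++ (m0 ++ (m1 ++ b)))),
    a ++ (m3 ++ (m0 ++ (m2 ++ (m1 ++ b)))),
    a ++ (m3 ++ (m1 ++ (m0 ++ (m2 ++ b)))),
    a ++ (m3 ++ (m2 ++ (m1 ++ (m0 ++ b))))]

def lO (a m0 m1 m2 m3 b : Wd) : List Wd :=
  [a ++ (m0 ++ (m1 ++ (m3 ++ (m2 ++ b)))),
    a ++ (m0 ++ (m2 ++ (m1 ++ (m3 ++ b)))),
    a ++ (m0 ++ (m3 ++ (m2 ++ (m1 ++ b)))),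
    a ++ (m1 ++ (m0 ++ (m2 ++ (m3 ++ b)))),
    a ++ (m1 ++ (m2 ++ (m3 ++ (m0 ++ b)))),
    a ++ (m1 ++ (m3 ++ (m0 ++ (m2 ++ b)))),
    a ++ (m2 ++ (m0 ++ (m3 ++ (m1 ++ b)))),
    a ++ (m2 ++ (m1 ++ (m0 ++ (m3 ++ b)))),
    a ++ (m2 ++ (m3 ++ (m1 ++ (m0 ++ b)))),
    a ++ (m3 ++ (m0 ++ (m1 ++ (m2 ++ b)))),
    a ++ (m3 ++ (m1 ++ (m2 ++ (m0 ++ b)))),
    a ++ (m3 ++ (m2 ++ (m0 ++ (m1 ++ b))))]

def lH (a m0 m1 m2 m3 b : Wd) : List Wd :=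
  [a ++ (m0 ++ (m1 ++ (m0 ++ (m2 ++ (m3 ++ b))))),
    a ++ (m0 ++ (m1 ++ (m0 ++ (m3 ++ (m2 ++ b))))),
    a ++ (m0 ++ (m2 ++ (m0 ++ (m1 ++ (m3 ++ b))))),
    a ++ (m0 ++ (m2 ++ (m0 ++ (m3 ++ (m1 ++ b))))),
    a ++ (m0 ++ (m3 ++ (m0 ++ (m1 ++ (m2 ++ b))))),
    a ++ (m0 ++ (m3 ++ (m0 ++ (m2 ++ (m1 ++ b))))),
    a ++ (m1 ++ (m0 ++ (m1 ++ (m2 ++ (m3 ++ b))))),
    a ++ (m1 ++ (m0 ++ (m1 ++ (m3 ++ (m2 ++ b))))),
    a ++ (m1 ++ (m2 ++ (m1 ++ (m0 ++ (m3 ++ b))))),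
    a ++ (m1 ++ (m2 ++ (m1 ++ (m3 ++ (m0 ++ b))))),
    a ++ (m1 ++ (m3 ++ (m1 ++ (m0 ++ (m2 ++ b))))),
    a ++ (m1 ++ (m3 ++ (m1 ++ (m2 ++ (m0 ++ b))))),
    a ++ (m2 ++ (m0 ++ (m2 ++ (m1 ++ (m3 ++ b))))),
    a ++ (m2 ++ (m0 ++ (m2 ++ (m3 ++ (m1 ++ b))))),
    a ++ (m2 ++ (m1 ++ (m2 ++ (m0 ++ (m3 ++ b))))),
    a ++ (m2 ++ (m1 ++ (m2 ++ (m3 ++ (m0 ++ b))))),
    a ++ (m2 ++ (m3 ++ (m2 ++ (m0 ++ (m1 ++ b))))),
    a ++ (m2 ++ (m3 ++ (m2 ++ (m1 ++ (m0 ++ b))))),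
    a ++ (m3 ++ (m0 ++ (m3 ++ (m1 ++ (m2 ++ b))))),
    a ++ (m3 ++ (m0 ++ (m3 ++ (m2 ++ (m1 ++ b))))),
    a ++ (m3 ++ (m1 ++ (m3 ++ (m0 ++ (m2 ++ b))))),
    a ++ (m3 ++ (m1 ++ (m3 ++ (m2 ++ (m0 ++ b))))),
    a ++ (m3 ++ (m2 ++ (m3 ++ (m0 ++ (m1 ++ b))))),
    a ++ (m3 ++ (m2 ++ (m3 ++ (m1 ++ (m0 ++ b))))),
    a ++ (m0 ++ (m1 ++ (m2 ++ (m2 ++ (m3 ++ b))))),
    a ++ (m0 ++ (m1 ++ (m3 ++ (m3 ++ (m2 ++ b))))),
    a ++ (m0 ++ (m2 ++ (m1 ++ (m1 ++ (m3 ++ b))))),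
    a ++ (m0 ++ (m2 ++ (m3 ++ (m3 ++ (m1 ++ b))))),
    a ++ (m0 ++ (m3 ++ (m1 ++ (m1 ++ (m2 ++ b))))),
    a ++ (m0 ++ (m3 ++ (m2 ++ (m2 ++ (m1 ++ b))))),
    a ++ (m1 ++ (m0 ++ (m2 ++ (m2 ++ (m3 ++ b))))),
    a ++ (m1 ++ (m0 ++ (m3 ++ (m3 ++ (m2 ++ b))))),
    a ++ (m1 ++ (m2 ++ (m0 ++ (m0 ++ (m3 ++ b))))),
    a ++ (m1 ++ (m2 ++ (m3 ++ (m3 ++ (m0 ++ b))))),
    a ++ (m1 ++ (m3 ++ (m0 ++ (m0 ++ (m2 ++ b))))),
    a ++ (m1 ++ (m3 ++ (m2 ++ (m2 ++ (m0 ++ b))))),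
    a ++ (m2 ++ (m0 ++ (m1 ++ (m1 ++ (m3 ++ b))))),
    a ++ (m2 ++ (m0 ++ (m3 ++ (m3 ++ (m1 ++ b))))),
    a ++ (m2 ++ (m1 ++ (m0 ++ (m0 ++ (m3 ++ b))))),
    a ++ (m2 ++ (m1 ++ (m3 ++ (m3 ++ (m0 ++ b))))),
    a ++ (m2 ++ (m3 ++ (m0 ++ (m0 ++ (m1 ++ b))))),
    a ++ (m2 ++ (m3 ++ (m1 ++ (m1 ++ (m0 ++ b))))),
    a ++ (m3 ++ (m0 ++ (m1 ++ (m1 ++ (m2 ++ b))))),
    a ++ (m3 ++ (m0 ++ (m2 ++ (m2 ++ (m1 ++ b))))),
    a ++ (m3 ++ (m1 ++ (m0 ++ (m0 ++ (m2 ++ b))))),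
    a ++ (m3 ++ (m1 ++ (m2 ++ (m2 ++ (m0 ++ b))))),
    a ++ (m3 ++ (m2 ++ (m0 ++ (m0 ++ (m1 ++ b))))),
    a ++ (m3 ++ (m2 ++ (m1 ++ (m1 ++ (m0 ++ b))))),
    a ++ (m0 ++ (m1 ++ (m2 ++ (m3 ++ (m1 ++ b))))),
    a ++ (m0 ++ (m1 ++ (m3 ++ (m2 ++ (m1 ++ b))))),
    a ++ (m0 ++ (m2 ++ (m1 ++ (m3 ++ (m2 ++ b))))),
    a ++ (m0 ++ (m2 ++ (m3 ++ (m1 ++ (m2 ++ b))))),
    a ++ (m0 ++ (m3 ++ (m1 ++ (m2 ++ (m3 ++ b))))),
    a ++ (m0 ++ (m3 ++ (m2 ++ (m1 ++ (m3 ++ b))))),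
    a ++ (m1 ++ (m0 ++ (m2 ++ (m3 ++ (m0 ++ b))))),
    a ++ (m1 ++ (m0 ++ (m3 ++ (m2 ++ (m0 ++ b))))),
    a ++ (m1 ++ (m2 ++ (m0 ++ (m3 ++ (m2 ++ b))))),
    a ++ (m1 ++ (m2 ++ (m3 ++ (m0 ++ (m2 ++ b))))),
    a ++ (m1 ++ (m3 ++ (m0 ++ (m2 ++ (m3 ++ b))))),
    a ++ (m1 ++ (m3 ++ (m2 ++ (m0 ++ (m3 ++ b))))),
    a ++ (m2 ++ (m0 ++ (m1 ++ (m3 ++ (m0 ++ b))))),
    a ++ (m2 ++ (m0 ++ (m3 ++ (m1 ++ (m0 ++ b))))),
    a ++ (m2 ++ (m1 ++ (m0 ++ (m3 ++ (m1 ++ b))))),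
    a ++ (m2 ++ (m1 ++ (m3 ++ (m0 ++ (m1 ++ b))))),
    a ++ (m2 ++ (m3 ++ (m0 ++ (m1 ++ (m3 ++ b))))),
    a ++ (m2 ++ (m3 ++ (m1 ++ (m0 ++ (m3 ++ b))))),
    a ++ (m3 ++ (m0 ++ (m1 ++ (m2 ++ (m0 ++ b))))),
    a ++ (m3 ++ (m0 ++ (m2 ++ (m1 ++ (m0 ++ b))))),
    a ++ (m3 ++ (m1 ++ (m0 ++ (m2 ++ (m1 ++ b))))),
    a ++ (m3 ++ (m1 ++ (m2 ++ (m0 ++ (m1 ++ b))))),
    a ++ (m3 ++ (m2 ++ (m0 ++ (m1 ++ (m2 ++ b))))),
    a ++ (m3 ++ (m2 ++ (m1 ++ (m0 ++ (m2 ++ b)))))]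

def lL (a m0 m1 m2 m3 m4 b : Wd) : List Wd :=
  [a ++ (m4 ++ (m1 ++ (m0 ++ (m2 ++ (m3 ++ b))))),
    a ++ (m0 ++ (m1 ++ (m4 ++ (m2 ++ (m3 ++ b))))),
    a ++ (m4 ++ (m1 ++ (m0 ++ (m3 ++ (m2 ++ b))))),
    a ++ (m0 ++ (m1 ++ (m4 ++ (m3 ++ (m2 ++ b))))),
    a ++ (m4 ++ (m2 ++ (m0 ++ (m1 ++ (m3 ++ b))))),
    a ++ (m0 ++ (m2 ++ (m4 ++ (m1 ++ (m3 ++ b))))),
    a ++ (m4 ++ (m2 ++ (m0 ++ (m3 ++ (m1 ++ b))))),
    a ++ (m0 ++ (m2 ++ (m4 ++ (m3 ++ (m1 ++ b))))),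
    a ++ (m4 ++ (m3 ++ (m0 ++ (m1 ++ (m2 ++ b))))),
    a ++ (m0 ++ (m3 ++ (m4 ++ (m1 ++ (m2 ++ b))))),
    a ++ (m4 ++ (m3 ++ (m0 ++ (m2 ++ (m1 ++ b))))),
    a ++ (m0 ++ (m3 ++ (m4 ++ (m2 ++ (m1 ++ b))))),
    a ++ (m1 ++ (m2 ++ (m4 ++ (m0 ++ (m3 ++ b))))),
    a ++ (m1 ++ (m2 ++ (m0 ++ (m4 ++ (m3 ++ b))))),
    a ++ (m1 ++ (m3 ++ (m4 ++ (m0 ++ (m2 ++ b))))),
    a ++ (m1 ++ (m3 ++ (m0 ++ (m4 ++ (m2 ++ b))))),
    a ++ (m2 ++ (m1 ++ (m4 ++ (m0 ++ (m3 ++ b))))),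
    a ++ (m2 ++ (m1 ++ (m0 ++ (m4 ++ (m3 ++ b))))),
    a ++ (m2 ++ (m3 ++ (m4 ++ (m0 ++ (m1 ++ b))))),
    a ++ (m2 ++ (m3 ++ (m0 ++ (m4 ++ (m1 ++ b))))),
    a ++ (m3 ++ (m1 ++ (m4 ++ (m0 ++ (m2 ++ b))))),
    a ++ (m3 ++ (m1 ++ (m0 ++ (m4 ++ (m2 ++ b))))),
    a ++ (m3 ++ (m2 ++ (m4 ++ (m0 ++ (m1 ++ b))))),
    a ++ (m3 ++ (m2 ++ (m0 ++ (m4 ++ (m1 ++ b))))),
    a ++ (m1 ++ (m4 ++ (m2 ++ (m3 ++ (m0 ++ b))))),
    a ++ (m1 ++ (m0 ++ (m2 ++ (m3 ++ (m4 ++ b))))),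
    a ++ (m1 ++ (m4 ++ (m3 ++ (m2 ++ (m0 ++ b))))),
    a ++ (m1 ++ (m0 ++ (m3 ++ (m2 ++ (m4 ++ b))))),
    a ++ (m2 ++ (m4 ++ (m1 ++ (m3 ++ (m0 ++ b))))),
    a ++ (m2 ++ (m0 ++ (m1 ++ (m3 ++ (m4 ++ b))))),
    a ++ (m2 ++ (m4 ++ (m3 ++ (m1 ++ (m0 ++ b))))),
    a ++ (m2 ++ (m0 ++ (m3 ++ (m1 ++ (m4 ++ b))))),
    a ++ (m3 ++ (m4 ++ (m1 ++ (m2 ++ (m0 ++ b))))),
    a ++ (m3 ++ (m0 ++ (m1 ++ (m2 ++ (m4 ++ b))))),
    a ++ (m3 ++ (m4 ++ (m2 ++ (m1 ++ (m0 ++ b))))),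
    a ++ (m3 ++ (m0 ++ (m2 ++ (m1 ++ (m4 ++ b)))))]

def sl (l : List Wd) : ℕ := (l.map lam).sum

def rS (a m0 m1 m2 m3 b : Wd) : ℕ := sl (lE a m0 m1 m2 m3 b) + 3 * sl (lO a m0 m1 m2 m3 b)
def rH (a m0 m1 m2 m3 b : Wd) : ℕ := sl (lH a m0 m1 m2 m3 b)
def rL (a m0 m1 m2 m3 m4 b : Wd) : ℕ := sl (lL a m0 m1 m2 m3 m4 b)

lemma st_map (l : List Wd) : st (l.map cod) = sl l := by
  induction l with
  | nil => rfl
  | cons w l ih => rw [sl, List.map_cons, List.map_cons, List.sum_cons, ← sl, ← ih]; rfl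

lemma sl_zero (l : List Wd) (h : ∀ w ∈ l, lam w = 0) : sl l = 0 :=
  List.sum_eq_zero fun x hx => by
    obtain ⟨w, hw, rfl⟩ := List.mem_map.1 hx
    exact h w hw

attribute [local irreducible] t code cod

lemma rS_eq (a m0 m1 m2 m3 b : Wd) : rowS (code a) (5 ^ a.length) (code m0) (5 ^ m0.length) (code m1) (5 ^ m1.length)
      (code m2) (5 ^ m2.length) (code m3) (5 ^ m3.length) (cod b) = rS a m0 m1 m2 m3 b := by
  rw [rS, ← st_map, ← st_map]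
  simp only [lE, lO, List.map_cons, List.map_nil, cod_app]
  rfl

lemma rH_eq (a m0 m1 m2 m3 b : Wd) : rowH (code a) (5 ^ a.length) (code m0) (5 ^ m0.length) (code m1) (5 ^ m1.length)
      (code m2) (5 ^ m2.length) (code m3) (5 ^ m3.length) (cod b) = rH a m0 m1 m2 m3 b := by
  rw [rH, ← st_map]
  simp only [lH, List.map_cons, List.map_nil, cod_app]
  rfl

lemma rL_eq (a m0 m1 m2 m3 m4 b : Wd) : rowL (code a) (5 ^ a.length) (code m0) (5 ^ m0.length) (code m1) (5 ^ m1.length)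
      (code m2) (5 ^ m2.length) (code m3) (5 ^ m3.length) (code m4) (5 ^ m4.length) (cod b) = rL a m0 m1 m2 m3 m4 b := by
  rw [rL, ← st_map]
  simp only [lL, List.map_cons, List.map_nil, cod_app]
  rfl

lemma y_long (w : Wd) (h : 7 ≤ w.length) : lam w = 0 := z_long w h
lemma y_miss (i : Fin 5) (w : Wd) (h : i ∉ w) : lam w = 0 := z_miss i w h
lemma y_five (w : Wd) (h : w.length = 5) : lam w = if cod w = 6055 then 2 else 0 := z_five w h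

lemma lE_len (a m0 m1 m2 m3 b : Wd)  :
    ∀ w ∈ lE a m0 m1 m2 m3 b, a.length + m0.length + m1.length + m2.length + m3.length + b.length = w.length := by
  simp only [lE, List.forall_mem_cons, List.length_append]
  repeat' refine And.intro (by omega) ?_
  simp

lemma lE_mem (a m0 m1 m2 m3 b : Wd) (i : Fin 5)
    (hi : i ∉ a ++ (m0 ++ (m1 ++ (m2 ++ (m3 ++ b))))) :
    ∀ w ∈ lE a m0 m1 m2 m3 b, i ∉ w := by
  simp only [List.mem_append, not_or] at hi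
  simp only [lE, List.forall_mem_cons, List.mem_append, hi, or_self, not_false_eq_true, true_and]
  simp

lemma lO_len (a m0 m1 m2 m3 b : Wd)  :
    ∀ w ∈ lO a m0 m1 m2 m3 b, a.length + m0.length + m1.length + m2.length + m3.length + b.length = w.length := by
  simp only [lO, List.forall_mem_cons, List.length_append]
  repeat' refine And.intro (by omega) ?_
  simp

lemma lO_mem (a m0 m1 m2 m3 b : Wd) (i : Fin 5)
    (hi : i ∉ a ++ (m0 ++ (m1 ++ (m2 ++ (m3 ++ b))))) :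
    ∀ w ∈ lO a m0 m1 m2 m3 b, i ∉ w := by
  simp only [List.mem_append, not_or] at hi
  simp only [lO, List.forall_mem_cons, List.mem_append, hi, or_self, not_false_eq_true, true_and]
  simp

lemma lH_len (a m0 m1 m2 m3 b : Wd) (l0 : 0 < m0.length) (l1 : 0 < m1.length)
    (l2 : 0 < m2.length) (l3 : 0 < m3.length) :
    ∀ w ∈ lH a m0 m1 m2 m3 b, a.length + m0.length + m1.length + m2.length + m3.length + b.length < w.length := by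
  simp only [lH, List.forall_mem_cons, List.length_append]
  repeat' refine And.intro (by omega) ?_
  simp

lemma lH_mem (a m0 m1 m2 m3 b : Wd) (i : Fin 5)
    (hi : i ∉ a ++ (m0 ++ (m1 ++ (m2 ++ (m3 ++ b))))) :
    ∀ w ∈ lH a m0 m1 m2 m3 b, i ∉ w := by
  simp only [List.mem_append, not_or] at hi
  simp only [lH, List.forall_mem_cons, List.mem_append, hi, or_self, not_false_eq_true, true_and]
  simp

lemma lL_len (a m0 m1 m2 m3 m4 b : Wd)  :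
    ∀ w ∈ lL a m0 m1 m2 m3 m4 b, a.length + m0.length + m1.length + m2.length + m3.length + m4.length + b.length = w.length := by
  simp only [lL, List.forall_mem_cons, List.length_append]
  repeat' refine And.intro (by omega) ?_
  simp

lemma lL_mem (a m0 m1 m2 m3 m4 b : Wd) (i : Fin 5)
    (hi : i ∉ a ++ (m0 ++ (m1 ++ (m2 ++ (m3 ++ (m4 ++ b)))))) :
    ∀ w ∈ lL a m0 m1 m2 m3 m4 b, i ∉ w := by
  simp only [List.mem_append, not_or] at hi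
  simp only [lL, List.forall_mem_cons, List.mem_append, hi, or_self, not_false_eq_true, true_and]
  simp


attribute [local irreducible] lam rowS rowH rowL lE lO lH lL sl

lemma rowF (a m0 m1 m2 m3 b : Wd) (h0 : m0 ≠ []) (h1 : m1 ≠ []) (h2 : m2 ≠ []) (h3 : m3 ≠ []) :
    (rS a m0 m1 m2 m3 b + 2 * rH a m0 m1 m2 m3 b) % 4 = 0 := by
  have l0 := List.length_pos_iff.2 h0
  have l1 := List.length_pos_iff.2 h1
  have l2 := List.length_pos_iff.2 h2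
  have l3 := List.length_pos_iff.2 h3
  by_cases hm : ∀ i, i ∈ a ++ (m0 ++ (m1 ++ (m2 ++ (m3 ++ b))))
  swap
  · obtain ⟨i, hi⟩ := not_forall.1 hm
    rw [rS, rH, sl_zero _ fun w hw => y_miss i w (lE_mem _ _ _ _ _ _ i hi w hw),
      sl_zero _ fun w hw => y_miss i w (lO_mem _ _ _ _ _ _ i hi w hw),
      sl_zero _ fun w hw => y_miss i w (lH_mem _ _ _ _ _ _ i hi w hw)]
  have hl : (a ++ (m0 ++ (m1 ++ (m2 ++ (m3 ++ b))))).length =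
      a.length + m0.length + m1.length + m2.length + m3.length + b.length := by
    simp only [List.length_append]; omega
  have h5 : 5 ≤ (a ++ (m0 ++ (m1 ++ (m2 ++ (m3 ++ b))))).length := by
    refine le_trans ?_ (List.toFinset_card_le _)
    rw [Finset.eq_univ_of_forall fun i => List.mem_toFinset.2 (hm i)]; simp
  rcases h5.eq_or_lt with h6 | h6
  · have := P5_all _ h6.symm
    rw [P5, (spec56 _ (Or.inl h6.symm)).1 hm, Bool.not_true, Bool.false_or] at this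
    have h8 := chk4_spec a m0 m1 m2 m3 b h0 h1 h2 h3 (by omega) this
    rw [rS_eq, rH_eq] at h8
    exact Nat.eq_of_beq_eq_true h8
  have hH : rH a m0 m1 m2 m3 b = 0 := by
    refine sl_zero _ fun w hw => y_long w ?_
    have := lH_len _ _ _ _ _ _ l0 l1 l2 l3 w hw
    omega
  rw [hH, mul_zero, add_zero]
  rcases (Nat.succ_le_of_lt h6).eq_or_lt with h7 | h7
  · have := P6_all _ h7.symm
    rw [P6, (spec56 _ (Or.inr h7.symm)).1 hm, Bool.not_true, Bool.false_or,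
      Bool.and_eq_true] at this
    have h8 := chk4_spec a m0 m1 m2 m3 b h0 h1 h2 h3 (by omega) this.1
    rw [rS_eq] at h8
    exact Nat.eq_of_beq_eq_true h8
  · rw [rS, sl_zero _ fun w hw => y_long w (by have := lE_len _ _ _ _ _ _ w hw; omega),
      sl_zero _ fun w hw => y_long w (by have := lO_len _ _ _ _ _ _ w hw; omega)]

lemma rowL2 (a m0 m1 m2 m3 m4 b : Wd) (h0 : m0 ≠ []) (h1 : m1 ≠ []) (h2 : m2 ≠ []) (h3 : m3 ≠ [])
    (h4 : m4 ≠ []) : rL a m0 m1 m2 m3 m4 b % 2 = 0 := by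
  have l0 := List.length_pos_iff.2 h0
  have l1 := List.length_pos_iff.2 h1
  have l2 := List.length_pos_iff.2 h2
  have l3 := List.length_pos_iff.2 h3
  have l4 := List.length_pos_iff.2 h4
  by_cases hm : ∀ i, i ∈ a ++ (m0 ++ (m1 ++ (m2 ++ (m3 ++ (m4 ++ b)))))
  swap
  · obtain ⟨i, hi⟩ := not_forall.1 hm
    rw [rL, sl_zero _ fun w hw => y_miss i w (lL_mem _ _ _ _ _ _ _ i hi w hw)]
  have hl : (a ++ (m0 ++ (m1 ++ (m2 ++ (m3 ++ (m4 ++ b)))))).length =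
      a.length + m0.length + m1.length + m2.length + m3.length + m4.length + b.length := by
    simp only [List.length_append]; omega
  rcases (show 5 ≤ (a ++ (m0 ++ (m1 ++ (m2 ++ (m3 ++ (m4 ++ b)))))).length by omega).eq_or_lt
    with h6 | h6
  · have h7 : ∀ w : Wd, w.length = 5 → 2 ∣ lam w := fun w hw => by
      rw [y_five w hw]; split_ifs <;> simp
    refine Nat.mod_eq_zero_of_dvd ?_
    rw [rL, sl]
    refine List.dvd_sum fun x hx => ?_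
    obtain ⟨w, hw, rfl⟩ := List.mem_map.1 hx
    exact h7 w (by have := lL_len _ _ _ _ _ _ _ w hw; omega)
  rcases (Nat.succ_le_of_lt h6).eq_or_lt with h7 | h7
  · have := P6_all _ h7.symm
    rw [P6, (spec56 _ (Or.inr h7.symm)).1 hm, Bool.not_true, Bool.false_or,
      Bool.and_eq_true] at this
    have h8 := chk5_spec a m0 m1 m2 m3 m4 b h0 h1 h2 h3 h4 (by omega) this.2
    rw [rL_eq] at h8
    exact Nat.eq_of_beq_eq_true h8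
  · rw [rL, sl_zero _ fun w hw => y_long w (by have := lL_len _ _ _ _ _ _ _ w hw; omega)]

end Pool.Agent.H14.PiId
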