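import Pool.Agent.H14.PiId3

set_option autoImplicit false
set_option maxHeartbeats 800000

namespace Pool.Agent.H14.PiId

abbrev FF := MonoidAlgebra (ZMod 4) (FreeMonoid (Fin 5))

noncomputable def x (w : Wd) : FF := MonoidAlgebra.single (FreeMonoid.ofList w) 1

lemma x_app (u v : Wd) : x (u ++ v) = x u * x v := by
  simp [x, MonoidAlgebra.single_mul_single]

noncomputable def La : FF →ₗ[ZMod 4] ZMod 4 :=
  (MonoidAlgebra.basis (FreeMonoid (Fin 5)) (ZMod 4)).constr (ZMod 4)
    fun w => (lam w.toList : ZMod 4)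

lemma La_x (w : Wd) : La (x w) = lam w := by
  rw [x, ← MonoidAlgebra.basis_apply, La, Module.Basis.constr_basis]
  rfl

lemma La_sum (l : List Wd) : La (l.map x).sum = sl l := by
  induction l with
  | nil => simp [sl]
  | cons w l ih => simp only [sl, List.map_cons, List.sum_cons, map_add, La_x, Nat.cast_add] at *; rw [ih]

lemma eS (a m0 m1 m2 m3 b : Wd) : x a * Sf (x m0) (x m1) (x m2) (x m3) * x b =
    ((lE a m0 m1 m2 m3 b).map x).sum - ((lO a m0 m1 m2 m3 b).map x).sum := by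
  simp only [Sf, lE, lO, List.map_cons, List.map_nil, List.sum_cons, List.sum_nil, x_app, mul_add,
    add_mul, mul_sub, sub_mul, mul_assoc, add_assoc, add_zero]

lemma eH (a m0 m1 m2 m3 b : Wd) : x a * Hf (x m0) (x m1) (x m2) (x m3) * x b =
    ((lH a m0 m1 m2 m3 b).map x).sum := by
  simp only [Hf, lH, List.map_cons, List.map_nil, List.sum_cons, List.sum_nil, x_app, mul_add,
    add_mul, mul_assoc, add_assoc, add_zero]

lemma eL (a m0 m1 m2 m3 m4 b : Wd) : x a * Lf (x m0) (x m1) (x m2) (x m3) (x m4) * x b =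
    ((lL a m0 m1 m2 m3 m4 b).map x).sum := by
  simp only [Lf, lL, List.map_cons, List.map_nil, List.sum_cons, List.sum_nil, x_app, mul_add,
    add_mul, mul_assoc, add_assoc, add_zero]

lemma ker (z : FF) (h : ∀ a b : Wd, La (x a * z * x b) = 0) (a b : FF) : La (a * z * b) = 0 := by
  have hs : ∀ (w : FreeMonoid (Fin 5)) (c : ZMod 4),
      MonoidAlgebra.single w c = c • x w.toList := fun w c => by simp [x]
  induction a using MonoidAlgebra.induction_linear with
  | zero => simp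
  | add a a' h1 h2 => rw [add_mul, add_mul, map_add, h1, h2, add_zero]
  | single w c =>
    induction b using MonoidAlgebra.induction_linear with
    | zero => simp
    | add a a' h1 h2 => rw [mul_add, map_add, h1, h2, add_zero]
    | single w' c' =>
      rw [hs, hs, smul_mul_assoc, smul_mul_assoc, mul_smul_comm, map_smul, map_smul, h, smul_zero,
        smul_zero]

noncomputable def cc : RingCon FF where
  r y z := ∀ a b, La (a * y * b) = La (a * z * b)
  iseqv := ⟨fun _ _ _ => rfl, fun h a b => (h a b).symm, fun h h' a b => (h a b).trans (h' a b)⟩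
  mul' := fun {w x y z} h h' a b => by
    have h1 := h a (y * b)
    have h2 := h' (a * x) b
    simp only [mul_assoc] at *
    exact h1.trans h2
  add' := fun h h' a b => by simp only [mul_add, add_mul, map_add, h a b, h' a b]

abbrev QQ : Type := cc.Quotient

noncomputable def y (w : Wd) : QQ := cc.mk' (x w)

lemma mk_zero (z : FF) (h : ∀ a b : Wd, La (x a * z * x b) = 0) : cc.mk' z = 0 := by
  rw [← map_zero cc.mk']
  exact cc.eq.2 fun a b => by rw [ker z h]; simp

lemma four (q : QQ) : q + q + q + q = 0 := by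
  obtain ⟨z, rfl⟩ := cc.mk'_surjective q
  have : z + z + z + z = (4 : ZMod 4) • z := by
    rw [show (4 : ZMod 4) = 1 + 1 + 1 + 1 by norm_num]; simp only [add_smul, one_smul]
  rw [← map_add, ← map_add, ← map_add, this, show (4 : ZMod 4) = 0 from rfl, zero_smul, map_zero]

lemma yF (m0 m1 m2 m3 : Wd) (h0 : m0 ≠ []) (h1 : m1 ≠ []) (h2 : m2 ≠ []) (h3 : m3 ≠ []) :
    Sf (y m0) (y m1) (y m2) (y m3) =
      Hf (y m0) (y m1) (y m2) (y m3) + Hf (y m0) (y m1) (y m2) (y m3) := by
  have := mk_zero (Sf (x m0) (x m1) (x m2) (x m3) - (Hf (x m0) (x m1) (x m2) (x m3) +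
      Hf (x m0) (x m1) (x m2) (x m3))) fun a b => by
    have h := (ZMod.natCast_eq_zero_iff _ 4).2
      (Nat.dvd_of_mod_eq_zero (rowF a m0 m1 m2 m3 b h0 h1 h2 h3))
    rw [mul_sub, sub_mul, mul_add, add_mul, eS, eH, map_sub, map_sub, map_add, La_sum, La_sum,
      La_sum]
    rw [rS, rH] at h
    push_cast at h
    have h4 : (4 : ZMod 4) = 0 := rfl
    linear_combination h - (sl (lO a m0 m1 m2 m3 b) + sl (lH a m0 m1 m2 m3 b) : ZMod 4) * h4
  rw [map_sub, map_add, sub_eq_zero] at this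
  simpa only [y, Sf, Hf, map_add, map_sub, map_mul] using this

lemma yL (m0 m1 m2 m3 m4 : Wd) (h0 : m0 ≠ []) (h1 : m1 ≠ []) (h2 : m2 ≠ []) (h3 : m3 ≠ [])
    (h4 : m4 ≠ []) :
    Lf (y m0) (y m1) (y m2) (y m3) (y m4) + Lf (y m0) (y m1) (y m2) (y m3) (y m4) = 0 := by
  have := mk_zero (Lf (x m0) (x m1) (x m2) (x m3) (x m4) +
      Lf (x m0) (x m1) (x m2) (x m3) (x m4)) fun a b => by
    obtain ⟨k, hk⟩ := Nat.dvd_of_mod_eq_zero (rowL2 a m0 m1 m2 m3 m4 b h0 h1 h2 h3 h4)
    rw [mul_add, add_mul, eL, map_add, La_sum, ← rL, hk]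
    push_cast
    have h4 : (4 : ZMod 4) = 0 := rfl
    linear_combination (k : ZMod 4) * h4
  rw [map_add] at this
  simpa only [y, Lf, map_add, map_mul] using this

section gen
variable {A : Type} [Ring A]

lemma L0 (a a' b c d e : A) : Lf (a + a') b c d e = Lf a b c d e + Lf a' b c d e := by
  simp only [Lf, mul_add, add_mul]; abel
lemma L1 (a a' b c d e : A) : Lf b (a + a') c d e = Lf b a c d e + Lf b a' c d e := by
  simp only [Lf, mul_add, add_mul]; abel
lemma L2 (a a' b c d e : A) : Lf b c (a + a') d e = Lf b c a d e + Lf b c a' d e := by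
  simp only [Lf, mul_add, add_mul]; abel
lemma L3 (a a' b c d e : A) : Lf b c d (a + a') e = Lf b c d a e + Lf b c d a' e := by
  simp only [Lf, mul_add, add_mul]; abel
lemma L4 (a a' b c d e : A) : Lf b c d e (a + a') = Lf b c d e a + Lf b c d e a' := by
  simp only [Lf, mul_add, add_mul]; abel
lemma S0 (a a' b c d : A) : Sf (a + a') b c d = Sf a b c d + Sf a' b c d := by
  simp only [Sf, mul_add, add_mul]; abel
lemma H0 (a a' b c d : A) : Hf (a + a') b c d = Hf a b c d + Hf a' b c d + Lf a b c d a' := by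
  simp only [Hf, Lf, mul_add, add_mul]; abel
lemma Sr (a b c d : A) : Sf b c d a = -Sf a b c d := by
  simp only [Sf]; abel
lemma Hr (a b c d : A) : Hf b c d a = Hf a b c d := by
  simp only [Hf]; abel

lemma ind (S : Set A) (g : A → A) (hg : ∀ a a', g (a + a') = g a + g a')
    (h : ∀ a ∈ S, g a + g a = 0) : ∀ a ∈ AddSubmonoid.closure S, g a + g a = 0 := by
  intro a ha
  induction ha using AddSubmonoid.closure_induction with
  | mem a ha => exact h a ha
  | zero =>
    have := hg 0 0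
    rw [add_zero, left_eq_add] at this
    rw [this, add_zero]
  | add a a' _ _ h1 h2 => rw [hg, add_add_add_comm, h1, h2, add_zero]

lemma allLf (S : Set A)
    (h : ∀ a ∈ S, ∀ b ∈ S, ∀ c ∈ S, ∀ d ∈ S, ∀ e ∈ S, Lf a b c d e + Lf a b c d e = 0) :
    ∀ a ∈ AddSubmonoid.closure S, ∀ b ∈ AddSubmonoid.closure S, ∀ c ∈ AddSubmonoid.closure S,
    ∀ d ∈ AddSubmonoid.closure S, ∀ e ∈ AddSubmonoid.closure S,
      Lf a b c d e + Lf a b c d e = 0 := fun a ha b hb c hc d hd e he =>
  ind S (fun a => Lf a b c d e) (fun _ _ => L0 ..) (fun a ha =>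
    ind S (fun b => Lf a b c d e) (fun _ _ => L1 ..) (fun b hb =>
      ind S (fun c => Lf a b c d e) (fun _ _ => L2 ..) (fun c hc =>
        ind S (fun d => Lf a b c d e) (fun _ _ => L3 ..) (fun d hd =>
          ind S (fun e => Lf a b c d e) (fun _ _ => L4 ..) (fun e he =>
            h a ha b hb c hc d hd e he) e he) d hd) c hc) b hb) a ha

def Z (a b c d : A) : Prop := Sf a b c d = Hf a b c d + Hf a b c d

lemma Zr (h4 : ∀ q : A, q + q + q + q = 0) {a b c d : A} (h : Z a b c d) : Z b c d a := by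
  rw [Z, Sr, Hr, h, neg_eq_iff_add_eq_zero, ← add_assoc]
  exact h4 _

lemma Zi (S : Set A) (hL : ∀ a ∈ AddSubmonoid.closure S, ∀ b ∈ AddSubmonoid.closure S,
    ∀ c ∈ AddSubmonoid.closure S, ∀ d ∈ AddSubmonoid.closure S, ∀ e ∈ AddSubmonoid.closure S,
      Lf a b c d e + Lf a b c d e = 0) {b c d : A} (hb : b ∈ AddSubmonoid.closure S)
    (hc : c ∈ AddSubmonoid.closure S) (hd : d ∈ AddSubmonoid.closure S)
    (h : ∀ a ∈ S, Z a b c d) : ∀ a ∈ AddSubmonoid.closure S, Z a b c d := by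
  intro a ha
  induction ha using AddSubmonoid.closure_induction with
  | mem a ha => exact h a ha
  | zero => simp only [Z, Sf, Hf, mul_zero, zero_mul, add_zero, sub_zero]
  | add a a' ha ha' h1 h2 =>
    have h3 := hL a ha b hb c hc d hd a' ha'
    rw [Z, S0, H0, h1, h2, ← add_zero (_ + (_ + _)), ← h3]
    abel

lemma allZ (h4 : ∀ q : A, q + q + q + q = 0) (S : Set A)
    (hL : ∀ a ∈ S, ∀ b ∈ S, ∀ c ∈ S, ∀ d ∈ S, ∀ e ∈ S, Lf a b c d e + Lf a b c d e = 0)
    (h : ∀ a ∈ S, ∀ b ∈ S, ∀ c ∈ S, ∀ d ∈ S, Z a b c d) :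
    ∀ a ∈ AddSubmonoid.closure S, ∀ b ∈ AddSubmonoid.closure S, ∀ c ∈ AddSubmonoid.closure S,
    ∀ d ∈ AddSubmonoid.closure S, Z a b c d := by
  have hL' := allLf S hL
  have s := @AddSubmonoid.subset_closure _ _ S
  intro a ha b hb c hc d hd
  exact Zr h4 (Zi S hL' ha hb hc (fun d hd =>
    Zr h4 (Zi S hL' (s hd) ha hb (fun c hc =>
      Zr h4 (Zi S hL' (s hc) (s hd) ha (fun b hb =>
        Zr h4 (Zi S hL' (s hb) (s hc) (s hd) (fun a ha => h a ha b hb c hc d hd) a ha)) b hb))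
      c hc)) d hd)

end gen

noncomputable def RR : NonUnitalSubring QQ where
  toAddSubmonoid := AddSubmonoid.closure {q | ∃ w, w ≠ [] ∧ q = y w}
  neg_mem' := fun {q} h => by
    have : -q = q + q + q := neg_eq_of_add_eq_zero_left (four q)
    rw [this]
    exact AddSubmonoid.add_mem _ (AddSubmonoid.add_mem _ h h) h
  mul_mem' := fun {p q} hp hq => by
    have := AddSubmonoid.mul_mem_mul hp hq
    rw [AddSubmonoid.closure_mul_closure] at this
    refine AddSubmonoid.closure_mono ?_ this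
    rintro _ ⟨_, ⟨u, hu, rfl⟩, _, ⟨v, hv, rfl⟩, rfl⟩
    exact ⟨u ++ v, by simp [hu], by simp [y, x_app]⟩

lemma RR_Z (a b c d : RR) : Z (a : QQ) b c d :=
  allZ four _ (by
      rintro _ ⟨a, ha, rfl⟩ _ ⟨b, hb, rfl⟩ _ ⟨c, hc, rfl⟩ _ ⟨d, hd, rfl⟩ _ ⟨e, he, rfl⟩
      exact yL a b c d e ha hb hc hd he) (by
      rintro _ ⟨a, ha, rfl⟩ _ ⟨b, hb, rfl⟩ _ ⟨c, hc, rfl⟩ _ ⟨d, hd, rfl⟩
      exact yF a b c d ha hb hc hd) a a.2 b b.2 c c.2 d d.2

end Pool.Agent.H14.PiId
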