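import Mathlib

set_option autoImplicit false
set_option maxHeartbeats 400000

namespace Pool.Agent.H14.PowC

/-- commutative algebra with a skew form -/
structure Dat where
  S : Type
  [ag : AddCommGroup S]
  [md : Module ℚ S]
  m : S →ₗ[ℚ] S →ₗ[ℚ] S
  B : S →ₗ[ℚ] S →ₗ[ℚ] ℚ
  comm : ∀ a b, m a b = m b a
  anti : ∀ a b, B a b = - B b a

attribute [instance] Dat.ag Dat.md

def ev {X : Type} (D : Dat) (v : X → D.S) : FreeMagma X → D.S
  | .of i => v i
  | .mul x y => D.m (ev D v x) (ev D v y)

abbrev Tr := FreeMagma Unit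

def Low (D : Dat) (d : ℕ) : Prop :=
  ∀ (a : D.S) (u v : Tr), u.length + v.length < d → D.B (ev D (fun _ => a) u) (ev D (fun _ => a) v) = 0

def Bad (D : Dat) : Prop :=
  ∃ (a : D.S) (p q r s : Tr), D.B (ev D (fun _ => a) (.mul (.mul p q) (.mul r s))) a ≠ 0

def step (D : Dat) : Dat where
  S := D.S × ℚ × D.S × ℚ
  m := LinearMap.mk₂ ℚ (fun x y => (D.m x.1 y.1, 0, y.2.1 • x.1 + x.2.1 • y.1,
      D.B x.1 y.2.2.1 + D.B y.1 x.2.2.1))
    (by intro x y z; ext <;> simp [add_smul] <;> abel)
    (by intro c x y; ext <;> simp [smul_smul, mul_comm, mul_add])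
    (by intro x y z; ext <;> simp [add_smul] <;> abel)
    (by intro c x y; ext <;> simp [smul_smul, mul_comm, mul_add])
  B := LinearMap.mk₂ ℚ (fun x y => x.2.1 * y.2.2.2 - x.2.2.2 * y.2.1 + D.B x.2.2.1 y.2.2.1)
    (by intro x y z; simp; ring)
    (by intro c x y; simp; ring)
    (by intro x y z; simp; ring)
    (by intro c x y; simp; ring)
  comm := by
    intro a b
    simp only [LinearMap.mk₂_apply]
    rw [D.comm a.1 b.1, add_comm (b.2.1 • a.1), add_comm (D.B a.1 _)]
  anti := by
    intro a b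
    simp only [LinearMap.mk₂_apply]
    rw [D.anti a.2.2.1]; ring

lemma step_m (D : Dat) (x y : D.S × ℚ × D.S × ℚ) : (step D).m x y = (D.m x.1 y.1, 0, y.2.1 • x.1 + x.2.1 • y.1,
      D.B x.1 y.2.2.1 + D.B y.1 x.2.2.1) := rfl

lemma step_B (D : Dat) (x y : D.S × ℚ × D.S × ℚ) : (step D).B x y =
    x.2.1 * y.2.2.2 - x.2.2.2 * y.2.1 + D.B x.2.2.1 y.2.2.1 := rfl

/-- evaluation in the step algebra, typed as a product -/
def evs (D : Dat) (a : D.S × ℚ × D.S × ℚ) (u : Tr) : D.S × ℚ × D.S × ℚ := ev (step D) (fun _ => a) u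

lemma evs_of (D : Dat) (a : D.S × ℚ × D.S × ℚ) (i : Unit) : evs D a (.of i) = a := rfl

lemma evs_mul (D : Dat) (a : D.S × ℚ × D.S × ℚ) (x y : Tr) : evs D a (.mul x y) =
    (D.m (evs D a x).1 (evs D a y).1, 0, (evs D a y).2.1 • (evs D a x).1 + (evs D a x).2.1 • (evs D a y).1,
      D.B (evs D a x).1 (evs D a y).2.2.1 + D.B (evs D a y).1 (evs D a x).2.2.1) := rfl

lemma evs_fst (D : Dat) (a : D.S × ℚ × D.S × ℚ) (u : Tr) : (evs D a u).1 = ev D (fun _ => a.1) u := by
  induction u with
  | of i => rfl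
  | mul x y hx hy =>
    show (evs D a (.mul x y)).1 = ev D _ (.mul x y)
    rw [evs_mul, hx, hy]; rfl

lemma len_mul (x y : Tr) : (FreeMagma.mul x y).length = x.length + y.length := rfl
lemma len_of (i : Unit) : (FreeMagma.of i : Tr).length = 1 := rfl

lemma half (D : Dat) (d : ℕ) (h : Low D d) (a : D.S × ℚ × D.S × ℚ) (x y : Tr)
    (hl : x.length + y.length < d + 1) :
    a.2.1 * D.B (evs D a x).1 (evs D a y).2.2.1 + (evs D a y).2.1 * D.B a.2.2.1 (evs D a x).1 = 0 := by
  cases y with
  | of i => rw [evs_of, D.anti a.2.2.1]; ring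
  | mul p q =>
    have hp := p.length_pos
    have hq := q.length_pos
    rw [len_mul] at hl
    rw [evs_mul]
    simp only [map_add, map_smul, evs_fst]
    rw [h a.1 x p (by omega), h a.1 x q (by omega)]
    simp

lemma leaf (D : Dat) (d : ℕ) (h : Low D d) (a : D.S × ℚ × D.S × ℚ) (v : Tr) (hl : 1 + v.length < d + 2) :
    (step D).B a (evs D a v) = 0 := by
  cases v with
  | of i =>
    have := (step D).anti a a
    rw [evs_of]; linarith
  | mul x y =>
    rw [len_mul] at hl
    have h1 := half D d h a x y (by omega)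
    have h2 := half D d h a y x (by omega)
    rw [step_B, evs_mul]
    simp only [map_add, map_smul, smul_eq_mul]
    linarith

lemma low_step (D : Dat) (d : ℕ) (h : Low D d) : Low (step D) (d + 2) := by
  intro a u v hl
  change (step D).B (evs D a u) (evs D a v) = 0
  cases u with
  | of i => exact leaf D d h a v hl
  | mul x y =>
    cases v with
    | of i =>
      rw [(step D).anti, evs_of, leaf D d h a _ (by rw [len_of] at hl; omega), neg_zero]
    | mul p q =>
      have := x.length_pos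
      have := y.length_pos
      have := p.length_pos
      have := q.length_pos
      rw [len_mul, len_mul] at hl
      rw [step_B, evs_mul, evs_mul]
      simp only [map_add, map_smul, evs_fst, LinearMap.add_apply, LinearMap.smul_apply]
      rw [h _ x p (by omega), h _ x q (by omega), h _ y p (by omega), h _ y q (by omega)]
      simp

lemma bad_step (D : Dat) (h : Bad D) : Bad (step D) := by
  obtain ⟨a, p, q, r, s, h⟩ := h
  refine ⟨((a, 1, 0, 0) : D.S × ℚ × D.S × ℚ), .mul p q, .mul r s, .of (), .of (), ?_⟩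
  change (step D).B (evs D (a, 1, 0, 0) (.mul (.mul (.mul p q) (.mul r s)) (.mul (.of ()) (.of ()))))
    ((a, 1, 0, 0) : D.S × ℚ × D.S × ℚ) ≠ 0
  rw [step_B, evs_mul]
  simp only [evs_fst]
  rw [evs_mul D _ (.of ()), evs_mul D _ (.mul p q), evs_mul D _ p, evs_mul D _ r, evs_of]
  simp only [map_add, map_smul, zero_smul, add_zero, map_zero, one_smul, mul_zero, mul_one, zero_sub]
  intro h2
  apply h
  linarith

def base : Dat where
  S := ℚ × ℚ
  m := LinearMap.mk₂ ℚ (fun x y => (0, x.1 * y.1 + x.2 * y.2))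
    (by intro x y z; ext <;> simp; ring)
    (by intro c x y; ext <;> simp; ring)
    (by intro x y z; ext <;> simp; ring)
    (by intro c x y; ext <;> simp; ring)
  B := LinearMap.mk₂ ℚ (fun x y => x.1 * y.2 - x.2 * y.1)
    (by intro x y z; simp; ring)
    (by intro c x y; simp; ring)
    (by intro x y z; simp; ring)
    (by intro c x y; simp; ring)
  comm := by
    intro a b
    simp only [LinearMap.mk₂_apply]
    ext <;> simp; ring
  anti := by
    intro a b
    simp only [LinearMap.mk₂_apply]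
    ring

lemma exists_dat (k : ℕ) : ∃ D : Dat, Low D (2 * k) ∧ Bad D := by
  induction k with
  | zero =>
    refine ⟨base, fun a u v h => absurd h (by omega), ((1, 0) : ℚ × ℚ), .of (), .of (), .of (), .of (), ?_⟩
    show (0 : ℚ) * 0 - (0 * 0 + (1 * 1 + 0 * 0) * (1 * 1 + 0 * 0)) * 1 ≠ 0
    norm_num
  | succ k ih =>
    obtain ⟨D, h1, h2⟩ := ih
    exact ⟨step D, low_step D _ h1, bad_step D h2⟩

end Pool.Agent.H14.PowC
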