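import Pool.Agent.H14.PowC

set_option autoImplicit false
set_option maxHeartbeats 400000

namespace Pool.Agent.H14.PowC

def Ext (D : Dat) : Type := D.S × ℚ

instance (D : Dat) : AddCommGroup (Ext D) := inferInstanceAs (AddCommGroup (D.S × ℚ))
instance (D : Dat) : Module ℚ (Ext D) := inferInstanceAs (Module ℚ (D.S × ℚ))

def mu (D : Dat) : (D.S × ℚ) →ₗ[ℚ] (D.S × ℚ) →ₗ[ℚ] (D.S × ℚ) :=
  LinearMap.mk₂ ℚ (fun x y => (D.m x.1 y.1, D.B x.1 y.1))
    (by intro x y z; ext <;> simp)
    (by intro c x y; ext <;> simp)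
    (by intro x y z; ext <;> simp)
    (by intro c x y; ext <;> simp)

instance (D : Dat) : NonUnitalNonAssocRing (Ext D) where
  mul x y := mu D x y
  left_distrib x y z := (mu D x).map_add y z
  right_distrib x y z := by
    show mu D (x + y) z = mu D x z + mu D y z
    exact LinearMap.map_add₂ (mu D) x y z
  zero_mul x := LinearMap.map_zero₂ (mu D) x
  mul_zero x := (mu D x).map_zero

instance (D : Dat) : IsScalarTower ℚ (Ext D) (Ext D) where
  smul_assoc c x y := LinearMap.map_smul₂ (mu D) c x y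

instance (D : Dat) : SMulCommClass ℚ (Ext D) (Ext D) where
  smul_comm c x y := ((mu D x).map_smul c y).symm

def fs (D : Dat) : Ext D →ₗ[ℚ] D.S := LinearMap.fst ℚ D.S ℚ
def sn (D : Dat) : Ext D →ₗ[ℚ] ℚ := LinearMap.snd ℚ D.S ℚ

lemma fs_mul (D : Dat) (x y : Ext D) : fs D (x * y) = D.m (fs D x) (fs D y) := rfl
lemma sn_mul (D : Dat) (x y : Ext D) : sn D (x * y) = D.B (fs D x) (fs D y) := rfl
lemma ext' (D : Dat) {x y : Ext D} (h1 : fs D x = fs D y) (h2 : sn D x = sn D y) : x = y :=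
  Prod.ext h1 h2

def PC (A : Type) [NonUnitalNonAssocRing A] [Module ℚ A] [IsScalarTower ℚ A A] [SMulCommClass ℚ A A] : Prop :=
  ∀ x : A, ∀ a ∈ NonUnitalAlgebra.adjoin ℚ ({x} : Set A),
    ∀ b ∈ NonUnitalAlgebra.adjoin ℚ ({x} : Set A), a * b = b * a

lemma fs_lift {X : Type} (D : Dat) (v : X → Ext D) (w : FreeMagma X) :
    fs D (FreeMagma.lift v w) = ev D (fun i => fs D (v i)) w := by
  induction w using FreeMagma.rec with
  | of i => rfl
  | mul x y hx hy =>
    show fs D (FreeMagma.lift v x * FreeMagma.lift v y) = _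
    rw [fs_mul, hx, hy]; rfl

lemma pc_of (D : Dat) (h : ∀ d, Low D d) : PC (Ext D) := by
  intro x a ha b hb
  let P : Submodule ℚ D.S := Submodule.span ℚ (Set.range fun u : Tr => ev D (fun _ => fs D x) u)
  have bil : ∀ (N : Type) [AddCommGroup N] [Module ℚ N] (g : D.S →ₗ[ℚ] D.S →ₗ[ℚ] N) (Q : Submodule ℚ N),
      (∀ u v : Tr, g (ev D (fun _ => fs D x) u) (ev D (fun _ => fs D x) v) ∈ Q) →
      ∀ s ∈ P, ∀ t ∈ P, g s t ∈ Q := by
    intro N _ _ g Q hg s hs t ht
    have : Submodule.map₂ g P P ≤ Q := by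
      rw [Submodule.map₂_span_span, Submodule.span_le]
      rintro _ ⟨_, ⟨u, rfl⟩, _, ⟨v, rfl⟩, rfl⟩
      exact hg u v
    exact this (Submodule.apply_mem_map₂ g hs ht)
  have mem : ∀ c ∈ NonUnitalAlgebra.adjoin ℚ ({x} : Set (Ext D)), fs D c ∈ P := by
    intro c hc
    induction hc using NonUnitalAlgebra.adjoin_induction with
    | mem y hy =>
      rw [Set.mem_singleton_iff.mp hy]
      exact Submodule.subset_span ⟨.of (), rfl⟩
    | add y z _ _ h1 h2 => rw [map_add]; exact P.add_mem h1 h2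
    | zero => rw [map_zero]; exact P.zero_mem
    | mul y z _ _ h1 h2 =>
      rw [fs_mul]
      exact bil _ D.m P (fun u v => Submodule.subset_span ⟨.mul u v, rfl⟩) _ h1 _ h2
    | smul r y _ h1 => rw [map_smul]; exact P.smul_mem r h1
  have hz := bil ℚ D.B ⊥ (fun u v => by
    rw [Submodule.mem_bot]; exact h (u.length + v.length + 1) _ u v (by omega))
  refine ext' D ?_ ?_
  · rw [fs_mul, fs_mul, D.comm]
  · rw [sn_mul, sn_mul, (Submodule.mem_bot ℚ).mp (hz _ (mem a ha) _ (mem b hb)),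
      (Submodule.mem_bot ℚ).mp (hz _ (mem b hb) _ (mem a ha))]

lemma not_pc (D : Dat) (h : Bad D) : ¬ PC (Ext D) := by
  obtain ⟨a, p, q, r, s, h⟩ := h
  intro hp
  let x : Ext D := ((a, 0) : D.S × ℚ)
  have hx : x ∈ NonUnitalAlgebra.adjoin ℚ ({x} : Set (Ext D)) :=
    NonUnitalAlgebra.subset_adjoin ℚ (Set.mem_singleton x)
  have mem : ∀ u : Tr, FreeMagma.lift (fun _ => x) u ∈ NonUnitalAlgebra.adjoin ℚ ({x} : Set (Ext D)) := by
    intro u
    induction u with
    | of i => exact hx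
    | mul y z h1 h2 => exact mul_mem h1 h2
  have := congrArg (sn D) (hp x _ (mem (.mul (.mul p q) (.mul r s))) x hx)
  rw [sn_mul, sn_mul, fs_lift, D.anti (fs D x)] at this
  apply h
  change D.B (ev D (fun _ => a) _) a = - D.B (ev D (fun _ => a) _) a at this
  linarith

/-- bilinear maps on finitely supported sequences -/
noncomputable def bil {S N : Type} [AddCommGroup S] [Module ℚ S] [AddCommGroup N] [Module ℚ N]
    (g : ℕ → ℕ → S →ₗ[ℚ] S →ₗ[ℚ] N) : (ℕ →₀ S) →ₗ[ℚ] (ℕ →₀ S) →ₗ[ℚ] N :=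
  Finsupp.lsum ℚ fun i => (Finsupp.lsum ℚ fun j => (g i j).flip).flip

lemma bil_single {S N : Type} [AddCommGroup S] [Module ℚ S] [AddCommGroup N] [Module ℚ N]
    (g : ℕ → ℕ → S →ₗ[ℚ] S →ₗ[ℚ] N) (i j : ℕ) (a b : S) :
    bil g (Finsupp.single i a) (Finsupp.single j b) = g i j a b := by
  simp [bil]

lemma bil_ext {S N : Type} [AddCommGroup S] [Module ℚ S] [AddCommGroup N] [Module ℚ N]
    (f g : (ℕ →₀ S) →ₗ[ℚ] (ℕ →₀ S) →ₗ[ℚ] N)
    (h : ∀ i j a b, f (Finsupp.single i a) (Finsupp.single j b) = g (Finsupp.single i a) (Finsupp.single j b)) :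
    ∀ x y, f x y = g x y := by
  have : f = g := by
    refine Finsupp.lhom_ext fun i a => Finsupp.lhom_ext fun j b => h i j a b
  intro x y; rw [this]

noncomputable def pm (D : Dat) : (ℕ →₀ D.S) →ₗ[ℚ] (ℕ →₀ D.S) →ₗ[ℚ] (ℕ →₀ D.S) :=
  bil fun i j => D.m.compr₂ (Finsupp.lsingle (i + j + 1))

noncomputable def pB (D : Dat) : (ℕ →₀ D.S) →ₗ[ℚ] (ℕ →₀ D.S) →ₗ[ℚ] Polynomial ℚ :=
  bil fun i j => D.B.compr₂ (Polynomial.monomial (i + j + 2))

lemma pm_single (D : Dat) (i j : ℕ) (a b : D.S) :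
    pm D (Finsupp.single i a) (Finsupp.single j b) = Finsupp.single (i + j + 1) (D.m a b) := by
  simp [pm, bil_single]

lemma pB_single (D : Dat) (i j : ℕ) (a b : D.S) :
    pB D (Finsupp.single i a) (Finsupp.single j b) = Polynomial.monomial (i + j + 2) (D.B a b) := by
  simp [pB, bil_single]

noncomputable def tau (d : ℕ) : Polynomial ℚ →ₗ[ℚ] ℚ := ∑ i ∈ Finset.range (d + 1), Polynomial.lcoeff ℚ i

lemma tau_mono (d n : ℕ) (c : ℚ) : tau d (Polynomial.monomial n c) = if n ≤ d then c else 0 := by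
  simp [tau, LinearMap.sum_apply, Polynomial.coeff_monomial, Nat.lt_succ_iff]

noncomputable def tr (D : Dat) (d : ℕ) : Dat where
  S := ℕ →₀ D.S
  m := pm D
  B := (pB D).compr₂ (tau d)
  comm := by
    intro a b
    refine bil_ext (pm D) (pm D).flip (fun i j a b => ?_) a b
    rw [LinearMap.flip_apply, pm_single, pm_single, D.comm, add_comm i j]
  anti := by
    intro a b
    refine bil_ext ((pB D).compr₂ (tau d)) (-((pB D).compr₂ (tau d)).flip) (fun i j a b => ?_) a b
    simp only [LinearMap.neg_apply, LinearMap.flip_apply, LinearMap.compr₂_apply, pB_single, tau_mono]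
    rw [D.anti, add_comm i j]
    split_ifs <;> simp

noncomputable def E (D : Dat) (t : ℚ) : (ℕ →₀ D.S) →ₗ[ℚ] D.S :=
  Finsupp.lsum ℚ fun i => t ^ (i + 1) • LinearMap.id

lemma E_single (D : Dat) (t : ℚ) (i : ℕ) (a : D.S) : E D t (Finsupp.single i a) = t ^ (i + 1) • a := by
  simp [E]

lemma E_m (D : Dat) (t : ℚ) (x y : ℕ →₀ D.S) : E D t (pm D x y) = D.m (E D t x) (E D t y) := by
  refine bil_ext ((pm D).compr₂ (E D t)) (D.m.compl₁₂ (E D t) (E D t)) (fun i j a b => ?_) x y
  simp only [LinearMap.compr₂_apply, LinearMap.compl₁₂_apply, pm_single, E_single, map_smul,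
    LinearMap.smul_apply, smul_smul]
  congr 1; ring

lemma E_B (D : Dat) (t : ℚ) (x y : ℕ →₀ D.S) : (pB D x y).eval t = D.B (E D t x) (E D t y) := by
  refine bil_ext ((pB D).compr₂ (Polynomial.leval t)) (D.B.compl₁₂ (E D t) (E D t)) (fun i j a b => ?_) x y
  simp only [LinearMap.compr₂_apply, LinearMap.compl₁₂_apply, pB_single, E_single, map_smul,
    LinearMap.smul_apply, Polynomial.leval_apply, Polynomial.eval_monomial, smul_eq_mul]
  ring

noncomputable def Fil (D : Dat) (n : ℕ) : Submodule ℚ (ℕ →₀ D.S) :=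
  Submodule.span ℚ {x | ∃ i a, n ≤ i + 1 ∧ x = Finsupp.single i a}

lemma fil_bil (D : Dat) {N : Type} [AddCommGroup N] [Module ℚ N]
    (g : (ℕ →₀ D.S) →ₗ[ℚ] (ℕ →₀ D.S) →ₗ[ℚ] N) (Q : Submodule ℚ N) (n k : ℕ)
    (hg : ∀ i j a b, n ≤ i + 1 → k ≤ j + 1 → g (Finsupp.single i a) (Finsupp.single j b) ∈ Q)
    (s t : ℕ →₀ D.S) (hs : s ∈ Fil D n) (ht : t ∈ Fil D k) : g s t ∈ Q := by
  have : Submodule.map₂ g (Fil D n) (Fil D k) ≤ Q := by
    unfold Fil
    rw [Submodule.map₂_span_span, Submodule.span_le]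
    rintro _ ⟨_, ⟨i, a, hi, rfl⟩, _, ⟨j, b, hj, rfl⟩, rfl⟩
    exact hg i j a b hi hj
  exact this (Submodule.apply_mem_map₂ g hs ht)

lemma fil_one (D : Dat) (a : ℕ →₀ D.S) : a ∈ Fil D 1 := by
  induction a using Finsupp.induction_linear with
  | zero => exact Submodule.zero_mem _
  | add f g hf hg => exact Submodule.add_mem _ hf hg
  | single i b => exact Submodule.subset_span ⟨i, b, by omega, rfl⟩

lemma low_tr (D : Dat) (d : ℕ) (h : Low D (d + 1)) (e : ℕ) : Low (tr D d) e := by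
  intro a u v _
  have hE : ∀ (t : ℚ) (w : Tr), E D t (ev (tr D d) (fun _ => a) w) = ev D (fun _ => E D t a) w := by
    intro t w
    induction w with
    | of i => rfl
    | mul x y hx hy =>
      show E D t (pm D _ _) = D.m _ _
      rw [E_m, hx, hy]
  have hF : ∀ w : Tr, (ev (tr D d) (fun _ => a) w : ℕ →₀ D.S) ∈ Fil D w.length := by
    intro w
    induction w with
    | of i =>
      exact fil_one D a
    | mul x y hx hy =>
      refine fil_bil D (pm D) _ _ _ (fun i j a b hi hj => ?_) _ _ hx hy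
      rw [pm_single]
      exact Submodule.subset_span ⟨_, _, by rw [len_mul]; omega, rfl⟩
  show tau d (pB D _ _) = 0
  by_cases hl : u.length + v.length < d + 1
  · have : pB D (ev (tr D d) (fun _ => a) u) (ev (tr D d) (fun _ => a) v) = 0 := by
      refine Polynomial.funext fun t => ?_
      rw [E_B, hE, hE, h _ u v hl, Polynomial.eval_zero]
    rw [this, map_zero]
  · refine (Submodule.mem_bot ℚ).mp (fil_bil D ((pB D).compr₂ (tau d)) ⊥ _ _
      (fun i j a b hi hj => ?_) _ _ (hF u) (hF v))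
    rw [LinearMap.compr₂_apply, pB_single, tau_mono, if_neg (by omega)]
    exact Submodule.zero_mem _

def zer (D : Dat) : Dat where
  S := D.S
  m := D.m
  B := 0
  comm := D.comm
  anti := by intro a b; simp

lemma ev_zer (D : Dat) (v : ℕ → D.S) (w : FreeMagma ℕ) : ev D v w = ev (zer D) v w := by
  induction w using FreeMagma.rec with
  | of i => rfl
  | mul x y hx hy =>
    show D.m (ev D v x) (ev D v y) = D.m (ev (zer D) v x) (ev (zer D) v y)
    rw [hx, hy]

lemma lift_eq {A : Type} [NonUnitalNonAssocRing A] [Module ℚ A] [IsScalarTower ℚ A A] [SMulCommClass ℚ A A]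
    (v : ℕ → A) (f : MonoidAlgebra ℚ (FreeMagma ℕ)) :
    MonoidAlgebra.liftMagma ℚ (FreeMagma.lift v) f
      = ∑ w ∈ f.coeff.support, f.coeff w • FreeMagma.lift v w := by
  rw [MonoidAlgebra.liftMagma_apply_apply]
  rfl

lemma holds (D : Dat) (d : ℕ) (h : Low D (d + 1)) (f : MonoidAlgebra ℚ (FreeMagma ℕ))
    (hd : ∀ w ∈ f.coeff.support, w.length ≤ d)
    (hf : ∀ D' : Dat, PC (Ext D') → ∀ v : ℕ → Ext D', MonoidAlgebra.liftMagma ℚ (FreeMagma.lift v) f = 0)
    (v : ℕ → Ext D) : MonoidAlgebra.liftMagma ℚ (FreeMagma.lift v) f = 0 := by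
  refine ext' D ?_ ?_
  · have h1 := congrArg (fs (zer D)) (hf (zer D) (pc_of _ fun e a u w _ => rfl) v)
    rw [lift_eq, map_sum, map_zero] at h1 ⊢
    refine Eq.trans (Finset.sum_congr rfl fun w _ => ?_) h1
    rw [map_smul, map_smul, fs_lift, fs_lift]
    congr 1
    exact ev_zer D _ w
  · let v' : ℕ → Ext (tr D d) := fun i => ((Finsupp.single 0 (fs D (v i)), sn D (v i)) : (ℕ →₀ D.S) × ℚ)
    have h1 := congrArg (sn (tr D d)) (hf (tr D d) (pc_of _ (low_tr D d h)) v')
    rw [lift_eq, map_sum, map_zero] at h1 ⊢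
    refine Eq.trans (Finset.sum_congr rfl fun w hw => ?_) h1
    rw [map_smul, map_smul]
    congr 1
    have key : ∀ u : FreeMagma ℕ, (ev (tr D d) (fun i => fs (tr D d) (v' i)) u : ℕ →₀ D.S)
        = Finsupp.single (u.length - 1) (ev D (fun i => fs D (v i)) u) := by
      intro u
      induction u using FreeMagma.rec with
      | of i => rfl
      | mul x y hx hy =>
        show pm D _ _ = Finsupp.single (x.length + y.length - 1) (D.m _ _)
        rw [hx, hy, pm_single]
        have := x.length_pos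
        have := y.length_pos
        congr 1; omega
    have hw' := hd w hw
    cases w with
    | of i => rfl
    | mul x y =>
      show sn D (FreeMagma.lift v x * FreeMagma.lift v y)
        = sn (tr D d) (FreeMagma.lift v' x * FreeMagma.lift v' y)
      rw [sn_mul, sn_mul, fs_lift, fs_lift, fs_lift, fs_lift, key, key]
      show _ = tau d (pB D _ _)
      have := x.length_pos
      have := y.length_pos
      have e : (FreeMagma.mul x y).length = x.length + y.length := rfl
      rw [pB_single, tau_mono, if_pos (by omega)]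

theorem main (S : Set (MonoidAlgebra ℚ (FreeMagma ℕ))) (hS : S.Finite)
    (h : ∀ D : Dat, PC (Ext D) ↔ ∀ f ∈ S, ∀ v : ℕ → Ext D,
      MonoidAlgebra.liftMagma ℚ (FreeMagma.lift v) f = 0) : False := by
  classical
  let d : ℕ := hS.toFinset.sup fun f => f.coeff.support.sup FreeMagma.length
  obtain ⟨D, h1, h2⟩ := exists_dat (d + 1)
  refine not_pc D h2 ((h D).mpr fun f hf v => ?_)
  refine holds D d (fun a u w hl => h1 a u w (by omega)) f (fun w hw => ?_)
    (fun D' hD' => (h D').mp hD' f hf) v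
  exact le_trans (Finset.le_sup (f := FreeMagma.length) hw)
    (Finset.le_sup (f := fun f : MonoidAlgebra ℚ (FreeMagma ℕ) => f.coeff.support.sup FreeMagma.length)
      (hS.mem_toFinset.mpr hf))

end Pool.Agent.H14.PowC
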