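import Mathlib

set_option autoImplicit false

namespace Pool.Agent.H14.Skew

open Function

section general
variable {A : Type} [Ring A]

/-- `A` with the action of `ℕ` through powers of `σ`. -/
def Tw (_σ : A →+* A) : Type := A

instance (σ : A →+* A) : Ring (Tw σ) := inferInstanceAs (Ring A)

instance (σ : A →+* A) : MulSemiringAction (Multiplicative ℕ) (Tw σ) where
  smul n a := ((σ ^ n.toAdd : A →+* A) (a : A) : A)
  one_smul a := by
    change ((σ ^ 0 : A →+* A) (a : A) : A) = a
    simp
  mul_smul m n a := by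
    change ((σ ^ (m.toAdd + n.toAdd) : A →+* A) (a : A) : A) =
      (σ ^ m.toAdd : A →+* A) ((σ ^ n.toAdd : A →+* A) (a : A))
    rw [pow_add]; rfl
  smul_zero n := map_zero (σ ^ n.toAdd : A →+* A)
  smul_add n a b := map_add (σ ^ n.toAdd : A →+* A) a b
  smul_one n := map_one (σ ^ n.toAdd : A →+* A)
  smul_mul n a b := map_mul (σ ^ n.toAdd : A →+* A) a b

/-- Skew polynomials `A[x;σ]`, coefficients on the left, `x a = σ(a) x`. -/
def SP (σ : A →+* A) : Type := SkewPolynomial (Tw σ)

noncomputable instance (σ : A →+* A) : Ring (SP σ) := inferInstanceAs (Ring (SkewPolynomial (Tw σ)))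

variable {σ : A →+* A}

noncomputable def mono (σ : A →+* A) (n : ℕ) : A →+ SP σ where
  toFun a := SkewPolynomial.monomial (R := Tw σ) n a
  map_zero' := map_zero (SkewPolynomial.monomial (R := Tw σ) n)
  map_add' a b := map_add (SkewPolynomial.monomial (R := Tw σ) n) a b

noncomputable def co (σ : A →+* A) (n : ℕ) : SP σ →+ A where
  toFun p := SkewPolynomial.coeff (R := Tw σ) p n
  map_zero' := rfl
  map_add' p q := SkewPolynomial.coeff_add (R := Tw σ) p q n

lemma co_mono (n m : ℕ) (a : A) : co σ m (mono σ n a) = if n = m then a else 0 :=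
  SkewPolynomial.coeff_monomial (R := Tw σ)

lemma mono_mul (n m : ℕ) (a b : A) :
    mono σ n a * mono σ m b = mono σ (n + m) (a * (σ ^ n) b) :=
  SkewMonoidAlgebra.single_mul_single (k := Tw σ) (G := Multiplicative ℕ)

lemma one_eq : (1 : SP σ) = mono σ 0 1 := rfl

lemma ext {p q : SP σ} (h : ∀ n, co σ n p = co σ n q) : p = q :=
  SkewPolynomial.ext (R := Tw σ) h

lemma ind {P : SP σ → Prop} (h0 : P 0) (hm : ∀ n a, P (mono σ n a))
    (ha : ∀ p q, P p → P q → P (p + q)) (p : SP σ) : P p :=
  SkewPolynomial.induction (R := Tw σ) (motive := P) p h0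
    (fun n r _ _ _ hq => ha _ _ (hm n r) hq)

lemma bdd (p : SP σ) : ∃ N, ∀ n, N ≤ n → co σ n p = 0 := by
  induction p using ind with
  | h0 => exact ⟨0, fun n _ => map_zero _⟩
  | hm n a => exact ⟨n + 1, fun m hm => by rw [co_mono, if_neg (by omega)]⟩
  | ha p q hp hq =>
    obtain ⟨N, hN⟩ := hp
    obtain ⟨M, hM⟩ := hq
    exact ⟨max N M, fun n hn => by
      rw [map_add, hN n (le_trans (le_max_left _ _) hn), hM n (le_trans (le_max_right _ _) hn),
        add_zero]⟩

lemma co_mul (p q : SP σ) (n : ℕ) :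
    co σ n (p * q) = ∑ ij ∈ Finset.HasAntidiagonal.antidiagonal n, co σ ij.1 p * (σ ^ ij.1) (co σ ij.2 q) := by
  induction p using ind with
  | h0 => simp
  | ha p p' hp hp' => simp only [add_mul, map_add, hp, hp', Finset.sum_add_distrib]
  | hm i a =>
    induction q using ind with
    | h0 => simp
    | ha q q' hq hq' => simp only [mul_add, map_add, hq, hq', Finset.sum_add_distrib]
    | hm j b =>
      rw [mono_mul, co_mono]
      split_ifs with h
      · rw [Finset.sum_eq_single (i, j)]
        · simp [co_mono]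
        · rintro ⟨u, v⟩ _ hne
          simp only [co_mono]
          by_cases h1 : i = u
          · have h2 : j ≠ v := fun h2 => hne (by rw [h1, h2])
            simp [h2]
          · simp [h1]
        · intro hn
          exact absurd (Finset.HasAntidiagonal.mem_antidiagonal.2 h) hn
      · symm
        apply Finset.sum_eq_zero
        rintro ⟨u, v⟩ huv
        simp only [co_mono]
        have := Finset.HasAntidiagonal.mem_antidiagonal.1 huv
        by_cases h1 : i = u
        · have h2 : j ≠ v := fun h2 => h (by rw [h1, h2]; exact this)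
          simp [h2]
        · simp [h1]

lemma co_mul_zero (p q : SP σ) : co σ 0 (p * q) = co σ 0 p * co σ 0 q := by
  simp [co_mul]

lemma co_mul_one (p q : SP σ) :
    co σ 1 (p * q) = co σ 0 p * co σ 1 q + co σ 1 p * σ (co σ 0 q) := by
  simp [co_mul, Finset.Nat.antidiagonal_succ]

/-- coefficient of `mono k a * q`. -/
lemma co_mono_mul (k : ℕ) (a : A) (q : SP σ) (n : ℕ) :
    co σ (k + n) (mono σ k a * q) = a * (σ ^ k) (co σ n q) := by
  rw [co_mul, Finset.sum_eq_single (k, n)]
  · simp [co_mono]
  · rintro ⟨u, v⟩ huv hne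
    have := Finset.HasAntidiagonal.mem_antidiagonal.1 huv
    have h1 : k ≠ u := fun h1 => hne (by simp only at this; rw [← h1] at this ⊢; simp; omega)
    simp [co_mono, h1]
  · intro hn
    exact absurd (by simp) hn

lemma exists_top {p : SP σ} (hp : p ≠ 0) :
    ∃ n, co σ n p ≠ 0 ∧ ∀ m, n < m → co σ m p = 0 := by
  classical
  have h := bdd p
  have h0 : Nat.find h ≠ 0 := by
    intro h0
    have := Nat.find_spec h
    rw [h0] at this
    exact hp (ext fun n => by rw [this n (Nat.zero_le _), map_zero])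
  obtain ⟨n, hn⟩ := Nat.exists_eq_succ_of_ne_zero h0
  have h1 := Nat.find_spec h
  rw [hn] at h1
  refine ⟨n, fun h2 => ?_, fun m hm => h1 m hm⟩
  have h3 := Nat.find_min h (m := n) (by omega)
  apply h3
  intro m hm
  rcases Nat.eq_or_lt_of_le hm with rfl | hm
  · exact h2
  · exact h1 m hm

lemma co_mul_top {p q : SP σ} {n m : ℕ} (hp : ∀ k, n < k → co σ k p = 0)
    (hq : ∀ k, m < k → co σ k q = 0) :
    co σ (n + m) (p * q) = co σ n p * (σ ^ n) (co σ m q) := by
  rw [co_mul, Finset.sum_eq_single (n, m)]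
  · rintro ⟨u, v⟩ huv hne
    have := Finset.HasAntidiagonal.mem_antidiagonal.1 huv
    simp only at this ⊢
    rcases lt_trichotomy n u with h | h | h
    · rw [hp u h, zero_mul]
    · exact absurd (by rw [← h] at this ⊢; simp; omega) hne
    · rw [hq v (by omega), map_zero, mul_zero]
  · intro hn
    exact absurd (by simp) hn

lemma pow_inj (hσ : Injective σ) (n : ℕ) : Injective (σ ^ n : A →+* A) := by
  induction n with
  | zero => intro a b h; simpa using h
  | succ n ih => rw [pow_succ]; exact ih.comp hσ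

lemma nontrivial [Nontrivial A] : Nontrivial (SP σ) :=
  ⟨⟨1, 0, fun h => by
    have := congrArg (co σ 0) h
    rw [one_eq, co_mono] at this
    simp at this⟩⟩

lemma noZeroDivisors [NoZeroDivisors A] (hσ : Injective σ) : NoZeroDivisors (SP σ) :=
  ⟨fun {p q} h => by
    by_contra hc
    push Not at hc
    obtain ⟨n, hn, hn'⟩ := exists_top hc.1
    obtain ⟨m, hm, hm'⟩ := exists_top hc.2
    have := co_mul_top hn' hm'
    rw [h, map_zero] at this
    rcases mul_eq_zero.1 this.symm with h1 | h1
    · exact hn h1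
    · exact hm (pow_inj hσ n (by rw [h1, map_zero]))⟩

lemma pow_unit (hu : ∀ a, a ≠ 0 → IsUnit (σ a)) [Nontrivial A] {a : A} (ha : a ≠ 0) (n : ℕ) :
    IsUnit ((σ ^ (n + 1)) a) := by
  rw [pow_succ]
  exact (hu a ha).map (σ ^ n : A →+* A)

/-- Jategaonkar's lemma: `A[x;σ]` is a principal left ideal ring when `A` is and `σ` sends
nonzero elements to units. -/
lemma pli [Nontrivial A] [IsPrincipalIdealRing A] (hu : ∀ a, a ≠ 0 → IsUnit (σ a)) :
    IsPrincipalIdealRing (SP σ) := by
  classical
  refine ⟨fun I => ?_⟩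
  by_cases hI : ∀ p ∈ I, p = 0
  · refine ⟨⟨0, ?_⟩⟩
    ext p
    simp only [Ideal.submodule_span_eq, Ideal.span_singleton_zero, Ideal.mem_bot]
    exact ⟨hI p, fun h => h ▸ I.zero_mem⟩
  have hex : ∃ n, ∃ p ∈ I, p ≠ 0 ∧ ∀ m, n < m → co σ m p = 0 := by
    push Not at hI
    obtain ⟨p, hp, hp0⟩ := hI
    obtain ⟨n, -, hn⟩ := exists_top hp0
    exact ⟨n, p, hp, hp0, hn⟩
  set n := Nat.find hex with hn
  -- elements of `I` vanishing from `n` on are zero
  have hmin : ∀ p ∈ I, (∀ m, n ≤ m → co σ m p = 0) → p = 0 := by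
    intro p hp h
    by_contra hp0
    obtain ⟨k, hk, hk'⟩ := exists_top hp0
    have h1 : k < n := by
      by_contra h1
      exact hk (h k (by omega))
    exact Nat.find_min hex h1 ⟨p, hp, hp0, hk'⟩
  let L : Ideal A :=
    { carrier := {a | ∃ p ∈ I, (∀ m, n < m → co σ m p = 0) ∧ co σ n p = a}
      add_mem' := by
        rintro a b ⟨p, hp, hp1, rfl⟩ ⟨q, hq, hq1, rfl⟩
        exact ⟨p + q, I.add_mem hp hq, fun m hm => by rw [map_add, hp1 m hm, hq1 m hm, add_zero],
          map_add _ _ _⟩
      zero_mem' := ⟨0, I.zero_mem, fun m _ => map_zero _, map_zero _⟩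
      smul_mem' := by
        rintro c a ⟨p, hp, hp1, rfl⟩
        refine ⟨mono σ 0 c * p, I.mul_mem_left _ hp, fun m hm => ?_, ?_⟩
        · have := co_mono_mul (σ := σ) 0 c p m
          rw [zero_add] at this
          rw [this, hp1 m hm, map_zero, mul_zero]
        · have := co_mono_mul (σ := σ) 0 c p n
          rw [zero_add] at this
          rw [this]; simp }
  obtain ⟨c, hc⟩ := (IsPrincipalIdealRing.principal L).principal
  have hcL : c ∈ L := by rw [hc]; exact Submodule.mem_span_singleton_self c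
  obtain ⟨f, hf, hf1, hfc⟩ := hcL
  have hc0 : c ≠ 0 := by
    intro h0
    obtain ⟨p, hp, hp0, hp1⟩ := Nat.find_spec hex
    have h1 : co σ n p ∈ L := ⟨p, hp, hp1, rfl⟩
    rw [hc, h0, Submodule.mem_span_singleton] at h1
    obtain ⟨a, ha⟩ := h1
    apply hp0
    apply hmin p hp
    intro m hm
    rcases Nat.eq_or_lt_of_le hm with h | h
    · rw [← h, ← ha]; simp
    · exact hp1 m h
  refine ⟨⟨f, le_antisymm ?_ ?_⟩⟩
  swap
  · rw [Submodule.span_singleton_le_iff_mem]; exact hf
  have key : ∀ k, ∀ p ∈ I, (∀ m, n + k ≤ m → co σ m p = 0) →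
      p ∈ Submodule.span (SP σ) {f} := by
    intro k
    induction k with
    | zero =>
      intro p hp h
      rw [hmin p hp h]; exact Submodule.zero_mem _
    | succ k ih =>
      intro p hp h
      have : ∃ a, a * (σ ^ k) c = co σ (n + k) p := by
        cases k with
        | zero =>
          have h1 : co σ n p ∈ L := ⟨p, hp, fun m hm => h m (by omega), rfl⟩
          rw [hc, Submodule.mem_span_singleton] at h1
          obtain ⟨a, ha⟩ := h1
          exact ⟨a, by simpa using ha⟩
        | succ k =>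
          obtain ⟨u, hu'⟩ := pow_unit hu hc0 k
          exact ⟨co σ (n + (k + 1)) p * ↑u⁻¹, by rw [← hu']; simp⟩
      obtain ⟨a, ha⟩ := this
      have h2 : p - mono σ k a * f ∈ Submodule.span (SP σ) {f} := by
        apply ih _ (I.sub_mem hp (I.mul_mem_left _ hf))
        intro m hm
        obtain ⟨j, rfl⟩ : ∃ j, m = k + j := ⟨m - k, by omega⟩
        rw [map_sub, co_mono_mul]
        rcases Nat.eq_or_lt_of_le hm with h3 | h3
        · have h4 : j = n := by omega
          rw [h4, hfc, ha, add_comm, sub_self]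
        · rw [h _ (by omega), hf1 j (by omega), map_zero, mul_zero, sub_self]
      have h3 : mono σ k a * f ∈ Submodule.span (SP σ) {f} :=
        Submodule.mem_span_singleton.2 ⟨_, rfl⟩
      simpa using Submodule.add_mem _ h2 h3
  intro p hp
  obtain ⟨N, hN⟩ := bdd p
  exact key N p hp fun m hm => hN m (by omega)

/-- The universal property. -/
noncomputable def lift {S : Type} [Ring S] (f : A →+* S) (y : S)
    (h : ∀ a, y * f a = f (σ a) * y) : SP σ →+* S :=
  SkewMonoidAlgebra.liftNCRingHom (k := Tw σ) (G := Multiplicative ℕ) f (powersHom S y) (by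
    intro a n
    change f ((σ ^ n.toAdd) a) * y ^ n.toAdd = y ^ n.toAdd * f a
    generalize n.toAdd = n
    induction n generalizing a with
    | zero => simp
    | succ n ih =>
      rw [pow_succ' σ, pow_succ' y, mul_assoc y, ← ih, ← mul_assoc, ← mul_assoc, h]
      rfl)

lemma lift_mono {S : Type} [Ring S] (f : A →+* S) (y : S)
    (h : ∀ a, y * f a = f (σ a) * y) (n : ℕ) (a : A) :
    lift f y h (mono σ n a) = f a * y ^ n :=
  SkewMonoidAlgebra.liftNC_single (k := Tw σ) (G := Multiplicative ℕ) (f : A →+ S)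
    (powersHom S y) (Multiplicative.ofAdd n) a

/-- constants -/
noncomputable def cst (σ : A →+* A) : A →+* SP σ where
  toFun := mono σ 0
  map_zero' := map_zero _
  map_add' := map_add _
  map_one' := rfl
  map_mul' a b := by rw [mono_mul]; simp

lemma cst_apply (a : A) : cst σ a = mono σ 0 a := rfl

lemma mono_one_pow (k n : ℕ) : (mono σ k 1) ^ n = mono σ (n * k) 1 := by
  induction n with
  | zero => simp [one_eq]
  | succ n ih => rw [pow_succ, ih, mono_mul]; simp [add_mul]

lemma sum_mono (p : SP σ) {N : ℕ} (hN : ∀ n, N ≤ n → co σ n p = 0) :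
    p = ∑ n ∈ Finset.range N, mono σ n (co σ n p) := by
  apply ext
  intro m
  simp only [map_sum, co_mono, Finset.sum_ite_eq', Finset.mem_range]
  split_ifs with h
  · rfl
  · exact hN m (by omega)

end general

end Pool.Agent.H14.Skew
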