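import Mathlib
import Pool.Agent.H14.Skew

set_option autoImplicit false

namespace Pool.Agent.H14.PriEx

open Function Pool.Agent.H14.Skew MvPolynomial nonZeroDivisors

abbrev Circ : Type := ℚ ⧸ AddSubgroup.zmultiples (1 : ℚ)

abbrev Idx : Type := ℕ × Circ

def piI (i : Idx) : Idx := (i.1, i.2 + ((1 / 2 ^ (i.1 + 1) : ℚ) : Circ))

def phI (i : Idx) : Idx := (i.1 + 1, i.2)

def i0 : Idx := (0, 0)

lemma piI_inj : Injective piI := by
  rintro ⟨k, q⟩ ⟨l, r⟩ h
  simp only [piI, Prod.mk.injEq] at h
  obtain ⟨rfl, h⟩ := h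
  rw [add_right_cancel h]

lemma phI_inj : Injective phI := by
  rintro ⟨k, q⟩ ⟨l, r⟩ h
  simp only [phI, Prod.mk.injEq] at h
  obtain ⟨h, rfl⟩ := h
  rw [add_right_cancel h]

lemma ph_pi (i : Idx) : phI (piI i) = piI (piI (phI i)) := by
  obtain ⟨k, q⟩ := i
  simp only [phI, piI, Prod.mk.injEq, true_and]
  rw [add_assoc, ← QuotientAddGroup.mk_add]
  congr 2
  field_simp
  ring

lemma pi_pi_i0 : piI (piI i0) = i0 := by
  simp only [piI, i0, Prod.mk.injEq, true_and]
  rw [add_assoc, ← QuotientAddGroup.mk_add, zero_add, QuotientAddGroup.eq_zero_iff]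
  exact ⟨1, by norm_num⟩

lemma pi_i0 : piI i0 ≠ i0 := by
  simp only [piI, i0, ne_eq, Prod.mk.injEq, true_and]
  rw [zero_add, QuotientAddGroup.eq_zero_iff]
  rintro ⟨n, hn⟩
  simp only [zsmul_eq_mul, mul_one, zero_add, pow_one] at hn
  have h : ((2 * n : ℤ) : ℚ) = ((1 : ℤ) : ℚ) := by push_cast; rw [hn]; norm_num
  have := Int.cast_injective h
  omega

abbrev Cc : Type := MvPolynomial Idx ℚ

abbrev K : Type := FractionRing Cc

noncomputable def ren (f : Idx → Idx) (hf : Injective f) : K →+* K :=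
  IsFractionRing.lift (A := Cc) (g := (algebraMap Cc K).comp (rename f : Cc →ₐ[ℚ] Cc).toRingHom)
    ((IsFractionRing.injective Cc K).comp (rename_injective f hf))

lemma ren_alg (f : Idx → Idx) (hf : Injective f) (c : Cc) :
    ren f hf (algebraMap Cc K c) = algebraMap Cc K (rename f c) :=
  IsFractionRing.lift_algebraMap _ c

noncomputable def al : K →+* K := ren piI piI_inj
noncomputable def ph : K →+* K := ren phI phI_inj
noncomputable def dK : K := algebraMap Cc K (X i0)

lemma ph_al (a : K) : ph (al a) = al (al (ph a)) := by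
  have : ph.comp al = al.comp (al.comp ph) := by
    apply IsLocalization.ringHom_ext Cc⁰
    apply RingHom.ext
    intro c
    simp only [RingHom.comp_apply, al, ph, ren_alg, rename_rename]
    congr 3
    funext i
    exact ph_pi i
  exact congrArg (fun f : K →+* K => f a) this

lemma al_al_d : al (al dK) = dK := by
  simp only [al, dK, ren_alg, rename_X, pi_pi_i0]

lemma al_d : al dK ≠ dK := by
  simp only [al, dK, ren_alg, rename_X]
  intro h
  exact pi_i0 (X_injective (IsFractionRing.injective Cc K h))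

lemma al_pow_d (m : ℕ) : (al ^ (m * 2)) dK = dK := by
  induction m with
  | zero => simp
  | succ m ih =>
    rw [add_mul, one_mul, pow_add]
    change (al ^ (m * 2)) ((al ^ 2) dK) = dK
    rw [pow_two]
    change (al ^ (m * 2)) (al (al dK)) = dK
    rw [al_al_d, ih]

noncomputable def rho : Cc →ₐ[ℚ] Polynomial Cc :=
  aeval fun i : Idx => match i.1 with
    | 0 => Polynomial.X
    | k + 1 => Polynomial.C (X (k, i.2))

lemma rho_ren (c : Cc) : rho (rename phI c) = Polynomial.C c := by
  induction c using MvPolynomial.induction_on with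
  | C a => simp [rho, algebraMap_eq]
  | add p q hp hq => simp only [map_add, hp, hq]
  | mul_X p i hp => simp only [map_mul, hp, rename_X]; simp [rho, phI]

lemma transc (N : ℕ) (k : ℕ → K) (h : ∑ n ∈ Finset.range N, ph (k n) * dK ^ n = 0) :
    ∀ n < N, k n = 0 := by
  obtain ⟨b, hb⟩ := IsLocalization.exist_integer_multiples Cc⁰ (Finset.range N) k
  choose! c hc using hb
  have hb0 : algebraMap Cc K b ≠ 0 := by
    intro h0
    exact nonZeroDivisors.ne_zero b.2 (IsFractionRing.injective Cc K (by rw [h0, map_zero]))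
  have h1 : algebraMap Cc K (∑ n ∈ Finset.range N, rename phI (c n) * X i0 ^ n) = 0 := by
    rw [← mul_zero (ph (algebraMap Cc K b)), ← h, map_sum, Finset.mul_sum]
    apply Finset.sum_congr rfl
    intro n hn
    rw [map_mul, map_pow, ← ren_alg _ phI_inj, hc n hn, Algebra.smul_def, map_mul, mul_assoc]
    rfl
  have h2 := congrArg rho (IsFractionRing.injective Cc K (h1.trans (map_zero _).symm))
  simp only [map_sum, map_mul, map_pow, rho_ren, map_zero] at h2
  have h3 : rho (X i0) = Polynomial.X := by simp [rho, i0]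
  rw [h3] at h2
  intro n hn
  have h4 := congrArg (fun p => Polynomial.coeff p n) h2
  simp only [Polynomial.finsetSum_coeff, Polynomial.coeff_C_mul_X_pow, Finset.sum_ite_eq,
    Finset.mem_range, hn, if_true, Polynomial.coeff_zero] at h4
  have h5 := hc n (Finset.mem_range.2 hn)
  rw [h4, map_zero, Algebra.smul_def] at h5
  exact (mul_eq_zero.1 h5.symm).resolve_left hb0

abbrev B : Type := SP al

instance : Nontrivial B := Skew.nontrivial
instance : NoZeroDivisors B := Skew.noZeroDivisors al.injective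
instance : IsPrincipalIdealRing B :=
  Skew.pli fun a ha => IsUnit.mk0 _ (fun h => ha (al.injective (by rw [h, map_zero])))
instance : IsDomain B := NoZeroDivisors.to_isDomain B
noncomputable instance : OreLocalization.OreSet B⁰ :=
  Classical.choice nonempty_oreSet_of_strongRankCondition

def D : Type := OreLocalization B⁰ B

noncomputable instance : DivisionRing D := inferInstanceAs (DivisionRing (OreLocalization B⁰ B))

noncomputable def nu : B →+* D := OreLocalization.numeratorRingHom (R := B) (S := B⁰)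

lemma nu_inj : Injective nu :=
  OreLocalization.numeratorHom_inj (R := B) (S := B⁰) fun _ h => h.1

lemma nu_den (q : D) : ∃ s b : B, s ≠ 0 ∧ nu s * q = nu b := by
  induction q using OreLocalization.ind with
  | c r s =>
    refine ⟨s, r, nonZeroDivisors.ne_zero s.2, ?_⟩
    exact OreLocalization.mul_cancel (r := r) (s := s) (t := 1)

lemma nu_dens (N : ℕ) (q : ℕ → D) :
    ∃ s : B, s ≠ 0 ∧ ∀ n < N, ∃ b, nu s * q n = nu b := by
  induction N with
  | zero => exact ⟨1, one_ne_zero, fun n hn => absurd hn (by omega)⟩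
  | succ N ih =>
    obtain ⟨s, hs, h⟩ := ih
    obtain ⟨t, b, ht, hb⟩ := nu_den (nu s * q N)
    refine ⟨t * s, mul_ne_zero ht hs, fun n hn => ?_⟩
    rcases Nat.lt_succ_iff_lt_or_eq.1 hn with hn | rfl
    · obtain ⟨c, hc⟩ := h n hn
      exact ⟨t * c, by rw [map_mul, mul_assoc, hc, map_mul]⟩
    · exact ⟨b, by rw [map_mul, mul_assoc, hb]⟩

lemma nu_lift (g : B →+* D) (hg : Injective g) : ∃ G : D →+* D, ∀ b, G (nu b) = g b := by
  let fS : B⁰ →* Dˣ := Units.liftRight (g.toMonoidHom.comp (Submonoid.subtype B⁰))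
    (fun s => Units.mk0 (g s) (fun h => nonZeroDivisors.ne_zero s.2 (hg (by rw [h, map_zero]))))
    (fun _ => rfl)
  exact ⟨OreLocalization.universalHom g fS (fun _ => rfl),
    fun b => OreLocalization.universalHom_commutes g fS (fun _ => rfl)⟩

noncomputable def phB : B →+* B :=
  lift ((cst al).comp ph) (mono al 2 1) (fun a => by
    simp only [RingHom.comp_apply, cst_apply, mono_mul, ph_al, pow_two, pow_zero]
    simp)

lemma phB_mono (n : ℕ) (a : K) : phB (mono al n a) = mono al (n * 2) (ph a) := by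
  rw [phB, lift_mono, mono_one_pow, RingHom.comp_apply, cst_apply, mono_mul]
  simp

lemma co_phB (p : B) (n : ℕ) : co al (n * 2) (phB p) = ph (co al n p) := by
  induction p using ind with
  | h0 => simp
  | ha p q hp hq => simp only [map_add, hp, hq]
  | hm m a =>
    rw [phB_mono, co_mono, co_mono]
    by_cases h : m = n
    · simp [h]
    · rw [if_neg h, if_neg (by omega), map_zero]

lemma phB_inj : Injective phB := by
  intro p q h
  apply Skew.ext
  intro n
  apply ph.injective
  rw [← co_phB, ← co_phB, h]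

noncomputable def dB : B := cst al dK

lemma dB_comm (p : B) : dB * phB p = phB p * dB := by
  induction p using ind with
  | h0 => simp
  | ha p q hp hq => simp only [map_add, mul_add, add_mul, hp, hq]
  | hm m a =>
    rw [phB_mono, dB, cst_apply, mono_mul, mono_mul, al_pow_d]
    simp [mul_comm]

noncomputable def phD : D →+* D := (nu_lift (nu.comp phB) (nu_inj.comp phB_inj)).choose

lemma phD_nu (b : B) : phD (nu b) = nu (phB b) :=
  (nu_lift (nu.comp phB) (nu_inj.comp phB_inj)).choose_spec b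

noncomputable def dD : D := nu dB

lemma dD_comm (q : D) : dD * phD q = phD q * dD := by
  obtain ⟨s, b, hs, h⟩ := nu_den q
  have h0 : phD (nu s) ≠ 0 := fun h0 =>
    hs (nu_inj (phD.injective (by rw [h0, map_zero, map_zero])))
  have h1 : ∀ c, dD * phD (nu c) = phD (nu c) * dD := fun c => by
    rw [phD_nu, dD, ← map_mul, ← map_mul, dB_comm]
  apply mul_left_cancel₀ h0
  rw [← mul_assoc, ← h1, mul_assoc, ← map_mul, h, h1, ← mul_assoc, ← map_mul, h]

noncomputable abbrev idD : D →+* D := RingHom.id D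

lemma idD_pow (n : ℕ) (a : D) : (idD ^ n) a = a := by
  induction n with
  | zero => rfl
  | succ n ih => rw [pow_succ]; exact ih

abbrev A : Type := SP idD

instance : Nontrivial A := Skew.nontrivial
instance : NoZeroDivisors A := Skew.noZeroDivisors idD.injective
instance : IsPrincipalIdealRing A := Skew.pli fun _ ha => IsUnit.mk0 _ ha

noncomputable def sg : A →+* D := lift phD dD dD_comm

lemma sg_mono (n : ℕ) (a : D) : sg (mono idD n a) = phD a * dD ^ n := lift_mono _ _ _ n a

lemma sg_comm (a : A) : dD * sg a = sg a * dD := by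
  induction a using ind with
  | h0 => simp
  | ha p q hp hq => simp only [map_add, mul_add, add_mul, hp, hq]
  | hm m a => rw [sg_mono, ← mul_assoc, dD_comm, mul_assoc, mul_assoc, pow_mul_comm']

lemma sg_inj : Injective sg := by
  rw [injective_iff_map_eq_zero]
  intro p hp
  obtain ⟨N, hN⟩ := bdd p
  obtain ⟨s, hs, hb⟩ := nu_dens N fun n => co idD n p
  choose! b hb using hb
  have h1 : nu (∑ n ∈ Finset.range N, phB (b n) * dB ^ n) = 0 := by
    rw [← mul_zero (phD (nu s)), ← hp, sum_mono p hN, map_sum, map_sum, Finset.mul_sum]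
    apply Finset.sum_congr rfl
    intro n hn
    rw [sg_mono, ← mul_assoc, ← map_mul phD, hb n (Finset.mem_range.1 hn), phD_nu, map_mul,
      map_pow, dD]
  have h2 := nu_inj (h1.trans (map_zero _).symm)
  have h3 : ∀ n < N, b n = 0 := by
    intro n hn
    apply Skew.ext
    intro m
    refine transc N (fun n => co al m (b n)) ?_ n hn
    have h4 := congrArg (co al (m * 2)) h2
    rw [map_sum, map_zero] at h4
    rw [← h4]
    apply Finset.sum_congr rfl
    intro k _
    have h5 := co_mono_mul (σ := al) 0 (dK ^ k) (phB (b k)) (m * 2)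
    have h6 : Commute (phB (b k)) dB := (dB_comm _).symm
    rw [(h6.pow_right k).eq, dB, ← map_pow, cst_apply]
    rw [zero_add] at h5
    rw [h5, co_phB, mul_comm]
    simp
  apply Skew.ext
  intro n
  rw [map_zero]
  by_cases hn : n < N
  · have h4 := hb n hn
    rw [h3 n hn, map_zero] at h4
    exact (mul_eq_zero.1 h4).resolve_left fun h => hs (nu_inj (by rw [h, map_zero]))
  · exact hN n (by omega)

noncomputable def sA : A →+* A := (cst idD).comp sg

lemma sA_unit (a : A) (ha : a ≠ 0) : IsUnit (sA a) :=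
  (IsUnit.mk0 _ fun h => ha (sg_inj (by rw [h, map_zero]))).map (cst idD)

lemma sA_inj : Injective sA := by
  rw [injective_iff_map_eq_zero]
  intro a h
  by_contra ha
  exact (sA_unit a ha).ne_zero h

noncomputable def cA : A := mono idD 1 1 - mono idD 0 dD

lemma cA_comm (a : A) : cA * sA a = sA a * cA := by
  simp only [cA, sA, RingHom.comp_apply, cst_apply, sub_mul, mul_sub, mono_mul, idD_pow, sg_comm]
  simp

noncomputable def eD : D := nu (mono al 1 1)

lemma eD_not_comm : eD * dD ≠ dD * eD := by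
  intro h
  rw [eD, dD, ← map_mul, ← map_mul, dB, cst_apply, mono_mul, mono_mul] at h
  have := congrArg (co al 1) (nu_inj h)
  simp [co_mono] at this
  exact al_d this

lemma cA_not (a : A) : cA * cst idD eD ≠ a * cA := by
  intro h
  have hl : cA * cst idD eD = mono idD 1 eD - mono idD 0 (dD * eD) := by
    simp only [cA, cst_apply, sub_mul, mono_mul, idD_pow]
    simp
  have he : eD ≠ 0 := fun h0 => eD_not_comm (by simp [h0])
  have ha : a ≠ 0 := by
    rintro rfl
    have := congrArg (co idD 1) h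
    rw [hl] at this
    simp [co_mono] at this
    exact he this
  obtain ⟨n, hn, hn'⟩ := exists_top ha
  have hc : ∀ k, 1 < k → co idD k cA = 0 := by
    intro k hk
    rw [cA, map_sub, co_mono, co_mono, if_neg (by omega), if_neg (by omega), sub_self]
  have hc1 : co idD 1 cA = 1 := by simp [cA, co_mono]
  have hc0 : co idD 0 cA = -dD := by simp [cA, co_mono]
  have h1 := co_mul_top hn' hc
  rw [← h, hl, hc1, map_one, mul_one, map_sub, co_mono, co_mono, if_neg (by omega : ¬ 0 = n + 1),
    sub_zero] at h1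
  have hn0 : n = 0 := by
    by_contra hn0
    rw [if_neg (by omega)] at h1
    exact hn h1.symm
  subst hn0
  rw [if_pos rfl] at h1
  have h2 := co_mul_zero a cA
  rw [← h, hl, hc0, ← h1] at h2
  simp [co_mono] at h2
  exact eD_not_comm h2.symm

abbrev R : Type := SP sA

instance : Nontrivial R := Skew.nontrivial
instance : NoZeroDivisors R := Skew.noZeroDivisors sA_inj
instance : IsPrincipalIdealRing R := Skew.pli sA_unit

open MulOpposite

abbrev S : Type := Rᵐᵒᵖ

/-- The ideal `A (t - d) x + R x²`. -/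
def I0 : AddSubmonoid S where
  carrier := {x | co sA 0 (unop x) = 0 ∧ ∃ a, co sA 1 (unop x) = a * cA}
  zero_mem' := ⟨map_zero _, 0, by simp⟩
  add_mem' := by
    rintro x y ⟨hx, a, ha⟩ ⟨hy, b, hb⟩
    exact ⟨by rw [unop_add, map_add, hx, hy, add_zero],
      a + b, by rw [unop_add, map_add, ha, hb, add_mul]⟩

lemma I0_two (x r : S) (hx : x ∈ I0) : r * x ∈ I0 ∧ x * r ∈ I0 := by
  obtain ⟨hx, a, ha⟩ := hx
  refine ⟨⟨?_, a * sA (co sA 0 (unop r)), ?_⟩, ⟨?_, co sA 0 (unop r) * a, ?_⟩⟩
  · rw [unop_mul, co_mul_zero, hx, zero_mul]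
  · rw [unop_mul, co_mul_one, hx, ha, zero_mul, zero_add, mul_assoc, cA_comm, mul_assoc]
  · rw [unop_mul, co_mul_zero, hx, mul_zero]
  · rw [unop_mul, co_mul_one, hx, ha, map_zero, mul_zero, add_zero, mul_assoc]

noncomputable def prodL (L : List (AddSubmonoid S)) : AddSubmonoid S :=
  L.foldr (fun P J => AddSubmonoid.closure {x : S | ∃ a ∈ P, ∃ b ∈ J, x = a * b}) ⊤

lemma prodL_le (L : List (AddSubmonoid S))
    (hL : ∀ P ∈ L, ∀ x r : S, x ∈ P → r * x ∈ P ∧ x * r ∈ P) : ∀ P ∈ L, prodL L ≤ P := by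
  induction L with
  | nil => intro P hP; simp at hP
  | cons Q L ih =>
    intro P hP
    change AddSubmonoid.closure {x : S | ∃ a ∈ Q, ∃ b ∈ prodL L, x = a * b} ≤ P
    rw [AddSubmonoid.closure_le]
    rintro x ⟨a, ha, b, hb, rfl⟩
    rcases List.mem_cons.1 hP with rfl | hP'
    · exact (hL P hP a b ha).2
    · exact (hL P hP b a (ih (fun P hP => hL P (List.mem_cons_of_mem _ hP)) P hP' hb)).1

lemma prodL_inv (L : List (AddSubmonoid S)) (hL : ∀ P ∈ L, ∀ a, op (mono sA 1 a) ∈ P) :
    ∀ r ∈ prodL L, ∀ a : A, ∃ r' ∈ prodL L, co sA 1 (unop r') = co sA 1 (unop r) * a := by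
  induction L with
  | nil =>
    intro r _ a
    exact ⟨op (mono sA 1 (co sA 1 (unop r) * a)), AddSubmonoid.mem_top _, by simp [co_mono]⟩
  | cons Q L ih =>
    have ih' := ih fun P hP => hL P (List.mem_cons_of_mem _ hP)
    have hQ := hL Q List.mem_cons_self
    have hm : ∀ p ∈ Q, ∀ j ∈ prodL L, p * j ∈ prodL (Q :: L) := fun p hp j hj =>
      AddSubmonoid.subset_closure ⟨p, hp, j, hj, rfl⟩
    intro r hr a
    induction hr using AddSubmonoid.closure_induction with
    | zero => exact ⟨0, AddSubmonoid.zero_mem _, by simp⟩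
    | add x y _ _ hx hy =>
      obtain ⟨x', hx', hx⟩ := hx
      obtain ⟨y', hy', hy⟩ := hy
      exact ⟨x' + y', AddSubmonoid.add_mem _ hx' hy', by
        simp only [unop_add, map_add, hx, hy, add_mul]⟩
    | mem x hx =>
      obtain ⟨p, hp, j, hj, rfl⟩ := hx
      by_cases h0 : co sA 0 (unop p) = 0
      · refine ⟨_, hm _ (hQ (co sA 1 (unop p) * a)) j hj, ?_⟩
        simp [co_mul_one, co_mono, h0, mul_assoc]
      · obtain ⟨u, hu⟩ := sA_unit _ h0
        obtain ⟨j', hj', hj1⟩ := ih' j hj (↑u * a * ↑u⁻¹)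
        refine ⟨_, AddSubmonoid.add_mem _ (hm _ (hQ (co sA 1 (unop p) * a)) j hj)
          (hm _ (Q.add_mem hp (hQ (-co sA 1 (unop p)))) j' hj'), ?_⟩
        simp [co_mul_one, co_mono, hj1, ← hu, mul_assoc, add_mul]

theorem right_principal (I : AddSubmonoid S) (hI : ∀ x r : S, x ∈ I → x * r ∈ I) :
    ∃ a : S, ∀ x : S, x ∈ I ↔ ∃ r : S, x = a * r := by
  let J : Ideal R :=
    { carrier := {r | op r ∈ I}
      add_mem' := fun hx hy => I.add_mem hx hy
      zero_mem' := I.zero_mem
      smul_mem' := fun c x hx => hI (op x) (op c) hx }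
  obtain ⟨a, ha⟩ := (IsPrincipalIdealRing.principal J).principal
  refine ⟨op a, fun x => ?_⟩
  have : x ∈ I ↔ unop x ∈ J := Iff.rfl
  rw [this, ha, Submodule.mem_span_singleton]
  constructor
  · rintro ⟨s, hs⟩
    exact ⟨op s, unop_injective hs.symm⟩
  · rintro ⟨r, rfl⟩
    exact ⟨unop r, rfl⟩

theorem not_prod (L : List (AddSubmonoid S))
    (hL : ∀ P ∈ L, (∀ x r : S, x ∈ P → r * x ∈ P ∧ x * r ∈ P) ∧ (1 : S) ∉ P ∧
      ∀ a b : S, (∀ r : S, a * r * b ∈ P) → a ∈ P ∨ b ∈ P) : prodL L ≠ I0 := by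
  intro h
  have hX : ∀ P ∈ L, ∀ a, op (mono sA 1 a) ∈ P := by
    intro P hP a
    have h1 : I0 ≤ P := h ▸ prodL_le L (fun P hP => (hL P hP).1) P hP
    refine ((hL P hP).2.2 _ _ fun r => h1 ⟨?_, 0, ?_⟩).elim id id
    · simp [co_mul_zero, co_mono]
    · simp [co_mul_zero, co_mul_one, co_mono]
  have h2 : op (mono sA 1 cA) ∈ prodL L := by
    rw [h]
    exact ⟨by simp [co_mono], 1, by simp [co_mono]⟩
  obtain ⟨r', hr', h3⟩ := prodL_inv L hX _ h2 (cst idD eD)
  rw [h] at hr'
  obtain ⟨-, a, ha⟩ := hr'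
  rw [ha, unop_op, co_mono, if_pos rfl] at h3
  exact cA_not a h3.symm

end Pool.Agent.H14.PriEx
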