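import Mathlib

set_option autoImplicit false

namespace Pool.Agent.H14.ProdInt

open Filter Set Pointwise

/-- The product intersection set of a sequence of subsets of a group. -/
def H {G : Type} [Group G] (A : ℕ → Set G) : Set ℕ :=
  {h | 1 ≤ h ∧ (⋂ q, A q) ^ h = ⋂ q, (A q) ^ h}

variable {G : Type} [Group G]

attribute [local instance] Ultrafilter.mul Ultrafilter.semigroup

lemma exists_idem (K : Subgroup G) (hK : (K : Set G).Infinite) :
    ∃ U : Ultrafilter G, (U : Filter G) ≤ cofinite ∧ (K : Set G) ∈ U ∧ U * U = U := by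
  have hne : (cofinite ⊓ 𝓟 (K : Set G)).NeBot := hK.cofinite_inf_principal_neBot
  obtain ⟨U, hU, h⟩ := exists_idempotent_in_compact_subsemigroup (M := Ultrafilter G)
    Ultrafilter.continuous_mul_left {U | (U : Filter G) ≤ cofinite ⊓ 𝓟 (K : Set G)}
    ⟨Ultrafilter.of _, Ultrafilter.of_le _⟩ (by
      have : {U : Ultrafilter G | (U : Filter G) ≤ cofinite ⊓ 𝓟 (K : Set G)} =
          ⋂ s ∈ cofinite ⊓ 𝓟 (K : Set G), {U : Ultrafilter G | s ∈ U} := by
        ext U; simp only [mem_ofPred_eq, mem_iInter]; rfl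
      rw [this]
      exact (isClosed_biInter fun s _ => ultrafilter_isClosed_basic s).isCompact) (by
      intro U hU V hV
      simp only [mem_ofPred_eq, le_inf_iff, le_principal_iff] at hU hV ⊢
      refine ⟨fun s hs => ?_, ?_⟩
      · refine (Ultrafilter.eventually_mul U V (· ∈ s)).2 (Eventually.of_forall fun m => ?_)
        exact hV.1 ((mul_right_injective m).tendsto_cofinite hs)
      · refine (Ultrafilter.eventually_mul U V (· ∈ (K : Set G))).2 ?_
        filter_upwards [hU.2] with m hm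
        filter_upwards [hV.2] with m' hm' using K.mul_mem hm hm')
  simp only [mem_ofPred_eq, le_inf_iff, le_principal_iff] at hU
  exact ⟨U, hU.1, hU.2, h⟩

lemma idem_large (U : Ultrafilter G) (hU : U * U = U) (x : G) (hx : x * x ≠ 1) :
    ∀ᶠ u in (U : Filter G), (x * u) * (x * u) ≠ 1 := by
  by_contra hc
  have h1 : ∀ᶠ u in (U : Filter G), (x * u) * (x * u) = 1 := by
    simpa using Ultrafilter.eventually_not.2 hc
  have mul : ∀ p : G → Prop, (∀ᶠ u in (U : Filter G), p u) →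
      ∀ᶠ u in (U : Filter G), ∀ᶠ v in (U : Filter G), p (u * v) := fun p hp =>
    (Ultrafilter.eventually_mul U U p).1 (by rw [hU]; exact hp)
  have h2 := mul _ h1
  have h3 := mul _ h2
  obtain ⟨u, hu, hu2, hu3⟩ := (h1.and (h2.and h3)).exists
  obtain ⟨v, hv, huv, hv2, huv2⟩ := (h1.and (hu2.and (h2.and hu3))).exists
  obtain ⟨w, hw, huw, hvw, huvw⟩ := (h1.and (hu2.and (hv2.and huv2))).exists
  have key : ∀ a b : G, (x * a) * (x * a) = 1 → (x * b) * (x * b) = 1 →
      (x * (a * b)) * (x * (a * b)) = 1 → b⁻¹ * a * b = x * x * a := by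
    intro a b ha hb hab
    have e1 : x * a * x = a⁻¹ := eq_inv_of_mul_eq_one_left (by rw [← ha]; group)
    have e2 : x * b * x = b⁻¹ := eq_inv_of_mul_eq_one_left (by rw [← hb]; group)
    have e3 : x * (a * b) * x = (a * b)⁻¹ := eq_inv_of_mul_eq_one_left (by rw [← hab]; group)
    have e4 : (a * b)⁻¹ = a⁻¹ * (x * x)⁻¹ * b⁻¹ := by
      rw [← e3, ← e1, ← e2]; group
    have e5 : a * b = b * (x * x) * a := by
      rw [← inv_inj, e4]; group
    calc b⁻¹ * a * b = b⁻¹ * (a * b) := by group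
      _ = x * x * a := by rw [e5]; group
  have k1 := key u w hu hw huw
  have k2 := key v w hv hw hvw
  have k3 := key (u * v) w huv hw huvw
  have k4 : x * x * (u * v) = (x * x * u) * (x * x * v) := by rw [← k1, ← k2, ← k3]; group
  apply hx
  have k5 : (x * x * u) * v = (x * x * u) * (x * x * v) := by rw [← k4]; group
  exact (mul_eq_right.1 (mul_left_cancel k5).symm)

/-- Finite subsets of `M` no two of whose elements multiply to `g`. -/
def Fr (M : Set G) (g : G) (S : Set G) : Prop := S.Finite ∧ S ⊆ M ∧ ∀ a ∈ S, ∀ b ∈ S, a * b ≠ g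

lemma step (g : G) (hg : ∀ x, g * x = x * g) (M : Set G) (hM : ∀ x ∈ M, x * x ≠ g)
    (p : Filter G) [p.NeBot] (hp : p ≤ cofinite)
    (h : ∀ x ∈ M, ∀ᶠ u in p, x * u ∈ M ∧ u⁻¹ * x ∈ M) (S : Set G) (hS : Fr M g S) (t : G) :
    ∃ S', Fr M g S' ∧ S ⊆ S' ∧ (t ∈ M ^ 3 → t ∈ S' ^ 3) := by
  by_cases ht : t ∈ M ^ 3
  swap
  · exact ⟨S, hS, Subset.rfl, fun h => absurd h ht⟩
  rw [pow_three'] at ht
  obtain ⟨_, ⟨x, hx, y, hy, rfl⟩, z, hz, rfl⟩ := ht
  have sym : ∀ a b : G, a * b = g → b * a = g := fun a b hab => by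
    have : b * a = b * (a * b) * b⁻¹ := by group
    rw [this, hab, ← hg]; group
  have av : ∀ (T : Set G), T.Finite → ∀ f : G → G, Function.Injective f →
      ∀ᶠ u in p, ∀ s ∈ T, s * f u ≠ g := fun T hT f hf =>
    (hT.eventually_all).2 fun s _ => hp (((mul_right_injective s).comp hf).tendsto_cofinite
      (eventually_cofinite_ne g))
  obtain ⟨u, ⟨hu1, -⟩, ⟨-, hu2⟩, hu3, hu4⟩ := ((h x hx).and ((h y hy).and
    ((av S hS.1 _ (mul_right_injective x)).and
    (av {1} (finite_singleton _) (fun u => u⁻¹ * (y * z))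
      ((mul_left_injective _).comp inv_injective))))).exists
  obtain ⟨v, ⟨hv1, -⟩, ⟨-, hv2⟩, hv3, hv4⟩ := ((h _ hu2).and ((h z hz).and
    ((av _ (hS.1.insert (x * u)) _ (mul_right_injective (u⁻¹ * y))).and
    (av _ (hS.1.insert (x * u)) (fun v => v⁻¹ * z)
      ((mul_left_injective _).comp inv_injective))))).exists
  have hbc : (u⁻¹ * y * v) * (v⁻¹ * z) ≠ g := by
    have := hu4 1 rfl
    rwa [show 1 * (u⁻¹ * (y * z)) = (u⁻¹ * y * v) * (v⁻¹ * z) by group] at this
  have ins : ∀ (T : Set G) (a : G), Fr M g T → a ∈ M → (∀ s ∈ T, s * a ≠ g) →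
      Fr M g (insert a T) := by
    intro T a hT ha hs
    refine ⟨hT.1.insert a, insert_subset ha hT.2.1, ?_⟩
    rintro b (rfl | hb) c (rfl | hc)
    · exact hM _ ha
    · exact fun e => hs c hc (sym _ _ e)
    · exact hs b hb
    · exact hT.2.2 b hb c hc
  refine ⟨_, ins _ _ (ins _ _ (ins _ _ hS hu1 hu3) hv1 hv3) hv2 ?_, fun a ha => by simp [ha],
    fun _ => ?_⟩
  · rintro s (rfl | hs)
    · exact hbc
    · exact hv4 s hs
  · rw [pow_three']
    exact ⟨_, ⟨x * u, by simp, u⁻¹ * y * v, by simp, rfl⟩, v⁻¹ * z, by simp, by simp only; group⟩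

lemma core (g : G) (hg : ∀ x, g * x = x * g) (M : Set G) (hM : ∀ x ∈ M, x * x ≠ g)
    (hc : M.Countable) (hne : M.Nonempty) (hi : ∀ a ∈ M, a⁻¹ * g ∈ M)
    (p : Filter G) [p.NeBot] (hp : p ≤ cofinite)
    (h : ∀ x ∈ M, ∀ᶠ u in p, x * u ∈ M ∧ u⁻¹ * x ∈ M) :
    ∃ A : ℕ → Set G, (∀ q, A (q + 1) ⊂ A q) ∧ H A = {h | 1 ≤ h ∧ h ≠ 2} := by
  have hc3 : (M ^ 3).Countable := by
    rw [pow_three']
    exact (hc.image2 hc _).image2 hc _
  obtain ⟨e, he⟩ := hc3.exists_eq_range (hne.pow (n := 3))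
  choose F hF using step g hg M hM p hp h
  let s : ℕ → {S // Fr M g S} := fun n => Nat.rec ⟨∅, by simp [Fr]⟩
    (fun n S => ⟨F S.1 S.2 (e n), (hF _ _ _).1⟩) n
  have smono : Monotone fun n => (s n).1 := monotone_nat_of_le_succ fun n => (hF _ (s n).2 _).2.1
  set A := ⋃ n, (s n).1 with hA
  have AM : A ⊆ M := iUnion_subset fun n => (s n).2.2.1
  have Afr : ∀ a ∈ A, ∀ b ∈ A, a * b ≠ g := by
    intro a ha b hb
    obtain ⟨m, hm⟩ := mem_iUnion.1 ha
    obtain ⟨n, hn⟩ := mem_iUnion.1 hb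
    exact (s (max m n)).2.2.2 a (smono (le_max_left _ _) hm) b (smono (le_max_right _ _) hn)
  have A3 : M ^ 3 ⊆ A ^ 3 := by
    intro t ht
    obtain ⟨n, rfl⟩ := he ▸ ht
    exact pow_subset_pow_left (subset_iUnion (fun n => (s n).1) (n + 1)) ((hF _ (s n).2 _).2.2 ht)
  have Ah : ∀ k, M ^ (k + 3) ⊆ A ^ (k + 3) := by
    intro k
    induction k with
    | zero => simpa using A3
    | succ k ih =>
      have hA1 : M ^ (k + 1 + 3) = M ^ (k + 1) * M ^ 3 := pow_add _ _ _
      calc M ^ (k + 1 + 3) = M * M ^ (k + 3) := by rw [← pow_succ']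
        _ ⊆ M * A ^ (k + 3) := mul_subset_mul_left ih
        _ = (M * A ^ 2) * A ^ (k + 1) := by rw [mul_assoc, ← pow_add, add_comm 2]
        _ ⊆ M ^ 3 * A ^ (k + 1) := by
          rw [pow_succ' M 2]
          exact mul_subset_mul_right (mul_subset_mul_left (pow_subset_pow_left AM))
        _ ⊆ A ^ 3 * A ^ (k + 1) := mul_subset_mul_right A3
        _ = A ^ (k + 1 + 3) := by rw [← pow_add, add_comm 3]
  have Ainf : A.Infinite := by
    intro hfin
    obtain ⟨x, hx⟩ := hne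
    have h1 : {u | x * u ∈ M}.Finite := by
      have h3 : (A ^ 3).Finite := by rw [pow_three']; exact (hfin.mul hfin).mul hfin
      refine (h3.preimage (f := fun u => x * x * (x * u))
        ((mul_right_injective _).comp (mul_right_injective x)).injOn).subset fun u hu => A3 ?_
      rw [pow_three']
      exact ⟨_, ⟨x, hx, x, hx, rfl⟩, _, hu, rfl⟩
    obtain ⟨u, hu1, hu2⟩ := ((h x hx).and (hp h1.compl_mem_cofinite)).exists
    exact hu2 hu1.1
  let a := Ainf.natEmbedding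
  let b : ℕ → G := fun n => (a n).1⁻¹ * g
  have binj : Function.Injective b := fun m n hmn =>
    a.injective (Subtype.ext (inv_injective (mul_right_cancel hmn)))
  have bA : ∀ n, b n ∉ A := fun n hn => Afr _ (a n).2 _ hn (by simp [b])
  have hI : ⋂ q, A ∪ b '' Ici q = A := by
    refine Subset.antisymm (fun x hx => ?_) (subset_iInter fun q => subset_union_left)
    by_contra hxA
    obtain ⟨n, -, rfl⟩ := (mem_iInter.1 hx 0).resolve_left hxA
    obtain ⟨m, hm, hmn⟩ := (mem_iInter.1 hx (n + 1)).resolve_left hxA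
    have := binj hmn
    simp only [mem_Ici] at hm
    omega
  refine ⟨fun q => A ∪ b '' Ici q, fun q => ⟨union_subset_union_right _
    (image_mono (Ici_subset_Ici.2 (Nat.le_succ q))), fun hq => ?_⟩, ?_⟩
  · obtain ⟨m, hm, hmn⟩ := (hq (Or.inr ⟨q, le_refl q, rfl⟩)).resolve_left (bA q)
    have := binj hmn
    simp only [mem_Ici] at hm
    omega
  · ext k
    simp only [H, mem_ofPred_eq, hI]
    refine and_congr_right fun hk => ⟨?_, fun h2 => ?_⟩
    · rintro hk rfl
      have : g ∈ A ^ 2 := by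
        rw [hk]
        refine mem_iInter.2 fun q => ?_
        rw [pow_two]
        exact ⟨_, Or.inl (a q).2, _, Or.inr ⟨q, le_refl q, rfl⟩, by simp [b]⟩
      rw [pow_two] at this
      obtain ⟨x, hx, y, hy, hxy⟩ := this
      exact Afr x hx y hy hxy
    · obtain rfl | ⟨k, rfl⟩ : k = 1 ∨ ∃ j, k = j + 3 := by
        rcases Nat.lt_or_ge k 3 with h | h
        · omega
        · exact Or.inr ⟨k - 3, by omega⟩
      · simp [hI]
      · refine Subset.antisymm (subset_iInter fun q => pow_subset_pow_left subset_union_left)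
          ((iInter_subset _ 0).trans ((pow_subset_pow_left ?_).trans (Ah k)))
        rintro x (hx | ⟨n, -, rfl⟩)
        · exact AM hx
        · exact hi _ (AM (a n).2)

theorem main [Infinite G] :
    ∃ A : ℕ → Set G, (∀ q, A (q + 1) ⊂ A q) ∧ H A = {h | 1 ≤ h ∧ h ≠ 2} := by
  have hK : ∀ x : G, ∃ K : Subgroup G, x ∈ K ∧ (K : Set G).Infinite ∧ (K : Set G).Countable := by
    intro x
    let e := Infinite.natEmbedding G
    let f : Option ℕ → G := fun o => o.elim x e
    refine ⟨(FreeGroup.lift f).range, ⟨FreeGroup.of none, by simp [f]⟩,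
      infinite_of_injective_forall_mem e.injective fun n => ⟨FreeGroup.of (some n), by simp [f]⟩,
      countable_range _⟩
  by_cases hx : ∃ x : G, x * x ≠ 1
  · obtain ⟨x, hx⟩ := hx
    obtain ⟨K, hxK, hinf, hc⟩ := hK x
    obtain ⟨U, h1, h2, h3⟩ := exists_idem K hinf
    have hinv : ∀ a : G, a * a ≠ 1 → a⁻¹ * a⁻¹ ≠ 1 := fun a ha h => ha (by
      rw [← mul_inv_rev, inv_eq_one] at h; exact h)
    refine core 1 (by simp) {x | x ∈ K ∧ x * x ≠ 1} (fun _ h => h.2) (hc.mono fun _ h => h.1)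
      ⟨x, hxK, hx⟩ (fun a ha => ?_) U h1 (fun a ha => ?_)
    · rw [mul_one]
      exact ⟨K.inv_mem ha.1, hinv a ha.2⟩
    · filter_upwards [h2, idem_large U h3 a ha.2, idem_large U h3 a⁻¹ (hinv a ha.2)] with u k1 k2 k3
      refine ⟨⟨K.mul_mem ha.1 k1, k2⟩, K.mul_mem (K.inv_mem k1) ha.1, ?_⟩
      simpa using hinv _ k3
  · push Not at hx
    obtain ⟨g, hg⟩ := exists_ne (1 : G)
    obtain ⟨K, hxK, hinf, hc⟩ := hK g
    obtain ⟨U, h1, h2, -⟩ := exists_idem K hinf
    refine core g (fun y => ?_) K (fun y _ => by rw [hx]; exact hg.symm) hc ⟨g, hxK⟩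
      (fun a ha => K.mul_mem (K.inv_mem ha) hxK) U h1 (fun a ha => ?_)
    · have e1 := eq_inv_of_mul_eq_one_left (hx (g * y))
      rw [mul_inv_rev, ← eq_inv_of_mul_eq_one_left (hx g), ← eq_inv_of_mul_eq_one_left (hx y)] at e1
      exact e1
    · filter_upwards [h2] with u k1 using ⟨K.mul_mem ha k1, K.mul_mem (K.inv_mem k1) ha⟩

end Pool.Agent.H14.ProdInt
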