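import Mathlib

set_option autoImplicit false

namespace Pool.Agent.H14.PurInf

section
variable {B : Type} [Ring B] [Algebra ℝ B] [TopologicalSpace B] [IsTopologicalRing B]
  [ContinuousSMul ℝ B]

lemma unip (n : B) (hn : n * n = 0) :
    ∃ g : Bˣ, g ∈ connectedComponent (1 : Bˣ) ∧ (g : B) = 1 + n := by
  let f : ℝ → Bˣ := fun t => ⟨1 + t • n, 1 - t • n, by simp [mul_sub, add_mul, hn],
    by simp [mul_add, sub_mul, hn]⟩
  have hf : Continuous f := Units.continuous_iff.2
    ⟨show Continuous fun t : ℝ => 1 + t • n by fun_prop,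
      show Continuous fun t : ℝ => 1 - t • n by fun_prop⟩
  refine ⟨f 1, (isPreconnected_range hf).subset_connectedComponent ⟨0, ?_⟩ ⟨1, rfl⟩, by simp [f]⟩
  ext
  simp [f]

omit [Algebra ℝ B] [ContinuousSMul ℝ B] in
lemma cc_mul {g h : Bˣ} (u : Bˣ) (hg : g ∈ connectedComponent (1 : Bˣ))
    (hh : h ∈ connectedComponent (1 : Bˣ)) : g * u * h ∈ connectedComponent u := by
  have h1 : g * u ∈ connectedComponent u := by
    simpa using (continuous_mul_const u).image_connectedComponent_subset 1 ⟨g, hg, rfl⟩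
  have h2 : g * u * h ∈ connectedComponent (g * u) := by
    simpa using (continuous_const_mul (g * u)).image_connectedComponent_subset 1 ⟨h, hh, rfl⟩
  rwa [connectedComponent_eq h1]

lemma move {e k y : B} (he : e * e = e) (hk : k * e = k) (hy : y * (1 - e) * k = e) :
    ∃ g : Bˣ, g ∈ connectedComponent (1 : Bˣ) ∧ g * e = k := by
  have h0 : e * (1 - e) = 0 := by rw [mul_sub, he, mul_one, sub_self]
  have h0' : (1 - e) * e = 0 := by rw [sub_mul, he, one_mul, sub_self]
  obtain ⟨g₁, h1, h2⟩ := unip ((1 - e) * k) (by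
    rw [← hk, show (1 - e) * (k * e) * ((1 - e) * (k * e)) =
      (1 - e) * k * (e * (1 - e)) * (k * e) by noncomm_ring, h0, mul_zero, zero_mul])
  obtain ⟨g₂, h3, h4⟩ := unip (e * (k - 1) * e * y * (1 - e)) (by
    rw [show e * (k - 1) * e * y * (1 - e) * (e * (k - 1) * e * y * (1 - e)) =
      e * (k - 1) * e * y * ((1 - e) * e) * ((k - 1) * e * y * (1 - e)) by noncomm_ring, h0',
      mul_zero, zero_mul])
  refine ⟨g₂ * g₁ * 1, ?_, ?_⟩
  · rw [connectedComponent_eq h1]
    exact cc_mul g₁ h3 mem_connectedComponent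
  · have h5 : (1 - e) * (1 - e) = 1 - e := by rw [mul_sub, h0', mul_one, sub_zero]
    rw [mul_one, Units.val_mul, h2, h4]
    calc _ = e + (1 - e) * (k * e) + e * (k - 1) * e * y * ((1 - e) * e) +
          e * (k - 1) * e * (y * ((1 - e) * (1 - e)) * (k * e)) := by noncomm_ring
      _ = e + (1 - e) * k + e * (k - 1) * (e * e) := by
          rw [h0', h5, hk, hy, mul_zero, add_zero, mul_assoc _ e e]
      _ = e + (1 - e) * k + e * (k - 1) * e := by rw [he]
      _ = k + e * (k * e - k) + (e - e * e) := by noncomm_ring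
      _ = k := by rw [hk, he]; simp

lemma fix (u : Bˣ) {e y c : B} (he : e * e = e) (h : y * ((1 - e) * u * (1 - e)) * c = e) :
    ∃ d : Bˣ, d ∈ connectedComponent u ∧ d * e = e ∧ e * d = e := by
  have h0 : e * (1 - e) = 0 := by rw [mul_sub, he, mul_one, sub_self]
  have h0' : (1 - e) * e = 0 := by rw [sub_mul, he, one_mul, sub_self]
  have h5 : (1 - e) * (1 - e) = 1 - e := by rw [mul_sub, h0', mul_one, sub_zero]
  obtain ⟨g, h1, h2⟩ := move (k := u * ((1 - e) * c * e)) (y := y) he
    (by rw [mul_assoc, mul_assoc, he]) (by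
      conv_rhs => rw [← he]
      nth_rw 4 [← h]
      noncomm_ring)
  obtain ⟨f, h3, h4⟩ := move (k := (1 - e) * c * e) (y := y * (1 - e) * u) he
    (by rw [mul_assoc, he]) (by
      rw [show y * (1 - e) * u * (1 - e) * ((1 - e) * c * e) =
        y * ((1 - e) * u * ((1 - e) * (1 - e))) * c * e by noncomm_ring, h5, h, he])
  have h6 : ((g⁻¹ * u * f : Bˣ) : B) * e = e := by
    rw [Units.val_mul, Units.val_mul, mul_assoc, h4, mul_assoc, ← h2, Units.inv_mul_cancel_left]
  have h7 := cc_mul u (inv_mem_connectedComponent_one h1) h3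
  set d : Bˣ := g⁻¹ * u * f
  obtain ⟨n, h8, h9⟩ := unip (-(e * d * (1 - e))) (by
    rw [neg_mul_neg, show e * d * (1 - e) * (e * d * (1 - e)) =
      e * d * ((1 - e) * e) * (d * (1 - e)) by noncomm_ring, h0', mul_zero, zero_mul])
  refine ⟨1 * d * n, ?_, ?_, ?_⟩
  · rw [connectedComponent_eq h7]
    exact cc_mul d mem_connectedComponent h8
  · rw [one_mul, Units.val_mul, h9, mul_assoc, add_mul, neg_mul, mul_assoc _ _ e, h0']
    simpa using h6
  · rw [one_mul, Units.val_mul, h9]
    calc _ = e * (d * e) + e * d * (1 - e) - e * (d * e) * d * (1 - e) := by noncomm_ring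
      _ = e := by rw [h6, he]; simp

end

lemma exists_seq {A : Type} [Ring A] (h1 : ∃ x : A, x ≠ 0 ∧ ¬ IsUnit x)
    (h2 : ∀ x : A, x ≠ 0 → ∃ a b : A, a * x * b = 1) :
    ∃ x y : ℕ → A, ∀ i j, y i * x j = if i = j then 1 else 0 := by
  obtain ⟨s, t, h3, h4⟩ : ∃ s t : A, t * s = 1 ∧ s * t ≠ 1 := by
    by_contra h
    push Not at h
    obtain ⟨x, hx, hu⟩ := h1
    obtain ⟨a, b, hab⟩ := h2 x hx
    have h5 := h _ _ hab
    rw [← mul_assoc] at h5
    exact hu ⟨⟨x, b * a, h _ _ h5, h5⟩, rfl⟩
  obtain ⟨b, c, h5⟩ := h2 (1 - s * t) (sub_ne_zero.2 h4.symm)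
  have h6 : (1 - s * t) * s = 0 := by rw [sub_mul, mul_assoc, h3]; simp
  have h7 : t * (1 - s * t) = 0 := by rw [mul_sub, ← mul_assoc, h3]; simp
  refine ⟨fun j => s ^ j * ((1 - s * t) * c), fun i => b * (1 - s * t) * t ^ i, fun i => ?_⟩
  induction i with
  | zero =>
    rintro (_ | j)
    · simp only [pow_zero, mul_one, one_mul, if_true]
      rw [show b * (1 - s * t) * ((1 - s * t) * c) =
        b * (1 - s * t) * c - b * ((1 - s * t) * s) * t * c by noncomm_ring, h6, h5]
      simp
    · simp only [pow_zero, mul_one, pow_succ']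
      rw [if_neg (by omega), mul_assoc s, mul_assoc b, ← mul_assoc _ s, h6]
      simp
  | succ i ih =>
    rintro (_ | j)
    · simp only [pow_zero, one_mul, pow_succ]
      rw [if_neg (by omega), mul_assoc, mul_assoc _ t, ← mul_assoc t, h7]
      simp
    · have := ih j
      simp only [add_left_inj] at this ⊢
      rw [← this, pow_succ, pow_succ' s]
      calc _ = b * (1 - s * t) * t ^ i * (t * s) * (s ^ j * ((1 - s * t) * c)) := by
            simp only [mul_assoc]
        _ = _ := by rw [h3, mul_one]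

/-- compression of matrices along a system of isometries -/
def theta {A : Type} [Ring A] {n : Type} [Fintype n] [DecidableEq n] (X Y : n → A)
    (h : ∀ i j, Y i * X j = if i = j then 1 else 0) : Matrix n n A →* A where
  toFun M := (X ⬝ᵥ M.mulVec Y) + (1 - X ⬝ᵥ Y)
  map_one' := by simp
  map_mul' M N := by
    have h1 : ∀ v w : n → A, (v ⬝ᵥ Y) * (X ⬝ᵥ w) = v ⬝ᵥ w := by
      intro v w
      simp only [dotProduct, Finset.sum_mul_sum]
      refine Finset.sum_congr rfl fun i _ => ?_
      rw [Finset.sum_congr rfl (g := fun j => if i = j then v i * w j else 0)]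
      · simp
      · intro j _
        rw [mul_assoc, ← mul_assoc (Y i), h]
        split_ifs <;> simp
    have h2 := h1 (Matrix.vecMul X M) (N.mulVec Y)
    have h3 := h1 (Matrix.vecMul X M) Y
    have h4 := h1 X (N.mulVec Y)
    have h5 := h1 X Y
    rw [← Matrix.dotProduct_mulVec] at h2 h3
    rw [← Matrix.dotProduct_mulVec, Matrix.mulVec_mulVec] at h2
    simp only [add_mul, mul_add, mul_sub, sub_mul, h2, h3, h4, h5]
    simp

lemma theta_cont {A : Type} [Ring A] [TopologicalSpace A] [IsTopologicalRing A] {n : Type}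
    [Fintype n] [DecidableEq n] (X Y : n → A)
    (h : ∀ i j, Y i * X j = if i = j then 1 else 0) : Continuous (theta X Y h) :=
  (continuous_const.dotProduct (continuous_id.matrix_mulVec continuous_const)).add continuous_const

section
variable {A : Type} [Ring A] [Algebra ℝ A] [TopologicalSpace A] [IsTopologicalRing A]
  [ContinuousSMul ℝ A]

lemma inj (h1 : ∃ x : A, x ≠ 0 ∧ ¬ IsUnit x) (h2 : ∀ x : A, x ≠ 0 → ∃ a b : A, a * x * b = 1)
    (m : ℕ) (a : Aˣ) (U : (Matrix (Fin (m+1)) (Fin (m+1)) A)ˣ)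
    (hU : (U : Matrix (Fin (m+1)) (Fin (m+1)) A) =
      Matrix.diagonal (fun i : Fin (m+1) => if i = 0 then (a : A) else 1))
    (h : U ∈ connectedComponent (1 : (Matrix (Fin (m+1)) (Fin (m+1)) A)ˣ)) :
    a ∈ connectedComponent (1 : Aˣ) := by
  obtain ⟨x, y, hxy⟩ := exists_seq h1 h2
  obtain ⟨s, t, h3, h4⟩ : ∃ s t : A, t * s = 1 ∧ (1 - s * t) * a * (1 - s * t) ≠ 0 := by
    by_contra h
    push Not at h
    have h5 := congrArg (fun z => y 1 * z * x 2) (h (x 0) (y 0) (by simp [hxy]))
    have h6 := congrArg (fun z => z * x 2) (h (x 1) (y 1) (by simp [hxy]))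
    simp only [mul_assoc, sub_mul, hxy, mul_sub, ← mul_assoc (y 1) (x 0)] at h5 h6
    simp at h5
    simp [h5] at h6
    obtain ⟨z, hz, -⟩ := h1
    have h7 := hxy 2 2
    rw [h6, mul_zero, if_pos rfl] at h7
    exact hz (by rw [← mul_one z, ← h7, mul_zero])
  obtain ⟨b, c, h5⟩ := h2 _ h4
  have he : s * t * (s * t) = s * t := by rw [mul_assoc, ← mul_assoc t, h3, one_mul]
  obtain ⟨d, h6, h7, h8⟩ := fix a (y := b) (c := c * (s * t)) he (by rw [← mul_assoc, h5, one_mul])
  have h3' : ∀ z, t * (s * z) = z := fun z => by rw [← mul_assoc, h3, one_mul]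
  have hxy' : ∀ i j z, y i * (x j * z) = if i = j then z else 0 := fun i j z => by
    rw [← mul_assoc, hxy]
    split_ifs <;> simp
  let X : Fin (m + 1) → A := fun i => if i = 0 then 1 - s * t + s * x 0 * t else s * x i
  let Y : Fin (m + 1) → A := fun i => if i = 0 then 1 - s * t + s * y 0 * t else y i * t
  have hXY : ∀ i j, Y i * X j = if i = j then 1 else 0 := by
    intro i j
    by_cases hi : i = 0 <;> by_cases hj : j = 0 <;>
      simp [X, Y, hi, hj, mul_add, add_mul, mul_sub, sub_mul, mul_assoc, h3', hxy', hxy,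
        Fin.val_inj, eq_comm (a := (0 : Fin (m + 1))), eq_comm (a := (0 : ℕ))]
  have hX0 : ∀ i j : Unit, Y 0 * X 0 = if i = j then 1 else 0 := fun _ _ => by simp [hXY]
  let Φ : A →* A := (theta (fun _ => X 0) (fun _ => Y 0) hX0).comp
    (Matrix.scalar Unit : A →+* Matrix Unit Unit A).toMonoidHom
  have hΦ : ∀ z, Φ z = X 0 * (z * Y 0) + (1 - X 0 * Y 0) := fun z => by
    simp [Φ, theta, dotProduct, Matrix.mulVec]
  have hc : Continuous Φ := by
    rw [show (Φ : A → A) = _ from funext hΦ]
    fun_prop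
  have h9 := (Continuous.units_map _ (theta_cont X Y hXY)).image_connectedComponent_subset 1
    ⟨U, h, rfl⟩
  have h10 := (Continuous.units_map _ hc).image_connectedComponent_subset a ⟨d, h6, rfl⟩
  have h11 : Units.map (theta X Y hXY) U = Units.map Φ a := by
    ext
    simp [hΦ, hU, theta, dotProduct, Matrix.mulVec_diagonal, Fin.sum_univ_succ]
    abel
  have h12 : Units.map Φ d = d := by
    have h13 : ∀ z, (d : A) * (s * z) = s * z := fun z => by
      simpa [mul_assoc, h3'] using congrArg (fun w => w * (s * z)) h7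
    have h14 : t * (d : A) = t := by
      rw [← h3' (t * d), ← mul_assoc s, h8, h3']
    ext
    simp [hΦ, X, Y, mul_add, add_mul, mul_sub, sub_mul, mul_assoc, h3', h13, h14]
    abel
  rw [map_one, h11] at h9
  rw [h12, ← connectedComponent_eq h9] at h10
  rw [connectedComponent_eq h10, ← connectedComponent_eq h6]
  exact mem_connectedComponent

lemma surj (h1 : ∃ x : A, x ≠ 0 ∧ ¬ IsUnit x) (h2 : ∀ x : A, x ≠ 0 → ∃ a b : A, a * x * b = 1)
    {n : Type} [Fintype n] [DecidableEq n] (o : n) (U : (Matrix n n A)ˣ) :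
    ∃ (a : Aˣ) (W : (Matrix n n A)ˣ), (W : Matrix n n A) =
      Matrix.diagonal (fun i => if i = o then (a : A) else 1) ∧ W ∈ connectedComponent U := by
  obtain ⟨x, y, hxy⟩ := exists_seq h1 h2
  obtain ⟨V, h3, h4⟩ : ∃ V : (Matrix n n A)ˣ, V ∈ connectedComponent U ∧ V.1 o o ≠ 0 := by
    by_cases h : U.1 o o = 0
    · obtain ⟨i, hi⟩ : ∃ i, U.1 i o ≠ 0 := by
        by_contra h'
        push Not at h'
        have h5 := congrFun (congrFun U.inv_mul o) o
        simp only [Matrix.mul_apply, h', mul_zero, Finset.sum_const_zero, Matrix.one_apply_eq] at h5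
        obtain ⟨z, hz, -⟩ := h1
        exact hz (by rw [← mul_one z, ← h5, mul_zero])
      have hio : i ≠ o := fun h' => hi (h' ▸ h)
      obtain ⟨g, h5, h6⟩ := unip (Matrix.single o i (1 : A))
        (Matrix.single_mul_single_of_ne _ _ _ _ hio _)
      refine ⟨g * U * 1, cc_mul U h5 mem_connectedComponent, ?_⟩
      simpa [h6, add_mul, h] using hi
    · exact ⟨U, mem_connectedComponent, h⟩
  obtain ⟨b, c, h5⟩ := h2 _ h4
  let f := Fintype.equivFin n
  have hE : Matrix.single o o (1 : A) * Matrix.single o o (1 : A) = Matrix.single o o 1 := by simp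
  have he : (1 - Matrix.single o o (1 : A)) * (1 - Matrix.single o o (1 : A)) =
      1 - Matrix.single o o (1 : A) := by simp [mul_sub, sub_mul, hE]
  obtain ⟨d, h6, h7, h8⟩ := fix V (y := Matrix.of fun i _ => y (f i) * b)
    (c := Matrix.of (fun _ j => c * x (f j)) * (1 - Matrix.single o o (1 : A))) he (by
      rw [← mul_assoc, sub_sub_cancel]
      convert one_mul _ using 2
      ext i j
      rw [Matrix.single_mul_mul_single, mul_assoc, Matrix.mul_apply, Finset.sum_eq_single o]
      · simp only [Matrix.of_apply, Matrix.single_mul_apply_same, one_mul, mul_one]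
        rw [mul_assoc, ← mul_assoc (V.1 o o), ← mul_assoc b, ← mul_assoc b, h5, one_mul, hxy]
        simp [Matrix.one_apply, Fin.val_inj]
      · intro k _ hk
        simp [hk]
      · simp)
  have key : ∀ M : Matrix n n A, M * (1 - Matrix.single o o (1 : A)) = 1 - Matrix.single o o 1 →
      (1 - Matrix.single o o (1 : A)) * M = 1 - Matrix.single o o 1 →
      M = Matrix.diagonal fun i => if i = o then M o o else 1 := by
    intro M hM hM'
    ext i j
    have h9 := congrFun (congrFun hM i) j
    have h10 := congrFun (congrFun hM' i) j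
    by_cases hj : j = o
    · by_cases hi : i = o
      · simp [hi, hj]
      · simpa [sub_mul, hi, hj, Ne.symm hi, Matrix.one_apply] using h10
    · simp only [mul_sub, mul_one, Matrix.sub_apply, Matrix.mul_single_apply_of_ne _ _ _ _ _ hj,
        sub_zero, Matrix.single_apply, Ne.symm hj, and_false, if_false] at h9
      rw [h9, Matrix.diagonal_apply, Matrix.one_apply]
      split_ifs with h11 h12
      · exact absurd (h11 ▸ h12) hj
      · rfl
      · rfl
  have k1 := key _ h7 h8
  have k2 := key (d⁻¹ : (Matrix n n A)ˣ) (by rw [Units.inv_mul_eq_iff_eq_mul, h7])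
    (by rw [Units.mul_inv_eq_iff_eq_mul, h8])
  refine ⟨⟨d.1 o o, (d⁻¹).1 o o, ?_, ?_⟩, d, k1, by rwa [connectedComponent_eq h3]⟩
  · have := congrFun (congrFun d.mul_inv o) o
    rw [k1, Matrix.diagonal_mul] at this
    simpa using this
  · have := congrFun (congrFun d.inv_mul o) o
    rw [k2, Matrix.diagonal_mul] at this
    simpa using this

end

end Pool.Agent.H14.PurInf
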