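import Pool.Agent.H14.QODef

set_option autoImplicit false
set_option maxHeartbeats 800000
open Matrix Quaternion

namespace Pool.Agent.H14.QO

section A
variable {ι : Type} [Fintype ι]

noncomputable def rm (v : ι → ℍ[ℝ]) (a : ℍ[ℝ]) : ι → ℍ[ℝ] := fun i => v i * a

lemma mv_rm {κ : Type} (C : Matrix κ ι ℍ[ℝ]) (v : ι → ℍ[ℝ]) (a : ℍ[ℝ]) :
    C *ᵥ rm v a = rm (C *ᵥ v) a := by
  ext1 i
  simp [rm, Matrix.mulVec, dotProduct, Finset.sum_mul, mul_assoc]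

lemma dot_rm (u v : ι → ℍ[ℝ]) (a : ℍ[ℝ]) : u ⬝ᵥ rm v a = (u ⬝ᵥ v) * a := by
  simp [rm, dotProduct, Finset.sum_mul, mul_assoc]

lemma rm_dot (u v : ι → ℍ[ℝ]) (a : ℍ[ℝ]) : star (rm u a) ⬝ᵥ v = star a * (star u ⬝ᵥ v) := by
  simp [rm, dotProduct, Finset.mul_sum, mul_assoc]

omit [Fintype ι] in
lemma rm_rm (v : ι → ℍ[ℝ]) (a b : ℍ[ℝ]) : rm (rm v a) b = rm v (a * b) := by
  ext1 i; simp [rm, mul_assoc]

noncomputable def qf (K : Matrix ι ι ℍ[ℝ]) (v w : ι → ℍ[ℝ]) : ℍ[ℝ] := star v ⬝ᵥ K *ᵥ w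

lemma qf_rm (K : Matrix ι ι ℍ[ℝ]) (v w : ι → ℍ[ℝ]) (a : ℍ[ℝ]) : qf K v (rm w a) = qf K v w * a := by
  simp [qf, mv_rm, dot_rm]

lemma rm_qf (K : Matrix ι ι ℍ[ℝ]) (v w : ι → ℍ[ℝ]) (a : ℍ[ℝ]) :
    qf K (rm v a) w = star a * qf K v w := by
  simp [qf, rm_dot]

lemma qf_add (K : Matrix ι ι ℍ[ℝ]) (v w u : ι → ℍ[ℝ]) : qf K v (w + u) = qf K v w + qf K v u := by
  simp [qf, Matrix.mulVec_add]

lemma add_qf (K : Matrix ι ι ℍ[ℝ]) (v w u : ι → ℍ[ℝ]) : qf K (v + w) u = qf K v u + qf K w u := by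
  simp [qf]

lemma qf_smul (K : Matrix ι ι ℍ[ℝ]) (v w : ι → ℍ[ℝ]) (a : ℝ) : qf K v (a • w) = a • qf K v w := by
  simp [qf, Matrix.mulVec_smul]

lemma smul_qf (K : Matrix ι ι ℍ[ℝ]) (v w : ι → ℍ[ℝ]) (a : ℝ) : qf K (a • v) w = a • qf K v w := by
  have : star (a • v) = a • star v := by
    ext1 i; simp [Quaternion.star_smul]
  simp [qf, this]

lemma qf_adj (K P : Matrix ι ι ℍ[ℝ]) (v w : ι → ℍ[ℝ]) : qf K (P *ᵥ v) w = qf (Pᴴ * K) v w := by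
  simp only [qf, Matrix.star_mulVec, ← Matrix.mulVec_mulVec, Matrix.dotProduct_mulVec]

lemma qf_adj' (K P : Matrix ι ι ℍ[ℝ]) (v w : ι → ℍ[ℝ]) : qf K v (P *ᵥ w) = qf (K * P) v w := by
  simp only [qf, Matrix.mulVec_mulVec]

lemma qf_neg (K : Matrix ι ι ℍ[ℝ]) (v w : ι → ℍ[ℝ]) : qf (-K) v w = -qf K v w := by
  simp [qf, Matrix.neg_mulVec]

lemma qf_star (K : Matrix ι ι ℍ[ℝ]) (hK : Kᴴ = K) (v : ι → ℍ[ℝ]) : star (qf K v v) = qf K v v := by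
  rw [qf, ← Matrix.star_dotProduct, Matrix.star_mulVec, hK, Matrix.dotProduct_mulVec]

def lam (μ : ℝ) : ℍ[ℝ] := ⟨0, μ, 0, 0⟩
def jj : ℍ[ℝ] := ⟨0, 0, 1, 0⟩

lemma cross (K C : Matrix ι ι ℍ[ℝ]) (hs : Cᴴ * K = -(K * C)) (μ : ℝ) (hμ : μ ≠ 0)
    (u w : ι → ℍ[ℝ]) (hu : C *ᵥ u = rm u (lam μ)) (hw : C *ᵥ w = rm w (lam μ)) :
    (qf K u w).imJ = 0 := by
  have h1 := qf_adj K C u w
  rw [hs, qf_neg, ← qf_adj', hu, hw, rm_qf, qf_rm] at h1
  have h2 := congrArg (fun s : ℍ[ℝ] => s.imK) h1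
  simp [lam] at h2
  have : μ * (qf K u w).imJ = 0 := by linarith
  exact (mul_eq_zero.1 this).resolve_left hμ

lemma decomp (K C : Matrix ι ι ℍ[ℝ]) (hs : Cᴴ * K = -(K * C)) (μ : ℝ) (hμ : μ ≠ 0)
    (v : ι → ℍ[ℝ]) (hv : C *ᵥ (C *ᵥ v) + μ ^ 2 • v = 0) :
    ∃ u w : ι → ℍ[ℝ], C *ᵥ u = rm u (lam μ) ∧ C *ᵥ w = rm w (lam μ) ∧ v = u + rm w jj ∧
      (qf K v v).re = (qf K u u).re + (qf K w w).re := by
  have hv' : C *ᵥ (C *ᵥ v) = -(μ ^ 2 • v) := eq_neg_of_add_eq_zero_left hv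
  have key : ∀ u w : ι → ℍ[ℝ], C *ᵥ u = rm u (lam μ) → C *ᵥ w = rm w (lam μ) → v = u + rm w jj →
      (qf K v v).re = (qf K u u).re + (qf K w w).re := by
    intro u w hu hw h
    have c1 := cross K C hs μ hμ u w hu hw
    have c2 := cross K C hs μ hμ w u hw hu
    rw [h, add_qf, qf_add, qf_add, qf_rm, rm_qf, qf_rm, rm_qf]
    simp [jj, c1, c2]
  have hu : C *ᵥ ((1 / 2 : ℝ) • (v - rm (C *ᵥ v) (lam μ⁻¹))) =
      rm ((1 / 2 : ℝ) • (v - rm (C *ᵥ v) (lam μ⁻¹))) (lam μ) := by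
    rw [Matrix.mulVec_smul, Matrix.mulVec_sub, mv_rm, hv']
    ext1 i
    generalize (C *ᵥ v) = y
    ext <;> simp [rm, lam] <;> field_simp <;> ring
  have hw : C *ᵥ rm ((1 / 2 : ℝ) • (v + rm (C *ᵥ v) (lam μ⁻¹))) (-jj) =
      rm (rm ((1 / 2 : ℝ) • (v + rm (C *ᵥ v) (lam μ⁻¹))) (-jj)) (lam μ) := by
    rw [mv_rm, Matrix.mulVec_smul, Matrix.mulVec_add, mv_rm, hv']
    ext1 i
    generalize (C *ᵥ v) = y
    ext <;> simp [rm, lam, jj] <;> field_simp <;> ring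
  have hd : v = (1 / 2 : ℝ) • (v - rm (C *ᵥ v) (lam μ⁻¹)) +
      rm (rm ((1 / 2 : ℝ) • (v + rm (C *ᵥ v) (lam μ⁻¹))) (-jj)) jj := by
    ext1 i
    generalize (C *ᵥ v) = y
    ext <;> simp [rm, lam, jj] <;> ring
  exact ⟨_, _, hu, hw, hd, key _ _ hu hw hd⟩

lemma qf_zero (K : Matrix ι ι ℍ[ℝ]) (v : ι → ℍ[ℝ]) : qf K 0 v = 0 := by simp [qf]

lemma signE (K C : Matrix ι ι ℍ[ℝ]) (a : ℍ[ℝ])
    (hno : ∀ u : ι → ℍ[ℝ], u ≠ 0 → C *ᵥ u = rm u a → (qf K u u).re ≠ 0) :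
    (∀ u : ι → ℍ[ℝ], u ≠ 0 → C *ᵥ u = rm u a → 0 < (qf K u u).re) ∨
    (∀ u : ι → ℍ[ℝ], u ≠ 0 → C *ᵥ u = rm u a → (qf K u u).re < 0) := by
  by_contra h
  push Not at h
  obtain ⟨⟨e, he0, he, he1⟩, ⟨f, hf0, hf, hf1⟩⟩ := h
  have he2 : (qf K e e).re < 0 := lt_of_le_of_ne he1 (hno e he0 he)
  have hf2 : 0 < (qf K f f).re := lt_of_le_of_ne hf1 (hno f hf0 hf).symm
  set g : ℝ → ℝ := fun t => (1 - t) * ((1 - t) * (qf K e e).re + t * (qf K e f).re) +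
    t * ((1 - t) * (qf K f e).re + t * (qf K f f).re) with hg
  have hc : ContinuousOn g (Set.Icc 0 1) := by
    apply Continuous.continuousOn
    simp only [hg]; fun_prop
  obtain ⟨t, ⟨ht0, ht1⟩, ht⟩ := intermediate_value_Ioo zero_le_one hc
    (show (0 : ℝ) ∈ Set.Ioo (g 0) (g 1) by simp [hg, he2, hf2])
  have hz : (1 - t) • e + t • f ≠ 0 := by
    intro h0
    have h1 : t • f = (t - 1) • e := by
      have := eq_neg_of_add_eq_zero_right h0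
      rw [this, ← neg_smul]; congr 1; ring
    have h2 : (qf K (t • f) (t • f)).re = (qf K ((t - 1) • e) ((t - 1) • e)).re := by rw [h1]
    simp only [qf_smul, smul_qf, Quaternion.re_smul, smul_eq_mul] at h2
    have h3 : 0 < t * (t * (qf K f f).re) := by positivity
    have h4 : 0 ≤ (t - 1) * (t - 1) * (-(qf K e e).re) :=
      mul_nonneg (mul_self_nonneg _) (by linarith)
    nlinarith
  apply hno _ hz
  · rw [Matrix.mulVec_add, Matrix.mulVec_smul, Matrix.mulVec_smul, he, hf]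
    ext1 i
    simp [rm, add_mul]
  · rw [add_qf, qf_add, qf_add]
    simp only [qf_smul, smul_qf, Quaternion.re_smul, Quaternion.re_add, smul_eq_mul]
    simp only [hg] at ht
    linarith

lemma absdef [DecidableEq ι] (K C : Matrix ι ι ℍ[ℝ]) (hs : Cᴴ * K = -(K * C)) (μ : ℝ) (hμ : μ ≠ 0)
    (hno : ∀ u : ι → ℍ[ℝ], u ≠ 0 → C *ᵥ u = rm u (lam μ) → (qf K u u).re ≠ 0) (N : ℕ) :
    (∀ v : ι → ℍ[ℝ], v ≠ 0 → ((C ^ 2 + μ ^ 2 • (1 : Matrix ι ι ℍ[ℝ])) ^ N) *ᵥ v = 0 →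
      0 < (qf K v v).re) ∨
    (∀ v : ι → ℍ[ℝ], v ≠ 0 → ((C ^ 2 + μ ^ 2 • (1 : Matrix ι ι ℍ[ℝ])) ^ N) *ᵥ v = 0 →
      (qf K v v).re < 0) := by
  set P := C ^ 2 + μ ^ 2 • (1 : Matrix ι ι ℍ[ℝ]) with hP
  have hPv : ∀ v, P *ᵥ v = C *ᵥ (C *ᵥ v) + μ ^ 2 • v := by
    intro v
    rw [hP, Matrix.add_mulVec, pow_two C, Matrix.mulVec_mulVec, Matrix.smul_mulVec, Matrix.one_mulVec]
  have hPK : Pᴴ * K = K * P := by
    rw [hP, Matrix.conjTranspose_add, pow_two C, Matrix.conjTranspose_mul, Matrix.add_mul,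
      Matrix.mul_add, Matrix.mul_assoc, hs, Matrix.mul_neg, ← Matrix.mul_assoc, hs]
    have : (μ ^ 2 • (1 : Matrix ι ι ℍ[ℝ]))ᴴ = μ ^ 2 • (1 : Matrix ι ι ℍ[ℝ]) := by
      ext1 i j
      by_cases h : i = j
      · subst h; simp [Quaternion.star_smul]
      · simp [Matrix.one_apply, h, Ne.symm h]
    simp [Matrix.mul_assoc, this]
  have h0 : (∀ v : ι → ℍ[ℝ], v ≠ 0 → P *ᵥ v = 0 → 0 < (qf K v v).re) ∨
      (∀ v : ι → ℍ[ℝ], v ≠ 0 → P *ᵥ v = 0 → (qf K v v).re < 0) := by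
    rcases signE K C (lam μ) hno with h | h
    · left
      intro v hv0 hv
      rw [hPv] at hv
      obtain ⟨u, w, hu, hw, hd, he⟩ := decomp K C hs μ hμ v hv
      by_cases u0 : u = 0
      · have w0 : w ≠ 0 := by
          rintro rfl
          apply hv0
          rw [hd, u0]; ext1 i; simp [rm]
        rw [he, u0, qf_zero]
        simpa using h w w0 hw
      · by_cases w0 : w = 0
        · rw [he, w0, qf_zero]
          simpa using h u u0 hu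
        · have := h u u0 hu
          have := h w w0 hw
          linarith
    · right
      intro v hv0 hv
      rw [hPv] at hv
      obtain ⟨u, w, hu, hw, hd, he⟩ := decomp K C hs μ hμ v hv
      by_cases u0 : u = 0
      · have w0 : w ≠ 0 := by
          rintro rfl
          apply hv0
          rw [hd, u0]; ext1 i; simp [rm]
        rw [he, u0, qf_zero]
        simpa using h w w0 hw
      · by_cases w0 : w = 0
        · rw [he, w0, qf_zero]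
          simpa using h u u0 hu
        · have := h u u0 hu
          have := h w w0 hw
          linarith
  have h1 : ∀ v, P *ᵥ (P *ᵥ v) = 0 → P *ᵥ v = 0 := by
    intro v hv
    by_contra hne
    have h2 : qf K (P *ᵥ v) (P *ᵥ v) = 0 := by
      rw [qf_adj, hPK, ← qf_adj', hv]; simp [qf]
    rcases h0 with h | h
    · have := h _ hne hv
      rw [h2] at this
      simp at this
    · have := h _ hne hv
      rw [h2] at this
      simp at this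
  have h2 : ∀ N : ℕ, ∀ v, (P ^ N) *ᵥ v = 0 → P *ᵥ v = 0 := by
    intro N
    induction N with
    | zero => intro v hv; simp at hv; simp [hv]
    | succ N ih =>
      intro v hv
      rw [pow_succ, ← Matrix.mulVec_mulVec] at hv
      exact h1 v (ih _ hv)
  rcases h0 with h | h
  · exact Or.inl fun v a b => h v a (h2 N v b)
  · exact Or.inr fun v a b => h v a (h2 N v b)

end A

end Pool.Agent.H14.QO
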