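import Pool.Agent.H14.QO1

set_option autoImplicit false
set_option maxHeartbeats 800000
open Matrix Quaternion

namespace Pool.Agent.H14.QO

variable {n : ℕ}

lemma hd_sol (y : Fin n → ℍ[ℝ]) (ν : ℍ[ℝ]) (t : ℝ) :
    HasDerivAt (fun t : ℝ => rm y (NormedSpace.exp (t • ν)))
      (rm (rm y ν) (NormedSpace.exp (t • ν))) t := by
  rw [hasDerivAt_pi]
  intro i
  have := (hasDerivAt_exp_smul_const' (𝕂 := ℝ) ν t).const_mul (y i)
  simpa [rm, mul_assoc] using this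

lemma iter_sol (x : Fin n → ℍ[ℝ]) (ν : ℍ[ℝ]) (k : ℕ) :
    iteratedDeriv k (fun t : ℝ => rm x (NormedSpace.exp (t • ν))) =
      fun t : ℝ => rm (rm x (ν ^ k)) (NormedSpace.exp (t • ν)) := by
  induction k with
  | zero => ext1 t; ext1 i; simp [rm]
  | succ k ih =>
    rw [iteratedDeriv_succ, ih]
    ext1 t
    rw [(hd_sol _ ν t).deriv, rm_rm x, pow_succ]

lemma unb (l : ℕ) (A : ℕ → Matrix (Fin n) (Fin n) ℍ[ℝ]) (x : Fin n → ℍ[ℝ]) (hx : x ≠ 0)
    (ν : ℍ[ℝ]) (hν : ν.re ≠ 0) (h : ∑ k ∈ Finset.range (l + 1), A k *ᵥ rm x (ν ^ k) = 0) :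
    ¬ Bdd l A := by
  intro hB
  obtain ⟨B, hB⟩ := hB (fun t : ℝ => rm x (NormedSpace.exp (t • ν))) (by
    apply contDiff_of_differentiable_iteratedDeriv
    intro m _
    rw [iter_sol]
    exact fun t => (hd_sol _ ν t).differentiableAt) (by
    intro t
    simp only [iter_sol, mv_rm]
    ext1 i
    have := congrFun h i
    simp only [mv_rm, Finset.sum_apply, rm, Pi.zero_apply] at this ⊢
    rw [← Finset.sum_mul, this, zero_mul])
  obtain ⟨i, hi⟩ := Function.ne_iff.1 hx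
  have hi' : 0 < ‖x i‖ := norm_pos_iff.2 hi
  have h1 := (norm_le_pi_norm _ i).trans (hB ((B / ‖x i‖) / ν.re))
  simp only [rm, norm_mul, Quaternion.norm_exp, Quaternion.re_smul, smul_eq_mul] at h1
  rw [div_mul_cancel₀ _ hν, ← Real.exp_eq_exp_ℝ, Real.norm_eq_abs, abs_of_pos (Real.exp_pos _)] at h1
  have h2 := Real.add_one_le_exp (B / ‖x i‖)
  have h3 := mul_le_mul_of_nonneg_left h2 hi'.le
  rw [mul_add, mul_div_cancel₀ _ hi'.ne'] at h3
  linarith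

def blk {l : ℕ} (v : Fin l × Fin n → ℍ[ℝ]) (i : Fin l) : Fin n → ℍ[ℝ] := fun r => v (i, r)

lemma blk_mv {l : ℕ} (X : Fin l → Fin l → Matrix (Fin n) (Fin n) ℍ[ℝ])
    (v : Fin l × Fin n → ℍ[ℝ]) (i : Fin l) :
    blk ((Matrix.of fun a b : Fin l × Fin n => X a.1 b.1 a.2 b.2) *ᵥ v) i =
      ∑ j, X i j *ᵥ blk v j := by
  ext1 r
  simp [blk, Matrix.mulVec, dotProduct, Fintype.sum_prod_type]

lemma blk_dot {l : ℕ} (u v : Fin l × Fin n → ℍ[ℝ]) :
    star u ⬝ᵥ v = ∑ i, star (blk u i) ⬝ᵥ blk v i := by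
  simp [blk, dotProduct, Fintype.sum_prod_type]

noncomputable def Cb (l : ℕ) (A : ℕ → Matrix (Fin n) (Fin n) ℍ[ℝ]) (i j : Fin l) :
    Matrix (Fin n) (Fin n) ℍ[ℝ] :=
  if i.val + 1 < l then (if j.val = i.val + 1 then (1 : Matrix (Fin n) (Fin n) ℍ[ℝ]) else 0)
    else -(Ring.inverse (A l) * A j.val)

noncomputable def Gb (l : ℕ) (A : ℕ → Matrix (Fin n) (Fin n) ℍ[ℝ]) (i j : Fin l) :
    Matrix (Fin n) (Fin n) ℍ[ℝ] :=
  if i.val + j.val + 1 ≤ l then (-1 : ℝ) ^ i.val • A (i.val + j.val + 1) else 0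

lemma Cm_eq (l : ℕ) (A : ℕ → Matrix (Fin n) (Fin n) ℍ[ℝ]) :
    Cm l A = Matrix.of fun a b : Fin l × Fin n => Cb l A a.1 b.1 a.2 b.2 := rfl

lemma Gm_eq (l : ℕ) (A : ℕ → Matrix (Fin n) (Fin n) ℍ[ℝ]) :
    Gm l A = Matrix.of fun a b : Fin l × Fin n => Gb l A a.1 b.1 a.2 b.2 := rfl

lemma eig (m : ℕ) (A : ℕ → Matrix (Fin n) (Fin n) ℍ[ℝ]) (hinv : IsUnit (A (m + 1)))
    (v : Fin (m + 1) × Fin n → ℍ[ℝ]) (ν : ℍ[ℝ]) (h : Cm (m + 1) A *ᵥ v = rm v ν) :
    (∀ i : Fin (m + 1), blk v i = rm (blk v 0) (ν ^ i.val)) ∧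
      ∑ k ∈ Finset.range (m + 1 + 1), A k *ᵥ rm (blk v 0) (ν ^ k) = 0 := by
  have hb : ∀ i, ∑ j, Cb (m + 1) A i j *ᵥ blk v j = rm (blk v i) ν := by
    intro i
    rw [← blk_mv, ← Cm_eq, h]; rfl
  have h1 : ∀ i : Fin (m + 1), blk v i = rm (blk v 0) (ν ^ i.val) := by
    intro i
    induction i using Fin.induction with
    | zero => ext1 r; simp [rm]
    | succ i ih =>
      have h2 := hb i.castSucc
      rw [Finset.sum_eq_single i.succ] at h2
      · rw [ih, rm_rm] at h2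
        simp [Cb] at h2
        simpa [pow_succ] using h2
      · intro j _ hj
        have : ¬ (j.val = i.val + 1) := fun h => hj (Fin.ext (by simpa using h))
        simp [Cb, this]
      · simp
  refine ⟨h1, ?_⟩
  have h2 := hb (Fin.last m)
  have h3 := congrArg (fun y => A (m + 1) *ᵥ y) h2
  simp only [Cb, Fin.val_last, lt_self_iff_false, if_false, Matrix.mulVec_sum, Matrix.mulVec_mulVec,
    Matrix.mul_neg, ← Matrix.mul_assoc, Ring.mul_inverse_cancel _ hinv, Matrix.one_mul] at h3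
  rw [Finset.sum_range_succ, Finset.sum_range (fun k => A k *ᵥ rm (blk v 0) (ν ^ k))]
  rw [h1 (Fin.last m), rm_rm, Fin.val_last, ← pow_succ] at h3
  rw [← h3, ← Finset.sum_add_distrib]
  apply Finset.sum_eq_zero
  intro j _
  rw [← h1 j, Matrix.neg_mulVec, add_neg_cancel]

lemma sym_pow {l : ℕ} {A : ℕ → Matrix (Fin n) (Fin n) ℍ[ℝ]} (hA : Sym l A) (k : ℕ) (hk : k ≤ l) :
    (A k)ᴴ = (-1 : ℝ) ^ k • A k := by
  rcases Nat.even_or_odd k with h | h
  · rw [(hA k hk).2 h, h.neg_one_pow, one_smul]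
  · rw [(hA k hk).1 h, h.neg_one_pow, neg_one_smul]

lemma ct_smul (a : ℝ) (X : Matrix (Fin n) (Fin n) ℍ[ℝ]) : (a • X)ᴴ = a • Xᴴ := by
  ext1 i j; simp [Quaternion.star_smul]

lemma ct_blk {l : ℕ} (X : Fin l → Fin l → Matrix (Fin n) (Fin n) ℍ[ℝ]) :
    (Matrix.of fun a b : Fin l × Fin n => X a.1 b.1 a.2 b.2)ᴴ =
      Matrix.of fun a b : Fin l × Fin n => (X b.1 a.1)ᴴ a.2 b.2 := rfl

lemma mul_blk {l : ℕ} (X Y : Fin l → Fin l → Matrix (Fin n) (Fin n) ℍ[ℝ]) :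
    (Matrix.of fun a b : Fin l × Fin n => X a.1 b.1 a.2 b.2) *
      (Matrix.of fun a b : Fin l × Fin n => Y a.1 b.1 a.2 b.2) =
      Matrix.of fun a b : Fin l × Fin n => (∑ p, X a.1 p * Y p b.1) a.2 b.2 := by
  ext1 a b
  simp [Matrix.mul_apply, Fintype.sum_prod_type, Matrix.sum_apply]

lemma G_skew {l : ℕ} {A : ℕ → Matrix (Fin n) (Fin n) ℍ[ℝ]} (hA : Sym l A) :
    (Gm l A)ᴴ = -Gm l A := by
  rw [Gm_eq, ct_blk]
  have : ∀ i j : Fin l, (Gb l A j i)ᴴ = -Gb l A i j := by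
    intro i j
    unfold Gb
    rw [add_comm j.val i.val]
    split_ifs with h
    · rw [ct_smul, sym_pow hA _ h, smul_smul, ← neg_smul]
      congr 1
      rw [pow_succ, pow_add]
      have : ((-1 : ℝ) ^ j.val) * ((-1 : ℝ) ^ j.val) = 1 := by
        rw [← pow_add, ← two_mul, pow_mul]; simp
      linear_combination (-(-1 : ℝ) ^ i.val) * this
    · simp
  ext1 a b
  simp only [Matrix.of_apply, this, Matrix.neg_apply]

noncomputable def Kb (l : ℕ) (A : ℕ → Matrix (Fin n) (Fin n) ℍ[ℝ]) (i j : ℕ) :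
    Matrix (Fin n) (Fin n) ℍ[ℝ] :=
  if i = 0 then (if j = 0 then -A 0 else 0) else
    if j = 0 then 0 else if i + j ≤ l then (-1 : ℝ) ^ i • A (i + j) else 0

lemma GC_blk (m : ℕ) (A : ℕ → Matrix (Fin n) (Fin n) ℍ[ℝ]) (hinv : IsUnit (A (m + 1)))
    (i j : Fin (m + 1)) :
    ∑ p, Gb (m + 1) A i p * Cb (m + 1) A p j = Kb (m + 1) A i.val j.val := by
  rw [Fin.sum_univ_castSucc]
  have hlast : Gb (m + 1) A i (Fin.last m) * Cb (m + 1) A (Fin.last m) j =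
      if i.val = 0 then -A j.val else 0 := by
    by_cases h : i.val = 0
    · simp [Gb, Cb, h, ← Matrix.mul_assoc, Ring.mul_inverse_cancel _ hinv]
    · have : ¬ (i.val + m + 1 ≤ m + 1) := by omega
      simp only [Gb, Fin.val_last, this, h, if_false, Matrix.zero_mul]
  rw [hlast]
  induction j using Fin.cases with
  | zero =>
    rw [Finset.sum_eq_zero]
    · simp [Kb]
    · intro p _
      simp [Cb]
  | succ j =>
    rw [Finset.sum_eq_single j]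
    · by_cases h : i.val = 0
      · have : j.val + 1 ≤ m + 1 := by omega
        simp [Gb, Cb, Kb, h, this]
      · simp [Gb, Cb, Kb, h, add_assoc]
    · intro p _ hp
      have : ¬ (j.val = p.val) := fun h => hp (Fin.ext h.symm)
      simp [Cb, this]
    · simp

lemma K_herm (m : ℕ) (A : ℕ → Matrix (Fin n) (Fin n) ℍ[ℝ]) (hA : Sym (m + 1) A)
    (hinv : IsUnit (A (m + 1))) : (Gm (m + 1) A * Cm (m + 1) A)ᴴ = Gm (m + 1) A * Cm (m + 1) A := by
  rw [Gm_eq, Cm_eq, mul_blk]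
  simp only [GC_blk m A hinv]
  rw [ct_blk (fun i j : Fin (m + 1) => Kb (m + 1) A i.val j.val)]
  have : ∀ i j : ℕ, (Kb (m + 1) A j i)ᴴ = Kb (m + 1) A i j := by
    intro i j
    unfold Kb
    rw [add_comm j i]
    split_ifs with h1 h2 h2 h3
    · rw [Matrix.conjTranspose_neg, (hA 0 (by omega)).2 (by simp)]
    · simp
    · simp
    · rw [ct_smul, sym_pow hA _ h3, smul_smul]
      congr 1
      rw [pow_add]
      have : ((-1 : ℝ) ^ j) * ((-1 : ℝ) ^ j) = 1 := by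
        rw [← pow_add, ← two_mul, pow_mul]; simp
      linear_combination ((-1 : ℝ) ^ i) * this
    · simp
  ext1 a b
  simp only [Matrix.of_apply, this]

lemma K_skew (m : ℕ) (A : ℕ → Matrix (Fin n) (Fin n) ℍ[ℝ]) (hA : Sym (m + 1) A)
    (hinv : IsUnit (A (m + 1))) :
    (Cm (m + 1) A)ᴴ * (Gm (m + 1) A * Cm (m + 1) A) =
      -((Gm (m + 1) A * Cm (m + 1) A) * Cm (m + 1) A) := by
  have h := K_herm m A hA hinv
  rw [Matrix.conjTranspose_mul, G_skew hA, Matrix.mul_neg] at h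
  rw [← Matrix.mul_assoc, ← Matrix.neg_mul, ← h, neg_neg]

end Pool.Agent.H14.QO
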