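import Pool.Agent.H14.QO2

set_option autoImplicit false
set_option maxHeartbeats 800000
open Matrix Quaternion Filter Topology

namespace Pool.Agent.H14.QO

variable {n : ℕ}

noncomputable def av (x : Fin n → ℍ[ℝ]) (N : ℝ) (ρ : Fin n → ℍ[ℝ]) (α : ℝ) : Fin n → ℍ[ℝ] :=
  fun r => ρ r - N⁻¹ • (x r * ((∑ i, star (x i) * ρ i) - α • (1 : ℍ[ℝ])))

noncomputable def Pm (x : Fin n → ℍ[ℝ]) (N : ℝ) (ρ : Fin n → ℍ[ℝ]) (α : ℝ) :
    Matrix (Fin n) (Fin n) ℍ[ℝ] := Matrix.of fun r c =>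
  N⁻¹ • (av x N ρ α r * star (x c) + x r * star (av x N ρ α c)) - (α * N⁻¹ * N⁻¹) • (x r * star (x c))

noncomputable def Qm (x : Fin n → ℍ[ℝ]) (N : ℝ) (β : ℍ[ℝ]) : Matrix (Fin n) (Fin n) ℍ[ℝ] :=
  Matrix.of fun r c => (N⁻¹ * N⁻¹) • (x r * β * star (x c))

lemma Pm_herm (x : Fin n → ℍ[ℝ]) (N : ℝ) (ρ : Fin n → ℍ[ℝ]) (α : ℝ) :
    (Pm x N ρ α)ᴴ = Pm x N ρ α := by
  ext1 r c
  simp only [Pm, Matrix.conjTranspose_apply, Matrix.of_apply, star_sub, Quaternion.star_smul, star_add,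
    star_mul, star_star]
  rw [add_comm]

lemma Qm_skew (x : Fin n → ℍ[ℝ]) (N : ℝ) (β : ℍ[ℝ]) (hβ : β.re = 0) :
    (Qm x N β)ᴴ = -Qm x N β := by
  have : star β = -β := Quaternion.star_eq_neg.2 hβ
  ext1 r c
  simp only [Qm, Matrix.conjTranspose_apply, Matrix.of_apply, Quaternion.star_smul,
    star_mul, star_star, this, Matrix.neg_apply]
  simp [mul_assoc]

lemma Pm_mv (x : Fin n → ℍ[ℝ]) (N : ℝ) (hN : N ≠ 0) (hx : ∑ i, star (x i) * x i = N • (1 : ℍ[ℝ]))
    (ρ : Fin n → ℍ[ℝ]) (α : ℝ) : Pm x N ρ α *ᵥ x = av x N ρ α := by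
  have h1 : ∑ i, star (x i) * av x N ρ α i = α • (1 : ℍ[ℝ]) := by
    simp only [av, mul_sub (star (x _)), Finset.sum_sub_distrib, mul_smul_comm, ← Finset.smul_sum,
      ← mul_assoc, ← Finset.sum_mul, hx]
    rw [smul_mul_assoc, smul_smul, inv_mul_cancel₀ hN]
    simp
  have h2 : ∑ i, star (av x N ρ α i) * x i = α • (1 : ℍ[ℝ]) := by
    have := congrArg star h1
    simpa [star_sum, Quaternion.star_smul] using this
  ext1 r
  simp only [Pm, Matrix.mulVec, dotProduct, Matrix.of_apply, sub_mul, smul_mul_assoc, add_mul, mul_assoc,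
    Finset.sum_sub_distrib, ← Finset.smul_sum, Finset.sum_add_distrib, ← Finset.mul_sum, hx, h2]
  simp only [mul_smul_comm, mul_one, smul_add, smul_smul]
  rw [inv_mul_cancel₀ hN, one_smul, show α * (N⁻¹ * N⁻¹) * N = N⁻¹ * α by field_simp]
  simp

lemma Qm_mv (x : Fin n → ℍ[ℝ]) (N : ℝ) (hN : N ≠ 0) (hx : ∑ i, star (x i) * x i = N • (1 : ℍ[ℝ]))
    (β : ℍ[ℝ]) : Qm x N β *ᵥ x = fun r => N⁻¹ • (x r * β) := by
  ext1 r
  simp only [Qm, Matrix.mulVec, dotProduct, Matrix.of_apply, smul_mul_assoc, mul_assoc,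
    ← Finset.smul_sum, ← Finset.mul_sum, hx]
  simp only [mul_smul_comm, mul_one, smul_smul]
  rw [show N⁻¹ * N⁻¹ * N = N⁻¹ by field_simp]

lemma normx (x : Fin n → ℍ[ℝ]) (hx : x ≠ 0) :
    ∃ N : ℝ, N ≠ 0 ∧ ∑ i, star (x i) * x i = N • (1 : ℍ[ℝ]) := by
  refine ⟨∑ i, normSq (x i), ?_, ?_⟩
  · obtain ⟨i, hi⟩ := Function.ne_iff.1 hx
    apply ne_of_gt
    exact Finset.sum_pos' (fun j _ => normSq_nonneg) ⟨i, Finset.mem_univ _,
      lt_of_le_of_ne normSq_nonneg (normSq_ne_zero.2 hi).symm⟩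
  · rw [Finset.sum_smul]
    apply Finset.sum_congr rfl
    intro i _
    rw [Quaternion.star_mul_self]
    ext <;> simp

lemma pert (m : ℕ) (A : ℕ → Matrix (Fin n) (Fin n) ℍ[ℝ]) (hA : Sym (m + 1) A)
    (x : Fin n → ℍ[ℝ]) (hx : x ≠ 0) (μ : ℝ) (hμ : μ ≠ 0)
    (h0 : ∑ k ∈ Finset.range (m + 1 + 1), A k *ᵥ rm x (lam μ ^ k) = 0)
    (h1 : Tendsto (fun η : ℝ => (∑ i, star (x i) *
      (∑ k ∈ Finset.range (m + 1 + 1), A k *ᵥ rm x ((lam μ + η • (1 : ℍ[ℝ])) ^ k)) i).imI / η)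
      (𝓝[≠] 0) (𝓝 0)) : ¬ SBdd (m + 1) A := by
  rintro ⟨ε, hε, hS⟩
  obtain ⟨N, hN, hxN⟩ := normx x hx
  set ν : ℝ → ℍ[ℝ] := fun η => lam μ + η • (1 : ℍ[ℝ]) with hν
  set ρ : ℝ → Fin n → ℍ[ℝ] := fun η => -∑ k ∈ Finset.range (m + 1 + 1), A k *ᵥ rm x (ν η ^ k) with hρ
  set σ : ℝ → ℍ[ℝ] := fun η => ∑ i, star (x i) * ρ η i with hσ
  set α : ℝ → ℝ := fun η => (σ η).re + (σ η).imI / η * μ with hα
  set β : ℝ → ℍ[ℝ] := fun η => (σ η - α η • (1 : ℍ[ℝ])) * (ν η)⁻¹ with hβ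
  have cν : Continuous ν := by simp only [hν]; fun_prop
  have cρ : Continuous ρ := by
    simp only [hρ]
    apply Continuous.neg
    apply continuous_finset_sum
    intro k _
    apply continuous_pi
    intro i
    simp only [Matrix.mulVec, dotProduct, rm]
    fun_prop
  have cσ : Continuous σ := by simp only [hσ]; fun_prop
  have ρ0 : ρ 0 = 0 := by simp [hρ, hν, h0]
  have σ0 : σ 0 = 0 := by simp [hσ, ρ0]
  have tν : Tendsto ν (𝓝[≠] 0) (𝓝 (lam μ)) := by
    have := (cν.tendsto 0).mono_left (nhdsWithin_le_nhds (s := {0}ᶜ))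
    simpa [hν] using this
  have tρ : Tendsto ρ (𝓝[≠] 0) (𝓝 0) := by
    have := (cρ.tendsto 0).mono_left (nhdsWithin_le_nhds (s := {0}ᶜ))
    rwa [ρ0] at this
  have tσ : Tendsto σ (𝓝[≠] 0) (𝓝 0) := by
    have := (cσ.tendsto 0).mono_left (nhdsWithin_le_nhds (s := {0}ᶜ))
    rwa [σ0] at this
  have tα : Tendsto α (𝓝[≠] 0) (𝓝 0) := by
    have a1 := (Quaternion.continuous_re.tendsto 0).comp tσ
    have a2 : Tendsto (fun η => (σ η).imI / η) (𝓝[≠] 0) (𝓝 0) := by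
      have := h1.neg
      rw [neg_zero] at this
      refine this.congr fun η => ?_
      simp only [hσ, hρ, hν, Pi.neg_apply, mul_neg, Finset.sum_neg_distrib, Quaternion.imI_neg, neg_div]
    have := a1.add (a2.mul_const μ)
    simpa [hα, Function.comp_def] using this
  have hl0 : lam μ ≠ 0 := by
    intro h
    exact hμ (by simpa [lam] using congrArg (fun s : ℍ[ℝ] => s.imI) h)
  have tβ : Tendsto β (𝓝[≠] 0) (𝓝 0) := by
    have := (tσ.sub (tα.smul_const (1 : ℍ[ℝ]))).mul (tν.inv₀ hl0)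
    simpa [hβ] using this
  have tP : ∀ r c, Tendsto (fun η => Pm x N (ρ η) (α η) r c) (𝓝[≠] 0) (𝓝 0) := by
    intro r c
    have cP : Continuous fun p : (Fin n → ℍ[ℝ]) × ℝ => Pm x N p.1 p.2 r c := by
      simp only [Pm, av, Matrix.of_apply]; fun_prop
    have := (cP.tendsto (0, 0)).comp (tρ.prodMk_nhds tα)
    simpa [Pm, av, Function.comp_def] using this
  have tQ : ∀ r c, Tendsto (fun η => Qm x N (β η) r c) (𝓝[≠] 0) (𝓝 0) := by
    intro r c
    have cQ : Continuous fun p : ℍ[ℝ] => Qm x N p r c := by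
      simp only [Qm, Matrix.of_apply]; fun_prop
    have := (cQ.tendsto 0).comp tβ
    simpa [Qm, Function.comp_def] using this
  have e1 : ∀ᶠ η in 𝓝[≠] (0 : ℝ), ∀ r c, ‖Pm x N (ρ η) (α η) r c‖ < ε := by
    rw [eventually_all]; intro r
    rw [eventually_all]; intro c
    have := (tP r c).norm
    rw [norm_zero] at this
    exact this.eventually (gt_mem_nhds hε)
  have e2 : ∀ᶠ η in 𝓝[≠] (0 : ℝ), ∀ r c, ‖Qm x N (β η) r c‖ < ε := by
    rw [eventually_all]; intro r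
    rw [eventually_all]; intro c
    have := (tQ r c).norm
    rw [norm_zero] at this
    exact this.eventually (gt_mem_nhds hε)
  obtain ⟨η, hη, hP, hQ⟩ := ((eventually_mem_nhdsWithin (a := (0 : ℝ)) (s := {0}ᶜ)).and (e1.and e2)).exists
  have hη : η ≠ 0 := hη
  have hre : (ν η).re = η := by simp [hν, lam]
  have hν0 : ν η ≠ 0 := by
    intro h
    rw [h] at hre
    exact hη hre.symm
  have hβre : (β η).re = 0 := by
    simp only [hβ, Quaternion.inv_def, mul_smul_comm, Quaternion.re_smul, smul_eq_mul]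
    apply mul_eq_zero_of_right
    simp [hν, lam, hα]
    field_simp
    ring
  set D : ℕ → Matrix (Fin n) (Fin n) ℍ[ℝ] := fun k =>
    if k = 0 then Pm x N (ρ η) (α η) else if k = 1 then Qm x N (β η) else 0 with hD
  refine unb (m + 1) (fun k => A k + D k) x hx (ν η) (by rwa [hre]) ?_ (hS _ ?_ ?_)
  · simp only [Matrix.add_mulVec, Finset.sum_add_distrib]
    have : ∑ k ∈ Finset.range (m + 1 + 1), D k *ᵥ rm x (ν η ^ k) = ρ η := by
      rw [Finset.sum_range_succ', Finset.sum_range_succ', Finset.sum_eq_zero (by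
        intro k _; simp [hD])]
      simp only [hD, mv_rm]
      simp only [zero_add, one_ne_zero, if_false, if_true, Pm_mv x N hN hxN, Qm_mv x N hN hxN]
      ext1 r
      simp only [rm, Pi.add_apply, av, hβ, pow_zero, pow_one, mul_one, smul_mul_assoc, mul_assoc,
        inv_mul_cancel₀ hν0, hσ]
      abel
    rw [this]
    simp [hρ]
  · intro k hk
    constructor
    · intro ho
      have k0 : k ≠ 0 := by rintro rfl; simp at ho
      rw [Matrix.conjTranspose_add, (hA k hk).1 ho, neg_add]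
      congr 1
      simp only [hD, k0, if_false]
      split_ifs
      · exact Qm_skew _ _ _ hβre
      · simp
    · intro he
      have k1 : k ≠ 1 := by rintro rfl; simp at he
      rw [Matrix.conjTranspose_add, (hA k hk).2 he]
      congr 1
      simp only [hD, k1, if_false]
      split_ifs
      · exact Pm_herm _ _ _ _
      · simp
  · intro k _ r c
    simp only [Matrix.add_apply, add_sub_cancel_left, hD]
    split_ifs
    · exact hP r c
    · exact hQ r c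
    · simpa using hε

end Pool.Agent.H14.QO
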