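import Pool.Agent.H14.QO3

set_option autoImplicit false
set_option maxHeartbeats 800000
open Matrix Quaternion Filter Topology

namespace Pool.Agent.H14.QO

variable {n : ℕ}

def ph (s : ℍ[ℝ]) : ℂ := ⟨s.re, s.imI⟩

lemma ph_mul (s : ℍ[ℝ]) (w : ℂ) : ph (s * ofComplex w) = ph s * w := by
  apply Complex.ext <;> simp [ph]

lemma ph_smul_star (a : ℝ) (z w : ℂ) (s : ℍ[ℝ]) :
    ph (star (ofComplex z) * (a • s * ofComplex w)) = a * (starRingEnd ℂ) z * ph s * w := by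
  apply Complex.ext <;> simp [ph] <;> ring

lemma ph_sum {ι : Type} (t : Finset ι) (f : ι → ℍ[ℝ]) : ph (∑ i ∈ t, f i) = ∑ i ∈ t, ph (f i) := by
  classical
  induction t using Finset.induction_on with
  | empty => apply Complex.ext <;> simp [ph]
  | insert a t ha ih =>
    rw [Finset.sum_insert ha, Finset.sum_insert ha, ← ih]
    apply Complex.ext <;> simp [ph]

lemma reidx (l : ℕ) (f : ℕ → ℂ) :
    ∑ i : Fin l, ∑ j : Fin l, (if i.val + j.val + 1 ≤ l then f (i.val + j.val + 1) else 0) =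
      ∑ k ∈ Finset.range (l + 1), (k : ℂ) * f k := by
  rw [Fin.sum_univ_eq_sum_range (fun i => ∑ j : Fin l, (if i + j.val + 1 ≤ l then f (i + j.val + 1) else 0))]
  have h1 : ∀ i ∈ Finset.range l, ∑ j : Fin l, (if i + j.val + 1 ≤ l then f (i + j.val + 1) else 0) =
      ∑ k ∈ Finset.range (l + 1), if i < k then f k else 0 := by
    intro i _
    rw [Fin.sum_univ_eq_sum_range (fun j => (if i + j + 1 ≤ l then f (i + j + 1) else 0)),
      ← Finset.sum_filter, ← Finset.sum_filter]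
    apply Finset.sum_nbij' (fun j => i + j + 1) (fun k => k - (i + 1))
    · intro j hj; simp at hj ⊢; omega
    · intro j hj; simp at hj ⊢; omega
    · intro j hj; omega
    · intro j hj; simp at hj ⊢; omega
    · intro j hj; rfl
  rw [Finset.sum_congr rfl h1, Finset.sum_comm]
  apply Finset.sum_congr rfl
  intro k hk
  rw [← Finset.sum_filter, Finset.sum_const, nsmul_eq_mul]
  congr 2
  have : Finset.filter (fun i => i < k) (Finset.range l) = Finset.range k := by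
    ext i; simp at hk ⊢; omega
  rw [this, Finset.card_range]

lemma lam_eq (μ : ℝ) : lam μ = ofComplex ⟨0, μ⟩ := rfl

lemma noneutral (m : ℕ) (A : ℕ → Matrix (Fin n) (Fin n) ℍ[ℝ]) (hA : Sym (m + 1) A)
    (hinv : IsUnit (A (m + 1))) (hS : SBdd (m + 1) A) (μ : ℝ) (hμ : μ ≠ 0)
    (u : Fin (m + 1) × Fin n → ℍ[ℝ]) (hu0 : u ≠ 0) (hu : Cm (m + 1) A *ᵥ u = rm u (lam μ)) :
    (qf (Gm (m + 1) A * Cm (m + 1) A) u u).re ≠ 0 := by
  intro hq
  obtain ⟨h1, h2⟩ := eig m A hinv u _ hu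
  set x := blk u 0 with hx
  have hx0 : x ≠ 0 := by
    intro h
    apply hu0
    ext1 ⟨i, r⟩
    have := congrFun (h1 i) r
    rw [h] at this
    simpa [blk, rm] using this
  rw [← qf_adj', hu, qf_rm] at hq
  have hq1 : (qf (Gm (m + 1) A) u u).imI = 0 := by
    simpa [lam, hμ] using hq
  set z0 : ℂ := ⟨0, μ⟩ with hz0
  set c : ℕ → ℂ := fun k => ph (qf (A k) x x) with hc
  have hq2 : ph (qf (Gm (m + 1) A) u u) = ∑ k ∈ Finset.range (m + 1 + 1), (k : ℂ) * (c k * z0 ^ (k - 1)) := by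
    rw [← reidx, qf, blk_dot, ph_sum]
    apply Finset.sum_congr rfl
    intro i _
    rw [Gm_eq, blk_mv, dotProduct_sum, ph_sum]
    apply Finset.sum_congr rfl
    intro j _
    rw [h1 i, h1 j, rm_dot, mv_rm, dot_rm, lam_eq, ← map_pow, ← map_pow]
    unfold Gb
    split_ifs with h
    · rw [Matrix.smul_mulVec, dotProduct_smul, ph_smul_star]
      have : (starRingEnd ℂ) z0 = -z0 := by apply Complex.ext <;> simp [hz0]
      rw [map_pow, this, Nat.add_sub_cancel, pow_add, neg_pow z0]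
      have h3 : ((-1 : ℂ) ^ i.val) * ((-1 : ℂ) ^ i.val) = 1 := by
        rw [← pow_add, ← two_mul, pow_mul]; simp
      simp only [hc, qf]
      push_cast
      linear_combination (z0 ^ i.val * z0 ^ j.val * ph (star x ⬝ᵥ A (i.val + j.val + 1) *ᵥ x)) * h3
    · apply Complex.ext <;> simp [ph]
  set g : ℝ → ℂ := fun η => ∑ k ∈ Finset.range (m + 1 + 1), c k * (z0 + η) ^ k with hg
  have hgd : HasDerivAt g (∑ k ∈ Finset.range (m + 1 + 1), (k : ℂ) * (c k * z0 ^ (k - 1))) 0 := by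
    apply HasDerivAt.fun_sum
    intro k _
    have a1 : HasDerivAt (fun w : ℂ => c k * (z0 + w) ^ k) (c k * (k * (z0 + ((0 : ℝ) : ℂ)) ^ (k - 1) * 1))
        ((0 : ℝ) : ℂ) :=
      (((hasDerivAt_id _).const_add z0).fun_pow k).const_mul (c k)
    have a2 := a1.comp_ofReal
    refine a2.congr_deriv ?_
    simp; ring
  have hge : ∀ η : ℝ, g η = ph (∑ i, star (x i) *
      (∑ k ∈ Finset.range (m + 1 + 1), A k *ᵥ rm x ((lam μ + η • (1 : ℍ[ℝ])) ^ k)) i) := by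
    intro η
    have b1 : lam μ + η • (1 : ℍ[ℝ]) = ofComplex (z0 + η) := by
      ext <;> simp [lam, hz0]
    change _ = ph (star x ⬝ᵥ _)
    rw [dotProduct_sum, ph_sum]
    apply Finset.sum_congr rfl
    intro k _
    rw [mv_rm, dot_rm, b1, ← map_pow, ph_mul]
    rfl
  have hg0 : g 0 = 0 := by
    rw [hge]
    simp only [zero_smul, add_zero, h2]
    apply Complex.ext <;> simp [ph]
  have him : HasDerivAt (fun η => (g η).im) 0 0 := by
    have := Complex.imCLM.hasFDerivAt.comp_hasDerivAt 0 hgd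
    rw [← hq2] at this
    simpa [ph, hq1, Function.comp_def] using this
  rw [hasDerivAt_iff_tendsto_slope_zero] at him
  refine pert m A hA x hx0 μ hμ h2 (him.congr fun η => ?_) hS
  rw [hg0, zero_add, hge]
  simp [ph, div_eq_inv_mul]

theorem final (l : ℕ) (hl : 1 ≤ l) (A : ℕ → Matrix (Fin n) (Fin n) ℍ[ℝ]) (hA : Sym l A)
    (hinv : IsUnit (A l)) (hS : SBdd l A) (hC : IsUnit (Cm l A)) (a : ℍ[ℝ])
    (ha : ∃ v : Fin l × Fin n → ℍ[ℝ], v ≠ 0 ∧ Cm l A *ᵥ v = fun i => v i * a) :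
    (∀ v : Fin l × Fin n → ℍ[ℝ], v ≠ 0 → (pm (Cm l A) a ^ (l * n)) *ᵥ v = 0 →
      ∃ c : ℝ, 0 < c ∧ star v ⬝ᵥ (Gm l A * Cm l A) *ᵥ v = c) ∨
    (∀ v : Fin l × Fin n → ℍ[ℝ], v ≠ 0 → (pm (Cm l A) a ^ (l * n)) *ᵥ v = 0 →
      ∃ c : ℝ, c < 0 ∧ star v ⬝ᵥ (Gm l A * Cm l A) *ᵥ v = c) := by
  obtain ⟨m, rfl⟩ : ∃ m, l = m + 1 := ⟨l - 1, by omega⟩
  obtain ⟨u, hu0, hu⟩ := ha
  obtain ⟨h1, h2⟩ := eig m A hinv u a hu
  have hx0 : blk u 0 ≠ 0 := by
    intro h
    apply hu0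
    ext1 ⟨i, r⟩
    have := congrFun (h1 i) r
    rw [h] at this
    simpa [blk, rm] using this
  have hre : a.re = 0 := by
    by_contra h
    obtain ⟨ε, hε, hS⟩ := hS
    exact unb _ A _ hx0 a h h2 (hS A hA (by simpa using fun _ _ _ _ => hε))
  have ha0 : a ≠ 0 := by
    rintro rfl
    obtain ⟨B, hB⟩ := hC.exists_left_inv
    apply hu0
    have : Cm (m + 1) A *ᵥ u = 0 := by rw [hu]; ext1 i; simp
    rw [← Matrix.one_mulVec u, ← hB, ← Matrix.mulVec_mulVec, this, Matrix.mulVec_zero]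
  have him : a.im ≠ 0 := by
    intro h
    apply ha0
    rw [← Quaternion.re_add_im a, h, hre]; simp
  have hμ : ‖a‖ ≠ 0 := norm_ne_zero_iff.2 ha0
  have hp : pm (Cm (m + 1) A) a = Cm (m + 1) A ^ 2 + ‖a‖ ^ 2 • 1 := by
    rw [pm, if_neg him, hre, normSq_eq_norm_mul_self, pow_two ‖a‖]
    simp
  rw [hp]
  have hr : ∀ v, star v ⬝ᵥ (Gm (m + 1) A * Cm (m + 1) A) *ᵥ v =
      ((qf (Gm (m + 1) A * Cm (m + 1) A) v v).re : ℍ[ℝ]) := fun v =>
    Quaternion.star_eq_self.1 (qf_star _ (K_herm m A hA hinv) v)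
  rcases absdef _ _ (K_skew m A hA hinv) ‖a‖ hμ (noneutral m A hA hinv hS _ hμ) ((m + 1) * n) with h | h
  · exact Or.inl fun v a b => ⟨_, h v a b, hr v⟩
  · exact Or.inr fun v a b => ⟨_, h v a b, hr v⟩

end Pool.Agent.H14.QO
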