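import Pool.Agent.H14.QODef

set_option autoImplicit false
open Matrix Quaternion

namespace Pool.Agent.H14.QO

/-- `A k` is hermitian for odd `k ≤ l` and skewhermitian for even `k ≤ l`. -/
def Sym2 {n : ℕ} (l : ℕ) (A : ℕ → Matrix (Fin n) (Fin n) ℍ[ℝ]) : Prop :=
  ∀ k ≤ l, (Odd k → (A k)ᴴ = A k) ∧ (Even k → (A k)ᴴ = -A k)

/-- Stable boundedness in the class `Sym2`, with the maximum entry norm on matrices. -/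
def SBdd2 {n : ℕ} (l : ℕ) (A : ℕ → Matrix (Fin n) (Fin n) ℍ[ℝ]) : Prop :=
  ∃ ε : ℝ, 0 < ε ∧ ∀ A' : ℕ → Matrix (Fin n) (Fin n) ℍ[ℝ], Sym2 l A' →
    (∀ k ≤ l, ∀ r c, ‖A' k r c - A k r c‖ < ε) → Bdd l A'

/-- Hypothesis (B) for the involution `φ`. -/
def HypB {n : ℕ} (φ : ℍ[ℝ] → ℍ[ℝ]) (l : ℕ) (A : ℕ → Matrix (Fin n) (Fin n) ℍ[ℝ]) : Prop :=
  IsUnit (A l) ∧ ∀ k ≤ l, (Even k → (A k)ᵀ.map φ = A k) ∧ (Odd k → (A k)ᵀ.map φ = -A k)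

/-- Stable boundedness under hypothesis (B), with the maximum entry norm on matrices. -/
def SBddB {n : ℕ} (φ : ℍ[ℝ] → ℍ[ℝ]) (l : ℕ) (A : ℕ → Matrix (Fin n) (Fin n) ℍ[ℝ]) : Prop :=
  ∃ ε : ℝ, 0 < ε ∧ ∀ A' : ℕ → Matrix (Fin n) (Fin n) ℍ[ℝ], HypB φ l A' →
    (∀ k ≤ l, ∀ r c, ‖A' k r c - A k r c‖ < ε) → Bdd l A'

end Pool.Agent.H14.QO
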