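import Pool.Agent.H14.QO4
import Pool.Agent.H14.QODef2

set_option autoImplicit false
set_option maxHeartbeats 800000
open Matrix Quaternion Filter Topology

namespace Pool.Agent.H14.QO

variable {n : ℕ}

noncomputable def Rm (x : Fin n → ℍ[ℝ]) (N : ℝ) (b : Fin n → ℍ[ℝ]) (β : ℍ[ℝ]) :
    Matrix (Fin n) (Fin n) ℍ[ℝ] := Matrix.of fun r c =>
  N⁻¹ • (b r * star (x c) - x r * star (b c)) - (N⁻¹ * N⁻¹) • (x r * β * star (x c))

lemma Rm_skew (x : Fin n → ℍ[ℝ]) (N : ℝ) (b : Fin n → ℍ[ℝ]) (β : ℍ[ℝ]) (hβ : β.re = 0) :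
    (Rm x N b β)ᴴ = -Rm x N b β := by
  have : star β = -β := Quaternion.star_eq_neg.2 hβ
  ext1 r c
  simp only [Rm, Matrix.conjTranspose_apply, Matrix.of_apply, star_sub, Quaternion.star_smul,
    star_mul, star_star, this, Matrix.neg_apply, neg_mul, mul_neg, mul_assoc, smul_sub, smul_neg]
  abel

lemma Qm_herm (x : Fin n → ℍ[ℝ]) (N : ℝ) (α : ℝ) :
    (Qm x N (α • (1 : ℍ[ℝ])))ᴴ = Qm x N (α • (1 : ℍ[ℝ])) := by
  ext1 r c
  simp only [Qm, Matrix.conjTranspose_apply, Matrix.of_apply, Quaternion.star_smul,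
    star_mul, star_star, star_one]
  simp

lemma Rm_mv (x : Fin n → ℍ[ℝ]) (N : ℝ) (hN : N ≠ 0) (hx : ∑ i, star (x i) * x i = N • (1 : ℍ[ℝ]))
    (b : Fin n → ℍ[ℝ]) (β : ℍ[ℝ]) (hβ : β.re = 0) (h1 : ∑ i, star (x i) * b i = β) :
    Rm x N b β *ᵥ x = b := by
  have hs : star β = -β := Quaternion.star_eq_neg.2 hβ
  have h2 : ∑ i, star (b i) * x i = -β := by
    have := congrArg star h1
    simpa [star_sum, hs] using this
  ext1 r
  simp only [Rm, Matrix.mulVec, dotProduct, Matrix.of_apply, sub_mul, smul_mul_assoc, mul_assoc,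
    Finset.sum_sub_distrib, ← Finset.smul_sum, ← Finset.mul_sum, hx, h2]
  simp only [mul_smul_comm, mul_one, smul_sub, smul_smul, mul_neg, smul_neg]
  rw [inv_mul_cancel₀ hN, one_smul, show N⁻¹ * N⁻¹ * N = N⁻¹ by field_simp]
  simp

def Uns (l : ℕ) (A : ℕ → Matrix (Fin n) (Fin n) ℍ[ℝ]) : Prop :=
  ∀ ε : ℝ, 0 < ε → ∃ A' : ℕ → Matrix (Fin n) (Fin n) ℍ[ℝ], Sym2 l A' ∧
    (∀ k ≤ l, ∀ r c, ‖A' k r c - A k r c‖ < ε) ∧ (∀ k, 2 ≤ k → A' k = A k) ∧ ¬ Bdd l A'

lemma pert2 (m : ℕ) (A : ℕ → Matrix (Fin n) (Fin n) ℍ[ℝ]) (hA : Sym2 (m + 1) A)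
    (x : Fin n → ℍ[ℝ]) (hx : x ≠ 0) (μ : ℝ)
    (h0 : ∑ k ∈ Finset.range (m + 1 + 1), A k *ᵥ rm x (lam μ ^ k) = 0)
    (h1 : Tendsto (fun η : ℝ => (∑ i, star (x i) *
      (∑ k ∈ Finset.range (m + 1 + 1), A k *ᵥ rm x ((lam μ + η • (1 : ℍ[ℝ])) ^ k)) i).re / η)
      (𝓝[≠] 0) (𝓝 0)) : Uns (m + 1) A := by
  intro ε hε
  obtain ⟨N, hN, hxN⟩ := normx x hx
  set ν : ℝ → ℍ[ℝ] := fun η => lam μ + η • (1 : ℍ[ℝ]) with hν
  set ρ : ℝ → Fin n → ℍ[ℝ] := fun η => -∑ k ∈ Finset.range (m + 1 + 1), A k *ᵥ rm x (ν η ^ k) with hρ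
  set σ : ℝ → ℍ[ℝ] := fun η => ∑ i, star (x i) * ρ η i with hσ
  set α : ℝ → ℝ := fun η => (σ η).re / η with hα
  set β : ℝ → ℍ[ℝ] := fun η => σ η - α η • ν η with hβ
  set b : ℝ → Fin n → ℍ[ℝ] := fun η r => ρ η r - N⁻¹ • (x r * (α η • ν η)) with hb
  have cν : Continuous ν := by simp only [hν]; fun_prop
  have cρ : Continuous ρ := by
    simp only [hρ]
    apply Continuous.neg
    apply continuous_finset_sum
    intro k _
    apply continuous_pi
    intro i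
    simp only [Matrix.mulVec, dotProduct, rm]
    fun_prop
  have cσ : Continuous σ := by simp only [hσ]; fun_prop
  have ρ0 : ρ 0 = 0 := by simp [hρ, hν, h0]
  have σ0 : σ 0 = 0 := by simp [hσ, ρ0]
  have tν : Tendsto ν (𝓝[≠] 0) (𝓝 (lam μ)) := by
    have := (cν.tendsto 0).mono_left (nhdsWithin_le_nhds (s := {0}ᶜ))
    simpa [hν] using this
  have tρ : Tendsto ρ (𝓝[≠] 0) (𝓝 0) := by
    have := (cρ.tendsto 0).mono_left (nhdsWithin_le_nhds (s := {0}ᶜ))
    rwa [ρ0] at this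
  have tσ : Tendsto σ (𝓝[≠] 0) (𝓝 0) := by
    have := (cσ.tendsto 0).mono_left (nhdsWithin_le_nhds (s := {0}ᶜ))
    rwa [σ0] at this
  have tα : Tendsto α (𝓝[≠] 0) (𝓝 0) := by
    have := h1.neg
    rw [neg_zero] at this
    refine this.congr fun η => ?_
    simp only [hα, hσ, hρ, hν, Pi.neg_apply, mul_neg, Finset.sum_neg_distrib, Quaternion.re_neg, neg_div]
  have tαν : Tendsto (fun η => α η • ν η) (𝓝[≠] 0) (𝓝 0) := by
    simpa using tα.smul tν
  have tβ : Tendsto β (𝓝[≠] 0) (𝓝 0) := by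
    simpa [hβ] using tσ.sub tαν
  have tb : Tendsto b (𝓝[≠] 0) (𝓝 0) := by
    rw [tendsto_pi_nhds]
    intro r
    have := ((tendsto_pi_nhds.1 tρ) r).sub ((tαν.const_mul (x r)).const_smul N⁻¹)
    simpa [hb] using this
  have tP : ∀ r c, Tendsto (fun η => Rm x N (b η) (β η) r c) (𝓝[≠] 0) (𝓝 0) := by
    intro r c
    have cP : Continuous fun p : (Fin n → ℍ[ℝ]) × ℍ[ℝ] => Rm x N p.1 p.2 r c := by
      simp only [Rm, Matrix.of_apply]; fun_prop
    have := (cP.tendsto (0, 0)).comp (tb.prodMk_nhds tβ)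
    simpa [Rm, Function.comp_def] using this
  have tQ : ∀ r c, Tendsto (fun η => Qm x N (α η • (1 : ℍ[ℝ])) r c) (𝓝[≠] 0) (𝓝 0) := by
    intro r c
    have cQ : Continuous fun p : ℝ => Qm x N (p • (1 : ℍ[ℝ])) r c := by
      simp only [Qm, Matrix.of_apply]; fun_prop
    have := (cQ.tendsto 0).comp tα
    simpa [Qm, Function.comp_def] using this
  have e1 : ∀ᶠ η in 𝓝[≠] (0 : ℝ), ∀ r c, ‖Rm x N (b η) (β η) r c‖ < ε := by
    rw [eventually_all]; intro r
    rw [eventually_all]; intro c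
    have := (tP r c).norm
    rw [norm_zero] at this
    exact this.eventually (gt_mem_nhds hε)
  have e2 : ∀ᶠ η in 𝓝[≠] (0 : ℝ), ∀ r c, ‖Qm x N (α η • (1 : ℍ[ℝ])) r c‖ < ε := by
    rw [eventually_all]; intro r
    rw [eventually_all]; intro c
    have := (tQ r c).norm
    rw [norm_zero] at this
    exact this.eventually (gt_mem_nhds hε)
  obtain ⟨η, hη, hP, hQ⟩ := ((eventually_mem_nhdsWithin (a := (0 : ℝ)) (s := {0}ᶜ)).and (e1.and e2)).exists
  have hη : η ≠ 0 := hη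
  have hre : (ν η).re = η := by simp [hν, lam]
  have hβre : (β η).re = 0 := by
    simp only [hβ, Quaternion.re_sub, Quaternion.re_smul, hre, hα, smul_eq_mul]
    field_simp
    ring
  have hxb : ∑ i, star (x i) * b η i = β η := by
    simp only [hb, hβ, hσ, mul_sub (star (x _)), Finset.sum_sub_distrib]
    congr 1
    generalize α η • ν η = y
    simp only [mul_smul_comm, ← Finset.smul_sum, ← mul_assoc, ← Finset.sum_mul, hxN]
    rw [smul_mul_assoc, smul_smul, inv_mul_cancel₀ hN]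
    simp
  set D : ℕ → Matrix (Fin n) (Fin n) ℍ[ℝ] := fun k =>
    if k = 0 then Rm x N (b η) (β η) else if k = 1 then Qm x N (α η • (1 : ℍ[ℝ])) else 0 with hD
  refine ⟨fun k => A k + D k, ?_, ?_, ?_, unb (m + 1) (fun k => A k + D k) x hx (ν η) (by rwa [hre]) ?_⟩
  · intro k hk
    constructor
    · intro ho
      have k0 : k ≠ 0 := by rintro rfl; simp at ho
      rw [Matrix.conjTranspose_add, (hA k hk).1 ho]
      congr 1
      simp only [hD, k0, if_false]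
      split_ifs
      · exact Qm_herm _ _ _
      · simp
    · intro he
      have k1 : k ≠ 1 := by rintro rfl; simp at he
      rw [Matrix.conjTranspose_add, (hA k hk).2 he, neg_add]
      congr 1
      simp only [hD, k1, if_false]
      split_ifs
      · exact Rm_skew _ _ _ _ hβre
      · simp
  · intro k _ r c
    simp only [Matrix.add_apply, add_sub_cancel_left, hD]
    split_ifs
    · exact hP r c
    · exact hQ r c
    · simpa using hε
  · intro k hk
    have k0 : k ≠ 0 := by omega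
    have k1 : k ≠ 1 := by omega
    simp [hD, k0, k1]
  · simp only [Matrix.add_mulVec, Finset.sum_add_distrib]
    have : ∑ k ∈ Finset.range (m + 1 + 1), D k *ᵥ rm x (ν η ^ k) = ρ η := by
      rw [Finset.sum_range_succ', Finset.sum_range_succ', Finset.sum_eq_zero (by
        intro k _; simp [hD])]
      simp only [hD, mv_rm]
      simp only [zero_add, one_ne_zero, if_false, if_true, Rm_mv x N hN hxN _ _ hβre hxb, Qm_mv x N hN hxN]
      ext1 r
      simp only [rm, Pi.add_apply, hb, pow_zero, pow_one, mul_one, smul_mul_assoc, mul_smul_comm]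
      abel
    rw [this]
    simp [hρ]

lemma sym_pow2 {l : ℕ} {A : ℕ → Matrix (Fin n) (Fin n) ℍ[ℝ]} (hA : Sym2 l A) (k : ℕ) (hk : k ≤ l) :
    (A k)ᴴ = -((-1 : ℝ) ^ k • A k) := by
  rcases Nat.even_or_odd k with h | h
  · rw [(hA k hk).2 h, h.neg_one_pow, one_smul]
  · rw [(hA k hk).1 h, h.neg_one_pow, neg_one_smul, neg_neg]

lemma G_herm {l : ℕ} {A : ℕ → Matrix (Fin n) (Fin n) ℍ[ℝ]} (hA : Sym2 l A) :
    (Gm l A)ᴴ = Gm l A := by
  rw [Gm_eq, ct_blk]
  have : ∀ i j : Fin l, (Gb l A j i)ᴴ = Gb l A i j := by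
    intro i j
    unfold Gb
    rw [add_comm j.val i.val]
    split_ifs with h
    · rw [ct_smul, sym_pow2 hA _ h, ← neg_smul, smul_smul]
      congr 1
      rw [pow_succ, pow_add]
      have : ((-1 : ℝ) ^ j.val) * ((-1 : ℝ) ^ j.val) = 1 := by
        rw [← pow_add, ← two_mul, pow_mul]; simp
      linear_combination ((-1 : ℝ) ^ i.val) * this
    · simp
  ext1 a b
  simp only [Matrix.of_apply, this]

lemma G_skew2 (m : ℕ) (A : ℕ → Matrix (Fin n) (Fin n) ℍ[ℝ]) (hA : Sym2 (m + 1) A)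
    (hinv : IsUnit (A (m + 1))) :
    (Cm (m + 1) A)ᴴ * Gm (m + 1) A = -(Gm (m + 1) A * Cm (m + 1) A) := by
  have h : (Gm (m + 1) A * Cm (m + 1) A)ᴴ = -(Gm (m + 1) A * Cm (m + 1) A) := by
    rw [Gm_eq, Cm_eq, mul_blk]
    simp only [GC_blk m A hinv]
    rw [ct_blk (fun i j : Fin (m + 1) => Kb (m + 1) A i.val j.val)]
    have : ∀ i j : ℕ, (Kb (m + 1) A j i)ᴴ = -Kb (m + 1) A i j := by
      intro i j
      unfold Kb
      rw [add_comm j i]
      split_ifs with h1 h2 h2 h3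
      · rw [Matrix.conjTranspose_neg, (hA 0 (by omega)).2 (by simp)]
      · simp
      · simp
      · rw [ct_smul, sym_pow2 hA _ h3, ← neg_smul, smul_smul, ← neg_smul]
        congr 1
        rw [pow_add]
        have : ((-1 : ℝ) ^ j) * ((-1 : ℝ) ^ j) = 1 := by
          rw [← pow_add, ← two_mul, pow_mul]; simp
        linear_combination (-(-1 : ℝ) ^ i) * this
      · simp
    ext1 a b
    simp only [Matrix.of_apply, this, Matrix.neg_apply]
  rwa [Matrix.conjTranspose_mul, G_herm hA] at h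

end Pool.Agent.H14.QO
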