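import Pool.Agent.H14.QO5

set_option autoImplicit false
set_option maxHeartbeats 800000
open Matrix Quaternion Filter Topology

namespace Pool.Agent.H14.QO

variable {n : ℕ}

lemma noneutral2 (m : ℕ) (A : ℕ → Matrix (Fin n) (Fin n) ℍ[ℝ]) (hA : Sym2 (m + 1) A)
    (hinv : IsUnit (A (m + 1))) (hS : ¬ Uns (m + 1) A) (μ : ℝ)
    (u : Fin (m + 1) × Fin n → ℍ[ℝ]) (hu0 : u ≠ 0) (hu : Cm (m + 1) A *ᵥ u = rm u (lam μ)) :
    (qf (Gm (m + 1) A) u u).re ≠ 0 := by
  intro hq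
  obtain ⟨h1, h2⟩ := eig m A hinv u _ hu
  set x := blk u 0 with hx
  have hx0 : x ≠ 0 := by
    intro h
    apply hu0
    ext1 ⟨i, r⟩
    have := congrFun (h1 i) r
    rw [h] at this
    simpa [blk, rm] using this
  have hq1 := hq
  set z0 : ℂ := ⟨0, μ⟩ with hz0
  set c : ℕ → ℂ := fun k => ph (qf (A k) x x) with hc
  have hq2 : ph (qf (Gm (m + 1) A) u u) = ∑ k ∈ Finset.range (m + 1 + 1), (k : ℂ) * (c k * z0 ^ (k - 1)) := by
    rw [← reidx, qf, blk_dot, ph_sum]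
    apply Finset.sum_congr rfl
    intro i _
    rw [Gm_eq, blk_mv, dotProduct_sum, ph_sum]
    apply Finset.sum_congr rfl
    intro j _
    rw [h1 i, h1 j, rm_dot, mv_rm, dot_rm, lam_eq, ← map_pow, ← map_pow]
    unfold Gb
    split_ifs with h
    · rw [Matrix.smul_mulVec, dotProduct_smul, ph_smul_star]
      have : (starRingEnd ℂ) z0 = -z0 := by apply Complex.ext <;> simp [hz0]
      rw [map_pow, this, Nat.add_sub_cancel, pow_add, neg_pow z0]
      have h3 : ((-1 : ℂ) ^ i.val) * ((-1 : ℂ) ^ i.val) = 1 := by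
        rw [← pow_add, ← two_mul, pow_mul]; simp
      simp only [hc, qf]
      push_cast
      linear_combination (z0 ^ i.val * z0 ^ j.val * ph (star x ⬝ᵥ A (i.val + j.val + 1) *ᵥ x)) * h3
    · apply Complex.ext <;> simp [ph]
  set g : ℝ → ℂ := fun η => ∑ k ∈ Finset.range (m + 1 + 1), c k * (z0 + η) ^ k with hg
  have hgd : HasDerivAt g (∑ k ∈ Finset.range (m + 1 + 1), (k : ℂ) * (c k * z0 ^ (k - 1))) 0 := by
    apply HasDerivAt.fun_sum
    intro k _
    have a1 : HasDerivAt (fun w : ℂ => c k * (z0 + w) ^ k) (c k * (k * (z0 + ((0 : ℝ) : ℂ)) ^ (k - 1) * 1))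
        ((0 : ℝ) : ℂ) :=
      (((hasDerivAt_id _).const_add z0).fun_pow k).const_mul (c k)
    have a2 := a1.comp_ofReal
    refine a2.congr_deriv ?_
    simp; ring
  have hge : ∀ η : ℝ, g η = ph (∑ i, star (x i) *
      (∑ k ∈ Finset.range (m + 1 + 1), A k *ᵥ rm x ((lam μ + η • (1 : ℍ[ℝ])) ^ k)) i) := by
    intro η
    have b1 : lam μ + η • (1 : ℍ[ℝ]) = ofComplex (z0 + η) := by
      ext <;> simp [lam, hz0]
    change _ = ph (star x ⬝ᵥ _)
    rw [dotProduct_sum, ph_sum]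
    apply Finset.sum_congr rfl
    intro k _
    rw [mv_rm, dot_rm, b1, ← map_pow, ph_mul]
    rfl
  have hg0 : g 0 = 0 := by
    rw [hge]
    simp only [zero_smul, add_zero, h2]
    apply Complex.ext <;> simp [ph]
  have him : HasDerivAt (fun η => (g η).re) 0 0 := by
    have := Complex.reCLM.hasFDerivAt.comp_hasDerivAt 0 hgd
    rw [← hq2] at this
    simpa [ph, hq1, Function.comp_def] using this
  rw [hasDerivAt_iff_tendsto_slope_zero] at him
  refine hS (pert2 m A hA x hx0 μ h2 (him.congr fun η => ?_))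
  rw [hg0, zero_add, hge]
  simp [ph, div_eq_inv_mul]

lemma absdef0 {ι : Type} [Fintype ι] [DecidableEq ι] (K C : Matrix ι ι ℍ[ℝ])
    (hs : Cᴴ * K = -(K * C))
    (hno : ∀ u : ι → ℍ[ℝ], u ≠ 0 → C *ᵥ u = rm u (lam 0) → (qf K u u).re ≠ 0) (N : ℕ) :
    (∀ v : ι → ℍ[ℝ], v ≠ 0 → (C ^ N) *ᵥ v = 0 → 0 < (qf K v v).re) ∨
    (∀ v : ι → ℍ[ℝ], v ≠ 0 → (C ^ N) *ᵥ v = 0 → (qf K v v).re < 0) := by
  have hz : ∀ u : ι → ℍ[ℝ], rm u (lam 0) = 0 := by
    intro u; ext1 i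
    have : lam 0 = 0 := rfl
    simp [rm, this]
  have h0 := signE K C (lam 0) hno
  simp only [hz] at h0 hno
  have h1 : ∀ v, C *ᵥ (C *ᵥ v) = 0 → C *ᵥ v = 0 := by
    intro v hv
    by_contra hne
    apply hno _ hne hv
    rw [qf_adj, hs, qf_neg, ← qf_adj', hv]; simp [qf]
  have h2 : ∀ N : ℕ, ∀ v, (C ^ N) *ᵥ v = 0 → C *ᵥ v = 0 := by
    intro N
    induction N with
    | zero => intro v hv; simp at hv; simp [hv]
    | succ N ih =>
      intro v hv
      rw [pow_succ, ← Matrix.mulVec_mulVec] at hv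
      exact h1 v (ih _ hv)
  rcases h0 with h | h
  · exact Or.inl fun v a b => h v a (h2 N v b)
  · exact Or.inr fun v a b => h v a (h2 N v b)

theorem final2 (l : ℕ) (hl : 1 ≤ l) (A : ℕ → Matrix (Fin n) (Fin n) ℍ[ℝ]) (hA : Sym2 l A)
    (hinv : IsUnit (A l)) (hS : ¬ Uns l A) (a : ℍ[ℝ])
    (ha : ∃ v : Fin l × Fin n → ℍ[ℝ], v ≠ 0 ∧ Cm l A *ᵥ v = fun i => v i * a) :
    (∀ v : Fin l × Fin n → ℍ[ℝ], v ≠ 0 → (pm (Cm l A) a ^ (l * n)) *ᵥ v = 0 →
      ∃ c : ℝ, 0 < c ∧ star v ⬝ᵥ Gm l A *ᵥ v = c) ∨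
    (∀ v : Fin l × Fin n → ℍ[ℝ], v ≠ 0 → (pm (Cm l A) a ^ (l * n)) *ᵥ v = 0 →
      ∃ c : ℝ, c < 0 ∧ star v ⬝ᵥ Gm l A *ᵥ v = c) := by
  obtain ⟨m, rfl⟩ : ∃ m, l = m + 1 := ⟨l - 1, by omega⟩
  obtain ⟨u, hu0, hu⟩ := ha
  obtain ⟨h1, h2⟩ := eig m A hinv u a hu
  have hx0 : blk u 0 ≠ 0 := by
    intro h
    apply hu0
    ext1 ⟨i, r⟩
    have := congrFun (h1 i) r
    rw [h] at this
    simpa [blk, rm] using this
  have hre : a.re = 0 := by
    by_contra h
    exact hS fun ε hε => ⟨A, hA, by simpa using fun _ _ _ _ => hε, fun _ _ => rfl, unb _ A _ hx0 a h h2⟩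
  have hr : ∀ v, star v ⬝ᵥ Gm (m + 1) A *ᵥ v = ((qf (Gm (m + 1) A) v v).re : ℍ[ℝ]) := fun v =>
    Quaternion.star_eq_self.1 (qf_star _ (G_herm hA) v)
  by_cases him : a.im = 0
  · have hp : pm (Cm (m + 1) A) a = Cm (m + 1) A := by
      rw [pm, if_pos him, hre]
      simp
    rw [hp]
    rcases absdef0 _ _ (G_skew2 m A hA hinv) (noneutral2 m A hA hinv hS 0) ((m + 1) * n) with h | h
    · exact Or.inl fun v a b => ⟨_, h v a b, hr v⟩
    · exact Or.inr fun v a b => ⟨_, h v a b, hr v⟩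
  have ha0 : a ≠ 0 := by
    rintro rfl
    simp at him
  have hμ : ‖a‖ ≠ 0 := norm_ne_zero_iff.2 ha0
  have hp : pm (Cm (m + 1) A) a = Cm (m + 1) A ^ 2 + ‖a‖ ^ 2 • 1 := by
    rw [pm, if_neg him, hre, normSq_eq_norm_mul_self, pow_two ‖a‖]
    simp
  rw [hp]
  rcases absdef _ _ (G_skew2 m A hA hinv) ‖a‖ hμ (noneutral2 m A hA hinv hS _) ((m + 1) * n) with h | h
  · exact Or.inl fun v a b => ⟨_, h v a b, hr v⟩
  · exact Or.inr fun v a b => ⟨_, h v a b, hr v⟩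

lemma sb2 (l : ℕ) (A : ℕ → Matrix (Fin n) (Fin n) ℍ[ℝ]) (h : SBdd2 l A) : ¬ Uns l A := by
  obtain ⟨ε, hε, h⟩ := h
  intro hU
  obtain ⟨A', h1, h2, _, h4⟩ := hU ε hε
  exact h4 (h A' h1 h2)

lemma invol (φ : ℍ[ℝ] →ₗ[ℝ] ℍ[ℝ]) (hm : ∀ x y, φ (x * y) = φ y * φ x) (hi : ∀ x, φ (φ x) = x)
    (hn : ∃ x, φ x ≠ star x) : ∃ r : ℍ[ℝ], r ≠ 0 ∧ star r = -r ∧ ∀ x, r * φ x = star x * r := by
  have h1 : φ 1 = 1 := by
    have := hm (φ 1) 1
    rw [mul_one, hi, mul_one] at this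
    exact this.symm
  set e1 : ℍ[ℝ] := ⟨0, 1, 0, 0⟩ with he1
  set e2 : ℍ[ℝ] := ⟨0, 0, 1, 0⟩ with he2
  set e3 : ℍ[ℝ] := ⟨0, 0, 0, 1⟩ with he3
  have m11 : e1 * e1 = -1 := by ext <;> simp [he1]
  have m22 : e2 * e2 = -1 := by ext <;> simp [he2]
  have m33 : e3 * e3 = -1 := by ext <;> simp [he3]
  have m12 : e1 * e2 = e3 := by ext <;> simp [he1, he2, he3]
  have m21 : e2 * e1 = -e3 := by ext <;> simp [he1, he2, he3]
  have m23 : e2 * e3 = e1 := by ext <;> simp [he1, he2, he3]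
  have m32 : e3 * e2 = -e1 := by ext <;> simp [he1, he2, he3]
  have m31 : e3 * e1 = e2 := by ext <;> simp [he1, he2, he3]
  have m13 : e1 * e3 = -e2 := by ext <;> simp [he1, he2, he3]
  have p11 := hm e1 e1
  have p22 := hm e2 e2
  have p33 := hm e3 e3
  have p12 := hm e1 e2
  have p21 := hm e2 e1
  have p23 := hm e2 e3
  have p32 := hm e3 e2
  have p31 := hm e3 e1
  have p13 := hm e1 e3
  simp only [m11, m22, m33, m12, m21, m23, m32, m31, m13, map_neg, h1] at p11 p22 p33 p12 p21 p23 p32 p31 p13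
  have key : ∀ y x : ℍ[ℝ], (y + e1 * y * φ e1 + e2 * y * φ e2 + e3 * y * φ e3) * φ x =
      star x * (y + e1 * y * φ e1 + e2 * y * φ e2 + e3 * y * φ e3) := by
    intro y x
    have hx : x = x.re • (1 : ℍ[ℝ]) + x.imI • e1 + x.imJ • e2 + x.imK • e3 := by
      ext <;> simp [he1, he2, he3]
    have hx' : star x = x.re • (1 : ℍ[ℝ]) - x.imI • e1 - x.imJ • e2 - x.imK • e3 := by
      ext <;> simp [he1, he2, he3]
    have hφ : φ x = x.re • (1 : ℍ[ℝ]) + x.imI • φ e1 + x.imJ • φ e2 + x.imK • φ e3 := by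
      conv_lhs => rw [hx]
      simp only [map_add, map_smul, h1]
    rw [hx', hφ]
    simp only [mul_add, add_mul, sub_mul, mul_smul_comm, smul_mul_assoc, mul_one, one_mul, mul_assoc,
      ← p11, ← p22, ← p33, ← p12, ← p21, ← p23, ← p32, ← p31, ← p13]
    simp only [← mul_assoc, m11, m22, m33, m12, m21, m23, m32, m31, m13, neg_mul, mul_neg, one_mul, mul_one]
    module
  have hne : ∃ y : ℍ[ℝ], y + e1 * y * φ e1 + e2 * y * φ e2 + e3 * y * φ e3 ≠ 0 := by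
    by_contra h
    push Not at h
    have a0 := h 1
    have a1 := congrArg (fun s => e1 * s) (h e1)
    have a2 := congrArg (fun s => e2 * s) (h e2)
    have a3 := congrArg (fun s => e3 * s) (h e3)
    simp only [mul_add, ← mul_assoc, m11, m22, m33, m12, m21, m23, m32, m31, m13, neg_mul, mul_neg, one_mul,
      mul_one, mul_zero, neg_neg] at a0 a1 a2 a3
    have : (4 : ℝ) • (1 : ℍ[ℝ]) = 0 := by
      linear_combination (norm := module) a0 - a1 - a2 - a3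
    simp at this
  obtain ⟨y, hy⟩ := hne
  have k := key y
  generalize y + e1 * y * φ e1 + e2 * y * φ e2 + e3 * y * φ e3 = r at hy k
  refine ⟨r, hy, ?_, k⟩
  have c : ∀ x, r * r * x = x * (r * r) := by
    intro x
    have b1 := k (φ x)
    rw [hi] at b1
    have b2 := congrArg star (k x)
    simp only [star_mul, star_star] at b2
    have b3 : star r * r = r * star r := by rw [Quaternion.star_mul_self, Quaternion.self_mul_star]
    have b4 : star (φ x) * (star r * r) = (star r * r) * star (φ x) := by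
      rw [Quaternion.star_mul_self, Quaternion.coe_commutes]
    have hs : star r ≠ 0 := star_ne_zero.2 hy
    have b5 : r * star (φ x) = x * r := by
      apply mul_left_cancel₀ hs
      rw [← mul_assoc, ← b4, ← mul_assoc, b2, mul_assoc]
    rw [mul_assoc, b1, ← mul_assoc, b5, mul_assoc]
  rw [Quaternion.star_eq_neg]
  by_contra hre
  obtain ⟨x, hx⟩ := hn
  apply hx
  have c1 := c e1
  have c2 := c e2
  have d1 := congrArg (fun s : ℍ[ℝ] => s.imJ) c1
  have d2 := congrArg (fun s : ℍ[ℝ] => s.imK) c1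
  have d3 := congrArg (fun s : ℍ[ℝ] => s.imK) c2
  simp [he1, he2] at d1 d2 d3
  have z3 : r.imK = 0 := by
    have : r.re * r.imK = 0 := by linarith
    exact (mul_eq_zero.1 this).resolve_left hre
  have z2 : r.imJ = 0 := by
    have : r.re * r.imJ = 0 := by linarith
    exact (mul_eq_zero.1 this).resolve_left hre
  have z1 : r.imI = 0 := by
    have : r.re * r.imI = 0 := by linarith
    exact (mul_eq_zero.1 this).resolve_left hre
  have hr : r = (r.re : ℍ[ℝ]) := by ext <;> simp [z1, z2, z3]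
  apply mul_left_cancel₀ hy
  rw [k x, hr, Quaternion.coe_commutes]

end Pool.Agent.H14.QO
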