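import Pool.Agent.H14.QO6

set_option autoImplicit false
set_option maxHeartbeats 800000
open Matrix Quaternion Filter Topology

namespace Pool.Agent.H14.QO

variable {n : ℕ}

lemma ct_r (φ : ℍ[ℝ] → ℍ[ℝ]) (r : ℍ[ℝ]) (h1 : star r = -r) (h2 : ∀ x, r * φ x = star x * r)
    (X : Matrix (Fin n) (Fin n) ℍ[ℝ]) : (r • X)ᴴ = -(r • Xᵀ.map φ) := by
  ext1 i j
  simp [h1, h2]

lemma smul_diag (r : ℍ[ℝ]) (X : Matrix (Fin n) (Fin n) ℍ[ℝ]) :
    r • X = Matrix.diagonal (fun _ => r) * X := by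
  ext1 i j
  simp

lemma unit_diag (r : ℍ[ℝ]) (hr : r ≠ 0) :
    IsUnit (Matrix.diagonal (fun _ => r) : Matrix (Fin n) (Fin n) ℍ[ℝ]) := by
  refine ⟨⟨Matrix.diagonal (fun _ => r), Matrix.diagonal (fun _ => r⁻¹), ?_, ?_⟩, rfl⟩
  · rw [Matrix.diagonal_mul_diagonal]; simp [hr]
  · rw [Matrix.diagonal_mul_diagonal]; simp [hr]

lemma inv_r {R : Type} [Ring R] (a b c : R) (ha : IsUnit a) (hb : IsUnit b) :
    Ring.inverse (a * b) * (a * c) = Ring.inverse b * c := by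
  obtain ⟨u, rfl⟩ := ha
  obtain ⟨w, rfl⟩ := hb
  rw [← Units.val_mul, Ring.inverse_unit, Ring.inverse_unit, _root_.mul_inv_rev, Units.val_mul, mul_assoc,
    Units.inv_mul_cancel_left]

theorem final3 (φ : ℍ[ℝ] →ₗ[ℝ] ℍ[ℝ]) (hm : ∀ x y, φ (x * y) = φ y * φ x) (hi : ∀ x, φ (φ x) = x)
    (hn : ∃ x, φ x ≠ star x) (l : ℕ) (hl : 2 ≤ l) (A : ℕ → Matrix (Fin n) (Fin n) ℍ[ℝ])
    (hA : HypB φ l A) (hS : SBddB φ l A) (a : ℍ[ℝ])
    (ha : ∃ v : Fin l × Fin n → ℍ[ℝ], v ≠ 0 ∧ Cm l A *ᵥ v = fun i => v i * a)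
    (v : Fin l × Fin n → ℍ[ℝ]) (hv0 : v ≠ 0) (hv : (pm (Cm l A) a ^ (l * n)) *ᵥ v = 0) :
    (fun i => φ (v i)) ⬝ᵥ Gm l A *ᵥ v ≠ 0 := by
  obtain ⟨r, hr, h1, h2⟩ := invol φ hm hi hn
  set B : ℕ → Matrix (Fin n) (Fin n) ℍ[ℝ] := fun k => r • A k with hB
  have hC : Cm l B = Cm l A := by
    ext1 a b
    simp only [Cm, hB, smul_diag, inv_r _ _ _ (unit_diag r hr) hA.1]
  have hG : Gm l B = r • Gm l A := by
    ext1 a b
    simp only [Gm, hB, Matrix.smul_apply]
    split_ifs <;> simp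
  have s2 : Sym2 l B := by
    intro k hk
    constructor
    · intro h; simp only [hB]; rw [ct_r φ r h1 h2, (hA.2 k hk).2 h]; simp
    · intro h; simp only [hB]; rw [ct_r φ r h1 h2, (hA.2 k hk).1 h]
  have hu : IsUnit (B l) := by
    simp only [hB, smul_diag]; exact (unit_diag r hr).mul hA.1
  have hU : ¬ Uns l B := by
    obtain ⟨ε, hε, hS⟩ := hS
    intro hU
    have hr' : 0 < ‖r‖ := norm_pos_iff.2 hr
    obtain ⟨B', b1, b2, b3, b4⟩ := hU (‖r‖ * ε) (mul_pos hr' hε)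
    have e : ∀ k, r • (r⁻¹ • B' k) = B' k := fun k => smul_inv_smul₀ hr _
    have hb : Bdd l (fun k => r⁻¹ • B' k) := by
      apply hS
      · refine ⟨?_, ?_⟩
        · show IsUnit (r⁻¹ • B' l)
          rw [b3 l hl]; simp only [hB]; rw [inv_smul_smul₀ hr]; exact hA.1
        · intro k hk
          have c := ct_r φ r h1 h2 (r⁻¹ • B' k)
          rw [e] at c
          constructor
          · intro h
            rw [(b1 k hk).2 h, neg_inj] at c
            rw [eq_inv_smul_iff₀ hr]; exact c.symm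
          · intro h
            rw [(b1 k hk).1 h] at c
            rw [← smul_neg, eq_inv_smul_iff₀ hr]
            exact (neg_eq_iff_eq_neg.2 c).symm
      · intro k hk i j
        have := b2 k hk i j
        have e2 : B' k i j - B k i j = r * ((r⁻¹ • B' k) i j - A k i j) := by
          simp [hB, mul_sub, hr]
        rw [e2, norm_mul] at this
        exact lt_of_mul_lt_mul_left this hr'.le
    apply b4
    intro x hx hs
    apply hb x hx
    intro t
    simp only [Matrix.smul_mulVec, ← Finset.smul_sum, hs t, smul_zero]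
  have key : r * ((fun i => φ (v i)) ⬝ᵥ Gm l A *ᵥ v) = star v ⬝ᵥ Gm l B *ᵥ v := by
    rw [hG, Matrix.smul_mulVec]
    simp only [dotProduct, Finset.mul_sum, ← mul_assoc, h2, Pi.star_apply, Pi.smul_apply, smul_eq_mul]
  intro h0
  rw [h0, mul_zero] at key
  rw [← hC] at ha hv
  rcases final2 l (by omega) B s2 hu hU a ha with h | h
  · obtain ⟨c, c0, hc⟩ := h v hv0 hv
    rw [← key] at hc
    have := congrArg (fun s : ℍ[ℝ] => s.re) hc
    simp at this
    linarith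
  · obtain ⟨c, c0, hc⟩ := h v hv0 hv
    rw [← key] at hc
    have := congrArg (fun s : ℍ[ℝ] => s.re) hc
    simp at this
    linarith

end Pool.Agent.H14.QO
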