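import Mathlib

set_option autoImplicit false
open Matrix Quaternion

namespace Pool.Agent.H14.QO

/-- `A k` is skewhermitian for odd `k ≤ l` and hermitian for even `k ≤ l`. -/
def Sym {n : ℕ} (l : ℕ) (A : ℕ → Matrix (Fin n) (Fin n) ℍ[ℝ]) : Prop :=
  ∀ k ≤ l, (Odd k → (A k)ᴴ = -A k) ∧ (Even k → (A k)ᴴ = A k)

/-- Every `l` times continuously differentiable solution of the system is bounded on the line. -/
def Bdd {n : ℕ} (l : ℕ) (A : ℕ → Matrix (Fin n) (Fin n) ℍ[ℝ]) : Prop :=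
  ∀ x : ℝ → Fin n → ℍ[ℝ], ContDiff ℝ l x →
    (∀ t, ∑ k ∈ Finset.range (l + 1), A k *ᵥ iteratedDeriv k x t = 0) → ∃ B : ℝ, ∀ t, ‖x t‖ ≤ B

/-- Stable boundedness, with the maximum entry norm on matrices. -/
def SBdd {n : ℕ} (l : ℕ) (A : ℕ → Matrix (Fin n) (Fin n) ℍ[ℝ]) : Prop :=
  ∃ ε : ℝ, 0 < ε ∧ ∀ A' : ℕ → Matrix (Fin n) (Fin n) ℍ[ℝ], Sym l A' →
    (∀ k ≤ l, ∀ r c, ‖A' k r c - A k r c‖ < ε) → Bdd l A'

/-- The companion matrix (block indices start at 0). -/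
noncomputable def Cm {n : ℕ} (l : ℕ) (A : ℕ → Matrix (Fin n) (Fin n) ℍ[ℝ]) :
    Matrix (Fin l × Fin n) (Fin l × Fin n) ℍ[ℝ] := fun a b =>
  (if a.1.val + 1 < l then (if b.1.val = a.1.val + 1 then (1 : Matrix (Fin n) (Fin n) ℍ[ℝ]) else 0)
    else -(Ring.inverse (A l) * A b.1.val)) a.2 b.2

/-- The matrix `G` (block indices start at 0). -/
noncomputable def Gm {n : ℕ} (l : ℕ) (A : ℕ → Matrix (Fin n) (Fin n) ℍ[ℝ]) :
    Matrix (Fin l × Fin n) (Fin l × Fin n) ℍ[ℝ] := fun a b =>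
  (if a.1.val + b.1.val + 1 ≤ l then (-1 : ℝ) ^ a.1.val • A (a.1.val + b.1.val + 1) else 0) a.2 b.2

open Classical in
/-- The minimal real polynomial of `lam` evaluated at the matrix `C`. -/
noncomputable def pm {ι : Type} [Fintype ι] [DecidableEq ι] (C : Matrix ι ι ℍ[ℝ]) (lam : ℍ[ℝ]) :
    Matrix ι ι ℍ[ℝ] :=
  if lam.im = 0 then C - lam.re • (1 : Matrix ι ι ℍ[ℝ])
  else C ^ 2 - (2 * lam.re) • C + normSq lam • (1 : Matrix ι ι ℍ[ℝ])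

end Pool.Agent.H14.QO
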