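import Mathlib

set_option autoImplicit false
set_option maxHeartbeats 800000
open Matrix

namespace Pool.Agent.H14.RS

lemma stab (b0 b1 b2 b3 : ℝ)
    (h : ∀ t : ℝ, 0 < t → t ≤ 1 → ∀ w : ℂ, ‖w‖ = 1 →
      1 + ((t * b0 : ℝ) : ℂ) * w + ((t * b1 : ℝ) : ℂ) * w ^ 2 + ((t * b2 : ℝ) : ℂ) * w ^ 3
        + ((t * b3 : ℝ) : ℂ) * w ^ 4 ≠ 0)
    (z : ℂ) (hz : 1 ≤ ‖z‖) :
    z ^ 4 + ((b0 : ℂ) * z ^ 3 + b1 * z ^ 2 + b2 * z + b3) ≠ 0 := by
  intro hroot
  set g : ℂ → ℂ := fun w => b0 * w + b1 * w ^ 2 + b2 * w ^ 3 + b3 * w ^ 4 with hg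
  have hz0 : z ≠ 0 := by
    rintro rfl
    simp at hz
    linarith
  have hw0 : g z⁻¹ = -1 := by
    simp only [hg]
    field_simp
    linear_combination hroot
  have hgc : Continuous g := by
    simp only [hg]; fun_prop
  have hga : AnalyticOnNhd ℂ g Set.univ := by
    intro x _
    simp only [hg]; fun_prop
  have hK : IsCompact (Metric.closedBall (0 : ℂ) 1 ∩ {w | (g w).im = 0 ∧ (g w).re ≤ -1}) := by
    apply (isCompact_closedBall _ _).inter_right
    apply IsClosed.inter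
    · exact isClosed_eq (Complex.continuous_im.comp hgc) continuous_const
    · exact isClosed_le (Complex.continuous_re.comp hgc) continuous_const
  have hne : (Metric.closedBall (0 : ℂ) 1 ∩ {w | (g w).im = 0 ∧ (g w).re ≤ -1}).Nonempty := by
    refine ⟨z⁻¹, ?_, ?_⟩
    · simp only [Metric.mem_closedBall, dist_zero_right, norm_inv]
      exact inv_le_one_of_one_le₀ hz
    · simp [hw0]
  obtain ⟨w1, ⟨hw1, him, hre⟩, hmin⟩ := hK.exists_isMinOn hne
    (Complex.continuous_re.comp hgc).continuousOn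
  simp only [Metric.mem_closedBall, dist_zero_right] at hw1
  rcases hw1.lt_or_eq with hlt | heq
  · rcases hga.is_constant_or_isOpen isPreconnected_univ with ⟨c, hc⟩ | hopen
    · have h1 := hc 0 trivial
      have h2 := hc z⁻¹ trivial
      rw [hw0] at h2
      simp only [hg] at h1
      rw [← h2] at h1
      simp at h1
    · have ho := hopen (Metric.ball 0 1) (Set.subset_univ _) Metric.isOpen_ball
      obtain ⟨ε, hε, hb⟩ := Metric.isOpen_iff.1 ho (g w1) ⟨w1, by simpa using hlt, rfl⟩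
      have hmem : g w1 - ((ε / 2 : ℝ) : ℂ) ∈ Metric.ball (g w1) ε := by
        simp only [Metric.mem_ball, dist_eq_norm, sub_sub_cancel_left, norm_neg, Complex.norm_real,
          Real.norm_eq_abs]
        rw [abs_of_pos (by linarith)]
        linarith
      obtain ⟨w2, hw2, hg2⟩ := hb hmem
      have h3 : (g w2).re = (g w1).re - ε / 2 := by rw [hg2]; simp
      have h4 : (g w2).im = 0 := by rw [hg2]; simp [him]
      have h5 := hmin (a := w2) ⟨Metric.ball_subset_closedBall hw2, h4, by linarith⟩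
      simp only [Set.mem_setOf_eq, Function.comp] at h5
      linarith
  · set s : ℝ := -(g w1).re with hs
    have hs1 : 1 ≤ s := by linarith
    have hgs : g w1 = -(s : ℂ) := by
      apply Complex.ext <;> simp [hs, him]
    apply h s⁻¹ (by positivity) (inv_le_one_of_one_le₀ hs1) w1 heq
    have hs0 : (s : ℂ) ≠ 0 := by
      exact_mod_cast (by linarith : s ≠ 0)
    simp only [hg] at hgs
    push_cast
    field_simp
    linear_combination hgs

lemma circ (b0 b1 b2 b3 : ℝ) (w : ℂ) (hw : ‖w‖ = 1)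
    (h : 1 + (b0 : ℂ) * w + b1 * w ^ 2 + b2 * w ^ 3 + b3 * w ^ 4 = 0) :
    ∃ y : ℝ, -2 ≤ y ∧ y ≤ 2 ∧
      (y ≠ -2 → y ^ 2 - y - 1 + (b0 + b3) * (y - 1) + (b1 + b2) = 0) ∧
      (y ≠ 2 → y ^ 2 + y - 1 + (b0 - b3) * (y + 1) + (b1 - b2) = 0) := by
  have hre := Complex.abs_re_le_norm w
  rw [hw, abs_le] at hre
  set u := (starRingEnd ℂ) w with hu
  have hwu : w * u = 1 := by
    rw [hu, Complex.mul_conj, Complex.normSq_eq_norm_sq, hw]; simp
  have h2 : 1 + (b0 : ℂ) * u + b1 * u ^ 2 + b2 * u ^ 3 + b3 * u ^ 4 = 0 := by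
    have := congrArg (starRingEnd ℂ) h
    simpa [hu] using this
  have h3 : w ^ 4 + b0 * w ^ 3 + b1 * w ^ 2 + b2 * w + b3 = 0 := by
    linear_combination w ^ 4 * h2 - (b0 * w ^ 3 + b1 * w ^ 2 * (w * u + 1) + b2 * w * (w ^ 2 * u ^ 2 + w * u + 1)
      + b3 * (w ^ 3 * u ^ 3 + w ^ 2 * u ^ 2 + w * u + 1)) * hwu
  have hy0 : ((2 * w.re : ℝ) : ℂ) = w + u := by
    rw [hu, Complex.add_conj]
  set y : ℝ := 2 * w.re with hyd
  have hy : w * (y : ℂ) = w ^ 2 + 1 := by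
    rw [hy0]; linear_combination hwu
  have hw0 : w ≠ 0 := by
    rintro rfl
    simp at hw
  refine ⟨y, by linarith [hre.1], by linarith [hre.2], ?_, ?_⟩
  · intro hne
    have h5 : (w + 1) * (w ^ 2 * ((y : ℂ) ^ 2 - y - 1 + (b0 + b3) * (y - 1) + (b1 + b2))) = 0 := by
      linear_combination w * h3 + h + (w + 1) * (w * y + w ^ 2 + 1 - w + (b0 + b3) * w) * hy
    have h6 : w + 1 ≠ 0 := by
      intro h7
      apply hne
      have : w = -1 := by linear_combination h7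
      rw [hyd, this]; simp
    have h8 := (mul_eq_zero.1 ((mul_eq_zero.1 h5).resolve_left h6)).resolve_left (pow_ne_zero 2 hw0)
    exact_mod_cast h8
  · intro hne
    have h5 : (w - 1) * (w ^ 2 * ((y : ℂ) ^ 2 + y - 1 + (b0 - b3) * (y + 1) + (b1 - b2))) = 0 := by
      linear_combination w * h3 - h + (w - 1) * (w * y + w ^ 2 + 1 + w + (b0 - b3) * w) * hy
    have h6 : w - 1 ≠ 0 := by
      intro h7
      apply hne
      have : w = 1 := by linear_combination h7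
      rw [hyd, this]; simp
    have h8 := (mul_eq_zero.1 ((mul_eq_zero.1 h5).resolve_left h6)).resolve_left (pow_ne_zero 2 hw0)
    exact_mod_cast h8

lemma cs (al u P1 P2 p1 p2 : ℝ) (hd : 0 ≤ p1 * (P1 - p1) + p2 * (P2 - p2))
    (he : al + p1 * u + p2 = 0) :
    (2 * al + P1 * u + P2) ^ 2 ≤ (P1 ^ 2 + P2 ^ 2) * (u ^ 2 + 1) := by
  have h1 : 2 * al + P1 * u + P2 = (P1 - 2 * p1) * u + (P2 - 2 * p2) := by linarith
  rw [h1]
  have h2 : (P1 - 2 * p1) ^ 2 + (P2 - 2 * p2) ^ 2 ≤ P1 ^ 2 + P2 ^ 2 := by nlinarith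
  have h3 : ((P1 - 2 * p1) * u + (P2 - 2 * p2)) ^ 2 ≤
      ((P1 - 2 * p1) ^ 2 + (P2 - 2 * p2) ^ 2) * (u ^ 2 + 1) := by
    nlinarith [sq_nonneg ((P1 - 2 * p1) - (P2 - 2 * p2) * u)]
  exact h3.trans (mul_le_mul_of_nonneg_right h2 (by positivity))

def Cert (a0 a1 a2 a3 : ℝ) : Prop :=
  ∀ y : ℝ, -2 ≤ y → y ≤ 2 →
    (y ≠ -2 → (2 * (y ^ 2 - y - 1) + (a0 + a3) * (y - 1) + (a1 + a2)) ^ 2 ≤
      ((a0 + a3) ^ 2 + (a1 + a2) ^ 2) * ((y - 1) ^ 2 + 1)) →
    (y ≠ 2 → (2 * (y ^ 2 + y - 1) + (a0 - a3) * (y + 1) + (a1 - a2)) ^ 2 ≤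
      ((a0 - a3) ^ 2 + (a1 - a2) ^ 2) * ((y + 1) ^ 2 + 1)) → False

lemma main (a0 a1 a2 a3 b0 b1 b2 b3 : ℝ) (hc : Cert a0 a1 a2 a3)
    (hp : 0 ≤ (b0 + b3) * ((a0 + a3) - (b0 + b3)) + (b1 + b2) * ((a1 + a2) - (b1 + b2)))
    (hm : 0 ≤ (b0 - b3) * ((a0 - a3) - (b0 - b3)) + (b1 - b2) * ((a1 - a2) - (b1 - b2)))
    (z : ℂ) (hz : 1 ≤ ‖z‖) :
    z ^ 4 + ((b0 : ℂ) * z ^ 3 + b1 * z ^ 2 + b2 * z + b3) ≠ 0 := by
  apply stab _ _ _ _ _ z hz
  intro t ht0 ht1 w hw h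
  obtain ⟨y, h1, h2, h3, h4⟩ := circ _ _ _ _ w hw h
  apply hc y h1 h2
  · intro hy
    apply cs _ _ _ _ (t * b0 + t * b3) (t * b1 + t * b2) _ (h3 hy)
    have := mul_nonneg ht0.le hp
    have := mul_nonneg (mul_nonneg ht0.le (sub_nonneg.2 ht1))
      (add_nonneg (sq_nonneg (b0 + b3)) (sq_nonneg (b1 + b2)))
    nlinarith
  · intro hy
    apply cs _ _ _ _ (t * b0 - t * b3) (t * b1 - t * b2) _ (h4 hy)
    have := mul_nonneg ht0.le hm
    have := mul_nonneg (mul_nonneg ht0.le (sub_nonneg.2 ht1))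
      (add_nonneg (sq_nonneg (b0 - b3)) (sq_nonneg (b1 - b2)))
    nlinarith

lemma bern (l r y : ℝ) (h1 : l ≤ y) (h2 : y ≤ r) :
    0 ≤ (y - l) ^ 4 ∧ 0 ≤ (y - l) ^ 3 * (r - y) ∧ 0 ≤ (y - l) ^ 2 * (r - y) ^ 2 ∧
      0 ≤ (y - l) * (r - y) ^ 3 ∧ 0 ≤ (r - y) ^ 4 := by
  have a := sub_nonneg.2 h1
  have b := sub_nonneg.2 h2
  refine ⟨?_, ?_, ?_, ?_, ?_⟩ <;> positivity

lemma cert1 : Cert (-155 / 1000) (6 / 1000) (-206 / 1000) (829 / 1000) := by
  intro y h1 h2 hp hm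
  rcases le_total y (-17 / 10) with c1 | c1
  · obtain ⟨e0, e1, e2, e3, e4⟩ := bern _ _ y h1 c1
    have := hm (by linarith)
    linarith
  rcases le_total y (-2439 / 2000) with c2 | c2
  · obtain ⟨e0, e1, e2, e3, e4⟩ := bern _ _ y c1 c2
    have := hp (by linarith)
    linarith
  rcases le_total y 0 with c3 | c3
  · obtain ⟨e0, e1, e2, e3, e4⟩ := bern _ _ y c2 c3
    have := hm (by linarith)
    linarith
  rcases le_total y (141 / 100) with c4 | c4
  · obtain ⟨e0, e1, e2, e3, e4⟩ := bern _ _ y c3 c4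
    have := hp (by linarith)
    linarith
  rcases le_total y (9 / 5) with c5 | c5
  · obtain ⟨e0, e1, e2, e3, e4⟩ := bern _ _ y c4 c5
    have := hm (by linarith)
    linarith
  · obtain ⟨e0, e1, e2, e3, e4⟩ := bern _ _ y c5 h2
    have := hp (by linarith)
    linarith

lemma cert2 : Cert (560 / 1000) (-143 / 1000) (-143 / 1000) (560 / 1000) := by
  intro y h1 h2 hp hm
  rcases le_total y (-17 / 10) with c1 | c1
  · obtain ⟨e0, e1, e2, e3, e4⟩ := bern _ _ y h1 c1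
    have := hm (by linarith)
    linarith
  rcases le_total y (-1617 / 1000) with c2 | c2
  · obtain ⟨e0, e1, e2, e3, e4⟩ := bern _ _ y c1 c2
    have := hp (by linarith)
    linarith
  rcases le_total y 0 with c3 | c3
  · obtain ⟨e0, e1, e2, e3, e4⟩ := bern _ _ y c2 c3
    have := hm (by linarith)
    linarith
  rcases le_total y 1 with c4 | c4
  · obtain ⟨e0, e1, e2, e3, e4⟩ := bern _ _ y c3 c4
    have := hp (by linarith)
    linarith
  rcases le_total y (19 / 10) with c5 | c5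
  · obtain ⟨e0, e1, e2, e3, e4⟩ := bern _ _ y c4 c5
    have := hm (by linarith)
    linarith
  · obtain ⟨e0, e1, e2, e3, e4⟩ := bern _ _ y c5 h2
    have := hp (by linarith)
    linarith

end Pool.Agent.H14.RS
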