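import Mathlib
import Pool.Agent.H14.RS

set_option autoImplicit false
set_option maxHeartbeats 800000
open Matrix

namespace Pool.Agent.H14.RS

def T (r0 r1 r2 r3 : ℝ) : Matrix (Fin 4) (Fin 4) ℝ :=
  !![r0, r1, r2, r3; r1, r0, r1, r2; r2, r1, r0, r1; r3, r2, r1, r0]

lemma toep (R : Matrix (Fin 4) (Fin 4) ℝ) (r : ℕ → ℝ)
    (h : ∀ i j : Fin 4, R i j = r (Int.natAbs ((i.val : ℤ) - (j.val : ℤ)))) :
    R = T (r 0) (r 1) (r 2) (r 3) := by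
  ext i j
  rw [h]
  fin_cases i <;> fin_cases j <;> rfl

lemma split (R : Matrix (Fin 4) (Fin 4) ℝ) (hR : R.PosDef) (a : Fin 4 → ℝ) :
    ∃ c : Fin 4 → ℝ, c + R *ᵥ c = a ∧ (R * (1 + R)⁻¹) *ᵥ a = R *ᵥ c := by
  have h1 : (1 + R).PosDef := Matrix.PosDef.one.add hR
  have h2 : IsUnit (1 + R).det := (Matrix.isUnit_iff_isUnit_det _).1 h1.isUnit
  refine ⟨(1 + R)⁻¹ *ᵥ a, ?_, ?_⟩
  · have : (1 + R) *ᵥ ((1 + R)⁻¹ *ᵥ a) = a := by
      rw [Matrix.mulVec_mulVec, Matrix.mul_nonsing_inv _ h2, Matrix.one_mulVec]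
    rwa [Matrix.add_mulVec, Matrix.one_mulVec] at this
  · rw [Matrix.mulVec_mulVec]

lemma split' (R : Matrix (Fin 4) (Fin 4) ℝ) (hR : R.PosDef) (c : Fin 4 → ℝ) :
    (R * (1 + R)⁻¹) *ᵥ (c + R *ᵥ c) = R *ᵥ c := by
  have h1 : (1 + R).PosDef := Matrix.PosDef.one.add hR
  have h2 : IsUnit (1 + R).det := (Matrix.isUnit_iff_isUnit_det _).1 h1.isUnit
  have : c + R *ᵥ c = (1 + R) *ᵥ c := by rw [Matrix.add_mulVec, Matrix.one_mulVec]
  rw [this, Matrix.mulVec_mulVec, Matrix.mul_assoc, Matrix.nonsing_inv_mul _ h2, Matrix.mul_one]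

lemma quad (r0 r1 r2 r3 : ℝ) (x : Fin 4 → ℝ) :
    star x ⬝ᵥ (T r0 r1 r2 r3 *ᵥ x) =
      ((r0 + r3) * (x 0 + x 3) ^ 2 + 2 * (r1 + r2) * (x 0 + x 3) * (x 1 + x 2) + (r0 + r1) * (x 1 + x 2) ^ 2
      + (r0 - r3) * (x 0 - x 3) ^ 2 + 2 * (r1 - r2) * (x 0 - x 3) * (x 1 - x 2) + (r0 - r1) * (x 1 - x 2) ^ 2) / 2 := by
  simp [T, Matrix.mulVec, dotProduct, Fin.sum_univ_four]
  ring

lemma mem (a : Fin 4 → ℝ) (hc : Cert (a 0) (a 1) (a 2) (a 3)) :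
    (∀ z : ℂ, 1 ≤ ‖z‖ → z ^ 4 + ∑ j : Fin 4, ((a j : ℝ) : ℂ) * z ^ (4 - (j.val + 1)) ≠ 0) ∧
      ∀ R : Matrix (Fin 4) (Fin 4) ℝ, R.PosDef →
        (∃ r : ℕ → ℝ, ∀ i j : Fin 4, R i j = r (Int.natAbs ((i.val : ℤ) - (j.val : ℤ)))) →
        ∀ z : ℂ, 1 ≤ ‖z‖ →
          z ^ 4 + ∑ j : Fin 4, ((((R * (1 + R)⁻¹) *ᵥ a) j : ℝ) : ℂ) * z ^ (4 - (j.val + 1)) ≠ 0 := by
  constructor
  · intro z hz
    have := main _ _ _ _ (a 0) (a 1) (a 2) (a 3) hc (by simp) (by simp) z hz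
    simpa [Fin.sum_univ_four] using this
  · rintro R hR ⟨r, hr⟩ z hz
    obtain ⟨c, h1, h2⟩ := split R hR a
    rw [h2]
    have hT := toep R r hr
    have e0 : (R *ᵥ c) 0 = r 0 * c 0 + r 1 * c 1 + r 2 * c 2 + r 3 * c 3 := by
      rw [hT]; simp [T, Matrix.mulVec, dotProduct, Fin.sum_univ_four]
    have e1 : (R *ᵥ c) 1 = r 1 * c 0 + r 0 * c 1 + r 1 * c 2 + r 2 * c 3 := by
      rw [hT]; simp [T, Matrix.mulVec, dotProduct, Fin.sum_univ_four]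
    have e2 : (R *ᵥ c) 2 = r 2 * c 0 + r 1 * c 1 + r 0 * c 2 + r 1 * c 3 := by
      rw [hT]; simp [T, Matrix.mulVec, dotProduct, Fin.sum_univ_four]
    have e3 : (R *ᵥ c) 3 = r 3 * c 0 + r 2 * c 1 + r 1 * c 2 + r 0 * c 3 := by
      rw [hT]; simp [T, Matrix.mulVec, dotProduct, Fin.sum_univ_four]
    have f0 := congrFun h1 0
    have f1 := congrFun h1 1
    have f2 := congrFun h1 2
    have f3 := congrFun h1 3
    simp only [Pi.add_apply] at f0 f1 f2 f3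
    have p1 := hR.posSemidef.dotProduct_mulVec_nonneg ![c 0 + c 3, c 1 + c 2, c 1 + c 2, c 0 + c 3]
    have p2 := hR.posSemidef.dotProduct_mulVec_nonneg ![c 0 - c 3, c 1 - c 2, c 2 - c 1, c 3 - c 0]
    rw [hT, quad] at p1 p2
    simp only [Matrix.cons_val_zero, Matrix.cons_val_one, Matrix.cons_val] at p1 p2
    have := main _ _ _ _ ((R *ᵥ c) 0) ((R *ᵥ c) 1) ((R *ᵥ c) 2) ((R *ᵥ c) 3) hc
      (by rw [← f0, ← f1, ← f2, ← f3, e0, e1, e2, e3]; linarith)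
      (by rw [← f0, ← f1, ← f2, ← f3, e0, e1, e2, e3]; linarith) z hz
    simpa [Fin.sum_univ_four] using this

lemma pd2 (p q s x y : ℝ) (hp : 0 < p) (hd : q ^ 2 < p * s) (h : x ≠ 0 ∨ y ≠ 0) :
    0 < p * x ^ 2 + 2 * q * x * y + s * y ^ 2 := by
  by_cases hy : y = 0
  · have hx : x ≠ 0 := by tauto
    subst hy
    have := mul_pos hp (pow_pos (abs_pos.2 hx) 2)
    rw [sq_abs] at this
    linarith
  · have h1 : 0 < y ^ 2 := by positivity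
    have h2 := mul_pos (sub_pos.2 hd) h1
    have h3 : 0 < p * (p * x ^ 2 + 2 * q * x * y + s * y ^ 2) := by
      nlinarith [sq_nonneg (p * x + q * y)]
    exact (mul_pos_iff_of_pos_left hp).1 h3

lemma pd2' (p q s x y : ℝ) (hp : 0 < p) (hd : q ^ 2 < p * s) :
    0 ≤ p * x ^ 2 + 2 * q * x * y + s * y ^ 2 := by
  by_cases h : x ≠ 0 ∨ y ≠ 0
  · exact (pd2 p q s x y hp hd h).le
  · push Not at h
    simp [h.1, h.2]

lemma pdT (r0 r1 r2 r3 : ℝ) (h1 : 0 < r0 + r3) (h2 : (r1 + r2) ^ 2 < (r0 + r3) * (r0 + r1))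
    (h3 : 0 < r0 - r3) (h4 : (r1 - r2) ^ 2 < (r0 - r3) * (r0 - r1)) : (T r0 r1 r2 r3).PosDef := by
  rw [Matrix.posDef_iff_dotProduct_mulVec]
  constructor
  · ext i j
    fin_cases i <;> fin_cases j <;> simp [T]
  · intro x hx
    rw [quad]
    have a1 := pd2' _ _ _ (x 0 + x 3) (x 1 + x 2) h1 h2
    have a2 := pd2' _ _ _ (x 0 - x 3) (x 1 - x 2) h3 h4
    by_cases h : x 0 + x 3 ≠ 0 ∨ x 1 + x 2 ≠ 0
    · have := pd2 _ _ _ _ _ h1 h2 h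
      linarith
    by_cases h' : x 0 - x 3 ≠ 0 ∨ x 1 - x 2 ≠ 0
    · have := pd2 _ _ _ _ _ h3 h4 h'
      linarith
    push Not at h h'
    exfalso
    apply hx
    ext i
    fin_cases i <;> simp <;> linarith [h.1, h.2, h'.1, h'.2]

theorem final :
    ¬ (∀ n : ℕ, Convex ℝ {a : Fin n → ℝ |
      (∀ z : ℂ, 1 ≤ ‖z‖ → z ^ n + ∑ j : Fin n, ((a j : ℝ) : ℂ) * z ^ (n - (j.val + 1)) ≠ 0) ∧
      ∀ R : Matrix (Fin n) (Fin n) ℝ, R.PosDef →
        (∃ r : ℕ → ℝ, ∀ i j : Fin n, R i j = r (Int.natAbs ((i.val : ℤ) - (j.val : ℤ)))) →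
        ∀ z : ℂ, 1 ≤ ‖z‖ →
          z ^ n + ∑ j : Fin n, ((((R * (1 + R)⁻¹) *ᵥ a) j : ℝ) : ℂ) * z ^ (n - (j.val + 1)) ≠ 0}) := by
  intro H
  have m1 := mem ![-155 / 1000, 6 / 1000, -206 / 1000, 829 / 1000] cert1
  have m2 := mem ![560 / 1000, -143 / 1000, -143 / 1000, 560 / 1000] cert2
  have m3 := (H 4 m1 m2 (a := 1 / 2) (b := 1 / 2) (by norm_num) (by norm_num) (by norm_num)).2
  set r0 : ℝ := 12791920708277510461827875564 / 3407801116576046591827561 with h0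
  set r1 : ℝ := -12461203736661085895979312500 / 3407801116576046591827561 with h1
  set r2 : ℝ := 11486762264636939527254171875 / 3407801116576046591827561 with h2
  set r3 : ℝ := -9918495284226587642181562500 / 3407801116576046591827561 with h3
  have hpd : (T r0 r1 r2 r3).PosDef := by
    apply pdT <;> rw [h0] <;> simp only [h1, h2, h3] <;> norm_num
  set c : Fin 4 → ℝ := ![-183 / 2000, -69933 / 1000000, 378033 / 3125000, 13731251 / 125000000] with hc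
  have hb : T r0 r1 r2 r3 *ᵥ c = ![147 / 500, 1433 / 1000000, -1846691 / 6250000, 73081249 / 125000000] := by
    ext i
    fin_cases i <;> simp [T, hc, Matrix.mulVec, dotProduct, Fin.sum_univ_four, h0, h1, h2, h3] <;> norm_num
  have ha : (1 / 2 : ℝ) • (![-155 / 1000, 6 / 1000, -206 / 1000, 829 / 1000] : Fin 4 → ℝ) +
      (1 / 2 : ℝ) • (![560 / 1000, -143 / 1000, -143 / 1000, 560 / 1000] : Fin 4 → ℝ) =
      c + T r0 r1 r2 r3 *ᵥ c := by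
    rw [hb]
    ext i
    fin_cases i <;> simp [hc] <;> norm_num
  have m4 := m3 (T r0 r1 r2 r3) hpd ⟨fun k => if k = 0 then r0 else if k = 1 then r1 else if k = 2 then r2 else r3, by
    intro i j
    fin_cases i <;> fin_cases j <;> rfl⟩ ⟨-707 / 1000, 177 / 250⟩ (by
      have : (1 : ℝ) ≤ ‖(⟨-707 / 1000, 177 / 250⟩ : ℂ)‖ ^ 2 := by
        rw [Complex.sq_norm, Complex.normSq_mk]; norm_num
      nlinarith [norm_nonneg (⟨-707 / 1000, 177 / 250⟩ : ℂ)])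
  apply m4
  rw [ha, split' _ hpd, hb]
  simp only [Fin.sum_univ_four]
  apply Complex.ext <;> simp [pow_succ] <;> norm_num

end Pool.Agent.H14.RS
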