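import Mathlib

set_option autoImplicit false
set_option maxHeartbeats 400000
set_option linter.unusedSectionVars false

namespace Pool.Agent.H14.Retr

/-- the variety V, given by two multilinear identities -/
def InV (A : Type) [NonUnitalNonAssocRing A] : Prop :=
  (∀ a b c d : A, (a * b) * (c * d) = 0) ∧
  (∀ a b x y : A, x * (y * (a * b)) + y * (x * (a * b)) = ((a * b) * x) * y + ((a * b) * y) * x)

/-- F is a V-free algebra on the family i -/
def FreeOn (F : Type) [NonUnitalNonAssocRing F] [Module ℚ F] {X : Type} (i : X → F) : Prop :=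
  InV F ∧ ∀ (A : Type) [NonUnitalNonAssocRing A] [Module ℚ A] [IsScalarTower ℚ A A]
    [SMulCommClass ℚ A A], InV A → ∀ f : X → A, ∃! g : F →ₙₐ[ℚ] A, ∀ x, g (i x) = f x

/-- algebra built from a bilinear map -/
def Alg (M : Type) [AddCommGroup M] [Module ℚ M] (_m : M →ₗ[ℚ] M →ₗ[ℚ] M) : Type := M

section
variable {M : Type} [AddCommGroup M] [Module ℚ M] (m : M →ₗ[ℚ] M →ₗ[ℚ] M)
instance : AddCommGroup (Alg M m) := inferInstanceAs (AddCommGroup M)
instance : Module ℚ (Alg M m) := inferInstanceAs (Module ℚ M)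
instance : NonUnitalNonAssocRing (Alg M m) where
  mul x y := m x y
  left_distrib x y z := (m x).map_add y z
  right_distrib x y z := LinearMap.map_add₂ m x y z
  zero_mul x := LinearMap.map_zero₂ m x
  mul_zero x := (m x).map_zero
instance : IsScalarTower ℚ (Alg M m) (Alg M m) where
  smul_assoc c x y := LinearMap.map_smul₂ m c x y
instance : SMulCommClass ℚ (Alg M m) (Alg M m) where
  smul_comm c x y := ((m x).map_smul c y).symm
end

abbrev Fr := FreeNonUnitalNonAssocAlgebra ℚ (Fin 2)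

def II : Submodule ℚ Fr where
  carrier := {w | ∀ (A : Type) [NonUnitalNonAssocRing A] [Module ℚ A] [IsScalarTower ℚ A A]
    [SMulCommClass ℚ A A], InV A → ∀ g : Fr →ₙₐ[ℚ] A, g w = 0}
  add_mem' := by
    intro a b ha hb A _ _ _ _ hA g
    rw [map_add, ha A hA g, hb A hA g, add_zero]
  zero_mem' := by
    intro A _ _ _ _ _ g
    exact map_zero g
  smul_mem' := by
    intro c a ha A _ _ _ _ hA g
    rw [map_smul, ha A hA g, smul_zero]

noncomputable def mq : (Fr ⧸ II) →ₗ[ℚ] (Fr ⧸ II) →ₗ[ℚ] (Fr ⧸ II) :=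
  LinearMap.liftQ₂ II II ((LinearMap.mul ℚ Fr).compr₂ II.mkQ)
    (by
      intro w hw
      rw [LinearMap.mem_ker]
      refine LinearMap.ext fun v => ?_
      show II.mkQ (w * v) = 0
      rw [Submodule.mkQ_apply, Submodule.Quotient.mk_eq_zero]
      intro A _ _ _ _ hA g
      rw [map_mul, hw A hA g, zero_mul])
    (by
      intro w hw
      rw [LinearMap.mem_ker]
      refine LinearMap.ext fun v => ?_
      show II.mkQ (v * w) = 0
      rw [Submodule.mkQ_apply, Submodule.Quotient.mk_eq_zero]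
      intro A _ _ _ _ hA g
      rw [map_mul, hw A hA g, mul_zero])

abbrev FF : Type := Alg (Fr ⧸ II) mq

noncomputable def pr : Fr →ₙₐ[ℚ] FF where
  toFun w := II.mkQ w
  map_smul' c w := II.mkQ.map_smul c w
  map_zero' := II.mkQ.map_zero
  map_add' a b := II.mkQ.map_add a b
  map_mul' _ _ := rfl

lemma pr_surj (x : FF) : ∃ w, pr w = x := II.mkQ_surjective x

lemma pr_eq {a b : Fr} (h : ∀ (A : Type) [NonUnitalNonAssocRing A] [Module ℚ A] [IsScalarTower ℚ A A]
    [SMulCommClass ℚ A A], InV A → ∀ g : Fr →ₙₐ[ℚ] A, g a = g b) : pr a = pr b := by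
  refine (Submodule.Quotient.eq II).2 ?_
  intro A _ _ _ _ hA g
  rw [map_sub, h A hA g, sub_self]

noncomputable def gen (x : Fin 2) : FF := pr (FreeNonUnitalNonAssocAlgebra.of ℚ x)

lemma free_FF : FreeOn FF gen := by
  refine ⟨⟨fun a b c d => ?_, fun a b x y => ?_⟩, ?_⟩
  · obtain ⟨a, rfl⟩ := pr_surj a
    obtain ⟨b, rfl⟩ := pr_surj b
    obtain ⟨c, rfl⟩ := pr_surj c
    obtain ⟨d, rfl⟩ := pr_surj d
    rw [← map_zero pr]
    simp only [← map_mul]
    refine pr_eq fun A _ _ _ _ hA g => ?_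
    simp only [map_mul, map_zero]
    exact hA.1 _ _ _ _
  · obtain ⟨a, rfl⟩ := pr_surj a
    obtain ⟨b, rfl⟩ := pr_surj b
    obtain ⟨x, rfl⟩ := pr_surj x
    obtain ⟨y, rfl⟩ := pr_surj y
    simp only [← map_mul, ← map_add]
    refine pr_eq fun A _ _ _ _ hA g => ?_
    simp only [map_mul, map_add]
    exact hA.2 _ _ _ _
  · intro A _ _ _ _ hA f
    let g0 : Fr →ₙₐ[ℚ] A := FreeNonUnitalNonAssocAlgebra.lift ℚ f
    let l0 : Fr →ₗ[ℚ] A := { toFun := g0, map_add' := map_add g0, map_smul' := map_smul g0 }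
    let l : (Fr ⧸ II) →ₗ[ℚ] A := II.liftQ l0 (fun w hw => hw A hA g0)
    have hl : ∀ w, l (pr w) = g0 w := fun w => rfl
    let g : FF →ₙₐ[ℚ] A :=
      { toFun := l
        map_smul' := l.map_smul
        map_zero' := l.map_zero
        map_add' := l.map_add
        map_mul' := by
          intro a b
          obtain ⟨a, rfl⟩ := pr_surj a
          obtain ⟨b, rfl⟩ := pr_surj b
          rw [← map_mul, hl, hl, hl, map_mul] }
    refine ⟨g, fun x => ?_, fun g' hg' => ?_⟩
    · exact FreeNonUnitalNonAssocAlgebra.lift_of_apply ℚ f x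
    · have : g'.comp pr = g0 := by
        refine FreeNonUnitalNonAssocAlgebra.hom_ext ℚ ?_
        intro x
        exact (hg' x).trans (FreeNonUnitalNonAssocAlgebra.lift_of_apply ℚ f x).symm
      ext a
      obtain ⟨a, rfl⟩ := pr_surj a
      exact congrArg (fun k : Fr →ₙₐ[ℚ] A => k a) this

section
variable {A : Type} [NonUnitalNonAssocRing A] [Module ℚ A] [IsScalarTower ℚ A A] [SMulCommClass ℚ A A]

lemma inV_sub (h : InV A) (U : NonUnitalSubalgebra ℚ A) : InV U :=
  ⟨fun a b c d => Subtype.ext (h.1 a b c d), fun a b x y => Subtype.ext (h.2 a b x y)⟩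

lemma gen_top {X : Type} {i : X → A} (h : FreeOn A i) (U : NonUnitalSubalgebra ℚ A)
    (hU : ∀ x, i x ∈ U) (a : A) : a ∈ U := by
  obtain ⟨g, hg, -⟩ := h.2 U (inV_sub h.1 U) (fun x => ⟨i x, hU x⟩)
  have := (h.2 A h.1 i).unique (y₁ := (NonUnitalSubalgebraClass.subtype U).comp g)
    (y₂ := NonUnitalAlgHom.id ℚ A) (fun x => congrArg Subtype.val (hg x)) (fun x => rfl)
  have h2 : ((g a : U) : A) = a := congrArg (fun k : A →ₙₐ[ℚ] A => k a) this
  rw [← h2]; exact (g a).2

def S (y w : A) : A := y * w + w * y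
def T (y w : A) : A := y * w - w * y

def sq (A : Type) [NonUnitalNonAssocRing A] [Module ℚ A] : Submodule ℚ A :=
  Submodule.span ℚ {w | ∃ a b : A, w = a * b}

lemma mul_sq (a b : A) : a * b ∈ sq A := Submodule.subset_span ⟨a, b, rfl⟩
lemma S_sq (y w : A) : S y w ∈ sq A := add_mem (mul_sq _ _) (mul_sq _ _)
lemma T_sq (y w : A) : T y w ∈ sq A := sub_mem (mul_sq _ _) (mul_sq _ _)

lemma sq_mul (h : InV A) {u v : A} (hu : u ∈ sq A) (hv : v ∈ sq A) : u * v = 0 := by
  induction hu using Submodule.span_induction with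
  | mem x hx =>
    obtain ⟨a, b, rfl⟩ := hx
    induction hv using Submodule.span_induction with
    | mem x hx =>
      obtain ⟨c, d, rfl⟩ := hx
      exact h.1 a b c d
    | zero => exact mul_zero _
    | add x y _ _ h1 h2 => rw [mul_add, h1, h2, add_zero]
    | smul c x _ h1 => rw [mul_smul_comm, h1, smul_zero]
  | zero => exact zero_mul _
  | add x y _ _ h1 h2 => rw [add_mul, h1, h2, add_zero]
  | smul c x _ h1 => rw [smul_mul_assoc, h1, smul_zero]

lemma LR (h : InV A) (y : A) {w : A} (hw : w ∈ sq A) : y * (y * w) = (w * y) * y := by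
  induction hw using Submodule.span_induction with
  | mem x hx =>
    obtain ⟨a, b, rfl⟩ := hx
    have := h.2 a b y y
    linear_combination (norm := module) (1 / 2 : ℚ) • this
  | zero => simp
  | add x y _ _ h1 h2 => rw [mul_add, mul_add, add_mul, add_mul, h1, h2]
  | smul c x _ h1 => rw [mul_smul_comm, mul_smul_comm, smul_mul_assoc, smul_mul_assoc, h1]

lemma TS (h : InV A) (y : A) {w : A} (hw : w ∈ sq A) : T y (S y w) = - S y (T y w) := by
  have := LR h y hw
  simp only [S, T, mul_add, add_mul, mul_sub, sub_mul, this]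
  abel

lemma S_add (y a b : A) : S y (a + b) = S y a + S y b := by
  simp only [S, mul_add, add_mul]; abel
lemma S_sub (y a b : A) : S y (a - b) = S y a - S y b := by
  simp only [S, mul_sub, sub_mul]; abel
lemma S_neg (y a : A) : S y (-a) = - S y a := by
  simp only [S, mul_neg, neg_mul]; abel
lemma S_smul (y a : A) (c : ℚ) : S y (c • a) = c • S y a := by
  simp only [S, mul_smul_comm, smul_mul_assoc, smul_add]
lemma T_add (y a b : A) : T y (a + b) = T y a + T y b := by
  simp only [T, mul_add, add_mul]; abel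
lemma T_sub (y a b : A) : T y (a - b) = T y a - T y b := by
  simp only [T, mul_sub, sub_mul]; abel
lemma T_neg (y a : A) : T y (-a) = - T y a := by
  simp only [T, mul_neg, neg_mul]; abel

def G (y z : A) : A :=
  (1 / 2 : ℚ) • (S y (y * y) - y * y) +
    (-S y z + (1 / 2 : ℚ) • S y (S y z) + (1 / 2 : ℚ) • S y (T y (S y z))) +
    (1 / 2 : ℚ) • (S y (S y (T y z)) - S y (T y z))

def mm (y z : A) : A := S y z + T y z + S y (G y z) + T y (G y z)
def Yf (y z : A) : A := y + mm y z
def Zf (y z : A) : A := -S y z - G y z - S y (G y z)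

lemma G_sq (y z : A) : G y z ∈ sq A :=
  add_mem (add_mem (Submodule.smul_mem _ _ (sub_mem (S_sq _ _) (mul_sq _ _)))
    (add_mem (add_mem (neg_mem (S_sq _ _)) (Submodule.smul_mem _ _ (S_sq _ _)))
      (Submodule.smul_mem _ _ (S_sq _ _)))) (Submodule.smul_mem _ _ (sub_mem (S_sq _ _) (S_sq _ _)))

lemma mm_sq (y z : A) : mm y z ∈ sq A :=
  add_mem (add_mem (add_mem (S_sq _ _) (T_sq _ _)) (S_sq _ _)) (T_sq _ _)

lemma Z_sq (y z : A) : Zf y z ∈ sq A :=
  sub_mem (sub_mem (neg_mem (S_sq _ _)) (G_sq _ _)) (S_sq _ _)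

lemma SY (h : InV A) (y z : A) {w : A} (hw : w ∈ sq A) : S (Yf y z) w = S y w := by
  simp only [S, Yf, add_mul, mul_add, sq_mul h hw (mm_sq y z), sq_mul h (mm_sq y z) hw, add_zero]

lemma TY (h : InV A) (y z : A) {w : A} (hw : w ∈ sq A) : T (Yf y z) w = T y w := by
  simp only [T, Yf, add_mul, mul_add, sq_mul h hw (mm_sq y z), sq_mul h (mm_sq y z) hw, add_zero]

lemma YY (h : InV A) (y z : A) : Yf y z * Yf y z = y * y + S y (mm y z) := by
  simp only [S, Yf, add_mul, mul_add, sq_mul h (mm_sq y z) (mm_sq y z)]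
  abel

lemma GYZ (h : InV A) (y z : A) : G (Yf y z) (Zf y z) = - Zf y z := by
  have hG : G y z = (1 / 2 : ℚ) • (S y (y * y) - y * y) +
    (-S y z + (1 / 2 : ℚ) • S y (S y z) + (1 / 2 : ℚ) • S y (T y (S y z))) +
    (1 / 2 : ℚ) • (S y (S y (T y z)) - S y (T y z)) := rfl
  have hg := G_sq y z
  rw [G, SY h y z (mul_sq _ _), YY h, SY h y z (S_sq _ _), SY h y z (T_sq _ _),
    SY h y z (S_sq _ _), SY h y z (T_sq _ _), TY h y z (S_sq _ _), SY h y z (Z_sq _ _),
    TY h y z (Z_sq _ _), mm, Zf]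
  generalize G y z = g at *
  have e1 := TS h y hg
  have e2 := TS h y (S_sq y g)
  have e3 := TS h y (S_sq y z)
  simp only [S_add, S_sub, S_neg, T_sub, T_neg, e1, e2, e3]
  linear_combination (norm := module) (-1 : ℚ) • hG

lemma ZYZ (h : InV A) (y z : A) : Zf (Yf y z) (Zf y z) = Zf y z := by
  rw [Zf, GYZ h, S_neg, SY h y z (Z_sq _ _)]
  abel

lemma YYZ (h : InV A) (y z : A) : Yf (Yf y z) (Zf y z) = Yf y z := by
  rw [Yf, mm, GYZ h, S_neg, T_neg]
  abel

variable {B : Type} [NonUnitalNonAssocRing B] [Module ℚ B]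

lemma map_G (g : A →ₙₐ[ℚ] B) (y z : A) : g (G y z) = G (g y) (g z) := by
  simp only [G, S, T, map_add, map_sub, map_neg, map_smul, map_mul]

lemma map_Y (g : A →ₙₐ[ℚ] B) (y z : A) : g (Yf y z) = Yf (g y) (g z) := by
  simp only [Yf, mm, S, T, map_add, map_sub, map_mul, map_G]

lemma map_Z (g : A →ₙₐ[ℚ] B) (y z : A) : g (Zf y z) = Zf (g y) (g z) := by
  simp only [Zf, S, map_add, map_sub, map_neg, map_mul, map_G]

end

end Pool.Agent.H14.Retr
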