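import Pool.Agent.H14.Retr

set_option autoImplicit false
set_option maxHeartbeats 400000
set_option linter.unusedSectionVars false

open Polynomial

namespace Pool.Agent.H14.Retr

abbrev MM := ℚ[X][X]

noncomputable def sg (w : MM) : MM := w.comp (C (-1) * X)

lemma sg_coeff (w : MM) (n : ℕ) : (sg w).coeff n = w.coeff n * (-1) ^ n := comp_C_mul_X_coeff
lemma sg_add (a b : MM) : sg (a + b) = sg a + sg b := add_comp
lemma sg_sub (a b : MM) : sg (a - b) = sg a - sg b := sub_comp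
lemma sg_mul (a b : MM) : sg (a * b) = sg a * sg b := mul_comp _ _ _
lemma sg_C (a : ℚ[X]) : sg (C a) = C a := C_comp
lemma sg_X : sg X = -X := by
  rw [sg, X_comp, C_neg, C_1]; ring
lemma sg_smul (c : ℚ) (a : MM) : sg (c • a) = c • sg a := by
  ext1 n
  rw [sg_coeff, coeff_smul, coeff_smul, sg_coeff, smul_mul_assoc]
lemma sg_sg (a : MM) : sg (sg a) = a := by
  ext1 n
  rw [sg_coeff, sg_coeff, mul_assoc, ← mul_pow]; simp

noncomputable def SS : MM →ₗ[ℚ] MM where
  toFun w := C X * sg w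
  map_add' a b := by rw [sg_add, mul_add]
  map_smul' c a := by rw [sg_smul, mul_smul_comm]; rfl

noncomputable def TT : MM →ₗ[ℚ] MM := LinearMap.mulLeft ℚ X

lemma SS_ap (w : MM) : SS w = C X * sg w := rfl
lemma TT_ap (w : MM) : TT w = X * w := rfl

lemma SS_TT (w : MM) : SS (TT w) = - TT (SS w) := by
  rw [SS_ap, TT_ap, TT_ap, SS_ap, sg_mul, sg_X]; ring

noncomputable def mc : (ℚ × MM) →ₗ[ℚ] (ℚ × MM) →ₗ[ℚ] (ℚ × MM) :=
  LinearMap.mk₂ ℚ (fun x y => ((0 : ℚ), (x.1 / 2) • (SS y.2 + TT y.2) + (y.1 / 2) • (SS x.2 - TT x.2)))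
    (by
      intro x y z
      refine Prod.ext (by simp) ?_
      simp only [Prod.fst_add, Prod.snd_add, map_add]
      module)
    (by
      intro c x y
      refine Prod.ext (by simp) ?_
      simp only [Prod.smul_fst, Prod.smul_snd, map_smul, smul_eq_mul]
      module)
    (by
      intro x y z
      refine Prod.ext (by simp) ?_
      simp only [Prod.fst_add, Prod.snd_add, map_add]
      module)
    (by
      intro c x y
      refine Prod.ext (by simp) ?_
      simp only [Prod.smul_fst, Prod.smul_snd, map_smul, smul_eq_mul]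
      module)

abbrev CC : Type := Alg (ℚ × MM) mc

noncomputable def fs : CC →ₗ[ℚ] ℚ := LinearMap.fst ℚ ℚ MM
noncomputable def sn : CC →ₗ[ℚ] MM := LinearMap.snd ℚ ℚ MM

lemma fs_mul (x y : CC) : fs (x * y) = 0 := rfl
lemma sn_mul (x y : CC) : sn (x * y) =
    (fs x / 2) • (SS (sn y) + TT (sn y)) + (fs y / 2) • (SS (sn x) - TT (sn x)) := rfl
lemma cext {x y : CC} (h1 : fs x = fs y) (h2 : sn x = sn y) : x = y := Prod.ext h1 h2

lemma inV_CC : InV CC := by
  refine ⟨fun a b c d => cext ?_ ?_, fun a b x y => cext ?_ ?_⟩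
  · rw [fs_mul, map_zero]
  · rw [sn_mul, fs_mul, fs_mul, map_zero]; simp
  · simp only [map_add, fs_mul]
  · have h0 : fs (a * b) = 0 := fs_mul a b
    generalize a * b = w at *
    simp only [map_add, sn_mul, fs_mul, h0, map_smul, map_sub, SS_TT]
    module

noncomputable def y0 : CC := ((1, 1) : ℚ × MM)
noncomputable def pp : ℚ[X] := C (1 / 2) * (X ^ 2 - X)

lemma fs_sq {w : CC} (hw : w ∈ sq CC) : fs w = 0 := by
  induction hw using Submodule.span_induction with
  | mem x hx => obtain ⟨a, b, rfl⟩ := hx; rfl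
  | zero => simp
  | add x y _ _ h1 h2 => rw [map_add, h1, h2, add_zero]
  | smul c x _ h1 => rw [map_smul, h1, smul_zero]

lemma fs_y0 : fs y0 = 1 := rfl
lemma sn_y0 : sn y0 = 1 := rfl

lemma sn_S {w : CC} (hw : w ∈ sq CC) : sn (S y0 w) = SS (sn w) := by
  simp only [S, map_add, sn_mul, fs_sq hw, fs_y0]
  module

lemma sn_T {w : CC} (hw : w ∈ sq CC) : sn (T y0 w) = TT (sn w) := by
  simp only [T, map_sub, sn_mul, fs_sq hw, fs_y0]
  module

lemma sg_one : sg 1 = 1 := one_comp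

lemma sn_G : sn (G y0 0) = C pp := by
  have h1 : S y0 0 = 0 := by simp [S]
  have h2 : T y0 0 = 0 := by simp [T]
  have h3 : sn (y0 * y0) = C X := by
    rw [sn_mul, fs_y0, sn_y0]
    have : SS 1 = C X := by rw [SS_ap, sg_one, mul_one]
    rw [this]; module
  simp only [G, h1, h2, map_add, map_sub, map_smul, map_neg, map_zero, sn_S (mul_sq _ _), h3,
    smul_zero, neg_zero, add_zero, sub_zero]
  rw [SS_ap, sg_C, ← C_mul, ← C_sub, smul_C, pp, smul_eq_C_mul, pow_two]

lemma sn_Y : sn (Yf y0 0) = 1 + C X * C pp + X * C pp := by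
  have h1 : S y0 0 = 0 := by simp [S]
  have h2 : T y0 0 = 0 := by simp [T]
  simp only [Yf, mm, h1, h2, map_add, sn_S (G_sq _ _), sn_T (G_sq _ _), sn_G, sn_y0, map_zero,
    zero_add, add_zero]
  rw [SS_ap, TT_ap, sg_C, add_assoc]

lemma sn_Z : sn (Zf y0 0) = C (-pp - X * pp) := by
  have h1 : S y0 0 = 0 := by simp [S]
  simp only [Zf, h1, map_sub, map_neg, sn_S (G_sq _ _), sn_G, map_zero]
  rw [SS_ap, sg_C, C_mul]; ring

noncomputable def ev (c : ℚ) : MM →+* ℚ[X] := mapRingHom (evalRingHom c)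

lemma ev_C (c : ℚ) (a : ℚ[X]) : ev c (C a) = C (a.eval c) := by simp [ev]
lemma ev_X (c : ℚ) : ev c X = X := by simp [ev]
lemma ev_coeff (c : ℚ) (a : MM) (n : ℕ) : (ev c a).coeff n = (a.coeff n).eval c := by simp [ev]
lemma ev_sg (c : ℚ) (a : MM) : ev c (sg a) = (ev c a).comp (C (-1) * X) := by
  ext n
  rw [ev_coeff, sg_coeff, comp_C_mul_X_coeff, ev_coeff]; simp
lemma ev_smul (c d : ℚ) (a : MM) : ev c (d • a) = d • ev c a := by
  ext n
  rw [ev_coeff, coeff_smul, coeff_smul, ev_coeff, eval_smul]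

def K : Submodule ℚ MM where
  carrier := {w | ev (-1) w = X * ev 1 w}
  add_mem' := by
    intro a b ha hb
    show ev (-1) (a + b) = X * ev 1 (a + b)
    rw [map_add, map_add, show ev (-1) a = _ from ha, show ev (-1) b = _ from hb, mul_add]
  zero_mem' := by simp
  smul_mem' := by
    intro c a ha
    show ev (-1) (c • a) = X * ev 1 (c • a)
    rw [ev_smul, ev_smul, show ev (-1) a = _ from ha, mul_smul_comm]

lemma K_S {w : MM} (h : w ∈ K) : SS w ∈ K := by
  show ev (-1) (C X * sg w) = X * ev 1 (C X * sg w)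
  rw [map_mul, map_mul, ev_C, ev_C, ev_sg, ev_sg, show ev (-1) w = _ from h]
  simp

lemma K_T {w : MM} (h : w ∈ K) : TT w ∈ K := by
  show ev (-1) (X * w) = X * ev 1 (X * w)
  rw [map_mul, map_mul, ev_X, ev_X, show ev (-1) w = _ from h]

lemma pp1 : pp.eval 1 = 0 := by simp [pp]
lemma pp2 : pp.eval (-1) = 1 := by simp [pp]; norm_num

lemma K_Y : sn (Yf y0 0) ∈ K := by
  show ev (-1) _ = X * ev 1 _
  simp only [sn_Y, map_add, map_mul, map_one, ev_C, ev_X, pp1, pp2]
  simp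

lemma K_Z : sn (Zf y0 0) ∈ K := by
  show ev (-1) _ = X * ev 1 _
  rw [sn_Z, ev_C, ev_C]
  simp [pp1, pp2]

def Ev (a : MM) : Prop := ∀ n, (a.coeff n).comp (-X) = a.coeff n
def Od (a : MM) : Prop := ∀ n, (a.coeff n).comp (-X) = -a.coeff n

def W (h : MM) : Submodule ℚ MM where
  carrier := {w | ∃ a b, Ev a ∧ Od b ∧ w = a * h + b * sg h}
  add_mem' := by
    rintro _ _ ⟨a, b, h1, h2, rfl⟩ ⟨a', b', h1', h2', rfl⟩
    refine ⟨a + a', b + b', fun n => ?_, fun n => ?_, by ring⟩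
    · rw [coeff_add, add_comp, h1, h1']
    · rw [coeff_add, add_comp, h2, h2', neg_add]
  zero_mem' := ⟨0, 0, fun n => by simp, fun n => by simp, by simp⟩
  smul_mem' := by
    rintro c _ ⟨a, b, h1, h2, rfl⟩
    refine ⟨c • a, c • b, fun n => ?_, fun n => ?_, by rw [smul_add, smul_mul_assoc, smul_mul_assoc]⟩
    · rw [coeff_smul, smul_comp, h1]
    · rw [coeff_smul, smul_comp, h2, smul_neg]

lemma W_self (h : MM) : h ∈ W h := by
  refine ⟨1, 0, fun n => ?_, fun n => by simp, by simp⟩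
  rw [coeff_one]; split_ifs <;> simp

lemma W_S {h w : MM} (hw : w ∈ W h) : SS w ∈ W h := by
  obtain ⟨a, b, h1, h2, rfl⟩ := hw
  refine ⟨C X * sg b, C X * sg a, fun n => ?_, fun n => ?_, ?_⟩
  · rw [coeff_C_mul, sg_coeff, mul_comp, mul_comp, h2]; simp
  · rw [coeff_C_mul, sg_coeff, mul_comp, mul_comp, h1]; simp
  · rw [SS_ap, sg_add, sg_mul, sg_mul, sg_sg]; ring

lemma W_T {h w : MM} (hw : w ∈ W h) : TT w ∈ W h := by
  obtain ⟨a, b, h1, h2, rfl⟩ := hw
  refine ⟨X * a, X * b, fun n => ?_, fun n => ?_, ?_⟩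
  · cases n with
    | zero => simp
    | succ n => rw [coeff_X_mul, h1]
  · cases n with
    | zero => simp
    | succ n => rw [coeff_X_mul, h2]
  · rw [TT_ap]; ring

lemma deg0 {h : MM} {q : ℚ[X]} (hq : q ≠ 0) (hw : C q ∈ W h) : h.natDegree = 0 := by
  obtain ⟨a, b, h1, h2, e⟩ := hw
  by_contra hD
  have h0 : h ≠ 0 := by rintro rfl; simp at hD
  have hs : (sg h).natDegree ≤ h.natDegree := by
    rw [natDegree_le_iff_coeff_eq_zero]
    intro N hN
    rw [sg_coeff, coeff_eq_zero_of_natDegree_lt hN, zero_mul]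
  have e1 := congrArg (fun w : MM => w.coeff (max a.natDegree b.natDegree + h.natDegree)) e
  rw [coeff_add, coeff_mul_add_eq_of_natDegree_le (le_max_left _ _) le_rfl,
    coeff_mul_add_eq_of_natDegree_le (le_max_right _ _) hs, coeff_C, if_neg (by omega), sg_coeff,
    mul_comm (h.coeff _), ← mul_assoc, ← add_mul] at e1
  set J := max a.natDegree b.natDegree with hJ
  have e2 : a.coeff J + b.coeff J * (-1) ^ h.natDegree = 0 :=
    (mul_eq_zero.1 e1.symm).resolve_right (leadingCoeff_ne_zero.2 h0)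
  have e3 := congrArg (fun w : ℚ[X] => w.comp (-X)) e2
  simp only [add_comp, mul_comp, h1 J, h2 J, pow_comp, neg_comp, one_comp, zero_comp] at e3
  have e4 : a.coeff J = 0 := by
    have : (2 : ℚ[X]) * a.coeff J = 0 := by linear_combination e2 + e3
    exact (mul_eq_zero.1 this).resolve_left two_ne_zero
  have e5 : b.coeff J = 0 := by
    rw [e4, zero_add] at e2
    exact (mul_eq_zero.1 e2).resolve_right (pow_ne_zero _ (neg_ne_zero.2 one_ne_zero))
  have z : ∀ c : MM, c.natDegree ≤ 0 → c.coeff 0 = 0 → c = 0 := fun c h1 h2 => by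
    rw [eq_C_of_natDegree_le_zero h1, h2, C_0]
  have hab : a = 0 ∧ b = 0 := by
    rcases le_total a.natDegree b.natDegree with hle | hle
    · rw [max_eq_right hle] at hJ
      have hb : b = 0 := leadingCoeff_eq_zero.1 (by rw [hJ] at e5; exact e5)
      have hJ0 : J = 0 := by rw [hJ, hb, natDegree_zero]
      rw [hJ0] at e4
      exact ⟨z a (by rw [hb, natDegree_zero] at hle; exact hle) e4, hb⟩
    · rw [max_eq_left hle] at hJ
      have ha : a = 0 := leadingCoeff_eq_zero.1 (by rw [hJ] at e4; exact e4)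
      have hJ0 : J = 0 := by rw [hJ, ha, natDegree_zero]
      rw [hJ0] at e5
      exact ⟨ha, z b (by rw [ha, natDegree_zero] at hle; exact hle) e5⟩
  rw [hab.1, hab.2, zero_mul, zero_mul, add_zero, C_eq_zero] at e
  exact hq e

lemma final {h : MM} (hK : h ∈ K) (hY : sn (Yf y0 0) ∈ W h) (hZ : sn (Zf y0 0) ∈ W h) : False := by
  rw [sn_Z] at hZ
  have hq : -pp - X * pp ≠ 0 := by
    intro h
    have := congrArg (eval 2) h
    simp [pp] at this
    norm_num at this
  have hd := eq_C_of_natDegree_eq_zero (deg0 hq hZ)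
  generalize h.coeff 0 = h0 at hd
  subst hd
  have h1 : h0.eval 1 = 0 := by
    have : ev (-1) (C h0) = X * ev 1 (C h0) := hK
    rw [ev_C, ev_C] at this
    have := congrArg (fun w : ℚ[X] => w.coeff 1) this
    simpa using this.symm
  obtain ⟨a, b, -, -, e⟩ := hY
  have := congrArg (ev 1) e
  simp only [sn_Y, map_add, map_mul, map_one, ev_C, ev_X, pp1, sg_C, h1] at this
  simp at this

/-- subalgebra of elements whose image has second component in an invariant subspace -/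
def UU {A : Type} [NonUnitalNonAssocRing A] [Module ℚ A] (g : A →ₙₐ[ℚ] CC) (P : Submodule ℚ MM)
    (hS : ∀ w ∈ P, SS w ∈ P) (hT : ∀ w ∈ P, TT w ∈ P) : NonUnitalSubalgebra ℚ A where
  carrier := {a | sn (g a) ∈ P}
  add_mem' := by
    intro a b ha hb
    show sn (g (a + b)) ∈ P
    rw [map_add, map_add]; exact add_mem ha hb
  zero_mem' := by
    show sn (g 0) ∈ P
    rw [map_zero, map_zero]; exact zero_mem _
  mul_mem' := by
    intro a b ha hb
    show sn (g (a * b)) ∈ P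
    rw [map_mul, sn_mul]
    exact add_mem (P.smul_mem _ (add_mem (hS _ hb) (hT _ hb)))
      (P.smul_mem _ (sub_mem (hS _ ha) (hT _ ha)))
  smul_mem' := by
    intro c a ha
    show sn (g (c • a)) ∈ P
    rw [map_smul, map_smul]; exact P.smul_mem _ ha

abbrev ZZ : Type := Alg (ℚ × ℚ) 0

lemma ZZ_mul (a b : ZZ) : a * b = 0 := rfl

def VV {A : Type} [NonUnitalNonAssocRing A] [Module ℚ A] (g : A →ₙₐ[ℚ] ZZ) (v : ZZ) :
    NonUnitalSubalgebra ℚ A where
  carrier := {a | ∃ c : ℚ, g a = c • v}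
  add_mem' := by
    rintro a b ⟨c, ha⟩ ⟨d, hb⟩
    exact ⟨c + d, by rw [map_add, ha, hb, add_smul]⟩
  zero_mem' := ⟨0, by rw [map_zero, zero_smul]⟩
  mul_mem' := by
    intro a b _ _
    exact ⟨0, by rw [map_mul, ZZ_mul, zero_smul]⟩
  smul_mem' := by
    rintro c a ⟨d, ha⟩
    exact ⟨c * d, by rw [map_smul, ha, mul_smul]⟩

theorem main {F : Type} [NonUnitalNonAssocRing F] [Module ℚ F] [IsScalarTower ℚ F F]
    [SMulCommClass ℚ F F] {i : Fin 2 → F} (hF : FreeOn F i) :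
    ∃ φ : F →ₙₐ[ℚ] F, (∀ a, φ (φ a) = φ a) ∧
      ∀ (Y : Type) (j : Y → NonUnitalAlgHom.range φ), ¬ FreeOn (NonUnitalAlgHom.range φ) j := by
  classical
  obtain ⟨φ, hφ, -⟩ := hF.2 F hF.1 ![Yf (i 0) (i 1), Zf (i 0) (i 1)]
  have h0 : φ (i 0) = Yf (i 0) (i 1) := hφ 0
  have h1 : φ (i 1) = Zf (i 0) (i 1) := hφ 1
  have hid : φ.comp φ = φ := by
    refine (hF.2 F hF.1 (fun x => φ (i x))).unique ?_ (fun x => rfl)
    rw [Fin.forall_fin_two]
    constructor
    · show φ (φ (i 0)) = _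
      rw [h0, map_Y, h0, h1, YYZ hF.1]
    · show φ (φ (i 1)) = _
      rw [h1, map_Z, h0, h1, ZYZ hF.1]
  have hi : ∀ a, φ (φ a) = φ a := fun a => congrArg (fun k : F →ₙₐ[ℚ] F => k a) hid
  refine ⟨φ, hi, fun Y j hj => ?_⟩
  let ρ : F →ₙₐ[ℚ] NonUnitalAlgHom.range φ := NonUnitalAlgHom.rangeRestrict φ
  have hρ : ∀ b : NonUnitalAlgHom.range φ, ρ b = b := by
    rintro ⟨_, a, rfl⟩
    exact Subtype.ext (hi a)
  by_cases hY : ∃ a b : Y, a ≠ b
  · obtain ⟨a, b, hab⟩ := hY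
    obtain ⟨g, hg, -⟩ := hj.2 ZZ ⟨fun _ _ _ _ => rfl, fun _ _ _ _ => rfl⟩
      (fun x => if x = a then ((1, 0) : ℚ × ℚ) else ((0, 1) : ℚ × ℚ))
    have hz : (g.comp ρ) (i 1) = 0 := by
      have : (g.comp ρ) (i 1) = (g.comp ρ) (φ (i 1)) :=
        congrArg g (Subtype.ext (hi _).symm)
      rw [this, h1, map_Z]
      simp only [Zf, G, S, T, ZZ_mul]
      simp
    have key := gen_top hF (VV (g.comp ρ) ((g.comp ρ) (i 0))) (by
      rw [Fin.forall_fin_two]
      exact ⟨⟨1, by rw [one_smul]⟩, ⟨0, by rw [hz, zero_smul]⟩⟩)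
    obtain ⟨c, hc⟩ := key (j a)
    obtain ⟨d, hd⟩ := key (j b)
    generalize (g.comp ρ) (i 0) = v at hc hd
    have e1 : g (ρ (j a)) = c • v := hc
    have e2 : g (ρ (j b)) = d • v := hd
    rw [hρ, hg, if_pos rfl] at e1
    rw [hρ, hg, if_neg hab.symm] at e2
    obtain ⟨v1, v2⟩ := v
    have a1 : (1 : ℚ) = c * v1 := congrArg Prod.fst e1
    have a2 : (0 : ℚ) = c * v2 := congrArg Prod.snd e1
    have a3 : (0 : ℚ) = d * v1 := congrArg Prod.fst e2
    have a4 : (1 : ℚ) = d * v2 := congrArg Prod.snd e2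
    have : (1 : ℚ) = 0 := by
      linear_combination a1 + (c * v1) * a4 - (d * v1) * a2
    norm_num at this
  · have hτ : ∃ τ : NonUnitalAlgHom.range φ, ∀ x, j x = τ := by
      by_cases hn : Nonempty Y
      · obtain ⟨a⟩ := hn
        exact ⟨j a, fun x => by
          by_contra hx
          exact hY ⟨x, a, fun h => hx (by rw [h])⟩⟩
      · exact ⟨0, fun x => (hn ⟨x⟩).elim⟩
    obtain ⟨τ, hτ⟩ := hτ
    obtain ⟨ψ, hψ, -⟩ := hF.2 CC inV_CC ![y0, 0]
    have p0 : ψ (i 0) = y0 := hψ 0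
    have p1 : ψ (i 1) = 0 := hψ 1
    have q0 : ψ (φ (i 0)) = Yf y0 0 := by rw [h0, map_Y, p0, p1]
    have q1 : ψ (φ (i 1)) = Zf y0 0 := by rw [h1, map_Z, p0, p1]
    have k1 := gen_top hF (UU (ψ.comp φ) K (fun _ => K_S) (fun _ => K_T)) (by
      rw [Fin.forall_fin_two]
      constructor
      · show sn (ψ (φ (i 0))) ∈ K
        rw [q0]; exact K_Y
      · show sn (ψ (φ (i 1))) ∈ K
        rw [q1]; exact K_Z) τ
    have k2 : sn (ψ τ) ∈ K := by
      have : φ τ = τ := congrArg Subtype.val (hρ τ)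
      rw [← this]; exact k1
    have k3 := gen_top hj (UU (ψ.comp (NonUnitalSubalgebraClass.subtype (NonUnitalAlgHom.range φ)))
      (W (sn (ψ τ))) (fun _ => W_S) (fun _ => W_T)) (fun x => by rw [hτ]; exact W_self _)
    refine final k2 ?_ ?_
    · rw [← q0]; exact k3 (ρ (i 0))
    · rw [← q1]; exact k3 (ρ (i 1))

end Pool.Agent.H14.Retr
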