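import Mathlib

set_option autoImplicit false

namespace Pool.Agent.H14.SelfIdeal

open Set Filter

noncomputable def e : ℕ ≃ Finset ℕ := (Denumerable.eqv (Finset ℕ)).symm

def Cyl (l : Set ℕ) (k : ℕ) : Set ℕ := {n | ∀ j < k, (j ∈ e n ↔ j ∈ l)}

lemma Cyl_anti (l : Set ℕ) {k m : ℕ} (h : k ≤ m) : Cyl l m ⊆ Cyl l k :=
  fun _ hn j hj => hn j (lt_of_lt_of_le hj h)

lemma Cyl_inf (l : Set ℕ) (k : ℕ) : (Cyl l k).Infinite := by
  classical
  refine Set.infinite_of_injective_forall_mem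
    (f := fun t : ℕ => e.symm (insert (k + t) ((Finset.range k).filter (· ∈ l)))) ?_ ?_
  · intro s t h
    have h1 := e.symm.injective h
    have h2 : k + s ∈ insert (k + t) ((Finset.range k).filter (· ∈ l)) := by
      rw [← h1]; simp
    simp only [Finset.mem_insert, Finset.mem_filter, Finset.mem_range] at h2
    omega
  · intro t j hj
    simp only [Equiv.apply_symm_apply, Finset.mem_insert, Finset.mem_filter, Finset.mem_range]
    constructor
    · rintro (h | h)
      · omega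
      · exact h.2
    · exact fun h => Or.inr ⟨hj, h⟩

def Acc (B : Set ℕ) : Set (Set ℕ) := {l | ∀ k, (B ∩ Cyl l k).Infinite}

def Z (B : Set ℕ) : Prop := (Acc B).Countable

lemma Z_mono {A B : Set ℕ} (h : B ⊆ A) (hA : Z A) : Z B :=
  Set.Countable.mono (fun _ hl k => (hl k).mono (inter_subset_inter_left _ h)) hA

lemma Z_union {A B : Set ℕ} (hA : Z A) (hB : Z B) : Z (A ∪ B) := by
  refine Set.Countable.mono ?_ (Set.Countable.union hA hB)
  intro l hl
  by_contra h
  simp only [Acc, mem_union, mem_ofPred_eq, not_or, not_forall, Set.not_infinite] at h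
  obtain ⟨⟨k, hk⟩, ⟨m, hm⟩⟩ := h
  apply hl (max k m)
  rw [union_inter_distrib_right]
  exact (hk.subset (inter_subset_inter_right _ (Cyl_anti l (le_max_left _ _)))).union
    (hm.subset (inter_subset_inter_right _ (Cyl_anti l (le_max_right _ _))))

lemma Z_fin {A : Set ℕ} (hA : A.Finite) : Z A := by
  have : Acc A = ∅ := eq_empty_of_forall_notMem fun l hl => hl 0 (hA.inter_of_left _)
  rw [Z, this]; exact countable_empty

lemma not_Z_Cyl (l : Set ℕ) (k : ℕ) : ¬ Z (Cyl l k) := by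
  intro h
  let g : Set ℕ → Set ℕ := fun T => {j | (j < k ∧ j ∈ l) ∨ (k ≤ j ∧ j - k ∈ T)}
  have hg : Function.Injective g := by
    intro S T hST
    ext j
    have := Set.ext_iff.1 hST (k + j)
    simpa [g] using this
  have h1 : ∀ T, g T ∈ Acc (Cyl l k) := by
    intro T m
    refine (Cyl_inf (g T) (max k m)).mono fun n hn => ⟨fun j hj => ?_,
      Cyl_anti _ (le_max_right _ _) hn⟩
    rw [hn j (lt_of_lt_of_le hj (le_max_left _ _))]
    simp only [g, mem_ofPred_eq]
    constructor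
    · rintro (h | h)
      · exact h.2
      · omega
    · exact fun h => Or.inl ⟨hj, h⟩
  have h2 : (univ : Set (Set ℕ)).Countable := by
    have := h.preimage_of_injOn (f := g) hg.injOn
    exact this.mono fun T _ => h1 T
  obtain ⟨f, hf⟩ := h2.exists_eq_range univ_nonempty
  exact Function.cantor_surjective f (range_eq_univ.1 hf.symm)

def T (A : Set ℕ) : ℕ → Set (Set ℕ)
  | 0 => {A}
  | n + 1 => ⋃ B ∈ {B ∈ T A n | Z B}, Acc B

def cl (A : Set ℕ) : Set (Set ℕ) := ⋃ n, T A n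

lemma cl_countable (A : Set ℕ) : (cl A).Countable := by
  refine countable_iUnion fun n => ?_
  induction n with
  | zero => exact countable_singleton A
  | succ n ih => exact Set.Countable.biUnion (ih.mono (sep_subset _ _)) fun B hB => hB.2

lemma self_cl (A : Set ℕ) : A ∈ cl A := mem_iUnion.2 ⟨0, rfl⟩

lemma step_cl {A B l : Set ℕ} (hB : B ∈ cl A) (hZ : Z B) (hl : l ∈ Acc B) : l ∈ cl A := by
  obtain ⟨n, hn⟩ := mem_iUnion.1 hB
  exact mem_iUnion.2 ⟨n + 1, mem_biUnion (t := fun B => Acc B) (s := {B ∈ T A n | Z B})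
    ⟨hn, hZ⟩ hl⟩

lemma wf : WellFounded (WellOrderingRel : Set ℕ → Set ℕ → Prop) :=
  (WellOrderingRel.isWellOrder).wf

noncomputable def root (l : Set ℕ) : Set ℕ := wf.min {A | l ∈ cl A} ⟨l, self_cl l⟩

lemma mem_cl_root (l : Set ℕ) : l ∈ cl (root l) := wf.min_mem {A | l ∈ cl A} ⟨l, self_cl l⟩

def Conv (A l : Set ℕ) : Prop := ∀ k, (A \ Cyl l k).Finite

lemma exists_C (l : Set ℕ) : ∃ C : Set ℕ, C.Infinite ∧ Conv C l ∧
    ∀ B ∈ cl (root l), Z B → (B ∩ C).Finite := by
  have hc : (insert ∅ {B ∈ cl (root l) | Z B}).Countable :=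
    ((cl_countable _).mono (sep_subset _ _)).insert _
  obtain ⟨f, hf⟩ := hc.exists_eq_range (insert_nonempty _ _)
  have hfZ : ∀ i, Z (f i) := by
    intro i
    have : f i ∈ insert ∅ {B ∈ cl (root l) | Z B} := by rw [hf]; exact mem_range_self i
    rcases this with h | h
    · rw [h]; exact Z_fin finite_empty
    · exact h.2
  have hU : ∀ k, Z {n | ∃ i < k, n ∈ f i} := by
    intro k
    induction k with
    | zero => simpa using Z_fin finite_empty
    | succ k ih =>
      refine Z_mono ?_ (Z_union ih (hfZ k))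
      rintro n ⟨i, hi, hn⟩
      rcases Nat.lt_succ_iff_lt_or_eq.1 hi with h | rfl
      · exact Or.inl ⟨i, h, hn⟩
      · exact Or.inr hn
  have hex : ∀ k, ∃ c ∈ Cyl l k, k ≤ c ∧ ∀ i < k, c ∉ f i := by
    intro k
    by_contra h
    push Not at h
    refine not_Z_Cyl l k (Z_mono ?_ (Z_union (hU k) (Z_fin (finite_lt_nat k))))
    intro c hc
    by_cases hk : k ≤ c
    · exact Or.inl (h c hc hk)
    · exact Or.inr (not_le.1 hk)
  choose c hc1 hc2 hc3 using hex
  refine ⟨range c, ?_, ?_, ?_⟩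
  · refine Set.infinite_of_forall_exists_gt fun k => ⟨c (k + 1), mem_range_self _, hc2 (k + 1)⟩
  · intro k
    refine ((finite_lt_nat k).image c).subset ?_
    rintro _ ⟨⟨m, rfl⟩, hm⟩
    refine ⟨m, ?_, rfl⟩
    by_contra h
    exact hm (Cyl_anti l (not_lt.1 h) (hc1 m))
  · intro B hB hZ
    have : B ∈ range f := by rw [← hf]; exact Or.inr ⟨hB, hZ⟩
    obtain ⟨i, rfl⟩ := this
    refine ((finite_le_nat i).image c).subset ?_
    rintro _ ⟨hm, ⟨m, rfl⟩⟩
    refine ⟨m, ?_, rfl⟩
    by_contra h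
    exact hc3 m i (not_le.1 h) hm

noncomputable def C (l : Set ℕ) : Set ℕ := (exists_C l).choose

lemma acc_of_conv {A B l : Set ℕ} (h : Conv A l) (hB : (B ∩ A).Infinite) : l ∈ Acc B := by
  intro k
  refine (hB.sdiff (h k)).mono ?_
  rintro n ⟨⟨h1, h2⟩, h3⟩
  refine ⟨h1, ?_⟩
  by_contra h4
  exact h3 ⟨h2, h4⟩

lemma acc_conv {A l m : Set ℕ} (h : Conv A l) (hm : m ∈ Acc A) : m = l := by
  ext j
  obtain ⟨n, ⟨h1, h2⟩, h3⟩ := ((hm (j + 1)).sdiff (h (j + 1))).nonempty
  have h4 : n ∈ Cyl l (j + 1) := by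
    by_contra h4
    exact h3 ⟨h1, h4⟩
  rw [← h2 j (by omega), h4 j (by omega)]

def Rel (l B : Set ℕ) : Prop := Z B ∧ (B ∩ C l).Infinite

lemma wfRel : WellFounded Rel := by
  refine Subrelation.wf ?_ (InvImage.wf root wf)
  rintro l B ⟨hZ, hB⟩
  obtain ⟨-, h2, h3⟩ := (exists_C l).choose_spec
  have h4 : l ∈ cl (root B) := step_cl (mem_cl_root B) hZ (acc_of_conv h2 hB)
  have h5 : ¬ WellOrderingRel (root B) (root l) := wf.not_lt_min {A | l ∈ cl A} h4
  have h6 : root l ≠ root B := fun h => hB (h3 B (h ▸ mem_cl_root B) hZ)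
  rcases trichotomous_of WellOrderingRel (root l) (root B) with h | h | h
  · exact h
  · exact absurd h h6
  · exact absurd h h5

noncomputable def I : Set ℕ → Prop :=
  wfRel.fix fun B ih => Z B ∧ ∀ l (h : Rel l B), ¬ ih l h

lemma I_iff (B : Set ℕ) : I B ↔ Z B ∧ ∀ l, I l → (B ∩ C l).Finite := by
  rw [I, wfRel.fix_eq]
  refine and_congr_right fun hZ => forall_congr' fun l => ?_
  constructor
  · intro h hl
    by_contra h1
    exact h ⟨hZ, h1⟩ hl
  · exact fun h h1 hl => h1.2 (h hl)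

lemma main (l : Set ℕ) : (∃ A, ¬ I A ∧ Conv A l) ↔ I l := by
  obtain ⟨h1, h2, -⟩ := (exists_C l).choose_spec
  constructor
  · rintro ⟨A, hA, hc⟩
    by_contra hl
    apply hA
    rw [I_iff]
    refine ⟨(countable_singleton l).mono fun m hm => acc_conv hc hm, fun m hm => ?_⟩
    by_contra h
    have h3 := acc_conv hc (acc_of_conv (exists_C m).choose_spec.2.1 h)
    exact hl (h3 ▸ hm)
  · intro hl
    refine ⟨C l, fun h => h1 ?_, h2⟩
    exact (((I_iff _).1 h).2 l hl).subset fun n hn => ⟨hn, hn⟩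

noncomputable def x (n j : ℕ) : Bool := decide (j ∈ e n)

lemma tendsto_iff (A : Set ℕ) (f : ℕ → Bool) :
    Tendsto x (atTop ⊓ 𝓟 A) (nhds f) ↔ Conv A {n | f n = true} := by
  rw [tendsto_pi_nhds]
  simp only [nhds_discrete, tendsto_pure, ← Nat.cofinite_eq_atTop, eventually_inf_principal,
    eventually_cofinite]
  have key : ∀ n j, x n j = f j ↔ (j ∈ e n ↔ f j = true) := by
    intro n j
    simp only [x]
    cases f j <;> simp
  constructor
  · intro h k
    refine ((finite_lt_nat k).biUnion fun j _ => h j).subset ?_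
    rintro n ⟨h1, h2⟩
    simp only [Cyl, mem_ofPred_eq, not_forall] at h2
    obtain ⟨j, hj, h2⟩ := h2
    exact mem_biUnion hj fun h3 => h2 ((key n j).1 (h3 h1))
  · intro h j
    refine (h (j + 1)).subset fun n hn => ?_
    simp only [mem_ofPred_eq, Classical.not_imp] at hn
    exact ⟨hn.1, fun h1 => hn.2 ((key n j).2 (h1 j (by omega)))⟩

end Pool.Agent.H14.SelfIdeal
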