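import Mathlib

namespace Pool.Agent.H14.Sig
open Finset

section
variable {ι : Type} [Fintype ι] [DecidableEq ι]

def pt (w : ι → ℝ) (S : Finset ι) (c : ι) : ℝ := if c ∈ S then w c else 0

def ds (w : ι → ℝ) (S T : Finset ι) : ℝ := ∑ c, |pt w S c - pt w T c|

theorem ds_comm (w : ι → ℝ) (S T : Finset ι) : ds w S T = ds w T S := by
  unfold ds
  exact sum_congr rfl fun c _ => abs_sub_comm _ _

theorem ds_self (w : ι → ℝ) (S : Finset ι) : ds w S S = 0 := by simp [ds]

theorem ds_nonneg (w : ι → ℝ) (S T : Finset ι) : 0 ≤ ds w S T :=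
  sum_nonneg fun _ _ => abs_nonneg _

theorem ds_tri (w : ι → ℝ) (S T R : Finset ι) : ds w S R ≤ ds w S T + ds w T R := by
  unfold ds
  rw [← sum_add_distrib]
  exact sum_le_sum fun c _ => abs_sub_le _ _ _

theorem ds_union (w : ι → ℝ) (hw : ∀ c, 0 ≤ w c) (P U K : Finset ι) (h : Disjoint P U) :
    ds w (P ∪ U) K = ds w P K + ∑ c ∈ U, w c - 2 * ∑ c ∈ U ∩ K, w c := by
  have e1 : ∑ c ∈ U, w c = ∑ c, if c ∈ U then w c else 0 := by
    rw [sum_ite_mem, univ_inter]
  have e2 : ∑ c ∈ U ∩ K, w c = ∑ c, if c ∈ U ∩ K then w c else 0 := by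
    rw [sum_ite_mem, univ_inter]
  rw [e1, e2, ds, ds, mul_sum, ← sum_add_distrib, ← sum_sub_distrib]
  refine sum_congr rfl fun c _ => ?_
  have hd : ¬ (c ∈ P ∧ c ∈ U) := fun hh => disjoint_left.mp h hh.1 hh.2
  have := hw c
  by_cases h1 : c ∈ P <;> by_cases h2 : c ∈ U <;> by_cases h3 : c ∈ K <;>
    simp [pt, h1, h2, h3, abs_of_nonneg this] at hd ⊢
  ring
end

theorem geom_le (B : ℝ) (hB : 2 ≤ B) (q : ℕ) : ∑ t ∈ range (q + 1), B ^ t ≤ 2 * B ^ q := by
  induction q with
  | zero => simp
  | succ q ih =>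
    rw [sum_range_succ, pow_succ]
    have : 0 < B ^ q := by positivity
    nlinarith

section main
variable {V : Type} [Fintype V] [DecidableEq V] (G : SimpleGraph V) [DecidableRel G.Adj]
  (f : V → ℕ) (p : V → V)

/-- the new coordinates of a vertex -/
def U (i : V) : Finset (V × Option V) :=
  univ.filter fun c => c.1 = i ∨ (c.2 = some i ∧ f c.1 < f i ∧ G.Adj i c.1 ∧ c.1 ≠ p i)

def S (i : V) : Finset (V × Option V) :=
  if _h : f (p i) < f i then S (p i) ∪ U G f p i else ∅
termination_by f i

def wt (B : ℝ) (c : V × Option V) : ℝ := if c.2 = none then 4 * B ^ f c.1 else B ^ f c.1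

def R (B : ℝ) (i : V) : ℝ := ∑ c ∈ U G f p i, wt f B c

theorem wt_nonneg (B : ℝ) (hB : 2 ≤ B) (c : V × Option V) : 0 ≤ wt f B c := by
  unfold wt; split_ifs <;> positivity

theorem mem_U {i : V} {c : V × Option V} : c ∈ U G f p i ↔
    c.1 = i ∨ (c.2 = some i ∧ f c.1 < f i ∧ G.Adj i c.1 ∧ c.1 ≠ p i) := by simp [U]

theorem S_pos {i : V} (h : f (p i) < f i) : S G f p i = S G f p (p i) ∪ U G f p i := by
  rw [S, dif_pos h]

theorem S_neg {i : V} (h : ¬ f (p i) < f i) : S G f p i = ∅ := by
  rw [S, dif_neg h]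

/-- description of the support -/
theorem mem_S (k : V) (c : V × Option V) (hc : c ∈ S G f p k) :
    (c.1 = k ∨ (f (p k) < f k ∧ f c.1 ≤ f (p k))) ∨
      (∃ a, c.2 = some a ∧ f c.1 < f a ∧ f a ≤ f k) := by
  induction hn : f k using Nat.strong_induction_on generalizing k with
  | _ n ih =>
    by_cases h : f (p k) < f k
    · rw [S_pos G f p h, mem_union] at hc
      rcases hc with hc | hc
      · rcases ih _ (hn ▸ h) (p k) hc rfl with (h1 | h1) | ⟨a, h1, h2, h3⟩
        · left; right; exact ⟨hn ▸ h, by rw [h1]⟩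
        · left; right; exact ⟨hn ▸ h, by omega⟩
        · right; exact ⟨a, h1, h2, by omega⟩
      · rcases (mem_U G f p).mp hc with h1 | ⟨h1, h2, _, _⟩
        · left; left; exact h1
        · right; exact ⟨k, h1, h2, by omega⟩
    · rw [S_neg G f p h] at hc
      simp at hc

theorem sum_le_geom (hf : Function.Injective f) (B : ℝ) (hB : 2 ≤ B) (T : Finset V) (q : ℕ)
    (hT : ∀ j ∈ T, f j ≤ q) : ∑ j ∈ T, B ^ f j ≤ 2 * B ^ q := by
  refine le_trans ?_ (geom_le B hB q)
  rw [← sum_image (s := T) (g := f) (f := fun t => B ^ t) (fun a _ b _ h => hf h)]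
  refine sum_le_sum_of_subset_of_nonneg ?_ (fun _ _ _ => by positivity)
  intro t ht
  obtain ⟨j, hj, rfl⟩ := mem_image.mp ht
  exact mem_range.mpr (Nat.lt_succ_of_le (hT j hj))

theorem R_lower (B : ℝ) (hB : 2 ≤ B) (i : V) : 4 * B ^ f i ≤ R G f p B i := by
  have : wt f B (i, none) = 4 * B ^ f i := by simp [wt]
  rw [← this]
  exact single_le_sum (f := wt f B) (fun c _ => wt_nonneg f B hB c)
    ((mem_U G f p).mpr (Or.inl rfl))

theorem R_upper (hf : Function.Injective f) (B : ℝ) (hB : 2 ≤ B) (i : V) :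
    R G f p B i ≤ (4 * (Fintype.card V + 1) + 2) * B ^ f i := by
  have hsub : U G f p i ⊆ (univ.image fun o : Option V => (i, o)) ∪
      ((univ.filter fun j => f j ≤ f i).image fun j : V => (j, some i)) := by
    intro c hc
    rcases (mem_U G f p).mp hc with h1 | ⟨h1, h2, _, _⟩
    · exact mem_union_left _ (mem_image.mpr ⟨c.2, mem_univ _, by rw [← h1]⟩)
    · exact mem_union_right _ (mem_image.mpr ⟨c.1, by simp; omega, by rw [← h1]⟩)
  have h1 := sum_le_sum_of_subset_of_nonneg (f := wt f B) hsub (fun c _ _ => wt_nonneg f B hB c)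
  have h2 : ∑ c ∈ (univ.image fun o : Option V => (i, o)) ∪
      ((univ.filter fun j => f j ≤ f i).image fun j : V => (j, some i)), wt f B c ≤
      ∑ c ∈ (univ.image fun o : Option V => (i, o)), wt f B c +
      ∑ c ∈ ((univ.filter fun j => f j ≤ f i).image fun j : V => (j, some i)), wt f B c := by
    rw [← sum_union_inter]
    have : 0 ≤ ∑ c ∈ (univ.image fun o : Option V => (i, o)) ∩
      ((univ.filter fun j => f j ≤ f i).image fun j : V => (j, some i)), wt f B c :=
      sum_nonneg fun c _ => wt_nonneg f B hB c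
    linarith
  have h3 : ∑ c ∈ (univ.image fun o : Option V => (i, o)), wt f B c ≤
      (Fintype.card V + 1) * (4 * B ^ f i) := by
    rw [sum_image (fun a _ b _ h => by simpa using h)]
    have : ∀ o ∈ (univ : Finset (Option V)), wt f B (i, o) ≤ 4 * B ^ f i := by
      intro o _
      have : 0 < B ^ f i := by positivity
      unfold wt; split_ifs <;> simp only <;> linarith
    have := sum_le_card_nsmul _ _ _ this
    simpa using this
  have h4 : ∑ c ∈ ((univ.filter fun j => f j ≤ f i).image fun j : V => (j, some i)), wt f B c ≤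
      2 * B ^ f i := by
    rw [sum_image (fun a _ b _ h => by simpa using h)]
    simp only [wt, reduceCtorEq, if_false]
    exact sum_le_geom f hf B hB _ _ (fun j hj => (mem_filter.mp hj).2)
  unfold R
  linarith

/-- overlap of the new coordinates of i with an earlier point -/
theorem overlap {i k : V} (hk : f k < f i) (c : V × Option V) (hc : c ∈ U G f p i ∩ S G f p k) :
    c.2 = some i ∧ G.Adj i c.1 ∧ c.1 ≠ p i ∧ (c.1 = k ∨ (f (p k) < f k ∧ f c.1 ≤ f (p k))) := by
  obtain ⟨h1, h2⟩ := mem_inter.mp hc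
  have h3 := mem_S G f p k c h2
  rcases (mem_U G f p).mp h1 with h1 | ⟨h1, h4, h5, h6⟩
  · exfalso
    rcases h3 with (h3 | h3) | ⟨a, _, h7, h8⟩
    · rw [← h1, h3] at hk; omega
    · rw [h1] at h3; omega
    · rw [h1] at h7; omega
  · refine ⟨h1, h5, h6, ?_⟩
    rcases h3 with h3 | ⟨a, h7, h8, h9⟩
    · exact h3
    · rw [h1] at h7
      obtain rfl : i = a := by simpa using h7
      omega

theorem overlap_sum (hf : Function.Injective f) (B : ℝ) (hB : 2 ≤ B) {i k : V} (hk : f k < f i)
    (q : ℕ) (hq : ∀ c ∈ U G f p i ∩ S G f p k, f c.1 ≤ q) :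
    ∑ c ∈ U G f p i ∩ S G f p k, wt f B c ≤ 2 * B ^ q := by
  have hsub : U G f p i ∩ S G f p k ⊆
      ((univ.filter fun j => f j ≤ q).image fun j : V => (j, some i)) := by
    intro c hc
    have h1 := (overlap G f p hk c hc).1
    exact mem_image.mpr ⟨c.1, by simpa using hq c hc, by rw [← h1]⟩
  refine le_trans (sum_le_sum_of_subset_of_nonneg hsub (fun c _ _ => wt_nonneg f B hB c)) ?_
  rw [sum_image (fun a _ b _ h => by simpa using h)]
  simp only [wt, reduceCtorEq, if_false]
  exact sum_le_geom f hf B hB _ _ (fun j hj => (mem_filter.mp hj).2)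

/-- the distance between two vertices -/
def D (B : ℝ) (i k : V) : ℝ := ds (wt f B) (S G f p i) (S G f p k)

variable (hf : Function.Injective f) (hmin : ∀ i j, G.Adj i j → f (p i) ≤ f j)
include hf hmin

theorem overlap_empty {i k : V} (hk : f k < f i) (hkp : f k ≤ f (p i)) :
    U G f p i ∩ S G f p k = ∅ := by
  rw [eq_empty_iff_forall_notMem]
  intro c hc
  obtain ⟨_, h2, h3, h4⟩ := overlap G f p hk c hc
  have h5 := hmin i c.1 h2
  have h6 : f c.1 ≠ f (p i) := fun h => h3 (hf h)
  rcases h4 with h4 | h4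
  · rw [h4] at h5 h6; omega
  · omega

theorem D_step (B : ℝ) (hB : 2 ≤ B) {i : V} (hi : f (p i) < f i) (k : V) :
    D G f p B i k = D G f p B (p i) k + R G f p B i -
      2 * ∑ c ∈ U G f p i ∩ S G f p k, wt f B c := by
  unfold D R
  rw [S_pos G f p hi]
  refine ds_union _ (wt_nonneg f B hB) _ _ _ ?_
  rw [disjoint_comm, disjoint_iff_inter_eq_empty]
  exact overlap_empty G f p hf hmin hi le_rfl

variable (root : V) (hroot : ∀ i, i ≠ root → f (p i) < f i) (hroot0 : ∀ i, f root ≤ f i)
include hroot hroot0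

theorem D_lower (B : ℝ) (hB : 2 ≤ B) (i k : V) (hk : f k < f i) :
    R G f p B i ≤ D G f p B i k := by
  induction hn : f i using Nat.strong_induction_on generalizing i k with
  | _ n ih =>
    have hi : f (p i) < f i := hroot i (by rintro rfl; have := hroot0 k; omega)
    rw [D_step G f p hf hmin B hB hi]
    by_cases hkp : f k ≤ f (p i)
    · rw [overlap_empty G f p hf hmin hk hkp]
      have : 0 ≤ D G f p B (p i) k := ds_nonneg _ _ _
      simp only [sum_empty]
      linarith
    · have h1 := ih (f k) (hn ▸ hk) k (p i) (by omega) rfl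
      have h2 := R_lower G f p B hB k
      have h3 := overlap_sum G f p hf B hB hk (f k) (by
        intro c hc
        rcases (overlap G f p hk c hc).2.2.2 with h | h
        · rw [h]
        · omega)
      have h4 : D G f p B (p i) k = D G f p B k (p i) := ds_comm _ _ _
      linarith

theorem D_root (B : ℝ) (hB : 2 ≤ B) (i : V) :
    D G f p B i root ≤ 2 * ((4 * (Fintype.card V + 1) + 2) * B ^ f i) := by
  induction hn : f i using Nat.strong_induction_on generalizing i with
  | _ n ih =>
    by_cases hi : i = root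
    · subst hi
      unfold D
      rw [ds_self]; positivity
    · have hi' := hroot i hi
      rw [D_step G f p hf hmin B hB hi']
      have h1 := ih _ (hn ▸ hi') (p i) rfl
      have h2 := R_upper G f p hf B hB i
      have h3 : 0 ≤ ∑ c ∈ U G f p i ∩ S G f p root, wt f B c :=
        sum_nonneg fun c _ => wt_nonneg f B hB c
      have h4 : B ^ f (p i) * 2 ≤ B ^ f i := by
        calc B ^ f (p i) * 2 ≤ B ^ f (p i) * B := by gcongr
          _ = B ^ (f (p i) + 1) := by rw [pow_succ]
          _ ≤ B ^ f i := pow_le_pow_right₀ (by linarith) hi'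
      rw [← hn]
      have h5 : (0 : ℝ) ≤ 4 * (Fintype.card V + 1) + 2 := by positivity
      nlinarith

theorem D_small (B : ℝ) (hB : 2 * (4 * ((Fintype.card V : ℝ) + 1) + 2) < B) (a b j : V)
    (ha : f a < f j) (hb : f b < f j) : D G f p B a b < 2 * B ^ f j := by
  have hc : (0 : ℝ) ≤ Fintype.card V := by positivity
  have hB2 : 2 ≤ B := by linarith
  have h1 := D_root G f p hf hmin root hroot hroot0 B hB2 a
  have h2 := D_root G f p hf hmin root hroot hroot0 B hB2 b
  have h3 : D G f p B a b ≤ D G f p B a root + D G f p B root b := ds_tri _ _ _ _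
  have h4 : D G f p B root b = D G f p B b root := ds_comm _ _ _
  have key : ∀ x, f x < f j → 2 * ((4 * (Fintype.card V + 1) + 2) * B ^ f x) < B ^ f j := by
    intro x hx
    have hp : 0 < B ^ f x := by positivity
    calc 2 * ((4 * (Fintype.card V + 1) + 2) * B ^ f x)
        = (2 * (4 * ((Fintype.card V : ℝ) + 1) + 2)) * B ^ f x := by ring
      _ < B * B ^ f x := by gcongr
      _ = B ^ (f x + 1) := by ring
      _ ≤ B ^ f j := pow_le_pow_right₀ (by linarith) hx
  have := key a ha
  have := key b hb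
  linarith

theorem D_parent (B : ℝ) (hB : 2 ≤ B) (i : V) (hi : i ≠ root) :
    D G f p B i (p i) = R G f p B i := by
  have hi' := hroot i hi
  rw [D_step G f p hf hmin B hB hi', overlap_empty G f p hf hmin hi' le_rfl]
  unfold D
  rw [ds_self]; simp

theorem D_adj (B : ℝ) (hB : 2 * (4 * ((Fintype.card V : ℝ) + 1) + 2) < B) (i j : V)
    (hj : f j < f i) (hadj : G.Adj i j) (hjp : j ≠ p i) :
    j ≠ root ∧ D G f p B i j < R G f p B i + R G f p B j := by
  have hc : (0 : ℝ) ≤ Fintype.card V := by positivity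
  have hB2 : 2 ≤ B := by linarith
  have hi : f (p i) < f i := hroot i (by rintro rfl; have := hroot0 j; omega)
  have h5 := hmin i j hadj
  have h6 : f j ≠ f (p i) := fun h => hjp (hf h)
  have hjr : j ≠ root := by rintro rfl; have := hroot0 (p i); omega
  refine ⟨hjr, ?_⟩
  have hj' := hroot j hjr
  rw [D_step G f p hf hmin B hB2 hi]
  have h1 : D G f p B (p i) j = D G f p B j (p i) := ds_comm _ _ _
  rw [h1, D_step G f p hf hmin B hB2 hj']
  have h2 : 0 ≤ ∑ c ∈ U G f p j ∩ S G f p (p i), wt f B c :=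
    sum_nonneg fun c _ => wt_nonneg f B hB2 c
  have h3 := D_small G f p hf hmin root hroot hroot0 B hB (p j) (p i) j hj' (by omega)
  have hmem : (j, some i) ∈ U G f p i ∩ S G f p j := by
    refine mem_inter.mpr ⟨(mem_U G f p).mpr (Or.inr ⟨rfl, hj, hadj, hjp⟩), ?_⟩
    rw [S_pos G f p hj']
    exact mem_union_right _ ((mem_U G f p).mpr (Or.inl rfl))
  have h4 := single_le_sum (f := wt f B) (fun c _ => wt_nonneg f B hB2 c) hmem
  have h7 : wt f B (j, some i) = B ^ f j := by simp [wt]
  linarith

theorem D_nadj (B : ℝ) (hB : 2 ≤ B) (i k : V) (hk : f k < f i) (hadj : ¬ G.Adj i k) :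
    R G f p B i + D G f p B (p i) k ≤ D G f p B i k ∨
      (k ≠ root ∧ R G f p B i + R G f p B k ≤ D G f p B i k) := by
  have hi : f (p i) < f i := hroot i (by rintro rfl; have := hroot0 k; omega)
  rw [D_step G f p hf hmin B hB hi]
  by_cases he : U G f p i ∩ S G f p k = ∅
  · left; rw [he]; simp only [sum_empty]; linarith
  · right
    obtain ⟨c, hc⟩ := nonempty_iff_ne_empty.mpr he
    have hall : ∀ c ∈ U G f p i ∩ S G f p k,
        f (p i) < f c.1 ∧ f (p k) < f k ∧ f c.1 ≤ f (p k) := by
      intro c hc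
      obtain ⟨_, h2, h3, h4⟩ := overlap G f p hk c hc
      have h5 := hmin i c.1 h2
      have h6 : f c.1 ≠ f (p i) := fun h => h3 (hf h)
      rcases h4 with h4 | h4
      · rw [h4] at h2; exact absurd h2 hadj
      · exact ⟨by omega, h4⟩
    obtain ⟨h1, h2, h3⟩ := hall c hc
    refine ⟨by rintro rfl; have := hroot0 (p k); omega, ?_⟩
    have h4 := overlap_sum G f p hf B hB hk (f (p k)) (fun c hc => (hall c hc).2.2)
    have h5 : D G f p B (p i) k = D G f p B k (p i) := ds_comm _ _ _
    rw [h5, D_step G f p hf hmin B hB h2,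
      overlap_empty G f p hf hmin (i := k) (k := p i) (by omega) (by omega)]
    have h6 := D_lower G f p hf hmin root hroot hroot0 B hB (p k) (p i) (by omega)
    have h7 := R_lower G f p B hB (p k)
    simp only [sum_empty]
    linarith

theorem R_mono (B : ℝ) (hB : 2 * (4 * ((Fintype.card V : ℝ) + 1) + 2) < B) (i k : V)
    (hk : f k ≤ f i) : R G f p B k ≤ R G f p B i := by
  have hc : (0 : ℝ) ≤ Fintype.card V := by positivity
  have hB2 : 2 ≤ B := by linarith
  rcases Nat.eq_or_lt_of_le hk with h | h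
  · rw [hf h]
  · have h1 := R_upper G f p hf B hB2 k
    have h2 := R_lower G f p B hB2 i
    have hp : 0 < B ^ f k := by positivity
    have h3 : B * B ^ f k ≤ B ^ f i := by
      calc B * B ^ f k = B ^ (f k + 1) := by ring
        _ ≤ B ^ f i := pow_le_pow_right₀ (by linarith) h
    nlinarith

end main

theorem exists_order {V : Type} [Fintype V] [DecidableEq V] (G : SimpleGraph V)
    (hG : G.Connected) (h2 : 2 ≤ Fintype.card V) :
    ∃ (f : V → ℕ) (p : V → V) (root : V), Function.Injective f ∧
      (∀ i, G.Adj i (p i)) ∧ (∀ i j, G.Adj i j → f (p i) ≤ f j) ∧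
      (∀ i, i ≠ root → f (p i) < f i) ∧ (∀ i, f root ≤ f i) := by
  classical
  obtain ⟨root⟩ := hG.nonempty
  let e := Fintype.equivFin V
  let n := Fintype.card V
  let f : V → ℕ := fun v => G.dist root v * n + e v
  have hlt : ∀ v, (e v : ℕ) < n := fun v => (e v).2
  have hf : Function.Injective f := by
    intro a b hab
    have h1 : f a % n = e a := by
      simp only [f]
      rw [Nat.mul_add_mod', Nat.mod_eq_of_lt (hlt a)]
    have h2 : f b % n = e b := by
      simp only [f]
      rw [Nat.mul_add_mod', Nat.mod_eq_of_lt (hlt b)]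
    rw [hab, h2] at h1
    exact e.injective (Fin.ext h1.symm)
  have hdown : ∀ i, i ≠ root → ∃ j, G.Adj i j ∧ f j < f i := by
    intro i hi
    obtain ⟨w, hw⟩ := (hG.preconnected i root).exists_walk_length_eq_dist
    cases w with
    | nil => exact absurd rfl hi
    | @cons _ j _ hadj w' =>
      refine ⟨j, hadj, ?_⟩
      have h1 : G.dist j root ≤ w'.length := G.dist_le w'
      simp only [SimpleGraph.Walk.length_cons] at hw
      have h3 : G.dist root j + 1 ≤ G.dist root i := by
        rw [SimpleGraph.dist_comm, SimpleGraph.dist_comm (u := root)]; omega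
      have h4 := Nat.mul_le_mul_right n h3
      have := hlt j
      simp only [f]
      nlinarith
  have hnb : ∀ i, ∃ j, G.Adj i j := by
    intro i
    by_cases hi : i = root
    · obtain ⟨k, hk⟩ := Fintype.exists_ne_of_one_lt_card (by omega : 1 < Fintype.card V) i
      obtain ⟨w⟩ := hG.preconnected i k
      cases w with
      | nil => exact absurd rfl hk
      | @cons _ j _ hadj w' => exact ⟨j, hadj⟩
    · obtain ⟨j, hj, _⟩ := hdown i hi
      exact ⟨j, hj⟩
  have hp : ∀ i, ∃ j, G.Adj i j ∧ ∀ k, G.Adj i k → f j ≤ f k := by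
    intro i
    obtain ⟨j, hj, hj2⟩ := exists_min_image (univ.filter fun j => G.Adj i j) f
      (by obtain ⟨j, hj⟩ := hnb i; exact ⟨j, by simpa using hj⟩)
    exact ⟨j, by simpa using hj, fun k hk => hj2 k (by simpa using hk)⟩
  choose p hp1 hp2 using hp
  refine ⟨f, p, root, hf, hp1, hp2, ?_, ?_⟩
  · intro i hi
    obtain ⟨j, hj, hj2⟩ := hdown i hi
    exact lt_of_le_of_lt (hp2 i j hj) hj2
  · intro i
    by_cases hi : i = root
    · rw [hi]
    · have h1 : 0 < G.dist root i := hG.pos_dist_of_ne (Ne.symm hi)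
      have h4 := Nat.mul_le_mul_right n h1
      have := hlt root
      simp only [f, SimpleGraph.dist_self]
      omega

theorem main {V : Type} [Fintype V] [DecidableEq V] (G : SimpleGraph V)
    (hG : G.Connected) (h2 : 2 ≤ Fintype.card V) :
    ∃ (w : V × Option V → ℝ) (T : V → Finset (V × Option V)) (r : V → ℝ),
      (∀ i, 0 < r i) ∧ (∀ i, IsLeast {t | ∃ j, j ≠ i ∧ t = ds w (T i) (T j)} (r i)) ∧
      ∀ i j, i ≠ j → (G.Adj i j → ds w (T i) (T j) < r i + r j) ∧
        (¬ G.Adj i j → r i + r j ≤ ds w (T i) (T j)) := by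
  classical
  obtain ⟨f, p, root, hf, hadj, hmin, hroot, hroot0⟩ := exists_order G hG h2
  set B : ℝ := 2 * (4 * ((Fintype.card V : ℝ) + 1) + 2) + 1 with hBdef
  have hB : 2 * (4 * ((Fintype.card V : ℝ) + 1) + 2) < B := by linarith
  have hc : (0 : ℝ) ≤ Fintype.card V := by positivity
  have hB2 : 2 ≤ B := by linarith
  obtain ⟨v1, hv1, hv1min⟩ := exists_min_image (univ.filter fun j => j ≠ root) f
    (by obtain ⟨k, hk⟩ := Fintype.exists_ne_of_one_lt_card (by omega : 1 < Fintype.card V) root
        exact ⟨k, by simpa using hk⟩)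
  have hv1r : v1 ≠ root := by simpa using hv1
  have hpv1 : p v1 = root := by
    by_contra h
    have := hv1min (p v1) (by simpa using h)
    have := hroot v1 hv1r
    omega
  let r : V → ℝ := fun i => if i = root then R G f p B v1 else R G f p B i
  have hr_ne : ∀ i, i ≠ root → r i = R G f p B i := fun i hi => by simp [r, hi]
  have hrpos : ∀ i, 0 < r i := by
    intro i
    have hp : ∀ x, 0 < R G f p B x := fun x =>
      lt_of_lt_of_le (by positivity) (R_lower G f p B hB2 x)
    simp only [r]
    split_ifs <;> exact hp _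
  have hlow : ∀ i j, j ≠ i → r i ≤ D G f p B i j := by
    intro i j hji
    have hne : f j ≠ f i := fun h => hji (hf h)
    rcases Nat.lt_or_gt_of_ne hne with h | h
    · rw [hr_ne i (by rintro rfl; have := hroot0 j; omega)]
      exact D_lower G f p hf hmin root hroot hroot0 B hB2 i j h
    · have h1 := D_lower G f p hf hmin root hroot hroot0 B hB2 j i h
      have h3 : D G f p B i j = D G f p B j i := ds_comm _ _ _
      rw [h3]
      refine le_trans ?_ h1
      by_cases hi : i = root
      · simp only [r, hi, if_true]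
        exact R_mono G f p hf hmin root hroot hroot0 B hB j v1
          (hv1min j (by rw [← hi]; simpa using hji))
      · rw [hr_ne i hi]
        exact R_mono G f p hf hmin root hroot hroot0 B hB j i h.le
  have key : ∀ i j, f j < f i → (G.Adj i j → D G f p B i j < r i + r j) ∧
      (¬ G.Adj i j → r i + r j ≤ D G f p B i j) := by
    intro i j hj
    have hi : i ≠ root := by rintro rfl; have := hroot0 j; omega
    rw [hr_ne i hi]
    constructor
    · intro ha
      by_cases hjp : j = p i
      · rw [hjp, D_parent G f p hf hmin root hroot hroot0 B hB2 i hi]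
        linarith [hrpos (p i)]
      · obtain ⟨h1, h3⟩ := D_adj G f p hf hmin root hroot hroot0 B hB i j hj ha hjp
        rw [hr_ne j h1]; exact h3
    · intro ha
      rcases D_nadj G f p hf hmin root hroot hroot0 B hB2 i j hj ha with h | ⟨h1, h3⟩
      · have h4 := hlow j (p i) (by rintro rfl; exact ha (hadj i))
        have h3 : D G f p B (p i) j = D G f p B j (p i) := ds_comm _ _ _
        linarith
      · rw [hr_ne j h1]; exact h3
  refine ⟨wt f B, S G f p, r, hrpos, ?_, ?_⟩
  · intro i
    constructor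
    · by_cases hi : i = root
      · refine ⟨v1, by rw [hi]; exact hv1r, ?_⟩
        have := D_parent G f p hf hmin root hroot hroot0 B hB2 v1 hv1r
        rw [hpv1] at this
        simp only [r, hi, if_true]
        rw [← this]
        exact ds_comm _ _ _
      · refine ⟨p i, (hadj i).ne', ?_⟩
        rw [hr_ne i hi]
        exact (D_parent G f p hf hmin root hroot hroot0 B hB2 i hi).symm
    · rintro t ⟨j, hj, rfl⟩
      exact hlow i j hj
  · intro i j hij
    have hne : f j ≠ f i := fun h => hij (hf h).symm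
    rcases Nat.lt_or_gt_of_ne hne with h | h
    · exact key i j h
    · have := key j i h
      rw [ds_comm, add_comm, G.adj_comm]
      exact this

end Pool.Agent.H14.Sig
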