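import Mathlib

set_option autoImplicit false
set_option maxHeartbeats 400000
open scoped BigOperators

namespace Pool.Agent.H14.Sims

structure Hyp (a : ℕ → ℕ → ℤ) : Prop where
  h01 : a 0 1 = 1
  h12 : a 1 2 = 1
  h0 : ∀ n : ℕ, 1 < n → a 0 n = 0
  hz : ∀ i n : ℕ, n < 2 * i → a i n = 0
  hr : ∀ i n : ℕ, 1 ≤ i → 1 ≤ n →
        a i (n + 1) = (i : ℤ) * a i n + ((n : ℤ) - 2 * (i : ℤ) + 2) * a (i - 1) n

variable {a : ℕ → ℕ → ℤ}

lemma nn (H : Hyp a) : ∀ n i : ℕ, 0 ≤ a i (n + 1) := by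
  intro n
  induction n with
  | zero =>
    intro i
    rcases i with _ | i
    · simp [H.h01]
    · rw [H.hz _ _ (by omega)]
  | succ n ih =>
    intro i
    rcases i with _ | i
    · rw [H.h0 _ (by omega)]
    · rw [H.hr (i + 1) (n + 1) (by omega) (by omega)]
      have h1 := ih (i + 1)
      have h2 := ih i
      simp only [Nat.add_sub_cancel]
      by_cases h : n + 1 < 2 * i
      · rw [H.hz i _ h]; simp only [mul_zero, add_zero]; positivity
      · have : (0 : ℤ) ≤ ((n + 1 : ℕ) : ℤ) - 2 * ((i + 1 : ℕ) : ℤ) + 2 := by push_cast; omega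
        positivity

lemma nn' (H : Hyp a) (i n : ℕ) (hn : 1 ≤ n) : 0 ≤ a i n := by
  obtain ⟨m, rfl⟩ : ∃ m, n = m + 1 := ⟨n - 1, by omega⟩
  exact nn H m i

lemma up (H : Hyp a) (i n : ℕ) (hn : 2 ≤ n) : (i : ℤ) * a i n ≤ a i (n + 1) := by
  rcases i with _ | i
  · simp [H.h0 (n + 1) (by omega)]
  · rw [H.hr (i + 1) n (by omega) (by omega)]
    simp only [Nat.add_sub_cancel]
    have h2 := nn' H i n (by omega)
    by_cases h : n < 2 * i
    · rw [H.hz i _ h]; simp
    · have : (0 : ℤ) ≤ (n : ℤ) - 2 * ((i + 1 : ℕ) : ℤ) + 2 := by push_cast; omega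
      have := mul_nonneg this h2
      linarith

lemma ups (H : Hyp a) (i n : ℕ) (hn : 2 ≤ n) : ∀ k : ℕ, (i : ℤ) ^ k * a i n ≤ a i (n + k) := by
  intro k
  induction k with
  | zero => simp
  | succ k ih =>
    have h := up H i (n + k) (by omega)
    have : (i : ℤ) * ((i : ℤ) ^ k * a i n) ≤ (i : ℤ) * a i (n + k) :=
      mul_le_mul_of_nonneg_left ih (by positivity)
    calc (i : ℤ) ^ (k + 1) * a i n = (i : ℤ) * ((i : ℤ) ^ k * a i n) := by ring
      _ ≤ _ := this
      _ ≤ _ := h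

lemma words (H : Hyp a) (m : ℕ) (hm : 2 ≤ m) : ∀ k i p : ℕ, m + k = 2 * i + p →
    ∑ s ∈ Finset.range (k + 1),
      (((p + 1).ascFactorial s : ℕ) : ℤ) * (((i - s : ℕ) : ℤ) ^ (k - s) * a (i - s) m) ≤ a i (m + k) := by
  intro k
  induction k with
  | zero => intro i p _; simp
  | succ k ih =>
    intro i p h
    rcases i with _ | i
    · simp [H.h0 m (by omega), H.h0 (m + (k + 1)) (by omega)]
    · rw [Finset.sum_range_succ']
      have e : a (i + 1) (m + (k + 1)) = ((i + 1 : ℕ) : ℤ) * a (i + 1) (m + k)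
          + ((p : ℤ) + 1) * a i (m + k) := by
        have := H.hr (i + 1) (m + k) (by omega) (by omega)
        rw [show m + (k + 1) = m + k + 1 by omega, this]
        simp only [Nat.add_sub_cancel]
        have h' : ((m + k : ℕ) : ℤ) - 2 * ((i + 1 : ℕ) : ℤ) + 2 = (p : ℤ) + 1 := by
          push_cast; omega
        rw [h']
      rw [e]
      have h1 := ups H (i + 1) m hm k
      have h1' : ((i + 1 : ℕ) : ℤ) * (((i + 1 : ℕ) : ℤ) ^ k * a (i + 1) m)
          ≤ ((i + 1 : ℕ) : ℤ) * a (i + 1) (m + k) := mul_le_mul_of_nonneg_left h1 (by positivity)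
      have h2 := ih i (p + 1) (by omega)
      have h2' := mul_le_mul_of_nonneg_left h2 (show (0 : ℤ) ≤ (p : ℤ) + 1 by positivity)
      rw [Finset.mul_sum] at h2'
      have h3 : ∑ s ∈ Finset.range (k + 1),
          (((p + 1).ascFactorial (s + 1) : ℕ) : ℤ) *
            (((i + 1 - (s + 1) : ℕ) : ℤ) ^ (k + 1 - (s + 1)) * a (i + 1 - (s + 1)) m)
          = ∑ s ∈ Finset.range (k + 1), ((p : ℤ) + 1) * ((((p + 1 + 1).ascFactorial s : ℕ) : ℤ) *
            (((i - s : ℕ) : ℤ) ^ (k - s) * a (i - s) m)) := by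
        refine Finset.sum_congr rfl fun s _ => ?_
        have q : (p + 1).ascFactorial (s + 1) = (p + 1) * (p + 1 + 1).ascFactorial s := by
          rw [Nat.ascFactorial_succ, ← Nat.succ_ascFactorial]
        rw [q, Nat.add_sub_add_right, Nat.add_sub_add_right]
        push_cast; ring
      rw [h3]
      simp only [Nat.ascFactorial_zero, Nat.sub_zero, Nat.cast_one, one_mul]
      have h4 : ((i + 1 : ℕ) : ℤ) ^ (k + 1) * a (i + 1) m
          = ((i + 1 : ℕ) : ℤ) * (((i + 1 : ℕ) : ℤ) ^ k * a (i + 1) m) := by ring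
      linarith

lemma facs : ∀ k x y : ℕ, x + y = k + 4 → 4 * 3 ^ (k + 4) ≤ 81 * (x.factorial * y.factorial) := by
  intro k
  induction k with
  | zero =>
    intro x y h
    have hx : x ≤ 4 := by omega
    obtain rfl : y = 4 - x := by omega
    interval_cases x <;> simp [Nat.factorial]
  | succ k ih =>
    intro x y h
    rcases le_total x y with hxy | hxy
    · obtain ⟨y, rfl⟩ : ∃ z, y = z + 1 := ⟨y - 1, by omega⟩
      have := ih x y (by omega)
      have h3 : 3 ≤ y + 1 := by omega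
      rw [Nat.factorial_succ]
      calc 4 * 3 ^ (k + 1 + 4) = 3 * (4 * 3 ^ (k + 4)) := by ring
        _ ≤ (y + 1) * (81 * (x.factorial * y.factorial)) := Nat.mul_le_mul h3 this
        _ = _ := by ring
    · obtain ⟨x, rfl⟩ : ∃ z, x = z + 1 := ⟨x - 1, by omega⟩
      have := ih x y (by omega)
      have h3 : 3 ≤ x + 1 := by omega
      rw [Nat.factorial_succ]
      calc 4 * 3 ^ (k + 1 + 4) = 3 * (4 * 3 ^ (k + 4)) := by ring
        _ ≤ (x + 1) * (81 * (x.factorial * y.factorial)) := Nat.mul_le_mul h3 this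
        _ = _ := by ring

/-- the absolute contribution of the r-th term -/
def T (a : ℕ → ℕ → ℤ) (n i r : ℕ) : ℤ :=
  ∑ k ∈ Finset.range (i + 1), ((Nat.choose (2 * n - 2 * i + k) k : ℕ) : ℤ) *
    (((Nat.choose (i - k) (i - 2 * r) : ℕ) : ℤ) * a (i - k) (2 * (n - r)))

lemma T_eq (n i r : ℕ) (hr : 2 * r ≤ i) : T a n i r =
    ∑ k ∈ Finset.range (2 * r + 1), ((Nat.choose (2 * n - 2 * i + k) k : ℕ) : ℤ) *
    (((Nat.choose (i - k) (2 * r - k) : ℕ) : ℤ) * a (i - k) (2 * (n - r))) := by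
  unfold T
  symm
  rw [← Finset.sum_subset (s₁ := Finset.range (2 * r + 1)) (s₂ := Finset.range (i + 1))]
  · refine Finset.sum_congr rfl fun k hk => ?_
    have hk' : k ≤ 2 * r := by simpa [Nat.lt_succ_iff] using hk
    rw [Nat.choose_symm_of_eq_add (n := i - k) (a := 2 * r - k) (b := i - 2 * r) (by omega)]
  · intro k hk; simp at hk ⊢; omega
  · intro k hk hk2
    simp at hk hk2
    rw [Nat.choose_eq_zero_of_lt (n := i - k) (by omega)]
    simp

lemma T_big (H : Hyp a) (n i r : ℕ) (hr : 2 * r ≤ i) (hi : i ≤ n) (h2 : 2 ≤ r) :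
    4 * 9 ^ r * T a n i r ≤ 81 * a i (2 * n) := by
  rw [T_eq n i r hr]
  have hw := words H (2 * (n - r)) (by omega) (2 * r) i (2 * n - 2 * i) (by omega)
  rw [show 2 * (n - r) + 2 * r = 2 * n by omega] at hw
  refine le_trans ?_ (mul_le_mul_of_nonneg_left hw (by norm_num))
  rw [Finset.mul_sum, Finset.mul_sum]
  refine Finset.sum_le_sum fun k hk => ?_
  have hk' : k ≤ 2 * r := by simpa [Nat.lt_succ_iff] using hk
  have ha := nn' H (i - k) (2 * (n - r)) (by omega)
  have f := facs (2 * r - 4) k (2 * r - k) (by omega)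
  rw [show 2 * r - 4 + 4 = 2 * r by omega, pow_mul] at f
  have g : (2 * r - k).factorial * (i - k).choose (2 * r - k) ≤ (i - k) ^ (2 * r - k) := by
    rw [← Nat.descFactorial_eq_factorial_mul_choose]
    exact Nat.descFactorial_le_pow _ _
  have key : 4 * 9 ^ r * ((2 * n - 2 * i + k).choose k * (i - k).choose (2 * r - k))
      ≤ 81 * ((2 * n - 2 * i + 1).ascFactorial k * (i - k) ^ (2 * r - k)) := by
    rw [Nat.ascFactorial_eq_factorial_mul_choose]
    calc 4 * 9 ^ r * ((2 * n - 2 * i + k).choose k * (i - k).choose (2 * r - k))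
        ≤ 81 * (k.factorial * (2 * r - k).factorial) *
          ((2 * n - 2 * i + k).choose k * (i - k).choose (2 * r - k)) :=
          Nat.mul_le_mul_right _ (by simpa using f)
      _ = 81 * (k.factorial * (2 * n - 2 * i + k).choose k *
          ((2 * r - k).factorial * (i - k).choose (2 * r - k))) := by ring
      _ ≤ _ := by gcongr
  have key' : (4 * 9 ^ r * (((2 * n - 2 * i + k).choose k : ℕ) * ((i - k).choose (2 * r - k) : ℕ)) : ℤ)
      ≤ 81 * (((2 * n - 2 * i + 1).ascFactorial k : ℕ) * ((i - k : ℕ) : ℤ) ^ (2 * r - k)) := by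
    exact_mod_cast key
  have := mul_le_mul_of_nonneg_right key' ha
  linarith

lemma T_one (H : Hyp a) (j p : ℕ) (hj : 1 ≤ j) :
    T a (j + 2 + p) (j + 2) 1 ≤ a (j + 2) (2 * (j + 2 + p)) ∧
    (2 ≤ j → 32 * T a (j + 2 + p) (j + 2) 1 ≤ 23 * a (j + 2) (2 * (j + 2 + p))) := by
  rw [T_eq _ _ 1 (by omega)]
  simp only [mul_one, Finset.sum_range_succ, Finset.sum_range_zero, zero_add]
  have e0 : 2 * (j + 2 + p) - 2 * (j + 2) = 2 * p := by omega
  have e1 : 2 * (j + 2 + p - 1) = 2 * j + 2 * p + 2 := by omega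
  have e2 : 2 * (j + 2 + p) = 2 * j + 2 * p + 2 + 1 + 1 := by omega
  rw [e0, e1, e2]
  set m := 2 * j + 2 * p + 2 with hm
  have r1 := H.hr (j + 2) (m + 1) (by omega) (by omega)
  have r2 := H.hr (j + 2) m (by omega) (by omega)
  have r3 := H.hr (j + 1) m (by omega) (by omega)
  have s1 : j + 2 - 1 = j + 1 := by omega
  have s2 : j + 1 - 1 = j := by omega
  have s3 : j + 2 - 2 = j := by omega
  rw [s1] at r1 r2
  rw [s2] at r3
  rw [r1, r2, r3, s1, s3]
  have c1 : (((j + 2).choose 2 : ℕ) : ℤ) * 2 = (j + 2) * (j + 1) := by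
    have := Nat.add_one_mul_choose_eq (j + 1) 1
    simp only [Nat.choose_one_right] at this
    have h : (j + 2).choose 2 * 2 = (j + 2) * (j + 1) := this.symm
    exact_mod_cast h
  have c2 : (((2 * p + 2).choose 2 : ℕ) : ℤ) * 2 = (2 * p + 2) * (2 * p + 1) := by
    have := Nat.add_one_mul_choose_eq (2 * p + 1) 1
    simp only [Nat.choose_one_right] at this
    have h : (2 * p + 2).choose 2 * 2 = (2 * p + 2) * (2 * p + 1) := this.symm
    exact_mod_cast h
  simp only [Nat.choose_zero_right, Nat.sub_zero, Nat.choose_one_right, add_zero, Nat.cast_one,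
    one_mul, show 2 - 1 = 1 by rfl, show 2 - 2 = 0 by rfl]
  have x0 := nn' H (j + 2) m (by omega)
  have x1 := nn' H (j + 1) m (by omega)
  have x2 := nn' H j m (by omega)
  have hmz : (m : ℤ) = 2 * j + 2 * p + 2 := by rw [hm]; push_cast; ring
  obtain ⟨C1, hC1⟩ : ∃ C, C = (((j + 2).choose 2 : ℕ) : ℤ) := ⟨_, rfl⟩
  obtain ⟨C2, hC2⟩ : ∃ C, C = (((2 * p + 2).choose 2 : ℕ) : ℤ) := ⟨_, rfl⟩
  rw [← hC1] at c1 ⊢
  rw [← hC2] at c2 ⊢
  push_cast
  rw [hmz]
  have hj0 : (0 : ℤ) ≤ j := by positivity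
  have hp0 : (0 : ℤ) ≤ p := by positivity
  have y0 : 2 * (C1 * a (j + 2) m) ≤ ((j : ℤ) + 2) * ((j : ℤ) + 2) * a (j + 2) m := by
    have : 2 * C1 ≤ ((j : ℤ) + 2) * ((j : ℤ) + 2) := by nlinarith
    nlinarith
  have y0' : 0 ≤ ((j : ℤ) + 2) * ((j : ℤ) + 2) * a (j + 2) m := by positivity
  have y2 : 2 * (C2 * a j m) = (2 * (p : ℤ) + 2) * (2 * p + 1) * a j m := by
    rw [← c2]; ring
  have y2' : 0 ≤ (2 * (p : ℤ) + 2) * (2 * p + 1) * a j m := by positivity
  have y1 : 0 ≤ ((j : ℤ) + 2) * p * a (j + 1) m := by positivity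
  refine ⟨by nlinarith, fun h2 => ?_⟩
  rcases p with _ | p
  · have hm' : m = 2 * j + 1 + 1 := by omega
    have u1 := up H j (2 * j + 1) (by omega)
    have u2 := H.hr (j + 1) (2 * j + 1) (by omega) (by omega)
    rw [H.hz (j + 1) (2 * j + 1) (by omega), s2, ← hm'] at u2
    rw [← hm'] at u1
    have u3 : a (j + 1) m = a j (2 * j + 1) := by rw [u2]; push_cast; ring
    rw [← u3] at u1
    have h2' : (2 : ℤ) ≤ j := by exact_mod_cast h2
    have u4 : 2 * a (j + 1) m ≤ j * a (j + 1) m := mul_le_mul_of_nonneg_right h2' x1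
    simp only [Nat.cast_zero] at *
    nlinarith
  · push_cast at *
    have z : 0 ≤ ((j : ℤ) + 1) * p * a (j + 1) m := by positivity
    have z' : 0 ≤ (j : ℤ) * a (j + 1) m := by positivity
    have z'' : 0 ≤ (p : ℤ) * a (j + 1) m := by positivity
    nlinarith

lemma geo (f : ℕ → ℤ) (A : ℤ) (hA : 0 ≤ A) : ∀ N : ℕ, (∀ r, 2 ≤ r → r ≤ N + 1 → 4 * 9 ^ r * f r ≤ 81 * A) →
    32 * 9 ^ N * ∑ r ∈ Finset.Icc 1 (N + 1), f r ≤ 32 * 9 ^ N * f 1 + 9 * (9 ^ N - 1) * A := by
  intro N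
  induction N with
  | zero => intro _; simp
  | succ N ih =>
    intro h
    rw [Finset.sum_Icc_succ_top (by omega)]
    have h1 := ih fun r h2 h3 => h r h2 (by omega)
    have h2 := h (N + 1 + 1) (by omega) le_rfl
    rw [pow_succ, pow_succ] at h2
    rw [pow_succ]
    nlinarith

lemma K (H : Hyp a) (n i : ℕ) (h3 : 3 ≤ i) (hi : i ≤ n) :
    ∑ r ∈ Finset.Icc 1 (i / 2), T a n i r ≤ a i (2 * n) := by
  obtain ⟨j, rfl⟩ : ∃ j, i = j + 2 := ⟨i - 2, by omega⟩
  obtain ⟨p, rfl⟩ : ∃ p, n = j + 2 + p := ⟨n - (j + 2), by omega⟩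
  have h1 := T_one H j p (by omega)
  by_cases hj : j = 1
  · subst hj
    simpa using h1.1
  · have h2 := h1.2 (by omega)
    have hA := nn' H (j + 2) (2 * (j + 2 + p)) (by omega)
    have g := geo (T a (j + 2 + p) (j + 2)) _ hA (j / 2) fun r hr hr' =>
      T_big H (j + 2 + p) (j + 2) r (by omega) (by omega) hr
    rw [show (j + 2) / 2 = j / 2 + 1 by omega]
    have hq : (0 : ℤ) < 9 ^ (j / 2) := by positivity
    by_contra hc
    push Not at hc
    have := mul_lt_mul_of_pos_left hc hq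
    have := mul_le_mul_of_nonneg_left h2 hq.le
    nlinarith

lemma a2 (H : Hyp a) (n : ℕ) (hn : 2 ≤ n) : 1 ≤ a 2 (2 * n) := by
  have h1 := up H 1 2 le_rfl
  have h2 := H.hr 2 3 (by omega) (by omega)
  rw [H.hz 2 3 (by omega)] at h2
  have h3 := ups H 2 4 (by omega) (2 * n - 4)
  rw [show 4 + (2 * n - 4) = 2 * n by omega] at h3
  rw [H.h12] at h1
  norm_num at h1 h2 h3
  have : (1 : ℤ) ≤ 2 ^ (2 * n - 4) := one_le_pow₀ (by norm_num)
  nlinarith

theorem main (H : Hyp a) (b : ℕ → ℕ → ℤ) (b2 : ∀ n : ℕ, 2 ≤ n → b 2 n = 1)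
    (b0 : ∀ i n : ℕ, ¬ (2 ≤ i ∧ i ≤ n) → b i n = 0)
    (br : ∀ i n : ℕ, 3 ≤ i → i ≤ n →
        b i n = ∑ k ∈ Finset.range (i + 1),
          ((Nat.choose (2 * n - 2 * i + k) k : ℕ) : ℤ) *
            ∑ r ∈ Finset.Icc 1 (i / 2),
              (-1 : ℤ) ^ (r - 1) * ((Nat.choose (i - k) (i - 2 * r) : ℕ) : ℤ) * b (i - k) (n - r)) :
    ∀ n : ℕ, 1 ≤ n → ∀ i, |b i n| ≤ a i (2 * n) := by
  intro n
  induction n using Nat.strong_induction_on with
  | _ n ih =>
    intro hn i
    by_cases h : 2 ≤ i ∧ i ≤ n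
    · by_cases h2 : i = 2
      · subst h2
        rw [b2 n h.2]
        simpa using a2 H n h.2
      · have h3 : 3 ≤ i := by omega
        refine le_trans ?_ (K H n i h3 h.2)
        rw [br i n h3 h.2]
        unfold T
        rw [Finset.sum_comm]
        refine le_trans (Finset.abs_sum_le_sum_abs _ _) (Finset.sum_le_sum fun k _ => ?_)
        rw [← Finset.mul_sum, abs_mul, abs_of_nonneg (by positivity)]
        refine mul_le_mul_of_nonneg_left ?_ (by positivity)
        refine le_trans (Finset.abs_sum_le_sum_abs _ _) (Finset.sum_le_sum fun r hr => ?_)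
        have hr' := Finset.mem_Icc.mp hr
        rw [abs_mul, abs_mul, abs_pow, abs_neg, abs_one, one_pow, one_mul, abs_of_nonneg (by positivity)]
        exact mul_le_mul_of_nonneg_left (ih (n - r) (by omega) (by omega) _) (by positivity)
    · rw [b0 i n h]
      simpa using nn' H i (2 * n) (by omega)

end Pool.Agent.H14.Sims
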