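import Mathlib

namespace Pool.Agent.H14.Sofic

open Finset

abbrev G := Multiplicative (Fin 3 → ℤ)

def e (i : Fin 3) : G := Multiplicative.ofAdd (Pi.single i 1)

def S : Finset G := univ.image e

def InBall (n : ℕ) (g : G) : Prop :=
  ∃ l : List G, l.length ≤ n ∧ (∀ x ∈ l, x ∈ S ∨ x⁻¹ ∈ S) ∧ l.prod = g

lemma abs_le_of_list (l : List G) (h : ∀ x ∈ l, x ∈ S ∨ x⁻¹ ∈ S) (i : Fin 3) :
    |(Multiplicative.toAdd l.prod) i| ≤ l.length := by
  induction l with
  | nil => simp
  | cons x l ih =>
    have h1 : |(Multiplicative.toAdd x) i| ≤ 1 := by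
      rcases h x (by simp) with hx | hx
      · simp only [S, mem_image, mem_univ, true_and] at hx
        obtain ⟨j, rfl⟩ := hx
        simp only [e, toAdd_ofAdd, Pi.single_apply]
        split_ifs <;> simp
      · simp only [S, mem_image, mem_univ, true_and] at hx
        obtain ⟨j, hj⟩ := hx
        have : x = (e j)⁻¹ := by rw [hj, inv_inv]
        subst this
        simp only [e, toAdd_inv, toAdd_ofAdd, Pi.neg_apply, abs_neg, Pi.single_apply]
        split_ifs <;> simp
    have h2 := ih (fun y hy => h y (by simp [hy]))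
    simp only [List.prod_cons, toAdd_mul, Pi.add_apply, List.length_cons]
    have := abs_add_le ((Multiplicative.toAdd x) i) ((Multiplicative.toAdd l.prod) i)
    push_cast
    linarith

lemma abs_le_of_inBall {n : ℕ} {g : G} (h : InBall n g) (i : Fin 3) :
    |(Multiplicative.toAdd g) i| ≤ n := by
  obtain ⟨l, h1, h2, rfl⟩ := h
  have := abs_le_of_list l h2 i
  have h3 : (l.length : ℤ) ≤ n := by exact_mod_cast h1
  linarith

lemma finite_ball (n : ℕ) : Finite {g : G // InBall n g} := by
  let f : {g : G // InBall n g} → (Fin 3 → Set.Icc (-(n : ℤ)) n) :=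
    fun g i => ⟨(Multiplicative.toAdd g.1) i, abs_le.1 (abs_le_of_inBall g.2 i)⟩
  refine Finite.of_injective f ?_
  intro g h hgh
  ext i
  exact congrArg Subtype.val (congrFun hgh i)

lemma inBall_nat (m : ℕ) (a : Fin 3 → Fin (m + 1)) :
    InBall (3 * m) (Multiplicative.ofAdd fun i => ((a i : ℕ) : ℤ)) := by
  refine ⟨List.replicate (a 0) (e 0) ++ List.replicate (a 1) (e 1) ++ List.replicate (a 2) (e 2),
    ?_, ?_, ?_⟩
  · have h0 := (a 0).2
    have h1 := (a 1).2
    have h2 := (a 2).2
    simp only [List.length_append, List.length_replicate]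
    omega
  · intro x hx
    left
    simp only [List.mem_append, List.mem_replicate] at hx
    simp only [S, mem_image, mem_univ, true_and]
    rcases hx with (hx | hx) | hx <;> exact ⟨_, hx.2.symm⟩
  · simp only [List.prod_append, List.prod_replicate, e, ← ofAdd_nsmul, ← ofAdd_add]
    congr 1
    ext i
    fin_cases i <;> simp

lemma card_ball (m : ℕ) : (m + 1) ^ 3 ≤ Nat.card {g : G // InBall (3 * m) g} := by
  have := finite_ball (3 * m)
  let f : (Fin 3 → Fin (m + 1)) → {g : G // InBall (3 * m) g} :=
    fun a => ⟨_, inBall_nat m a⟩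
  have hf : Function.Injective f := by
    intro a b hab
    ext i
    have h1 := congrArg Subtype.val hab
    have h2 := congrFun (Multiplicative.ofAdd.injective h1) i
    exact_mod_cast h2
  have := Nat.card_le_card_of_injective f hf
  simpa using this

lemma closure_S : Subgroup.closure (S : Set G) = ⊤ := by
  rw [eq_top_iff]
  intro g _
  have h : ∀ i, e i ∈ Subgroup.closure (S : Set G) := fun i =>
    Subgroup.subset_closure (by simp [S])
  have : g = e 0 ^ (Multiplicative.toAdd g 0) * e 1 ^ (Multiplicative.toAdd g 1)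
      * e 2 ^ (Multiplicative.toAdd g 2) := by
    apply Multiplicative.toAdd.injective
    ext i
    fin_cases i <;> simp [e]
  rw [this]
  exact mul_mem (mul_mem (zpow_mem (h 0) _) (zpow_mem (h 1) _)) (zpow_mem (h 2) _)

section
variable (p : ℕ)

def val (g : G) (a : ZMod p) : ZMod p :=
  (Multiplicative.toAdd g 0 : ℤ) + (Multiplicative.toAdd g 1 : ℤ) * a
    + (Multiplicative.toAdd g 2 : ℤ) * a ^ 2

def act (g : G) : Equiv.Perm (ZMod p × ZMod p) where
  toFun x := (x.1, x.2 + val p g x.1)
  invFun x := (x.1, x.2 - val p g x.1)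
  left_inv x := by simp
  right_inv x := by simp

def actHom : G →* Equiv.Perm (ZMod p × ZMod p) where
  toFun := act p
  map_one' := by ext x <;> simp [act, val]
  map_mul' g h := by
    ext x
    · simp [act]
    · simp [act, val]; ring

variable [hp : Fact p.Prime]

lemma card_roots (g : G) (hg : g ≠ 1) (hb : ∀ i, |(Multiplicative.toAdd g) i| < p) :
    #{a : ZMod p | val p g a = 0} ≤ 2 := by
  classical
  let P : Polynomial (ZMod p) :=
    Polynomial.C ((Multiplicative.toAdd g 2 : ℤ) : ZMod p) * Polynomial.X ^ 2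
      + Polynomial.C ((Multiplicative.toAdd g 1 : ℤ) : ZMod p) * Polynomial.X
      + Polynomial.C ((Multiplicative.toAdd g 0 : ℤ) : ZMod p)
  have hz : ∀ i, ((Multiplicative.toAdd g i : ℤ) : ZMod p) = 0 → Multiplicative.toAdd g i = 0 := by
    intro i hi
    rw [ZMod.intCast_zmod_eq_zero_iff_dvd] at hi
    exact Int.eq_zero_of_abs_lt_dvd hi (hb i)
  have hP : P ≠ 0 := by
    intro h
    apply hg
    have h0 := congrArg (fun Q => Polynomial.coeff Q 0) h
    have h1 := congrArg (fun Q => Polynomial.coeff Q 1) h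
    have h2 := congrArg (fun Q => Polynomial.coeff Q 2) h
    simp only [P, Polynomial.coeff_add, Polynomial.coeff_C_mul, Polynomial.coeff_X_pow,
      Polynomial.coeff_X, Polynomial.coeff_C, Polynomial.coeff_zero] at h0 h1 h2
    simp at h0 h1 h2
    apply Multiplicative.toAdd.injective
    ext i
    fin_cases i
    · exact hz 0 h0
    · exact hz 1 h1
    · exact hz 2 h2
  have hdeg : P.natDegree ≤ 2 := Polynomial.natDegree_quadratic_le
  calc #{a : ZMod p | val p g a = 0} ≤ P.roots.toFinset.card := by
        apply card_le_card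
        intro a ha
        simp only [mem_filter, mem_univ, true_and] at ha
        simp only [Multiset.mem_toFinset, Polynomial.mem_roots hP, Polynomial.IsRoot.def, P,
          Polynomial.eval_add, Polynomial.eval_mul, Polynomial.eval_C, Polynomial.eval_pow,
          Polynomial.eval_X]
        rw [← ha, val]
        ring
    _ ≤ P.roots.card := Multiset.toFinset_card_le _
    _ ≤ P.natDegree := Polynomial.card_roots' P
    _ ≤ 2 := hdeg

lemma card_fixed (g : G) (hg : g ≠ 1) (hb : ∀ i, |(Multiplicative.toAdd g) i| < p) :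
    #{x : ZMod p × ZMod p | actHom p g x = x} ≤ 2 * p := by
  have h := card_roots p g hg hb
  calc #{x : ZMod p × ZMod p | actHom p g x = x}
      ≤ #(({a : ZMod p | val p g a = 0} : Finset (ZMod p)) ×ˢ (univ : Finset (ZMod p))) := by
        apply card_le_card
        intro x hx
        have hx' : (x.1, x.2 + val p g x.1) = x := (mem_filter.1 hx).2
        have := congrArg Prod.snd hx'
        simp only [add_eq_left] at this
        simp [this]
    _ ≤ 2 * p := by
        rw [card_product, card_univ, ZMod.card]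
        exact Nat.mul_le_mul_right _ h

end

/-- A homomorphism of `Z^3` to `Sym(p^2)` in which short non-trivial elements fix at most
`2p` points. -/
theorem exists_hom (p : ℕ) (hp : p.Prime) :
    ∃ φ : G →* Equiv.Perm (Fin (p * p)), ∀ g : G, g ≠ 1 →
      (∀ i, |(Multiplicative.toAdd g) i| < p) → #{i : Fin (p * p) | φ g i = i} ≤ 2 * p := by
  have : Fact p.Prime := ⟨hp⟩
  let E : (ZMod p × ZMod p) ≃ Fin (p * p) := Fintype.equivFinOfCardEq (by simp)
  refine ⟨(E.permCongrHom.toMonoidHom).comp (actHom p), fun g hg hb => ?_⟩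
  refine le_trans (le_of_eq ?_) (card_fixed p g hg hb)
  symm
  apply card_bij (fun x _ => E x)
  · intro x hx
    simp only [mem_filter, mem_univ, true_and] at hx ⊢
    simp [Equiv.permCongrHom, hx]
  · intro x _ y _ h
    exact E.injective h
  · intro y hy
    refine ⟨E.symm y, ?_, by simp⟩
    simp only [mem_filter, mem_univ, true_and] at hy ⊢
    apply E.injective
    simpa [Equiv.permCongrHom] using hy

lemma moved_ge (p : ℕ) (hp : p.Prime) (σ : Equiv.Perm (Fin (p * p)))
    (h : #{i : Fin (p * p) | σ i = i} ≤ 2 * p) :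
    1 - 2 / (p : ℝ) ≤ (#{i : Fin (p * p) | σ i ≠ i} : ℝ) / ((p * p : ℕ) : ℝ) := by
  have h1 := card_filter_add_card_filter_not (s := (univ : Finset (Fin (p * p))))
    (fun i => σ i = i)
  rw [card_univ, Fintype.card_fin] at h1
  have hp0 : (0 : ℝ) < p := by exact_mod_cast hp.pos
  have h2 : (#{i : Fin (p * p) | σ i = i} : ℝ) + (#{i : Fin (p * p) | σ i ≠ i} : ℝ)
      = (p : ℝ) * p := by exact_mod_cast h1
  have h3 : (#{i : Fin (p * p) | σ i = i} : ℝ) ≤ 2 * p := by exact_mod_cast h
  push_cast
  rw [le_div_iff₀ (by positivity)]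
  have : (1 - 2 / (p : ℝ)) * (p * p) = p * p - 2 * p := by field_simp
  rw [this]
  linarith

/-- For every `N` and every prime `p > 2N` there is an exact `(N, 1/N)` approximation on
`p * p` points. -/
theorem approx (N p : ℕ) (hp : p.Prime) (hN : 2 * N < p) :
    ∃ φ : G → Equiv.Perm (Fin (p * p)), φ 1 = 1 ∧
      (∀ g h : G, (#{i : Fin (p * p) | φ (g * h) i ≠ (φ g * φ h) i} : ℝ)
        / ((p * p : ℕ) : ℝ) ≤ 1 / (N : ℝ)) ∧
      ∀ g : G, InBall N g → g ≠ 1 →
        1 - 1 / (N : ℝ) ≤ (#{i : Fin (p * p) | φ g i ≠ i} : ℝ) / ((p * p : ℕ) : ℝ) := by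
  obtain ⟨φ, hφ⟩ := exists_hom p hp
  refine ⟨φ, map_one φ, fun g h => ?_, fun g hg hg1 => ?_⟩
  · simp
  · have hb : ∀ i, |(Multiplicative.toAdd g) i| < p := by
      intro i
      have := abs_le_of_inBall hg i
      have h2 : ((2 * N : ℕ) : ℤ) < p := by exact_mod_cast hN
      push_cast at h2
      have h3 : (0 : ℤ) ≤ N := by positivity
      linarith
    have hN0 : 0 < N := by
      rcases Nat.eq_zero_or_pos N with rfl | h
      · exfalso
        apply hg1
        obtain ⟨l, h1, -, rfl⟩ := hg
        have : l = [] := List.eq_nil_of_length_eq_zero (by omega)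
        simp [this]
      · exact h
    refine le_trans ?_ (moved_ge p hp _ (hφ g hg1 hb))
    have h1 : (0 : ℝ) < N := by exact_mod_cast hN0
    have h2 : ((2 * N : ℕ) : ℝ) < p := by exact_mod_cast hN
    push_cast at h2
    have : 2 / (p : ℝ) ≤ 1 / (N : ℝ) := by
      rw [div_le_div_iff₀ (by linarith) h1]
      linarith
    linarith

end Pool.Agent.H14.Sofic
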