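import Mathlib

set_option autoImplicit false
open Finset Polynomial

namespace Pool.Agent.H14.SokalReal

lemma recur (n : ℕ) (z q : ℂ) :
    ∑ k ∈ range (n + 1 + 1), ((n + 1).choose k : ℂ) * q ^ (k * (k - 1) / 2) * z ^ k =
    ∑ k ∈ range (n + 1), (n.choose k : ℂ) * q ^ (k * (k - 1) / 2) * z ^ k +
      z * ∑ k ∈ range (n + 1), (n.choose k : ℂ) * q ^ (k * (k - 1) / 2) * (q * z) ^ k := by
  have h1 : ∑ k ∈ range (n + 1), (n.choose k : ℂ) * q ^ (k * (k - 1) / 2) * z ^ k =
      ∑ k ∈ range (n + 1), (n.choose (k + 1) : ℂ) * q ^ ((k + 1) * (k + 1 - 1) / 2) * z ^ (k + 1) + 1 := by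
    rw [sum_range_succ', sum_range_succ _ n, Nat.choose_succ_self]
    simp
  rw [h1, sum_range_succ', mul_sum, add_right_comm, ← sum_add_distrib]
  congr 1
  · refine sum_congr rfl fun k _ => ?_
    have : (k + 1) * (k + 1 - 1) / 2 = k * (k - 1) / 2 + k := by
      rw [← Nat.choose_two_right, ← Nat.choose_two_right, Nat.choose_succ_succ, Nat.choose_one_right, add_comm]
    rw [this, Nat.choose_succ_succ]
    push_cast
    ring
  · simp

lemma sgn (e c : ℕ → ℝ) (n j : ℕ) (hj : j ≤ n) (h1 : ∀ i < j, 0 ≤ e i * c i)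
    (h2 : ∀ i, j ≤ i → i < n → 0 ≤ c i) : 0 ≤ (∏ i ∈ range j, e i) * ∏ i ∈ range n, c i := by
  rw [← prod_range_mul_prod_Ico c hj, ← mul_assoc, ← prod_mul_distrib]
  exact mul_nonneg (prod_nonneg fun i hi => h1 i (mem_range.1 hi))
    (prod_nonneg fun i hi => h2 i (mem_Ico.1 hi).1 (mem_Ico.1 hi).2)

lemma ivt (h : ℝ → ℝ) (hc : Continuous h) (e a b : ℝ) (he : e ≠ 0) (hab : a ≤ b) (ha : 0 ≤ e * h a)
    (hb : e * h b ≤ 0) : ∃ s, a ≤ s ∧ s ≤ b ∧ h s = 0 := by
  obtain ⟨s, hs, h0⟩ := intermediate_value_Icc' hab (continuous_const.mul hc).continuousOn ⟨hb, ha⟩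
  exact ⟨s, hs.1, hs.2, (mul_eq_zero.1 h0).resolve_left he⟩

lemma step (ε Q : ℝ) (he : ε = 1 ∨ ε = -1) (Q0 : 0 < Q) (Q1 : Q < 1) (n : ℕ) (r : ℕ → ℝ)
    (p : ∀ j, 0 < r j) (q : ∀ j, r j ≤ Q * r (j + 1)) :
    ∃ s : ℕ → ℝ, (∀ j, 0 < s j) ∧ (∀ j, s j ≤ Q * s (j + 1)) ∧ ∀ j ≤ n,
      ∏ i ∈ range n, (r i - ε ^ (i + j) * s j) -
        ε ^ j * s j * ∏ i ∈ range n, (r i - ε ^ (i + j + 1) * (Q * s j)) = 0 := by
  have pm : ∀ k : ℕ, ε ^ k = 1 ∨ ε ^ k = -1 := fun k => by
    rcases he with rfl | rfl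
    · simp
    · exact neg_one_pow_eq_or ℝ k
  have mono : Monotone r := monotone_nat_of_le_succ fun j => by nlinarith [p (j + 1), q j]
  have gap : ∀ i j, i < j → r i ≤ Q * r j := fun i j h =>
    (q i).trans (mul_le_mul_of_nonneg_left (mono h) Q0.le)
  have big : ∀ (k : ℕ) (a x : ℝ), 0 < a → a ≤ x → 0 ≤ -ε ^ k * (a - ε ^ k * x) := fun k a x ha h => by
    rcases pm k with h | h <;> rw [h] <;> linarith
  have sml : ∀ (k : ℕ) (a x : ℝ), 0 ≤ x → x ≤ a → 0 ≤ a - ε ^ k * x := fun k a x ha h => by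
    rcases pm k with h | h <;> rw [h] <;> linarith
  have sw : ∀ j : ℕ, ∏ i ∈ range j, -ε ^ (i + j + 1) = (∏ i ∈ range j, -ε ^ (i + j)) * ε ^ j := fun j => by
    rw [prod_congr rfl fun i _ => (by ring : -ε ^ (i + j + 1) = -ε ^ (i + j) * ε), prod_mul_distrib,
      prod_const, card_range]
  set h : ℕ → ℝ → ℝ := fun j t => ∏ i ∈ range n, (r i - ε ^ (i + j) * t) -
    ε ^ j * t * ∏ i ∈ range n, (r i - ε ^ (i + j + 1) * (Q * t)) with hh
  set T := (4 / Q) ^ n + 2 * (r n / Q) with hT
  have T1 : 0 < (4 / Q) ^ n := by positivity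
  have dv : ∀ j, Q * (r j / Q) = r j := fun j => by field_simp
  have dp : ∀ j, 0 < r j / Q := fun j => div_pos (p j) Q0
  have key : ∀ j, ∃ s, j ≤ n → (if j = 0 then 0 else r (j - 1) / Q) ≤ s ∧
      s ≤ (if j < n then r j else T) ∧ h j s = 0 := by
    intro j
    by_cases hj : j ≤ n
    swap
    · exact ⟨0, fun h => absurd h hj⟩
    suffices H : ∃ s, (if j = 0 then 0 else r (j - 1) / Q) ≤ s ∧
      s ≤ (if j < n then r j else T) ∧ h j s = 0 from H.imp fun s hs _ => hs
    refine ivt (h j) (by simp only [hh]; fun_prop) (∏ i ∈ range j, -ε ^ (i + j)) _ _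
      (prod_ne_zero_iff.2 fun i _ => by rcases pm (i + j) with h | h <;> rw [h] <;> norm_num) ?_ ?_ ?_
    · split_ifs with h0 h1 h1
      · exact (p _).le
      · linarith [dp n]
      · rw [div_le_iff₀ Q0]
        linarith [gap (j - 1) j (by omega)]
      · linarith [dp n, div_le_div_of_nonneg_right (mono (show j - 1 ≤ n by omega)) Q0.le]
    · split_ifs with h0
      · subst h0
        simpa [hh] using prod_nonneg fun i _ => (p i).le
      · obtain ⟨m, rfl⟩ := Nat.exists_eq_succ_of_ne_zero h0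
        have z : ∏ i ∈ range n, (r i - ε ^ (i + (m + 1) + 1) * (Q * (r m / Q))) = 0 := by
          refine prod_eq_zero (mem_range.2 (show m < n by omega)) ?_
          rw [dv, show m + (m + 1) + 1 = 2 * (m + 1) by ring, pow_mul]
          rcases he with rfl | rfl <;> simp
        simp only [hh, Nat.succ_eq_add_one, Nat.add_sub_cancel, z, mul_zero, sub_zero]
        refine sgn _ _ n _ hj (fun i hi => big _ _ _ (p i) ?_) fun i hi _ => sml _ _ _ (dp m).le ?_
        · nlinarith [mono (show i ≤ m by omega), dv m, dp m]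
        · rw [div_le_iff₀ Q0]
          linarith [gap m i (by omega)]
    · split_ifs with h1
      · have z : ∏ i ∈ range n, (r i - ε ^ (i + j) * r j) = 0 := by
          refine prod_eq_zero (mem_range.2 h1) ?_
          rw [← two_mul, pow_mul]
          rcases he with rfl | rfl <;> simp
        have := sgn (fun i => -ε ^ (i + j + 1)) (fun i => r i - ε ^ (i + j + 1) * (Q * r j)) n j hj
          (fun i hi => big _ _ _ (p i) (gap i j hi)) fun i hi _ =>
          sml _ _ _ (mul_pos Q0 (p j)).le (by nlinarith [mono hi, p j])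
        rw [sw] at this
        simp only [hh, z]
        nlinarith [mul_nonneg (p j).le this]
      · obtain rfl : j = n := by omega
        have T0 : 0 < T := by linarith [dp j]
        have m : ∀ i ∈ range j, 2 * r i ≤ Q * T := fun i hi => by
          nlinarith [mono (mem_range.1 hi).le, dv j, mul_pos Q0 T1]
        have QT : Q * T ≤ T := by nlinarith
        have e4 : 4 / Q * Q = 4 := by field_simp
        have a3 : ∏ i ∈ range j, (-ε ^ (i + j) * (r i - ε ^ (i + j) * T)) ≤
            ∏ i ∈ range j, (4 / Q * (-ε ^ (i + j + 1) * (r i - ε ^ (i + j + 1) * (Q * T)))) :=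
          prod_le_prod (fun i hi => big _ _ _ (p i) (by linarith [m i hi, p i])) fun i hi => by
            have u : -ε ^ (i + j) * (r i - ε ^ (i + j) * T) ≤ 2 * T := by
              rcases pm (i + j) with h | h <;> rw [h] <;> linarith [m i hi, p i]
            have v : Q * T / 2 ≤ -ε ^ (i + j + 1) * (r i - ε ^ (i + j + 1) * (Q * T)) := by
              rcases pm (i + j + 1) with h | h <;> rw [h] <;> linarith [m i hi, p i]
            calc _ ≤ 2 * T := u
              _ = 4 / Q * (Q * T / 2) := by field_simp; ring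
              _ ≤ _ := mul_le_mul_of_nonneg_left v (by positivity)
        have a4 := sgn (fun i => -ε ^ (i + j + 1)) (fun i => r i - ε ^ (i + j + 1) * (Q * T)) j j le_rfl
          (fun i hi => big _ _ _ (p i) (by linarith [m i (mem_range.2 hi), p i])) fun i a b => by omega
        rw [prod_mul_distrib, prod_mul_distrib, prod_mul_distrib, prod_const, card_range] at a3
        have a5 : (4 / Q) ^ j ≤ T := by linarith [dp j]
        have a6 := mul_le_mul_of_nonneg_right a5 a4
        rw [sw] at a3 a6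
        simp only [hh]
        nlinarith
  choose s hs using key
  have s0 : ∀ j ≤ n, 0 < s j := fun j hj => by
    obtain ⟨a, -, c⟩ := hs j hj
    split_ifs at a with h0
    · refine a.lt_of_ne fun e => ?_
      rw [← e] at c
      exact (prod_pos fun i _ => p i).ne' (by simpa [hh] using c)
    · exact (dp _).trans_le a
  refine ⟨fun j => if j ≤ n then s j else s n / Q ^ (j - n), fun j => ?_, fun j => ?_, fun j hj => ?_⟩
  · dsimp only
    split_ifs with h0
    · exact s0 j h0
    · exact div_pos (s0 n le_rfl) (by positivity)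
  · dsimp only
    split_ifs with h0 h1 h1
    · have a := (hs j h0).2.1
      have b := (hs (j + 1) h1).1
      rw [if_pos (by omega)] at a
      rw [if_neg (by omega), Nat.add_sub_cancel, div_le_iff₀ Q0] at b
      linarith
    · obtain rfl : j = n := by omega
      exact le_of_eq (by simp; field_simp)
    · omega
    · rw [show j + 1 - n = j - n + 1 by omega, pow_succ]
      exact le_of_eq (by field_simp)
  · simp only [if_pos hj]
    exact (hs j hj).2.2

end Pool.Agent.H14.SokalReal
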