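import Mathlib

namespace Pool.Agent.H14.TSeq

abbrev Z := ZMod 2
abbrev V := List Z

def act (a : V → Z) : V → V
  | [] => []
  | b :: l => (b + a l) :: act a l

theorem act_len (a : V → Z) (l : V) : (act a l).length = l.length := by
  induction l with
  | nil => rfl
  | cons b l ih => simp [act, ih]

theorem act_tail (a : V → Z) (l : V) : (act a l).tail = act a l.tail := by
  cases l <;> rfl

theorem act_congr {a c : V → Z} {l : V} (h : ∀ m, m.length < l.length → a m = c m) :
    act a l = act c l := by
  induction l with
  | nil => rfl
  | cons b l ih =>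
    rw [act, act, h l (by simp), ih fun m hm => h m (by simp; omega)]

theorem act_zero (l : V) : act 0 l = l := by
  induction l with
  | nil => rfl
  | cons b l ih => simp [act, ih]

theorem act_act (a c : V → Z) (l : V) : act a (act c l) = act (fun l => c l + a (act c l)) l := by
  induction l with
  | nil => rfl
  | cons b l ih => simp only [act, ih, add_assoc]

theorem act_bij (a : V → Z) : Function.Bijective (act a) := by
  constructor
  · intro l
    induction l with
    | nil => intro m h; cases m <;> simp_all [act]
    | cons b l ih =>
      intro m h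
      cases m with
      | nil => simp [act] at h
      | cons c m =>
        simp only [act, List.cons.injEq] at h
        obtain rfl := ih h.2
        rw [add_right_cancel h.1]
  · intro m
    induction m with
    | nil => exact ⟨[], rfl⟩
    | cons c m ih =>
      obtain ⟨l, rfl⟩ := ih
      exact ⟨(c - a l) :: l, by simp [act]⟩

def G : Subgroup (Equiv.Perm V) where
  carrier := {g | ∃ a : V → Z, a.support.Finite ∧ ∀ l, g l = act a l}
  one_mem' := ⟨0, by simp, fun l => (act_zero l).symm⟩
  mul_mem' := by
    rintro g h ⟨a, ha, e⟩ ⟨c, hc, f⟩
    refine ⟨fun l => c l + a (act c l), ?_, fun l => by rw [Equiv.Perm.mul_apply, e, f, act_act]⟩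
    refine (hc.union (ha.preimage (act_bij c).1.injOn)).subset fun l hl => ?_
    by_contra h
    simp only [Set.mem_union, Function.mem_support, Set.mem_preimage, not_or, not_not] at h
    exact hl (by simp [h.1, h.2])
  inv_mem' := by
    rintro g ⟨a, ha, e⟩
    refine ⟨fun l => -a (g⁻¹ l), (ha.preimage (g⁻¹).injective.injOn).subset fun l hl => by
      simpa using hl, fun l => ?_⟩
    rw [Equiv.Perm.inv_eq_iff_eq, e]
    induction l with
    | nil => rfl
    | cons b l ih =>
      have : act (fun l => -a (g⁻¹ l)) l = g⁻¹ l := by
        rw [eq_comm, Equiv.Perm.inv_eq_iff_eq, e]; exact ih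
      simp only [act, this]
      rw [← e]; simp [add_assoc, CharTwo.add_self_eq_zero]

def por (g : G) (l : V) : Z := (g.1 (0 :: l)).headD 0

theorem por_spec (g : G) : (por g).support.Finite ∧ ∀ l, g.1 l = act (por g) l := by
  obtain ⟨a, ha, e⟩ := g.2
  have : por g = a := funext fun l => by simp [por, e, act]
  rw [this]; exact ⟨ha, e⟩

noncomputable def mk (a : V → Z) (ha : a.support.Finite) : G :=
  ⟨Equiv.ofBijective _ (act_bij a), a, ha, fun _ => rfl⟩

theorem mk_apply (a : V → Z) (ha : a.support.Finite) (l : V) : (mk a ha).1 l = act a l := rfl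

theorem por_mk (a : V → Z) (ha : a.support.Finite) : por (mk a ha) = a :=
  funext fun l => by simp [por, mk_apply, act]

theorem por_mul (g h : G) (l : V) : por (g * h) l = por h l + por g (h.1 l) := by
  rw [por, Subgroup.coe_mul, Equiv.Perm.mul_apply, (por_spec g).2, (por_spec h).2, act_act,
    (por_spec h).2]
  simp [act]

theorem len (g : G) (l : V) : (g.1 l).length = l.length := by rw [(por_spec g).2, act_len]

theorem trans (v w : V) (h : v.length = w.length) :
    ∃ a : V → Z, a.support.Finite ∧ act a v = w := by
  induction v generalizing w with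
  | nil => exact ⟨0, by simp, (List.eq_nil_of_length_eq_zero h.symm).symm⟩
  | cons b v ih =>
    cases w with
    | nil => simp at h
    | cons c w =>
      obtain ⟨a, ha, e⟩ := ih w (by simpa using h)
      refine ⟨Function.update a v (c - b), ((Set.finite_singleton v).union ha).subset fun l hl => ?_,
        ?_⟩
      · by_cases h : l = v
        · exact Or.inl h
        · exact Or.inr (by simpa [h] using hl)
      · rw [act, act_congr (c := a) fun m hm => Function.update_of_ne (by rintro rfl; omega) _ _, e]
        simp

instance (n : ℕ) : Finite {l : V // l.length ≤ n} := (List.finite_length_le Z n).to_subtype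

def res (n : ℕ) : G →* Equiv.Perm {l : V // l.length ≤ n} where
  toFun g := g.1.subtypePerm fun v => by rw [len]
  map_one' := rfl
  map_mul' _ _ := rfl

theorem mem_ker {n : ℕ} {g : G} : g ∈ (res n).ker ↔ ∀ l : V, l.length ≤ n → g.1 l = l := by
  rw [MonoidHom.mem_ker, Equiv.Perm.ext_iff]
  exact ⟨fun h l hl => congrArg Subtype.val (h ⟨l, hl⟩), fun h l => Subtype.ext (h l.1 l.2)⟩

theorem fin_single (l : V) (x : Z) : (Function.support (Pi.single l x : V → Z)).Finite :=
  (Set.finite_singleton l).subset Pi.support_single_subset

theorem single_fix (l : V) (x : Z) (w : V) (h : ∀ k, List.tail^[k] w ≠ l) :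
    act (Pi.single l x) w = w := by
  induction w with
  | nil => rfl
  | cons b w ih =>
    rw [act, ih fun k => h (k + 1), Pi.single_eq_of_ne (show w ≠ l from h 1), add_zero]

theorem single_short (l : V) (x : Z) (w : V) (h : w.length ≤ l.length) :
    act (Pi.single l x) w = w := by
  rw [act_congr (a := Pi.single l x) (c := 0) fun m hm =>
    Pi.single_eq_of_ne (show m ≠ l by rintro rfl; omega) _, act_zero]

theorem tail_len (k : ℕ) (l : V) : (List.tail^[k] l).length = l.length - k := by
  induction k with
  | zero => rfl
  | succ k ih => rw [Function.iterate_succ_apply', List.length_tail, ih]; omega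

theorem rist (n : ℕ) (S : Finset V) : ∀ g : G, (∀ l, por g l ≠ 0 → l ∈ S ∧ n ≤ l.length) →
    g ∈ Subgroup.closure {g : G | ∃ v : V, v.length = n ∧
      ∀ w : V, (∀ k : ℕ, List.tail^[k] w ≠ v) → g • w = w} := by
  refine Finset.induction_on_max_value List.length S ?_ ?_
  · intro g hg
    have : por g = 0 := funext fun l => by by_contra h; simpa using (hg l h).1
    have : g = 1 := Subtype.ext (Equiv.ext fun l => by rw [(por_spec g).2, this, act_zero]; rfl)
    rw [this]; exact one_mem _
  · intro l0 S h0 hmax ih g hg
    by_cases hz : por g l0 = 0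
    · refine ih g fun l hl => ⟨?_, (hg l hl).2⟩
      exact (Finset.mem_insert.1 (hg l hl).1).resolve_left (by rintro rfl; exact hl hz)
    have hfin : (Function.update (por g) l0 0).support.Finite :=
      (por_spec g).1.subset fun l hl => by
        by_cases h : l = l0
        · simp [h] at hl
        · simpa [h] using hl
    have e : g = mk _ hfin * mk _ (fin_single l0 (por g l0)) := by
      refine Subtype.ext (Equiv.ext fun w => ?_)
      rw [(por_spec g).2, Subgroup.coe_mul, Equiv.Perm.mul_apply, mk_apply, mk_apply, act_act]
      congr 1
      funext l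
      have long : ∀ m, l0.length < m.length → por g m = 0 := fun m hm => by
        by_contra h
        rcases Finset.mem_insert.1 (hg m h).1 with rfl | h'
        · omega
        · have := hmax m h'; omega
      rcases le_or_gt l.length l0.length with h | h
      · rw [single_short _ _ _ h]
        by_cases h' : l = l0
        · simp [h']
        · simp [h']
      · have h1 : l0.length < (act (Pi.single l0 (por g l0)) l).length := by rwa [act_len]
        rw [long l h, Pi.single_eq_of_ne (by rintro rfl; omega),
          Function.update_of_ne (fun h2 => by rw [h2] at h1; omega), long _ h1, add_zero]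
    rw [e]
    refine mul_mem (ih _ fun l hl => ?_) (Subgroup.subset_closure
      ⟨List.tail^[l0.length - n] l0, ?_, fun w hw => ?_⟩)
    · rw [por_mk] at hl
      have h : l ≠ l0 := by rintro rfl; simp at hl
      rw [Function.update_of_ne h] at hl
      exact ⟨(Finset.mem_insert.1 (hg l hl).1).resolve_left h, (hg l hl).2⟩
    · have := (hg l0 hz).2
      rw [tail_len]; omega
    · refine single_fix _ _ w fun k hk => hw (l0.length - n + k) ?_
      rw [Function.iterate_add_apply, hk]

theorem fin_if (a : ℕ) (f : V → Z) (hf : f.support.Finite) :
    (Function.support fun l : V => if (Nat.unpair l.length).1 = a then f l else 0).Finite :=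
  hf.subset fun l hl => by
    intro h; simp [h] at hl

noncomputable def chi (a : ℕ) : G →* Multiplicative Z :=
  MonoidHom.mk' (fun g => Multiplicative.ofAdd
    (∑ᶠ l : V, if (Nat.unpair l.length).1 = a then por g l else 0)) (by
    intro g h
    rw [← ofAdd_add, add_comm, ← finsum_comp_equiv h.1
      (f := fun l : V => if (Nat.unpair l.length).1 = a then por g l else 0)]
    simp only [len]
    rw [← finsum_add_distrib (fin_if a _ (por_spec h).1)
      (fin_if a (fun l => por g (h.1 l)) ((por_spec g).1.preimage h.1.injective.injOn))]
    congr 1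
    refine finsum_congr fun l => ?_
    rw [por_mul]
    split_ifs <;> simp)

theorem chi_single (a : ℕ) (l : V) : mk _ (fin_single l 1) ∈ (chi a).ker ↔
    (Nat.unpair l.length).1 ≠ a := by
  rw [MonoidHom.mem_ker]
  change Multiplicative.ofAdd _ = Multiplicative.ofAdd 0 ↔ _
  rw [Equiv.apply_eq_iff_eq, por_mk, finsum_eq_single _ l fun m hm => by simp [hm]]
  simp

noncomputable def M (a i : ℕ) : Subgroup G := (res i).ker ⊓ (chi a).ker

theorem notle {a b : ℕ} (h : a ≠ b) (j : ℕ) : ¬ M b j ≤ M a 0 := by
  intro hle
  have h1 : mk _ (fin_single (List.replicate (Nat.pair a j) 0) 1) ∈ M b j :=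
    ⟨mem_ker.2 fun l hl => single_short _ _ _ (by
      rw [List.length_replicate]; exact hl.trans (Nat.right_le_pair a j)),
     (chi_single _ _).2 (by simpa using h)⟩
  exact (chi_single _ _).1 (hle h1).2 (by simp)

end Pool.Agent.H14.TSeq
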