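import Pool.Agent.H14.Th1

set_option autoImplicit false
set_option maxHeartbeats 800000
set_option maxRecDepth 100000

namespace Pool.Agent.H14.Th
open Finset

def B : ℕ := 1208925819614629174706176

def Q (n : ℕ) (D : ℕ → ℕ) (R : ℕ) : ℕ := ∑ t ∈ range n, D t * B ^ t + R * B ^ n

lemma Q_succ (n : ℕ) (D : ℕ → ℕ) (R : ℕ) : Q (n + 1) D R = D 0 + B * Q n (fun t => D (t + 1)) R := by
  unfold Q
  rw [sum_range_succ', mul_add, mul_sum]
  have : ∀ t, D (t + 1) * B ^ (t + 1) = B * (D (t + 1) * B ^ t) := fun t => by ring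
  simp only [this]; ring

lemma B_pos : 0 < B := by unfold B; norm_num

lemma Q_mod (n : ℕ) (D : ℕ → ℕ) (R : ℕ) (h : D 0 < B) : Q (n + 1) D R % B = D 0 := by
  rw [Q_succ, Nat.add_mul_mod_self_left, Nat.mod_eq_of_lt h]

lemma Q_div (n : ℕ) (D : ℕ → ℕ) (R : ℕ) (h : D 0 < B) :
    Q (n + 1) D R / B = Q n (fun t => D (t + 1)) R := by
  rw [Q_succ, Nat.add_mul_div_left _ _ B_pos, Nat.div_eq_of_lt h, zero_add]

lemma Q_top : ∀ (n : ℕ) (D : ℕ → ℕ) (R : ℕ), (∀ t, D t < B) → Q n D R / B ^ n = R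
  | 0, D, R, _ => by simp [Q]
  | n + 1, D, R, h => by
    rw [pow_succ', ← Nat.div_div_eq_div_mul, Q_div _ _ _ (h 0)]
    exact Q_top n _ R (fun t => h _)

lemma asumN_succ (T n P : ℕ) : asumN T (n + 1) P = dist (P % B) T + asumN T n (P / B) := rfl

lemma asumN_Q (T : ℕ) : ∀ (n : ℕ) (D : ℕ → ℕ) (R : ℕ), (∀ t, D t < B) →
    asumN T n (Q n D R) = ∑ t ∈ range n, dist (D t) T
  | 0, D, R, _ => rfl
  | n + 1, D, R, h => by
    rw [asumN_succ, Q_mod _ _ _ (h 0), Q_div _ _ _ (h 0), asumN_Q T n _ R (fun t => h _),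
      sum_range_succ', add_comm]

lemma dist_cast (a b : ℕ) : ((dist a b : ℕ) : ℝ) = |(a : ℝ) - b| := by
  show (((a - b) + (b - a) : ℕ) : ℝ) = _
  rcases le_total a b with h | h
  · rw [Nat.sub_eq_zero_of_le h, zero_add, Nat.cast_sub h, abs_sub_comm, abs_of_nonneg]
    exact sub_nonneg.2 (by exact_mod_cast h)
  · rw [Nat.sub_eq_zero_of_le h, add_zero, Nat.cast_sub h, abs_of_nonneg]
    exact sub_nonneg.2 (by exact_mod_cast h)

lemma top_eq (P : ℕ) : top P = P / B ^ 21 := by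
  have : B ^ 21 = 2 ^ 1680 := by decide +kernel
  rw [this, ← Nat.shiftRight_eq_div_pow]; rfl

lemma ZN_eq : ZN = Q 21 (fun _ => 4096) 1 := by decide +kernel

lemma MW_eq : MW = 2 ^ 1696 := by decide +kernel

def Val (x : ℕ → ℝ) (P : ℕ) (v : ℝ) : Prop :=
  ∃ (D : ℕ → ℕ) (S : ℕ), P = Q 21 D S ∧ (∀ t, D t ≤ 8192 * S) ∧
    v = ∑ t ∈ range 21, ((D t : ℝ) - 4096 * S) * x t

variable {x : ℕ → ℝ}

lemma Val.zero : Val x 0 0 := ⟨fun _ => 0, 0, by simp [Q], by simp, by simp⟩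

lemma Val.add {P P' : ℕ} {v v' : ℝ} (h : Val x P v) (h' : Val x P' v') : Val x (P + P') (v + v') := by
  obtain ⟨D, S, rfl, h2, rfl⟩ := h
  obtain ⟨D', S', rfl, h2', rfl⟩ := h'
  refine ⟨fun t => D t + D' t, S + S', ?_, fun t => ?_, ?_⟩
  · simp only [Q, add_mul, sum_add_distrib]; ring
  · have := h2 t; have := h2' t; show D t + D' t ≤ _; omega
  · rw [← sum_add_distrib]; refine sum_congr rfl fun t _ => ?_; push_cast; ring

lemma Val.mul {P : ℕ} {v : ℝ} (m : ℕ) (h : Val x P v) : Val x (m * P) (m * v) := by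
  obtain ⟨D, S, rfl, h2, rfl⟩ := h
  refine ⟨fun t => m * D t, m * S, ?_, fun t => ?_, ?_⟩
  · simp only [Q, mul_add, mul_sum, mul_assoc]
  · have := Nat.mul_le_mul_left m (h2 t); nlinarith
  · rw [mul_sum]; refine sum_congr rfl fun t _ => ?_; push_cast; ring

lemma small {D : ℕ → ℕ} {S : ℕ} (h2 : ∀ t, D t ≤ 8192 * S) (hs : sm (Q 21 D S) = true) :
    (∀ t, D t < B) ∧ top (Q 21 D S) = S := by
  have h1 : top (Q 21 D S) < 1152921504606846976 := by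
    unfold sm at hs; exact Nat.blt_eq ▸ hs
  have h3 : S ≤ top (Q 21 D S) := by
    rw [top_eq, Nat.le_div_iff_mul_le (pow_pos B_pos _)]
    exact Nat.le_add_left _ _
  have h4 : ∀ t, D t < B := fun t => by have := h2 t; unfold B; omega
  exact ⟨h4, by rw [top_eq, Q_top _ _ _ h4]⟩

lemma Val.neg {P : ℕ} {v : ℝ} (h : Val x P v) (hs : sm P = true) : Val x (neg P) (-v) := by
  obtain ⟨D, S, rfl, h2, rfl⟩ := h
  obtain ⟨_, h4⟩ := small h2 hs
  refine ⟨fun t => 8192 * S - D t, S, ?_, fun t => Nat.sub_le _ _, ?_⟩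
  · show 2 * top (Q 21 D S) * ZN - Q 21 D S = _
    rw [h4, ZN_eq]
    apply Nat.sub_eq_of_eq_add
    simp only [Q, mul_add, mul_sum]
    have : ∑ t ∈ range 21, 2 * S * (4096 * B ^ t) =
        ∑ t ∈ range 21, (8192 * S - D t) * B ^ t + ∑ t ∈ range 21, D t * B ^ t := by
      rw [← sum_add_distrib]; refine sum_congr rfl fun t _ => ?_
      rw [← add_mul, Nat.sub_add_cancel (h2 t)]; ring
    rw [this]; ring
  · rw [← sum_neg_distrib]; refine sum_congr rfl fun t _ => ?_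
    rw [Nat.cast_sub (h2 t)]; push_cast; ring

lemma tail_le (hb : ∀ t, |x (t + 1)| ≤ 3) (D : ℕ → ℕ) (S : ℕ) :
    |∑ t ∈ range 20, ((D (t + 1) : ℝ) - 4096 * S) * x (t + 1)| ≤
      3 * ((∑ t ∈ range 20, dist (D (t + 1)) (4096 * S) : ℕ) : ℝ) := by
  refine (abs_sum_le_sum_abs _ _).trans ?_
  push_cast
  rw [mul_sum]
  refine sum_le_sum fun t _ => ?_
  rw [dist_cast, abs_mul, mul_comm]; push_cast
  exact mul_le_mul_of_nonneg_right (hb t) (abs_nonneg _)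

lemma Val.ab {P : ℕ} {v : ℝ} (h0 : x 0 = 1) (hb : ∀ t, |x (t + 1)| ≤ 3) (h : Val x P v)
    (hs : sm P = true) : |v| ≤ abN P := by
  obtain ⟨D, S, rfl, h2, rfl⟩ := h
  obtain ⟨h3, h4⟩ := small h2 hs
  have e : abN (Q 21 D S) = dist (D 0) (4096 * S) + 3 * ∑ t ∈ range 20, dist (D (t + 1)) (4096 * S) := by
    show dist (Q 21 D S % B) (4096 * top (Q 21 D S)) + 3 * asumN (4096 * top (Q 21 D S)) 20 (Q 21 D S / B) = _
    rw [h4, Q_mod _ _ _ (h3 0), Q_div _ _ _ (h3 0), asumN_Q _ _ _ _ (fun t => h3 _)]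
  have := tail_le hb D S
  rw [e, sum_range_succ', h0, mul_one, Nat.cast_add, dist_cast, Nat.cast_mul 3]
  refine (abs_add_le _ _).trans ?_
  push_cast at this ⊢
  linarith

lemma Val.fin {P A : ℕ} {v : ℝ} (h0 : x 0 = 1) (hb : ∀ t, |x (t + 1)| ≤ 3) (h : Val x P v)
    (hf : fin P A = true) : v + A < 0 := by
  obtain ⟨D, S, rfl, h2, rfl⟩ := h
  unfold Th.fin at hf
  rw [Bool.and_eq_true] at hf
  obtain ⟨h3, h4⟩ := small h2 hf.1
  have e : ubN (Q 21 D S) = D 0 + 3 * ∑ t ∈ range 20, dist (D (t + 1)) (4096 * S) := by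
    show Q 21 D S % B + 3 * asumN (4096 * top (Q 21 D S)) 20 (Q 21 D S / B) = _
    rw [h4, Q_mod _ _ _ (h3 0), Q_div _ _ _ (h3 0), asumN_Q _ _ _ _ (fun t => h3 _)]
  have h5 : ubN (Q 21 D S) + A < 4096 * top (Q 21 D S) := Nat.blt_eq ▸ hf.2
  rw [e, h4] at h5
  have h6 := (le_abs_self _).trans (tail_le hb D S)
  have h7 : ((D 0 + 3 * ∑ t ∈ range 20, dist (D (t + 1)) (4096 * S) + A : ℕ) : ℝ) < ((4096 * S : ℕ) : ℝ) := by
    exact_mod_cast h5
  rw [sum_range_succ', h0, mul_one]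
  push_cast at h6 h7 ⊢
  linarith

def rkf (c : ℤ) (a b : ℕ → ℤ) (t : ℕ) : ℤ :=
  if t = 0 then c + a 4 * b 0 else (a ((t - 1) / 5) - a 4) * b ((t - 1) % 5)

lemma rkP_eq (c : ℤ) (a b : ℕ → ℤ) : rkP c a b = ∑ t ∈ range 21, rkf c a b t * (B : ℤ) ^ t := by
  have : (B : ℤ) = 2 ^ 80 := by unfold B; norm_num
  have e1 : (2 : ℤ) ^ 480 = (2 ^ 80) ^ 6 := by rw [← pow_mul]
  have e2 : (2 : ℤ) ^ 880 = (2 ^ 80) ^ 11 := by rw [← pow_mul]
  have e3 : (2 : ℤ) ^ 1280 = (2 ^ 80) ^ 16 := by rw [← pow_mul]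
  unfold rkP
  rw [e1, e2, e3, ← this]
  generalize (B : ℤ) = z
  simp [sum_range_succ, rkf]
  ring

lemma rkf_le (c : ℤ) (a b : ℕ → ℤ) (hc : |c| ≤ 2048) (hab : ∀ j k, |a j * b k| ≤ 2048) (t : ℕ) :
    |rkf c a b t| ≤ 4096 := by
  unfold rkf
  split_ifs
  · have := hab 4 0
    exact (abs_add_le _ _).trans (by linarith)
  · rw [sub_mul]
    have := hab ((t - 1) / 5) ((t - 1) % 5)
    have := hab 4 ((t - 1) % 5)
    exact (abs_sub _ _).trans (by linarith)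

lemma Val.rk0 (c : ℤ) (a b : ℕ → ℤ) (hc : |c| ≤ 2048) (hab : ∀ j k, |a j * b k| ≤ 2048) :
    Val x (rkN c a b) (∑ t ∈ range 21, (rkf c a b t : ℝ) * x t) := by
  have hb := rkf_le c a b hc hab
  have e : ∀ t, (((rkf c a b t + 4096).toNat : ℕ) : ℤ) = rkf c a b t + 4096 := fun t =>
    Int.toNat_of_nonneg (by have := abs_le.1 (hb t); omega)
  refine ⟨fun t => (rkf c a b t + 4096).toNat, 1, ?_, fun t => ?_, ?_⟩
  · unfold rkN
    have : rkP c a b + ZN = ((Q 21 (fun t => (rkf c a b t + 4096).toNat) 1 : ℕ) : ℤ) := by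
      rw [ZN_eq, rkP_eq]; unfold Q; push_cast
      simp only [e, add_mul, sum_add_distrib]; ring
    rw [this, Int.toNat_natCast]
  · have := abs_le.1 (hb t); have := e t; show (rkf c a b t + 4096).toNat ≤ _; omega
  · refine sum_congr rfl fun t _ => ?_
    have : (((rkf c a b t + 4096).toNat : ℕ) : ℝ) = rkf c a b t + 4096 := by exact_mod_cast e t
    rw [this]; push_cast; ring

end Pool.Agent.H14.Th
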