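import Pool.Agent.H14.Th2

set_option autoImplicit false
set_option maxHeartbeats 800000
set_option maxRecDepth 100000

namespace Pool.Agent.H14.Th
open Finset

structure Good (Y X : ℕ → ℕ → ℝ) : Prop where
  N : ∀ y : ℕ → ℝ, y 0 = 1 → (∀ k, |y k| ≤ 1) →
    ∑ j ∈ range 5, |∑ k ∈ range 5, Y j k * y k| ≤ 1123 / 500
  X0 : ∀ j, X 0 j = 1
  Xb : ∀ i j, |X i j| ≤ 1
  Yb : ∀ j k, |Y j k| ≤ 3
  XY : ∀ i < 5, ∀ k < 5, ∑ j ∈ range 5, X i j * Y j k = if i = k then 1 else 0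
  YX : ∀ a < 5, ∀ j < 5, ∑ i ∈ range 5, Y a i * X i j = if a = j then 1 else 0

noncomputable def xx (Y : ℕ → ℕ → ℝ) (t : ℕ) : ℝ := if t = 0 then 1 else Y ((t - 1) / 5) ((t - 1) % 5)

variable {Y X : ℕ → ℕ → ℝ}

lemma xx0 : xx Y 0 = 1 := by simp [xx]
lemma Good.xb (h : Good Y X) (t : ℕ) : |xx Y (t + 1)| ≤ 3 := by simp [xx, h.Yb]

lemma Good.rk (h : Good Y X) (c : ℤ) (a b : ℕ → ℤ) (hc : |c| ≤ 2048) (hab : ∀ j k, |a j * b k| ≤ 2048) :
    Val (xx Y) (rkN c a b) (c + ∑ j ∈ range 5, ∑ k ∈ range 5, (a j : ℝ) * b k * Y j k) := by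
  have h0 := h.XY 0 (by norm_num) 0 (by norm_num)
  have h1 := h.XY 0 (by norm_num) 1 (by norm_num)
  have h2 := h.XY 0 (by norm_num) 2 (by norm_num)
  have h3 := h.XY 0 (by norm_num) 3 (by norm_num)
  have h4 := h.XY 0 (by norm_num) 4 (by norm_num)
  simp [sum_range_succ, h.X0] at h0 h1 h2 h3 h4
  convert Val.rk0 (x := xx Y) c a b hc hab using 1
  simp [sum_range_succ, rkf, xx]
  linear_combination (a 4 * b 0 : ℝ) * h0 + (a 4 * b 1 : ℝ) * h1 + (a 4 * b 2 : ℝ) * h2 +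
    (a 4 * b 3 : ℝ) * h3 + (a 4 * b 4 : ℝ) * h4

def P1 (x : ℕ → ℝ) (P : ℕ) : Prop := ∃ v, Val x P v ∧ 0 ≤ v
def Pos (x : ℕ → ℝ) (H : ℕ) : Prop := ∀ i, P1 x (look H i)

variable {x : ℕ → ℝ}

lemma look_eq (H i : ℕ) : look H i = H / 2 ^ (i * 1696) % MW := by
  rw [← Nat.shiftRight_eq_div_pow]; rfl

lemma ps_eq (P H : ℕ) : ps P H = P + MW * H := by
  have : ps P H = P + H <<< 1696 := rfl
  rw [this, Nat.shiftLeft_eq, MW_eq, mul_comm]

lemma MW_pos : 0 < MW := by rw [MW_eq]; positivity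

lemma Pos.zero : Pos x 0 := fun i => ⟨0, by rw [look_eq, Nat.zero_div, Nat.zero_mod]; exact Val.zero, le_rfl⟩

lemma Pos.ps {P H : ℕ} (h : Pos x H) (hP : P1 x P) (hl : Nat.blt P MW = true) : Pos x (ps P H) := by
  have hl' : P < MW := Nat.blt_eq ▸ hl
  intro i
  cases i with
  | zero =>
    rw [look_eq, ps_eq, zero_mul, pow_zero, Nat.div_one, Nat.add_mul_mod_self_left, Nat.mod_eq_of_lt hl']
    exact hP
  | succ i =>
    have e : 2 ^ ((i + 1) * 1696) = MW * 2 ^ (i * 1696) := by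
      rw [MW_eq, ← pow_add]; congr 1; ring
    rw [look_eq, ps_eq, e, ← Nat.div_div_eq_div_mul, Nat.add_mul_div_left _ _ MW_pos,
      Nat.div_eq_of_lt hl', zero_add, ← look_eq]
    exact h i

lemma table : ∀ e < 32, ∀ y < 16,
    look (chunk e) y = rkN 1123 (fun j => 500 * sg e (j + 1)) (sg y) := by
  decide +kernel

lemma sg_cases (n i : ℕ) : sg n i = 1 ∨ sg n i = -1 := by
  unfold sg; split_ifs <;> simp

lemma sg_abs (n i : ℕ) : |sg n i| = 1 := by
  rcases sg_cases n i with h | h <;> simp [h]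

lemma sg_absR (n i : ℕ) : |(sg n i : ℝ)| = 1 := by
  rcases sg_cases n i with h | h <;> simp [h]

lemma un_abs (i j : ℕ) : |un i j| ≤ 1 := by unfold un; split_ifs <;> simp

lemma dg_abs (N i : ℕ) : |dg N i| ≤ 64 := by
  unfold dg
  have := Nat.mod_lt (N / 128 ^ i) (show 0 < 128 by norm_num)
  rw [abs_le]; omega

lemma mul_bd {a b : ℤ} {m n : ℤ} (ha : |a| ≤ m) (hb : |b| ≤ n) (h : m * n ≤ 2048) : |a * b| ≤ 2048 := by
  rw [abs_mul]
  exact (mul_le_mul ha hb (abs_nonneg _) ((abs_nonneg _).trans ha)).trans h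

lemma Good.form (h : Good Y X) {H : ℕ} (hH : Pos (xx Y) H) (i : ℕ) : P1 (xx Y) (formN H i) := by
  unfold formN
  cases hi : Nat.blt i 512
  · exact hH _
  · have hi' : i < 512 := Nat.blt_eq ▸ hi
    show P1 _ (look (chunk (i / 16)) (i % 16))
    rw [table _ (by omega) _ (by omega)]
    generalize i / 16 = e
    generalize i % 16 = y
    refine ⟨_, h.rk _ _ _ (by norm_num) (fun j k => mul_bd (m := 500) (n := 1) ?_ (sg_abs _ _).le (by norm_num)), ?_⟩
    · rw [abs_mul, sg_abs]; norm_num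
    · have hN := h.N (fun k => sg y k) (by simp [sg]) (fun k => (sg_absR _ _).le)
      have : ∀ j ∈ range 5, -(500 * |∑ k ∈ range 5, Y j k * sg y k|) ≤
          ∑ k ∈ range 5, ((500 * sg e (j + 1) : ℤ) : ℝ) * sg y k * Y j k := by
        intro j _
        have e1 : ∑ k ∈ range 5, ((500 * sg e (j + 1) : ℤ) : ℝ) * sg y k * Y j k =
            500 * (sg e (j + 1) * ∑ k ∈ range 5, Y j k * sg y k) := by
          rw [mul_sum, mul_sum]; refine sum_congr rfl fun k _ => ?_; push_cast; ring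
        rw [e1]
        have := neg_abs_le (sg e (j + 1) * ∑ k ∈ range 5, Y j k * sg y k)
        rw [abs_mul, sg_absR, one_mul] at this
        linarith
      have h2 := sum_le_sum this
      rw [sum_neg_distrib, ← mul_sum] at h2
      push_cast at h2 ⊢
      linarith

lemma combN_succ (H k N : ℕ) : combN H (k + 1) N = cond (Nat.beq N 0) 0
    ((N / 1024 % 281474976710656) * formN H (N % 1024) + combN H k (N / 288230376151711744)) := rfl

lemma Good.comb (h : Good Y X) {H : ℕ} (hH : Pos (xx Y) H) : ∀ (k N : ℕ), P1 (xx Y) (combN H k N)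
  | 0, _ => ⟨0, Val.zero, le_rfl⟩
  | k + 1, N => by
    rw [combN_succ]
    cases Nat.beq N 0
    · obtain ⟨v, hv, hv0⟩ := h.form hH (N % 1024)
      obtain ⟨w, hw, hw0⟩ := Good.comb h hH k (N / 288230376151711744)
      exact ⟨_, (hv.mul _).add hw, by positivity⟩
    · exact ⟨0, Val.zero, le_rfl⟩

lemma Val.et {P P' : ℕ} {v : ℝ} (c : ℕ) (h : Val x P v) (h' : Val x P' (-v)) :
    Val x (et c P P') (sv c * v) := by
  unfold Th.et sv
  cases hc : Nat.beq (Nat.mod c 2) 0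
  · have : ¬ c % 2 = 0 := Nat.ne_of_beq_eq_false hc
    rw [if_neg this]
    have := h'.mul (c / 2)
    have e : (((-((c / 2 : ℕ) : ℤ)) : ℤ) : ℝ) * v = ((c / 2 : ℕ) : ℝ) * -v := by
      rw [Int.cast_neg, Int.cast_natCast]; ring
    rw [e]; exact this
  · have : c % 2 = 0 := Nat.eq_of_beq_eq_true hc
    rw [if_pos this]
    have := h.mul (c / 2)
    rw [Int.cast_natCast]; exact this

lemma sum_un (j : ℕ) (hj : j < 5) (f : ℕ → ℝ) : ∑ t ∈ range 5, (un j t : ℝ) * f t = f j := by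
  have : ∀ t, (un j t : ℝ) * f t = if t = j then f t else 0 := fun t => by
    unfold un; split_ifs <;> simp
  simp only [this, sum_ite_eq', mem_range, hj, if_true]

lemma Good.unl (h : Good Y X) (c : ℤ) (j : ℕ) (hj : j < 5) (b : ℕ → ℤ) (hc : |c| ≤ 2048)
    (hb : ∀ k, |b k| ≤ 64) : Val (xx Y) (rkN c (un j) b) (c + ∑ k ∈ range 5, Y j k * b k) := by
  have := h.rk c (un j) b hc (fun a k => mul_bd (un_abs _ _) (hb k) (by norm_num))
  convert this using 2
  rw [← sum_un j hj (fun j => ∑ k ∈ range 5, Y j k * b k)]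
  refine sum_congr rfl fun t _ => ?_
  rw [mul_sum]; refine sum_congr rfl fun k _ => ?_; ring

lemma Good.unr (h : Good Y X) (c : ℤ) (k : ℕ) (hk : k < 5) (a : ℕ → ℤ) (hc : |c| ≤ 2048)
    (ha : ∀ k, |a k| ≤ 64) : Val (xx Y) (rkN c a (un k)) (c + ∑ j ∈ range 5, a j * Y j k) := by
  have := h.rk c a (un k) hc (fun j t => mul_bd (ha j) (un_abs _ _) (by norm_num))
  convert this using 2
  refine sum_congr rfl fun j _ => ?_
  rw [← sum_un k hk (fun k => a j * Y j k)]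
  refine sum_congr rfl fun k _ => ?_; ring

lemma Good.cst (h : Good Y X) (c : ℤ) (hc : |c| ≤ 2048) :
    Val (xx Y) (rkN c (fun _ => 0) (fun _ => 0)) c := by
  have := h.rk c (fun _ => 0) (fun _ => 0) hc (fun _ _ => by simp)
  simpa using this

lemma Good.ee (h : Good Y X) (c j k : ℕ) (hj : j < 5) (hk : k < 5) :
    Val (xx Y) (ee c j k) (sv c * Y j k) := by
  have h1 := h.unl 0 j hj (un k) (by norm_num) (fun t => (un_abs _ _).trans (by norm_num))
  have h2 := h.unl 0 j hj (fun t => -un k t) (by norm_num)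
    (fun t => by rw [abs_neg]; exact (un_abs _ _).trans (by norm_num))
  have e := sum_un k hk (fun k => Y j k)
  refine Val.et c ?_ ?_
  · have e1 : Y j k = ((0 : ℤ) : ℝ) + ∑ t ∈ range 5, Y j t * (un k t : ℤ) := by
      rw [← e]; simp [mul_comm]
    rw [e1]; exact h1
  · have e1 : -Y j k = ((0 : ℤ) : ℝ) + ∑ t ∈ range 5, Y j t * ((-un k t : ℤ) : ℝ) := by
      rw [← e]; simp [mul_comm]
    rw [e1]; exact h2

lemma Good.ec (h : Good Y X) (c : ℕ) : Val (xx Y) (ec c) (sv c * (-1)) := by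
  refine Val.et c ?_ ?_
  · simpa using h.cst (-1) (by norm_num)
  · simpa using h.cst 1 (by norm_num)

noncomputable def Ev (Y : ℕ → ℕ → ℝ) (al be i i1 j : ℕ) : ℝ :=
  sv (dN al (5 * i)) * Y j 0 + sv (dN al (5 * i + 1)) * Y j 1 + sv (dN al (5 * i + 2)) * Y j 2 +
    sv (dN al (5 * i + 3)) * Y j 3 + sv (dN al (5 * i + 4)) * Y j 4 +
  sv (dN be j) * Y 0 i1 + sv (dN be (5 + j)) * Y 1 i1 + sv (dN be (10 + j)) * Y 2 i1 +
    sv (dN be (15 + j)) * Y 3 i1 + sv (dN be (20 + j)) * Y 4 i1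

lemma Good.eqs (h : Good Y X) (al be i i1 j : ℕ) (hi : i1 < 5) (hj : j < 5) :
    Val (xx Y) (eqs al be i i1 j) (Ev Y al be i i1 j) := by
  unfold Th.eqs Ev
  repeat' apply Val.add
  all_goals exact h.ee _ _ _ (by omega) (by omega)

noncomputable def Rv (Y : ℕ → ℕ → ℝ) (be a : ℕ) : ℝ :=
  sv (dN be (5 * a)) * Y a 0 + sv (dN be (5 * a + 1)) * Y a 0 + sv (dN be (5 * a + 2)) * Y a 0 +
    sv (dN be (5 * a + 3)) * Y a 0 + sv (dN be (5 * a + 4)) * Y a 0

lemma Good.row (h : Good Y X) (be a : ℕ) (ha : a < 5) : Val (xx Y) (row be a) (Rv Y be a) := by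
  unfold Th.row Rv
  repeat' apply Val.add
  all_goals exact h.ee _ _ _ (by omega) (by omega)

noncomputable def Bv (Y : ℕ → ℕ → ℝ) (al be : ℕ) : ℝ :=
  sv (dN al 1) * (-1) + sv (dN al 7) * (-1) + sv (dN al 13) * (-1) + sv (dN al 19) * (-1) +
  sv (dN be 0) * (-1) + sv (dN be 6) * (-1) + sv (dN be 12) * (-1) + sv (dN be 18) * (-1) +
  sv (dN be 24) * (-1) + Rv Y be 0 + Rv Y be 1 + Rv Y be 2 + Rv Y be 3 + Rv Y be 4

lemma Good.base (h : Good Y X) (al be : ℕ) : Val (xx Y) (base al be) (Bv Y al be) := by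
  unfold Th.base Bv
  refine Val.add (Val.add (Val.add (Val.add (Val.add ?_ (h.row _ _ (by omega))) (h.row _ _ (by omega)))
    (h.row _ _ (by omega))) (h.row _ _ (by omega))) (h.row _ _ (by omega))
  repeat' apply Val.add
  all_goals exact h.ec _

noncomputable def Sv (Y X : ℕ → ℕ → ℝ) (al be : ℕ) : List (ℕ × ℕ × ℕ) → ℝ
  | [] => 0
  | (i, i1, j) :: l => X i1 j * Ev Y al be i i1 j + Sv Y X al be l

lemma Good.ident (h : Good Y X) (al be : ℕ) : Bv Y al be + Sv Y X al be prs = 0 := by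
  have a := fun i k hi hk => h.XY i hi k hk
  have b := fun i k hi hk => h.YX i hi k hk
  have key : ∑ i ∈ range 4, ∑ k ∈ range 5, (sv (dN al (5 * i + k)) : ℝ) *
      (∑ j ∈ range 5, X (i + 1) j * Y j k - if i + 1 = k then 1 else 0) +
      ∑ i ∈ range 5, ∑ k ∈ range 5, (sv (dN be (5 * i + k)) : ℝ) *
      (∑ j ∈ range 5, Y i j * X j k - if i = k then 1 else 0) = 0 := by
    rw [sum_eq_zero, sum_eq_zero, add_zero]
    · intro i hi; refine sum_eq_zero fun k hk => ?_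
      rw [b i k (mem_range.1 hi) (mem_range.1 hk)]; simp
    · intro i hi; refine sum_eq_zero fun k hk => ?_
      rw [a (i + 1) k (by have := mem_range.1 hi; omega) (mem_range.1 hk)]; simp
  simp only [sum_range_succ, sum_range_zero, h.X0] at key
  simp only [Bv, Rv, Sv, prs, Ev]
  norm_num at key ⊢
  linear_combination key

lemma Good.loop (h : Good Y X) {H : ℕ} (hH : Pos (xx Y) H) (al be : ℕ) :
    ∀ (l : List (ℕ × ℕ × ℕ)) (gs : List ℕ) (P A : ℕ) (p : ℝ), (∀ q ∈ l, q.2.1 < 5 ∧ q.2.2 < 5) →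
      Val (xx Y) P p → loop H al be l gs P A = true → p + A + Sv Y X al be l < 0
  | [], gs, P, A, p, _, hp, hl => by
    have : Th.fin P A = true := by simpa [Th.loop] using hl
    have := hp.fin xx0 h.xb this
    simpa [Sv] using this
  | (i, i1, j) :: l, [], P, A, p, _, hp, hl => by simp [Th.loop] at hl
  | (i, i1, j) :: l, [g], P, A, p, _, hp, hl => by simp [Th.loop] at hl
  | (i, i1, j) :: l, g1 :: g2 :: gs, P, A, p, hq, hp, hl => by
    rw [Th.loop, Bool.and_eq_true, Bool.and_eq_true] at hl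
    obtain ⟨⟨s1, s2⟩, s3⟩ := hl
    obtain ⟨u, hu, hu0⟩ := h.comb hH 500 g1
    obtain ⟨w, hw, hw0⟩ := h.comb hH 500 g2
    have hq1 := hq _ List.mem_cons_self
    have hc := (hu.add (hw.neg s1)).add (h.eqs al be i i1 j hq1.1 hq1.2)
    have hab := hc.ab xx0 h.xb s2
    have ih := Good.loop h hH al be l gs _ _ _ (fun q hq' => hq q (List.mem_cons_of_mem _ hq'))
      (hp.add (hu.add hw)) s3
    rw [Nat.add_eq, Nat.cast_add] at ih
    simp only [Nat.add_eq] at ih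
    have hx := abs_le.1 (h.Xb i1 j)
    have h1 : X i1 j * (u + -w + Ev Y al be i i1 j) ≤ |u + -w + Ev Y al be i i1 j| := by
      refine (le_abs_self _).trans ?_
      rw [abs_mul]
      exact mul_le_of_le_one_left (abs_nonneg _) (h.Xb i1 j)
    have h2 : 0 ≤ (1 + X i1 j) * u := mul_nonneg (by linarith) hu0
    have h3 : 0 ≤ (1 - X i1 j) * w := mul_nonneg (by linarith) hw0
    simp only [Sv]
    nlinarith

end Pool.Agent.H14.Th
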