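import Pool.Agent.H14.Th3

set_option autoImplicit false
set_option maxHeartbeats 800000
set_option maxRecDepth 100000

namespace Pool.Agent.H14.Th
open Finset

variable {Y X : ℕ → ℕ → ℝ} {x : ℕ → ℝ}

def Inv (x : ℕ → ℝ) : List ℕ → ℝ → Prop
  | [], v0 => 0 ≤ v0
  | a :: rest, v0 => ∃ v, Val x a v ∧ Inv x rest (v0 + |v|)

lemma Pos.push {H a acc : ℕ} {rest : List ℕ} {v0 : ℝ} (hH : Pos x H) (ha : P1 x a)
    (hacc : Val x acc v0) (hi : Inv x rest v0) (h1 : Nat.blt a MW = true) (h2 : Nat.blt acc MW = true) :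
    Pos x (push rest acc a H) := by
  cases rest with
  | nil => exact (hH.ps ha h1).ps ⟨v0, hacc, hi⟩ h2
  | cons b l => exact hH.ps ha h1

lemma Good.colcut (h : Good Y X) (i : ℕ) (hi : i < 5) (c : ℕ → ℝ) :
    |c i| ≤ ∑ j ∈ range 5, |∑ k ∈ range 5, Y j k * c k| := by
  have e : c i = ∑ j ∈ range 5, X i j * ∑ k ∈ range 5, Y j k * c k := by
    have : c i = ∑ k ∈ range 5, (if i = k then 1 else 0) * c k := by
      simp [hi]
    rw [this]
    simp only [mul_sum]
    rw [sum_comm]
    refine sum_congr rfl fun k hk => ?_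
    rw [← h.XY i hi k (mem_range.1 hk), sum_mul]
    refine sum_congr rfl fun j _ => by ring
  rw [e]
  refine (abs_sum_le_sum_abs _ _).trans (sum_le_sum fun j _ => ?_)
  rw [abs_mul]
  exact mul_le_of_le_one_left (abs_nonneg _) (h.Xb i j)

lemma Good.rowcut (h : Good Y X) (j : ℕ) (hj : j < 5) (d : ℕ → ℝ) :
    d j ≤ ∑ a ∈ range 5, d a * Y a 0 + ∑ i ∈ range 4, |∑ a ∈ range 5, d a * Y a (i + 1)| := by
  have e : d j = ∑ i ∈ range 5, (∑ a ∈ range 5, d a * Y a i) * X i j := by
    have : d j = ∑ a ∈ range 5, d a * (if a = j then 1 else 0) := by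
      simp [hj]
    rw [this]
    simp only [sum_mul]
    rw [sum_comm]
    refine sum_congr rfl fun a ha => ?_
    rw [← h.YX a (mem_range.1 ha) j hj, mul_sum]
    refine sum_congr rfl fun j _ => by ring
  rw [e, sum_range_succ', h.X0, mul_one, add_comm]
  refine add_le_add le_rfl (sum_le_sum fun i _ => (le_abs_self _).trans ?_)
  rw [abs_mul]
  exact mul_le_of_le_one_right (abs_nonneg _) (h.Xb _ _)

theorem Good.chk (h : Good Y X) : ∀ (t : T) (H : ℕ) (pend : List ℕ) (acc : ℕ) (v0 : ℝ),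
    Pos (xx Y) H → Val (xx Y) acc v0 → Inv (xx Y) pend v0 → chk t H pend acc = true → False := by
  intro t
  induction t with
  | z n =>
    intro H pend acc v0 hH _ _ hc
    obtain ⟨v, hv, hv0⟩ := h.comb hH 500 n
    have := hv.fin xx0 h.xb (A := 0) hc
    simp at this; linarith
  | r g gs al be =>
    intro H pend acc v0 hH _ _ hc
    obtain ⟨v, hv, hv0⟩ := h.comb hH 500 g
    have := h.loop hH al be prs gs _ 0 _ (by decide) (hv.add (h.base al be)) hc
    have := h.ident al be
    simp only [Nat.cast_zero] at *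
    linarith
  | s l r ihl ihr =>
    intro H pend acc v0 hH hacc hi hc
    cases pend with
    | nil => simp [Th.chk] at hc
    | cons a rest =>
      rw [Th.chk] at hc
      simp only [Bool.and_eq_true] at hc
      obtain ⟨⟨⟨⟨⟨⟨s1, s2⟩, s3⟩, s4⟩, s5⟩, s6⟩, s7⟩ := hc
      obtain ⟨v, hv, hi⟩ := hi
      rcases le_total 0 v with h0 | h0
      · rw [abs_of_nonneg h0, add_comm] at hi
        exact ihl _ _ _ _ (hH.push ⟨v, hv, h0⟩ (hv.add hacc) hi s2 s4) (hv.add hacc) hi s6
      · rw [abs_of_nonpos h0, add_comm] at hi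
        exact ihr _ _ _ _ (hH.push ⟨-v, hv.neg s1, by linarith⟩ ((hv.neg s1).add hacc) hi s3 s5)
          ((hv.neg s1).add hacc) hi s7
  | cc i c t ih =>
    intro H pend acc v0 hH _ _ hc
    rw [Th.chk, Bool.and_eq_true, decide_eq_true_eq] at hc
    have hv := fun j hj => h.unl 0 j hj (dg c) (by norm_num) (dg_abs c)
    refine ih _ _ _ _ hH (h.cst _ ?_) ?_ hc.2
    · rw [abs_neg, abs_abs]; exact (dg_abs _ _).trans (by norm_num)
    · refine ⟨_, hv 0 (by norm_num), _, hv 1 (by norm_num), _, hv 2 (by norm_num), _, hv 3 (by norm_num),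
        _, hv 4 (by norm_num), ?_⟩
      have := h.colcut (i + 1) (by omega) (fun k => dg c k)
      rw [sum_range_succ, sum_range_succ, sum_range_succ, sum_range_succ, sum_range_one] at this
      show (0 : ℝ) ≤ _
      simp only [Int.cast_zero, zero_add, Int.cast_neg, Int.cast_abs]
      linarith
  | cr j c t ih =>
    intro H pend acc v0 hH _ _ hc
    rw [Th.chk, Bool.and_eq_true, decide_eq_true_eq] at hc
    have hv := fun j hj => h.unr 0 j hj (dg c) (by norm_num) (dg_abs c)
    refine ih _ _ _ _ hH (h.unr _ 0 (by norm_num) (dg c) ?_ (dg_abs c)) ?_ hc.2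
    · rw [abs_neg]; exact (dg_abs _ _).trans (by norm_num)
    · refine ⟨_, hv 1 (by norm_num), _, hv 2 (by norm_num), _, hv 3 (by norm_num),
        _, hv 4 (by norm_num), ?_⟩
      have := h.rowcut j hc.1 (fun k => dg c k)
      rw [sum_range_succ _ 3, sum_range_succ _ 2, sum_range_succ _ 1, sum_range_one] at this
      show (0 : ℝ) ≤ _
      simp only [Int.cast_zero, zero_add, Int.cast_neg] at this ⊢
      linarith

def Pat (Y : ℕ → ℕ → ℝ) (r : ℕ → ℕ) : Prop := ∀ j < 5, ∀ i < 5, i ≠ 0 → 0 ≤ (sg (r j) i : ℝ) * Y j i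

lemma Pat.abs {r : ℕ → ℕ} (hp : Pat Y r) (j i : ℕ) (hj : j < 5) (hi : i < 5) (h0 : i ≠ 0) :
    (sg (r j) i : ℝ) * Y j i = |Y j i| := by
  rw [← abs_of_nonneg (hp j hj i hi h0), abs_mul, sg_absR, one_mul]

lemma Good.root (h : Good Y X) {r : ℕ → ℕ} (hp : Pat Y r) : ∀ P ∈ root r, P1 (xx Y) P := by
  intro P hP
  simp only [Th.root, List.mem_append, List.mem_flatMap, List.mem_map] at hP
  rcases hP with (⟨j, hj, i, hi, rfl⟩ | ⟨i, hi, rfl⟩) | ⟨j, hj, rfl⟩
  · have hj' : j < 5 := by simp at hj; omega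
    have hi' : i < 5 ∧ i ≠ 0 := by simp at hi; omega
    refine ⟨_, h.unl 0 j hj' _ (by norm_num) (fun k => ?_), ?_⟩
    · rw [abs_mul, sg_abs, mul_one]; exact (un_abs _ _).trans (by norm_num)
    · have := sum_un i hi'.1 (fun k => sg (r j) k * Y j k)
      have e : ∑ k ∈ range 5, Y j k * ((un i k * sg (r j) k : ℤ) : ℝ) = sg (r j) i * Y j i := by
        rw [← this]; refine sum_congr rfl fun k _ => ?_; push_cast; ring
      rw [e]; simpa using hp j hj' i hi'.1 hi'.2
  · have hi' : i < 5 ∧ i ≠ 0 := by simp at hi; omega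
    refine ⟨_, h.unr (-1) i hi'.1 _ (by norm_num) (fun k => by rw [sg_abs]; norm_num), ?_⟩
    have := h.colcut i hi'.1 (fun k => un i k)
    have e : ∀ j ∈ range 5, |∑ k ∈ range 5, Y j k * (un i k : ℝ)| = sg (r j) i * Y j i := by
      intro j hj
      rw [hp.abs j i (mem_range.1 hj) hi'.1 hi'.2, ← sum_un i hi'.1 (fun k => Y j k)]
      simp only [mul_comm]
    rw [sum_congr rfl e] at this
    simp only [un, if_true, Int.cast_one, abs_one] at this
    push_cast
    linarith
  · have hj' : j < 5 := by simp at hj; omega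
    refine ⟨_, h.unl (-1) j hj' _ (by norm_num) (fun k => by rw [sg_abs]; norm_num), ?_⟩
    have := h.rowcut j hj' (fun k => un j k)
    have e : ∀ i ∈ range 4, |∑ a ∈ range 5, (un j a : ℝ) * Y a (i + 1)| = Y j (i + 1) * sg (r j) (i + 1) := by
      intro i hi
      rw [sum_un j hj' (fun a => Y a (i + 1)), ← hp.abs j (i + 1) hj' (by have := mem_range.1 hi; omega)
        (by omega), mul_comm]
    rw [sum_congr rfl e, sum_un j hj' (fun a => Y a 0)] at this
    simp only [un, if_true, Int.cast_one] at this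
    rw [sum_range_succ']
    have e0 : (sg (r j) 0 : ℝ) = 1 := by simp [sg]
    rw [e0]
    push_cast
    linarith

lemma Pos.foldr (l : List ℕ) (h1 : ∀ P ∈ l, P1 x P) (h2 : ∀ P ∈ l, Nat.blt P MW = true) :
    Pos x (l.foldr Th.ps 0) := by
  induction l with
  | nil => exact Pos.zero
  | cons a l ih =>
    rw [List.foldr_cons]
    exact (ih (fun P hP => h1 P (List.mem_cons_of_mem _ hP))
      (fun P hP => h2 P (List.mem_cons_of_mem _ hP))).ps (h1 a List.mem_cons_self) (h2 a List.mem_cons_self)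

def Bad (r : List ℕ) : Prop := ∀ Y X : ℕ → ℕ → ℝ, Good Y X → Pat Y (fun j => r.getD j 0) → False

theorem bad_of_ok {r : List ℕ} {t : T} (hk : ok r t = true) : Bad r := by
  intro Y X h hp
  unfold ok at hk
  rw [Bool.and_eq_true, List.all_eq_true] at hk
  exact h.chk t _ [] 0 0 (Pos.foldr _ (h.root hp) hk.1) Val.zero le_rfl hk.2

end Pool.Agent.H14.Th
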