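import Pool.Agent.H14.ThW
import Pool.Agent.H14.ThD1
import Pool.Agent.H14.ThD2
import Pool.Agent.H14.ThD3

set_option autoImplicit false
set_option maxHeartbeats 800000
set_option maxRecDepth 100000

namespace Pool.Agent.H14.Th
open Finset

theorem allbad : ∀ r ∈ reps, Bad r := by
  unfold reps
  simp only [List.forall_mem_cons]
  exact ⟨b0_0_0_0_0, b0_0_0_0_1, b0_0_0_0_3, b0_0_0_0_7, b0_0_0_0_15, b0_0_0_1_1, b0_0_0_1_2, b0_0_0_1_3, b0_0_0_1_6, b0_0_0_1_7, b0_0_0_1_14, b0_0_0_1_15, b0_0_0_3_3, b0_0_0_3_5, b0_0_0_3_7, b0_0_0_3_12, b0_0_0_3_13, b0_0_0_3_15, b0_0_0_7_7, b0_0_0_7_11, b0_0_0_7_15, b0_0_0_15_15, b0_0_1_1_2, b0_0_1_1_6, b0_0_1_1_14, b0_0_1_2_3, b0_0_1_2_4, b0_0_1_2_5, b0_0_1_2_7, b0_0_1_2_12, b0_0_1_2_13, b0_0_1_2_15, b0_0_1_3_3, b0_0_1_3_5, b0_0_1_3_6, b0_0_1_3_7, b0_0_1_3_12, b0_0_1_3_13, b0_0_1_3_14, b0_0_1_3_15, b0_0_1_6_6, b0_0_1_6_7, b0_0_1_6_10, b0_0_1_6_11, b0_0_1_6_14, b0_0_1_6_15, b0_0_1_7_7, b0_0_1_7_11,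 b0_0_1_7_14, b0_0_1_7_15, b0_0_1_14_14, b0_0_1_14_15, b0_0_1_15_15, b0_0_3_3_5, b0_0_3_3_12, b0_0_3_3_13, b0_0_3_5_6, b0_0_3_5_7, b0_0_3_5_9, b0_0_3_5_10, b0_0_3_5_11, b0_0_3_5_14, b0_0_3_5_15, b0_0_3_7_11, b0_0_3_7_12, b0_0_3_7_13, b0_0_3_7_15, b0_0_3_12_15, b0_0_3_13_13, b0_0_3_13_14, b0_0_3_13_15, b0_0_3_15_15, b0_0_7_11_13, b0_0_7_11_15, b0_1_2_3_4, b0_1_2_3_12, b0_1_2_4_7, b0_1_2_4_8, b0_1_2_4_9, b0_1_2_4_11, b0_1_2_4_15, b0_1_2_5_6, b0_1_2_5_10, b0_1_2_5_11, b0_1_2_5_14, b0_1_2_7_11, b0_1_2_7_12, b0_1_2_7_13, b0_1_2_7_15, b0_1_2_12_13, b0_1_2_12_15, b0_1_2_13_14, b0_1_2_13_15, b0_1_6_7_10, b0_1_6_10_12, b0_1_6_10_13, b0_1_6_10_15, b0_1_6_11_14, b0_3_5_6_9, b0_3_5_9_14, b0_3_5_10_12, fun _ h => absurd h List.not_mem_nil⟩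

lemma P5.sum {σ : ℕ → ℕ} (h : P5 σ) (f : ℕ → ℝ) : ∑ j ∈ range 5, f (σ j) = ∑ j ∈ range 5, f j := by
  have hm : Set.MapsTo σ (range 5 : Finset ℕ) (range 5 : Finset ℕ) := fun j hj => by
    simp only [coe_range, Set.mem_Iio] at hj ⊢; exact h.1 j hj
  have hi : Set.InjOn σ (range 5 : Finset ℕ) := fun a ha b hb e => by
    simp only [coe_range, Set.mem_Iio] at ha hb; exact h.2 a ha b hb e
  exact sum_nbij σ (fun a ha => hm ha) hi (surjOn_of_injOn_of_card_le σ hm hi le_rfl) (fun _ _ => rfl)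

lemma P5.id : P5 (fun j => j) := ⟨fun _ h => h, fun _ _ _ _ h => h⟩

variable {Y X : ℕ → ℕ → ℝ}

lemma Good.trans (h : Good Y X) {σ π : ℕ → ℕ} (hσ : P5 σ) (hπ : P5 π) (h0 : π 0 = 0) (ε : ℕ → ℝ)
    (e0 : ε 0 = 1) (e2 : ∀ k, ε k * ε k = 1) :
    Good (fun j i => ε i * Y (σ j) (π i)) (fun i j => ε i * X (π i) (σ j)) := by
  have e1 : ∀ k, |ε k| = 1 := fun k => by
    rcases mul_self_eq_one_iff.1 (e2 k) with h | h <;> simp [h]
  refine ⟨fun y y0 yb => ?_, fun j => ?_, fun i j => ?_, fun j k => ?_, fun i hi k hk => ?_,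
    fun a ha j hj => ?_⟩
  · set z : ℕ → ℝ := fun m => ∑ k ∈ range 5, if π k = m then ε k * y k else 0 with hz
    have hz1 : ∀ k < 5, z (π k) = ε k * y k := by
      intro k hk
      rw [hz]
      simp only
      rw [sum_eq_single k]
      · simp
      · intro b hb hne
        rw [if_neg]
        exact fun e => hne (hπ.2 b (mem_range.1 hb) k hk e)
      · intro hn; exact absurd (mem_range.2 hk) hn
    have hzb : ∀ m, |z m| ≤ 1 := by
      intro m
      by_cases hm : ∃ k < 5, π k = m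
      · obtain ⟨k, hk, rfl⟩ := hm
        rw [hz1 k hk, abs_mul, e1, one_mul]; exact yb k
      · have : z m = 0 := sum_eq_zero fun k hk => if_neg fun e => hm ⟨k, mem_range.1 hk, e⟩
        rw [this]; simp
    have hz0 : z 0 = 1 := by
      have := hz1 0 (by norm_num)
      rwa [h0, e0, y0, one_mul] at this
    have := h.N z hz0 hzb
    rw [← hσ.sum] at this
    convert this using 3 with j hj
    rw [← hπ.sum (fun k => Y (σ j) k * z k)]
    refine sum_congr rfl fun k hk => ?_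
    rw [hz1 k (mem_range.1 hk)]; ring
  · simp only [h0, e0, h.X0, mul_one]
  · rw [abs_mul, e1, one_mul]; exact h.Xb _ _
  · rw [abs_mul, e1, one_mul]; exact h.Yb _ _
  · have := h.XY _ (hπ.1 i hi) _ (hπ.1 k hk)
    rw [← hσ.sum] at this
    have e : ∑ j ∈ range 5, ε i * X (π i) (σ j) * (ε k * Y (σ j) (π k)) =
        ε i * ε k * ∑ j ∈ range 5, X (π i) (σ j) * Y (σ j) (π k) := by
      rw [mul_sum]; refine sum_congr rfl fun j _ => by ring
    rw [e, this]
    by_cases hik : i = k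
    · subst hik; simp [e2]
    · rw [if_neg hik, if_neg (fun e => hik (hπ.2 i hi k hk e)), mul_zero]
  · have := h.YX _ (hσ.1 a ha) _ (hσ.1 j hj)
    rw [← hπ.sum] at this
    have e : ∑ i ∈ range 5, ε i * Y (σ a) (π i) * (ε i * X (π i) (σ j)) =
        ∑ i ∈ range 5, Y (σ a) (π i) * X (π i) (σ j) := by
      refine sum_congr rfl fun i _ => ?_
      linear_combination (Y (σ a) (π i) * X (π i) (σ j)) * e2 i
    rw [e, this]
    by_cases hik : a = j
    · subst hik; simp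
    · rw [if_neg hik, if_neg (fun e => hik (hσ.2 a ha j hj e))]

lemma sg_bt (n i : ℕ) : sg n i = 1 - 2 * (bt n i : ℤ) := by
  have e : bt n i = 2 * n / 2 ^ i % 2 := by rw [← Nat.shiftRight_eq_div_pow]; rfl
  rw [e]; unfold sg
  cases i with
  | zero => simp
  | succ i =>
    have : 2 * n / 2 ^ (i + 1) = n / 2 ^ i := by
      rw [pow_succ', Nat.mul_div_mul_left _ _ (by norm_num)]
    rw [this, if_neg (Nat.succ_ne_zero i), Nat.add_sub_cancel]
    split_ifs with h
    · rw [h]; norm_num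
    · have : n / 2 ^ i % 2 = 0 := by omega
      rw [this]; norm_num

lemma bt_lt (n i : ℕ) : bt n i < 2 := Nat.mod_lt _ (by norm_num)

lemma one_sg {q σ π f R j i : ℕ} (h : one q σ π f R j i = true) :
    sg (cd q j) i = sg f (dd π i) * sg (cd R (dd σ j)) (dd π i) := by
  have h1 : (bt (cd q j) i + bt f (dd π i) + bt (cd R (dd σ j)) (dd π i)) % 2 = 0 :=
    Nat.eq_of_beq_eq_true h
  rw [sg_bt, sg_bt, sg_bt]
  have a := bt_lt (cd q j) i
  have b := bt_lt f (dd π i)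
  have c := bt_lt (cd R (dd σ j)) (dd π i)
  generalize bt (cd q j) i = u at *
  generalize bt f (dd π i) = v at *
  generalize bt (cd R (dd σ j)) (dd π i) = w at *
  interval_cases u <;> interval_cases v <;> interval_cases w <;> simp_all

lemma bad_RQ (m : ℕ) (hm : m < 101) (h : Good Y X) (hp : Pat Y (cd (RQ m))) : False := by
  have hl : m < reps.length := hm
  refine allbad (reps.getD m []) ?_ Y X h ?_
  · rw [List.getD_eq_getElem _ _ hl]; exact List.getElem_mem hl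
  · intro j hj i hi h0
    have := hp j hj i hi h0
    rwa [tabR m hm j hj] at this

lemma bad_wok {R w : ℕ} (hw : wok R w = true) (h : Good Y X) (hp : Pat Y (cd R)) : False := by
  unfold wok at hw
  simp only [strict_eq, List.all_eq_true] at hw
  have hm : Nat.mod (Nat.mod w 128) 101 < 101 := Nat.mod_lt _ (by norm_num)
  have hs := tabS (Nat.mod (Nat.mod (Nat.div w 128) 128) 120) (Nat.mod_lt _ (by norm_num))
  have hq := tabP (Nat.mod (Nat.mod (Nat.div w 16384) 32) 24) (Nat.mod_lt _ (by norm_num))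
  generalize Nat.mod (Nat.mod w 128) 101 = m at *
  generalize SG (Nat.mod (Nat.mod (Nat.div w 128) 128) 120) = σ at *
  generalize PI (Nat.mod (Nat.mod (Nat.div w 16384) 32) 24) = π at *
  generalize Nat.div w 524288 = f at *
  have hg := h.trans hs hq.1 hq.2 (fun i => sg f (dd π i)) (by simp [hq.2, sg]) (fun k => by
    rcases sg_cases f (dd π k) with h | h <;> simp [h])
  refine bad_RQ m hm hg ?_
  intro j hj i hi h0
  have e := one_sg (hw j (by simp; omega) i (by simp; omega))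
  have hne : dd π i ≠ 0 := fun e => h0 (hq.1.2 i hi 0 (by norm_num) (by rw [e, hq.2]))
  have := hp (dd σ j) (hs.1 j hj) (dd π i) (hq.1.1 i hi) hne
  rw [e]
  have e2 : (sg f (dd π i) : ℝ) * sg f (dd π i) = 1 := by
    rcases sg_cases f (dd π i) with h | h <;> simp [h]
  push_cast
  convert this using 1
  linear_combination (sg (cd R (dd σ j)) (dd π i) * Y (dd σ j) (dd π i) : ℝ) * e2

lemma bad_sorted (h : Good Y X) (r : ℕ → ℕ) (hp : Pat Y r) (r0 : r 0 = 0) (h1 : r 1 ≤ r 2)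
    (h2 : r 2 ≤ r 3) (h3 : r 3 ≤ r 4) (h4 : r 4 < 16) : False := by
  have := tab (r 4) h4 (r 3) (by omega) (r 2) (by omega) (r 1) (by omega)
  unfold wk at this
  rw [strict_eq, strict_eq] at this
  refine bad_wok this h ?_
  intro j hj i hi h0
  have e : cd (16 * r 1 + 256 * r 2 + 4096 * r 3 + 65536 * r 4) j = r j := by
    have : ∀ R, cd R j = R / 2 ^ (4 * j) % 16 := fun R => by rw [← Nat.shiftRight_eq_div_pow]; rfl
    rw [this]
    have b1 : r 1 < 16 := by omega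
    have b2 : r 2 < 16 := by omega
    have b3 : r 3 < 16 := by omega
    have q1 : (16 * r 1 + 256 * r 2 + 4096 * r 3 + 65536 * r 4) / 16 =
      r 1 + 16 * (r 2 + 16 * r 3 + 256 * r 4) := by omega
    have q2 : (16 * r 1 + 256 * r 2 + 4096 * r 3 + 65536 * r 4) / 256 = r 2 + 16 * (r 3 + 16 * r 4) := by
      omega
    have q3 : (16 * r 1 + 256 * r 2 + 4096 * r 3 + 65536 * r 4) / 4096 = r 3 + 16 * r 4 := by omega
    have q4 : (16 * r 1 + 256 * r 2 + 4096 * r 3 + 65536 * r 4) / 65536 = r 4 := by omega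
    interval_cases j <;> norm_num
    · omega
    · rw [q1]; omega
    · rw [q2]; omega
    · rw [q3]; omega
    · rw [q4]; omega
  rw [e]; exact hp j hj i hi h0

def code (b : ℕ → Bool) : ℕ := cond (b 1) 1 0 + cond (b 2) 2 0 + cond (b 3) 4 0 + cond (b 4) 8 0

lemma code_lt (b : ℕ → Bool) : code b < 16 := by
  unfold code; cases b 1 <;> cases b 2 <;> cases b 3 <;> cases b 4 <;> decide

lemma code_sg (b : ℕ → Bool) (i : ℕ) (hi : i < 5) (h0 : i ≠ 0) : sg (code b) i = cond (b i) (-1) 1 := by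
  unfold code
  have : i = 1 ∨ i = 2 ∨ i = 3 ∨ i = 4 := by omega
  rcases this with rfl | rfl | rfl | rfl <;> cases b 1 <;> cases b 2 <;> cases b 3 <;> cases b 4 <;> decide

lemma bad_row0 (h : Good Y X) (hy : ∀ i, i ≠ 0 → 0 ≤ Y 0 i) : False := by
  classical
  set r : ℕ → ℕ := fun j => code (fun i => decide (Y j i < 0)) with hr
  have hp : Pat Y r := by
    intro j hj i hi h0
    rw [hr]
    simp only
    rw [code_sg _ i hi h0]
    by_cases hneg : Y j i < 0
    · simp [hneg]; exact hneg.le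
    · simp [hneg]; exact not_lt.1 hneg
  have r0 : r 0 = 0 := by
    simp [hr, code, not_lt.2 (hy 1 (by norm_num)), not_lt.2 (hy 2 (by norm_num)),
      not_lt.2 (hy 3 (by norm_num)), not_lt.2 (hy 4 (by norm_num))]
  set τ := Tuple.sort (fun j : Fin 5 => r j) with hτ
  have hm := Tuple.monotone_sort (fun j : Fin 5 => r j)
  rw [← hτ] at hm
  set σ : ℕ → ℕ := fun j => (τ (Fin.ofNat 5 j) : ℕ) with hσ
  have hP : P5 σ := by
    refine ⟨fun j _ => (τ _).2, fun a ha b hb e => ?_⟩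
    have := congrArg Fin.val (τ.injective (Fin.ext e))
    simp only [Fin.val_ofNat] at this
    omega
  have hg := h.trans hP P5.id rfl (fun _ => 1) rfl (fun _ => by norm_num)
  refine bad_sorted hg (fun j => r (σ j)) ?_ ?_ (hm (show (1 : Fin 5) ≤ 2 by decide))
    (hm (show (2 : Fin 5) ≤ 3 by decide)) (hm (show (3 : Fin 5) ≤ 4 by decide)) (code_lt _)
  · intro j hj i hi h0
    simpa using hp (σ j) (hP.1 j hj) i hi h0
  · have := hm (Fin.zero_le (τ.symm 0))
    simp only [Function.comp, Equiv.apply_symm_apply, Fin.val_zero, r0] at this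
    exact Nat.le_zero.1 this

theorem no_good (h : Good Y X) : False := by
  classical
  have hg := h.trans P5.id P5.id rfl (fun k => if k = 0 then 1 else if 0 ≤ Y 0 k then 1 else -1)
    (by simp) (fun k => by split_ifs <;> norm_num)
  refine bad_row0 hg fun i hi => ?_
  simp only [hi, if_false]
  split_ifs with h1
  · simpa using h1
  · simpa using (not_le.1 h1).le

end Pool.Agent.H14.Th
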