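import Pool.Agent.H14.Th5

set_option autoImplicit false
set_option maxHeartbeats 800000

namespace Pool.Agent.H14.Th
open Finset Matrix

lemma noF (Y X : Matrix (Fin 5) (Fin 5) ℝ) (hXY : X * Y = 1) (hYX : Y * X = 1) (h0 : ∀ j, X 0 j = 1)
    (hb : ∀ i j, |X i j| ≤ 1)
    (hN : ∀ y : Fin 5 → ℝ, y 0 = 1 → (∀ k, |y k| ≤ 1) → ∑ j, |∑ k, Y j k * y k| ≤ 1123 / 500) : False := by
  have h1 : ∀ (j : Fin 5) (y : Fin 5 → ℝ), y 0 = 1 → (∀ k, |y k| ≤ 1) → |∑ k, Y j k * y k| ≤ 1123 / 500 :=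
    fun j y a b => (single_le_sum (f := fun j => |∑ k, Y j k * y k|) (fun _ _ => abs_nonneg _)
      (mem_univ j)).trans (hN y a b)
  have hY : ∀ j k, |Y j k| ≤ 3 := by
    intro j k
    by_cases hk : k = 0
    · have := h1 j (fun t => if t = 0 then 1 else 0) (by simp) (fun t => by split_ifs <;> simp)
      simp at this
      rw [hk]; linarith
    · have a := h1 j (fun t => (if t = 0 then 1 else 0) + (if t = k then 1 else 0))
        (by simp [Ne.symm hk]) (fun t => by split_ifs <;> simp_all)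
      have b := h1 j (fun t => (if t = 0 then 1 else 0) - (if t = k then 1 else 0))
        (by simp [Ne.symm hk]) (fun t => by split_ifs <;> simp_all)
      simp [mul_add, mul_sub, sum_add_distrib] at a b
      rw [abs_le] at a b ⊢
      constructor <;> linarith [a.1, a.2, b.1, b.2]
  have hin : ∀ i < 5, ∀ k < 5, (Fin.ofNat 5 i = Fin.ofNat 5 k ↔ i = k) := by decide
  refine no_good (Y := fun j k => Y (Fin.ofNat 5 j) (Fin.ofNat 5 k))
    (X := fun j k => X (Fin.ofNat 5 j) (Fin.ofNat 5 k)) ⟨fun y y0 yb => ?_, fun j => h0 _,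
      fun i j => hb _ _, fun j k => hY _ _, fun i hi k hk => ?_, fun i hi k hk => ?_⟩
  · have := hN (fun k => y k) y0 (fun k => yb k)
    simpa only [sum_range, Fin.ofNat_val_eq_self] using this
  · have := congrFun (congrFun hXY (Fin.ofNat 5 i)) (Fin.ofNat 5 k)
    rw [mul_apply, one_apply] at this
    simp only [hin i hi k hk] at this
    simpa only [sum_range, Fin.ofNat_val_eq_self] using this
  · have := congrFun (congrFun hYX (Fin.ofNat 5 i)) (Fin.ofNat 5 k)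
    rw [mul_apply, one_apply] at this
    simp only [hin i hi k hk] at this
    simpa only [sum_range, Fin.ofNat_val_eq_self] using this

/-- homogeneous coordinates on the cube rescaled to `[-1,1]` -/
noncomputable def hc (x : Fin 4 → ℝ) : Fin 5 → ℝ := Fin.cons 1 (fun i => 2 * x i - 1)

lemma hc_abs {x : Fin 4 → ℝ} (hx : x ∈ Set.Icc (0 : Fin 4 → ℝ) 1) (k : Fin 5) : |hc x k| ≤ 1 := by
  refine Fin.cases ?_ (fun i => ?_) k
  · simp [hc]
  · have a := hx.1 i
    have b := hx.2 i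
    simp only [Pi.zero_apply, Pi.one_apply] at a b
    simp only [hc, Fin.cons_succ]
    rw [abs_le]; constructor <;> linarith

noncomputable def MM (v : Fin 5 → Fin 4 → ℝ) : Matrix (Fin 5) (Fin 5) ℝ := Matrix.of fun i j => hc (v j) i

lemma MM_iff (v : Fin 5 → Fin 4 → ℝ) (l : Fin 5 → ℝ) (x : Fin 4 → ℝ) :
    MM v *ᵥ l = hc x ↔ ∑ j, l j = 1 ∧ ∑ j, l j • v j = x := by
  have e0 : (MM v *ᵥ l) 0 = ∑ j, l j := by simp [MM, mulVec, dotProduct, hc]
  have e1 : ∀ i : Fin 4, (MM v *ᵥ l) i.succ = 2 * (∑ j, l j • v j) i - ∑ j, l j := by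
    intro i
    simp only [MM, mulVec, dotProduct, hc, of_apply, Fin.cons_succ, Finset.sum_apply, Pi.smul_apply,
      smul_eq_mul, mul_sum, ← sum_sub_distrib]
    exact sum_congr rfl fun j _ => by ring
  constructor
  · intro h
    have a : ∑ j, l j = 1 := by rw [← e0, h]; simp [hc]
    refine ⟨a, funext fun i => ?_⟩
    have := e1 i
    rw [h, a] at this
    simp only [hc, Fin.cons_succ] at this
    linarith
  · rintro ⟨a, b⟩
    funext k
    refine Fin.cases ?_ (fun i => ?_) k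
    · rw [e0, a]; simp [hc]
    · rw [e1, a, b]; simp [hc]

lemma MM_unit {v : Fin 5 → Fin 4 → ℝ} (hv : AffineIndependent ℝ v) : IsUnit (MM v).det := by
  rw [← isUnit_iff_isUnit_det, ← mulVec_injective_iff_isUnit]
  intro l l' h
  have key : ∀ l : Fin 5 → ℝ, (MM v *ᵥ l) 0 = ∑ j, l j ∧
      ∀ i : Fin 4, (MM v *ᵥ l) i.succ = 2 * (∑ j, l j • v j) i - ∑ j, l j := by
    intro l
    refine ⟨by simp [MM, mulVec, dotProduct, hc], fun i => ?_⟩
    simp only [MM, mulVec, dotProduct, hc, of_apply, Fin.cons_succ, Finset.sum_apply, Pi.smul_apply,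
      smul_eq_mul, mul_sum, ← sum_sub_distrib]
    exact sum_congr rfl fun j _ => by ring
  have h1 : MM v *ᵥ (l - l') = 0 := by rw [mulVec_sub]; exact sub_eq_zero.2 h
  obtain ⟨a, b⟩ := key (l - l')
  rw [h1] at a b
  have a' : ∑ j, (l - l') j = 0 := a.symm
  have := affineIndependent_iff.1 hv univ (l - l') a' (funext fun i => by
    have := b i
    rw [a'] at this
    simp only [Pi.zero_apply] at this ⊢
    linarith)
  funext j
  exact sub_eq_zero.1 (this j (mem_univ j))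

theorem theta (v : Fin 5 → Fin 4 → ℝ) (hv : AffineIndependent ℝ v)
    (hq : ∀ j, v j ∈ Set.Icc (0 : Fin 4 → ℝ) 1) :
    1123 / 500 ≤ sSup {t : ℝ | ∃ f : (Fin 4 → ℝ) → ℝ, ContinuousOn f (Set.Icc (0 : Fin 4 → ℝ) 1) ∧
              (∀ y ∈ Set.Icc (0 : Fin 4 → ℝ) 1, |f y| ≤ 1) ∧
              ∃ x ∈ Set.Icc (0 : Fin 4 → ℝ) 1, ∃ l : Fin 5 → ℝ,
                ∑ j, l j = 1 ∧ ∑ j, l j • v j = x ∧ t = |∑ j, f (v j) * l j|} := by
  by_contra hlt
  rw [not_le] at hlt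
  have hu := MM_unit hv
  set Y := (MM v)⁻¹ with hY
  have hXY : MM v * Y = 1 := mul_nonsing_inv _ hu
  have hYX : Y * MM v = 1 := nonsing_inv_mul _ hu
  have hbd : BddAbove {t : ℝ | ∃ f : (Fin 4 → ℝ) → ℝ, ContinuousOn f (Set.Icc (0 : Fin 4 → ℝ) 1) ∧
              (∀ y ∈ Set.Icc (0 : Fin 4 → ℝ) 1, |f y| ≤ 1) ∧
              ∃ x ∈ Set.Icc (0 : Fin 4 → ℝ) 1, ∃ l : Fin 5 → ℝ,
                ∑ j, l j = 1 ∧ ∑ j, l j • v j = x ∧ t = |∑ j, f (v j) * l j|} := by
    refine ⟨∑ j, ∑ k, |Y j k|, ?_⟩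
    rintro t ⟨f, _, hf, x, hx, l, h1, h2, rfl⟩
    have h3 : l = Y *ᵥ hc x := by
      rw [← (MM_iff v l x).2 ⟨h1, h2⟩, mulVec_mulVec, hYX, one_mulVec]
    refine (abs_sum_le_sum_abs _ _).trans (sum_le_sum fun j _ => ?_)
    rw [abs_mul]
    refine (mul_le_of_le_one_left (abs_nonneg _) (hf _ (hq j))).trans ?_
    rw [h3]
    show |∑ k, Y j k * hc x k| ≤ _
    refine (abs_sum_le_sum_abs _ _).trans (sum_le_sum fun k _ => ?_)
    rw [abs_mul]
    exact mul_le_of_le_one_right (abs_nonneg _) (hc_abs hx k)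
  refine noF Y (MM v) hXY hYX (fun j => by simp [MM, hc]) (fun i j => hc_abs (hq j) i) fun y y0 yb => ?_
  refine le_trans (le_csSup hbd ?_) hlt.le
  set x : Fin 4 → ℝ := fun i => (y i.succ + 1) / 2 with hx
  have hxy : hc x = y := by
    funext k
    refine Fin.cases ?_ (fun i => ?_) k
    · simp [hc, y0]
    · simp only [hc, Fin.cons_succ, hx]; ring
  have hxq : x ∈ Set.Icc (0 : Fin 4 → ℝ) 1 := by
    constructor <;> intro i <;> have := abs_le.1 (yb i.succ) <;>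
      simp only [hx, Pi.zero_apply, Pi.one_apply] <;> linarith [this.1, this.2]
  set s : Fin 5 → ℝ := fun j => if 0 ≤ (Y *ᵥ y) j then 1 else -1 with hs
  have hl := (MM_iff v (Y *ᵥ y) x).1 (by rw [mulVec_mulVec, hXY, one_mulVec, hxy])
  refine ⟨fun z => max (-1) (min 1 (∑ j, s j * ∑ k, Y j k * hc z k)), ?_, fun z _ => ?_, x, hxq,
    Y *ᵥ y, hl.1, hl.2, ?_⟩
  · refine Continuous.continuousOn (continuous_const.max (continuous_const.min ?_))
    refine continuous_finsetSum _ fun j _ => continuous_const.mul (continuous_finsetSum _ fun k _ =>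
      continuous_const.mul ?_)
    refine Fin.cases ?_ (fun i => ?_) k
    · exact continuous_const
    · simp only [hc, Fin.cons_succ]; fun_prop
  · rw [abs_le]
    exact ⟨le_max_left _ _, max_le (by norm_num) (min_le_left _ _)⟩
  · have e : ∀ a, max (-1) (min 1 (∑ j, s j * ∑ k, Y j k * hc (v a) k)) = s a := by
      intro a
      have : ∀ j, ∑ k, Y j k * hc (v a) k = if j = a then 1 else 0 := fun j => by
        have := congrFun (congrFun hYX j) a
        rwa [mul_apply, one_apply] at this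
      simp only [this, mul_ite, mul_one, mul_zero, sum_ite_eq', mem_univ, if_true, hs]
      split_ifs <;> norm_num
    simp only [e]
    have e2 : ∀ j, s j * (Y *ᵥ y) j = |∑ k, Y j k * y k| := fun j => by
      show _ = |(Y *ᵥ y) j|
      simp only [hs]
      split_ifs with h
      · rw [abs_of_nonneg h, one_mul]
      · rw [abs_of_neg (not_le.1 h)]; ring
    simp only [e2]
    rw [abs_of_nonneg (sum_nonneg fun _ _ => abs_nonneg _)]

noncomputable def v0 : Fin 5 → Fin 4 → ℝ :=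
  ![![0, 33 / 142, 1, 0], ![1 / 2, 0, 1 / 2, 1], ![1, 1, 1, 109 / 142], ![1, 33 / 142, 0, 0],
    ![0, 1, 0, 109 / 142]]

lemma v0_ind : AffineIndependent ℝ v0 := by
  rw [affineIndependent_iff_of_fintype]
  intro w hw h
  rw [weightedVSub_eq_linear_combination _ hw] at h
  have h0 := congrFun h 0
  have h1 := congrFun h 1
  have h2 := congrFun h 2
  have h3 := congrFun h 3
  simp [Fin.sum_univ_five, v0] at hw h0 h1 h2 h3
  intro i
  fin_cases i <;> simp <;> linarith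

lemma v0_mem (j : Fin 5) : v0 j ∈ Set.Icc (0 : Fin 4 → ℝ) 1 := by
  constructor <;> intro i <;> fin_cases j <;> fin_cases i <;> simp [v0] <;> norm_num

noncomputable def la (x : Fin 4 → ℝ) : Fin 5 → ℝ :=
  ![10082 / 19075 - 1 / 2 * x 0 - 2343 / 19075 * x 1 + 1 / 2 * x 2 - 10082 / 19075 * x 3,
    33 / 175 - 142 / 175 * x 1 + 142 / 175 * x 3,
    -23761 / 38150 + 1 / 2 * x 0 + 10082 / 19075 * x 1 + 1 / 2 * x 2 + 2343 / 19075 * x 3,
    10082 / 19075 + 1 / 2 * x 0 - 2343 / 19075 * x 1 - 1 / 2 * x 2 - 10082 / 19075 * x 3,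
    14389 / 38150 - 1 / 2 * x 0 + 10082 / 19075 * x 1 - 1 / 2 * x 2 + 2343 / 19075 * x 3]

lemma cover : Set.Icc (0 : Fin 4 → ℝ) 1 ⊆
    (AffineMap.homothety ((5 : ℝ)⁻¹ • ∑ j, v0 j) (144 / 35 : ℝ)) '' convexHull ℝ (Set.range v0) := by
  intro x hx
  have a0 := hx.1 0
  have a1 := hx.1 1
  have a2 := hx.1 2
  have a3 := hx.1 3
  have b0 := hx.2 0
  have b1 := hx.2 1
  have b2 := hx.2 2
  have b3 := hx.2 3
  simp only [Pi.zero_apply, Pi.one_apply] at a0 a1 a2 a3 b0 b1 b2 b3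
  refine ⟨∑ j, (1 / 5 + (la x j - 1 / 5) * (35 / 144)) • v0 j, ?_, ?_⟩
  · refine (convex_convexHull ℝ _).sum_mem (fun j _ => ?_) ?_
      (fun j _ => subset_convexHull ℝ _ (Set.mem_range_self j))
    · fin_cases j <;> simp [la] <;> linarith
    · simp [Fin.sum_univ_five, la]; ring
  · rw [AffineMap.homothety_apply]
    funext i
    fin_cases i <;> simp [Fin.sum_univ_five, la, v0] <;> ring

theorem final :
    sInf ((fun v : Fin 5 → (Fin 4 → ℝ) =>
        sInf {σ : ℝ | 1 ≤ σ ∧ Set.Icc (0 : Fin 4 → ℝ) 1 ⊆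
          (AffineMap.homothety ((5 : ℝ)⁻¹ • ∑ j, v j) σ) '' convexHull ℝ (Set.range v)}) ''
        {v : Fin 5 → (Fin 4 → ℝ) | AffineIndependent ℝ v ∧ ∀ j, v j ∈ Set.Icc (0 : Fin 4 → ℝ) 1})
    < (5 / 2 : ℝ) *
        (sInf ((fun v : Fin 5 → (Fin 4 → ℝ) =>
            sSup {t : ℝ | ∃ f : (Fin 4 → ℝ) → ℝ, ContinuousOn f (Set.Icc (0 : Fin 4 → ℝ) 1) ∧
              (∀ y ∈ Set.Icc (0 : Fin 4 → ℝ) 1, |f y| ≤ 1) ∧
              ∃ x ∈ Set.Icc (0 : Fin 4 → ℝ) 1, ∃ l : Fin 5 → ℝ,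
                ∑ j, l j = 1 ∧ ∑ j, l j • v j = x ∧ t = |∑ j, f (v j) * l j|}) ''
            {v : Fin 5 → (Fin 4 → ℝ) | AffineIndependent ℝ v ∧ ∀ j, v j ∈ Set.Icc (0 : Fin 4 → ℝ) 1})
          - 1) + 1 := by
  refine lt_of_le_of_lt (b := 144 / 35) ?_ (lt_of_lt_of_le (b := (5 / 2 : ℝ) * (1123 / 500 - 1) + 1)
    (by norm_num) ?_)
  · refine le_trans (csInf_le ⟨0, ?_⟩ ⟨v0, ⟨v0_ind, v0_mem⟩, rfl⟩) ?_
    · rintro _ ⟨v, _, rfl⟩
      exact Real.sInf_nonneg fun σ h => zero_le_one.trans h.1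
    · exact csInf_le ⟨1, fun σ h => h.1⟩ ⟨by norm_num, cover⟩
  · refine add_le_add (mul_le_mul_of_nonneg_left (sub_le_sub_right ?_ _) (by norm_num)) le_rfl
    refine le_csInf ⟨_, v0, ⟨v0_ind, v0_mem⟩, rfl⟩ ?_
    rintro _ ⟨v, hv, rfl⟩
    exact theta v hv.1 hv.2

end Pool.Agent.H14.Th
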