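import Mathlib

set_option autoImplicit false

namespace Pool.Agent.H14.Trade

open Finset Matrix

/-- A complex Hadamard matrix of order `n`. -/
def IsHadamard {n : ℕ} (H : Matrix (Fin n) (Fin n) ℂ) : Prop :=
  (∀ i j, ‖H i j‖ = 1) ∧ H * Hᴴ = (n : ℂ) • (1 : Matrix (Fin n) (Fin n) ℂ)

/-- `T` is a trade of `H`: some other complex Hadamard matrix differs from `H` exactly on `T`. -/
def IsTrade {n : ℕ} (H : Matrix (Fin n) (Fin n) ℂ) (T : Finset (Fin n × Fin n)) : Prop :=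
  ∃ H' : Matrix (Fin n) (Fin n) ℂ, IsHadamard H' ∧ H' ≠ H ∧
    ∀ i j, (i, j) ∈ T ↔ H' i j ≠ H i j

lemma uncertainty {n : ℕ} {H : Matrix (Fin n) (Fin n) ℂ} (hH : IsHadamard H) (v : Fin n → ℂ)
    (hv : v ≠ 0) (A S : Finset (Fin n)) (hA : ∀ j, j ∉ A → (v ᵥ* Hᴴ) j = 0)
    (hS : ∀ k, k ∉ S → v k = 0) : n ≤ #A * #S := by
  have hn : (n : ℂ) ≠ 0 := by
    rintro h
    have : n = 0 := by exact_mod_cast h
    subst this
    exact hv (Subsingleton.elim _ _)
  have h1 : Hᴴ * H = (n : ℂ) • (1 : Matrix (Fin n) (Fin n) ℂ) := by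
    have h2 : H * ((n : ℂ)⁻¹ • Hᴴ) = 1 := by
      rw [Matrix.mul_smul, hH.2, smul_smul, inv_mul_cancel₀ hn, one_smul]
    have h3 := mul_eq_one_comm.1 h2
    rw [Matrix.smul_mul] at h3
    rw [← h3, smul_smul, mul_inv_cancel₀ hn, one_smul]
  obtain ⟨k, -, hk⟩ := exists_max_image univ (fun k => ‖v k‖)
    ⟨(Function.ne_iff.1 hv).choose, mem_univ _⟩
  have hpos : 0 < ‖v k‖ := by
    obtain ⟨l, hl⟩ := Function.ne_iff.1 hv
    exact lt_of_lt_of_le (norm_pos_iff.2 hl) (hk l (mem_univ _))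
  have h4 : ∀ j, ‖(v ᵥ* Hᴴ) j‖ ≤ #S * ‖v k‖ := by
    intro j
    have : (v ᵥ* Hᴴ) j = ∑ l ∈ S, v l * Hᴴ l j := by
      simp only [vecMul, dotProduct]
      exact (sum_subset (subset_univ S) fun l _ hl => by rw [hS l hl, zero_mul]).symm
    rw [this]
    refine (norm_sum_le _ _).trans ?_
    rw [← nsmul_eq_mul]
    refine sum_le_card_nsmul _ _ _ fun l _ => ?_
    rw [norm_mul, conjTranspose_apply, norm_star, hH.1, mul_one]
    exact hk l (mem_univ _)
  have h5 : (n : ℂ) * v k = ∑ j ∈ A, (v ᵥ* Hᴴ) j * H j k := by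
    have e : ((v ᵥ* Hᴴ) ᵥ* H) k = (n : ℂ) * v k := by
      rw [vecMul_vecMul, h1, vecMul_smul, vecMul_one]
      simp
    rw [← e]
    simp only [vecMul, dotProduct] at hA ⊢
    exact (sum_subset (subset_univ A) fun j _ hj => by rw [hA j hj, zero_mul]).symm
  have h6 : (n : ℝ) * ‖v k‖ ≤ #A * (#S * ‖v k‖) := by
    have : ‖(n : ℂ) * v k‖ = (n : ℝ) * ‖v k‖ := by simp
    rw [← this, h5]
    refine (norm_sum_le _ _).trans ?_
    rw [← nsmul_eq_mul]
    refine sum_le_card_nsmul _ _ _ fun j _ => ?_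
    rw [norm_mul, hH.1, mul_one]
    exact h4 j
  rw [← mul_assoc] at h6
  exact_mod_cast le_of_mul_le_mul_right h6 hpos

theorem main {n : ℕ} {H : Matrix (Fin n) (Fin n) ℂ} (hH : IsHadamard H)
    {T : Finset (Fin n × Fin n)} (hT : IsTrade H T) : n ≤ #T := by
  obtain ⟨H', hH', hne, hT⟩ := hT
  let A : Finset (Fin n) := T.image Prod.fst
  have hrow : ∀ j, j ∉ A → ∀ l, H' j l = H j l := by
    intro j hj l
    by_contra h
    exact hj (mem_image.2 ⟨(j, l), (hT j l).2 h, rfl⟩)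
  have key : ∀ i ∈ A, n ≤ #A * #{q ∈ T | q.1 = i} := by
    intro i hi
    obtain ⟨⟨i', l⟩, hq, rfl⟩ := mem_image.1 hi
    have h1 := uncertainty hH (fun k => H' i' k - H i' k)
      (fun h => (hT i' l).1 hq (sub_eq_zero.1 (congrFun h l))) A
      ((T.filter fun q => q.1 = i').image Prod.snd) ?_ ?_
    · exact h1.trans (Nat.mul_le_mul_left _ card_image_le)
    · intro j hj
      have hij : i' ≠ j := fun h => hj (h ▸ hi)
      have e1 := congrFun (congrFun hH.2 i') j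
      have e2 := congrFun (congrFun hH'.2 i') j
      simp only [mul_apply, conjTranspose_apply, Matrix.smul_apply, one_apply_ne hij,
        smul_zero] at e1 e2
      simp only [hrow j hj] at e2
      simp only [vecMul, dotProduct, conjTranspose_apply, sub_mul, sum_sub_distrib, e1, e2,
        sub_zero]
    · intro k hk
      by_contra h
      exact hk (mem_image.2 ⟨(i', k), mem_filter.2 ⟨(hT _ _).2 (sub_ne_zero.1 h), rfl⟩, rfl⟩)
  have hA : 0 < #A := by
    rw [card_pos]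
    by_contra h
    rw [not_nonempty_iff_eq_empty] at h
    exact hne (Matrix.ext fun i j => hrow i (by simp [h]) j)
  have h2 : #T = ∑ i ∈ A, #{q ∈ T | q.1 = i} := card_eq_sum_card_image Prod.fst T
  have h3 : #A * n ≤ #A * #T := by
    rw [h2, mul_sum]
    calc #A * n = ∑ _i ∈ A, n := by simp
      _ ≤ _ := sum_le_sum key
  exact Nat.le_of_mul_le_mul_left h3 hA

end Pool.Agent.H14.Trade
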