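import Mathlib

set_option autoImplicit false

namespace Pool.Agent.H14.Weier

open Finset Real

/-- The Weierstrass-type function attached to `g`. -/
noncomputable def W (α : ℝ) (b : ℕ) (g : ℝ → ℝ) (x : ℝ) : ℝ :=
  ∑' k : ℕ, (b : ℝ) ^ (-(α * k)) * g ((b : ℝ) ^ k * x)

/-- The distance on the circle `ℝ / ℤ`. -/
noncomputable def d (x y : ℝ) : ℝ := ⨅ n : ℤ, |x - y - n|

noncomputable def F (e s : ℝ) : ℝ := e * ⌊s⌋ + min (Int.fract s) e

lemma F_bd {e : ℝ} (h0 : 0 ≤ e) (h1 : e ≤ 1) {s t : ℝ} (h : s ≤ t) :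
    0 ≤ F e t - F e s ∧ F e t - F e s ≤ t - s := by
  have a := Int.fract_add_floor s
  have b := Int.fract_add_floor t
  have c := Int.fract_nonneg s
  have c' := Int.fract_nonneg t
  have f := (Int.fract_lt_one s).le
  unfold F
  rcases (Int.floor_mono h).eq_or_lt with k | k
  · rw [k] at a ⊢
    constructor <;> rcases le_total (Int.fract s) e with p | p <;>
      rcases le_total (Int.fract t) e with q | q <;> simp [p, q] <;> linarith
  · have k' : (⌊s⌋ : ℝ) + 1 ≤ ⌊t⌋ := by exact_mod_cast k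
    constructor <;> rcases le_total (Int.fract s) e with p | p <;>
      rcases le_total (Int.fract t) e with q | q <;> simp only [min_eq_left, min_eq_right, p, q] <;>
      nlinarith

noncomputable def G (M j : ℕ) (s : ℝ) : ℝ := F (1 / M) (s - j / M) - (s - j / M) / M

lemma G_per (M j : ℕ) : Function.Periodic (G M j) 1 := fun s => by
  simp only [G, F, show s + 1 - j / M = s - j / M + 1 by ring, Int.floor_add_one, Int.fract_add_one]
  push_cast
  ring

lemma G_bd {M : ℕ} (hM : 1 ≤ M) (j : ℕ) (s : ℝ) : |G M j s| ≤ 1 / M := by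
  have hM' : (1 : ℝ) ≤ M := by exact_mod_cast hM
  have e : G M j s = min (Int.fract (s - j / M)) (1 / M) - Int.fract (s - j / M) * (1 / M) := by
    simp only [G, F, Int.fract]; ring
  have c := Int.fract_nonneg (s - j / M)
  have f := (Int.fract_lt_one (s - j / M)).le
  have h0 : (0 : ℝ) ≤ 1 / M := by positivity
  have := le_min c h0
  have := min_le_right (Int.fract (s - j / M)) (1 / M)
  rw [e, abs_le]
  constructor <;> nlinarith

lemma G_step {M : ℕ} (hM : 1 ≤ M) (j : ℕ) {s t : ℝ} (h : s ≤ t) :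
    -((t - s) / M) ≤ G M j t - G M j s ∧ G M j t - G M j s ≤ t - s := by
  have hM' : (1 : ℝ) ≤ M := by exact_mod_cast hM
  obtain ⟨h1, h2⟩ := F_bd (e := 1 / M) (by positivity) (by rwa [div_le_one (by linarith)])
    (sub_le_sub_right h (j / M))
  have : 0 ≤ (t - s) / M := div_nonneg (by linarith) (by linarith)
  have e : G M j t - G M j s = F (1 / M) (t - j / M) - F (1 / M) (s - j / M) - (t - s) / M := by
    simp only [G]; ring
  constructor <;> linarith

lemma G_lip {M : ℕ} (hM : 1 ≤ M) (j : ℕ) : LipschitzWith 1 (G M j) := by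
  have hM' : (1 : ℝ) ≤ M := by exact_mod_cast hM
  refine LipschitzWith.of_dist_le_mul fun s t => ?_
  wlog h : t ≤ s generalizing s t
  · rw [dist_comm, dist_comm s]; exact this t s (by linarith)
  obtain ⟨h1, h2⟩ := G_step hM j h
  have := div_le_self (sub_nonneg.2 h) hM'
  rw [Real.dist_eq, Real.dist_eq, abs_of_nonneg (sub_nonneg.2 h), abs_le]
  constructor <;> simp <;> linarith

lemma G_jump {M : ℕ} (hM : 2 ≤ M) {s t : ℝ} (h : s + 2 / M ≤ t) :
    ∃ j < M, 1 / M - (t - s) / M ≤ G M j t - G M j s := by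
  have hM' : (2 : ℝ) ≤ M := by exact_mod_cast hM
  have h0 : (0 : ℝ) < M := by linarith
  obtain ⟨j, hj⟩ := Int.eq_ofNat_of_zero_le (Int.emod_nonneg ⌈s * M⌉ (b := M) (by omega))
  refine ⟨j, by have := Int.emod_lt_of_pos ⌈s * M⌉ (b := M) (by omega); omega, ?_⟩
  set n := ⌈s * M⌉ / (M : ℤ)
  have e : ((⌈s * M⌉ : ℤ) : ℝ) = M * n + j := by
    rw [← Int.mul_ediv_add_emod ⌈s * M⌉ M, hj]; push_cast; ring
  have a := Int.le_ceil (s * M)
  have b := (Int.ceil_lt_add_one (s * M)).le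
  have h1 : s - j / M ≤ n := by rw [sub_le_iff_le_add, ← mul_le_mul_iff_left₀ h0]; field_simp; linarith
  have h2 : n + 1 / M ≤ t - j / M := by
    have : (n : ℝ) + 1 / M + j / M ≤ s + 2 / M := by
      rw [← mul_le_mul_iff_left₀ h0]; field_simp; linarith
    linarith
  have e1 : (1 : ℝ) / M < 1 := by rw [div_lt_one h0]; linarith
  have k1 := (F_bd (e := 1 / M) (by positivity) e1.le h1).1
  have k2 := (F_bd (e := 1 / M) (by positivity) e1.le h2).1
  have k3 : F (1 / M) (n + 1 / M) - F (1 / M) n = 1 / M := by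
    have : Int.fract ((1 : ℝ) / M) = 1 / M := Int.fract_eq_self.2 ⟨by positivity, e1⟩
    have h5 : ⌊(1 : ℝ) / M⌋ = 0 := Int.floor_eq_zero_iff.2 ⟨by positivity, e1⟩
    simp only [F, Int.fract_intCast_add, this, Int.floor_intCast_add, h5, Int.floor_intCast,
      Int.fract_intCast]
    simp
  have e : G M j t - G M j s = F (1 / M) (t - j / M) - F (1 / M) (s - j / M) - (t - s) / M := by
    simp only [G]; ring
  linarith

variable {α : ℝ} {b : ℕ}

lemma W_eq (hb : 2 ≤ b) (g : ℝ → ℝ) (x : ℝ) :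
    W α b g x = ∑' k : ℕ, ((b : ℝ) ^ (-α)) ^ k * g ((b : ℝ) ^ k * x) := by
  unfold W
  congr 1
  funext k
  rw [← rpow_mul_natCast (by positivity), neg_mul]

lemma summ {l C : ℝ} (h0 : 0 ≤ l) (h1 : l < 1) {u : ℕ → ℝ} (h : ∀ k, |u k| ≤ C) :
    Summable fun k => l ^ k * u k :=
  Summable.of_norm_bounded ((summable_geometric_of_lt_one h0 h1).mul_right C) fun k => by
    rw [norm_mul, norm_pow, Real.norm_of_nonneg h0]
    exact mul_le_mul_of_nonneg_left (h k) (by positivity)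

lemma tail {l C : ℝ} (h0 : 0 ≤ l) (h1 : l < 1) {u : ℕ → ℝ} (h : ∀ k, |u k| ≤ C) (K : ℕ) :
    |∑' k, l ^ k * u k - ∑ k ∈ range K, l ^ k * u k| ≤ l ^ K * C * (1 - l)⁻¹ := by
  rw [← (summ h0 h1 h).sum_add_tsum_nat_add K, add_sub_cancel_left,
    ← tsum_geometric_of_lt_one h0 h1, ← tsum_mul_left, ← Real.norm_eq_abs]
  refine tsum_of_norm_bounded ((summable_geometric_of_lt_one h0 h1).mul_left _).hasSum fun k => ?_
  rw [norm_mul, norm_pow, Real.norm_of_nonneg h0, pow_add]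
  have := mul_le_mul_of_nonneg_left (h (k + K)) (show 0 ≤ l ^ k * l ^ K by positivity)
  rw [Real.norm_eq_abs]
  linarith

lemma geo {q : ℝ} (hq : 1 < q) (K : ℕ) : ∑ k ∈ range K, q ^ k ≤ q ^ K * (q - 1)⁻¹ := by
  rw [geom_sum_eq hq.ne', div_eq_mul_inv]
  exact mul_le_mul_of_nonneg_right (by linarith) (inv_nonneg.2 (by linarith))

lemma W_per {g : ℝ → ℝ} (hg : Function.Periodic g 1) (x : ℝ) (n : ℤ) :
    W α b g (x + n) = W α b g x := by
  unfold W
  congr 1
  funext k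
  have := (hg.int_mul (b ^ k * n)) ((b : ℝ) ^ k * x)
  push_cast at this
  rw [mul_add, ← this, mul_one]

lemma W_sub (hb : 2 ≤ b) (h0 : 0 < α) {g : ℝ → ℝ} {C : ℝ} (hg : ∀ s, |g s| ≤ C) (x y : ℝ) :
    W α b g x - W α b g y =
      ∑' k : ℕ, ((b : ℝ) ^ (-α)) ^ k * (g ((b : ℝ) ^ k * x) - g ((b : ℝ) ^ k * y)) := by
  have hb' : (1 : ℝ) < b := by exact_mod_cast hb
  have l1 := rpow_lt_one_of_one_lt_of_neg hb' (neg_neg_of_pos h0)
  rw [W_eq hb, W_eq hb, ← (summ (by positivity) l1 fun k => hg _).tsum_sub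
    (summ (by positivity) l1 fun k => hg _)]
  simp only [mul_sub]

lemma scale (hb : 2 ≤ b) (h0 : 0 < α) {t : ℝ} (t0 : 0 < t) (t1 : t ≤ 1) :
    ∃ K : ℕ, (b : ℝ) ^ K * t ≤ b ∧ 1 ≤ (b : ℝ) ^ K * t ∧ ((b : ℝ) ^ (-α)) ^ K ≤ t ^ α ∧
      (b : ℝ) ^ (-α) * t ^ α ≤ ((b : ℝ) ^ (-α)) ^ K := by
  have hb' : (1 : ℝ) < b := by exact_mod_cast hb
  obtain ⟨n, h1, h2⟩ := exists_nat_pow_near ((one_le_inv₀ t0).2 t1) hb'
  rw [le_inv_comm₀ (by positivity) t0] at h1
  rw [inv_lt_comm₀ t0 (by positivity)] at h2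
  have e : ∀ k : ℕ, ((b : ℝ) ^ (-α)) ^ k = (((b : ℝ) ^ k)⁻¹) ^ α := fun k => by
    rw [← rpow_mul_natCast (by positivity), inv_rpow (by positivity), ← rpow_natCast_mul (by positivity),
      ← rpow_neg (by positivity)]
    congr 1; ring
  refine ⟨n + 1, ?_, ?_, ?_, ?_⟩
  · rw [pow_succ', mul_assoc]
    exact mul_le_of_le_one_right (by positivity) ((le_inv_mul_iff₀ (by positivity)).1 (by simpa using h1))
  · exact (inv_mul_le_iff₀ (by positivity)).1 (by simpa using h2.le)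
  · rw [e]; exact rpow_le_rpow (by positivity) h2.le h0.le
  · rw [pow_succ', e]
    exact mul_le_mul_of_nonneg_left (rpow_le_rpow t0.le h1 h0.le) (by positivity)

lemma upper (hb : 2 ≤ b) (h0 : 0 < α) (h1 : α < 1) {g : ℝ → ℝ} {C : ℝ} {L : NNReal}
    (hg : ∀ s, |g s| ≤ C) (hL : LipschitzWith L g) :
    ∃ D, ∀ y t, 0 < t → t ≤ 1 → |W α b g (y + t) - W α b g y| ≤ D * t ^ α := by
  have hb' : (1 : ℝ) < b := by exact_mod_cast hb
  have l1 := rpow_lt_one_of_one_lt_of_neg hb' (neg_neg_of_pos h0)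
  have q1 : 1 < (b : ℝ) ^ (-α) * b := by
    rw [← rpow_add_one (by positivity)]; exact one_lt_rpow hb' (by linarith)
  have l0 : 0 < (b : ℝ) ^ (-α) := by positivity
  have C0 : 0 ≤ C := (abs_nonneg _).trans (hg 0)
  refine ⟨L * b * ((b : ℝ) ^ (-α) * b - 1)⁻¹ + 2 * C * (1 - (b : ℝ) ^ (-α))⁻¹, fun y t t0 t1 => ?_⟩
  obtain ⟨K, k1, -, k3, -⟩ := scale hb h0 t0 t1
  rw [W_sub hb h0 hg]
  set l := (b : ℝ) ^ (-α)
  have a := tail (C := 2 * C) (u := fun k => g ((b : ℝ) ^ k * (y + t)) - g ((b : ℝ) ^ k * y))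
    l0.le l1 (fun k => (abs_sub _ _).trans (by linarith [hg ((b : ℝ) ^ k * (y + t)), hg ((b : ℝ) ^ k * y)])) K
  have c : |∑ k ∈ range K, l ^ k * (g ((b : ℝ) ^ k * (y + t)) - g ((b : ℝ) ^ k * y))| ≤
      L * t * ∑ k ∈ range K, (l * b) ^ k := by
    rw [mul_sum]
    refine (abs_sum_le_sum_abs _ _).trans (sum_le_sum fun k _ => ?_)
    have := hL.dist_le_mul ((b : ℝ) ^ k * (y + t)) ((b : ℝ) ^ k * y)
    rw [Real.dist_eq, Real.dist_eq, mul_add, add_sub_cancel_left, abs_of_pos (a := _ * t) (by positivity)] at this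
    rw [abs_mul, abs_of_pos (by positivity), mul_add, mul_pow]
    nlinarith [mul_le_mul_of_nonneg_left this (pow_pos l0 k).le]
  have e := mul_le_mul_of_nonneg_left (geo q1 K) (show 0 ≤ L * t by positivity)
  have i1 : 0 ≤ (l * b - 1)⁻¹ := inv_nonneg.2 (by linarith)
  have i2 : 0 ≤ (1 - l)⁻¹ := inv_nonneg.2 (by linarith)
  have f : L * t * ((l * b) ^ K * (l * b - 1)⁻¹) ≤ L * b * (l * b - 1)⁻¹ * t ^ α := by
    have := mul_le_mul_of_nonneg_left (mul_le_mul k1 k3 (by positivity) (by positivity))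
      (show 0 ≤ L * (l * b - 1)⁻¹ by positivity)
    rw [mul_pow]
    linarith
  have f2 := mul_le_mul_of_nonneg_right k3 (show 0 ≤ 2 * C * (1 - l)⁻¹ by positivity)
  have := abs_sub_abs_le_abs_sub (∑' k, l ^ k * (g ((b : ℝ) ^ k * (y + t)) - g ((b : ℝ) ^ k * y)))
    (∑ k ∈ range K, l ^ k * (g ((b : ℝ) ^ k * (y + t)) - g ((b : ℝ) ^ k * y)))
  linarith

lemma lower (hb : 2 ≤ b) (h0 : 0 < α) (h1 : α < 1) : ∃ M : ℕ, 2 ≤ M ∧ ∃ c > 0, ∃ τ > 0,
    ∀ y t, 0 < t → t ≤ τ → ∃ j < M, c * t ^ α ≤ W α b (G M j) (y + t) - W α b (G M j) y := by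
  have hb' : (1 : ℝ) < b := by exact_mod_cast hb
  have l1 := rpow_lt_one_of_one_lt_of_neg hb' (neg_neg_of_pos h0)
  have q1 : 1 < (b : ℝ) ^ (-α) * b := by
    rw [← rpow_add_one (by positivity)]; exact one_lt_rpow hb' (by linarith)
  have l0 : 0 < (b : ℝ) ^ (-α) := by positivity
  have i1 : 0 ≤ ((b : ℝ) ^ (-α) * b - 1)⁻¹ := inv_nonneg.2 (by linarith)
  have i2 : 0 ≤ (1 - (b : ℝ) ^ (-α))⁻¹ := inv_nonneg.2 (by linarith)
  obtain ⟨r, hr⟩ := exists_pow_lt_of_lt_one (show 0 < (b * ((b : ℝ) ^ (-α) * b - 1)⁻¹ +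
    2 * (1 - (b : ℝ) ^ (-α))⁻¹ + 1)⁻¹ by positivity) l1
  have hM : 2 ≤ 2 * b ^ (r + 1) := by have := Nat.one_le_pow (r + 1) b (by omega); omega
  refine ⟨_, hM, (b : ℝ) ^ (-α) / (2 * b ^ (r + 1) : ℕ), by positivity, ((b : ℝ) ^ (r + 1))⁻¹,
    by positivity, fun y t t0 t1 => ?_⟩
  obtain ⟨K, k1, k2, -, k4⟩ := scale hb h0 t0
    (t1.trans (inv_le_one_of_one_le₀ (one_le_pow₀ hb'.le)))
  obtain ⟨i, rfl⟩ : ∃ i, K = i + (r + 1) := by
    refine ⟨K - (r + 1), (Nat.sub_add_cancel ((pow_le_pow_iff_right₀ hb').1 ?_)).symm⟩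
    have := k2.trans (mul_le_mul_of_nonneg_left t1 (by positivity))
    rwa [← div_eq_mul_inv, one_le_div (by positivity)] at this
  set M := 2 * b ^ (r + 1) with hM'
  have M0 : (0 : ℝ) < M := by positivity
  obtain ⟨j, hj, hJ⟩ := G_jump hM (s := (b : ℝ) ^ i * y) (t := (b : ℝ) ^ i * (y + t)) (by
    rw [mul_add, add_le_add_iff_left, div_le_iff₀ M0, hM']
    rw [pow_add] at k2
    push_cast
    linarith)
  refine ⟨j, hj, ?_⟩
  rw [W_sub hb h0 (G_bd (by omega) j)]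
  set l := (b : ℝ) ^ (-α)
  set u : ℕ → ℝ := fun k => G M j ((b : ℝ) ^ k * (y + t)) - G M j ((b : ℝ) ^ k * y)
  have a := (abs_le.1 (tail (C := 2 * (1 / M)) (u := u) l0.le l1 (fun k => (abs_sub _ _).trans (by
    linarith [G_bd (M := M) (by omega) j ((b : ℝ) ^ k * (y + t)),
      G_bd (M := M) (by omega) j ((b : ℝ) ^ k * y)])) (i + (r + 1)))).1
  have c : l ^ i * (1 / M) ≤ ∑ k ∈ range (i + (r + 1)), (l ^ k * u k + t / M * (l * b) ^ k) := by
    refine le_trans ?_ (single_le_sum (f := fun k => l ^ k * u k + t / M * (l * b) ^ k)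
      (fun k _ => ?_) (mem_range.2 (show i < i + (r + 1) by omega)))
    · have := mul_le_mul_of_nonneg_left hJ (pow_pos l0 i).le
      simp only [u, mul_pow]
      refine le_of_sub_nonneg (le_of_le_of_eq (sub_nonneg.2 this) ?_)
      ring
    · have := mul_le_mul_of_nonneg_left (G_step (M := M) (by omega) j
        (s := (b : ℝ) ^ k * y) (t := (b : ℝ) ^ k * (y + t)) (by nlinarith [pow_pos (by linarith : (0 : ℝ) < b) k])).1 (pow_pos l0 k).le
      simp only [u, mul_pow]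
      refine le_of_le_of_eq (sub_nonneg.2 this) ?_
      ring
  rw [sum_add_distrib, ← mul_sum] at c
  have e := mul_le_mul_of_nonneg_left (geo q1 (i + (r + 1))) (show 0 ≤ t / M by positivity)
  have f : t / M * ((l * b) ^ (i + (r + 1)) * (l * b - 1)⁻¹) ≤
      l ^ (i + (r + 1)) * (1 / M) * (b * (l * b - 1)⁻¹) := by
    have := mul_le_mul_of_nonneg_left k1 (show 0 ≤ l ^ (i + (r + 1)) * (1 / M) * (l * b - 1)⁻¹ by positivity)
    rw [mul_pow]
    refine le_of_eq_of_le ?_ (this.trans_eq ?_) <;> ring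
  have g1 : l ^ (i + (r + 1)) * (b * (l * b - 1)⁻¹ + 2 * (1 - l)⁻¹ + 1) ≤ l ^ i := by
    rw [pow_add, mul_assoc]
    refine mul_le_of_le_one_right (by positivity) ?_
    rw [← le_div_iff₀ (by positivity), one_div]
    exact (pow_le_pow_of_le_one l0.le l1.le (Nat.le_succ r)).trans hr.le
  have g2 := mul_le_mul_of_nonneg_right g1 (show 0 ≤ (1 : ℝ) / M by positivity)
  have g3 := mul_le_mul_of_nonneg_right k4 (show 0 ≤ (1 : ℝ) / M by positivity)
  have : l / M * t ^ α = l * t ^ α * (1 / M) := by ring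
  change _ ≤ ∑' k, l ^ k * u k
  nlinarith

lemma tele (hb : 2 ≤ b) (h0 : 0 < α) {h : ℝ → ℝ} (hh : ∀ s, |h s| ≤ 1) (x : ℝ) :
    W α b (fun s => h s - (b : ℝ) ^ (-α) * h (b * s)) x = h x := by
  have hb' : (1 : ℝ) < b := by exact_mod_cast hb
  have l1 := rpow_lt_one_of_one_lt_of_neg hb' (neg_neg_of_pos h0)
  have s := summ (u := fun k => h ((b : ℝ) ^ k * x)) (by positivity) l1 fun k => hh _
  rw [W_eq hb]
  have e : ∀ k : ℕ, ((b : ℝ) ^ (-α)) ^ k * (h ((b : ℝ) ^ k * x) - (b : ℝ) ^ (-α) * h (b * ((b : ℝ) ^ k * x))) =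
      ((b : ℝ) ^ (-α)) ^ k * h ((b : ℝ) ^ k * x) - ((b : ℝ) ^ (-α)) ^ (k + 1) * h ((b : ℝ) ^ (k + 1) * x) := by
    intro k; rw [pow_succ' (b : ℝ), mul_assoc (b : ℝ)]; ring
  simp only [e]
  rw [s.tsum_sub ((summable_nat_add_iff 1).2 s), s.tsum_eq_zero_add]
  simp

/-- The Weierstrass embedding of a finite family. -/
noncomputable def Phi (α : ℝ) (b : ℕ) {m : ℕ} (g : Fin m → ℝ → ℝ) (x : ℝ) :
    EuclideanSpace ℝ (Fin m) := WithLp.toLp 2 fun i => W α b (g i) x

lemma d_eq (x y : ℝ) : d x y = |x - y - round (x - y)| :=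
  le_antisymm (ciInf_le ⟨0, by rintro _ ⟨n, rfl⟩; exact abs_nonneg _⟩ _)
    (le_ciInf fun n => round_le _ n)

theorem main (hb : 2 ≤ b) (h0 : 0 < α) (h1 : α < 1) : ∃ m, 1 ≤ m ∧ ∃ g : Fin m → ℝ → ℝ,
    (∀ i, Function.Periodic (g i) 1 ∧ ∃ L, LipschitzWith L (g i)) ∧ ∃ C : ℝ, 1 ≤ C ∧ ∀ x y,
      C⁻¹ * d x y ^ α ≤ ‖Phi α b g x - Phi α b g y‖ ∧
      ‖Phi α b g x - Phi α b g y‖ ≤ C * d x y ^ α := by
  have hb' : (1 : ℝ) < b := by exact_mod_cast hb
  have l1 := rpow_lt_one_of_one_lt_of_neg hb' (neg_neg_of_pos h0)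
  have l0 : 0 < (b : ℝ) ^ (-α) := by positivity
  obtain ⟨M, hM, c, c0, τ, τ0, hl⟩ := lower hb h0 h1
  obtain ⟨N, hN⟩ := exists_nat_ge (max 2 (2 / τ))
  have N2 : 2 ≤ N := by exact_mod_cast (le_max_left _ _).trans hN
  have N0 : (0 : ℝ) < N := by positivity
  have G1 : ∀ {M : ℕ}, 2 ≤ M → ∀ j s, |G M j s| ≤ 1 := fun h j s => (G_bd (by omega) j s).trans
    (div_le_one_of_le₀ (by exact_mod_cast (by omega)) (by positivity))
  let g : Fin (M + N) → ℝ → ℝ := fun i => if i.1 < M then G M i else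
    fun s => G N (i - M) s - (b : ℝ) ^ (-α) * G N (i - M) (b * s)
  have hg : ∀ i, Function.Periodic (g i) 1 ∧ (∃ L, LipschitzWith L (g i)) ∧ ∀ s, |g i s| ≤ 2 := by
    intro i
    simp only [g]
    split_ifs
    · exact ⟨G_per _ _, ⟨1, G_lip (by omega) _⟩, fun s => (G1 hM _ s).trans one_le_two⟩
    · refine ⟨fun s => ?_, ⟨1 + b, LipschitzWith.of_dist_le_mul fun s t => ?_⟩, fun s => ?_⟩
      · have := (G_per N (i - M)).nat_mul b (b * s)
        simp only [G_per N (i - M) s, mul_add, this]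
      · have a := (G_lip (M := N) (by omega) (i - M)).dist_le_mul s t
        have a' := (G_lip (M := N) (by omega) (i - M)).dist_le_mul (b * s) (b * t)
        simp only [Real.dist_eq, NNReal.coe_one, one_mul, ← mul_sub, abs_mul, Nat.abs_cast] at a a' ⊢
        rw [sub_sub_sub_comm, ← mul_sub]
        refine (abs_sub _ _).trans ?_
        rw [abs_mul, abs_of_pos l0]
        push_cast
        nlinarith [abs_nonneg (G N (i - M) (b * s) - G N (i - M) (b * t))]
      · refine (abs_sub _ _).trans ?_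
        rw [abs_mul, abs_of_pos l0]
        nlinarith [G1 N2 (i - M) s, G1 N2 (i - M) (b * s), abs_nonneg (G N (i - M) (b * s))]
  choose D hD using fun i => (hg i).2.1.elim fun L hL => upper hb h0 h1 (hg i).2.2 hL
  refine ⟨M + N, by omega, g, fun i => ⟨(hg i).1, (hg i).2.1⟩,
    max 1 (max (∑ i, D i) (max c⁻¹ (2 * N))), le_max_left _ _, ?_⟩
  set C := max 1 (max (∑ i, D i) (max c⁻¹ (2 * (N : ℝ))))
  have C0 : 0 < C := one_pos.trans_le (le_max_left _ _)
  have key : ∀ y t, 0 < t → t ≤ 1 / 2 → C⁻¹ * t ^ α ≤ ‖Phi α b g (y + t) - Phi α b g y‖ ∧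
      ‖Phi α b g (y + t) - Phi α b g y‖ ≤ C * t ^ α := by
    intro y t t0 t1
    have ap : ∀ i, W α b (g i) (y + t) - W α b (g i) y ≤ ‖Phi α b g (y + t) - Phi α b g y‖ :=
      fun i => (le_abs_self _).trans (PiLp.norm_apply_le (Phi α b g (y + t) - Phi α b g y) i)
    have tp : 0 ≤ t ^ α := by positivity
    constructor
    · rcases le_total t τ with h | h
      · obtain ⟨j, hj, k⟩ := hl y t t0 h
        have := ap ⟨j, by omega⟩
        simp only [g, if_pos hj] at this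
        refine le_trans (mul_le_mul_of_nonneg_right ?_ tp) (k.trans this)
        exact inv_le_of_inv_le₀ c0 (le_max_of_le_right (le_max_of_le_right (le_max_left _ _)))
      · obtain ⟨j, hj, k⟩ := G_jump N2 (s := y) (t := y + t) (by
          have := (div_le_iff₀ τ0).1 ((le_max_right _ _).trans hN)
          rw [add_le_add_iff_left, div_le_iff₀ N0]
          nlinarith)
        have := ap ⟨M + j, by omega⟩
        simp only [g, if_neg (show ¬ M + j < M by omega), add_tsub_cancel_left,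
          tele hb h0 (G1 N2 j)] at this
        refine le_trans ?_ (k.trans this)
        have a : t ^ α ≤ 1 := rpow_le_one t0.le (by linarith) h0.le
        have a' : C⁻¹ ≤ (2 * N : ℝ)⁻¹ := inv_anti₀ (by positivity)
          (le_max_of_le_right (le_max_of_le_right (le_max_right _ _)))
        refine (mul_le_of_le_one_right (by positivity) a).trans (a'.trans ?_)
        rw [← sub_div, le_div_iff₀ N0, mul_inv, mul_assoc, inv_mul_cancel₀ N0.ne']
        linarith
    · refine le_trans ?_ (mul_le_mul_of_nonneg_right (le_max_of_le_right (le_max_left _ _)) tp)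
      rw [EuclideanSpace.norm_eq, sum_mul]
      refine sqrt_le_iff.2 ⟨sum_nonneg fun i _ => (abs_nonneg _).trans (hD i y t t0 (by linarith)), ?_⟩
      refine (sum_le_sum fun i _ => pow_le_pow_left₀ (norm_nonneg _) (hD i y t t0 (by linarith)) 2).trans
        (sum_sq_le_sq_sum_of_nonneg fun i _ => (abs_nonneg _).trans (hD i y t t0 (by linarith)))
  intro x y
  have e : Phi α b g y = Phi α b g (y + round (x - y)) := by
    simp only [Phi, W_per (hg _).1]
  have a := abs_sub_round (x - y)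
  rw [d_eq, e]
  rcases lt_trichotomy (x - y - round (x - y)) 0 with h | h | h
  · rw [abs_of_neg h] at a ⊢
    have := key x _ (neg_pos.2 h) a
    rwa [norm_sub_rev, show x + -(x - y - round (x - y)) = y + round (x - y) by ring] at this
  · rw [h, show y + round (x - y) = x by linarith]
    simp [h0.ne']
  · rw [abs_of_pos h] at a ⊢
    have := key (y + round (x - y)) _ h a
    rwa [show y + round (x - y) + (x - y - round (x - y)) = x by ring] at this

end Pool.Agent.H14.Weier
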